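import Mathlib
import Pool.Agent.Lib.MP_bd3808_ag.BO.Defs

section

/-!
# Classes of pairs (finite-dimensional space, automorphism) in `ℤ × Additive kˣ`
-/

set_option autoImplicit false

noncomputable section

namespace BO

universe w

variable (k : Type w) [Field k]

/-- The group `ℤ × kˣ` (written additively). -/
abbrev KG : Type w := ℤ × Additive kˣ

variable {k}

/-- The class (dimension, determinant) of an automorphism of a `k`-vector space. -/
def kcls {V : Type*} [AddCommGroup V] [Module k V] (e : V ≃ₗ[k] V) : KG k :=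
  (Module.finrank k V, Additive.ofMul (LinearEquiv.det e))

end BO
end
end

section

/-!
# `kcls`: conjugation and short exact sequences. TASK KGa: prove the three statements.
-/

set_option autoImplicit false

noncomputable section

namespace BO

universe w

variable {k : Type w} [Field k]

/-- Conjugate automorphisms have the same class.

PROOF. `f.finrank_eq` and `LinearEquiv.det_conj` (`e = f ≫ e' ≫ f⁻¹`). -/
theorem kcls_conj {V W : Type*} [AddCommGroup V] [Module k V] [AddCommGroup W] [Module k W]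
    (e : V ≃ₗ[k] V) (e' : W ≃ₗ[k] W) (f : V ≃ₗ[k] W) (h : ∀ x, f (e x) = e' (f x)) :
    kcls e = kcls e' := by
  unfold kcls
  have h1 : e' = f.symm.trans (e.trans f) := by
    ext x
    simp [h]
  have h2 : LinearEquiv.det e' = LinearEquiv.det e := by
    rw [h1]
    exact LinearEquiv.det_conj e f
  rw [f.finrank_eq, h2]

/-- The zero space has class `0`: `finrank = 0` and the determinant is `1`. -/
theorem kcls_of_subsingleton {V : Type*} [AddCommGroup V] [Module k V] [Subsingleton V]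
    (e : V ≃ₗ[k] V) : kcls e = 0 := by
  unfold kcls
  have h1 : e = 1 := by
    ext x
    exact Subsingleton.elim _ _
  rw [Module.finrank_zero_of_subsingleton, h1, map_one]
  rfl

/-- Additivity in a short exact sequence `0 → U → V → W → 0`.

PROOF. `U`, `W` are finite. Dimensions: rank-nullity. Determinants: transport to the submodule `range f = ker g`
and the quotient, then `LinearMap.det_eq_det_mul_det` (or choose a complement/basis; block triangular). -/
theorem kcls_short {U V W : Type*} [AddCommGroup U] [Module k U] [AddCommGroup V] [Module k V]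
    [AddCommGroup W] [Module k W] [Module.Finite k V]
    (eU : U ≃ₗ[k] U) (eV : V ≃ₗ[k] V) (eW : W ≃ₗ[k] W) (f : U →ₗ[k] V) (g : V →ₗ[k] W)
    (hf : ∀ x, f (eU x) = eV (f x)) (hg : ∀ x, g (eV x) = eW (g x))
    (inj : Function.Injective f) (surj : Function.Surjective g)
    (ex : ∀ y, g y = 0 ↔ ∃ x, f x = y) : kcls eV = kcls eU + kcls eW := by
  have hrange : LinearMap.range f = LinearMap.ker g := by
    ext y
    rw [LinearMap.mem_range, LinearMap.mem_ker, ex]
  set N : Submodule k V := LinearMap.range f with hN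
  have hle : N ≤ N.comap (eV : V →ₗ[k] V) := by
    rintro y ⟨x, rfl⟩
    exact ⟨eU x, hf x⟩
  -- the determinants
  have hdetU : ((eV : V →ₗ[k] V).restrict hle).det = LinearMap.det (eU : U →ₗ[k] U) := by
    have h1 : (eV : V →ₗ[k] V).restrict hle
        = (LinearEquiv.ofInjective f inj : U →ₗ[k] N) ∘ₗ (eU : U →ₗ[k] U) ∘ₗ
          ((LinearEquiv.ofInjective f inj).symm : N →ₗ[k] U) := by
      ext ⟨y, hy⟩
      obtain ⟨x, rfl⟩ := hy
      have h2 : (LinearEquiv.ofInjective f inj).symm ⟨f x, ⟨x, rfl⟩⟩ = x := by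
        rw [LinearEquiv.symm_apply_eq]
        rfl
      show eV (f x) = f (eU ((LinearEquiv.ofInjective f inj).symm ⟨f x, ⟨x, rfl⟩⟩))
      rw [h2, hf]
    rw [h1]
    exact LinearMap.det_conj _ _
  have hker : ∀ y, y ∈ N ↔ g y = 0 := by
    intro y
    rw [hrange, LinearMap.mem_ker]
  set Q : (V ⧸ N) ≃ₗ[k] W := (Submodule.quotEquivOfEq N (LinearMap.ker g) hrange).trans
    (g.quotKerEquivOfSurjective surj) with hQ
  have hQm : ∀ y, Q (N.mkQ y) = g y := by
    intro y
    rfl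
  have hdetW : (N.mapQ N (eV : V →ₗ[k] V) hle).det = LinearMap.det (eW : W →ₗ[k] W) := by
    have h1 : N.mapQ N (eV : V →ₗ[k] V) hle
        = (Q.symm : W →ₗ[k] (V ⧸ N)) ∘ₗ (eW : W →ₗ[k] W) ∘ₗ
          (Q.symm.symm : (V ⧸ N) →ₗ[k] W) := by
      apply LinearMap.ext
      intro z
      obtain ⟨y, rfl⟩ := N.mkQ_surjective z
      show N.mkQ (eV y) = Q.symm (eW (Q (N.mkQ y)))
      rw [LinearEquiv.eq_symm_apply, hQm, hQm, hg]
    rw [h1]
    exact LinearMap.det_conj _ _
  have hdet : LinearMap.det (eV : V →ₗ[k] V)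
      = LinearMap.det (eU : U →ₗ[k] U) * LinearMap.det (eW : W →ₗ[k] W) := by
    rw [LinearMap.det_eq_det_mul_det N (eV : V →ₗ[k] V) hle, hdetU, hdetW]
  have hdet' : LinearEquiv.det eV = LinearEquiv.det eU * LinearEquiv.det eW := by
    apply Units.ext
    rw [Units.val_mul, LinearEquiv.coe_det, LinearEquiv.coe_det, LinearEquiv.coe_det]
    exact hdet
  have hdim : Module.finrank k V = Module.finrank k U + Module.finrank k W := by
    have h1 := Submodule.finrank_quotient_add_finrank N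
    rw [← Q.finrank_eq, (LinearEquiv.ofInjective f inj).finrank_eq]
    rw [← h1, add_comm]
  unfold kcls
  rw [hdim, hdet']
  push_cast
  rfl

end BO
end
end

section

/-!
# `kcls`: long exact sequences. TASK KGb.
-/

set_option autoImplicit false

noncomputable section

namespace BO

universe w

variable {k : Type w} [Field k]

private theorem KGb_smul_add (u : ℤˣ) (a b : KG k) : u • (a + b) = u • a + u • b := by
  rw [Units.smul_def, Units.smul_def, Units.smul_def]
  exact zsmul_add a b (u : ℤ)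

private theorem KGb_supp {P : ℤ → KG k} {S : Set ℤ} (hS : S.Finite) (h : ∀ n, n ∉ S → P n = 0) :
    (Function.support fun n : ℤ => n.negOnePow • P n).Finite := by
  refine hS.subset fun n hn => ?_
  by_contra hc
  exact hn (by simp only [h n hc, smul_zero])

/-- Additivity of the alternating sum in a long exact sequence with finite support.

PROOF. Let `P n ⊆ A n` be the kernel of `f n` (= range of `h (n-1)`), `R n ⊆ B n` the kernel of `g n` (= range of
`f n`), `T n ⊆ D n` the kernel of `h n` (= range of `g n`). All are stable under the automorphisms; `kcls_short` gives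
`kcls (A n) = p n + r n`, `kcls (B n) = r n + t n`, `kcls (D n) = t n + p (n+1)` with the classes `p, r, t` of
`P, R, T` (`A n / P n ≃ R n` etc.). All have finite support, so the sum of `(-1)^n (A n + D n - B n)` is
`∑ (-1)^n (p n + p (n+1)) = 0` (shift of the index). -/
theorem kcls_long {A B D : ℤ → Type*}
    [∀ n, AddCommGroup (A n)] [∀ n, Module k (A n)] [∀ n, Module.Finite k (A n)]
    [∀ n, AddCommGroup (B n)] [∀ n, Module k (B n)] [∀ n, Module.Finite k (B n)]
    [∀ n, AddCommGroup (D n)] [∀ n, Module k (D n)] [∀ n, Module.Finite k (D n)]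
    (hA : {n | Nontrivial (A n)}.Finite) (hB : {n | Nontrivial (B n)}.Finite)
    (hD : {n | Nontrivial (D n)}.Finite)
    (eA : ∀ n, A n ≃ₗ[k] A n) (eB : ∀ n, B n ≃ₗ[k] B n) (eD : ∀ n, D n ≃ₗ[k] D n)
    (f : ∀ n, A n →ₗ[k] B n) (g : ∀ n, B n →ₗ[k] D n) (h : ∀ n, D n →ₗ[k] A (n + 1))
    (hf : ∀ n x, f n (eA n x) = eB n (f n x)) (hg : ∀ n x, g n (eB n x) = eD n (g n x))
    (hh : ∀ n x, h n (eD n x) = eA (n + 1) (h n x))
    (exB : ∀ n y, g n y = 0 ↔ ∃ x, f n x = y)
    (exD : ∀ n y, h n y = 0 ↔ ∃ x, g n x = y)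
    (exA : ∀ n y, f (n + 1) y = 0 ↔ ∃ x, h n x = y) :
    ∑ᶠ n : ℤ, n.negOnePow • kcls (eB n)
      = ∑ᶠ n : ℤ, n.negOnePow • kcls (eA n) + ∑ᶠ n : ℤ, n.negOnePow • kcls (eD n) := by
  -- the three families of submodules
  have mP : ∀ n, (LinearMap.ker (f n)).map (eA n : A n →ₗ[k] A n) = LinearMap.ker (f n) := by
    intro n
    ext y
    constructor
    · rintro ⟨x, hx, rfl⟩
      have hx' : f n x = 0 := hx
      change f n (eA n x) = 0
      rw [hf, hx', map_zero]
    · intro hy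
      have hy' : f n y = 0 := hy
      refine ⟨(eA n).symm y, ?_, (eA n).apply_symm_apply y⟩
      change f n ((eA n).symm y) = 0
      apply (eB n).injective
      rw [← hf, (eA n).apply_symm_apply, hy', map_zero]
  have mR : ∀ n, (LinearMap.range (f n)).map (eB n : B n →ₗ[k] B n) = LinearMap.range (f n) := by
    intro n
    ext y
    constructor
    · rintro ⟨_, ⟨x, rfl⟩, rfl⟩
      exact ⟨eA n x, hf n x⟩
    · rintro ⟨x, rfl⟩
      refine ⟨f n ((eA n).symm x), ⟨_, rfl⟩, ?_⟩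
      change eB n (f n ((eA n).symm x)) = f n x
      rw [← hf, (eA n).apply_symm_apply]
  have mT : ∀ n, (LinearMap.range (g n)).map (eD n : D n →ₗ[k] D n) = LinearMap.range (g n) := by
    intro n
    ext y
    constructor
    · rintro ⟨_, ⟨x, rfl⟩, rfl⟩
      exact ⟨eB n x, hg n x⟩
    · rintro ⟨x, rfl⟩
      refine ⟨g n ((eB n).symm x), ⟨_, rfl⟩, ?_⟩
      change eD n (g n ((eB n).symm x)) = g n x
      rw [← hg, (eB n).apply_symm_apply]
  obtain ⟨eP, heP⟩ : ∃ eP : ∀ n, LinearMap.ker (f n) ≃ₗ[k] LinearMap.ker (f n),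
      ∀ n x, ((eP n x : LinearMap.ker (f n)) : A n) = eA n x :=
    ⟨fun n => (eA n).ofSubmodules _ _ (mP n), fun n x => rfl⟩
  obtain ⟨eR, heR⟩ : ∃ eR : ∀ n, LinearMap.range (f n) ≃ₗ[k] LinearMap.range (f n),
      ∀ n x, ((eR n x : LinearMap.range (f n)) : B n) = eB n x :=
    ⟨fun n => (eB n).ofSubmodules _ _ (mR n), fun n x => rfl⟩
  obtain ⟨eT, heT⟩ : ∃ eT : ∀ n, LinearMap.range (g n) ≃ₗ[k] LinearMap.range (g n),
      ∀ n x, ((eT n x : LinearMap.range (g n)) : D n) = eD n x :=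
    ⟨fun n => (eD n).ofSubmodules _ _ (mT n), fun n x => rfl⟩
  have s1 : ∀ n, kcls (eA n) = kcls (eP n) + kcls (eR n) := by
    intro n
    refine kcls_short (eP n) (eA n) (eR n) (LinearMap.ker (f n)).subtype (f n).rangeRestrict
      (fun x => heP n x) (fun x => Subtype.ext ?_) Subtype.val_injective
      (f n).surjective_rangeRestrict (fun y => ?_)
    · rw [heR]
      exact hf n x
    · constructor
      · intro hy
        exact ⟨⟨y, congrArg Subtype.val hy⟩, rfl⟩
      · rintro ⟨x, rfl⟩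
        exact Subtype.ext x.2
  have s2 : ∀ n, kcls (eB n) = kcls (eR n) + kcls (eT n) := by
    intro n
    refine kcls_short (eR n) (eB n) (eT n) (LinearMap.range (f n)).subtype (g n).rangeRestrict
      (fun x => heR n x) (fun x => Subtype.ext ?_) Subtype.val_injective
      (g n).surjective_rangeRestrict (fun y => ?_)
    · rw [heT]
      exact hg n x
    · constructor
      · intro hy
        obtain ⟨x, hx⟩ := (exB n y).1 (congrArg Subtype.val hy)
        exact ⟨⟨y, x, hx⟩, rfl⟩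
      · rintro ⟨⟨y, x, hx⟩, rfl⟩
        exact Subtype.ext ((exB n y).2 ⟨x, hx⟩)
  have s3 : ∀ n, kcls (eD n) = kcls (eT n) + kcls (eP (n + 1)) := by
    intro n
    have hk : ∀ x, h n x ∈ LinearMap.ker (f (n + 1)) := fun x => (exA n _).2 ⟨x, rfl⟩
    refine kcls_short (eT n) (eD n) (eP (n + 1)) (LinearMap.range (g n)).subtype
      ((h n).codRestrict _ hk)
      (fun x => heT n x) (fun x => Subtype.ext ?_) Subtype.val_injective
      (fun y => ?_) (fun y => ?_)
    · rw [heP]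
      exact hh n x
    · obtain ⟨x, hx⟩ := (exA n y.1).1 y.2
      exact ⟨x, Subtype.ext hx⟩
    · constructor
      · intro hy
        obtain ⟨x, hx⟩ := (exD n y).1 (congrArg Subtype.val hy)
        exact ⟨⟨y, x, hx⟩, rfl⟩
      · rintro ⟨⟨y, x, hx⟩, rfl⟩
        exact Subtype.ext ((exD n y).2 ⟨x, hx⟩)
  have z1 : ∀ n, n ∉ {n | Nontrivial (A n)} → kcls (eP n) = 0 := by
    intro n hn
    have : Subsingleton (A n) := not_nontrivial_iff_subsingleton.1 hn
    exact kcls_of_subsingleton _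
  have z2 : ∀ n, n ∉ {n | Nontrivial (B n)} → kcls (eR n) = 0 := by
    intro n hn
    have : Subsingleton (B n) := not_nontrivial_iff_subsingleton.1 hn
    exact kcls_of_subsingleton _
  have z3 : ∀ n, n ∉ {n | Nontrivial (D n)} → kcls (eT n) = 0 := by
    intro n hn
    have : Subsingleton (D n) := not_nontrivial_iff_subsingleton.1 hn
    exact kcls_of_subsingleton _
  have f1 := KGb_supp hA z1
  have f2 := KGb_supp hB z2
  have f3 := KGb_supp hD z3
  have f4 : (Function.support fun n : ℤ => n.negOnePow • kcls (eP (n + 1))).Finite := by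
    refine (f1.preimage (f := fun n : ℤ => n + 1)
      (fun a _ b _ hab => add_right_cancel hab)).subset fun n hn => ?_
    rw [Set.mem_preimage, Function.mem_support]
    intro h0
    refine hn ?_
    change n.negOnePow • kcls (eP (n + 1)) = 0
    rw [Int.negOnePow_succ, Units.neg_smul, neg_eq_zero] at h0
    exact h0
  have e4 : ∑ᶠ n : ℤ, n.negOnePow • kcls (eP (n + 1)) = -∑ᶠ n : ℤ, n.negOnePow • kcls (eP n) := by
    rw [← finsum_comp_equiv (Equiv.addRight (1 : ℤ)) (f := fun n : ℤ => n.negOnePow • kcls (eP n)),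
      ← finsum_neg_distrib]
    refine finsum_congr fun n => ?_
    change _ = -((n + 1).negOnePow • kcls (eP (n + 1)))
    rw [Int.negOnePow_succ, Units.neg_smul, neg_neg]
  have a1 : ∑ᶠ n : ℤ, n.negOnePow • kcls (eA n) = ∑ᶠ n : ℤ, n.negOnePow • kcls (eP n) +
      ∑ᶠ n : ℤ, n.negOnePow • kcls (eR n) := by
    rw [← finsum_add_distrib f1 f2]
    exact finsum_congr fun n => (congrArg _ (s1 n)).trans (KGb_smul_add _ _ _)
  have a2 : ∑ᶠ n : ℤ, n.negOnePow • kcls (eB n) = ∑ᶠ n : ℤ, n.negOnePow • kcls (eR n) +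
      ∑ᶠ n : ℤ, n.negOnePow • kcls (eT n) := by
    rw [← finsum_add_distrib f2 f3]
    exact finsum_congr fun n => (congrArg _ (s2 n)).trans (KGb_smul_add _ _ _)
  have a3 : ∑ᶠ n : ℤ, n.negOnePow • kcls (eD n) = ∑ᶠ n : ℤ, n.negOnePow • kcls (eT n) +
      ∑ᶠ n : ℤ, n.negOnePow • kcls (eP (n + 1)) := by
    rw [← finsum_add_distrib f3 f4]
    exact finsum_congr fun n => (congrArg _ (s3 n)).trans (KGb_smul_add _ _ _)
  rw [a1, a2, a3, e4]
  abel

end BO
end
end

section

end

section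

/-!
# `σ`-objects and the equivariant Euler form
-/

set_option autoImplicit false

noncomputable section

open CategoryTheory CategoryTheory.Limits CategoryTheory.Pretriangulated

namespace BO

universe w v u

variable (k : Type w) [Field k] {C : Type u} [Category.{v} C] [Preadditive C] [Linear k C]
  [HasZeroObject C] [HasShift C ℤ] [∀ n : ℤ, (shiftFunctor C n).Additive]
  [∀ n : ℤ, Functor.Linear k (shiftFunctor C n)] [Pretriangulated C]

/-- `Hom(X,Y[n])` is finite dimensional for all `n` and zero for almost all `n`. -/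
def ExtFin (X Y : C) : Prop :=
  (∀ n : ℤ, Module.Finite k (X ⟶ Y⟦n⟧)) ∧ {n : ℤ | Nontrivial (X ⟶ Y⟦n⟧)}.Finite

/-- An object with an isomorphism to its image under `σ`. -/
structure EqObj (σ : C ⥤ C) where
  X : C
  φ : X ≅ σ.obj X

variable (σ : C ⥤ C) [σ.CommShift ℤ] [σ.Additive] [σ.Linear k] [σ.Full] [σ.Faithful]

/-- The automorphism of `Hom(X,Y[n])` given by `σ` and the structures of `X`, `Y`. -/
def act (X Y : EqObj σ) (n : ℤ) : (X.X ⟶ Y.X⟦n⟧) ≃ₗ[k] (X.X ⟶ Y.X⟦n⟧) where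
  toFun f := X.φ.hom ≫ σ.map f ≫ (σ.commShiftIso n).hom.app Y.X ≫ Y.φ.inv⟦n⟧'
  invFun f := σ.preimage (X.φ.inv ≫ f ≫ Y.φ.hom⟦n⟧' ≫ (σ.commShiftIso n).inv.app Y.X)
  map_add' f g := by simp
  map_smul' c f := by simp
  left_inv f := by
    apply σ.map_injective
    simp
  right_inv f := by
    simp [← Functor.map_comp]

/-- The Euler form of two `σ`-objects, with values in `ℤ × kˣ`. -/
def chi (X Y : EqObj σ) : KG k := ∑ᶠ n : ℤ, n.negOnePow • kcls (act k σ X Y n)

end BO
end
end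

section

/-!
# Operations on `σ`-objects
-/

set_option autoImplicit false

noncomputable section

open CategoryTheory CategoryTheory.Limits CategoryTheory.Pretriangulated

namespace BO

universe w v u

section KGops

variable {k : Type w} [Field k]

/-- The product of `ℤ × kˣ` (square-zero extension of `ℤ`). -/
def kmul (x y : KG k) : KG k := (x.1 * y.1, x.1 • y.2 + y.1 • x.2)

/-- The involution of `ℤ × kˣ`. -/
def kbar (x : KG k) : KG k := (x.1, -x.2)

end KGops

/-- Change of the structure of a `σ`-object by a scalar. -/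
def EqObj.scale {k : Type w} [Field k] {C : Type u} [Category.{v} C] [Preadditive C] [Linear k C]
    {σ : C ⥤ C} (X : EqObj σ) (c : kˣ) : EqObj σ :=
  ⟨X.X, { hom := (c : k) • X.φ.hom
          inv := ((c⁻¹ : kˣ) : k) • X.φ.inv
          hom_inv_id := by simp [Linear.smul_comp, Linear.comp_smul, smul_smul]
          inv_hom_id := by simp [Linear.smul_comp, Linear.comp_smul, smul_smul] }⟩

/-- The shift of a `σ`-object. -/
def EqObj.shift {C : Type u} [Category.{v} C] [HasShift C ℤ]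
    {σ : C ⥤ C} [σ.CommShift ℤ] (X : EqObj σ) (n : ℤ) : EqObj σ :=
  ⟨X.X⟦n⟧, (shiftFunctor C n).mapIso X.φ ≪≫ ((σ.commShiftIso n).app X.X).symm⟩

/-- A distinguished triangle of `σ`-objects. -/
structure EqTri {C : Type u} [Category.{v} C] [Preadditive C]
    [HasZeroObject C] [HasShift C ℤ] [∀ n : ℤ, (shiftFunctor C n).Additive] [Pretriangulated C]
    (σ : C ⥤ C) [σ.CommShift ℤ]
    (X Y Z : EqObj σ) (f : X.X ⟶ Y.X) (g : Y.X ⟶ Z.X) (h : Z.X ⟶ X.X⟦(1 : ℤ)⟧) :
    Prop where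
  dist : Triangle.mk f g h ∈ distTriang C
  comm₁ : f ≫ Y.φ.hom = X.φ.hom ≫ σ.map f
  comm₂ : g ≫ Z.φ.hom = Y.φ.hom ≫ σ.map g
  comm₃ : h ≫ X.φ.hom⟦(1 : ℤ)⟧' = Z.φ.hom ≫ σ.map h ≫ (σ.commShiftIso (1 : ℤ)).hom.app X.X

end BO
end
end

section

/-!
# TASK FinAll
-/

set_option autoImplicit false

noncomputable section

open CategoryTheory CategoryTheory.Limits CategoryTheory.Pretriangulated

namespace BO

universe w v u

variable (k : Type w) [Field k] {C : Type u} [Category.{v} C] [Preadditive C] [Linear k C]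
  [HasZeroObject C] [HasShift C ℤ] [∀ n : ℤ, (shiftFunctor C n).Additive]
  [∀ n : ℤ, Functor.Linear k (shiftFunctor C n)] [Pretriangulated C]

omit [HasZeroObject C] [∀ n : ℤ, (shiftFunctor C n).Additive]
  [∀ n : ℤ, Functor.Linear k (shiftFunctor C n)] [Pretriangulated C] in
private theorem FinAll_inj {Y X Y' X' : C} (h : ExtFin k Y X) (φ : ℤ → ℤ)
    (hφ : Function.Injective φ) (F : ∀ n : ℤ, (Y' ⟶ X'⟦n⟧) →ₗ[k] (Y ⟶ X⟦φ n⟧))
    (hF : ∀ n, Function.Injective (F n)) : ExtFin k Y' X' := by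
  refine ⟨fun n => ?_, ?_⟩
  · have := h.1 (φ n)
    exact Module.Finite.of_injective (F n) (hF n)
  · refine (h.2.preimage hφ.injOn).subset ?_
    intro n hn
    have : Nontrivial (Y' ⟶ X'⟦n⟧) := hn
    exact (hF n).nontrivial

omit [HasZeroObject C] [∀ n : ℤ, (shiftFunctor C n).Additive]
  [∀ n : ℤ, Functor.Linear k (shiftFunctor C n)] [Pretriangulated C] in
private theorem FinAll_exact {Y X Y₁ X₁ Y₃ X₃ : C} (h₁ : ExtFin k Y₁ X₁) (h₃ : ExtFin k Y₃ X₃)
    (F : ∀ n : ℤ, (Y₁ ⟶ X₁⟦n⟧) →ₗ[k] (Y ⟶ X⟦n⟧))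
    (G : ∀ n : ℤ, (Y ⟶ X⟦n⟧) →ₗ[k] (Y₃ ⟶ X₃⟦n⟧))
    (hFG : ∀ n x, G n x = 0 → ∃ y, F n y = x) : ExtFin k Y X := by
  refine ⟨fun n => ?_, ?_⟩
  · have := h₁.1 n
    have := h₃.1 n
    have hle : LinearMap.ker (G n) ≤ LinearMap.range (F n) := by
      intro x hx
      obtain ⟨y, hy⟩ := hFG n x (LinearMap.mem_ker.mp hx)
      exact ⟨y, hy⟩
    have h5 : Module.Finite k (LinearMap.ker (G n)) := Submodule.finiteDimensional_of_le hle
    have h6 : Module.Finite k ((Y ⟶ X⟦n⟧) ⧸ LinearMap.ker (G n)) :=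
      Module.Finite.equiv (LinearMap.quotKerEquivRange (G n)).symm
    exact Module.Finite.of_submodule_quotient (LinearMap.ker (G n))
  · refine (h₁.2.union h₃.2).subset ?_
    intro n hn
    by_contra hcon
    rw [Set.mem_union, not_or] at hcon
    have hn' : Nontrivial (Y ⟶ X⟦n⟧) := hn
    have h1 : Subsingleton (Y₁ ⟶ X₁⟦n⟧) := not_nontrivial_iff_subsingleton.mp hcon.1
    have h3 : Subsingleton (Y₃ ⟶ X₃⟦n⟧) := not_nontrivial_iff_subsingleton.mp hcon.2
    obtain ⟨x, hx⟩ := exists_ne (0 : Y ⟶ X⟦n⟧)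
    obtain ⟨y, hy⟩ := hFG n x (Subsingleton.elim _ _)
    apply hx
    rw [← hy, Subsingleton.elim y 0, map_zero]

omit [HasZeroObject C] [∀ n : ℤ, Functor.Linear k (shiftFunctor C n)] [Pretriangulated C] in
private theorem FinAll_zero {Y X : C} (h : IsZero Y ∨ IsZero X) : ExtFin k Y X := by
  have h1 : ∀ n : ℤ, Subsingleton (Y ⟶ X⟦n⟧) := by
    intro n
    rcases h with h | h
    · exact ⟨fun f g => h.eq_of_src f g⟩
    · exact ⟨fun f g => ((shiftFunctor C n).map_isZero h).eq_of_tgt f g⟩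
  refine ⟨fun n => ?_, ?_⟩
  · have := h1 n
    infer_instance
  · convert Set.finite_empty (α := ℤ)
    ext n
    exact ⟨fun h2 => absurd h2 (not_nontrivial_iff_subsingleton.mpr (h1 n)), fun h2 => h2.elim⟩

omit [HasZeroObject C] [∀ n : ℤ, (shiftFunctor C n).Additive] [Pretriangulated C] in
private theorem FinAll_isoR {Y X X' : C} (e : X ≅ X') (h : ExtFin k Y X) : ExtFin k Y X' := by
  refine FinAll_inj k h id Function.injective_id
    (fun n => Linear.rightComp k Y ((shiftFunctor C n).map e.inv)) ?_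
  intro n f g hfg
  have h2 : f ≫ (shiftFunctor C n).map e.inv = g ≫ (shiftFunctor C n).map e.inv := hfg
  exact (cancel_mono _).1 h2

omit [HasZeroObject C] [∀ n : ℤ, (shiftFunctor C n).Additive]
  [∀ n : ℤ, Functor.Linear k (shiftFunctor C n)] [Pretriangulated C] in
private theorem FinAll_isoL {Y Y' X : C} (e : Y ≅ Y') (h : ExtFin k Y X) : ExtFin k Y' X := by
  refine FinAll_inj k h id Function.injective_id
    (fun n => Linear.leftComp k (X⟦n⟧) e.hom) ?_
  intro n f g hfg
  simpa using hfg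

omit [HasZeroObject C] [∀ n : ℤ, (shiftFunctor C n).Additive] [Pretriangulated C] in
private theorem FinAll_shR {Y X : C} (a : ℤ) (h : ExtFin k Y X) : ExtFin k Y (X⟦a⟧) := by
  refine FinAll_inj k h (fun n => a + n) (add_right_injective a)
    (fun n => Linear.rightComp k Y ((shiftFunctorAdd C a n).inv.app X)) ?_
  intro n f g hfg
  have h2 : f ≫ (shiftFunctorAdd C a n).inv.app X = g ≫ (shiftFunctorAdd C a n).inv.app X := hfg
  exact (cancel_mono _).1 h2

omit [HasZeroObject C] [Pretriangulated C] in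
private theorem FinAll_shL {Y X : C} (a : ℤ) (h : ExtFin k Y X) : ExtFin k (Y⟦a⟧) X := by
  refine FinAll_inj k h (fun n => n + (-a)) (add_left_injective (-a))
    (fun n => (Linear.rightComp k Y ((shiftFunctorAdd C n (-a)).inv.app X)).comp
      ((Linear.leftComp k _ ((shiftFunctorCompIsoId C a (-a) (by simp)).inv.app Y)).comp
        ((shiftFunctor C (-a)).mapLinearMap k (X := Y⟦a⟧) (Y := X⟦n⟧)))) ?_
  intro n f g hfg
  apply (shiftFunctor C (-a)).map_injective
  have h2 : ((shiftFunctorCompIsoId C a (-a) (by simp)).inv.app Y ≫ (shiftFunctor C (-a)).map f) ≫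
      (shiftFunctorAdd C n (-a)).inv.app X =
      ((shiftFunctorCompIsoId C a (-a) (by simp)).inv.app Y ≫ (shiftFunctor C (-a)).map g) ≫
      (shiftFunctorAdd C n (-a)).inv.app X := hfg
  exact (cancel_epi _).1 ((cancel_mono _).1 h2)

/-- If the members of a full exceptional system have finite total Homs between each other then all
objects have.

PROOF. For fixed `Y` the property `ExtFin k Y X` of `X` is closed under isomorphisms, shifts, zero objects and extensions in
triangles (long exact sequence: `Hom(Y,-)`), similarly in the first variable. Apply `s.full` to `P X := ∀ i, ExtFin k (s.obj i) X`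
and then to `P Y := ∀ X, ExtFin k Y X`. -/
theorem extFin_of_full {N : ℕ} (s : ExcSystem k C N)
    (h : ∀ i j, ExtFin k (s.obj i) (s.obj j)) (A B : C) : ExtFin k A B := by
  have step1 : ∀ (X : C) (i : Fin N), ExtFin k (s.obj i) X := by
    refine s.full (fun X => ∀ i : Fin N, ExtFin k (s.obj i) X) ?_ ?_ (fun j i => h i j)
    · refine { exists_zero := ?_, isStableUnderShiftBy := ?_, ext₂' := ?_ }
      · exact ⟨_, isZero_zero C, fun i => FinAll_zero k (Or.inr (isZero_zero C))⟩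
      · intro a
        exact ⟨fun X hX i => FinAll_shR k a (hX i)⟩
      · intro T hT h₁ h₃
        refine ObjectProperty.le_isoClosure _ _ fun i => ?_
        refine FinAll_exact k (h₁ i) (h₃ i)
          (fun n => Linear.rightComp k (s.obj i) (((Triangle.shiftFunctor C n).obj T).mor₁))
          (fun n => Linear.rightComp k (s.obj i) (((Triangle.shiftFunctor C n).obj T).mor₂)) ?_
        intro n x hx
        obtain ⟨y, hy⟩ := Triangle.coyoneda_exact₂ _ (Triangle.shift_distinguished T hT n) x hx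
        exact ⟨y, hy.symm⟩
    · exact ⟨fun e hX i => FinAll_isoR k e (hX i)⟩
  have step2 : ∀ (Y X : C), ExtFin k Y X := by
    refine s.full (fun Y => ∀ X : C, ExtFin k Y X) ?_ ?_ (fun i X => step1 X i)
    · refine { exists_zero := ?_, isStableUnderShiftBy := ?_, ext₂' := ?_ }
      · exact ⟨_, isZero_zero C, fun X => FinAll_zero k (Or.inl (isZero_zero C))⟩
      · intro a
        exact ⟨fun Y hY X => FinAll_shL k a (hY X)⟩
      · intro T hT h₁ h₃
        refine ObjectProperty.le_isoClosure _ _ fun X => ?_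
        refine FinAll_exact k (h₃ X) (h₁ X)
          (fun n => Linear.leftComp k (X⟦n⟧) T.mor₂)
          (fun n => Linear.leftComp k (X⟦n⟧) T.mor₁) ?_
        intro n x hx
        obtain ⟨y, hy⟩ := Triangle.yoneda_exact₂ _ hT x hx
        exact ⟨y, hy.symm⟩
    · exact ⟨fun e hY X => FinAll_isoL k e (hY X)⟩
  exact step2 A B

end BO
end
end

section

set_option autoImplicit false

noncomputable section

open CategoryTheory CategoryTheory.Limits CategoryTheory.Pretriangulated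

namespace BO

universe w v u

variable (k : Type w) [Field k] {C : Type u} [Category.{v} C] [Preadditive C] [Linear k C]
  [HasZeroObject C] [HasShift C ℤ] [∀ n : ℤ, (shiftFunctor C n).Additive]
  [∀ n : ℤ, Functor.Linear k (shiftFunctor C n)] [Pretriangulated C]

/-- `S` is a spherical object of dimension `3` with top class `sg`. -/
structure Spherical (S : C) (sg : S ⟶ S⟦(3 : ℤ)⟧) : Prop where
  ne_zero : sg ≠ 0
  end_eq : ∀ h : S ⟶ S, ∃ c : k, h = c • 𝟙 S
  top_eq : ∀ h : S ⟶ S⟦(3 : ℤ)⟧, ∃ c : k, h = c • sg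
  zero : ∀ n : ℤ, n ≠ 0 → n ≠ 3 → ∀ h : S ⟶ S⟦n⟧, h = 0

/-- The pair `(f,g)` makes `X` a type one object for `(S,sg)`. -/
structure TypeOne {S : C} (sg : S ⟶ S⟦(3 : ℤ)⟧) {X : C} (f : S ⟶ X) (g : X ⟶ S⟦(3 : ℤ)⟧) : Prop where
  fg : f ≫ g = sg
  hom_eq : ∀ h : S ⟶ X, ∃ c : k, h = c • f
  hom_zero : ∀ n : ℤ, n ≠ 0 → ∀ h : S ⟶ X⟦n⟧, h = 0
  hom_eq' : ∀ h : X ⟶ S⟦(3 : ℤ)⟧, ∃ c : k, h = c • g
  hom_zero' : ∀ n : ℤ, n ≠ 3 → ∀ h : X ⟶ S⟦n⟧, h = 0

/-- `X'` is the twist of `X`: there is a triangle `S →[f] X →[p] X'[-2] →[q] S[1]`, where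
`g'` is the map `X' ⟶ S[3]` corresponding to `q`. -/
structure IsTwist {S X X' : C} (f : S ⟶ X) (p : X ⟶ X'⟦(-2 : ℤ)⟧) (g' : X' ⟶ S⟦(3 : ℤ)⟧) :
    Prop where
  dist : Triangle.mk f p (g'⟦(-2 : ℤ)⟧' ≫
    (shiftFunctorAdd' C (3 : ℤ) (-2) 1 (by norm_num)).inv.app S) ∈ distTriang C

end BO
end
end

section

/-!
# The ring `R'` of the threefold `X'` and the ring of `Y = F₁ × P³`
-/

set_option autoImplicit false

noncomputable section

namespace BO

universe w

/-- Degrees `(f,H,h)`. -/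
abbrev Dg := ℤ × ℤ × ℤ

/-- `F = (1,0,0)`. -/
def dF : Dg := (1, 0, 0)

/-- The polynomial ring `k[u₀,u₁,la,mu,om₁,om₂]`. -/
abbrev PP (k : Type w) [Field k] := MvPolynomial (Fin 6) k

/-- The polynomial ring `k[Y] = k[u₀,u₁,la,mu,z₀,z₁,z₂,z₃]`. -/
abbrev PY (k : Type w) [Field k] := MvPolynomial (Fin 8) k

variable (k : Type w) [Field k]

def u0 : PP k := MvPolynomial.X 0
def u1 : PP k := MvPolynomial.X 1
def la : PP k := MvPolynomial.X 2
def mu : PP k := MvPolynomial.X 3
def om1 : PP k := MvPolynomial.X 4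
def om2 : PP k := MvPolynomial.X 5
def w1 : PP k := u0 k * u1 k * om1 k
def w2 : PP k := u0 k * u1 k * om2 k
def z0 : PP k := u1 k * (mu k * om1 k + la k * u1 k * om2 k)
def z3 : PP k := u0 k * (mu k * om2 k + la k * u0 k * om1 k)

/-- The eight generators of `R'`. -/
def gen : Fin 8 → PP k := ![u0 k, u1 k, la k, mu k, z0 k, z3 k, w1 k, w2 k]

/-- The degrees of the generators of `R'`. -/
def gdeg : Fin 8 → Dg :=
  ![(1,0,0), (1,0,0), (-1,1,0), (0,1,0), (0,0,1), (0,0,1), (1,-1,1), (1,-1,1)]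

/-- The degrees of the variables of `k[Y]`. -/
def ydeg : Fin 8 → Dg :=
  ![(1,0,0), (1,0,0), (-1,1,0), (0,1,0), (0,0,1), (0,0,1), (0,0,1), (0,0,1)]

/-- The graded piece `R'_D`: the span of the monomials of degree `D` in the generators. -/
def RX (D : Dg) : Submodule k (PP k) :=
  Submodule.span k {x | ∃ e : Fin 8 → ℕ, ∑ i, e i • gdeg i = D ∧ x = ∏ i, gen k i ^ e i}

/-- The graded piece `k[Y]_D`. -/
def RY (D : Dg) : Submodule k (PY k) :=
  Submodule.span k {x | ∃ e : Fin 8 → ℕ, ∑ i, e i • ydeg i = D ∧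
    x = ∏ i, (MvPolynomial.X i : PY k) ^ e i}

/-- The restriction `k[Y] → R'`: `z₁ ↦ la w₁`, `z₂ ↦ la w₂`. -/
def res : PY k →ₐ[k] PP k :=
  MvPolynomial.aeval ![u0 k, u1 k, la k, mu k, z0 k, la k * w1 k, la k * w2 k, z3 k]

end BO
end
end

section

/-!
# The torus action on `R'`, degrees of the six objects `a, aF, b, bF, c, cF`
-/

set_option autoImplicit false

noncomputable section

namespace BO

universe w

variable (k : Type w) [Field k]

/-- The weights of the variables `u₀,u₁,la,mu,om₁,om₂`. -/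
def wt : Fin 6 → ℤ := ![-2, 2, 0, 0, 1, -1]

/-- The action of `t` on `k[u₀,u₁,la,mu,om₁,om₂]`: each variable is multiplied by `t` to its weight. -/
def sig (t : kˣ) : PP k →ₐ[k] PP k :=
  MvPolynomial.aeval fun i => MvPolynomial.C ((t ^ wt i : kˣ) : k) * MvPolynomial.X i

/-- The degrees of the six objects `a, aF, b, bF, c, cF`. -/
def bdeg : Fin 6 → Dg := ![(1,2,2), (2,2,2), (2,1,3), (3,1,3), (2,2,3), (3,2,3)]

/-- The elements `κ_i ∈ R'(bdeg 5 - bdeg i)`: `g_i = κ_i ≫ θ`. -/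
def kap : Fin 6 → PP k := ![u1 k * z0 k * u1 k, z0 k * u1 k, 0, 0, u1 k, 1]

/-- The elements `κ'_j ∈ R'(bdeg j - bdeg 0)`: `f_j = f_a ≫ κ'_j`. -/
def kap' : Fin 6 → PP k := ![1, u1 k, 0, 0, u1 k * z0 k, u1 k * z0 k * u1 k]

end BO
end
end

section

/-!
# TASK SigA: weights of the generators, graded pieces

`sig_mem`: `sig` maps each of the eight generators to a multiple of itself (`sig_u0, …, sig_z3`), so it maps a monomial in the
generators to a multiple of itself; `Submodule.span_induction`. `RX_mul`: products of monomials (`Submodule.span_induction₂` or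
`Submodule.mul_mem_mul` with `Submodule.span_mul_span`).
-/

set_option autoImplicit false

noncomputable section

namespace BO

universe w

variable (k : Type w) [Field k]

private theorem SigA_X (t : kˣ) (i : Fin 6) :
    sig k t (MvPolynomial.X i) = MvPolynomial.C ((t ^ wt i : kˣ) : k) * MvPolynomial.X i := by
  simp [sig]

theorem sig_u0 (t : kˣ) : sig k t (u0 k) = ((t ^ (-2 : ℤ) : kˣ) : k) • u0 k := by
  rw [u0, SigA_X, MvPolynomial.C_mul']; rfl

theorem sig_u1 (t : kˣ) : sig k t (u1 k) = ((t ^ (2 : ℤ) : kˣ) : k) • u1 k := by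
  rw [u1, SigA_X, MvPolynomial.C_mul']; rfl

theorem sig_la (t : kˣ) : sig k t (la k) = la k := by
  rw [la, SigA_X, MvPolynomial.C_mul']; simp [wt]

theorem sig_mu (t : kˣ) : sig k t (mu k) = mu k := by
  rw [mu, SigA_X, MvPolynomial.C_mul']; simp [wt]

private theorem SigA_om1 (t : kˣ) : sig k t (om1 k) = ((t ^ (1 : ℤ) : kˣ) : k) • om1 k := by
  rw [om1, SigA_X, MvPolynomial.C_mul']; rfl

private theorem SigA_om2 (t : kˣ) : sig k t (om2 k) = ((t ^ (-1 : ℤ) : kˣ) : k) • om2 k := by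
  rw [om2, SigA_X, MvPolynomial.C_mul']; rfl

theorem sig_w1 (t : kˣ) : sig k t (w1 k) = ((t ^ (1 : ℤ) : kˣ) : k) • w1 k := by
  rw [w1, map_mul, map_mul, sig_u0, sig_u1, SigA_om1]
  simp only [smul_mul_assoc, mul_smul_comm, smul_smul, ← Units.val_mul, ← zpow_add]
  norm_num

theorem sig_w2 (t : kˣ) : sig k t (w2 k) = ((t ^ (-1 : ℤ) : kˣ) : k) • w2 k := by
  rw [w2, map_mul, map_mul, sig_u0, sig_u1, SigA_om2]
  simp only [smul_mul_assoc, mul_smul_comm, smul_smul, ← Units.val_mul, ← zpow_add]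
  norm_num

theorem sig_z0 (t : kˣ) : sig k t (z0 k) = ((t ^ (3 : ℤ) : kˣ) : k) • z0 k := by
  rw [z0, map_mul, map_add, map_mul, map_mul, map_mul, sig_u1, SigA_om2, SigA_om1, sig_la, sig_mu]
  simp only [smul_mul_assoc, mul_smul_comm, smul_smul, ← Units.val_mul, ← zpow_add, mul_add, smul_add]
  norm_num

theorem sig_z3 (t : kˣ) : sig k t (z3 k) = ((t ^ (-3 : ℤ) : kˣ) : k) • z3 k := by
  rw [z3, map_mul, map_add, map_mul, map_mul, map_mul, sig_u0, SigA_om2, SigA_om1, sig_la, sig_mu]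
  simp only [smul_mul_assoc, mul_smul_comm, smul_smul, ← Units.val_mul, ← zpow_add, mul_add, smul_add]
  norm_num

theorem sig_la_u1 (t : kˣ) :
    sig k t (la k * u1 k) = ((t ^ (2 : ℤ) : kˣ) : k) • (la k * u1 k) := by
  rw [map_mul, sig_la, sig_u1, mul_smul_comm]

private theorem SigA_gen (t : kˣ) (i : Fin 8) : ∃ c : k, sig k t (gen k i) = c • gen k i := by
  fin_cases i
  · exact ⟨_, sig_u0 k t⟩
  · exact ⟨_, sig_u1 k t⟩
  · exact ⟨1, by rw [one_smul]; exact sig_la k t⟩
  · exact ⟨1, by rw [one_smul]; exact sig_mu k t⟩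
  · exact ⟨_, sig_z0 k t⟩
  · exact ⟨_, sig_z3 k t⟩
  · exact ⟨_, sig_w1 k t⟩
  · exact ⟨_, sig_w2 k t⟩

/-- `sig` preserves the graded pieces. -/
theorem sig_mem (t : kˣ) (D : Dg) (x : PP k) (hx : x ∈ RX k D) : sig k t x ∈ RX k D := by
  refine Submodule.span_induction (p := fun x _ => sig k t x ∈ RX k D) ?_ ?_ ?_ ?_ hx
  · rintro _ ⟨e, he, rfl⟩
    choose c hc using SigA_gen k t
    rw [map_prod]
    have : ∀ i, sig k t (gen k i ^ e i) = MvPolynomial.C (c i ^ e i) * gen k i ^ e i := by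
      intro i
      rw [map_pow, hc, smul_pow, MvPolynomial.smul_eq_C_mul]
    simp only [this]
    rw [Finset.prod_mul_distrib, ← map_prod, ← MvPolynomial.smul_eq_C_mul]
    exact Submodule.smul_mem _ _ (Submodule.subset_span ⟨e, he, rfl⟩)
  · simp
  · intro a b _ _ ha hb
    rw [map_add]
    exact Submodule.add_mem _ ha hb
  · intro c a _ ha
    rw [map_smul]
    exact Submodule.smul_mem _ _ ha

theorem RX_mul (D D' : Dg) (x y : PP k) (hx : x ∈ RX k D) (hy : y ∈ RX k D') :
    x * y ∈ RX k (D + D') := by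
  have h := Submodule.mul_mem_mul hx hy
  rw [RX, RX, Submodule.span_mul_span] at h
  refine Submodule.span_mono ?_ h
  rintro _ ⟨_, ⟨e, he, rfl⟩, _, ⟨e', he', rfl⟩, rfl⟩
  refine ⟨fun i => e i + e' i, ?_, ?_⟩
  · simp only [add_smul]
    rw [Finset.sum_add_distrib, he, he']
  · simp only [pow_add]
    rw [Finset.prod_mul_distrib]

theorem RX_one : (1 : PP k) ∈ RX k 0 :=
  Submodule.subset_span ⟨fun _ => 0, by simp, by simp⟩

theorem gen_mem (i : Fin 8) : gen k i ∈ RX k (gdeg i) := by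
  refine Submodule.subset_span ⟨Pi.single i 1, ?_, ?_⟩
  · rw [Finset.sum_eq_single i]
    · simp
    · intro j _ hj
      simp [hj]
    · simp
  · rw [Finset.prod_eq_single i]
    · simp
    · intro j _ hj
      simp [hj]
    · simp

end BO
end
end

section

/-!
# TASK SigB: elements of graded pieces

Memberships: `gen_mem`, `RX_mul`, `RX_one` after computing the degree (`decide`/`norm_num [bdeg, gdeg]`). `kap_not_dvd`: apply the
substitution `u₀ ↦ 0` (`MvPolynomial.aeval`, others fixed): `u₀` goes to `0`, but `u₁ z₀ u₁ = u₁³ (mu om₁ + la u₁ om₂)`, `z₀ u₁`, `u₁`, `1` do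
not (evaluate further at `u₁ = mu = om₁ = 1`, `la = 0`).
-/

set_option autoImplicit false

noncomputable section

namespace BO

universe w

variable (k : Type w) [Field k]

private theorem SigB_gen (i : Fin 8) (D : Dg) (h : gdeg i = D) : gen k i ∈ RX k D :=
  h ▸ gen_mem k i

private theorem SigB_mul (x y : PP k) (D D' D'' : Dg) (hx : x ∈ RX k D) (hy : y ∈ RX k D')
    (h : D + D' = D'') : x * y ∈ RX k D'' :=
  h ▸ RX_mul k D D' x y hx hy

private theorem SigB_one (D : Dg) (h : 0 = D) : (1 : PP k) ∈ RX k D :=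
  h ▸ RX_one k

theorem mem_u0_01 : u0 k ∈ RX k (bdeg 1 - bdeg 0) := by
  exact SigB_gen k 0 _ (by decide)

theorem mem_u1_01 : u1 k ∈ RX k (bdeg 1 - bdeg 0) := by
  exact SigB_gen k 1 _ (by decide)

theorem mem_w1_02 : w1 k ∈ RX k (bdeg 2 - bdeg 0) := by
  exact SigB_gen k 6 _ (by decide)

theorem mem_w2_02 : w2 k ∈ RX k (bdeg 2 - bdeg 0) := by
  exact SigB_gen k 7 _ (by decide)

theorem mem_w1_13 : w1 k ∈ RX k (bdeg 3 - bdeg 1) := by
  exact SigB_gen k 6 _ (by decide)

theorem mem_w2_13 : w2 k ∈ RX k (bdeg 3 - bdeg 1) := by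
  exact SigB_gen k 7 _ (by decide)

theorem mem_z0_14 : z0 k ∈ RX k (bdeg 4 - bdeg 1) := by
  exact SigB_gen k 4 _ (by decide)

theorem mem_u0_23 : u0 k ∈ RX k (bdeg 3 - bdeg 2) := by
  exact SigB_gen k 0 _ (by decide)

theorem mem_mu_24 : mu k ∈ RX k (bdeg 4 - bdeg 2) := by
  exact SigB_gen k 3 _ (by decide)

theorem mem_lau1_24 : la k * u1 k ∈ RX k (bdeg 4 - bdeg 2) := by
  exact SigB_mul k _ _ _ _ _ (SigB_gen k 2 _ rfl) (SigB_gen k 1 _ rfl) (by decide)

theorem mem_mu_35 : mu k ∈ RX k (bdeg 5 - bdeg 3) := by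
  exact SigB_gen k 3 _ (by decide)

theorem mem_lau1_35 : la k * u1 k ∈ RX k (bdeg 5 - bdeg 3) := by
  exact SigB_mul k _ _ _ _ _ (SigB_gen k 2 _ rfl) (SigB_gen k 1 _ rfl) (by decide)

theorem mem_u0_45 : u0 k ∈ RX k (bdeg 5 - bdeg 4) := by
  exact SigB_gen k 0 _ (by decide)

theorem mem_u1_45 : u1 k ∈ RX k (bdeg 5 - bdeg 4) := by
  exact SigB_gen k 1 _ (by decide)

theorem kap_mem (i : Fin 6) : kap k i ∈ RX k (bdeg 5 - bdeg i) := by
  fin_cases i
  · exact SigB_mul k _ _ _ _ _ (SigB_mul k _ _ _ _ _ (SigB_gen k 1 _ rfl) (SigB_gen k 4 _ rfl) rfl)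
      (SigB_gen k 1 _ rfl) (by decide)
  · exact SigB_mul k _ _ _ _ _ (SigB_gen k 4 _ rfl) (SigB_gen k 1 _ rfl) (by decide)
  · exact Submodule.zero_mem _
  · exact Submodule.zero_mem _
  · exact SigB_gen k 1 _ (by decide)
  · exact SigB_one k _ (by decide)

theorem kap'_mem (j : Fin 6) : kap' k j ∈ RX k (bdeg j - bdeg 0) := by
  fin_cases j
  · exact SigB_one k _ (by decide)
  · exact SigB_gen k 1 _ (by decide)
  · exact Submodule.zero_mem _
  · exact Submodule.zero_mem _
  · exact SigB_mul k _ _ _ _ _ (SigB_gen k 1 _ rfl) (SigB_gen k 4 _ rfl) (by decide)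
  · exact SigB_mul k _ _ _ _ _ (SigB_mul k _ _ _ _ _ (SigB_gen k 1 _ rfl) (SigB_gen k 4 _ rfl) rfl)
      (SigB_gen k 1 _ rfl) (by decide)

theorem kap'_mul_kap (j : Fin 6) (h2 : j ≠ 2) (h3 : j ≠ 3) :
    kap' k j * kap k j = u1 k * z0 k * u1 k := by
  fin_cases j
  · show 1 * (u1 k * z0 k * u1 k) = _
    ring
  · show u1 k * (z0 k * u1 k) = _
    ring
  · exact absurd rfl h2
  · exact absurd rfl h3
  · rfl
  · show u1 k * z0 k * u1 k * 1 = _
    ring

/-- The evaluation `u₀, la, om₂ ↦ 0`, `u₁, mu, om₁ ↦ 1`. -/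
private def SigB_ev : PP k →ₐ[k] k := MvPolynomial.aeval ![0, 1, 0, 1, 1, 0]

private theorem SigB_ev_u0 : SigB_ev k (u0 k) = 0 := by
  simp [SigB_ev, u0]

private theorem SigB_ev_u1 : SigB_ev k (u1 k) = 1 := by
  simp [SigB_ev, u1]

private theorem SigB_ev_z0 : SigB_ev k (z0 k) = 1 := by
  simp [SigB_ev, z0, u1, mu, om1, la, om2]

private theorem SigB_dvd (x : PP k) (hx : SigB_ev k x = 1) : ¬ u0 k ∣ x := by
  rintro ⟨y, hy⟩
  rw [hy, map_mul, SigB_ev_u0, zero_mul] at hx
  exact zero_ne_one hx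

/-- Divisibility by `u₀`. -/
theorem kap_not_dvd (i : Fin 6) (h2 : i ≠ 2) (h3 : i ≠ 3) : ¬ u0 k ∣ kap k i := by
  fin_cases i
  · exact SigB_dvd k (u1 k * z0 k * u1 k) (by rw [map_mul, map_mul, SigB_ev_u1, SigB_ev_z0]; simp)
  · exact SigB_dvd k (z0 k * u1 k) (by rw [map_mul, SigB_ev_u1, SigB_ev_z0]; simp)
  · exact absurd rfl h2
  · exact absurd rfl h3
  · exact SigB_dvd k (u1 k) (SigB_ev_u1 k)
  · exact SigB_dvd k 1 (map_one _)

theorem kap'_not_dvd (i : Fin 6) (h2 : i ≠ 2) (h3 : i ≠ 3) : ¬ u0 k ∣ kap' k i := by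
  fin_cases i
  · exact SigB_dvd k 1 (map_one _)
  · exact SigB_dvd k (u1 k) (SigB_ev_u1 k)
  · exact absurd rfl h2
  · exact absurd rfl h3
  · exact SigB_dvd k (u1 k * z0 k) (by rw [map_mul, SigB_ev_u1, SigB_ev_z0]; simp)
  · exact SigB_dvd k (u1 k * z0 k * u1 k) (by rw [map_mul, map_mul, SigB_ev_u1, SigB_ev_z0]; simp)

/-- `u₀` divides the multiples of `w₁`, `w₂`, and the elements of `R'(bdeg 3 - bdeg i)` for `i = 0, 1`. -/
theorem u0_dvd_w1 : u0 k ∣ w1 k := by
  exact ⟨u1 k * om1 k, by simp only [w1]; ring⟩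

theorem u0_dvd_w2 : u0 k ∣ w2 k := by
  exact ⟨u1 k * om2 k, by simp only [w2]; ring⟩

end BO
end
end

section

end

section

set_option autoImplicit false

noncomputable section

open CategoryTheory CategoryTheory.Limits CategoryTheory.Pretriangulated

namespace BO

universe w v u

variable (k : Type w) [Field k] {C : Type u} [Category.{v} C] [Preadditive C] [Linear k C]
  [HasZeroObject C] [HasShift C ℤ] [∀ n : ℤ, (shiftFunctor C n).Additive]
  [∀ n : ℤ, Functor.Linear k (shiftFunctor C n)] [Pretriangulated C]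

/-- The convolution `S` of a four term complex `X0 → X1 → X2 → X3`: triangles
`X1 → X2 → N`, `N → X3 → A`, `S → X0 → A[-2]`. -/
structure Conv {X0 X1 X2 X3 : C} (d0 : X0 ⟶ X1) (d1 : X1 ⟶ X2) (d2 : X2 ⟶ X3) where
  N : C
  A : C
  S : C
  i : X2 ⟶ N
  j : N ⟶ X1⟦(1 : ℤ)⟧
  n : N ⟶ X3
  e : X3 ⟶ A
  r : A ⟶ N⟦(1 : ℤ)⟧
  f : S ⟶ X0
  p : X0 ⟶ A⟦(-2 : ℤ)⟧
  gA : A ⟶ S⟦(3 : ℤ)⟧
  tri1 : Triangle.mk d1 i j ∈ distTriang C
  tri2 : Triangle.mk n e r ∈ distTriang C
  tri3 : IsTwist f p gA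
  hn : i ≫ n = d2
  /-- the composite `X0 → A[-2] → N[1][-2] = N[-1] → X1[1][-1] = X1` is `± d0` -/
  hp : p ≫ r⟦(-2 : ℤ)⟧' ≫ (j⟦(1 : ℤ)⟧')⟦(-2 : ℤ)⟧' ≫
    ((shiftFunctorAdd' C (1 : ℤ) 1 2 (by norm_num)).inv.app X1)⟦(-2 : ℤ)⟧' ≫
    (shiftFunctorCompIsoId C (2 : ℤ) (-2) (by norm_num)).hom.app X1 = d0 ∨
    p ≫ r⟦(-2 : ℤ)⟧' ≫ (j⟦(1 : ℤ)⟧')⟦(-2 : ℤ)⟧' ≫
    ((shiftFunctorAdd' C (1 : ℤ) 1 2 (by norm_num)).inv.app X1)⟦(-2 : ℤ)⟧' ≫
    (shiftFunctorCompIsoId C (2 : ℤ) (-2) (by norm_num)).hom.app X1 = - d0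

end BO
end
end

section

/-!
# TASK S12: dimensions of graded pieces of `R'`

`RX_neg`: all generators have third degree `≥ 0`, so there is no monomial of degree `D`: the span of the empty set.
`RX_h0`: a monomial with third degree 0 does not contain `z0,z3,w1,w2`: `e 4 = e 5 = e 6 = e 7 = 0`; the degree of
`u0^a u1^b la^c mu^d` is `(a + b - c, c + d, 0)`. `finrank_RX`: the monomials `X0^a X1^b X2^c X3^d` with `a + b = f + c`, `c + d = H` are
linearly independent (`MvPolynomial.basisMonomials` or `linearIndependent`/`MvPolynomial.restrictSupport`), and their number is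
`∑_{c ≤ H} (f + c + 1)` (index them by `c < H + 1`, `a < f + c + 1`: `Finset.sigma`, `Finset.card_sigma`).
`finite_RX`: the same for the cases needed (span of a finite set).
-/

set_option autoImplicit false

noncomputable section

namespace MPbd3808.BR.SX

universe u

variable (k : Type u) [Field k]

private theorem S12_deg (e : Fin 8 → ℕ) : ∑ i, e i • BO.gdeg i =
    ((e 0 : ℤ) + e 1 - e 2 + e 6 + e 7, (e 2 : ℤ) + e 3 - e 6 - e 7,
      (e 4 : ℤ) + e 5 + e 6 + e 7) := by
  rw [Fin.sum_univ_eight]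
  simp only [BO.gdeg, Matrix.cons_val, Prod.smul_mk, Prod.mk_add_mk, Prod.mk.injEq, nsmul_eq_mul]
  refine ⟨?_, ?_, ?_⟩ <;> ring

theorem RX_neg (D : BO.Dg) (hD : D.2.2 < 0) : BO.RX k D = ⊥ := by
  have h : {x : BO.PP k | ∃ e : Fin 8 → ℕ, ∑ i, e i • BO.gdeg i = D ∧
      x = ∏ i, BO.gen k i ^ e i} = ∅ := by
    rw [Set.eq_empty_iff_forall_notMem]
    rintro x ⟨e, he, _⟩
    rw [S12_deg] at he
    rw [← he] at hD
    simp only at hD
    omega
  unfold BO.RX
  rw [h, Submodule.span_empty]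

theorem RX_h0 (f H : ℕ) : BO.RX k ((f : ℤ), (H : ℤ), 0) =
    Submodule.span k {x | ∃ a b c d : ℕ, a + b = f + c ∧ c + d = H ∧
      x = BO.u0 k ^ a * BO.u1 k ^ b * BO.la k ^ c * BO.mu k ^ d} := by
  unfold BO.RX
  congr 1
  ext x
  simp only [Set.mem_ofPred_eq]
  constructor
  · rintro ⟨e, he, hx⟩
    rw [S12_deg] at he
    simp only [Prod.mk.injEq] at he
    obtain ⟨h1, h2, h3⟩ := he
    have h4 : e 4 = 0 := by omega
    have h5 : e 5 = 0 := by omega
    have h6 : e 6 = 0 := by omega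
    have h7 : e 7 = 0 := by omega
    refine ⟨e 0, e 1, e 2, e 3, by omega, by omega, ?_⟩
    rw [hx, Fin.prod_univ_eight, h4, h5, h6, h7]
    simp [BO.gen]
  · rintro ⟨a, b, c, d, h1, h2, hx⟩
    refine ⟨![a, b, c, d, 0, 0, 0, 0], ?_, ?_⟩
    · rw [S12_deg]
      have e1 : (a : ℤ) + b = f + c := by exact_mod_cast h1
      have e2 : (c : ℤ) + d = H := by exact_mod_cast h2
      simp only [Matrix.cons_val, Prod.mk.injEq, Nat.cast_zero]
      refine ⟨by linarith, by linarith, by simp⟩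
    · rw [hx, Fin.prod_univ_eight]
      simp [BO.gen]

private def S12_m (a b c d : ℕ) : Fin 6 →₀ ℕ :=
  Finsupp.single 0 a + Finsupp.single 1 b + Finsupp.single 2 c + Finsupp.single 3 d

private theorem S12_mon (a b c d : ℕ) :
    BO.u0 k ^ a * BO.u1 k ^ b * BO.la k ^ c * BO.mu k ^ d =
      MvPolynomial.monomial (S12_m a b c d) 1 := by
  simp only [BO.u0, BO.u1, BO.la, BO.mu, MvPolynomial.X_pow_eq_monomial,
    MvPolynomial.monomial_mul, mul_one, S12_m]

private theorem S12_m0 (a b c d : ℕ) : S12_m a b c d 0 = a := by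
  simp [S12_m]

private theorem S12_m2 (a b c d : ℕ) : S12_m a b c d 2 = c := by
  simp [S12_m]

theorem finrank_RX (f H : ℕ) : Module.finrank k (BO.RX k ((f : ℤ), (H : ℤ), 0)) =
    ∑ c ∈ Finset.range (H + 1), (f + c + 1) := by
  classical
  let ι := Σ c : Fin (H + 1), Fin (f + (c : ℕ) + 1)
  let g : ι → (Fin 6 →₀ ℕ) := fun i =>
    S12_m (i.2 : ℕ) (f + (i.1 : ℕ) - (i.2 : ℕ)) (i.1 : ℕ) (H - (i.1 : ℕ))
  have hg : Function.Injective g := by
    rintro ⟨c, a⟩ ⟨c', a'⟩ h
    have h0 := DFunLike.congr_fun h 0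
    have h2 := DFunLike.congr_fun h 2
    simp only [g, S12_m0, S12_m2] at h0 h2
    obtain rfl : c = c' := Fin.ext h2
    obtain rfl : a = a' := Fin.ext h0
    rfl
  have hli : LinearIndependent k (fun i : ι => (MvPolynomial.monomial (g i) (1 : k) : BO.PP k)) := by
    have h := ((MvPolynomial.basisMonomials (Fin 6) k).linearIndependent).comp g hg
    rw [MvPolynomial.coe_basisMonomials] at h
    exact h
  have hset : {x : BO.PP k | ∃ a b c d : ℕ, a + b = f + c ∧ c + d = H ∧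
      x = BO.u0 k ^ a * BO.u1 k ^ b * BO.la k ^ c * BO.mu k ^ d} =
      Set.range fun i : ι => (MvPolynomial.monomial (g i) (1 : k) : BO.PP k) := by
    ext x
    simp only [Set.mem_ofPred_eq, Set.mem_range]
    constructor
    · rintro ⟨a, b, c, d, h1, h2, hx⟩
      refine ⟨⟨⟨c, by omega⟩, ⟨a, by simp only; omega⟩⟩, ?_⟩
      rw [hx, S12_mon]
      simp only [g]
      have e1 : f + c - a = b := by omega
      have e2 : H - c = d := by omega
      rw [e1, e2]
    · rintro ⟨⟨c, a⟩, rfl⟩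
      refine ⟨a, f + c - a, c, H - c, ?_, ?_, ?_⟩
      · have := a.2
        omega
      · have := c.2
        omega
      · rw [S12_mon]
  rw [RX_h0, hset, finrank_span_eq_card hli]
  simp only [ι, Fintype.card_sigma, Fintype.card_fin]
  rw [Finset.sum_range fun c => f + c + 1]

end MPbd3808.BR.SX
end
end
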