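import Pool.Agent.Lib.MP_bd3808_ag.Mg.G001

section

/-!
# TASK TwE
-/

set_option autoImplicit false

noncomputable section

open CategoryTheory CategoryTheory.Limits CategoryTheory.Pretriangulated

namespace BO

universe w v u

variable (k : Type w) [Field k] {C : Type u} [Category.{v} C] [Preadditive C] [Linear k C]
  [HasZeroObject C] [HasShift C ℤ] [∀ n : ℤ, (shiftFunctor C n).Additive]
  [∀ n : ℤ, Functor.Linear k (shiftFunctor C n)] [Pretriangulated C]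

omit k [Field k] [Linear k C] [HasZeroObject C]
  [∀ n : ℤ, Functor.Linear k (shiftFunctor C n)] [Pretriangulated C] in
private theorem TwE_shift_comp (S : C) :
    ((shiftFunctorAdd' C (1 : ℤ) 2 3 (by norm_num)).inv.app S)⟦(-2 : ℤ)⟧' ≫
      (shiftFunctorAdd' C (3 : ℤ) (-2) 1 (by norm_num)).inv.app S =
    (shiftFunctorCompIsoId C (2 : ℤ) (-2) (by norm_num)).hom.app (S⟦(1 : ℤ)⟧) := by
  have h := shiftFunctorAdd'_assoc_inv_app (C := C) (1 : ℤ) 2 (-2) 3 0 1 (by norm_num)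
    (by norm_num) (by norm_num) S
  rw [h, shiftFunctorAdd'_add_zero_inv_app]
  simp [shiftFunctorCompIsoId]

/-- Existence of twists.

PROOF. Complete `f` to a triangle `S → X → Z → S[1]`, put `X' = Z[2]`, `p : X → Z ≅ Z[2][-2]`, `g' = q[2] ≫ (S[1][2] ≅ S[3])`; the
triangle with third map `g'[-2] ≫ (S[3][-2] ≅ S[1])` is isomorphic to the first one. -/
theorem exists_twist {S X : C} (f : S ⟶ X) :
    ∃ (X' : C) (p : X ⟶ X'⟦(-2 : ℤ)⟧) (g' : X' ⟶ S⟦(3 : ℤ)⟧), IsTwist f p g' := by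
  obtain ⟨Z, g, h, hT⟩ := distinguished_cocone_triangle f
  refine ⟨Z⟦(2 : ℤ)⟧, g ≫ (shiftFunctorCompIsoId C (2 : ℤ) (-2) (by norm_num)).inv.app Z,
    h⟦(2 : ℤ)⟧' ≫ (shiftFunctorAdd' C (1 : ℤ) 2 3 (by norm_num)).inv.app S, ⟨?_⟩⟩
  refine isomorphic_distinguished _ hT _ ?_
  refine Triangle.isoMk _ _ (Iso.refl _) (Iso.refl _)
    ((shiftFunctorCompIsoId C (2 : ℤ) (-2) (by norm_num)).app Z) ?_ ?_ ?_
  · change f ≫ 𝟙 X = 𝟙 S ≫ f
    simp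
  · change (g ≫ (shiftFunctorCompIsoId C (2 : ℤ) (-2) (by norm_num)).inv.app Z) ≫
      (shiftFunctorCompIsoId C (2 : ℤ) (-2) (by norm_num)).hom.app Z = 𝟙 X ≫ g
    simp
  · have hn := (shiftFunctorCompIsoId C (2 : ℤ) (-2) (by norm_num)).hom.naturality h
    simp only [Functor.comp_map, Functor.id_map] at hn
    change (((shiftFunctor C (-2 : ℤ)).map (h⟦(2 : ℤ)⟧' ≫
      (shiftFunctorAdd' C (1 : ℤ) 2 3 (by norm_num)).inv.app S)) ≫
      (shiftFunctorAdd' C (3 : ℤ) (-2) 1 (by norm_num)).inv.app S) ≫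
      (shiftFunctor C (1 : ℤ)).map (𝟙 S) =
      (shiftFunctorCompIsoId C (2 : ℤ) (-2) (by norm_num)).hom.app Z ≫ h
    rw [Functor.map_comp, CategoryTheory.Functor.map_id, Category.comp_id, Category.assoc,
      TwE_shift_comp]
    exact hn

omit k [Field k] [Linear k C] [HasZeroObject C]
  [∀ n : ℤ, Functor.Linear k (shiftFunctor C n)] [Pretriangulated C] in
private theorem TwE_zero {A B : C} (h : ∀ (n : ℤ) (x : A ⟶ B⟦n⟧), x = 0) (m n : ℤ)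
    (x : A⟦m⟧ ⟶ B⟦n⟧) : x = 0 := by
  have h1 := h (n + -m) ((shiftFunctorCompIsoId C m (-m) (by ring)).inv.app A ≫ x⟦-m⟧' ≫
    (shiftFunctorAdd' C n (-m) (n + -m) rfl).inv.app B)
  have h2 : x⟦-m⟧' = 0 := by
    have h3 : x⟦-m⟧' ≫ (shiftFunctorAdd' C n (-m) (n + -m) rfl).inv.app B = 0 := by
      rw [← cancel_epi ((shiftFunctorCompIsoId C m (-m) (by ring)).inv.app A)]
      simpa using h1
    rw [← cancel_mono ((shiftFunctorAdd' C n (-m) (n + -m) rfl).inv.app B)]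
    simpa using h3
  apply (shiftFunctor C (-m)).map_injective
  simpa using h2

omit k [Field k] [Linear k C] [HasZeroObject C]
  [∀ n : ℤ, Functor.Linear k (shiftFunctor C n)] [Pretriangulated C] in
private theorem TwE_zero' {A B : C} (h : ∀ (n : ℤ) (x : A ⟶ B⟦n⟧), x = 0) (m : ℤ)
    (x : A⟦m⟧ ⟶ B) : x = 0 := by
  have h1 := TwE_zero h m 0 (x ≫ (shiftFunctorZero C ℤ).inv.app B)
  rw [← cancel_mono ((shiftFunctorZero C ℤ).inv.app B)]
  simpa using h1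

omit k [Field k] [Linear k C] [HasZeroObject C]
  [∀ n : ℤ, Functor.Linear k (shiftFunctor C n)] [Pretriangulated C] in
private theorem TwE_zero2 {A B : C} (h : ∀ (n : ℤ) (x : A ⟶ B⟦n⟧), x = 0) (n r : ℤ)
    (x : A ⟶ B⟦n⟧⟦r⟧) : x = 0 := by
  have h1 := h (n + r) (x ≫ (shiftFunctorAdd' C n r (n + r) rfl).inv.app B)
  rw [← cancel_mono ((shiftFunctorAdd' C n r (n + r) rfl).inv.app B)]
  simpa using h1

/-- (T3). PROOF. `Hom(S[1],Y[n]) → Hom(X'[-2],Y[n]) → Hom(X,Y[n])` is exact and both ends are `0`. -/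
theorem orth_twist_left {S : C} {X X' Y : C} {f : S ⟶ X}
    {p : X ⟶ X'⟦(-2 : ℤ)⟧} {g' : X' ⟶ S⟦(3 : ℤ)⟧} (h : IsTwist f p g')
    (hY : ∀ (n : ℤ) (x : S ⟶ Y⟦n⟧), x = 0)
    (orth : ∀ (n : ℤ) (x : X ⟶ Y⟦n⟧), x = 0) (n : ℤ) (x : X' ⟶ Y⟦n⟧) : x = 0 := by
  obtain ⟨g, hg⟩ := Triangle.yoneda_exact₃ _ h.dist (x⟦(-2 : ℤ)⟧')
    (TwE_zero2 orth n (-2) (p ≫ x⟦(-2 : ℤ)⟧'))
  have hY' : ∀ (m : ℤ) (y : S ⟶ (Y⟦n⟧)⟦m⟧), y = 0 := fun m y => TwE_zero2 hY n m y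
  have hg0 : g = 0 := TwE_zero hY' 1 (-2) g
  apply (shiftFunctor C (-2 : ℤ)).map_injective
  rw [hg, hg0, Functor.map_zero]
  exact comp_zero

/-- (T3). PROOF. `Hom(Y,X[n]) → Hom(Y,X'[-2][n]) → Hom(Y,S[1][n])` is exact and both ends are `0`. -/
theorem orth_twist_right {S : C} {X X' Y : C} {f : S ⟶ X}
    {p : X ⟶ X'⟦(-2 : ℤ)⟧} {g' : X' ⟶ S⟦(3 : ℤ)⟧} (h : IsTwist f p g')
    (hY : ∀ (n : ℤ) (x : Y ⟶ S⟦n⟧), x = 0)
    (orth : ∀ (n : ℤ) (x : Y ⟶ X⟦n⟧), x = 0) (n : ℤ) (x : Y ⟶ X'⟦n⟧) : x = 0 := by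
  -- `x' : Y[-(n+2)] → X'[-2]`
  set y : Y⟦-(n + 2)⟧ ⟶ X'⟦(-2 : ℤ)⟧ :=
    x⟦-(n + 2)⟧' ≫ (shiftFunctorAdd' C n (-(n + 2)) (-2) (by ring)).inv.app X' with hy
  have hq : y ≫ (g'⟦(-2 : ℤ)⟧' ≫
    (shiftFunctorAdd' C (3 : ℤ) (-2) 1 (by norm_num)).inv.app S) = 0 := TwE_zero hY _ 1 _
  obtain ⟨g, hg⟩ := Triangle.coyoneda_exact₃ _ h.dist y hq
  have hg0 : g = 0 := TwE_zero' orth _ g
  have hy0 : y = 0 := by
    rw [hg, hg0]
    exact zero_comp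
  apply (shiftFunctor C (-(n + 2))).map_injective
  rw [← cancel_mono ((shiftFunctorAdd' C n (-(n + 2)) (-2) (by ring)).inv.app X')]
  simpa [hy] using hy0

end BO
end
end

section

/-!
# TASK TwT
-/

set_option autoImplicit false

noncomputable section

open CategoryTheory CategoryTheory.Limits CategoryTheory.Pretriangulated

namespace BO

universe w v u

section aux

variable {C : Type u} [Category.{v} C] [Preadditive C]
  [HasZeroObject C] [HasShift C ℤ] [∀ n : ℤ, (shiftFunctor C n).Additive] [Pretriangulated C]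

private theorem TwT_exact₃ {A S X U : C} {f : S ⟶ X} {p : X ⟶ U} {q : U ⟶ S⟦(1 : ℤ)⟧}
    (hT : Triangle.mk f p q ∈ distTriang C) (n : ℤ) (x : A ⟶ U⟦n⟧) (hx : x ≫ q⟦n⟧' = 0) :
    ∃ y : A ⟶ X⟦n⟧, x = y ≫ p⟦n⟧' := by
  let F := shiftFunctor C n
  let e : F.obj (F.objPreimage A) ≅ A := F.objObjPreimageIso A
  let x' : F.objPreimage A ⟶ U := F.preimage (e.hom ≫ x)
  have h1 : x' ≫ q = 0 := by
    apply F.map_injective
    rw [F.map_comp, F.map_preimage, F.map_zero, Category.assoc]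
    rw [hx, comp_zero]
  obtain ⟨y, hy⟩ : ∃ y : F.objPreimage A ⟶ X, x' = y ≫ p := Triangle.coyoneda_exact₃ _ hT x' h1
  refine ⟨e.inv ≫ F.map y, ?_⟩
  have h2 : F.map x' = F.map y ≫ F.map p := by
    rw [← F.map_comp]; exact congrArg F.map hy
  rw [F.map_preimage] at h2
  have h3 : (e.inv ≫ F.map y) ≫ F.map p = x := by
    rw [Category.assoc, ← h2, Iso.inv_hom_id_assoc]
  exact h3.symm

private theorem TwT_exact₁ {A S X U : C} {f : S ⟶ X} {p : X ⟶ U} {q : U ⟶ S⟦(1 : ℤ)⟧}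
    (hT : Triangle.mk f p q ∈ distTriang C) (n : ℤ) (x : A ⟶ S⟦(1 : ℤ)⟧⟦n⟧)
    (hx : x ≫ f⟦(1 : ℤ)⟧'⟦n⟧' = 0) :
    ∃ y : A ⟶ U⟦n⟧, x = y ≫ q⟦n⟧' := by
  let F := shiftFunctor C n
  let e : F.obj (F.objPreimage A) ≅ A := F.objObjPreimageIso A
  let x' : F.objPreimage A ⟶ S⟦(1 : ℤ)⟧ := F.preimage (e.hom ≫ x)
  have h1 : x' ≫ f⟦(1 : ℤ)⟧' = 0 := by
    apply F.map_injective
    rw [F.map_comp, F.map_preimage, F.map_zero, Category.assoc]
    rw [hx, comp_zero]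
  obtain ⟨y, hy⟩ : ∃ y : F.objPreimage A ⟶ U, x' = y ≫ q := Triangle.coyoneda_exact₁ _ hT x' h1
  refine ⟨e.inv ≫ F.map y, ?_⟩
  have h2 : F.map x' = F.map y ≫ F.map q := by
    rw [← F.map_comp]; exact congrArg F.map hy
  rw [F.map_preimage] at h2
  have h3 : (e.inv ≫ F.map y) ≫ F.map q = x := by
    rw [Category.assoc, ← h2, Iso.inv_hom_id_assoc]
  exact h3.symm

/-- A morphism into a double shift, from a statement on simple shifts. -/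
private theorem TwT_two {A B : C} {n : ℤ} (h0 : ∀ x : A ⟶ B⟦n⟧, x = 0) (a b : ℤ) (hab : a + b = n)
    (x : A ⟶ B⟦a⟧⟦b⟧) : x = 0 := by
  have := h0 (x ≫ (shiftFunctorAdd' C a b n hab).inv.app B)
  rw [← cancel_mono ((shiftFunctorAdd' C a b n hab).inv.app B), this, zero_comp]

private theorem TwT_desc {A B : C} (m : ℤ) (y : A⟦(1 : ℤ)⟧ ⟶ B⟦m⟧) :
    ∃ z : A ⟶ B⟦m - 1⟧,
      y = z⟦(1 : ℤ)⟧' ≫ (shiftFunctorAdd' C (m - 1) 1 m (by ring)).inv.app B := by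
  refine ⟨(shiftFunctor C (1 : ℤ)).preimage
    (y ≫ (shiftFunctorAdd' C (m - 1) 1 m (by ring)).hom.app B), ?_⟩
  rw [Functor.map_preimage, Category.assoc, Iso.hom_inv_id_app]
  exact (Category.comp_id _).symm

end aux

variable (k : Type w) [Field k] {C : Type u} [Category.{v} C] [Preadditive C] [Linear k C]
  [HasZeroObject C] [HasShift C ℤ] [∀ n : ℤ, (shiftFunctor C n).Additive]
  [∀ n : ℤ, Functor.Linear k (shiftFunctor C n)] [Pretriangulated C]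

/-- The maps `U ⟶ S[m]`. -/
private theorem TwT_con {S : C} {sg : S ⟶ S⟦(3 : ℤ)⟧} (hS : Spherical k S sg) {X U : C}
    {f : S ⟶ X} {g : X ⟶ S⟦(3 : ℤ)⟧} (hX : TypeOne k sg f g)
    {p : X ⟶ U} {q : U ⟶ S⟦(1 : ℤ)⟧} (hT : Triangle.mk f p q ∈ distTriang C) :
    (∀ (m : ℤ), m ≠ 1 → ∀ x : U ⟶ S⟦m⟧, x = 0) ∧
      (∀ x : U ⟶ S⟦(1 : ℤ)⟧, ∃ c : k, x = c • q) := by
  have hfp : f ≫ p = 0 := comp_distTriang_mor_zero₁₂ _ hT
  have hqf : q ≫ f⟦(1 : ℤ)⟧' = 0 := comp_distTriang_mor_zero₃₁ _ hT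
  -- all maps factor through `q`
  have hfac : ∀ (m : ℤ) (x : U ⟶ S⟦m⟧), ∃ y : S⟦(1 : ℤ)⟧ ⟶ S⟦m⟧, x = q ≫ y := by
    intro m x
    have h0 : p ≫ x = 0 := by
      by_cases hm : m = 3
      · subst hm
        obtain ⟨c, hc⟩ := hX.hom_eq' (p ≫ x)
        have h1 : c • sg = 0 := by
          rw [← hX.fg, ← Linear.comp_smul, ← hc, ← Category.assoc, hfp, zero_comp]
        rcases smul_eq_zero.1 h1 with h2 | h2
        · rw [hc, h2, zero_smul]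
        · exact absurd h2 hS.ne_zero
      · exact hX.hom_zero' m hm _
    exact Triangle.yoneda_exact₃ _ hT x h0
  constructor
  · intro m hm x
    obtain ⟨y, hy⟩ := hfac m x
    obtain ⟨z, hz⟩ := TwT_desc m y
    by_cases h4 : m = 4
    · subst h4
      obtain ⟨c, hc⟩ : ∃ c : k, z = c • sg := hS.top_eq z
      have h5 : q ≫ z⟦(1 : ℤ)⟧' = 0 := by
        rw [hc, Functor.map_smul, Linear.comp_smul, ← hX.fg, Functor.map_comp, ← Category.assoc, hqf,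
          zero_comp, smul_zero]
      rw [hy, hz, ← Category.assoc, h5, zero_comp]
    · have : z = 0 := hS.zero (m - 1) (by omega) (by omega) z
      rw [hy, hz, this, Functor.map_zero, zero_comp, comp_zero]
  · intro x
    obtain ⟨y, hy⟩ := hfac 1 x
    have h1 : ∃ c : k, (shiftFunctor C (1 : ℤ)).preimage y = c • 𝟙 S := hS.end_eq _
    obtain ⟨c, hc⟩ := h1
    refine ⟨c, ?_⟩
    have h2 : y = c • 𝟙 _ := by
      rw [← (shiftFunctor C (1 : ℤ)).map_preimage y, hc, Functor.map_smul,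
        CategoryTheory.Functor.map_id]
    rw [hy, h2, Linear.comp_smul, Category.comp_id]

/-- The maps `S ⟶ U[m]`. -/
private theorem TwT_cov {S : C} {sg : S ⟶ S⟦(3 : ℤ)⟧} (hS : Spherical k S sg) {X U : C}
    {f : S ⟶ X} {g : X ⟶ S⟦(3 : ℤ)⟧} (hX : TypeOne k sg f g)
    {p : X ⟶ U} {q : U ⟶ S⟦(1 : ℤ)⟧} (hT : Triangle.mk f p q ∈ distTriang C) :
    (∀ (m : ℤ), m ≠ 2 → ∀ x : S ⟶ U⟦m⟧, x = 0) ∧
      (∀ x : S ⟶ U⟦(2 : ℤ)⟧, x ≫ q⟦(2 : ℤ)⟧' = 0 → x = 0) ∧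
      (∀ x : S ⟶ S⟦(1 : ℤ)⟧⟦(2 : ℤ)⟧, ∃ y : S ⟶ U⟦(2 : ℤ)⟧, x = y ≫ q⟦(2 : ℤ)⟧') := by
  have hfp : f ≫ p = 0 := comp_distTriang_mor_zero₁₂ _ hT
  have hqf : q ≫ f⟦(1 : ℤ)⟧' = 0 := comp_distTriang_mor_zero₃₁ _ hT
  have hker : ∀ (m : ℤ) (x : S ⟶ U⟦m⟧), x ≫ q⟦m⟧' = 0 → x = 0 := by
    intro m x hx
    obtain ⟨y, hy⟩ := TwT_exact₃ hT m x hx
    by_cases hm : m = 0
    · subst hm
      obtain ⟨c, hc⟩ := hX.hom_eq (y ≫ (shiftFunctorZero C ℤ).hom.app X)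
      have h1 : y = (c • f) ≫ (shiftFunctorZero C ℤ).inv.app X := by
        rw [← hc, Category.assoc, Iso.hom_inv_id_app]
        exact (Category.comp_id _).symm
      rw [hy, h1, Category.assoc]
      have h2 : (shiftFunctorZero C ℤ).inv.app X ≫ p⟦(0 : ℤ)⟧' =
          p ≫ (shiftFunctorZero C ℤ).inv.app U := ((shiftFunctorZero C ℤ).inv.naturality p).symm
      rw [h2, ← Category.assoc, Linear.smul_comp, hfp, smul_zero, zero_comp]
    · rw [hy, hX.hom_zero m hm y, zero_comp]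
  refine ⟨?_, hker 2, ?_⟩
  · intro m hm x
    apply hker
    by_cases h1 : m = -1
    · subst h1
      -- `x ≫ q[-1]` is `c • 1` with `c • f = 0`
      obtain ⟨c, hc⟩ := hS.end_eq ((x ≫ q⟦(-1 : ℤ)⟧') ≫
        (shiftFunctorCompIsoId C (1 : ℤ) (-1) (by norm_num)).hom.app S)
      have h2 : c • f = 0 := by
        have h3 : (shiftFunctorCompIsoId C (1 : ℤ) (-1) (by norm_num)).hom.app S ≫ f =
            f⟦(1 : ℤ)⟧'⟦(-1 : ℤ)⟧' ≫
              (shiftFunctorCompIsoId C (1 : ℤ) (-1) (by norm_num)).hom.app X :=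
          ((shiftFunctorCompIsoId C (1 : ℤ) (-1) (by norm_num)).hom.naturality f).symm
        have h4 : (c • 𝟙 S) ≫ f = 0 := by
          rw [← hc, Category.assoc, h3, Category.assoc, ← Category.assoc (q⟦(-1 : ℤ)⟧'),
            ← Functor.map_comp, hqf, Functor.map_zero, zero_comp, comp_zero]
        rw [Linear.smul_comp, Category.id_comp] at h4
        exact h4
      have h5 : c = 0 := by
        rcases smul_eq_zero.1 h2 with h | h
        · exact h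
        · exfalso
          apply hS.ne_zero
          rw [← hX.fg, h, zero_comp]
      rw [h5, zero_smul] at hc
      rw [← cancel_mono ((shiftFunctorCompIsoId C (1 : ℤ) (-1) (by norm_num)).hom.app S), hc,
        zero_comp]
    · exact TwT_two (hS.zero (1 + m) (by omega) (by omega)) 1 m rfl _
  · intro x
    apply TwT_exact₁ hT
    exact TwT_two (hX.hom_zero 3 (by norm_num)) 1 2 (by norm_num) _

/-- (T1) The twist of a type one object is a type one object.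

PROOF. Write `q : X'[-2] ⟶ S[1]` for the third map. (a) `Hom(S,-)`: the map `Hom(S,S[n]) → Hom(S,X[n])`, `h ↦ h ≫ f[n]`, is
bijective for `n = 0` (`𝟙 ↦ f`; `f ≠ 0` because `f ≫ g = sg ≠ 0`) and `Hom(S,X[n]) = 0` for `n ≠ 0`; the long exact sequence gives
`Hom(S,X'[-2][n]) ≃ Hom(S,S[1][n])` for `n = 2` and `0` for `n ≠ 2`. So `Hom(S,X'[m]) = 0` for `m ≠ 0`, and
`h ↦ h ≫ g'` is a bijection `Hom(S,X') → Hom(S,S[3]) = k sg`: there is `f'` with `f' ≫ g' = sg`, and it spans `Hom(S,X')`.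
(b) `Hom(-,S[m])`: `Hom(X,S[m]) → Hom(S,S[m])`, `x ↦ f ≫ x`, is bijective for `m = 3` (`g ↦ sg`), and `Hom(X,S[m]) = 0` for `m ≠ 3`.
The long exact sequence gives `Hom(X'[-2],S[m]) = 0` for `m ≠ 1` (for `m = 4`: `Hom(X[1],S[4]) → Hom(S[1],S[4])` is surjective) and
`Hom(X'[-2],S[1])` is spanned by `q`. Shift by `2`: `Hom(X',S[n]) = 0` for `n ≠ 3`, `Hom(X',S[3])` is spanned by `g'`. -/
theorem TypeOne.twist {S : C} {sg : S ⟶ S⟦(3 : ℤ)⟧} (hS : Spherical k S sg) {X X' : C}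
    {f : S ⟶ X} {g : X ⟶ S⟦(3 : ℤ)⟧} (hX : TypeOne k sg f g)
    {p : X ⟶ X'⟦(-2 : ℤ)⟧} {g' : X' ⟶ S⟦(3 : ℤ)⟧} (h : IsTwist f p g') :
    ∃ f' : S ⟶ X', TypeOne k sg f' g' := by
  have hT := h.dist
  obtain ⟨con1, con2⟩ := TwT_con k hS hX hT
  obtain ⟨cov1, cov2, cov3⟩ := TwT_cov k hS hX hT
  -- the isomorphism `X'[-2][2] ≅ X'`
  let eX : X'⟦(-2 : ℤ)⟧⟦(2 : ℤ)⟧ ≅ X' := (shiftFunctorCompIsoId C (-2 : ℤ) 2 (by norm_num)).app X'
  let a : S⟦(3 : ℤ)⟧⟦(-2 : ℤ)⟧ ⟶ S⟦(1 : ℤ)⟧ := (shiftFunctorAdd' C (3 : ℤ) (-2) 1 (by norm_num)).inv.app S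
  let eS : S⟦(3 : ℤ)⟧⟦(-2 : ℤ)⟧⟦(2 : ℤ)⟧ ≅ S⟦(3 : ℤ)⟧ :=
    (shiftFunctorCompIsoId C (-2 : ℤ) 2 (by norm_num)).app (S⟦(3 : ℤ)⟧)
  have hnat : g'⟦(-2 : ℤ)⟧'⟦(2 : ℤ)⟧' ≫ eS.hom = eX.hom ≫ g' :=
    (shiftFunctorCompIsoId C (-2 : ℤ) 2 (by norm_num)).hom.naturality g'
  have : IsIso a := by
    dsimp [a]; infer_instance
  have hinj : ∀ x : S ⟶ X', x ≫ g' = 0 → x = 0 := by
    intro x hx
    have h1 : (x ≫ eX.inv) ≫ (g'⟦(-2 : ℤ)⟧' ≫ a)⟦(2 : ℤ)⟧' = 0 := by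
      rw [Functor.map_comp]
      have h2 : eX.inv ≫ g'⟦(-2 : ℤ)⟧'⟦(2 : ℤ)⟧' = g' ≫ eS.inv := by
        rw [Iso.inv_comp_eq, ← Category.assoc, ← hnat, Category.assoc, Iso.hom_inv_id,
          Category.comp_id]
      rw [Category.assoc, ← Category.assoc eX.inv, h2, ← Category.assoc, ← Category.assoc, hx,
        zero_comp, zero_comp]
    have h3 := cov2 _ h1
    rw [← cancel_mono eX.inv, h3, zero_comp]
  obtain ⟨y, hy⟩ := cov3 ((sg ≫ eS.inv) ≫ a⟦(2 : ℤ)⟧')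
  have hf' : (y ≫ eX.hom) ≫ g' = sg := by
    rw [Category.assoc, ← hnat]
    have h1 : (sg ≫ eS.inv) ≫ a⟦(2 : ℤ)⟧' = (y ≫ g'⟦(-2 : ℤ)⟧'⟦(2 : ℤ)⟧') ≫ a⟦(2 : ℤ)⟧' := by
      rw [hy, Functor.map_comp, Category.assoc]
    have h2 := (cancel_mono _).1 h1
    rw [← Category.assoc, ← h2, Category.assoc, Iso.inv_hom_id, Category.comp_id]
  refine ⟨y ≫ eX.hom, hf', ?_, ?_, ?_, ?_⟩
  · intro x
    obtain ⟨c, hc⟩ := hS.top_eq (x ≫ g')
    refine ⟨c, ?_⟩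
    rw [← sub_eq_zero]
    apply hinj
    rw [Preadditive.sub_comp, hc, Linear.smul_comp, hf', sub_self]
  · intro n hn x
    let b := (shiftFunctorAdd' C (-2 : ℤ) (n + 2) n (by ring)).hom.app X'
    have h1 := cov1 (n + 2) (by omega) (x ≫ b)
    have : IsIso b := by dsimp [b]; infer_instance
    rw [← cancel_mono b, h1, zero_comp]
  · intro x
    obtain ⟨c, hc⟩ := con2 (x⟦(-2 : ℤ)⟧' ≫ a)
    refine ⟨c, ?_⟩
    have h1 : x⟦(-2 : ℤ)⟧' ≫ a = (c • g'⟦(-2 : ℤ)⟧') ≫ a := by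
      rw [hc, Linear.smul_comp]
    have h2 := (cancel_mono _).1 h1
    apply (shiftFunctor C (-2 : ℤ)).map_injective
    rw [h2, Functor.map_smul]
  · intro n hn x
    let b := (shiftFunctorAdd' C n (-2 : ℤ) (n - 2) (by ring)).inv.app S
    have : IsIso b := by dsimp [b]; infer_instance
    have h1 := con1 (n - 2) (by omega) (x⟦(-2 : ℤ)⟧' ≫ b)
    apply (shiftFunctor C (-2 : ℤ)).map_injective
    rw [← cancel_mono b, h1, Functor.map_zero, zero_comp]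

end BO
end
end

section

/-!
# TASK TwM
-/

set_option autoImplicit false

noncomputable section

open CategoryTheory CategoryTheory.Limits CategoryTheory.Pretriangulated

namespace BO

universe w v u

variable (k : Type w) [Field k] {C : Type u} [Category.{v} C] [Preadditive C] [Linear k C]
  [HasZeroObject C] [HasShift C ℤ] [∀ n : ℤ, (shiftFunctor C n).Additive]
  [∀ n : ℤ, Functor.Linear k (shiftFunctor C n)] [Pretriangulated C]

/-- (T4) A map compatible with the `f`'s induces a map of the twists with the same cone.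

PROOF. Octahedral axiom (`Triangulated.someOctahedron`) for `S →[f] X →[y] Y` (composite `fY`): there is a triangle
`X'[-2] →[y''] Y'[-2] → Z → X'[-2][1]` with `y'' ≫ qY = q` (`q`, `qY` the third maps). Put `y' = ` the preimage of `y''` under the
shift `[-2]`; shift the triangle by `2` (`Triangle.shift_distinguished`, even shift: no sign, `X'[-2][2] ≅ X'`). `y'' ≫ qY = q` gives
`y' ≫ gY' = g'`. Finally `fX' ≫ y' = c • fY'` by `hfY'.hom_eq`, and composing with `gY'`: `sg = fX' ≫ g' = c • sg`, `c = 1`. -/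
theorem twist_map [IsTriangulated C] {S : C} {sg : S ⟶ S⟦(3 : ℤ)⟧} (hS : Spherical k S sg)
    {X X' Y Y' : C} {f : S ⟶ X} {g : X ⟶ S⟦(3 : ℤ)⟧} (hX : TypeOne k sg f g)
    {p : X ⟶ X'⟦(-2 : ℤ)⟧} {g' : X' ⟶ S⟦(3 : ℤ)⟧} (h : IsTwist f p g')
    {fY : S ⟶ Y} {gY : Y ⟶ S⟦(3 : ℤ)⟧} (hY : TypeOne k sg fY gY)
    {pY : Y ⟶ Y'⟦(-2 : ℤ)⟧} {gY' : Y' ⟶ S⟦(3 : ℤ)⟧} (h' : IsTwist fY pY gY')
    {fX' : S ⟶ X'} (hfX' : TypeOne k sg fX' g') {fY' : S ⟶ Y'} (hfY' : TypeOne k sg fY' gY')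
    (y : X ⟶ Y) (hy : f ≫ y = fY) {Z : C} (b : Y ⟶ Z) (c : Z ⟶ X⟦(1 : ℤ)⟧)
    (hZ : Triangle.mk y b c ∈ distTriang C) :
    ∃ (y' : X' ⟶ Y') (b' : Y' ⟶ Z⟦(2 : ℤ)⟧) (c' : Z⟦(2 : ℤ)⟧ ⟶ X'⟦(1 : ℤ)⟧),
      fX' ≫ y' = fY' ∧ Triangle.mk y' b' c' ∈ distTriang C := by
  obtain ⟨hd⟩ := h
  obtain ⟨hd'⟩ := h'
  let O := Triangulated.someOctahedron hy hd hZ hd'
  let y' : X' ⟶ Y' := (shiftFunctor C (-2 : ℤ)).preimage O.m₁
  have hy' : y'⟦(-2 : ℤ)⟧' = O.m₁ := (shiftFunctor C (-2 : ℤ)).map_preimage O.m₁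
  have hg : y' ≫ gY' = g' := by
    apply (shiftFunctor C (-2 : ℤ)).map_injective
    rw [Functor.map_comp, hy']
    have h1 := O.comm₂
    rw [← cancel_mono ((shiftFunctorAdd' C (3 : ℤ) (-2) 1 (by norm_num)).inv.app S)]
    rw [Category.assoc]
    exact h1
  have hf : fX' ≫ y' = fY' := by
    obtain ⟨e, he⟩ := hfY'.hom_eq (fX' ≫ y')
    have h1 : sg = e • sg := by
      calc sg = fX' ≫ g' := hfX'.fg.symm
        _ = (fX' ≫ y') ≫ gY' := by rw [Category.assoc, hg]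
        _ = e • sg := by rw [he, Linear.smul_comp, hfY'.fg]
    have h2 : (1 - e) • sg = 0 := by
      rw [sub_smul, one_smul, ← h1, sub_self]
    have h3 : 1 - e = 0 := (smul_eq_zero.1 h2).resolve_right hS.ne_zero
    have h4 : e = 1 := (sub_eq_zero.1 h3).symm
    rw [he, h4, one_smul]
  have h2n : (2 : ℤ).negOnePow = 1 := Int.negOnePow_even 2 ⟨1, rfl⟩
  refine ⟨y', ?_, ?_, hf, ?_⟩
  · exact (shiftFunctorCompIsoId C (-2 : ℤ) 2 (by norm_num)).inv.app Y' ≫ O.m₃⟦(2 : ℤ)⟧'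
  · exact ((c ≫ p⟦(1 : ℤ)⟧')⟦(2 : ℤ)⟧' ≫ (shiftFunctorComm C (1 : ℤ) 2).hom.app _) ≫
      ((shiftFunctorCompIsoId C (-2 : ℤ) 2 (by norm_num)).hom.app X')⟦(1 : ℤ)⟧'
  · refine isomorphic_distinguished _ (Triangle.shift_distinguished _ O.mem 2) _ ?_
    refine Triangle.isoMk _ _
      ((shiftFunctorCompIsoId C (-2 : ℤ) 2 (by norm_num)).symm.app X')
      ((shiftFunctorCompIsoId C (-2 : ℤ) 2 (by norm_num)).symm.app Y')
      (Iso.refl _) ?_ ?_ ?_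
    · show y' ≫ (shiftFunctorCompIsoId C (-2 : ℤ) 2 (by norm_num)).inv.app Y' =
        (shiftFunctorCompIsoId C (-2 : ℤ) 2 (by norm_num)).inv.app X' ≫
          ((2 : ℤ).negOnePow • (shiftFunctor C (2 : ℤ)).map O.m₁)
      rw [h2n, one_smul, ← hy']
      exact (shiftFunctorCompIsoId C (-2 : ℤ) 2 (by norm_num)).inv.naturality y'
    · show ((shiftFunctorCompIsoId C (-2 : ℤ) 2 (by norm_num)).inv.app Y' ≫ O.m₃⟦(2 : ℤ)⟧') ≫ 𝟙 _ =
        (shiftFunctorCompIsoId C (-2 : ℤ) 2 (by norm_num)).inv.app Y' ≫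
          ((2 : ℤ).negOnePow • (shiftFunctor C (2 : ℤ)).map O.m₃)
      rw [h2n, one_smul, Category.comp_id]
    · show (((c ≫ p⟦(1 : ℤ)⟧')⟦(2 : ℤ)⟧' ≫ (shiftFunctorComm C (1 : ℤ) 2).hom.app _) ≫
        ((shiftFunctorCompIsoId C (-2 : ℤ) 2 (by norm_num)).hom.app X')⟦(1 : ℤ)⟧') ≫
          ((shiftFunctorCompIsoId C (-2 : ℤ) 2 (by norm_num)).inv.app X')⟦(1 : ℤ)⟧' =
        𝟙 _ ≫ ((2 : ℤ).negOnePow • (shiftFunctor C (2 : ℤ)).map (c ≫ p⟦(1 : ℤ)⟧') ≫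
          (shiftFunctorComm C (1 : ℤ) 2).hom.app _)
      rw [h2n, one_smul, Category.id_comp, Category.assoc, ← Functor.map_comp]
      have h5 : (shiftFunctorCompIsoId C (-2 : ℤ) 2 (by norm_num)).hom.app X' ≫
          (shiftFunctorCompIsoId C (-2 : ℤ) 2 (by norm_num)).inv.app X' = 𝟙 _ :=
        Iso.hom_inv_id_app _ _
      rw [h5]
      have h6 : (shiftFunctor C (1 : ℤ)).map (𝟙 ((shiftFunctor C (-2 : ℤ) ⋙ shiftFunctor C (2 : ℤ)).obj X')) = 𝟙 _ :=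
        CategoryTheory.Functor.map_id _ _
      rw [h6]
      exact Category.comp_id _

end BO
end
end

section

/-!
# TASK TwO
-/

set_option autoImplicit false

noncomputable section

open CategoryTheory CategoryTheory.Limits CategoryTheory.Pretriangulated

namespace BO

universe w v u

variable (k : Type w) [Field k] {C : Type u} [Category.{v} C] [Preadditive C] [Linear k C]
  [HasZeroObject C] [HasShift C ℤ] [∀ n : ℤ, (shiftFunctor C n).Additive]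
  [∀ n : ℤ, Functor.Linear k (shiftFunctor C n)] [Pretriangulated C]

omit [Linear k C] [HasZeroObject C] [∀ n : ℤ, (shiftFunctor C n).Additive]
  [∀ n : ℤ, Functor.Linear k (shiftFunctor C n)] [Pretriangulated C] in
omit [Preadditive C] in
private theorem TwO_shift {A B : C} {a b c : ℤ} (h : c + a = b) (x : A⟦a⟧ ⟶ B⟦b⟧) :
    ∃ w : A ⟶ B⟦c⟧, x = w⟦a⟧' ≫ (shiftFunctorAdd' C c a b h).inv.app B := by
  refine ⟨(shiftFunctor C a).preimage (x ≫ (shiftFunctorAdd' C c a b h).hom.app B), ?_⟩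
  rw [Functor.map_preimage, Category.assoc, Iso.hom_inv_id_app, Category.comp_id]

private theorem TwO_zero {S : C} {sg : S ⟶ S⟦(3 : ℤ)⟧} {Y : C} {fY : S ⟶ Y}
    {gY : Y ⟶ S⟦(3 : ℤ)⟧} (hY : TypeOne k sg fY gY) (h : S ⟶ Y⟦(0 : ℤ)⟧) :
    ∃ c : k, h = c • (fY ≫ (shiftFunctorZero C ℤ).inv.app Y) := by
  obtain ⟨c, hc⟩ := hY.hom_eq (h ≫ (shiftFunctorZero C ℤ).hom.app Y)
  refine ⟨c, ?_⟩
  rw [← Linear.smul_comp, ← hc, Category.assoc, Iso.hom_inv_id_app]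
  exact (Category.comp_id h).symm

private theorem TwO_A {S : C} {sg : S ⟶ S⟦(3 : ℤ)⟧}
    {X X' Y : C} {f : S ⟶ X}
    {p : X ⟶ X'⟦(-2 : ℤ)⟧} {g' : X' ⟶ S⟦(3 : ℤ)⟧} (h : IsTwist f p g')
    {fY : S ⟶ Y} {gY : Y ⟶ S⟦(3 : ℤ)⟧} (hY : TypeOne k sg fY gY)
    (orth : ∀ (n : ℤ) (x : X ⟶ Y⟦n⟧), x = 0) (m : ℤ) (y : X'⟦(-2 : ℤ)⟧ ⟶ Y⟦m⟧) :
    ∃ s : X'⟦(-2 : ℤ)⟧ ⟶ S⟦m⟧, y = s ≫ fY⟦m⟧' := by
  obtain ⟨y', hy'⟩ := Triangle.yoneda_exact₃ _ h.dist y (orth m (p ≫ y))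
  change S⟦(1 : ℤ)⟧ ⟶ Y⟦m⟧ at y'
  by_cases hm : m = 1
  · subst hm
    obtain ⟨w, hw⟩ := TwO_shift (show (0 : ℤ) + 1 = 1 by norm_num) y'
    obtain ⟨c, hc⟩ := TwO_zero k hY w
    have e : y' = c • fY⟦(1 : ℤ)⟧' := by
      rw [hw, hc, Functor.map_smul, Functor.map_comp, Linear.smul_comp, Category.assoc]
      congr 1
      rw [shiftFunctorAdd'_zero_add_inv_app, ← Functor.map_comp, Iso.inv_hom_id_app]
      simp
    set q : X'⟦(-2 : ℤ)⟧ ⟶ S⟦(1 : ℤ)⟧ := g'⟦(-2 : ℤ)⟧' ≫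
      (shiftFunctorAdd' C (3 : ℤ) (-2) 1 (by norm_num)).inv.app S with hq
    have hy2 : y = q ≫ y' := hy'
    refine ⟨c • q, ?_⟩
    rw [hy2, e, Linear.comp_smul, Linear.smul_comp]
  · obtain ⟨w, hw⟩ := TwO_shift (show (m - 1) + 1 = m by ring) y'
    have hw0 : w = 0 := hY.hom_zero (m - 1) (by omega) w
    have hy0 : y' = 0 := by rw [hw, hw0]; simp
    refine ⟨0, ?_⟩
    rw [zero_comp, hy', hy0]
    exact comp_zero

private theorem TwO_B {S : C} {sg : S ⟶ S⟦(3 : ℤ)⟧} (hS : Spherical k S sg)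
    {X X' Y : C} {f : S ⟶ X} {g : X ⟶ S⟦(3 : ℤ)⟧} (hX : TypeOne k sg f g)
    {p : X ⟶ X'⟦(-2 : ℤ)⟧} {g' : X' ⟶ S⟦(3 : ℤ)⟧} (h : IsTwist f p g')
    {fY : S ⟶ Y} {gY : Y ⟶ S⟦(3 : ℤ)⟧} (hY : TypeOne k sg fY gY)
    (orth : ∀ (n : ℤ) (x : X ⟶ Y⟦n⟧), x = 0) (m : ℤ) (s : X'⟦(-2 : ℤ)⟧ ⟶ S⟦m⟧)
    (hs : s ≫ fY⟦m⟧' = 0) : s = 0 := by
  obtain ⟨f', hX'⟩ := TypeOne.twist k hS hX h
  by_cases hm : m = 1
  · subst hm
    obtain ⟨w, hw⟩ := TwO_shift (show (3 : ℤ) + (-2) = 1 by norm_num) s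
    obtain ⟨c, hc⟩ := hX'.hom_eq' w
    by_cases hc0 : c = 0
    · rw [hw, hc, hc0]; simp
    · exfalso
      set q : X'⟦(-2 : ℤ)⟧ ⟶ S⟦(1 : ℤ)⟧ := g'⟦(-2 : ℤ)⟧' ≫
        (shiftFunctorAdd' C (3 : ℤ) (-2) 1 (by norm_num)).inv.app S with hq
      have e : s = c • q := by
        rw [hw, hc, Functor.map_smul, Linear.smul_comp]
      have hq0 : q ≫ fY⟦(1 : ℤ)⟧' = 0 := by
        rw [e, Linear.smul_comp] at hs
        exact (smul_eq_zero.mp hs).resolve_left hc0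
      obtain ⟨z, hz⟩ := Triangle.yoneda_exact₃ _ (rot_of_distTriang _ h.dist)
        (fY⟦(1 : ℤ)⟧') hq0
      change X⟦(1 : ℤ)⟧ ⟶ Y⟦(1 : ℤ)⟧ at z
      have hz0 : z = 0 := by
        obtain ⟨w', hw'⟩ := TwO_shift (show (0 : ℤ) + 1 = 1 by norm_num) z
        rw [hw', orth 0 w']
        simp
      rw [hz0] at hz
      have hz' : fY⟦(1 : ℤ)⟧' = 0 := hz.trans comp_zero
      have hf0 : fY = 0 := by
        apply (shiftFunctor C (1 : ℤ)).map_injective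
        rw [hz', Functor.map_zero]
      apply hS.ne_zero
      rw [← hY.fg, hf0, zero_comp]
  · obtain ⟨w, hw⟩ := TwO_shift (show (m + 2) + (-2) = m by ring) s
    rw [hw, hX'.hom_zero' (m + 2) (by omega) w]
    simp

/-- (T2) Orthogonality of twists.

PROOF. `U = X'[-2]`, `q : U ⟶ S[1]`. The long exact sequence of `Hom(-,Y[n])` for `S → X → U → S[1]` and `Hom(X,Y[n]) = 0` give
`Hom(U,Y[n]) ≃ Hom(S[1],Y[n])` (composition with `q`), i.e. `k • (q ≫ fY[1])` for `n = 1` and `0` otherwise. By (T1)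
(`TypeOne.twist`) `Hom(U,S[n])` is `k • q` for `n = 1` and `0` otherwise. So `Hom(U,S[n]) → Hom(U,Y[n])`, `x ↦ x ≫ fY[n]`, is bijective
for all `n`, and the long exact sequence of `Hom(U,-)` for `S → Y → Y'[-2] → S[1]` gives `Hom(U,Y'[-2][n]) = 0`. -/
theorem orth_twist_twist {S : C} {sg : S ⟶ S⟦(3 : ℤ)⟧} (hS : Spherical k S sg)
    {X X' Y Y' : C} {f : S ⟶ X} {g : X ⟶ S⟦(3 : ℤ)⟧} (hX : TypeOne k sg f g)
    {p : X ⟶ X'⟦(-2 : ℤ)⟧} {g' : X' ⟶ S⟦(3 : ℤ)⟧} (h : IsTwist f p g')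
    {fY : S ⟶ Y} {gY : Y ⟶ S⟦(3 : ℤ)⟧} (hY : TypeOne k sg fY gY)
    {pY : Y ⟶ Y'⟦(-2 : ℤ)⟧} {gY' : Y' ⟶ S⟦(3 : ℤ)⟧} (h' : IsTwist fY pY gY')
    (orth : ∀ (n : ℤ) (x : X ⟶ Y⟦n⟧), x = 0) (n : ℤ) (x : X' ⟶ Y'⟦n⟧) : x = 0 := by
  have hA : ∀ (a b : ℤ) (y : X'⟦(-2 : ℤ)⟧⟦a⟧ ⟶ Y⟦b⟧),
      ∃ s : X'⟦(-2 : ℤ)⟧⟦a⟧ ⟶ S⟦b⟧, y = s ≫ fY⟦b⟧' := by
    intro a b y
    obtain ⟨w, hw⟩ := TwO_shift (show (b - a) + a = b by ring) y
    obtain ⟨s, hs⟩ := TwO_A k h hY orth (b - a) w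
    refine ⟨s⟦a⟧' ≫ (shiftFunctorAdd' C (b - a) a b (by ring)).inv.app S, ?_⟩
    rw [hw, hs, Functor.map_comp, Category.assoc, Category.assoc]
    congr 1
    exact (shiftFunctorAdd' C (b - a) a b (by ring)).inv.naturality fY
  have hB : ∀ (a b : ℤ) (s : X'⟦(-2 : ℤ)⟧⟦a⟧ ⟶ S⟦b⟧), s ≫ fY⟦b⟧' = 0 → s = 0 := by
    intro a b s hs
    obtain ⟨w, hw⟩ := TwO_shift (show (b - a) + a = b by ring) s
    have h1 : w ≫ fY⟦b - a⟧' = 0 := by
      apply (shiftFunctor C a).map_injective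
      rw [Functor.map_zero, Functor.map_comp,
        ← cancel_mono ((shiftFunctorAdd' C (b - a) a b (by ring)).inv.app Y), zero_comp, ← hs, hw,
        Category.assoc, Category.assoc]
      congr 1
      exact (shiftFunctorAdd' C (b - a) a b (by ring)).inv.naturality fY
    rw [hw, TwO_B k hS hX h hY orth (b - a) w h1]
    simp
  have hV : ∀ (a : ℤ) (v : X'⟦(-2 : ℤ)⟧⟦a⟧ ⟶ Y'⟦(-2 : ℤ)⟧), v = 0 := by
    intro a v
    set T := Triangle.mk fY pY (gY'⟦(-2 : ℤ)⟧' ≫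
      (shiftFunctorAdd' C (3 : ℤ) (-2) 1 (by norm_num)).inv.app S) with hT
    have hTd : T ∈ distTriang C := h'.dist
    have h1 : v ≫ T.mor₃ = 0 := by
      apply hB a 1
      have h0 := comp_distTriang_mor_zero₃₁ T hTd
      exact (Category.assoc v T.mor₃ (T.mor₁⟦(1 : ℤ)⟧')).trans ((congrArg (v ≫ ·) h0).trans comp_zero)
    obtain ⟨y, hy⟩ := Triangle.coyoneda_exact₃ T hTd v h1
    change X'⟦(-2 : ℤ)⟧⟦a⟧ ⟶ Y at y
    obtain ⟨s, hs⟩ := hA a 0 (y ≫ (shiftFunctorZero C ℤ).inv.app Y)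
    have h2 : y = (s ≫ (shiftFunctorZero C ℤ).hom.app S) ≫ fY := by
      have h3 : y = (y ≫ (shiftFunctorZero C ℤ).inv.app Y) ≫
          (shiftFunctorZero C ℤ).hom.app Y := by
        rw [Category.assoc, Iso.inv_hom_id_app]
        exact (Category.comp_id y).symm
      rw [h3, hs, Category.assoc, Category.assoc]
      congr 1
      exact (shiftFunctorZero C ℤ).hom.naturality fY
    have h0 := comp_distTriang_mor_zero₁₂ T hTd
    refine hy.trans ?_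
    rw [h2]
    exact (Category.assoc (s ≫ (shiftFunctorZero C ℤ).hom.app S) T.mor₁ T.mor₂).trans
      ((congrArg ((s ≫ (shiftFunctorZero C ℤ).hom.app S) ≫ ·) h0).trans comp_zero)
  have hv := hV (-n) ((shiftFunctorAdd' C (-2 : ℤ) (-n) (-n - 2) (by ring)).inv.app X' ≫
    x⟦-n - 2⟧' ≫ (shiftFunctorAdd' C n (-n - 2) (-2) (by ring)).inv.app Y')
  apply (shiftFunctor C (-n - 2)).map_injective
  rw [Functor.map_zero]
  rw [← cancel_epi ((shiftFunctorAdd' C (-2 : ℤ) (-n) (-n - 2) (by ring)).inv.app X'),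
    ← cancel_mono ((shiftFunctorAdd' C n (-n - 2) (-2) (by ring)).inv.app Y'), Category.assoc, hv]
  simp

end BO
end
end

section

/-!
# TASK TwX
-/

set_option autoImplicit false

noncomputable section

open CategoryTheory CategoryTheory.Limits CategoryTheory.Pretriangulated

namespace BO

universe w v u

variable (k : Type w) [Field k] {C : Type u} [Category.{v} C] [Preadditive C] [Linear k C]
  [HasZeroObject C] [HasShift C ℤ] [∀ n : ℤ, (shiftFunctor C n).Additive]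
  [∀ n : ℤ, Functor.Linear k (shiftFunctor C n)] [Pretriangulated C]

private theorem TwX_rep {C : Type u} [Category.{v} C] [HasShift C ℤ]
    {A B : C} {m a n : ℤ} (h : m + a = n) (v : A⟦a⟧ ⟶ B⟦n⟧) :
    ∃ w : A ⟶ B⟦m⟧, v = w⟦a⟧' ≫ (shiftFunctorAdd' C m a n h).inv.app B := by
  refine ⟨(shiftFunctor C a).preimage (v ≫ (shiftFunctorAdd' C m a n h).hom.app B), ?_⟩
  simp

private theorem TwX_exact {C : Type u} [Category.{v} C] [Preadditive C]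
    [HasZeroObject C] [HasShift C ℤ] [∀ n : ℤ, (shiftFunctor C n).Additive] [Pretriangulated C]
    (T : Triangle C) (hT : T ∈ distTriang C) {A : C} (n : ℤ)
    (u : A ⟶ T.obj₃⟦n⟧) (hu : u ≫ T.mor₃⟦n⟧' = 0) :
    ∃ v : A ⟶ T.obj₂⟦n⟧, u = v ≫ T.mor₂⟦n⟧' := by
  obtain ⟨v, hv⟩ := Triangle.coyoneda_exact₃ _ (Triangle.shift_distinguished T hT n) u (by
    show u ≫ (n.negOnePow • T.mor₃⟦n⟧' ≫ (shiftFunctorComm C 1 n).hom.app T.obj₁) = 0
    rw [Linear.comp_units_smul, ← Category.assoc, hu]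
    simp)
  change A ⟶ T.obj₂⟦n⟧ at v
  change u = v ≫ (n.negOnePow • T.mor₂⟦n⟧') at hv
  refine ⟨n.negOnePow • v, ?_⟩
  rw [Linear.units_smul_comp, hv, Linear.comp_units_smul]

/-- (T2) The twist of an exceptional type one object is exceptional.

PROOF. `U = X'[-2]`. (1) `Hom(U,X[n]) = 0` for all `n`: long exact sequence of `Hom(-,X[n])` for `S → X → U → S[1]`:
`Hom(X,X[n]) → Hom(S,X[n])`, `x ↦ f ≫ x`, is bijective for all `n` (for `n = 0`: `k 𝟙 → k f`, `f ≠ 0`; both `0` otherwise).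
(2) So `Hom(U,U[n]) ≃ Hom(U,S[1][n])` (composition with `q[n]`), which is `k • q` for `n = 0` (`q ≠ 0`) and `0` otherwise
(`TypeOne.twist`). The identity of `U` corresponds to `q`. So `U`, hence `X' ≅ U[2]`, is exceptional. -/
theorem exc_twist {S : C} {sg : S ⟶ S⟦(3 : ℤ)⟧} (hS : Spherical k S sg)
    {X X' : C} {f : S ⟶ X} {g : X ⟶ S⟦(3 : ℤ)⟧} (hX : TypeOne k sg f g)
    {p : X ⟶ X'⟦(-2 : ℤ)⟧} {g' : X' ⟶ S⟦(3 : ℤ)⟧} (h : IsTwist f p g')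
    (exc : IsExceptional k X) : IsExceptional k X' := by
  obtain ⟨f', hf'⟩ := TypeOne.twist k hS hX h
  have hT := h.dist
  set q : X'⟦(-2 : ℤ)⟧ ⟶ S⟦(1 : ℤ)⟧ := g'⟦(-2 : ℤ)⟧' ≫
    (shiftFunctorAdd' C (3 : ℤ) (-2) 1 (by norm_num)).inv.app S with hq
  have hf0 : f ≠ 0 := by
    rintro rfl
    exact hS.ne_zero (by rw [← hX.fg, zero_comp])
  have hg0 : g' ≠ 0 := by
    rintro rfl
    exact hS.ne_zero (by rw [← hf'.fg, comp_zero])
  have hq0 : q ≠ 0 := by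
    intro hz
    apply hg0
    rw [hq] at hz
    have h1 : g'⟦(-2 : ℤ)⟧' = 0 := by
      have := congrArg (fun z => z ≫ (shiftFunctorAdd' C (3 : ℤ) (-2) 1 (by norm_num)).hom.app S) hz
      simpa using this
    exact (shiftFunctor C (-2 : ℤ)).map_injective (by rw [h1, Functor.map_zero])
  have hfp : f ≫ p = 0 := comp_distTriang_mor_zero₁₂ _ hT
  have hqf : q ≫ f⟦(1 : ℤ)⟧' = 0 := comp_distTriang_mor_zero₃₁ _ hT
  have hone : (𝟙 (X'⟦(-2 : ℤ)⟧) : X'⟦(-2 : ℤ)⟧ ⟶ X'⟦(-2 : ℤ)⟧) ≠ 0 := by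
    intro hz
    apply hq0
    rw [← Category.id_comp q, hz, zero_comp]
  -- step A
  have hA : ∀ (n : ℤ) (u : X'⟦(-2 : ℤ)⟧ ⟶ X⟦n⟧), u = 0 := by
    intro n u
    have hpu : p ≫ u = 0 := by
      by_cases hn : n = 0
      · subst hn
        obtain ⟨c, hc, -⟩ := exc.end_eq (p ≫ u ≫ (shiftFunctorZero C ℤ).hom.app X)
        have h1 : c • f = 0 := by
          have h2 : f ≫ (p ≫ u ≫ (shiftFunctorZero C ℤ).hom.app X) = f ≫ (c • 𝟙 X) :=
            congrArg (fun z => f ≫ z) hc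
          rw [← Category.assoc, hfp, zero_comp, Linear.comp_smul, Category.comp_id] at h2
          exact h2.symm
        have hc0 : c = 0 := by
          rcases smul_eq_zero.1 h1 with h2 | h2
          · exact h2
          · exact absurd h2 hf0
        rw [hc0, zero_smul] at hc
        have h3 := congrArg (fun z => z ≫ (shiftFunctorZero C ℤ).inv.app X) hc
        simpa using h3
      · exact exc.ext_eq_zero n hn _
    obtain ⟨v, hv⟩ := Triangle.yoneda_exact₃ _ hT u hpu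
    change S⟦(1 : ℤ)⟧ ⟶ X⟦n⟧ at v
    change u = q ≫ v at hv
    obtain ⟨w, hw⟩ := TwX_rep (m := n - 1) (a := 1) (n := n) (by ring) v
    by_cases hn : n = 1
    · subst hn
      have hw' : ∃ c : k, w = c • (f ≫ (shiftFunctorZero' C (1 - 1 : ℤ) (by norm_num)).inv.app X) := by
        obtain ⟨c, hc⟩ := hX.hom_eq (w ≫ (shiftFunctorZero' C (1 - 1 : ℤ) (by norm_num)).hom.app X)
        refine ⟨c, ?_⟩
        rw [← Linear.smul_comp, ← hc]
        simp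
      obtain ⟨c, hc⟩ := hw'
      rw [hv, hw, hc, Functor.map_smul, Functor.map_comp, Linear.smul_comp, Linear.comp_smul,
        ← Category.assoc, ← Category.assoc, hqf, zero_comp, zero_comp, smul_zero]
    · have hw0 : w = 0 := hX.hom_zero (n - 1) (by omega) w
      rw [hv, hw, hw0, Functor.map_zero, zero_comp, comp_zero]
  -- step B
  have hB : ∀ (n : ℤ), n ≠ 0 → ∀ (u : X'⟦(-2 : ℤ)⟧ ⟶ X'⟦(-2 : ℤ)⟧⟦n⟧), u = 0 := by
    intro n hn u
    have h1 : u ≫ q⟦n⟧' = 0 := by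
      have h2 : ∀ z : X'⟦(-2 : ℤ)⟧ ⟶ S⟦(1 + n : ℤ)⟧, z = 0 := by
        intro z
        obtain ⟨w, hw⟩ := TwX_rep (m := n + 3) (a := -2) (n := 1 + n) (by ring) z
        rw [hw, hf'.hom_zero' (n + 3) (by omega) w, Functor.map_zero, zero_comp]
      have h3 := h2 ((u ≫ q⟦n⟧') ≫ (shiftFunctorAdd' C 1 n (1 + n) rfl).inv.app S)
      have h4 := congrArg (fun z => z ≫ (shiftFunctorAdd' C 1 n (1 + n) rfl).hom.app S) h3
      simpa using h4
    obtain ⟨v, hv⟩ := TwX_exact _ hT n u h1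
    change X'⟦(-2 : ℤ)⟧ ⟶ X⟦n⟧ at v
    change u = v ≫ p⟦n⟧' at hv
    rw [hv, hA n v, zero_comp]
  have hB0 : ∀ (u : X'⟦(-2 : ℤ)⟧ ⟶ X'⟦(-2 : ℤ)⟧), ∃ c : k, u = c • 𝟙 _ := by
    intro u
    obtain ⟨w, hw⟩ := TwX_rep (m := 3) (a := -2) (n := 1) (by norm_num) (u ≫ q)
    obtain ⟨c, hc⟩ := hf'.hom_eq' w
    have h1 : u ≫ q = c • q := by
      rw [hw, hc, Functor.map_smul, Linear.smul_comp]
    refine ⟨c, ?_⟩
    obtain ⟨v, hv⟩ := Triangle.coyoneda_exact₃ _ hT (u - c • 𝟙 _) (by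
      show (u - c • 𝟙 _) ≫ q = 0
      rw [Preadditive.sub_comp, h1, Linear.smul_comp, Category.id_comp, sub_self])
    change X'⟦(-2 : ℤ)⟧ ⟶ X at v
    change u - c • 𝟙 _ = v ≫ p at hv
    have hv0 : v = 0 := by
      have h2 := hA 0 (v ≫ (shiftFunctorZero C ℤ).inv.app X)
      have h3 := congrArg (fun z => z ≫ (shiftFunctorZero C ℤ).hom.app X) h2
      simpa using h3
    rw [hv0, zero_comp] at hv
    exact sub_eq_zero.1 hv
  -- step C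
  refine ⟨fun u => ?_, fun n hn u => ?_⟩
  · obtain ⟨c, hc⟩ := hB0 (u⟦(-2 : ℤ)⟧')
    refine ⟨c, ?_, ?_⟩
    · apply (shiftFunctor C (-2 : ℤ)).map_injective
      rw [hc, Functor.map_smul, CategoryTheory.Functor.map_id]
    · intro c' hc'
      rw [hc', Functor.map_smul, CategoryTheory.Functor.map_id] at hc
      have h1 : (c' - c) • 𝟙 (X'⟦(-2 : ℤ)⟧) = 0 := by
        rw [sub_smul, hc, sub_self]
      rcases smul_eq_zero.1 h1 with h2 | h2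
      · exact sub_eq_zero.1 h2
      · exact absurd h2 hone
  · have h1 := hB n hn (u⟦(-2 : ℤ)⟧' ≫ (shiftFunctorComm C n (-2)).hom.app X')
    have h2 : u⟦(-2 : ℤ)⟧' = 0 := by
      have h3 := congrArg (fun z => z ≫ (shiftFunctorComm C n (-2)).inv.app X') h1
      simpa using h3
    exact (shiftFunctor C (-2 : ℤ)).map_injective (by rw [h2, Functor.map_zero])

end BO
end
end

section

end

section

set_option autoImplicit false

noncomputable section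

open CategoryTheory CategoryTheory.Limits CategoryTheory.Pretriangulated

namespace BO

universe w v u

variable (k : Type w) [Field k] {C : Type u} [Category.{v} C] [Preadditive C] [Linear k C]
  [HasZeroObject C] [HasShift C ℤ] [∀ n : ℤ, (shiftFunctor C n).Additive]
  [∀ n : ℤ, Functor.Linear k (shiftFunctor C n)] [Pretriangulated C]

/-- A bundled type one object. -/
structure TObj {S : C} (sg : S ⟶ S⟦(3 : ℤ)⟧) where
  X : C
  f : S ⟶ X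
  g : X ⟶ S⟦(3 : ℤ)⟧
  h : TypeOne k sg f g

variable {k}

theorem TObj.exists_twist {S : C} {sg : S ⟶ S⟦(3 : ℤ)⟧} (hS : Spherical k S sg)
    (X : TObj k sg) :
    ∃ (X' : TObj k sg) (p : X.X ⟶ X'.X⟦(-2 : ℤ)⟧), IsTwist X.f p X'.g := by
  obtain ⟨X', p, g', h⟩ := BO.exists_twist X.f
  obtain ⟨f', hf'⟩ := TypeOne.twist k hS X.h h
  exact ⟨⟨X', f', g', hf'⟩, p, h⟩

/-- The twist of a bundled type one object. -/
def TObj.tw {S : C} {sg : S ⟶ S⟦(3 : ℤ)⟧} (hS : Spherical k S sg) (X : TObj k sg) :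
    TObj k sg := (X.exists_twist hS).choose

theorem TObj.tw_spec {S : C} {sg : S ⟶ S⟦(3 : ℤ)⟧} (hS : Spherical k S sg) (X : TObj k sg) :
    ∃ p : X.X ⟶ (X.tw hS).X⟦(-2 : ℤ)⟧, IsTwist X.f p (X.tw hS).g :=
  (X.exists_twist hS).choose_spec

end BO
end
end

section

/-!
# TASK SqI
-/

set_option autoImplicit false

noncomputable section

open CategoryTheory CategoryTheory.Limits CategoryTheory.Pretriangulated

namespace BO

universe w v u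

variable {k : Type w} [Field k] {C : Type u} [Category.{v} C] [Preadditive C] [Linear k C]
  [HasZeroObject C] [HasShift C ℤ] [∀ n : ℤ, (shiftFunctor C n).Additive]
  [∀ n : ℤ, Functor.Linear k (shiftFunctor C n)] [Pretriangulated C]

omit [∀ n : ℤ, Functor.Linear k (shiftFunctor C n)] [Linear k C] [Field k] in
private theorem SqI_iso {X Y Z Z' : C} {y : X ⟶ Y} {b : Y ⟶ Z} {c : Z ⟶ X⟦(1 : ℤ)⟧}
    (h : Triangle.mk y b c ∈ distTriang C) (e : Z ≅ Z') :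
    Triangle.mk y (b ≫ e.hom) (e.inv ≫ c) ∈ distTriang C := by
  refine isomorphic_distinguished _ h _ ?_
  have h1 : y ≫ 𝟙 Y = 𝟙 X ≫ y := by simp
  have h2 : (b ≫ e.hom) ≫ e.inv = 𝟙 Y ≫ b := by simp
  have h3 : (e.inv ≫ c) ≫ (𝟙 X)⟦(1 : ℤ)⟧' = e.inv ≫ c := by simp
  exact Triangle.isoMk _ _ (Iso.refl _) (Iso.refl _) e.symm h1 h2 h3

/-- Any twist is isomorphic to the chosen one.

PROOF. Two triangles on the same `X.f` (`TObj.tw_spec`): the identities of `S` and `X.X` extend to an isomorphism of the third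
vertices `A[-2] ≅ (X.tw hS).X[-2]` commuting with the maps to `S[1]`; the shift `[-2]` is fully faithful. -/
theorem TObj.iso_tw {S : C} {sg : S ⟶ S⟦(3 : ℤ)⟧} (hS : Spherical k S sg) (X : TObj k sg)
    {A : C} {p : X.X ⟶ A⟦(-2 : ℤ)⟧} {gA : A ⟶ S⟦(3 : ℤ)⟧} (h : IsTwist X.f p gA) :
    ∃ e : A ≅ (X.tw hS).X, e.hom ≫ (X.tw hS).g = gA := by
  obtain ⟨p', h'⟩ := X.tw_spec hS
  obtain ⟨e, he1, he2⟩ := exists_iso_of_arrow_iso _ _ h.dist h'.dist (Iso.refl _)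
  have h3 := e.hom.comm₃
  refine ⟨(shiftFunctor C (-2 : ℤ)).preimageIso (Triangle.π₃.mapIso e), ?_⟩
  apply (shiftFunctor C (-2 : ℤ)).map_injective
  rw [Functor.map_comp, Functor.preimageIso_hom, Functor.map_preimage]
  rw [he1] at h3
  obtain ⟨u, hu⟩ : ∃ u : A⟦(-2 : ℤ)⟧ ⟶ (X.tw hS).X⟦(-2 : ℤ)⟧, u = e.hom.hom₃ := ⟨_, rfl⟩
  have h4 : (gA⟦(-2 : ℤ)⟧' ≫ (shiftFunctorAdd' C (3 : ℤ) (-2) 1 (by norm_num)).inv.app S) ≫
      (𝟙 S)⟦(1 : ℤ)⟧' = u ≫ (X.tw hS).g⟦(-2 : ℤ)⟧' ≫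
        (shiftFunctorAdd' C (3 : ℤ) (-2) 1 (by norm_num)).inv.app S := by
    rw [hu]
    exact h3
  rw [CategoryTheory.Functor.map_id, Category.comp_id, ← Category.assoc] at h4
  have h5 := ((cancel_mono _).1 h4).symm
  rw [hu] at h5
  exact h5

/-- The map `y : X ⟶ Y` compatible with the `f`'s and its iterated twists.

PROOF. Induction on `m` with `twist_map` for the triangles of `TObj.tw_spec` (`Function.iterate_succ_apply'`; type one data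
`((TObj.tw hS)^[m] X).h`); the cone is `Z⟦s⟧⟦2⟧ ≅ Z⟦s+2⟧`. Start: `Z⟦0⟧ ≅ Z`. -/
theorem cone_iterate [IsTriangulated C] {S : C} {sg : S ⟶ S⟦(3 : ℤ)⟧} (hS : Spherical k S sg)
    (X Y : TObj k sg) (y : X.X ⟶ Y.X) (hy : X.f ≫ y = Y.f) {Z : C} (b : Y.X ⟶ Z)
    (c : Z ⟶ X.X⟦(1 : ℤ)⟧) (hZ : Triangle.mk y b c ∈ distTriang C) (m : ℕ) :
    ∃ (s : ℤ) (y' : ((TObj.tw hS)^[m] X).X ⟶ ((TObj.tw hS)^[m] Y).X)
      (b' : ((TObj.tw hS)^[m] Y).X ⟶ Z⟦s⟧) (c' : Z⟦s⟧ ⟶ ((TObj.tw hS)^[m] X).X⟦(1 : ℤ)⟧),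
      ((TObj.tw hS)^[m] X).f ≫ y' = ((TObj.tw hS)^[m] Y).f ∧
        Triangle.mk y' b' c' ∈ distTriang C := by
  induction m with
  | zero =>
    exact ⟨0, y, _, _, hy, SqI_iso hZ ((shiftFunctorZero C ℤ).symm.app Z)⟩
  | succ m ih =>
    obtain ⟨s, y', b', c', h1, h2⟩ := ih
    rw [Function.iterate_succ_apply', Function.iterate_succ_apply']
    obtain ⟨p, hp⟩ := ((TObj.tw hS)^[m] X).tw_spec hS
    obtain ⟨pY, hpY⟩ := ((TObj.tw hS)^[m] Y).tw_spec hS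
    obtain ⟨y'', b'', c'', h3, h4⟩ := twist_map k hS ((TObj.tw hS)^[m] X).h hp
      ((TObj.tw hS)^[m] Y).h hpY (((TObj.tw hS)^[m] X).tw hS).h (((TObj.tw hS)^[m] Y).tw hS).h
      y' h1 b' c' h2
    exact ⟨s + 2, y'', _, _, h3, SqI_iso h4 ((shiftFunctorAdd C s 2).symm.app Z)⟩

end BO
end
end

section

/-!
# TASK SqF (only `full_chain`)
-/

set_option autoImplicit false

noncomputable section

open CategoryTheory CategoryTheory.Limits CategoryTheory.Pretriangulated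

namespace BO

universe w v u

variable {k : Type w} [Field k] {C : Type u} [Category.{v} C] [Preadditive C] [Linear k C]
  [HasZeroObject C] [HasShift C ℤ] [∀ n : ℤ, (shiftFunctor C n).Additive]
  [∀ n : ℤ, Functor.Linear k (shiftFunctor C n)] [Pretriangulated C]

theorem exc_iterate {S : C} {sg : S ⟶ S⟦(3 : ℤ)⟧} (hS : Spherical k S sg) (X : TObj k sg)
    (hX : IsExceptional k X.X) (m : ℕ) : IsExceptional k ((TObj.tw hS)^[m] X).X := by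
  induction m with
  | zero => simpa using hX
  | succ m ih =>
    rw [Function.iterate_succ_apply']
    obtain ⟨p, hp⟩ := ((TObj.tw hS)^[m] X).tw_spec hS
    exact exc_twist k hS ((TObj.tw hS)^[m] X).h hp ih

theorem orth_iterate {S : C} {sg : S ⟶ S⟦(3 : ℤ)⟧} (hS : Spherical k S sg) (X Y : TObj k sg)
    (h : ∀ (n : ℤ) (x : X.X ⟶ Y.X⟦n⟧), x = 0) (m : ℕ) (n : ℤ)
    (x : ((TObj.tw hS)^[m] X).X ⟶ ((TObj.tw hS)^[m] Y).X⟦n⟧) : x = 0 := by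
  induction m generalizing n with
  | zero => exact h n x
  | succ m ih =>
    obtain ⟨p, hp⟩ := ((TObj.tw hS)^[m] X).tw_spec hS
    obtain ⟨q, hq⟩ := ((TObj.tw hS)^[m] Y).tw_spec hS
    have key := fun x => orth_twist_twist k hS ((TObj.tw hS)^[m] X).h hp
      ((TObj.tw hS)^[m] Y).h hq (fun n x => ih n x) n x
    revert x
    rw [Function.iterate_succ_apply', Function.iterate_succ_apply']
    exact key

/-- Fullness of the twisted systems.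

PROOF. Write `Ti_m` for `((TObj.tw hS)^[m] Ti).X`. Induction on `m`; suppose `P Ti_{m+1}` for `i = 0, …, 3`. By `cone_iterate` for `x2`
at level `m+1` the object `D2` is in `P` (shifts), so `D4` is. By `cone_iterate` for `e` at level `m` there is a triangle
`T3_m → T0_{m+1} → D4[s] → ` (note `(TObj.tw hS)^[m] (T0.tw hS) = (TObj.tw hS)^[m+1] T0`), so `P T3_m`. The triangle
`S → T3_m → T3_{m+1}[-2] →` (`TObj.tw_spec`) gives `P S`, and `S → Ti_m → Ti_{m+1}[-2] →` gives `P Ti_m` for all `i`. Use the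
induction hypothesis. -/
theorem full_chain [IsTriangulated C] {S : C} {sg : S ⟶ S⟦(3 : ℤ)⟧} (hS : Spherical k S sg)
    (T0 T1 T2 T3 : TObj k sg) (x2 : T1.X ⟶ T2.X) (hx2 : T1.f ≫ x2 = T2.f)
    {D2 : C} (b2 : T2.X ⟶ D2) (c2 : D2 ⟶ T1.X⟦(1 : ℤ)⟧) (hD2 : Triangle.mk x2 b2 c2 ∈ distTriang C)
    (e : T3.X ⟶ (T0.tw hS).X) (he : T3.f ≫ e = (T0.tw hS).f)
    {D4 : C} (b4 : (T0.tw hS).X ⟶ D4) (c4 : D4 ⟶ T3.X⟦(1 : ℤ)⟧)
    (hD4 : Triangle.mk e b4 c4 ∈ distTriang C)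
    (P : ObjectProperty C) [P.IsTriangulated] [P.IsClosedUnderIsomorphisms]
    (hP : P D2 → P D4) (m : ℕ)
    (h0 : P ((TObj.tw hS)^[m] T0).X) (h1 : P ((TObj.tw hS)^[m] T1).X)
    (h2 : P ((TObj.tw hS)^[m] T2).X) (h3 : P ((TObj.tw hS)^[m] T3).X) :
    P T0.X ∧ P T1.X ∧ P T2.X ∧ P T3.X := by
  induction m with
  | zero => exact ⟨h0, h1, h2, h3⟩
  | succ m ih =>
    -- the cone of `x2`
    have hPD2 : P D2 := by
      obtain ⟨s, y', b', c', -, hd⟩ := cone_iterate hS T1 T2 x2 hx2 b2 c2 hD2 (m + 1)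
      exact (P.prop_shift_iff_of_isStableUnderShift D2 s).1 (P.ext_of_isTriangulatedClosed₃ _ hd h1 h2)
    have hPD4 : P D4 := hP hPD2
    have h3m : P ((TObj.tw hS)^[m] T3).X := by
      obtain ⟨s, y', b', c', -, hd⟩ := cone_iterate hS T3 (T0.tw hS) e he b4 c4 hD4 m
      have h0' : P ((TObj.tw hS)^[m] (T0.tw hS)).X := h0
      exact P.ext_of_isTriangulatedClosed₁ _ hd h0'
        ((P.prop_shift_iff_of_isStableUnderShift D4 s).2 hPD4)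
    have step : ∀ T : TObj k sg, P ((TObj.tw hS)^[m + 1] T).X →
        (P S ↔ P ((TObj.tw hS)^[m] T).X) := by
      intro T hT
      rw [Function.iterate_succ_apply'] at hT
      obtain ⟨p, hp⟩ := ((TObj.tw hS)^[m] T).tw_spec hS
      have hT' := (P.prop_shift_iff_of_isStableUnderShift _ (-2 : ℤ)).2 hT
      exact ⟨fun h => P.ext_of_isTriangulatedClosed₂ _ hp.dist h hT',
        fun h => P.ext_of_isTriangulatedClosed₁ _ hp.dist h hT'⟩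
    have hPS : P S := (step T3 h3).2 h3m
    exact ih ((step T0 h0).1 hPS) ((step T1 h1).1 hPS) ((step T2 h2).1 hPS) h3m

end BO
end
end

section

/-!
# TASK PoE
-/

set_option autoImplicit false

noncomputable section

open CategoryTheory CategoryTheory.Limits CategoryTheory.Pretriangulated

namespace BO

universe w v u

variable (k : Type w) [Field k] {C : Type u} [Category.{v} C] [Preadditive C] [Linear k C]
  [HasZeroObject C] [HasShift C ℤ] [∀ n : ℤ, (shiftFunctor C n).Additive]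
  [∀ n : ℤ, Functor.Linear k (shiftFunctor C n)] [Pretriangulated C]

omit [HasZeroObject C] [Pretriangulated C] in
private theorem poe_vshift0 {X Y : C} (m n : ℤ) (h : n + m = 0)
    (hv : ∀ x : X ⟶ Y⟦n⟧, x = 0) (x : X⟦m⟧ ⟶ Y) : x = 0 := by
  obtain ⟨y, hy⟩ := (shiftFunctor C m).map_surjective
    (x ≫ (shiftFunctorCompIsoId C n m h).inv.app Y)
  rw [hv y, Functor.map_zero] at hy
  exact (cancel_mono ((shiftFunctorCompIsoId C n m h).inv.app Y)).1 (by rw [← hy, zero_comp])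

private theorem poe_ex2 {X Y W V : C} {a : X ⟶ Y} {b : Y ⟶ W} {c : W ⟶ X⟦(1 : ℤ)⟧}
    (h : Triangle.mk a b c ∈ distTriang C) (x : Y ⟶ V) (hx : a ≫ x = 0) :
    ∃ y : W ⟶ V, x = b ≫ y :=
  Triangle.yoneda_exact₂ _ h x hx

private theorem poe_co1 {X Y W V : C} {a : X ⟶ Y} {b : Y ⟶ W} {c : W ⟶ X⟦(1 : ℤ)⟧}
    (h : Triangle.mk a b c ∈ distTriang C) (x : V ⟶ X⟦(1 : ℤ)⟧) (hx : x ≫ a⟦(1 : ℤ)⟧' = 0) :
    ∃ y : V ⟶ W, x = y ≫ c :=
  Triangle.coyoneda_exact₁ _ h x hx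

/-- Existence of the convolution.

PROOF. `N`: cone of `d1`. As `d1 ≫ d2 = 0` there is `n` with `i ≫ n = d2`. `A`: cone of `n`. In the rotated triangle
`X2 → N → X1[1] → X2[1]` the map `d0[1] : X0[1] → X1[1]` is killed by `d1[1]` (sign), so it lifts to `δ : X0[1] → N`, `δ ≫ j = d0[1]`.
`δ ≫ n : X0[1] → X3` is `0` (it corresponds to `X0 → X3[-1]`, `h03`). So `δ[1] : X0[1][1] → N[1]` is killed by `n[1]` and lifts to
`p₀ : X0[1][1] → A`, `p₀ ≫ r = δ[1]`. `p : X0 ≅ (X0[1][1])[-2] → A[-2]` (choose the isomorphism so that `hp` holds up to sign).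
`f`, `S`, `gA`: complete `p` to a triangle `S → X0 → A[-2] → S[1]` (fibre) and take `gA = ` the map with
`gA[-2] ≫ (S[3][-2] ≅ S[1])` = the third map (the shift is full). -/
theorem exists_conv {X0 X1 X2 X3 : C} (d0 : X0 ⟶ X1) (d1 : X1 ⟶ X2) (d2 : X2 ⟶ X3)
    (h01 : d0 ≫ d1 = 0) (h12 : d1 ≫ d2 = 0) (h03 : ∀ x : X0 ⟶ X3⟦(-1 : ℤ)⟧, x = 0) :
    Nonempty (Conv d0 d1 d2) := by
  obtain ⟨N, i, j, t1⟩ := distinguished_cocone_triangle d1
  obtain ⟨n, hn⟩ := poe_ex2 t1 d2 h12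
  obtain ⟨A, e, r, t2⟩ := distinguished_cocone_triangle n
  obtain ⟨δ, hδ⟩ := poe_co1 t1 (d0⟦(1 : ℤ)⟧') (by rw [← Functor.map_comp, h01, Functor.map_zero])
  have hδn : δ ≫ n = 0 := poe_vshift0 1 (-1) (by norm_num) h03 _
  obtain ⟨p0, hp0⟩ := poe_co1 t2 (δ⟦(1 : ℤ)⟧') (by rw [← Functor.map_comp, hδn, Functor.map_zero])
  let p : X0 ⟶ A⟦(-2 : ℤ)⟧ := (shiftFunctorCompIsoId C (2 : ℤ) (-2) (by norm_num)).inv.app X0 ≫
    ((shiftFunctorAdd' C (1 : ℤ) 1 2 (by norm_num)).hom.app X0)⟦(-2 : ℤ)⟧' ≫ p0⟦(-2 : ℤ)⟧'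
  obtain ⟨S, f, q, t3⟩ := distinguished_cocone_triangle₁ p
  obtain ⟨gA, hgA⟩ := (shiftFunctor C (-2 : ℤ)).map_surjective
    (q ≫ (shiftFunctorAdd' C (3 : ℤ) (-2) 1 (by norm_num)).hom.app S)
  have hq : gA⟦(-2 : ℤ)⟧' ≫ (shiftFunctorAdd' C (3 : ℤ) (-2) 1 (by norm_num)).inv.app S = q := by
    rw [hgA, Category.assoc, Iso.hom_inv_id_app]
    exact Category.comp_id q
  refine ⟨{ N := N, A := A, S := S, i := i, j := j, n := n, e := e, r := r, f := f, p := p,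
            gA := gA, tri1 := t1, tri2 := t2, tri3 := ⟨?_⟩, hn := hn.symm, hp := Or.inl ?_ }⟩
  · rw [hq]
    exact t3
  · have h1 : (shiftFunctorAdd' C (1 : ℤ) 1 2 (by norm_num)).hom.app X0 ≫ p0 ≫ r ≫ j⟦(1 : ℤ)⟧' ≫
        (shiftFunctorAdd' C (1 : ℤ) 1 2 (by norm_num)).inv.app X1 = d0⟦(2 : ℤ)⟧' := by
      have h2 : p0 ≫ r ≫ j⟦(1 : ℤ)⟧' = (d0⟦(1 : ℤ)⟧')⟦(1 : ℤ)⟧' := by
        rw [← Category.assoc, ← hp0, ← Functor.map_comp, ← hδ]
      have h3 : (d0⟦(1 : ℤ)⟧')⟦(1 : ℤ)⟧' ≫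
          (shiftFunctorAdd' C (1 : ℤ) 1 2 (by norm_num)).inv.app X1 =
          (shiftFunctorAdd' C (1 : ℤ) 1 2 (by norm_num)).inv.app X0 ≫ d0⟦(2 : ℤ)⟧' :=
        (shiftFunctorAdd' C (1 : ℤ) 1 2 (by norm_num)).inv.naturality d0
      have h4 : p0 ≫ r ≫ j⟦(1 : ℤ)⟧' ≫
          (shiftFunctorAdd' C (1 : ℤ) 1 2 (by norm_num)).inv.app X1 =
          (shiftFunctorAdd' C (1 : ℤ) 1 2 (by norm_num)).inv.app X0 ≫ d0⟦(2 : ℤ)⟧' := by
        rw [← h3, ← h2, Category.assoc, Category.assoc]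
      rw [h4, ← Category.assoc, Iso.hom_inv_id_app]
      exact Category.id_comp _
    have h5 : (d0⟦(2 : ℤ)⟧')⟦(-2 : ℤ)⟧' ≫
        (shiftFunctorCompIsoId C (2 : ℤ) (-2) (by norm_num)).hom.app X1 =
        (shiftFunctorCompIsoId C (2 : ℤ) (-2) (by norm_num)).hom.app X0 ≫ d0 :=
      (shiftFunctorCompIsoId C (2 : ℤ) (-2) (by norm_num)).hom.naturality d0
    have h6 : p ≫ r⟦(-2 : ℤ)⟧' ≫ (j⟦(1 : ℤ)⟧')⟦(-2 : ℤ)⟧' ≫
        ((shiftFunctorAdd' C (1 : ℤ) 1 2 (by norm_num)).inv.app X1)⟦(-2 : ℤ)⟧' ≫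
        (shiftFunctorCompIsoId C (2 : ℤ) (-2) (by norm_num)).hom.app X1 =
        (shiftFunctorCompIsoId C (2 : ℤ) (-2) (by norm_num)).inv.app X0 ≫
        ((shiftFunctorAdd' C (1 : ℤ) 1 2 (by norm_num)).hom.app X0 ≫ p0 ≫ r ≫ j⟦(1 : ℤ)⟧' ≫
        (shiftFunctorAdd' C (1 : ℤ) 1 2 (by norm_num)).inv.app X1)⟦(-2 : ℤ)⟧' ≫
        (shiftFunctorCompIsoId C (2 : ℤ) (-2) (by norm_num)).hom.app X1 := by
      simp only [p, Functor.map_comp, Category.assoc]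
    rw [h6, h1, h5, ← Category.assoc, Iso.inv_hom_id_app]
    exact Category.id_comp _

end BO
end
end
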