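import Pool.Agent.Lib.MP_bd3808_ag.Mg.G001

section

/-!
# TASK PieA: the small graded pieces of `R'`

`RX k D` is the span of the monomials `∏ gen i ^ e i` with `∑ e i • gdeg i = D`, i.e. `e₄+e₅+e₆+e₇ = D.2.2`,
`e₂+e₃-e₆-e₇ = D.2.1`, `e₀+e₁-e₂+e₆+e₇ = D.1`. `Submodule.span_induction`; the monomials are finitely many (`omega`,
`interval_cases`). `RX_eq_zero`: the linear forms `D.2.2`, `D.2.1 + D.2.2`, `D.1 + D.2.1` are `≥ 0` on all `gdeg i`, so there is no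
monomial. `rel0`, `rel3`: `ring` after unfolding.
-/

set_option autoImplicit false

noncomputable section

namespace BO

universe w

variable (k : Type w) [Field k]

open MvPolynomial

theorem rel0 : u0 k * z0 k = mu k * w1 k + la k * u1 k * w2 k := by
  unfold z0 w1 w2
  ring

theorem rel3 : u1 k * z3 k = mu k * w2 k + la k * u0 k * w1 k := by
  unfold z3 w1 w2
  ring

private theorem PieA_lin (e : Fin 8 → ℕ) (D : Dg) (h : ∑ i, e i • gdeg i = D) :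
    ((e 0 : ℤ) + e 1 - e 2 + e 6 + e 7 = D.1) ∧ ((e 2 : ℤ) + e 3 - e 6 - e 7 = D.2.1) ∧
      ((e 4 : ℤ) + e 5 + e 6 + e 7 = D.2.2) := by
  subst h
  refine ⟨?_, ?_, ?_⟩
  · simp [Fin.sum_univ_eight, gdeg]
    ring
  · simp [Fin.sum_univ_eight, gdeg]
    ring
  · simp [Fin.sum_univ_eight, gdeg]

private theorem PieA_mono (e : Fin 8 → ℕ) :
    ∏ i, gen k i ^ e i = u0 k ^ e 0 * u1 k ^ e 1 * la k ^ e 2 * mu k ^ e 3 * z0 k ^ e 4 *
      z3 k ^ e 5 * w1 k ^ e 6 * w2 k ^ e 7 := by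
  simp [Fin.prod_univ_eight, gen]

private theorem PieA_ind (D : Dg) (P : PP k → Prop)
    (hm : ∀ e0 e1 e2 e3 e4 e5 e6 e7 : ℕ, ((e0 : ℤ) + e1 - e2 + e6 + e7 = D.1) →
      ((e2 : ℤ) + e3 - e6 - e7 = D.2.1) → ((e4 : ℤ) + e5 + e6 + e7 = D.2.2) →
      P (u0 k ^ e0 * u1 k ^ e1 * la k ^ e2 * mu k ^ e3 * z0 k ^ e4 *
      z3 k ^ e5 * w1 k ^ e6 * w2 k ^ e7))
    (h0 : P 0) (ha : ∀ x y, P x → P y → P (x + y)) (hs : ∀ (c : k) x, P x → P (c • x))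
    (x : PP k) (hx : x ∈ RX k D) : P x := by
  refine Submodule.span_induction (p := fun x _ => P x) ?_ h0 (fun x y _ _ => ha x y)
    (fun c x _ => hs c x) hx
  rintro x ⟨e, he, rfl⟩
  rw [PieA_mono]
  obtain ⟨h1, h2, h3⟩ := PieA_lin e D he
  exact hm _ _ _ _ _ _ _ _ h1 h2 h3

theorem RX_eq_zero (D : Dg) (h : D.2.2 < 0 ∨ D.2.1 + D.2.2 < 0 ∨ D.1 + D.2.1 < 0) (x : PP k)
    (hx : x ∈ RX k D) : x = 0 := by
  refine PieA_ind k D (fun x => x = 0) ?_ rfl ?_ ?_ x hx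
  · intro e0 e1 e2 e3 e4 e5 e6 e7 h1 h2 h3
    exfalso
    omega
  · intro x y hx hy
    rw [hx, hy, add_zero]
  · intro c x hx
    rw [hx, smul_zero]

theorem RX_000 (x : PP k) (hx : x ∈ RX k (0, 0, 0)) : ∃ c : k, x = C c := by
  refine PieA_ind k (0, 0, 0) (fun x => ∃ c : k, x = C c) ?_ ⟨0, by simp⟩ ?_ ?_ x hx
  · intro e0 e1 e2 e3 e4 e5 e6 e7 h1 h2 h3
    simp only at h1 h2 h3
    obtain ⟨rfl, rfl, rfl, rfl, rfl, rfl, rfl, rfl⟩ : e0 = 0 ∧ e1 = 0 ∧ e2 = 0 ∧ e3 = 0 ∧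
      e4 = 0 ∧ e5 = 0 ∧ e6 = 0 ∧ e7 = 0 := by omega
    exact ⟨1, by simp⟩
  · rintro x y ⟨a, rfl⟩ ⟨b, rfl⟩
    exact ⟨a + b, by simp⟩
  · rintro c x ⟨a, rfl⟩
    exact ⟨c * a, by simp [smul_eq_C_mul]⟩

theorem RX_100 (x : PP k) (hx : x ∈ RX k (1, 0, 0)) : ∃ a b : k, x = C a * u0 k + C b * u1 k := by
  refine PieA_ind k (1, 0, 0) (fun x => ∃ a b : k, x = C a * u0 k + C b * u1 k) ?_
    ⟨0, 0, by simp⟩ ?_ ?_ x hx
  · intro e0 e1 e2 e3 e4 e5 e6 e7 h1 h2 h3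
    simp only at h1 h2 h3
    obtain ⟨rfl, rfl, rfl, rfl, rfl, rfl⟩ : e2 = 0 ∧ e3 = 0 ∧
      e4 = 0 ∧ e5 = 0 ∧ e6 = 0 ∧ e7 = 0 := by omega
    have h : (e0 = 1 ∧ e1 = 0) ∨ (e0 = 0 ∧ e1 = 1) := by omega
    rcases h with ⟨rfl, rfl⟩ | ⟨rfl, rfl⟩
    · exact ⟨1, 0, by simp⟩
    · exact ⟨0, 1, by simp⟩
  · rintro x y ⟨a, b, rfl⟩ ⟨c, d, rfl⟩
    exact ⟨a + c, b + d, by simp only [map_add]; ring⟩
  · rintro c x ⟨a, b, rfl⟩
    exact ⟨c * a, c * b, by simp only [smul_eq_C_mul, map_mul]; ring⟩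

theorem RX_m110 (x : PP k) (hx : x ∈ RX k (-1, 1, 0)) : ∃ a : k, x = C a * la k := by
  refine PieA_ind k (-1, 1, 0) (fun x => ∃ a : k, x = C a * la k) ?_ ⟨0, by simp⟩ ?_ ?_ x hx
  · intro e0 e1 e2 e3 e4 e5 e6 e7 h1 h2 h3
    simp only at h1 h2 h3
    obtain ⟨rfl, rfl, rfl, rfl, rfl, rfl, rfl, rfl⟩ : e0 = 0 ∧ e1 = 0 ∧ e2 = 1 ∧ e3 = 0 ∧
      e4 = 0 ∧ e5 = 0 ∧ e6 = 0 ∧ e7 = 0 := by omega
    exact ⟨1, by simp⟩
  · rintro x y ⟨a, rfl⟩ ⟨b, rfl⟩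
    exact ⟨a + b, by simp only [map_add]; ring⟩
  · rintro c x ⟨a, rfl⟩
    exact ⟨c * a, by simp only [smul_eq_C_mul, map_mul]; ring⟩

theorem RX_010 (x : PP k) (hx : x ∈ RX k (0, 1, 0)) :
    ∃ a b c : k, x = C a * mu k + (C b * u0 k + C c * u1 k) * la k := by
  refine PieA_ind k (0, 1, 0)
    (fun x => ∃ a b c : k, x = C a * mu k + (C b * u0 k + C c * u1 k) * la k) ?_
    ⟨0, 0, 0, by simp⟩ ?_ ?_ x hx
  · intro e0 e1 e2 e3 e4 e5 e6 e7 h1 h2 h3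
    simp only at h1 h2 h3
    obtain ⟨rfl, rfl, rfl, rfl⟩ : e4 = 0 ∧ e5 = 0 ∧ e6 = 0 ∧ e7 = 0 := by omega
    have h : (e0 = 0 ∧ e1 = 0 ∧ e2 = 0 ∧ e3 = 1) ∨ (e0 = 1 ∧ e1 = 0 ∧ e2 = 1 ∧ e3 = 0) ∨
      (e0 = 0 ∧ e1 = 1 ∧ e2 = 1 ∧ e3 = 0) := by omega
    rcases h with ⟨rfl, rfl, rfl, rfl⟩ | ⟨rfl, rfl, rfl, rfl⟩ | ⟨rfl, rfl, rfl, rfl⟩
    · exact ⟨1, 0, 0, by simp⟩
    · exact ⟨0, 1, 0, by simp⟩
    · exact ⟨0, 0, 1, by simp⟩
  · rintro x y ⟨a, b, c, rfl⟩ ⟨a', b', c', rfl⟩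
    exact ⟨a + a', b + b', c + c', by simp only [map_add]; ring⟩
  · rintro r x ⟨a, b, c, rfl⟩
    exact ⟨r * a, r * b, r * c, by simp only [smul_eq_C_mul, map_mul]; ring⟩

theorem RX_110 (x : PP k) (hx : x ∈ RX k (1, 1, 0)) :
    ∃ a b c d e : k, x = (C a * u0 k + C b * u1 k) * mu k +
      (C c * u0 k ^ 2 + C d * u0 k * u1 k + C e * u1 k ^ 2) * la k := by
  refine PieA_ind k (1, 1, 0)
    (fun x => ∃ a b c d e : k, x = (C a * u0 k + C b * u1 k) * mu k +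
      (C c * u0 k ^ 2 + C d * u0 k * u1 k + C e * u1 k ^ 2) * la k) ?_
    ⟨0, 0, 0, 0, 0, by simp⟩ ?_ ?_ x hx
  · intro e0 e1 e2 e3 e4 e5 e6 e7 h1 h2 h3
    simp only at h1 h2 h3
    obtain ⟨rfl, rfl, rfl, rfl⟩ : e4 = 0 ∧ e5 = 0 ∧ e6 = 0 ∧ e7 = 0 := by omega
    have h : (e0 = 1 ∧ e1 = 0 ∧ e2 = 0 ∧ e3 = 1) ∨ (e0 = 0 ∧ e1 = 1 ∧ e2 = 0 ∧ e3 = 1) ∨
      (e0 = 2 ∧ e1 = 0 ∧ e2 = 1 ∧ e3 = 0) ∨ (e0 = 1 ∧ e1 = 1 ∧ e2 = 1 ∧ e3 = 0) ∨
      (e0 = 0 ∧ e1 = 2 ∧ e2 = 1 ∧ e3 = 0) := by omega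
    rcases h with ⟨rfl, rfl, rfl, rfl⟩ | ⟨rfl, rfl, rfl, rfl⟩ | ⟨rfl, rfl, rfl, rfl⟩ |
      ⟨rfl, rfl, rfl, rfl⟩ | ⟨rfl, rfl, rfl, rfl⟩
    · exact ⟨1, 0, 0, 0, 0, by simp⟩
    · exact ⟨0, 1, 0, 0, 0, by simp⟩
    · exact ⟨0, 0, 1, 0, 0, by simp⟩
    · exact ⟨0, 0, 0, 1, 0, by simp⟩
    · exact ⟨0, 0, 0, 0, 1, by simp⟩
  · rintro x y ⟨a, b, c, d, e, rfl⟩ ⟨a', b', c', d', e', rfl⟩
    exact ⟨a + a', b + b', c + c', d + d', e + e', by simp only [map_add]; ring⟩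
  · rintro r x ⟨a, b, c, d, e, rfl⟩
    exact ⟨r * a, r * b, r * c, r * d, r * e, by simp only [smul_eq_C_mul, map_mul]; ring⟩

theorem RX_1m11 (x : PP k) (hx : x ∈ RX k (1, -1, 1)) :
    ∃ a b : k, x = C a * w1 k + C b * w2 k := by
  refine PieA_ind k (1, -1, 1) (fun x => ∃ a b : k, x = C a * w1 k + C b * w2 k) ?_
    ⟨0, 0, by simp⟩ ?_ ?_ x hx
  · intro e0 e1 e2 e3 e4 e5 e6 e7 h1 h2 h3
    simp only at h1 h2 h3
    obtain ⟨rfl, rfl, rfl, rfl, rfl, rfl⟩ : e0 = 0 ∧ e1 = 0 ∧ e2 = 0 ∧ e3 = 0 ∧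
      e4 = 0 ∧ e5 = 0 := by omega
    have h : (e6 = 1 ∧ e7 = 0) ∨ (e6 = 0 ∧ e7 = 1) := by omega
    rcases h with ⟨rfl, rfl⟩ | ⟨rfl, rfl⟩
    · exact ⟨1, 0, by simp⟩
    · exact ⟨0, 1, by simp⟩
  · rintro x y ⟨a, b, rfl⟩ ⟨c, d, rfl⟩
    exact ⟨a + c, b + d, by simp only [map_add]; ring⟩
  · rintro c x ⟨a, b, rfl⟩
    exact ⟨c * a, c * b, by simp only [smul_eq_C_mul, map_mul]; ring⟩

end BO
end
end

section

/-!
# TASK PieB: the larger graded pieces of `R'`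

As in PieA; the relations `rel0 : u₀z₀ = mu w₁ + la u₁ w₂`, `rel3 : u₁z₃ = mu w₂ + la u₀ w₁` remove the monomials with `mu w₁`, `mu w₂`
(degree `(1,0,1)`: `mu w₁`, `mu w₂`; degree `(2,0,1)`: `uᵢ mu w₁`, `uᵢ mu w₂`).
-/

set_option autoImplicit false

noncomputable section

namespace BO

universe w

variable (k : Type w) [Field k]

open MvPolynomial

private theorem PieB_ind {a b c : ℤ} (P : PP k → Prop) (h0 : P 0)
    (ha : ∀ x y, P x → P y → P (x + y)) (hs : ∀ (t : k) x, P x → P (C t * x))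
    (hm : ∀ e0 e1 e2 e3 e4 e5 e6 e7 : ℕ, (e0 : ℤ) + e1 - e2 + e6 + e7 = a →
      (e2 : ℤ) + e3 - e6 - e7 = b → (e4 : ℤ) + e5 + e6 + e7 = c →
      P (u0 k ^ e0 * u1 k ^ e1 * la k ^ e2 * mu k ^ e3 * z0 k ^ e4 * z3 k ^ e5 * w1 k ^ e6 *
        w2 k ^ e7)) (x : PP k) (hx : x ∈ RX k (a, b, c)) : P x := by
  refine Submodule.span_induction (p := fun x _ => P x) ?_ h0 (fun x y _ _ => ha x y) ?_ hx
  · rintro x ⟨e, he, rfl⟩
    rw [Fin.sum_univ_eight] at he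
    simp only [Fin.prod_univ_eight]
    have h1 := congrArg Prod.fst he
    have h2 := congrArg (fun t : Dg => t.2.1) he
    have h3 := congrArg (fun t : Dg => t.2.2) he
    simp only [gdeg, Matrix.cons_val, Prod.smul_mk, Prod.mk_add_mk, nsmul_eq_mul] at h1 h2 h3
    exact hm (e 0) (e 1) (e 2) (e 3) (e 4) (e 5) (e 6) (e 7) (by linarith) (by linarith)
      (by linarith)
  · intro t x _ h
    have := hs t x h
    rwa [← smul_eq_C_mul] at this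

theorem RX_2m11 (x : PP k) (hx : x ∈ RX k (2, -1, 1)) :
    ∃ a b c d : k, x = (C a * u0 k + C b * u1 k) * w1 k + (C c * u0 k + C d * u1 k) * w2 k := by
  refine PieB_ind k (fun x => ∃ a b c d : k,
    x = (C a * u0 k + C b * u1 k) * w1 k + (C c * u0 k + C d * u1 k) * w2 k) ?_ ?_ ?_ ?_ x hx
  · exact ⟨0, 0, 0, 0, by simp⟩
  · rintro x y ⟨a, b, c, d, rfl⟩ ⟨a', b', c', d', rfl⟩
    refine ⟨a + a', b + b', c + c', d + d', ?_⟩
    simp only [map_add]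
    ring
  · rintro t x ⟨a, b, c, d, rfl⟩
    refine ⟨t * a, t * b, t * c, t * d, ?_⟩
    simp only [map_mul]
    ring
  · intro e0 e1 e2 e3 e4 e5 e6 e7 h1 h2 h3
    have h : ((e0 = 1 ∧ e1 = 0) ∨ (e0 = 0 ∧ e1 = 1)) ∧ e2 = 0 ∧ e3 = 0 ∧ e4 = 0 ∧ e5 = 0 ∧
        ((e6 = 1 ∧ e7 = 0) ∨ (e6 = 0 ∧ e7 = 1)) := by omega
    obtain ⟨⟨rfl, rfl⟩ | ⟨rfl, rfl⟩, rfl, rfl, rfl, rfl, ⟨rfl, rfl⟩ | ⟨rfl, rfl⟩⟩ := h
    · refine ⟨1, 0, 0, 0, ?_⟩
      simp only [map_one, map_zero]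
      ring
    · refine ⟨0, 0, 1, 0, ?_⟩
      simp only [map_one, map_zero]
      ring
    · refine ⟨0, 1, 0, 0, ?_⟩
      simp only [map_one, map_zero]
      ring
    · refine ⟨0, 0, 0, 1, ?_⟩
      simp only [map_one, map_zero]
      ring

theorem RX_001 (x : PP k) (hx : x ∈ RX k (0, 0, 1)) :
    ∃ a b c d : k, x = C a * z0 k + C b * z3 k + C c * la k * w1 k + C d * la k * w2 k := by
  refine PieB_ind k (fun x => ∃ a b c d : k,
    x = C a * z0 k + C b * z3 k + C c * la k * w1 k + C d * la k * w2 k) ?_ ?_ ?_ ?_ x hx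
  · exact ⟨0, 0, 0, 0, by simp⟩
  · rintro x y ⟨a, b, c, d, rfl⟩ ⟨a', b', c', d', rfl⟩
    refine ⟨a + a', b + b', c + c', d + d', ?_⟩
    simp only [map_add]
    ring
  · rintro t x ⟨a, b, c, d, rfl⟩
    refine ⟨t * a, t * b, t * c, t * d, ?_⟩
    simp only [map_mul]
    ring
  · intro e0 e1 e2 e3 e4 e5 e6 e7 h1 h2 h3
    have h : e0 = 0 ∧ e1 = 0 ∧ e3 = 0 ∧
        ((e2 = 0 ∧ e4 = 1 ∧ e5 = 0 ∧ e6 = 0 ∧ e7 = 0) ∨ (e2 = 0 ∧ e4 = 0 ∧ e5 = 1 ∧ e6 = 0 ∧ e7 = 0) ∨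
        (e2 = 1 ∧ e4 = 0 ∧ e5 = 0 ∧ e6 = 1 ∧ e7 = 0) ∨
        (e2 = 1 ∧ e4 = 0 ∧ e5 = 0 ∧ e6 = 0 ∧ e7 = 1)) := by omega
    obtain ⟨rfl, rfl, rfl, ⟨rfl, rfl, rfl, rfl, rfl⟩ | ⟨rfl, rfl, rfl, rfl, rfl⟩ |
      ⟨rfl, rfl, rfl, rfl, rfl⟩ | ⟨rfl, rfl, rfl, rfl, rfl⟩⟩ := h
    · refine ⟨1, 0, 0, 0, ?_⟩
      simp only [map_one, map_zero]
      ring
    · refine ⟨0, 1, 0, 0, ?_⟩
      simp only [map_one, map_zero]
      ring
    · refine ⟨0, 0, 1, 0, ?_⟩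
      simp only [map_one, map_zero]
      ring
    · refine ⟨0, 0, 0, 1, ?_⟩
      simp only [map_one, map_zero]
      ring

theorem RX_101 (x : PP k) (hx : x ∈ RX k (1, 0, 1)) :
    ∃ a b c d : Fin 2 → k, x = (C (a 0) * u0 k + C (a 1) * u1 k) * z0 k +
      (C (b 0) * u0 k + C (b 1) * u1 k) * z3 k +
      (C (c 0) * u0 k + C (c 1) * u1 k) * la k * w1 k +
      (C (d 0) * u0 k + C (d 1) * u1 k) * la k * w2 k := by
  refine PieB_ind k (fun x => ∃ a b c d : Fin 2 → k, x = (C (a 0) * u0 k + C (a 1) * u1 k) * z0 k +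
      (C (b 0) * u0 k + C (b 1) * u1 k) * z3 k +
      (C (c 0) * u0 k + C (c 1) * u1 k) * la k * w1 k +
      (C (d 0) * u0 k + C (d 1) * u1 k) * la k * w2 k) ?_ ?_ ?_ ?_ x hx
  · exact ⟨0, 0, 0, 0, by simp⟩
  · rintro x y ⟨a, b, c, d, rfl⟩ ⟨a', b', c', d', rfl⟩
    refine ⟨a + a', b + b', c + c', d + d', ?_⟩
    simp only [Pi.add_apply, map_add]
    ring
  · rintro t x ⟨a, b, c, d, rfl⟩
    refine ⟨t • a, t • b, t • c, t • d, ?_⟩
    simp only [Pi.smul_apply, smul_eq_mul, map_mul]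
    ring
  · intro e0 e1 e2 e3 e4 e5 e6 e7 h1 h2 h3
    have h : (e4 = 1 ∧ e5 = 0 ∧ e6 = 0 ∧ e7 = 0) ∨ (e4 = 0 ∧ e5 = 1 ∧ e6 = 0 ∧ e7 = 0) ∨
        (e4 = 0 ∧ e5 = 0 ∧ e6 = 1 ∧ e7 = 0) ∨ (e4 = 0 ∧ e5 = 0 ∧ e6 = 0 ∧ e7 = 1) := by
      clear h1 h2
      omega
    rcases h with ⟨rfl, rfl, rfl, rfl⟩ | ⟨rfl, rfl, rfl, rfl⟩ | ⟨rfl, rfl, rfl, rfl⟩ |
      ⟨rfl, rfl, rfl, rfl⟩
    · obtain ⟨rfl, rfl⟩ : e2 = 0 ∧ e3 = 0 := by omega
      have h5 : (e0 = 1 ∧ e1 = 0) ∨ (e0 = 0 ∧ e1 = 1) := by omega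
      rcases h5 with ⟨rfl, rfl⟩ | ⟨rfl, rfl⟩
      · refine ⟨![1, 0], ![0, 0], ![0, 0], ![0, 0], ?_⟩
        simp only [Matrix.cons_val_zero, Matrix.cons_val_one, map_one, map_zero]
        ring
      · refine ⟨![0, 1], ![0, 0], ![0, 0], ![0, 0], ?_⟩
        simp only [Matrix.cons_val_zero, Matrix.cons_val_one, map_one, map_zero]
        ring
    · obtain ⟨rfl, rfl⟩ : e2 = 0 ∧ e3 = 0 := by omega
      have h5 : (e0 = 1 ∧ e1 = 0) ∨ (e0 = 0 ∧ e1 = 1) := by omega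
      rcases h5 with ⟨rfl, rfl⟩ | ⟨rfl, rfl⟩
      · refine ⟨![0, 0], ![1, 0], ![0, 0], ![0, 0], ?_⟩
        simp only [Matrix.cons_val_zero, Matrix.cons_val_one, map_one, map_zero]
        ring
      · refine ⟨![0, 0], ![0, 1], ![0, 0], ![0, 0], ?_⟩
        simp only [Matrix.cons_val_zero, Matrix.cons_val_one, map_one, map_zero]
        ring
    · have h4 : (e2 = 1 ∧ e3 = 0) ∨ (e2 = 0 ∧ e3 = 1) := by omega
      rcases h4 with ⟨rfl, rfl⟩ | ⟨rfl, rfl⟩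
      · have h5 : (e0 = 1 ∧ e1 = 0) ∨ (e0 = 0 ∧ e1 = 1) := by omega
        rcases h5 with ⟨rfl, rfl⟩ | ⟨rfl, rfl⟩
        · refine ⟨![0, 0], ![0, 0], ![1, 0], ![0, 0], ?_⟩
          simp only [Matrix.cons_val_zero, Matrix.cons_val_one, map_one, map_zero]
          ring
        · refine ⟨![0, 0], ![0, 0], ![0, 1], ![0, 0], ?_⟩
          simp only [Matrix.cons_val_zero, Matrix.cons_val_one, map_one, map_zero]
          ring
      · have h5 : (e0 = 0 ∧ e1 = 0) := by omega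
        obtain ⟨rfl, rfl⟩ := h5
        refine ⟨![1, 0], ![0, 0], ![0, 0], ![0, -1], ?_⟩
        simp only [Matrix.cons_val_zero, Matrix.cons_val_one, map_one, map_zero, map_neg]
        linear_combination -(rel0 k)
    · have h4 : (e2 = 1 ∧ e3 = 0) ∨ (e2 = 0 ∧ e3 = 1) := by omega
      rcases h4 with ⟨rfl, rfl⟩ | ⟨rfl, rfl⟩
      · have h5 : (e0 = 1 ∧ e1 = 0) ∨ (e0 = 0 ∧ e1 = 1) := by omega
        rcases h5 with ⟨rfl, rfl⟩ | ⟨rfl, rfl⟩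
        · refine ⟨![0, 0], ![0, 0], ![0, 0], ![1, 0], ?_⟩
          simp only [Matrix.cons_val_zero, Matrix.cons_val_one, map_one, map_zero]
          ring
        · refine ⟨![0, 0], ![0, 0], ![0, 0], ![0, 1], ?_⟩
          simp only [Matrix.cons_val_zero, Matrix.cons_val_one, map_one, map_zero]
          ring
      · have h5 : (e0 = 0 ∧ e1 = 0) := by omega
        obtain ⟨rfl, rfl⟩ := h5
        refine ⟨![0, 0], ![0, 1], ![-1, 0], ![0, 0], ?_⟩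
        simp only [Matrix.cons_val_zero, Matrix.cons_val_one, map_one, map_zero, map_neg]
        linear_combination -(rel3 k)

theorem RX_201 (x : PP k) (hx : x ∈ RX k (2, 0, 1)) :
    ∃ a b c d : Fin 3 → k, x = (C (a 0) * u0 k ^ 2 + C (a 1) * u0 k * u1 k + C (a 2) * u1 k ^ 2) * z0 k +
      (C (b 0) * u0 k ^ 2 + C (b 1) * u0 k * u1 k + C (b 2) * u1 k ^ 2) * z3 k +
      (C (c 0) * u0 k ^ 2 + C (c 1) * u0 k * u1 k + C (c 2) * u1 k ^ 2) * la k * w1 k +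
      (C (d 0) * u0 k ^ 2 + C (d 1) * u0 k * u1 k + C (d 2) * u1 k ^ 2) * la k * w2 k := by
  refine PieB_ind k (fun x => ∃ a b c d : Fin 3 → k, x = (C (a 0) * u0 k ^ 2 + C (a 1) * u0 k * u1 k + C (a 2) * u1 k ^ 2) * z0 k +
      (C (b 0) * u0 k ^ 2 + C (b 1) * u0 k * u1 k + C (b 2) * u1 k ^ 2) * z3 k +
      (C (c 0) * u0 k ^ 2 + C (c 1) * u0 k * u1 k + C (c 2) * u1 k ^ 2) * la k * w1 k +
      (C (d 0) * u0 k ^ 2 + C (d 1) * u0 k * u1 k + C (d 2) * u1 k ^ 2) * la k * w2 k) ?_ ?_ ?_ ?_ x hx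
  · exact ⟨0, 0, 0, 0, by simp⟩
  · rintro x y ⟨a, b, c, d, rfl⟩ ⟨a', b', c', d', rfl⟩
    refine ⟨a + a', b + b', c + c', d + d', ?_⟩
    simp only [Pi.add_apply, map_add]
    ring
  · rintro t x ⟨a, b, c, d, rfl⟩
    refine ⟨t • a, t • b, t • c, t • d, ?_⟩
    simp only [Pi.smul_apply, smul_eq_mul, map_mul]
    ring
  · intro e0 e1 e2 e3 e4 e5 e6 e7 h1 h2 h3
    have h : (e4 = 1 ∧ e5 = 0 ∧ e6 = 0 ∧ e7 = 0) ∨ (e4 = 0 ∧ e5 = 1 ∧ e6 = 0 ∧ e7 = 0) ∨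
        (e4 = 0 ∧ e5 = 0 ∧ e6 = 1 ∧ e7 = 0) ∨ (e4 = 0 ∧ e5 = 0 ∧ e6 = 0 ∧ e7 = 1) := by
      clear h1 h2
      omega
    rcases h with ⟨rfl, rfl, rfl, rfl⟩ | ⟨rfl, rfl, rfl, rfl⟩ | ⟨rfl, rfl, rfl, rfl⟩ |
      ⟨rfl, rfl, rfl, rfl⟩
    · obtain ⟨rfl, rfl⟩ : e2 = 0 ∧ e3 = 0 := by omega
      have h5 : (e0 = 2 ∧ e1 = 0) ∨ (e0 = 1 ∧ e1 = 1) ∨ (e0 = 0 ∧ e1 = 2) := by omega
      rcases h5 with ⟨rfl, rfl⟩ | ⟨rfl, rfl⟩ | ⟨rfl, rfl⟩
      · refine ⟨![1, 0, 0], ![0, 0, 0], ![0, 0, 0], ![0, 0, 0], ?_⟩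
        simp only [Matrix.cons_val, map_one, map_zero]
        ring
      · refine ⟨![0, 1, 0], ![0, 0, 0], ![0, 0, 0], ![0, 0, 0], ?_⟩
        simp only [Matrix.cons_val, map_one, map_zero]
        ring
      · refine ⟨![0, 0, 1], ![0, 0, 0], ![0, 0, 0], ![0, 0, 0], ?_⟩
        simp only [Matrix.cons_val, map_one, map_zero]
        ring
    · obtain ⟨rfl, rfl⟩ : e2 = 0 ∧ e3 = 0 := by omega
      have h5 : (e0 = 2 ∧ e1 = 0) ∨ (e0 = 1 ∧ e1 = 1) ∨ (e0 = 0 ∧ e1 = 2) := by omega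
      rcases h5 with ⟨rfl, rfl⟩ | ⟨rfl, rfl⟩ | ⟨rfl, rfl⟩
      · refine ⟨![0, 0, 0], ![1, 0, 0], ![0, 0, 0], ![0, 0, 0], ?_⟩
        simp only [Matrix.cons_val, map_one, map_zero]
        ring
      · refine ⟨![0, 0, 0], ![0, 1, 0], ![0, 0, 0], ![0, 0, 0], ?_⟩
        simp only [Matrix.cons_val, map_one, map_zero]
        ring
      · refine ⟨![0, 0, 0], ![0, 0, 1], ![0, 0, 0], ![0, 0, 0], ?_⟩
        simp only [Matrix.cons_val, map_one, map_zero]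
        ring
    · have h4 : (e2 = 1 ∧ e3 = 0) ∨ (e2 = 0 ∧ e3 = 1) := by omega
      rcases h4 with ⟨rfl, rfl⟩ | ⟨rfl, rfl⟩
      · have h5 : (e0 = 2 ∧ e1 = 0) ∨ (e0 = 1 ∧ e1 = 1) ∨ (e0 = 0 ∧ e1 = 2) := by omega
        rcases h5 with ⟨rfl, rfl⟩ | ⟨rfl, rfl⟩ | ⟨rfl, rfl⟩
        · refine ⟨![0, 0, 0], ![0, 0, 0], ![1, 0, 0], ![0, 0, 0], ?_⟩
          simp only [Matrix.cons_val, map_one, map_zero]
          ring
        · refine ⟨![0, 0, 0], ![0, 0, 0], ![0, 1, 0], ![0, 0, 0], ?_⟩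
          simp only [Matrix.cons_val, map_one, map_zero]
          ring
        · refine ⟨![0, 0, 0], ![0, 0, 0], ![0, 0, 1], ![0, 0, 0], ?_⟩
          simp only [Matrix.cons_val, map_one, map_zero]
          ring
      · have h5 : (e0 = 1 ∧ e1 = 0) ∨ (e0 = 0 ∧ e1 = 1) := by omega
        rcases h5 with ⟨rfl, rfl⟩ | ⟨rfl, rfl⟩
        · refine ⟨![1, 0, 0], ![0, 0, 0], ![0, 0, 0], ![0, -1, 0], ?_⟩
          simp only [Matrix.cons_val, map_one, map_zero, map_neg]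
          linear_combination -(u0 k) * (rel0 k)
        · refine ⟨![0, 1, 0], ![0, 0, 0], ![0, 0, 0], ![0, 0, -1], ?_⟩
          simp only [Matrix.cons_val, map_one, map_zero, map_neg]
          linear_combination -(u1 k) * (rel0 k)
    · have h4 : (e2 = 1 ∧ e3 = 0) ∨ (e2 = 0 ∧ e3 = 1) := by omega
      rcases h4 with ⟨rfl, rfl⟩ | ⟨rfl, rfl⟩
      · have h5 : (e0 = 2 ∧ e1 = 0) ∨ (e0 = 1 ∧ e1 = 1) ∨ (e0 = 0 ∧ e1 = 2) := by omega
        rcases h5 with ⟨rfl, rfl⟩ | ⟨rfl, rfl⟩ | ⟨rfl, rfl⟩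
        · refine ⟨![0, 0, 0], ![0, 0, 0], ![0, 0, 0], ![1, 0, 0], ?_⟩
          simp only [Matrix.cons_val, map_one, map_zero]
          ring
        · refine ⟨![0, 0, 0], ![0, 0, 0], ![0, 0, 0], ![0, 1, 0], ?_⟩
          simp only [Matrix.cons_val, map_one, map_zero]
          ring
        · refine ⟨![0, 0, 0], ![0, 0, 0], ![0, 0, 0], ![0, 0, 1], ?_⟩
          simp only [Matrix.cons_val, map_one, map_zero]
          ring
      · have h5 : (e0 = 1 ∧ e1 = 0) ∨ (e0 = 0 ∧ e1 = 1) := by omega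
        rcases h5 with ⟨rfl, rfl⟩ | ⟨rfl, rfl⟩
        · refine ⟨![0, 0, 0], ![0, 1, 0], ![-1, 0, 0], ![0, 0, 0], ?_⟩
          simp only [Matrix.cons_val, map_one, map_zero, map_neg]
          linear_combination -(u0 k) * (rel3 k)
        · refine ⟨![0, 0, 0], ![0, 0, 1], ![0, -1, 0], ![0, 0, 0], ?_⟩
          simp only [Matrix.cons_val, map_one, map_zero, map_neg]
          linear_combination -(u1 k) * (rel3 k)

end BO
end
end

section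

end

section

/-!
# TASK ExA4
-/

set_option autoImplicit false

noncomputable section

namespace BO

universe w

variable (k : Type w) [Field k]

open MvPolynomial

/-- `i = 0`: `RX_2m11`; `i = 1`: `RX_1m11`; `i = 4, 5`: `RX_eq_zero`. -/
theorem u0_dvd_of_mem (i : Fin 6) (h2 : i ≠ 2) (h3 : i ≠ 3) (x : PP k)
    (hx : x ∈ RX k (bdeg 3 - bdeg i)) : u0 k ∣ x := by
  fin_cases i
  · have h : (bdeg 3 - bdeg 0 : Dg) = (2, -1, 1) := by decide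
    change x ∈ RX k (bdeg 3 - bdeg 0) at hx
    rw [h] at hx
    obtain ⟨a, b, c, d, rfl⟩ := RX_2m11 k x hx
    exact dvd_add (dvd_mul_of_dvd_right (u0_dvd_w1 k) _) (dvd_mul_of_dvd_right (u0_dvd_w2 k) _)
  · have h : (bdeg 3 - bdeg 1 : Dg) = (1, -1, 1) := by decide
    change x ∈ RX k (bdeg 3 - bdeg 1) at hx
    rw [h] at hx
    obtain ⟨a, b, rfl⟩ := RX_1m11 k x hx
    exact dvd_add (dvd_mul_of_dvd_right (u0_dvd_w1 k) _) (dvd_mul_of_dvd_right (u0_dvd_w2 k) _)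
  · exact absurd rfl h2
  · exact absurd rfl h3
  · have h : x = 0 := by
      refine RX_eq_zero k (bdeg 3 - bdeg 4) ?_ x hx
      decide
    rw [h]
    exact dvd_zero _
  · have h : x = 0 := by
      refine RX_eq_zero k (bdeg 3 - bdeg 5) ?_ x hx
      decide
    rw [h]
    exact dvd_zero _

/-- `u₀` divides the right hand side (`u0_dvd_of_mem`) but not `kap i` (`kap_not_dvd`). -/
theorem not_co_cov (i : Fin 6) (h2 : i ≠ 2) (h3 : i ≠ 3) (x1 x2 y : PP k)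
    (hx1 : x1 ∈ RX k (bdeg 3 - bdeg i)) (hx2 : x2 ∈ RX k (bdeg 3 - bdeg i)) :
    kap k i ≠ x1 * mu k + x2 * (la k * u1 k) + y * u0 k := by
  intro h
  apply kap_not_dvd k i h2 h3
  rw [h]
  exact dvd_add (dvd_add (dvd_mul_of_dvd_left (u0_dvd_of_mem k i h2 h3 x1 hx1) _)
    (dvd_mul_of_dvd_left (u0_dvd_of_mem k i h2 h3 x2 hx2) _)) (dvd_mul_left _ _)

/-- `u₀` divides the right hand side (`u0_dvd_w1`, `u0_dvd_w2`) but not `kap' j` (`kap'_not_dvd`). -/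
theorem not_co_con (j : Fin 6) (h2 : j ≠ 2) (h3 : j ≠ 3) (y x1 x2 : PP k) :
    kap' k j ≠ u0 k * y + w1 k * x1 + w2 k * x2 := by
  intro h
  apply kap'_not_dvd k j h2 h3
  rw [h]
  exact dvd_add (dvd_add (dvd_mul_right _ _) (dvd_mul_of_dvd_left (u0_dvd_w1 k) _))
    (dvd_mul_of_dvd_left (u0_dvd_w2 k) _)

end BO
end
end

section

/-!
# TASK ExB1
-/

set_option autoImplicit false

noncomputable section

namespace BO

universe w

variable (k : Type w) [Field k]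

open MvPolynomial

private lemma ExB1_coef (f : Fin 15 → k)
    (h : ∑ i, Polynomial.C (f i) * (Polynomial.X : Polynomial k) ^ (i : ℕ) = 0) (i : Fin 15) :
    f i = 0 := by
  have h1 := congrArg (fun q : Polynomial k => q.coeff (i : ℕ)) h
  simp only [Polynomial.finsetSum_coeff, Polynomial.coeff_C_mul_X_pow, Polynomial.coeff_zero] at h1
  rw [Finset.sum_eq_single i] at h1
  · simpa using h1
  · intro j _ hj
    rw [if_neg]
    intro h2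
    exact hj (Fin.ext h2.symm)
  · intro h2
    exact absurd (Finset.mem_univ i) h2

/-- The substitution. -/
private def ExB1_phi : PP k →ₐ[k] Polynomial k :=
  MvPolynomial.aeval ![1, Polynomial.X, 1, Polynomial.X ^ 4, 1, Polynomial.X ^ 8]

private lemma ExB1_u0 : ExB1_phi k (u0 k) = 1 := by simp [ExB1_phi, u0]
private lemma ExB1_u1 : ExB1_phi k (u1 k) = Polynomial.X := by simp [ExB1_phi, u1]
private lemma ExB1_la : ExB1_phi k (la k) = 1 := by simp [ExB1_phi, la]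
private lemma ExB1_mu : ExB1_phi k (mu k) = Polynomial.X ^ 4 := by simp [ExB1_phi, mu]
private lemma ExB1_om1 : ExB1_phi k (om1 k) = 1 := by simp [ExB1_phi, om1]
private lemma ExB1_om2 : ExB1_phi k (om2 k) = Polynomial.X ^ 8 := by simp [ExB1_phi, om2]
private lemma ExB1_w1 : ExB1_phi k (w1 k) = Polynomial.X := by
  simp only [w1, map_mul, ExB1_u0, ExB1_u1, ExB1_om1]; ring
private lemma ExB1_w2 : ExB1_phi k (w2 k) = Polynomial.X ^ 9 := by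
  simp only [w2, map_mul, ExB1_u0, ExB1_u1, ExB1_om2]; ring
private lemma ExB1_z0 : ExB1_phi k (z0 k) = Polynomial.X ^ 5 + Polynomial.X ^ 10 := by
  simp only [z0, map_mul, map_add, ExB1_u1, ExB1_om1, ExB1_om2, ExB1_mu, ExB1_la]; ring
private lemma ExB1_z3 : ExB1_phi k (z3 k) = Polynomial.X ^ 12 + 1 := by
  simp only [z3, map_mul, map_add, ExB1_u0, ExB1_om1, ExB1_om2, ExB1_mu, ExB1_la]; ring
private lemma ExB1_C (c : k) : ExB1_phi k (C c) = Polynomial.C c := by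
  simp [ExB1_phi, Polynomial.algebraMap_eq]

private lemma ExB1_rel {a b : k} (h : a + b = 0) : (C a + C b : PP k) = 0 := by
  rw [← map_add, h, map_zero]

private lemma ExB1_rel3 {a b c : k} (h : a + b + c = 0) : (C a + C b + C c : PP k) = 0 := by
  rw [← map_add, ← map_add, h, map_zero]

private lemma ExB1_rel1 {a : k} (h : a = 0) : (C a : PP k) = 0 := by
  rw [h, map_zero]

private lemma ExB1_mC {D : Dg} {x : PP k} (c : k) (h : x ∈ RX k D) : C c * x ∈ RX k D := by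
  rw [← MvPolynomial.smul_eq_C_mul]
  exact Submodule.smul_mem _ _ h

private lemma ExB1_mu0 : u0 k ∈ RX k (1, 0, 0) := gen_mem k 0
private lemma ExB1_mu1 : u1 k ∈ RX k (1, 0, 0) := gen_mem k 1
private lemma ExB1_mla : la k ∈ RX k (-1, 1, 0) := gen_mem k 2
private lemma ExB1_mmu : mu k ∈ RX k (0, 1, 0) := gen_mem k 3
private lemma ExB1_m1 : (1 : PP k) ∈ RX k (0, 0, 0) := RX_one k
private lemma ExB1_deg : ((-1, 1, 0) : Dg) + ((1, 0, 0) : Dg) = (0, 1, 0) := by decide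
private lemma ExB1_mlau0 : la k * u0 k ∈ RX k (0, 1, 0) := by
  have h := RX_mul k _ _ _ _ (ExB1_mla k) (ExB1_mu0 k)
  rw [ExB1_deg] at h
  exact h
private lemma ExB1_mlau1 : la k * u1 k ∈ RX k (0, 1, 0) := by
  have h := RX_mul k _ _ _ _ (ExB1_mla k) (ExB1_mu1 k)
  rw [ExB1_deg] at h
  exact h

private lemma ExB1_5 (x x1 x2 : PP k) (hx : x ∈ RX k (1, 0, 1))
    (hx1 : x1 ∈ RX k (1, 1, 0)) (hx2 : x2 ∈ RX k (1, 1, 0))
    (e : u0 k * x + w1 k * x1 + w2 k * x2 = 0) :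
    ∃ y1 ∈ RX k (0, 1, 0), ∃ y2 ∈ RX k (0, 1, 0), ∃ y ∈ RX k (1, 0, 0),
      x = w1 k * y1 + w2 k * y2 - z0 k * y ∧ x1 = mu k * y - u0 k * y1 ∧
      x2 = la k * u1 k * y - u0 k * y2 := by
  obtain ⟨a, b, c, d, rfl⟩ := RX_101 k x hx
  obtain ⟨p0, p1, q0, q1, q2, rfl⟩ := RX_110 k x1 hx1
  obtain ⟨r0, r1, s0, s1, s2, rfl⟩ := RX_110 k x2 hx2
  have h := congrArg (ExB1_phi k) e
  simp only [map_add, map_mul, map_pow, ExB1_u0, ExB1_u1, ExB1_la, ExB1_mu, ExB1_w1, ExB1_w2,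
    ExB1_z0, ExB1_z3, ExB1_C, map_zero] at h
  have hf := ExB1_coef k ![b 0, b 1 + c 0 + q0, c 1 + q1, q2, 0, a 0 + p0, a 1 + p1, 0, 0,
    d 0 + s0, a 0 + d 1 + s1, a 1 + s2, b 0, b 1 + r0, r1] (by
      simp [Fin.sum_univ_succ]
      linear_combination h)
  have e0 : b 0 = 0 := hf 0
  have e1 : b 1 + c 0 + q0 = 0 := hf 1
  have e2 : c 1 + q1 = 0 := hf 2
  have e3 : q2 = 0 := hf 3
  have e5 : a 0 + p0 = 0 := hf 5
  have e6 : a 1 + p1 = 0 := hf 6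
  have e9 : d 0 + s0 = 0 := hf 9
  have e10 : a 0 + d 1 + s1 = 0 := hf 10
  have e11 : a 1 + s2 = 0 := hf 11
  have e13 : b 1 + r0 = 0 := hf 13
  have e14 : r1 = 0 := hf 14
  refine ⟨C (b 1 + c 0) * (la k * u0 k) + C (c 1) * (la k * u1 k),
    add_mem (ExB1_mC k _ (ExB1_mlau0 k)) (ExB1_mC k _ (ExB1_mlau1 k)),
    C (b 1) * mu k + (C (d 0) * (la k * u0 k) + C (d 1) * (la k * u1 k)),
    add_mem (ExB1_mC k _ (ExB1_mmu k))
      (add_mem (ExB1_mC k _ (ExB1_mlau0 k)) (ExB1_mC k _ (ExB1_mlau1 k))),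
    C (-a 0) * u0 k + C (-a 1) * u1 k,
    add_mem (ExB1_mC k _ (ExB1_mu0 k)) (ExB1_mC k _ (ExB1_mu1 k)), ?_, ?_, ?_⟩
  · have h0 := ExB1_rel1 k e0
    have h3 := rel3 k
    simp only [map_add, map_neg]
    linear_combination (u0 k * z3 k) * h0 + C (b 1) * h3
  · have h1 := ExB1_rel3 k e1
    have h2 := ExB1_rel k e2
    have h3 := ExB1_rel1 k e3
    have h5 := ExB1_rel k e5
    have h6 := ExB1_rel k e6
    simp only [map_add, map_neg]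
    linear_combination (u0 k * mu k) * h5 + (u1 k * mu k) * h6 + (u0 k ^ 2 * la k) * h1 +
      (u0 k * u1 k * la k) * h2 + (u1 k ^ 2 * la k) * h3
  · have h9 := ExB1_rel k e9
    have h10 := ExB1_rel3 k e10
    have h11 := ExB1_rel k e11
    have h13 := ExB1_rel k e13
    have h14 := ExB1_rel1 k e14
    simp only [map_neg]
    linear_combination (u0 k * mu k) * h13 + (u1 k * mu k) * h14 + (u0 k ^ 2 * la k) * h9 +
      (u0 k * u1 k * la k) * h10 + (u1 k ^ 2 * la k) * h11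

private lemma ExB1_4 (x x1 x2 : PP k) (hx : x ∈ RX k (0, 0, 1))
    (hx1 : x1 ∈ RX k (0, 1, 0)) (hx2 : x2 ∈ RX k (0, 1, 0))
    (e : u0 k * x + w1 k * x1 + w2 k * x2 = 0) :
    ∃ y1 ∈ RX k (-1, 1, 0), ∃ y2 ∈ RX k (-1, 1, 0), ∃ y ∈ RX k (0, 0, 0),
      x = w1 k * y1 + w2 k * y2 - z0 k * y ∧ x1 = mu k * y - u0 k * y1 ∧
      x2 = la k * u1 k * y - u0 k * y2 := by
  obtain ⟨a, b, c, d, rfl⟩ := RX_001 k x hx
  obtain ⟨p, q0, q1, rfl⟩ := RX_010 k x1 hx1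
  obtain ⟨r, s0, s1, rfl⟩ := RX_010 k x2 hx2
  have h := congrArg (ExB1_phi k) e
  simp only [map_add, map_mul, map_pow, ExB1_u0, ExB1_u1, ExB1_la, ExB1_mu, ExB1_w1, ExB1_w2,
    ExB1_z0, ExB1_z3, ExB1_C, map_zero] at h
  have hf := ExB1_coef k ![b, c + q0, q1, 0, 0, a + p, 0, 0, 0,
    d + s0, a + s1, 0, b, r, 0] (by
      simp [Fin.sum_univ_succ]
      linear_combination h)
  have e0 : b = 0 := hf 0
  have e1 : c + q0 = 0 := hf 1
  have e2 : q1 = 0 := hf 2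
  have e5 : a + p = 0 := hf 5
  have e9 : d + s0 = 0 := hf 9
  have e10 : a + s1 = 0 := hf 10
  have e13 : r = 0 := hf 13
  refine ⟨C c * la k, ExB1_mC k _ (ExB1_mla k), C d * la k, ExB1_mC k _ (ExB1_mla k),
    C (-a) * 1, ExB1_mC k _ (ExB1_m1 k), ?_, ?_, ?_⟩
  · have h0 := ExB1_rel1 k e0
    simp only [map_neg]
    linear_combination (z3 k) * h0
  · have h1 := ExB1_rel k e1
    have h2 := ExB1_rel1 k e2
    have h5 := ExB1_rel k e5
    simp only [map_neg]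
    linear_combination (mu k) * h5 + (u0 k * la k) * h1 + (u1 k * la k) * h2
  · have h9 := ExB1_rel k e9
    have h10 := ExB1_rel k e10
    have h13 := ExB1_rel1 k e13
    simp only [map_neg]
    linear_combination (mu k) * h13 + (u0 k * la k) * h9 + (u1 k * la k) * h10

private lemma ExB1_3 (x x1 x2 : PP k) (hx : x ∈ RX k (1, -1, 1))
    (hx1 : x1 ∈ RX k (1, 0, 0)) (hx2 : x2 ∈ RX k (1, 0, 0))
    (e : u0 k * x + w1 k * x1 + w2 k * x2 = 0) (D : Dg) :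
    ∃ y1 ∈ RX k (0, 0, 0), ∃ y2 ∈ RX k (0, 0, 0), ∃ y ∈ RX k D,
      x = w1 k * y1 + w2 k * y2 - z0 k * y ∧ x1 = mu k * y - u0 k * y1 ∧
      x2 = la k * u1 k * y - u0 k * y2 := by
  obtain ⟨a, b, rfl⟩ := RX_1m11 k x hx
  obtain ⟨p0, p1, rfl⟩ := RX_100 k x1 hx1
  obtain ⟨r0, r1, rfl⟩ := RX_100 k x2 hx2
  have h := congrArg (ExB1_phi k) e
  simp only [map_add, map_mul, map_pow, ExB1_u0, ExB1_u1, ExB1_la, ExB1_mu, ExB1_w1, ExB1_w2,
    ExB1_z0, ExB1_z3, ExB1_C, map_zero] at h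
  have hf := ExB1_coef k ![0, a + p0, p1, 0, 0, 0, 0, 0, 0, b + r0, r1, 0, 0, 0, 0] (by
      simp [Fin.sum_univ_succ]
      linear_combination h)
  have e1 : a + p0 = 0 := hf 1
  have e2 : p1 = 0 := hf 2
  have e9 : b + r0 = 0 := hf 9
  have e10 : r1 = 0 := hf 10
  refine ⟨C a * 1, ExB1_mC k _ (ExB1_m1 k), C b * 1, ExB1_mC k _ (ExB1_m1 k), 0, zero_mem _,
    ?_, ?_, ?_⟩
  · ring
  · have h1 := ExB1_rel k e1
    have h2 := ExB1_rel1 k e2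
    linear_combination (u0 k) * h1 + (u1 k) * h2
  · have h1 := ExB1_rel k e9
    have h2 := ExB1_rel1 k e10
    linear_combination (u0 k) * h1 + (u1 k) * h2

private lemma ExB1_zero (x x1 x2 : PP k) (h : x = 0) (h1 : x1 = 0) (h2 : x2 = 0)
    (D D' : Dg) :
    ∃ y1 ∈ RX k D, ∃ y2 ∈ RX k D, ∃ y ∈ RX k D',
      x = w1 k * y1 + w2 k * y2 - z0 k * y ∧ x1 = mu k * y - u0 k * y1 ∧
      x2 = la k * u1 k * y - u0 k * y2 := by
  refine ⟨0, zero_mem _, 0, zero_mem _, 0, zero_mem _, ?_, ?_, ?_⟩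
  · rw [h]; ring
  · rw [h1]; ring
  · rw [h2]; ring

/-- Exactness at the second place.

PROOF. Cancel `u₀` (`wⱼ = u₀u₁omⱼ`): `x + u₁(om₁x₁ + om₂x₂) = 0`.
`j = 5`: `x = l₀z₀ + l₃z₃ + la m₁w₁ + la m₂w₂` (`RX_101`, linear forms), `x₁, x₂ ∈ RX (1,1,0)` do not contain `om`; coefficients of `om₁`,
`om₂`: `u₁(l₀ mu + x₁) + la u₀²l₃ + la u₀u₁m₁ = 0`, `la u₁²l₀ + u₀ mu l₃ + la u₀u₁m₂ + u₁x₂ = 0`. So `u₁ ∣ l₃`, `l₃ = c u₁`, and
`x₁ = -(l₀ mu + c la u₀² + la u₀m₁)`, `x₂ = -(la u₁l₀ + c u₀ mu + la u₀m₂)`. Take `y = -l₀`, `y₁ = la (c u₀ + m₁)`, `y₂ = c mu + la m₂`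
(in `RX (0,1,0)`); the formula for `x` follows from `x = -u₁(om₁x₁ + om₂x₂)`.
`j = 4` (`RX_001`, `RX_010`): the same with constants `l₀, l₃, m₁, m₂`: `l₃ = 0` (`c = 0`), `y₁ = m₁ la`, `y₂ = m₂ la` in `RX (-1,1,0)`, `y = -l₀`.
`j = 3`: `x ∈ ⟨w₁,w₂⟩` (`RX_1m11`), `x₁, x₂` linear forms (`RX_100`); `x = a w₁ + b w₂`: `u₀a + x₁ = 0`, `u₀b + x₂ = 0` (divide by `u₁`),
`y₁ = a`, `y₂ = b`, `y = 0`. `j = 2`: `x = 0` (degree `(0,-1,1)`), `x₁, x₂` constants with `om₁x₁ + om₂x₂ = 0`: all `0`. `j = 1`: `x` constant,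
`x₁ = x₂ = 0`, so `x = 0`. `j = 0`: all `0`. -/
theorem ex1_con (j : Fin 6) (x x1 x2 : PP k) (hx : x ∈ RX k (bdeg j - bdeg 1))
    (hx1 : x1 ∈ RX k (bdeg j - bdeg 2)) (hx2 : x2 ∈ RX k (bdeg j - bdeg 2))
    (e : u0 k * x + w1 k * x1 + w2 k * x2 = 0) :
    ∃ y1 ∈ RX k (bdeg j - bdeg 3), ∃ y2 ∈ RX k (bdeg j - bdeg 3), ∃ y ∈ RX k (bdeg j - bdeg 4),
      x = w1 k * y1 + w2 k * y2 - z0 k * y ∧ x1 = mu k * y - u0 k * y1 ∧
      x2 = la k * u1 k * y - u0 k * y2 := by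
  have hj : ∀ j : Fin 6, j = 0 ∨ j = 1 ∨ j = 2 ∨ j = 3 ∨ j = 4 ∨ j = 5 := by decide
  rcases hj j with rfl | rfl | rfl | rfl | rfl | rfl
  · rw [show bdeg 0 - bdeg 1 = (-1, 0, 0) by decide] at hx
    rw [show bdeg 0 - bdeg 2 = (-1, 1, -1) by decide] at hx1 hx2
    exact ExB1_zero k _ _ _ (RX_eq_zero k _ (by decide) _ hx) (RX_eq_zero k _ (by decide) _ hx1)
      (RX_eq_zero k _ (by decide) _ hx2) _ _
  · rw [show bdeg 1 - bdeg 2 = (0, 1, -1) by decide] at hx1 hx2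
    have h1 : x1 = 0 := RX_eq_zero k _ (by decide) _ hx1
    have h2 : x2 = 0 := RX_eq_zero k _ (by decide) _ hx2
    rw [h1, h2, mul_zero, mul_zero, add_zero, add_zero] at e
    have h3 : x = 0 := (mul_eq_zero.1 e).resolve_left (MvPolynomial.X_ne_zero _)
    exact ExB1_zero k _ _ _ h3 h1 h2 _ _
  · rw [show bdeg 2 - bdeg 1 = (0, -1, 1) by decide] at hx
    rw [show bdeg 2 - bdeg 2 = (0, 0, 0) by decide] at hx1 hx2
    have h0 : x = 0 := RX_eq_zero k _ (by decide) _ hx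
    obtain ⟨p, rfl⟩ := RX_000 k x1 hx1
    obtain ⟨r, rfl⟩ := RX_000 k x2 hx2
    have h := congrArg (ExB1_phi k) e
    simp only [h0, map_add, map_mul, ExB1_u0, ExB1_w1, ExB1_w2, ExB1_C, map_zero] at h
    have hf := ExB1_coef k ![0, p, 0, 0, 0, 0, 0, 0, 0, r, 0, 0, 0, 0, 0] (by
      simp [Fin.sum_univ_succ]
      linear_combination h)
    have e1 : p = 0 := hf 1
    have e2 : r = 0 := hf 9
    exact ExB1_zero k _ _ _ h0 (by rw [e1, map_zero]) (by rw [e2, map_zero]) _ _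
  · rw [show bdeg 3 - bdeg 1 = (1, -1, 1) by decide] at hx
    rw [show bdeg 3 - bdeg 2 = (1, 0, 0) by decide] at hx1 hx2
    rw [show bdeg 3 - bdeg 3 = (0, 0, 0) by decide]
    exact ExB1_3 k x x1 x2 hx hx1 hx2 e _
  · rw [show bdeg 4 - bdeg 1 = (0, 0, 1) by decide] at hx
    rw [show bdeg 4 - bdeg 2 = (0, 1, 0) by decide] at hx1 hx2
    rw [show bdeg 4 - bdeg 3 = (-1, 1, 0) by decide, show bdeg 4 - bdeg 4 = (0, 0, 0) by decide]
    exact ExB1_4 k x x1 x2 hx hx1 hx2 e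
  · rw [show bdeg 5 - bdeg 1 = (1, 0, 1) by decide] at hx
    rw [show bdeg 5 - bdeg 2 = (1, 1, 0) by decide] at hx1 hx2
    rw [show bdeg 5 - bdeg 3 = (0, 1, 0) by decide, show bdeg 5 - bdeg 4 = (1, 0, 0) by decide]
    exact ExB1_5 k x x1 x2 hx hx1 hx2 e

end BO
end
end

section

/-!
# TASK ExB2
-/

set_option autoImplicit false

noncomputable section

namespace BO

universe w

variable (k : Type w) [Field k]

open MvPolynomial

private theorem ExB2_C_mem (a : k) : (C a : PP k) ∈ RX k (0, 0, 0) := by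
  have h1 : (1 : PP k) ∈ RX k (0, 0, 0) :=
    Submodule.subset_span ⟨fun _ => 0, by simp; rfl, by simp⟩
  have h2 := (RX k (0, 0, 0)).smul_mem a h1
  rwa [smul_eq_C_mul, mul_one] at h2

/-- Exactness at the third place.

PROOF. `j = 5`: `y = a u₀ + b u₁` (`RX_100`), `y₁`, `y₂` as in `RX_010`. `u₀y₁ = mu y`: substitute `u₀ ↦ 0`: `b = 0`; so `y₁ = a mu`,
`y₂ = a la u₁`, `p = a`. `j = 4`: `y = C c`, `y₁ = a la` (`RX_m110`): `u₀ a la = c mu` gives `a = c = 0`, then `y₂ = 0`. `j ≤ 3`: `y = 0`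
(degree not effective), so `u₀y₁ = u₀y₂ = 0`. -/
theorem ex2_con (j : Fin 6) (y1 y2 y : PP k) (hy1 : y1 ∈ RX k (bdeg j - bdeg 3))
    (hy2 : y2 ∈ RX k (bdeg j - bdeg 3)) (hy : y ∈ RX k (bdeg j - bdeg 4))
    (e1 : w1 k * y1 + w2 k * y2 = z0 k * y) (e2 : u0 k * y1 = mu k * y)
    (e3 : u0 k * y2 = la k * u1 k * y) :
    ∃ p ∈ RX k (bdeg j - bdeg 5), y1 = mu k * p ∧ y2 = la k * u1 k * p ∧ y = u0 k * p := by
  have hu0 : u0 k ≠ 0 := X_ne_zero 0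
  have key : y = 0 →
      ∃ p ∈ RX k (bdeg j - bdeg 5), y1 = mu k * p ∧ y2 = la k * u1 k * p ∧ y = u0 k * p := by
    rintro rfl
    rw [mul_zero] at e2 e3
    refine ⟨0, zero_mem _, ?_, ?_, ?_⟩
    · rw [mul_zero]
      exact (mul_eq_zero.1 e2).resolve_left hu0
    · rw [mul_zero]
      exact (mul_eq_zero.1 e3).resolve_left hu0
    · rw [mul_zero]
  fin_cases j
  · exact key (RX_eq_zero k _ (by decide) y hy)
  · exact key (RX_eq_zero k _ (by decide) y hy)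
  · exact key (RX_eq_zero k _ (by decide) y hy)
  · exact key (RX_eq_zero k _ (by decide) y hy)
  · apply key
    obtain ⟨c, hc⟩ := RX_000 k y hy
    have h1 := congrArg (MvPolynomial.eval (![0, 1, 1, 1, 1, 1] : Fin 6 → k)) e2
    rw [hc] at h1
    simp only [map_mul, u0, mu, eval_X, eval_C, Matrix.cons_val, zero_mul, one_mul] at h1
    rw [hc, ← h1, map_zero]
  · obtain ⟨a, b, hab⟩ := RX_100 k y hy
    have h1 := congrArg (MvPolynomial.eval (![0, 1, 1, 1, 1, 1] : Fin 6 → k)) e2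
    rw [hab] at h1
    simp only [map_mul, map_add, u0, u1, mu, eval_X, eval_C, Matrix.cons_val, zero_mul, one_mul,
      mul_zero, mul_one, zero_add] at h1
    have hy' : y = C a * u0 k := by
      rw [hab, ← h1, map_zero, zero_mul, add_zero]
    refine ⟨C a, ExB2_C_mem k a, ?_, ?_, ?_⟩
    · apply mul_left_cancel₀ hu0
      rw [e2, hy']
      ring
    · apply mul_left_cancel₀ hu0
      rw [e3, hy']
      ring
    · rw [hy']
      ring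

end BO
end
end

section

/-!
# TASK ExB3
-/

set_option autoImplicit false

noncomputable section

namespace BO

universe w

variable (k : Type w) [Field k]

open MvPolynomial

private theorem exB3_u0 : u0 k ∈ RX k (1, 0, 0) := gen_mem k 0
private theorem exB3_u1 : u1 k ∈ RX k (1, 0, 0) := gen_mem k 1
private theorem exB3_la : la k ∈ RX k (-1, 1, 0) := gen_mem k 2
private theorem exB3_mu : mu k ∈ RX k (0, 1, 0) := gen_mem k 3
private theorem exB3_z0 : z0 k ∈ RX k (0, 0, 1) := gen_mem k 4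
private theorem exB3_z3 : z3 k ∈ RX k (0, 0, 1) := gen_mem k 5

private theorem exB3_mul {D D' D'' : Dg} {x y : PP k} (hx : x ∈ RX k D) (hy : y ∈ RX k D')
    (h : D + D' = D'') : x * y ∈ RX k D'' := by
  rw [← h]
  exact RX_mul k D D' x y hx hy

private theorem exB3_C {D : Dg} {x : PP k} (a : k) (hx : x ∈ RX k D) : C a * x ∈ RX k D := by
  rw [← smul_eq_C_mul]
  exact Submodule.smul_mem _ _ hx

private theorem exB3_one : (1 : PP k) ∈ RX k (0, 0, 0) := RX_one k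

private theorem exB3_C1 (a : k) : (C a : PP k) ∈ RX k (0, 0, 0) := by
  have h := exB3_C k a (exB3_one k)
  rwa [mul_one] at h

/-- The cokernel at the last place is spanned by `kap' j`.

PROOF. `j = 5` (`RX_201`): modulo `u₀ R'(1,0,1)` and `w₁, w₂` times `R'(1,1,0)` remain `u₁²z₀ = kap' 5` and
`u₁²z₃ = u₁ mu w₂ + u₁ la u₀ w₁ = w₂ (u₁ mu) + w₁ (u₀u₁ la)`. `j = 4` (`RX_101`): the same with `u₁z₀ = kap' 4`, `u₁z₃`. `j = 3` (`RX_2m11`,
`kap' = 0`), `j = 2` (`RX_1m11`): clear. `j = 1` (`RX_100`): `u₀`, `u₁ = kap' 1`. `j = 0`: `kap' 0 = 1`. -/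
theorem co_con (j : Fin 6) (x : PP k) (hx : x ∈ RX k (bdeg j - bdeg 0)) :
    ∃ c : k, ∃ y ∈ RX k (bdeg j - bdeg 1), ∃ x1 ∈ RX k (bdeg j - bdeg 2),
      ∃ x2 ∈ RX k (bdeg j - bdeg 2),
      x = c • kap' k j + u0 k * y + w1 k * x1 + w2 k * x2 := by
  fin_cases j
  · have hD : (bdeg 0 - bdeg 0 : Dg) = (0, 0, 0) := by decide
    change x ∈ RX k (bdeg 0 - bdeg 0) at hx
    rw [hD] at hx
    obtain ⟨c, rfl⟩ := RX_000 k x hx
    refine ⟨c, 0, Submodule.zero_mem _, 0, Submodule.zero_mem _, 0, Submodule.zero_mem _, ?_⟩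
    have hk : kap' k 0 = 1 := rfl
    change C c = c • kap' k 0 + u0 k * 0 + w1 k * 0 + w2 k * 0
    rw [hk]
    rw [smul_eq_C_mul]
    ring
  · have hD : (bdeg 1 - bdeg 0 : Dg) = (1, 0, 0) := by decide
    change x ∈ RX k (bdeg 1 - bdeg 0) at hx
    rw [hD] at hx
    obtain ⟨a, b, rfl⟩ := RX_100 k x hx
    have hE : (bdeg 1 - bdeg 1 : Dg) = (0, 0, 0) := by decide
    refine ⟨b, C a, by change C a ∈ RX k (bdeg 1 - bdeg 1); rw [hE]; exact exB3_C1 k a, 0, Submodule.zero_mem _, 0, Submodule.zero_mem _, ?_⟩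
    have hk : kap' k 1 = u1 k := rfl
    change C a * u0 k + C b * u1 k = b • kap' k 1 + u0 k * C a + w1 k * 0 + w2 k * 0
    rw [hk]
    rw [smul_eq_C_mul]
    ring
  · have hD : (bdeg 2 - bdeg 0 : Dg) = (1, -1, 1) := by decide
    change x ∈ RX k (bdeg 2 - bdeg 0) at hx
    rw [hD] at hx
    obtain ⟨a, b, rfl⟩ := RX_1m11 k x hx
    have hE : (bdeg 2 - bdeg 2 : Dg) = (0, 0, 0) := by decide
    refine ⟨0, 0, Submodule.zero_mem _, C a, by change C a ∈ RX k (bdeg 2 - bdeg 2); rw [hE]; exact exB3_C1 k a,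
      C b, by change C b ∈ RX k (bdeg 2 - bdeg 2); rw [hE]; exact exB3_C1 k b, ?_⟩
    rw [zero_smul]
    ring
  · have hD : (bdeg 3 - bdeg 0 : Dg) = (2, -1, 1) := by decide
    change x ∈ RX k (bdeg 3 - bdeg 0) at hx
    rw [hD] at hx
    obtain ⟨a, b, c, d, rfl⟩ := RX_2m11 k x hx
    have hE : (bdeg 3 - bdeg 2 : Dg) = (1, 0, 0) := by decide
    refine ⟨0, 0, Submodule.zero_mem _, C a * u0 k + C b * u1 k, ?_, C c * u0 k + C d * u1 k,
      ?_, ?_⟩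
    · change _ ∈ RX k (bdeg 3 - bdeg 2)
      rw [hE]
      exact add_mem (exB3_C k a (exB3_u0 k)) (exB3_C k b (exB3_u1 k))
    · change _ ∈ RX k (bdeg 3 - bdeg 2)
      rw [hE]
      exact add_mem (exB3_C k c (exB3_u0 k)) (exB3_C k d (exB3_u1 k))
    rw [zero_smul]
    ring
  · have hD : (bdeg 4 - bdeg 0 : Dg) = (1, 0, 1) := by decide
    change x ∈ RX k (bdeg 4 - bdeg 0) at hx
    rw [hD] at hx
    obtain ⟨a, b, c, d, rfl⟩ := RX_101 k x hx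
    have hE : (bdeg 4 - bdeg 1 : Dg) = (0, 0, 1) := by decide
    have hE2 : (bdeg 4 - bdeg 2 : Dg) = (0, 1, 0) := by decide
    refine ⟨a 1, C (a 0) * z0 k + C (b 0) * z3 k, ?_,
      C (b 1) * (la k * u0 k) + (C (c 0) * (la k * u0 k) + C (c 1) * (la k * u1 k)), ?_,
      C (b 1) * mu k + (C (d 0) * (la k * u0 k) + C (d 1) * (la k * u1 k)), ?_, ?_⟩
    · change _ ∈ RX k (bdeg 4 - bdeg 1)
      rw [hE]
      exact add_mem (exB3_C k _ (exB3_z0 k)) (exB3_C k _ (exB3_z3 k))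
    · change _ ∈ RX k (bdeg 4 - bdeg 2)
      rw [hE2]
      exact add_mem (exB3_C k _ (exB3_mul k (exB3_la k) (exB3_u0 k) (by decide)))
        (add_mem (exB3_C k _ (exB3_mul k (exB3_la k) (exB3_u0 k) (by decide)))
          (exB3_C k _ (exB3_mul k (exB3_la k) (exB3_u1 k) (by decide))))
    · change _ ∈ RX k (bdeg 4 - bdeg 2)
      rw [hE2]
      exact add_mem (exB3_C k _ (exB3_mu k))
        (add_mem (exB3_C k _ (exB3_mul k (exB3_la k) (exB3_u0 k) (by decide)))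
          (exB3_C k _ (exB3_mul k (exB3_la k) (exB3_u1 k) (by decide))))
    · have hk : kap' k 4 = u1 k * z0 k := rfl
      change _ = a 1 • kap' k 4 + _ + _ + _
      rw [hk]
      rw [smul_eq_C_mul]
      linear_combination (C (b 1)) * rel3 k
  · have hD : (bdeg 5 - bdeg 0 : Dg) = (2, 0, 1) := by decide
    change x ∈ RX k (bdeg 5 - bdeg 0) at hx
    rw [hD] at hx
    obtain ⟨a, b, c, d, rfl⟩ := RX_201 k x hx
    have hE : (bdeg 5 - bdeg 1 : Dg) = (1, 0, 1) := by decide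
    have hE2 : (bdeg 5 - bdeg 2 : Dg) = (1, 1, 0) := by decide
    refine ⟨a 2, (C (a 0) * (u0 k * z0 k) + C (a 1) * (u1 k * z0 k)) +
      (C (b 0) * (u0 k * z3 k) + C (b 1) * (u1 k * z3 k)), ?_,
      C (b 2) * ((la k * u0 k) * u1 k) + (C (c 0) * ((la k * u0 k) * u0 k) +
        (C (c 1) * ((la k * u0 k) * u1 k) + C (c 2) * ((la k * u1 k) * u1 k))), ?_,
      C (b 2) * (mu k * u1 k) + (C (d 0) * ((la k * u0 k) * u0 k) +
        (C (d 1) * ((la k * u0 k) * u1 k) + C (d 2) * ((la k * u1 k) * u1 k))), ?_, ?_⟩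
    · change _ ∈ RX k (bdeg 5 - bdeg 1)
      rw [hE]
      exact add_mem (add_mem (exB3_C k _ (exB3_mul k (exB3_u0 k) (exB3_z0 k) (by decide)))
        (exB3_C k _ (exB3_mul k (exB3_u1 k) (exB3_z0 k) (by decide))))
        (add_mem (exB3_C k _ (exB3_mul k (exB3_u0 k) (exB3_z3 k) (by decide)))
        (exB3_C k _ (exB3_mul k (exB3_u1 k) (exB3_z3 k) (by decide))))
    · change _ ∈ RX k (bdeg 5 - bdeg 2)
      rw [hE2]
      have h0 : la k * u0 k ∈ RX k (0, 1, 0) := exB3_mul k (exB3_la k) (exB3_u0 k) rfl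
      have h1 : la k * u1 k ∈ RX k (0, 1, 0) := exB3_mul k (exB3_la k) (exB3_u1 k) rfl
      exact add_mem (exB3_C k _ (exB3_mul k h0 (exB3_u1 k) (by decide)))
        (add_mem (exB3_C k _ (exB3_mul k h0 (exB3_u0 k) (by decide)))
          (add_mem (exB3_C k _ (exB3_mul k h0 (exB3_u1 k) (by decide)))
            (exB3_C k _ (exB3_mul k h1 (exB3_u1 k) (by decide)))))
    · change _ ∈ RX k (bdeg 5 - bdeg 2)
      rw [hE2]
      have h0 : la k * u0 k ∈ RX k (0, 1, 0) := exB3_mul k (exB3_la k) (exB3_u0 k) rfl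
      have h1 : la k * u1 k ∈ RX k (0, 1, 0) := exB3_mul k (exB3_la k) (exB3_u1 k) rfl
      exact add_mem (exB3_C k _ (exB3_mul k (exB3_mu k) (exB3_u1 k) (by decide)))
        (add_mem (exB3_C k _ (exB3_mul k h0 (exB3_u0 k) (by decide)))
          (add_mem (exB3_C k _ (exB3_mul k h0 (exB3_u1 k) (by decide)))
            (exB3_C k _ (exB3_mul k h1 (exB3_u1 k) (by decide)))))
    · have hk : kap' k 5 = u1 k * z0 k * u1 k := rfl
      change _ = a 2 • kap' k 5 + _ + _ + _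
      rw [hk]
      rw [smul_eq_C_mul]
      linear_combination (C (b 2) * u1 k) * rel3 k

end BO
end
end

section

end

section

/-!
# TASK ExA1
-/

set_option autoImplicit false

noncomputable section

namespace BO

universe w

variable (k : Type w) [Field k]

open MvPolynomial

private theorem ExA1_u0 : u0 k ≠ 0 := MvPolynomial.X_ne_zero _

private theorem ExA1_u1 : u1 k ≠ 0 := MvPolynomial.X_ne_zero _

private theorem ExA1_w1 : w1 k ≠ 0 :=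
  mul_ne_zero (mul_ne_zero (MvPolynomial.X_ne_zero _) (MvPolynomial.X_ne_zero _))
    (MvPolynomial.X_ne_zero _)

private theorem ExA1_key (a b c d : k)
    (h : (C a * u0 k + C b * u1 k) * w1 k = (C c * w1 k + C d * w2 k) * u0 k) :
    b = 0 ∧ d = 0 ∧ c = a := by
  have h1 : (C a * u0 k + C b * u1 k) * om1 k = (C c * om1 k + C d * om2 k) * u0 k := by
    have h2 : (u0 k * u1 k) * ((C a * u0 k + C b * u1 k) * om1 k) =
        (u0 k * u1 k) * ((C c * om1 k + C d * om2 k) * u0 k) := by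
      simp only [w1, w2] at h
      linear_combination h
    exact mul_left_cancel₀ (mul_ne_zero (ExA1_u0 k) (ExA1_u1 k)) h2
  have e1 := congrArg (MvPolynomial.eval ![(0 : k), 1, 0, 0, 1, 0]) h1
  have e2 := congrArg (MvPolynomial.eval ![(1 : k), 0, 0, 0, 1, 0]) h1
  have e3 := congrArg (MvPolynomial.eval ![(1 : k), 0, 0, 0, 0, 1]) h1
  simp [u0, u1, om1, om2] at e1 e2 e3
  exact ⟨e1, e3.symm, e2.symm⟩

private theorem ExA1_key2 (a c d : k)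
    (h : (C a * u0 k) * w2 k = (C c * w1 k + C d * w2 k) * u0 k) :
    c = 0 ∧ d = a := by
  have h1 : (C a * u0 k) * om2 k = (C c * om1 k + C d * om2 k) * u0 k := by
    have h2 : (u0 k * u1 k) * ((C a * u0 k) * om2 k) =
        (u0 k * u1 k) * ((C c * om1 k + C d * om2 k) * u0 k) := by
      simp only [w1, w2] at h
      linear_combination h
    exact mul_left_cancel₀ (mul_ne_zero (ExA1_u0 k) (ExA1_u1 k)) h2
  have e2 := congrArg (MvPolynomial.eval ![(1 : k), 0, 0, 0, 1, 0]) h1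
  have e3 := congrArg (MvPolynomial.eval ![(1 : k), 0, 0, 0, 0, 1]) h1
  simp [u0, om1, om2] at e2 e3
  exact ⟨e2.symm, e3.symm⟩

/-- Exactness at the second place.

PROOF. `PP k` is a domain. For `i = 0`: `x = a u₀ + b u₁` (`RX_100`), `y₁, y₂` in `⟨w₁,w₂⟩` (`RX_1m11`). `x w₁ = y₁ u₀`,
`w₁ = u₀u₁om₁`, `y₁ = u₀u₁(c om₁ + d om₂)`: `(a u₀ + b u₁) om₁ = u₀ (c om₁ + d om₂)`, so `b = d = 0`, `c = a`; similarly `y₂ = a w₂`;
`p = a`. For `i = 1`: `x = C a` (`RX_000`), `y₁ = y₂ = 0` (`RX_eq_zero`, degree `(0,-1,1)`), so `x w₁ = 0`, `x = 0`, `p = 0`. For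
`i = 2`: `x = 0` (degree `(0,1,-1)`), so `y₁ u₀ = 0`: everything is `0`. For `i ≥ 3` all degrees are not effective: all are `0`
(`i = 3`: `x`, `y` have degrees `(-1,1,-1)`, `(-1,0,0)`). Compare coefficients by substitutions (`MvPolynomial.aeval` with variables
`↦ 0` or `1`) or by `MvPolynomial.coeff`. -/
theorem ex1_cov (i : Fin 6) (x y1 y2 : PP k) (hx : x ∈ RX k (bdeg 1 - bdeg i))
    (hy1 : y1 ∈ RX k (bdeg 2 - bdeg i)) (hy2 : y2 ∈ RX k (bdeg 2 - bdeg i))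
    (e1 : x * w1 k = y1 * u0 k) (e2 : x * w2 k = y2 * u0 k)
    (e3 : y1 * mu k + y2 * (la k * u1 k) = x * z0 k) :
    ∃ p ∈ RX k (bdeg 0 - bdeg i), x = p * u0 k ∧ y1 = p * w1 k ∧ y2 = p * w2 k := by
  have hzero : x = 0 → ∃ p ∈ RX k (bdeg 0 - bdeg i), x = p * u0 k ∧ y1 = p * w1 k ∧
      y2 = p * w2 k := by
    intro h
    rw [h, zero_mul] at e1 e2
    refine ⟨0, Submodule.zero_mem _, ?_, ?_, ?_⟩
    · rw [h, zero_mul]
    · rw [zero_mul]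
      exact (mul_eq_zero.mp e1.symm).resolve_right (ExA1_u0 k)
    · rw [zero_mul]
      exact (mul_eq_zero.mp e2.symm).resolve_right (ExA1_u0 k)
  have hx2 : ∀ D : Dg, bdeg 1 - bdeg i = D → D.2.2 < 0 → x = 0 := by
    intro D hD h
    rw [hD] at hx
    exact RX_eq_zero k D (Or.inl h) x hx
  fin_cases i
  · have d1 : bdeg 1 - bdeg ((fun i => i) ⟨0, by decide⟩) = (1, 0, 0) := by decide
    have d2 : bdeg 2 - bdeg ((fun i => i) ⟨0, by decide⟩) = (1, -1, 1) := by decide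
    have d0 : bdeg 0 - bdeg ((fun i => i) ⟨0, by decide⟩) = (0 : Dg) := by decide
    rw [d1] at hx
    rw [d2] at hy1 hy2
    obtain ⟨a, b, rfl⟩ := RX_100 k x hx
    obtain ⟨c, d, rfl⟩ := RX_1m11 k y1 hy1
    obtain ⟨e, f, rfl⟩ := RX_1m11 k y2 hy2
    obtain ⟨rfl, rfl, rfl⟩ := ExA1_key k a b c d e1
    have e2' : (C c * u0 k) * w2 k = (C e * w1 k + C f * w2 k) * u0 k := by
      rw [← e2, map_zero, zero_mul, add_zero]
    obtain ⟨rfl, rfl⟩ := ExA1_key2 k c e f e2'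
    refine ⟨C f, ?_, ?_, ?_, ?_⟩
    · rw [d0]
      have hC : (C f : PP k) = f • (1 : PP k) := by rw [MvPolynomial.smul_eq_C_mul, mul_one]
      rw [hC]
      exact Submodule.smul_mem _ _ (RX_one k)
    · rw [map_zero, zero_mul, add_zero]
    · rw [map_zero, zero_mul, add_zero]
    · rw [map_zero, zero_mul, zero_add]
  · apply hzero
    have d2 : bdeg 2 - bdeg ((fun i => i) ⟨1, by decide⟩) = (0, -1, 1) := by decide
    rw [d2] at hy1
    have h1 : y1 = 0 := RX_eq_zero k _ (Or.inr (Or.inr (by decide))) y1 hy1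
    rw [h1, zero_mul] at e1
    exact (mul_eq_zero.mp e1).resolve_right (ExA1_w1 k)
  · exact hzero (hx2 (0, 1, -1) (by decide) (by decide))
  · exact hzero (hx2 (-1, 1, -1) (by decide) (by decide))
  · exact hzero (hx2 (0, 0, -1) (by decide) (by decide))
  · exact hzero (hx2 (-1, 0, -1) (by decide) (by decide))

end BO
end
end
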