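import Pool.Agent.Lib.MP_bd3808_ag.Mg.G001

section

/-!
# TASK ChiAddL
-/

set_option autoImplicit false

noncomputable section

open CategoryTheory CategoryTheory.Limits CategoryTheory.Pretriangulated

namespace BO

universe w v u

variable (k : Type w) [Field k] {C : Type u} [Category.{v} C] [Preadditive C] [Linear k C]
  [HasZeroObject C] [HasShift C ℤ] [∀ n : ℤ, (shiftFunctor C n).Additive]
  [∀ n : ℤ, Functor.Linear k (shiftFunctor C n)] [Pretriangulated C]
  {σ : C ⥤ C} [σ.CommShift ℤ] [σ.Additive] [σ.Linear k] [σ.Full] [σ.Faithful]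

/-- Additivity of the Euler form in the first argument.

PROOF. `kcls_long` for `Hom(Z,W[n]) → Hom(Y,W[n]) → Hom(X,W[n]) → Hom(Z,W[n+1])`, maps `x ↦ g ≫ x`, `f ≫ x`,
`h ≫ x⟦1⟧' ≫ (W[n][1] ≅ W[n+1])`; exactness `Triangle.yoneda_exact₂` and rotation (signs do not matter). The maps
commute with `act` by `T.comm₁, comm₂, comm₃`. -/
theorem chi_add_left {X Y Z : EqObj σ} {f : X.X ⟶ Y.X} {g : Y.X ⟶ Z.X}
    {h : Z.X ⟶ X.X⟦(1 : ℤ)⟧} (T : EqTri σ X Y Z f g h) (W : EqObj σ)
    (hfin : ∀ A B : C, ExtFin k A B) : chi k σ Y W = chi k σ X W + chi k σ Z W := by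
  have hd := T.dist
  have zf : f ≫ g = 0 := comp_distTriang_mor_zero₁₂ _ hd
  have zg : g ≫ h = 0 := comp_distTriang_mor_zero₂₃ _ hd
  have zh : h ≫ f⟦(1 : ℤ)⟧' = 0 := comp_distTriang_mor_zero₃₁ _ hd
  have hd3 : Triangle.mk h (-f⟦(1 : ℤ)⟧') (-g⟦(1 : ℤ)⟧') ∈ distTriang C :=
    rot_of_distTriang _ (rot_of_distTriang _ hd)
  have : ∀ A B : C, Module.Finite k (A ⟶ B) := fun A B => by
    have := (hfin A B).1 0
    exact Module.Finite.of_surjective
      (Linear.rightComp k A ((shiftFunctorZero C ℤ).hom.app B)) (fun x =>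
        ⟨x ≫ (shiftFunctorZero C ℤ).inv.app B, by simp⟩)
  have key := kcls_long (k := k) (A := fun n : ℤ => (Z.X ⟶ W.X⟦n⟧)) (B := fun n : ℤ => (Y.X ⟶ W.X⟦n⟧))
    (D := fun n : ℤ => (X.X ⟶ W.X⟦n⟧)) (hfin Z.X W.X).2 (hfin Y.X W.X).2 (hfin X.X W.X).2
    (fun n => act k σ Z W n) (fun n => act k σ Y W n) (fun n => act k σ X W n)
    (fun n => Linear.leftComp k _ g) (fun n => Linear.leftComp k _ f)
    (fun n => (Linear.leftComp k _ h) ∘ₗ (Linear.rightComp k _
      ((shiftFunctorAdd' C n 1 (n + 1) rfl).inv.app W.X)) ∘ₗ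
        ((shiftFunctor C (1 : ℤ)).mapLinearMap k)) ?_ ?_ ?_ ?_ ?_ ?_
  · rw [add_comm]
    exact key
  · intro n x
    simp only [Linear.leftComp_apply, act]
    change g ≫ Z.φ.hom ≫ _ = Y.φ.hom ≫ σ.map (g ≫ x) ≫ _
    rw [← Category.assoc, T.comm₂]
    simp
  · intro n x
    simp only [Linear.leftComp_apply, act]
    change f ≫ Y.φ.hom ≫ _ = X.φ.hom ≫ σ.map (f ≫ x) ≫ _
    rw [← Category.assoc, T.comm₁]
    simp
  · intro n x
    have hn : (σ.commShiftIso (1 : ℤ)).hom.app X.X ≫ (σ.map x)⟦(1 : ℤ)⟧' =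
        σ.map (x⟦(1 : ℤ)⟧') ≫ (σ.commShiftIso (1 : ℤ)).hom.app (W.X⟦n⟧) :=
      ((σ.commShiftIso (1 : ℤ)).hom.naturality x).symm
    have hadd := Functor.commShiftIso_add' σ (a := n) (b := (1 : ℤ)) (c := n + 1) rfl
    have hadd' : (σ.commShiftIso (n + 1)).hom.app W.X =
        σ.map ((shiftFunctorAdd' C n 1 (n + 1) rfl).hom.app W.X) ≫
          (σ.commShiftIso (1 : ℤ)).hom.app (W.X⟦n⟧) ≫
          ((σ.commShiftIso n).hom.app W.X)⟦(1 : ℤ)⟧' ≫
          (shiftFunctorAdd' C n 1 (n + 1) rfl).inv.app (σ.obj W.X) := by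
      rw [hadd, Functor.CommShift.isoAdd'_hom_app]
    have hnat : (W.φ.inv⟦n⟧')⟦(1 : ℤ)⟧' ≫ (shiftFunctorAdd' C n 1 (n + 1) rfl).inv.app W.X =
        (shiftFunctorAdd' C n 1 (n + 1) rfl).inv.app (σ.obj W.X) ≫ W.φ.inv⟦n + 1⟧' :=
      (shiftFunctorAdd' C n 1 (n + 1) rfl).inv.naturality W.φ.inv
    change h ≫ (X.φ.hom ≫ σ.map x ≫ (σ.commShiftIso n).hom.app W.X ≫ W.φ.inv⟦n⟧')⟦(1 : ℤ)⟧' ≫
        (shiftFunctorAdd' C n 1 (n + 1) rfl).inv.app W.X =
      Z.φ.hom ≫ σ.map (h ≫ x⟦(1 : ℤ)⟧' ≫ (shiftFunctorAdd' C n 1 (n + 1) rfl).inv.app W.X) ≫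
        (σ.commShiftIso (n + 1)).hom.app W.X ≫ W.φ.inv⟦n + 1⟧'
    simp only [Functor.map_comp, Category.assoc, hnat]
    rw [hadd', ← Category.assoc h, T.comm₃]
    simp only [Category.assoc]
    rw [reassoc_of% hn, ← σ.map_comp_assoc ((shiftFunctorAdd' C n 1 (n + 1) rfl).inv.app W.X)]
    simp
  · intro n y
    constructor
    · intro hy
      obtain ⟨x, hx⟩ := Triangle.yoneda_exact₂ _ hd y hy
      exact ⟨x, hx.symm⟩
    · rintro ⟨x, rfl⟩
      simp only [Linear.leftComp_apply]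
      rw [← Category.assoc, zf, zero_comp]
  · intro n y
    constructor
    · intro hy
      change h ≫ y⟦(1 : ℤ)⟧' ≫ (shiftFunctorAdd' C n 1 (n + 1) rfl).inv.app W.X = 0 at hy
      obtain ⟨x, hx⟩ := Triangle.yoneda_exact₂ _ hd3 _ hy
      change y⟦(1 : ℤ)⟧' ≫ (shiftFunctorAdd' C n 1 (n + 1) rfl).inv.app W.X =
        (-f⟦(1 : ℤ)⟧') ≫ x at hx
      refine ⟨-(shiftFunctor C (1 : ℤ)).preimage
        (x ≫ (shiftFunctorAdd' C n 1 (n + 1) rfl).hom.app W.X), ?_⟩
      change f ≫ (-_) = y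
      apply (shiftFunctor C (1 : ℤ)).map_injective
      rw [Preadditive.comp_neg, Functor.map_neg, Functor.map_comp, Functor.map_preimage,
        ← Category.assoc, ← Preadditive.neg_comp, ← Preadditive.neg_comp, ← hx]
      simp
    · rintro ⟨x, rfl⟩
      change h ≫ (f ≫ x)⟦(1 : ℤ)⟧' ≫ (shiftFunctorAdd' C n 1 (n + 1) rfl).inv.app W.X = 0
      rw [Functor.map_comp, Category.assoc, reassoc_of% zh, zero_comp]
  · intro n y
    constructor
    · intro hy
      obtain ⟨x, hx⟩ := Triangle.yoneda_exact₃ _ hd y hy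
      change y = h ≫ x at hx
      refine ⟨(shiftFunctor C (1 : ℤ)).preimage
        (x ≫ (shiftFunctorAdd' C n 1 (n + 1) rfl).hom.app W.X), ?_⟩
      change h ≫ ((shiftFunctor C (1 : ℤ)).preimage _)⟦(1 : ℤ)⟧' ≫
        (shiftFunctorAdd' C n 1 (n + 1) rfl).inv.app W.X = y
      rw [Functor.map_preimage, hx]
      simp
    · rintro ⟨x, rfl⟩
      change g ≫ h ≫ x⟦(1 : ℤ)⟧' ≫ (shiftFunctorAdd' C n 1 (n + 1) rfl).inv.app W.X = 0
      rw [reassoc_of% zg, zero_comp]

end BO
end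
end

section

/-!
# TASK ChiAddR
-/

set_option autoImplicit false

noncomputable section

open CategoryTheory CategoryTheory.Limits CategoryTheory.Pretriangulated

namespace BO

universe w v u

variable (k : Type w) [Field k] {C : Type u} [Category.{v} C] [Preadditive C] [Linear k C]
  [HasZeroObject C] [HasShift C ℤ] [∀ n : ℤ, (shiftFunctor C n).Additive]
  [∀ n : ℤ, Functor.Linear k (shiftFunctor C n)] [Pretriangulated C]
  {σ : C ⥤ C} [σ.CommShift ℤ] [σ.Additive] [σ.Linear k] [σ.Full] [σ.Faithful]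

private lemma ChiAddR_ex2 {C : Type u} [Category.{v} C] [Preadditive C]
    [HasZeroObject C] [HasShift C ℤ] [∀ n : ℤ, (shiftFunctor C n).Additive] [Pretriangulated C]
    (T : Triangle C) (hT : T ∈ distTriang C) (W : C) (n : ℤ)
    (y : W ⟶ T.obj₂⟦n⟧) :
    y ≫ T.mor₂⟦n⟧' = 0 ↔ ∃ x : W ⟶ T.obj₁⟦n⟧, x ≫ T.mor₁⟦n⟧' = y := by
  constructor
  · intro h
    have h1 := (preadditiveCoyoneda.obj (Opposite.op W)).homologySequence_exact₂ T hT n
    rw [ShortComplex.ab_exact_iff] at h1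
    exact h1 y h
  · rintro ⟨x, rfl⟩
    rw [Category.assoc, ← Functor.map_comp, comp_distTriang_mor_zero₁₂ _ hT, Functor.map_zero,
      comp_zero]

private lemma ChiAddR_ex3 {C : Type u} [Category.{v} C] [Preadditive C]
    [HasZeroObject C] [HasShift C ℤ] [∀ n : ℤ, (shiftFunctor C n).Additive] [Pretriangulated C]
    (T : Triangle C) (hT : T ∈ distTriang C) (W : C) (n : ℤ)
    (y : W ⟶ T.obj₃⟦n⟧) :
    y ≫ T.mor₃⟦n⟧' ≫ (shiftFunctorAdd' C 1 n (n + 1) (by omega)).inv.app _ = 0 ↔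
      ∃ x : W ⟶ T.obj₂⟦n⟧, x ≫ T.mor₂⟦n⟧' = y := by
  constructor
  · intro h
    have h1 := (preadditiveCoyoneda.obj (Opposite.op W)).homologySequence_exact₃ T hT n (n + 1) rfl
    rw [ShortComplex.ab_exact_iff] at h1
    exact h1 y ((preadditiveCoyoneda_homologySequenceδ_apply T n (n + 1) rfl
      (A := Opposite.op W) y).trans h)
  · rintro ⟨x, rfl⟩
    rw [Category.assoc, ← Functor.map_comp_assoc, comp_distTriang_mor_zero₂₃ _ hT,
      Functor.map_zero, zero_comp, comp_zero]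

private lemma ChiAddR_ex1 {C : Type u} [Category.{v} C] [Preadditive C]
    [HasZeroObject C] [HasShift C ℤ] [∀ n : ℤ, (shiftFunctor C n).Additive] [Pretriangulated C]
    (T : Triangle C) (hT : T ∈ distTriang C) (W : C) (n : ℤ)
    (y : W ⟶ T.obj₁⟦n + 1⟧) :
    y ≫ T.mor₁⟦n + 1⟧' = 0 ↔
      ∃ x : W ⟶ T.obj₃⟦n⟧, x ≫ T.mor₃⟦n⟧' ≫
        (shiftFunctorAdd' C 1 n (n + 1) (by omega)).inv.app _ = y := by
  constructor
  · intro h
    have h1 := (preadditiveCoyoneda.obj (Opposite.op W)).homologySequence_exact₁ T hT n (n + 1) rfl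
    rw [ShortComplex.ab_exact_iff] at h1
    obtain ⟨x, hx⟩ := h1 y h
    exact ⟨x, (preadditiveCoyoneda_homologySequenceδ_apply T n (n + 1) rfl
      (A := Opposite.op W) x).symm.trans hx⟩
  · rintro ⟨x, rfl⟩
    have h2 : T.mor₃⟦n⟧' ≫ (shiftFunctorAdd' C 1 n (n + 1) (by omega)).inv.app T.obj₁ ≫
        T.mor₁⟦n + 1⟧' = 0 := by
      have h3 := (shiftFunctorAdd' C 1 n (n + 1) (by omega)).inv.naturality T.mor₁
      rw [← h3]
      change T.mor₃⟦n⟧' ≫ (T.mor₁⟦(1 : ℤ)⟧')⟦n⟧' ≫ _ = 0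
      rw [← Functor.map_comp_assoc, comp_distTriang_mor_zero₃₁ _ hT, Functor.map_zero, zero_comp]
    rw [Category.assoc, Category.assoc, h2, comp_zero]

/-- Additivity of the Euler form in the second argument.

PROOF. `kcls_long` for `Hom(W,X[n]) → Hom(W,Y[n]) → Hom(W,Z[n]) → Hom(W,X[n+1])`, maps `x ↦ x ≫ f⟦n⟧'`, `x ≫ g⟦n⟧'`,
`x ≫ h⟦n⟧' ≫ (X[1][n] ≅ X[n+1])`; exactness: the homology functor `Hom(W,-)` of a triangle
(`Pretriangulated.preadditiveCoyoneda...`, or directly from `Triangle.coyoneda_exact₂`, `coyoneda_exact₃` applied to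
the shifted triangle; signs do not matter). The maps commute with `act`: `T.comm₁, comm₂, comm₃` and naturality of
`σ.commShiftIso`, and `Functor.CommShift.commShiftIso_add` for the last map. -/
theorem chi_add_right {X Y Z : EqObj σ} {f : X.X ⟶ Y.X} {g : Y.X ⟶ Z.X}
    {h : Z.X ⟶ X.X⟦(1 : ℤ)⟧} (T : EqTri σ X Y Z f g h) (W : EqObj σ)
    (hfin : ∀ A B : C, ExtFin k A B) : chi k σ W Y = chi k σ W X + chi k σ W Z := by
  have hmid : ∀ (P Q : EqObj σ) (u : P.X ⟶ Q.X), u ≫ Q.φ.hom = P.φ.hom ≫ σ.map u →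
      ∀ (n : ℤ) (x : W.X ⟶ P.X⟦n⟧), (act k σ W P n x) ≫ u⟦n⟧' = act k σ W Q n (x ≫ u⟦n⟧') := by
    intro P Q u hu n x
    have h1 : P.φ.inv ≫ u = σ.map u ≫ Q.φ.inv := by
      rw [Iso.inv_comp_eq, ← Category.assoc, ← hu, Category.assoc, Iso.hom_inv_id,
        Category.comp_id]
    change (W.φ.hom ≫ σ.map x ≫ (σ.commShiftIso n).hom.app P.X ≫ P.φ.inv⟦n⟧') ≫ u⟦n⟧' =
      W.φ.hom ≫ σ.map (x ≫ u⟦n⟧') ≫ (σ.commShiftIso n).hom.app Q.X ≫ Q.φ.inv⟦n⟧'
    rw [σ.map_comp, Category.assoc, Category.assoc, Category.assoc, Category.assoc,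
      ← Functor.map_comp, h1, Functor.map_comp, Functor.commShiftIso_hom_naturality_assoc]
  have hfA : ∀ P : EqObj σ, ∀ n : ℤ, Module.Finite k (W.X ⟶ P.X⟦n⟧) :=
    fun P n => (hfin W.X P.X).1 n
  have hX := hfA X
  have hY := hfA Y
  have hZ := hfA Z
  have hlast : ∀ (n : ℤ) (x : W.X ⟶ Z.X⟦n⟧),
      (act k σ W Z n x) ≫ h⟦n⟧' ≫ (shiftFunctorAdd' C 1 n (n + 1) (by omega)).inv.app X.X =
      act k σ W X (n + 1)
        (x ≫ h⟦n⟧' ≫ (shiftFunctorAdd' C 1 n (n + 1) (by omega)).inv.app X.X) := by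
    intro n x
    have h1 : Z.φ.inv ≫ h = σ.map h ≫ (σ.commShiftIso (1 : ℤ)).hom.app X.X ≫
        X.φ.inv⟦(1 : ℤ)⟧' := by
      rw [Iso.inv_comp_eq, ← Category.assoc, ← Category.assoc, Category.assoc Z.φ.hom, ← T.comm₃,
        Category.assoc, ← Functor.map_comp, Iso.hom_inv_id, CategoryTheory.Functor.map_id, Category.comp_id]
    have h2 := NatTrans.congr_app (congr_arg Iso.hom
      (σ.commShiftIso_add' (show (1 : ℤ) + n = n + 1 by omega))) X.X
    rw [Functor.CommShift.isoAdd'_hom_app] at h2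
    have h3 := (shiftFunctorAdd' C 1 n (n + 1) (by omega)).inv.naturality X.φ.inv
    change (X.φ.inv⟦(1 : ℤ)⟧')⟦n⟧' ≫ _ = _ ≫ X.φ.inv⟦n + 1⟧' at h3
    change (W.φ.hom ≫ σ.map x ≫ (σ.commShiftIso n).hom.app Z.X ≫ Z.φ.inv⟦n⟧') ≫ h⟦n⟧' ≫
      (shiftFunctorAdd' C 1 n (n + 1) (by omega)).inv.app X.X =
      W.φ.hom ≫ σ.map (x ≫ h⟦n⟧' ≫ (shiftFunctorAdd' C 1 n (n + 1) (by omega)).inv.app X.X) ≫
        (σ.commShiftIso (n + 1)).hom.app X.X ≫ X.φ.inv⟦n + 1⟧'
    rw [σ.map_comp, σ.map_comp, h2]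
    simp only [Category.assoc]
    rw [← Functor.map_comp_assoc (shiftFunctor C n), h1, ← h3,
      ← Functor.map_comp_assoc σ ((shiftFunctorAdd' C 1 n (n + 1) (by omega)).inv.app X.X),
      Iso.inv_hom_id_app]
    rw [CategoryTheory.Functor.map_id]
    simp only [Functor.map_comp, Category.assoc]
    erw [Category.id_comp]
    rw [← Functor.commShiftIso_hom_naturality_assoc]
  exact kcls_long (hfin W.X X.X).2 (hfin W.X Y.X).2 (hfin W.X Z.X).2
    (fun n => act k σ W X n) (fun n => act k σ W Y n) (fun n => act k σ W Z n)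
    (fun n => Linear.rightComp k W.X (f⟦n⟧')) (fun n => Linear.rightComp k W.X (g⟦n⟧'))
    (fun n => Linear.rightComp k W.X (h⟦n⟧' ≫
      (shiftFunctorAdd' C 1 n (n + 1) (by omega)).inv.app X.X))
    (fun n x => hmid X Y f T.comm₁ n x) (fun n x => hmid Y Z g T.comm₂ n x)
    (fun n x => hlast n x)
    (fun n y => ChiAddR_ex2 _ T.dist W.X n y)
    (fun n y => ChiAddR_ex3 _ T.dist W.X n y)
    (fun n y => ChiAddR_ex1 _ T.dist W.X n y)

end BO
end
end

section

/-!
# TASK ChiIso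
-/

set_option autoImplicit false

noncomputable section

open CategoryTheory CategoryTheory.Limits CategoryTheory.Pretriangulated

namespace BO

universe w v u

variable (k : Type w) [Field k] {C : Type u} [Category.{v} C] [Preadditive C] [Linear k C]
  [HasZeroObject C] [HasShift C ℤ] [∀ n : ℤ, (shiftFunctor C n).Additive]
  [∀ n : ℤ, Functor.Linear k (shiftFunctor C n)] [Pretriangulated C]
  {σ : C ⥤ C} [σ.CommShift ℤ] [σ.Additive] [σ.Linear k] [σ.Full] [σ.Faithful]

/-- Only the bijections on Homs are needed: `kcls_conj` with `LinearEquiv.ofBijective` of `x ↦ x ≫ f⟦n⟧'`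
for each `n`; it commutes with `act` by `hf`. -/
theorem chi_congr_right {X Y : EqObj σ} (W : EqObj σ) (f : X.X ⟶ Y.X)
    (hf : f ≫ Y.φ.hom = X.φ.hom ≫ σ.map f)
    (hb : ∀ n : ℤ, Function.Bijective fun x : W.X ⟶ X.X⟦n⟧ => x ≫ f⟦n⟧') :
    chi k σ W X = chi k σ W Y := by
  unfold chi
  congr 1
  funext n
  congr 1
  let L : (W.X ⟶ X.X⟦n⟧) →ₗ[k] (W.X ⟶ Y.X⟦n⟧) :=
    { toFun := fun x => x ≫ f⟦n⟧'
      map_add' := fun a b => by simp
      map_smul' := fun c a => by simp }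
  refine kcls_conj (act k σ W X n) (act k σ W Y n) (LinearEquiv.ofBijective L (hb n)) fun x => ?_
  show (W.φ.hom ≫ σ.map x ≫ (σ.commShiftIso n).hom.app X.X ≫ X.φ.inv⟦n⟧') ≫ f⟦n⟧' =
    W.φ.hom ≫ σ.map (x ≫ f⟦n⟧') ≫ (σ.commShiftIso n).hom.app Y.X ≫ Y.φ.inv⟦n⟧'
  have h1 : X.φ.inv ≫ f = σ.map f ≫ Y.φ.inv := by
    rw [Iso.inv_comp_eq, ← Category.assoc, ← hf, Category.assoc, Iso.hom_inv_id, Category.comp_id]
  have h2 : σ.map (f⟦n⟧') ≫ (σ.commShiftIso n).hom.app Y.X =
      (σ.commShiftIso n).hom.app X.X ≫ (σ.map f)⟦n⟧' := by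
    have := (σ.commShiftIso n).hom.naturality f
    simpa using this
  simp only [Category.assoc, Functor.map_comp]
  rw [reassoc_of% h2, ← Functor.map_comp, h1, Functor.map_comp]

theorem chi_congr_left {X Y : EqObj σ} (W : EqObj σ) (f : X.X ⟶ Y.X)
    (hf : f ≫ Y.φ.hom = X.φ.hom ≫ σ.map f)
    (hb : ∀ n : ℤ, Function.Bijective fun x : Y.X ⟶ W.X⟦n⟧ => f ≫ x) :
    chi k σ Y W = chi k σ X W := by
  unfold chi
  congr 1
  funext n
  congr 1
  let L : (Y.X ⟶ W.X⟦n⟧) →ₗ[k] (X.X ⟶ W.X⟦n⟧) :=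
    { toFun := fun x => f ≫ x
      map_add' := fun a b => by simp
      map_smul' := fun c a => by simp }
  refine kcls_conj (act k σ Y W n) (act k σ X W n) (LinearEquiv.ofBijective L (hb n)) fun x => ?_
  show f ≫ (Y.φ.hom ≫ σ.map x ≫ (σ.commShiftIso n).hom.app W.X ≫ W.φ.inv⟦n⟧') =
    X.φ.hom ≫ σ.map (f ≫ x) ≫ (σ.commShiftIso n).hom.app W.X ≫ W.φ.inv⟦n⟧'
  rw [← Category.assoc, hf]
  simp only [Category.assoc, Functor.map_comp]

/-- PROOF. For each `n` conjugate by `x ↦ e.inv ≫ x` (`kcls_conj`). -/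
theorem chi_iso_left {X X' : EqObj σ} (e : X.X ≅ X'.X)
    (he : e.hom ≫ X'.φ.hom = X.φ.hom ≫ σ.map e.hom) (W : EqObj σ) :
    chi k σ X W = chi k σ X' W := by
  refine (chi_congr_left k W e.hom he fun n => ?_).symm
  constructor
  · intro a b hab
    exact (cancel_epi e.hom).1 hab
  · intro b
    exact ⟨e.inv ≫ b, by simp⟩

theorem chi_iso_right {X X' : EqObj σ} (e : X.X ≅ X'.X)
    (he : e.hom ≫ X'.φ.hom = X.φ.hom ≫ σ.map e.hom) (W : EqObj σ) :
    chi k σ W X = chi k σ W X' := by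
  refine chi_congr_right k W e.hom he fun n => ?_
  constructor
  · intro a b hab
    have h := congrArg (fun z => z ≫ e.inv⟦n⟧') hab
    simpa [← Functor.map_comp] using h
  · intro b
    exact ⟨b ≫ e.inv⟦n⟧', by simp [← Functor.map_comp]⟩

/-- All Homs vanish: `kcls_of_subsingleton`. -/
theorem chi_eq_zero (X Y : EqObj σ) (h : ∀ (n : ℤ) (f : X.X ⟶ Y.X⟦n⟧), f = 0) :
    chi k σ X Y = 0 := by
  unfold chi
  have h1 : ∀ n : ℤ, n.negOnePow • kcls (act k σ X Y n) = 0 := fun n => by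
    haveI : Subsingleton (X.X ⟶ Y.X⟦n⟧) := ⟨fun a b => by rw [h n a, h n b]⟩
    rw [kcls_of_subsingleton, smul_zero]
  simp only [h1, finsum_zero]

end BO
end
end

section

/-!
# TASK ChiScale
-/

set_option autoImplicit false

noncomputable section

open CategoryTheory CategoryTheory.Limits CategoryTheory.Pretriangulated

namespace BO

universe w v u

variable (k : Type w) [Field k] {C : Type u} [Category.{v} C] [Preadditive C] [Linear k C]
  [HasZeroObject C] [HasShift C ℤ] [∀ n : ℤ, (shiftFunctor C n).Additive]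
  [∀ n : ℤ, Functor.Linear k (shiftFunctor C n)] [Pretriangulated C]
  {σ : C ⥤ C} [σ.CommShift ℤ] [σ.Additive] [σ.Linear k] [σ.Full] [σ.Faithful]

omit [HasZeroObject C] [∀ n : ℤ, (shiftFunctor C n).Additive] [Pretriangulated C] in
/-- The sum of the classes in two families of automorphisms which differ by scalars. -/
private theorem ChiScale_aux {X Y : C} (hfin : ExtFin k X Y) (c : kˣ)
    (e e' : ∀ n : ℤ, (X ⟶ Y⟦n⟧) ≃ₗ[k] (X ⟶ Y⟦n⟧))
    (he : ∀ n f, e' n f = (c : k) • e n f) :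
    (∑ᶠ n : ℤ, n.negOnePow • kcls (e' n)) = (∑ᶠ n : ℤ, n.negOnePow • kcls (e n)) +
      (0, (∑ᶠ n : ℤ, n.negOnePow • kcls (e n)).1 • Additive.ofMul c) := by
  obtain ⟨h1, h2⟩ := hfin
  have hk : ∀ n, kcls (e' n) = kcls (e n) + (0, (kcls (e n)).1 • Additive.ofMul c) := by
    intro n
    haveI := h1 n
    have hl : LinearMap.det (e' n : (X ⟶ Y⟦n⟧) →ₗ[k] (X ⟶ Y⟦n⟧)) =
        (c : k) ^ Module.finrank k (X ⟶ Y⟦n⟧) *
          LinearMap.det (e n : (X ⟶ Y⟦n⟧) →ₗ[k] (X ⟶ Y⟦n⟧)) := by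
      rw [← LinearMap.det_smul]
      congr 1
      ext f
      exact he n f
    have hd : LinearEquiv.det (e' n) = c ^ Module.finrank k (X ⟶ Y⟦n⟧) * LinearEquiv.det (e n) := by
      apply Units.ext
      rw [Units.val_mul, Units.val_pow_eq_pow_val, LinearEquiv.coe_det, LinearEquiv.coe_det]
      exact hl
    unfold kcls
    refine Prod.ext ?_ ?_
    · simp
    · show Additive.ofMul (LinearEquiv.det (e' n)) = Additive.ofMul (LinearEquiv.det (e n)) +
        (Module.finrank k (X ⟶ Y⟦n⟧) : ℤ) • Additive.ofMul c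
      rw [hd, mul_comm, ofMul_mul, ofMul_pow, natCast_zsmul]
  have hs : ∀ g : ∀ n : ℤ, (X ⟶ Y⟦n⟧) ≃ₗ[k] (X ⟶ Y⟦n⟧),
      (Function.support fun n : ℤ => n.negOnePow • kcls (g n)) ⊆ (h2.toFinset : Set ℤ) := by
    intro g n hn
    rw [Set.Finite.coe_toFinset, Set.mem_ofPred_eq]
    by_contra hc
    rw [not_nontrivial_iff_subsingleton] at hc
    haveI := hc
    apply hn
    show n.negOnePow • kcls (g n) = 0
    rw [kcls_of_subsingleton, smul_zero]
  have hn : ∀ n : ℤ, n.negOnePow • kcls (e' n) = n.negOnePow • kcls (e n) +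
      (0, (n.negOnePow • kcls (e n)).1 • Additive.ofMul c) := by
    intro n
    rw [hk]
    rcases Int.units_eq_one_or n.negOnePow with h | h
    · rw [h, one_smul, one_smul]
    · have hm : ∀ x : KG k, (-1 : ℤˣ) • x = -x := fun x => by
        rw [Units.smul_def, Units.val_neg, Units.val_one, neg_one_zsmul]
      rw [h, hm, hm, neg_add]
      congr 1
      refine Prod.ext ?_ ?_
      · simp
      · show -((kcls (e n)).1 • Additive.ofMul c) = (-(kcls (e n)).1) • Additive.ofMul c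
        rw [neg_zsmul]
  rw [finsum_eq_sum_of_support_subset _ (hs e'), finsum_eq_sum_of_support_subset _ (hs e),
    Finset.sum_congr rfl fun n _ => hn n, Finset.sum_add_distrib]
  congr 1
  refine Prod.ext ?_ ?_
  · rw [Prod.fst_sum]
    simp
  · rw [Prod.snd_sum]
    show _ = (∑ n ∈ h2.toFinset, n.negOnePow • kcls (e n)).1 • Additive.ofMul c
    rw [Prod.fst_sum]
    exact (map_sum (zmultiplesHom (Additive kˣ) (Additive.ofMul c))
      (fun n : ℤ => (n.negOnePow • kcls (e n)).1) h2.toFinset).symm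

/-- PROOF. `act` for `X.scale c` is `c • act`; `det (c • e) = c ^ finrank * det e`; the sum over `n` has finite support
(`hfin`); compare the two components. -/
theorem chi_scale_left (X Y : EqObj σ) (c : kˣ) (hfin : ExtFin k X.X Y.X) :
    chi k σ (X.scale c) Y = chi k σ X Y + (0, (chi k σ X Y).1 • Additive.ofMul c) := by
  refine ChiScale_aux k hfin c (fun n => act k σ X Y n) (fun n => act k σ (X.scale c) Y n) ?_
  intro n f
  show ((c : k) • X.φ.hom) ≫ σ.map f ≫ (σ.commShiftIso n).hom.app Y.X ≫ Y.φ.inv⟦n⟧' =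
    (c : k) • (X.φ.hom ≫ σ.map f ≫ (σ.commShiftIso n).hom.app Y.X ≫ Y.φ.inv⟦n⟧')
  rw [Linear.smul_comp]

/-- The same with `c⁻¹`. -/
theorem chi_scale_right (X Y : EqObj σ) (c : kˣ) (hfin : ExtFin k X.X Y.X) :
    chi k σ X (Y.scale c) = chi k σ X Y - (0, (chi k σ X Y).1 • Additive.ofMul c) := by
  have h := ChiScale_aux k hfin c⁻¹ (fun n => act k σ X Y n)
    (fun n => act k σ X (Y.scale c) n) ?_
  · have e : (0, (chi k σ X Y).1 • Additive.ofMul c⁻¹) =
        -((0, (chi k σ X Y).1 • Additive.ofMul c) : KG k) := by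
      refine Prod.ext ?_ ?_
      · simp
      · show (chi k σ X Y).1 • Additive.ofMul c⁻¹ = -((chi k σ X Y).1 • Additive.ofMul c)
        rw [ofMul_inv, zsmul_neg]
    rw [sub_eq_add_neg, ← e]
    exact h
  · intro n f
    show X.φ.hom ≫ σ.map f ≫ (σ.commShiftIso n).hom.app Y.X ≫
        (((c⁻¹ : kˣ) : k) • Y.φ.inv)⟦n⟧' =
      ((c⁻¹ : kˣ) : k) • (X.φ.hom ≫ σ.map f ≫ (σ.commShiftIso n).hom.app Y.X ≫ Y.φ.inv⟦n⟧')
    rw [Functor.map_smul, Linear.comp_smul, Linear.comp_smul, Linear.comp_smul]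

/-- PROOF. Only `n = 0` contributes (`hX.ext_eq_zero`); `Hom(X,X[0]) ≅ Hom(X,X) = k • 𝟙` and `act` fixes the image of `𝟙`
(`commShiftIso_zero`). -/
theorem chi_self (X : EqObj σ) (hX : IsExceptional k X.X) : chi k σ X X = (1, 0) := by
  unfold chi
  rw [finsum_eq_single _ 0 fun n hn => ?_]
  · rw [Int.negOnePow_zero, one_smul]
    have hz : ∀ f : X.X ⟶ X.X⟦(0 : ℤ)⟧, ∃! a : k, f = a • (shiftFunctorZero C ℤ).inv.app X.X := by
      intro f
      obtain ⟨a, ha, hu⟩ := hX.end_eq (f ≫ (shiftFunctorZero C ℤ).hom.app X.X)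
      refine ⟨a, ?_, fun b hb => hu b ?_⟩
      · show f = a • (shiftFunctorZero C ℤ).inv.app X.X
        have := congrArg (fun z => z ≫ (shiftFunctorZero C ℤ).inv.app X.X) ha
        simpa using this
      · show f ≫ (shiftFunctorZero C ℤ).hom.app X.X = b • 𝟙 X.X
        have hb' : f = b • (shiftFunctorZero C ℤ).inv.app X.X := hb
        rw [hb']
        simp
    have hid : ∀ f, act k σ X X 0 f = f := by
      intro f
      obtain ⟨a, ha, -⟩ := hz f
      have ha' : f = a • (shiftFunctorZero C ℤ).inv.app X.X := ha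
      rw [ha', map_smul]
      congr 1
      show X.φ.hom ≫ σ.map ((shiftFunctorZero C ℤ).inv.app X.X) ≫
        (σ.commShiftIso (0 : ℤ)).hom.app X.X ≫ X.φ.inv⟦(0 : ℤ)⟧' = _
      rw [Functor.commShiftIso_zero]
      have hn := (shiftFunctorZero C ℤ).inv.naturality X.φ.inv
      simp only [Functor.id_obj, Functor.id_map] at hn
      simp [← hn]
    have hr : Module.finrank k (X.X ⟶ X.X⟦(0 : ℤ)⟧) = 1 := by
      refine finrank_eq_one ((shiftFunctorZero C ℤ).inv.app X.X) ?_ fun f => ?_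
      · intro h0
        obtain ⟨a, -, hu⟩ := hz 0
        have e1 := hu 0 (by simp)
        have e2 := hu 1 (by simp [h0])
        exact zero_ne_one (e1.trans e2.symm)
      · obtain ⟨a, ha, -⟩ := hz f
        exact ⟨a, ha.symm⟩
    have he : act k σ X X 0 = LinearEquiv.refl k _ := LinearEquiv.ext hid
    unfold kcls
    rw [he, hr]
    refine Prod.ext ?_ ?_
    · simp
    · show Additive.ofMul (LinearEquiv.det (LinearEquiv.refl k (X.X ⟶ X.X⟦(0 : ℤ)⟧))) = 0
      rw [← ofMul_one]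
      congr 1
      exact map_one LinearEquiv.det
  · haveI : Subsingleton (X.X ⟶ X.X⟦n⟧) :=
      ⟨fun a b => by rw [hX.ext_eq_zero n hn a, hX.ext_eq_zero n hn b]⟩
    rw [kcls_of_subsingleton, smul_zero]

/-- Two structures on an exceptional object differ by a scalar: `X.φ.inv`, `Y.φ` compose to an automorphism of `X.X`, a
scalar `c • 𝟙` with `c ≠ 0` (`𝟙 ≠ 0` because of the uniqueness in `IsExceptional.end_eq`). -/
theorem scale_of_exceptional (X Y : EqObj σ) (hX : IsExceptional k X.X) (h : X.X = Y.X) :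
    ∃ c : kˣ, Y = X.scale c := by
  obtain ⟨A, φ⟩ := X
  obtain ⟨B, ψ⟩ := Y
  change A = B at h
  subst h
  change IsExceptional k A at hX
  obtain ⟨c, hc, -⟩ := hX.end_eq (ψ.hom ≫ φ.inv)
  have hc' : ψ.hom = c • φ.hom := by
    have := congrArg (fun z => z ≫ φ.hom) hc
    simpa using this
  have h1 : (𝟙 A : A ⟶ A) ≠ 0 := by
    intro h0
    obtain ⟨a, -, hu⟩ := hX.end_eq (0 : A ⟶ A)
    have e1 := hu 0 (by simp)
    have e2 := hu 1 (by simp [h0])
    exact zero_ne_one (e1.trans e2.symm)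
  have hc0 : c ≠ 0 := by
    intro h0
    apply h1
    rw [← ψ.hom_inv_id, hc', h0, zero_smul, zero_comp]
  refine ⟨Units.mk0 c hc0, ?_⟩
  unfold EqObj.scale
  congr 1
  exact Iso.ext hc'

end BO
end
end

section

/-!
# TASK ChiShift
-/

set_option autoImplicit false

noncomputable section

open CategoryTheory CategoryTheory.Limits CategoryTheory.Pretriangulated

namespace BO

universe w v u

variable (k : Type w) [Field k] {C : Type u} [Category.{v} C] [Preadditive C] [Linear k C]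
  [HasZeroObject C] [HasShift C ℤ] [∀ n : ℤ, (shiftFunctor C n).Additive]
  [∀ n : ℤ, Functor.Linear k (shiftFunctor C n)] [Pretriangulated C]
  {σ : C ⥤ C} [σ.CommShift ℤ] [σ.Additive] [σ.Linear k] [σ.Full] [σ.Faithful]

omit [Linear k C] [HasZeroObject C] [∀ n : ℤ, (shiftFunctor C n).Additive]
  [∀ n : ℤ, Functor.Linear k (shiftFunctor C n)] [Pretriangulated C] [Preadditive C]
  [σ.Additive] [σ.Linear k] [σ.Full] [σ.Faithful] in
private theorem ChiShift_smul_finsum (u : ℤˣ) (f : ℤ → KG k) :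
    u • ∑ᶠ n, f n = ∑ᶠ n, u • f n := by
  rcases Int.units_eq_one_or u with rfl | rfl
  · simp only [one_smul]
  · simp only [Units.neg_smul, one_smul]
    rw [finsum_neg_distrib]

private theorem ChiShift_right {C : Type u} [Category.{v} C] [HasShift C ℤ] {σ : C ⥤ C}
    [σ.CommShift ℤ] {X Y : C} (a : X ⟶ σ.obj X) (b : σ.obj Y ⟶ Y) (m n : ℤ)
    (f : X ⟶ (Y⟦m⟧)⟦n⟧) :
    (a ≫ σ.map f ≫ (σ.commShiftIso n).hom.app (Y⟦m⟧) ≫
        ((σ.commShiftIso m).hom.app Y ≫ b⟦m⟧')⟦n⟧') ≫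
        (shiftFunctorAdd' C m n (m + n) rfl).inv.app Y =
      a ≫ σ.map (f ≫ (shiftFunctorAdd' C m n (m + n) rfl).inv.app Y) ≫
        (σ.commShiftIso (m + n)).hom.app Y ≫ b⟦m + n⟧' := by
  rw [σ.commShiftIso_add' (rfl : m + n = m + n), Functor.CommShift.isoAdd'_hom_app]
  have hn := (shiftFunctorAdd' C m n (m + n) rfl).inv.naturality b
  have hi : σ.map ((shiftFunctorAdd' C m n (m + n) rfl).inv.app Y) ≫
      σ.map ((shiftFunctorAdd' C m n (m + n) rfl).hom.app Y) = 𝟙 _ := by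
    rw [← σ.map_comp, Iso.inv_hom_id_app]
    exact σ.map_id _
  simp only [Functor.comp_map, Functor.comp_obj] at hn hi
  simp only [Functor.map_comp, Category.assoc, Functor.comp_obj]
  rw [hn, reassoc_of% hi]

private theorem ChiShift_left {C : Type u} [Category.{v} C] [HasShift C ℤ] {σ : C ⥤ C}
    [σ.CommShift ℤ] {X Y : C} (a : X ⟶ σ.obj X) (b : σ.obj Y ⟶ Y) (m n : ℤ)
    (f : X ⟶ Y⟦n⟧) :
    (a ≫ σ.map f ≫ (σ.commShiftIso n).hom.app Y ≫ b⟦n⟧')⟦m⟧' ≫
        (shiftFunctorAdd' C n m (n + m) rfl).inv.app Y =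
      (a⟦m⟧' ≫ (σ.commShiftIso m).inv.app X) ≫
        σ.map (f⟦m⟧' ≫ (shiftFunctorAdd' C n m (n + m) rfl).inv.app Y) ≫
        (σ.commShiftIso (n + m)).hom.app Y ≫ b⟦n + m⟧' := by
  rw [σ.commShiftIso_add' (rfl : n + m = n + m), Functor.CommShift.isoAdd'_hom_app]
  have hn := (shiftFunctorAdd' C n m (n + m) rfl).inv.naturality b
  have hi : σ.map ((shiftFunctorAdd' C n m (n + m) rfl).inv.app Y) ≫
      σ.map ((shiftFunctorAdd' C n m (n + m) rfl).hom.app Y) = 𝟙 _ := by
    rw [← σ.map_comp, Iso.inv_hom_id_app]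
    exact σ.map_id _
  have hs := (σ.commShiftIso m).hom.naturality f
  have hz : (σ.commShiftIso m).inv.app X ≫ (σ.commShiftIso m).hom.app X = 𝟙 _ :=
    Iso.inv_hom_id_app _ _
  simp only [Functor.comp_map, Functor.comp_obj] at hn hi hs hz
  simp only [Functor.map_comp, Category.assoc, Functor.comp_obj]
  rw [hn, reassoc_of% hi, reassoc_of% hs, reassoc_of% hz]

/-- PROOF. `Hom(X,Y[m][n]) ≃ Hom(X,Y[m+n])` (post-composition with `(shiftFunctorAdd' C m n (m+n) rfl).inv.app Y`)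
commutes with `act` (`Functor.CommShift` compatibility with the addition, `commShiftIso_add'`), `kcls_conj`; then reindex the
finite sum by `n ↦ m + n` (`finsum_comp_equiv`), `negOnePow` is multiplicative. -/
theorem chi_shift_right (X Y : EqObj σ) (m : ℤ) :
    chi k σ X (Y.shift m) = m.negOnePow • chi k σ X Y := by
  have key : ∀ n : ℤ, kcls (act k σ X (Y.shift m) n) = kcls (act k σ X Y (m + n)) := by
    intro n
    let e : (X.X ⟶ (Y.X⟦m⟧)⟦n⟧) ≃ₗ[k] (X.X ⟶ Y.X⟦m + n⟧) :=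
      Linear.homCongr k (Iso.refl X.X) ((shiftFunctorAdd' C m n (m + n) rfl).app Y.X).symm
    have he : ∀ f, e f = f ≫ (shiftFunctorAdd' C m n (m + n) rfl).inv.app Y.X := fun f => by
      change (𝟙 X.X ≫ f) ≫ (shiftFunctorAdd' C m n (m + n) rfl).inv.app Y.X = _
      rw [Category.id_comp]
    refine kcls_conj (act k σ X (Y.shift m) n) (act k σ X Y (m + n)) e fun f => ?_
    refine (he _).trans ?_
    refine Eq.trans ?_ (congrArg (act k σ X Y (m + n)) (he f).symm)
    exact ChiShift_right X.φ.hom Y.φ.inv m n f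
  unfold chi
  rw [ChiShift_smul_finsum, ← finsum_comp_equiv (Equiv.addLeft m)
    (f := fun n => m.negOnePow • n.negOnePow • kcls (act k σ X Y n))]
  refine finsum_congr fun n => ?_
  change _ = m.negOnePow • (m + n).negOnePow • kcls (act k σ X Y (m + n))
  rw [key, smul_smul, Int.negOnePow_add, ← mul_assoc, Int.units_mul_self, one_mul]

/-- PROOF. `Hom(X[m],Y[m+n]) ≃ Hom(X[m],Y[n][m]) ≃ Hom(X,Y[n])` (the shift by `m` is fully faithful and `k`-linear), commutes
with `act`; reindex by `n ↦ m + n`. -/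
theorem chi_shift_left (X Y : EqObj σ) (m : ℤ) :
    chi k σ (X.shift m) Y = m.negOnePow • chi k σ X Y := by
  have key : ∀ n : ℤ, kcls (act k σ X Y n) = kcls (act k σ (X.shift m) Y (n + m)) := by
    intro n
    let e₁ : (X.X ⟶ Y.X⟦n⟧) →ₗ[k] (X.X⟦m⟧ ⟶ (Y.X⟦n⟧)⟦m⟧) :=
      { toFun := fun f => f⟦m⟧'
        map_add' := fun f g => Functor.map_add _
        map_smul' := fun c f => Functor.map_smul _ _ _ }
    have hb : Function.Bijective e₁ := by
      constructor
      · intro f g hfg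
        exact (shiftFunctor C m).map_injective hfg
      · intro g
        exact ⟨(shiftFunctor C m).preimage g, (shiftFunctor C m).map_preimage g⟩
    let e₂ : (X.X⟦m⟧ ⟶ (Y.X⟦n⟧)⟦m⟧) ≃ₗ[k] (X.X⟦m⟧ ⟶ Y.X⟦n + m⟧) :=
      Linear.homCongr k (Iso.refl (X.X⟦m⟧)) ((shiftFunctorAdd' C n m (n + m) rfl).app Y.X).symm
    let e : (X.X ⟶ Y.X⟦n⟧) ≃ₗ[k] (X.X⟦m⟧ ⟶ Y.X⟦n + m⟧) := (LinearEquiv.ofBijective e₁ hb).trans e₂
    have he : ∀ f, e f = f⟦m⟧' ≫ (shiftFunctorAdd' C n m (n + m) rfl).inv.app Y.X := fun f => by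
      change (𝟙 (X.X⟦m⟧) ≫ f⟦m⟧') ≫ (shiftFunctorAdd' C n m (n + m) rfl).inv.app Y.X = _
      rw [Category.id_comp]
    refine kcls_conj (act k σ X Y n) (act k σ (X.shift m) Y (n + m)) e fun f => ?_
    refine (he _).trans ?_
    refine Eq.trans ?_ (congrArg (act k σ (X.shift m) Y (n + m)) (he f).symm)
    exact ChiShift_left X.φ.hom Y.φ.inv m n f
  unfold chi
  rw [ChiShift_smul_finsum, ← finsum_comp_equiv (Equiv.addRight m)]
  refine finsum_congr fun n => ?_
  change (n + m).negOnePow • kcls (act k σ (X.shift m) Y (n + m)) =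
    m.negOnePow • n.negOnePow • kcls (act k σ X Y n)
  rw [key, smul_smul, Int.negOnePow_add, mul_comm]

end BO
end
end

section

end

section

set_option autoImplicit false

noncomputable section

open CategoryTheory CategoryTheory.Limits CategoryTheory.Pretriangulated

namespace BO

universe w v u

variable (k : Type w) [Field k] {C : Type u} [Category.{v} C] [Preadditive C] [Linear k C]
  [HasZeroObject C] [HasShift C ℤ] [∀ n : ℤ, (shiftFunctor C n).Additive]
  [∀ n : ℤ, Functor.Linear k (shiftFunctor C n)] [Pretriangulated C]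

/-- `V` is a finite direct sum of shifts of `E`. -/
def IsSumOfShifts (E V : C) : Prop :=
  ∃ (ι : Type) (_ : Fintype ι) (deg : ι → ℤ), Nonempty (V ≅ ⨁ fun i => E⟦deg i⟧)

end BO
end
end

section

/-!
# TASK KronL
-/

set_option autoImplicit false

noncomputable section

open CategoryTheory CategoryTheory.Limits CategoryTheory.Pretriangulated

namespace BO

universe w v u

section KronLLin

variable {k : Type w} [Field k]

private def KronL_ac {W H : Type*} [AddCommGroup W] [Module k W]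
    [AddCommGroup H] [Module k H] (a : W ≃ₗ[k] W) (b : H ≃ₗ[k] H) :
    (W →ₗ[k] H) ≃ₗ[k] (W →ₗ[k] H) where
  toFun L := (b : H →ₗ[k] H).comp (L.comp (a.symm : W →ₗ[k] W))
  invFun L := (b.symm : H →ₗ[k] H).comp (L.comp (a : W →ₗ[k] W))
  map_add' L L' := by
    ext x
    simp
  map_smul' c L := by
    ext x
    simp
  left_inv L := by
    ext x
    simp
  right_inv L := by
    ext x
    simp

private theorem KronL_ac_apply {W H : Type*} [AddCommGroup W] [Module k W]
    [AddCommGroup H] [Module k H] (a : W ≃ₗ[k] W) (b : H ≃ₗ[k] H) (L : W →ₗ[k] H) (x : W) :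
    KronL_ac a b L x = b (L (a.symm x)) := rfl

private theorem KronL_post {W H : Type*} [AddCommGroup W] [Module k W] [Module.Finite k W]
    [AddCommGroup H] [Module k H] [Module.Finite k H] (b : H ≃ₗ[k] H) :
    LinearEquiv.det (KronL_ac (LinearEquiv.refl k W) b)
      = (LinearEquiv.det b) ^ (Module.finrank k W) := by
  apply Units.ext
  rw [LinearEquiv.coe_det, Units.val_pow_eq_pow_val, LinearEquiv.coe_det]
  let B := Module.finBasis k W
  have h := LinearMap.det_conj (LinearMap.pi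
    (fun i : Fin (Module.finrank k W) => (b : H →ₗ[k] H).comp (LinearMap.proj i))) (B.constr k)
  rw [LinearMap.det_pi] at h
  rw [Finset.prod_const, Finset.card_univ, Fintype.card_fin] at h
  rw [← h]
  congr 1
  apply LinearMap.ext
  intro L
  apply B.ext
  intro i
  have h2 : (B.constr k (M' := H)).symm L i = L (B i) := rfl
  have h3 : ((((B.constr k (M' := H)) : (Fin (Module.finrank k W) → H) →ₗ[k] (W →ₗ[k] H)) ∘ₗ
      (LinearMap.pi fun i : Fin (Module.finrank k W) => (b : H →ₗ[k] H).comp (LinearMap.proj i)) ∘ₗ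
      ((B.constr k (M' := H)).symm : (W →ₗ[k] H) →ₗ[k] (Fin (Module.finrank k W) → H))) L) (B i)
      = b ((B.constr k (M' := H)).symm L i) := by
    simp
  rw [h3, h2]
  rfl

private def KronL_dualPi {W H : Type*} [AddCommGroup W] [Module k W]
    [AddCommGroup H] [Module k H] {ι : Type} [Fintype ι] (B : Module.Basis ι k H) :
    (ι → Module.Dual k W) ≃ₗ[k] (W →ₗ[k] H) where
  toFun g := ∑ i, (g i).smulRight (B i)
  invFun L := fun i => (B.coord i).comp L
  map_add' g g' := by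
    ext x
    simp [add_smul, Finset.sum_add_distrib]
  map_smul' c g := by
    ext x
    simp [Finset.smul_sum, smul_smul]
  left_inv g := by
    classical
    funext j
    ext x
    simp [Finsupp.single_apply]
  right_inv L := by
    ext x
    simp [B.sum_repr]

private theorem KronL_pre {W H : Type*} [AddCommGroup W] [Module k W] [Module.Finite k W]
    [AddCommGroup H] [Module k H] [Module.Finite k H] (a : W ≃ₗ[k] W) :
    LinearEquiv.det (KronL_ac a (LinearEquiv.refl k H))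
      = ((LinearEquiv.det a)⁻¹) ^ (Module.finrank k H) := by
  apply Units.ext
  rw [LinearEquiv.coe_det, Units.val_pow_eq_pow_val, ← map_inv, LinearEquiv.coe_det]
  let B := Module.finBasis k H
  have h := LinearMap.det_conj (LinearMap.pi
    (fun i : Fin (Module.finrank k H) => ((a.symm : W →ₗ[k] W).dualMap).comp (LinearMap.proj i)))
    (KronL_dualPi (W := W) B)
  rw [LinearMap.det_pi] at h
  rw [Finset.prod_const, Finset.card_univ, Fintype.card_fin, LinearMap.det_dualMap] at h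
  have e1 : ((a⁻¹ : W ≃ₗ[k] W) : W →ₗ[k] W) = (a.symm : W →ₗ[k] W) := rfl
  rw [e1, ← h]
  congr 1
  apply LinearMap.ext
  intro L
  apply LinearMap.ext
  intro x
  simp [KronL_dualPi, KronL_ac, B.sum_repr]

private theorem KronL_hom {W H : Type*} [AddCommGroup W] [Module k W] [Module.Finite k W]
    [AddCommGroup H] [Module k H] [Module.Finite k H] (a : W ≃ₗ[k] W) (b : H ≃ₗ[k] H) :
    kcls (KronL_ac a b) = kmul (kbar (kcls a)) (kcls b) := by
  have e1 : KronL_ac a b = (KronL_ac (LinearEquiv.refl k W) b)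
        * (KronL_ac a (LinearEquiv.refl k H)) := by
    ext L x
    rfl
  refine Prod.ext ?_ ?_
  · simp [kcls, kmul, kbar, Module.finrank_linearMap]
  · simp only [kcls, kmul, kbar]
    rw [e1, map_mul, KronL_post, KronL_pre]
    rw [ofMul_mul, ofMul_pow, ofMul_pow, ofMul_inv, natCast_zsmul, natCast_zsmul]

private theorem KronL_pi (ι : Type) [Fintype ι] : ∀ (V : ι → Type v) [∀ i, AddCommGroup (V i)]
    [∀ i, Module k (V i)] [∀ i, Module.Finite k (V i)] (e : ∀ i, V i ≃ₗ[k] V i),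
    kcls (LinearEquiv.piCongrRight e) = ∑ i, kcls (e i) := by
  refine Fintype.induction_empty_option (P := fun ι _ => ∀ (V : ι → Type v)
    [∀ i, AddCommGroup (V i)]
    [∀ i, Module k (V i)] [∀ i, Module.Finite k (V i)] (e : ∀ i, V i ≃ₗ[k] V i),
    kcls (LinearEquiv.piCongrRight e) = ∑ i, kcls (e i)) ?_ ?_ ?_ ι
  · intro α β _ eq h V _ _ _ e
    let _ := Fintype.ofEquiv β eq.symm
    have h1 := h (fun i => V (eq i)) (fun i => e (eq i))
    have h2 : ∑ i, kcls (e (eq i)) = ∑ i, kcls (e i) :=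
      Equiv.sum_comp eq (fun i => kcls (e i))
    rw [← h2, ← h1]
    have h3 : Function.Bijective (LinearMap.pi (fun i : α => LinearMap.proj (eq i)) :
        (∀ i, V i) →ₗ[k] (∀ i, V (eq i))) := by
      constructor
      · intro x y hxy
        funext i
        obtain ⟨j, rfl⟩ := eq.surjective i
        exact congrFun hxy j
      · intro y
        refine ⟨fun i => eq.apply_symm_apply i ▸ y (eq.symm i), ?_⟩
        funext j
        simp only [LinearMap.pi_apply, LinearMap.proj_apply]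
        have : ∀ (j' : α) (h : eq j' = eq j), (h ▸ y j' : V (eq j)) = y j := by
          intro j' h
          obtain rfl := eq.injective h
          rfl
        exact this _ _
    exact kcls_conj _ _ (LinearEquiv.ofBijective _ h3) (fun x => rfl)
  · intro V _ _ _ e
    rw [kcls_of_subsingleton]
    simp
  · intro α _ h V _ _ _ e
    classical
    rw [kcls_short (e none) (LinearEquiv.piCongrRight e)
      (LinearEquiv.piCongrRight (fun i => e (some i))) (LinearMap.single k V none)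
      (LinearMap.pi (fun i => LinearMap.proj (some i))), h, Fintype.sum_option]
    · intro x
      funext i
      rcases eq_or_ne i none with rfl | hi
      · simp
      · simp [Pi.single_eq_of_ne hi]
    · intro x
      rfl
    · exact Pi.single_injective none
    · intro y
      refine ⟨fun i => ?_, ?_⟩
      · cases i with
        | none => exact 0
        | some i => exact y i
      · rfl
    · intro y
      constructor
      · intro hy
        refine ⟨y none, ?_⟩
        funext i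
        cases i with
        | none => simp
        | some i =>
          have := congrFun hy i
          simp at this
          simp [this]
      · rintro ⟨x, rfl⟩
        funext i
        simp

end KronLLin

variable (k : Type w) [Field k] {C : Type u} [Category.{v} C] [Preadditive C] [Linear k C]
  [HasZeroObject C] [HasShift C ℤ] [∀ n : ℤ, (shiftFunctor C n).Additive]
  [∀ n : ℤ, Functor.Linear k (shiftFunctor C n)] [Pretriangulated C]
  {σ : C ⥤ C} [σ.CommShift ℤ] [σ.Additive] [σ.Linear k] [σ.Full] [σ.Faithful]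

/-- `x, w ↦ w ≫ x[m]`. -/
private def KronL_psi (E V Z : C) (n m : ℤ) :
    (V ⟶ Z⟦n⟧) →ₗ[k] (E ⟶ V⟦m⟧) →ₗ[k] (E ⟶ Z⟦n + m⟧) :=
  LinearMap.mk₂ k (fun x w => w ≫ x⟦m⟧' ≫ (shiftFunctorAdd C n m).inv.app Z)
    (by intros; simp) (by intros; simp) (by intros; simp) (by intros; simp)

private theorem KronL_psi_apply (E V Z : C) (n m : ℤ) (x : V ⟶ Z⟦n⟧) (w : E ⟶ V⟦m⟧) :
    KronL_psi k E V Z n m x w = w ≫ x⟦m⟧' ≫ (shiftFunctorAdd C n m).inv.app Z := rfl

private def KronL_Phi (E V Z : C) (M : Finset ℤ) (n : ℤ) :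
    (V ⟶ Z⟦n⟧) →ₗ[k] (∀ m : M, (E ⟶ V⟦(m : ℤ)⟧) →ₗ[k] (E ⟶ Z⟦n + (m : ℤ)⟧)) :=
  LinearMap.pi (fun m => KronL_psi k E V Z n m)

private theorem KronL_theta (E Z : C) (d m n : ℤ) (h : d + m = 0) :
    Function.Bijective (fun y : E⟦d⟧ ⟶ Z⟦n⟧ =>
      (shiftFunctorCompIsoId C d m h).inv.app E ≫ y⟦m⟧' ≫ (shiftFunctorAdd C n m).inv.app Z) := by
  constructor
  · intro y y' hy
    simp only at hy
    rw [cancel_epi, cancel_mono] at hy
    exact (shiftFunctor C m).map_injective hy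
  · intro z
    refine ⟨(shiftFunctor C m).preimage ((shiftFunctorCompIsoId C d m h).hom.app E ≫ z ≫
      (shiftFunctorAdd C n m).hom.app Z), ?_⟩
    simp

omit [∀ n : ℤ, Functor.Linear k (shiftFunctor C n)] in
private theorem KronL_exc (E : C) (hE : IsExceptional k E) (d m : ℤ) (v : E ⟶ E⟦d⟧⟦m⟧) :
    v = 0 ∨ ∃ (h : d + m = 0) (c : k), v = c • (shiftFunctorCompIsoId C d m h).inv.app E := by
  by_cases h : d + m = 0
  · right
    refine ⟨h, ?_⟩
    obtain ⟨c, hc, -⟩ := hE.end_eq (v ≫ (shiftFunctorCompIsoId C d m h).hom.app E)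
    refine ⟨c, ?_⟩
    rw [← cancel_mono ((shiftFunctorCompIsoId C d m h).hom.app E)]
    rw [hc]
    simp
  · left
    have := hE.ext_eq_zero (d + m) h (v ≫ (shiftFunctorAdd C d m).inv.app E)
    rw [← cancel_mono ((shiftFunctorAdd C d m).inv.app E), this, zero_comp]

private theorem KronL_bij (E V Z : C) (hE : IsExceptional k E) {ι : Type} [Fintype ι]
    (deg : ι → ℤ) (e : V ≅ ⨁ fun i => E⟦deg i⟧) (M : Finset ℤ) (hM : ∀ i, - deg i ∈ M) (n : ℤ) :
    Function.Bijective (KronL_Phi k E V Z M n) := by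
  classical
  let inj : ∀ i, E⟦deg i⟧ ⟶ V := fun i => biproduct.ι (fun i => E⟦deg i⟧) i ≫ e.inv
  let prj : ∀ i, V ⟶ E⟦deg i⟧ := fun i => e.hom ≫ biproduct.π (fun i => E⟦deg i⟧) i
  have htot : ∑ i, prj i ≫ inj i = 𝟙 V := by
    have h1 : ∑ i, prj i ≫ inj i = e.hom ≫ (∑ i, biproduct.π (fun i => E⟦deg i⟧) i ≫
        biproduct.ι (fun i => E⟦deg i⟧) i) ≫ e.inv := by
      rw [Preadditive.sum_comp, Preadditive.comp_sum]
      simp only [inj, prj, Category.assoc]
    rw [h1, biproduct.total]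
    simp
  have hself : ∀ i, inj i ≫ prj i = 𝟙 _ := by
    intro i
    simp [inj, prj]
  have hne : ∀ i j, i ≠ j → inj i ≫ prj j = 0 := by
    intro i j hij
    simp [inj, prj, biproduct.ι_π_ne _ hij]
  have hpsi : ∀ (x : V ⟶ Z⟦n⟧) (i : ι) (m : ℤ) (h : deg i + m = 0),
      KronL_psi k E V Z n m x ((shiftFunctorCompIsoId C (deg i) m h).inv.app E ≫ (inj i)⟦m⟧')
        = (shiftFunctorCompIsoId C (deg i) m h).inv.app E ≫ (inj i ≫ x)⟦m⟧' ≫
          (shiftFunctorAdd C n m).inv.app Z := by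
    intro x i m h
    rw [KronL_psi_apply]
    simp
  constructor
  · rw [injective_iff_map_eq_zero]
    intro x hx
    have h1 : ∀ i, inj i ≫ x = 0 := by
      intro i
      have h2 : KronL_psi k E V Z n (-deg i) x = 0 := congrFun hx ⟨-deg i, hM i⟩
      have h3 := hpsi x i (-deg i) (by omega)
      rw [h2, LinearMap.zero_apply] at h3
      apply (KronL_theta E Z (deg i) (-deg i) n (by omega)).1
      simp only
      rw [← h3]
      simp
    rw [← Category.id_comp x, ← htot, Preadditive.sum_comp]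
    simp [h1]
  · intro L
    have h1 : ∀ i, ∃ y : E⟦deg i⟧ ⟶ Z⟦n⟧,
        (shiftFunctorCompIsoId C (deg i) (-deg i) (by omega)).inv.app E ≫ y⟦-deg i⟧' ≫
          (shiftFunctorAdd C n (-deg i)).inv.app Z
        = L ⟨-deg i, hM i⟩ ((shiftFunctorCompIsoId C (deg i) (-deg i) (by omega)).inv.app E ≫
            (inj i)⟦-deg i⟧') := fun i =>
      (KronL_theta E Z (deg i) (-deg i) n (by omega)).2 _
    choose y hy using h1
    have h2 : ∀ j, inj j ≫ (∑ i, prj i ≫ y i) = y j := by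
      intro j
      rw [Preadditive.comp_sum, Finset.sum_eq_single j]
      · rw [← Category.assoc, hself, Category.id_comp]
      · intro i _ hi
        rw [← Category.assoc, hne j i (Ne.symm hi), zero_comp]
      · simp
    obtain ⟨x, h2⟩ : ∃ x : V ⟶ Z⟦n⟧, ∀ j, inj j ≫ x = y j := ⟨_, h2⟩
    refine ⟨x, ?_⟩
    funext ⟨m, hm⟩
    apply LinearMap.ext
    intro w
    change KronL_psi k E V Z n m x w = L ⟨m, hm⟩ w
    have hw : w = ∑ i, (w ≫ (prj i)⟦m⟧') ≫ (inj i)⟦m⟧' := by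
      have : ∑ i, (w ≫ (prj i)⟦m⟧') ≫ (inj i)⟦m⟧' = w ≫ (∑ i, prj i ≫ inj i)⟦m⟧' := by
        simp [Functor.map_sum, Preadditive.comp_sum]
      rw [this, htot]
      simp
    rw [hw, map_sum (KronL_psi k E V Z n m x), map_sum (L ⟨m, hm⟩)]
    apply Finset.sum_congr rfl
    intro i _
    rcases KronL_exc k E hE (deg i) m (w ≫ (prj i)⟦m⟧') with h3 | ⟨h, c, h3⟩
    · rw [h3, zero_comp, map_zero, map_zero]
    · rw [h3, Linear.smul_comp, map_smul, map_smul]
      congr 1
      rw [hpsi, h2]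
      obtain rfl : m = -deg i := by omega
      exact hy i

private theorem KronL_equiv (E V Z : EqObj σ) (n m : ℤ) (x : V.X ⟶ Z.X⟦n⟧) (w : E.X ⟶ V.X⟦m⟧) :
    KronL_psi k E.X V.X Z.X n m (act k σ V Z n x) (act k σ E V m w)
      = act k σ E Z (n + m) (KronL_psi k E.X V.X Z.X n m x w) := by
  rw [KronL_psi_apply, KronL_psi_apply]
  change (E.φ.hom ≫ σ.map w ≫ (σ.commShiftIso m).hom.app V.X ≫ V.φ.inv⟦m⟧') ≫
    (V.φ.hom ≫ σ.map x ≫ (σ.commShiftIso n).hom.app Z.X ≫ Z.φ.inv⟦n⟧')⟦m⟧' ≫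
      (shiftFunctorAdd C n m).inv.app Z.X
    = E.φ.hom ≫ σ.map (w ≫ x⟦m⟧' ≫ (shiftFunctorAdd C n m).inv.app Z.X) ≫
      (σ.commShiftIso (n + m)).hom.app Z.X ≫ Z.φ.inv⟦n + m⟧'
  rw [Functor.commShiftIso_add, Functor.CommShift.isoAdd_hom_app]
  have hnat : (shiftFunctorAdd C n m).inv.app (σ.obj Z.X) ≫ Z.φ.inv⟦n + m⟧'
      = Z.φ.inv⟦n⟧'⟦m⟧' ≫ (shiftFunctorAdd C n m).inv.app Z.X :=
    ((shiftFunctorAdd C n m).inv.naturality Z.φ.inv).symm
  simp only [Functor.map_comp, Category.assoc]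
  rw [hnat]
  have h1 : V.φ.inv⟦m⟧' ≫ V.φ.hom⟦m⟧' = 𝟙 _ := by
    rw [← Functor.map_comp]; simp
  rw [reassoc_of% h1]
  have h2 : σ.map ((shiftFunctorAdd C n m).inv.app Z.X) ≫ σ.map ((shiftFunctorAdd C n m).hom.app Z.X)
      = 𝟙 _ := by
    rw [← Functor.map_comp]; simp
  rw [reassoc_of% h2]
  rw [Functor.commShiftIso_hom_naturality_assoc]

private theorem KronL_kcls (E V Z : EqObj σ) (hE : IsExceptional k E.X) {ι : Type} [Fintype ι]
    (deg : ι → ℤ) (e : V.X ≅ ⨁ fun i => E.X⟦deg i⟧) (M : Finset ℤ) (hM : ∀ i, - deg i ∈ M)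
    (hfin : ∀ A B : C, ExtFin k A B) (n : ℤ) :
    kcls (act k σ V Z n) = ∑ m ∈ M, kmul (kbar (kcls (act k σ E V m))) (kcls (act k σ E Z (n + m))) := by
  have i1 : ∀ m : M, Module.Finite k (E.X ⟶ V.X⟦(m : ℤ)⟧) := fun m => (hfin E.X V.X).1 m
  have i2 : ∀ m : M, Module.Finite k (E.X ⟶ Z.X⟦n + (m : ℤ)⟧) := fun m => (hfin E.X Z.X).1 _
  rw [kcls_conj (act k σ V Z n) (LinearEquiv.piCongrRight (fun m : M =>
    KronL_ac (act k σ E V m) (act k σ E Z (n + m))))
    (LinearEquiv.ofBijective _ (KronL_bij k E.X V.X Z.X hE deg e M hM n)), KronL_pi]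
  · rw [← Finset.sum_coe_sort M]
    apply Finset.sum_congr rfl
    intro m _
    rw [KronL_hom]
  · intro x
    funext m
    apply LinearMap.ext
    intro w
    obtain ⟨w, rfl⟩ := (act k σ E V m).surjective w
    exact (KronL_equiv k E V Z n m x w).trans (by
      rw [LinearEquiv.piCongrRight_apply, KronL_ac_apply, LinearEquiv.symm_apply_apply]
      rfl)

/-- Kronecker formula, left.

PROOF. Let `W p = Hom(E[p],V)` (finite, zero for almost all `p`), with its automorphism `act` (for the structure of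
`E.shift p`). `V` is a sum of shifts of `E` and `E` is exceptional, so for each `n`
`Hom(V,Z[n]) ≃ Π p, Hom_k(W p, Hom(E[p],Z[n]))`, `x ↦ (w ↦ w ≫ x)` (check on `V = E[q]`, additivity in `V`). With `A` the
automorphism of `Hom(V,Z[n])` and `a`, `b` those of `W p` and `H = Hom(E[p],Z[n])`: `w ≫ A x = b (a⁻¹ w ≫ x)`. The
automorphism `L ↦ b ∘ L ∘ a⁻¹` of `Hom_k(W,H)` has class `kmul (kbar (kcls a)) (kcls b)` (dimension `w h`, determinant
`det(b)^w det(a)^{-h}`). Now `[Hom(E[p],V)]`, `[Hom(E[p],Z[n])]` are the classes of `Hom(E,V[-p])`, `Hom(E,Z[n-p])`; sum over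
`n`, `p` with signs `(-1)^n = (-1)^p (-1)^(n-p)`; `kmul` is biadditive.
ALTERNATIVE. Transport the structure of `V` to `⨁ E[deg i]` (`chi_iso_left`); it is given by an invertible matrix
`a : ι × ι → k` (zero unless `deg i = deg j`): `(A x)_i = ∑ j, a i j • act (x_j)` on `Π i, Hom(E[deg i],Z[n])`; reduce to one
degree at a time; determinant of a Kronecker product (`Matrix.det_kronecker`). -/
theorem chi_kron_left (E V Z : EqObj σ) (hE : IsExceptional k E.X) (hV : IsSumOfShifts E.X V.X)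
    (hfin : ∀ A B : C, ExtFin k A B) :
    chi k σ V Z = kmul (kbar (chi k σ E V)) (chi k σ E Z) := by
  classical
  obtain ⟨ι, _, deg, ⟨e⟩⟩ := hV
  let M : Finset ℤ := Finset.univ.image (fun i => - deg i) ∪ (hfin E.X V.X).2.toFinset
  have hM : ∀ i, - deg i ∈ M := fun i =>
    Finset.mem_union_left _ (Finset.mem_image_of_mem _ (Finset.mem_univ i))
  have hM2 : ∀ m, m ∉ M → kcls (act k σ E V m) = 0 := by
    intro m hm
    have : ¬ Nontrivial (E.X ⟶ V.X⟦m⟧) := by
      intro h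
      exact hm (Finset.mem_union_right _ ((Set.Finite.mem_toFinset _).2 h))
    rw [not_nontrivial_iff_subsingleton] at this
    exact kcls_of_subsingleton _
  have hZ : ∀ m, ¬ Nontrivial (E.X ⟶ Z.X⟦m⟧) → kcls (act k σ E Z m) = 0 := by
    intro m this
    rw [not_nontrivial_iff_subsingleton] at this
    exact kcls_of_subsingleton _
  have kmul_add : ∀ c x y : KG k, kmul c (x + y) = kmul c x + kmul c y := by
    intro c x y
    refine Prod.ext ?_ ?_
    · simp [kmul, mul_add]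
    · change c.1 • (x.2 + y.2) + (x.1 + y.1) • c.2 = (c.1 • x.2 + x.1 • c.2) +
        (c.1 • y.2 + y.1 • c.2)
      rw [zsmul_add, add_zsmul]
      exact add_add_add_comm _ _ _ _
  have kmul_add' : ∀ c x y : KG k, kmul (kbar (x + y)) c = kmul (kbar x) c + kmul (kbar y) c := by
    intro c x y
    refine Prod.ext ?_ ?_
    · simp [kmul, kbar, add_mul]
    · change (x.1 + y.1) • c.2 + c.1 • (-(x.2 + y.2)) = (x.1 • c.2 + c.1 • (-x.2)) +
        (y.1 • c.2 + c.1 • (-y.2))
      rw [neg_add, zsmul_add, add_zsmul]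
      exact add_add_add_comm _ _ _ _
  let mu : KG k → KG k →+ KG k := fun c => AddMonoidHom.mk' (kmul c) (kmul_add c)
  let nu : KG k → KG k →+ KG k := fun c => AddMonoidHom.mk' (fun x => kmul (kbar x) c) (kmul_add' c)
  have hsupp0 : ∀ m : ℤ, (Function.support fun n : ℤ =>
      kcls (act k σ E Z (n + m))).Finite := by
    intro m
    refine Set.Finite.subset ((hfin E.X Z.X).2.preimage (f := fun n => n + m)
      (fun a _ b _ h => by simpa using h)) ?_
    intro n hn
    by_contra hn'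
    exact hn (hZ _ hn')
  have hsupp : ∀ (m : ℤ) (u : ℤ → ℤˣ), (Function.support fun n : ℤ =>
      u n • kcls (act k σ E Z (n + m))).Finite := by
    intro m u
    refine (hsupp0 m).subset ?_
    intro n hn hn'
    exact hn (by simp only at hn' ⊢; rw [hn', smul_zero])
  have husmul : ∀ (g : KG k →+ KG k) (u : ℤˣ) (x : KG k), g (u • x) = u • g x := by
    intro g u x
    rw [Units.smul_def, Units.smul_def, map_zsmul]
  have key : ∀ m : ℤ, (∑ᶠ n : ℤ, n.negOnePow • kcls (act k σ E Z (n + m)))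
      = m.negOnePow • chi k σ E Z := by
    intro m
    have h1 : (∑ᶠ n : ℤ, (n + m).negOnePow • kcls (act k σ E Z (n + m))) = chi k σ E Z :=
      finsum_comp_equiv (Equiv.addRight m) (f := fun n => n.negOnePow • kcls (act k σ E Z n))
    have h2 := (DistribSMul.toAddMonoidHom (KG k) (m.negOnePow)).map_finsum
      (f := fun n : ℤ => (n + m).negOnePow • kcls (act k σ E Z (n + m))) (hsupp m _)
    rw [h1] at h2
    rw [DistribSMul.toAddMonoidHom_apply] at h2
    rw [h2]
    apply finsum_congr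
    intro n
    rw [DistribSMul.toAddMonoidHom_apply, smul_smul, Int.negOnePow_add, mul_comm n.negOnePow,
      ← mul_assoc, Int.units_mul_self, one_mul]
  have e1 : chi k σ V Z = ∑ m ∈ M, m.negOnePow • kmul (kbar (kcls (act k σ E V m))) (chi k σ E Z) := by
    have h1 : chi k σ V Z = ∑ᶠ n : ℤ, ∑ m ∈ M, mu (kbar (kcls (act k σ E V m)))
        (n.negOnePow • kcls (act k σ E Z (n + m))) := by
      apply finsum_congr
      intro n
      rw [KronL_kcls k E V Z hE deg e M hM hfin n]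
      refine (map_sum (DistribSMul.toAddMonoidHom (KG k) (n.negOnePow)) _ M).trans ?_
      apply Finset.sum_congr rfl
      intro m _
      rw [husmul]
      rfl
    rw [h1, finsum_sum_comm]
    · apply Finset.sum_congr rfl
      intro m _
      rw [← (mu (kbar (kcls (act k σ E V m)))).map_finsum (hsupp m _), key, husmul]
      rfl
    · intro m _
      refine (hsupp m (fun n => n.negOnePow)).subset ?_
      intro n hn hn'
      apply hn
      simp only at hn' ⊢
      rw [hn', map_zero]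
  have e2 : chi k σ E V = ∑ m ∈ M, m.negOnePow • kcls (act k σ E V m) := by
    apply finsum_eq_sum_of_support_subset
    intro m hm
    by_contra hm'
    apply hm
    simp only
    rw [hM2 m (by simpa using hm'), smul_zero]
  have e3 : kmul (kbar (chi k σ E V)) (chi k σ E Z) = nu (chi k σ E Z) (chi k σ E V) := rfl
  rw [e1, e3, e2, map_sum]
  apply Finset.sum_congr rfl
  intro m _
  rw [husmul]
  rfl

end BO
end
end

section

/-!
# TASK KronR
-/

set_option autoImplicit false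

noncomputable section

open CategoryTheory CategoryTheory.Limits CategoryTheory.Pretriangulated

namespace BO

universe w v u

section LA

open TensorProduct

variable {k : Type w} [Field k]

private theorem KronR_det {H W : Type v} [AddCommGroup H] [Module k H] [Module.Finite k H]
    [AddCommGroup W] [Module k W] [Module.Finite k W] (b : H →ₗ[k] H) (a : W →ₗ[k] W) :
    LinearMap.det (TensorProduct.map b a) =
      LinearMap.det b ^ Module.finrank k W * LinearMap.det a ^ Module.finrank k H := by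
  classical
  have bH := Module.finBasis k H
  have bW := Module.finBasis k W
  rw [← LinearMap.det_toMatrix (bH.tensorProduct bW), TensorProduct.toMatrix_map,
    Matrix.det_kronecker, LinearMap.det_toMatrix, LinearMap.det_toMatrix]
  simp

private theorem KronR_tensor {H W : Type v} [AddCommGroup H] [Module k H] [Module.Finite k H]
    [AddCommGroup W] [Module k W] [Module.Finite k W] (b : H ≃ₗ[k] H) (a : W ≃ₗ[k] W) :
    kcls (TensorProduct.congr b a) =
      ((kcls b).1 * (kcls a).1, (kcls b).1 • (kcls a).2 + (kcls a).1 • (kcls b).2) := by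
  unfold kcls
  refine Prod.ext ?_ ?_
  · simp
  · apply Additive.toMul.injective
    apply Units.ext
    simp only [toMul_add, toMul_zsmul, toMul_ofMul, zpow_natCast, Units.val_mul, Units.val_pow_eq_pow_val,
      LinearEquiv.coe_det]
    have h := KronR_det (k := k) (b : H →ₗ[k] H) (a : W →ₗ[k] W)
    rw [mul_comm] at h
    exact h

private theorem KronR_sum {δ : Type} [DecidableEq δ] {Y : δ → Type v} [∀ d, AddCommGroup (Y d)]
    [∀ d, Module k (Y d)] (B : ∀ d, Y d ≃ₗ[k] Y d) (s : Finset δ) :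
    ∀ (X : Type v) [AddCommGroup X] [Module k X] [Module.Finite k X] (A : X ≃ₗ[k] X)
      (f : ∀ d, X →ₗ[k] Y d) (_ : ∀ d x, f d (A x) = B d (f d x))
      (_ : ∀ x, (∀ d ∈ s, f d x = 0) → x = 0)
      (_ : ∀ y : ∀ d, Y d, ∃ x, ∀ d ∈ s, f d x = y d), kcls A = ∑ d ∈ s, kcls (B d) := by
  induction s using Finset.induction_on with
  | empty =>
    intro X _ _ _ A f _ inj _
    have : Subsingleton X := ⟨fun x y => by
      rw [inj x (by simp), inj y (by simp)]⟩
    rw [kcls_of_subsingleton]; simp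
  | insert d s hd ih =>
    intro X _ _ _ A f hf inj surj
    rw [Finset.sum_insert hd]
    have h1 : ∀ x ∈ LinearMap.ker (f d), (A : X →ₗ[k] X) x ∈ LinearMap.ker (f d) := by
      intro x hx
      rw [LinearMap.mem_ker] at hx ⊢
      show f d (A x) = 0
      rw [hf, hx, map_zero]
    have h2 : ∀ x ∈ LinearMap.ker (f d), (A.symm : X →ₗ[k] X) x ∈ LinearMap.ker (f d) := by
      intro x hx
      rw [LinearMap.mem_ker] at hx ⊢
      show f d (A.symm x) = 0
      apply (B d).injective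
      rw [← hf, A.apply_symm_apply, hx, map_zero]
    let AK : LinearMap.ker (f d) ≃ₗ[k] LinearMap.ker (f d) :=
      LinearEquiv.ofLinearMap ((A : X →ₗ[k] X).restrict h1) ((A.symm : X →ₗ[k] X).restrict h2)
        (by ext x; simp) (by ext x; simp)
    have h3 := kcls_short AK A (B d) (LinearMap.ker (f d)).subtype (f d)
      (fun x => rfl) (fun x => hf d x) (Submodule.subtype_injective _)
      (fun y => by
        obtain ⟨x, hx⟩ := surj (Function.update 0 d y)
        refine ⟨x, ?_⟩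
        rw [hx d (Finset.mem_insert_self _ _)]
        simp)
      (fun y => ⟨fun h => ⟨⟨y, h⟩, rfl⟩, fun ⟨x, hx⟩ => by rw [← hx]; exact x.2⟩)
    have h4 := ih (LinearMap.ker (f d)) AK (fun d' => (f d').comp (LinearMap.ker (f d)).subtype)
      (fun d' x => hf d' x.1)
      (fun x hx => by
        apply Subtype.ext
        apply inj
        intro d' hd'
        rcases Finset.mem_insert.mp hd' with rfl | hd''
        · exact x.2
        · exact hx d' hd'')
      (fun y => by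
        obtain ⟨x, hx⟩ := surj (Function.update y d 0)
        refine ⟨⟨x, ?_⟩, ?_⟩
        · rw [LinearMap.mem_ker, hx d (Finset.mem_insert_self _ _)]
          simp
        · intro d' hd'
          have hne : d' ≠ d := fun h => hd (h ▸ hd')
          have := hx d' (Finset.mem_insert_of_mem hd')
          rw [Function.update_of_ne hne] at this
          exact this)
    rw [h3, h4, add_comm]

private theorem KronR_pi {δ : Type} [Fintype δ] {Y : δ → Type v} [∀ d, AddCommGroup (Y d)] [∀ d, Module k (Y d)]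
    [∀ d, Module.Finite k (Y d)] (B : ∀ d, Y d ≃ₗ[k] Y d) :
    kcls (LinearEquiv.piCongrRight B) = ∑ d, kcls (B d) := by
  classical
  exact KronR_sum B Finset.univ (∀ d, Y d) (LinearEquiv.piCongrRight B)
    (fun d => LinearMap.proj d) (fun d x => rfl)
    (fun x hx => funext fun d => hx d (Finset.mem_univ d)) (fun y => ⟨y, fun d _ => rfl⟩)


/-- `kmul` is additive in the first argument. -/
private def KronR_mulHom (y : KG k) : KG k →+ KG k where
  toFun x := kmul x y
  map_zero' := by simp [kmul]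
  map_add' x x' := by
    simp only [kmul, Prod.fst_add, Prod.snd_add, Prod.mk_add_mk]
    refine Prod.ext ?_ ?_
    · simp only; ring
    · simp only [add_zsmul, zsmul_add]; abel

private theorem KronR_smul (u : ℤˣ) (x y : KG k) : kmul (u • x) y = u • kmul x y := by
  rcases Int.units_eq_one_or u with rfl | rfl
  · simp
  · have h := (KronR_mulHom y).map_neg x
    have h2 : ((-1 : ℤˣ) • x) = -x := by simp
    have h3 : ((-1 : ℤˣ) • kmul x y) = -kmul x y := by simp
    rw [h2, h3]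
    exact h

private theorem KronR_one (x : KG k) : kmul (1, 0) x = x := by
  simp [kmul]

private theorem KronR_smul' (u : ℤˣ) (x y : KG k) : kmul x (u • y) = u • kmul x y := by
  rcases Int.units_eq_one_or u with rfl | rfl
  · simp
  · have h2 : ((-1 : ℤˣ) • y) = -y := by simp
    have h3 : ((-1 : ℤˣ) • kmul x y) = -kmul x y := by simp
    rw [h2, h3]
    simp only [kmul, Prod.fst_neg, Prod.snd_neg, mul_neg, Prod.neg_mk]
    refine Prod.ext rfl ?_
    simp only [neg_zsmul, zsmul_neg']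
    abel

private theorem KronR_sum_right {δ : Type*} (s : Finset δ) (x : KG k) (y : δ → KG k) :
    kmul x (∑ d ∈ s, y d) = ∑ d ∈ s, kmul x (y d) := by
  classical
  induction s using Finset.induction_on with
  | empty => simp [kmul]
  | insert a s ha ih =>
    rw [Finset.sum_insert ha, Finset.sum_insert ha, ← ih]
    simp only [kmul, Prod.fst_add, Prod.snd_add, Prod.mk_add_mk]
    refine Prod.ext ?_ ?_
    · simp only; ring
    · simp only [add_zsmul, zsmul_add]; abel

private theorem KronR_usum {δ : Type*} (s : Finset δ) (u : ℤˣ) (y : δ → KG k) :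
    u • ∑ d ∈ s, y d = ∑ d ∈ s, u • y d := by
  rcases Int.units_eq_one_or u with rfl | rfl
  · simp
  · have h2 : ∀ y : KG k, ((-1 : ℤˣ) • y) = -y := fun y => by simp
    rw [h2, ← Finset.sum_neg_distrib]
    exact Finset.sum_congr rfl fun d _ => (h2 _).symm

end LA

variable (k : Type w) [Field k] {C : Type u} [Category.{v} C] [Preadditive C] [Linear k C]
  [HasZeroObject C] [HasShift C ℤ] [∀ n : ℤ, (shiftFunctor C n).Additive]
  [∀ n : ℤ, Functor.Linear k (shiftFunctor C n)] [Pretriangulated C]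
  {σ : C ⥤ C} [σ.CommShift ℤ] [σ.Additive] [σ.Linear k] [σ.Full] [σ.Faithful]

private theorem KronR_zero {E : C} (hE : IsExceptional k E) {n m : ℤ} (h : m ≠ n)
    (f : E⟦n⟧ ⟶ E⟦m⟧) : f = 0 := by
  let e : E⟦m⟧ ≅ (E⟦m - n⟧)⟦n⟧ := (shiftFunctorAdd' C (m - n) n m (by omega)).app E
  obtain ⟨g, hg⟩ := (shiftFunctor C n).map_surjective (f ≫ e.hom)
  have hg0 : g = 0 := hE.ext_eq_zero (m - n) (sub_ne_zero.mpr h) g
  rw [hg0, Functor.map_zero] at hg
  have : f = (f ≫ e.hom) ≫ e.inv := by simp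
  rw [this, ← hg, zero_comp]

private theorem KronR_scal {E : C} (hE : IsExceptional k E) {n : ℤ}
    (f : E⟦n⟧ ⟶ E⟦n⟧) : ∃ c : k, f = c • 𝟙 (E⟦n⟧) := by
  obtain ⟨g, hg⟩ := (shiftFunctor C n).map_surjective f
  obtain ⟨c, hc, -⟩ := hE.end_eq g
  refine ⟨c, ?_⟩
  rw [← hg, hc, CategoryTheory.Functor.map_smul, CategoryTheory.Functor.map_id]

section pq

variable {E V : C} {ι : Type} [Fintype ι] {deg : ι → ℤ} (e : V ≅ ⨁ fun i => E⟦deg i⟧)

private def KronR_p (d : ℤ) (i : ι) : V ⟶ E⟦d⟧ :=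
  if h : deg i = d then e.hom ≫ biproduct.π (fun i => E⟦deg i⟧) i ≫ eqToHom (by rw [h]) else 0

private def KronR_q (d : ℤ) (i : ι) : E⟦d⟧ ⟶ V :=
  if h : deg i = d then eqToHom (by rw [h]) ≫ biproduct.ι (fun i => E⟦deg i⟧) i ≫ e.inv else 0

private theorem KronR_pq_of_ne {d : ℤ} {i : ι} (h : deg i ≠ d) :
    KronR_p e d i ≫ KronR_q e d i = 0 := by
  unfold KronR_p
  rw [dif_neg h, zero_comp]

private theorem KronR_pq_eq (i : ι) :
    KronR_p e (deg i) i ≫ KronR_q e (deg i) i =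
      e.hom ≫ (biproduct.π (fun i => E⟦deg i⟧) i ≫ biproduct.ι (fun i => E⟦deg i⟧) i) ≫ e.inv := by
  unfold KronR_p KronR_q
  rw [dif_pos rfl, dif_pos rfl]
  simp

private theorem KronR_total :
    ∑ d ∈ Finset.univ.image deg, ∑ i, KronR_p e d i ≫ KronR_q e d i = 𝟙 V := by
  classical
  rw [Finset.sum_comm]
  have h1 : ∀ i, ∑ d ∈ Finset.univ.image deg, KronR_p e d i ≫ KronR_q e d i =
      e.hom ≫ (biproduct.π (fun i => E⟦deg i⟧) i ≫ biproduct.ι (fun i => E⟦deg i⟧) i) ≫ e.inv := by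
    intro i
    rw [Finset.sum_eq_single (deg i)]
    · exact KronR_pq_eq e i
    · intro d _ hd
      exact KronR_pq_of_ne e (Ne.symm hd)
    · intro h
      exact absurd (Finset.mem_image_of_mem _ (Finset.mem_univ i)) h
  rw [Finset.sum_congr rfl fun i _ => h1 i, ← Preadditive.comp_sum, ← Preadditive.sum_comp,
    biproduct.total]
  simp

private theorem KronR_w (hE : IsExceptional k E) {d : ℤ} (hd : d ∈ Finset.univ.image deg)
    (w : E⟦d⟧ ⟶ V) : ∑ i, w ≫ KronR_p e d i ≫ KronR_q e d i = w := by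
  classical
  have h1 : w = ∑ d' ∈ Finset.univ.image deg, ∑ i, w ≫ KronR_p e d' i ≫ KronR_q e d' i := by
    conv_lhs => rw [← Category.comp_id w, ← KronR_total e, Preadditive.comp_sum]
    refine Finset.sum_congr rfl fun d' _ => ?_
    rw [Preadditive.comp_sum]
  conv_rhs => rw [h1]
  rw [Finset.sum_eq_single d]
  · intro d' _ hd'
    refine Finset.sum_eq_zero fun i _ => ?_
    rw [← Category.assoc, KronR_zero k hE hd' (w ≫ KronR_p e d' i), zero_comp]
  · intro h; exact absurd hd h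

end pq

section phi

variable (Z E V : C) (n d : ℤ)

open TensorProduct

/-- Composition. -/
private def KronR_bil : (Z ⟶ (E⟦d⟧)⟦n⟧) →ₗ[k] (E⟦d⟧ ⟶ V) →ₗ[k] (Z ⟶ V⟦n⟧) :=
  LinearMap.mk₂ k (fun h w => h ≫ w⟦n⟧')
    (fun h h' w => Preadditive.add_comp _ _ _ _ _ _)
    (fun c h w => Linear.smul_comp _ _ _ _ _ _)
    (fun h w w' => by rw [Functor.map_add, Preadditive.comp_add])
    (fun c h w => by rw [CategoryTheory.Functor.map_smul, Linear.comp_smul])

private def KronR_phi : ((Z ⟶ (E⟦d⟧)⟦n⟧) ⊗[k] (E⟦d⟧ ⟶ V)) →ₗ[k] (Z ⟶ V⟦n⟧) :=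
  TensorProduct.lift (KronR_bil k Z E V n d)

private theorem KronR_phi_tmul (h : Z ⟶ (E⟦d⟧)⟦n⟧) (w : E⟦d⟧ ⟶ V) :
    KronR_phi k Z E V n d (h ⊗ₜ w) = h ≫ w⟦n⟧' := by
  unfold KronR_phi
  rw [TensorProduct.lift.tmul]
  rfl

end phi

section equiv

open TensorProduct

variable (Z : C) {E V : C} {ι : Type} [Fintype ι] {deg : ι → ℤ} (e : V ≅ ⨁ fun i => E⟦deg i⟧) (n : ℤ)

/-- The map into the product. -/
private def KronR_psi (d : ℤ) : (Z ⟶ V⟦n⟧) →ₗ[k] ((Z ⟶ (E⟦d⟧)⟦n⟧) ⊗[k] (E⟦d⟧ ⟶ V)) :=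
  ∑ i, ((TensorProduct.mk k (Z ⟶ (E⟦d⟧)⟦n⟧) (E⟦d⟧ ⟶ V)).flip (KronR_q e d i)).comp
    (Linear.rightComp k Z ((KronR_p e d i)⟦n⟧'))

private theorem KronR_psi_apply (d : ℤ) (x : Z ⟶ V⟦n⟧) :
    KronR_psi k Z e n d x = ∑ i, (x ≫ (KronR_p e d i)⟦n⟧') ⊗ₜ[k] KronR_q e d i := by
  unfold KronR_psi
  rw [LinearMap.sum_apply]
  rfl

/-- The isomorphism. -/
private def KronR_equiv (hE : IsExceptional k E) :
    (∀ d : {d // d ∈ Finset.univ.image deg}, (Z ⟶ (E⟦d.1⟧)⟦n⟧) ⊗[k] (E⟦d.1⟧ ⟶ V)) ≃ₗ[k]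
      (Z ⟶ V⟦n⟧) :=
  LinearEquiv.ofLinearMap
    (∑ d : {d // d ∈ Finset.univ.image deg}, (KronR_phi k Z E V n d.1).comp (LinearMap.proj d))
    (LinearMap.pi fun d => KronR_psi k Z e n d.1)
    (by
      ext x
      rw [LinearMap.comp_apply, LinearMap.sum_apply, LinearMap.id_apply]
      have h1 : ∀ d : {d // d ∈ Finset.univ.image deg},
          ((KronR_phi k Z E V n d.1).comp (LinearMap.proj d))
            ((LinearMap.pi fun d : {d // d ∈ Finset.univ.image deg} => KronR_psi k Z e n d.1) x) =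
          ∑ i, x ≫ (KronR_p e d.1 i ≫ KronR_q e d.1 i)⟦n⟧' := by
        intro d
        rw [LinearMap.comp_apply, LinearMap.proj_apply, LinearMap.pi_apply, KronR_psi_apply,
          map_sum]
        refine Finset.sum_congr rfl fun i _ => ?_
        rw [KronR_phi_tmul, Functor.map_comp, Category.assoc]
      rw [Finset.sum_congr rfl fun d _ => h1 d]
      rw [Finset.sum_coe_sort (Finset.univ.image deg)
        (fun d => ∑ i, x ≫ (KronR_p e d i ≫ KronR_q e d i)⟦n⟧')]
      have h2 : ∀ d, ∑ i, x ≫ (KronR_p e d i ≫ KronR_q e d i)⟦n⟧' =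
          x ≫ (∑ i, (KronR_p e d i ≫ KronR_q e d i))⟦n⟧' := by
        intro d
        rw [Functor.map_sum, Preadditive.comp_sum]
      rw [Finset.sum_congr rfl fun d _ => h2 d, ← Preadditive.comp_sum, ← Functor.map_sum,
        KronR_total, CategoryTheory.Functor.map_id, Category.comp_id])
    (by
      classical
      apply LinearMap.pi_ext'
      intro d
      apply TensorProduct.ext'
      intro h w
      ext d'
      simp only [LinearMap.comp_apply, LinearMap.id_apply, LinearMap.pi_apply, LinearMap.sum_apply,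
        LinearMap.proj_apply, LinearMap.coe_single]
      rw [Finset.sum_eq_single d]
      · rw [Pi.single_eq_same, KronR_phi_tmul, KronR_psi_apply]
        by_cases hdd : d' = d
        · subst hdd
          rw [Pi.single_eq_same]
          choose c hc using fun i => KronR_scal k hE (w ≫ KronR_p e d'.1 i)
          have h3 : ∀ i, ((h ≫ w⟦n⟧') ≫ (KronR_p e d'.1 i)⟦n⟧') ⊗ₜ[k] KronR_q e d'.1 i =
              h ⊗ₜ[k] (c i • KronR_q e d'.1 i) := by
            intro i
            rw [Category.assoc, ← Functor.map_comp, hc i, CategoryTheory.Functor.map_smul,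
              CategoryTheory.Functor.map_id, Linear.comp_smul, Category.comp_id,
              TensorProduct.smul_tmul]
          rw [Finset.sum_congr rfl fun i _ => h3 i, ← TensorProduct.tmul_sum]
          congr 1
          conv_rhs => rw [← KronR_w k e hE d'.2 w]
          refine Finset.sum_congr rfl fun i _ => ?_
          rw [← Category.assoc, hc i, Linear.smul_comp, Category.id_comp]
        · rw [Pi.single_eq_of_ne hdd]
          refine Finset.sum_eq_zero fun i _ => ?_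
          have hne : d'.1 ≠ d.1 := fun h => hdd (Subtype.ext h)
          rw [Category.assoc, ← Functor.map_comp, KronR_zero k hE hne (w ≫ KronR_p e d'.1 i),
            Functor.map_zero, comp_zero, TensorProduct.zero_tmul]
      · intro d'' _ hne
        rw [Pi.single_eq_of_ne hne, map_zero]
      · intro hh; exact absurd (Finset.mem_univ d) hh)

end equiv


section act

open TensorProduct

/-- The automorphism of `Hom(E[d],V)`. -/
private def KronR_wact (E V : EqObj σ) (d : ℤ) :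
    ((E.shift d).X ⟶ V.X) ≃ₗ[k] ((E.shift d).X ⟶ V.X) where
  toFun x := (E.shift d).φ.hom ≫ σ.map x ≫ V.φ.inv
  invFun x := σ.preimage ((E.shift d).φ.inv ≫ x ≫ V.φ.hom)
  map_add' f g := by simp
  map_smul' c f := by simp
  left_inv f := by
    apply σ.map_injective
    simp
  right_inv f := by
    simp

private theorem KronR_equivariant (Z E V : EqObj σ) (n d : ℤ) (h : Z.X ⟶ (E.shift d).X⟦n⟧)
    (w : (E.shift d).X ⟶ V.X) :
    act k σ Z (E.shift d) n h ≫ (KronR_wact k E V d w)⟦n⟧' = act k σ Z V n (h ≫ w⟦n⟧') := by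
  have h1 : act k σ Z (E.shift d) n h = Z.φ.hom ≫ σ.map h ≫
      (σ.commShiftIso n).hom.app (E.shift d).X ≫ (E.shift d).φ.inv⟦n⟧' := rfl
  have h2 : KronR_wact k E V d w = (E.shift d).φ.hom ≫ σ.map w ≫ V.φ.inv := rfl
  have h3 : act k σ Z V n (h ≫ w⟦n⟧') = Z.φ.hom ≫ σ.map (h ≫ w⟦n⟧') ≫
      (σ.commShiftIso n).hom.app V.X ≫ V.φ.inv⟦n⟧' := rfl
  rw [h1, h2, h3]
  simp only [Functor.map_comp, Category.assoc]
  rw [← Functor.map_comp_assoc (shiftFunctor C n) (E.shift d).φ.inv (E.shift d).φ.hom,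
    Iso.inv_hom_id, CategoryTheory.Functor.map_id, Category.id_comp]
  rw [Functor.commShiftIso_hom_naturality_assoc]

private theorem KronR_fin (E V : C) (hfin : ∀ A B : C, ExtFin k A B) : Module.Finite k (E ⟶ V) := by
  have := (hfin E V).1 0
  refine Module.Finite.of_surjective (Linear.rightComp k E ((shiftFunctorZero C ℤ).hom.app V)) ?_
  intro y
  refine ⟨y ≫ (shiftFunctorZero C ℤ).inv.app V, ?_⟩
  simp

private theorem KronR_level (E V Z : EqObj σ) (hE : IsExceptional k E.X)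
    (hfin : ∀ A B : C, ExtFin k A B) {ι : Type} [Fintype ι] {deg : ι → ℤ}
    (e : V.X ≅ ⨁ fun i => E.X⟦deg i⟧) (n : ℤ) :
    kcls (act k σ Z V n) = ∑ d : {d // d ∈ Finset.univ.image deg},
      kmul (kcls (act k σ Z (E.shift d.1) n)) (kcls (KronR_wact k E V d.1)) := by
  classical
  have hF1 : ∀ d : {d // d ∈ Finset.univ.image deg}, Module.Finite k (Z.X ⟶ (E.X⟦d.1⟧)⟦n⟧) :=
    fun d => (hfin _ _).1 n
  have hF2 : ∀ d : {d // d ∈ Finset.univ.image deg}, Module.Finite k (E.X⟦d.1⟧ ⟶ V.X) :=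
    fun d => KronR_fin k _ _ hfin
  let B : ∀ d : {d // d ∈ Finset.univ.image deg},
      ((Z.X ⟶ (E.X⟦d.1⟧)⟦n⟧) ⊗[k] (E.X⟦d.1⟧ ⟶ V.X)) ≃ₗ[k]
      ((Z.X ⟶ (E.X⟦d.1⟧)⟦n⟧) ⊗[k] (E.X⟦d.1⟧ ⟶ V.X)) := fun d =>
    TensorProduct.congr (act k σ Z (E.shift d.1) n) (KronR_wact k E V d.1)
  have h1 : ∀ d, kcls (B d) =
      kmul (kcls (act k σ Z (E.shift d.1) n)) (kcls (KronR_wact k E V d.1)) := fun d =>
    @KronR_tensor k _ (Z.X ⟶ (E.X⟦d.1⟧)⟦n⟧) (E.X⟦d.1⟧ ⟶ V.X) _ _ (hF1 d) _ _ (hF2 d)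
      (act k σ Z (E.shift d.1) n) (KronR_wact k E V d.1)
  rw [← Finset.sum_congr rfl fun d _ => h1 d, ← KronR_pi B]
  symm
  refine kcls_conj _ _ (KronR_equiv k Z.X e n hE) ?_
  intro x
  have hx : (KronR_equiv k Z.X e n hE).toLinearMap ∘ₗ (LinearEquiv.piCongrRight B).toLinearMap =
      (act k σ Z V n).toLinearMap ∘ₗ (KronR_equiv k Z.X e n hE).toLinearMap := by
    apply LinearMap.pi_ext'
    intro d
    apply TensorProduct.ext'
    intro h w
    have hs : ∀ t : (Z.X ⟶ (E.X⟦d.1⟧)⟦n⟧) ⊗[k] (E.X⟦d.1⟧ ⟶ V.X),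
        KronR_equiv k Z.X e n hE (Pi.single d t) = KronR_phi k Z.X E.X V.X n d.1 t := by
      intro t
      show (∑ d : {d // d ∈ Finset.univ.image deg},
        (KronR_phi k Z.X E.X V.X n d.1).comp (LinearMap.proj d)) (Pi.single d t) = _
      rw [LinearMap.sum_apply, Finset.sum_eq_single d]
      · simp
      · intro d' _ hne
        rw [LinearMap.comp_apply, LinearMap.proj_apply, Pi.single_eq_of_ne hne, map_zero]
      · intro hh; exact absurd (Finset.mem_univ d) hh
    have hB : LinearEquiv.piCongrRight B (Pi.single d (h ⊗ₜ[k] w)) =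
        Pi.single d (act k σ Z (E.shift d.1) n h ⊗ₜ[k] KronR_wact k E V d.1 w) := by
      ext d'
      by_cases hdd : d' = d
      · subst hdd
        rw [LinearEquiv.piCongrRight_apply, Pi.single_eq_same, Pi.single_eq_same]
        rfl
      · rw [LinearEquiv.piCongrRight_apply, Pi.single_eq_of_ne hdd, Pi.single_eq_of_ne hdd,
          map_zero]
    show KronR_equiv k Z.X e n hE (LinearEquiv.piCongrRight B (Pi.single d (h ⊗ₜ[k] w))) =
      act k σ Z V n (KronR_equiv k Z.X e n hE (Pi.single d (h ⊗ₜ[k] w)))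
    rw [hB, hs, hs]
    have e1 := KronR_phi_tmul k Z.X E.X V.X n d.1 (act k σ Z (E.shift d.1) n h)
      (KronR_wact k E V d.1 w)
    have e2 := KronR_phi_tmul k Z.X E.X V.X n d.1 h w
    exact e1.trans ((KronR_equivariant k Z E V n d.1 h w).trans
      (congrArg (act k σ Z V n) e2.symm))
  exact LinearMap.congr_fun hx x

private theorem KronR_chi (E V Z : EqObj σ) (hE : IsExceptional k E.X)
    (hfin : ∀ A B : C, ExtFin k A B) {ι : Type} [Fintype ι] {deg : ι → ℤ}
    (e : V.X ≅ ⨁ fun i => E.X⟦deg i⟧) :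
    chi k σ Z V = kmul (chi k σ Z E) (∑ d : {d // d ∈ Finset.univ.image deg},
      d.1.negOnePow • kcls (KronR_wact k E V d.1)) := by
  have h1 : ∀ n : ℤ, n.negOnePow • kcls (act k σ Z V n) =
      ∑ d : {d // d ∈ Finset.univ.image deg},
        KronR_mulHom (kcls (KronR_wact k E V d.1))
          (n.negOnePow • kcls (act k σ Z (E.shift d.1) n)) := by
    intro n
    rw [KronR_level k E V Z hE hfin e n, KronR_usum]
    refine Finset.sum_congr rfl fun d _ => ?_
    exact (KronR_smul _ _ _).symm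
  have hs : ∀ d : ℤ, Function.HasFiniteSupport
      (fun n : ℤ => n.negOnePow • kcls (act k σ Z (E.shift d) n)) := by
    intro d
    refine ((hfin Z.X (E.shift d).X).2).subset ?_
    intro n hn
    by_contra hnt
    have : Subsingleton (Z.X ⟶ (E.shift d).X⟦n⟧) := not_nontrivial_iff_subsingleton.mp hnt
    apply hn
    show n.negOnePow • kcls (act k σ Z (E.shift d) n) = 0
    rw [kcls_of_subsingleton, smul_zero]
  unfold chi
  rw [finsum_congr h1, finsum_sum_comm]
  · rw [KronR_sum_right]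
    refine Finset.sum_congr rfl fun d _ => ?_
    rw [← (KronR_mulHom (kcls (KronR_wact k E V d.1))).map_finsum (hs d.1)]
    have h2 := chi_shift_right k Z E d.1
    unfold chi at h2
    rw [h2, KronR_smul']
    exact KronR_smul _ _ _
  · intro d _
    refine (hs d.1).subset ?_
    intro n hn hz
    apply hn
    show KronR_mulHom (kcls (KronR_wact k E V d.1))
          (n.negOnePow • kcls (act k σ Z (E.shift d.1) n)) = 0
    have hz' : n.negOnePow • kcls (act k σ Z (E.shift d.1) n) = 0 := hz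
    rw [hz', map_zero]

end act

/-- Kronecker formula, right.

PROOF. As `chi_kron_left` (see KronL.lean): `Hom(Z,V[n]) ≃ ⨁ p, Hom(Z,E[p][n]) ⊗ W p` with `W p = Hom(E[p],V)`,
`[W p]` = class of `Hom(E,V[-p])`, `[Hom(Z,E[p][n])]` = class of `Hom(Z,E[n+p])`. -/
theorem chi_kron_right (E V Z : EqObj σ) (hE : IsExceptional k E.X) (hV : IsSumOfShifts E.X V.X)
    (hfin : ∀ A B : C, ExtFin k A B) :
    chi k σ Z V = kmul (chi k σ Z E) (chi k σ E V) := by
  obtain ⟨ι, _, deg, ⟨e⟩⟩ := hV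
  rw [KronR_chi k E V Z hE hfin e, KronR_chi k E V E hE hfin e, chi_self k E hE, KronR_one]

end BO
end
end

section

end

section

/-!
# TASK LiftC
-/

set_option autoImplicit false

noncomputable section

open CategoryTheory CategoryTheory.Limits CategoryTheory.Pretriangulated

namespace BO

universe w v u

variable (k : Type w) [Field k] {C : Type u} [Category.{v} C] [Preadditive C] [Linear k C]
  [HasZeroObject C] [HasShift C ℤ] [∀ n : ℤ, (shiftFunctor C n).Additive]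
  [∀ n : ℤ, Functor.Linear k (shiftFunctor C n)] [Pretriangulated C]
  {σ : C ⥤ C} [σ.CommShift ℤ] [σ.Additive] [σ.Linear k] [σ.Full] [σ.Faithful]

omit [Linear k C] [∀ n : ℤ, Functor.Linear k (shiftFunctor C n)] [σ.Linear k] [σ.Full]
  [σ.Faithful] in
theorem LiftC_sum (E : EqObj σ) {V : C} (hV : IsSumOfShifts E.X V) :
    IsSumOfShifts E.X (σ.obj V) := by
  obtain ⟨ι, _, deg, ⟨e⟩⟩ := hV
  exact ⟨ι, inferInstance, deg, ⟨σ.mapIso e ≪≫ σ.mapBiproduct _ ≪≫
    biproduct.mapIso fun i => (E.shift (deg i)).φ.symm⟩⟩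

omit [Linear k C] [∀ n : ℤ, Functor.Linear k (shiftFunctor C n)] in
theorem LiftC_bij {E V F U : C} (v : V ⟶ F)
    (hb : ∀ n : ℤ, Function.Bijective fun x : E⟦n⟧ ⟶ V => x ≫ v) (hU : IsSumOfShifts E U) :
    Function.Bijective fun x : U ⟶ V => x ≫ v := by
  obtain ⟨ι, _, deg, ⟨e⟩⟩ := hU
  constructor
  · intro x y hxy
    have h1 : e.inv ≫ x = e.inv ≫ y := by
      apply biproduct.hom_ext'
      intro i
      apply (hb (deg i)).1
      change (biproduct.ι _ i ≫ e.inv ≫ x) ≫ v = (biproduct.ι _ i ≫ e.inv ≫ y) ≫ v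
      have h2 : x ≫ v = y ≫ v := hxy
      simp only [Category.assoc, h2]
    exact (cancel_epi e.inv).1 h1
  · intro z
    choose w hw using fun i => (hb (deg i)).2 (biproduct.ι (fun i => E⟦deg i⟧) i ≫ e.inv ≫ z)
    refine ⟨e.hom ≫ biproduct.desc w, ?_⟩
    change (e.hom ≫ biproduct.desc w) ≫ v = z
    have h1 : biproduct.desc w ≫ v = e.inv ≫ z := by
      apply biproduct.hom_ext'
      intro i
      rw [biproduct.ι_desc_assoc]
      exact hw i
    rw [Category.assoc, h1, Iso.hom_inv_id_assoc]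

omit [Linear k C] [∀ n : ℤ, Functor.Linear k (shiftFunctor C n)] in
theorem LiftC_cobij {E V G U : C} (a : G ⟶ V)
    (hb : ∀ n : ℤ, Function.Bijective fun x : V ⟶ E⟦n⟧ => a ≫ x) (hU : IsSumOfShifts E U) :
    Function.Bijective fun x : V ⟶ U => a ≫ x := by
  obtain ⟨ι, _, deg, ⟨e⟩⟩ := hU
  constructor
  · intro x y hxy
    have h1 : x ≫ e.hom = y ≫ e.hom := by
      apply biproduct.hom_ext
      intro i
      apply (hb (deg i)).1
      change a ≫ ((x ≫ e.hom) ≫ biproduct.π _ i) = a ≫ ((y ≫ e.hom) ≫ biproduct.π _ i)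
      have h2 : a ≫ x = a ≫ y := hxy
      simp only [← Category.assoc, h2]
    exact (cancel_mono e.hom).1 h1
  · intro z
    choose w hw using fun i => (hb (deg i)).2 (z ≫ e.hom ≫ biproduct.π (fun i => E⟦deg i⟧) i)
    refine ⟨biproduct.lift w ≫ e.inv, ?_⟩
    change a ≫ biproduct.lift w ≫ e.inv = z
    have h1 : a ≫ biproduct.lift w = z ≫ e.hom := by
      apply biproduct.hom_ext
      intro i
      rw [Category.assoc, biproduct.lift_π, Category.assoc]
      exact hw i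
    rw [reassoc_of% h1, Iso.hom_inv_id, Category.comp_id]

omit [Linear k C] [∀ n : ℤ, Functor.Linear k (shiftFunctor C n)] [σ.Additive] [σ.Linear k] in
theorem LiftC_map (E : EqObj σ) {V F : C} (v : V ⟶ F)
    (hb : ∀ n : ℤ, Function.Bijective fun x : E.X⟦n⟧ ⟶ V => x ≫ v) (n : ℤ) :
    Function.Bijective fun x : E.X⟦n⟧ ⟶ σ.obj V => x ≫ σ.map v := by
  obtain ⟨φ⟩ : Nonempty (E.X⟦n⟧ ≅ σ.obj (E.X⟦n⟧)) := ⟨(E.shift n).φ⟩
  constructor
  · intro x y hxy
    have h2 : x ≫ σ.map v = y ≫ σ.map v := hxy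
    have h3 : σ.preimage (φ.inv ≫ x) = σ.preimage (φ.inv ≫ y) := by
      apply (hb n).1
      change σ.preimage (φ.inv ≫ x) ≫ v = σ.preimage (φ.inv ≫ y) ≫ v
      apply σ.map_injective
      simp only [Functor.map_comp, Functor.map_preimage, Category.assoc, h2]
    have h4 := congrArg (fun z => σ.map z) h3
    simp only [Functor.map_preimage] at h4
    exact (cancel_epi φ.inv).1 h4
  · intro z
    obtain ⟨w, hw⟩ := (hb n).2 (σ.preimage (φ.inv ≫ z))
    refine ⟨φ.hom ≫ σ.map w, ?_⟩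
    change (φ.hom ≫ σ.map w) ≫ σ.map v = z
    have h1 : w ≫ v = σ.preimage (φ.inv ≫ z) := hw
    rw [Category.assoc, ← Functor.map_comp, h1, Functor.map_preimage, Iso.hom_inv_id_assoc]

omit [Linear k C] [∀ n : ℤ, Functor.Linear k (shiftFunctor C n)] [σ.Additive] [σ.Linear k] in
theorem LiftC_comap (E : EqObj σ) {V G : C} (a : G ⟶ V)
    (hb : ∀ n : ℤ, Function.Bijective fun x : V ⟶ E.X⟦n⟧ => a ≫ x) (n : ℤ) :
    Function.Bijective fun x : σ.obj V ⟶ E.X⟦n⟧ => σ.map a ≫ x := by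
  obtain ⟨φ⟩ : Nonempty (E.X⟦n⟧ ≅ σ.obj (E.X⟦n⟧)) := ⟨(E.shift n).φ⟩
  constructor
  · intro x y hxy
    have h2 : σ.map a ≫ x = σ.map a ≫ y := hxy
    have h3 : σ.preimage (x ≫ φ.hom) = σ.preimage (y ≫ φ.hom) := by
      apply (hb n).1
      change a ≫ σ.preimage (x ≫ φ.hom) = a ≫ σ.preimage (y ≫ φ.hom)
      apply σ.map_injective
      simp only [Functor.map_comp, Functor.map_preimage, reassoc_of% h2]
    have h4 := congrArg (fun z => σ.map z) h3
    simp only [Functor.map_preimage] at h4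
    exact (cancel_mono φ.hom).1 h4
  · intro z
    obtain ⟨w, hw⟩ := (hb n).2 (σ.preimage (z ≫ φ.hom))
    refine ⟨σ.map w ≫ φ.inv, ?_⟩
    change σ.map a ≫ σ.map w ≫ φ.inv = z
    have h1 : a ≫ w = σ.preimage (z ≫ φ.hom) := hw
    rw [← Functor.map_comp_assoc, h1, Functor.map_preimage, Category.assoc, Iso.hom_inv_id,
      Category.comp_id]

/-- A morphism `v : V ⟶ F` from a sum of shifts of `E` which is universal for `Hom(E[n], -)`:
the `σ`-structure of `F` lifts to `V`.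

PROOF. `σ.map v : σV ⟶ σF` is also universal for `Hom(E[n],-)` (`E[n] ≅ σ(E)[n] ≅ σ(E[n])`, `σ` fully faithful). `V` and `σV`
are sums of shifts of `E`, so for `U = V, σV` composition with `v` (with `σ.map v`) is a bijection `Hom(U,V) → Hom(U,F)`
(`Hom(U,σV) → Hom(U,σF)`). So `v ≫ F.φ.hom` lifts to `φ : V ⟶ σV` and `σ.map v ≫ F.φ.inv` lifts to `ψ : σV ⟶ V`; uniqueness of
lifts gives `φ ≫ ψ = 𝟙`, `ψ ≫ φ = 𝟙`. -/
theorem exists_structure_of_cover (E F : EqObj σ) (V : C) (hV : IsSumOfShifts E.X V)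
    (v : V ⟶ F.X)
    (hb : ∀ n : ℤ, Function.Bijective fun x : E.X⟦n⟧ ⟶ V => x ≫ v) :
    ∃ φ : V ≅ σ.obj V, v ≫ F.φ.hom = φ.hom ≫ σ.map v := by
  have hσV := LiftC_sum E hV
  have b1 := LiftC_bij v hb hV
  have b2 := LiftC_bij v hb hσV
  have b3 := LiftC_bij (σ.map v) (LiftC_map E v hb) hV
  have b4 := LiftC_bij (σ.map v) (LiftC_map E v hb) hσV
  obtain ⟨φ, hφ⟩ := b3.2 (v ≫ F.φ.hom)
  obtain ⟨ψ, hψ⟩ := b2.2 (σ.map v ≫ F.φ.inv)
  have hφ' : φ ≫ σ.map v = v ≫ F.φ.hom := hφ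
  have hψ' : ψ ≫ v = σ.map v ≫ F.φ.inv := hψ
  refine ⟨⟨φ, ψ, b1.1 ?_, b4.1 ?_⟩, hφ'.symm⟩
  · change (φ ≫ ψ) ≫ v = 𝟙 V ≫ v
    rw [Category.assoc, hψ', reassoc_of% hφ', Iso.hom_inv_id, Category.comp_id, Category.id_comp]
  · change (ψ ≫ φ) ≫ σ.map v = 𝟙 (σ.obj V) ≫ σ.map v
    rw [Category.assoc, hφ', reassoc_of% hψ', Iso.inv_hom_id, Category.comp_id, Category.id_comp]

/-- Dual statement: `Hom(V,U) → Hom(G,U)` is bijective for `U = V, σV` (for `σV` use `Hom(V,σV)`, `V` a sum of shifts and the target a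
finite sum of shifts of `E`). -/
theorem exists_structure_of_cocover (E G : EqObj σ) (V : C) (hV : IsSumOfShifts E.X V)
    (a : G.X ⟶ V)
    (hb : ∀ n : ℤ, Function.Bijective fun x : V ⟶ E.X⟦n⟧ => a ≫ x) :
    ∃ φ : V ≅ σ.obj V, a ≫ φ.hom = G.φ.hom ≫ σ.map a := by
  have hσV := LiftC_sum E hV
  have b1 := LiftC_cobij a hb hV
  have b2 := LiftC_cobij a hb hσV
  have b3 := LiftC_cobij (σ.map a) (LiftC_comap E a hb) hV
  have b4 := LiftC_cobij (σ.map a) (LiftC_comap E a hb) hσV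
  obtain ⟨φ, hφ⟩ := b2.2 (G.φ.hom ≫ σ.map a)
  obtain ⟨ψ, hψ⟩ := b3.2 (G.φ.inv ≫ a)
  have hφ' : a ≫ φ = G.φ.hom ≫ σ.map a := hφ
  have hψ' : σ.map a ≫ ψ = G.φ.inv ≫ a := hψ
  refine ⟨⟨φ, ψ, b1.1 ?_, b4.1 ?_⟩, hφ'⟩
  · change a ≫ φ ≫ ψ = a ≫ 𝟙 V
    rw [reassoc_of% hφ', hψ', Iso.hom_inv_id_assoc, Category.comp_id]
  · change σ.map a ≫ ψ ≫ φ = σ.map a ≫ 𝟙 (σ.obj V)
    rw [reassoc_of% hψ', hφ', Iso.inv_hom_id_assoc, Category.comp_id]

end BO
end
end
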