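import Mathlib
import Pool.Agent.Lib.MP_bd3808_ag.Mg.G001

section

/-!
# MP_bd3808_ag, campaign BR: the functor on `D^b(A)` induced by an exact equivalence of `A`
-/

set_option autoImplicit false

noncomputable section

open CategoryTheory CategoryTheory.Limits CategoryTheory.Pretriangulated

namespace MPbd3808.BR

universe w v u

section

variable {A : Type u} [Category.{v} A] [Abelian A]

theorem mapHC_isEquivalence (F : A ⥤ A) [F.Additive] [F.IsEquivalence] :
    (F.mapHomologicalComplex (ComplexShape.up ℤ)).IsEquivalence :=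
  (F.asEquivalence.mapHomologicalComplex (ComplexShape.up ℤ)).isEquivalence_functor

end

variable {A : Type u} [Category.{v} A] [Abelian A] [HasDerivedCategory.{w} A]

/-- The bounded derived category of `A`. -/
abbrev Db (A : Type u) [Category.{v} A] [Abelian A] [HasDerivedCategory.{w} A] :=
  (DerivedCategory.TStructure.t (C := A)).bounded.FullSubcategory

variable (F : A ⥤ A) [F.Additive] [PreservesFiniteLimits F] [PreservesFiniteColimits F]

instance mapDerivedCategory_isEquivalence [F.IsEquivalence] :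
    F.mapDerivedCategory.IsEquivalence := by
  have h1 : (F.mapHomologicalComplexUpToQuasiIsoLocalizerMorphism
      (ComplexShape.up ℤ)).functor.IsEquivalence := mapHC_isEquivalence F
  have h1' : (F.mapHomologicalComplex (ComplexShape.up ℤ)).IsEquivalence := mapHC_isEquivalence F
  have h2 : (F.mapHomologicalComplexUpToQuasiIsoLocalizerMorphism
      (ComplexShape.up ℤ)).IsLocalizedEquivalence := by
    apply LocalizerMorphism.IsLocalizedEquivalence.of_equivalence
    intro K L f hf
    let G := F.mapHomologicalComplex (ComplexShape.up ℤ)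
    let eK := G.objObjPreimageIso K
    let eL := G.objObjPreimageIso L
    let f' : G.objPreimage K ⟶ G.objPreimage L := G.preimage (eK.hom ≫ f ≫ eL.inv)
    have hf' : G.map f' = eK.hom ≫ f ≫ eL.inv := G.map_preimage _
    have hc : eK.hom ≫ f = G.map f' ≫ eL.hom := by rw [hf']; simp
    refine ⟨_, _, f', ?_, ⟨Arrow.isoMk eK eL hc⟩⟩
    have hq : QuasiIso (G.map f') := by
      rw [hf']
      have : QuasiIso f := hf
      infer_instance
    exact (HomologicalComplex.quasiIso_map_iff_of_preservesHomology f' F).1 hq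
  have : CatCommSq (F.mapHomologicalComplexUpToQuasiIsoLocalizerMorphism
      (ComplexShape.up ℤ)).functor DerivedCategory.Q DerivedCategory.Q F.mapDerivedCategory :=
    ⟨F.mapDerivedCategoryFactors.symm⟩
  exact LocalizerMorphism.isEquivalence (F.mapHomologicalComplexUpToQuasiIsoLocalizerMorphism
      (ComplexShape.up ℤ)) DerivedCategory.Q DerivedCategory.Q F.mapDerivedCategory

open DerivedCategory DerivedCategory.TStructure

theorem isBounded_of_iso {X Y : DerivedCategory A} (e : X ≅ Y)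
    (hX : (t (C := A)).bounded X) : (t (C := A)).bounded Y :=
  (t (C := A)).bounded.prop_of_iso e hX

theorem bounded_mapDerivedCategory (X : DerivedCategory A) (hX : (t (C := A)).bounded X) :
    (t (C := A)).bounded (F.mapDerivedCategory.obj X) := by
  obtain ⟨⟨a, ha⟩, ⟨b, hb⟩⟩ := hX
  have ha' : X.IsGE a := ha
  have hb' : X.IsLE b := hb
  obtain ⟨K, hK, hK', ⟨e⟩⟩ := exists_iso_Q_obj_of_isGE_of_isLE X a b
  let e' : F.mapDerivedCategory.obj X ≅ Q.obj ((F.mapHomologicalComplex _).obj K) :=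
    F.mapDerivedCategory.mapIso e ≪≫ F.mapDerivedCategoryFactors.app K
  refine isBounded_of_iso e'.symm ⟨⟨a, ?_⟩, ⟨b, ?_⟩⟩
  · have h : CochainComplex.IsStrictlyGE ((F.mapHomologicalComplex (ComplexShape.up ℤ)).obj K) a := by
      rw [CochainComplex.isStrictlyGE_iff]
      intro i hi
      exact F.map_isZero (K.isZero_of_isStrictlyGE a i hi)
    have h2 := (isGE_Q_obj_iff ((F.mapHomologicalComplex (ComplexShape.up ℤ)).obj K) a).2
      inferInstance
    exact h2
  · have h : CochainComplex.IsStrictlyLE ((F.mapHomologicalComplex (ComplexShape.up ℤ)).obj K) b := by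
      rw [CochainComplex.isStrictlyLE_iff]
      intro i hi
      exact F.map_isZero (K.isZero_of_isStrictlyLE b i hi)
    have h2 := (isLE_Q_obj_iff ((F.mapHomologicalComplex (ComplexShape.up ℤ)).obj K) b).2
      inferInstance
    exact h2

/-- The functor induced on the bounded derived category. -/
def dbMap : Db A ⥤ Db A :=
  ObjectProperty.lift _ ((t (C := A)).bounded.ι ⋙ F.mapDerivedCategory)
    (fun X => bounded_mapDerivedCategory F X.1 X.2)

instance : (dbMap F).CommShift ℤ := inferInstanceAs ((ObjectProperty.lift _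
  ((t (C := A)).bounded.ι ⋙ F.mapDerivedCategory)
    (fun X => bounded_mapDerivedCategory F X.1 X.2)).CommShift ℤ)
instance : (dbMap F).Additive := by unfold dbMap; infer_instance
instance : (dbMap F).IsTriangulated := inferInstanceAs ((ObjectProperty.lift _
  ((t (C := A)).bounded.ι ⋙ F.mapDerivedCategory)
    (fun X => bounded_mapDerivedCategory F X.1 X.2)).IsTriangulated)
instance [F.IsEquivalence] : (dbMap F).Full := by unfold dbMap; infer_instance
instance [F.IsEquivalence] : (dbMap F).Faithful := by unfold dbMap; infer_instance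
instance (k : Type*) [Ring k] [Linear k A] [F.Linear k] : (dbMap F).Linear k where
  map_smul {X Y} f r := by
    apply (t (C := A)).bounded.ι.map_injective
    have h := F.mapDerivedCategory.map_smul r ((t (C := A)).bounded.ι.map f)
    exact h

end MPbd3808.BR
end
end

section

/-!
# MP_bd3808_ag, campaign BR: quasi-coherent sheaves on the Fano fivefold `W`

`W ⊆ P^1 × F_1 × P^3` is the hypersurface `f = 0`.  Ten Cox variables
`s0 s1 | u0 u1 | la mu | z0 z1 z2 z3` (numbered `0..9`), four families.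
-/

open CategoryTheory CategoryTheory.Limits

namespace MPbd3808.BR

/-- The ten Cox variables `s0 s1 u0 u1 la mu z0 z1 z2 z3`. -/
abbrev Vr := Fin 10

/-- `Pic = ℤ^4`, coordinates `(s; f, H, h)`. -/
abbrev Deg := Fin 4 → ℤ

/-- degrees of the Cox variables -/
def dg : Vr → Deg :=
  ![![1,0,0,0], ![1,0,0,0], ![0,1,0,0], ![0,1,0,0], ![0,-1,1,0], ![0,0,1,0],
    ![0,0,0,1], ![0,0,0,1], ![0,0,0,1], ![0,0,0,1]]

/-- the four families of variables -/
def fam : Vr → Fin 4 := ![0,0,1,1,2,2,3,3,3,3]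

/-- exponents of Laurent monomials -/
abbrev Ex := Vr → ℤ

/-- degree of a Laurent monomial -/
def degE (e : Ex) : Deg := ∑ v, e v • dg v

lemma degE_zero : degE 0 = 0 := by simp [degE]

lemma degE_add (e e' : Ex) : degE (e + e') = degE e + degE e' := by
  simp [degE, add_smul, Finset.sum_add_distrib]

lemma degE_neg (e : Ex) : degE (-e) = -degE e := by
  simp [degE, neg_smul, Finset.sum_neg_distrib]

/-- full subsets of variables: they meet every family.  The open set of `W` where the variables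
in a full set do not vanish is affine. -/
def Full (σ : Finset Vr) : Prop := ∀ i : Fin 4, ∃ v ∈ σ, fam v = i

lemma Full.mono {σ τ : Finset Vr} (h : Full σ) (hst : σ ⊆ τ) : Full τ := fun i => by
  obtain ⟨v, hv, hi⟩ := h i
  exact ⟨v, hst hv, hi⟩

/-- objects of the index category: a chart and a degree -/
structure Ob where
  /-- the chart -/
  σ : Finset Vr
  full : Full σ
  /-- the twist -/
  a : Deg

/-- `x^e` is regular where the variables in `τ` are invertible -/
def Reg (τ : Finset Vr) (e : Ex) : Prop := ∀ v, v ∉ τ → 0 ≤ e v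

lemma Reg.mono {σ τ : Finset Vr} {e : Ex} (h : Reg σ e) (hst : σ ⊆ τ) : Reg τ e :=
  fun v hv => h v fun h' => hv (hst h')

lemma Reg.add {σ : Finset Vr} {e e' : Ex} (h : Reg σ e) (h' : Reg σ e') : Reg σ (e + e') :=
  fun v hv => add_nonneg (h v hv) (h' v hv)

lemma Reg.zero {σ : Finset Vr} : Reg σ 0 := fun _ _ => le_rfl

/-- morphisms `(σ,a) ⟶ (τ,b)`: Laurent monomials of degree `b - a`, regular on the chart `τ ⊇ σ` -/
@[ext] structure Mor (X Y : Ob) where
  /-- the exponent -/
  e : Ex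
  le : X.σ ⊆ Y.σ
  reg : Reg Y.σ e
  deg : degE e = Y.a - X.a

instance : Category Ob where
  Hom X Y := Mor X Y
  id X := ⟨0, Finset.Subset.refl _, Reg.zero, by simp [degE_zero]⟩
  comp {X Y Z} f g := ⟨f.e + g.e, f.le.trans g.le, (f.reg.mono g.le).add g.reg,
    by rw [degE_add, f.deg, g.deg]; abel⟩
  id_comp f := Mor.ext (zero_add f.e)
  comp_id f := Mor.ext (add_zero f.e)
  assoc f g h := Mor.ext (add_assoc f.e g.e h.e)

/-- the morphism given by a monomial -/
def mk {σ τ : Finset Vr} (hσ : Full σ) (hτ : Full τ) {a b : Deg} (hst : σ ⊆ τ) (e : Ex)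
    (hr : Reg τ e) (hd : degE e = b - a) : Ob.mk σ hσ a ⟶ Ob.mk τ hτ b :=
  Mor.mk e hst hr hd

/-- restriction to a smaller chart -/
def res {σ τ : Finset Vr} (hσ : Full σ) (hτ : Full τ) (hst : σ ⊆ τ) (a : Deg) :
    Ob.mk σ hσ a ⟶ Ob.mk τ hτ a :=
  mk hσ hτ hst 0 Reg.zero (by simp [degE_zero])

/-- multiplication by a monomial on one chart -/
def mul {σ : Finset Vr} (hσ : Full σ) {a b : Deg} (e : Ex) (hr : Reg σ e)
    (hd : degE e = b - a) : Ob.mk σ hσ a ⟶ Ob.mk σ hσ b :=
  mk hσ hσ (Finset.Subset.refl _) e hr hd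

@[simp] lemma id_e (X : Ob) : Mor.e (𝟙 X) = 0 := rfl
@[simp] lemma comp_e {X Y Z : Ob} (f : X ⟶ Y) (g : Y ⟶ Z) :
    Mor.e (f ≫ g) = Mor.e f + Mor.e g := rfl
@[simp] lemma mk_e {σ τ : Finset Vr} (hσ : Full σ) (hτ : Full τ) {a b : Deg} (hst : σ ⊆ τ)
    (e : Ex) (hr : Reg τ e) (hd : degE e = b - a) : Mor.e (mk hσ hτ hst e hr hd) = e := rfl
@[simp] lemma res_e {σ τ : Finset Vr} (hσ : Full σ) (hτ : Full τ) (hst : σ ⊆ τ) (a : Deg) :
    Mor.e (res hσ hτ hst a) = 0 := rfl
@[simp] lemma mul_e {σ : Finset Vr} (hσ : Full σ) {a b : Deg} (e : Ex) (hr : Reg σ e)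
    (hd : degE e = b - a) : Mor.e (mul hσ e hr hd) = e := rfl

@[ext] lemma hom_ext {X Y : Ob} {f g : X ⟶ Y} (h : Mor.e f = Mor.e g) : f = g := Mor.ext h

/-- the exponent of `(∏_{v ∈ τ} x_v)^N` -/
def pw (τ : Finset Vr) (N : ℕ) : Ex := fun v => if v ∈ τ then (N : ℤ) else 0

lemma reg_pw (σ τ : Finset Vr) (N : ℕ) : Reg σ (pw τ N) := fun v _ => by
  unfold pw; split_ifs <;> simp

lemma pw_add (τ : Finset Vr) (M N : ℕ) : pw τ (M + N) = pw τ M + pw τ N := by
  funext v; simp only [pw, Pi.add_apply]; split_ifs <;> push_cast <;> ring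

lemma pw_zero (τ : Finset Vr) : pw τ 0 = 0 := by
  funext v; simp [pw]

universe u
variable (k : Type u) [Field k]

/-- modules over the diagram of charts (of `P^1 × F_1 × P^3`), with all twists -/
abbrev FunCat := Ob ⥤ ModuleCat.{u} k

end MPbd3808.BR
end

section

/-!
# Quasi-coherent and coherent sheaves on `W`: definitions

A quasi-coherent sheaf `X` on `W` is given by its sections `X(σ,a) = Γ(W_σ, X ⊗ O(a))` over the
affine charts `W_σ = {x_v ≠ 0 for v ∈ σ}` (`σ` full) with all twists `a ∈ Pic = ℤ^4`.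
-/

open CategoryTheory CategoryTheory.Limits

namespace MPbd3808.BR

/-- the six monomials of
`f = s0 (la u1 z3 - la u0 z1 - mu z2) + s1 (la u0 z0 - mu z1 - la u1 z2)`
(`Cox variables s0 s1 u0 u1 la mu z0 z1 z2 z3`) -/
def fE : Fin 6 → Ex :=
  ![![1,0,0,1,1,0,0,0,0,1], ![1,0,1,0,1,0,0,1,0,0], ![1,0,0,0,0,1,0,0,1,0],
    ![0,1,1,0,1,0,1,0,0,0], ![0,1,0,0,0,1,0,1,0,0], ![0,1,0,1,1,0,0,0,1,0]]

/-- the coefficients of `f` -/
def fC : Fin 6 → ℤ := ![1,-1,-1,1,-1,-1]

/-- the degree of `f` -/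
def dF : Deg := ![1,0,1,1]

lemma degE_fE (i : Fin 6) : degE (fE i) = dF := by
  revert i; decide

lemma fE_nonneg : ∀ (i : Fin 6) (v : Vr), 0 ≤ fE i v := by decide

lemma reg_fE (σ : Finset Vr) (i : Fin 6) : Reg σ (fE i) := fun v _ => fE_nonneg i v

universe u
variable (k : Type u) [Field k]

/-- `f` acts as zero -/
def isFZero : ObjectProperty (FunCat k) := fun X =>
  ∀ (σ : Finset Vr) (hσ : Full σ) (a : Deg),
    ∑ i, fC i • X.map (mul hσ (b := a + dF) (fE i) (reg_fE σ i) (by rw [degE_fE]; abel) :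
      Ob.mk σ hσ a ⟶ Ob.mk σ hσ (a + dF)) = 0

/-- The restriction to a smaller chart is the localization: injectivity. -/
def LocInj (X : FunCat k) : Prop :=
  ∀ (σ τ : Finset Vr) (hσ : Full σ) (hτ : Full τ) (hst : σ ⊆ τ) (a : Deg)
    (x : X.obj (Ob.mk σ hσ a)), (X.map (res hσ hτ hst a)).hom x = 0 →
    ∃ N : ℕ, (X.map (mul hσ (b := a + degE (pw τ N)) (pw τ N) (reg_pw σ τ N) (by abel) :
      Ob.mk σ hσ a ⟶ _)).hom x = 0

/-- The restriction to a smaller chart is the localization: surjectivity. -/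
def LocSurj (X : FunCat k) : Prop :=
  ∀ (σ τ : Finset Vr) (hσ : Full σ) (hτ : Full τ) (hst : σ ⊆ τ) (a : Deg)
    (y : X.obj (Ob.mk τ hτ a)),
    ∃ (N : ℕ) (x : X.obj (Ob.mk σ hσ (a + degE (pw τ N)))),
      (X.map (res hσ hτ hst (a + degE (pw τ N)))).hom x =
        (X.map (mul hτ (b := a + degE (pw τ N)) (pw τ N) (reg_pw τ τ N) (by abel) :
          Ob.mk τ hτ a ⟶ _)).hom y

/-- quasi-coherent sheaves on the ambient toric variety `P^1 × F_1 × P^3` -/
def isLoc : ObjectProperty (FunCat k) := fun X => LocInj k X ∧ LocSurj k X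

/-- quasi-coherent sheaves on `W` -/
def isQC : ObjectProperty (FunCat k) := fun X => isFZero k X ∧ LocInj k X ∧ LocSurj k X

/-- On every chart the sheaf is generated by finitely many elements. -/
def isFG : ObjectProperty (FunCat k) := fun X =>
  ∀ (σ : Finset Vr) (hσ : Full σ), ∃ (n : ℕ) (d : Fin n → Deg)
    (g : ∀ i, X.obj (Ob.mk σ hσ (d i))), ∀ (a : Deg) (x : X.obj (Ob.mk σ hσ a)),
    x ∈ Submodule.span k {y | ∃ (i : Fin n) (m : Ob.mk σ hσ (d i) ⟶ Ob.mk σ hσ a),
      y = (X.map m).hom (g i)}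

/-- coherent sheaves on `W` -/
def isCoh : ObjectProperty (FunCat k) := fun X => isQC k X ∧ isFG k X

/-- The category of quasi-coherent sheaves on `W`. -/
abbrev QCohW := (isQC k).FullSubcategory

/-- The category of coherent sheaves on `W`. -/
abbrev CohW := (isCoh k).FullSubcategory

/-- The category of quasi-coherent sheaves on `P^1 × F_1 × P^3`. -/
abbrev QCohT := (isLoc k).FullSubcategory

lemma isCoh_le_isQC : isCoh k ≤ isQC k := fun _ h => h.1

lemma isQC_le_isLoc : isQC k ≤ isLoc k := fun _ h => h.2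

end MPbd3808.BR
end

section

/-!
# The Laurent polynomial ring and the sheaves `QQ G b`

`QQ G b` (σ,a) `= gr σ (a + b) / (∑_{(g,d) ∈ G} g • gr σ (a + b - d))`.
`PP b = QQ [] b` (structure sheaf of the toric variety), `OW b = QQ [f] b`, `OE b = QQ [D1, D0] b`.
-/

open CategoryTheory CategoryTheory.Limits

namespace MPbd3808.BR

universe u
variable (k : Type u) [Field k]

/-- Laurent polynomials in the ten Cox variables -/
abbrev A := AddMonoidAlgebra k Ex

variable {k} in
/-- the monomial `x^e` -/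
noncomputable abbrev mon (e : Ex) : A k := AddMonoidAlgebra.single e (1 : k)

/-- homogeneous Laurent polynomials of degree `c`, regular on the chart `σ` -/
def gr (σ : Finset Vr) (c : Deg) : Submodule k (A k) where
  carrier := {p | ∀ e, p.coeff e ≠ 0 → Reg σ e ∧ degE e = c}
  add_mem' {p q} hp hq e he := by
    by_cases h : p.coeff e = 0
    · refine hq e fun h' => he ?_
      simp [h, h']
    · exact hp e h
  zero_mem' e he := absurd (by simp) he
  smul_mem' c p hp e he := hp e fun h => he (by simp [h])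

lemma mem_gr {σ : Finset Vr} {c : Deg} {p : A k} :
    p ∈ gr k σ c ↔ ∀ e, p.coeff e ≠ 0 → Reg σ e ∧ degE e = c := Iff.rfl

lemma mon_mul_mem_gr {σ τ : Finset Vr} {c d : Deg} {p : A k} (hst : σ ⊆ τ)
    (hp : p ∈ gr k σ c) (e : Ex) (he : Reg τ e) (hd : degE e = d - c) :
    mon e * p ∈ gr k τ d := by
  intro e' h'
  rw [AddMonoidAlgebra.coeff_single_mul_apply, one_mul] at h'
  obtain ⟨h1, h2⟩ := hp _ h'
  have : e' = e + (-e + e') := by abel
  rw [this, degE_add, hd, h2]
  exact ⟨he.add (h1.mono hst), by abel⟩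

variable {k} in
/-- the homogeneous ideal generated by a list of homogeneous polynomials (with their degrees) -/
noncomputable def idl (G : List (A k × Deg)) (σ : Finset Vr) (c : Deg) : Submodule k (A k) :=
  match G with
  | [] => ⊥
  | g :: G => (gr k σ (c - g.2)).map (LinearMap.mulLeft k g.1) ⊔ idl G σ c

lemma mon_mul_mem_idl (G : List (A k × Deg)) {σ τ : Finset Vr} {c d : Deg} {p : A k}
    (hst : σ ⊆ τ) (hp : p ∈ idl G σ c) (e : Ex) (he : Reg τ e) (hd : degE e = d - c) :
    mon e * p ∈ idl G τ d := by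
  induction G generalizing p with
  | nil =>
    rw [show p = 0 from hp, mul_zero]
    exact Submodule.zero_mem _
  | cons g G ih =>
    obtain ⟨q, hq, r, hr, rfl⟩ := Submodule.mem_sup.1 hp
    obtain ⟨q', hq', rfl⟩ := hq
    rw [mul_add]
    refine Submodule.add_mem_sup ⟨mon e * q', ?_, ?_⟩ (ih hr)
    · exact mon_mul_mem_gr k hst hq' e he (by rw [hd]; abel)
    · simp only [LinearMap.mulLeft_apply]; ring

/-- the module of sections of `QQ G 0` over a chart in a degree -/
abbrev Qm (G : List (A k × Deg)) (σ : Finset Vr) (c : Deg) :=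
  (gr k σ c) ⧸ ((idl G σ c).comap (gr k σ c).subtype)

/-- multiplication by a monomial, `gr σ c → gr τ d` -/
noncomputable def mulGr {σ τ : Finset Vr} {c d : Deg} (hst : σ ⊆ τ) (e : Ex) (he : Reg τ e)
    (hd : degE e = d - c) : gr k σ c →ₗ[k] gr k τ d :=
  (LinearMap.mulLeft k (mon e)).restrict fun p hp => by
    simpa using mon_mul_mem_gr k hst hp e he hd

@[simp] lemma mulGr_coe {σ τ : Finset Vr} {c d : Deg} (hst : σ ⊆ τ) (e : Ex) (he : Reg τ e)
    (hd : degE e = d - c) (p : gr k σ c) :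
    (mulGr k hst e he hd p : A k) = mon e * (p : A k) := rfl

/-- multiplication by a monomial, `Qm G σ c → Qm G τ d` -/
noncomputable def mulQm (G : List (A k × Deg)) {σ τ : Finset Vr} {c d : Deg} (hst : σ ⊆ τ)
    (e : Ex) (he : Reg τ e) (hd : degE e = d - c) : Qm k G σ c →ₗ[k] Qm k G τ d :=
  Submodule.mapQ _ _ (mulGr k hst e he hd) fun _ hp => mon_mul_mem_idl k G hst hp e he hd

@[simp] lemma mulQm_mk (G : List (A k × Deg)) {σ τ : Finset Vr} {c d : Deg} (hst : σ ⊆ τ)
    (e : Ex) (he : Reg τ e) (hd : degE e = d - c) (p : gr k σ c) :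
    mulQm k G hst e he hd (Submodule.Quotient.mk p) = Submodule.Quotient.mk (mulGr k hst e he hd p) :=
  rfl

variable {k} in
/-- The sheaf `QQ G b`. -/
noncomputable def QQ (G : List (A k × Deg)) (b : Deg) : FunCat k where
  obj X := ModuleCat.of k (Qm k G X.σ (X.a + b))
  map {X Y} m := ModuleCat.ofHom (mulQm k G (Mor.le m) (Mor.e m) (Mor.reg m)
    (by rw [Mor.deg m]; abel))
  map_id X := by
    refine ModuleCat.hom_ext (LinearMap.ext fun x => ?_)
    obtain ⟨p, rfl⟩ := Submodule.Quotient.mk_surjective _ x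
    simp only [ModuleCat.hom_ofHom, ModuleCat.hom_id, LinearMap.id_coe, id_eq, mulQm_mk]
    congr 1
    ext1
    simp only [mulGr_coe, id_e, mon]
    rw [← AddMonoidAlgebra.one_def, one_mul]
  map_comp {X Y Z} f g := by
    refine ModuleCat.hom_ext (LinearMap.ext fun x => ?_)
    obtain ⟨p, rfl⟩ := Submodule.Quotient.mk_surjective _ x
    simp only [ModuleCat.hom_ofHom, ModuleCat.hom_comp, LinearMap.comp_apply, mulQm_mk]
    congr 1
    ext1
    simp only [mulGr_coe, comp_e, mon]
    rw [← mul_assoc, AddMonoidAlgebra.single_mul_single, one_mul, add_comm]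

/-- `f` -/
noncomputable def fP : A k := ∑ i, (fC i : k) • mon (fE i)

/-- the monomials of `D_0 = la u1 z3 - la u0 z1 - mu z2` -/
def eD0 : Fin 3 → Ex :=
  ![![0,0,0,1,1,0,0,0,0,1], ![0,0,1,0,1,0,0,1,0,0], ![0,0,0,0,0,1,0,0,1,0]]

/-- the monomials of `D_1 = la u0 z0 - mu z1 - la u1 z2` -/
def eD1 : Fin 3 → Ex :=
  ![![0,0,1,0,1,0,1,0,0,0], ![0,0,0,0,0,1,0,1,0,0], ![0,0,0,1,1,0,0,0,1,0]]

/-- `D_0` -/
noncomputable def D0 : A k := mon (eD0 0) - mon (eD0 1) - mon (eD0 2)

/-- `D_1` -/
noncomputable def D1 : A k := mon (eD1 0) - mon (eD1 1) - mon (eD1 2)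

/-- the degree of `D_0` and `D_1` -/
def dD : Deg := ![0,0,1,1]

/-- the structure sheaf of the toric variety, twisted by `b` -/
noncomputable abbrev PPf (b : Deg) : FunCat k := QQ [] b

/-- the line bundle `O(b)` on `W` -/
noncomputable abbrev OWf (b : Deg) : FunCat k := QQ [(fP k, dF)] b

/-- the line bundle `O_E(b)` on the exceptional divisor `E = {D_0 = D_1 = 0}` -/
noncomputable abbrev OEf (b : Deg) : FunCat k := QQ [(D1 k, dD), (D0 k, dD)] b

end MPbd3808.BR
end

section

/-!
# The 24 objects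
-/

open CategoryTheory CategoryTheory.Limits

namespace MPbd3808.BR

universe u
variable (k : Type u) [Field k]

/-- the twists of the 24 objects, coordinates `(s; f, H, h)` -/
def bQ : Fin 24 → Deg :=
  ![![0,0,0,0], ![0,1,0,0], ![0,0,1,0], ![0,1,1,0],
    ![0,0,0,1], ![0,1,0,1], ![0,0,1,1], ![0,1,1,1],
    ![0,0,0,2], ![0,1,0,2], ![0,0,1,2], ![0,1,1,2],
    ![0,0,0,3], ![0,1,0,3], ![0,0,1,3], ![0,1,1,3],
    ![0,1,1,2], ![0,2,1,2], ![0,1,2,2], ![0,2,2,2],
    ![0,2,1,3], ![0,3,1,3], ![0,2,2,3], ![0,3,2,3]]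

/-- `O(M)` for the first 16, `O_E(L)` for the last 8 objects -/
noncomputable def GQ (i : Fin 24) : List (A k × Deg) :=
  if i.1 < 16 then [(fP k, dF)] else [(D1 k, dD), (D0 k, dD)]

/-- the 24 sheaves -/
noncomputable abbrev QWf (i : Fin 24) : FunCat k := QQ (GQ k i) (bQ i)

end MPbd3808.BR
end

section

/-!
# MP_bd3808_ag, campaign BR: the automorphism of the category of coherent sheaves given by a point
`t` of the one-parameter group with weights `1,-1 | -2,2 | 0,0 | 3,1,-1,-3`
-/

set_option autoImplicit false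

noncomputable section

open CategoryTheory CategoryTheory.Limits

namespace MPbd3808.BR.SX

universe u

/-- the weights of the ten variables -/
def wv : Vr → ℤ := ![1,-1,-2,2,0,0,3,1,-1,-3]

/-- the weight of a Laurent monomial -/
def wt (e : Ex) : ℤ := ∑ v, wv v * e v

lemma wt_zero : wt 0 = 0 := by simp [wt]

lemma wt_add (e e' : Ex) : wt (e + e') = wt e + wt e' := by
  simp [wt, mul_add, Finset.sum_add_distrib]

lemma wt_neg (e : Ex) : wt (-e) = -wt e := by
  simp [wt]

lemma wt_fE (i : Fin 6) : wt (fE i) = 0 := by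
  revert i; decide

variable {k : Type u} [Field k]

/-- The functor `X` with the monomial `x^e` acting by `t^(wt e) X(e)`. -/
@[simps] def twObj (t : kˣ) (X : FunCat k) : FunCat k where
  obj Y := X.obj Y
  map m := ((t ^ wt (Mor.e m) : kˣ) : k) • X.map m
  map_id Y := by simp [wt_zero]
  map_comp f g := by
    rw [comp_e, wt_add, zpow_add, X.map_comp, Linear.smul_comp, Linear.comp_smul, smul_smul,
      Units.val_mul]

theorem twObj_apply (t : kˣ) (X : FunCat k) {Y Z : Ob} (m : Y ⟶ Z) (x : X.obj Y) :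
    ((twObj t X).map m).hom x = ((t ^ wt (Mor.e m) : kˣ) : k) • (X.map m).hom x := rfl

/-- The automorphism of the category of functors given by `t`. -/
def tw (t : kˣ) : FunCat k ⥤ FunCat k where
  obj X := twObj t X
  map {X X'} f :=
    { app := fun Y => f.app Y
      naturality := fun Y Z m => by
        change (((t ^ wt (Mor.e m) : kˣ) : k) • X.map m) ≫ f.app Z =
          f.app Y ≫ (((t ^ wt (Mor.e m) : kˣ) : k) • X'.map m)
        rw [Linear.smul_comp, Linear.comp_smul, f.naturality] }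

theorem tw_isFZero (t : kˣ) (X : FunCat k) (h : isFZero k X) : isFZero k (twObj t X) := by
  intro σ hσ a
  refine Eq.trans ?_ (h σ hσ a)
  refine Finset.sum_congr rfl fun i _ => ?_
  rw [twObj_map, mul_e, wt_fE, zpow_zero, Units.val_one, one_smul]
  rfl

theorem tw_locInj (t : kˣ) (X : FunCat k) (h : LocInj k X) : LocInj k (twObj t X) := by
  intro σ τ hσ hτ hst a x hx
  rw [twObj_apply, res_e, wt_zero, zpow_zero, Units.val_one, one_smul] at hx
  obtain ⟨N, hN⟩ := h σ τ hσ hτ hst a x hx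
  refine ⟨N, ?_⟩
  rw [twObj_apply, hN]
  exact smul_zero (A := X.obj _) _

theorem tw_locSurj (t : kˣ) (X : FunCat k) (h : LocSurj k X) : LocSurj k (twObj t X) := by
  intro σ τ hσ hτ hst a y
  obtain ⟨N, x, hx⟩ := h σ τ hσ hτ hst a y
  refine ⟨N, (((t ^ wt (pw τ N) : kˣ) : k) • x : X.obj _), ?_⟩
  rw [twObj_apply, res_e, wt_zero, zpow_zero, Units.val_one, one_smul, twObj_apply, mul_e, ← hx]
  exact map_smul _ _ _

theorem tw_isFG (t : kˣ) (X : FunCat k) (h : isFG k X) : isFG k (twObj t X) := by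
  intro σ hσ
  obtain ⟨n, d, g, hg⟩ := h σ hσ
  refine ⟨n, d, g, fun a x => ?_⟩
  refine Submodule.span_le.2 ?_ (hg a x)
  rintro y ⟨i, m, rfl⟩
  have h1 : (X.map m).hom (g i) = ((t ^ (-wt (Mor.e m)) : kˣ) : k) •
      (((t ^ wt (Mor.e m) : kˣ) : k) • (X.map m).hom (g i)) := by
    rw [smul_smul, ← Units.val_mul,
      ← zpow_add, neg_add_cancel, zpow_zero, Units.val_one, one_smul]
  rw [h1]
  exact Submodule.smul_mem _ _ (Submodule.subset_span ⟨i, m, rfl⟩)

theorem tw_isCoh (t : kˣ) (X : FunCat k) (h : isCoh k X) : isCoh k (twObj t X) :=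
  ⟨⟨tw_isFZero t X h.1.1, tw_locInj t X h.1.2.1, tw_locSurj t X h.1.2.2⟩, tw_isFG t X h.2⟩

/-- The automorphism of the category of coherent sheaves on `W` given by `t`. -/
def twC (t : kˣ) : CohW k ⥤ CohW k :=
  ObjectProperty.lift _ ((isCoh k).ι ⋙ tw t) (fun X => tw_isCoh t X.1 X.2)

/-- `tw t` has the inverse `tw s`, `t s = 1`. -/
def twIso (t s : kˣ) (h : t * s = 1) (X : FunCat k) : X ≅ (tw s).obj ((tw t).obj X) :=
  NatIso.ofComponents (fun Y => Iso.refl (X.obj Y)) (fun {Y Z} m => by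
    change X.map m ≫ 𝟙 _ = 𝟙 _ ≫ (((s ^ wt (Mor.e m) : kˣ) : k) •
      (((t ^ wt (Mor.e m) : kˣ) : k) • X.map m))
    rw [Category.comp_id, Category.id_comp, smul_smul, ← Units.val_mul, ← mul_zpow, mul_comm s t, h,
      one_zpow, Units.val_one, one_smul])

/-- `twC t` has the inverse `twC t⁻¹`. -/
def twCIso (t s : kˣ) (h : t * s = 1) : 𝟭 (CohW k) ≅ twC t ⋙ twC s :=
  NatIso.ofComponents
    (fun X => (isCoh k).fullyFaithfulι.preimageIso (twIso t s h X.1))
    (fun {X Y} f => by
      apply (isCoh k).ι.map_injective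
      ext Z x
      rfl)

instance (t : kˣ) : (twC (k := k) t).Additive where
  map_add {X Y f g} := by
    apply (isCoh k).ι.map_injective
    ext Z x
    rfl

instance (t : kˣ) : (twC (k := k) t).Linear k where
  map_smul {X Y} f r := by
    apply (isCoh k).ι.map_injective
    ext Z x
    rfl

instance (t : kˣ) : (twC (k := k) t).IsEquivalence :=
  (CategoryTheory.Equivalence.mk (twC t) (twC t⁻¹) (twCIso t t⁻¹ (by simp))
    (twCIso t⁻¹ t (by simp)).symm).isEquivalence_functor

end MPbd3808.BR.SX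
end
end

section

/-!
# MP_bd3808_ag, campaign BR: sections of the sheaves `O_E(c)`, definitions

`E ≅ P^1 × X'`; all sections of `O_E(c)` over the charts are considered as elements of the field
`KK k = k(s0,s1,u0,u1,la,mu,om1,om2)`.
-/

set_option autoImplicit false

noncomputable section

open CategoryTheory CategoryTheory.Limits

namespace MPbd3808.BR.SX

universe u v w

/-! ## Evaluation of Laurent polynomials -/

section

variable {k : Type u} [Field k] {ι : Type v} [Fintype ι] {K : Type w} [CommRing K] [Algebra k K]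

/-- The monoid homomorphism `e ↦ ∏ v_i^(e_i)`. -/
def mevHom (v : ι → Kˣ) : Multiplicative (ι → ℤ) →* K where
  toFun e := ((∏ i, v i ^ (e.toAdd i) : Kˣ) : K)
  map_one' := by simp
  map_mul' e e' := by
    rw [← Units.val_mul, ← Finset.prod_mul_distrib]
    simp only [toAdd_mul, Pi.add_apply, zpow_add]

/-- Evaluation of Laurent polynomials at units. -/
def mev (v : ι → Kˣ) : AddMonoidAlgebra k (ι → ℤ) →ₐ[k] K :=
  AddMonoidAlgebra.lift k K (ι → ℤ) (mevHom v)

theorem mev_single (v : ι → Kˣ) (e : ι → ℤ) (c : k) :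
    mev v (AddMonoidAlgebra.single e c) = c • ((∏ i, v i ^ (e i) : Kˣ) : K) := by
  unfold mev
  rw [AddMonoidAlgebra.lift_single]
  rfl

end

variable (k : Type u) [Field k]

/-- Laurent polynomials in eight variables. -/
abbrev A8 := AddMonoidAlgebra k (Fin 8 → ℤ)

/-- The polynomial ring `k[s0,s1,u0,u1,la,mu,om1,om2]`. -/
abbrev R8 := MvPolynomial (Fin 8) k

/-- The function field. -/
abbrev KK := FractionRing (R8 k)

/-- The variables of `R8 k`. -/
abbrev xx (i : Fin 8) : R8 k := MvPolynomial.X i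

/-- `z0 = u1 (mu om1 + la u1 om2)` -/
def rz0 : R8 k := xx k 3 * (xx k 5 * xx k 6 + xx k 4 * xx k 3 * xx k 7)
/-- `w1 = u0 u1 om1` -/
def rw1 : R8 k := xx k 2 * xx k 3 * xx k 6
/-- `w2 = u0 u1 om2` -/
def rw2 : R8 k := xx k 2 * xx k 3 * xx k 7
/-- `z1 = la w1` -/
def rz1 : R8 k := xx k 4 * rw1 k
/-- `z2 = la w2` -/
def rz2 : R8 k := xx k 4 * rw2 k
/-- `z3 = u0 (mu om2 + la u0 om1)` -/
def rz3 : R8 k := xx k 2 * (xx k 5 * xx k 7 + xx k 4 * xx k 2 * xx k 6)

/-- The images of the ten Cox variables `s0 s1 u0 u1 la mu z0 z1 z2 z3`. -/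
def vvK : Vr → R8 k :=
  ![xx k 0, xx k 1, xx k 2, xx k 3, xx k 4, xx k 5, rz0 k, rz1 k, rz2 k, rz3 k]

/-- The free coordinates of the four base charts `(u0,la), (u0,mu), (u1,la), (u1,mu)` of `E` (the
first six are `s0,s1,u0,u1,la,mu`), and (for `c = 4`) the coordinates `om1, om2`. -/
def vc : Fin 5 → Fin 8 → R8 k :=
  ![![xx k 0, xx k 1, xx k 2, xx k 3, xx k 4, xx k 5, rz2 k, rz3 k],
    ![xx k 0, xx k 1, xx k 2, xx k 3, xx k 4, xx k 5, rw1 k, rz3 k],
    ![xx k 0, xx k 1, xx k 2, xx k 3, xx k 4, xx k 5, rz1 k, rz0 k],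
    ![xx k 0, xx k 1, xx k 2, xx k 3, xx k 4, xx k 5, rw2 k, rz0 k],
    ![xx k 0, xx k 1, xx k 2, xx k 3, xx k 4, xx k 5, xx k 6, xx k 7]]

/-- The degree of `om1` and `om2`. -/
def dom : Deg := ![0,-1,-1,1]
/-- The degree of `w1` and `w2`. -/
def dw : Deg := ![0,1,-1,1]
/-- The degree of the `z_i`. -/
def dz : Deg := ![0,0,0,1]

/-- The degrees of the coordinates `vc c`. -/
def dc : Fin 5 → Fin 8 → Deg :=
  ![![![1,0,0,0], ![1,0,0,0], ![0,1,0,0], ![0,1,0,0], ![0,-1,1,0], ![0,0,1,0], dz, dz],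
    ![![1,0,0,0], ![1,0,0,0], ![0,1,0,0], ![0,1,0,0], ![0,-1,1,0], ![0,0,1,0], dw, dz],
    ![![1,0,0,0], ![1,0,0,0], ![0,1,0,0], ![0,1,0,0], ![0,-1,1,0], ![0,0,1,0], dz, dz],
    ![![1,0,0,0], ![1,0,0,0], ![0,1,0,0], ![0,1,0,0], ![0,-1,1,0], ![0,0,1,0], dw, dz],
    ![![1,0,0,0], ![1,0,0,0], ![0,1,0,0], ![0,1,0,0], ![0,-1,1,0], ![0,0,1,0], dom, dom]]

/-- The degree of a Laurent monomial in the coordinates `vc c`. -/
def deg8 (c : Fin 5) (e : Fin 8 → ℤ) : Deg := ∑ i, e i • dc c i

variable {k} in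
theorem xx_ne (i : Fin 8) : xx k i ≠ 0 := MvPolynomial.X_ne_zero i

theorem rw1_ne : rw1 k ≠ 0 := mul_ne_zero (mul_ne_zero (xx_ne _) (xx_ne _)) (xx_ne _)

theorem rw2_ne : rw2 k ≠ 0 := mul_ne_zero (mul_ne_zero (xx_ne _) (xx_ne _)) (xx_ne _)

theorem rz1_ne : rz1 k ≠ 0 := mul_ne_zero (xx_ne _) (rw1_ne k)

theorem rz2_ne : rz2 k ≠ 0 := mul_ne_zero (xx_ne _) (rw2_ne k)

theorem rz0_ne : rz0 k ≠ 0 := by
  intro h
  have h1 := congrArg (MvPolynomial.eval ![1,1,1,1,0,1,1,1]) h
  simp [rz0, xx] at h1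

theorem rz3_ne : rz3 k ≠ 0 := by
  intro h
  have h1 := congrArg (MvPolynomial.eval ![1,1,1,1,0,1,1,1]) h
  simp [rz3, xx] at h1

theorem vvK_ne (v : Vr) : vvK k v ≠ 0 := by
  fin_cases v
  exacts [xx_ne _, xx_ne _, xx_ne _, xx_ne _, xx_ne _, xx_ne _, rz0_ne k, rz1_ne k, rz2_ne k,
    rz3_ne k]

theorem vc_ne (c : Fin 5) (i : Fin 8) : vc k c i ≠ 0 := by
  fin_cases c <;> fin_cases i
  exacts [xx_ne _, xx_ne _, xx_ne _, xx_ne _, xx_ne _, xx_ne _, rz2_ne k, rz3_ne k,
    xx_ne _, xx_ne _, xx_ne _, xx_ne _, xx_ne _, xx_ne _, rw1_ne k, rz3_ne k,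
    xx_ne _, xx_ne _, xx_ne _, xx_ne _, xx_ne _, xx_ne _, rz1_ne k, rz0_ne k,
    xx_ne _, xx_ne _, xx_ne _, xx_ne _, xx_ne _, xx_ne _, rw2_ne k, rz0_ne k,
    xx_ne _, xx_ne _, xx_ne _, xx_ne _, xx_ne _, xx_ne _, xx_ne _, xx_ne _]

variable {k} in
/-- A nonzero element of `R8 k` as a unit of the field `KK k`. -/
def toU (p : R8 k) (hp : p ≠ 0) : (KK k)ˣ :=
  Units.mk0 (algebraMap (R8 k) (KK k) p) (by
    rw [Ne, FaithfulSMul.algebraMap_eq_zero_iff]
    exact hp)

@[simp] theorem toU_val (p : R8 k) (hp : p ≠ 0) :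
    ((toU p hp : (KK k)ˣ) : KK k) = algebraMap (R8 k) (KK k) p := rfl

/-- The map from Laurent polynomials in the Cox variables to the function field; its kernel on
the elements regular on a full chart is the ideal of `E`. -/
def Phi : A k →ₐ[k] KK k := mev (fun v => toU (vvK k v) (vvK_ne k v))

/-- The map from Laurent polynomials in the coordinates `vc c` to the function field. -/
def bet (c : Fin 5) : A8 k →ₐ[k] KK k := mev (fun i => toU (vc k c i) (vc_ne k c i))

/-- The inclusion `k[u0,u1,la,mu,om1,om2] → KK k`. -/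
def iP : BO.PP k →ₐ[k] KK k :=
  (IsScalarTower.toAlgHom k (R8 k) (KK k)).comp
    (MvPolynomial.rename (fun i : Fin 6 => (⟨i.1 + 2, by omega⟩ : Fin 8)))

/-- The equations of `E`. -/
def GE : List (A k × Deg) := [(D1 k, dD), (D0 k, dD)]

/-- The equation of `W`. -/
def GW : List (A k × Deg) := [(fP k, dF)]

/-- Sections of `O_E(c)` on the chart `σ`, as elements of the function field. -/
def VV (σ : Finset Vr) (c : Deg) : Submodule k (KK k) := (gr k σ c).map (Phi k).toLinearMap

/-- Global sections of `O_E(c)`, as elements of the function field. -/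
def SE (c : Deg) : Submodule k (KK k) := ⨅ (σ : Finset Vr) (_ : Full σ), VV k σ c

variable {k} in
theorem mem_SE {c : Deg} {y : KK k} : y ∈ SE k c ↔ ∀ σ, Full σ → y ∈ VV k σ c := by
  simp [SE]

variable {k} in
theorem mem_VV {σ : Finset Vr} {c : Deg} {y : KK k} :
    y ∈ VV k σ c ↔ ∃ p ∈ gr k σ c, Phi k p = y := Iff.rfl

theorem Phi_mon (e : Ex) :
    Phi k (mon e) = ((∏ v, toU (vvK k v) (vvK_ne k v) ^ (e v) : (KK k)ˣ) : KK k) := by
  rw [mon, Phi, mev_single, one_smul]

theorem coeff_mul_ne {M : Type*} [AddMonoid M] (p q : AddMonoidAlgebra k M) (e : M)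
    (he : (p * q).coeff e ≠ 0) :
    ∃ e1 e2, p.coeff e1 ≠ 0 ∧ q.coeff e2 ≠ 0 ∧ e1 + e2 = e := by
  classical
  have h1 := AddMonoidAlgebra.support_coeff_mul_subset p q (Finsupp.mem_support_iff.2 he)
  obtain ⟨e1, h1, e2, h2, h3⟩ := Finset.mem_add.1 h1
  exact ⟨e1, e2, Finsupp.mem_support_iff.1 h1, Finsupp.mem_support_iff.1 h2, h3⟩

theorem coeff_mon_ne {e e' : Ex} (he : (mon e : A k).coeff e' ≠ 0) : e = e' := by
  rw [mon, AddMonoidAlgebra.coeff_single, Finsupp.single_apply] at he
  by_contra h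
  rw [if_neg h] at he
  exact he rfl

theorem gr_mul {σ : Finset Vr} {c d : Deg} {p q : A k} (hp : p ∈ gr k σ c) (hq : q ∈ gr k σ d) :
    p * q ∈ gr k σ (c + d) := by
  intro e he
  obtain ⟨e1, e2, h1, h2, rfl⟩ := coeff_mul_ne k p q e he
  exact ⟨(hp e1 h1).1.add (hq e2 h2).1, by rw [degE_add, (hp e1 h1).2, (hq e2 h2).2]⟩

theorem VV_mul {σ : Finset Vr} {c d : Deg} {x y : KK k} (hx : x ∈ VV k σ c) (hy : y ∈ VV k σ d) :
    x * y ∈ VV k σ (c + d) := by
  obtain ⟨p, hp, rfl⟩ := hx
  obtain ⟨q, hq, rfl⟩ := hy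
  exact ⟨p * q, gr_mul k hp hq, map_mul (Phi k) p q⟩

theorem mon_mem_gr {σ : Finset Vr} {c : Deg} {e : Ex} (h1 : Reg σ e) (h2 : degE e = c) :
    mon e ∈ gr k σ c := by
  intro e' he
  have h0 := coeff_mon_ne k he
  subst h0
  exact ⟨h1, h2⟩

/-- Linear maps on `gr k σ c` which agree on monomials are equal. -/
theorem gr_hom_ext {σ : Finset Vr} {c : Deg} {M : Type*} [AddCommGroup M] [Module k M]
    (L1 L2 : gr k σ c →ₗ[k] M)
    (h : ∀ (e : Ex) (h1 : Reg σ e) (h2 : degE e = c),
      L1 ⟨mon e, mon_mem_gr k h1 h2⟩ = L2 ⟨mon e, mon_mem_gr k h1 h2⟩) : L1 = L2 := by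
  refine LinearMap.ext fun p => ?_
  have h0 : p = ∑ e ∈ (p : A k).coeff.support.attach,
      (p : A k).coeff e.1 • (⟨mon e.1, mon_mem_gr k (p.2 e.1 (Finsupp.mem_support_iff.1 e.2)).1
        (p.2 e.1 (Finsupp.mem_support_iff.1 e.2)).2⟩ : gr k σ c) := by
    apply Subtype.ext
    rw [AddSubmonoidClass.coe_finsetSum]
    simp only [Submodule.coe_smul]
    rw [Finset.sum_attach (p : A k).coeff.support (fun e => (p : A k).coeff e • (mon e : A k))]
    simp only [mon, AddMonoidAlgebra.smul_single, smul_eq_mul, mul_one]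
    exact (AddMonoidAlgebra.sum_coeff_single (p : A k)).symm
  rw [h0, map_sum, map_sum]
  refine Finset.sum_congr rfl fun e _ => ?_
  rw [map_smul, map_smul, h _ (p.2 e.1 (Finsupp.mem_support_iff.1 e.2)).1
    (p.2 e.1 (Finsupp.mem_support_iff.1 e.2)).2]


/-- The full chart where everything is invertible. -/
theorem full_univ : Full Finset.univ := by
  intro i
  fin_cases i
  · exact ⟨0, Finset.mem_univ _, rfl⟩
  · exact ⟨2, Finset.mem_univ _, rfl⟩
  · exact ⟨4, Finset.mem_univ _, rfl⟩
  · exact ⟨6, Finset.mem_univ _, rfl⟩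

end MPbd3808.BR.SX
end
end

section

/-!
# TASK B2: the action of Laurent polynomials on sections
-/

open CategoryTheory CategoryTheory.Limits

namespace MPbd3808.BR

universe u
variable {k : Type u} [Field k]

open Classical in
/-- the action of the monomial `x^e` from `X(U)` to `X(V)` (zero if it is not a morphism `U ⟶ V`) -/
noncomputable def mE (X : FunCat k) (U V : Ob) (e : Ex) : X.obj U →ₗ[k] X.obj V :=
  if h : U.σ ⊆ V.σ ∧ Reg V.σ e ∧ degE e = V.a - U.a then
    (X.map (Mor.mk e h.1 h.2.1 h.2.2 : U ⟶ V)).hom else 0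

/-- the action of a Laurent polynomial from `X(U)` to `X(V)` -/
noncomputable def mP (X : FunCat k) (U V : Ob) (p : A k) : X.obj U →ₗ[k] X.obj V :=
  p.coeff.sum fun e c => c • mE X U V e

theorem mE_eq (X : FunCat k) {U V : Ob} (m : U ⟶ V) : mE X U V (Mor.e m) = (X.map m).hom := by
  unfold mE
  rw [dif_pos ⟨Mor.le m, Mor.reg m, Mor.deg m⟩]
  rfl

/-- PROOF. `Finsupp.sum_single_index`, `mE_eq`. -/
theorem mP_mon (X : FunCat k) {U V : Ob} (m : U ⟶ V) : mP X U V (mon (Mor.e m)) = (X.map m).hom := by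
  have h : mP X U V (mon (Mor.e m)) =
      (Finsupp.single (Mor.e m) (1 : k)).sum fun e c => c • mE X U V e := rfl
  rw [h, Finsupp.sum_single_index (by simp), one_smul, mE_eq]

/-- PROOF. `Finsupp.sum_add_index'`. -/
theorem mP_add (X : FunCat k) (U V : Ob) (p q : A k) : mP X U V (p + q) = mP X U V p + mP X U V q := by
  have h : mP X U V (p + q) = (p.coeff + q.coeff).sum fun e c => c • mE X U V e := rfl
  rw [h, Finsupp.sum_add_index' (by simp) (by intro a b c; rw [add_smul])]
  rfl

/-- PROOF. `Finsupp.sum_smul_index'`, or as above. -/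
theorem mP_smul (X : FunCat k) (U V : Ob) (c : k) (p : A k) : mP X U V (c • p) = c • mP X U V p := by
  have h : mP X U V (c • p) = (c • p.coeff).sum fun e c => c • mE X U V e := rfl
  rw [h, Finsupp.sum_smul_index (by simp), mP, Finsupp.sum, Finsupp.sum, Finset.smul_sum]
  exact Finset.sum_congr rfl fun e _ => by rw [mul_smul]

private noncomputable def B2_lin (X : FunCat k) (U V : Ob) : A k →ₗ[k] (X.obj U →ₗ[k] X.obj V) where
  toFun := mP X U V
  map_add' := mP_add X U V
  map_smul' := mP_smul X U V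

private theorem B2_sum (X : FunCat k) (U V : Ob) {ι : Type} (s : Finset ι) (f : ι → A k) :
    mP X U V (∑ i ∈ s, f i) = ∑ i ∈ s, mP X U V (f i) :=
  map_sum (B2_lin X U V) f s

private theorem B2_ind {σ : Finset Vr} {c : Deg} {motive : A k → Prop} (h0 : motive 0)
    (hadd : ∀ p q, motive p → motive q → motive (p + q))
    (hm : ∀ (e : Ex) (r : k), Reg σ e → degE e = c → motive (r • mon e)) {p : A k}
    (hp : p ∈ gr k σ c) : motive p := by
  rw [← AddMonoidAlgebra.sum_coeff_single p, Finsupp.sum]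
  refine Finset.sum_induction _ motive hadd h0 fun e he => ?_
  obtain ⟨h1, h2⟩ := hp e (Finsupp.mem_support_iff.1 he)
  have h3 := hm e (p.coeff e) h1 h2
  rwa [AddMonoidAlgebra.smul_single, smul_eq_mul, mul_one] at h3

/-- PROOF. From the previous two. -/
theorem mP_sub (X : FunCat k) (U V : Ob) (p q : A k) : mP X U V (p - q) = mP X U V p - mP X U V q :=
  map_sub (B2_lin X U V) p q

theorem mP_zero (X : FunCat k) (U V : Ob) : mP X U V 0 = 0 :=
  map_zero (B2_lin X U V)

/-- PROOF. `1 = mon 0`, `mP_mon` for `𝟙 U`. -/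
theorem mP_one (X : FunCat k) (U : Ob) : mP X U U 1 = LinearMap.id := by
  have h := mP_mon X (𝟙 U)
  rw [X.map_id, ModuleCat.hom_id] at h
  exact h

/-- PROOF. By bilinearity (an element of `gr` is a linear combination of monomials in `gr`: write
`p = p.coeff.sum (fun e c => c • mon e)`, all `e` in the support satisfy `Reg`, `degE`) it is enough to treat monomials
`p = mon e`, `q = mon e'`: functoriality, `q * p = mon (e' + e)`. -/
theorem mP_mul (X : FunCat k) {U V W : Ob} (hUV : U.σ ⊆ V.σ) (hVW : V.σ ⊆ W.σ) {p q : A k}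
    (hp : p ∈ gr k V.σ (V.a - U.a)) (hq : q ∈ gr k W.σ (W.a - V.a)) (x : X.obj U) :
    mP X U W (q * p) x = mP X V W q (mP X U V p x) := by
  refine B2_ind (motive := fun p => mP X U W (q * p) x = mP X V W q (mP X U V p x)) ?_ ?_ ?_ hp
  · rw [mul_zero, mP_zero, mP_zero, LinearMap.zero_apply, LinearMap.zero_apply, map_zero]
  · intro p p' h h'
    rw [mul_add, mP_add, mP_add, LinearMap.add_apply, LinearMap.add_apply, map_add, h, h']
  · intro e r he hd
    refine B2_ind (motive := fun q => mP X U W (q * r • mon e) x = mP X V W q (mP X U V (r • mon e) x))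
      ?_ ?_ ?_ hq
    · rw [zero_mul, mP_zero, mP_zero, LinearMap.zero_apply, LinearMap.zero_apply]
    · intro q q' h h'
      rw [add_mul, mP_add, mP_add, LinearMap.add_apply, LinearMap.add_apply, h, h']
    · intro e' r' he' hd'
      let m : U ⟶ V := Mor.mk e hUV he hd
      let m' : V ⟶ W := Mor.mk e' hVW he' hd'
      have h1 : mP X U V (mon e) = (X.map m).hom := mP_mon X m
      have h2 : mP X V W (mon e') = (X.map m').hom := mP_mon X m'
      have h3 : mP X U W (mon (e + e')) = (X.map (m ≫ m')).hom := mP_mon X (m ≫ m')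
      have h4 : (mon e' : A k) * mon e = mon (e + e') := by
        rw [AddMonoidAlgebra.single_mul_single, one_mul, add_comm]
      rw [smul_mul_assoc, mul_smul_comm, h4, mP_smul, mP_smul, mP_smul, mP_smul, h1, h2, h3,
        X.map_comp, ModuleCat.hom_comp, LinearMap.smul_apply, LinearMap.smul_apply,
        LinearMap.smul_apply, LinearMap.smul_apply, LinearMap.comp_apply, map_smul]

/-- PROOF. Naturality for monomials, linearity. -/
theorem mP_nat {X Y : FunCat k} (i : X ⟶ Y) (U V : Ob) (p : A k) (x : X.obj U) :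
    (i.app V).hom (mP X U V p x) = mP Y U V p ((i.app U).hom x) := by
  have hE : ∀ e : Ex, (i.app V).hom (mE X U V e x) = mE Y U V e ((i.app U).hom x) := by
    intro e
    unfold mE
    split_ifs with h
    · have h1 := congrArg (fun f => f.hom x)
        (i.naturality (Mor.mk e h.1 h.2.1 h.2.2 : U ⟶ V))
      exact h1
    · rw [LinearMap.zero_apply, LinearMap.zero_apply, map_zero]
  unfold mP
  rw [Finsupp.sum, Finsupp.sum, LinearMap.sum_apply, LinearMap.sum_apply, map_sum]
  refine Finset.sum_congr rfl fun e _ => ?_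
  rw [LinearMap.smul_apply, LinearMap.smul_apply, map_smul, hE]

private theorem B2_fP_apply (X : FunCat k) {σ : Finset Vr} (hσ : Full σ) (a : Deg) :
    mP X (Ob.mk σ hσ a) (Ob.mk σ hσ (a + dF)) (fP k) =
      (∑ i, fC i • X.map (mul hσ (b := a + dF) (fE i) (reg_fE σ i) (by rw [degE_fE]; abel) :
        Ob.mk σ hσ a ⟶ Ob.mk σ hσ (a + dF))).hom := by
  rw [fP, B2_sum, ModuleCat.hom_sum]
  refine Finset.sum_congr rfl fun i _ => ?_
  rw [mP_smul, ModuleCat.hom_zsmul, Int.cast_smul_eq_zsmul]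
  congr 1
  exact mP_mon X (mul hσ (b := a + dF) (fE i) (reg_fE σ i) (by rw [degE_fE]; abel) :
        Ob.mk σ hσ a ⟶ Ob.mk σ hσ (a + dF))

private theorem B2_mon_mem {σ : Finset Vr} {c : Deg} {e : Ex} (he : Reg σ e) (hd : degE e = c) :
    (mon e : A k) ∈ gr k σ c := by
  intro e' h
  have h1 : e' = e := by
    by_contra hne
    apply h
    rw [AddMonoidAlgebra.coeff_single, Finsupp.single_apply, if_neg (Ne.symm hne)]
  rw [h1]
  exact ⟨he, hd⟩

private theorem B2_fP_mem (σ : Finset Vr) : fP k ∈ gr k σ dF := by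
  rw [fP]
  refine Submodule.sum_mem _ fun i _ => Submodule.smul_mem _ _ ?_
  exact B2_mon_mem (reg_fE σ i) (degE_fE i)

/-- The action of `f` vanishes on a sheaf on `W`.

PROOF. `fP k = ∑ (fC i : k) • mon (fE i)`; by `mP_add`, `mP_smul`, `mP_mon` the action of `fP k` from
`(σ,a)` to `(σ, a + dF)` is the sum in `isFZero` (the integer scalars `fC i • _` act as `(fC i : k) • _`), so it is
zero. In general `mP X U V (fP k * q) = mP X U' V (q) ∘ mP X U U' (fP k)` with `U' = (U.σ, U.a + dF)` (`mP_mul`,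
`mul_comm`). -/
theorem mP_fP (X : FunCat k) (hX : isFZero k X) {U V : Ob} (hUV : U.σ ⊆ V.σ) {q : A k}
    (hq : q ∈ gr k V.σ (V.a - U.a - dF)) (x : X.obj U) : mP X U V (fP k * q) x = 0 := by
  have h1 : mP X U V (q * fP k) x = mP X (Ob.mk U.σ U.full (U.a + dF)) V q
      (mP X U (Ob.mk U.σ U.full (U.a + dF)) (fP k) x) := by
    refine mP_mul (U := U) (V := Ob.mk U.σ U.full (U.a + dF)) (W := V) X (Finset.Subset.refl _) hUV ?_ ?_ x
    · have h2 : U.a + dF - U.a = dF := by abel
      change fP k ∈ gr k U.σ (U.a + dF - U.a)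
      rw [h2]
      exact B2_fP_mem U.σ
    · have h2 : V.a - (U.a + dF) = V.a - U.a - dF := by abel
      change q ∈ gr k V.σ (V.a - (U.a + dF))
      rw [h2]
      exact hq
  rw [mul_comm, h1]
  have h3 : mP X U (Ob.mk U.σ U.full (U.a + dF)) (fP k) = 0 := by
    have h4 := B2_fP_apply X U.full U.a
    rw [hX U.σ U.full U.a, ModuleCat.hom_zero] at h4
    exact h4
  rw [h3, LinearMap.zero_apply, map_zero]

/-- PROOF. The converse: the action of `fP k` from `(σ,a)` to `(σ,a + dF)` is the sum in `isFZero`. -/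
theorem isFZero_of_mP (X : FunCat k)
    (h : ∀ (σ : Finset Vr) (hσ : Full σ) (a : Deg) (x : X.obj (Ob.mk σ hσ a)),
      mP X (Ob.mk σ hσ a) (Ob.mk σ hσ (a + dF)) (fP k) x = 0) : isFZero k X := by
  intro σ hσ a
  refine ModuleCat.hom_ext ?_
  rw [← B2_fP_apply X hσ a, ModuleCat.hom_zero]
  exact LinearMap.ext fun x => h σ hσ a x

/-- PROOF. Monomials: `mulQm_mk`; linearity. -/
theorem mP_QQ_mk (G : List (A k × Deg)) (b : Deg) {U V : Ob} (hUV : U.σ ⊆ V.σ) {p : A k}
    (hp : p ∈ gr k V.σ (V.a - U.a)) (q : gr k U.σ (U.a + b)) (hpq : p * q.1 ∈ gr k V.σ (V.a + b)) :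
    mP (QQ G b) U V p (Submodule.Quotient.mk q : Qm k G U.σ (U.a + b)) =
      (Submodule.Quotient.mk ⟨p * q.1, hpq⟩ : Qm k G V.σ (V.a + b)) := by
  have key : ∃ h : p * q.1 ∈ gr k V.σ (V.a + b),
      mP (QQ G b) U V p (Submodule.Quotient.mk q : Qm k G U.σ (U.a + b)) =
        (Submodule.Quotient.mk ⟨p * q.1, h⟩ : Qm k G V.σ (V.a + b)) := by
    refine B2_ind (motive := fun p => ∃ h : p * q.1 ∈ gr k V.σ (V.a + b),
      mP (QQ G b) U V p (Submodule.Quotient.mk q : Qm k G U.σ (U.a + b)) =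
        (Submodule.Quotient.mk ⟨p * q.1, h⟩ : Qm k G V.σ (V.a + b))) ?_ ?_ ?_ hp
    · refine ⟨by rw [zero_mul]; exact Submodule.zero_mem _, ?_⟩
      rw [mP_zero, LinearMap.zero_apply]
      symm
      have h1 : (⟨0 * q.1, by rw [zero_mul]; exact Submodule.zero_mem _⟩ : gr k V.σ (V.a + b)) = 0 :=
        Subtype.ext (zero_mul _)
      rw [h1]
      rfl
    · rintro p p' ⟨h, e⟩ ⟨h', e'⟩
      refine ⟨by rw [add_mul]; exact Submodule.add_mem _ h h', ?_⟩
      rw [mP_add, LinearMap.add_apply, e, e']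
      have h1 : (⟨(p + p') * q.1, by rw [add_mul]; exact Submodule.add_mem _ h h'⟩ :
          gr k V.σ (V.a + b)) = ⟨p * q.1, h⟩ + ⟨p' * q.1, h'⟩ := Subtype.ext (add_mul _ _ _)
      rw [h1]
      rfl
    · intro e r he hd
      have hm : mon e * q.1 ∈ gr k V.σ (V.a + b) :=
        mon_mul_mem_gr k hUV q.2 e he (by rw [hd]; abel)
      refine ⟨by rw [smul_mul_assoc]; exact Submodule.smul_mem _ _ hm, ?_⟩
      have h1 : (⟨(r • mon e) * q.1, by rw [smul_mul_assoc]; exact Submodule.smul_mem _ _ hm⟩ :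
          gr k V.σ (V.a + b)) = r • ⟨mon e * q.1, hm⟩ := Subtype.ext (smul_mul_assoc _ _ _)
      rw [h1, mP_smul, LinearMap.smul_apply]
      let m : U ⟶ V := Mor.mk e hUV he hd
      have h2 : mP (QQ G b) U V (mon e) = ((QQ G b).map m).hom := mP_mon (QQ G b) m
      rw [h2]
      rfl
  obtain ⟨h, e⟩ := key
  exact e

end MPbd3808.BR
end

section

/-!
# TASK B3: calculus of homogeneous Laurent polynomials; morphisms between the sheaves `QQ G b`
-/

open CategoryTheory CategoryTheory.Limits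

namespace MPbd3808.BR

universe u
variable {k : Type u} [Field k]

private theorem B3_mon_mem {σ : Finset Vr} {c : Deg} {e : Ex} (hr : Reg σ e) (hd : degE e = c) :
    (mon e : A k) ∈ gr k σ c := by
  intro e' h
  rw [AddMonoidAlgebra.coeff_single] at h
  by_cases he : e = e'
  · subst he
    exact ⟨hr, hd⟩
  · exact absurd (Finsupp.single_eq_of_ne' he) h

private theorem B3_mon_mul (e e' : Ex) : (mon e * mon e' : A k) = mon (e + e') := by
  rw [AddMonoidAlgebra.single_mul_single, one_mul]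

/-- PROOF. The support of a product is contained in the sum of the supports (`AddMonoidAlgebra` support of mul);
`Reg.add`, `degE_add`. -/
theorem mul_mem_gr {σ : Finset Vr} {c d : Deg} {p q : A k} (hp : p ∈ gr k σ c) (hq : q ∈ gr k σ d) :
    p * q ∈ gr k σ (c + d) := by
  classical
  intro e he
  have h1 := AddMonoidAlgebra.support_coeff_mul_subset p q (Finsupp.mem_support_iff.2 he)
  obtain ⟨e1, h2, e2, h3, rfl⟩ := Finset.mem_add.1 h1
  obtain ⟨r1, d1⟩ := hp e1 (Finsupp.mem_support_iff.1 h2)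
  obtain ⟨r2, d2⟩ := hq e2 (Finsupp.mem_support_iff.1 h3)
  exact ⟨r1.add r2, by rw [degE_add, d1, d2]⟩

theorem gr_mono {σ τ : Finset Vr} (h : σ ⊆ τ) (c : Deg) : gr k σ c ≤ gr k τ c := by
  intro p hp e he
  exact ⟨(hp e he).1.mono h, (hp e he).2⟩

theorem one_mem_gr (σ : Finset Vr) : (1 : A k) ∈ gr k σ 0 := by
  rw [AddMonoidAlgebra.one_def]
  exact B3_mon_mem Reg.zero degE_zero

/-- the constant section `1` of `QQ G b` in degree `-b` -/
theorem one_mem_gr' (σ : Finset Vr) (b : Deg) : (1 : A k) ∈ gr k σ (-b + b) := by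
  rw [neg_add_cancel]
  exact one_mem_gr σ

/-- PROOF. `degE_fE`, `fE_nonneg`. -/
theorem fP_mem : fP k ∈ gr k ∅ dF := by
  unfold fP
  exact Submodule.sum_mem _ fun i _ => Submodule.smul_mem _ _
    (B3_mon_mem (fun v _ => fE_nonneg i v) (degE_fE i))

/-- PROOF. Explicit. -/
theorem D0_mem : D0 k ∈ gr k ∅ dD := by
  have h1 : ∀ (i : Fin 3) (v : Vr), 0 ≤ eD0 i v := by decide
  have h2 : ∀ i : Fin 3, degE (eD0 i) = dD := by decide
  unfold D0
  exact Submodule.sub_mem _ (Submodule.sub_mem _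
    (B3_mon_mem (fun v _ => h1 0 v) (h2 0)) (B3_mon_mem (fun v _ => h1 1 v) (h2 1)))
    (B3_mon_mem (fun v _ => h1 2 v) (h2 2))

theorem D1_mem : D1 k ∈ gr k ∅ dD := by
  have h1 : ∀ (i : Fin 3) (v : Vr), 0 ≤ eD1 i v := by decide
  have h2 : ∀ i : Fin 3, degE (eD1 i) = dD := by decide
  unfold D1
  exact Submodule.sub_mem _ (Submodule.sub_mem _
    (B3_mon_mem (fun v _ => h1 0 v) (h2 0)) (B3_mon_mem (fun v _ => h1 1 v) (h2 1)))
    (B3_mon_mem (fun v _ => h1 2 v) (h2 2))

/-- `f = s0 D0 + s1 D1`. PROOF. Multiply out the monomials (`Pi.single`, `AddMonoidAlgebra.single_mul_single`;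
equality of exponents in `Fin 10 → ℤ` by `decide` or `funext; fin_cases`). -/
theorem fP_eq : fP k = mon (Pi.single 0 1) * D0 k + mon (Pi.single 1 1) * D1 k := by
  have h0 : fE 0 = Pi.single 0 1 + eD0 0 := by decide
  have h1 : fE 1 = Pi.single 0 1 + eD0 1 := by decide
  have h2 : fE 2 = Pi.single 0 1 + eD0 2 := by decide
  have h3 : fE 3 = Pi.single 1 1 + eD1 0 := by decide
  have h4 : fE 4 = Pi.single 1 1 + eD1 1 := by decide
  have h5 : fE 5 = Pi.single 1 1 + eD1 2 := by decide
  have c0 : fC 0 = 1 := rfl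
  have c1 : fC 1 = -1 := rfl
  have c2 : fC 2 = -1 := rfl
  have c3 : fC 3 = 1 := rfl
  have c4 : fC 4 = -1 := rfl
  have c5 : fC 5 = -1 := rfl
  unfold fP D0 D1
  rw [Fin.sum_univ_six, h0, h1, h2, h3, h4, h5, c0, c1, c2, c3, c4, c5]
  rw [← B3_mon_mul, ← B3_mon_mul, ← B3_mon_mul, ← B3_mon_mul, ← B3_mon_mul, ← B3_mon_mul]
  push_cast
  simp only [one_smul, neg_smul]
  ring

/-- PROOF. Induction on `G`; homogeneous of the right degree. -/
theorem mul_mem_idl (G : List (A k × Deg)) {σ : Finset Vr} {c d : Deg} {p q : A k}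
    (hp : p ∈ gr k σ c) (hq : q ∈ idl G σ d) : p * q ∈ idl G σ (c + d) := by
  induction G generalizing q with
  | nil =>
    rw [show q = 0 from hq, mul_zero]
    exact Submodule.zero_mem _
  | cons g G ih =>
    obtain ⟨x, hx, r, hr, rfl⟩ := Submodule.mem_sup.1 hq
    obtain ⟨q', hq', rfl⟩ := hx
    rw [mul_add]
    refine Submodule.add_mem_sup ⟨p * q', ?_, ?_⟩ (ih hr)
    · have h1 := mul_mem_gr hp hq'
      rwa [← add_sub_assoc] at h1
    · simp only [LinearMap.mulLeft_apply]
      ring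

theorem idl_mono (G : List (A k × Deg)) {σ τ : Finset Vr} (h : σ ⊆ τ) (c : Deg) :
    idl G σ c ≤ idl G τ c := by
  induction G with
  | nil => exact le_rfl
  | cons g G ih => exact sup_le_sup (Submodule.map_mono (gr_mono h _)) ih

/-- PROOF. Induction on `G`. -/
theorem idl_le_gr (G : List (A k × Deg)) (hG : ∀ g ∈ G, g.1 ∈ gr k ∅ g.2) (σ : Finset Vr) (c : Deg) :
    idl G σ c ≤ gr k σ c := by
  induction G with
  | nil => exact bot_le
  | cons g G ih =>
    refine sup_le ?_ (ih fun g' hg' => hG g' (List.mem_cons_of_mem _ hg'))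
    rintro _ ⟨q, hq, rfl⟩
    have h1 := mul_mem_gr (gr_mono (Finset.empty_subset σ) g.2 (hG g List.mem_cons_self)) hq
    rwa [add_sub_cancel] at h1

/-- `q ↦ p q` from `gr σ c` to `gr σ c'`, `c' = c + d`. -/
noncomputable def mulPoly {p : A k} {d : Deg} (hp : p ∈ gr k ∅ d) (σ : Finset Vr) {c c' : Deg}
    (h : c' = c + d) : gr k σ c →ₗ[k] gr k σ c' :=
  (LinearMap.mulLeft k p).restrict fun q hq => by
    subst h
    simpa [add_comm] using mul_mem_gr (gr_mono (Finset.empty_subset σ) d hp) hq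

/-- The morphism `QQ G b ⟶ QQ G' b'`, multiplication by a homogeneous polynomial of degree `b' - b`. -/
noncomputable def mapQQ (G G' : List (A k × Deg)) (p : A k) (d : Deg) (hp : p ∈ gr k ∅ d)
    (hG : ∀ (σ : Finset Vr) (c : Deg), ∀ q ∈ idl G σ c, p * q ∈ idl G' σ (c + d)) (b b' : Deg)
    (hb : b' = b + d) : QQ G b ⟶ QQ G' b' where
  app U := ModuleCat.ofHom (Submodule.mapQ _ _ (mulPoly hp U.σ (c := U.a + b) (c' := U.a + b')
    (by rw [hb]; abel)) fun q hq => by
      have := hG U.σ (U.a + b) q.1 hq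
      rwa [show U.a + b + d = U.a + b' by rw [hb]; abel] at this)
  naturality U V m := by
    refine ModuleCat.hom_ext (LinearMap.ext fun x => ?_)
    obtain ⟨q, rfl⟩ := Submodule.Quotient.mk_surjective _ x
    change Submodule.Quotient.mk _ = Submodule.Quotient.mk _
    congr 1
    ext1
    change p * (mon (Mor.e m) * q.1) = mon (Mor.e m) * (p * q.1)
    ring

theorem mapQQ_mk (G G' : List (A k × Deg)) (p : A k) (d : Deg) (hp : p ∈ gr k ∅ d)
    (hG : ∀ (σ : Finset Vr) (c : Deg), ∀ q ∈ idl G σ c, p * q ∈ idl G' σ (c + d)) (b b' : Deg)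
    (hb : b' = b + d) (U : Ob) (q : gr k U.σ (U.a + b)) (hq : p * q.1 ∈ gr k U.σ (U.a + b')) :
    ((mapQQ G G' p d hp hG b b' hb).app U).hom (Submodule.Quotient.mk q : Qm k G U.σ (U.a + b)) =
      (Submodule.Quotient.mk ⟨p * q.1, hq⟩ : Qm k G' U.σ (U.a + b')) := rfl

end MPbd3808.BR
end

section

/-!
# TASK C4: the coordinate rings of the charts are noetherian
-/

open CategoryTheory CategoryTheory.Limits

namespace MPbd3808.BR

/-- Laurent monomials of degree `0` which are regular on the chart `σ` -/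
def Mon0 (σ : Finset Vr) : AddSubmonoid Ex where
  carrier := {e | Reg σ e ∧ degE e = 0}
  zero_mem' := ⟨Reg.zero, degE_zero⟩
  add_mem' h h' := ⟨h.1.add h'.1, by rw [degE_add, h.2, h'.2, add_zero]⟩

private lemma C4_dg0 : ∀ v : Vr, fam v = 0 → dg v = ![1, 0, 0, 0] := by decide

private lemma C4_dg1 : ∀ v : Vr, fam v = 1 → dg v = ![0, 1, 0, 0] := by decide

private lemma C4_dg2 : ∀ v : Vr, fam v = 2 → dg v = ![0, if v = 4 then -1 else 0, 1, 0] := by
  decide

private lemma C4_dg3 : ∀ v : Vr, fam v = 3 → dg v = ![0, 0, 0, 1] := by decide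

private lemma C4_single (v : Vr) (n : ℤ) : degE (Pi.single v n) = n • dg v := by
  unfold degE
  rw [Finset.sum_eq_single v]
  · rw [Pi.single_eq_same]
  · intro w _ hw
    rw [Pi.single_eq_of_ne hw, zero_smul]
  · intro h
    exact absurd (Finset.mem_univ v) h

/-- the monomial of degree `a` in the variables `v 0, ..., v 3` -/
private def C4_lift (v : Fin 4 → Vr) : Deg →ₗ[ℤ] Ex :=
  (LinearMap.single ℤ (fun _ : Vr => ℤ) (v 0)).comp (LinearMap.proj 0) +
  (LinearMap.single ℤ (fun _ : Vr => ℤ) (v 1)).comp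
    (LinearMap.proj 1 + (if v 2 = 4 then (1 : ℤ) else 0) • LinearMap.proj 2) +
  (LinearMap.single ℤ (fun _ : Vr => ℤ) (v 2)).comp (LinearMap.proj 2) +
  (LinearMap.single ℤ (fun _ : Vr => ℤ) (v 3)).comp (LinearMap.proj 3)

private lemma C4_lift_apply (v : Fin 4 → Vr) (a : Deg) : C4_lift v a =
    Pi.single (v 0) (a 0) + Pi.single (v 1) (a 1 + (if v 2 = 4 then (1 : ℤ) else 0) * a 2) +
      Pi.single (v 2) (a 2) + Pi.single (v 3) (a 3) := by
  rfl

private lemma C4_degE_lift (v : Fin 4 → Vr) (hv : ∀ i, fam (v i) = i) (a : Deg) :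
    degE (C4_lift v a) = a := by
  rw [C4_lift_apply, degE_add, degE_add, degE_add, C4_single, C4_single, C4_single, C4_single,
    C4_dg0 _ (hv 0), C4_dg1 _ (hv 1), C4_dg2 _ (hv 2), C4_dg3 _ (hv 3)]
  funext j
  fin_cases j <;> by_cases h : v 2 = 4 <;> simp [h]

private lemma C4_lift_supp {σ : Finset Vr} (v : Fin 4 → Vr) (hv : ∀ i, v i ∈ σ) (a : Deg)
    {w : Vr} (hw : w ∉ σ) : C4_lift v a w = 0 := by
  have h : ∀ i, w ≠ v i := fun i h => hw (h ▸ hv i)
  rw [C4_lift_apply]
  simp only [Pi.add_apply, Pi.single_eq_of_ne (h _), add_zero]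

/-- For a full set `σ` and a degree `a` there is a monomial of degree `a` which is a unit on `σ`.

PROOF. Choose `v_i ∈ σ` in the four families (`Full`). The degrees of `v_0, ..., v_3` form a basis of `ℤ^4`:
`dg v_0 = (1,0,0,0)`, `dg v_1 = (0,1,0,0)`, `dg v_2 = (0,-1,1,0)` or `(0,0,1,0)`, `dg v_3 = (0,0,0,1)`.
So `e = a_0 [v_0] + (a_1 or a_1 + a_2) [v_1] + a_2 [v_2] + a_3 [v_3]` has degree `a` and support in `σ`.
(`Pi.single`; the degree is computed with `Finset.sum` over `Fin 10`; case distinction over the finitely many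
`v_i` by `fin_cases`/`decide`.) -/
theorem exists_unit_mon {σ : Finset Vr} (hσ : Full σ) (a : Deg) :
    ∃ e : Ex, (∀ v, v ∉ σ → e v = 0) ∧ degE e = a := by
  choose v hv hf using hσ
  exact ⟨C4_lift v a, fun w hw => C4_lift_supp v hv a hw, C4_degE_lift v hf a⟩

/-- The monoid of degree zero monomials on a full chart is finitely generated.

PROOF. Choose `T = {v_0,..,v_3} ⊆ σ` as above. For every variable `w` let `q_w` be `[w]` minus the unique
combination of `v_0, ..., v_3` of degree `dg w` (so `q_w ∈ Mon0 σ`, and `-q_w ∈ Mon0 σ` if `w ∈ σ`). An element `e`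
of `Mon0 σ` is `∑_{w ∉ T} e_w q_w`: the difference has support in `T` and degree `0`, and the degrees of
`v_0, ..., v_3` are linearly independent. Here `e_w ≥ 0` for `w ∉ σ`. So `Mon0 σ` is generated by the finite
set of all `q_w` and the `-q_w` with `w ∈ σ`. -/
theorem mon0_fg {σ : Finset Vr} (hσ : Full σ) : AddMonoid.FG (Mon0 σ) := by
  classical
  choose v hv hf using hσ
  rw [AddMonoid.fg_iff_addSubmonoid_fg]
  let q : Vr → Ex := fun w => Pi.single w 1 - C4_lift v (dg w)
  have hq0 : ∀ w, degE (q w) = 0 := by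
    intro w
    have h1 : q w = Pi.single w 1 + -C4_lift v (dg w) := sub_eq_add_neg _ _
    rw [h1, degE_add, degE_neg, C4_single, C4_degE_lift v hf, one_smul, add_neg_cancel]
  have hqv : ∀ w u, u ∉ σ → q w u = (Pi.single w (1 : ℤ) : Ex) u := by
    intro w u hu
    change (Pi.single w (1 : ℤ) : Ex) u - C4_lift v (dg w) u = _
    rw [C4_lift_supp v hv _ hu, sub_zero]
  have hq1 : ∀ w, q w ∈ Mon0 σ := by
    intro w
    refine ⟨fun u hu => ?_, hq0 w⟩
    rw [hqv w u hu]
    by_cases h : u = w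
    · subst h
      rw [Pi.single_eq_same]
      exact zero_le_one
    · rw [Pi.single_eq_of_ne h]
  have hq2 : ∀ w ∈ σ, -q w ∈ Mon0 σ := by
    intro w hw
    refine ⟨fun u hu => ?_, by rw [degE_neg, hq0, neg_zero]⟩
    have hne : u ≠ w := fun h => hu (by rw [h]; exact hw)
    rw [Pi.neg_apply, hqv w u hu, Pi.single_eq_of_ne hne, neg_zero]
  have hsum : ∀ e : Ex, degE e = 0 → e = ∑ w, e w • q w := by
    intro e he
    have h1 : ∑ w, e w • q w = (∑ w, e w • (Pi.single w 1 : Ex)) - C4_lift v (∑ w, e w • dg w) := by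
      rw [map_sum, ← Finset.sum_sub_distrib]
      refine Finset.sum_congr rfl fun w _ => ?_
      rw [map_smul, ← smul_sub]
    have h2 : ∑ w, e w • dg w = 0 := he
    rw [h1, h2, map_zero, sub_zero]
    funext u
    rw [Finset.sum_apply, Finset.sum_eq_single u]
    · simp
    · intro w _ hw
      rw [Pi.smul_apply, Pi.single_eq_of_ne (Ne.symm hw), smul_zero]
    · intro h
      exact absurd (Finset.mem_univ u) h
  refine ⟨Finset.univ.image q ∪ σ.image (fun w => -q w), le_antisymm ?_ ?_⟩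
  · rw [AddSubmonoid.closure_le]
    intro x hx
    rw [Finset.mem_coe, Finset.mem_union, Finset.mem_image, Finset.mem_image] at hx
    rcases hx with ⟨w, _, rfl⟩ | ⟨w, hw, rfl⟩
    · exact hq1 w
    · exact hq2 w hw
  · intro e he
    rw [hsum e he.2]
    refine AddSubmonoid.sum_mem _ fun w _ => ?_
    rcases le_or_gt 0 (e w) with h | h
    · obtain ⟨n, hn⟩ := Int.eq_ofNat_of_zero_le h
      rw [hn, natCast_zsmul]
      refine AddSubmonoid.nsmul_mem _ (AddSubmonoid.subset_closure ?_) n
      rw [Finset.mem_coe, Finset.mem_union]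
      exact Or.inl (Finset.mem_image_of_mem q (Finset.mem_univ w))
    · have hw : w ∈ σ := by
        by_contra hw
        exact absurd (he.1 w hw) (not_le.2 h)
      obtain ⟨n, hn⟩ := Int.eq_ofNat_of_zero_le (neg_nonneg.2 h.le)
      have h1 : e w • q w = n • (-q w) := by
        rw [← natCast_zsmul, smul_neg, ← neg_smul]
        congr 1
        have : ((n : ℕ) : ℤ) = -e w := hn.symm
        rw [this, neg_neg]
      rw [h1]
      refine AddSubmonoid.nsmul_mem _ (AddSubmonoid.subset_closure ?_) n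
      rw [Finset.mem_coe, Finset.mem_union]
      exact Or.inr (Finset.mem_image_of_mem (fun w => -q w) hw)

universe u
variable (k : Type u) [Field k]

/-- PROOF. `AddMonoidAlgebra.finiteType_of_fg` and `Algebra.FiniteType.isNoetherianRing`. -/
theorem noetherian_mon0 {σ : Finset Vr} (hσ : Full σ) :
    IsNoetherianRing (AddMonoidAlgebra k (Mon0 σ)) := by
  have h := mon0_fg hσ
  have h2 : Algebra.FiniteType k (AddMonoidAlgebra k (Mon0 σ)) :=
    AddMonoidAlgebra.finiteType_of_fg k (Mon0 σ)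
  exact Algebra.FiniteType.isNoetherianRing k _

end MPbd3808.BR
end

section

/-!
# TASK C5: subsheaves of finitely generated sheaves are finitely generated
-/

open CategoryTheory CategoryTheory.Limits

namespace MPbd3808.BR

universe u
variable {k : Type u} [Field k]

/-- `X` is finitely generated on the chart `σ` -/
def FGon (X : FunCat k) {σ : Finset Vr} (hσ : Full σ) : Prop :=
  ∃ (n : ℕ) (d : Fin n → Deg) (g : ∀ i, X.obj (Ob.mk σ hσ (d i))),
    ∀ (a : Deg) (x : X.obj (Ob.mk σ hσ a)),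
    x ∈ Submodule.span k {y | ∃ (i : Fin n) (m : Ob.mk σ hσ (d i) ⟶ Ob.mk σ hσ a),
      y = (X.map m).hom (g i)}

theorem isFG_iff (X : FunCat k) : isFG k X ↔ ∀ (σ : Finset Vr) (hσ : Full σ), FGon X hσ := Iff.rfl

/-- the endomorphism of `(σ,0)` given by a monomial of degree `0` -/
private def C5_mor {σ : Finset Vr} (hσ : Full σ) (e : Mon0 σ) : Ob.mk σ hσ 0 ⟶ Ob.mk σ hσ 0 :=
  Mor.mk e.1 (Finset.Subset.refl _) e.2.1 (by simpa using e.2.2)

private theorem C5_span {R V : Type*} [CommRing R] [Algebra k R] [AddCommGroup V] [Module k V]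
    (φ : R →ₐ[k] Module.End k V) {n : ℕ} (g : Fin n → V) (S : Set V)
    (hS : ∀ y ∈ S, ∃ (i : Fin n) (r : R), y = φ r (g i)) {x : V} (hx : x ∈ Submodule.span k S) :
    ∃ r : Fin n → R, x = ∑ i, φ (r i) (g i) := by
  induction hx using Submodule.span_induction with
  | mem y hy =>
    obtain ⟨i, r, rfl⟩ := hS y hy
    refine ⟨Pi.single i r, ?_⟩
    rw [Finset.sum_eq_single i]
    · simp
    · intro j _ hj
      simp [hj]
    · simp
  | zero => exact ⟨0, by simp⟩
  | add y z _ _ hy hz =>
    obtain ⟨r, rfl⟩ := hy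
    obtain ⟨s, rfl⟩ := hz
    refine ⟨r + s, ?_⟩
    rw [← Finset.sum_add_distrib]
    exact Finset.sum_congr rfl fun i _ => by simp
  | smul c y _ hy =>
    obtain ⟨r, rfl⟩ := hy
    refine ⟨c • r, ?_⟩
    rw [Finset.smul_sum]
    exact Finset.sum_congr rfl fun i _ => by simp

private theorem C5_alg {R V W : Type*} [CommRing R] [Algebra k R] [IsNoetherianRing R]
    [AddCommGroup V] [Module k V] [AddCommGroup W] [Module k W]
    (φ : R →ₐ[k] Module.End k V) (ψ : R →ₐ[k] Module.End k W) (f : V →ₗ[k] W)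
    (hf : Function.Injective f) (hc : ∀ r x, f (φ r x) = ψ r (f x))
    (hW : ∃ (n : ℕ) (g : Fin n → W), ∀ x, ∃ r : Fin n → R, x = ∑ i, ψ (r i) (g i)) :
    ∃ (n : ℕ) (g : Fin n → V), ∀ x, ∃ r : Fin n → R, x = ∑ i, φ (r i) (g i) := by
  classical
  let m1 : Module R V := Module.compHom V φ.toRingHom
  let m2 : Module R W := Module.compHom W ψ.toRingHom
  have s1 : ∀ (r : R) (x : V), r • x = φ r x := fun r x => rfl
  have s2 : ∀ (r : R) (x : W), r • x = ψ r x := fun r x => rfl
  obtain ⟨n, g, hg⟩ := hW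
  have fin : Module.Finite R W := by
    refine ⟨⟨Finset.univ.image g, ?_⟩⟩
    rw [eq_top_iff]
    rintro x -
    obtain ⟨r, hr⟩ := hg x
    rw [hr]
    refine Submodule.sum_mem _ fun i _ => ?_
    rw [← s2]
    exact Submodule.smul_mem _ _ (Submodule.subset_span (by simp))
  have noeW : IsNoetherian R W := isNoetherian_of_isNoetherianRing_of_finite R W
  let f' : V →ₗ[R] W :=
    { toFun := f
      map_add' := fun x y => map_add f x y
      map_smul' := fun r x => hc r x }
  have noeV : IsNoetherian R V := isNoetherian_of_injective f' hf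
  obtain ⟨m, s, hs⟩ := Module.Finite.exists_fin (R := R) (M := V)
  refine ⟨m, s, fun x => ?_⟩
  have hx : x ∈ Submodule.span R (Set.range s) := by rw [hs]; trivial
  obtain ⟨c, hc'⟩ := (Submodule.mem_span_range_iff_exists_fun R).mp hx
  exact ⟨c, hc'.symm⟩

/-- The coordinate ring of the chart `σ` acts on `X(σ,0)`.

CONSTRUCTION/PROOF: there is a `k`-algebra homomorphism
`AddMonoidAlgebra k (Mon0 σ) →ₐ[k] Module.End k (X(σ,0))`, `single e 1 ↦ X.map (e)` (`AddMonoidAlgebra.lift`;
functoriality of `X`: the morphisms `(σ,0) ⟶ (σ,0)` in `Ob` are the elements of `Mon0 σ`, composition is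
addition). -/
theorem exists_action (X : FunCat k) {σ : Finset Vr} (hσ : Full σ) :
    ∃ φ : AddMonoidAlgebra k (Mon0 σ) →ₐ[k] Module.End k (X.obj (Ob.mk σ hσ 0)),
      ∀ (e : Mon0 σ) (x : X.obj (Ob.mk σ hσ 0)), φ (AddMonoidAlgebra.single e 1) x =
        (X.map (Mor.mk e.1 (Finset.Subset.refl _) e.2.1 (by simpa using e.2.2) :
          Ob.mk σ hσ 0 ⟶ Ob.mk σ hσ 0)).hom x := by
  let F : Multiplicative (Mon0 σ) →* Module.End k (X.obj (Ob.mk σ hσ 0)) :=
    { toFun := fun e => (X.map (C5_mor hσ e.toAdd)).hom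
      map_one' := by
        have h : C5_mor hσ (Multiplicative.toAdd (1 : Multiplicative (Mon0 σ))) = 𝟙 (Ob.mk σ hσ 0) := by
          apply hom_ext
          rfl
        rw [h, X.map_id]
        rfl
      map_mul' := by
        intro e e'
        have h : C5_mor hσ (Multiplicative.toAdd (e * e')) =
            C5_mor hσ e'.toAdd ≫ C5_mor hσ e.toAdd := by
          apply hom_ext
          exact add_comm (e.toAdd : Mon0 σ).1 (e'.toAdd : Mon0 σ).1
        rw [h, X.map_comp]
        rfl }
  refine ⟨AddMonoidAlgebra.lift k _ (Mon0 σ) F, fun e x => ?_⟩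
  rw [AddMonoidAlgebra.lift_single, one_smul]
  rfl

/-- `X` is finitely generated on the chart iff `X(σ,0)` is a finitely generated module over the coordinate
ring: there are `x_1, ..., x_n ∈ X(σ,0)` such that every `x ∈ X(σ,0)` is `∑ φ(r_i) x_i`.

PROOF. Let `u_a` be a unit monomial of degree `a` on `σ` (`exists_unit_mon`): `X(u_a) : X(σ,0) → X(σ,a)` is
bijective, and a morphism `(σ,d) ⟶ (σ,a)` is `-u_d` followed by an element of `Mon0 σ` followed by `u_a`. So replace
the generators `g_i` by `X(-u_{d_i}) g_i ∈ X(σ,0)`; conversely generators of `X(σ,0)` are generators (`d_i = 0`).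
The span in `FGon` for `a = 0` is the submodule generated by the `x_i` over the algebra
`AddMonoidAlgebra k (Mon0 σ)` (spanned over `k` by the `single e 1`). -/
theorem fgon_iff (X : FunCat k) {σ : Finset Vr} (hσ : Full σ)
    (φ : AddMonoidAlgebra k (Mon0 σ) →ₐ[k] Module.End k (X.obj (Ob.mk σ hσ 0)))
    (hφ : ∀ (e : Mon0 σ) (x : X.obj (Ob.mk σ hσ 0)), φ (AddMonoidAlgebra.single e 1) x =
        (X.map (Mor.mk e.1 (Finset.Subset.refl _) e.2.1 (by simpa using e.2.2) :
          Ob.mk σ hσ 0 ⟶ Ob.mk σ hσ 0)).hom x) :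
    FGon X hσ ↔ ∃ (n : ℕ) (g : Fin n → X.obj (Ob.mk σ hσ 0)), ∀ x, ∃ r : Fin n →
      AddMonoidAlgebra k (Mon0 σ), x = ∑ i, φ (r i) (g i) := by
  constructor
  · rintro ⟨n, d, g, hg⟩
    choose ud hud1 hud2 using fun i => exists_unit_mon hσ (d i)
    have hneg : ∀ i, Reg σ (-ud i) := fun i v hv => by
      simp [hud1 i v hv]
    have hpos : ∀ i, Reg σ (ud i) := fun i v hv => by
      rw [hud1 i v hv]
    refine ⟨n, fun i => (X.map (mul hσ (a := d i) (b := 0) (-ud i) (hneg i)
      (by rw [degE_neg, hud2]; abel))).hom (g i), fun x => ?_⟩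
    have hx := hg 0 x
    refine C5_span φ _ _ ?_ hx
    rintro y ⟨i, m, rfl⟩
    have hm : (Mor.e m + ud i) ∈ Mon0 σ := by
      refine ⟨m.reg.add (hpos i), ?_⟩
      rw [degE_add, m.deg, hud2]
      show (0 : Deg) - d i + d i = 0
      abel
    refine ⟨i, AddMonoidAlgebra.single ⟨_, hm⟩ 1, ?_⟩
    rw [hφ]
    have e : m = mul hσ (a := d i) (b := 0) (-ud i) (hneg i) (by rw [degE_neg, hud2]; abel) ≫
        (Mor.mk (Mor.e m + ud i) (Finset.Subset.refl _) hm.1 (by simpa using hm.2) :
          Ob.mk σ hσ 0 ⟶ Ob.mk σ hσ 0) := by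
      apply hom_ext
      show Mor.e m = -ud i + (Mor.e m + ud i)
      abel
    conv_lhs => rw [e, X.map_comp]
    rfl
  · rintro ⟨n, g, hg⟩
    refine ⟨n, fun _ => 0, g, fun a x => ?_⟩
    obtain ⟨u, hu1, hu2⟩ := exists_unit_mon hσ a
    have hneg : Reg σ (-u) := fun v hv => by simp [hu1 v hv]
    have hpos : Reg σ u := fun v hv => by rw [hu1 v hv]
    obtain ⟨r, hr⟩ := hg ((X.map (mul hσ (a := a) (b := 0) (-u) hneg
      (by rw [degE_neg, hu2]; abel))).hom x)
    have hx : x = (X.map (mul hσ (a := 0) (b := a) u hpos (by rw [hu2]; abel))).hom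
        ((X.map (mul hσ (a := a) (b := 0) (-u) hneg (by rw [degE_neg, hu2]; abel))).hom x) := by
      have e : mul hσ (a := a) (b := 0) (-u) hneg (by rw [degE_neg, hu2]; abel) ≫
          mul hσ (a := 0) (b := a) u hpos (by rw [hu2]; abel) = 𝟙 (Ob.mk σ hσ a) := by
        apply hom_ext
        show -u + u = 0
        abel
      have e2 := congrArg (fun m => (X.map m).hom x) e
      simp only [X.map_comp, X.map_id] at e2
      exact e2.symm
    rw [hx, hr, map_sum]
    refine Submodule.sum_mem _ fun i _ => ?_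
    generalize r i = s
    induction s using AddMonoidAlgebra.induction_linear with
    | zero => simp
    | add s t hs ht =>
      rw [map_add, LinearMap.add_apply, map_add]
      exact Submodule.add_mem _ hs ht
    | single e c =>
      have h1 : AddMonoidAlgebra.single e c = c • (AddMonoidAlgebra.single e (1 : k)) := by
        rw [AddMonoidAlgebra.smul_single, smul_eq_mul, mul_one]
      rw [h1, map_smul, LinearMap.smul_apply, map_smul, hφ]
      apply Submodule.smul_mem
      apply Submodule.subset_span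
      refine ⟨i, (Mor.mk e.1 (Finset.Subset.refl _) e.2.1 (by simpa using e.2.2) :
          Ob.mk σ hσ 0 ⟶ Ob.mk σ hσ 0) ≫ mul hσ (a := 0) (b := a) u hpos (by rw [hu2]; abel), ?_⟩
      rw [X.map_comp]
      rfl

/-- PROOF. `X(σ,0) ⊆ Y(σ,0)` (injective, compatible with the actions), `Y(σ,0)` is a finitely generated
module over the noetherian ring `AddMonoidAlgebra k (Mon0 σ)` (`noetherian_mon0`), hence a noetherian module
(`isNoetherian_of_isNoetherianRing_of_finite`; make the module structure by `Module.compHom _ φ.toRingHom` on type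
synonyms or use `Module.End` as in `Module.compHom`), so `X(σ,0)` is finitely generated. Use `fgon_iff` twice. -/
theorem fgon_of_injective {X Y : FunCat k} (i : X ⟶ Y) {σ : Finset Vr} (hσ : Full σ)
    (hi : Function.Injective (i.app (Ob.mk σ hσ 0)).hom) (hY : FGon Y hσ) : FGon X hσ := by
  obtain ⟨φ, hφ⟩ := exists_action X hσ
  obtain ⟨ψ, hψ⟩ := exists_action Y hσ
  rw [fgon_iff X hσ φ hφ]
  rw [fgon_iff Y hσ ψ hψ] at hY
  have := noetherian_mon0 k hσ
  refine C5_alg φ ψ (i.app (Ob.mk σ hσ 0)).hom hi ?_ hY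
  intro r x
  induction r using AddMonoidAlgebra.induction_linear with
  | zero => simp
  | add s t hs ht =>
    rw [map_add, map_add, LinearMap.add_apply, LinearMap.add_apply, map_add, hs, ht]
  | single e c =>
    have h1 : AddMonoidAlgebra.single e c = c • (AddMonoidAlgebra.single e (1 : k)) := by
      rw [AddMonoidAlgebra.smul_single, smul_eq_mul, mul_one]
    rw [h1, map_smul, map_smul, LinearMap.smul_apply, LinearMap.smul_apply, map_smul, hφ, hψ]
    congr 1
    exact NatTrans.naturality_apply i _ x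

/-- PROOF. Images of generators. -/
theorem fgon_of_surjective {X Y : FunCat k} (p : X ⟶ Y) {σ : Finset Vr} (hσ : Full σ)
    (hp : ∀ a, Function.Surjective (p.app (Ob.mk σ hσ a)).hom) (hX : FGon X hσ) : FGon Y hσ := by
  obtain ⟨n, d, g, hg⟩ := hX
  refine ⟨n, d, fun j => (p.app (Ob.mk σ hσ (d j))).hom (g j), fun a y => ?_⟩
  obtain ⟨x, rfl⟩ := hp a y
  have hx := hg a x
  induction hx using Submodule.span_induction with
  | mem x h =>
    obtain ⟨j, m, rfl⟩ := h
    apply Submodule.subset_span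
    exact ⟨j, m, NatTrans.naturality_apply p m (g j)⟩
  | zero => rw [map_zero]; exact Submodule.zero_mem _
  | add x y _ _ hx hy => rw [map_add]; exact Submodule.add_mem _ hx hy
  | smul c x _ hx => rw [map_smul]; exact Submodule.smul_mem _ c hx

end MPbd3808.BR
end

section

/-!
# TASK C0: a pointwise criterion for abelian subcategories of `FunCat k`
-/

open CategoryTheory CategoryTheory.Limits

open ZeroObject

namespace MPbd3808.BR

universe u
variable {k : Type u} [Field k]

/-- closure properties of a property of functors, expressed pointwise -/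
structure PwClosed (P : ObjectProperty (FunCat k)) : Prop where
  ker : ∀ {X Y Z : FunCat k} (i : X ⟶ Y) (f : Y ⟶ Z),
    (∀ A, Function.Injective (i.app A).hom) → (∀ A, Function.Exact (i.app A).hom (f.app A).hom) →
    P Y → P Z → P X
  coker : ∀ {X Y Z : FunCat k} (f : X ⟶ Y) (p : Y ⟶ Z),
    (∀ A, Function.Surjective (p.app A).hom) → (∀ A, Function.Exact (f.app A).hom (p.app A).hom) →
    P X → P Y → P Z
  prod : ∀ {X Y Z : FunCat k} (p : Z ⟶ X) (q : Z ⟶ Y),
    (∀ A, Function.Bijective fun z => ((p.app A).hom z, (q.app A).hom z)) → P X → P Y → P Z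
  zero : ∀ X : FunCat k, (∀ A, Subsingleton (X.obj A)) → P X

variable {P : ObjectProperty (FunCat k)}

private theorem C0_sub (A : Ob) : Subsingleton ((0 : FunCat k).obj A) :=
  ModuleCat.subsingleton_of_isZero ((Functor.isZero_iff _).1 (isZero_zero (FunCat k)) A)

/-- PROOF. The zero functor is pointwise a zero module (`zero`). -/
theorem PwClosed.containsZero (h : PwClosed P) : P.ContainsZero where
  exists_zero := ⟨0, isZero_zero _, h.zero _ C0_sub⟩

/-- PROOF. Closed under isomorphisms: `prod` with `Y := 0` or `ker` with `Z = 0`, or `coker` with `X = 0`. -/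
theorem PwClosed.closedIso (h : PwClosed P) : P.IsClosedUnderIsomorphisms where
  of_iso {X Y} e hX := by
    have hbij : ∀ A, Function.Bijective (e.inv.app A).hom := by
      intro A
      have := (ConcreteCategory.isIso_iff_bijective (e.inv.app A)).1 inferInstance
      exact this
    refine h.ker (Z := 0) e.inv 0 (fun A => (hbij A).1) (fun A => ?_) hX (h.zero _ C0_sub)
    intro y
    constructor
    · intro _
      exact (hbij A).2 y
    · intro _
      exact (C0_sub A).elim _ _

private theorem C0_exact (S : ShortComplex (FunCat k)) (hS : S.Exact) (A : Ob) :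
    Function.Exact (S.f.app A).hom (S.g.app A).hom := by
  have h1 := hS.map ((evaluation Ob (ModuleCat.{u} k)).obj A)
  exact (ShortComplex.ShortExact.moduleCat_exact_iff_function_exact _).1 h1

/-- PROOF. Let `c` be a limit kernel fork of `f : X ⟶ Y`. Evaluation at `A : Ob` followed by the forgetful
functor preserves finite limits (`evaluation` preserves limits, `ModuleCat`), so `c.ι.app A` is injective with range
the kernel of `f.app A`. (Or compare `c.pt` with `kernel f` and use that kernels in a functor category are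
computed pointwise: `NatTrans` mono iff pointwise mono, `ShortComplex.exact` pointwise.) Use `ker`. -/
theorem PwClosed.kernels (h : PwClosed P) : P.IsClosedUnderKernels where
  kernels_le := by
    rintro _ ⟨f, c, hc, hf⟩
    have hmono : Mono c.ι := Fork.IsLimit.mono hc
    refine h.ker c.ι f (fun A => ?_) (fun A => ?_) hf.1 hf.2
    · rw [NatTrans.mono_iff_mono_app] at hmono
      exact (ModuleCat.mono_iff_injective _).1 (hmono A)
    · have hS := (ShortComplex.mk c.ι f c.condition).exact_of_f_is_kernel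
        (IsLimit.ofIsoLimit hc (Fork.ext (Iso.refl _)))
      exact C0_exact _ hS A

/-- PROOF. Dual: for a colimit cokernel cofork `c` of `f` the map `c.π.app A` is surjective with kernel the
range of `f.app A`. Use `coker`. -/
theorem PwClosed.cokernels (h : PwClosed P) : P.IsClosedUnderCokernels where
  cokernels_le := by
    rintro _ ⟨f, c, hc, hf⟩
    have hepi : Epi c.π := Cofork.IsColimit.epi hc
    refine h.coker f c.π (fun A => ?_) (fun A => ?_) hf.1 hf.2
    · rw [NatTrans.epi_iff_epi_app] at hepi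
      exact (ModuleCat.epi_iff_surjective _).1 (hepi A)
    · have hS := (ShortComplex.mk f c.π c.condition).exact_of_g_is_cokernel
        (IsColimit.ofIsoColimit hc (Cofork.ext (Iso.refl _)))
      exact C0_exact _ hS A

/-- PROOF. `ObjectProperty.IsClosedUnderFiniteProducts.mk'`: the empty product by `containsZero` and
`closedIso`, binary products by `prod` (a limit binary fan in the functor category is pointwise a product:
evaluation preserves limits; `z ↦ (p z, q z)` is bijective for a product of modules). -/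
theorem PwClosed.finiteProducts (h : PwClosed P) : P.IsClosedUnderFiniteProducts := by
  have h1 := h.containsZero
  have h2 := h.closedIso
  have h3 : P.IsClosedUnderBinaryProducts := by
    refine ⟨?_⟩
    rintro X ⟨p⟩
    refine h.prod (p.π.app ⟨WalkingPair.left⟩) (p.π.app ⟨WalkingPair.right⟩) (fun A => ?_)
      (p.prop_diag_obj _) (p.prop_diag_obj _)
    have ht := isLimitOfPreserves ((evaluation Ob (ModuleCat.{u} k)).obj A ⋙ forget _) p.isLimit
    constructor
    · intro x y hxy
      refine (Types.isLimitEquivSections ht).injective (Subtype.ext (funext ?_))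
      rintro ⟨_ | _⟩
      · exact congrArg Prod.fst hxy
      · exact congrArg Prod.snd hxy
    · rintro ⟨x, y⟩
      let F := p.diag ⋙ ((evaluation Ob (ModuleCat.{u} k)).obj A ⋙ forget (ModuleCat.{u} k))
      let s : F.sections := ⟨fun j => match j with
        | ⟨WalkingPair.left⟩ => x
        | ⟨WalkingPair.right⟩ => y, by
          rintro ⟨_ | _⟩ ⟨_ | _⟩ f
          · obtain rfl : f = 𝟙 _ := Subsingleton.elim _ _
            simp
          · exact absurd (Discrete.eq_of_hom f) (by simp)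
          · exact absurd (Discrete.eq_of_hom f) (by simp)
          · obtain rfl : f = 𝟙 _ := Subsingleton.elim _ _
            simp⟩
      refine ⟨(Types.isLimitEquivSections ht).symm s, ?_⟩
      refine Prod.ext ?_ ?_
      · exact Types.isLimitEquivSections_symm_apply ht s ⟨WalkingPair.left⟩
      · exact Types.isLimitEquivSections_symm_apply ht s ⟨WalkingPair.right⟩
  exact ObjectProperty.IsClosedUnderFiniteProducts.mk'

/-- PROOF. Fieldwise. -/
theorem PwClosed.inf {P Q : ObjectProperty (FunCat k)} (h : PwClosed P) (h' : PwClosed Q) :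
    PwClosed (fun X => P X ∧ Q X) where
  ker i f hi he hY hZ := ⟨h.ker i f hi he hY.1 hZ.1, h'.ker i f hi he hY.2 hZ.2⟩
  coker f p hp he hX hY := ⟨h.coker f p hp he hX.1 hY.1, h'.coker f p hp he hX.2 hY.2⟩
  prod p q hb hX hY := ⟨h.prod p q hb hX.1 hY.1, h'.prod p q hb hX.2 hY.2⟩
  zero X hX := ⟨h.zero X hX, h'.zero X hX⟩

end MPbd3808.BR
end

section

/-!
# TASK C1: quasi-coherent sheaves form an abelian subcategory, 1
-/

open CategoryTheory CategoryTheory.Limits

namespace MPbd3808.BR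

universe u
variable (k : Type u) [Field k]

/-- the action of `f` -/
private noncomputable def C1_act (X : FunCat k) (σ : Finset Vr) (hσ : Full σ) (a : Deg) :
    X.obj (Ob.mk σ hσ a) ⟶ X.obj (Ob.mk σ hσ (a + dF)) :=
  ∑ i, fC i • X.map (mul hσ (b := a + dF) (fE i) (reg_fE σ i) (by rw [degE_fE]; abel) :
      Ob.mk σ hσ a ⟶ Ob.mk σ hσ (a + dF))

private lemma C1_iff (X : FunCat k) :
    isFZero k X ↔ ∀ (σ : Finset Vr) (hσ : Full σ) (a : Deg), C1_act k X σ hσ a = 0 := Iff.rfl

private lemma C1_nat {X Y : FunCat k} (i : X ⟶ Y) (σ : Finset Vr) (hσ : Full σ) (a : Deg) :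
    C1_act k X σ hσ a ≫ i.app (Ob.mk σ hσ (a + dF)) =
      i.app (Ob.mk σ hσ a) ≫ C1_act k Y σ hσ a := by
  unfold C1_act
  rw [Preadditive.sum_comp, Preadditive.comp_sum]
  refine Finset.sum_congr rfl fun j _ => ?_
  rw [Preadditive.zsmul_comp, Preadditive.comp_zsmul, i.naturality]

private lemma C1_nat' {X Y : FunCat k} (i : X ⟶ Y) (σ : Finset Vr) (hσ : Full σ) (a : Deg)
    (x : X.obj (Ob.mk σ hσ a)) :
    (i.app (Ob.mk σ hσ (a + dF))).hom ((C1_act k X σ hσ a).hom x) =
      (C1_act k Y σ hσ a).hom ((i.app (Ob.mk σ hσ a)).hom x) := by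
  have h := congrArg (fun h => h.hom x) (C1_nat k i σ hσ a)
  simpa using h

private lemma C1_zero_iff (X : FunCat k) : isFZero k X ↔ ∀ (σ : Finset Vr) (hσ : Full σ) (a : Deg)
    (x : X.obj (Ob.mk σ hσ a)), (C1_act k X σ hσ a).hom x = 0 := by
  rw [C1_iff]
  constructor
  · intro h σ hσ a x
    rw [h]; rfl
  · intro h σ hσ a
    ext x
    exact h σ hσ a x

/-- PROOF. `f` acts on `X` by a natural expression `∑ fC i • X.map m_i` (naturality of
`i.app`): `i (f x) = f (i x)`; subobjects, quotients, products, zero: elementwise. -/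
theorem pwClosed_isFZero : PwClosed (isFZero k) := by
  refine ⟨?_, ?_, ?_, ?_⟩
  · intro X Y Z i f hi _ hY _
    rw [C1_zero_iff] at hY ⊢
    intro σ hσ a x
    apply hi (Ob.mk σ hσ (a + dF))
    rw [C1_nat', hY, map_zero]
  · intro X Y Z f p hp _ _ hY
    rw [C1_zero_iff] at hY ⊢
    intro σ hσ a z
    obtain ⟨y, rfl⟩ := hp (Ob.mk σ hσ a) z
    rw [← C1_nat', hY, map_zero]
  · intro X Y Z p q hpq hX hY
    rw [C1_zero_iff] at hX hY ⊢
    intro σ hσ a z
    apply (hpq (Ob.mk σ hσ (a + dF))).1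
    simp only [C1_nat', hX, hY, map_zero]
  · intro X hX
    rw [C1_zero_iff]
    intro σ hσ a x
    have := hX (Ob.mk σ hσ (a + dF))
    exact Subsingleton.elim _ _

end MPbd3808.BR
end

section

/-!
# TASK S1: Laurent polynomials and polynomials

`mvl` is the inclusion of the polynomial ring into the ring of Laurent polynomials.

* `mvl_monomial`: `MvPolynomial.monomial_eq`, products of `single`s (`AddMonoidAlgebra.single_pow`,
  induction over the finite set of variables), or `MvPolynomial.induction_on`.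
* `exists_mvl`: by induction on `p` (or write `p` as a sum over its support): each monomial `single e c` with
  `e ≥ 0` is `mvl (monomial (toNat ∘ e) c)`.
* `mvl_coeff_nonneg`: `P` is the sum of its monomials.
* `mev_mvl`: `MvPolynomial.algHom_ext`.
* `exists_shift`: take the sum (or the maximum) of the `|e i|` over the support of `p`.
* `mev_injective`: let `mev v p = 0`; with `exists_shift` there is `n` such that `single n 1 * p = mvl P`; so
  `aeval v P = mev v (single n 1) * mev v p = 0`, `P = 0` by `AlgebraicIndependent`, `single n 1 * p = 0`, and multiplying by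
  `single (-n) 1` we get `p = 0`.
-/

set_option autoImplicit false

noncomputable section

open CategoryTheory CategoryTheory.Limits

namespace MPbd3808.BR.SX

universe u v w

variable {k : Type u} [Field k] {ι : Type v} [Fintype ι] [DecidableEq ι]

/-- The inclusion of the polynomials into the Laurent polynomials. -/
def mvl : MvPolynomial ι k →ₐ[k] AddMonoidAlgebra k (ι → ℤ) :=
  MvPolynomial.aeval (fun i => AddMonoidAlgebra.single (Pi.single i (1 : ℤ)) (1 : k))

theorem mvl_X (i : ι) : mvl (MvPolynomial.X i) =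
    (AddMonoidAlgebra.single (Pi.single i (1 : ℤ)) (1 : k) : AddMonoidAlgebra k (ι → ℤ)) := by
  unfold mvl
  rw [MvPolynomial.aeval_X]

theorem mvl_monomial (e : ι →₀ ℕ) (c : k) : mvl (MvPolynomial.monomial e c) =
    (AddMonoidAlgebra.single (fun i => (e i : ℤ)) c : AddMonoidAlgebra k (ι → ℤ)) := by
  have h1 : (e.prod fun i n =>
      (AddMonoidAlgebra.single (Pi.single i (1 : ℤ)) (1 : k) : AddMonoidAlgebra k (ι → ℤ)) ^ n) =
      AddMonoidAlgebra.single (fun i => (e i : ℤ)) (1 : k) := by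
    induction e using Finsupp.induction_linear with
    | zero => simp [AddMonoidAlgebra.one_def]; rfl
    | add f g hf hg =>
      rw [Finsupp.prod_add_index' (by simp) (by intro i a b; rw [pow_add]), hf, hg,
        AddMonoidAlgebra.single_mul_single, one_mul]
      rfl
    | single i n =>
      rw [Finsupp.prod_single_index (by simp), AddMonoidAlgebra.single_pow]
      congr 1
      · funext j
        rcases eq_or_ne i j with rfl | hij
        · simp
        · simp [Finsupp.single_apply, hij, Pi.single_apply, Ne.symm hij]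
      · simp
  unfold mvl
  rw [MvPolynomial.aeval_monomial, h1, AddMonoidAlgebra.coe_algebraMap]
  simp only [Function.comp_apply, Algebra.algebraMap_self, RingHom.id_apply]
  rw [AddMonoidAlgebra.single_mul_single]
  simp

theorem exists_mvl (p : AddMonoidAlgebra k (ι → ℤ))
    (hp : ∀ e, p.coeff e ≠ 0 → ∀ i, 0 ≤ e i) : ∃ P : MvPolynomial ι k, mvl P = p := by
  refine ⟨∑ e ∈ p.coeff.support,
    MvPolynomial.monomial (Finsupp.equivFunOnFinite.symm (fun i => (e i).toNat)) (p.coeff e), ?_⟩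
  rw [map_sum]
  conv_rhs => rw [← AddMonoidAlgebra.sum_coeff_single p]
  unfold Finsupp.sum
  refine Finset.sum_congr rfl fun e he => ?_
  rw [mvl_monomial]
  congr 1
  funext i
  have h := hp e (Finsupp.mem_support_iff.1 he) i
  simp [Int.toNat_of_nonneg h]

theorem mvl_coeff_nonneg (P : MvPolynomial ι k) (e : ι → ℤ) (he : (mvl P).coeff e ≠ 0) (i : ι) :
    0 ≤ e i := by
  rw [P.as_sum, map_sum, AddMonoidAlgebra.coeff_sum, Finsupp.finset_sum_apply] at he
  obtain ⟨d, hd, hd2⟩ := Finset.exists_ne_zero_of_sum_ne_zero he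
  rw [mvl_monomial, AddMonoidAlgebra.coeff_single, Finsupp.single_apply] at hd2
  have h3 : (fun i => (d i : ℤ)) = e := by
    by_contra h
    rw [if_neg h] at hd2
    exact hd2 rfl
  rw [← h3]
  exact Int.natCast_nonneg _

theorem mev_mvl {K : Type w} [CommRing K] [Algebra k K] (v : ι → Kˣ) (P : MvPolynomial ι k) :
    mev v (mvl P) = MvPolynomial.aeval (fun i => (v i : K)) P := by
  have h : (mev v).comp (mvl (k := k) (ι := ι)) = MvPolynomial.aeval (fun i => (v i : K)) := by
    refine MvPolynomial.algHom_ext fun i => ?_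
    rw [AlgHom.comp_apply, mvl_X, mev_single, MvPolynomial.aeval_X, one_smul]
    congr 1
    rw [Finset.prod_eq_single i]
    · simp
    · intro j _ hj
      simp [Pi.single_apply, hj]
    · simp
  exact DFunLike.congr_fun h P

/-- Every Laurent polynomial becomes a polynomial after multiplication by a monomial. -/
theorem exists_shift (p : AddMonoidAlgebra k (ι → ℤ)) :
    ∃ N : ℕ, ∀ n : ι → ℤ, (∀ i, (N : ℤ) ≤ n i) → ∀ e, p.coeff e ≠ 0 → ∀ i, 0 ≤ (n + e) i := by
  refine ⟨∑ e ∈ p.coeff.support, ∑ i, (e i).natAbs, fun n hn e he i => ?_⟩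
  have h1 : (e i).natAbs ≤ ∑ e ∈ p.coeff.support, ∑ i, (e i).natAbs :=
    le_trans (Finset.single_le_sum (f := fun i => (e i).natAbs) (fun _ _ => Nat.zero_le _)
      (Finset.mem_univ i))
      (Finset.single_le_sum (f := fun e : ι → ℤ => ∑ i, (e i).natAbs) (fun _ _ => Nat.zero_le _)
        (Finsupp.mem_support_iff.2 he))
  have h2 := hn i
  rw [Pi.add_apply]
  omega

theorem mev_injective {K : Type w} [CommRing K] [Algebra k K] (v : ι → Kˣ)
    (h : AlgebraicIndependent k (fun i => (v i : K))) :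
    Function.Injective (mev v : AddMonoidAlgebra k (ι → ℤ) →ₐ[k] K) := by
  rw [injective_iff_map_eq_zero]
  intro p hp
  obtain ⟨N, hN⟩ := exists_shift p
  set n : ι → ℤ := fun _ => (N : ℤ) with hn
  have h1 : ∀ e, ((AddMonoidAlgebra.single n (1 : k) : AddMonoidAlgebra k (ι → ℤ)) * p).coeff e ≠ 0 →
      ∀ i, 0 ≤ e i := by
    intro e he i
    rw [AddMonoidAlgebra.coeff_single_mul_apply, one_mul] at he
    have h := hN n (fun _ => le_rfl) _ he i
    simpa using h
  obtain ⟨P, hP⟩ := exists_mvl _ h1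
  have h2 : MvPolynomial.aeval (fun i => (v i : K)) P = 0 := by
    rw [← mev_mvl, hP, map_mul, hp, mul_zero]
  have h3 : P = 0 := h (by rw [h2, map_zero])
  have h4 : (AddMonoidAlgebra.single n (1 : k) : AddMonoidAlgebra k (ι → ℤ)) * p = 0 := by
    rw [← hP, h3, map_zero]
  have h5 : (AddMonoidAlgebra.single (-n) (1 : k) : AddMonoidAlgebra k (ι → ℤ)) *
      (AddMonoidAlgebra.single n (1 : k) * p) = p := by
    rw [← mul_assoc, AddMonoidAlgebra.single_mul_single, neg_add_cancel, one_mul,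
      ← AddMonoidAlgebra.one_def, one_mul]
  rw [← h5, h4, mul_zero]

end MPbd3808.BR.SX
end
end

section

/-!
# Laurent polynomials in the ten Cox variables
-/

set_option autoImplicit false

open CategoryTheory CategoryTheory.Limits

namespace BS

open MPbd3808.BR

universe u

variable (k : Type u) [Field k]

/-- Laurent polynomials in the ten Cox variables -/
abbrev Lau := AddMonoidAlgebra k Ex

/-- the Laurent monomial `c x^e` -/
noncomputable abbrev mono (e : Ex) (c : k) : Lau k := AddMonoidAlgebra.single e c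

/-- Laurent polynomials which are homogeneous of degree `a` and regular on the chart `σ` (where the
variables in `σ` are invertible) -/
noncomputable def LD (σ : Finset Vr) (a : Deg) : Submodule k (Lau k) where
  carrier := {p | ∀ e ∈ p.coeff.support, Reg σ e ∧ degE e = a}
  zero_mem' := by intro e he; simp at he
  add_mem' := by
    intro p q hp hq e he
    rcases Finset.mem_union.1 (Finsupp.support_add he) with h | h
    · exact hp e h
    · exact hq e h
  smul_mem' := by
    intro c p hp e he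
    exact hp e (Finsupp.support_smul he)

lemma mem_LD {σ : Finset Vr} {a : Deg} {p : Lau k} :
    p ∈ LD k σ a ↔ ∀ e ∈ p.coeff.support, Reg σ e ∧ degE e = a := Iff.rfl

lemma mono_mem {σ : Finset Vr} {a : Deg} {e : Ex} (hr : Reg σ e) (hd : degE e = a) (c : k) :
    mono k e c ∈ LD k σ a := by
  intro e' he'
  have := Finset.mem_singleton.1 (Finsupp.support_single_subset he')
  subst this
  exact ⟨hr, hd⟩

lemma mul_mem_LD {σ : Finset Vr} {a b : Deg} {p q : Lau k} (hp : p ∈ LD k σ a) (hq : q ∈ LD k σ b) :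
    p * q ∈ LD k σ (a + b) := by
  classical
  intro e he
  obtain ⟨x, hx, y, hy, rfl⟩ := Finset.mem_add.1 (AddMonoidAlgebra.support_coeff_mul_subset p q he)
  exact ⟨(hp x hx).1.add (hq y hy).1, by rw [degE_add, (hp x hx).2, (hq y hy).2]⟩

lemma LD_mono {σ τ : Finset Vr} (h : σ ⊆ τ) (a : Deg) : LD k σ a ≤ LD k τ a :=
  fun p hp e he => ⟨(hp e he).1.mono h, (hp e he).2⟩

/-- the algebra of Laurent polynomials of degree `0`, regular on the chart `σ` -/
noncomputable def L0 (σ : Finset Vr) : Subalgebra k (Lau k) where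
  carrier := LD k σ 0
  mul_mem' := by
    intro p q hp hq
    have := mul_mem_LD k hp hq
    rwa [add_zero] at this
  add_mem' := by
    intro p q hp hq
    exact (LD k σ 0).add_mem hp hq
  algebraMap_mem' := by
    intro c
    change algebraMap k (Lau k) c ∈ LD k σ 0
    exact mono_mem k Reg.zero degE_zero c

lemma mem_L0 {σ : Finset Vr} {p : Lau k} : p ∈ L0 k σ ↔ p ∈ LD k σ 0 := Iff.rfl

/-- a Laurent monomial of degree `0` -/
noncomputable def mon0 {σ : Finset Vr} (e : Ex) (hr : Reg σ e) (hd : degE e = 0) : L0 k σ :=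
  ⟨mono k e 1, mono_mem k hr hd 1⟩

/-- the inclusion of `L0 σ` in `L0 τ` for `σ ⊆ τ` -/
noncomputable def incl {σ τ : Finset Vr} (h : σ ⊆ τ) : L0 k σ →ₐ[k] L0 k τ :=
  Subalgebra.inclusion (fun _ hp => LD_mono k h 0 hp)

/-- the polynomial `f` -/
noncomputable def ff : Lau k := ∑ i, mono k (fE i) ((fC i : ℤ) : k)

lemma ff_mem (σ : Finset Vr) : ff k ∈ LD k σ dF :=
  Submodule.sum_mem _ fun i _ => mono_mem k (reg_fE σ i) (degE_fE i) _

/-- the variables outside `σ` with a positive exponent, together with `σ` -/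
def supp (σ : Finset Vr) (e : Ex) : Finset Vr := σ ∪ Finset.univ.filter fun v => 0 < e v

lemma subset_supp (σ : Finset Vr) (e : Ex) : σ ⊆ supp σ e := Finset.subset_union_left

noncomputable instance : IsDomain (Lau k) := inferInstance

end BS
end
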