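import Pool.Agent.Lib.MP_bd3808_ag.Mg.G001
import Pool.Agent.Lib.MP_bd3808_ag.Mg.G005
import Pool.Agent.Lib.MP_bd3808_ag.Mg.G006
import Pool.Agent.Lib.MP_bd3808_ag.Mg.G010
import Pool.Agent.Lib.MP_bd3808_ag.Mg.G002

section

/-!
# TASK PoB
-/

set_option autoImplicit false

noncomputable section

open CategoryTheory CategoryTheory.Limits CategoryTheory.Pretriangulated

namespace BO

universe w v u

variable (k : Type w) [Field k] {C : Type u} [Category.{v} C] [Preadditive C] [Linear k C]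
  [HasZeroObject C] [HasShift C ℤ] [∀ n : ℤ, (shiftFunctor C n).Additive]
  [∀ n : ℤ, Functor.Linear k (shiftFunctor C n)] [Pretriangulated C]

/-- If a block of `d` has its cone in the triangulated subcategory `P`, and the complementary summands are in `P`, then the cone
of `d` is in `P`.

PROOF. `P.trW` (morphisms whose cone is in `P`) satisfies 2-out-of-3 (instance `P.trW.HasTwoOutOfThreeProperty`, needs
`IsTriangulated C`). `biprod.inl` has cone `Y`, `biprod.snd : Z ⊞ W ⟶ W` has fibre `Z` (split triangles), the composite is in `P.trW` by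
`hD`; so `d` is in `P.trW`, and `N` is isomorphic to an object of `P`. -/
theorem cone_block [IsTriangulated C] {X Y Z W D N : C} (P : ObjectProperty C) [P.IsTriangulated]
    [P.IsClosedUnderIsomorphisms] (d : X ⊞ Y ⟶ Z ⊞ W) (i : Z ⊞ W ⟶ N) (j : N ⟶ (X ⊞ Y)⟦(1 : ℤ)⟧)
    (hd : Triangle.mk d i j ∈ distTriang C) (hY : P Y) (hZ : P Z) (b : W ⟶ D) (c : D ⟶ X⟦(1 : ℤ)⟧)
    (hD : Triangle.mk (biprod.inl ≫ d ≫ biprod.snd) b c ∈ distTriang C) (hPD : P D) : P N := by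
  obtain ⟨E, e2, e3, he⟩ := distinguished_cocone_triangle (biprod.inl ≫ d)
  have hsnd := rot_of_distTriang _ (binaryBiproductTriangle_distinguished Z W)
  have H1 := Triangulated.someOctahedron (u₁₂ := biprod.inl ≫ d) (u₂₃ := (biprod.snd : Z ⊞ W ⟶ W))
    (u₁₃ := biprod.inl ≫ d ≫ biprod.snd) (Category.assoc _ _ _) he hsnd hD
  have hE : P E := P.ext_of_isTriangulatedClosed₁ _ H1.mem hPD (P.le_shift 1 _ hZ)
  have H2 := Triangulated.someOctahedron (u₁₂ := (biprod.inl : X ⟶ X ⊞ Y)) (u₂₃ := d)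
    (u₁₃ := biprod.inl ≫ d) rfl (binaryBiproductTriangle_distinguished X Y) hd he
  exact P.ext_of_isTriangulatedClosed₃ _ H2.mem hY hE

end BO
end
end

section

/-!
# TASK PoN
-/

set_option autoImplicit false

noncomputable section

open CategoryTheory CategoryTheory.Limits CategoryTheory.Pretriangulated

namespace BO

universe w v u

variable (k : Type w) [Field k] {C : Type u} [Category.{v} C] [Preadditive C] [Linear k C]
  [HasZeroObject C] [HasShift C ℤ] [∀ n : ℤ, (shiftFunctor C n).Additive]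
  [∀ n : ℤ, Functor.Linear k (shiftFunctor C n)] [Pretriangulated C]

omit [HasZeroObject C] [Pretriangulated C] in
private theorem vshift {X Y : C} (m n l : ℤ) (h : n + m = l)
    (hv : ∀ x : X ⟶ Y⟦n⟧, x = 0) (x : X⟦m⟧ ⟶ Y⟦l⟧) : x = 0 := by
  obtain ⟨y, hy⟩ := (shiftFunctor C m).map_surjective
    (x ≫ (shiftFunctorAdd' C n m l h).hom.app Y)
  rw [hv y, Functor.map_zero] at hy
  exact (cancel_mono ((shiftFunctorAdd' C n m l h).hom.app Y)).1 (by rw [← hy, zero_comp])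

omit [HasZeroObject C] [Pretriangulated C] in
private theorem vshift0 {X Y : C} (m n : ℤ) (h : n + m = 0)
    (hv : ∀ x : X ⟶ Y⟦n⟧, x = 0) (x : X⟦m⟧ ⟶ Y) : x = 0 := by
  obtain ⟨y, hy⟩ := (shiftFunctor C m).map_surjective
    (x ≫ (shiftFunctorCompIsoId C n m h).inv.app Y)
  rw [hv y, Functor.map_zero] at hy
  exact (cancel_mono ((shiftFunctorCompIsoId C n m h).inv.app Y)).1 (by rw [← hy, zero_comp])

private theorem yex3 {X Y W V : C} {a : X ⟶ Y} {b : Y ⟶ W} {c : W ⟶ X⟦(1 : ℤ)⟧}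
    (h : Triangle.mk a b c ∈ distTriang C) (x : W ⟶ V) (hx : b ≫ x = 0) :
    ∃ y : X⟦(1 : ℤ)⟧ ⟶ V, x = c ≫ y :=
  Triangle.yoneda_exact₃ _ h x hx

private theorem yex2 {X Y W V : C} {a : X ⟶ Y} {b : Y ⟶ W} {c : W ⟶ X⟦(1 : ℤ)⟧}
    (h : Triangle.mk a b c ∈ distTriang C) (x : Y ⟶ V) (hx : a ≫ x = 0) :
    ∃ y : W ⟶ V, x = b ≫ y :=
  Triangle.yoneda_exact₂ _ h x hx

private theorem yex1 {X Y W V : C} {a : X ⟶ Y} {b : Y ⟶ W} {c : W ⟶ X⟦(1 : ℤ)⟧}
    (h : Triangle.mk a b c ∈ distTriang C) (x : X ⟶ V) (hx : c ≫ x⟦(1 : ℤ)⟧' = 0) :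
    ∃ y : Y ⟶ V, x = a ≫ y := by
  have h1 := rot_of_distTriang _ (rot_of_distTriang _ h)
  obtain ⟨g, hg⟩ : ∃ g : Y⟦(1 : ℤ)⟧ ⟶ V⟦(1 : ℤ)⟧, x⟦(1 : ℤ)⟧' = (-a⟦(1 : ℤ)⟧') ≫ g :=
    Triangle.yoneda_exact₂ _ h1 (x⟦(1 : ℤ)⟧') hx
  obtain ⟨y, hy⟩ := (shiftFunctor C (1 : ℤ)).map_surjective g
  refine ⟨-y, (shiftFunctor C (1 : ℤ)).map_injective ?_⟩
  rw [hg, ← hy, Preadditive.neg_comp, Preadditive.comp_neg, Functor.map_neg, Functor.map_comp]

private theorem slift {S X0 A W : C} {f : S ⟶ X0} {p : X0 ⟶ A⟦(-2 : ℤ)⟧} {gA : A ⟶ S⟦(3 : ℤ)⟧}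
    (h : IsTwist f p gA) (x : S ⟶ W) (hx : gA ≫ x⟦(3 : ℤ)⟧' = 0) : ∃ y : X0 ⟶ W, x = f ≫ y := by
  refine yex1 h.dist x ?_
  rw [Category.assoc, ← NatTrans.naturality]
  change gA⟦(-2 : ℤ)⟧' ≫ (x⟦(3 : ℤ)⟧')⟦(-2 : ℤ)⟧' ≫ _ = 0
  rw [← Functor.map_comp_assoc, hx, Functor.map_zero, zero_comp]

private theorem dzero {X Y W Z : C} {a : X ⟶ Y} {b : Y ⟶ W} {c : W ⟶ X⟦(1 : ℤ)⟧}
    (h : Triangle.mk a b c ∈ distTriang C) (vX : ∀ (n : ℤ) (x : X ⟶ Z⟦n⟧), x = 0)
    (vY : ∀ (n : ℤ) (x : Y ⟶ Z⟦n⟧), x = 0) (n : ℤ) (x : W ⟶ Z⟦n⟧) : x = 0 := by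
  obtain ⟨y, hy⟩ := yex3 h x (vY n _)
  rw [hy, vshift 1 (n - 1) n (by ring) (vX (n - 1)) y, comp_zero]

/-- (PL2) Homs from the convolution into an object `Z` such that `Hom(Xᵢ,Z[n]) = 0` for `n ≠ 0`.

PROOF. `tri1`: `Hom(N,Z[n]) = 0` for `n ≠ 0, 1`; `Hom(N,Z) = {x : X2 → Z | d1 ≫ x = 0}` (composition with `i`); `Hom(N,Z[1])` is the
quotient of `Hom(X1,Z) = Hom(X1[1],Z[1])` (composition with `j`) by `d1 ≫ Hom(X2,Z)`. `tri2`: `Hom(A,Z) = {x : X3 → Z | d2 ≫ x = 0}`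
(composition with `e`; `Hom(N[1],Z) = 0`), `Hom(A,Z[1]) = Hom(N,Z) / (n ≫ Hom(X3,Z))`, `Hom(A,Z[2]) = Hom(N,Z[1])` (composition with
`r`), `Hom(A,Z[n]) = 0` otherwise. `tri3` (and `hp`): `Hom(A,Z[2]) → Hom(X0,Z) → Hom(S,Z) → 0` is exact and the image of the first map is
`d0 ≫ Hom(X1,Z)`; `Hom(S,Z[-1])` embeds in the kernel of the first map, which is `ker d0 / im d1`; `Hom(S,Z[-2]) ≃ Hom(A,Z[1])`,
`Hom(S,Z[-3]) ≃ Hom(A,Z)`, `Hom(S,Z[n]) = 0` otherwise. -/
theorem Conv.con {X0 X1 X2 X3 : C} {d0 : X0 ⟶ X1} {d1 : X1 ⟶ X2} {d2 : X2 ⟶ X3}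
    (K : Conv d0 d1 d2) (Z : C)
    (v0 : ∀ n : ℤ, n ≠ 0 → ∀ x : X0 ⟶ Z⟦n⟧, x = 0) (v1 : ∀ n : ℤ, n ≠ 0 → ∀ x : X1 ⟶ Z⟦n⟧, x = 0)
    (v2 : ∀ n : ℤ, n ≠ 0 → ∀ x : X2 ⟶ Z⟦n⟧, x = 0) (v3 : ∀ n : ℤ, n ≠ 0 → ∀ x : X3 ⟶ Z⟦n⟧, x = 0) :
    (∀ n : ℤ, n ≠ 0 → n ≠ -1 → n ≠ -2 → n ≠ -3 → ∀ x : K.S ⟶ Z⟦n⟧, x = 0) ∧
    ((∀ x : X1 ⟶ Z, d0 ≫ x = 0 → ∃ y, d1 ≫ y = x) → ∀ x : K.S ⟶ Z⟦(-1 : ℤ)⟧, x = 0) ∧
    ((∀ x : X2 ⟶ Z, d1 ≫ x = 0 → ∃ y, d2 ≫ y = x) → ∀ x : K.S ⟶ Z⟦(-2 : ℤ)⟧, x = 0) ∧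
    (∃ L : (K.S ⟶ Z⟦(-3 : ℤ)⟧) →ₗ[k] (X3 ⟶ Z), Function.Injective L ∧ ∀ h, d2 ≫ L h = 0) ∧
    (∀ x : K.S ⟶ Z, ∃ y : X0 ⟶ Z, x = K.f ≫ y) ∧
    (∀ y : X0 ⟶ Z, K.f ≫ y = 0 → ∃ x : X1 ⟶ Z, y = d0 ≫ x) := by
  -- N
  have Nvan : ∀ n : ℤ, n ≠ 0 → n ≠ 1 → ∀ x : K.N ⟶ Z⟦n⟧, x = 0 := by
    intro n h0 h1 x
    obtain ⟨y, hy⟩ := yex3 K.tri1 x (v2 n h0 _)
    rw [hy, vshift 1 (n - 1) n (by ring) (v1 (n - 1) (by intro h; apply h1; linarith)) y, comp_zero]
  have Ninj : ∀ x : K.N ⟶ Z, K.i ≫ x = 0 → x = 0 := by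
    intro x hx
    obtain ⟨y, hy⟩ := yex3 K.tri1 x hx
    rw [hy, vshift0 1 (-1) (by norm_num) (v1 (-1) (by norm_num)) y, comp_zero]
  have N1 : ∀ x : K.N ⟶ Z⟦(1 : ℤ)⟧, ∃ y : X1 ⟶ Z, x = K.j ≫ y⟦(1 : ℤ)⟧' := by
    intro x
    obtain ⟨y, hy⟩ := yex3 K.tri1 x (v2 1 (by norm_num) _)
    obtain ⟨y', hy'⟩ := (shiftFunctor C (1 : ℤ)).map_surjective y
    exact ⟨y', by rw [hy, ← hy']⟩
  -- A
  have Avan : ∀ n : ℤ, n ≠ 0 → n ≠ 1 → n ≠ 2 → ∀ x : K.A ⟶ Z⟦n⟧, x = 0 := by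
    intro n h0 h1 h2 x
    obtain ⟨y, hy⟩ := yex3 K.tri2 x (v3 n h0 _)
    rw [hy, vshift 1 (n - 1) n (by ring) (Nvan (n - 1) (by intro h; apply h1; linarith)
      (by intro h; apply h2; linarith)) y, comp_zero]
  have Ainj : ∀ x : K.A ⟶ Z, K.e ≫ x = 0 → x = 0 := by
    intro x hx
    obtain ⟨y, hy⟩ := yex3 K.tri2 x hx
    rw [hy, vshift0 1 (-1) (by norm_num) (Nvan (-1) (by norm_num) (by norm_num)) y, comp_zero]
  have A1 : ∀ x : K.A ⟶ Z⟦(1 : ℤ)⟧, ∃ y : K.N ⟶ Z, x = K.r ≫ y⟦(1 : ℤ)⟧' := by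
    intro x
    obtain ⟨y, hy⟩ := yex3 K.tri2 x (v3 1 (by norm_num) _)
    obtain ⟨y', hy'⟩ := (shiftFunctor C (1 : ℤ)).map_surjective y
    exact ⟨y', by rw [hy, ← hy']⟩
  have A2 : ∀ x : K.A ⟶ Z⟦(2 : ℤ)⟧, ∃ y : X1 ⟶ Z, x = K.r ≫ (K.j⟦(1 : ℤ)⟧') ≫
      (y⟦(1 : ℤ)⟧')⟦(1 : ℤ)⟧' ≫ (shiftFunctorAdd' C (1 : ℤ) 1 2 (by norm_num)).inv.app Z := by
    intro x
    obtain ⟨y, hy⟩ := yex3 K.tri2 x (v3 2 (by norm_num) _)
    obtain ⟨y', hy'⟩ := (shiftFunctor C (1 : ℤ)).map_surjective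
      (y ≫ (shiftFunctorAdd' C (1 : ℤ) 1 2 (by norm_num)).hom.app Z)
    obtain ⟨y'', hy''⟩ := N1 y'
    refine ⟨y'', ?_⟩
    rw [hy'', Functor.map_comp] at hy'
    have h3 : y = (K.j⟦(1 : ℤ)⟧' ≫ (y''⟦(1 : ℤ)⟧')⟦(1 : ℤ)⟧') ≫
        (shiftFunctorAdd' C (1 : ℤ) 1 2 (by norm_num)).inv.app Z := by
      rw [hy', Category.assoc, Iso.hom_inv_id_app]
      exact (Category.comp_id y).symm
    rw [hy, h3, Category.assoc]
  -- the key formula
  have key : ∀ y : X1 ⟶ Z, ∃ u : ℤˣ, K.p ≫ (K.r ≫ (K.j⟦(1 : ℤ)⟧') ≫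
      (y⟦(1 : ℤ)⟧')⟦(1 : ℤ)⟧' ≫ (shiftFunctorAdd' C (1 : ℤ) 1 2 (by norm_num)).inv.app Z)⟦(-2 : ℤ)⟧' ≫
      (shiftFunctorCompIsoId C (2 : ℤ) (-2) (by norm_num)).hom.app Z = u • (d0 ≫ y) := by
    intro y
    have h1 : K.p ≫ (K.r ≫ (K.j⟦(1 : ℤ)⟧') ≫
      (y⟦(1 : ℤ)⟧')⟦(1 : ℤ)⟧' ≫ (shiftFunctorAdd' C (1 : ℤ) 1 2 (by norm_num)).inv.app Z)⟦(-2 : ℤ)⟧' ≫
      (shiftFunctorCompIsoId C (2 : ℤ) (-2) (by norm_num)).hom.app Z =
      (K.p ≫ K.r⟦(-2 : ℤ)⟧' ≫ (K.j⟦(1 : ℤ)⟧')⟦(-2 : ℤ)⟧' ≫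
    ((shiftFunctorAdd' C (1 : ℤ) 1 2 (by norm_num)).inv.app X1)⟦(-2 : ℤ)⟧' ≫
    (shiftFunctorCompIsoId C (2 : ℤ) (-2) (by norm_num)).hom.app X1) ≫ y := by
      have h2 : (y⟦(1 : ℤ)⟧')⟦(1 : ℤ)⟧' ≫ (shiftFunctorAdd' C (1 : ℤ) 1 2 (by norm_num)).inv.app Z =
          (shiftFunctorAdd' C (1 : ℤ) 1 2 (by norm_num)).inv.app X1 ≫ y⟦(2 : ℤ)⟧' :=
        (shiftFunctorAdd' C (1 : ℤ) 1 2 (by norm_num)).inv.naturality y
      have h3 : (y⟦(2 : ℤ)⟧')⟦(-2 : ℤ)⟧' ≫
          (shiftFunctorCompIsoId C (2 : ℤ) (-2) (by norm_num)).hom.app Z =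
          (shiftFunctorCompIsoId C (2 : ℤ) (-2) (by norm_num)).hom.app X1 ≫ y :=
        (shiftFunctorCompIsoId C (2 : ℤ) (-2) (by norm_num)).hom.naturality y
      rw [h2]
      simp only [Functor.map_comp, Category.assoc]
      rw [h3]
    rcases K.hp with h | h
    · exact ⟨1, by rw [h1, h, one_smul]⟩
    · exact ⟨-1, by rw [h1, h, Preadditive.neg_comp, Units.neg_smul, one_smul]⟩
  -- p ≫ gA[-2] = 0
  have pg : K.p ≫ K.gA⟦(-2 : ℤ)⟧' = 0 := by
    have h1 : K.p ≫ K.gA⟦(-2 : ℤ)⟧' ≫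
        (shiftFunctorAdd' C (3 : ℤ) (-2) 1 (by norm_num)).inv.app K.S = 0 :=
      comp_distTriang_mor_zero₂₃ _ K.tri3.dist
    have h2 : (K.p ≫ K.gA⟦(-2 : ℤ)⟧') ≫
        (shiftFunctorAdd' C (3 : ℤ) (-2) 1 (by norm_num)).inv.app K.S =
        0 ≫ (shiftFunctorAdd' C (3 : ℤ) (-2) 1 (by norm_num)).inv.app K.S := by
      rw [Category.assoc, zero_comp]
      exact h1
    exact (cancel_mono ((shiftFunctorAdd' C (3 : ℤ) (-2) 1 (by norm_num)).inv.app K.S)).1 h2
  refine ⟨?_, ?_, ?_, ?_, ?_, ?_⟩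
  · intro n h0 h1 h2 h3 x
    obtain ⟨y, hy⟩ := slift K.tri3 x (by
      have h4 := Avan (n + 3) (by intro h; apply h3; linarith) (by intro h; apply h2; linarith)
        (by intro h; apply h1; linarith)
        (K.gA ≫ x⟦(3 : ℤ)⟧' ≫ (shiftFunctorAdd' C n 3 (n + 3) rfl).inv.app Z)
      rw [← Category.assoc] at h4
      exact (cancel_mono ((shiftFunctorAdd' C n 3 (n + 3) rfl).inv.app Z)).1
        (by rw [h4, zero_comp]))
    rw [hy, v0 n h0 y, comp_zero]
  · intro hex x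
    obtain ⟨y, hy⟩ := slift K.tri3 x (by
      obtain ⟨y, hy⟩ := A2 (K.gA ≫ x⟦(3 : ℤ)⟧' ≫
        (shiftFunctorAdd' C (-1) 3 2 (by norm_num)).inv.app Z)
      obtain ⟨u, hu⟩ := key y
      rw [← hy, Functor.map_comp, Category.assoc, ← Category.assoc, pg, zero_comp] at hu
      have h5 : d0 ≫ y = 0 := by
        have h6 := congrArg (fun t => u⁻¹ • t) hu
        simp only [smul_zero, inv_smul_smul] at h6
        exact h6.symm
      obtain ⟨y3, hy3⟩ := hex y h5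
      have h7 : K.j ≫ y⟦(1 : ℤ)⟧' = 0 := by
        have h8 := comp_distTriang_mor_zero₃₁ _ K.tri1
        change K.j ≫ d1⟦(1 : ℤ)⟧' = 0 at h8
        rw [← hy3, Functor.map_comp, ← Category.assoc, h8, zero_comp]
      have h9 : K.gA ≫ x⟦(3 : ℤ)⟧' ≫ (shiftFunctorAdd' C (-1) 3 2 (by norm_num)).inv.app Z = 0 := by
        rw [hy, ← Category.assoc (K.j⟦(1 : ℤ)⟧'), ← Functor.map_comp, h7, Functor.map_zero,
          zero_comp, comp_zero]
      rw [← Category.assoc] at h9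
      exact (cancel_mono ((shiftFunctorAdd' C (-1) 3 2 (by norm_num)).inv.app Z)).1
        (by rw [h9, zero_comp]))
    rw [hy, v0 (-1) (by norm_num) y, comp_zero]
  · intro hex x
    obtain ⟨y, hy⟩ := slift K.tri3 x (by
      obtain ⟨y, hy⟩ := A1 (K.gA ≫ x⟦(3 : ℤ)⟧' ≫
        (shiftFunctorAdd' C (-2) 3 1 (by norm_num)).inv.app Z)
      have h1 : d1 ≫ K.i ≫ y = 0 := by
        have h8 := comp_distTriang_mor_zero₁₂ _ K.tri1
        change d1 ≫ K.i = 0 at h8
        rw [← Category.assoc, h8, zero_comp]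
      obtain ⟨y3, hy3⟩ := hex _ h1
      have h2 : y = K.n ≫ y3 := by
        rw [← sub_eq_zero]
        apply Ninj
        rw [Preadditive.comp_sub, ← hy3, ← Category.assoc, K.hn, sub_self]
      have h9 : K.gA ≫ x⟦(3 : ℤ)⟧' ≫ (shiftFunctorAdd' C (-2) 3 1 (by norm_num)).inv.app Z = 0 := by
        have h8 := comp_distTriang_mor_zero₃₁ _ K.tri2
        change K.r ≫ K.n⟦(1 : ℤ)⟧' = 0 at h8
        rw [hy, h2, Functor.map_comp, ← Category.assoc, h8, zero_comp]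
      rw [← Category.assoc] at h9
      exact (cancel_mono ((shiftFunctorAdd' C (-2) 3 1 (by norm_num)).inv.app Z)).1
        (by rw [h9, zero_comp]))
    rw [hy, v0 (-2) (by norm_num) y, comp_zero]
  · refine ⟨{ toFun := fun h => K.e ≫ K.gA ≫ h⟦(3 : ℤ)⟧' ≫
          (shiftFunctorCompIsoId C (-3 : ℤ) 3 (by norm_num)).hom.app Z
              map_add' := ?_
              map_smul' := ?_ }, ?_, ?_⟩
    · intro a b
      simp only [Functor.map_add, Preadditive.add_comp, Preadditive.comp_add]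
    · intro c a
      simp only [Functor.map_smul, Linear.smul_comp, Linear.comp_smul, RingHom.id_apply]
    · rw [injective_iff_map_eq_zero]
      intro x hx
      change K.e ≫ K.gA ≫ x⟦(3 : ℤ)⟧' ≫
          (shiftFunctorCompIsoId C (-3 : ℤ) 3 (by norm_num)).hom.app Z = 0 at hx
      obtain ⟨y, hy⟩ := slift K.tri3 x (by
        have h9 := Ainj _ hx
        rw [← Category.assoc] at h9
        exact (cancel_mono ((shiftFunctorCompIsoId C (-3 : ℤ) 3 (by norm_num)).hom.app Z)).1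
          (by rw [h9, zero_comp]))
      rw [hy, v0 (-3) (by norm_num) y, comp_zero]
    · intro h
      have h8 : K.n ≫ K.e = 0 := comp_distTriang_mor_zero₁₂ _ K.tri2
      have h9 : d2 ≫ K.e = 0 := (congrArg (fun t => t ≫ K.e) K.hn).symm.trans (by
        change (K.i ≫ K.n) ≫ K.e = 0
        rw [Category.assoc, h8, comp_zero])
      change d2 ≫ K.e ≫ _ = 0
      rw [← Category.assoc, h9, zero_comp]
  · intro x
    exact slift K.tri3 x (Avan 3 (by norm_num) (by norm_num) (by norm_num) _)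
  · intro y hy
    obtain ⟨z, hz⟩ := yex2 K.tri3.dist y hy
    obtain ⟨z', hz'⟩ := (shiftFunctor C (-2 : ℤ)).map_surjective
      (z ≫ (shiftFunctorCompIsoId C (2 : ℤ) (-2) (by norm_num)).inv.app Z)
    obtain ⟨x, hx⟩ := A2 z'
    obtain ⟨u, hu⟩ := key x
    rw [← hx, hz', Category.assoc, Iso.inv_hom_id_app] at hu
    refine ⟨u • x, ?_⟩
    have h1 : K.p ≫ z = u • (d0 ≫ x) := hu ▸ (congrArg (fun t => K.p ≫ t) (Category.comp_id z).symm)
    rw [hz, h1, Units.smul_def, Units.smul_def, Preadditive.comp_zsmul]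

/-- Objects orthogonal to `X0, …, X3` are orthogonal to `S`: `N`, `A`, `S` successively. -/
theorem Conv.orth_left {X0 X1 X2 X3 : C} {d0 : X0 ⟶ X1} {d1 : X1 ⟶ X2} {d2 : X2 ⟶ X3}
    (K : Conv d0 d1 d2) (Z : C)
    (v0 : ∀ (n : ℤ) (x : X0 ⟶ Z⟦n⟧), x = 0) (v1 : ∀ (n : ℤ) (x : X1 ⟶ Z⟦n⟧), x = 0)
    (v2 : ∀ (n : ℤ) (x : X2 ⟶ Z⟦n⟧), x = 0) (v3 : ∀ (n : ℤ) (x : X3 ⟶ Z⟦n⟧), x = 0) :
    ∀ (n : ℤ) (x : K.S ⟶ Z⟦n⟧), x = 0 := by
  intro n x
  have hN := dzero (Z := Z) K.tri1 v1 v2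
  have hA := dzero (Z := Z) K.tri2 hN v3
  obtain ⟨y, hy⟩ := slift K.tri3 x (by
    have h4 := hA (n + 3) (K.gA ≫ x⟦(3 : ℤ)⟧' ≫ (shiftFunctorAdd' C n 3 (n + 3) rfl).inv.app Z)
    rw [← Category.assoc] at h4
    exact (cancel_mono ((shiftFunctorAdd' C n 3 (n + 3) rfl).inv.app Z)).1
      (by rw [h4, zero_comp]))
  rw [hy, v0 n y, comp_zero]

end BO
end
end

section

/-!
# TASK PoV
-/

set_option autoImplicit false

noncomputable section

open CategoryTheory CategoryTheory.Limits CategoryTheory.Pretriangulated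

namespace BO

universe w v u

variable (k : Type w) [Field k] {C : Type u} [Category.{v} C] [Preadditive C] [Linear k C]
  [HasZeroObject C] [HasShift C ℤ] [∀ n : ℤ, (shiftFunctor C n).Additive]
  [∀ n : ℤ, Functor.Linear k (shiftFunctor C n)] [Pretriangulated C]

private theorem PoV_cex2 {X Y W Q : C} {a : X ⟶ Y} {b : Y ⟶ W} {c : W ⟶ X⟦(1 : ℤ)⟧}
    (h : Triangle.mk a b c ∈ distTriang C) (n : ℤ) (x : Q ⟶ Y⟦n⟧) (hx : x ≫ b⟦n⟧' = 0) :
    ∃ y : Q ⟶ X⟦n⟧, x = y ≫ a⟦n⟧' := by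
  obtain ⟨y, hy⟩ : ∃ y : Q ⟶ X⟦n⟧, x = y ≫ (n.negOnePow • a⟦n⟧') :=
    Triangle.coyoneda_exact₂ _ (Triangle.shift_distinguished _ h n) x (by
      change x ≫ (n.negOnePow • b⟦n⟧') = 0
      rw [Units.smul_def, Preadditive.comp_zsmul, hx, smul_zero])
  refine ⟨n.negOnePow • y, ?_⟩
  rw [hy, Units.smul_def, Units.smul_def, Preadditive.comp_zsmul, Preadditive.zsmul_comp]

private theorem PoV_cex3 {X Y W Q : C} {a : X ⟶ Y} {b : Y ⟶ W} {c : W ⟶ X⟦(1 : ℤ)⟧}
    (h : Triangle.mk a b c ∈ distTriang C) (n : ℤ) (x : Q ⟶ W⟦n⟧) (hx : x ≫ c⟦n⟧' = 0) :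
    ∃ y : Q ⟶ Y⟦n⟧, x = y ≫ b⟦n⟧' :=
  PoV_cex2 (rot_of_distTriang _ h) n x hx

private theorem PoV_cex1 {X Y W Q : C} {a : X ⟶ Y} {b : Y ⟶ W} {c : W ⟶ X⟦(1 : ℤ)⟧}
    (h : Triangle.mk a b c ∈ distTriang C) (m n : ℤ) (hmn : 1 + m = n) (x : Q ⟶ X⟦n⟧)
    (hx : x ≫ a⟦n⟧' = 0) :
    ∃ y : Q ⟶ W⟦m⟧, x = y ≫ c⟦m⟧' ≫ (shiftFunctorAdd' C (1 : ℤ) m n hmn).inv.app X := by
  have h0 : a⟦n⟧' ≫ (shiftFunctorAdd' C (1 : ℤ) m n hmn).hom.app Y =
      (shiftFunctorAdd' C (1 : ℤ) m n hmn).hom.app X ≫ (a⟦(1 : ℤ)⟧')⟦m⟧' :=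
    (shiftFunctorAdd' C (1 : ℤ) m n hmn).hom.naturality a
  have h1 : (x ≫ (shiftFunctorAdd' C (1 : ℤ) m n hmn).hom.app X) ≫ (-a⟦(1 : ℤ)⟧')⟦m⟧' = 0 := by
    rw [Functor.map_neg, Preadditive.comp_neg, Category.assoc, ← h0, ← Category.assoc, hx, zero_comp,
      neg_zero]
  obtain ⟨y, hy⟩ : ∃ y : Q ⟶ W⟦m⟧, x ≫ (shiftFunctorAdd' C (1 : ℤ) m n hmn).hom.app X =
      y ≫ c⟦m⟧' :=
    PoV_cex2 (rot_of_distTriang _ (rot_of_distTriang _ h)) m _ h1
  refine ⟨y, ?_⟩
  rw [← Category.assoc, ← hy, Category.assoc, Iso.hom_inv_id_app]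
  exact (Category.comp_id x).symm

omit [HasZeroObject C] [∀ n : ℤ, (shiftFunctor C n).Additive] [Pretriangulated C] in
private theorem PoV_van {X Q : C} (m n l : ℤ) (h : m + n = l) (hv : ∀ x : Q ⟶ X⟦l⟧, x = 0)
    (x : Q ⟶ (X⟦m⟧)⟦n⟧) : x = 0 := by
  have h1 := hv (x ≫ (shiftFunctorAdd' C m n l h).inv.app X)
  exact (cancel_mono ((shiftFunctorAdd' C m n l h).inv.app X)).1 (by rw [h1, zero_comp])

/-- (PL1) Homs into the convolution.

PROOF. Write `h^n Y = Hom(Q,Y[n])`. `tri1`: `h^n N = 0` for `n ≠ 0, -1`; `h^0 X2 → h^0 N` is surjective with kernel the image of `d1`;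
`h^{-1} N → h^0 X1` is injective with image `ker d1`. `tri2` and `ex2`: `h^n A = 0` for `n ≠ 0, -2`; `h^0 X3 → h^0 A` is surjective with
kernel the image of `h^0 N`, i.e. of `d2`; `h^{-2} A = h^{-1} N`. `tri3`: `h^{-2} A = h^0 (A[-2])` receives `h^0 X0`; by `hp` this map is
`± d0 : h^0 X0 → ker d1`, injective by `ex0` and surjective by `ex1`. So `h^n S = 0` for `n ≠ 3`, and `h^0 A → h^3 S`
(composition with `gA`) is bijective. -/
theorem Conv.cov {X0 X1 X2 X3 : C} {d0 : X0 ⟶ X1} {d1 : X1 ⟶ X2} {d2 : X2 ⟶ X3}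
    (K : Conv d0 d1 d2) (Q : C)
    (v0 : ∀ n : ℤ, n ≠ 0 → ∀ x : Q ⟶ X0⟦n⟧, x = 0) (v1 : ∀ n : ℤ, n ≠ 0 → ∀ x : Q ⟶ X1⟦n⟧, x = 0)
    (v2 : ∀ n : ℤ, n ≠ 0 → ∀ x : Q ⟶ X2⟦n⟧, x = 0) (v3 : ∀ n : ℤ, n ≠ 0 → ∀ x : Q ⟶ X3⟦n⟧, x = 0)
    (ex0 : ∀ x : Q ⟶ X0, x ≫ d0 = 0 → x = 0)
    (ex1 : ∀ x : Q ⟶ X1, x ≫ d1 = 0 → ∃ y, y ≫ d0 = x)
    (ex2 : ∀ x : Q ⟶ X2, x ≫ d2 = 0 → ∃ y, y ≫ d1 = x) :
    (∀ n : ℤ, n ≠ 3 → ∀ x : Q ⟶ K.S⟦n⟧, x = 0) ∧
    (∀ x : Q ⟶ K.S⟦(3 : ℤ)⟧, ∃ y : Q ⟶ X3, x = y ≫ K.e ≫ K.gA) ∧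
    (∀ y : Q ⟶ X3, y ≫ K.e ≫ K.gA = 0 → ∃ x : Q ⟶ X2, y = x ≫ d2) := by
  -- N
  have Nvan : ∀ n : ℤ, n ≠ 0 → n ≠ -1 → ∀ x : Q ⟶ K.N⟦n⟧, x = 0 := by
    intro n h0 h1 x
    obtain ⟨y, hy⟩ := PoV_cex3 K.tri1 n x
      (PoV_van 1 n (1 + n) rfl (v1 (1 + n) (by intro h; apply h1; linarith)) _)
    rw [hy, v2 n h0 y, zero_comp]
  have N0 : ∀ x : Q ⟶ K.N, ∃ y : Q ⟶ X2, x = y ≫ K.i := fun x =>
    Triangle.coyoneda_exact₃ _ K.tri1 x (v1 1 one_ne_zero _)
  have hdi : d1 ≫ K.i = 0 := comp_distTriang_mor_zero₁₂ _ K.tri1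
  have hjd : K.j ≫ d1⟦(1 : ℤ)⟧' = 0 := comp_distTriang_mor_zero₃₁ _ K.tri1
  have hne : K.n ≫ K.e = 0 := comp_distTriang_mor_zero₁₂ _ K.tri2
  have her : K.e ≫ K.r = 0 := comp_distTriang_mor_zero₂₃ _ K.tri2
  have hrn : K.r ≫ K.n⟦(1 : ℤ)⟧' = 0 := comp_distTriang_mor_zero₃₁ _ K.tri2
  have hfp : K.f ≫ K.p = 0 := comp_distTriang_mor_zero₁₂ _ K.tri3.dist
  -- A
  have Avan : ∀ n : ℤ, n ≠ 0 → n ≠ -1 → n ≠ -2 → ∀ x : Q ⟶ K.A⟦n⟧, x = 0 := by
    intro n h0 h1 h2 x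
    obtain ⟨y, hy⟩ := PoV_cex3 K.tri2 n x
      (PoV_van 1 n (1 + n) rfl (Nvan (1 + n) (by intro h; apply h1; linarith)
        (by intro h; apply h2; linarith)) _)
    rw [hy, v3 n h0 y, zero_comp]
  have Am1 : ∀ x : Q ⟶ K.A⟦(-1 : ℤ)⟧, x = 0 := by
    intro x
    have nat1 : (K.n⟦(1 : ℤ)⟧')⟦(-1 : ℤ)⟧' ≫
        (shiftFunctorCompIsoId C (1 : ℤ) (-1) (by norm_num)).hom.app X3 =
        (shiftFunctorCompIsoId C (1 : ℤ) (-1) (by norm_num)).hom.app K.N ≫ K.n :=
      (shiftFunctorCompIsoId C (1 : ℤ) (-1) (by norm_num)).hom.naturality K.n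
    have hz : (x ≫ K.r⟦(-1 : ℤ)⟧' ≫
        (shiftFunctorCompIsoId C (1 : ℤ) (-1) (by norm_num)).hom.app K.N) ≫ K.n = 0 := by
      rw [Category.assoc, Category.assoc, ← nat1, ← Functor.map_comp_assoc, hrn, Functor.map_zero,
        zero_comp, comp_zero]
    obtain ⟨y, hy⟩ := N0 (x ≫ K.r⟦(-1 : ℤ)⟧' ≫
        (shiftFunctorCompIsoId C (1 : ℤ) (-1) (by norm_num)).hom.app K.N)
    rw [hy, Category.assoc, K.hn] at hz
    obtain ⟨w, hw⟩ := ex2 y hz
    rw [← hw, Category.assoc, hdi, comp_zero, ← Category.assoc] at hy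
    have hr0 : x ≫ K.r⟦(-1 : ℤ)⟧' = 0 :=
      (cancel_mono ((shiftFunctorCompIsoId C (1 : ℤ) (-1) (by norm_num)).hom.app K.N)).1
        (by rw [hy, zero_comp])
    obtain ⟨y', hy'⟩ := PoV_cex3 K.tri2 (-1) x hr0
    rw [hy', v3 (-1) (by norm_num) y', zero_comp]
  have A0 : ∀ x : Q ⟶ K.A, ∃ y : Q ⟶ X3, x = y ≫ K.e := fun x =>
    Triangle.coyoneda_exact₃ _ K.tri2 x (Nvan 1 one_ne_zero (by norm_num) _)
  have X30 : ∀ y : Q ⟶ X3, y ≫ K.e = 0 → ∃ x : Q ⟶ X2, y = x ≫ d2 := by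
    intro y hy
    obtain ⟨z, hz⟩ : ∃ z : Q ⟶ K.N, y = z ≫ K.n := Triangle.coyoneda_exact₂ _ K.tri2 y hy
    obtain ⟨w, hw⟩ := N0 z
    exact ⟨w, by rw [hz, hw, Category.assoc, K.hn]⟩
  -- A[-2]
  obtain ⟨s, hs⟩ : ∃ s : ((K.A⟦(-2 : ℤ)⟧ : C) ⟶ X1), s = K.r⟦(-2 : ℤ)⟧' ≫ (K.j⟦(1 : ℤ)⟧')⟦(-2 : ℤ)⟧' ≫
    ((shiftFunctorAdd' C (1 : ℤ) 1 2 (by norm_num)).inv.app X1)⟦(-2 : ℤ)⟧' ≫
    (shiftFunctorCompIsoId C (2 : ℤ) (-2) (by norm_num)).hom.app X1 := ⟨_, rfl⟩
  have hp' : K.p ≫ s = d0 ∨ K.p ≫ s = - d0 := by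
    rw [hs]
    exact K.hp
  have sinj : ∀ x : Q ⟶ K.A⟦(-2 : ℤ)⟧, x ≫ s = 0 → x = 0 := by
    intro x hx
    have h1 : (x ≫ K.r⟦(-2 : ℤ)⟧') ≫ (K.j⟦(1 : ℤ)⟧')⟦(-2 : ℤ)⟧' = 0 := by
      have h2 : ((x ≫ K.r⟦(-2 : ℤ)⟧') ≫ (K.j⟦(1 : ℤ)⟧')⟦(-2 : ℤ)⟧') ≫
          (((shiftFunctorAdd' C (1 : ℤ) 1 2 (by norm_num)).inv.app X1)⟦(-2 : ℤ)⟧' ≫
          (shiftFunctorCompIsoId C (2 : ℤ) (-2) (by norm_num)).hom.app X1) = 0 := by
        rw [← hx, hs]
        simp only [Category.assoc]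
      exact (cancel_mono (((shiftFunctorAdd' C (1 : ℤ) 1 2 (by norm_num)).inv.app X1)⟦(-2 : ℤ)⟧' ≫
          (shiftFunctorCompIsoId C (2 : ℤ) (-2) (by norm_num)).hom.app X1)).1
        (by rw [h2, zero_comp])
    have h3 : x ≫ K.r⟦(-2 : ℤ)⟧' = 0 := by
      have h4 := Triangle.shift_distinguished _ K.tri1 (1 : ℤ)
      obtain ⟨y, hy⟩ : ∃ y : Q ⟶ (X2⟦(1 : ℤ)⟧)⟦(-2 : ℤ)⟧, x ≫ K.r⟦(-2 : ℤ)⟧' =
          y ≫ ((1 : ℤ).negOnePow • K.i⟦(1 : ℤ)⟧')⟦(-2 : ℤ)⟧' := by
        refine PoV_cex3 h4 (-2) (x ≫ K.r⟦(-2 : ℤ)⟧') ?_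
        change (x ≫ K.r⟦(-2 : ℤ)⟧') ≫ ((1 : ℤ).negOnePow • K.j⟦(1 : ℤ)⟧' ≫
          (shiftFunctorComm C (1 : ℤ) 1).hom.app X1)⟦(-2 : ℤ)⟧' = 0
        rw [Units.smul_def, Functor.map_zsmul, Preadditive.comp_zsmul, Functor.map_comp,
          ← Category.assoc, h1, zero_comp, smul_zero]
      rw [hy, PoV_van 1 (-2) (-1) (by norm_num) (v2 (-1) (by norm_num)) y, zero_comp]
    obtain ⟨y, hy⟩ := PoV_cex3 K.tri2 (-2) x h3
    rw [hy, v3 (-2) (by norm_num) y, zero_comp]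
  have sd1 : s ≫ d1 = 0 := by
    have nat1 : (d1⟦(2 : ℤ)⟧')⟦(-2 : ℤ)⟧' ≫
        (shiftFunctorCompIsoId C (2 : ℤ) (-2) (by norm_num)).hom.app X2 =
        (shiftFunctorCompIsoId C (2 : ℤ) (-2) (by norm_num)).hom.app X1 ≫ d1 :=
      (shiftFunctorCompIsoId C (2 : ℤ) (-2) (by norm_num)).hom.naturality d1
    have nat2 : (d1⟦(1 : ℤ)⟧')⟦(1 : ℤ)⟧' ≫
        (shiftFunctorAdd' C (1 : ℤ) 1 2 (by norm_num)).inv.app X2 =
        (shiftFunctorAdd' C (1 : ℤ) 1 2 (by norm_num)).inv.app X1 ≫ d1⟦(2 : ℤ)⟧' :=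
      (shiftFunctorAdd' C (1 : ℤ) 1 2 (by norm_num)).inv.naturality d1
    rw [hs]
    simp only [Category.assoc]
    rw [← nat1, ← Functor.map_comp_assoc (shiftFunctor C (-2 : ℤ))
      ((shiftFunctorAdd' C (1 : ℤ) 1 2 (by norm_num)).inv.app X1), ← nat2]
    simp only [Functor.map_comp, Category.assoc]
    rw [← Functor.map_comp_assoc (shiftFunctor C (-2 : ℤ)) (K.j⟦(1 : ℤ)⟧'),
      ← Functor.map_comp (shiftFunctor C (1 : ℤ)), hjd, Functor.map_zero, Functor.map_zero,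
      zero_comp, comp_zero]
  -- S
  have pz : ∀ z : Q ⟶ X0, z ≫ K.p = 0 → z ≫ d0 = 0 := by
    intro z hz
    rcases hp' with h3 | h3
    · rw [← h3, ← Category.assoc, hz, zero_comp]
    · have h4 : z ≫ (-d0) = 0 := by rw [← h3, ← Category.assoc, hz, zero_comp]
      rw [Preadditive.comp_neg] at h4
      exact neg_eq_zero.1 h4
  have fz : ∀ (n : ℤ) (x : Q ⟶ K.S⟦n⟧), x ≫ K.f⟦n⟧' = 0 := by
    intro n x
    by_cases hn0 : n = 0
    · subst hn0
      have nat0 : K.f⟦(0 : ℤ)⟧' ≫ (shiftFunctorZero C ℤ).hom.app X0 =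
          (shiftFunctorZero C ℤ).hom.app K.S ≫ K.f := (shiftFunctorZero C ℤ).hom.naturality K.f
      have h1 : (x ≫ K.f⟦(0 : ℤ)⟧' ≫ (shiftFunctorZero C ℤ).hom.app X0) ≫ K.p = 0 := by
        rw [nat0, Category.assoc, Category.assoc, hfp, comp_zero, comp_zero]
      have h2 := pz _ h1
      have h5 := ex0 _ h2
      rw [← Category.assoc] at h5
      exact (cancel_mono ((shiftFunctorZero C ℤ).hom.app X0)).1 (by rw [h5, zero_comp])
    · exact v0 n hn0 _
  refine ⟨?_, ?_, ?_⟩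
  · intro n hn3 x
    by_cases hn1 : n = 1
    · subst hn1
      obtain ⟨y, hy⟩ : ∃ y : Q ⟶ K.A⟦(-2 : ℤ)⟧, x = y ≫ (K.gA⟦(-2 : ℤ)⟧' ≫
          (shiftFunctorAdd' C (3 : ℤ) (-2) 1 (by norm_num)).inv.app K.S) :=
        Triangle.coyoneda_exact₁ _ K.tri3.dist x (fz 1 x)
      have hy2 : (y ≫ s) ≫ d1 = 0 := by rw [Category.assoc, sd1, comp_zero]
      obtain ⟨w, hw⟩ := ex1 _ hy2
      have h6 : ∃ w' : Q ⟶ X0, w' ≫ K.p ≫ s = y ≫ s := by
        rcases hp' with h3 | h3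
        · exact ⟨w, by rw [h3, hw]⟩
        · exact ⟨-w, by rw [h3, Preadditive.comp_neg, Preadditive.neg_comp, neg_neg, hw]⟩
      obtain ⟨w', hw'⟩ := h6
      have h7 : y = w' ≫ K.p := by
        have h8 := sinj (y - w' ≫ K.p) (by
          rw [Preadditive.sub_comp, Category.assoc, hw', sub_self])
        exact sub_eq_zero.1 h8
      have hpq : K.p ≫ (K.gA⟦(-2 : ℤ)⟧' ≫
          (shiftFunctorAdd' C (3 : ℤ) (-2) 1 (by norm_num)).inv.app K.S) = 0 :=
        comp_distTriang_mor_zero₂₃ _ K.tri3.dist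
      rw [hy, h7, Category.assoc, hpq, comp_zero]
    · obtain ⟨y, hy⟩ := PoV_cex1 K.tri3.dist (n - 1) n (by ring) x (fz n x)
      have hy0 : y = 0 := by
        refine PoV_van (-2) (n - 1) (n - 3) (by ring) ?_ y
        by_cases h2 : n = 2
        · subst h2
          exact Am1
        · exact Avan (n - 3) (by intro h; apply hn3; linarith) (by intro h; apply h2; linarith)
            (by intro h; apply hn1; linarith)
      rw [hy, hy0, zero_comp]
  · intro x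
    have e1 : (shiftFunctorCompIsoId C (-2 : ℤ) 2 (by norm_num)).inv.app K.A ≫
        (K.gA⟦(-2 : ℤ)⟧' ≫ (shiftFunctorAdd' C (3 : ℤ) (-2) 1 (by norm_num)).inv.app K.S)⟦(2 : ℤ)⟧' ≫
        (shiftFunctorAdd' C (1 : ℤ) 2 3 (by norm_num)).inv.app K.S =
        K.gA ≫ (shiftFunctorCompIsoId C (-2 : ℤ) 2 (by norm_num)).inv.app (K.S⟦(3 : ℤ)⟧) ≫
        ((shiftFunctorAdd' C (3 : ℤ) (-2) 1 (by norm_num)).inv.app K.S)⟦(2 : ℤ)⟧' ≫
        (shiftFunctorAdd' C (1 : ℤ) 2 3 (by norm_num)).inv.app K.S := by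
      have nat3 : K.gA ≫ (shiftFunctorCompIsoId C (-2 : ℤ) 2 (by norm_num)).inv.app (K.S⟦(3 : ℤ)⟧) =
          (shiftFunctorCompIsoId C (-2 : ℤ) 2 (by norm_num)).inv.app K.A ≫
          (K.gA⟦(-2 : ℤ)⟧')⟦(2 : ℤ)⟧' :=
        (shiftFunctorCompIsoId C (-2 : ℤ) 2 (by norm_num)).inv.naturality K.gA
      rw [Functor.map_comp]
      simp only [← Category.assoc]
      rw [nat3]
    obtain ⟨y, hy⟩ := PoV_cex1 K.tri3.dist 2 3 (by norm_num)
      (x ≫ (shiftFunctorCompIsoId C (-2 : ℤ) 2 (by norm_num)).inv.app (K.S⟦(3 : ℤ)⟧) ≫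
        ((shiftFunctorAdd' C (3 : ℤ) (-2) 1 (by norm_num)).inv.app K.S)⟦(2 : ℤ)⟧' ≫
        (shiftFunctorAdd' C (1 : ℤ) 2 3 (by norm_num)).inv.app K.S) (fz 3 _)
    have hy1 : y = (y ≫ (shiftFunctorCompIsoId C (-2 : ℤ) 2 (by norm_num)).hom.app K.A) ≫
        (shiftFunctorCompIsoId C (-2 : ℤ) 2 (by norm_num)).inv.app K.A := by
      rw [Category.assoc, Iso.hom_inv_id_app]
      exact (Category.comp_id y).symm
    rw [hy1, Category.assoc, e1, ← Category.assoc _ K.gA] at hy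
    have hy2 : x = (y ≫ (shiftFunctorCompIsoId C (-2 : ℤ) 2 (by norm_num)).hom.app K.A) ≫ K.gA :=
      (cancel_mono ((shiftFunctorCompIsoId C (-2 : ℤ) 2 (by norm_num)).inv.app (K.S⟦(3 : ℤ)⟧) ≫
        ((shiftFunctorAdd' C (3 : ℤ) (-2) 1 (by norm_num)).inv.app K.S)⟦(2 : ℤ)⟧' ≫
        (shiftFunctorAdd' C (1 : ℤ) 2 3 (by norm_num)).inv.app K.S)).1 hy
    obtain ⟨y', hy'⟩ := A0 (y ≫ (shiftFunctorCompIsoId C (-2 : ℤ) 2 (by norm_num)).hom.app K.A)
    exact ⟨y', by rw [hy2, hy', Category.assoc]⟩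
  · intro y hy
    refine X30 y ?_
    have nat3 : K.gA ≫ (shiftFunctorCompIsoId C (-2 : ℤ) 2 (by norm_num)).inv.app (K.S⟦(3 : ℤ)⟧) =
        (shiftFunctorCompIsoId C (-2 : ℤ) 2 (by norm_num)).inv.app K.A ≫
        (K.gA⟦(-2 : ℤ)⟧')⟦(2 : ℤ)⟧' :=
      (shiftFunctorCompIsoId C (-2 : ℤ) 2 (by norm_num)).inv.naturality K.gA
    have h1 : ((y ≫ K.e) ≫ (shiftFunctorCompIsoId C (-2 : ℤ) 2 (by norm_num)).inv.app K.A) ≫
        (K.gA⟦(-2 : ℤ)⟧' ≫
          (shiftFunctorAdd' C (3 : ℤ) (-2) 1 (by norm_num)).inv.app K.S)⟦(2 : ℤ)⟧' = 0 := by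
      rw [Functor.map_comp, Category.assoc, ← Category.assoc
        ((shiftFunctorCompIsoId C (-2 : ℤ) 2 (by norm_num)).inv.app K.A), ← nat3]
      have h9 := congrArg (fun t => t ≫
        (shiftFunctorCompIsoId C (-2 : ℤ) 2 (by norm_num)).inv.app (K.S⟦(3 : ℤ)⟧) ≫
        ((shiftFunctorAdd' C (3 : ℤ) (-2) 1 (by norm_num)).inv.app K.S)⟦(2 : ℤ)⟧') hy
      simp only [Category.assoc, zero_comp] at h9 ⊢
      exact h9
    obtain ⟨w, hw⟩ := PoV_cex3 K.tri3.dist 2 _ h1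
    rw [v0 2 two_ne_zero w, zero_comp] at hw
    exact (cancel_mono ((shiftFunctorCompIsoId C (-2 : ℤ) 2 (by norm_num)).inv.app K.A)).1
      (by rw [hw, zero_comp])

end BO
end
end

section

end

section

/-!
# TASK ExA3
-/

set_option autoImplicit false

noncomputable section

namespace BO

universe w

variable (k : Type w) [Field k]

open MvPolynomial

private theorem ExA3_C {D : Dg} {x : PP k} (a : k) (hx : x ∈ RX k D) : C a * x ∈ RX k D := by
  rw [← MvPolynomial.smul_eq_C_mul]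
  exact Submodule.smul_mem _ _ hx

private theorem ExA3_mul {D D' E : Dg} {x y : PP k} (hx : x ∈ RX k D) (hy : y ∈ RX k D')
    (h : D + D' = E) : x * y ∈ RX k E := by
  rw [← h]; exact RX_mul k D D' x y hx hy

private theorem ExA3_u0 : u0 k ∈ RX k (1, 0, 0) := gen_mem k 0
private theorem ExA3_u1 : u1 k ∈ RX k (1, 0, 0) := gen_mem k 1
private theorem ExA3_la : la k ∈ RX k (-1, 1, 0) := gen_mem k 2
private theorem ExA3_mu : mu k ∈ RX k (0, 1, 0) := gen_mem k 3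
private theorem ExA3_z0 : z0 k ∈ RX k (0, 0, 1) := gen_mem k 4
private theorem ExA3_z3 : z3 k ∈ RX k (0, 0, 1) := gen_mem k 5
private theorem ExA3_w1 : w1 k ∈ RX k (1, -1, 1) := gen_mem k 6
private theorem ExA3_w2 : w2 k ∈ RX k (1, -1, 1) := gen_mem k 7
private theorem ExA3_one : (1 : PP k) ∈ RX k (0, 0, 0) := RX_one k

/-- The cokernel at the last place is spanned by `kap i`.

PROOF. `i = 0` (`RX_201`): modulo `u₀ R'(1,0,1)` only `u₁²z₀, u₁²z₃, la u₁²w₁, la u₁²w₂` remain; `la u₁²wⱼ = (u₁wⱼ) (la u₁)` is in the image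
(`x₂ = u₁wⱼ ∈ RX (2,-1,1)`), and `u₁²z₃ = u₁(mu w₂ + la u₀w₁) = (u₁w₂) mu + (la u₁w₁) u₀`. `kap 0 = u₁ z₀ u₁`. `i = 1` (`RX_101`): the same with
`u₁`. `i = 2` (`RX_110`, `kap = 0`): `mu` times a linear form, `u₀ u₀ la, u₀u₁ la` in `u₀ R'(0,1,0)`, `u₁² la = u₁ (la u₁)`. `i = 3` (`RX_010`):
`mu = 1 mu`, `la u₀ = la u₀`, `la u₁`. `i = 4` (`RX_100`): `u₀`, `u₁ = kap 4`. `i = 5`: `kap 5 = 1`. Memberships: `gen_mem`, `RX_mul`. -/
theorem co_cov (i : Fin 6) (x : PP k) (hx : x ∈ RX k (bdeg 5 - bdeg i)) :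
    ∃ c : k, ∃ x1 ∈ RX k (bdeg 3 - bdeg i), ∃ x2 ∈ RX k (bdeg 3 - bdeg i),
      ∃ y ∈ RX k (bdeg 4 - bdeg i),
      x = c • kap k i + x1 * mu k + x2 * (la k * u1 k) + y * u0 k := by
  have r3 := rel3 k
  have u0m := ExA3_u0 k
  have u1m := ExA3_u1 k
  have lam := ExA3_la k
  have mum := ExA3_mu k
  have z0m := ExA3_z0 k
  have z3m := ExA3_z3 k
  have w1m := ExA3_w1 k
  have w2m := ExA3_w2 k
  have onem := ExA3_one k
  have lw1 : la k * w1 k ∈ RX k (0, 0, 1) := ExA3_mul k lam w1m (by decide)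
  have lw2 : la k * w2 k ∈ RX k (0, 0, 1) := ExA3_mul k lam w2m (by decide)
  fin_cases i
  · -- i = 0
    have h5 : bdeg 5 - bdeg 0 = (2, 0, 1) := by decide
    have h3 : bdeg 3 - bdeg 0 = (2, -1, 1) := by decide
    have h4 : bdeg 4 - bdeg 0 = (1, 0, 1) := by decide
    change x ∈ RX k (bdeg 5 - bdeg 0) at hx
    rw [h5] at hx
    obtain ⟨a, b, c, d, hxe⟩ := RX_201 k x hx
    refine ⟨a 2, C (b 2) * (u1 k * w2 k), ?_,
      C (c 2) * (u1 k * w1 k) + C (d 2) * (u1 k * w2 k), ?_,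
      C (a 0) * (u0 k * z0 k) + C (a 1) * (u1 k * z0 k) + C (b 0) * (u0 k * z3 k) +
        C (b 1) * (u1 k * z3 k) + C (c 0) * (u0 k * (la k * w1 k)) +
        C (c 1) * (u1 k * (la k * w1 k)) + C (d 0) * (u0 k * (la k * w2 k)) +
        C (d 1) * (u1 k * (la k * w2 k)) + C (b 2) * (u1 k * (la k * w1 k)), ?_, ?_⟩
    · change _ ∈ RX k (bdeg 3 - bdeg 0)
      rw [h3]
      exact ExA3_C k _ (ExA3_mul k u1m w2m (by decide))
    · change _ ∈ RX k (bdeg 3 - bdeg 0)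
      rw [h3]
      exact add_mem (ExA3_C k _ (ExA3_mul k u1m w1m (by decide)))
        (ExA3_C k _ (ExA3_mul k u1m w2m (by decide)))
    · change _ ∈ RX k (bdeg 4 - bdeg 0)
      rw [h4]
      exact add_mem (add_mem (add_mem (add_mem (add_mem (add_mem (add_mem (add_mem
        (ExA3_C k _ (ExA3_mul k u0m z0m (by decide)))
        (ExA3_C k _ (ExA3_mul k u1m z0m (by decide))))
        (ExA3_C k _ (ExA3_mul k u0m z3m (by decide))))
        (ExA3_C k _ (ExA3_mul k u1m z3m (by decide))))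
        (ExA3_C k _ (ExA3_mul k u0m lw1 (by decide))))
        (ExA3_C k _ (ExA3_mul k u1m lw1 (by decide))))
        (ExA3_C k _ (ExA3_mul k u0m lw2 (by decide))))
        (ExA3_C k _ (ExA3_mul k u1m lw2 (by decide))))
        (ExA3_C k _ (ExA3_mul k u1m lw1 (by decide)))
    · rw [MvPolynomial.smul_eq_C_mul]
      change x = C (a 2) * (u1 k * z0 k * u1 k) + _ + _ + _
      rw [hxe]
      linear_combination (C (b 2) * u1 k) * r3
  · -- i = 1
    have h5 : bdeg 5 - bdeg 1 = (1, 0, 1) := by decide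
    have h3 : bdeg 3 - bdeg 1 = (1, -1, 1) := by decide
    have h4 : bdeg 4 - bdeg 1 = (0, 0, 1) := by decide
    change x ∈ RX k (bdeg 5 - bdeg 1) at hx
    rw [h5] at hx
    obtain ⟨a, b, c, d, hxe⟩ := RX_101 k x hx
    refine ⟨a 1, C (b 1) * w2 k, ?_, C (c 1) * w1 k + C (d 1) * w2 k, ?_,
      C (a 0) * z0 k + C (b 0) * z3 k + C (c 0) * (la k * w1 k) + C (d 0) * (la k * w2 k) +
        C (b 1) * (la k * w1 k), ?_, ?_⟩
    · change _ ∈ RX k (bdeg 3 - bdeg 1)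
      rw [h3]
      exact ExA3_C k _ w2m
    · change _ ∈ RX k (bdeg 3 - bdeg 1)
      rw [h3]
      exact add_mem (ExA3_C k _ w1m) (ExA3_C k _ w2m)
    · change _ ∈ RX k (bdeg 4 - bdeg 1)
      rw [h4]
      exact add_mem (add_mem (add_mem (add_mem (ExA3_C k _ z0m) (ExA3_C k _ z3m))
        (ExA3_C k _ lw1)) (ExA3_C k _ lw2)) (ExA3_C k _ lw1)
    · rw [MvPolynomial.smul_eq_C_mul]
      change x = C (a 1) * (z0 k * u1 k) + _ + _ + _
      rw [hxe]
      linear_combination (C (b 1)) * r3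
  · -- i = 2
    have h5 : bdeg 5 - bdeg 2 = (1, 1, 0) := by decide
    have h3 : bdeg 3 - bdeg 2 = (1, 0, 0) := by decide
    have h4 : bdeg 4 - bdeg 2 = (0, 1, 0) := by decide
    change x ∈ RX k (bdeg 5 - bdeg 2) at hx
    rw [h5] at hx
    obtain ⟨a, b, c, d, e, hxe⟩ := RX_110 k x hx
    refine ⟨0, C a * u0 k + C b * u1 k, ?_, C e * u1 k, ?_,
      C c * (la k * u0 k) + C d * (la k * u1 k), ?_, ?_⟩
    · change _ ∈ RX k (bdeg 3 - bdeg 2)
      rw [h3]
      exact add_mem (ExA3_C k _ u0m) (ExA3_C k _ u1m)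
    · change _ ∈ RX k (bdeg 3 - bdeg 2)
      rw [h3]
      exact ExA3_C k _ u1m
    · change _ ∈ RX k (bdeg 4 - bdeg 2)
      rw [h4]
      exact add_mem (ExA3_C k _ (ExA3_mul k lam u0m (by decide)))
        (ExA3_C k _ (ExA3_mul k lam u1m (by decide)))
    · rw [zero_smul, hxe]
      ring
  · -- i = 3
    have h5 : bdeg 5 - bdeg 3 = (0, 1, 0) := by decide
    have h3 : bdeg 3 - bdeg 3 = (0, 0, 0) := by decide
    have h4 : bdeg 4 - bdeg 3 = (-1, 1, 0) := by decide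
    change x ∈ RX k (bdeg 5 - bdeg 3) at hx
    rw [h5] at hx
    obtain ⟨a, b, c, hxe⟩ := RX_010 k x hx
    refine ⟨0, C a * 1, ?_, C c * 1, ?_, C b * la k, ?_, ?_⟩
    · change _ ∈ RX k (bdeg 3 - bdeg 3)
      rw [h3]
      exact ExA3_C k _ onem
    · change _ ∈ RX k (bdeg 3 - bdeg 3)
      rw [h3]
      exact ExA3_C k _ onem
    · change _ ∈ RX k (bdeg 4 - bdeg 3)
      rw [h4]
      exact ExA3_C k _ lam
    · rw [zero_smul, hxe]
      ring
  · -- i = 4
    have h5 : bdeg 5 - bdeg 4 = (1, 0, 0) := by decide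
    have h4 : bdeg 4 - bdeg 4 = (0, 0, 0) := by decide
    change x ∈ RX k (bdeg 5 - bdeg 4) at hx
    rw [h5] at hx
    obtain ⟨a, b, hxe⟩ := RX_100 k x hx
    refine ⟨b, 0, zero_mem _, 0, zero_mem _, C a * 1, ?_, ?_⟩
    · change _ ∈ RX k (bdeg 4 - bdeg 4)
      rw [h4]
      exact ExA3_C k _ onem
    · rw [MvPolynomial.smul_eq_C_mul]
      change x = C b * u1 k + _ + _ + _
      rw [hxe]
      ring
  · -- i = 5
    have h5 : bdeg 5 - bdeg 5 = (0, 0, 0) := by decide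
    change x ∈ RX k (bdeg 5 - bdeg 5) at hx
    rw [h5] at hx
    obtain ⟨c, hxe⟩ := RX_000 k x hx
    refine ⟨c, 0, zero_mem _, 0, zero_mem _, 0, zero_mem _, ?_⟩
    rw [MvPolynomial.smul_eq_C_mul]
    change x = C c * 1 + _ + _ + _
    rw [hxe]
    ring

end BO
end
end

section

/-!
# MP_bd3808_ag, campaign BR: objects of the heart with an `F`-structure, and their Euler form
-/

set_option autoImplicit false

noncomputable section

open CategoryTheory CategoryTheory.Limits CategoryTheory.Pretriangulated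

open DerivedCategory DerivedCategory.TStructure

namespace MPbd3808.BR

universe w v u

section

variable (A : Type u) [Category.{v} A] [Abelian A] [HasDerivedCategory.{w} A]

theorem bounded_single (X : A) : (t (C := A)).bounded ((singleFunctor A 0).obj X) :=
  ⟨⟨0, inferInstanceAs (((singleFunctor A 0).obj X).IsGE 0)⟩,
    ⟨0, inferInstanceAs (((singleFunctor A 0).obj X).IsLE 0)⟩⟩

/-- `A` as the heart of `D^b(A)`. -/
def dbSingle : A ⥤ Db A :=
  ObjectProperty.lift _ (singleFunctor A 0) (fun X => bounded_single A X)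

instance : (dbSingle A).Full := by unfold dbSingle; infer_instance
instance : (dbSingle A).Faithful := by unfold dbSingle; infer_instance
instance : (dbSingle A).Additive := by unfold dbSingle; infer_instance
instance (k : Type*) [Ring k] [Linear k A] : (dbSingle A).Linear k where
  map_smul {X Y} f r := by
    apply (t (C := A)).bounded.ι.map_injective
    have h := (singleFunctor A 0).map_smul r f
    exact h

end

variable {A : Type u} [Category.{v} A] [Abelian A] [HasDerivedCategory.{w} A]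
  (F : A ⥤ A) [F.Additive] [PreservesFiniteLimits F] [PreservesFiniteColimits F]

/-- `dbMap F` on the heart is `F`. -/
def dbIso : dbSingle A ⋙ dbMap F ≅ F ⋙ dbSingle A :=
  NatIso.ofComponents
    (fun X => (t (C := A)).bounded.fullyFaithfulι.preimageIso
      ((F.mapDerivedCategorySingleFunctor 0).app X))
    (fun {X Y} f => by
      apply (t (C := A)).bounded.ι.map_injective
      simp only [Functor.map_comp, Functor.FullyFaithful.preimageIso_hom]
      exact (F.mapDerivedCategorySingleFunctor 0).hom.naturality f)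

/-- The `dbMap F`-structure of an object of the heart given by an `F`-structure. -/
def dbPhi {X : A} (ψ : X ≅ F.obj X) : (dbSingle A).obj X ≅ (dbMap F).obj ((dbSingle A).obj X) :=
  (dbSingle A).mapIso ψ ≪≫ ((dbIso F).app X).symm

theorem dbPhi_comm {X Y : A} (ψX : X ≅ F.obj X) (ψY : Y ≅ F.obj Y) (f g : X ⟶ Y)
    (h : f ≫ ψY.hom = ψX.hom ≫ F.map g) :
    (dbSingle A).map f ≫ (dbPhi F ψY).hom =
      (dbPhi F ψX).hom ≫ (dbMap F).map ((dbSingle A).map g) := by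
  have h2 := (dbIso F).inv.naturality g
  simp only [dbPhi, Iso.trans_hom, Functor.mapIso_hom, Iso.symm_hom, Iso.app_inv,
    Category.assoc, ← Functor.map_comp_assoc, h]
  simp only [Functor.map_comp, Category.assoc]
  congr 1

variable (k : Type*) [Field k] [Linear k A] [F.Linear k] [F.IsEquivalence]

/-- The automorphism of `Hom_A(X,Y)` given by `F` and the structures of `X`, `Y`. -/
def actA {X Y : A} (ψX : X ≅ F.obj X) (ψY : Y ≅ F.obj Y) : (X ⟶ Y) ≃ₗ[k] (X ⟶ Y) where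
  toFun f := ψX.hom ≫ F.map f ≫ ψY.inv
  invFun f := F.preimage (ψX.inv ≫ f ≫ ψY.hom)
  map_add' f g := by simp
  map_smul' c f := by simp
  left_inv f := by
    apply F.map_injective
    simp
  right_inv f := by simp

section

variable {C : Type*} [Category C] [Preadditive C] [Linear k C]
  [HasShift C ℤ] [∀ n : ℤ, (shiftFunctor C n).Additive]
  [∀ n : ℤ, Functor.Linear k (shiftFunctor C n)]
  (σ : C ⥤ C) [σ.CommShift ℤ] [σ.Additive] [σ.Linear k] [σ.Full] [σ.Faithful]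

theorem act_zero_aux (P Q : BO.EqObj σ) (f : P.X ⟶ Q.X) :
    P.φ.hom ≫ σ.map (f ≫ (shiftFunctorZero C ℤ).inv.app Q.X) ≫
      (σ.commShiftIso (0 : ℤ)).hom.app Q.X ≫ Q.φ.inv⟦(0 : ℤ)⟧' =
    (P.φ.hom ≫ σ.map f ≫ Q.φ.inv) ≫ (shiftFunctorZero C ℤ).inv.app Q.X := by
  have h1 := (shiftFunctorZero C ℤ).inv.naturality Q.φ.inv
  simp only [Functor.id_map] at h1
  rw [Functor.commShiftIso_zero, Functor.CommShift.isoZero_hom_app]
  simp only [Functor.map_comp, Category.assoc]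
  have h2 : σ.map ((shiftFunctorZero C ℤ).inv.app Q.X) ≫
      σ.map ((shiftFunctorZero C ℤ).hom.app Q.X) = 𝟙 _ := by
    rw [← σ.map_comp, Iso.inv_hom_id_app]
    exact σ.map_id _
  rw [reassoc_of% h2, h1]

end

theorem chi_single {X Y : A} (ψX : X ≅ F.obj X) (ψY : Y ≅ F.obj Y)
    (h : ∀ n : ℤ, n ≠ 0 → ∀ f : (dbSingle A).obj X ⟶ ((dbSingle A).obj Y)⟦n⟧, f = 0) :
    BO.chi k (dbMap F) ⟨(dbSingle A).obj X, dbPhi F ψX⟩ ⟨(dbSingle A).obj Y, dbPhi F ψY⟩ =
      BO.kcls (actA F k ψX ψY) := by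
  unfold BO.chi
  rw [finsum_eq_single _ 0]
  · rw [Int.negOnePow_zero, one_smul]
    symm
    let z : ((dbSingle A).obj Y)⟦(0 : ℤ)⟧ ≅ (dbSingle A).obj Y :=
      (shiftFunctorZero (Db A) ℤ).app ((dbSingle A).obj Y)
    let e : (X ⟶ Y) ≃ₗ[k] ((dbSingle A).obj X ⟶ ((dbSingle A).obj Y)⟦(0 : ℤ)⟧) :=
      { toFun f := (dbSingle A).map f ≫ z.inv
        invFun g := (dbSingle A).preimage (g ≫ z.hom)
        map_add' f g := by rw [Functor.map_add, Preadditive.add_comp]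
        map_smul' c f := by rw [Functor.map_smul, Linear.smul_comp]; rfl
        left_inv f := by
          apply (dbSingle A).map_injective
          rw [Functor.map_preimage, Category.assoc, z.inv_hom_id, Category.comp_id]
        right_inv g := by
          change (dbSingle A).map ((dbSingle A).preimage (g ≫ z.hom)) ≫ z.inv = g
          rw [Functor.map_preimage, Category.assoc, z.hom_inv_id, Category.comp_id] }
    refine BO.kcls_conj _ _ e ?_
    intro f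
    have h1 := act_zero_aux (dbMap F) ⟨(dbSingle A).obj X, dbPhi F ψX⟩
      ⟨(dbSingle A).obj Y, dbPhi F ψY⟩ ((dbSingle A).map f)
    refine Eq.trans ?_ h1.symm
    have h2 := dbPhi_comm F ψX ψY (ψX.hom ≫ F.map f ≫ ψY.inv) f (by simp)
    change (dbSingle A).map (ψX.hom ≫ F.map f ≫ ψY.inv) ≫ z.inv = _
    congr 1
    have h3 := congrArg (fun x => x ≫ (dbPhi F ψY).inv) h2
    simp only [Category.assoc, Iso.hom_inv_id, Category.comp_id] at h3
    exact h3
  · intro n hn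
    have : Subsingleton ((dbSingle A).obj X ⟶ ((dbSingle A).obj Y)⟦n⟧) :=
      ⟨fun a b => by rw [h n hn a, h n hn b]⟩
    rw [BO.kcls_of_subsingleton, smul_zero]

end MPbd3808.BR
end
end

section

/-!
# MP_bd3808_ag, campaign BR, block D: sheaves generating the bounded derived category

`AbGen k Q O`: the hypotheses, all inside the abelian category `A`, under which the `N` objects `Q i` form a full strong exceptional
system of `D^b(A)`; the objects `O c` (all line bundles) are auxiliary.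
-/

set_option autoImplicit false

noncomputable section

open CategoryTheory CategoryTheory.Limits CategoryTheory.Pretriangulated CategoryTheory.Abelian

namespace MPbd3808.BR

universe w' v' v u

attribute [local instance] CategoryTheory.Abelian.hasFiniteBiproducts

variable {A : Type u} [Category.{v} A] [Abelian A]

/-- `P` contains the zero objects, is closed under isomorphisms and has two out of three for short
exact sequences. -/
structure Closed23 (P : ObjectProperty A) : Prop where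
  zero : ∀ X : A, IsZero X → P X
  iso : ∀ X Y : A, (X ≅ Y) → P X → P Y
  mid : ∀ S : ShortComplex A, S.ShortExact → P S.X₁ → P S.X₃ → P S.X₂
  right : ∀ S : ShortComplex A, S.ShortExact → P S.X₁ → P S.X₂ → P S.X₃
  left : ∀ S : ShortComplex A, S.ShortExact → P S.X₂ → P S.X₃ → P S.X₁

variable [HasExt.{w'} A] (k : Type v') [Field k] [Linear k A]

/-- The hypotheses on `N` objects `Q i` and auxiliary objects `O c` of an abelian category. -/
structure AbGen {N : ℕ} (Q : Fin N → A) {ι : Type} (O : ι → A) : Prop where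
  ext_eq_zero : ∀ (i j : Fin N) (n : ℕ), 1 ≤ n → ∀ e : Ext (Q i) (Q j) n, e = 0
  hom_eq_zero : ∀ i j : Fin N, i < j → ∀ f : Q j ⟶ Q i, f = 0
  end_eq : ∀ (i : Fin N) (f : Q i ⟶ Q i), ∃! c : k, f = c • 𝟙 (Q i)
  fin : ∀ i j : Fin N, Module.Finite k (Q i ⟶ Q j)
  gen : ∀ X : A, ∃ (n : ℕ) (c : Fin n → ι) (p : (⨁ fun i => O (c i)) ⟶ X), Epi p
  build : ∀ P : ObjectProperty A, Closed23 P → (∀ i, P (Q i)) → ∀ c, P (O c)
  build' : ∀ P : ObjectProperty A, Closed23 P → (∀ c, P (O c)) → ∀ i, P (Q i)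
  bound : ∀ c : ι, ∃ B : ℕ, ∀ n : ℕ, B < n → ∀ (X : A) (e : Ext (O c) X n), e = 0

end MPbd3808.BR
end
end

section

/-!
# TASK D10: an object orthogonal to generators of `A` is zero

PROOF. Suppose `Y.obj` is not zero. It is bounded: `Y.obj.IsGE a`; let `m` be maximal with `Y.obj.IsGE m` (it exists: if `Y.obj.IsGE m` for `m > b`, where
`Y.obj.IsLE b`, then `Y.obj` is zero; `isGE_iff`), so `H^m(Y) ≠ 0`. `TStructure.exists_triangle Y.obj m (m+1)`: `X' ⟶ Y ⟶ Y' ⟶ X'[1]`, `X' ≤ m`, `Y' ≥ m+1`; `X' ≥ m` (as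
`Y ≥ m`, `Y'[-1] ≥ m+2`), so `X' ≅ (singleFunctor A m).obj M` (`exists_iso_singleFunctor_obj_of_isGE_of_isLE`), `M ≠ 0` (otherwise `Y ≅ Y' ≥ m+1`), i.e. `X'⟦m⟧ ≅
(singleFunctor A 0).obj M`. By `gen` there is an epi `⨁ O (c i) ⟶ M`, not zero, so some component `g : O c ⟶ M` is not zero; it gives a nonzero
`(singleFunctor A 0).obj (O c) ⟶ X'⟦m⟧`. Its composite with `X'⟦m⟧ ⟶ Y⟦m⟧` is zero by hypothesis, so it factors through `Y'⟦m⟧⟦-1⟧ ⟶ X'⟦m⟧` (long exact sequence), and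
`Hom((singleFunctor A 0).obj (O c), Y'⟦m⟧⟦-1⟧) = 0` (`Y'⟦m⟧⟦-1⟧ ≥ 2`, `TStructure.zero`): contradiction.
-/

set_option autoImplicit false

noncomputable section

open CategoryTheory CategoryTheory.Limits CategoryTheory.Pretriangulated CategoryTheory.Abelian

namespace MPbd3808.BR

open DerivedCategory DerivedCategory.TStructure

universe w v u

attribute [local instance] CategoryTheory.Abelian.hasFiniteBiproducts

variable {A : Type u} [Category.{v} A] [Abelian A] [HasDerivedCategory.{w} A]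

/-- One step: if `Y` is `≥ m` then it is `≥ m + 1`. -/
private theorem D10_step {ι : Type} (O : ι → A)
    (gen : ∀ X : A, ∃ (n : ℕ) (c : Fin n → ι) (p : (⨁ fun i => O (c i)) ⟶ X), Epi p)
    (Y : DerivedCategory A)
    (h : ∀ (c : ι) (n : ℤ) (f : (singleFunctor A n).obj (O c) ⟶ Y), f = 0) (m : ℤ)
    (hm : (t (C := A)).IsGE Y m) : (t (C := A)).IsGE Y (m + 1) := by
  obtain ⟨X', Y', hX', hY', f, g, δ, hT⟩ := (t (C := A)).exists_triangle Y m (m + 1) rfl
  have hX1 : (t (C := A)).IsLE X' m := ⟨hX'⟩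
  have hY1 : (t (C := A)).IsGE Y' (m + 1) := ⟨hY'⟩
  have hT' := inv_rot_of_distTriang _ hT
  have hY2 : (t (C := A)).IsGE (Y'⟦(-1 : ℤ)⟧) (m + 2) :=
    (t (C := A)).isGE_shift Y' (m + 1) (-1) (m + 2) (by omega)
  have hX2 : (t (C := A)).IsGE X' m := by
    refine (t (C := A)).isGE₂ _ hT' m ?_ hm
    exact (t (C := A)).isGE_of_ge (Y'⟦(-1 : ℤ)⟧) m (m + 2) (by omega)
  have hX3 : X'.IsGE m := hX2
  have hX4 : X'.IsLE m := hX1
  obtain ⟨M, ⟨e⟩⟩ := exists_iso_singleFunctor_obj_of_isGE_of_isLE X' m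
  have hfull : ∀ (c : ι) (u : O c ⟶ M), u = 0 := by
    intro c u
    have h1 : ((singleFunctor A m).map u ≫ e.inv) ≫ f = 0 := h c m _
    obtain ⟨v, hv⟩ : ∃ v : (singleFunctor A m).obj (O c) ⟶ Y'⟦(-1 : ℤ)⟧,
        (singleFunctor A m).map u ≫ e.inv = v ≫ (Triangle.mk f g δ).invRotate.mor₁ :=
      Triangle.coyoneda_exact₂ _ hT' _ h1
    have hv0 : v = 0 := (t (C := A)).zero v m (m + 2) (by omega)
    rw [hv0, zero_comp] at hv
    have h3 : (singleFunctor A m).map u ≫ e.inv = 0 := hv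
    apply (singleFunctor A m).map_injective
    rw [Functor.map_zero]
    have h2 : (singleFunctor A m).map u = ((singleFunctor A m).map u ≫ e.inv) ≫ e.hom := by simp
    rw [h2, h3, zero_comp]
  obtain ⟨n, c, p, hp⟩ := gen M
  have hp0 : p = 0 := by
    apply biproduct.hom_ext'
    intro i
    rw [hfull (c i) (biproduct.ι (fun i => O (c i)) i ≫ p), comp_zero]
  have hM : IsZero M := by
    rw [IsZero.iff_id_eq_zero, ← cancel_epi p, hp0, zero_comp, zero_comp]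
  have hX5 : IsZero X' := ((singleFunctor A m).map_isZero hM).of_iso e
  exact (t (C := A)).isGE₂ _ hT (m + 1) ((t (C := A)).isGE_of_isZero hX5 _) hY1

theorem isZero_of_orth {ι : Type} (O : ι → A)
    (gen : ∀ X : A, ∃ (n : ℕ) (c : Fin n → ι) (p : (⨁ fun i => O (c i)) ⟶ X), Epi p)
    (Y : Db A) (h : ∀ (c : ι) (n : ℤ) (f : (dbSingle A).obj (O c) ⟶ Y⟦n⟧), f = 0) : IsZero Y := by
  obtain ⟨⟨a, ha⟩, ⟨b, hb⟩⟩ := Y.property
  have hY : ∀ (c : ι) (n : ℤ) (f : (singleFunctor A n).obj (O c) ⟶ Y.obj), f = 0 := by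
    intro c n f
    let e : ((singleFunctor A n).obj (O c))⟦n⟧ ≅ (singleFunctor A 0).obj (O c) :=
      ((singleFunctors A).shiftIso n 0 n (by omega)).app (O c)
    let I : Db A ⥤ DerivedCategory A := (t (C := A)).bounded.ι
    let e2 : I.obj (Y⟦n⟧) ≅ Y.obj⟦n⟧ := (I.commShiftIso n).app Y
    let u : (dbSingle A).obj (O c) ⟶ Y⟦n⟧ :=
      I.preimage (X := (dbSingle A).obj (O c)) (Y := Y⟦n⟧)
        (e.inv ≫ (shiftFunctor (DerivedCategory A) n).map f ≫ e2.inv)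
    have h0 : e.inv ≫ (shiftFunctor (DerivedCategory A) n).map f ≫ e2.inv = 0 := by
      have h3 : I.map u = e.inv ≫ (shiftFunctor (DerivedCategory A) n).map f ≫ e2.inv :=
        I.map_preimage _
      rw [← h3, h c n u]
      exact I.map_zero _ _
    have h1 : e.inv ≫ (shiftFunctor (DerivedCategory A) n).map f = 0 := by
      have h4 : e.inv ≫ (shiftFunctor (DerivedCategory A) n).map f =
          (e.inv ≫ (shiftFunctor (DerivedCategory A) n).map f ≫ e2.inv) ≫ e2.hom := by simp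
      rw [h4, h0, zero_comp]
    apply (shiftFunctor (DerivedCategory A) n).map_injective
    rw [Functor.map_zero]
    have h2 : (shiftFunctor (DerivedCategory A) n).map f =
        e.hom ≫ (e.inv ≫ (shiftFunctor (DerivedCategory A) n).map f) := by simp
    rw [h2, h1, comp_zero]
  have hall : ∀ n : ℕ, (t (C := A)).IsGE Y.obj (a + n) := by
    intro n
    induction n with
    | zero => simpa using ha
    | succ n ih =>
      have := D10_step O gen Y.obj hY (a + n) ih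
      have e : a + ((n + 1 : ℕ) : ℤ) = a + n + 1 := by push_cast; ring
      rw [e]
      exact this
  have hz : IsZero Y.obj := by
    have h1 := hall (b + 1 - a).toNat
    have h2 : b < a + ((b + 1 - a).toNat : ℤ) := by
      have := Int.self_le_toNat (b + 1 - a)
      omega
    exact (t (C := A)).isZero Y.obj b _ h2
  rw [IsZero.iff_id_eq_zero] at hz ⊢
  exact ObjectProperty.hom_ext _ hz

end MPbd3808.BR
end
end

section

/-!
# TASK D3: `D^b(A)` is generated by `A`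

PROOF. Let `Z : Db A`; `Z.property` gives `Z.obj.IsGE a`, `Z.obj.IsLE b`. Induction on `b - a` (natural number), for all `Z`. If `b < a`: `Z` is zero
(`TStructure.isZero`). If `a = b`: `DerivedCategory.exists_iso_singleFunctor_obj_of_isGE_of_isLE`, and `(singleFunctor A a).obj Y` is a shift of
`(singleFunctor A 0).obj Y` (`SingleFunctors.shiftIso`). If `a < b`: `TStructure.exists_triangle Z.obj a (a+1)`: `X' ⟶ Z ⟶ Y' ⟶ X'[1]` with `X' ≤ a`, `Y' ≥ a+1`;
then `X' ≥ a` and `Y' ≤ b` (`isGE_iff`, `isLE_iff` and the long exact sequence of homology, or the t-structure lemmas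
(`Mathlib.CategoryTheory.Triangulated.TStructure.TruncLTGE`, `isGE₂`, …)). So `X'`, `Y'` are bounded, the triangle is one of `Db A`, and `P` is closed under
extensions (`P.ext_of_isTriangulatedClosed₂`).
-/

set_option autoImplicit false

noncomputable section

open CategoryTheory CategoryTheory.Limits CategoryTheory.Pretriangulated CategoryTheory.Abelian

namespace MPbd3808.BR

open DerivedCategory DerivedCategory.TStructure

universe w v u

variable {A : Type u} [Category.{v} A] [Abelian A] [HasDerivedCategory.{w} A]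

private theorem devissage_base (P : ObjectProperty (Db A)) [P.IsTriangulated]
    [P.IsClosedUnderIsomorphisms] (h : ∀ X : A, P ((dbSingle A).obj X)) (Z : Db A) (a : ℤ)
    (h1 : (Z.obj : DerivedCategory A).IsGE a) (h2 : (Z.obj : DerivedCategory A).IsLE a) :
    P Z := by
  obtain ⟨Y, ⟨e⟩⟩ := exists_iso_singleFunctor_obj_of_isGE_of_isLE Z.obj a
  have e2 : (shiftFunctor (DerivedCategory A) (-a)).obj ((singleFunctor A 0).obj Y) ≅
      (singleFunctor A a).obj Y :=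
    ((singleFunctors A).shiftIso (-a) a 0 (by lia)).app Y
  have e3 : (t (C := A)).bounded.ι.obj (((dbSingle A).obj Y)⟦-a⟧) ≅
      (t (C := A)).bounded.ι.obj Z :=
    (((t (C := A)).bounded.ι.commShiftIso (-a)).app ((dbSingle A).obj Y)) ≪≫ e2 ≪≫ e.symm
  exact P.prop_of_iso ((t (C := A)).bounded.fullyFaithfulι.preimageIso e3)
    (P.le_shift (-a) _ (h Y))

private theorem devissage_aux (P : ObjectProperty (Db A)) [P.IsTriangulated]
    [P.IsClosedUnderIsomorphisms] (h : ∀ X : A, P ((dbSingle A).obj X)) (b : ℤ) (n : ℕ) :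
    ∀ (Z : Db A) (_ : (t (C := A)).onBounded.IsGE Z (b - n))
      (_ : (t (C := A)).onBounded.IsLE Z b), P Z := by
  induction n with
  | zero =>
    intro Z h1 h2
    rw [Nat.cast_zero, sub_zero] at h1
    exact devissage_base P h Z b
      (((t (C := A)).bounded.tStructure_isGE_iff (t (C := A)) Z b).1 h1)
      (((t (C := A)).bounded.tStructure_isLE_iff (t (C := A)) Z b).1 h2)
  | succ n ih =>
    intro Z h1 h2
    set τ := (t (C := A)).onBounded with hτ
    have hT := τ.triangleLTGE_distinguished (b - n) Z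
    have hX : τ.IsLE ((τ.truncLT (b - n)).obj Z) (b - n - 1) := inferInstance
    have hY : τ.IsGE ((τ.truncGE (b - n)).obj Z) (b - n) := inferInstance
    have hY2 : τ.IsLE ((τ.truncGE (b - n)).obj Z) b := by
      refine τ.isLE₂ _ (rot_of_distTriang _ hT) b h2 ?_
      have hX3 : τ.IsLE ((τ.truncLT (b - n)).obj Z) (b + 1) := τ.isLE_of_le _ (b - n - 1) _
      exact τ.isLE_shift ((τ.truncLT (b - n)).obj Z) (b + 1) 1 b
    have hX2 : τ.IsGE ((τ.truncLT (b - n)).obj Z) (b - n - 1) := by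
      have h1' : τ.IsGE Z (b - n - 1) := by
        have e : b - ((n + 1 : ℕ) : ℤ) = b - n - 1 := by push_cast; ring
        rwa [e] at h1
      refine τ.isGE₂ _ (inv_rot_of_distTriang _ hT) (b - n - 1) ?_ h1'
      have hY3 : τ.IsGE ((τ.truncGE (b - n)).obj Z) (b - n - 2) := τ.isGE_of_ge _ _ (b - n)
      exact τ.isGE_shift ((τ.truncGE (b - n)).obj Z) (b - n - 2) (-1) (b - n - 1)
    refine P.ext_of_isTriangulatedClosed₂ _ hT ?_ (ih _ hY hY2)
    exact devissage_base P h _ (b - n - 1)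
      (((t (C := A)).bounded.tStructure_isGE_iff (t (C := A)) _ _).1 hX2)
      (((t (C := A)).bounded.tStructure_isLE_iff (t (C := A)) _ _).1 hX)

theorem devissage (P : ObjectProperty (Db A)) [P.IsTriangulated] [P.IsClosedUnderIsomorphisms]
    (h : ∀ X : A, P ((dbSingle A).obj X)) (Z : Db A) : P Z := by
  obtain ⟨⟨a, ha⟩, ⟨b, hb⟩⟩ := Z.property
  have ha' := ((t (C := A)).bounded.tStructure_isGE_iff (t (C := A)) Z a).2 ha
  have hb' := ((t (C := A)).bounded.tStructure_isLE_iff (t (C := A)) Z b).2 hb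
  refine devissage_aux P h b (b - a).toNat Z ?_ hb'
  exact (t (C := A)).onBounded.isGE_of_ge Z _ a

end MPbd3808.BR
end
end

section

/-!
# TASK D1: morphisms between objects of the heart of `D^b(A)`

`(dbSingle A).obj X = ⟨(singleFunctor A 0).obj X, _⟩` (G2), and `Db A` is a full subcategory of `DerivedCategory A` (stable under the shift: the shift of
`FullSubcategory` is computed on `.obj`, and `f.hom` is the underlying morphism; `ObjectProperty.hom_ext`).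
-/

set_option autoImplicit false

noncomputable section

open CategoryTheory CategoryTheory.Limits CategoryTheory.Pretriangulated CategoryTheory.Abelian

namespace MPbd3808.BR

universe w' w v' v u

variable {A : Type u} [Category.{v} A] [Abelian A] [HasDerivedCategory.{w} A]

private theorem D1_aux {X Y : Db A} {n : ℤ} (h : ∀ g : X.obj ⟶ (Y.obj)⟦n⟧, g = 0)
    (f : X ⟶ Y⟦n⟧) : f = 0 := by
  apply (DerivedCategory.TStructure.t (C := A)).bounded.ι.map_injective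
  rw [Functor.map_zero, ← cancel_mono
    (((DerivedCategory.TStructure.t (C := A)).bounded.ι.commShiftIso n).hom.app Y), zero_comp]
  exact h _

/-- PROOF. `Ext.homEquiv : Ext X Y n ≃ ShiftedHom ((singleFunctor A 0).obj X) ((singleFunctor A 0).obj Y) (n : ℤ)`
(Mathlib.Algebra.Homology.DerivedCategory.Ext.Basic); `f.hom` is the image of `homEquiv.symm f.hom = 0`, and `homEquiv 0 = 0` (`Ext.zero_hom`). -/
theorem dbHom_of_ext [HasExt.{w'} A] (X Y : A) (n : ℕ) (h : ∀ e : Ext X Y n, e = 0)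
    (f : (dbSingle A).obj X ⟶ ((dbSingle A).obj Y)⟦(n : ℤ)⟧) : f = 0 := by
  refine D1_aux (fun (g : ShiftedHom ((DerivedCategory.singleFunctor A 0).obj X)
    ((DerivedCategory.singleFunctor A 0).obj Y) (n : ℤ)) => ?_) f
  have h2 := h (Ext.homEquiv.symm g)
  have h3 := congrArg Ext.homEquiv h2
  rw [Equiv.apply_symm_apply] at h3
  rw [h3]
  exact Ext.zero_hom ..

/-- PROOF. t-structure: `TStructure.zero` (source `≤ 0`, target `≥ -n > 0`: `TStructure.isGE_shift`). -/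
theorem dbHom_neg (X Y : A) (n : ℤ) (hn : n < 0)
    (f : (dbSingle A).obj X ⟶ ((dbSingle A).obj Y)⟦n⟧) : f = 0 := by
  refine D1_aux (fun (g : (DerivedCategory.singleFunctor A 0).obj X ⟶
    ((DerivedCategory.singleFunctor A 0).obj Y)⟦n⟧) => ?_) f
  have h1 : g = 0 := by
    have i1 : (DerivedCategory.TStructure.t (C := A)).IsLE
        ((DerivedCategory.singleFunctor A 0).obj X) 0 :=
      inferInstanceAs (((DerivedCategory.singleFunctor A 0).obj X).IsLE 0)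
    have i2 : (DerivedCategory.TStructure.t (C := A)).IsGE
        ((DerivedCategory.singleFunctor A 0).obj Y) 0 :=
      inferInstanceAs (((DerivedCategory.singleFunctor A 0).obj Y).IsGE 0)
    have i3 : (DerivedCategory.TStructure.t (C := A)).IsGE
        (((DerivedCategory.singleFunctor A 0).obj Y)⟦n⟧) (-n) :=
      (DerivedCategory.TStructure.t (C := A)).isGE_shift _ 0 n (-n) (by omega)
    exact (DerivedCategory.TStructure.t (C := A)).zero g 0 (-n) (by omega)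
  exact h1

/-- PROOF. `dbSingle A` is fully faithful and linear, `shiftFunctorZero`. -/
theorem dbHom_zero_finite (k : Type v') [Field k] [Linear k A] (X Y : A)
    (h : Module.Finite k (X ⟶ Y)) :
    Module.Finite k ((dbSingle A).obj X ⟶ ((dbSingle A).obj Y)⟦(0 : ℤ)⟧) := by
  let z : ((dbSingle A).obj Y)⟦(0 : ℤ)⟧ ≅ (dbSingle A).obj Y :=
    (shiftFunctorZero (Db A) ℤ).app ((dbSingle A).obj Y)
  let e : (X ⟶ Y) ≃ₗ[k] ((dbSingle A).obj X ⟶ ((dbSingle A).obj Y)⟦(0 : ℤ)⟧) :=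
    { toFun f := (dbSingle A).map f ≫ z.inv
      invFun g := (dbSingle A).preimage (g ≫ z.hom)
      map_add' f g := by rw [Functor.map_add, Preadditive.add_comp]
      map_smul' c f := by rw [Functor.map_smul, Linear.smul_comp]; rfl
      left_inv f := by
        apply (dbSingle A).map_injective
        rw [Functor.map_preimage, Category.assoc, z.inv_hom_id, Category.comp_id]
      right_inv g := by
        change (dbSingle A).map ((dbSingle A).preimage (g ≫ z.hom)) ≫ z.inv = g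
        rw [Functor.map_preimage, Category.assoc, z.hom_inv_id, Category.comp_id] }
  exact Module.Finite.equiv e

end MPbd3808.BR
end
end

section

/-!
# TASK D2: short exact sequences give distinguished triangles of `D^b(A)`

Mathlib: `ShortComplex.ShortExact.singleTriangle`, `singleTriangle_distinguished` (Mathlib.Algebra.Homology.DerivedCategory.SingleTriangle). The triangles of a
full triangulated subcategory are those whose image is distinguished (Mathlib.CategoryTheory.Triangulated.Subcategory).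
-/

set_option autoImplicit false

noncomputable section

open CategoryTheory CategoryTheory.Limits CategoryTheory.Pretriangulated CategoryTheory.Abelian

namespace MPbd3808.BR

universe w v u

variable {A : Type u} [Category.{v} A] [Abelian A] [HasDerivedCategory.{w} A]

theorem dbTriangle (S : ShortComplex A) (hS : S.ShortExact) :
    ∃ d : (dbSingle A).obj S.X₃ ⟶ ((dbSingle A).obj S.X₁)⟦(1 : ℤ)⟧,
      Triangle.mk ((dbSingle A).map S.f) ((dbSingle A).map S.g) d ∈ distTriang (Db A) := by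
  let P : ObjectProperty (DerivedCategory A) := (DerivedCategory.TStructure.t (C := A)).bounded
  let δ : P.ι.obj ((dbSingle A).obj S.X₃) ⟶
      (P.ι ⋙ shiftFunctor (DerivedCategory A) (1 : ℤ)).obj ((dbSingle A).obj S.X₁) := hS.singleδ
  let d : (dbSingle A).obj S.X₃ ⟶ ((dbSingle A).obj S.X₁)⟦(1 : ℤ)⟧ :=
    P.fullyFaithfulι.preimage (δ ≫ (P.ι.commShiftIso (1 : ℤ)).inv.app ((dbSingle A).obj S.X₁))
  have hd : P.ι.map d = δ ≫ (P.ι.commShiftIso (1 : ℤ)).inv.app ((dbSingle A).obj S.X₁) :=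
    P.fullyFaithfulι.map_preimage _
  have key : P.ι.map d ≫ (P.ι.commShiftIso (1 : ℤ)).hom.app ((dbSingle A).obj S.X₁) = δ := by
    rw [hd, Category.assoc, Iso.inv_hom_id_app, Category.comp_id]
  refine ⟨d, ?_⟩
  refine isomorphic_distinguished _ hS.singleTriangle_distinguished _
    (Triangle.isoMk _ _ (Iso.refl _) (Iso.refl _) (Iso.refl _) ?_ ?_ ?_)
  · change (DerivedCategory.singleFunctor A 0).map S.f ≫ 𝟙 _ =
      𝟙 _ ≫ (DerivedCategory.singleFunctor A 0).map S.f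
    rw [Category.comp_id, Category.id_comp]
  · change (DerivedCategory.singleFunctor A 0).map S.g ≫ 𝟙 _ =
      𝟙 _ ≫ (DerivedCategory.singleFunctor A 0).map S.g
    rw [Category.comp_id, Category.id_comp]
  · change (P.ι.map d ≫ (P.ι.commShiftIso (1 : ℤ)).hom.app ((dbSingle A).obj S.X₁)) ≫
      (shiftFunctor (DerivedCategory A) (1 : ℤ)).map (𝟙 _) = 𝟙 _ ≫ δ
    rw [key, CategoryTheory.Functor.map_id, Category.id_comp]
    exact Category.comp_id δ

/-- PROOF. `dbTriangle` and `P.ext_of_isTriangulatedClosed₁/₂/₃`; `(dbSingle A).obj` of a zero object is zero. -/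
theorem closed23_of_triangulated (P : ObjectProperty (Db A)) [P.IsTriangulated]
    [P.IsClosedUnderIsomorphisms] : Closed23 (fun X : A => P ((dbSingle A).obj X)) where
  zero X hX := P.prop_of_isZero ((dbSingle A).map_isZero hX)
  iso X Y e hX := P.prop_of_iso ((dbSingle A).mapIso e) hX
  mid S hS h1 h3 := by
    obtain ⟨d, hd⟩ := dbTriangle S hS
    exact P.ext_of_isTriangulatedClosed₂ _ hd h1 h3
  right S hS h1 h2 := by
    obtain ⟨d, hd⟩ := dbTriangle S hS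
    exact P.ext_of_isTriangulatedClosed₃ _ hd h1 h2
  left S hS h2 h3 := by
    obtain ⟨d, hd⟩ := dbTriangle S hS
    exact P.ext_of_isTriangulatedClosed₁ _ hd h2 h3

end MPbd3808.BR
end
end

section

/-!
# TASK D4: four triangulated properties

The file `BO/FinAll.lean` contains (inside the proof of `extFin_of_full` and in its private lemmas, which may be copied) all that is needed for `finR`, `finL`;
`orthL`, `orthR` are similar and easier (`Triangle.coyoneda_exact₂`, `Triangle.yoneda_exact₂`, `Triangle.shift_distinguished`; shifts: `(shiftFunctor C a).map_injective`,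
`shiftFunctorCompIsoId`, `shiftFunctorAdd`).
-/

set_option autoImplicit false

noncomputable section

open CategoryTheory CategoryTheory.Limits CategoryTheory.Pretriangulated CategoryTheory.Abelian

namespace MPbd3808.BR

universe w v u

variable (k : Type w) [Field k] {C : Type u} [Category.{v} C] [Preadditive C] [Linear k C]
  [HasZeroObject C] [HasShift C ℤ] [∀ n : ℤ, (shiftFunctor C n).Additive]
  [∀ n : ℤ, Functor.Linear k (shiftFunctor C n)] [Pretriangulated C]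

/-- The shift of a full subcategory is linear (used for `C = Db A`). -/
instance D4_fullSub_shift_linear {k : Type*} [Field k] {C : Type*} [Category C] [Preadditive C]
    [Linear k C] [HasShift C ℤ] (P : ObjectProperty C) [P.IsStableUnderShift ℤ] (n : ℤ)
    [Functor.Linear k (shiftFunctor C n)] :
    Functor.Linear k (shiftFunctor P.FullSubcategory n) where
  map_smul {X Y} f r := by
    apply P.ι.map_injective
    have h : ∀ g : X ⟶ Y, P.ι.map ((shiftFunctor P.FullSubcategory n).map g) =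
        (P.ι.commShiftIso n).hom.app X ≫ (shiftFunctor C n).map (P.ι.map g) ≫
          (P.ι.commShiftIso n).inv.app Y := fun g => by
      have := (P.ι.commShiftIso n).hom.naturality g
      rw [← reassoc_of% this]
      simp
    rw [P.ι.map_smul, h, h, P.ι.map_smul, Functor.map_smul, Linear.smul_comp, Linear.comp_smul]

/-- The objects `X` with finite total Homs from all `Y i`. -/
def finR {ι : Type*} (Y : ι → C) : ObjectProperty C := fun X => ∀ i, BO.ExtFin k (Y i) X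

/-- The objects `Y` with finite total Homs to all `X i`. -/
def finL {ι : Type*} (X : ι → C) : ObjectProperty C := fun Y => ∀ i, BO.ExtFin k Y (X i)

/-- The objects `X` with `Hom(Y i, X[n]) = 0`. -/
def orthR {ι : Type*} (Y : ι → C) : ObjectProperty C := fun X => ∀ i (n : ℤ) (f : Y i ⟶ X⟦n⟧), f = 0

/-- The objects `Y` with `Hom(Y, (X i)[n]) = 0`. -/
def orthL {ι : Type*} (X : ι → C) : ObjectProperty C := fun Y => ∀ i (n : ℤ) (f : Y ⟶ (X i)⟦n⟧), f = 0

omit [HasZeroObject C] [∀ n : ℤ, (shiftFunctor C n).Additive]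
  [∀ n : ℤ, Functor.Linear k (shiftFunctor C n)] [Pretriangulated C] in
private theorem D4_inj {Y X Y' X' : C} (h : BO.ExtFin k Y X) (φ : ℤ → ℤ)
    (hφ : Function.Injective φ) (F : ∀ n : ℤ, (Y' ⟶ X'⟦n⟧) →ₗ[k] (Y ⟶ X⟦φ n⟧))
    (hF : ∀ n, Function.Injective (F n)) : BO.ExtFin k Y' X' := by
  refine ⟨fun n => ?_, ?_⟩
  · have := h.1 (φ n)
    exact Module.Finite.of_injective (F n) (hF n)
  · refine (h.2.preimage hφ.injOn).subset ?_
    intro n hn
    have : Nontrivial (Y' ⟶ X'⟦n⟧) := hn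
    exact (hF n).nontrivial

omit [HasZeroObject C] [∀ n : ℤ, (shiftFunctor C n).Additive]
  [∀ n : ℤ, Functor.Linear k (shiftFunctor C n)] [Pretriangulated C] in
private theorem D4_exact {Y X Y₁ X₁ Y₃ X₃ : C} (h₁ : BO.ExtFin k Y₁ X₁) (h₃ : BO.ExtFin k Y₃ X₃)
    (F : ∀ n : ℤ, (Y₁ ⟶ X₁⟦n⟧) →ₗ[k] (Y ⟶ X⟦n⟧))
    (G : ∀ n : ℤ, (Y ⟶ X⟦n⟧) →ₗ[k] (Y₃ ⟶ X₃⟦n⟧))
    (hFG : ∀ n x, G n x = 0 → ∃ y, F n y = x) : BO.ExtFin k Y X := by
  refine ⟨fun n => ?_, ?_⟩
  · have := h₁.1 n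
    have := h₃.1 n
    have hle : LinearMap.ker (G n) ≤ LinearMap.range (F n) := by
      intro x hx
      obtain ⟨y, hy⟩ := hFG n x (LinearMap.mem_ker.mp hx)
      exact ⟨y, hy⟩
    have h5 : Module.Finite k (LinearMap.ker (G n)) := Submodule.finiteDimensional_of_le hle
    have h6 : Module.Finite k ((Y ⟶ X⟦n⟧) ⧸ LinearMap.ker (G n)) :=
      Module.Finite.equiv (LinearMap.quotKerEquivRange (G n)).symm
    exact Module.Finite.of_submodule_quotient (LinearMap.ker (G n))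
  · refine (h₁.2.union h₃.2).subset ?_
    intro n hn
    by_contra hcon
    rw [Set.mem_union, not_or] at hcon
    have hn' : Nontrivial (Y ⟶ X⟦n⟧) := hn
    have h1 : Subsingleton (Y₁ ⟶ X₁⟦n⟧) := not_nontrivial_iff_subsingleton.mp hcon.1
    have h3 : Subsingleton (Y₃ ⟶ X₃⟦n⟧) := not_nontrivial_iff_subsingleton.mp hcon.2
    obtain ⟨x, hx⟩ := exists_ne (0 : Y ⟶ X⟦n⟧)
    obtain ⟨y, hy⟩ := hFG n x (Subsingleton.elim _ _)
    apply hx
    rw [← hy, Subsingleton.elim y 0, map_zero]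

omit [HasZeroObject C] [∀ n : ℤ, Functor.Linear k (shiftFunctor C n)] [Pretriangulated C] in
private theorem D4_zero {Y X : C} (h : IsZero Y ∨ IsZero X) : BO.ExtFin k Y X := by
  have h1 : ∀ n : ℤ, Subsingleton (Y ⟶ X⟦n⟧) := by
    intro n
    rcases h with h | h
    · exact ⟨fun f g => h.eq_of_src f g⟩
    · exact ⟨fun f g => ((shiftFunctor C n).map_isZero h).eq_of_tgt f g⟩
  refine ⟨fun n => ?_, ?_⟩
  · have := h1 n
    infer_instance
  · refine (Set.finite_empty (α := ℤ)).subset ?_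
    intro n h2
    exact absurd h2 (not_nontrivial_iff_subsingleton.mpr (h1 n))

omit [HasZeroObject C] [∀ n : ℤ, (shiftFunctor C n).Additive]
  [∀ n : ℤ, Functor.Linear k (shiftFunctor C n)] [Pretriangulated C] in
private theorem D4_isoR {Y X X' : C} (e : X ≅ X') (h : BO.ExtFin k Y X) : BO.ExtFin k Y X' := by
  refine D4_inj k h id Function.injective_id
    (fun n => Linear.rightComp k Y ((shiftFunctor C n).map e.inv)) ?_
  intro n f g hfg
  have h2 : f ≫ (shiftFunctor C n).map e.inv = g ≫ (shiftFunctor C n).map e.inv := hfg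
  exact (cancel_mono _).1 h2

omit [HasZeroObject C] [∀ n : ℤ, (shiftFunctor C n).Additive]
  [∀ n : ℤ, Functor.Linear k (shiftFunctor C n)] [Pretriangulated C] in
private theorem D4_isoL {Y Y' X : C} (e : Y ≅ Y') (h : BO.ExtFin k Y X) : BO.ExtFin k Y' X := by
  refine D4_inj k h id Function.injective_id
    (fun n => Linear.leftComp k (X⟦n⟧) e.hom) ?_
  intro n f g hfg
  simpa using hfg

omit [HasZeroObject C] [∀ n : ℤ, (shiftFunctor C n).Additive]
  [∀ n : ℤ, Functor.Linear k (shiftFunctor C n)] [Pretriangulated C] in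
private theorem D4_shR {Y X : C} (a : ℤ) (h : BO.ExtFin k Y X) : BO.ExtFin k Y (X⟦a⟧) := by
  refine D4_inj k h (fun n => a + n) (add_right_injective a)
    (fun n => Linear.rightComp k Y ((shiftFunctorAdd C a n).inv.app X)) ?_
  intro n f g hfg
  have h2 : f ≫ (shiftFunctorAdd C a n).inv.app X = g ≫ (shiftFunctorAdd C a n).inv.app X := hfg
  exact (cancel_mono _).1 h2

omit [HasZeroObject C] [Pretriangulated C] in
private theorem D4_shL {Y X : C} (a : ℤ) (h : BO.ExtFin k Y X) : BO.ExtFin k (Y⟦a⟧) X := by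
  refine D4_inj k h (fun n => n + (-a)) (add_left_injective (-a))
    (fun n => (Linear.rightComp k Y ((shiftFunctorAdd C n (-a)).inv.app X)).comp
      ((Linear.leftComp k _ ((shiftFunctorCompIsoId C a (-a) (by simp)).inv.app Y)).comp
        ((shiftFunctor C (-a)).mapLinearMap k (X := Y⟦a⟧) (Y := X⟦n⟧)))) ?_
  intro n f g hfg
  apply (shiftFunctor C (-a)).map_injective
  have h2 : ((shiftFunctorCompIsoId C a (-a) (by simp)).inv.app Y ≫ (shiftFunctor C (-a)).map f) ≫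
      (shiftFunctorAdd C n (-a)).inv.app X =
      ((shiftFunctorCompIsoId C a (-a) (by simp)).inv.app Y ≫ (shiftFunctor C (-a)).map g) ≫
      (shiftFunctorAdd C n (-a)).inv.app X := hfg
  exact (cancel_epi _).1 ((cancel_mono _).1 h2)

omit [HasZeroObject C] [∀ n : ℤ, (shiftFunctor C n).Additive]
  [∀ n : ℤ, Functor.Linear k (shiftFunctor C n)] [Pretriangulated C] in
instance finR_iso {ι : Type*} (Y : ι → C) : (finR k Y).IsClosedUnderIsomorphisms :=
  ⟨fun e hX i => D4_isoR k e (hX i)⟩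

omit [∀ n : ℤ, Functor.Linear k (shiftFunctor C n)] in
instance finR_tri {ι : Type*} (Y : ι → C) : (finR k Y).IsTriangulated := by
  refine { exists_zero := ?_, isStableUnderShiftBy := ?_, ext₂' := ?_ }
  · exact ⟨_, isZero_zero C, fun i => D4_zero k (Or.inr (isZero_zero C))⟩
  · intro a
    exact ⟨fun X hX i => D4_shR k a (hX i)⟩
  · intro T hT h₁ h₃
    refine ObjectProperty.le_isoClosure _ _ fun i => ?_
    refine D4_exact k (h₁ i) (h₃ i)
      (fun n => Linear.rightComp k (Y i) (((Triangle.shiftFunctor C n).obj T).mor₁))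
      (fun n => Linear.rightComp k (Y i) (((Triangle.shiftFunctor C n).obj T).mor₂)) ?_
    intro n x hx
    obtain ⟨y, hy⟩ := Triangle.coyoneda_exact₂ _ (Triangle.shift_distinguished T hT n) x hx
    exact ⟨y, hy.symm⟩

omit [HasZeroObject C] [∀ n : ℤ, (shiftFunctor C n).Additive]
  [∀ n : ℤ, Functor.Linear k (shiftFunctor C n)] [Pretriangulated C] in
instance finL_iso {ι : Type*} (X : ι → C) : (finL k X).IsClosedUnderIsomorphisms :=
  ⟨fun e hY i => D4_isoL k e (hY i)⟩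

instance finL_tri {ι : Type*} (X : ι → C) : (finL k X).IsTriangulated := by
  refine { exists_zero := ?_, isStableUnderShiftBy := ?_, ext₂' := ?_ }
  · exact ⟨_, isZero_zero C, fun i => D4_zero k (Or.inl (isZero_zero C))⟩
  · intro a
    exact ⟨fun Y hY i => D4_shL k a (hY i)⟩
  · intro T hT h₁ h₃
    refine ObjectProperty.le_isoClosure _ _ fun i => ?_
    refine D4_exact k (h₃ i) (h₁ i)
      (fun n => Linear.leftComp k ((X i)⟦n⟧) T.mor₂)
      (fun n => Linear.leftComp k ((X i)⟦n⟧) T.mor₁) ?_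
    intro n x hx
    obtain ⟨y, hy⟩ := Triangle.yoneda_exact₂ _ hT x hx
    exact ⟨y, hy.symm⟩

omit [HasZeroObject C] [∀ n : ℤ, (shiftFunctor C n).Additive] [Pretriangulated C] in
instance orthR_iso {ι : Type*} (Y : ι → C) : (orthR Y).IsClosedUnderIsomorphisms :=
  ⟨fun {X X'} e hX i n f => by
    have h1 : f ≫ (shiftFunctor C n).map e.inv = 0 := hX i n _
    exact (cancel_mono ((shiftFunctor C n).map e.inv)).1 (h1.trans zero_comp.symm)⟩

instance orthR_tri {ι : Type*} (Y : ι → C) : (orthR Y).IsTriangulated := by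
  refine { exists_zero := ?_, isStableUnderShiftBy := ?_, ext₂' := ?_ }
  · exact ⟨_, isZero_zero C, fun i n f =>
      ((shiftFunctor C n).map_isZero (isZero_zero C)).eq_of_tgt f 0⟩
  · intro a
    refine ⟨fun X hX i n f => ?_⟩
    have h1 : f ≫ (shiftFunctorAdd C a n).inv.app X = 0 := hX i (a + n) _
    exact (cancel_mono ((shiftFunctorAdd C a n).inv.app X)).1 (h1.trans zero_comp.symm)
  · intro T hT h₁ h₃
    refine ObjectProperty.le_isoClosure _ _ fun i n f => ?_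
    obtain ⟨g, hg⟩ := Triangle.coyoneda_exact₂ _ (Triangle.shift_distinguished T hT n) f
      (h₃ i n _)
    have h1 : g = 0 := h₁ i n g
    rw [h1, zero_comp] at hg
    exact hg

omit [HasZeroObject C] [∀ n : ℤ, (shiftFunctor C n).Additive] [Pretriangulated C] in
instance orthL_iso {ι : Type*} (X : ι → C) : (orthL X).IsClosedUnderIsomorphisms :=
  ⟨fun {Y Y'} e hY i n f => by
    have h1 : e.hom ≫ f = 0 := hY i n _
    exact (cancel_epi e.hom).1 (h1.trans comp_zero.symm)⟩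

instance orthL_tri {ι : Type*} (X : ι → C) : (orthL X).IsTriangulated := by
  refine { exists_zero := ?_, isStableUnderShiftBy := ?_, ext₂' := ?_ }
  · exact ⟨_, isZero_zero C, fun i n f => (isZero_zero C).eq_of_src f 0⟩
  · intro a
    refine ⟨fun Y hY i n f => ?_⟩
    apply (shiftFunctor C (-a)).map_injective
    rw [(shiftFunctor C (-a)).map_zero]
    have h1 : ((shiftFunctorCompIsoId C a (-a) (by simp)).inv.app Y ≫
        (shiftFunctor C (-a)).map f) ≫ (shiftFunctorAdd C n (-a)).inv.app (X i) = 0 :=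
      hY i (n + -a) _
    have h2 := (cancel_mono ((shiftFunctorAdd C n (-a)).inv.app (X i))).1
      (h1.trans zero_comp.symm)
    exact (cancel_epi ((shiftFunctorCompIsoId C a (-a) (by simp)).inv.app Y)).1
      (h2.trans comp_zero.symm)
  · intro T hT h₁ h₃
    refine ObjectProperty.le_isoClosure _ _ fun i n f => ?_
    obtain ⟨g, hg⟩ := Triangle.yoneda_exact₂ _ hT f (h₁ i n _)
    have h1 : g = 0 := h₃ i n g
    rw [h1, comp_zero] at hg
    exact hg

end MPbd3808.BR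
end
end

section

/-!
# TASK D5: finiteness of the Homs between the generating objects

`finQQ`: `Hom(Q i, (Q j)[n])` is zero for `n ≠ 0` (`strong`), finite for `n = 0` (`dbHom_zero_finite`). `finOQ`: apply `h.build` to the property
`fun X => finL k (fun j => dbSingle (Q j)) (dbSingle X)` (`closed23_of_triangulated`). `finOO`: apply `h.build` to `fun X => finR k (fun c => dbSingle (O c)) (dbSingle X)`.
-/

set_option autoImplicit false

noncomputable section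

open CategoryTheory CategoryTheory.Limits CategoryTheory.Pretriangulated CategoryTheory.Abelian

namespace MPbd3808.BR

universe w' w v' v u

variable {A : Type u} [Category.{v} A] [Abelian A] [HasExt.{w'} A] [HasDerivedCategory.{w} A]
  {k : Type v'} [Field k] [Linear k A] {N : ℕ} {Q : Fin N → A} {ι : Type} {O : ι → A}

/-- PROOF. `n < 0`: `dbHom_neg`; `n > 0`: `dbHom_of_ext`, `h.ext_eq_zero`. -/
theorem AbGen.strong (h : AbGen k Q O) (i j : Fin N) (n : ℤ) (hn : n ≠ 0)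
    (f : (dbSingle A).obj (Q i) ⟶ ((dbSingle A).obj (Q j))⟦n⟧) : f = 0 := by
  rcases lt_or_gt_of_ne hn with h1 | h1
  · exact dbHom_neg _ _ n h1 f
  · obtain ⟨m, rfl⟩ := Int.eq_ofNat_of_zero_le h1.le
    exact dbHom_of_ext _ _ m (h.ext_eq_zero i j m (by omega)) f

theorem AbGen.finQQ (h : AbGen k Q O) (i j : Fin N) :
    BO.ExtFin k ((dbSingle A).obj (Q i)) ((dbSingle A).obj (Q j)) := by
  have h0 : ∀ n : ℤ, n ≠ 0 →
      Subsingleton ((dbSingle A).obj (Q i) ⟶ ((dbSingle A).obj (Q j))⟦n⟧) := fun n hn =>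
    ⟨fun a b => by rw [h.strong i j n hn a, h.strong i j n hn b]⟩
  refine ⟨fun n => ?_, ?_⟩
  · by_cases hn : n = 0
    · subst hn
      exact dbHom_zero_finite k _ _ (h.fin i j)
    · have := h0 n hn
      infer_instance
  · refine (Set.finite_singleton (0 : ℤ)).subset fun n hn => ?_
    by_contra h1
    have h2 := h0 n h1
    have h3 : Nontrivial ((dbSingle A).obj (Q i) ⟶ ((dbSingle A).obj (Q j))⟦n⟧) := hn
    exact not_subsingleton _ h2

theorem AbGen.finOQ (h : AbGen k Q O) (c : ι) (j : Fin N) :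
    BO.ExtFin k ((dbSingle A).obj (O c)) ((dbSingle A).obj (Q j)) :=
  h.build (fun X => finL k (fun j : Fin N => (dbSingle A).obj (Q j)) ((dbSingle A).obj X))
    (closed23_of_triangulated _) (fun i j => h.finQQ i j) c j

theorem AbGen.finOO (h : AbGen k Q O) (c c' : ι) :
    BO.ExtFin k ((dbSingle A).obj (O c)) ((dbSingle A).obj (O c')) :=
  h.build (fun X => finR k (fun c : ι => (dbSingle A).obj (O c)) ((dbSingle A).obj X))
    (closed23_of_triangulated _) (fun j c => h.finOQ c j) c' c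

end MPbd3808.BR
end
end

section

/-!
# TASK D6: finiteness of the Homs from `O c` and from `Q i` to all objects

`finOX`: `Hom(O c, X[n])` is zero for `n < 0` (`dbHom_neg`) and for `n > B` (`h.bound`, `dbHom_of_ext`). FINITE for all `n : ℤ` and all `X : A`, by descending induction
on `n` (write `n = B + 1 - m`, `m : ℕ`, or `n > B`): by `h.gen` there is an epi `p : ⨁ O (c' i) ⟶ X`; `K = kernel p` gives a short exact sequence, so
(`dbTriangle`, `Triangle.coyoneda_exact₂/₃` for the shifted triangle) `Hom(O c, (⨁ O (c' i))[n]) ⟶ Hom(O c, X[n]) ⟶ Hom(O c, K[n+1])` is exact; the left one is finite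
(`finOO`, and `finR k _` is closed under finite biproducts: induction on the number of terms, or `Closed23` and `ShortComplex.Splitting`, or
`HasBiproduct`-additivity of `Hom`), the right one by induction. The middle term of an exact sequence of `k`-linear maps between finite-dimensional outer terms is
finite-dimensional (see `FinAll_exact` in `BO/FinAll.lean`).
`finOZ`: `devissage` for `finR k (fun c => dbSingle (O c))`. `finQZ`: `h.build'` for `fun X => finL k (id : Db A → Db A) (dbSingle X)` (`closed23_of_triangulated`).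
-/

set_option autoImplicit false

noncomputable section

open CategoryTheory CategoryTheory.Limits CategoryTheory.Pretriangulated CategoryTheory.Abelian

namespace MPbd3808.BR

universe w' w v' v u

attribute [local instance] CategoryTheory.Abelian.hasFiniteBiproducts

variable {A : Type u} [Category.{v} A] [Abelian A] [HasExt.{w'} A] [HasDerivedCategory.{w} A]
  {k : Type v'} [Field k] [Linear k A] {N : ℕ} {Q : Fin N → A} {ι : Type} {O : ι → A}

private theorem D6_exact {V₁ V₂ V₃ : Type*} [AddCommGroup V₁] [Module k V₁] [AddCommGroup V₂]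
    [Module k V₂] [AddCommGroup V₃] [Module k V₃] (h₁ : Module.Finite k V₁)
    (h₃ : Module.Finite k V₃) (F : V₁ →ₗ[k] V₂) (G : V₂ →ₗ[k] V₃)
    (hFG : ∀ x, G x = 0 → ∃ y, F y = x) : Module.Finite k V₂ := by
  have hle : LinearMap.ker G ≤ LinearMap.range F := by
    intro x hx
    obtain ⟨y, hy⟩ := hFG x (LinearMap.mem_ker.mp hx)
    exact ⟨y, hy⟩
  have h5 : Module.Finite k (LinearMap.ker G) := Submodule.finiteDimensional_of_le hle
  have h6 : Module.Finite k (V₂ ⧸ LinearMap.ker G) :=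
    Module.Finite.equiv (LinearMap.quotKerEquivRange G).symm
  exact Module.Finite.of_submodule_quotient (LinearMap.ker G)

private theorem D6_biprod {N' : ℕ} (Y : Db A) (Z : Fin N' → A) (n : ℤ)
    (h : ∀ i, Module.Finite k (Y ⟶ ((dbSingle A).obj (Z i))⟦n⟧)) :
    Module.Finite k (Y ⟶ ((dbSingle A).obj (⨁ Z))⟦n⟧) := by
  let F : (Y ⟶ ((dbSingle A).obj (⨁ Z))⟦n⟧) →ₗ[k] (∀ i, Y ⟶ ((dbSingle A).obj (Z i))⟦n⟧) :=
    LinearMap.pi fun i => Linear.rightComp k Y
      ((shiftFunctor (Db A) n).map ((dbSingle A).map (biproduct.π Z i)))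
  refine Module.Finite.of_injective F ?_
  intro f g hfg
  have h1 : ∀ i, f ≫ (shiftFunctor (Db A) n).map ((dbSingle A).map (biproduct.π Z i)) =
      g ≫ (shiftFunctor (Db A) n).map ((dbSingle A).map (biproduct.π Z i)) :=
    fun i => congrFun hfg i
  have h2 : ∀ e : Y ⟶ ((dbSingle A).obj (⨁ Z))⟦n⟧, e = ∑ i,
      (e ≫ (shiftFunctor (Db A) n).map ((dbSingle A).map (biproduct.π Z i))) ≫
        (shiftFunctor (Db A) n).map ((dbSingle A).map (biproduct.ι Z i)) := by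
    intro e
    have h3 : ∑ i, (shiftFunctor (Db A) n).map ((dbSingle A).map
        (biproduct.π Z i ≫ biproduct.ι Z i)) = 𝟙 _ := by
      rw [← Functor.map_sum, ← Functor.map_sum, biproduct.total, CategoryTheory.Functor.map_id,
        CategoryTheory.Functor.map_id]
    calc e = e ≫ 𝟙 _ := (Category.comp_id e).symm
      _ = _ := by
        rw [← h3, Preadditive.comp_sum]
        refine Finset.sum_congr rfl fun i _ => ?_
        rw [Functor.map_comp, Functor.map_comp, Category.assoc]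
  rw [h2 f, h2 g]
  exact Finset.sum_congr rfl fun i _ => by rw [h1 i]

theorem AbGen.finOX (h : AbGen k Q O) (c : ι) (X : A) :
    BO.ExtFin k ((dbSingle A).obj (O c)) ((dbSingle A).obj X) := by
  obtain ⟨B, hB⟩ := h.bound c
  have hzero : ∀ (n : ℤ), (n < 0 ∨ (B : ℤ) < n) → ∀ X : A,
      Subsingleton ((dbSingle A).obj (O c) ⟶ ((dbSingle A).obj X)⟦n⟧) := by
    intro n hn X
    have h0 : ∀ f : (dbSingle A).obj (O c) ⟶ ((dbSingle A).obj X)⟦n⟧, f = 0 := by
      rcases hn with hn | hn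
      · exact fun f => dbHom_neg _ _ n hn f
      · obtain ⟨m, rfl⟩ := Int.eq_ofNat_of_zero_le (show (0 : ℤ) ≤ n by omega)
        exact fun f => dbHom_of_ext _ _ m (hB m (by omega) X) f
    exact ⟨fun a b => by rw [h0 a, h0 b]⟩
  have key : ∀ (m : ℕ) (n : ℤ), (B : ℤ) + 1 - m ≤ n → ∀ X : A,
      Module.Finite k ((dbSingle A).obj (O c) ⟶ ((dbSingle A).obj X)⟦n⟧) := by
    intro m
    induction m with
    | zero =>
      intro n hn X
      have := hzero n (Or.inr (by push_cast at hn; omega)) X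
      infer_instance
    | succ m ih =>
      intro n hn X
      obtain ⟨N', c', p, hp⟩ := h.gen X
      have hS : (ShortComplex.mk (kernel.ι p) p (kernel.condition p)).ShortExact :=
        { exact := ShortComplex.exact_kernel p }
      obtain ⟨d, hT⟩ := dbTriangle _ hS
      have hT' := Triangle.shift_distinguished _ hT n
      have h1 : Module.Finite k ((dbSingle A).obj (O c) ⟶
          ((dbSingle A).obj (⨁ fun i => O (c' i)))⟦n⟧) :=
        D6_biprod _ _ n fun i => (h.finOO c (c' i)).1 n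
      have h3 : Module.Finite k ((dbSingle A).obj (O c) ⟶
          (((dbSingle A).obj (kernel p))⟦n⟧)⟦(1 : ℤ)⟧) := by
        have h4 := ih (n + 1) (by push_cast at hn; omega) (kernel p)
        refine Module.Finite.of_injective (Linear.rightComp k ((dbSingle A).obj (O c))
          ((shiftFunctorAdd (Db A) n 1).inv.app ((dbSingle A).obj (kernel p)))) ?_
        intro f g hfg
        have h5 : f ≫ (shiftFunctorAdd (Db A) n 1).inv.app ((dbSingle A).obj (kernel p)) =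
          g ≫ (shiftFunctorAdd (Db A) n 1).inv.app ((dbSingle A).obj (kernel p)) := hfg
        exact (cancel_mono _).1 h5
      refine D6_exact h1 h3
        (Linear.rightComp k _ ((Triangle.shiftFunctor (Db A) n).obj
          (Triangle.mk ((dbSingle A).map (kernel.ι p)) ((dbSingle A).map p) d)).mor₂)
        (Linear.rightComp k _ ((Triangle.shiftFunctor (Db A) n).obj
          (Triangle.mk ((dbSingle A).map (kernel.ι p)) ((dbSingle A).map p) d)).mor₃) ?_
      intro x hx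
      obtain ⟨y, hy⟩ := Triangle.coyoneda_exact₃ _ hT' x hx
      exact ⟨y, hy.symm⟩
  refine ⟨fun n => key ((B : ℤ) + 1 - n).toNat n (by omega) X, ?_⟩
  refine (Set.finite_Icc (0 : ℤ) B).subset fun n hn => ?_
  by_contra h1
  rw [Set.mem_Icc, not_and_or] at h1
  have h2 := hzero n (by omega) X
  have h3 : Nontrivial ((dbSingle A).obj (O c) ⟶ ((dbSingle A).obj X)⟦n⟧) := hn
  exact not_subsingleton _ h2

theorem AbGen.finOZ (h : AbGen k Q O) (c : ι) (Z : Db A) :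
    BO.ExtFin k ((dbSingle A).obj (O c)) Z :=
  devissage (finR k (fun c : ι => (dbSingle A).obj (O c))) (fun X c => h.finOX c X) Z c

theorem AbGen.finQZ (h : AbGen k Q O) (i : Fin N) (Z : Db A) :
    BO.ExtFin k ((dbSingle A).obj (Q i)) Z :=
  h.build' (fun X => finL k (fun Z : Db A => Z) ((dbSingle A).obj X))
    (closed23_of_triangulated _) (fun c Z => h.finOZ c Z) i Z

end MPbd3808.BR
end
end
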