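import Pool.Agent.Lib.MP_bd3808_ag.Mg.G003
import Pool.Agent.Lib.MP_bd3808_ag.Mg.G005
import Pool.Agent.Lib.MP_bd3808_ag.Mg.G001
import Pool.Agent.Lib.MP_bd3808_ag.Mg.G007
import Pool.Agent.Lib.MP_bd3808_ag.Mg.G006

section

set_option autoImplicit false

noncomputable section

open CategoryTheory CategoryTheory.Limits CategoryTheory.Pretriangulated

namespace BO

universe w v u

variable (k : Type w) [Field k] {C : Type u} [Category.{v} C] [Preadditive C] [Linear k C]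
  [HasZeroObject C] [HasShift C ℤ] [∀ n : ℤ, (shiftFunctor C n).Additive]
  [∀ n : ℤ, Functor.Linear k (shiftFunctor C n)] [Pretriangulated C]
  {σ : C ⥤ C} [σ.CommShift ℤ] [σ.Additive] [σ.Linear k] [σ.Full] [σ.Faithful]

theorem PG_step [σ.IsTriangulated] (hfin : ∀ A B : C, ExtFin k A B) {N : ℕ} (Γ : Subgroup kˣ)
    (s t : ExcSystem k C N) (h : Step k s t) : PG k σ Γ s ↔ PG k σ Γ t := by
  cases h with
  | shift n h => exact PG_shift k Γ s t n h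
  | mutate i j hij h1 h2 h3 =>
    exact ⟨PG_mutate k hfin Γ s t i j hij h1 h2 h3, PG_mutate_symm k hfin Γ s t i j hij h1 h2 h3⟩

theorem PG_of_orbit [σ.IsTriangulated] (hfin : ∀ A B : C, ExtFin k A B) {N : ℕ} (Γ : Subgroup kˣ)
    (s t : ExcSystem k C N)
    (h : (Quot.mk _ s : Orbits k C N) = Quot.mk _ t) : PG k σ Γ s → PG k σ Γ t := by
  have key : ∀ a b : ExcSystem k C N, Relation.EqvGen (Step k) a b → (PG k σ Γ a ↔ PG k σ Γ b) := by
    intro a b hab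
    induction hab with
    | rel a b h => exact PG_step k hfin Γ a b h
    | refl a => exact Iff.rfl
    | symm a b _ ih => exact ih.symm
    | trans a b c _ _ ih1 ih2 => exact ih1.trans ih2
  exact (key s t (Quot.eqvGen_exact h)).1

end BO
end
end

section

/-!
# TASK SqC
-/

set_option autoImplicit false

noncomputable section

open CategoryTheory CategoryTheory.Limits CategoryTheory.Pretriangulated

namespace BO

universe w v u

variable {k : Type w} [Field k] {C : Type u} [Category.{v} C] [Preadditive C] [Linear k C]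
  [HasZeroObject C] [HasShift C ℤ] [∀ n : ℤ, (shiftFunctor C n).Additive]
  [∀ n : ℤ, Functor.Linear k (shiftFunctor C n)] [Pretriangulated C]
  {σ : C ⥤ C} [σ.CommShift ℤ] [σ.Additive] [σ.Linear k] [σ.Full] [σ.Faithful]

private theorem SqC_f_ne {S : C} {sg : S ⟶ S⟦(3 : ℤ)⟧} (hS : Spherical k S sg) (X : TObj k sg) :
    X.f ≠ 0 := by
  intro h
  apply hS.ne_zero
  rw [← X.h.fg, h, zero_comp]

private theorem SqC_chi_single {S X : EqObj σ} (f : S.X ⟶ X.X) (hf : f ≠ 0)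
    (h0 : ∀ h : S.X ⟶ X.X, ∃ c : k, h = c • f)
    (h1 : ∀ n : ℤ, n ≠ 0 → ∀ h : S.X ⟶ X.X⟦n⟧, h = 0) (e : kˣ)
    (he : S.φ.hom ≫ σ.map f ≫ X.φ.inv = (e : k) • f) :
    chi k σ S X = (1, Additive.ofMul e) := by
  unfold chi
  rw [finsum_eq_single _ 0]
  · rw [Int.negOnePow_zero, one_smul]
    set v : S.X ⟶ X.X⟦(0 : ℤ)⟧ := f ≫ (shiftFunctorZero C ℤ).inv.app X.X with hv
    have hv0 : v ≠ 0 := by
      intro h
      apply hf
      have : v ≫ (shiftFunctorZero C ℤ).hom.app X.X = f := by simp [hv]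
      rw [← this, h, zero_comp]
    have hgen : ∀ w : S.X ⟶ X.X⟦(0 : ℤ)⟧, ∃ c : k, c • v = w := by
      intro w
      obtain ⟨c, hc⟩ := h0 (w ≫ (shiftFunctorZero C ℤ).hom.app X.X)
      refine ⟨c, ?_⟩
      rw [hv, ← Linear.smul_comp, ← hc]
      simp
    have hact : act k σ S X 0 v = (e : k) • v := by
      change S.φ.hom ≫ σ.map v ≫ (σ.commShiftIso (0 : ℤ)).hom.app X.X ≫ X.φ.inv⟦(0 : ℤ)⟧' = _
      rw [hv, Functor.commShiftIso_zero, ← Linear.smul_comp, ← he]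
      have hnat := (shiftFunctorZero C ℤ).inv.naturality X.φ.inv
      simp only [Functor.id_map] at hnat
      simp [Functor.CommShift.isoZero_hom_app, ← Functor.map_comp_assoc, hnat]
    have hfr : Module.finrank k (S.X ⟶ X.X⟦(0 : ℤ)⟧) = 1 := finrank_eq_one v hv0 hgen
    have hlin : (act k σ S X 0 : (S.X ⟶ X.X⟦(0 : ℤ)⟧) →ₗ[k] _) = (e : k) • LinearMap.id := by
      apply LinearMap.ext
      intro w
      obtain ⟨c, rfl⟩ := hgen w
      rw [map_smul]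
      simp only [LinearEquiv.coe_coe, hact, LinearMap.smul_apply, LinearMap.id_coe, id_eq]
      rw [smul_comm]
    unfold kcls
    rw [hfr]
    refine Prod.ext (by simp) ?_
    apply congrArg Additive.ofMul
    apply Units.ext
    rw [LinearEquiv.coe_det, hlin, LinearMap.det_smul, LinearMap.det_id, hfr]
    simp
  · intro n hn
    haveI : Subsingleton (S.X ⟶ X.X⟦n⟧) := ⟨fun a b => by rw [h1 n hn a, h1 n hn b]⟩
    rw [kcls_of_subsingleton, smul_zero]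

private theorem SqC_exists_unit {S X : EqObj σ} (f : S.X ⟶ X.X) (hf : f ≠ 0)
    (h0 : ∀ h : S.X ⟶ X.X, ∃ c : k, h = c • f) :
    ∃ e : kˣ, S.φ.hom ≫ σ.map f ≫ X.φ.inv = (e : k) • f := by
  obtain ⟨c, hc⟩ := h0 (S.φ.hom ≫ σ.map f ≫ X.φ.inv)
  have hc0 : c ≠ 0 := by
    intro h
    rw [h, zero_smul] at hc
    apply hf
    apply σ.map_injective
    rw [Functor.map_zero]
    have h2 : S.φ.inv ≫ (S.φ.hom ≫ σ.map f ≫ X.φ.inv) ≫ X.φ.hom = σ.map f := by simp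
    rw [← h2, hc, zero_comp, comp_zero]
  exact ⟨Units.mk0 c hc0, hc⟩

private theorem SqC_chi_TObj {S : EqObj σ} {sg : S.X ⟶ S.X⟦(3 : ℤ)⟧} (hS : Spherical k S.X sg)
    (X : TObj k sg) (φ : X.X ≅ σ.obj X.X) :
    ∃ e : kˣ, S.φ.hom ≫ σ.map X.f ≫ φ.inv = (e : k) • X.f ∧
      chi k σ S ⟨_, φ⟩ = (1, Additive.ofMul e) := by
  obtain ⟨e, he⟩ := SqC_exists_unit (S := S) (X := ⟨X.X, φ⟩) X.f (SqC_f_ne hS X) X.h.hom_eq
  exact ⟨e, he, SqC_chi_single (S := S) (X := ⟨X.X, φ⟩) X.f (SqC_f_ne hS X) X.h.hom_eq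
    X.h.hom_zero e he⟩

private theorem SqC_even (x : KG k) : (-2 : ℤ).negOnePow • x = x := by
  have : (-2 : ℤ).negOnePow = 1 := by
    rw [Int.negOnePow_even _ ⟨-1, by norm_num⟩]
  rw [this, one_smul]

/-- Effect of a twist on the Euler form.

PROOF. `act k σ S X 0` is a linear automorphism of `Hom(S,X[0]) = k • f`, so `S.φ.hom ≫ σ.map f ≫ φ.inv = e • f` with `e : kˣ`, and
`chi S X = (1, e)` (the other Homs vanish). So `f` is equivariant for `S.scale e⁻¹` and `⟨_, φ⟩`: `exists_structure₃` gives a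
structure on `X'[-2]`, `chi Z X'[-2] = chi Z X - chi Z (S.scale e⁻¹) = chi Z X - (chi Z S + (0, (chi Z S).1 • e))` (`chi_scale_right`)
`= chi Z X - kmul (chi Z S) (chi S X)`. Take `φ'` with `⟨X', φ'⟩.shift (-2) ≅` this object (`chi_shift_right`, even shift); the left
version is the same with `chi_scale_left`. `EqObj` structures on `X'[-2]` come from `X'`: apply the shift by `2`. -/
theorem chi_twist [σ.IsTriangulated] (hfin : ∀ A B : C, ExtFin k A B) {S : EqObj σ}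
    {sg : S.X ⟶ S.X⟦(3 : ℤ)⟧} (hS : Spherical k S.X sg) (X : TObj k sg)
    (φ : X.X ≅ σ.obj X.X) :
    ∃ φ' : (X.tw hS).X ≅ σ.obj (X.tw hS).X,
      (∀ Z : EqObj σ, chi k σ Z ⟨_, φ'⟩ = chi k σ Z ⟨_, φ⟩ - kmul (chi k σ Z S) (chi k σ S ⟨_, φ⟩)) ∧
      (∀ Z : EqObj σ, chi k σ ⟨_, φ'⟩ Z =
        chi k σ ⟨_, φ⟩ Z - kmul (kbar (chi k σ S ⟨_, φ⟩)) (chi k σ S Z)) := by
  obtain ⟨e, he, hchi⟩ := SqC_chi_TObj hS X φ
  obtain ⟨p, hp⟩ := X.tw_spec hS
  have comm : X.f ≫ (⟨X.X, φ⟩ : EqObj σ).φ.hom = (S.scale e⁻¹).φ.hom ≫ σ.map X.f := by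
    have h1 : S.φ.hom ≫ σ.map X.f = (e : k) • (X.f ≫ φ.hom) := by
      rw [← Linear.smul_comp, ← he]
      simp
    change X.f ≫ φ.hom = (((e⁻¹ : kˣ) : k) • S.φ.hom) ≫ σ.map X.f
    rw [Linear.smul_comp, h1, smul_smul]
    simp
  obtain ⟨ψ, hψ⟩ := exists_structure₃ (S.scale e⁻¹) ⟨X.X, φ⟩ _ X.f p _ hp.dist comm
  refine ⟨(shiftFunctor C (-2 : ℤ)).preimageIso (ψ ≪≫ (σ.commShiftIso (-2 : ℤ)).app _), ?_⟩
  have hsh : (⟨(X.tw hS).X, (shiftFunctor C (-2 : ℤ)).preimageIso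
      (ψ ≪≫ (σ.commShiftIso (-2 : ℤ)).app _)⟩ : EqObj σ).shift (-2) =
      ⟨(X.tw hS).X⟦(-2 : ℤ)⟧, ψ⟩ := by
    unfold EqObj.shift
    congr 1
    apply Iso.ext
    simp
  constructor
  · intro Z
    have h1 := chi_shift_right k Z (⟨(X.tw hS).X, (shiftFunctor C (-2 : ℤ)).preimageIso
      (ψ ≪≫ (σ.commShiftIso (-2 : ℤ)).app _)⟩ : EqObj σ) (-2)
    rw [SqC_even] at h1
    rw [← h1, hsh]
    have h2 := chi_add_right k hψ Z hfin
    have h3 := chi_scale_right k Z S e⁻¹ (hfin _ _)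
    rw [eq_sub_iff_add_eq, h2, h3, hchi]
    apply Prod.ext
    · simp [kmul]
      ring
    · simp [kmul]
      abel
  · intro Z
    have h1 := chi_shift_left k (⟨(X.tw hS).X, (shiftFunctor C (-2 : ℤ)).preimageIso
      (ψ ≪≫ (σ.commShiftIso (-2 : ℤ)).app _)⟩ : EqObj σ) Z (-2)
    rw [SqC_even] at h1
    rw [← h1, hsh]
    have h2 := chi_add_left k hψ Z hfin
    have h3 := chi_scale_left k S Z e⁻¹ (hfin _ _)
    rw [eq_sub_iff_add_eq, h2, h3, hchi]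
    apply Prod.ext
    · simp [kmul, kbar]
      ring
    · simp [kmul, kbar]
      abel

/-- The Euler numbers of `S`: `1 + (-1)^3 = 0` (`Hom(S,S[n])` is one-dimensional for `n = 0, 3`, zero otherwise). -/
theorem chi_S_S {S : EqObj σ} {sg : S.X ⟶ S.X⟦(3 : ℤ)⟧} (hS : Spherical k S.X sg) :
    (chi k σ S S).1 = 0 := by
  have hid : (𝟙 S.X : S.X ⟶ S.X) ≠ 0 := by
    intro h
    apply hS.ne_zero
    rw [← Category.id_comp sg, h, zero_comp]
  have h0 : Module.finrank k (S.X ⟶ S.X⟦(0 : ℤ)⟧) = 1 := by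
    refine finrank_eq_one ((shiftFunctorZero C ℤ).inv.app S.X) ?_ ?_
    · intro h
      apply hid
      have h2 : (shiftFunctorZero C ℤ).inv.app S.X ≫ (shiftFunctorZero C ℤ).hom.app S.X = 𝟙 S.X := by
        simp
      rw [← h2, h, zero_comp]
    · intro w
      obtain ⟨c, hc⟩ := hS.end_eq (w ≫ (shiftFunctorZero C ℤ).hom.app S.X)
      refine ⟨c, ?_⟩
      have h2 : w = (w ≫ (shiftFunctorZero C ℤ).hom.app S.X) ≫ (shiftFunctorZero C ℤ).inv.app S.X := by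
        simp
      rw [h2, hc, Linear.smul_comp, Category.id_comp]
  have h3 : Module.finrank k (S.X ⟶ S.X⟦(3 : ℤ)⟧) = 1 := by
    refine finrank_eq_one sg hS.ne_zero ?_
    intro w
    obtain ⟨c, hc⟩ := hS.top_eq w
    exact ⟨c, hc.symm⟩
  have hz : ∀ n : ℤ, n ≠ 0 → n ≠ 3 → kcls (act k σ S S n) = 0 := by
    intro n hn hn3
    haveI : Subsingleton (S.X ⟶ S.X⟦n⟧) :=
      ⟨fun a b => by rw [hS.zero n hn hn3 a, hS.zero n hn hn3 b]⟩
    exact kcls_of_subsingleton _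
  unfold chi
  rw [finsum_eq_sum_of_support_subset (s := {0, 3})]
  · rw [Finset.sum_insert (by norm_num), Finset.sum_singleton]
    simp only [kcls, Prod.fst_add, Prod.smul_fst]
    rw [h0, h3, Int.negOnePow_zero, Int.negOnePow_odd _ ⟨1, by norm_num⟩]
    simp
  · intro n hn
    rw [Function.mem_support] at hn
    by_contra hcon
    simp only [Finset.coe_insert, Finset.coe_singleton, Set.mem_insert_iff,
      Set.mem_singleton_iff, not_or] at hcon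
    exact hn (by rw [hz n hcon.1 hcon.2, smul_zero])

theorem chi_S_X {S : EqObj σ} {sg : S.X ⟶ S.X⟦(3 : ℤ)⟧} (hS : Spherical k S.X sg)
    (X : TObj k sg) (φ : X.X ≅ σ.obj X.X) : (chi k σ S ⟨_, φ⟩).1 = 1 := by
  obtain ⟨e, -, h⟩ := SqC_chi_TObj hS X φ
  rw [h]

end BO
end
end

section

/-!
# TASK SqN
-/

set_option autoImplicit false

noncomputable section

open CategoryTheory CategoryTheory.Limits CategoryTheory.Pretriangulated

namespace BO

universe w v u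

variable {k : Type w} [Field k] {C : Type u} [Category.{v} C] [Preadditive C] [Linear k C]
  [HasZeroObject C] [HasShift C ℤ] [∀ n : ℤ, (shiftFunctor C n).Additive]
  [∀ n : ℤ, Functor.Linear k (shiftFunctor C n)] [Pretriangulated C]
  {σ : C ⥤ C} [σ.CommShift ℤ] [σ.Additive] [σ.Linear k] [σ.Full] [σ.Faithful]

private theorem SqN_aux [σ.IsTriangulated] (hfin : ∀ A B : C, ExtFin k A B) {S : EqObj σ}
    {sg : S.X ⟶ S.X⟦(3 : ℤ)⟧} (hS : Spherical k S.X sg) (X : TObj k sg)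
    (φ : X.X ≅ σ.obj X.X) (n : ℕ) :
    ∃ φ' : ((TObj.tw hS)^[n] X).X ≅ σ.obj ((TObj.tw hS)^[n] X).X,
      (chi k σ S ⟨_, φ'⟩ = (1, (chi k σ S ⟨_, φ⟩).2 - (n : ℤ) • (chi k σ S S).2)) ∧
      (∀ Z : EqObj σ, chi k σ Z ⟨_, φ'⟩ = chi k σ Z ⟨_, φ⟩ -
        ∑ j ∈ Finset.range n, kmul (chi k σ Z S)
          (1, (chi k σ S ⟨_, φ⟩).2 - (j : ℤ) • (chi k σ S S).2)) ∧
      (∀ Z : EqObj σ, chi k σ ⟨_, φ'⟩ Z = chi k σ ⟨_, φ⟩ Z -
        ∑ j ∈ Finset.range n, kmul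
          (kbar (1, (chi k σ S ⟨_, φ⟩).2 - (j : ℤ) • (chi k σ S S).2)) (chi k σ S Z)) := by
  induction n with
  | zero =>
    refine ⟨φ, ?_, ?_, ?_⟩
    · apply Prod.ext
      · exact chi_S_X hS X φ
      · simp
    · intro Z; simp
    · intro Z; simp
  | succ n ih =>
    obtain ⟨φ₁, h1, h2, h3⟩ := ih
    obtain ⟨φ₂, h4, h5⟩ := chi_twist hfin hS ((TObj.tw hS)^[n] X) φ₁
    rw [Function.iterate_succ_apply']
    refine ⟨φ₂, ?_, ?_, ?_⟩
    · rw [h4 S, h1]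
      have hSS := chi_S_S (k := k) (σ := σ) hS
      apply Prod.ext
      · simp [kmul, hSS]
      · simp only [kmul, hSS, Prod.snd_sub]
        push_cast
        module
    · intro Z
      rw [h4 Z, h1, h2 Z, Finset.sum_range_succ]
      abel
    · intro Z
      rw [h5 Z, h1, h3 Z, Finset.sum_range_succ]
      abel

private theorem SqN_sum {G : Type*} [AddCommGroup G] (m : ℕ) (a : ℤ) (x e s : G) :
    ∑ j ∈ Finset.range (2 * m), (a • (e - (j : ℤ) • s) + x) =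
      (m : ℤ) • ((2 : ℤ) • x + a • ((2 : ℤ) • e - (2 * (m : ℤ) - 1) • s)) := by
  induction m with
  | zero => simp
  | succ m ih =>
    rw [show 2 * (m + 1) = 2 * m + 1 + 1 by ring, Finset.sum_range_succ, Finset.sum_range_succ, ih]
    push_cast
    module

private theorem SqN_sum' {G : Type*} [AddCommGroup G] (m : ℕ) (a : ℤ) (x e s : G) :
    ∑ j ∈ Finset.range (2 * m), (x + a • -(e - (j : ℤ) • s)) =
      (m : ℤ) • ((2 : ℤ) • x - a • ((2 : ℤ) • e - (2 * (m : ℤ) - 1) • s)) := by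
  induction m with
  | zero => simp
  | succ m ih =>
    rw [show 2 * (m + 1) = 2 * m + 1 + 1 by ring, Finset.sum_range_succ, Finset.sum_range_succ, ih]
    push_cast
    module

/-- Effect of `2m` twists on the Euler form: `chi Z X_{2m} = chi Z X - (2ma, 2mx + am(2e - (2m-1)s))`
and the mirror formula; `chi Z S = (a,x)`, `chi S X = (1,e)`, `chi S S = (0,s)`.

PROOF. `chi_twist` repeatedly: `chi S X_{j+1} = chi S X_j - kmul (chi S S) (chi S X_j)`, so `chi S X_j = (1, e - j s)` (`chi_S_S`,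
`chi_S_X`); `chi Z X_{j+1} = chi Z X_j - (a, a • (e - j s) + x)`; sum over `j < 2m`. Mirror:
`chi X_{j+1} Z = chi X_j Z - (a', x' - a' • (e - j s))` with `chi S Z = (a',x')`. (Prove a version for all `n` instead of `2m` with
`∑ j < n`, by induction on `n`, `Function.iterate_succ_apply'`.) -/
theorem chi_iterate [σ.IsTriangulated] (hfin : ∀ A B : C, ExtFin k A B) {S : EqObj σ}
    {sg : S.X ⟶ S.X⟦(3 : ℤ)⟧} (hS : Spherical k S.X sg) (X : TObj k sg)
    (φ : X.X ≅ σ.obj X.X) (m : ℕ) :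
    ∃ φ' : ((TObj.tw hS)^[2 * m] X).X ≅ σ.obj ((TObj.tw hS)^[2 * m] X).X,
      (∀ Z : EqObj σ, chi k σ Z ⟨_, φ'⟩ = chi k σ Z ⟨_, φ⟩ - (m : ℤ) •
        (2 * (chi k σ Z S).1, (2 : ℤ) • (chi k σ Z S).2 + (chi k σ Z S).1 •
          ((2 : ℤ) • (chi k σ S ⟨_, φ⟩).2 - (2 * (m : ℤ) - 1) • (chi k σ S S).2))) ∧
      (∀ Z : EqObj σ, chi k σ ⟨_, φ'⟩ Z = chi k σ ⟨_, φ⟩ Z - (m : ℤ) •
        (2 * (chi k σ S Z).1, (2 : ℤ) • (chi k σ S Z).2 - (chi k σ S Z).1 •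
          ((2 : ℤ) • (chi k σ S ⟨_, φ⟩).2 - (2 * (m : ℤ) - 1) • (chi k σ S S).2))) := by
  obtain ⟨φ', -, h2, h3⟩ := SqN_aux hfin hS X φ (2 * m)
  refine ⟨φ', fun Z => ?_, fun Z => ?_⟩
  · rw [h2 Z]
    congr 1
    set e := (chi k σ S ⟨_, φ⟩).2
    set s := (chi k σ S S).2
    apply Prod.ext
    · rw [Prod.fst_sum]
      simp [kmul]
      ring
    · rw [Prod.snd_sum]
      simp only [kmul, one_smul, Prod.smul_snd]
      exact SqN_sum m _ _ e s
  · rw [h3 Z]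
    congr 1
    set e := (chi k σ S ⟨_, φ⟩).2
    set s := (chi k σ S S).2
    apply Prod.ext
    · rw [Prod.fst_sum]
      simp [kmul, kbar]
      ring
    · rw [Prod.snd_sum]
      simp only [kmul, kbar, one_smul, Prod.smul_snd]
      exact SqN_sum' m _ _ e s

end BO
end
end

section

end

section

set_option autoImplicit false

noncomputable section

open CategoryTheory CategoryTheory.Limits CategoryTheory.Pretriangulated

namespace BO

universe w v u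

variable (k : Type w) [Field k] {C : Type u} [Category.{v} C] [Preadditive C] [Linear k C]
  [HasZeroObject C] [HasShift C ℤ] [∀ n : ℤ, (shiftFunctor C n).Additive]
  [∀ n : ℤ, Functor.Linear k (shiftFunctor C n)] [Pretriangulated C]

/-- Six objects `a, aF, b, bF, c, cF` without higher Homs, whose Homs are the graded pieces of `R'`
(with the product of `R'`). -/
structure Six (Q : Fin 6 → C) where
  J : ∀ i j, RX k (bdeg j - bdeg i) ≃ₗ[k] (Q i ⟶ Q j)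
  one : ∀ i (x : RX k (bdeg i - bdeg i)), (x : PP k) = 1 → J i i x = 𝟙 (Q i)
  mul : ∀ i j l (x : RX k (bdeg j - bdeg i)) (y : RX k (bdeg l - bdeg j))
    (z : RX k (bdeg l - bdeg i)), (z : PP k) = x * y → J i l z = J i j x ≫ J j l y
  strong : ∀ i j (n : ℤ), n ≠ 0 → ∀ x : Q i ⟶ (Q j)⟦n⟧, x = 0

variable {k} {Q : Fin 6 → C}

open Classical in
/-- The morphism `Q i ⟶ Q j` given by an element of `R'` (zero if it has the wrong degree). -/
def Six.m (D : Six k Q) (i j : Fin 6) (p : PP k) : Q i ⟶ Q j :=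
  if h : p ∈ RX k (bdeg j - bdeg i) then D.J i j ⟨p, h⟩ else 0

variable (D : Six k Q)

theorem Six.m_eq (i j : Fin 6) (p : PP k) (h : p ∈ RX k (bdeg j - bdeg i)) :
    D.m i j p = D.J i j ⟨p, h⟩ := by
  simp [Six.m, h]

end BO
end
end

section

/-!
# TASK SixM: calculus with `Six.m` (all short: `Six.m_eq` and the fields of `Six`; `m_comp`: `RX_mul` gives the membership of `p * q`, the degrees add up by `abel`)
-/

set_option autoImplicit false

noncomputable section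

open CategoryTheory CategoryTheory.Limits CategoryTheory.Pretriangulated

namespace BO

universe w v u

variable {k : Type w} [Field k] {C : Type u} [Category.{v} C] [Preadditive C] [Linear k C]
  [HasZeroObject C] [HasShift C ℤ] [∀ n : ℤ, (shiftFunctor C n).Additive]
  [∀ n : ℤ, Functor.Linear k (shiftFunctor C n)] [Pretriangulated C]
  {Q : Fin 6 → C} (D : Six k Q)

theorem Six.m_zero (i j : Fin 6) : D.m i j 0 = 0 := by
  rw [D.m_eq i j 0 (Submodule.zero_mem _)]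
  exact map_zero (D.J i j)

theorem Six.m_add (i j : Fin 6) (p q : PP k) (hp : p ∈ RX k (bdeg j - bdeg i))
    (hq : q ∈ RX k (bdeg j - bdeg i)) : D.m i j (p + q) = D.m i j p + D.m i j q := by
  rw [D.m_eq i j _ (Submodule.add_mem _ hp hq), D.m_eq i j p hp, D.m_eq i j q hq, ← map_add]
  rfl

theorem Six.m_sub (i j : Fin 6) (p q : PP k) (hp : p ∈ RX k (bdeg j - bdeg i))
    (hq : q ∈ RX k (bdeg j - bdeg i)) : D.m i j (p - q) = D.m i j p - D.m i j q := by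
  rw [D.m_eq i j _ (Submodule.sub_mem _ hp hq), D.m_eq i j p hp, D.m_eq i j q hq, ← map_sub]
  rfl

theorem Six.m_smul (i j : Fin 6) (c : k) (p : PP k) (hp : p ∈ RX k (bdeg j - bdeg i)) :
    D.m i j (c • p) = c • D.m i j p := by
  rw [D.m_eq i j _ (Submodule.smul_mem _ c hp), D.m_eq i j p hp, ← map_smul]
  rfl

private theorem SixM_one_mem (i : Fin 6) : (1 : PP k) ∈ RX k (bdeg i - bdeg i) := by
  rw [sub_self]
  exact RX_one k

theorem Six.m_one (i : Fin 6) : D.m i i 1 = 𝟙 (Q i) := by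
  rw [D.m_eq i i 1 (SixM_one_mem i)]
  exact D.one i _ rfl

theorem Six.m_comp (i j l : Fin 6) (p q : PP k) (hp : p ∈ RX k (bdeg j - bdeg i))
    (hq : q ∈ RX k (bdeg l - bdeg j)) : D.m i j p ≫ D.m j l q = D.m i l (p * q) := by
  have h : p * q ∈ RX k (bdeg l - bdeg i) := by
    have h1 := RX_mul k _ _ p q hp hq
    have h2 : bdeg j - bdeg i + (bdeg l - bdeg j) = bdeg l - bdeg i := by abel
    rwa [h2] at h1
  rw [D.m_eq i j p hp, D.m_eq j l q hq, D.m_eq i l _ h]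
  exact (D.mul i j l ⟨p, hp⟩ ⟨q, hq⟩ ⟨p * q, h⟩ rfl).symm

theorem Six.m_injective (i j : Fin 6) (p : PP k) (hp : p ∈ RX k (bdeg j - bdeg i))
    (h : D.m i j p = 0) : p = 0 := by
  rw [D.m_eq i j p hp, LinearEquiv.map_eq_zero_iff] at h
  exact congrArg Subtype.val h

theorem Six.exists_m (i j : Fin 6) (x : Q i ⟶ Q j) :
    ∃ p ∈ RX k (bdeg j - bdeg i), x = D.m i j p := by
  obtain ⟨p, hp⟩ := (D.J i j).surjective x
  exact ⟨p.1, p.2, by rw [D.m_eq i j p.1 p.2, ← hp]⟩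

end BO
end
end

section

/-!
# TASK SixD: `d0_d1`, `d1_d2`

`biprod.hom_ext`, `biprod.hom_ext'`, `Six.m_comp`: the components are `u₀w₁ - w₁u₀`, `u₀w₂ - w₂u₀`, `-u₀z₀ + w₁mu + w₂ la u₁` (`rel0` in
PieA) and `w₁mu + w₂ la u₁ - z₀u₀`, `-u₀mu + mu u₀`, `-u₀ la u₁ + la u₁ u₀`.
-/

set_option autoImplicit false

noncomputable section

open CategoryTheory CategoryTheory.Limits CategoryTheory.Pretriangulated

namespace BO

universe w v u

variable {k : Type w} [Field k] {C : Type u} [Category.{v} C] [Preadditive C] [Linear k C]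
  [HasZeroObject C] [HasShift C ℤ] [∀ n : ℤ, (shiftFunctor C n).Additive]
  [∀ n : ℤ, Functor.Linear k (shiftFunctor C n)] [Pretriangulated C]
  {Q : Fin 6 → C} (D : Six k Q)

/-- `a → aF ⊞ (b ⊞ b)`. -/
def Six.d0 : Q 0 ⟶ Q 1 ⊞ (Q 2 ⊞ Q 2) :=
  biprod.lift (D.m 0 1 (u0 k)) (biprod.lift (D.m 0 2 (w1 k)) (D.m 0 2 (w2 k)))

/-- `aF ⊞ (b ⊞ b) → (bF ⊞ bF) ⊞ c`. -/
def Six.d1 : Q 1 ⊞ (Q 2 ⊞ Q 2) ⟶ (Q 3 ⊞ Q 3) ⊞ Q 4 :=
  biprod.desc
    (biprod.lift (biprod.lift (D.m 1 3 (w1 k)) (D.m 1 3 (w2 k))) (-D.m 1 4 (z0 k)))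
    (biprod.desc
      (biprod.lift (biprod.lift (-D.m 2 3 (u0 k)) 0) (D.m 2 4 (mu k)))
      (biprod.lift (biprod.lift 0 (-D.m 2 3 (u0 k))) (D.m 2 4 (la k * u1 k))))

/-- `(bF ⊞ bF) ⊞ c → cF`. -/
def Six.d2 : (Q 3 ⊞ Q 3) ⊞ Q 4 ⟶ Q 5 :=
  biprod.desc (biprod.desc (D.m 3 5 (mu k)) (D.m 3 5 (la k * u1 k))) (D.m 4 5 (u0 k))

private theorem SixD_rel0 (k : Type w) [Field k] :
    u0 k * z0 k = mu k * w1 k + la k * u1 k * w2 k := by
  simp only [z0, w1, w2]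
  ring

private theorem SixD_mem (k : Type w) [Field k] (x y : PP k) (D D' D'' : Dg) (hx : x ∈ RX k D)
    (hy : y ∈ RX k D') (h : D + D' = D'') : x * y ∈ RX k D'' :=
  h ▸ RX_mul k D D' x y hx hy

theorem Six.d0_d1 : D.d0 ≫ D.d1 = 0 := by
  have h1 : D.m 0 1 (u0 k) ≫ D.m 1 3 (w1 k) = D.m 0 3 (u0 k * w1 k) :=
    D.m_comp 0 1 3 _ _ (mem_u0_01 k) (mem_w1_13 k)
  have h2 : D.m 0 1 (u0 k) ≫ D.m 1 3 (w2 k) = D.m 0 3 (u0 k * w2 k) :=
    D.m_comp 0 1 3 _ _ (mem_u0_01 k) (mem_w2_13 k)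
  have h3 : D.m 0 1 (u0 k) ≫ D.m 1 4 (z0 k) = D.m 0 4 (u0 k * z0 k) :=
    D.m_comp 0 1 4 _ _ (mem_u0_01 k) (mem_z0_14 k)
  have h4 : D.m 0 2 (w1 k) ≫ D.m 2 3 (u0 k) = D.m 0 3 (u0 k * w1 k) := by
    rw [D.m_comp 0 2 3 _ _ (mem_w1_02 k) (mem_u0_23 k), mul_comm]
  have h5 : D.m 0 2 (w2 k) ≫ D.m 2 3 (u0 k) = D.m 0 3 (u0 k * w2 k) := by
    rw [D.m_comp 0 2 3 _ _ (mem_w2_02 k) (mem_u0_23 k), mul_comm]
  have h6 : D.m 0 2 (w1 k) ≫ D.m 2 4 (mu k) + D.m 0 2 (w2 k) ≫ D.m 2 4 (la k * u1 k)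
      = D.m 0 4 (u0 k * z0 k) := by
    rw [D.m_comp 0 2 4 _ _ (mem_w1_02 k) (mem_mu_24 k),
      D.m_comp 0 2 4 _ _ (mem_w2_02 k) (mem_lau1_24 k), ← D.m_add, SixD_rel0]
    · congr 1
      ring
    · exact SixD_mem k _ _ _ _ _ (mem_w1_02 k) (mem_mu_24 k) (by decide)
    · exact SixD_mem k _ _ _ _ _ (mem_w2_02 k) (mem_lau1_24 k) (by decide)
  unfold Six.d0 Six.d1
  apply biprod.hom_ext
  · apply biprod.hom_ext
    · simp [h1, h4]
    · simp [h2, h5]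
  · simp [h3, ← h6]

theorem Six.d1_d2 : D.d1 ≫ D.d2 = 0 := by
  have h1 : D.m 1 3 (w1 k) ≫ D.m 3 5 (mu k) + D.m 1 3 (w2 k) ≫ D.m 3 5 (la k * u1 k)
      = D.m 1 4 (z0 k) ≫ D.m 4 5 (u0 k) := by
    rw [D.m_comp 1 3 5 _ _ (mem_w1_13 k) (mem_mu_35 k),
      D.m_comp 1 3 5 _ _ (mem_w2_13 k) (mem_lau1_35 k), ← D.m_add,
      D.m_comp 1 4 5 _ _ (mem_z0_14 k) (mem_u0_45 k), mul_comm (z0 k), SixD_rel0]
    · congr 1
      ring
    · exact SixD_mem k _ _ _ _ _ (mem_w1_13 k) (mem_mu_35 k) (by decide)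
    · exact SixD_mem k _ _ _ _ _ (mem_w2_13 k) (mem_lau1_35 k) (by decide)
  have h2 : D.m 2 3 (u0 k) ≫ D.m 3 5 (mu k) = D.m 2 4 (mu k) ≫ D.m 4 5 (u0 k) := by
    rw [D.m_comp 2 3 5 _ _ (mem_u0_23 k) (mem_mu_35 k),
      D.m_comp 2 4 5 _ _ (mem_mu_24 k) (mem_u0_45 k), mul_comm]
  have h3 : D.m 2 3 (u0 k) ≫ D.m 3 5 (la k * u1 k)
      = D.m 2 4 (la k * u1 k) ≫ D.m 4 5 (u0 k) := by
    rw [D.m_comp 2 3 5 _ _ (mem_u0_23 k) (mem_lau1_35 k),
      D.m_comp 2 4 5 _ _ (mem_lau1_24 k) (mem_u0_45 k), mul_comm]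
  unfold Six.d1 Six.d2
  apply biprod.hom_ext'
  · simp [h1]
  · apply biprod.hom_ext'
    · simp [h2]
    · simp [h3]

theorem Six.exists_conv : Nonempty (Conv D.d0 D.d1 D.d2) := by
  refine BO.exists_conv D.d0 D.d1 D.d2 D.d0_d1 D.d1_d2 fun x => ?_
  exact D.strong 0 5 (-1) (by norm_num) x

variable (K : Conv D.d0 D.d1 D.d2)

/-- The class `θ : cF ⟶ S[3]`. -/
def Six.th : Q 5 ⟶ K.S⟦(3 : ℤ)⟧ := K.e ≫ K.gA

/-- The maps `f_j : S ⟶ Q j`. -/
def Six.f (j : Fin 6) : K.S ⟶ Q j := K.f ≫ D.m 0 j (kap' k j)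

/-- The maps `g_i : Q i ⟶ S[3]`. -/
def Six.g (i : Fin 6) : Q i ⟶ K.S⟦(3 : ℤ)⟧ := D.m i 5 (kap k i) ≫ D.th K

/-- The top class of `S`. -/
def Six.sg : K.S ⟶ K.S⟦(3 : ℤ)⟧ := D.f K 5 ≫ D.th K

end BO
end
end

section

end

section

/-!
# TASK SixCon
-/

set_option autoImplicit false

noncomputable section

open CategoryTheory CategoryTheory.Limits CategoryTheory.Pretriangulated

namespace BO

universe w v u

variable {k : Type w} [Field k] {C : Type u} [Category.{v} C] [Preadditive C] [Linear k C]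
  [HasZeroObject C] [HasShift C ℤ] [∀ n : ℤ, (shiftFunctor C n).Additive]
  [∀ n : ℤ, Functor.Linear k (shiftFunctor C n)] [Pretriangulated C]
  {Q : Fin 6 → C}
  (D : Six k Q) (K : Conv D.d0 D.d1 D.d2)

omit [HasZeroObject C] [HasShift C ℤ] [∀ n : ℤ, (shiftFunctor C n).Additive]
  [∀ n : ℤ, Functor.Linear k (shiftFunctor C n)] [Pretriangulated C] [Preadditive C]
  [Category.{v} C] in
private theorem SixCon_mul {i l j : Fin 6} {x y : PP k} (hx : x ∈ RX k (bdeg l - bdeg i))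
    (hy : y ∈ RX k (bdeg j - bdeg l)) : x * y ∈ RX k (bdeg j - bdeg i) := by
  have h := RX_mul k _ _ x y hx hy
  have e : bdeg l - bdeg i + (bdeg j - bdeg l) = bdeg j - bdeg i := by abel
  rwa [e] at h

/-- Composition with `d0`. -/
private theorem SixCon_d0 (j : Fin 6) (p p1 p2 : PP k) (hp : p ∈ RX k (bdeg j - bdeg 1))
    (hp1 : p1 ∈ RX k (bdeg j - bdeg 2)) (hp2 : p2 ∈ RX k (bdeg j - bdeg 2)) :
    D.d0 ≫ biprod.desc (D.m 1 j p) (biprod.desc (D.m 2 j p1) (D.m 2 j p2)) =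
      D.m 0 j (u0 k * p + w1 k * p1 + w2 k * p2) := by
  unfold Six.d0
  rw [biprod.lift_desc, biprod.lift_desc, D.m_comp 0 1 j _ _ (mem_u0_01 k) hp,
    D.m_comp 0 2 j _ _ (mem_w1_02 k) hp1, D.m_comp 0 2 j _ _ (mem_w2_02 k) hp2,
    D.m_add 0 j _ _ (Submodule.add_mem _ (SixCon_mul (mem_u0_01 k) hp)
      (SixCon_mul (mem_w1_02 k) hp1)) (SixCon_mul (mem_w2_02 k) hp2),
    D.m_add 0 j _ _ (SixCon_mul (mem_u0_01 k) hp) (SixCon_mul (mem_w1_02 k) hp1), add_assoc]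

/-- Composition with `d1`. -/
private theorem SixCon_d1 (j : Fin 6) (y1 y2 y : PP k) (hy1 : y1 ∈ RX k (bdeg j - bdeg 3))
    (hy2 : y2 ∈ RX k (bdeg j - bdeg 3)) (hy : y ∈ RX k (bdeg j - bdeg 4)) :
    D.d1 ≫ biprod.desc (biprod.desc (D.m 3 j y1) (D.m 3 j y2)) (D.m 4 j y) =
      biprod.desc (D.m 1 j (w1 k * y1 + w2 k * y2 - z0 k * y))
        (biprod.desc (D.m 2 j (mu k * y - u0 k * y1))
          (D.m 2 j (la k * u1 k * y - u0 k * y2))) := by
  unfold Six.d1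
  apply biprod.hom_ext'
  · rw [biprod.inl_desc_assoc, biprod.inl_desc, biprod.lift_desc, biprod.lift_desc,
      Preadditive.neg_comp, D.m_comp 1 3 j _ _ (mem_w1_13 k) hy1,
      D.m_comp 1 3 j _ _ (mem_w2_13 k) hy2, D.m_comp 1 4 j _ _ (mem_z0_14 k) hy,
      D.m_sub 1 j _ _ (Submodule.add_mem _ (SixCon_mul (mem_w1_13 k) hy1)
        (SixCon_mul (mem_w2_13 k) hy2)) (SixCon_mul (mem_z0_14 k) hy),
      D.m_add 1 j _ _ (SixCon_mul (mem_w1_13 k) hy1) (SixCon_mul (mem_w2_13 k) hy2)]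
    abel
  · rw [biprod.inr_desc_assoc, biprod.inr_desc]
    apply biprod.hom_ext'
    · rw [biprod.inl_desc_assoc, biprod.inl_desc, biprod.lift_desc, biprod.lift_desc,
        Preadditive.neg_comp, D.m_comp 2 3 j _ _ (mem_u0_23 k) hy1,
        D.m_comp 2 4 j _ _ (mem_mu_24 k) hy,
        D.m_sub 2 j _ _ (SixCon_mul (mem_mu_24 k) hy) (SixCon_mul (mem_u0_23 k) hy1),
        zero_comp]
      abel
    · rw [biprod.inr_desc_assoc, biprod.inr_desc, biprod.lift_desc, biprod.lift_desc,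
        Preadditive.neg_comp, D.m_comp 2 3 j _ _ (mem_u0_23 k) hy2,
        D.m_comp 2 4 j _ _ (mem_lau1_24 k) hy,
        D.m_sub 2 j _ _ (SixCon_mul (mem_lau1_24 k) hy) (SixCon_mul (mem_u0_23 k) hy2),
        zero_comp]
      abel

/-- Composition with `d2`. -/
private theorem SixCon_d2 (j : Fin 6) (p : PP k) (hp : p ∈ RX k (bdeg j - bdeg 5)) :
    D.d2 ≫ D.m 5 j p = biprod.desc (biprod.desc (D.m 3 j (mu k * p))
      (D.m 3 j (la k * u1 k * p))) (D.m 4 j (u0 k * p)) := by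
  unfold Six.d2
  apply biprod.hom_ext'
  · rw [biprod.inl_desc_assoc, biprod.inl_desc]
    apply biprod.hom_ext'
    · rw [biprod.inl_desc_assoc, biprod.inl_desc, D.m_comp 3 5 j _ _ (mem_mu_35 k) hp]
    · rw [biprod.inr_desc_assoc, biprod.inr_desc, D.m_comp 3 5 j _ _ (mem_lau1_35 k) hp]
  · rw [biprod.inr_desc_assoc, biprod.inr_desc, D.m_comp 4 5 j _ _ (mem_u0_45 k) hp]

/-- The morphisms on the second term. -/
private theorem SixCon_ex1 (j : Fin 6) (x : Q 1 ⊞ (Q 2 ⊞ Q 2) ⟶ Q j) :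
    ∃ p ∈ RX k (bdeg j - bdeg 1), ∃ p1 ∈ RX k (bdeg j - bdeg 2), ∃ p2 ∈ RX k (bdeg j - bdeg 2),
      x = biprod.desc (D.m 1 j p) (biprod.desc (D.m 2 j p1) (D.m 2 j p2)) := by
  obtain ⟨p, hp, e⟩ := D.exists_m 1 j (biprod.inl ≫ x)
  obtain ⟨p1, hp1, e1⟩ := D.exists_m 2 j (biprod.inl ≫ biprod.inr ≫ x)
  obtain ⟨p2, hp2, e2⟩ := D.exists_m 2 j (biprod.inr ≫ biprod.inr ≫ x)
  refine ⟨p, hp, p1, hp1, p2, hp2, ?_⟩
  apply biprod.hom_ext'
  · rw [biprod.inl_desc, e]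
  · rw [biprod.inr_desc]
    apply biprod.hom_ext'
    · rw [biprod.inl_desc, e1]
    · rw [biprod.inr_desc, e2]

/-- The morphisms on the third term. -/
private theorem SixCon_ex2 (j : Fin 6) (x : (Q 3 ⊞ Q 3) ⊞ Q 4 ⟶ Q j) :
    ∃ p1 ∈ RX k (bdeg j - bdeg 3), ∃ p2 ∈ RX k (bdeg j - bdeg 3), ∃ p ∈ RX k (bdeg j - bdeg 4),
      x = biprod.desc (biprod.desc (D.m 3 j p1) (D.m 3 j p2)) (D.m 4 j p) := by
  obtain ⟨p, hp, e⟩ := D.exists_m 4 j (biprod.inr ≫ x)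
  obtain ⟨p1, hp1, e1⟩ := D.exists_m 3 j (biprod.inl ≫ biprod.inl ≫ x)
  obtain ⟨p2, hp2, e2⟩ := D.exists_m 3 j (biprod.inr ≫ biprod.inl ≫ x)
  refine ⟨p1, hp1, p2, hp2, p, hp, ?_⟩
  apply biprod.hom_ext'
  · rw [biprod.inl_desc]
    apply biprod.hom_ext'
    · rw [biprod.inl_desc, e1]
    · rw [biprod.inr_desc, e2]
  · rw [biprod.inr_desc, e]

omit [∀ n : ℤ, Functor.Linear k (shiftFunctor C n)] in
include D in
private theorem SixCon_v1 (j : Fin 6) (n : ℤ) (hn : n ≠ 0)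
    (x : Q 1 ⊞ (Q 2 ⊞ Q 2) ⟶ (Q j)⟦n⟧) : x = 0 := by
  apply biprod.hom_ext'
  · rw [comp_zero]
    exact D.strong 1 j n hn _
  · rw [comp_zero]
    apply biprod.hom_ext'
    · rw [comp_zero]
      exact D.strong 2 j n hn _
    · rw [comp_zero]
      exact D.strong 2 j n hn _

omit [∀ n : ℤ, Functor.Linear k (shiftFunctor C n)] in
include D in
private theorem SixCon_v2 (j : Fin 6) (n : ℤ) (hn : n ≠ 0)
    (x : (Q 3 ⊞ Q 3) ⊞ Q 4 ⟶ (Q j)⟦n⟧) : x = 0 := by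
  apply biprod.hom_ext'
  · rw [comp_zero]
    apply biprod.hom_ext'
    · rw [comp_zero]
      exact D.strong 3 j n hn _
    · rw [comp_zero]
      exact D.strong 3 j n hn _
  · rw [comp_zero]
    exact D.strong 4 j n hn _

private theorem SixCon_u0_ne : u0 k ≠ 0 := MvPolynomial.X_ne_zero _

/-- `Hom(S, Q j[n]) = 0` for `n ≠ 0`.

PROOF. `Conv.con k K (Q j)`. `v0, …, v3`: `D.strong` and `Hom((X ⊞ Y), Z[n])`. The hypotheses of the parts `n = -1, -2` are `ex1_con`,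
`ex2_con` translated with `Six.exists_m`, `Six.m_comp`, `Six.m_injective`; part `n = -3`: `L h = D.m 5 j p` with `u₀ p = 0`
(component `c` of `d2 ≫ L h = 0`), so `p = 0`, `L h = 0`, `h = 0`. -/
theorem Six.from_S (j : Fin 6) (n : ℤ) (hn : n ≠ 0) (x : K.S ⟶ (Q j)⟦n⟧) : x = 0 := by
  obtain ⟨h1, h2, h3, ⟨L, hL, hL'⟩, -, -⟩ := Conv.con k K (Q j)
    (fun n hn x => D.strong 0 j n hn x) (fun n hn x => SixCon_v1 D j n hn x)
    (fun n hn x => SixCon_v2 D j n hn x) (fun n hn x => D.strong 5 j n hn x)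
  by_cases hn1 : n = -1
  · subst hn1
    refine h2 (fun x hx => ?_) x
    obtain ⟨p, hp, p1, hp1, p2, hp2, rfl⟩ := SixCon_ex1 D j x
    rw [SixCon_d0 D j p p1 p2 hp hp1 hp2] at hx
    have e := D.m_injective 0 j _ (Submodule.add_mem _ (Submodule.add_mem _
      (SixCon_mul (mem_u0_01 k) hp) (SixCon_mul (mem_w1_02 k) hp1))
      (SixCon_mul (mem_w2_02 k) hp2)) hx
    obtain ⟨y1, hy1, y2, hy2, y, hy, f1, f2, f3⟩ := ex1_con k j p p1 p2 hp hp1 hp2 e
    refine ⟨biprod.desc (biprod.desc (D.m 3 j y1) (D.m 3 j y2)) (D.m 4 j y), ?_⟩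
    rw [SixCon_d1 D j y1 y2 y hy1 hy2 hy, ← f1, ← f2, ← f3]
  · by_cases hn2 : n = -2
    · subst hn2
      refine h3 (fun x hx => ?_) x
      obtain ⟨y1, hy1, y2, hy2, y, hy, rfl⟩ := SixCon_ex2 D j x
      rw [SixCon_d1 D j y1 y2 y hy1 hy2 hy] at hx
      have e1 : D.m 1 j (w1 k * y1 + w2 k * y2 - z0 k * y) = 0 := by
        have e := congrArg (fun f => biprod.inl ≫ f) hx
        simpa using e
      have e2 : D.m 2 j (mu k * y - u0 k * y1) = 0 := by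
        have e := congrArg (fun f => biprod.inl ≫ biprod.inr ≫ f) hx
        simpa using e
      have e3 : D.m 2 j (la k * u1 k * y - u0 k * y2) = 0 := by
        have e := congrArg (fun f => biprod.inr ≫ biprod.inr ≫ f) hx
        simpa using e
      have f1 := D.m_injective 1 j _ (Submodule.sub_mem _ (Submodule.add_mem _
        (SixCon_mul (mem_w1_13 k) hy1) (SixCon_mul (mem_w2_13 k) hy2))
        (SixCon_mul (mem_z0_14 k) hy)) e1
      have f2 := D.m_injective 2 j _ (Submodule.sub_mem _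
        (SixCon_mul (mem_mu_24 k) hy) (SixCon_mul (mem_u0_23 k) hy1)) e2
      have f3 := D.m_injective 2 j _ (Submodule.sub_mem _
        (SixCon_mul (mem_lau1_24 k) hy) (SixCon_mul (mem_u0_23 k) hy2)) e3
      obtain ⟨p, hp, g1, g2, g3⟩ := ex2_con k j y1 y2 y hy1 hy2 hy (sub_eq_zero.mp f1)
        (sub_eq_zero.mp f2).symm (sub_eq_zero.mp f3).symm
      refine ⟨D.m 5 j p, ?_⟩
      rw [SixCon_d2 D j p hp, ← g1, ← g2, ← g3]
    · by_cases hn3 : n = -3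
      · subst hn3
        have e := hL' x
        obtain ⟨p, hp, ep⟩ := D.exists_m 5 j (L x)
        rw [ep, SixCon_d2 D j p hp] at e
        have e4 : D.m 4 j (u0 k * p) = 0 := by
          have e := congrArg (fun f => biprod.inr ≫ f) e
          simpa using e
        have f4 := D.m_injective 4 j _ (SixCon_mul (mem_u0_45 k) hp) e4
        have f5 : p = 0 := by
          rcases mul_eq_zero.mp f4 with h | h
          · exact absurd h SixCon_u0_ne
          · exact h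
        rw [f5, D.m_zero] at ep
        exact hL (ep.trans (map_zero L).symm)
      · exact h1 n hn hn1 hn2 hn3 x

/-- `Hom(S, Q j)` is spanned by `f j`: `x = K.f ≫ D.m 0 j p`, `co_con` for `p`, and `K.f ≫ d0 = 0` (`K.tri3.dist`: consecutive maps
`K.f ≫ K.p = 0` and `hp`). -/
theorem Six.from_S0 (j : Fin 6) (x : K.S ⟶ Q j) : ∃ c : k, x = c • D.f K j := by
  obtain ⟨-, -, -, -, h5, -⟩ := Conv.con k K (Q j)
    (fun n hn x => D.strong 0 j n hn x) (fun n hn x => SixCon_v1 D j n hn x)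
    (fun n hn x => SixCon_v2 D j n hn x) (fun n hn x => D.strong 5 j n hn x)
  obtain ⟨y, rfl⟩ := h5 x
  obtain ⟨q, hq, rfl⟩ := D.exists_m 0 j y
  obtain ⟨c, y, hy, x1, hx1, x2, hx2, e⟩ := co_con k j q hq
  refine ⟨c, ?_⟩
  have hz : K.f ≫ K.p = 0 := comp_distTriang_mor_zero₁₂ _ K.tri3.dist
  have hd0 : K.f ≫ D.d0 = 0 := by
    rcases K.hp with h | h
    · have h' := congrArg (fun f => K.f ≫ f) h
      rw [← Category.assoc, hz, zero_comp] at h'
      exact h'.symm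
    · have h' := congrArg (fun f => K.f ≫ f) h
      simp only [Preadditive.comp_neg] at h'
      rw [← Category.assoc, hz, zero_comp] at h'
      exact neg_eq_zero.mp h'.symm
  have hm : u0 k * y + w1 k * x1 + w2 k * x2 ∈ RX k (bdeg j - bdeg 0) :=
    Submodule.add_mem _ (Submodule.add_mem _
      (SixCon_mul (mem_u0_01 k) hy) (SixCon_mul (mem_w1_02 k) hx1))
      (SixCon_mul (mem_w2_02 k) hx2)
  have e' : q = c • kap' k j + (u0 k * y + w1 k * x1 + w2 k * x2) := by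
    rw [e]
    ring
  rw [e', D.m_add 0 j _ _ (Submodule.smul_mem _ c (kap'_mem k j)) hm,
    D.m_smul 0 j c _ (kap'_mem k j),
    Preadditive.comp_add, ← SixCon_d0 D j y x1 x2 hy hx1 hx2, ← Category.assoc K.f D.d0, hd0,
    zero_comp, add_zero, Linear.comp_smul]
  rfl

end BO
end
end

section

/-!
# TASK SixCov
-/

set_option autoImplicit false

noncomputable section

open CategoryTheory CategoryTheory.Limits CategoryTheory.Pretriangulated

namespace BO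

universe w v u

variable {k : Type w} [Field k] {C : Type u} [Category.{v} C] [Preadditive C] [Linear k C]
  [HasZeroObject C] [HasShift C ℤ] [∀ n : ℤ, (shiftFunctor C n).Additive]
  [∀ n : ℤ, Functor.Linear k (shiftFunctor C n)] [Pretriangulated C]
  {Q : Fin 6 → C}
  (D : Six k Q) (K : Conv D.d0 D.d1 D.d2)

omit [HasZeroObject C] [Linear k C] [∀ n : ℤ, Functor.Linear k (shiftFunctor C n)]
  [Pretriangulated C] in
private theorem SixCov_sh {P X Y : C} [HasBinaryBiproducts C] (n : ℤ)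
    (hX : ∀ x : P ⟶ X⟦n⟧, x = 0) (hY : ∀ x : P ⟶ Y⟦n⟧, x = 0) (x : P ⟶ (X ⊞ Y)⟦n⟧) : x = 0 := by
  have h : x = x ≫ ((𝟙 (X ⊞ Y))⟦n⟧') := by simp
  rw [h, ← biprod.total, Functor.map_add, Preadditive.comp_add, Functor.map_comp,
    Functor.map_comp, ← Category.assoc, ← Category.assoc, hX (x ≫ _), hY (x ≫ _), zero_comp,
    zero_comp, add_zero]

private theorem SixCov_mul (k : Type w) [Field k] {i j l : Fin 6} {p q : PP k}
    (hp : p ∈ RX k (bdeg j - bdeg i)) (hq : q ∈ RX k (bdeg l - bdeg j)) :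
    p * q ∈ RX k (bdeg l - bdeg i) := by
  have h := RX_mul k _ _ _ _ hp hq
  rwa [show bdeg j - bdeg i + (bdeg l - bdeg j) = bdeg l - bdeg i by abel] at h

private theorem SixCov_d0 (i : Fin 6) (p : PP k) (hp : p ∈ RX k (bdeg 0 - bdeg i)) :
    D.m i 0 p ≫ D.d0 = biprod.lift (D.m i 1 (p * u0 k))
      (biprod.lift (D.m i 2 (p * w1 k)) (D.m i 2 (p * w2 k))) := by
  have h1 := D.m_comp i 0 1 p (u0 k) hp (mem_u0_01 k)
  have h2 := D.m_comp i 0 2 p (w1 k) hp (mem_w1_02 k)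
  have h3 := D.m_comp i 0 2 p (w2 k) hp (mem_w2_02 k)
  unfold Six.d0
  apply biprod.hom_ext
  · simp [h1]
  · apply biprod.hom_ext
    · simp [h2]
    · simp [h3]

private theorem SixCov_d1 (i : Fin 6) (p q1 q2 : PP k) (hp : p ∈ RX k (bdeg 1 - bdeg i))
    (hq1 : q1 ∈ RX k (bdeg 2 - bdeg i)) (hq2 : q2 ∈ RX k (bdeg 2 - bdeg i)) :
    biprod.lift (D.m i 1 p) (biprod.lift (D.m i 2 q1) (D.m i 2 q2)) ≫ D.d1 =
      biprod.lift (biprod.lift (D.m i 3 (p * w1 k - q1 * u0 k))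
        (D.m i 3 (p * w2 k - q2 * u0 k)))
        (D.m i 4 (q1 * mu k + q2 * (la k * u1 k) - p * z0 k)) := by
  have a1 := D.m_comp i 1 3 p (w1 k) hp (mem_w1_13 k)
  have a2 := D.m_comp i 1 3 p (w2 k) hp (mem_w2_13 k)
  have a3 := D.m_comp i 1 4 p (z0 k) hp (mem_z0_14 k)
  have b1 := D.m_comp i 2 3 q1 (u0 k) hq1 (mem_u0_23 k)
  have b2 := D.m_comp i 2 3 q2 (u0 k) hq2 (mem_u0_23 k)
  have c1 := D.m_comp i 2 4 q1 (mu k) hq1 (mem_mu_24 k)
  have c2 := D.m_comp i 2 4 q2 (la k * u1 k) hq2 (mem_lau1_24 k)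
  have e1 := D.m_sub i 3 (p * w1 k) (q1 * u0 k) (SixCov_mul k hp (mem_w1_13 k))
    (SixCov_mul k hq1 (mem_u0_23 k))
  have e2 := D.m_sub i 3 (p * w2 k) (q2 * u0 k) (SixCov_mul k hp (mem_w2_13 k))
    (SixCov_mul k hq2 (mem_u0_23 k))
  have e3 := D.m_add i 4 (q1 * mu k) (q2 * (la k * u1 k)) (SixCov_mul k hq1 (mem_mu_24 k))
    (SixCov_mul k hq2 (mem_lau1_24 k))
  have e4 := D.m_sub i 4 (q1 * mu k + q2 * (la k * u1 k)) (p * z0 k)
    (Submodule.add_mem _ (SixCov_mul k hq1 (mem_mu_24 k)) (SixCov_mul k hq2 (mem_lau1_24 k)))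
    (SixCov_mul k hp (mem_z0_14 k))
  rw [e1, e2, e4, e3, ← a1, ← a2, ← a3, ← b1, ← b2, ← c1, ← c2]
  unfold Six.d1
  apply biprod.hom_ext
  · apply biprod.hom_ext
    · simp [sub_eq_add_neg]
    · simp [sub_eq_add_neg]
  · simp only [Category.assoc, biprod.lift_desc, biprod.lift_snd, Preadditive.add_comp,
      Preadditive.comp_neg]
    abel

private theorem SixCov_d2 (i : Fin 6) (x1 x2 y : PP k) (hx1 : x1 ∈ RX k (bdeg 3 - bdeg i))
    (hx2 : x2 ∈ RX k (bdeg 3 - bdeg i)) (hy : y ∈ RX k (bdeg 4 - bdeg i)) :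
    biprod.lift (biprod.lift (D.m i 3 x1) (D.m i 3 x2)) (D.m i 4 y) ≫ D.d2 =
      D.m i 5 (x1 * mu k + x2 * (la k * u1 k) + y * u0 k) := by
  have a1 := D.m_comp i 3 5 x1 (mu k) hx1 (mem_mu_35 k)
  have a2 := D.m_comp i 3 5 x2 (la k * u1 k) hx2 (mem_lau1_35 k)
  have a3 := D.m_comp i 4 5 y (u0 k) hy (mem_u0_45 k)
  have e1 := D.m_add i 5 (x1 * mu k) (x2 * (la k * u1 k)) (SixCov_mul k hx1 (mem_mu_35 k))
    (SixCov_mul k hx2 (mem_lau1_35 k))
  have e2 := D.m_add i 5 (x1 * mu k + x2 * (la k * u1 k)) (y * u0 k)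
    (Submodule.add_mem _ (SixCov_mul k hx1 (mem_mu_35 k)) (SixCov_mul k hx2 (mem_lau1_35 k)))
    (SixCov_mul k hy (mem_u0_45 k))
  rw [e2, e1, ← a1, ← a2, ← a3]
  unfold Six.d2
  simp only [biprod.lift_desc]

private theorem SixCov_e1 (i : Fin 6) (x : Q i ⟶ Q 1 ⊞ (Q 2 ⊞ Q 2)) :
    ∃ a ∈ RX k (bdeg 1 - bdeg i), ∃ y1 ∈ RX k (bdeg 2 - bdeg i), ∃ y2 ∈ RX k (bdeg 2 - bdeg i),
      x = biprod.lift (D.m i 1 a) (biprod.lift (D.m i 2 y1) (D.m i 2 y2)) := by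
  obtain ⟨a, ha, ha'⟩ := D.exists_m i 1 (x ≫ biprod.fst)
  obtain ⟨y1, hy1, hy1'⟩ := D.exists_m i 2 (x ≫ biprod.snd ≫ biprod.fst)
  obtain ⟨y2, hy2, hy2'⟩ := D.exists_m i 2 (x ≫ biprod.snd ≫ biprod.snd)
  refine ⟨a, ha, y1, hy1, y2, hy2, ?_⟩
  rw [← ha', ← hy1', ← hy2']
  apply biprod.hom_ext
  · simp
  · apply biprod.hom_ext <;> simp

private theorem SixCov_e2 (i : Fin 6) (x : Q i ⟶ (Q 3 ⊞ Q 3) ⊞ Q 4) :
    ∃ x1 ∈ RX k (bdeg 3 - bdeg i), ∃ x2 ∈ RX k (bdeg 3 - bdeg i), ∃ y ∈ RX k (bdeg 4 - bdeg i),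
      x = biprod.lift (biprod.lift (D.m i 3 x1) (D.m i 3 x2)) (D.m i 4 y) := by
  obtain ⟨x1, hx1, hx1'⟩ := D.exists_m i 3 (x ≫ biprod.fst ≫ biprod.fst)
  obtain ⟨x2, hx2, hx2'⟩ := D.exists_m i 3 (x ≫ biprod.fst ≫ biprod.snd)
  obtain ⟨y, hy, hy'⟩ := D.exists_m i 4 (x ≫ biprod.snd)
  refine ⟨x1, hx1, x2, hx2, y, hy, ?_⟩
  rw [← hx1', ← hx2', ← hy']
  apply biprod.hom_ext
  · apply biprod.hom_ext <;> simp
  · simp

private theorem SixCov_u0_ne : u0 k ≠ 0 := MvPolynomial.X_ne_zero 0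

private theorem SixCov_cov (i : Fin 6) :
    (∀ n : ℤ, n ≠ 3 → ∀ x : Q i ⟶ K.S⟦n⟧, x = 0) ∧
    (∀ x : Q i ⟶ K.S⟦(3 : ℤ)⟧, ∃ y : Q i ⟶ Q 5, x = y ≫ K.e ≫ K.gA) ∧
    (∀ y : Q i ⟶ Q 5, y ≫ K.e ≫ K.gA = 0 → ∃ x : Q i ⟶ (Q 3 ⊞ Q 3) ⊞ Q 4, y = x ≫ D.d2) := by
  refine Conv.cov K (Q i) ?_ ?_ ?_ ?_ ?_ ?_ ?_
  · exact fun n hn x => D.strong i 0 n hn x
  · intro n hn x
    exact SixCov_sh n (D.strong i 1 n hn)
      (fun y => SixCov_sh n (D.strong i 2 n hn) (D.strong i 2 n hn) y) x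
  · intro n hn x
    exact SixCov_sh n (fun y => SixCov_sh n (D.strong i 3 n hn) (D.strong i 3 n hn) y)
      (D.strong i 4 n hn) x
  · exact fun n hn x => D.strong i 5 n hn x
  · intro x hx
    obtain ⟨p, hp, rfl⟩ := D.exists_m i 0 x
    rw [SixCov_d0 D i p hp] at hx
    have h1 : D.m i 1 (p * u0 k) = 0 := by
      have := congrArg (fun z => z ≫ biprod.fst) hx
      simpa using this
    have h2 := D.m_injective i 1 _ (SixCov_mul k hp (mem_u0_01 k)) h1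
    rcases mul_eq_zero.mp h2 with h3 | h3
    · rw [h3, D.m_zero]
    · exact absurd h3 SixCov_u0_ne
  · intro x hx
    obtain ⟨a, ha, y1, hy1, y2, hy2, rfl⟩ := SixCov_e1 D i x
    rw [SixCov_d1 D i a y1 y2 ha hy1 hy2] at hx
    have h1 : D.m i 3 (a * w1 k - y1 * u0 k) = 0 := by
      have := congrArg (fun z => z ≫ biprod.fst ≫ biprod.fst) hx
      simpa using this
    have h2 : D.m i 3 (a * w2 k - y2 * u0 k) = 0 := by
      have := congrArg (fun z => z ≫ biprod.fst ≫ biprod.snd) hx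
      simpa using this
    have h3 : D.m i 4 (y1 * mu k + y2 * (la k * u1 k) - a * z0 k) = 0 := by
      have := congrArg (fun z => z ≫ biprod.snd) hx
      simpa using this
    have g1 := D.m_injective i 3 _ (Submodule.sub_mem _ (SixCov_mul k ha (mem_w1_13 k))
      (SixCov_mul k hy1 (mem_u0_23 k))) h1
    have g2 := D.m_injective i 3 _ (Submodule.sub_mem _ (SixCov_mul k ha (mem_w2_13 k))
      (SixCov_mul k hy2 (mem_u0_23 k))) h2
    have g3 := D.m_injective i 4 _ (Submodule.sub_mem _ (Submodule.add_mem _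
      (SixCov_mul k hy1 (mem_mu_24 k)) (SixCov_mul k hy2 (mem_lau1_24 k)))
      (SixCov_mul k ha (mem_z0_14 k))) h3
    obtain ⟨p, hp, e1, e2, e3⟩ := ex1_cov k i a y1 y2 ha hy1 hy2 (sub_eq_zero.mp g1)
      (sub_eq_zero.mp g2) (sub_eq_zero.mp g3)
    refine ⟨D.m i 0 p, ?_⟩
    rw [SixCov_d0 D i p hp, ← e1, ← e2, ← e3]
  · intro x hx
    obtain ⟨x1, hx1, x2, hx2, y, hy, rfl⟩ := SixCov_e2 D i x
    rw [SixCov_d2 D i x1 x2 y hx1 hx2 hy] at hx
    have g := D.m_injective i 5 _ (Submodule.add_mem _ (Submodule.add_mem _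
      (SixCov_mul k hx1 (mem_mu_35 k)) (SixCov_mul k hx2 (mem_lau1_35 k)))
      (SixCov_mul k hy (mem_u0_45 k))) hx
    obtain ⟨p, hp, q1, hq1, q2, hq2, e1, e2, e3⟩ := ex2_cov k i x1 x2 y hx1 hx2 hy g
    refine ⟨biprod.lift (D.m i 1 p) (biprod.lift (D.m i 2 q1) (D.m i 2 q2)), ?_⟩
    rw [SixCov_d1 D i p q1 q2 hp hq1 hq2, ← e1, ← e2, ← e3]

private theorem SixCov_zero : D.d2 ≫ K.e ≫ K.gA = 0 := by
  have h1 : K.n ≫ K.e = 0 := comp_distTriang_mor_zero₁₂ _ K.tri2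
  have h2 : D.d2 ≫ K.e ≫ K.gA = (K.i ≫ K.n) ≫ K.e ≫ K.gA := by
    congr 1
    exact K.hn.symm
  rw [h2, Category.assoc, ← Category.assoc K.n, h1, zero_comp, comp_zero]

/-- `Hom(Q i, S[n]) = 0` for `n ≠ 3`.

PROOF. `Conv.cov K (Q i)`. `v0, …, v3`: `D.strong` and `Hom(Q, (X ⊞ Y)[n])`. `ex0`: `PP k` is a domain. `ex1`, `ex2`: write the components
of `x` as `D.m i _ _` (`Six.exists_m`), translate with `Six.m_comp`, `Six.m_add/sub`, `Six.m_injective` into the hypotheses of `ex1_cov`,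
`ex2_cov`, and back. -/
theorem Six.into_S (i : Fin 6) (n : ℤ) (hn : n ≠ 3) (x : Q i ⟶ K.S⟦n⟧) : x = 0 := by
  exact (SixCov_cov D K i).1 n hn x

/-- `Hom(Q i, S[3])` is spanned by `g i`: `Conv.cov` gives `x = y ≫ K.e ≫ K.gA` with `y = D.m i 5 p`; `co_cov` for `p`; the elements of
the image of `d2` go to `0` (`d2 ≫ K.e = K.i ≫ K.n ≫ K.e = 0`). -/
theorem Six.into_S3 (i : Fin 6) (x : Q i ⟶ K.S⟦(3 : ℤ)⟧) : ∃ c : k, x = c • D.g K i := by
  obtain ⟨y, hy⟩ := (SixCov_cov D K i).2.1 x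
  obtain ⟨p, hp, rfl⟩ := D.exists_m i 5 y
  obtain ⟨c, x1, hx1, x2, hx2, y', hy', e⟩ := co_cov k i p hp
  refine ⟨c, ?_⟩
  have e' : p = c • kap k i + (x1 * mu k + x2 * (la k * u1 k) + y' * u0 k) := by
    rw [e]
    ring
  have hm : x1 * mu k + x2 * (la k * u1 k) + y' * u0 k ∈ RX k (bdeg 5 - bdeg i) :=
    Submodule.add_mem _ (Submodule.add_mem _ (SixCov_mul k hx1 (mem_mu_35 k))
      (SixCov_mul k hx2 (mem_lau1_35 k))) (SixCov_mul k hy' (mem_u0_45 k))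
  rw [hy, e', D.m_add i 5 _ _ (Submodule.smul_mem _ c (kap_mem k i)) hm,
    D.m_smul i 5 c _ (kap_mem k i), ← SixCov_d2 D i x1 x2 y' hx1 hx2 hy', Preadditive.add_comp,
    Category.assoc, SixCov_zero D K, comp_zero, add_zero, Linear.smul_comp]
  rfl

/-- `Conv.cov` (last part) and `not_co_cov`. -/
theorem Six.g_ne_zero (i : Fin 6) (h2 : i ≠ 2) (h3 : i ≠ 3) : D.g K i ≠ 0 := by
  intro h
  obtain ⟨x, hx⟩ := (SixCov_cov D K i).2.2 (D.m i 5 (kap k i)) h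
  obtain ⟨x1, hx1, x2, hx2, y, hy, rfl⟩ := SixCov_e2 D i x
  have hm : x1 * mu k + x2 * (la k * u1 k) + y * u0 k ∈ RX k (bdeg 5 - bdeg i) :=
    Submodule.add_mem _ (Submodule.add_mem _ (SixCov_mul k hx1 (mem_mu_35 k))
      (SixCov_mul k hx2 (mem_lau1_35 k))) (SixCov_mul k hy (mem_u0_45 k))
  rw [SixCov_d2 D i x1 x2 y hx1 hx2 hy] at hx
  have h1 : D.m i 5 (kap k i - (x1 * mu k + x2 * (la k * u1 k) + y * u0 k)) = 0 := by
    rw [D.m_sub i 5 _ _ (kap_mem k i) hm, hx, sub_self]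
  have h4 := D.m_injective i 5 _ (Submodule.sub_mem _ (kap_mem k i) hm) h1
  exact not_co_cov k i h2 h3 x1 x2 y hx1 hx2 (sub_eq_zero.mp h4)

end BO
end
end

section

/-!
# TASK SixS1
-/

set_option autoImplicit false

noncomputable section

open CategoryTheory CategoryTheory.Limits CategoryTheory.Pretriangulated

namespace BO

universe w v u

variable {k : Type w} [Field k] {C : Type u} [Category.{v} C] [Preadditive C] [Linear k C]
  [HasZeroObject C] [HasShift C ℤ] [∀ n : ℤ, (shiftFunctor C n).Additive]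
  [∀ n : ℤ, Functor.Linear k (shiftFunctor C n)] [Pretriangulated C]
  {Q : Fin 6 → C}
  (D : Six k Q) (K : Conv D.d0 D.d1 D.d2)

/-- `Six.m_comp` (associativity), `kap'_mul_kap`; `kap' 5 = kap' j * kap j`. -/
theorem Six.f_g (i : Fin 6) (h2 : i ≠ 2) (h3 : i ≠ 3) : D.f K i ≫ D.g K i = D.sg K := by
  have h : D.m 0 i (kap' k i) ≫ D.m i 5 (kap k i) = D.m 0 5 (kap' k 5) := by
    rw [D.m_comp 0 i 5 _ _ (kap'_mem k i) (kap_mem k i), kap'_mul_kap k i h2 h3]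
    rfl
  unfold Six.sg Six.f Six.g
  rw [Category.assoc, ← Category.assoc (D.m 0 i (kap' k i)), h, Category.assoc]

private theorem Six.f_zero (i : Fin 6) (h : i = 2 ∨ i = 3) : D.f K i = 0 := by
  have h0 : kap' k i = 0 := by
    rcases h with rfl | rfl <;> rfl
  unfold Six.f
  rw [h0, D.m_zero, comp_zero]

private theorem Six.g_zero (i : Fin 6) (h : i = 2 ∨ i = 3) : D.g K i = 0 := by
  have h0 : kap k i = 0 := by
    rcases h with rfl | rfl <;> rfl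
  unfold Six.g
  rw [h0, D.m_zero, zero_comp]

private theorem Six.v_aux (i : Fin 6) (n : ℤ) (hn : n ≠ 0)
    (x : Q i ⟶ (K.S⟦(3 : ℤ)⟧)⟦n⟧) : x = 0 := by
  have h := D.into_S K i (3 + n) (by omega)
    (x ≫ ((shiftFunctorAdd' C (3 : ℤ) n (3 + n) rfl).inv.app K.S))
  have h2 : x = (x ≫ ((shiftFunctorAdd' C (3 : ℤ) n (3 + n) rfl).inv.app K.S)) ≫
      ((shiftFunctorAdd' C (3 : ℤ) n (3 + n) rfl).hom.app K.S) := by
    rw [Category.assoc, Iso.inv_hom_id_app]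
    exact (Category.comp_id x).symm
  rw [h2, h, zero_comp]

/-- The top class is not zero.

PROOF. `sg = K.f ≫ g 0` with `g 0 = D.m 0 5 (u₁z₀u₁) ≫ θ ≠ 0` (`Six.g_ne_zero`; `f 0 = K.f`, `Six.m_one`). If `K.f ≫ g 0 = 0` then by the last
part of `Conv.con k K S[3]` (hypotheses: `Six.into_S`, `Hom(Q i, S[3][n]) = 0` for `n ≠ 0`) `g 0 = d0 ≫ x` with `x : aF ⊞ (b ⊞ b) ⟶ S[3]`; the
components of `x` on `b` are `0` (`Six.into_S3`, `kap 2 = 0`) and on `aF` is `c • g 1`; so `g 0 = c • D.m 0 1 u₀ ≫ D.m 1 5 (z₀u₁) ≫ θ`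
`= c • D.m 0 5 (u₀z₀u₁) ≫ θ`, which is `0`: `u₀ (z₀u₁)` is in the image of `d2` (component `c`, `D.m 0 4 (z₀u₁) ≫ D.m 4 5 u₀`) and
`d2 ≫ K.e = 0`. -/
theorem Six.sg_ne_zero : D.sg K ≠ 0 := by
  intro hsg
  have hfg : K.f ≫ D.g K 0 = 0 := by
    have h1 : D.f K 0 ≫ D.g K 0 = D.sg K := D.f_g K 0 (by decide) (by decide)
    have h2 : D.f K 0 = K.f := by
      unfold Six.f
      have h3 : D.m 0 0 (kap' k 0) = 𝟙 (Q 0) := D.m_one 0
      rw [h3, Category.comp_id]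
    rw [← h2, h1, hsg]
  have hcon := (Conv.con k K (K.S⟦(3 : ℤ)⟧)
    (fun n hn x => D.v_aux K 0 n hn x)
    (fun n hn x => by
      apply biprod.hom_ext'
      · rw [D.v_aux K 1 n hn (biprod.inl ≫ x), comp_zero]
      · apply biprod.hom_ext'
        · rw [D.v_aux K 2 n hn (biprod.inl ≫ biprod.inr ≫ x)]; simp
        · rw [D.v_aux K 2 n hn (biprod.inr ≫ biprod.inr ≫ x)]; simp)
    (fun n hn x => by
      apply biprod.hom_ext'
      · apply biprod.hom_ext'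
        · rw [D.v_aux K 3 n hn (biprod.inl ≫ biprod.inl ≫ x)]; simp
        · rw [D.v_aux K 3 n hn (biprod.inr ≫ biprod.inl ≫ x)]; simp
      · rw [D.v_aux K 4 n hn (biprod.inr ≫ x), comp_zero])
    (fun n hn x => D.v_aux K 5 n hn x)).2.2.2.2.2
  obtain ⟨x, hx⟩ := hcon (D.g K 0) hfg
  obtain ⟨c, hc⟩ := D.into_S3 K 1 (biprod.inl ≫ x)
  have hb1 : biprod.inl ≫ biprod.inr ≫ x = 0 := by
    obtain ⟨c', hc'⟩ := D.into_S3 K 2 (biprod.inl ≫ biprod.inr ≫ x)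
    rw [hc', D.g_zero K 2 (Or.inl rfl), smul_zero]
  have hb2 : biprod.inr ≫ biprod.inr ≫ x = 0 := by
    obtain ⟨c', hc'⟩ := D.into_S3 K 2 (biprod.inr ≫ biprod.inr ≫ x)
    rw [hc', D.g_zero K 2 (Or.inl rfl), smul_zero]
  have hb : biprod.inr ≫ x = 0 := by
    apply biprod.hom_ext'
    · rw [hb1, comp_zero]
    · rw [hb2, comp_zero]
  have hxx : x = biprod.fst ≫ (c • D.g K 1) := by
    apply biprod.hom_ext'
    · rw [hc, biprod.inl_fst_assoc]
    · rw [hb, biprod.inr_fst_assoc, zero_comp]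
  have h2e : D.d2 ≫ K.e = 0 := by
    have h3 : K.n ≫ K.e = 0 := comp_distTriang_mor_zero₁₂ _ K.tri2
    have h5 : (K.i ≫ K.n) ≫ K.e = 0 := by
      rw [Category.assoc, h3, comp_zero]
    have h6 : D.d2 ≫ K.e = (K.i ≫ K.n) ≫ K.e := congrArg (fun t => t ≫ K.e) K.hn.symm
    rw [h6, h5]
  have h45 : D.m 4 5 (u0 k) ≫ D.th K = 0 := by
    have h4 : D.m 4 5 (u0 k) = biprod.inr ≫ D.d2 := by
      unfold Six.d2
      rw [biprod.inr_desc]
    unfold Six.th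
    rw [h4, Category.assoc, ← Category.assoc D.d2, h2e, zero_comp, comp_zero]
  have hprod : D.m 0 1 (u0 k) ≫ D.m 1 5 (kap k 1) = D.m 0 4 (kap' k 4) ≫ D.m 4 5 (u0 k) := by
    rw [D.m_comp 0 1 5 _ _ (mem_u0_01 k) (kap_mem k 1),
      D.m_comp 0 4 5 _ _ (kap'_mem k 4) (mem_u0_45 k)]
    congr 1
    have e1 : kap k 1 = z0 k * u1 k := rfl
    have e2 : kap' k 4 = u1 k * z0 k := rfl
    rw [e1, e2]
    ring
  have hg0 : D.g K 0 = 0 := by
    rw [hx, hxx]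
    unfold Six.d0
    rw [biprod.lift_fst_assoc, Linear.comp_smul]
    unfold Six.g
    rw [← Category.assoc, hprod, Category.assoc, h45, comp_zero, smul_zero]
  exact D.g_ne_zero K 0 (by decide) (by decide) hg0

/-- `b, bF` are orthogonal to `S`: `Six.from_S`, `Six.from_S0`, `kap' 2 = kap' 3 = 0`. -/
theorem Six.orth_left (i : Fin 6) (h : i = 2 ∨ i = 3) (n : ℤ) (x : K.S ⟶ (Q i)⟦n⟧) : x = 0 := by
  by_cases hn : n = 0
  · subst hn
    obtain ⟨c, hc⟩ := D.from_S0 K i (x ≫ (shiftFunctorZero C ℤ).hom.app (Q i))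
    rw [D.f_zero K i h, smul_zero] at hc
    have h2 : x = (x ≫ (shiftFunctorZero C ℤ).hom.app (Q i)) ≫
        (shiftFunctorZero C ℤ).inv.app (Q i) := by
      rw [Category.assoc, Iso.hom_inv_id_app]
      exact (Category.comp_id x).symm
    rw [h2, hc, zero_comp]
  · exact D.from_S K i n hn x

theorem Six.orth_right (i : Fin 6) (h : i = 2 ∨ i = 3) (n : ℤ) (x : Q i ⟶ K.S⟦n⟧) : x = 0 := by
  by_cases hn : n = 3
  · subst hn
    obtain ⟨c, hc⟩ := D.into_S3 K i x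
    rw [hc, D.g_zero K i h, smul_zero]
  · exact D.into_S K i n hn x

end BO
end
end

section

/-!
# TASK SixS2
-/

set_option autoImplicit false

noncomputable section

open CategoryTheory CategoryTheory.Limits CategoryTheory.Pretriangulated

namespace BO

universe w v u

variable {k : Type w} [Field k] {C : Type u} [Category.{v} C] [Preadditive C] [Linear k C]
  [HasZeroObject C] [HasShift C ℤ] [∀ n : ℤ, (shiftFunctor C n).Additive]
  [∀ n : ℤ, Functor.Linear k (shiftFunctor C n)] [Pretriangulated C]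
  {Q : Fin 6 → C}
  (D : Six k Q) (K : Conv D.d0 D.d1 D.d2)

/-- `S` is spherical.

PROOF. `Conv.con k K (S[3])`: `Hom(X_p, S[3][n]) = 0` for `n ≠ 0` (`Six.into_S`). (a) `Hom(S,S[n]) ≃ Hom(S,S[3][n-3])`; it vanishes for
`n ≠ 0, 1, 2, 3`. (b) `n = 2` (`Z[-1]`): `x : aF ⊞ (b ⊞ b) → S[3]` is `c • g 1` on `aF`, zero on `b`'s; it is `d1 ≫ y` with `y` zero on the `bF`'s
and `-c • g 4` on `c` (`-z₀` times `u₁θ`). (c) `n = 1` (`Z[-2]`): `y : (bF ⊞ bF) ⊞ c → S[3]` is `c • g 4` on `c`, zero on the `bF`'s; `d1 ≫ y = 0`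
on `aF` gives `c • g 1 = 0`, `c = 0` (`Six.g_ne_zero`), so `y = 0`. (d) `n = 3`: `x = K.f ≫ y`, `y = c • g 0`, so `x = c • sg`.
(e) `n = 0`: `Hom(S,S) ≃ Hom(S,S[3][-3])` embeds `k`-linearly into `Hom(cF,S[3]) = k • g 5`; so two elements of `Hom(S,S)` are linearly
dependent, and `𝟙 ≠ 0` (`sg ≠ 0`); hence every `h` is a multiple of `𝟙`. -/
theorem Six.spherical : Spherical k K.S (D.sg K) := by
  have z2 : ∀ x : Q 2 ⟶ K.S⟦(3 : ℤ)⟧, x = 0 := by
    intro x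
    obtain ⟨c, hc⟩ := D.into_S3 K 2 x
    have hg : D.g K 2 = 0 := by
      unfold Six.g
      have hk : kap k 2 = 0 := rfl
      rw [hk, D.m_zero, zero_comp]
    rw [hc, hg, smul_zero]
  have z3 : ∀ x : Q 3 ⟶ K.S⟦(3 : ℤ)⟧, x = 0 := by
    intro x
    obtain ⟨c, hc⟩ := D.into_S3 K 3 x
    have hg : D.g K 3 = 0 := by
      unfold Six.g
      have hk : kap k 3 = 0 := rfl
      rw [hk, D.m_zero, zero_comp]
    rw [hc, hg, smul_zero]
  have vQ : ∀ (i : Fin 6) (n : ℤ), n ≠ 0 → ∀ x : Q i ⟶ (K.S⟦(3 : ℤ)⟧)⟦n⟧, x = 0 := by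
    intro i n hn x
    have h1 : x ≫ (shiftFunctorAdd' C (3 : ℤ) n (3 + n) rfl).inv.app K.S = 0 :=
      D.into_S K i (3 + n) (by omega) _
    have h2 : x = (x ≫ (shiftFunctorAdd' C (3 : ℤ) n (3 + n) rfl).inv.app K.S) ≫
        (shiftFunctorAdd' C (3 : ℤ) n (3 + n) rfl).hom.app K.S := by
      rw [Category.assoc, Iso.inv_hom_id_app]
      exact (Category.comp_id x).symm
    rw [h2, h1, zero_comp]
  have vB : ∀ (X Y : C) (Z : C), (∀ x : X ⟶ Z, x = 0) → (∀ x : Y ⟶ Z, x = 0) →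
      ∀ x : X ⊞ Y ⟶ Z, x = 0 := by
    intro X Y Z hX hY x
    apply biprod.hom_ext'
    · rw [comp_zero]
      exact hX _
    · rw [comp_zero]
      exact hY _
  obtain ⟨c1, c2, c3, ⟨L, hL, _⟩, c5, c6⟩ := Conv.con k K (K.S⟦(3 : ℤ)⟧) (vQ 0)
    (fun n hn => vB _ _ _ (vQ 1 n hn) (vB _ _ _ (vQ 2 n hn) (vQ 2 n hn)))
    (fun n hn => vB _ _ _ (vB _ _ _ (vQ 3 n hn) (vQ 3 n hn)) (vQ 4 n hn)) (vQ 5)
  have hg1 : D.m 1 4 (z0 k) ≫ D.g K 4 = D.g K 1 := by
    have hk4 : kap k 4 = u1 k := rfl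
    have hk1 : kap k 1 = z0 k * u1 k := rfl
    unfold Six.g
    rw [hk4, hk1, ← Category.assoc, D.m_comp 1 4 5 _ _ (mem_z0_14 k) (mem_u1_45 k)]
  have hf0 : D.f K 0 = K.f := by
    have hk0 : kap' k 0 = 1 := rfl
    unfold Six.f
    rw [hk0, D.m_one, Category.comp_id]
  refine ⟨D.sg_ne_zero K, ?_, ?_, ?_⟩
  · intro h
    have hL' : ∀ a : K.S ⟶ K.S, a ≫ (shiftFunctorCompIsoId C (3 : ℤ) (-3) (by norm_num)).inv.app
        K.S = 0 → a = 0 := by
      intro a ha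
      have h2 : a = (a ≫ (shiftFunctorCompIsoId C (3 : ℤ) (-3) (by norm_num)).inv.app K.S) ≫
          (shiftFunctorCompIsoId C (3 : ℤ) (-3) (by norm_num)).hom.app K.S := by
        rw [Category.assoc, Iso.inv_hom_id_app]
        exact (Category.comp_id a).symm
      rw [h2, ha, zero_comp]
    obtain ⟨c, hc⟩ := D.into_S3 K 5
      (L (h ≫ (shiftFunctorCompIsoId C (3 : ℤ) (-3) (by norm_num)).inv.app K.S))
    obtain ⟨c', hc'⟩ := D.into_S3 K 5
      (L (𝟙 K.S ≫ (shiftFunctorCompIsoId C (3 : ℤ) (-3) (by norm_num)).inv.app K.S))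
    have h0 : c' ≠ 0 := by
      intro h0
      rw [h0, zero_smul] at hc'
      have h1 : (𝟙 K.S ≫ (shiftFunctorCompIsoId C (3 : ℤ) (-3) (by norm_num)).inv.app K.S) =
          0 := hL (by rw [hc', map_zero])
      have h2 := hL' _ h1
      apply D.sg_ne_zero K
      rw [← Category.id_comp (D.sg K), h2, zero_comp]
    refine ⟨c / c', ?_⟩
    rw [← sub_eq_zero]
    apply hL'
    apply hL
    rw [Preadditive.sub_comp, Linear.smul_comp, map_sub, map_smul, hc, hc', smul_smul,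
      div_mul_cancel₀ _ h0, sub_self, map_zero]
  · intro h
    obtain ⟨y, hy⟩ := c5 h
    obtain ⟨c, hc⟩ := D.into_S3 K 0 y
    refine ⟨c, ?_⟩
    rw [hy, hc, Linear.comp_smul, ← D.f_g K 0 (by decide) (by decide), hf0]
  · intro n hn0 hn3 h
    suffices hs : h ≫ (shiftFunctorAdd' C (3 : ℤ) (n - 3) n (by omega)).hom.app K.S = 0 by
      have h2 : h = (h ≫ (shiftFunctorAdd' C (3 : ℤ) (n - 3) n (by omega)).hom.app K.S) ≫
          (shiftFunctorAdd' C (3 : ℤ) (n - 3) n (by omega)).inv.app K.S := by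
        rw [Category.assoc, Iso.hom_inv_id_app]
        exact (Category.comp_id h).symm
      rw [h2, hs, zero_comp]
    by_cases hn2 : n = 2
    · subst hn2
      refine c2 (fun x hx => ?_) _
      obtain ⟨c, hc⟩ := D.into_S3 K 1 (biprod.inl ≫ x)
      refine ⟨biprod.desc 0 (-(c • D.g K 4)), ?_⟩
      apply biprod.hom_ext'
      · rw [hc]
        unfold Six.d1
        rw [biprod.inl_desc_assoc, biprod.lift_desc, comp_zero, zero_add, Preadditive.neg_comp,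
          Preadditive.comp_neg, neg_neg, Linear.comp_smul, hg1]
      · apply biprod.hom_ext'
        · exact (z2 _).trans (z2 _).symm
        · exact (z2 _).trans (z2 _).symm
    · by_cases hn1 : n = 1
      · subst hn1
        refine c3 (fun x hx => ?_) _
        obtain ⟨c, hc⟩ := D.into_S3 K 4 (biprod.inr ≫ x)
        have hx0 : biprod.inl ≫ x = 0 := by
          apply biprod.hom_ext'
          · exact (z3 _).trans (z3 _).symm
          · exact (z3 _).trans (z3 _).symm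
        have hxd : x = biprod.desc 0 (c • D.g K 4) := by
          apply biprod.hom_ext'
          · rw [hx0, biprod.inl_desc]
          · rw [hc, biprod.inr_desc]
        have h1 : biprod.inl ≫ D.d1 ≫ x = 0 := by rw [hx, comp_zero]
        rw [hxd] at h1
        unfold Six.d1 at h1
        rw [biprod.inl_desc_assoc, biprod.lift_desc, comp_zero, zero_add, Preadditive.neg_comp,
          Linear.comp_smul, hg1, neg_eq_zero] at h1
        have hc0 : c = 0 := (smul_eq_zero.mp h1).resolve_right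
          (D.g_ne_zero K 1 (by decide) (by decide))
        refine ⟨0, ?_⟩
        rw [hxd, hc0, zero_smul, comp_zero]
        apply biprod.hom_ext'
        · rw [comp_zero, biprod.inl_desc]
        · rw [comp_zero, biprod.inr_desc]
      · exact c1 (n - 3) (by omega) (by omega) (by omega) (by omega) _

/-- `a, aF, c, cF` are type one objects: `Six.f_g`, `Six.from_S`, `Six.from_S0`, `Six.into_S`, `Six.into_S3`. -/
theorem Six.typeOne (i : Fin 6) (h2 : i ≠ 2) (h3 : i ≠ 3) :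
    TypeOne k (D.sg K) (D.f K i) (D.g K i) :=
  ⟨D.f_g K i h2 h3, D.from_S0 K i, D.from_S K i, D.into_S3 K i, D.into_S K i⟩

end BO
end
end

section

end

section

/-!
# The hypotheses of the abstract theorem
-/

set_option autoImplicit false

noncomputable section

open CategoryTheory CategoryTheory.Limits CategoryTheory.Pretriangulated

namespace BO

universe w v u

/-- The subgroup `{±t^(dn)}` of `kˣ`. -/
def GG {k : Type w} [Field k] (t : kˣ) (d : ℤ) : Subgroup kˣ where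
  carrier := {x | ∃ n : ℤ, x ^ 2 = t ^ (2 * (d * n))}
  mul_mem' := by
    rintro x y ⟨n, hn⟩ ⟨m, hm⟩
    exact ⟨n + m, by rw [mul_pow, hn, hm, ← zpow_add]; ring_nf⟩
  one_mem' := ⟨0, by simp⟩
  inv_mem' := by
    rintro x ⟨n, hn⟩
    exact ⟨-n, by rw [inv_pow, hn, ← zpow_neg]; ring_nf⟩

/-- The last six of 24 indices. -/
def ix (j : Fin 6) : Fin 24 := ⟨18 + j.1, by omega⟩

variable (k : Type w) [Field k] {C : Type u} [Category.{v} C] [Preadditive C] [Linear k C]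
  [HasZeroObject C] [HasShift C ℤ] [∀ n : ℤ, (shiftFunctor C n).Additive]
  [∀ n : ℤ, Functor.Linear k (shiftFunctor C n)] [Pretriangulated C]
  (σ : C ⥤ C) [σ.CommShift ℤ] [σ.Additive] [σ.Linear k] [σ.Full] [σ.Faithful]

/-- The hypotheses of the abstract theorem: a full exceptional system of 24 `σ`-invariant objects
with finite total Homs, the last six of which have the Homs of the ring `R'`, with the torus
action; the determinants of the equivariant Euler form are `±1`; some Euler numbers. -/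
structure Setup where
  s : ExcSystem k C 24
  fin : ∀ i j, ExtFin k (s.obj i) (s.obj j)
  D : Six k (fun j => s.obj (ix j))
  φ : ∀ i, s.obj i ≅ σ.obj (s.obj i)
  t : kˣ
  ht : ∀ n : ℤ, t ^ n = 1 → n = 0
  equiv : ∀ i j (p : PP k), p ∈ RX k (bdeg j - bdeg i) →
    D.m i j (sig k t p) ≫ (φ (ix j)).hom = (φ (ix i)).hom ≫ σ.map (D.m i j p)
  sq : ∀ i j, (2 : ℤ) • (chi k σ ⟨s.obj i, φ i⟩ ⟨s.obj j, φ j⟩).2 = 0
  num12_13 : (chi k σ ⟨s.obj 12, φ 12⟩ ⟨s.obj 13, φ 13⟩).1 = 2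
  num12 : ∀ j : Fin 6, (chi k σ ⟨s.obj 12, φ 12⟩ ⟨s.obj (ix j), φ (ix j)⟩).1 =
    ![0, 0, 7, 9, 12, 15] j
  num13 : ∀ j : Fin 6, (chi k σ ⟨s.obj 13, φ 13⟩ ⟨s.obj (ix j), φ (ix j)⟩).1 =
    ![0, 0, 5, 7, 9, 12] j

end BO
end
end
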