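import Pool.Agent.Lib.MP_bd3808_ag.Mg.G001
import Pool.Agent.Lib.MP_bd3808_ag.Mg.G010

section

/-!
# TASK D7: bases of the total Hom

PROOF. `Hom(E[n],F) ≅ Hom(E,F[-n])` (`k`-linear, `shiftFunctor` is an equivalence; cf. `FinAll_shL` in `BO/FinAll.lean`), so `Hom(E[n],F)` is finite-dimensional for all `n`
and zero for `n` outside of a finite set `s`. `ι := Σ n : s, Fin (finrank (E⟦n⟧ ⟶ F))`, `deg ⟨n,i⟩ = n`, `ev ⟨n,i⟩ = Module.finBasis k _ i`; `basis n`: for `n ∈ s` the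
subtype `{x // deg x = n}` is `Fin (finrank …)` and the sum is the expansion in the basis (`eqToHom_refl`); for `n ∉ s` both sides are zero (one element each).
(One may first prove it for an arbitrary family of bases indexed by `ℤ`; `ι` must be in `Type`.)
-/

set_option autoImplicit false

noncomputable section

open CategoryTheory CategoryTheory.Limits CategoryTheory.Pretriangulated CategoryTheory.Abelian

namespace MPbd3808.BR

universe w v u

variable (k : Type w) [Field k] {C : Type u} [Category.{v} C] [Preadditive C] [Linear k C]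
  [HasZeroObject C] [HasShift C ℤ] [∀ n : ℤ, (shiftFunctor C n).Additive]
  [∀ n : ℤ, Functor.Linear k (shiftFunctor C n)] [Pretriangulated C]

private theorem D7_bij {ι ι' V : Type*} [Fintype ι] [Fintype ι'] [AddCommGroup V] [Module k V]
    (b : Module.Basis ι' k V) (e : ι' ≃ ι) (v : ι → V) (hv : ∀ j, v (e j) = b j) :
    Function.Bijective fun c : ι → k => ∑ i, c i • v i := by
  have h1 : (fun c : ι → k => ∑ i, c i • v i) = (b.reindex e).equivFun.symm := by
    funext c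
    rw [Module.Basis.equivFun_symm_apply]
    refine Finset.sum_congr rfl fun i _ => ?_
    rw [Module.Basis.reindex_apply, ← hv, Equiv.apply_symm_apply]
  rw [h1]
  exact (b.reindex e).equivFun.symm.bijective

theorem exists_homBasis (E F : C) (h : BO.ExtFin k E F) : Nonempty (BO.HomBasis k E F) := by
  have hinj : ∀ n : ℤ, ∃ φ : (E⟦n⟧ ⟶ F) →ₗ[k] (E ⟶ F⟦-n⟧), Function.Injective φ := by
    intro n
    refine ⟨(Linear.leftComp k _ ((shiftFunctorCompIsoId C n (-n) (by simp)).inv.app E)).comp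
        ((shiftFunctor C (-n)).mapLinearMap k (X := E⟦n⟧) (Y := F)), ?_⟩
    intro f g hfg
    apply (shiftFunctor C (-n)).map_injective
    have h2 : (shiftFunctorCompIsoId C n (-n) (by simp)).inv.app E ≫ (shiftFunctor C (-n)).map f =
      (shiftFunctorCompIsoId C n (-n) (by simp)).inv.app E ≫ (shiftFunctor C (-n)).map g := hfg
    exact (cancel_epi _).1 h2
  have hfin : ∀ n : ℤ, Module.Finite k (E⟦n⟧ ⟶ F) := by
    intro n
    obtain ⟨φ, hφ⟩ := hinj n
    have := h.1 (-n)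
    exact Module.Finite.of_injective φ hφ
  have hsupp : {n : ℤ | Nontrivial (E⟦n⟧ ⟶ F)}.Finite := by
    refine (h.2.preimage (neg_injective (G := ℤ)).injOn).subset ?_
    intro n hn
    obtain ⟨φ, hφ⟩ := hinj n
    have : Nontrivial (E⟦n⟧ ⟶ F) := hn
    exact hφ.nontrivial
  obtain ⟨s, hs⟩ : ∃ s : Finset ℤ, ∀ n, n ∈ s ↔ Nontrivial (E⟦n⟧ ⟶ F) :=
    ⟨hsupp.toFinset, fun n => by rw [Set.Finite.mem_toFinset]; rfl⟩
  refine ⟨{ ι := Σ n : s, Fin (Module.finrank k (E⟦(n : ℤ)⟧ ⟶ F))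
            fin := inferInstance
            deg := fun x => x.1.1
            ev := fun x => Module.finBasis k (E⟦(x.1 : ℤ)⟧ ⟶ F) x.2
            basis := ?_ }⟩
  intro n
  by_cases hn : n ∈ s
  · refine D7_bij k (Module.finBasis k (E⟦n⟧ ⟶ F))
      (⟨fun j => ⟨⟨⟨n, hn⟩, j⟩, rfl⟩, fun i => Fin.cast (by
          obtain ⟨i, hi⟩ := i
          exact congrArg (fun m : ℤ => Module.finrank k (E⟦m⟧ ⟶ F)) hi) i.1.2, ?_, ?_⟩ :
        Fin (Module.finrank k (E⟦n⟧ ⟶ F)) ≃
          {i : (Σ n : s, Fin (Module.finrank k (E⟦(n : ℤ)⟧ ⟶ F))) // i.1.1 = n}) _ ?_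
    · intro j
      rfl
    · rintro ⟨⟨⟨m, hm⟩, j⟩, hj⟩
      have hj' : m = n := hj
      subst hj'
      rfl
    · intro j
      exact (congrArg (· ≫ Module.finBasis k (E⟦n⟧ ⟶ F) j) (eqToHom_refl _ _)).trans
        (Category.id_comp _)
  · have h1 : IsEmpty {i : (Σ n : s, Fin (Module.finrank k (E⟦(n : ℤ)⟧ ⟶ F))) // i.1.1 = n} := by
      refine ⟨?_⟩
      rintro ⟨⟨⟨m, hm⟩, j⟩, hj⟩
      have hj' : m = n := hj
      subst hj'
      exact hn hm
    have h2 : Subsingleton (E⟦n⟧ ⟶ F) := not_nontrivial_iff_subsingleton.1 fun h3 => hn ((hs n).2 h3)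
    refine ⟨fun c c' _ => Subsingleton.elim _ _, fun f => ⟨fun _ => 0, Subsingleton.elim _ _⟩⟩

end MPbd3808.BR
end
end

section

/-!
# TASK E1: the torus action on the function field

`scl t : x^e ↦ t^(wt e) x^e` on `A k`. `exists_SK`: let `g : R8 k →ₐ[k] R8 k` be `X i ↦ t^(w8 i) X i` (`MvPolynomial.aeval`); it is injective
(the same with `t⁻¹` is a left inverse, `MvPolynomial.algHom_ext`), so `algebraMap ∘ g : R8 k → KK k` is injective and extends to the
field of fractions (`IsFractionRing.liftAlgHom` or `IsLocalization.lift`).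
`SK_Phi`: both sides are algebra homomorphisms from `A k`, it suffices to check monomials (`AddMonoidAlgebra.algHom_ext`):
`Phi (mon e) = ∏ vv_v^(e v)` (`Phi_mon`) and `S (vv_v) = t^(wv v) • vv_v` for the ten variables (`rz0`: weight 3, `rz1`: 1, `rz2`: -1, `rz3`: -3).
`SK_iP`: `MvPolynomial.algHom_ext`, `BO.wt i = w8 (i + 2)`.
-/

set_option autoImplicit false

noncomputable section

open CategoryTheory CategoryTheory.Limits

namespace MPbd3808.BR.SX

universe u v w

/-- The weights of the variables of `R8 k`. -/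
def w8 : Fin 8 → ℤ := ![1,-1,-2,2,0,0,1,-1]

variable {k : Type u} [Field k]

/-- The action of `t` on Laurent polynomials in the Cox variables. -/
def scl (t : kˣ) : A k →ₐ[k] A k :=
  AddMonoidAlgebra.lift k (A k) Ex
    { toFun := fun e => ((t ^ wt e.toAdd : kˣ) : k) • (mon e.toAdd : A k)
      map_one' := by
        rw [toAdd_one, wt_zero, zpow_zero, Units.val_one, one_smul]
        rfl
      map_mul' := fun e e' => by
        rw [toAdd_mul, wt_add, zpow_add, Units.val_mul, mon, mon, mon, smul_mul_smul_comm,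
          AddMonoidAlgebra.single_mul_single, one_mul] }

theorem scl_mon (t : kˣ) (e : Ex) : scl t (mon e) = ((t ^ wt e : kˣ) : k) • (mon e : A k) := by
  unfold scl
  rw [mon, AddMonoidAlgebra.lift_single, one_smul]
  rfl

/-- The action of `t` on the polynomial ring. -/
private def e1g (t : kˣ) : R8 k →ₐ[k] R8 k :=
  MvPolynomial.aeval fun i => ((t ^ w8 i : kˣ) : k) • (MvPolynomial.X i : R8 k)

private theorem e1g_X (t : kˣ) (i : Fin 8) :
    e1g t (xx k i) = ((t ^ w8 i : kˣ) : k) • xx k i := by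
  unfold e1g xx
  rw [MvPolynomial.aeval_X]

private theorem e1g_inj (t : kˣ) : Function.Injective (e1g (k := k) t) := by
  have h : (e1g (k := k) t⁻¹).comp (e1g t) = AlgHom.id k (R8 k) := by
    apply MvPolynomial.algHom_ext
    intro i
    have h1 : (e1g (k := k) t⁻¹) ((e1g t) (xx k i)) = xx k i := by
      rw [e1g_X, map_smul, e1g_X, smul_smul, ← Units.val_mul, inv_zpow, mul_inv_cancel,
        Units.val_one, one_smul]
    exact h1
  intro x y hxy
  have h1 := congrArg (e1g (k := k) t⁻¹) hxy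
  have h2 := DFunLike.congr_fun h x
  have h3 := DFunLike.congr_fun h y
  rw [AlgHom.comp_apply, AlgHom.id_apply] at h2 h3
  rw [h2, h3] at h1
  exact h1

theorem exists_SK (t : kˣ) : ∃ S : KK k →ₐ[k] KK k, ∀ i, S (algebraMap (R8 k) (KK k) (xx k i)) =
    ((t ^ w8 i : kˣ) : k) • algebraMap (R8 k) (KK k) (xx k i) := by
  have hinj : Function.Injective
      ((IsScalarTower.toAlgHom k (R8 k) (KK k)).comp (e1g (k := k) t)) := by
    intro x y hxy
    exact e1g_inj t (IsFractionRing.injective (R8 k) (KK k) hxy)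
  refine ⟨IsFractionRing.liftAlgHom hinj, fun i => ?_⟩
  rw [IsFractionRing.liftAlgHom_apply]
  refine (IsFractionRing.lift_algebraMap (K := KK k)
    (g := (((IsScalarTower.toAlgHom k (R8 k) (KK k)).comp (e1g (k := k) t) : R8 k →ₐ[k] KK k) :
      R8 k →+* KK k)) hinj (xx k i)).trans ?_
  change (IsScalarTower.toAlgHom k (R8 k) (KK k)) (e1g t (xx k i)) = _
  rw [e1g_X, map_smul]
  rfl

/-- The action of `t` on the function field. -/
def SK (t : kˣ) : KK k →ₐ[k] KK k := (exists_SK t).choose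

theorem SK_xx (t : kˣ) (i : Fin 8) : SK t (algebraMap (R8 k) (KK k) (xx k i)) =
    ((t ^ w8 i : kˣ) : k) • algebraMap (R8 k) (KK k) (xx k i) := (exists_SK t).choose_spec i

/-- `p` has weight `n`. -/
private def e1w (t : kˣ) (n : ℤ) (p : R8 k) : Prop :=
  SK t (algebraMap (R8 k) (KK k) p) = ((t ^ n : kˣ) : k) • algebraMap (R8 k) (KK k) p

private theorem e1w_xx (t : kˣ) (i : Fin 8) : e1w t (w8 i) (xx k i) := SK_xx t i

private theorem e1w_mul {t : kˣ} {m n l : ℤ} {p q : R8 k} (hp : e1w t m p) (hq : e1w t n q)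
    (h : m + n = l) : e1w t l (p * q) := by
  unfold e1w at *
  rw [map_mul, map_mul, hp, hq, smul_mul_smul_comm, ← Units.val_mul, ← zpow_add, h]

private theorem e1w_add {t : kˣ} {m : ℤ} {p q : R8 k} (hp : e1w t m p) (hq : e1w t m q) :
    e1w t m (p + q) := by
  unfold e1w at *
  rw [map_add, map_add, hp, hq, smul_add]

private theorem e1w_rw1 (t : kˣ) : e1w t 1 (rw1 k) :=
  e1w_mul (e1w_mul (e1w_xx t 2) (e1w_xx t 3) (l := 0) (by decide)) (e1w_xx t 6) (by decide)

private theorem e1w_rw2 (t : kˣ) : e1w t (-1) (rw2 k) :=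
  e1w_mul (e1w_mul (e1w_xx t 2) (e1w_xx t 3) (l := 0) (by decide)) (e1w_xx t 7) (by decide)

private theorem e1w_rz0 (t : kˣ) : e1w t 3 (rz0 k) :=
  e1w_mul (e1w_xx t 3) (e1w_add (m := 1) (e1w_mul (e1w_xx t 5) (e1w_xx t 6) (by decide))
    (e1w_mul (e1w_mul (e1w_xx t 4) (e1w_xx t 3) (l := 2) (by decide)) (e1w_xx t 7) (by decide)))
    (by decide)

private theorem e1w_rz1 (t : kˣ) : e1w t 1 (rz1 k) :=
  e1w_mul (e1w_xx t 4) (e1w_rw1 t) (by decide)

private theorem e1w_rz2 (t : kˣ) : e1w t (-1) (rz2 k) :=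
  e1w_mul (e1w_xx t 4) (e1w_rw2 t) (by decide)

private theorem e1w_rz3 (t : kˣ) : e1w t (-3) (rz3 k) :=
  e1w_mul (e1w_xx t 2) (e1w_add (m := -1) (e1w_mul (e1w_xx t 5) (e1w_xx t 7) (by decide))
    (e1w_mul (e1w_mul (e1w_xx t 4) (e1w_xx t 2) (l := -2) (by decide)) (e1w_xx t 6) (by decide)))
    (by decide)

private theorem e1w_vv (t : kˣ) (v : Vr) : e1w t (wv v) (vvK k v) := by
  fin_cases v
  exacts [e1w_xx t 0, e1w_xx t 1, e1w_xx t 2, e1w_xx t 3, e1w_xx t 4, e1w_xx t 5, e1w_rz0 t,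
    e1w_rz1 t, e1w_rz2 t, e1w_rz3 t]

private theorem e1_unit (t : kˣ) (v : Vr) :
    Units.map ((SK t : KK k →ₐ[k] KK k) : KK k →* KK k) (toU (vvK k v) (vvK_ne k v)) =
      Units.map ((algebraMap k (KK k) : k →+* KK k) : k →* KK k) (t ^ wv v) *
        toU (vvK k v) (vvK_ne k v) := by
  ext
  have h := e1w_vv (k := k) t v
  unfold e1w at h
  rw [Algebra.smul_def] at h
  exact h

theorem SK_Phi (t : kˣ) (p : A k) : SK t (Phi k p) = Phi k (scl t p) := by
  have h : (SK t).comp (Phi k) = (Phi k).comp (scl t) := by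
    refine AddMonoidAlgebra.algHom_ext (fun e => ?_) (by ext)
    change SK t (Phi k (mon e)) = Phi k (scl t (mon e))
    rw [scl_mon, map_smul, Phi_mon]
    have h1 : SK t ((∏ v, toU (vvK k v) (vvK_ne k v) ^ (e v) : (KK k)ˣ) : KK k) =
        ((Units.map ((SK t : KK k →ₐ[k] KK k) : KK k →* KK k)
          (∏ v, toU (vvK k v) (vvK_ne k v) ^ (e v)) : (KK k)ˣ) : KK k) := rfl
    rw [h1, map_prod]
    have h2 : ∀ v : Vr, Units.map ((SK t : KK k →ₐ[k] KK k) : KK k →* KK k)
        (toU (vvK k v) (vvK_ne k v) ^ (e v)) =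
        Units.map ((algebraMap k (KK k) : k →+* KK k) : k →* KK k) (t ^ (wv v * e v)) *
          toU (vvK k v) (vvK_ne k v) ^ (e v) := by
      intro v
      rw [map_zpow, e1_unit, mul_zpow, ← map_zpow, zpow_mul]
    rw [Finset.prod_congr rfl fun v _ => h2 v, Finset.prod_mul_distrib, ← map_prod,
      Units.val_mul, Algebra.smul_def]
    have h3 : (∏ v, t ^ (wv v * e v)) = t ^ wt e := by
      unfold wt
      have h4 : ∀ s : Finset Vr, ∏ v ∈ s, t ^ (wv v * e v) = t ^ (∑ v ∈ s, wv v * e v) := by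
        intro s
        induction s using Finset.cons_induction with
        | empty => simp
        | cons a s ha ih => rw [Finset.prod_cons, Finset.sum_cons, ih, zpow_add]
      exact h4 _
    rw [h3]
    rfl
  exact DFunLike.congr_fun h p

theorem SK_iP (t : kˣ) (x : BO.PP k) : SK t (iP k x) = iP k (BO.sig k t x) := by
  have h : (SK t).comp (iP k) = (iP k).comp (BO.sig k t) := by
    apply MvPolynomial.algHom_ext
    intro i
    have e1 : iP k (MvPolynomial.X i) = algebraMap (R8 k) (KK k) (xx k ⟨i.1 + 2, by omega⟩) := by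
      unfold iP
      rw [AlgHom.comp_apply, MvPolynomial.rename_X]
      rfl
    have e2 : BO.sig k t (MvPolynomial.X i) = ((t ^ BO.wt i : kˣ) : k) • MvPolynomial.X i := by
      unfold BO.sig
      rw [MvPolynomial.aeval_X, MvPolynomial.smul_eq_C_mul]
    rw [AlgHom.comp_apply, AlgHom.comp_apply, e1, e2, SK_xx, map_smul, e1]
    have e3 : w8 ⟨i.1 + 2, by omega⟩ = BO.wt i := by
      fin_cases i <;> rfl
    rw [e3]
  exact DFunLike.congr_fun h x

theorem SK_SK (t s : kˣ) (h : t * s = 1) (x : BO.PP k) : SK s (SK t (iP k x)) = iP k x := by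
  have h : (BO.sig k s).comp (BO.sig k t) = AlgHom.id k (BO.PP k) := by
    apply MvPolynomial.algHom_ext
    intro i
    have e2 : ∀ r : kˣ, BO.sig k r (MvPolynomial.X i) =
        ((r ^ BO.wt i : kˣ) : k) • (MvPolynomial.X i : BO.PP k) := by
      intro r
      unfold BO.sig
      rw [MvPolynomial.aeval_X, MvPolynomial.smul_eq_C_mul]
    rw [AlgHom.comp_apply, e2, map_smul, e2, smul_smul, ← Units.val_mul, ← mul_zpow, h, one_zpow,
      Units.val_one, one_smul]
    rfl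
  rw [SK_iP, SK_iP]
  exact congrArg (iP k) (DFunLike.congr_fun h x)

end MPbd3808.BR.SX
end
end

section

/-!
# MP_bd3808_ag, campaign BR: the isomorphisms of the sheaves `QQ G b` with their twists by `t`
-/

set_option autoImplicit false

noncomputable section

open CategoryTheory CategoryTheory.Limits

namespace MPbd3808.BR.SX

universe u

variable {k : Type u} [Field k]

theorem scl_coeff (t : kˣ) (p : A k) (e : Ex) :
    (scl t p).coeff e = ((t ^ wt e : kˣ) : k) * p.coeff e := by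
  induction p using AddMonoidAlgebra.induction_linear with
  | zero => simp
  | add p q hp hq => rw [map_add, AddMonoidAlgebra.coeff_add, Finsupp.add_apply, hp, hq,
      AddMonoidAlgebra.coeff_add, Finsupp.add_apply, mul_add]
  | single e' a =>
    have h1 : (AddMonoidAlgebra.single e' a : A k) = a • mon e' := by
      rw [mon, AddMonoidAlgebra.smul_single, smul_eq_mul, mul_one]
    rw [h1, map_smul, scl_mon, AddMonoidAlgebra.coeff_smul, AddMonoidAlgebra.coeff_smul,
      Finsupp.smul_apply, Finsupp.smul_apply, AddMonoidAlgebra.coeff_smul, Finsupp.smul_apply, mon,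
      AddMonoidAlgebra.coeff_single, Finsupp.single_apply]
    by_cases h : e' = e
    · rw [if_pos h, h]
      simp only [smul_eq_mul]
      ring
    · rw [if_neg h]
      simp

theorem scl_mem_gr (t : kˣ) {σ : Finset Vr} {c : Deg} {p : A k} (hp : p ∈ gr k σ c) :
    scl t p ∈ gr k σ c := by
  intro e he
  rw [scl_coeff] at he
  exact hp e (right_ne_zero_of_mul he)

theorem scl_scl (t s : kˣ) (h : t * s = 1) (p : A k) : scl s (scl t p) = p := by
  apply AddMonoidAlgebra.coeff_injective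
  ext e
  rw [scl_coeff, scl_coeff, ← mul_assoc, ← Units.val_mul, ← mul_zpow, mul_comm s t, h, one_zpow,
    Units.val_one, one_mul]

/-- Every equation in `G` is homogeneous for the weights. -/
def HomG (G : List (A k × Deg)) : Prop :=
  ∀ g ∈ G, ∀ t : kˣ, ∃ c : kˣ, scl t g.1 = (c : k) • g.1

theorem scl_mem_idl (t : kˣ) {G : List (A k × Deg)} (hG : HomG G) {σ : Finset Vr} {c : Deg}
    {p : A k} (hp : p ∈ idl G σ c) : scl t p ∈ idl G σ c := by
  induction G generalizing p with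
  | nil =>
    rw [show p = 0 from hp, map_zero]
    exact Submodule.zero_mem _
  | cons g G ih =>
    obtain ⟨q, hq, r, hr, rfl⟩ := Submodule.mem_sup.1 hp
    obtain ⟨q', hq', rfl⟩ := hq
    rw [map_add]
    refine Submodule.add_mem_sup ?_ (ih (fun g' hg' => hG g' (List.mem_cons_of_mem _ hg')) hr)
    obtain ⟨d, hd⟩ := hG g List.mem_cons_self t
    refine ⟨(d : k) • scl t q', Submodule.smul_mem _ _ (scl_mem_gr t hq'), ?_⟩
    rw [LinearMap.mulLeft_apply, LinearMap.mulLeft_apply, map_mul, hd, smul_mul_assoc,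
      mul_smul_comm]

/-- `scl t` on `gr`. -/
def sclGr (t : kˣ) (σ : Finset Vr) (c : Deg) : gr k σ c →ₗ[k] gr k σ c :=
  (scl t).toLinearMap.restrict fun _ hp => scl_mem_gr t hp

@[simp] theorem sclGr_coe (t : kˣ) (σ : Finset Vr) (c : Deg) (p : gr k σ c) :
    (sclGr t σ c p : A k) = scl t p := rfl

/-- `scl t` on `Qm`. -/
def sclQ (t : kˣ) {G : List (A k × Deg)} (hG : HomG G) (σ : Finset Vr) (c : Deg) :
    Qm k G σ c →ₗ[k] Qm k G σ c :=
  Submodule.mapQ _ _ (sclGr t σ c) fun _ hp => scl_mem_idl t hG hp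

theorem sclQ_mk (t : kˣ) {G : List (A k × Deg)} (hG : HomG G) (σ : Finset Vr) (c : Deg)
    (p : gr k σ c) : sclQ t hG σ c (Submodule.Quotient.mk p) =
      Submodule.Quotient.mk (sclGr t σ c p) := rfl

theorem sclQ_sclQ (t s : kˣ) (h : t * s = 1) {G : List (A k × Deg)} (hG : HomG G)
    (σ : Finset Vr) (c : Deg) (x : Qm k G σ c) : sclQ s hG σ c (sclQ t hG σ c x) = x := by
  obtain ⟨p, rfl⟩ := Submodule.Quotient.mk_surjective _ x
  rw [sclQ_mk, sclQ_mk]
  congr 1
  ext1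
  rw [sclGr_coe, sclGr_coe, scl_scl t s h]

theorem sclQ_mulQm (t : kˣ) {G : List (A k × Deg)} (hG : HomG G) {σ τ : Finset Vr} {c d : Deg}
    (hst : σ ⊆ τ) (e : Ex) (he : Reg τ e) (hd : degE e = d - c) (x : Qm k G σ c) :
    sclQ t hG τ d (mulQm k G hst e he hd x) =
      ((t ^ wt e : kˣ) : k) • mulQm k G hst e he hd (sclQ t hG σ c x) := by
  obtain ⟨p, rfl⟩ := Submodule.Quotient.mk_surjective _ x
  rw [mulQm_mk, sclQ_mk, sclQ_mk, mulQm_mk, ← Submodule.Quotient.mk_smul]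
  congr 1
  ext1
  rw [sclGr_coe, mulGr_coe, map_mul, scl_mon, Submodule.coe_smul, mulGr_coe, sclGr_coe,
    smul_mul_assoc]

/-- The structure of `QQ G b`. -/
def psiQ (t : kˣ) {G : List (A k × Deg)} (hG : HomG G) (b : Deg) :
    QQ G b ≅ (tw t).obj (QQ G b) :=
  NatIso.ofComponents
    (fun Y => LinearEquiv.toModuleIso
      { toFun := sclQ t hG Y.σ (Y.a + b)
        invFun := sclQ t⁻¹ hG Y.σ (Y.a + b)
        map_add' := map_add _
        map_smul' := map_smul _
        left_inv := sclQ_sclQ t t⁻¹ (by simp) hG Y.σ (Y.a + b)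
        right_inv := sclQ_sclQ t⁻¹ t (by simp) hG Y.σ (Y.a + b) })
    (fun {Y Z} m => by
      refine ModuleCat.hom_ext (LinearMap.ext fun x => ?_)
      exact sclQ_mulQm t hG (Mor.le m) (Mor.e m) (Mor.reg m) _ x)

theorem psiQ_hom_app (t : kˣ) {G : List (A k × Deg)} (hG : HomG G) (b : Deg) (Y : Ob)
    (x : (QQ G b).obj Y) : ((psiQ t hG b).hom.app Y).hom x = sclQ t hG Y.σ (Y.a + b) x := rfl

theorem psiQ_inv_app (t : kˣ) {G : List (A k × Deg)} (hG : HomG G) (b : Deg) (Y : Ob)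
    (x : (QQ G b).obj Y) : ((psiQ t hG b).inv.app Y).hom x = sclQ t⁻¹ hG Y.σ (Y.a + b) x := rfl

theorem wt_eD0 (i : Fin 3) : wt (eD0 i) = -1 := by revert i; decide

theorem wt_eD1 (i : Fin 3) : wt (eD1 i) = 1 := by revert i; decide

theorem scl_D0 (t : kˣ) : scl t (D0 k) = ((t ^ (-1 : ℤ) : kˣ) : k) • D0 k := by
  simp only [D0, map_sub, scl_mon, wt_eD0, smul_sub]

theorem scl_D1 (t : kˣ) : scl t (D1 k) = ((t ^ (1 : ℤ) : kˣ) : k) • D1 k := by
  simp only [D1, map_sub, scl_mon, wt_eD1, smul_sub]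

theorem scl_fP (t : kˣ) : scl t (fP k) = fP k := by
  simp only [fP, map_sum, map_smul, scl_mon, wt_fE, zpow_zero, Units.val_one, one_smul]

theorem homG_GE : HomG (GE k) := by
  intro g hg t
  rcases List.mem_cons.1 hg with rfl | hg
  · exact ⟨_, scl_D1 t⟩
  · rcases List.mem_cons.1 hg with rfl | hg
    · exact ⟨_, scl_D0 t⟩
    · exact absurd hg (by simp)

theorem homG_GW : HomG (GW k) := by
  intro g hg t
  rcases List.mem_cons.1 hg with rfl | hg
  · exact ⟨1, by rw [scl_fP, Units.val_one, one_smul]⟩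
  · exact absurd hg (by simp)

theorem homG_GQ (i : Fin 24) : HomG (GQ k i) := by
  unfold GQ
  split_ifs
  · exact homG_GW
  · exact homG_GE

end MPbd3808.BR.SX
end
end

section

/-!
# TASK B4: morphisms out of `QQ G b`
-/

open CategoryTheory CategoryTheory.Limits

namespace MPbd3808.BR

universe u
variable {k : Type u} [Field k]

/-- the constant section `1 ∈ QQ G b (σ, -b)` -/
noncomputable def oneQ (G : List (A k × Deg)) (b : Deg) (σ : Finset Vr) (hσ : Full σ) :
    (QQ G b).obj (Ob.mk σ hσ (-b)) :=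
  (Submodule.Quotient.mk ⟨1, one_mem_gr' σ b⟩ : Qm k G σ (-b + b))

/-- A morphism out of `QQ G b` is determined by the images of the sections `1`.

PROOF. `mk q = mP (QQ G b) (U.σ,-b) U q (oneQ ..)` (`mP_QQ_mk`, `q ∈ gr U.σ (U.a + b)`, `U.a + b = U.a - (-b)`), `mP_nat`. -/
theorem homQQ_apply (G : List (A k × Deg)) (b : Deg) {X : FunCat k} (f : QQ G b ⟶ X) (U : Ob)
    (q : gr k U.σ (U.a + b)) :
    (f.app U).hom (Submodule.Quotient.mk q : Qm k G U.σ (U.a + b)) =
      mP X (Ob.mk U.σ U.full (-b)) U q.1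
        ((f.app (Ob.mk U.σ U.full (-b))).hom (oneQ G b U.σ U.full)) := by
  have hq : q.1 ∈ gr k U.σ (U.a - (-b)) := by
    rw [sub_neg_eq_add]
    exact q.2
  have hq1 : q.1 * 1 ∈ gr k U.σ (U.a + b) := by
    rw [mul_one]
    exact q.2
  rw [← mP_nat f (Ob.mk U.σ U.full (-b)) U q.1 (oneQ G b U.σ U.full)]
  have h1 : mP (QQ G b) (Ob.mk U.σ U.full (-b)) U q.1 (oneQ G b U.σ U.full) =
      (Submodule.Quotient.mk ⟨q.1 * 1, hq1⟩ : Qm k G U.σ (U.a + b)) :=
    mP_QQ_mk G b (U := Ob.mk U.σ U.full (-b)) (V := U) (Finset.Subset.refl _) hq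
      ⟨1, one_mem_gr' U.σ b⟩ hq1
  have h2 : (⟨q.1 * 1, hq1⟩ : gr k U.σ (U.a + b)) = q := Subtype.ext (mul_one _)
  rw [h1, h2]

/-- PROOF. `homQQ_apply`, the quotient map is surjective. -/
theorem homQQ_ext (G : List (A k × Deg)) (b : Deg) {X : FunCat k} {f g : QQ G b ⟶ X}
    (h : ∀ (σ : Finset Vr) (hσ : Full σ), (f.app (Ob.mk σ hσ (-b))).hom (oneQ G b σ hσ) =
      (g.app (Ob.mk σ hσ (-b))).hom (oneQ G b σ hσ)) : f = g := by
  refine NatTrans.ext (funext fun U => ModuleCat.hom_ext (LinearMap.ext fun x => ?_))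
  obtain ⟨q, rfl⟩ := Submodule.Quotient.mk_surjective _ x
  rw [homQQ_apply G b f U q, homQQ_apply G b g U q, h]

/-- The map `q ↦ q x` on homogeneous polynomials. -/
noncomputable def B4_lin (b : Deg) (X : FunCat k)
    (x : ∀ (σ : Finset Vr) (hσ : Full σ), X.obj (Ob.mk σ hσ (-b))) (U : Ob) :
    gr k U.σ (U.a + b) →ₗ[k] X.obj U where
  toFun q := mP X (Ob.mk U.σ U.full (-b)) U q.1 (x U.σ U.full)
  map_add' p q := by
    rw [Submodule.coe_add, mP_add, LinearMap.add_apply]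
  map_smul' c q := by
    rw [Submodule.coe_smul, mP_smul, LinearMap.smul_apply, RingHom.id_apply]

/-- The ideal kills `x`. -/
theorem B4_idl (G : List (A k × Deg)) (hG : ∀ g ∈ G, g.1 ∈ gr k ∅ g.2) (b : Deg)
    (X : FunCat k) (U : Ob) (x : X.obj (Ob.mk U.σ U.full (-b)))
    (h0 : ∀ g ∈ G, mP X (Ob.mk U.σ U.full (-b)) (Ob.mk U.σ U.full (-b + g.2)) g.1 x = 0)
    (q : A k) (hq : q ∈ idl G U.σ (U.a + b)) :
    mP X (Ob.mk U.σ U.full (-b)) U q x = 0 := by
  induction G generalizing q with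
  | nil =>
    rw [show q = 0 from hq, mP_zero, LinearMap.zero_apply]
  | cons g G ih =>
    obtain ⟨q₁, hq₁, s, hs, rfl⟩ := Submodule.mem_sup.1 hq
    obtain ⟨r, hr, rfl⟩ := hq₁
    rw [mP_add, LinearMap.add_apply,
      ih (fun g' hg' => hG g' (List.mem_cons_of_mem _ hg'))
        (fun g' hg' => h0 g' (List.mem_cons_of_mem _ hg')) s hs, add_zero,
      LinearMap.mulLeft_apply, mul_comm]
    have h1 : g.1 ∈ gr k U.σ ((-b + g.2) - (-b)) := by
      rw [show (-b + g.2) - (-b) = g.2 by abel]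
      exact gr_mono (Finset.empty_subset _) _ (hG g List.mem_cons_self)
    have h2 : r ∈ gr k U.σ (U.a - (-b + g.2)) := by
      rw [show U.a - (-b + g.2) = U.a + b - g.2 by abel]
      exact hr
    rw [mP_mul X (U := Ob.mk U.σ U.full (-b)) (V := Ob.mk U.σ U.full (-b + g.2)) (W := U)
      (Finset.Subset.refl _) (Finset.Subset.refl _) h1 h2 x, h0 g List.mem_cons_self, map_zero]

/-- Compatible sections killed by `G` define a morphism.

PROOF. `f.app U (mk q) := mP X (U.σ,-b) U q (x U.σ)`. It is linear in `q`, and vanishes on `idl G`: for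
`q = g.1 * r`, `r ∈ gr U.σ (U.a + b - g.2)`: `mP (g.1 * r) = mP r ∘ mP g.1` (through `(U.σ, -b + g.2)`, `mP_mul`,
`gr_mono`), induction on the list. Natural: for `m : U ⟶ V`, `mP X (V.σ,-b) V (mon m * q) (x V.σ)` with
`x V.σ = res (x U.σ)` is `mP X (U.σ,-b) V (mon m * q) (x U.σ)` (`mP_mul` with the polynomial `1 = mon 0` for the
restriction) `= X.map m (mP X (U.σ,-b) U q (x U.σ))`. -/
theorem homQQ_exists (G : List (A k × Deg)) (hG : ∀ g ∈ G, g.1 ∈ gr k ∅ g.2) (b : Deg)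
    (X : FunCat k) (x : ∀ (σ : Finset Vr) (hσ : Full σ), X.obj (Ob.mk σ hσ (-b)))
    (hx : ∀ (σ τ : Finset Vr) (hσ : Full σ) (hτ : Full τ) (hst : σ ⊆ τ),
      (X.map (res hσ hτ hst (-b))).hom (x σ hσ) = x τ hτ)
    (h0 : ∀ g ∈ G, ∀ (σ : Finset Vr) (hσ : Full σ),
      mP X (Ob.mk σ hσ (-b)) (Ob.mk σ hσ (-b + g.2)) g.1 (x σ hσ) = 0) :
    ∃ f : QQ G b ⟶ X, ∀ (σ : Finset Vr) (hσ : Full σ),
      (f.app (Ob.mk σ hσ (-b))).hom (oneQ G b σ hσ) = x σ hσ := by
  have hker : ∀ U : Ob, (idl G U.σ (U.a + b)).comap (gr k U.σ (U.a + b)).subtype ≤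
      LinearMap.ker (B4_lin b X x U) := by
    intro U q hq
    exact B4_idl G hG b X U (x U.σ U.full) (fun g hg => h0 g hg U.σ U.full) q.1 hq
  refine ⟨{ app := fun U => ModuleCat.ofHom (Submodule.liftQ _ (B4_lin b X x U) (hker U))
            naturality := ?_ }, ?_⟩
  · intro U V m
    refine ModuleCat.hom_ext (LinearMap.ext fun y => ?_)
    obtain ⟨q, rfl⟩ := Submodule.Quotient.mk_surjective _ y
    change mP X (Ob.mk V.σ V.full (-b)) V (mon (Mor.e m) * q.1) (x V.σ V.full) =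
      (X.map m).hom (mP X (Ob.mk U.σ U.full (-b)) U q.1 (x U.σ U.full))
    have hUV : U.σ ⊆ V.σ := Mor.le m
    have hm : (mon (Mor.e m) : A k) ∈ gr k V.σ (V.a - U.a) := by
      have h := mon_mul_mem_gr k (Finset.Subset.refl V.σ) (one_mem_gr (k := k) V.σ) (Mor.e m)
        (Mor.reg m) (d := V.a - U.a) (by rw [Mor.deg m, sub_zero])
      rwa [mul_one] at h
    have hq : q.1 ∈ gr k U.σ (U.a - (-b)) := by
      rw [sub_neg_eq_add]
      exact q.2
    have hmq : (mon (Mor.e m) : A k) * q.1 ∈ gr k V.σ (V.a - (-b)) := by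
      have h := mul_mem_gr hm (gr_mono hUV _ hq)
      rwa [show V.a - U.a + (U.a - -b) = V.a - (-b) by abel] at h
    have h1 : (1 : A k) ∈ gr k V.σ (-b - (-b)) := by
      rw [sub_self]
      exact one_mem_gr _
    have h2 : x V.σ V.full = mP X (Ob.mk U.σ U.full (-b)) (Ob.mk V.σ V.full (-b)) 1
        (x U.σ U.full) := by
      rw [← hx U.σ V.σ U.full V.full hUV, ← mP_mon X (res U.full V.full hUV (-b))]
      rfl
    rw [h2, ← mP_mul X (U := Ob.mk U.σ U.full (-b)) (V := Ob.mk V.σ V.full (-b)) (W := V) hUV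
      (Finset.Subset.refl _) h1 hmq, mul_one, ← mP_mon X m,
      ← mP_mul X (U := Ob.mk U.σ U.full (-b)) (V := U) (W := V) (Finset.Subset.refl _) hUV hq hm]
  · intro σ hσ
    change mP X (Ob.mk σ hσ (-b)) (Ob.mk σ hσ (-b)) 1 (x σ hσ) = x σ hσ
    rw [mP_one]
    rfl

/-- Multiples of the generators are in the ideal. -/
theorem B4_mem (G : List (A k × Deg)) (g : A k × Deg) (hg : g ∈ G) (σ : Finset Vr) (c : Deg)
    (r : A k) (hr : r ∈ gr k σ (c - g.2)) : g.1 * r ∈ idl G σ c := by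
  induction G with
  | nil => exact absurd hg List.not_mem_nil
  | cons g' G ih =>
    rcases List.mem_cons.1 hg with rfl | h
    · exact Submodule.mem_sup_left ⟨r, hr, rfl⟩
    · exact Submodule.mem_sup_right (ih h)

/-- The sections `1` are compatible and killed by `G`; so are their images. PROOF. Naturality;
`mk ⟨g.1 * 1, _⟩ = 0` as `g.1 * 1 ∈ idl G`. -/
theorem homQQ_compat (G : List (A k × Deg)) (b : Deg) {X : FunCat k} (f : QQ G b ⟶ X)
    {σ τ : Finset Vr} (hσ : Full σ) (hτ : Full τ) (hst : σ ⊆ τ) :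
    (X.map (res hσ hτ hst (-b))).hom ((f.app (Ob.mk σ hσ (-b))).hom (oneQ G b σ hσ)) =
      (f.app (Ob.mk τ hτ (-b))).hom (oneQ G b τ hτ) := by
  have h1 : ((QQ G b).map (res hσ hτ hst (-b))).hom (oneQ G b σ hσ) = oneQ G b τ hτ := by
    change (Submodule.Quotient.mk _ : Qm k G τ (-b + b)) = Submodule.Quotient.mk _
    congr 1
    ext1
    change (mon (0 : Ex) : A k) * 1 = 1
    rw [mul_one]
    rfl
  rw [← h1]
  exact (congrArg (fun h => h.hom (oneQ G b σ hσ)) (f.naturality (res hσ hτ hst (-b)))).symm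

theorem homQQ_kill (G : List (A k × Deg)) (hG : ∀ g ∈ G, g.1 ∈ gr k ∅ g.2) (b : Deg) {X : FunCat k}
    (f : QQ G b ⟶ X) (g : A k × Deg) (hg : g ∈ G) (σ : Finset Vr) (hσ : Full σ) :
    mP X (Ob.mk σ hσ (-b)) (Ob.mk σ hσ (-b + g.2)) g.1
      ((f.app (Ob.mk σ hσ (-b))).hom (oneQ G b σ hσ)) = 0 := by
  have h1 : g.1 ∈ gr k σ ((-b + g.2) - (-b)) := by
    rw [show (-b + g.2) - (-b) = g.2 by abel]
    exact gr_mono (Finset.empty_subset _) _ (hG g hg)
  have h2 : g.1 * 1 ∈ gr k σ (-b + g.2 + b) := by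
    rw [mul_one, show -b + g.2 + b = g.2 by abel]
    exact gr_mono (Finset.empty_subset _) _ (hG g hg)
  have h3 : mP (QQ G b) (Ob.mk σ hσ (-b)) (Ob.mk σ hσ (-b + g.2)) g.1 (oneQ G b σ hσ) =
      (Submodule.Quotient.mk ⟨g.1 * 1, h2⟩ : Qm k G σ (-b + g.2 + b)) :=
    mP_QQ_mk G b (U := Ob.mk σ hσ (-b)) (V := Ob.mk σ hσ (-b + g.2)) (Finset.Subset.refl _) h1
      ⟨1, one_mem_gr' σ b⟩ h2
  have h4 : (Submodule.Quotient.mk ⟨g.1 * 1, h2⟩ : Qm k G σ (-b + g.2 + b)) = 0 := by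
    rw [Submodule.Quotient.mk_eq_zero]
    refine B4_mem G g hg σ _ 1 ?_
    rw [show -b + g.2 + b - g.2 = 0 by abel]
    exact one_mem_gr σ
  rw [← mP_nat f (Ob.mk σ hσ (-b)) (Ob.mk σ hσ (-b + g.2)) g.1 (oneQ G b σ hσ), h3, h4]
  exact map_zero _

end MPbd3808.BR
end

section

/-!
# TASK B5: the sheaves `QQ G b` are quasi-coherent and coherent
-/

open CategoryTheory CategoryTheory.Limits

namespace MPbd3808.BR

universe u
variable {k : Type u} [Field k]

private theorem B5_gr {σ τ : Finset Vr} {c : Deg} {q : A k} (hq : q ∈ gr k τ c) :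
    ∃ N₀ : ℕ, ∀ N, N₀ ≤ N → mon (pw τ N) * q ∈ gr k σ (c + degE (pw τ N)) := by
  refine ⟨∑ e ∈ q.coeff.support, ∑ v, (e v).natAbs, fun N hN e h' => ?_⟩
  rw [AddMonoidAlgebra.coeff_single_mul_apply, one_mul] at h'
  obtain ⟨h1, h2⟩ := hq _ h'
  have he : e = pw τ N + (-pw τ N + e) := by abel
  constructor
  · intro v _
    have h3 : e v = pw τ N v + (-pw τ N + e) v := by
      conv_lhs => rw [he]
      rfl
    rw [h3]
    by_cases hv : v ∈ τ
    · have h4 : ((-pw τ N + e) v).natAbs ≤ N := by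
        have h5 : ((-pw τ N + e) v).natAbs ≤ ∑ v, ((-pw τ N + e) v).natAbs :=
          Finset.single_le_sum (f := fun v => ((-pw τ N + e) v).natAbs) (fun _ _ => Nat.zero_le _)
            (Finset.mem_univ v)
        have h6 : ∑ v, ((-pw τ N + e) v).natAbs ≤
            ∑ e ∈ q.coeff.support, ∑ v, (e v).natAbs :=
          Finset.single_le_sum (f := fun e : Ex => ∑ v, (e v).natAbs) (fun _ _ => Nat.zero_le _)
            (Finsupp.mem_support_iff.2 h')
        exact (h5.trans h6).trans hN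
      have h7 : pw τ N v = N := by simp [pw, hv]
      rw [h7]
      omega
    · have h4 := h1 v hv
      have h7 : pw τ N v = 0 := by simp [pw, hv]
      rw [h7, zero_add]
      exact h4
  · rw [he, degE_add, h2]
    abel

private theorem B5_idl (G : List (A k × Deg)) {σ τ : Finset Vr} {c : Deg} {q : A k}
    (hq : q ∈ idl G τ c) :
    ∃ N₀ : ℕ, ∀ N, N₀ ≤ N → mon (pw τ N) * q ∈ idl G σ (c + degE (pw τ N)) := by
  induction G generalizing q with
  | nil =>
    refine ⟨0, fun N _ => ?_⟩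
    rw [show q = 0 from hq, mul_zero]
    exact Submodule.zero_mem _
  | cons g G ih =>
    obtain ⟨r, hr, s, hs, rfl⟩ := Submodule.mem_sup.1 hq
    obtain ⟨r', hr', rfl⟩ := hr
    obtain ⟨N₁, h1⟩ := B5_gr (σ := σ) hr'
    obtain ⟨N₂, h2⟩ := ih hs
    refine ⟨max N₁ N₂, fun N hN => ?_⟩
    rw [mul_add]
    refine Submodule.add_mem_sup ⟨mon (pw τ N) * r', ?_, ?_⟩
      (h2 N ((le_max_right _ _).trans hN))
    · have h3 := h1 N ((le_max_left _ _).trans hN)
      rwa [show c - g.2 + degE (pw τ N) = c + degE (pw τ N) - g.2 by abel] at h3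
    · simp only [LinearMap.mulLeft_apply]; ring

private theorem B5_mon_zero (q : A k) : mon (0 : Ex) * q = q := by
  have : mon (0 : Ex) = (1 : A k) := by rw [AddMonoidAlgebra.one_def]
  rw [this, one_mul]

/-- PROOF. Write `x_τ^N = mon (pw τ N)`. LocSurj: `y = mk q`, `q ∈ gr τ (a+b)`; for `N` large
(`N ≥ -e v` for all `e` in the support and all `v`) `x_τ^N q ∈ gr σ (a + degE (pw τ N) + b)`: for `v ∉ σ`, `v ∈ τ` the
exponent is `≥ 0`, and for `v ∉ τ` it was `≥ 0`. LocInj: `q ∈ gr σ (a+b)` with `q ∈ idl G τ (a+b)`: show by induction on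
`G` that for `q ∈ idl G τ c` there is `N` with `x_τ^N q ∈ idl G σ (c + degE (pw τ N))`, and then it holds for all larger
`N`: `q = g.1 * r + q'`, multiply `r ∈ gr τ (c - g.2)` by `x_τ^N`. -/
theorem isLoc_QQ (G : List (A k × Deg)) (b : Deg) : isLoc k (QQ G b) := by
  constructor
  · intro σ τ hσ hτ hst a x hx
    obtain ⟨q, rfl⟩ := Submodule.Quotient.mk_surjective _ x
    have h0 : (Submodule.Quotient.mk (mulGr k hst 0 Reg.zero
        (by rw [degE_zero, sub_self]) q) : Qm k G τ (a + b)) = 0 := hx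
    have h0' := (Submodule.Quotient.mk_eq_zero _).1 h0
    have h1 : mon (0 : Ex) * q.1 ∈ idl G τ (a + b) := h0'
    rw [B5_mon_zero] at h1
    obtain ⟨N, hN⟩ := B5_idl G (σ := σ) h1
    refine ⟨N, (Submodule.Quotient.mk_eq_zero _).2 ?_⟩
    have h2 := hN N le_rfl
    rw [show a + b + degE (pw τ N) = a + degE (pw τ N) + b by abel] at h2
    exact h2
  · intro σ τ hσ hτ hst a y
    obtain ⟨q, rfl⟩ := Submodule.Quotient.mk_surjective _ y
    obtain ⟨N, hN⟩ := B5_gr (σ := σ) q.2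
    have h2 := hN N le_rfl
    have h3 : mon (pw τ N) * q.1 ∈ gr k σ (a + degE (pw τ N) + b) := by
      rw [show a + degE (pw τ N) + b = a + b + degE (pw τ N) by abel]
      exact h2
    refine ⟨N, (Submodule.Quotient.mk ⟨mon (pw τ N) * q.1, h3⟩ :
      Qm k G σ (a + degE (pw τ N) + b)), ?_⟩
    change Submodule.Quotient.mk _ = Submodule.Quotient.mk _
    congr 1
    ext1
    change mon (0 : Ex) * (mon (pw τ N) * q.1) = mon (pw τ N) * q.1
    rw [B5_mon_zero]

private theorem B5_sum (σ : Finset Vr) (c : Deg) (q : gr k σ c) :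
    q = ∑ e : q.1.coeff.support, q.1.coeff e.1 •
      (⟨mon e.1, fun e' he' => by
        have h1 := q.2 e.1 (Finsupp.mem_support_iff.1 e.2)
        by_cases h : e.1 = e'
        · rw [← h]; exact h1
        · exact absurd (by rw [AddMonoidAlgebra.coeff_single, Finsupp.single_apply, if_neg h]) he'⟩ :
        gr k σ c) := by
  ext1
  rw [AddSubmonoidClass.coe_finsetSum]
  simp only [Submodule.coe_smul]
  have h := AddMonoidAlgebra.sum_coeff_single q.1
  conv_lhs => rw [← h]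
  rw [Finsupp.sum, ← Finset.sum_coe_sort]
  refine Finset.sum_congr rfl fun e _ => ?_
  rw [AddMonoidAlgebra.smul_single, smul_eq_mul, mul_one]

/-- PROOF. The section `1` in degree `-b` generates: `mk q = ∑ c_e • mk (mon e * 1)`, and
`mon e` with `Reg σ e`, `degE e = a + b` is a morphism `(σ,-b) ⟶ (σ,a)`. -/
theorem isFG_QQ (G : List (A k × Deg)) (b : Deg) : isFG k (QQ G b) := by
  intro σ hσ
  refine ⟨1, fun _ => -b, fun _ => (Submodule.Quotient.mk ⟨1, one_mem_gr' σ b⟩ :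
    Qm k G σ (-b + b)), fun a x => ?_⟩
  obtain ⟨q, rfl⟩ := Submodule.Quotient.mk_surjective _ x
  let L : gr k σ (a + b) →ₗ[k] (QQ G b).obj (Ob.mk σ hσ a) :=
    ((idl G σ (a + b)).comap (gr k σ (a + b)).subtype).mkQ
  have key : ∀ S : Submodule k ((QQ G b).obj (Ob.mk σ hσ a)),
      (∀ e : q.1.coeff.support, ∀ h : mon e.1 ∈ gr k σ (a + b), L ⟨mon e.1, h⟩ ∈ S) →
      L q ∈ S := by
    intro S hS
    change q ∈ S.comap L
    rw [B5_sum σ (a + b) q]
    refine Submodule.sum_mem _ fun e _ => Submodule.smul_mem _ _ ?_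
    exact hS e _
  refine key _ fun e h => Submodule.subset_span ?_
  obtain ⟨h2, h3⟩ := q.2 e.1 (Finsupp.mem_support_iff.1 e.2)
  refine ⟨0, Mor.mk e.1 (Finset.Subset.refl _) h2 (by rw [h3]; change a + b = a - (-b); abel), ?_⟩
  change Submodule.Quotient.mk _ = Submodule.Quotient.mk _
  congr 1
  ext1
  change mon e.1 = mon e.1 * 1
  rw [mul_one]

/-- PROOF. `isFZero_of_mP`, `mP_QQ_mk`: `mk (f * q) = 0` as `f * q ∈ idl G`. -/
theorem isFZero_QQ (G : List (A k × Deg)) (hf : ∀ (σ : Finset Vr) (c : Deg), ∀ q ∈ gr k σ c,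
    fP k * q ∈ idl G σ (c + dF)) (b : Deg) : isFZero k (QQ G b) := by
  apply isFZero_of_mP
  intro σ hσ a x
  obtain ⟨q, rfl⟩ := Submodule.Quotient.mk_surjective _ x
  have h1 : fP k ∈ gr k σ (a + dF - a) := by
    rw [show a + dF - a = dF by abel]
    exact gr_mono (Finset.empty_subset σ) dF fP_mem
  have h2 : fP k * q.1 ∈ gr k σ (a + dF + b) := by
    have := mul_mem_gr h1 q.2
    rwa [show a + dF - a + (a + b) = a + dF + b by abel] at this
  have h3 := mP_QQ_mk G b (U := Ob.mk σ hσ a) (V := Ob.mk σ hσ (a + dF))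
    (Finset.Subset.refl _) h1 q h2
  refine h3.trans ((Submodule.Quotient.mk_eq_zero _).2 ?_)
  have h4 := hf σ (a + b) q.1 q.2
  rw [show a + b + dF = a + dF + b by abel] at h4
  exact h4

/-- PROOF. `f * q` lies in `f • gr`. -/
theorem isCoh_OW (b : Deg) : isCoh k (OWf k b) := by
  refine ⟨⟨isFZero_QQ _ ?_ b, isLoc_QQ _ b⟩, isFG_QQ _ b⟩
  intro σ c q hq
  refine Submodule.mem_sup_left ⟨q, ?_, rfl⟩
  change q ∈ gr k σ (c + dF - dF)
  rwa [add_sub_cancel_right]

/-- PROOF. `f = s0 D0 + s1 D1` (`fP_eq`), degrees `dF = dD + ![1,0,0,0]`. -/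
theorem isCoh_OE (b : Deg) : isCoh k (OEf k b) := by
  refine ⟨⟨isFZero_QQ _ ?_ b, isLoc_QQ _ b⟩, isFG_QQ _ b⟩
  intro σ c q hq
  have h0 : degE (Pi.single 0 1) = dF - dD := by decide
  have h1 : degE (Pi.single 1 1) = dF - dD := by decide
  have s0 : ∀ v : Vr, 0 ≤ (Pi.single 0 1 : Ex) v := by decide
  have s1 : ∀ v : Vr, 0 ≤ (Pi.single 1 1 : Ex) v := by decide
  have r0 : Reg σ (Pi.single 0 1 : Ex) := fun v _ => s0 v
  have r1 : Reg σ (Pi.single 1 1 : Ex) := fun v _ => s1 v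
  have e0 : mon (Pi.single 0 1) * q ∈ gr k σ (c + dF - dD) :=
    mon_mul_mem_gr k (Finset.Subset.refl σ) hq _ r0 (by rw [h0]; abel)
  have e1 : mon (Pi.single 1 1) * q ∈ gr k σ (c + dF - dD) :=
    mon_mul_mem_gr k (Finset.Subset.refl σ) hq _ r1 (by rw [h1]; abel)
  have he : fP k * q = D1 k * (mon (Pi.single 1 1) * q) + (D0 k * (mon (Pi.single 0 1) * q) + 0) := by
    rw [fP_eq]; ring
  rw [he]
  exact Submodule.add_mem_sup ⟨_, e1, rfl⟩
    (Submodule.add_mem_sup ⟨_, e0, rfl⟩ (Submodule.zero_mem _))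

end MPbd3808.BR
end

section

/-!
# TASK C2: quasi-coherent sheaves form an abelian subcategory, 2
-/

open CategoryTheory CategoryTheory.Limits

namespace MPbd3808.BR

universe u
variable {k : Type u} [Field k]

/-- multiplication by `x_τ^N` on the chart `σ` -/
noncomputable def mulPw (X : FunCat k) {σ : Finset Vr} (hσ : Full σ) (τ : Finset Vr) (N : ℕ)
    (a : Deg) : X.obj (Ob.mk σ hσ a) →ₗ[k] X.obj (Ob.mk σ hσ (a + degE (pw τ N))) :=
  (X.map (mul hσ (b := a + degE (pw τ N)) (pw τ N) (reg_pw σ τ N) (by abel) :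
      Ob.mk σ hσ a ⟶ _)).hom

/-- restriction to a smaller chart -/
noncomputable def resL (X : FunCat k) {σ τ : Finset Vr} (hσ : Full σ) (hτ : Full τ) (hst : σ ⊆ τ)
    (a : Deg) : X.obj (Ob.mk σ hσ a) →ₗ[k] X.obj (Ob.mk τ hτ a) :=
  (X.map (res hσ hτ hst a)).hom

/-- multiplication by the monomial `e` on the chart `σ` -/
private noncomputable def C2_mm (X : FunCat k) {σ : Finset Vr} (hσ : Full σ) {a b : Deg} (e : Ex)
    (hr : Reg σ e) (hd : degE e = b - a) :
    X.obj (Ob.mk σ hσ a) →ₗ[k] X.obj (Ob.mk σ hσ b) :=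
  (X.map (mul hσ e hr hd)).hom

private theorem C2_map_eq (X : FunCat k) {A B : Ob} (m m' : A ⟶ B) (h : Mor.e m = Mor.e m')
    (x : X.obj A) : (X.map m).hom x = (X.map m').hom x := by
  rw [hom_ext h]

private theorem C2_map_map (X : FunCat k) {A B D : Ob} (m : A ⟶ B) (m' : B ⟶ D) (m'' : A ⟶ D)
    (h : Mor.e m + Mor.e m' = Mor.e m'') (x : X.obj A) :
    (X.map m').hom ((X.map m).hom x) = (X.map m'').hom x := by
  have : m'' = m ≫ m' := hom_ext (by rw [comp_e, h])
  rw [this, X.map_comp]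
  rfl

private theorem C2_mm_mm (X : FunCat k) {σ : Finset Vr} (hσ : Full σ) {a b c : Deg} (e e' e'' : Ex)
    (hr : Reg σ e) (hd : degE e = b - a) (hr' : Reg σ e') (hd' : degE e' = c - b)
    (hr'' : Reg σ e'') (hd'' : degE e'' = c - a) (h : e + e' = e'') (x : X.obj (Ob.mk σ hσ a)) :
    C2_mm X hσ e' hr' hd' (C2_mm X hσ e hr hd x) = C2_mm X hσ e'' hr'' hd'' x :=
  C2_map_map X _ _ _ (by simpa using h) x

private theorem C2_res_mm (X : FunCat k) {σ τ : Finset Vr} (hσ : Full σ) (hτ : Full τ) (hst : σ ⊆ τ)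
    {a b : Deg} (e : Ex) (hr : Reg σ e) (hr' : Reg τ e) (hd : degE e = b - a)
    (x : X.obj (Ob.mk σ hσ a)) :
    resL X hσ hτ hst b (C2_mm X hσ e hr hd x) = C2_mm X hτ e hr' hd (resL X hσ hτ hst a x) := by
  have h1 := C2_map_map X (mul hσ e hr hd) (res hσ hτ hst b)
    (mk hσ hτ hst e hr' hd) (by simp) x
  have h2 := C2_map_map X (res hσ hτ hst a) (mul hτ e hr' hd)
    (mk hσ hτ hst e hr' hd) (by simp) x
  exact h1.trans h2.symm

private theorem C2_nat {X Y : FunCat k} (f : X ⟶ Y) {A B : Ob} (m : A ⟶ B) (x : X.obj A) :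
    (f.app B).hom ((X.map m).hom x) = (Y.map m).hom ((f.app A).hom x) := by
  have := congrArg (fun h => h.hom x) (f.naturality m)
  exact this

private theorem C2_nat_mm {X Y : FunCat k} (f : X ⟶ Y) {σ : Finset Vr} (hσ : Full σ) {a b : Deg}
    (e : Ex) (hr : Reg σ e) (hd : degE e = b - a) (x : X.obj (Ob.mk σ hσ a)) :
    (f.app _).hom (C2_mm X hσ e hr hd x) = C2_mm Y hσ e hr hd ((f.app _).hom x) :=
  C2_nat f _ x

private theorem C2_nat_res {X Y : FunCat k} (f : X ⟶ Y) {σ τ : Finset Vr} (hσ : Full σ)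
    (hτ : Full τ) (hst : σ ⊆ τ) (a : Deg) (x : X.obj (Ob.mk σ hσ a)) :
    (f.app _).hom (resL X hσ hτ hst a x) = resL Y hσ hτ hst a ((f.app _).hom x) :=
  C2_nat f _ x

private theorem C2_sub (τ : Finset Vr) {N M : ℕ} (h : N ≤ M) : pw τ N + pw τ (M - N) = pw τ M := by
  rw [← pw_add, Nat.add_sub_cancel' h]

/-- vanishing for all large exponents -/
private theorem C2_inj {X : FunCat k} (hX : LocInj k X) {σ τ : Finset Vr} (hσ : Full σ)
    (hτ : Full τ) (hst : σ ⊆ τ) {a : Deg} (x : X.obj (Ob.mk σ hσ a)) (h : resL X hσ hτ hst a x = 0) :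
    ∃ N : ℕ, ∀ M, N ≤ M → ∀ (b : Deg) (hd : degE (pw τ M) = b - a),
      C2_mm X hσ (pw τ M) (reg_pw σ τ M) hd x = 0 := by
  obtain ⟨N, hN⟩ := hX σ τ hσ hτ hst a x h
  refine ⟨N, fun M hM b hd => ?_⟩
  have h1 : degE (pw τ (M - N)) = b - (a + degE (pw τ N)) := by
    have := congrArg degE (C2_sub τ hM)
    rw [degE_add, hd] at this
    rw [← sub_eq_zero] at this ⊢
    rw [← this]; abel
  rw [← C2_mm_mm X hσ (pw τ N) (pw τ (M - N)) (pw τ M) (reg_pw σ τ N) (by abel) (reg_pw σ τ _) h1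
    (reg_pw σ τ M) hd (C2_sub τ hM) x]
  have h2 : C2_mm X hσ (pw τ N) (reg_pw σ τ N) (show degE (pw τ N) = a + degE (pw τ N) - a by abel) x
    = 0 := hN
  rw [h2, map_zero]

/-- extension for all large exponents -/
private theorem C2_surj {X : FunCat k} (hX : LocSurj k X) {σ τ : Finset Vr} (hσ : Full σ)
    (hτ : Full τ) (hst : σ ⊆ τ) {a : Deg} (y : X.obj (Ob.mk τ hτ a)) :
    ∃ N : ℕ, ∀ M, N ≤ M → ∀ (b : Deg) (hd : degE (pw τ M) = b - a),
      ∃ x : X.obj (Ob.mk σ hσ b), resL X hσ hτ hst b x =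
        C2_mm X hτ (pw τ M) (reg_pw τ τ M) hd y := by
  obtain ⟨N, x, hx⟩ := hX σ τ hσ hτ hst a y
  refine ⟨N, fun M hM b hd => ?_⟩
  have h1 : degE (pw τ (M - N)) = b - (a + degE (pw τ N)) := by
    have := congrArg degE (C2_sub τ hM)
    rw [degE_add, hd] at this
    rw [← sub_eq_zero] at this ⊢
    rw [← this]; abel
  refine ⟨C2_mm X hσ (pw τ (M - N)) (reg_pw σ τ _) h1 x, ?_⟩
  rw [C2_res_mm X hσ hτ hst _ (reg_pw σ τ _) (reg_pw τ τ _) h1 x]
  have h2 : resL X hσ hτ hst _ x = C2_mm X hτ (pw τ N) (reg_pw τ τ N) (by abel) y := hx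
  rw [h2]
  exact C2_mm_mm X hτ _ _ _ _ _ _ _ _ _ (C2_sub τ hM) y

/-- PROOF. Functoriality: `(res a) ≫ (mul on τ) = (mul on σ) ≫ (res (a + ..))` in `Ob` (`hom_ext`, both exponents
are `pw τ N`). -/
theorem resL_mulPw (X : FunCat k) {σ τ : Finset Vr} (hσ : Full σ) (hτ : Full τ) (hst : σ ⊆ τ)
    (ρ : Finset Vr) (N : ℕ) (a : Deg) (x : X.obj (Ob.mk σ hσ a)) :
    resL X hσ hτ hst _ (mulPw X hσ ρ N a x) = mulPw X hτ ρ N a (resL X hσ hτ hst a x) :=
  C2_res_mm X hσ hτ hst _ _ _ _ x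

/-- Multiplication by `x_τ^N` is bijective on the chart `τ`.

PROOF. The inverse is the monomial `-pw τ N`, which is regular on `τ`
(`Mor.mk (-pw τ N)`), functoriality. -/
theorem mulPw_bijective (X : FunCat k) {τ : Finset Vr} (hτ : Full τ) {ρ : Finset Vr} (h : ρ ⊆ τ)
    (N : ℕ) (a : Deg) : Function.Bijective (mulPw X hτ ρ N a) := by
  have hr : Reg τ (-pw ρ N) := by
    intro v hv
    have : v ∉ ρ := fun h' => hv (h h')
    simp [pw, this]
  have hd : degE (-pw ρ N) = a - (a + degE (pw ρ N)) := by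
    rw [degE_neg]; abel
  refine Function.bijective_iff_has_inverse.2 ⟨C2_mm X hτ (-pw ρ N) hr hd, fun x => ?_, fun x => ?_⟩
  · have h1 := C2_mm_mm X hτ (pw ρ N) (-pw ρ N) 0 (reg_pw τ ρ N)
      (show degE (pw ρ N) = a + degE (pw ρ N) - a by abel) hr hd Reg.zero
      (by rw [degE_zero]; abel) (by abel) x
    refine h1.trans ?_
    have h2 : mul hτ (0 : Ex) Reg.zero (show degE 0 = a - a by rw [degE_zero]; abel) =
        𝟙 (Ob.mk τ hτ a) := hom_ext (by simp)
    change (X.map (mul hτ (0 : Ex) Reg.zero _)).hom x = x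
    rw [h2, X.map_id]; rfl
  · have h1 := C2_mm_mm X hτ (-pw ρ N) (pw ρ N) 0 hr hd (reg_pw τ ρ N)
      (show degE (pw ρ N) = a + degE (pw ρ N) - a by abel) Reg.zero
      (by rw [degE_zero]; abel) (by abel) x
    refine h1.trans ?_
    have h2 : mul hτ (0 : Ex) Reg.zero
        (show degE 0 = (a + degE (pw ρ N)) - (a + degE (pw ρ N)) by rw [degE_zero]; abel) =
        𝟙 (Ob.mk τ hτ (a + degE (pw ρ N))) := hom_ext (by simp)
    change (X.map (mul hτ (0 : Ex) Reg.zero _)).hom x = x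
    rw [h2, X.map_id]; rfl

/-- Multiplication by `x_τ^(M+N)` vanishes on elements killed by `x_τ^M`.

PROOF. `pw_add`, functoriality (the target degrees are equal: `degE_add`; use the morphism `pw τ N` from
`a + degE (pw τ M)` to `a + degE (pw τ (M+N))`). -/
theorem mulPw_add_eq_zero (X : FunCat k) {σ : Finset Vr} (hσ : Full σ) (τ : Finset Vr) (M N : ℕ)
    (a : Deg) (x : X.obj (Ob.mk σ hσ a)) (h : mulPw X hσ τ M a x = 0) :
    mulPw X hσ τ (M + N) a x = 0 := by
  have h1 := C2_mm_mm X hσ (pw τ M) (pw τ N) (pw τ (M + N)) (reg_pw σ τ M)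
    (show degE (pw τ M) = a + degE (pw τ M) - a by abel) (reg_pw σ τ N)
    (show degE (pw τ N) = a + degE (pw τ (M + N)) - (a + degE (pw τ M)) by
      rw [pw_add, degE_add]; abel) (reg_pw σ τ _) (by abel) (pw_add τ M N).symm x
  refine h1.symm.trans ?_
  have h2 : C2_mm X hσ (pw τ M) (reg_pw σ τ M)
    (show degE (pw τ M) = a + degE (pw τ M) - a by abel) x = 0 := h
  rw [h2, map_zero]

/-- PROOF. `locInj` and `locSurj` for kernels, cokernels, products, by diagram chases with elements.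
Notation: `i : X → Y`, `f : Y → Z`; `x_τ^N` = `mulPw`, `|τ` = `resL`; both are natural in `X`.
* ker, LocInj: `x|τ = 0` gives `i(x)|τ = 0`, `x_τ^N i(x) = 0`, `i (x_τ^N x) = 0`, `i` injective.
* ker, LocSurj: `x ∈ X(τ,a)`; there are `N` and `y ∈ Y(σ)` with `y|τ = x_τ^N i(x)`; `f(y)|τ = 0`, so
  `x_τ^M f(y) = 0` for some `M`; then `y' = x_τ^M y` lies in the kernel of `f`, `y' = i(x')`, and
  `i(x'|τ) = y'|τ = x_τ^(M+N) i(x)` so `x'|τ = x_τ^(M+N) x` (transport the degree `a + degE (pw τ N) +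
  degE (pw τ M)` to `a + degE (pw τ (N+M))` by the morphism with exponent `0`).
* coker, `p : Y → Z` surjective with kernel the range of `f : X → Y`. LocInj: `z = p(y)`, `z|τ = 0`: `y|τ = f(x)`,
  `x ∈ X(τ)`; `x_τ^N x = x'|τ`, `x' ∈ X(σ)`; so `(x_τ^N y - f(x'))|τ = 0`, hence
  `x_τ^M (x_τ^N y - f(x')) = 0`, and `x_τ^(M+N) z = p(x_τ^(M+N) y) = p(f(..)) = 0`.
  LocSurj: `z = p(y)`, `y ∈ Y(τ)`, `x_τ^N y = y'|τ`, so `x_τ^N z = p(y')|τ`.
* prod: `z ↦ (p z, q z)` bijective; take the maximum / sum of the two exponents (`mulPw_add_eq_zero`).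
* zero: everything is `0`. -/
theorem pwClosed_isLoc : PwClosed (isLoc k) where
  ker {X Y Z} i f hi hf hY hZ := by
    constructor
    · intro σ τ hσ hτ hst a x hx
      obtain ⟨N, hN⟩ := C2_inj hY.1 hσ hτ hst ((i.app _).hom x)
        (by rw [← C2_nat_res, show resL X hσ hτ hst a x = 0 from hx, map_zero])
      refine ⟨N, ?_⟩
      have h1 := hN N le_rfl (a + degE (pw τ N)) (by abel)
      rw [← C2_nat_mm] at h1
      exact hi _ (h1.trans (map_zero _).symm)
    · intro σ τ hσ hτ hst a x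
      obtain ⟨N, hN⟩ := C2_surj hY.2 hσ hτ hst ((i.app _).hom x)
      obtain ⟨y, hy⟩ := hN N le_rfl (a + degE (pw τ N)) (by abel)
      have h1 : resL Z hσ hτ hst _ ((f.app _).hom y) = 0 := by
        rw [← C2_nat_res, hy, C2_nat_mm]
        rw [(hf _).apply_apply_eq_zero x, map_zero]
      obtain ⟨M, hM⟩ := C2_inj hZ.1 hσ hτ hst ((f.app _).hom y) h1
      have hd : degE (pw τ M) = a + degE (pw τ (N + M)) - (a + degE (pw τ N)) := by
        rw [pw_add, degE_add]; abel
      have h2 := hM M le_rfl _ hd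
      rw [← C2_nat_mm] at h2
      obtain ⟨x', hx'⟩ := (hf _ _).1 h2
      refine ⟨N + M, x', ?_⟩
      refine hi _ ?_
      have h3 := C2_nat_res i hσ hτ hst _ x'
      refine h3.trans ?_
      rw [hx', C2_res_mm Y hσ hτ hst _ (reg_pw σ τ M) (reg_pw τ τ M) hd, hy,
        C2_mm_mm Y hτ _ _ (pw τ (N + M)) _ _ _ _ (reg_pw τ τ _) (by abel) (pw_add τ N M).symm]
      exact (C2_nat_mm i hτ (pw τ (N + M)) (reg_pw τ τ _) (by abel) x).symm
  coker {X Y Z} f p hp hf hX hY := by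
    constructor
    · intro σ τ hσ hτ hst a z hz
      obtain ⟨y, rfl⟩ := hp _ z
      have h1 : (p.app _).hom (resL Y hσ hτ hst a y) = 0 := by
        rw [C2_nat_res]; exact hz
      obtain ⟨x, hx⟩ := (hf _ _).1 h1
      obtain ⟨N, hN⟩ := C2_surj hX.2 hσ hτ hst x
      obtain ⟨x', hx'⟩ := hN N le_rfl (a + degE (pw τ N)) (by abel)
      have h2 : resL Y hσ hτ hst _ (C2_mm Y hσ (pw τ N) (reg_pw σ τ N)
          (show degE (pw τ N) = a + degE (pw τ N) - a by abel) y - (f.app _).hom x') = 0 := by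
        rw [map_sub, C2_res_mm Y hσ hτ hst _ (reg_pw σ τ N) (reg_pw τ τ N), ← C2_nat_res, hx',
          C2_nat_mm, hx, sub_self]
      obtain ⟨M, hM⟩ := C2_inj hY.1 hσ hτ hst _ h2
      have hd : degE (pw τ M) = a + degE (pw τ (N + M)) - (a + degE (pw τ N)) := by
        rw [pw_add, degE_add]; abel
      have h3 := hM M le_rfl _ hd
      refine ⟨N + M, ?_⟩
      have h4 : C2_mm Z hσ (pw τ (N + M)) (reg_pw σ τ _)
          (show degE (pw τ (N + M)) = a + degE (pw τ (N + M)) - a by abel) ((p.app _).hom y) = 0 := by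
        rw [map_sub, sub_eq_zero, C2_mm_mm Y hσ _ _ (pw τ (N + M)) _ _ _ _ (reg_pw σ τ _) (by abel)
          (pw_add τ N M).symm] at h3
        rw [← C2_nat_mm, h3, ← C2_nat_mm]
        exact (hf _).apply_apply_eq_zero _
      exact h4
    · intro σ τ hσ hτ hst a z
      obtain ⟨y, rfl⟩ := hp _ z
      obtain ⟨N, hN⟩ := C2_surj hY.2 hσ hτ hst y
      obtain ⟨y', hy'⟩ := hN N le_rfl (a + degE (pw τ N)) (by abel)
      refine ⟨N, (p.app _).hom y', ?_⟩
      have h1 := C2_nat_res p hσ hτ hst _ y'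
      refine h1.symm.trans ?_
      rw [hy']
      exact C2_nat_mm p hτ _ _ _ y
  prod {X Y Z} p q hb hX hY := by
    constructor
    · intro σ τ hσ hτ hst a z hz
      obtain ⟨N, hN⟩ := C2_inj hX.1 hσ hτ hst ((p.app _).hom z)
        (by rw [← C2_nat_res, show resL Z hσ hτ hst a z = 0 from hz, map_zero])
      obtain ⟨M, hM⟩ := C2_inj hY.1 hσ hτ hst ((q.app _).hom z)
        (by rw [← C2_nat_res, show resL Z hσ hτ hst a z = 0 from hz, map_zero])
      refine ⟨N + M, (hb _).1 ?_⟩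
      have h1 := hN (N + M) (by omega) (a + degE (pw τ (N + M))) (by abel)
      have h2 := hM (N + M) (by omega) (a + degE (pw τ (N + M))) (by abel)
      rw [← C2_nat_mm] at h1 h2
      refine Prod.ext (h1.trans (map_zero _).symm) (h2.trans (map_zero _).symm)
    · intro σ τ hσ hτ hst a z
      obtain ⟨N, hN⟩ := C2_surj hX.2 hσ hτ hst ((p.app _).hom z)
      obtain ⟨M, hM⟩ := C2_surj hY.2 hσ hτ hst ((q.app _).hom z)
      obtain ⟨x, hx⟩ := hN (N + M) (by omega) (a + degE (pw τ (N + M))) (by abel)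
      obtain ⟨y, hy⟩ := hM (N + M) (by omega) (a + degE (pw τ (N + M))) (by abel)
      obtain ⟨w, hw⟩ := (hb _).2 (x, y)
      refine ⟨N + M, w, (hb _).1 (Prod.ext ?_ ?_)⟩
      · have h1 : (p.app _).hom w = x := congrArg Prod.fst hw
        refine (C2_nat_res p hσ hτ hst _ w).trans ?_
        rw [h1, hx]
        exact (C2_nat_mm p hτ _ _ _ z).symm
      · have h1 : (q.app _).hom w = y := congrArg Prod.snd hw
        refine (C2_nat_res q hσ hτ hst _ w).trans ?_
        rw [h1, hy]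
        exact (C2_nat_mm q hτ _ _ _ z).symm
  zero X hX := ⟨fun _ _ _ _ _ _ _ _ => ⟨0, (hX _).elim _ _⟩,
    fun _ _ _ _ _ _ _ => ⟨0, 0, (hX _).elim _ _⟩⟩

end MPbd3808.BR
end

section

/-!
# quasi-coherent sheaves: instances
-/

open CategoryTheory CategoryTheory.Limits

namespace MPbd3808.BR

universe u
variable (k : Type u) [Field k]

theorem pwClosed_isQC : PwClosed (isQC k) := (pwClosed_isFZero k).inf pwClosed_isLoc

instance : (isLoc k).ContainsZero := pwClosed_isLoc.containsZero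
instance : (isLoc k).IsClosedUnderKernels := pwClosed_isLoc.kernels
instance : (isLoc k).IsClosedUnderCokernels := pwClosed_isLoc.cokernels
instance : (isLoc k).IsClosedUnderFiniteProducts := pwClosed_isLoc.finiteProducts
instance : (isLoc k).IsClosedUnderIsomorphisms := pwClosed_isLoc.closedIso
instance : (isQC k).ContainsZero := (pwClosed_isQC k).containsZero
instance : (isQC k).IsClosedUnderKernels := (pwClosed_isQC k).kernels
instance : (isQC k).IsClosedUnderCokernels := (pwClosed_isQC k).cokernels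
instance : (isQC k).IsClosedUnderFiniteProducts := (pwClosed_isQC k).finiteProducts
instance : (isQC k).IsClosedUnderIsomorphisms := (pwClosed_isQC k).closedIso

noncomputable instance : Abelian (QCohT k) := inferInstance
noncomputable instance : Abelian (QCohW k) := inferInstance

end MPbd3808.BR
end

section

/-!
# TASK N1: extension of sections
-/

open CategoryTheory CategoryTheory.Limits

namespace MPbd3808.BR

universe u
variable {k : Type u} [Field k]

/-- the action of a morphism -/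
private noncomputable def act (X : FunCat k) {P Q : Ob} (m : P ⟶ Q) : X.obj P →ₗ[k] X.obj Q :=
  (X.map m).hom

private lemma act_act (X : FunCat k) {P Q R : Ob} (f : P ⟶ Q) (g : Q ⟶ R) (x : X.obj P) :
    act X g (act X f x) = act X (f ≫ g) x := by
  unfold act
  rw [X.map_comp, ModuleCat.hom_comp]
  rfl

private lemma act_id (X : FunCat k) {P : Ob} (x : X.obj P) : act X (𝟙 P) x = x := by
  unfold act
  rw [X.map_id, ModuleCat.hom_id]
  rfl

private lemma act_congr (X : FunCat k) {P Q : Ob} {f g : P ⟶ Q} (h : Mor.e f = Mor.e g)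
    (x : X.obj P) : act X f x = act X g x := by
  rw [hom_ext h]

private lemma reg_aux (σ τ : Finset Vr) (N : ℕ) : Reg τ (pw σ N - pw (σ ∪ τ) N) := by
  intro v hv
  simp only [pw, Pi.sub_apply, Finset.mem_union, hv, or_false, sub_self, le_refl]

private lemma degE_sub' (e e' : Ex) : degE (e - e') = degE e - degE e' := by
  rw [sub_eq_add_neg, degE_add, degE_neg, ← sub_eq_add_neg]

/-- extension to one chart -/
private def Ext1 (X : FunCat k) {σ : Finset Vr} (hσ : Full σ) (a : Deg)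
    (x : X.obj (Ob.mk σ hσ a)) (τ : Finset Vr) (hτ : Full τ) (N : ℕ)
    (y : X.obj (Ob.mk τ hτ (a + degE (pw σ N)))) : Prop :=
  act X (mk hτ (hσ.mono (Finset.subset_union_left (s₂ := τ))) Finset.subset_union_right 0
    Reg.zero (by rw [degE_zero, sub_self]) : Ob.mk τ hτ (a + degE (pw σ N)) ⟶
      Ob.mk (σ ∪ τ) (hσ.mono (Finset.subset_union_left (s₂ := τ))) (a + degE (pw σ N))) y =
  act X (mk hσ (hσ.mono (Finset.subset_union_left (s₂ := τ))) Finset.subset_union_left (pw σ N)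
    (reg_pw _ _ _) (by abel) : Ob.mk σ hσ a ⟶
      Ob.mk (σ ∪ τ) (hσ.mono (Finset.subset_union_left (s₂ := τ))) (a + degE (pw σ N))) x

private lemma ext1_exists {X : FunCat k} (hX : isLoc k X) {σ : Finset Vr} (hσ : Full σ) (a : Deg)
    (x : X.obj (Ob.mk σ hσ a)) (τ : Finset Vr) (hτ : Full τ) :
    ∃ (N : ℕ) (y : X.obj (Ob.mk τ hτ (a + degE (pw σ N)))), Ext1 X hσ a x τ hτ N y := by
  have hu : Full (σ ∪ τ) := hσ.mono Finset.subset_union_left
  obtain ⟨N, x', hx'⟩ := hX.2 τ (σ ∪ τ) hτ hu Finset.subset_union_right a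
    (act X (mk hσ hu Finset.subset_union_left 0 Reg.zero (by simp [degE_zero])) x)
  refine ⟨N, act X (mk hτ hτ (Finset.Subset.refl _) (pw σ N - pw (σ ∪ τ) N)
    (reg_aux σ τ N) (by rw [degE_sub']; abel)) x', ?_⟩
  unfold Ext1
  have h2 := congrArg (act X (mk hu hu (Finset.Subset.refl _) (pw σ N - pw (σ ∪ τ) N)
    ((reg_aux σ τ N).mono Finset.subset_union_right) (by rw [degE_sub']; abel) :
      Ob.mk (σ ∪ τ) hu (a + degE (pw (σ ∪ τ) N)) ⟶ Ob.mk (σ ∪ τ) hu (a + degE (pw σ N)))) hx'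
  rw [← act, ← act, act_act, act_act, act_act] at h2
  rw [act_act]
  refine (act_congr X ?_ _).trans (h2.trans (act_congr X ?_ _))
  · simp
  · simp

private lemma ext1_mono {X : FunCat k} {σ : Finset Vr} (hσ : Full σ) (a : Deg)
    (x : X.obj (Ob.mk σ hσ a)) (τ : Finset Vr) (hτ : Full τ) {N M : ℕ} (hNM : N ≤ M)
    (h : ∃ (y : X.obj (Ob.mk τ hτ (a + degE (pw σ N)))), Ext1 X hσ a x τ hτ N y) :
    ∃ (y : X.obj (Ob.mk τ hτ (a + degE (pw σ M)))), Ext1 X hσ a x τ hτ M y := by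
  obtain ⟨d, rfl⟩ := Nat.exists_eq_add_of_le hNM
  obtain ⟨y, hy⟩ := h
  have hu : Full (σ ∪ τ) := hσ.mono Finset.subset_union_left
  refine ⟨act X (mk hτ hτ (Finset.Subset.refl _) (pw σ d) (reg_pw _ _ _)
    (by rw [pw_add, degE_add]; abel)) y, ?_⟩
  unfold Ext1 at hy ⊢
  have h2 := congrArg (act X (mk hu hu (Finset.Subset.refl _) (pw σ d) (reg_pw _ _ _)
    (by rw [pw_add, degE_add]; abel) :
      Ob.mk (σ ∪ τ) hu (a + degE (pw σ N)) ⟶ Ob.mk (σ ∪ τ) hu (a + degE (pw σ (N + d))))) hy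
  rw [act_act, act_act] at h2
  rw [act_act]
  refine (act_congr X ?_ _).trans (h2.trans (act_congr X ?_ _))
  · simp
  · simp [pw_add]

/-- A section over a chart `σ` extends to all charts after multiplication by a power of `x_σ`.

PROOF. For every full `τ` consider `x|(σ ∪ τ)`. LocSurj for `τ ⊆ σ ∪ τ`: there are `N` and `y ∈ X(τ, ..)` with
`y|(σ∪τ) = x_{σ∪τ}^N x|(σ∪τ)`; multiply `y` by the monomial `-pw (τ \ σ) N` (regular on `τ`): we get
`y_τ ∈ X(τ, a + degE (pw σ N))` with `y_τ|(σ∪τ) = x_σ^N x|(σ∪τ)` (`pw (σ ∪ τ) N = pw σ N + pw (τ \ σ) N`). There are finitely many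
`τ`: choose one `N` for all (multiply by further powers of `x_σ`, `pw_add`). For `τ ⊆ ρ` the difference
`y_τ|ρ - y_ρ` restricts to `0` on `σ ∪ ρ`, so LocInj for `ρ ⊆ σ ∪ ρ` gives `M` with
`x_{σ∪ρ}^M (y_τ|ρ - y_ρ) = 0`, hence `x_σ^M (y_τ|ρ - y_ρ) = 0` (multiply by `-pw (ρ \ σ) M`). Choose one `M` for all pairs
and put `s_τ = x_σ^M y_τ`, of degree `a + degE (pw σ (N + M))` (transport by the exponent `0`). For `τ = σ`: `y_σ|σ = x_σ^N x`
(restriction from `σ` to `σ ∪ σ` is bijective: exponent `0`), so `s_σ = x_σ^(N+M) x`. -/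
theorem exists_section {X : FunCat k} (hX : isLoc k X) {σ : Finset Vr} (hσ : Full σ) (a : Deg)
    (x : X.obj (Ob.mk σ hσ a)) :
    ∃ (N : ℕ) (s : ∀ (τ : Finset Vr) (hτ : Full τ), X.obj (Ob.mk τ hτ (a + degE (pw σ N)))),
      (∀ (τ ρ : Finset Vr) (hτ : Full τ) (hρ : Full ρ) (h : τ ⊆ ρ),
        (X.map (res hτ hρ h (a + degE (pw σ N)))).hom (s τ hτ) = s ρ hρ) ∧
      s σ hσ = mulPw X hσ σ N a x := by
  classical
  -- one `N` for all charts
  obtain ⟨N, hN⟩ : ∃ N : ℕ, ∀ (τ : Finset Vr) (hτ : Full τ),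
      ∃ (y : X.obj (Ob.mk τ hτ (a + degE (pw σ N)))), Ext1 X hσ a x τ hτ N y := by
    have h1 : ∀ τ : Finset Vr, ∃ N : ℕ, ∀ hτ : Full τ,
        ∃ (y : X.obj (Ob.mk τ hτ (a + degE (pw σ N)))), Ext1 X hσ a x τ hτ N y := by
      intro τ
      by_cases hτ : Full τ
      · obtain ⟨N, y, hy⟩ := ext1_exists hX hσ a x τ hτ
        exact ⟨N, fun _ => ⟨y, hy⟩⟩
      · exact ⟨0, fun h => absurd h hτ⟩
    choose N hN using h1
    refine ⟨Finset.univ.sup N, fun τ hτ => ?_⟩
    exact ext1_mono hσ a x τ hτ (Finset.le_sup (Finset.mem_univ τ)) (hN τ hτ)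
  choose y hy using hN
  -- one `M` for all pairs
  obtain ⟨M, hM⟩ : ∃ M : ℕ, ∀ (τ ρ : Finset Vr) (hτ : Full τ) (hρ : Full ρ) (h : τ ⊆ ρ)
      (b : Deg) (hb : b = a + degE (pw σ (N + M))),
      act X (mk hτ hρ h (pw σ M) (reg_pw _ _ _) (by rw [hb, pw_add, degE_add]; abel) :
        Ob.mk τ hτ (a + degE (pw σ N)) ⟶ Ob.mk ρ hρ b) (y τ hτ) =
      act X (mk hρ hρ (Finset.Subset.refl _) (pw σ M) (reg_pw _ _ _)
        (by rw [hb, pw_add, degE_add]; abel) :
        Ob.mk ρ hρ (a + degE (pw σ N)) ⟶ Ob.mk ρ hρ b) (y ρ hρ) := by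
    have h1 : ∀ p : Finset Vr × Finset Vr, ∃ M : ℕ, ∀ (hτ : Full p.1) (hρ : Full p.2)
        (h : p.1 ⊆ p.2) (b : Deg) (hb : b = a + degE (pw σ (N + M))),
        act X (mk hτ hρ h (pw σ M) (reg_pw _ _ _) (by rw [hb, pw_add, degE_add]; abel) :
          Ob.mk p.1 hτ (a + degE (pw σ N)) ⟶ Ob.mk p.2 hρ b) (y p.1 hτ) =
        act X (mk hρ hρ (Finset.Subset.refl _) (pw σ M) (reg_pw _ _ _)
          (by rw [hb, pw_add, degE_add]; abel) :
          Ob.mk p.2 hρ (a + degE (pw σ N)) ⟶ Ob.mk p.2 hρ b) (y p.2 hρ) := by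
      rintro ⟨τ, ρ⟩
      by_cases hc : Full τ ∧ Full ρ ∧ τ ⊆ ρ
      · obtain ⟨hτ, hρ, h⟩ := hc
        have hu : Full (σ ∪ ρ) := hσ.mono Finset.subset_union_left
        have huτ : Full (σ ∪ τ) := hσ.mono Finset.subset_union_left
        have hinc : σ ∪ τ ⊆ σ ∪ ρ := Finset.union_subset_union_right h
        obtain ⟨M, hM⟩ := hX.1 ρ (σ ∪ ρ) hρ hu Finset.subset_union_right (a + degE (pw σ N))
          (act X (mk hτ hρ h 0 Reg.zero (by simp [degE_zero])) (y τ hτ) - y ρ hρ) (by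
            rw [← act, map_sub, act_act, sub_eq_zero]
            have e1 := hy τ hτ
            have e2 := hy ρ hρ
            unfold Ext1 at e1 e2
            have e3 := congrArg (act X (mk huτ hu hinc 0 Reg.zero (by simp [degE_zero]) :
              Ob.mk (σ ∪ τ) huτ (a + degE (pw σ N)) ⟶ Ob.mk (σ ∪ ρ) hu (a + degE (pw σ N)))) e1
            rw [act_act, act_act] at e3
            refine (act_congr X ?_ _).trans (e3.trans ((act_congr X ?_ _).trans
              (e2.symm.trans (act_congr X ?_ _))))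
            · simp
            · simp
            · simp)
        refine ⟨M, fun hτ hρ h b hb => ?_⟩
        subst hb
        have e4 := congrArg (act X (mk hρ hρ (Finset.Subset.refl _) (pw σ M - pw (σ ∪ ρ) M)
          (reg_aux σ ρ M) (by rw [degE_sub', pw_add, degE_add]; abel) :
            Ob.mk ρ hρ (a + degE (pw σ N) + degE (pw (σ ∪ ρ) M)) ⟶
              Ob.mk ρ hρ (a + degE (pw σ (N + M))))) hM
        rw [← act, map_zero, map_sub, map_sub, act_act, act_act, act_act, sub_eq_zero] at e4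
        refine (act_congr X ?_ _).trans (e4.trans (act_congr X ?_ _))
        · simp
        · simp
      · exact ⟨0, fun hτ hρ h => absurd ⟨hτ, hρ, h⟩ hc⟩
    choose M hM using h1
    refine ⟨Finset.univ.sup M, fun τ ρ hτ hρ h b hb => ?_⟩
    subst hb
    obtain ⟨d, hd⟩ := Nat.exists_eq_add_of_le
      (Finset.le_sup (f := M) (Finset.mem_univ ((τ, ρ) : Finset Vr × Finset Vr)))
    have e5 := congrArg (act X (mk hρ hρ (Finset.Subset.refl _) (pw σ d) (reg_pw _ _ _)
      (by rw [hd, ← add_assoc, pw_add σ (N + _) d, degE_add]; abel) :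
        Ob.mk ρ hρ (a + degE (pw σ (N + M (τ, ρ)))) ⟶
          Ob.mk ρ hρ (a + degE (pw σ (N + Finset.univ.sup M)))))
      (hM (τ, ρ) hτ hρ h _ rfl)
    rw [act_act, act_act] at e5
    refine (act_congr X ?_ _).trans (e5.trans (act_congr X ?_ _))
    · simp only [comp_e, mk_e]
      rw [hd, pw_add]
    · simp only [comp_e, mk_e]
      rw [hd, pw_add]
  refine ⟨N + M, fun τ hτ => act X (mk hτ hτ (Finset.Subset.refl _) (pw σ M) (reg_pw _ _ _)
    (by rw [pw_add, degE_add]; abel)) (y τ hτ), fun τ ρ hτ hρ h => ?_, ?_⟩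
  · rw [← act, act_act]
    refine (act_congr X ?_ _).trans (hM τ ρ hτ hρ h _ rfl)
    simp
  · have e1 := hy σ hσ
    unfold Ext1 at e1
    have hu : Full (σ ∪ σ) := hσ.mono Finset.subset_union_left
    have e2 := congrArg (act X (mk hu hσ (Finset.union_subset (Finset.Subset.refl _)
      (Finset.Subset.refl _)) (pw σ M) (reg_pw _ _ _) (by rw [pw_add, degE_add]; abel) :
        Ob.mk (σ ∪ σ) hu (a + degE (pw σ N)) ⟶ Ob.mk σ hσ (a + degE (pw σ (N + M))))) e1
    rw [act_act, act_act] at e2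
    unfold mulPw
    rw [← act]
    refine (act_congr X ?_ _).trans (e2.trans (act_congr X ?_ _))
    · simp
    · simp [pw_add]

end MPbd3808.BR
end

section

/-!
# TASK N2: enough line bundles
-/

open CategoryTheory CategoryTheory.Limits

namespace MPbd3808.BR

universe u
variable {k : Type u} [Field k]

private theorem N2_sec {X : FunCat k} (hX : isLoc k X) {σ : Finset Vr} (hσ : Full σ) (a : Deg)
    (x : X.obj (Ob.mk σ hσ a)) :
    ∃ (e : Deg) (s : ∀ (τ : Finset Vr) (hτ : Full τ), X.obj (Ob.mk τ hτ e)),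
      (∀ (τ ρ : Finset Vr) (hτ : Full τ) (hρ : Full ρ) (h : τ ⊆ ρ),
        (X.map (res hτ hρ h e)).hom (s τ hτ) = s ρ hρ) ∧
      ∀ (V : Ob) (m : Ob.mk σ hσ a ⟶ V), ∃ m' : Ob.mk σ hσ e ⟶ V,
        (X.map m).hom x = (X.map m').hom (s σ hσ) := by
  obtain ⟨N, s, hs, hx⟩ := exists_section hX hσ a x
  refine ⟨a + degE (pw σ N), s, hs, fun V m => ?_⟩
  have hle : σ ⊆ V.σ := Mor.le m
  have hreg : Reg V.σ (Mor.e m - pw σ N) := by
    intro v hv
    have h1 : pw σ N v = 0 := by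
      unfold pw
      rw [if_neg fun h => hv (hle h)]
    have h2 := Mor.reg m v hv
    rw [Pi.sub_apply, h1, sub_zero]
    exact h2
  have hdeg : degE (Mor.e m - pw σ N) = V.a - (a + degE (pw σ N)) := by
    have h3 : degE (Mor.e m) = V.a - a := Mor.deg m
    rw [sub_eq_add_neg, degE_add, degE_neg, h3]
    abel
  refine ⟨Mor.mk (Mor.e m - pw σ N) hle hreg hdeg, ?_⟩
  rw [hx]
  show _ = (X.map _).hom ((X.map _).hom x)
  rw [← ModuleCat.comp_apply, ← X.map_comp]
  congr 3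
  apply hom_ext
  simp only [comp_e, mul_e]
  show Mor.e m = pw σ N + (Mor.e m - pw σ N)
  abel

private theorem N2_one {X : FunCat k} (hX : isQC k X) {σ : Finset Vr} (hσ : Full σ) (a : Deg)
    (x : X.obj (Ob.mk σ hσ a)) :
    ∃ (c : Deg) (q : OWf k c ⟶ X), ∀ (V : Ob) (m : Ob.mk σ hσ a ⟶ V),
      (X.map m).hom x ∈ LinearMap.range (q.app V).hom := by
  obtain ⟨e, s, hs, hm⟩ := N2_sec (isQC_le_isLoc k X hX) hσ a x
  obtain ⟨b, rfl⟩ : ∃ b : Deg, e = -b := ⟨-e, (neg_neg e).symm⟩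
  obtain ⟨f, hf⟩ := homQQ_exists [(fP k, dF)] (by
      intro g hg
      rw [List.mem_singleton] at hg
      subst hg
      exact fP_mem) b X s (fun σ τ hσ hτ hst => hs σ τ hσ hτ hst) (by
      intro g hg τ hτ
      rw [List.mem_singleton] at hg
      subst hg
      have h1 := mP_fP X hX.1 (U := Ob.mk τ hτ (-b)) (V := Ob.mk τ hτ (-b + dF))
        (Finset.Subset.refl _) (q := 1) (by
          have h2 : (-b + dF) - -b - dF = (0 : Deg) := by abel
          show (1 : A k) ∈ gr k τ ((-b + dF) - -b - dF)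
          rw [h2]
          exact one_mem_gr τ) (s τ hτ)
      rw [mul_one] at h1
      exact h1)
  refine ⟨b, f, fun V m => ?_⟩
  obtain ⟨m', hm'⟩ := hm V m
  rw [hm', ← hf σ hσ]
  refine ⟨((OWf k b).map m').hom (oneQ [(fP k, dF)] b σ hσ), ?_⟩
  exact NatTrans.naturality_apply f m' _

/-- Let `X` be a quasi-coherent sheaf on `W`, `p : X ⟶ Y` pointwise surjective, `Y` finitely generated. There are finitely many
morphisms `q i : O_W(c i) ⟶ X` such that the images of the `q i ≫ p` generate `Y`.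

PROOF. For every chart `σ` (finitely many) let `g_1, ..., g_n` generate `Y` over `σ`, `g_i ∈ Y(σ,d_i)`, `x_i ∈ X(σ,d_i)` with
`p(x_i) = g_i`. `exists_section` gives a compatible family `s` with `s_σ = x_σ^N x_i`, of degree `e_i = d_i + degE (pw σ N)`;
`homQQ_exists` for `G = [(fP k, dF)]`, `b = -e_i` (killed by `f`: `mP_fP` with `q = 1`) gives `q : O_W(-e_i) ⟶ X` with
`q(1) = s`. On the chart `σ` the image of `q ≫ p` contains `x_σ^N g_i`, hence (apply the monomials `-pw σ N`, regular on `σ`) `g_i`,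
hence `(Y.map m) g_i` for every `m`. (The image of `q ≫ p` is stable under all `Y.map m` by naturality.) So the images
over `σ` of the finitely many `q ≫ p` obtained from `σ` span `Y(σ,a)` for all `a`. Collect all `σ` (index type
`Σ σ : {σ // Full σ}, Fin (n σ)`, equivalent to some `Fin m`). -/
theorem exists_generators {X Y : FunCat k} (hX : isQC k X) (hY : isFG k Y) (p : X ⟶ Y)
    (hp : ∀ U, Function.Surjective (p.app U).hom) :
    ∃ (n : ℕ) (c : Fin n → Deg) (q : ∀ i, OWf k (c i) ⟶ X), ∀ U : Ob,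
      ⨆ i, LinearMap.range ((q i ≫ p).app U).hom = ⊤ := by
  classical
  choose n d g hg using hY
  have hone : ∀ (σ : Finset Vr) (hσ : Full σ) (i : Fin (n σ hσ)),
      ∃ (c : Deg) (q : OWf k c ⟶ X), ∀ (V : Ob) (m : Ob.mk σ hσ (d σ hσ i) ⟶ V),
        (Y.map m).hom (g σ hσ i) ∈ LinearMap.range ((q ≫ p).app V).hom := by
    intro σ hσ i
    obtain ⟨x, hx⟩ := hp (Ob.mk σ hσ (d σ hσ i)) (g σ hσ i)
    obtain ⟨c, q, hq⟩ := N2_one hX hσ _ x
    refine ⟨c, q, fun V m => ?_⟩
    obtain ⟨z, hz⟩ := hq V m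
    refine ⟨z, ?_⟩
    rw [← hx]
    show (p.app V).hom ((q.app V).hom z) = _
    rw [hz]
    exact NatTrans.naturality_apply p m x
  choose c q hq using hone
  let I : Type := Σ σ : {σ : Finset Vr // Full σ}, Fin (n σ.1 σ.2)
  let φ : I ≃ Fin (Fintype.card I) := Fintype.equivFin I
  refine ⟨Fintype.card I, fun j => c _ _ (φ.symm j).2, fun j => q _ _ (φ.symm j).2, fun U => ?_⟩
  rw [eq_top_iff]
  intro y _
  have h1 := hg U.σ U.full U.a y
  refine Submodule.span_le.mpr ?_ h1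
  rintro _ ⟨i, m, rfl⟩
  have h2 := hq U.σ U.full i U m
  have h3 : φ.symm (φ ⟨⟨U.σ, U.full⟩, i⟩) = ⟨⟨U.σ, U.full⟩, i⟩ := φ.symm_apply_apply _
  refine (le_iSup (fun j => LinearMap.range
    ((q _ _ (φ.symm j).2 ≫ p).app U).hom) (φ ⟨⟨U.σ, U.full⟩, i⟩)) ?_
  have h4 : ∀ t : I, t = ⟨⟨U.σ, U.full⟩, i⟩ →
      (Y.map m).hom (g U.σ U.full i) ∈ LinearMap.range ((q _ _ t.2 ≫ p).app U).hom := by
    rintro t rfl
    exact h2
  exact h4 _ h3

end MPbd3808.BR
end
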