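import Mathlib
import Pool.Agent.Lib.MP_bd3808_ag.Mg.G010
import Pool.Agent.Lib.MP_bd3808_ag.BR.C6

section

/-!
# TASK H8: abelian full subcategories: exactness of the inclusion and of restricted functors
-/

open CategoryTheory CategoryTheory.Limits

namespace MPbd3808.BR

universe v v' u u'

variable {C : Type u} [Category.{v} C] [Abelian C] (P : ObjectProperty C) [P.ContainsZero]
  [P.IsClosedUnderKernels] [P.IsClosedUnderCokernels] [P.IsClosedUnderFiniteProducts]
variable {D : Type u'} [Category.{v'} D] [Abelian D] (Q : ObjectProperty D) [Q.ContainsZero]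
  [Q.IsClosedUnderKernels] [Q.IsClosedUnderCokernels] [Q.IsClosedUnderFiniteProducts]

/-- PROOF. `P.ι` is additive and preserves kernels (`ObjectProperty.preservesKernels_ι`); an additive functor
between preadditive categories with finite biproducts which preserves kernels preserves finite limits
(`Functor.preservesFiniteLimits_of_preservesKernels` or similar in
Mathlib/CategoryTheory/Preadditive/LeftExact.lean). -/
instance ι_preservesFiniteLimits : PreservesFiniteLimits P.ι := by
  have := P.preservesKernels_ι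
  exact P.ι.preservesFiniteLimits_of_preservesKernels

/-- PROOF. Dual (`ObjectProperty.preservesCokernels_ι`). -/
instance ι_preservesFiniteColimits : PreservesFiniteColimits P.ι := by
  have := P.preservesCokernels_ι
  exact P.ι.preservesFiniteColimits_of_preservesCokernels

/-- The restriction of a functor to full subcategories. -/
def restr (F : C ⥤ D) (h : ∀ X, P X → Q (F.obj X)) : P.FullSubcategory ⥤ Q.FullSubcategory :=
  Q.lift (P.ι ⋙ F) fun X => h X.obj X.property

variable (F : C ⥤ D) (h : ∀ X, P X → Q (F.obj X))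

instance restr_additive [F.Additive] : (restr P Q F h).Additive where
  map_add {X Y f g} := by
    apply Q.ι.map_injective
    change F.map (P.ι.map (f + g)) = _
    rw [P.ι.map_add, F.map_add]
    rfl

/-- PROOF. `restr P Q F h ⋙ Q.ι` is (isomorphic to) `P.ι ⋙ F`, which preserves finite limits, and `Q.ι` is fully
faithful, so it reflects limits (`preservesLimit_of_reflects_of_preserves` or similar). -/
instance restr_preservesFiniteLimits [PreservesFiniteLimits F] :
    PreservesFiniteLimits (restr P Q F h) := by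
  have h1 : PreservesFiniteLimits (restr P Q F h ⋙ Q.ι) :=
    inferInstanceAs (PreservesFiniteLimits (P.ι ⋙ F))
  exact preservesFiniteLimits_of_reflects_of_preserves (restr P Q F h) Q.ι

/-- PROOF. Dual. -/
instance restr_preservesFiniteColimits [PreservesFiniteColimits F] :
    PreservesFiniteColimits (restr P Q F h) := by
  have h1 : PreservesFiniteColimits (restr P Q F h ⋙ Q.ι) :=
    inferInstanceAs (PreservesFiniteColimits (P.ι ⋙ F))
  exact preservesFiniteColimits_of_reflects_of_preserves (restr P Q F h) Q.ι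

end MPbd3808.BR
end

section

/-!
# TASK H9: short exact sequences in abelian subcategories of `FunCat k`, pointwise
-/

open CategoryTheory CategoryTheory.Limits

namespace MPbd3808.BR

universe u
variable {k : Type u} [Field k]

/-- `0 → X → Y → Z → 0` is exact at every object of `Ob` -/
def PwSES {X Y Z : FunCat k} (f : X ⟶ Y) (g : Y ⟶ Z) : Prop :=
  ∀ U : Ob, Function.Injective (f.app U).hom ∧ Function.Exact (f.app U).hom (g.app U).hom ∧
    Function.Surjective (g.app U).hom

theorem PwSES.comp_eq_zero {X Y Z : FunCat k} {f : X ⟶ Y} {g : Y ⟶ Z} (h : PwSES f g) :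
    f ≫ g = 0 := by
  ext U x
  exact ((h U).2.1 ((f.app U).hom x)).2 ⟨x, rfl⟩

variable (P : ObjectProperty (FunCat k)) [P.ContainsZero] [P.IsClosedUnderKernels]
  [P.IsClosedUnderCokernels] [P.IsClosedUnderFiniteProducts]

private lemma H9_exact (S : ShortComplex (FunCat k)) :
    S.Exact ↔ ∀ U : Ob, Function.Exact (S.f.app U).hom (S.g.app U).hom := by
  rw [ShortComplex.exact_iff_isZero_homology, Functor.isZero_iff]
  refine forall_congr' fun U => ?_
  have e := S.mapHomologyIso ((evaluation Ob (ModuleCat.{u} k)).obj U)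
  have h1 : IsZero (S.homology.obj U) ↔
      (S.map ((evaluation Ob (ModuleCat.{u} k)).obj U)).Exact := by
    rw [ShortComplex.exact_iff_isZero_homology]
    exact e.isZero_iff.symm
  rw [h1]
  exact ShortComplex.ShortExact.moduleCat_exact_iff_function_exact _

/-- PROOF. `P.ι` preserves and reflects monomorphisms (H8; a fully faithful functor reflects them, an exact
functor preserves them); monomorphisms of functors to `ModuleCat` are pointwise
(`NatTrans.mono_iff_mono_app`, `ModuleCat.mono_iff_injective`). -/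
theorem mono_iff_pw {X Y : P.FullSubcategory} (f : X ⟶ Y) :
    Mono f ↔ ∀ U : Ob, Function.Injective (f.hom.app U).hom := by
  rw [← P.ι.mono_map_iff_mono f, NatTrans.mono_iff_mono_app]
  exact forall_congr' fun U => ModuleCat.mono_iff_injective _

/-- PROOF. Dual. -/
theorem epi_iff_pw {X Y : P.FullSubcategory} (f : X ⟶ Y) :
    Epi f ↔ ∀ U : Ob, Function.Surjective (f.hom.app U).hom := by
  rw [← P.ι.epi_map_iff_epi f, NatTrans.epi_iff_epi_app]
  exact forall_congr' fun U => ModuleCat.epi_iff_surjective _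

/-- PROOF. `NatTrans.isIso_iff_isIso_app` and `ConcreteCategory.isIso_iff_bijective` /
`LinearEquiv.toModuleIso`. -/
theorem isIso_iff_pw {X Y : P.FullSubcategory} (f : X ⟶ Y) :
    IsIso f ↔ ∀ U : Ob, Function.Bijective (f.hom.app U).hom := by
  rw [← isIso_iff_of_reflects_iso f P.ι, NatTrans.isIso_iff_isIso_app]
  exact forall_congr' fun U => ConcreteCategory.isIso_iff_bijective _

/-- PROOF. `X` is zero iff `𝟙 X = 0` iff pointwise. -/
theorem isZero_iff_pw (X : P.FullSubcategory) :
    IsZero X ↔ ∀ U : Ob, Subsingleton (X.obj.obj U) := by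
  constructor
  · intro h U
    have h1 : 𝟙 X = 0 := h.eq_of_src _ _
    have h2 : ∀ x : X.obj.obj U, x = 0 := by
      intro x
      have h3 := congrArg (fun f : X ⟶ X => (f.hom.app U).hom x) h1
      exact h3
    exact ⟨fun x y => (h2 x).trans (h2 y).symm⟩
  · intro h
    rw [IsZero.iff_id_eq_zero]
    apply P.ι.map_injective
    ext U x
    exact @Subsingleton.elim _ (h U) _ _

/-- PROOF. `S.ShortExact`: exact, mono, epi. Exactness in the abelian subcategory is exactness in `FunCat k`
(`ShortComplex.exact_map_iff_of_faithful` for `P.ι`, which preserves finite limits and colimits), and that is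
pointwise: `ShortComplex.exact_iff_evaluation` or: all `(evaluation _ _).obj U` are exact and jointly reflect zero
objects (the homology), `ShortComplex.moduleCat_exact_iff`. -/
theorem shortExact_iff_pw (S : ShortComplex P.FullSubcategory) :
    S.ShortExact ↔ PwSES S.f.hom S.g.hom := by
  have hex : S.Exact ↔ ∀ U : Ob, Function.Exact (S.f.hom.app U).hom (S.g.hom.app U).hom := by
    rw [← S.exact_map_iff_of_faithful P.ι]
    exact H9_exact (S.map P.ι)
  constructor
  · intro h U
    have h1 := h.mono_f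
    have h2 := h.epi_g
    exact ⟨(mono_iff_pw P S.f).1 h1 U, hex.1 h.exact U, (epi_iff_pw P S.g).1 h2 U⟩
  · intro h
    have h1 : Mono S.f := (mono_iff_pw P S.f).2 fun U => (h U).1
    have h2 : Epi S.g := (epi_iff_pw P S.g).2 fun U => (h U).2.2
    exact { exact := hex.2 fun U => (h U).2.1 }

end MPbd3808.BR
end

section

/-!
# Localization and twist functors: definitions
-/

open CategoryTheory CategoryTheory.Limits

namespace MPbd3808.BR

/-- `(σ,a) ↦ (σ ∪ J, a)` -/
def locOb (J : Finset Vr) : Ob ⥤ Ob where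
  obj U := ⟨U.σ ∪ J, U.full.mono Finset.subset_union_left, U.a⟩
  map m := Mor.mk (Mor.e m) (Finset.union_subset_union_left (Mor.le m))
    ((Mor.reg m).mono Finset.subset_union_left) (Mor.deg m)
  map_id _ := rfl
  map_comp _ _ := rfl

/-- the restriction `(σ,a) ⟶ (σ ∪ J, a)` -/
def unitOb (J : Finset Vr) : 𝟭 Ob ⟶ locOb J where
  app U := Mor.mk 0 Finset.subset_union_left Reg.zero (by simp [degE_zero, locOb])
  naturality {U V} m := hom_ext (by
    change Mor.e m + 0 = 0 + Mor.e m
    rw [add_zero, zero_add])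

/-- `(σ,a) ↦ (σ, a + c)` -/
def twOb (c : Deg) : Ob ⥤ Ob where
  obj U := ⟨U.σ, U.full, U.a + c⟩
  map {U V} m := Mor.mk (Mor.e (X := U) (Y := V) m) (Mor.le (X := U) (Y := V) m)
    (Mor.reg (X := U) (Y := V) m) (by
      change degE (Mor.e (X := U) (Y := V) m) = V.a + c - (U.a + c)
      rw [Mor.deg (X := U) (Y := V) m]; abel)
  map_id _ := rfl
  map_comp _ _ := rfl

universe u
variable (k : Type u) [Field k]

/-- `(L_J X)(σ,a) = X(σ ∪ J, a)` -/
abbrev locF (J : Finset Vr) : FunCat k ⥤ FunCat k :=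
  (Functor.whiskeringLeft Ob Ob (ModuleCat.{u} k)).obj (locOb J)

/-- `X ⟶ L_J X` -/
def unitF (J : Finset Vr) : 𝟭 (FunCat k) ⟶ locF k J where
  app X :=
    { app := fun U => X.map ((unitOb J).app U)
      naturality := fun U V m => by
        change X.map m ≫ X.map _ = X.map _ ≫ X.map ((locOb J).map m)
        rw [← X.map_comp, ← X.map_comp]
        exact congrArg X.map ((unitOb J).naturality m) }
  naturality X Y f := by
    ext U : 2
    exact (f.naturality ((unitOb J).app U)).symm

/-- `(T_c X)(σ,a) = X(σ, a + c)` -/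
abbrev twF (c : Deg) : FunCat k ⥤ FunCat k :=
  (Functor.whiskeringLeft Ob Ob (ModuleCat.{u} k)).obj (twOb c)

end MPbd3808.BR
end

section

/-!
# TASK W5: `k[u0,u1]_1` has dimension 2

The exponents `e` with `Reg ∅ e` (all `e v ≥ 0`) and `degE e = (0;1,0,0)` are `Pi.single 2 1` and `Pi.single 3 1`:
`e 0 + e 1 = 0`, `e 2 + e 3 - e 4 = 1`, `e 4 + e 5 = 0`, `e 6 + e 7 + e 8 + e 9 = 0`. So `gr k ∅ c` is the span of `mon (Pi.single 2 1)`, `mon (Pi.single 3 1)`, which
are linearly independent (compare coefficients).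
-/

set_option autoImplicit false

noncomputable section

open CategoryTheory CategoryTheory.Limits

namespace MPbd3808.BR.SX

universe u v w

variable (k : Type u) [Field k]

/-- The exponent of `u0`. -/
def W5_e2 : Ex := ![0,0,1,0,0,0,0,0,0,0]

/-- The exponent of `u1`. -/
def W5_e3 : Ex := ![0,0,0,1,0,0,0,0,0,0]

theorem W5_deg2 : degE W5_e2 = ![0,1,0,0] := by
  funext i
  fin_cases i <;> simp [degE, W5_e2, dg, Fin.sum_univ_succ]

theorem W5_deg3 : degE W5_e3 = ![0,1,0,0] := by
  funext i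
  fin_cases i <;> simp [degE, W5_e3, dg, Fin.sum_univ_succ]

theorem W5_reg2 : Reg ∅ W5_e2 := by
  intro v _
  fin_cases v <;> simp [W5_e2]

theorem W5_reg3 : Reg ∅ W5_e3 := by
  intro v _
  fin_cases v <;> simp [W5_e3]

theorem W5_ne : W5_e2 ≠ W5_e3 := by
  intro h
  have := congrFun h 2
  simp [W5_e2, W5_e3] at this

theorem W5_cases {e : Ex} (hr : Reg ∅ e) (hd : degE e = ![0,1,0,0]) : e = W5_e2 ∨ e = W5_e3 := by
  have h0 := congrFun hd 0
  have h1 := congrFun hd 1
  have h2 := congrFun hd 2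
  have h3 := congrFun hd 3
  simp [degE, dg, Fin.sum_univ_succ] at h0 h1 h2 h3
  have r := fun v => hr v (by simp)
  have r0 := r 0
  have r1 := r 1
  have r2 := r 2
  have r3 := r 3
  have r4 := r 4
  have r5 := r 5
  have r6 := r 6
  have r7 := r 7
  have r8 := r 8
  have r9 := r 9
  have h23 : (e 2 = 1 ∧ e 3 = 0) ∨ (e 2 = 0 ∧ e 3 = 1) := by omega
  rcases h23 with ⟨h2', h3'⟩ | ⟨h2', h3'⟩
  · left
    funext v
    fin_cases v <;> simp [W5_e2] <;> omega
  · right
    funext v
    fin_cases v <;> simp [W5_e3] <;> omega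

theorem finrank_gr : Module.finrank k (gr k ∅ ![0,1,0,0]) = 2 := by
  let b : Fin 2 → A k := ![mon W5_e2, mon W5_e3]
  have hli : LinearIndependent k b := by
    rw [LinearIndependent.pair_iff]
    intro s t hst
    have h2 := congrArg (fun p : A k => p.coeff W5_e2) hst
    have h3 := congrArg (fun p : A k => p.coeff W5_e3) hst
    simp [W5_ne, W5_ne.symm] at h2 h3
    exact ⟨h2, h3⟩
  have hspan : gr k ∅ ![0,1,0,0] = Submodule.span k (Set.range b) := by
    apply le_antisymm
    · intro p hp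
      have h1 : p = p.coeff W5_e2 • b 0 + p.coeff W5_e3 • b 1 := by
        ext e
        show p.coeff e = (p.coeff W5_e2 • (mon W5_e2 : A k) + p.coeff W5_e3 • (mon W5_e3 : A k)).coeff e
        simp only [AddMonoidAlgebra.coeff_add, AddMonoidAlgebra.coeff_smul, Finsupp.add_apply,
          Finsupp.smul_apply, AddMonoidAlgebra.coeff_single, Finsupp.single_apply]
        by_cases he : p.coeff e = 0
        · have e2 : W5_e2 = e → p.coeff W5_e2 = 0 := fun h => by rw [h, he]
          have e3 : W5_e3 = e → p.coeff W5_e3 = 0 := fun h => by rw [h, he]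
          rw [he]
          split_ifs with h2 h3 h3 <;> simp_all
        · obtain ⟨h1, h2⟩ := hp e he
          rcases W5_cases h1 h2 with h | h
          · rw [h, if_pos rfl, if_neg W5_ne.symm]
            simp
          · rw [h, if_pos rfl, if_neg W5_ne]
            simp
      rw [h1]
      exact Submodule.add_mem _ (Submodule.smul_mem _ _ (Submodule.subset_span ⟨0, rfl⟩))
        (Submodule.smul_mem _ _ (Submodule.subset_span ⟨1, rfl⟩))
    · rw [Submodule.span_le]
      rintro _ ⟨i, rfl⟩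
      fin_cases i
      · intro e he
        have : e = W5_e2 := by
          by_contra h
          apply he
          show (mon W5_e2 : A k).coeff e = 0
          rw [AddMonoidAlgebra.coeff_single, Finsupp.single_eq_of_ne h]
        rw [this]
        exact ⟨W5_reg2, W5_deg2⟩
      · intro e he
        have : e = W5_e3 := by
          by_contra h
          apply he
          show (mon W5_e3 : A k).coeff e = 0
          rw [AddMonoidAlgebra.coeff_single, Finsupp.single_eq_of_ne h]
        rw [this]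
        exact ⟨W5_reg3, W5_deg3⟩
  rw [hspan, finrank_span_eq_card hli]
  rfl

end MPbd3808.BR.SX
end
end

section

/-!
# Multiplications and projections between the sheaves `QQ G b`: definitions
-/

open CategoryTheory CategoryTheory.Limits

namespace MPbd3808.BR

universe u
variable {k : Type u} [Field k]

/-- multiplication by a homogeneous polynomial of degree `d`, `QQ G b ⟶ QQ G b'`, `b' = b + d` -/
noncomputable def mulBy (G : List (A k × Deg)) (p : A k) (d : Deg) (hp : p ∈ gr k ∅ d) (b b' : Deg)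
    (hb : b' = b + d) : QQ G b ⟶ QQ G b' :=
  mapQQ G G p d hp (fun σ c q hq => by
    simpa [add_comm] using mul_mem_idl G (gr_mono (Finset.empty_subset σ) d hp) hq) b b' hb

/-- projection `QQ G b ⟶ QQ G' b` for ideals `G ⊆ G'` -/
noncomputable def projQ (G G' : List (A k × Deg))
    (h : ∀ (σ : Finset Vr) (c : Deg), idl G σ c ≤ idl G' σ c) (b : Deg) : QQ G b ⟶ QQ G' b :=
  mapQQ G G' 1 0 (one_mem_gr ∅) (fun σ c q hq => by
    rw [one_mul, add_zero]; exact h σ c hq) b b (add_zero b).symm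

/-- the projection `QQ G b ⟶ QQ (g :: G) b` -/
noncomputable def projC (g : A k × Deg) (G : List (A k × Deg)) (b : Deg) :
    QQ G b ⟶ QQ (g :: G) b :=
  projQ G (g :: G) (fun _ _ => le_sup_right) b

/-- `g` is regular modulo `G` on the chart `σ` -/
def RegMod (G : List (A k × Deg)) (σ : Finset Vr) (g : A k) (d : Deg) : Prop :=
  ∀ (c : Deg), ∀ q ∈ gr k σ c, g * q ∈ idl G σ (c + d) → q ∈ idl G σ c

end MPbd3808.BR
end

section

/-!
# TASK B7: divisibility in the rings of the charts
-/

open CategoryTheory CategoryTheory.Limits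

namespace MPbd3808.BR

universe u
variable {k : Type u} [Field k]

/-- the Laurent polynomials which are regular on the chart `σ` (not necessarily homogeneous) -/
def AR (k : Type u) [Field k] (σ : Finset Vr) : Subalgebra k (A k) where
  carrier := {p | ∀ e, p.coeff e ≠ 0 → Reg σ e}
  mul_mem' := by
    intro p q hp hq e he
    classical
    have := AddMonoidAlgebra.support_coeff_mul_subset (x := p) (y := q) (Finsupp.mem_support_iff.2 he)
    obtain ⟨a, ha, b, hb, rfl⟩ := Finset.mem_add.1 this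
    exact (hp a (Finsupp.mem_support_iff.1 ha)).add (hq b (Finsupp.mem_support_iff.1 hb))
  add_mem' := by
    intro p q hp hq e he
    by_cases h : p.coeff e = 0
    · exact hq e fun h' => he (by simp [h, h'])
    · exact hp e h
  algebraMap_mem' := by
    intro r e he
    by_cases h : e = 0
    · subst h; exact Reg.zero
    · exact absurd (by simp [Ne.symm h]) he

/-- the part of `p` without the variable `v` -/
noncomputable def at0 (v : Vr) (p : A k) : A k := AddMonoidAlgebra.ofCoeff (p.coeff.filter fun e => e v = 0)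

/-- the Laurent polynomial ring is a domain. PROOF. `AddMonoidAlgebra` over an ordered / torsion free abelian
group (`ℤ^10`): Mathlib's `NoZeroDivisors` instance with `UniqueSums` (or `TwoUniqueSums`) for Pi types or for linearly ordered groups
(`Lex (Fin 10 → ℤ)`, an additive equivalence). -/
instance : NoZeroDivisors (A k) := by
  infer_instance

/-- PROOF. Reformulation: coefficients. -/
theorem mem_gr_iff (σ : Finset Vr) (c : Deg) (p : A k) :
    p ∈ gr k σ c ↔ p ∈ AR k σ ∧ ∀ e, p.coeff e ≠ 0 → degE e = c := by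
  constructor
  · intro hp
    exact ⟨fun e he => (hp e he).1, fun e he => (hp e he).2⟩
  · rintro ⟨h1, h2⟩ e he
    exact ⟨h1 e he, h2 e he⟩

private theorem B7_coeff_at0 (v : Vr) (p : A k) (e : Ex) :
    (at0 v p).coeff e = if e v = 0 then p.coeff e else 0 := by
  unfold at0
  rw [AddMonoidAlgebra.coeff_ofCoeff, Finsupp.filter_apply]

private theorem B7_at0_add (v : Vr) (p q : A k) : at0 v (p + q) = at0 v p + at0 v q := by
  ext e
  rw [AddMonoidAlgebra.coeff_add, Finsupp.add_apply, B7_coeff_at0, B7_coeff_at0, B7_coeff_at0,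
    AddMonoidAlgebra.coeff_add, Finsupp.add_apply]
  split_ifs <;> simp

private theorem B7_at0_self {v : Vr} {p : A k} (h : ∀ e, p.coeff e ≠ 0 → e v = 0) :
    at0 v p = p := by
  ext e
  rw [B7_coeff_at0]
  split_ifs with h1
  · rfl
  · by_contra h2
    exact h1 (h e fun h3 => h2 h3.symm)

private theorem B7_at0_zero {v : Vr} {p : A k} (h : ∀ e, p.coeff e ≠ 0 → e v ≠ 0) :
    at0 v p = 0 := by
  ext e
  rw [B7_coeff_at0, AddMonoidAlgebra.coeff_zero, Finsupp.zero_apply]
  split_ifs with h1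
  · by_contra h2
    exact h e h2 h1
  · rfl

private theorem B7_mul_coeff {p q : A k} {e : Ex} (h : (p * q).coeff e ≠ 0) :
    ∃ a b, p.coeff a ≠ 0 ∧ q.coeff b ≠ 0 ∧ e = a + b := by
  classical
  have := AddMonoidAlgebra.support_coeff_mul_subset (x := p) (y := q) (Finsupp.mem_support_iff.2 h)
  obtain ⟨a, ha, b, hb, rfl⟩ := Finset.mem_add.1 this
  exact ⟨a, b, Finsupp.mem_support_iff.1 ha, Finsupp.mem_support_iff.1 hb, rfl⟩

private theorem B7_split (v : Vr) (p : A k) : ∃ r : A k, p = at0 v p + r ∧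
    ∀ e, r.coeff e ≠ 0 → e v ≠ 0 ∧ p.coeff e ≠ 0 := by
  refine ⟨p - at0 v p, by abel, fun e he => ?_⟩
  have h1 : (p - at0 v p).coeff e = p.coeff e - (at0 v p).coeff e := rfl
  rw [h1, B7_coeff_at0] at he
  split_ifs at he with h2
  · exact absurd (sub_self _) he
  · exact ⟨h2, by rwa [sub_zero] at he⟩

private theorem B7_at0_coeff {v : Vr} {p : A k} {e : Ex} (h : (at0 v p).coeff e ≠ 0) :
    e v = 0 ∧ p.coeff e ≠ 0 := by
  rw [B7_coeff_at0] at h
  split_ifs at h with h1
  · exact ⟨h1, h⟩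
  · exact absurd rfl h

private theorem B7_mon_ne (e : Ex) : (mon e : A k) ≠ 0 := by
  intro h
  have h1 := congrArg (fun p : A k => p.coeff e) h
  simp at h1

private theorem B7_mon_mul (e e' : Ex) : (mon e * mon e' : A k) = mon (e + e') := by
  unfold mon
  rw [AddMonoidAlgebra.single_mul_single, one_mul]

private theorem B7_mon_cancel (e : Ex) (p : A k) : mon e * (mon (-e) * p) = p := by
  rw [← mul_assoc, B7_mon_mul, add_neg_cancel]
  unfold mon
  rw [← AddMonoidAlgebra.one_def, one_mul]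

private theorem B7_coeff_mon_mul (e e' : Ex) (p : A k) :
    (mon e * p).coeff e' = p.coeff (-e + e') := by
  unfold mon
  rw [AddMonoidAlgebra.coeff_single_mul_apply, one_mul]

private theorem B7_mon_mem {σ : Finset Vr} {e : Ex} (he : ∀ v, 0 ≤ e v) : (mon e : A k) ∈ AR k σ := by
  intro e' he'
  by_cases h : e = e'
  · subst h
    exact fun v _ => he v
  · exact absurd (by simp [h]) he'

private theorem B7_single_nonneg (v w : Vr) : 0 ≤ (Pi.single v (1 : ℤ) : Ex) w := by
  by_cases h : w = v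
  · subst h
    simp
  · simp [h]

/-- For `v ∉ σ`, `p ↦ at0 v p` is multiplicative on `AR σ` (setting `x_v = 0`).

PROOF. On `AR σ` all exponents of `v` are `≥ 0`, and `e v + e' v = 0` iff both are `0`. By bilinearity check monomials. -/
theorem at0_mul {σ : Finset Vr} {v : Vr} (hv : v ∉ σ) {p q : A k} (hp : p ∈ AR k σ) (hq : q ∈ AR k σ) :
    at0 v (p * q) = at0 v p * at0 v q := by
  obtain ⟨p', hp', hp''⟩ := B7_split v p
  obtain ⟨q', hq', hq''⟩ := B7_split v q
  have hpos : ∀ {r : A k}, r ∈ AR k σ → ∀ e, r.coeff e ≠ 0 → 0 ≤ e v := fun hr e he => hr e he v hv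
  have h0 : p * q = at0 v p * at0 v q + (at0 v p * q' + p' * q) := by
    conv_lhs => rw [hp', hq', add_mul, mul_add, ← hq']
    ring
  have hz : at0 v (at0 v p * q' + p' * q) = 0 := by
    refine B7_at0_zero fun e he => ?_
    have h1 : (at0 v p * q').coeff e ≠ 0 ∨ (p' * q).coeff e ≠ 0 := by
      by_contra hcon
      rw [not_or, not_not, not_not] at hcon
      apply he
      rw [AddMonoidAlgebra.coeff_add, Finsupp.add_apply, hcon.1, hcon.2, add_zero]
    rcases h1 with h1 | h1
    · obtain ⟨a, b, ha, hb, rfl⟩ := B7_mul_coeff h1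
      have h2 := B7_at0_coeff ha
      have h3 := hq'' b hb
      have h4 := hpos hq b h3.2
      rw [Pi.add_apply, h2.1, zero_add]
      exact h3.1
    · obtain ⟨a, b, ha, hb, rfl⟩ := B7_mul_coeff h1
      have h3 := hp'' a ha
      have h4 := hpos hp a h3.2
      have h5 := hpos hq b hb
      have h6 := h3.1
      rw [Pi.add_apply]
      omega
  have hs : at0 v (at0 v p * at0 v q) = at0 v p * at0 v q := by
    refine B7_at0_self fun e he => ?_
    obtain ⟨a, b, ha, hb, rfl⟩ := B7_mul_coeff he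
    rw [Pi.add_apply, (B7_at0_coeff ha).1, (B7_at0_coeff hb).1, add_zero]
  rw [h0, B7_at0_add, hz, hs, add_zero]

/-- PROOF. For `v ∉ σ` and `p ∈ AR σ`: `at0 v p = 0` iff all exponents of `v` are `≥ 1` iff `p = x_v * p'` with
`p' = mon (-[v]) * p ∈ AR σ`. -/
theorem at0_eq_zero_iff {σ : Finset Vr} {v : Vr} (hv : v ∉ σ) {p : A k} (hp : p ∈ AR k σ) :
    at0 v p = 0 ↔ ∃ p' ∈ AR k σ, p = mon (Pi.single v 1) * p' := by
  constructor
  · intro h
    refine ⟨mon (-(Pi.single v 1)) * p, ?_, (B7_mon_cancel _ _).symm⟩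
    intro e he w hw
    rw [B7_coeff_mon_mul, neg_neg] at he
    have h1 := hp _ he w hw
    rw [Pi.add_apply] at h1
    by_cases hwv : w = v
    · subst hwv
      have h2 : ((Pi.single w 1 : Ex) + e) w ≠ 0 := by
        intro h3
        have h4 := B7_coeff_at0 w p (Pi.single w 1 + e)
        rw [h, if_pos h3] at h4
        exact he h4.symm
      rw [Pi.add_apply, Pi.single_eq_same] at h2
      rw [Pi.single_eq_same] at h1
      omega
    · rw [Pi.single_eq_of_ne hwv, zero_add] at h1
      exact h1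
  · rintro ⟨p', hp', rfl⟩
    refine B7_at0_zero fun e he h1 => ?_
    rw [B7_coeff_mon_mul] at he
    have h2 := hp' _ he v hv
    rw [Pi.add_apply, Pi.neg_apply, Pi.single_eq_same, h1] at h2
    omega

/-- PROOF. `(mon (-[v])) * p`, coefficients. -/
theorem AR_div {σ : Finset Vr} {v : Vr} (hv : v ∈ σ) {p : A k} (hp : p ∈ AR k σ) :
    ∃ p' ∈ AR k σ, p = mon (Pi.single v 1) * p' := by
  refine ⟨mon (-(Pi.single v 1)) * p, ?_, (B7_mon_cancel _ _).symm⟩
  intro e he w hw
  rw [B7_coeff_mon_mul, neg_neg] at he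
  have h1 := hp _ he w hw
  have hwv : w ≠ v := by
    rintro rfl
    exact hw hv
  rw [Pi.add_apply, Pi.single_eq_of_ne hwv, zero_add] at h1
  exact h1

/-- If `x_v` divides `g c'` and `g|_{x_v=0} ≠ 0` then `x_v` divides `c'`.

PROOF. `v ∈ σ`: `AR_div`. `v ∉ σ`: `0 = at0 v (mon [v] * c) = at0 v g * at0 v c'` (`at0_mul`, `at0_eq_zero_iff`), domain,
`at0_eq_zero_iff`. -/
theorem var_dvd {σ : Finset Vr} (v : Vr) {g c c' : A k} (hg : g ∈ AR k σ) (h0 : at0 v g ≠ 0)
    (hc : c ∈ AR k σ) (hc' : c' ∈ AR k σ) (h : mon (Pi.single v 1) * c = g * c') :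
    ∃ c'' ∈ AR k σ, c' = mon (Pi.single v 1) * c'' := by
  by_cases hv : v ∈ σ
  · exact AR_div hv hc'
  · have h1 : at0 v (mon (Pi.single v 1) * c) = 0 :=
      (at0_eq_zero_iff hv (Subalgebra.mul_mem _ (B7_mon_mem (B7_single_nonneg v)) hc)).2 ⟨c, hc, rfl⟩
    rw [h, at0_mul hv hg hc'] at h1
    rcases mul_eq_zero.1 h1 with h2 | h2
    · exact absurd h2 h0
    · exact (at0_eq_zero_iff hv hc').1 h2

/-- The same for a monomial `x^e`, `e ≥ 0`. PROOF. Induction on `∑ e v`: `x^e = x_v * x^(e - [v])`; domain. -/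
theorem mon_dvd {σ : Finset Vr} {e : Ex} (he : ∀ v, 0 ≤ e v) {g c c' : A k} (hg : g ∈ AR k σ)
    (h0 : ∀ v, at0 v g ≠ 0) (hc : c ∈ AR k σ) (hc' : c' ∈ AR k σ) (h : mon e * c = g * c') :
    ∃ c'' ∈ AR k σ, c' = mon e * c'' := by
  obtain ⟨n, hn⟩ : ∃ n : ℕ, n = ∑ v, (e v).toNat := ⟨_, rfl⟩
  induction n generalizing e c c' with
  | zero =>
    have h1 : e = 0 := by
      funext v
      have h2 := (Finset.sum_eq_zero_iff.1 hn.symm) v (Finset.mem_univ v)
      have h3 := he v
      rw [Pi.zero_apply]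
      omega
    subst h1
    refine ⟨c', hc', ?_⟩
    unfold mon
    rw [← AddMonoidAlgebra.one_def, one_mul]
  | succ n ih =>
    obtain ⟨v, hv⟩ : ∃ v, 0 < e v := by
      by_contra hcon
      rw [not_exists] at hcon
      have h2 : ∑ v, (e v).toNat = 0 := Finset.sum_eq_zero fun v _ => by
        have := hcon v
        omega
      omega
    obtain ⟨e', he'⟩ : ∃ e' : Ex, e' = -(Pi.single v 1) + e := ⟨_, rfl⟩
    have hee : e = Pi.single v 1 + e' := by rw [he']; abel
    have he'0 : ∀ w, 0 ≤ e' w := by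
      intro w
      rw [he', Pi.add_apply, Pi.neg_apply]
      by_cases hwv : w = v
      · subst hwv
        rw [Pi.single_eq_same]
        omega
      · rw [Pi.single_eq_of_ne hwv]
        have := he w
        omega
    have hsum : n = ∑ w, (e' w).toNat := by
      have h1 : ∑ w, (e w).toNat = ∑ w, (e' w).toNat + 1 := by
        have h2 : ∀ w, (e w).toNat = (e' w).toNat + if w = v then 1 else 0 := by
          intro w
          have h3 := he'0 w
          rw [hee, Pi.add_apply]
          by_cases hwv : w = v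
          · subst hwv
            rw [Pi.single_eq_same, if_pos rfl]
            omega
          · rw [Pi.single_eq_of_ne hwv, if_neg hwv, zero_add, add_zero]
        rw [Finset.sum_congr rfl fun w _ => h2 w, Finset.sum_add_distrib,
          Finset.sum_ite_eq' Finset.univ v, if_pos (Finset.mem_univ v)]
      omega
    have hc2 : mon e' * c ∈ AR k σ := Subalgebra.mul_mem _ (B7_mon_mem he'0) hc
    have h1 : mon (Pi.single v 1) * (mon e' * c) = g * c' := by
      rw [← mul_assoc, B7_mon_mul, ← hee, h]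
    obtain ⟨c1, hc1, hc1'⟩ := var_dvd v hg (h0 v) hc2 hc' h1
    have h2 : mon e' * c = g * c1 := by
      rw [hc1'] at h1
      have h3 : mon (Pi.single v 1) * (mon e' * c) = mon (Pi.single v 1) * (g * c1) := by
        rw [h1]
        ring
      exact mul_left_cancel₀ (B7_mon_ne _) h3
    obtain ⟨c2, hc2, hc2'⟩ := ih he'0 hc hc1 h2 hsum
    refine ⟨c2, hc2, ?_⟩
    rw [hc1', hc2', ← mul_assoc, B7_mon_mul, ← hee]

private theorem B7_ne_of_coeff {p : A k} {v : Vr} {e : Ex} (he : e v = 0) (h : p.coeff e ≠ 0) :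
    at0 v p ≠ 0 := by
  intro h1
  have h2 := B7_coeff_at0 v p e
  rw [h1, if_pos he] at h2
  exact h h2.symm

private theorem B7_coeff_mon (e e' : Ex) : (mon e : A k).coeff e' = if e = e' then 1 else 0 := by
  unfold mon
  rw [AddMonoidAlgebra.coeff_single_apply]

private theorem B7_coeff3 (a b c e : Ex) : (mon a - mon b - mon c : A k).coeff e =
    (if a = e then 1 else 0) - (if b = e then 1 else 0) - (if c = e then 1 else 0) := by
  have h1 : (mon a - mon b - mon c : A k).coeff e =
    (mon a : A k).coeff e - (mon b : A k).coeff e - (mon c : A k).coeff e := rfl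
  rw [h1, B7_coeff_mon, B7_coeff_mon, B7_coeff_mon]

private theorem B7_D0_coeff (i : Fin 3) : (D0 k).coeff (eD0 i) ≠ 0 := by
  have h0 : (D0 k).coeff (eD0 0) ≠ 0 := by
    unfold D0
    rw [B7_coeff3, if_pos rfl, if_neg (by decide), if_neg (by decide)]
    simp
  have h1 : (D0 k).coeff (eD0 1) ≠ 0 := by
    unfold D0
    rw [B7_coeff3, if_neg (by decide), if_pos rfl, if_neg (by decide)]
    simp
  have h2 : (D0 k).coeff (eD0 2) ≠ 0 := by
    unfold D0
    rw [B7_coeff3, if_neg (by decide), if_neg (by decide), if_pos rfl]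
    simp
  fin_cases i
  · exact h0
  · exact h1
  · exact h2

private theorem B7_D1_coeff (i : Fin 3) : (D1 k).coeff (eD1 i) ≠ 0 := by
  have h0 : (D1 k).coeff (eD1 0) ≠ 0 := by
    unfold D1
    rw [B7_coeff3, if_pos rfl, if_neg (by decide), if_neg (by decide)]
    simp
  have h1 : (D1 k).coeff (eD1 1) ≠ 0 := by
    unfold D1
    rw [B7_coeff3, if_neg (by decide), if_pos rfl, if_neg (by decide)]
    simp
  have h2 : (D1 k).coeff (eD1 2) ≠ 0 := by
    unfold D1
    rw [B7_coeff3, if_neg (by decide), if_neg (by decide), if_pos rfl]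
    simp
  fin_cases i
  · exact h0
  · exact h1
  · exact h2

private theorem B7_fE_inj : ∀ i j : Fin 6, fE i = fE j → i = j := by decide

private theorem B7_fC (i : Fin 6) : fC i = 1 ∨ fC i = -1 := by
  revert i
  decide

private theorem B7_fP_coeff (j : Fin 6) : (fP k).coeff (fE j) ≠ 0 := by
  unfold fP
  rw [AddMonoidAlgebra.coeff_sum, Finsupp.finsetSum_apply, Finset.sum_eq_single j]
  · rw [AddMonoidAlgebra.coeff_smul_apply, B7_coeff_mon, if_pos rfl, smul_eq_mul, mul_one]
    rcases B7_fC j with h | h <;> rw [h] <;> simp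
  · intro i _ hij
    rw [AddMonoidAlgebra.coeff_smul_apply, B7_coeff_mon, if_neg fun h => hij (B7_fE_inj i j h),
      smul_zero]
  · intro h
    exact absurd (Finset.mem_univ j) h

/-- PROOF. Explicit supports; `at0 v D0` keeps a term without `v`: every variable misses at least one of the three
monomials, which are different. -/
theorem at0_D0 (v : Vr) : at0 v (D0 k) ≠ 0 := by
  obtain ⟨i, hi⟩ : ∃ i, eD0 i v = 0 := by
    revert v
    decide
  exact B7_ne_of_coeff hi (B7_D0_coeff i)

theorem at0_D1 (v : Vr) : at0 v (D1 k) ≠ 0 := by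
  obtain ⟨i, hi⟩ : ∃ i, eD1 i v = 0 := by
    revert v
    decide
  exact B7_ne_of_coeff hi (B7_D1_coeff i)

/-- PROOF. The six monomials of `f` are different, and every variable is missing in one of them. -/
theorem at0_fP (v : Vr) : at0 v (fP k) ≠ 0 := by
  obtain ⟨i, hi⟩ : ∃ i, fE i v = 0 := by
    revert v
    decide
  exact B7_ne_of_coeff hi (B7_fP_coeff i)

/-- PROOF. Explicit. -/
theorem D0_ne_zero : D0 k ≠ 0 := by
  intro h
  have h1 := B7_D0_coeff (k := k) 0
  rw [h] at h1
  exact h1 rfl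

theorem D1_ne_zero : D1 k ≠ 0 := by
  intro h
  have h1 := B7_D1_coeff (k := k) 0
  rw [h] at h1
  exact h1 rfl

theorem fP_ne_zero : fP k ≠ 0 := by
  intro h
  have h1 := B7_fP_coeff (k := k) 0
  rw [h] at h1
  exact h1 rfl

end MPbd3808.BR
end

section

/-!
# TASK B8: `D0, D1` is a regular sequence
-/

open CategoryTheory CategoryTheory.Limits

namespace MPbd3808.BR

universe u
variable {k : Type u} [Field k]

/-- no variable `z3` (index 9) -/
def NoZ3 (p : A k) : Prop := ∀ e, p.coeff e ≠ 0 → e 9 = 0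

private theorem B8_mono {σ τ : Finset Vr} (h : σ ⊆ τ) {p : A k} (hp : p ∈ AR k σ) : p ∈ AR k τ :=
  fun e he => (hp e he).mono h

private theorem B8_mon_mem {σ : Finset Vr} {e : Ex} (he : Reg σ e) : (mon e : A k) ∈ AR k σ := by
  intro e' h'
  by_cases h : e = e'
  · exact h ▸ he
  · exfalso
    apply h'
    rw [AddMonoidAlgebra.coeff_single, Finsupp.single_apply, if_neg h]

private theorem B8_D0_mem (σ : Finset Vr) : D0 k ∈ AR k σ :=
  B8_mono (Finset.empty_subset σ) ((mem_gr_iff ∅ dD (D0 k)).1 D0_mem).1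

private theorem B8_D1_mem (σ : Finset Vr) : D1 k ∈ AR k σ :=
  B8_mono (Finset.empty_subset σ) ((mem_gr_iff ∅ dD (D1 k)).1 D1_mem).1

private theorem B8_mon_mul (e e' : Ex) : (mon e : A k) * mon e' = mon (e + e') := by
  rw [AddMonoidAlgebra.single_mul_single, one_mul]

private theorem B8_mon_zero : (mon (0 : Ex) : A k) = 1 := rfl

private theorem B8_mon_pow (e : Ex) (n : ℕ) : (mon e : A k) ^ n = mon (n • e) := by
  induction n with
  | zero => rw [pow_zero, zero_smul, B8_mon_zero]
  | succ n ih => rw [pow_succ, ih, B8_mon_mul, succ_nsmul]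

private theorem B8_mon_ne (e : Ex) : (mon e : A k) ≠ 0 := by
  intro h
  have := (AddMonoidAlgebra.single_eq_zero (R := k) (m := e) (r := 1)).1 h
  exact one_ne_zero this

private theorem B8_cancel {x a b : A k} (hx : x ≠ 0) (h : x * a = x * b) : a = b := by
  have h1 : x * (a - b) = 0 := by rw [mul_sub, h, sub_self]
  rcases mul_eq_zero.1 h1 with h2 | h2
  · exact absurd h2 hx
  · exact sub_eq_zero.1 h2

private theorem B8_coeff (e g : Ex) (p : A k) : (mon e * p).coeff g = p.coeff (-e + g) := by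
  rw [AddMonoidAlgebra.coeff_single_mul_apply, one_mul]

private theorem B8_coeff_D0 (q : A k) (g : Ex) : (D0 k * q).coeff g =
    q.coeff (-eD0 0 + g) - q.coeff (-eD0 1 + g) - q.coeff (-eD0 2 + g) := by
  unfold D0
  rw [sub_mul, sub_mul, AddMonoidAlgebra.coeff_sub, AddMonoidAlgebra.coeff_sub, Finsupp.sub_apply,
    Finsupp.sub_apply, B8_coeff, B8_coeff, B8_coeff]

private theorem B8_coeff_D1 (q : A k) (g : Ex) : (D1 k * q).coeff g =
    q.coeff (-eD1 0 + g) - q.coeff (-eD1 1 + g) - q.coeff (-eD1 2 + g) := by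
  unfold D1
  rw [sub_mul, sub_mul, AddMonoidAlgebra.coeff_sub, AddMonoidAlgebra.coeff_sub, Finsupp.sub_apply,
    Finsupp.sub_apply, B8_coeff, B8_coeff, B8_coeff]

private theorem B8_bound (c : A k) : ∃ N : ℕ, ∀ e, c.coeff e ≠ 0 → ∀ v, |e v| ≤ (N : ℤ) := by
  classical
  refine ⟨∑ e ∈ c.coeff.support, ∑ v, (e v).natAbs, fun e he v => ?_⟩
  have h1 : (e v).natAbs ≤ ∑ v, (e v).natAbs :=
    Finset.single_le_sum (f := fun v => (e v).natAbs) (fun _ _ => Nat.zero_le _) (Finset.mem_univ v)
  have h2 : ∑ v, (e v).natAbs ≤ ∑ e ∈ c.coeff.support, ∑ v, (e v).natAbs :=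
    Finset.single_le_sum (f := fun e : Ex => ∑ v, (e v).natAbs) (fun _ _ => Nat.zero_le _)
      (Finsupp.mem_support_iff.2 he)
  have h3 : |e v| = ((e v).natAbs : ℤ) := Int.abs_eq_natAbs (e v)
  rw [h3]
  exact_mod_cast h1.trans h2

/-- Pseudo-division by `D0 = la u1 z3 - r`, `r = la u0 z1 + mu z2`.

PROOF. Induction on `n`. Write `c = z3^n a + c1` with `a` free of `z3` and `c1` of `z3`-degree `< n` (split the support;
for `n = 0` take `q = 0`, `c0 = c`). With `m = la u1`:
`m^n c = (m z3) m^(n-1) z3^(n-1) a + m^n c1 = D0 * (m^(n-1) z3^(n-1) a) + m^(n-1) (r z3^(n-1) a + m c1)`, and the bracket has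
`z3`-degree `≤ n - 1`: apply the induction hypothesis to it. -/
theorem pseudo_div (n : ℕ) (c : A k) (hc : c ∈ AR k ∅) (hn : ∀ e, c.coeff e ≠ 0 → e 9 ≤ n) :
    ∃ q ∈ AR k ∅, ∃ c0 ∈ AR k ∅, NoZ3 c0 ∧
      (mon (Pi.single 3 1 + Pi.single 4 1)) ^ n * c = D0 k * q + c0 := by
  classical
  induction n generalizing c with
  | zero =>
    refine ⟨0, (AR k ∅).zero_mem, c, hc, fun e he => ?_, by rw [pow_zero, one_mul, mul_zero, zero_add]⟩
    have h1 := hn e he
    have h2 := hc e he 9 (Finset.notMem_empty _)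
    push_cast at h1
    omega
  | succ n ih =>
    obtain ⟨top, htop⟩ : ∃ top : A k, top =
      AddMonoidAlgebra.ofCoeff (c.coeff.filter fun e => e 9 = (n : ℤ) + 1) := ⟨_, rfl⟩
    have htc : ∀ e, top.coeff e = if e 9 = (n : ℤ) + 1 then c.coeff e else 0 := by
      intro e
      rw [htop, AddMonoidAlgebra.coeff_ofCoeff, Finsupp.filter_apply]
    obtain ⟨c1, hc1⟩ : ∃ c1 : A k, c1 = c - top := ⟨_, rfl⟩
    have hc1c : ∀ e, c1.coeff e ≠ 0 → c.coeff e ≠ 0 ∧ e 9 ≤ n := by
      intro e he
      rw [hc1, AddMonoidAlgebra.coeff_sub, Finsupp.sub_apply, htc] at he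
      split_ifs at he with h9
      · rw [sub_self] at he
        exact absurd rfl he
      · rw [sub_zero] at he
        refine ⟨he, ?_⟩
        have := hn e he
        push_cast at this
        omega
    obtain ⟨t', ht'⟩ : ∃ t' : A k, t' = mon (-Pi.single 9 1) * top := ⟨_, rfl⟩
    have ht'c : ∀ e, t'.coeff e ≠ 0 → (∀ v, 0 ≤ e v) ∧ e 9 = n := by
      intro e he
      rw [ht', B8_coeff, neg_neg, htc] at he
      split_ifs at he with h9
      · have h1 : (Pi.single 9 1 + e : Ex) 9 = 1 + e 9 := by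
          rw [Pi.add_apply, Pi.single_eq_same]
        rw [h1] at h9
        have he9 : e 9 = n := by omega
        refine ⟨fun v => ?_, he9⟩
        by_cases hv : v = 9
        · rw [hv, he9]
          exact Int.natCast_nonneg n
        · have h2 := hc _ he v (Finset.notMem_empty _)
          rw [Pi.add_apply, Pi.single_eq_of_ne hv, zero_add] at h2
          exact h2
      · exact absurd rfl he
    have ht'A : t' ∈ AR k ∅ := fun e he v _ => (ht'c e he).1 v
    obtain ⟨c2, hc2⟩ : ∃ c2 : A k, c2 = mon (eD0 1) * t' + mon (eD0 2) * t' +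
      mon (Pi.single 3 1 + Pi.single 4 1) * c1 := ⟨_, rfl⟩
    have hmr : Reg ∅ (Pi.single 3 1 + Pi.single 4 1 : Ex) := by
      intro v _
      revert v
      decide
    have hr1 : Reg ∅ (eD0 1) := by
      intro v _
      revert v
      decide
    have hr2 : Reg ∅ (eD0 2) := by
      intro v _
      revert v
      decide
    have hc2A : c2 ∈ AR k ∅ := by
      rw [hc2]
      refine (AR k ∅).add_mem ((AR k ∅).add_mem ((AR k ∅).mul_mem (B8_mon_mem hr1) ht'A)
        ((AR k ∅).mul_mem (B8_mon_mem hr2) ht'A)) ((AR k ∅).mul_mem (B8_mon_mem hmr) ?_)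
      exact fun e he => hc e (hc1c e he).1
    have hc2n : ∀ e, c2.coeff e ≠ 0 → e 9 ≤ n := by
      intro e he
      by_contra hlt
      apply he
      rw [hc2, AddMonoidAlgebra.coeff_add, AddMonoidAlgebra.coeff_add, Finsupp.add_apply,
        Finsupp.add_apply, B8_coeff, B8_coeff, B8_coeff]
      have e1 : t'.coeff (-eD0 1 + e) = 0 := by
        by_contra h
        have h1 := (ht'c _ h).2
        have h2 : (-eD0 1 + e) 9 = e 9 := by
          rw [Pi.add_apply, Pi.neg_apply, show eD0 1 9 = 0 from rfl, neg_zero, zero_add]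
        omega
      have e2 : t'.coeff (-eD0 2 + e) = 0 := by
        by_contra h
        have h1 := (ht'c _ h).2
        have h2 : (-eD0 2 + e) 9 = e 9 := by
          rw [Pi.add_apply, Pi.neg_apply, show eD0 2 9 = 0 from rfl, neg_zero, zero_add]
        omega
      have e3 : c1.coeff (-(Pi.single 3 1 + Pi.single 4 1) + e) = 0 := by
        by_contra h
        have h1 := (hc1c _ h).2
        have h2 : (-(Pi.single 3 1 + Pi.single 4 1 : Ex) + e) 9 = e 9 := by
          rw [Pi.add_apply, Pi.neg_apply, Pi.add_apply, Pi.single_eq_of_ne (by decide),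
            Pi.single_eq_of_ne (by decide), add_zero, neg_zero, zero_add]
        omega
      rw [e1, e2, e3, add_zero, add_zero]
    obtain ⟨q, hq, c0, hc0, hz, he⟩ := ih c2 hc2A hc2n
    have hmt : (mon (Pi.single 3 1 + Pi.single 4 1) : A k) * top = mon (eD0 0) * t' := by
      rw [ht', ← mul_assoc, B8_mon_mul]
      congr 2
      decide
    have hmc : (mon (Pi.single 3 1 + Pi.single 4 1) : A k) * c = D0 k * t' + c2 := by
      have h1 : c = top + c1 := by rw [hc1]; ring
      rw [h1, mul_add, hmt, hc2]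
      unfold D0
      ring
    refine ⟨(mon (Pi.single 3 1 + Pi.single 4 1)) ^ n * t' + q,
      (AR k ∅).add_mem ((AR k ∅).mul_mem ((AR k ∅).pow_mem (B8_mon_mem hmr) n) ht'A) hq, c0, hc0,
      hz, ?_⟩
    rw [pow_succ, mul_assoc, hmc, mul_add, he]
    ring

/-- A multiple of `D0` without `z3` is zero.

PROOF. Let `q ≠ 0` and `m` the largest exponent of `z3` in `q`, `q = z3^m q_m + ..`, `q_m ≠ 0` free of `z3`. The
part of `D0 * q` of `z3`-exponent `m + 1` is `la u1 z3^(m+1) q_m ≠ 0`, a contradiction. -/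
theorem noZ3_mul_D0 {q : A k} (hq : q ∈ AR k ∅) (h : NoZ3 (D0 k * q)) : q = 0 := by
  classical
  by_contra hne
  have hsupp : q.coeff.support.Nonempty := by
    rw [Finsupp.support_nonempty_iff]
    intro h0
    exact hne (AddMonoidAlgebra.coeff_eq_zero.1 h0)
  obtain ⟨e, he, hmax⟩ := Finset.exists_max_image q.coeff.support (fun e => e 9) hsupp
  have he0 : q.coeff e ≠ 0 := Finsupp.mem_support_iff.1 he
  have hz : ∀ e' : Ex, e 9 < e' 9 → q.coeff e' = 0 := by
    intro e' hlt
    by_contra h1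
    have := hmax e' (Finsupp.mem_support_iff.2 h1)
    omega
  have hco : (D0 k * q).coeff (eD0 0 + e) = q.coeff e := by
    rw [B8_coeff_D0, neg_add_cancel_left]
    have e1 : q.coeff (-eD0 1 + (eD0 0 + e)) = 0 := by
      apply hz
      rw [Pi.add_apply, Pi.neg_apply, Pi.add_apply, show eD0 1 9 = 0 from rfl,
        show eD0 0 9 = 1 from rfl]
      omega
    have e2 : q.coeff (-eD0 2 + (eD0 0 + e)) = 0 := by
      apply hz
      rw [Pi.add_apply, Pi.neg_apply, Pi.add_apply, show eD0 2 9 = 0 from rfl,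
        show eD0 0 9 = 1 from rfl]
      omega
    rw [e1, e2, sub_zero, sub_zero]
  have h1 := h (eD0 0 + e) (by rw [hco]; exact he0)
  have h2 := hq e he0 9 (Finset.notMem_empty _)
  rw [Pi.add_apply, show eD0 0 9 = 1 from rfl] at h1
  omega

private theorem B8_noZ3_D1 {c : A k} (hc : NoZ3 c) : NoZ3 (D1 k * c) := by
  intro e he
  by_contra h9
  apply he
  have hz : ∀ i : Fin 3, c.coeff (-eD1 i + e) = 0 := by
    intro i
    by_contra h
    have h1 := hc _ h
    apply h9
    have h2 : eD1 i 9 = 0 := (by decide : ∀ i : Fin 3, eD1 i 9 = 0) i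
    rw [Pi.add_apply, Pi.neg_apply, h2, neg_zero, zero_add] at h1
    exact h1
  rw [B8_coeff_D1, hz 0, hz 1, hz 2, sub_zero, sub_zero]

private theorem B8_empty {c c' : A k} (hc : c ∈ AR k ∅) (hc' : c' ∈ AR k ∅)
    (h : D1 k * c = D0 k * c') : ∃ c'' ∈ AR k ∅, c = D0 k * c'' := by
  have hmr : Reg ∅ (Pi.single 3 1 + Pi.single 4 1 : Ex) := by
    intro v _
    revert v
    decide
  obtain ⟨n, hn⟩ := B8_bound c
  obtain ⟨q, hq, c0, hc0, hz, he⟩ := pseudo_div n c hc
    (fun e he => (le_abs_self (e 9)).trans (hn e he 9))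
  have h1 : D1 k * c0 = D0 k * ((mon (Pi.single 3 1 + Pi.single 4 1)) ^ n * c' - D1 k * q) := by
    have h2 : c0 = (mon (Pi.single 3 1 + Pi.single 4 1)) ^ n * c - D0 k * q := by
      rw [he]; ring
    rw [h2, mul_sub, mul_left_comm, h]
    ring
  have hA : (mon (Pi.single 3 1 + Pi.single 4 1)) ^ n * c' - D1 k * q ∈ AR k ∅ :=
    (AR k ∅).sub_mem ((AR k ∅).mul_mem ((AR k ∅).pow_mem (B8_mon_mem hmr) n) hc')
      ((AR k ∅).mul_mem (B8_D1_mem ∅) hq)
  have h3 := noZ3_mul_D0 hA (by rw [← h1]; exact B8_noZ3_D1 hz)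
  rw [h3, mul_zero] at h1
  have h4 : c0 = 0 := by
    rcases mul_eq_zero.1 h1 with h5 | h5
    · exact absurd h5 D1_ne_zero
    · exact h5
  rw [h4, add_zero, B8_mon_pow] at he
  have hpos : ∀ v, 0 ≤ (n • (Pi.single 3 1 + Pi.single 4 1) : Ex) v := by
    intro v
    rw [Pi.smul_apply]
    exact nsmul_nonneg (hmr v (Finset.notMem_empty _)) n
  obtain ⟨c'', hc'', hq2⟩ := mon_dvd hpos (B8_D0_mem ∅) (fun v => at0_D0 v) hc hq he
  refine ⟨c'', hc'', ?_⟩
  apply B8_cancel (B8_mon_ne (n • (Pi.single 3 1 + Pi.single 4 1)))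
  rw [he, hq2]
  ring

private theorem B8_clear {σ : Finset Vr} {c : A k} (hc : c ∈ AR k σ) {N : ℕ}
    (hN : ∀ e, c.coeff e ≠ 0 → ∀ v, |e v| ≤ (N : ℤ)) : mon (pw σ N) * c ∈ AR k ∅ := by
  intro e he v _
  rw [B8_coeff] at he
  have h1 := hc _ he v
  have h2 := hN _ he v
  rw [Pi.add_apply, Pi.neg_apply] at h1 h2
  unfold pw at h1 h2
  by_cases hv : v ∈ σ
  · rw [if_pos hv, abs_le] at h2
    linarith [h2.1]
  · rw [if_neg hv, neg_zero, zero_add] at h1
    exact h1 hv

/-- `D0 ∣ D1 c` implies `D0 ∣ c`, in the ring of the chart `σ` (`σ` arbitrary).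

PROOF. First `σ = ∅`. Let `n` bound the `z3`-exponents of `c` and `m^n c = D0 q + c0` (`pseudo_div`). Then
`D1 * c0 = D1 m^n c - D0 D1 q = D0 * (m^n c' - D1 q)` is free of `z3` (`D1` and `c0` are), so
`m^n c' - D1 q = 0` by `noZ3_mul_D0`, `D1 * c0 = 0`, `c0 = 0` (domain, `D1_ne_zero`). So `m^n c = D0 q`, and by `mon_dvd`
(`at0_D0`; `m^n = mon (n • ..)`) `q = m^n c''`, `c = D0 c''` (domain).
General `σ`: for `N` large `x^N c, x^N c' ∈ AR ∅`, `x^N = mon (pw σ N)`; so `x^N c = D0 c''` and
`c = D0 (mon (-pw σ N) * c'')`, where `mon (-pw σ N) * c'' ∈ AR σ`. -/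
theorem D0_dvd_of_dvd_D1_mul {σ : Finset Vr} {c c' : A k} (hc : c ∈ AR k σ) (hc' : c' ∈ AR k σ)
    (h : D1 k * c = D0 k * c') : ∃ c'' ∈ AR k σ, c = D0 k * c'' := by
  obtain ⟨N1, hN1⟩ := B8_bound c
  obtain ⟨N2, hN2⟩ := B8_bound c'
  have h1 := B8_clear hc (N := max N1 N2) (fun e he v => (hN1 e he v).trans
    (by exact_mod_cast le_max_left N1 N2))
  have h2 := B8_clear hc' (N := max N1 N2) (fun e he v => (hN2 e he v).trans
    (by exact_mod_cast le_max_right N1 N2))
  obtain ⟨c'', hc'', h3⟩ := B8_empty h1 h2 (by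
    rw [mul_left_comm, h]
    ring)
  have hreg : Reg σ (-pw σ (max N1 N2)) := by
    intro v hv
    rw [Pi.neg_apply]
    unfold pw
    rw [if_neg hv, neg_zero]
  refine ⟨mon (-pw σ (max N1 N2)) * c'',
    (AR k σ).mul_mem (B8_mon_mem hreg) (B8_mono (Finset.empty_subset σ) hc''), ?_⟩
  apply B8_cancel (B8_mon_ne (pw σ (max N1 N2)))
  rw [h3]
  have h4 : (mon (pw σ (max N1 N2)) : A k) * mon (-pw σ (max N1 N2)) = 1 := by
    rw [B8_mon_mul, add_neg_cancel, B8_mon_zero]
  calc D0 k * c'' = D0 k * ((mon (pw σ (max N1 N2)) * mon (-pw σ (max N1 N2))) * c'') := by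
        rw [h4, one_mul]
    _ = _ := by ring

/-- PROOF. `D1 c' = D0 c` gives `c' = D0 c''`, so `D0 c = D0 D1 c''`. -/
theorem D1_dvd_of_dvd_D0_mul {σ : Finset Vr} {c c' : A k} (hc : c ∈ AR k σ) (hc' : c' ∈ AR k σ)
    (h : D0 k * c = D1 k * c') : ∃ c'' ∈ AR k σ, c = D1 k * c'' := by
  obtain ⟨c'', hc'', h1⟩ := D0_dvd_of_dvd_D1_mul hc' hc h.symm
  refine ⟨c'', hc'', ?_⟩
  apply B8_cancel D0_ne_zero
  rw [h, h1]
  ring

end MPbd3808.BR
end

section

/-!
# TASK B6: the short exact sequence of a regular element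
-/

open CategoryTheory CategoryTheory.Limits

namespace MPbd3808.BR

universe u
variable {k : Type u} [Field k]

/-- `0 → QQ G b' → QQ G b → QQ (g :: G) b → 0`, `b = b' + deg g`.

PROOF. At `U = (σ,a)`, with representatives (`mapQQ_mk`): injective: `g * q ∈ idl G σ (a + b)` with
`q ∈ gr σ (a + b')` implies `q ∈ idl G` (`hreg`; `a + b = a + b' + d`). Exact in the middle: `q ∈ gr σ (a + b)` with
`1 * q ∈ idl (g :: G)`, i.e. `q = g * r + q'`, `r ∈ gr σ (a + b - d)`, `q' ∈ idl G`: then `mk q = mk (g * r)`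
(here `q' = q - g * r ∈ gr`). Surjective: clear. -/
theorem pwSES_QQ (G : List (A k × Deg)) (g : A k) (d : Deg) (hg : g ∈ gr k ∅ d)
    (hreg : ∀ σ, Full σ → RegMod G σ g d) (b' b : Deg) (hb : b = b' + d) :
    PwSES (mulBy G g d hg b' b hb) (projC (g, d) G b) := by
  intro U
  have hdeg : U.a + b' + d = U.a + b := by rw [hb]; abel
  have hdeg' : U.a + b - d = U.a + b' := by rw [hb]; abel
  have hmul : ∀ r : A k, r ∈ gr k U.σ (U.a + b') → g * r ∈ gr k U.σ (U.a + b) := by
    intro r hr
    have h := mul_mem_gr (gr_mono (Finset.empty_subset U.σ) d hg) hr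
    rwa [show d + (U.a + b') = U.a + b by rw [hb]; abel] at h
  -- the two maps on representatives
  have hf : ∀ r : gr k U.σ (U.a + b'), ((mulBy G g d hg b' b hb).app U).hom
      (Submodule.Quotient.mk r : Qm k G U.σ (U.a + b')) =
      (Submodule.Quotient.mk ⟨g * r.1, hmul r.1 r.2⟩ : Qm k G U.σ (U.a + b)) := fun r => rfl
  have hp : ∀ q : gr k U.σ (U.a + b), ((projC (g, d) G b).app U).hom
      (Submodule.Quotient.mk q : Qm k G U.σ (U.a + b)) =
      (Submodule.Quotient.mk ⟨1 * q.1, by rw [one_mul]; exact q.2⟩ :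
        Qm k ((g, d) :: G) U.σ (U.a + b)) := fun q => rfl
  refine ⟨?_, ?_, ?_⟩
  · rw [injective_iff_map_eq_zero]
    intro x hx
    obtain ⟨q, rfl⟩ := Submodule.Quotient.mk_surjective _ x
    rw [hf] at hx
    have h1 : g * q.1 ∈ idl G U.σ (U.a + b) := (Submodule.Quotient.mk_eq_zero
      ((idl G U.σ (U.a + b)).comap (gr k U.σ (U.a + b)).subtype)).1 hx
    rw [← hdeg] at h1
    have h2 := hreg U.σ U.full (U.a + b') q.1 q.2 h1
    exact (Submodule.Quotient.mk_eq_zero _).2 h2
  · intro y
    obtain ⟨q, rfl⟩ := Submodule.Quotient.mk_surjective _ y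
    constructor
    · intro hy
      rw [hp] at hy
      have h1 : 1 * q.1 ∈ idl ((g, d) :: G) U.σ (U.a + b) :=
        (Submodule.Quotient.mk_eq_zero
          ((idl ((g, d) :: G) U.σ (U.a + b)).comap (gr k U.σ (U.a + b)).subtype)).1 hy
      obtain ⟨s, ⟨r, hr, hrs⟩, q', hq', hsum⟩ := Submodule.mem_sup.1 h1
      have hr' : r ∈ gr k U.σ (U.a + b') := by rw [← hdeg']; exact hr
      refine ⟨(Submodule.Quotient.mk ⟨r, hr'⟩ : Qm k G U.σ (U.a + b')), ?_⟩
      rw [hf]
      refine (Submodule.Quotient.eq _).2 ?_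
      change g * r - q.1 ∈ idl G U.σ (U.a + b)
      have h3 : g * r - q.1 = -q' := by
        have h4 : g * r = s := hrs
        rw [h4, ← one_mul q.1, ← hsum]
        abel
      rw [h3]
      exact Submodule.neg_mem _ hq'
    · rintro ⟨x, hx⟩
      obtain ⟨r, rfl⟩ := Submodule.Quotient.mk_surjective _ x
      rw [← hx, hf, hp]
      refine (Submodule.Quotient.mk_eq_zero _).2 ?_
      change 1 * (g * r.1) ∈ idl ((g, d) :: G) U.σ (U.a + b)
      rw [one_mul]
      refine Submodule.mem_sup_left ⟨r.1, ?_, rfl⟩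
      change r.1 ∈ gr k U.σ (U.a + b - d)
      rw [hdeg']
      exact r.2
  · intro y
    obtain ⟨q, rfl⟩ := Submodule.Quotient.mk_surjective _ y
    refine ⟨(Submodule.Quotient.mk q : Qm k G U.σ (U.a + b)), ?_⟩
    rw [hp]
    congr 1
    exact Subtype.ext (one_mul q.1)

end MPbd3808.BR
end

section

/-!
# Monomials which are units on a chart
-/

set_option autoImplicit false

namespace BS

open MPbd3808.BR

/-- the exponent of a Laurent monomial of degree `a` in four variables of the (full) set `σ`, one from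
each family (a unit on the chart `σ`) -/
def un (σ : Finset Vr) (a : Deg) : Ex :=
  a 0 • Pi.single (if (0 : Vr) ∈ σ then 0 else 1) (1 : ℤ) +
  (if (5 : Vr) ∈ σ then a 1 else a 1 + a 2) • Pi.single (if (2 : Vr) ∈ σ then 2 else 3) (1 : ℤ) +
  a 2 • Pi.single (if (5 : Vr) ∈ σ then 5 else 4) (1 : ℤ) +
  a 3 • Pi.single (if (6 : Vr) ∈ σ then 6 else if (7 : Vr) ∈ σ then 7 else if (8 : Vr) ∈ σ then 8 else 9)
    (1 : ℤ)

lemma un_zero (σ : Finset Vr) : un σ 0 = 0 := by
  simp [un]

lemma un_add (σ : Finset Vr) (a b : Deg) : un σ (a + b) = un σ a + un σ b := by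
  unfold un
  split_ifs <;> simp only [Pi.add_apply] <;> module

lemma un_neg (σ : Finset Vr) (a : Deg) : un σ (-a) = -un σ a := by
  have h := un_add σ a (-a)
  rw [add_neg_cancel, un_zero] at h
  exact (neg_eq_of_add_eq_zero_right h.symm).symm

lemma degE_smul_single (c : ℤ) (v : Vr) : degE (c • Pi.single v 1) = c • dg v := by
  unfold degE
  rw [Finset.sum_eq_single v]
  · simp
  · intro w _ hw
    simp [Pi.single_apply, hw]
  · simp

/-- `un σ a` has degree `a` (for every `σ`). -/
lemma degE_un (σ : Finset Vr) (a : Deg) : degE (un σ a) = a := by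
  unfold un
  rw [degE_add, degE_add, degE_add, degE_smul_single, degE_smul_single, degE_smul_single,
    degE_smul_single]
  have h0 : dg (if (0 : Vr) ∈ σ then 0 else 1) = ![1,0,0,0] := by split_ifs <;> rfl
  have h1 : dg (if (2 : Vr) ∈ σ then 2 else 3) = ![0,1,0,0] := by split_ifs <;> rfl
  have h3 : dg (if (6 : Vr) ∈ σ then 6 else if (7 : Vr) ∈ σ then 7 else if (8 : Vr) ∈ σ then 8 else 9)
      = ![0,0,0,1] := by split_ifs <;> rfl
  rw [h0, h1, h3]
  split_ifs
  · have h2 : dg 5 = ![0,0,1,0] := rfl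
    rw [h2]
    funext i
    fin_cases i <;> simp
  · have h2 : dg 4 = ![0,-1,1,0] := rfl
    rw [h2]
    funext i
    fin_cases i <;> simp

/-- `un σ a` is supported on `σ`. -/
lemma un_of_notMem {σ : Finset Vr} (hσ : Full σ) (a : Deg) {v : Vr} (hv : v ∉ σ) : un σ a v = 0 := by
  have H0 : (if (0 : Vr) ∈ σ then (0 : Vr) else 1) ∈ σ := by
    obtain ⟨v0, h0, h0'⟩ := hσ 0
    split_ifs with h
    · exact h
    · fin_cases v0 <;> first | exact h0 | (exact absurd h0 h) | (simp [fam] at h0')
  have H1 : (if (2 : Vr) ∈ σ then (2 : Vr) else 3) ∈ σ := by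
    obtain ⟨v0, h0, h0'⟩ := hσ 1
    split_ifs with h
    · exact h
    · fin_cases v0 <;> first | exact h0 | (exact absurd h0 h) | (simp [fam] at h0')
  have H2 : (if (5 : Vr) ∈ σ then (5 : Vr) else 4) ∈ σ := by
    obtain ⟨v0, h0, h0'⟩ := hσ 2
    split_ifs with h
    · exact h
    · fin_cases v0 <;> first | exact h0 | (exact absurd h0 h) | (simp [fam] at h0')
  have H3 : (if (6 : Vr) ∈ σ then (6 : Vr) else if (7 : Vr) ∈ σ then 7 else
      if (8 : Vr) ∈ σ then 8 else 9) ∈ σ := by
    obtain ⟨v0, h0, h0'⟩ := hσ 3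
    split_ifs with h h' h''
    · exact h
    · exact h'
    · exact h''
    · fin_cases v0 <;> first | exact h0 | (exact absurd h0 h) | (exact absurd h0 h') |
        (exact absurd h0 h'') | (simp [fam] at h0')
  have e0 : v ≠ (if (0 : Vr) ∈ σ then (0 : Vr) else 1) := fun h => hv (h ▸ H0)
  have e1 : v ≠ (if (2 : Vr) ∈ σ then (2 : Vr) else 3) := fun h => hv (h ▸ H1)
  have e2 : v ≠ (if (5 : Vr) ∈ σ then (5 : Vr) else 4) := fun h => hv (h ▸ H2)
  have e3 : v ≠ (if (6 : Vr) ∈ σ then (6 : Vr) else if (7 : Vr) ∈ σ then 7 else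
      if (8 : Vr) ∈ σ then 8 else 9) := fun h => hv (h ▸ H3)
  unfold un
  simp only [Pi.add_apply, Pi.smul_apply, Pi.single_eq_of_ne e0, Pi.single_eq_of_ne e1,
    Pi.single_eq_of_ne e2, Pi.single_eq_of_ne e3, smul_zero, add_zero]

lemma reg_un {σ τ : Finset Vr} (hσ : Full σ) (h : σ ⊆ τ) (a : Deg) : Reg τ (un σ a) :=
  fun _ hv => (un_of_notMem hσ a fun h' => hv (h h')).ge

end BS
end

section

/-!
# The logarithmic derivations of the ring of Laurent polynomials
-/

set_option autoImplicit false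

namespace BS

open MPbd3808.BR

universe u

variable (k : Type u) [Field k]

/-- PROOF. Define the linear map on the basis of the monomials (`AddMonoidAlgebra.coeff`, `Finsupp.lsum`, or `p ↦ p.coeff.sum fun e c => mono k e (e v * c)`), and check
the Leibniz rule on monomials (`AddMonoidAlgebra.single_mul_single`, `AddMonoidAlgebra.induction_linear` or `addHom_ext` in both variables; the exponents add up). `Derivation.mk'`. -/
theorem exists_dl (v : Vr) : ∃ D : Derivation k (Lau k) (Lau k), ∀ (e : Ex) (c : k),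
    D (mono k e c) = mono k e (((e v : ℤ) : k) * c) := by
  classical
  let L : Lau k →ₗ[k] Lau k :=
    { toFun := fun p => p.coeff.sum fun e c => mono k e (((e v : ℤ) : k) * c)
      map_add' := fun p q => by
        rw [AddMonoidAlgebra.coeff_add]
        refine Finsupp.sum_add_index' (h := fun e c => mono k e (((e v : ℤ) : k) * c)) (fun e => ?_) (fun e c d => ?_)
        · simp [mono]
        · rw [mul_add]; exact AddMonoidAlgebra.single_add ..
      map_smul' := fun a p => by
        rw [AddMonoidAlgebra.coeff_smul, RingHom.id_apply, Finsupp.sum_smul_index', Finsupp.smul_sum]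
        · unfold Finsupp.sum
          refine Finset.sum_congr rfl fun e _ => ?_
          change mono k e (((e v : ℤ) : k) * (a * p.coeff e)) = a • mono k e (((e v : ℤ) : k) * p.coeff e)
          rw [mul_left_comm]
          exact (AddMonoidAlgebra.smul_single' ..).symm
        · intro e
          simp [mono] }
  have hL : ∀ (e : Ex) (c : k), L (mono k e c) = mono k e (((e v : ℤ) : k) * c) := by
    intro e c
    change (mono k e c).coeff.sum (fun e c => mono k e (((e v : ℤ) : k) * c)) = _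
    rw [AddMonoidAlgebra.coeff_single, Finsupp.sum_single_index]
    simp [mono]
  have hmul : ∀ p q : Lau k, L (p * q) = p • L q + q • L p := by
    intro p q
    induction p using AddMonoidAlgebra.induction_linear with
    | zero => simp
    | add p p' hp hp' =>
      rw [add_mul, map_add, hp, hp', map_add]
      simp only [smul_eq_mul]
      ring
    | single e c =>
      induction q using AddMonoidAlgebra.induction_linear with
      | zero => simp
      | add q q' hq hq' =>
        rw [mul_add, map_add, hq, hq', map_add]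
        simp only [smul_eq_mul]
        ring
      | single e' c' =>
        rw [AddMonoidAlgebra.single_mul_single]
        erw [hL, hL, hL]
        simp only [smul_eq_mul]
        rw [AddMonoidAlgebra.single_mul_single, AddMonoidAlgebra.single_mul_single, add_comm e' e,
          ← AddMonoidAlgebra.single_add]
        congr 1
        simp only [Pi.add_apply, Int.cast_add]
        ring
  refine ⟨Derivation.mk' L hmul, hL⟩

/-- the derivation `x_v ∂/∂x_v` of the ring of Laurent polynomials -/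
noncomputable def dl (v : Vr) : Derivation k (Lau k) (Lau k) := (exists_dl k v).choose

lemma dl_mono (v : Vr) (e : Ex) (c : k) : dl k v (mono k e c) = mono k e (((e v : ℤ) : k) * c) :=
  (exists_dl k v).choose_spec e c

/-- PROOF. Linear in `p`; `dl_mono`. -/
theorem coeff_dl (v : Vr) (p : Lau k) (e : Ex) :
    (dl k v p).coeff e = ((e v : ℤ) : k) * p.coeff e := by
  induction p using AddMonoidAlgebra.induction_linear with
  | zero => simp
  | add p q hp hq =>
    rw [map_add, AddMonoidAlgebra.coeff_add, Finsupp.add_apply, hp, hq, AddMonoidAlgebra.coeff_add,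
      Finsupp.add_apply, mul_add]
  | single e' c =>
    rw [dl_mono, AddMonoidAlgebra.coeff_single, AddMonoidAlgebra.coeff_single]
    by_cases h : e' = e
    · subst h
      rw [Finsupp.single_eq_same, Finsupp.single_eq_same]
    · rw [Finsupp.single_eq_of_ne (Ne.symm h), Finsupp.single_eq_of_ne (Ne.symm h), mul_zero]

/-- PROOF. `coeff_dl`: the support of `dl v p` is contained in that of `p`. -/
theorem dl_mem {σ : Finset Vr} {a : Deg} {p : Lau k} (hp : p ∈ LD k σ a) (v : Vr) :
    dl k v p ∈ LD k σ a := by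
  intro e he
  apply hp e
  rw [Finsupp.mem_support_iff] at he ⊢
  rw [coeff_dl] at he
  exact right_ne_zero_of_mul he

/-- PROOF. The exponents of the product are `e - e_v` for exponents `e` of `dl v p`, so `(e v : k) ≠ 0` and `e v ≠ 0` (`coeff_dl`); if `v ∉ σ` then
`e v ≥ 0`, so `e v ≥ 1`. The degree is `a - dg v` (`degE_add`, `degE_neg`, `degE_smul_single`). -/
theorem par_mem {σ : Finset Vr} {a : Deg} {p : Lau k} (hp : p ∈ LD k σ a) (v : Vr) :
    mono k (-Pi.single v 1) 1 * dl k v p ∈ LD k σ (a - dg v) := by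
  intro e he
  rw [Finsupp.mem_support_iff, AddMonoidAlgebra.coeff_single_mul_apply, one_mul, coeff_dl] at he
  have h1 := hp _ (Finsupp.mem_support_iff.2 (right_ne_zero_of_mul he))
  have h2 : (-(-Pi.single v 1) + e : Ex) v ≠ 0 := by
    intro h0
    rw [h0] at he
    simp at he
  obtain ⟨h3, h4⟩ := h1
  have hsv : (-(-Pi.single v 1) + e : Ex) v = e v + 1 := by
    simp [add_comm]
  refine ⟨fun w hw => ?_, ?_⟩
  · have h5 := h3 w hw
    by_cases hwv : w = v
    · subst hwv
      rw [hsv] at h5 h2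
      omega
    · have : (-(-Pi.single v 1) + e : Ex) w = e w := by simp [hwv]
      rw [this] at h5
      exact h5
  · rw [degE_add, neg_neg] at h4
    have h6 := degE_smul_single 1 v
    rw [one_smul, one_smul] at h6
    rw [h6] at h4
    rw [← h4]; abel

/-- Euler's formula.
PROOF. Compare coefficients (`coeff_dl`): for an exponent `e` of `p`, `∑ v, dg v j * e v = degE e j = a j`. -/
theorem euler {σ : Finset Vr} {a : Deg} {p : Lau k} (hp : p ∈ LD k σ a) (j : Fin 4) :
    ∑ v, ((dg v j : ℤ) : k) • dl k v p = ((a j : ℤ) : k) • p := by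
  refine AddMonoidAlgebra.ext (Finsupp.ext fun e => ?_)
  rw [AddMonoidAlgebra.coeff_sum, Finsupp.finsetSum_apply, AddMonoidAlgebra.coeff_smul, Finsupp.smul_apply]
  simp only [AddMonoidAlgebra.coeff_smul, Finsupp.smul_apply, coeff_dl, smul_eq_mul]
  by_cases he : p.coeff e = 0
  · simp [he]
  · have h1 := (hp e (Finsupp.mem_support_iff.2 he)).2
    have h2 : ∑ v, e v * dg v j = a j := by
      rw [← h1, degE, Finset.sum_apply]
      simp
    rw [← h2]
    push_cast
    rw [Finset.sum_mul]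
    refine Finset.sum_congr rfl fun v _ => ?_
    ring

/-- PROOF. `ff = ∑ i, mono (fE i) (fC i)`, `dl_mono`; `fE i 9 = 0` except for `i = 0` (`fE 0 9 = 1`, `fC 0 = 1`). -/
theorem dl9_ff : dl k 9 (ff k) = mono k (fE 0) 1 := by
  rw [ff, map_sum]
  simp only [dl_mono]
  rw [Finset.sum_eq_single 0]
  · simp [fE, fC]
  · intro i _ hi
    have : fE i 9 = 0 := by
      revert i; decide
    rw [this]; simp [mono]
  · simp

/-- The four variables `z`.
PROOF. As `dl9_ff`: every monomial of `ff` contains exactly one `z` variable, `fE i 6 + fE i 7 + fE i 8 + fE i 9 = 1`. -/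
theorem dl_z_ff : dl k 6 (ff k) + dl k 7 (ff k) + dl k 8 (ff k) + dl k 9 (ff k) = ff k := by
  rw [ff]
  simp only [map_sum, dl_mono]
  rw [← Finset.sum_add_distrib, ← Finset.sum_add_distrib, ← Finset.sum_add_distrib]
  refine Finset.sum_congr rfl fun i _ => ?_
  rw [← AddMonoidAlgebra.single_add, ← AddMonoidAlgebra.single_add, ← AddMonoidAlgebra.single_add]
  congr 1
  have : fE i 6 + fE i 7 + fE i 8 + fE i 9 = 1 := by
    revert i; decide
  have h2 : ((fE i 6 : ℤ) : k) + ((fE i 7 : ℤ) : k) + ((fE i 8 : ℤ) : k) + ((fE i 9 : ℤ) : k) = 1 := by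
    exact_mod_cast congrArg (Int.cast : ℤ → k) this
  rw [← add_mul, ← add_mul, ← add_mul, h2, one_mul]

end BS
end

section

/-!
# Minimal full sets of variables
-/

set_option autoImplicit false

namespace BS

open MPbd3808.BR

/-- `σ` consists of one variable of each family. -/
def Mini (σ : Finset Vr) : Prop := ∀ i : Fin 4, ∃! v, v ∈ σ ∧ fam v = i

lemma Mini.full {σ : Finset Vr} (h : Mini σ) : Full σ := fun i => by
  obtain ⟨v, hv, -⟩ := h i
  exact ⟨v, hv.1, hv.2⟩

/-- PROOF. Choose one variable of `τ` in each family (`Full τ`): `σ := Finset.univ.image g` with `fam (g i) = i`, `g i ∈ τ`. -/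
theorem exists_mini {τ : Finset Vr} (h : Full τ) : ∃ σ : Finset Vr, σ ⊆ τ ∧ Mini σ := by
  choose g hg using h
  refine ⟨Finset.univ.image g, ?_, fun i => ⟨g i, ⟨Finset.mem_image_of_mem g (Finset.mem_univ i),
    (hg i).2⟩, ?_⟩⟩
  · intro v hv
    obtain ⟨i, -, rfl⟩ := Finset.mem_image.1 hv
    exact (hg i).1
  · rintro y ⟨hy, hy'⟩
    obtain ⟨j, -, rfl⟩ := Finset.mem_image.1 hy
    rw [(hg j).2] at hy'
    rw [hy']

/-- the minimal full sets -/
private def Mini_S (i j l : Fin 2) (m : Fin 4) : Finset Vr :=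
  {![0, 1] i, ![2, 3] j, ![4, 5] l, ![6, 7, 8, 9] m}

private theorem Mini_f0 : ∀ v : Vr, fam v = 0 → ∃ i : Fin 2, v = ![0, 1] i := by decide
private theorem Mini_f1 : ∀ v : Vr, fam v = 1 → ∃ i : Fin 2, v = ![2, 3] i := by decide
private theorem Mini_f2 : ∀ v : Vr, fam v = 2 → ∃ i : Fin 2, v = ![4, 5] i := by decide
private theorem Mini_f3 : ∀ v : Vr, fam v = 3 → ∃ i : Fin 4, v = ![6, 7, 8, 9] i := by decide

private theorem Mini_all4 {Q : Fin 4 → Prop} (h0 : Q 0) (h1 : Q 1) (h2 : Q 2) (h3 : Q 3) :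
    ∀ m, Q m := by
  intro m
  fin_cases m
  exacts [h0, h1, h2, h3]

private theorem Mini_struct {σ : Finset Vr} (h : Mini σ) :
    ∃ (i j l : Fin 2) (m : Fin 4), σ = Mini_S i j l m := by
  obtain ⟨v0, ⟨a0, b0⟩, c0⟩ := h 0
  obtain ⟨v1, ⟨a1, b1⟩, c1⟩ := h 1
  obtain ⟨v2, ⟨a2, b2⟩, c2⟩ := h 2
  obtain ⟨v3, ⟨a3, b3⟩, c3⟩ := h 3
  have hs : σ = {v0, v1, v2, v3} := by
    ext x
    simp only [Finset.mem_insert, Finset.mem_singleton]
    constructor
    · intro hx
      have key : ∀ m, fam x = m → x = v0 ∨ x = v1 ∨ x = v2 ∨ x = v3 := by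
        refine Mini_all4 ?_ ?_ ?_ ?_
        · intro hm; exact Or.inl (c0 x ⟨hx, hm⟩)
        · intro hm; exact Or.inr (Or.inl (c1 x ⟨hx, hm⟩))
        · intro hm; exact Or.inr (Or.inr (Or.inl (c2 x ⟨hx, hm⟩)))
        · intro hm; exact Or.inr (Or.inr (Or.inr (c3 x ⟨hx, hm⟩)))
      exact key _ rfl
    · rintro (rfl | rfl | rfl | rfl) <;> assumption
  obtain ⟨i, rfl⟩ := Mini_f0 v0 b0
  obtain ⟨j, rfl⟩ := Mini_f1 v1 b1
  obtain ⟨l, rfl⟩ := Mini_f2 v2 b2
  obtain ⟨m, rfl⟩ := Mini_f3 v3 b3
  exact ⟨i, j, l, m, hs⟩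

private theorem Mini_un_dg : ∀ (i j l : Fin 2) (m : Fin 4) (v : Vr), v ∈ Mini_S i j l m →
    un (Mini_S i j l m) (dg v) = Pi.single v 1 := by
  decide +kernel

private theorem Mini_un_pos : ∀ (i j l : Fin 2) (m : Fin 4) (v : Vr), v ∈ Mini_S i j l m ↔
    0 < un (Mini_S i j l m) ![1,1,1,3] v := by
  decide +kernel

/-- `e` enumerates the variables in `σ` (by their families) and the six other ones. -/
def IsEnum (σ : Finset Vr) (e : Fin 4 ⊕ Fin 6 ≃ Vr) : Prop :=
  (∀ i, e (.inl i) ∈ σ ∧ fam (e (.inl i)) = i) ∧ ∀ j, e (.inr j) ∉ σ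

/-- PROOF. `{v // v ∈ σ} ≃ Fin 4` by `fam` (as `Mini σ`), so `σ.card = 4` and `{v // v ∉ σ} ≃ Fin 6` (`Fintype.equivFinOfCardEq`, and compose with
a transposition so that `q` corresponds to `0`); `Equiv.sumCompl`. -/
theorem exists_enum {σ : Finset Vr} (h : Mini σ) {q : Vr} (hq : q ∉ σ) :
    ∃ e : Fin 4 ⊕ Fin 6 ≃ Vr, IsEnum σ e ∧ e (.inr 0) = q := by
  classical
  choose g hg hu using h
  have hgi : Function.Injective g := fun i j hij => by
    rw [← (hg i).2, ← (hg j).2, hij]
  let G : Fin 4 ≃ {v // v ∈ σ} := Equiv.ofBijective (fun i => ⟨g i, (hg i).1⟩)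
    ⟨fun i j hij => hgi (congrArg Subtype.val hij), fun v => ⟨fam v.1, Subtype.ext
      (hu (fam v.1) v.1 ⟨v.2, rfl⟩).symm⟩⟩
  have hc : Fintype.card {v // v ∈ σ} = 4 := by
    rw [← Fintype.card_congr G, Fintype.card_fin]
  have hc' : Fintype.card {v // ¬ v ∈ σ} = 6 := by
    rw [Fintype.card_subtype_compl, hc, Fintype.card_fin]
  let H0 : Fin 6 ≃ {v // ¬ v ∈ σ} := (Fintype.equivFinOfCardEq hc').symm
  let H : Fin 6 ≃ {v // ¬ v ∈ σ} := (Equiv.swap 0 (H0.symm ⟨q, hq⟩)).trans H0
  refine ⟨(Equiv.sumCongr G H).trans (Equiv.sumCompl (fun v => v ∈ σ)), ⟨fun i => ⟨?_, ?_⟩,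
    fun j => ?_⟩, ?_⟩
  · change ((G i : {v // v ∈ σ}) : Vr) ∈ σ
    exact (G i).2
  · change fam ((G i : {v // v ∈ σ}) : Vr) = i
    exact (hg i).2
  · change ¬ ((H j : {v // ¬ v ∈ σ}) : Vr) ∈ σ
    exact (H j).2
  · change ((H 0 : {v // ¬ v ∈ σ}) : Vr) = q
    simp [H]

/-- PROOF. `v i := e (inl i)` has family `i`: `v 0 ∈ {0,1}`, `v 1 ∈ {2,3}`, `v 2 ∈ {4,5}`, `v 3 ∈ {6,7,8,9}`, so the matrix is one of
`!![1,0,0,0; 0,1,0,0; 0,a,1,0; 0,0,0,1]` with `a ∈ {0,-1}`; the determinant is `1` (`Matrix.det_succ_row_zero`, `Fin.sum_univ_succ`, or lower triangular). -/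
theorem det_enum {σ : Finset Vr} {e : Fin 4 ⊕ Fin 6 ≃ Vr} (he : IsEnum σ e) :
    (Matrix.of fun i j : Fin 4 => dg (e (.inl i)) j).det = 1 := by
  obtain ⟨he, -⟩ := he
  obtain ⟨i, hi⟩ := Mini_f0 _ (he 0).2
  obtain ⟨j, hj⟩ := Mini_f1 _ (he 1).2
  obtain ⟨l, hl⟩ := Mini_f2 _ (he 2).2
  obtain ⟨m, hm⟩ := Mini_f3 _ (he 3).2
  have d0 : dg (e (.inl 0)) = ![1,0,0,0] := by
    rw [hi]; clear hi; revert i; decide
  have d1 : dg (e (.inl 1)) = ![0,1,0,0] := by
    rw [hj]; clear hj; revert j; decide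
  have d3 : dg (e (.inl 3)) = ![0,0,0,1] := by
    rw [hm]; clear hm; revert m; decide
  have d2 : dg (e (.inl 2)) = ![0,-1,1,0] ∨ dg (e (.inl 2)) = ![0,0,1,0] := by
    rw [hl]; clear hl; revert l; decide
  have hM : ∀ w : Deg, dg (e (.inl 2)) = w → (Matrix.of fun i j : Fin 4 => dg (e (.inl i)) j) =
      Matrix.of ![![1,0,0,0], ![0,1,0,0], w, ![0,0,0,1]] := by
    intro w hw
    ext a b
    revert a
    refine Mini_all4 ?_ ?_ ?_ ?_
    · change dg (e (.inl 0)) b = _; rw [d0]; rfl
    · change dg (e (.inl 1)) b = _; rw [d1]; rfl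
    · change dg (e (.inl 2)) b = _; rw [hw]; rfl
    · change dg (e (.inl 3)) b = _; rw [d3]; rfl
  rcases d2 with h | h
  · rw [hM _ h]; decide +kernel
  · rw [hM _ h]; decide +kernel

/-- PROOF. Case distinction on `v` and on the variables of `σ` (`Mini σ`: `σ` contains exactly one variable of each family): unfold `un`, `dg`. For
example for `v = 4 ∈ σ`: `5 ∉ σ`, `dg 4 = ![0,-1,1,0]`, `a 1 + a 2 = 0`. -/
theorem un_dg {σ : Finset Vr} (h : Mini σ) {v : Vr} (hv : v ∈ σ) : un σ (dg v) = Pi.single v 1 := by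
  obtain ⟨i, j, l, m, rfl⟩ := Mini_struct h
  exact Mini_un_dg i j l m v hv

/-- PROOF. `E = ∑ v, E v • Pi.single v 1` and `degE E = ∑ v, E v • dg v`; `un σ` is additive (`un_add`, `un_zero`, so
`un σ (∑ ..) = ∑ E v • un σ (dg v)`), terms with `v ∉ σ` vanish, and `un_dg`. -/
theorem eq_un {σ : Finset Vr} (h : Mini σ) (E : Ex) (hE : ∀ v, v ∉ σ → E v = 0) :
    un σ (degE E) = E := by
  let U : Deg →+ Ex := ⟨⟨un σ, un_zero σ⟩, un_add σ⟩
  have h1 : un σ (degE E) = ∑ v, E v • un σ (dg v) := by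
    change U (∑ v, E v • dg v) = _
    rw [map_sum]
    exact Finset.sum_congr rfl fun v _ => map_zsmul U _ _
  have h2 : ∑ v, E v • un σ (dg v) = ∑ v, E v • (Pi.single v 1 : Ex) := by
    refine Finset.sum_congr rfl fun v _ => ?_
    by_cases hv : v ∈ σ
    · rw [un_dg h hv]
    · rw [hE v hv, zero_smul, zero_smul]
  rw [h1, h2]
  funext w
  rw [Finset.sum_apply, Finset.sum_eq_single w]
  · simp
  · intro v _ hvw
    simp [Ne.symm hvw]
  · simp

/-- PROOF. `un σ ![1,1,1,3] = s + (1 or 2) u + l + 3 z`; unfold `un`, case distinction as for `un_dg`. -/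
theorem un_de_pos {σ : Finset Vr} (h : Mini σ) (v : Vr) : v ∈ σ ↔ 0 < un σ ![1,1,1,3] v := by
  obtain ⟨i, j, l, m, rfl⟩ := Mini_struct h
  exact Mini_un_pos i j l m v

/-- PROOF. Unfold `un`: a sum of nonnegative multiples of `Pi.single`. -/
theorem un_de_nonneg (σ : Finset Vr) (v : Vr) : 0 ≤ un σ ![1,1,1,3] v := by
  have hs : ∀ w : Vr, 0 ≤ (Pi.single w (1 : ℤ) : Ex) v := by
    intro w
    rw [Pi.single_apply]
    split_ifs <;> simp
  have h1 : (![1,1,1,3] : Deg) 0 = 1 := rfl
  have h2 : (![1,1,1,3] : Deg) 1 = 1 := rfl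
  have h3 : (![1,1,1,3] : Deg) 2 = 1 := rfl
  have h4 : (![1,1,1,3] : Deg) 3 = 3 := rfl
  unfold un
  rw [h1, h2, h3, h4]
  simp only [Pi.add_apply, Pi.smul_apply]
  refine add_nonneg (add_nonneg (add_nonneg ?_ ?_) ?_) ?_
  · exact smul_nonneg (by norm_num) (hs _)
  · refine smul_nonneg ?_ (hs _)
    split_ifs <;> norm_num
  · exact smul_nonneg (by norm_num) (hs _)
  · exact smul_nonneg (by norm_num) (hs _)

end BS
end
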