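import Pool.Agent.Lib.MP_bd3808_ag.BS.Coh
import Pool.Agent.Lib.MP_bd3808_ag.Mg.G010
import Pool.Agent.Lib.MP_bd3808_ag.BS.Lin
import Pool.Agent.Lib.MP_bd3808_ag.Mg.G014

section

/-!
# Elementary handling of sections of sheaves of modules

`rM M h : Γ(M,U) →+ Γ(M,V)` and `rO X h : Γ(X,U) →+* Γ(X,V)` are the restrictions for `h : V ≤ U`.
-/

set_option autoImplicit false

open CategoryTheory CategoryTheory.Limits AlgebraicGeometry TopologicalSpace

namespace BS

universe u

variable {X : Scheme.{u}}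

/-- restriction of sections of a sheaf of modules -/
noncomputable def rM (M : X.Modules) {U V : X.Opens} (h : V ≤ U) : Γ(M, U) →+ Γ(M, V) :=
  (M.presheaf.map (homOfLE h).op).hom

variable (X) in
/-- restriction of functions -/
noncomputable def rO {U V : X.Opens} (h : V ≤ U) : Γ(X, U) →+* Γ(X, V) :=
  (X.presheaf.map (homOfLE h).op).hom

lemma rM_rM (M : X.Modules) {U V W : X.Opens} (h : V ≤ U) (h' : W ≤ V) (x : Γ(M, U)) :
    rM M h' (rM M h x) = rM M (h'.trans h) x := by
  unfold rM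
  rw [← AddMonoidHom.comp_apply, ← AddCommGrpCat.hom_comp, ← Functor.map_comp]
  rfl

lemma rM_self (M : X.Modules) {U : X.Opens} (h : U ≤ U) (x : Γ(M, U)) : rM M h x = x := by
  have : (homOfLE h).op = 𝟙 (Opposite.op U) := rfl
  unfold rM
  rw [this, M.presheaf.map_id]
  rfl

lemma rO_rO {U V W : X.Opens} (h : V ≤ U) (h' : W ≤ V) (x : Γ(X, U)) :
    rO X h' (rO X h x) = rO X (h'.trans h) x := by
  unfold rO
  rw [← RingHom.comp_apply, ← CommRingCat.hom_comp, ← Functor.map_comp]
  rfl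

lemma rO_self {U : X.Opens} (h : U ≤ U) (x : Γ(X, U)) : rO X h x = x := by
  have : (homOfLE h).op = 𝟙 (Opposite.op U) := rfl
  unfold rO
  rw [this, X.presheaf.map_id]
  rfl

lemma rM_smul (M : X.Modules) {U V : X.Opens} (h : V ≤ U) (r : Γ(X, U)) (x : Γ(M, U)) :
    rM M h (r • x) = rO X h r • rM M h x :=
  Scheme.Modules.map_smul M (homOfLE h) r x

/-- a morphism of sheaves of modules on sections -/
noncomputable def ap {M N : X.Modules} (φ : M ⟶ N) (U : X.Opens) : Γ(M, U) →+ Γ(N, U) :=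
  (φ.app U).hom

lemma ap_smul {M N : X.Modules} (φ : M ⟶ N) (U : X.Opens) (r : Γ(X, U)) (x : Γ(M, U)) :
    ap φ U (r • x) = r • ap φ U x := Scheme.Modules.Hom.app_smul φ r x

lemma ap_rM {M N : X.Modules} (φ : M ⟶ N) {U V : X.Opens} (h : V ≤ U) (x : Γ(M, U)) :
    ap φ V (rM M h x) = rM N h (ap φ U x) :=
  congr($(φ.mapPresheaf.naturality (homOfLE h).op) x)

lemma ap_comp {M N K : X.Modules} (φ : M ⟶ N) (ψ : N ⟶ K) (U : X.Opens) (x : Γ(M, U)) :
    ap (φ ≫ ψ) U x = ap ψ U (ap φ U x) := rfl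

lemma ap_id (M : X.Modules) (U : X.Opens) (x : Γ(M, U)) : ap (𝟙 M) U x = x := rfl

lemma ap_add {M N : X.Modules} (φ ψ : M ⟶ N) (U : X.Opens) (x : Γ(M, U)) :
    ap (φ + ψ) U x = ap φ U x + ap ψ U x := rfl

lemma ap_sub {M N : X.Modules} (φ ψ : M ⟶ N) (U : X.Opens) (x : Γ(M, U)) :
    ap (φ - ψ) U x = ap φ U x - ap ψ U x := rfl

lemma ap_zero {M N : X.Modules} (U : X.Opens) (x : Γ(M, U)) : ap (0 : M ⟶ N) U x = 0 := rfl

lemma ap_ext {M N : X.Modules} {φ ψ : M ⟶ N} (h : ∀ U x, ap φ U x = ap ψ U x) : φ = ψ := by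
  ext U x
  exact h U x

/-- the sheaf property: uniqueness -/
lemma sec_ext (M : X.Modules) {U : X.Opens} {x y : Γ(M, U)}
    (h : ∀ p ∈ U, ∃ (V : X.Opens) (_ : p ∈ V) (hV : V ≤ U), rM M hV x = rM M hV y) : x = y := by
  choose V hp hV he using h
  refine TopCat.Sheaf.eq_of_locally_eq' ⟨_, M.isSheaf⟩ (fun p : U => V p.1 p.2) U
    (fun p => homOfLE (hV p.1 p.2)) ?_ x y ?_
  · intro p hpU
    exact Opens.mem_iSup.2 ⟨⟨p, hpU⟩, hp p hpU⟩
  · intro p
    exact he p.1 p.2

/-- the sheaf property: existence -/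
lemma sec_glue (M : X.Modules) {ι : Type u} (V : ι → X.Opens) (U : X.Opens) (hV : ∀ i, V i ≤ U)
    (hc : U ≤ ⨆ i, V i) (s : ∀ i, Γ(M, V i))
    (hs : ∀ i j, rM M (inf_le_left : V i ⊓ V j ≤ V i) (s i) =
      rM M (inf_le_right : V i ⊓ V j ≤ V j) (s j)) :
    ∃ x : Γ(M, U), ∀ i, rM M (hV i) x = s i := by
  obtain ⟨x, hx, -⟩ := TopCat.Sheaf.existsUnique_gluing' ⟨_, M.isSheaf⟩ V U
    (fun i => homOfLE (hV i)) hc s (fun i j => hs i j)
  exact ⟨x, hx⟩

/-- the sheaf property of the structure sheaf: uniqueness -/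
lemma fun_ext {U : X.Opens} {x y : Γ(X, U)}
    (h : ∀ p ∈ U, ∃ (V : X.Opens) (_ : p ∈ V) (hV : V ≤ U), rO X hV x = rO X hV y) : x = y := by
  choose V hp hV he using h
  refine TopCat.Sheaf.eq_of_locally_eq' X.sheaf (fun p : U => V p.1 p.2) U
    (fun p => homOfLE (hV p.1 p.2)) ?_ x y ?_
  · intro p hpU
    exact Opens.mem_iSup.2 ⟨⟨p, hpU⟩, hp p hpU⟩
  · intro p
    exact he p.1 p.2

/-- the sheaf property of the structure sheaf: existence -/
lemma fun_glue {ι : Type u} (V : ι → X.Opens) (U : X.Opens) (hV : ∀ i, V i ≤ U)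
    (hc : U ≤ ⨆ i, V i) (s : ∀ i, Γ(X, V i))
    (hs : ∀ i j, rO X (inf_le_left : V i ⊓ V j ≤ V i) (s i) =
      rO X (inf_le_right : V i ⊓ V j ≤ V j) (s j)) :
    ∃ x : Γ(X, U), ∀ i, rO X (hV i) x = s i := by
  obtain ⟨x, hx, -⟩ := TopCat.Sheaf.existsUnique_gluing' X.sheaf V U
    (fun i => homOfLE (hV i)) hc s (fun i j => hs i j)
  exact ⟨x, hx⟩

/-- `M` is quasi-coherent over the open set `U` (usually affine): for every function `g` on `U` the
restriction `Γ(M,U) → Γ(M,D(g))` is the localization at `g`. -/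
def Loc (M : X.Modules) (U : X.Opens) : Prop :=
  ∀ g : Γ(X, U), (∀ s : Γ(M, X.basicOpen g), ∃ (n : ℕ) (t : Γ(M, U)),
      rM M (X.basicOpen_le g) t = rO X (X.basicOpen_le g) g ^ n • s) ∧
    ∀ t : Γ(M, U), rM M (X.basicOpen_le g) t = 0 → ∃ n : ℕ, g ^ n • t = 0

end BS
end

section

/-!
# A sheaf which satisfies `Loc` on an affine cover is quasi-coherent
-/

set_option autoImplicit false

open CategoryTheory CategoryTheory.Limits AlgebraicGeometry TopologicalSpace

namespace BS

universe u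

variable {X : Scheme.{u}}

private lemma LocQc_scal {U : X.Opens} (hU : IsAffineOpen U) (V : (Spec Γ(X, U)).Opens)
    (e : V ≤ hU.fromSpec ⁻¹ᵁ U) :
    (Scheme.ΓSpecIso Γ(X, U)).inv ≫ (Spec Γ(X, U)).presheaf.map V.leTop.op =
      hU.fromSpec.appLE U V e := by
  rw [Scheme.Hom.appLE, hU.fromSpec_app_self, Category.assoc, ← Functor.map_comp]
  rfl

private lemma LocQc_smul (M : X.Modules) {U : X.Opens} (hU : IsAffineOpen U)
    (V : (Spec Γ(X, U)).Opens) (hV : hU.fromSpec ''ᵁ V ≤ U) (r : Γ(X, U))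
    (x : Γ(M.restrict hU.fromSpec, V)) :
    (M.restrictAppIso hU.fromSpec V).hom (r • x) =
      rO X hV r • (M.restrictAppIso hU.fromSpec V).hom x := by
  have e : V ≤ hU.fromSpec ⁻¹ᵁ U := by
    rw [hU.fromSpec_preimage_self]
    exact le_top
  have h1 : hU.fromSpec.appLE U V e ≫ (hU.fromSpec.appIso V).inv =
      X.presheaf.map (homOfLE hV).op := Scheme.Hom.appLE_appIso_inv _ _
  rw [Scheme.Modules.smul_Spec_def, Scheme.Modules.smul_restrictAppIso_hom_apply]
  congr 1
  have h2 := congr($(h1).hom r)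
  rw [← LocQc_scal hU V e] at h2
  exact h2

private lemma LocQc_map (M : X.Modules) {U : X.Opens} (hU : IsAffineOpen U)
    (V : (Spec Γ(X, U)).Opens) (hVT : hU.fromSpec ''ᵁ V ≤ hU.fromSpec ''ᵁ ⊤)
    (t : Γ(M.restrict hU.fromSpec, ⊤)) :
    (M.restrictAppIso hU.fromSpec V).hom ((M.restrict hU.fromSpec).presheaf.map V.leTop.op t) =
      rM M hVT ((M.restrictAppIso hU.fromSpec ⊤).hom t) := rfl

private lemma LocQc_inj (M : X.Modules) {U : X.Opens} (hU : IsAffineOpen U)
    (V : (Spec Γ(X, U)).Opens) {W : X.Opens} (hV : hU.fromSpec ''ᵁ V = W)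
    {x y : Γ(M.restrict hU.fromSpec, V)}
    (hxy : rM M hV.ge ((M.restrictAppIso hU.fromSpec V).hom x) =
      rM M hV.ge ((M.restrictAppIso hU.fromSpec V).hom y)) : x = y := by
  have h1 := congrArg (rM M hV.le) hxy
  rw [rM_rM, rM_rM, rM_self, rM_self] at h1
  exact h1

private lemma LocQc_surj (M : X.Modules) {U : X.Opens} (hU : IsAffineOpen U) (h : Loc M U)
    (g : Γ(X, U)) (V : (Spec Γ(X, U)).Opens) (hV : hU.fromSpec ''ᵁ V = X.basicOpen g)
    (hT : hU.fromSpec ''ᵁ ⊤ = U) (x : Γ(M.restrict hU.fromSpec, V)) :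
    ∃ (n : ℕ) (t : Γ(M.restrict hU.fromSpec, ⊤)),
      g ^ n • x = (M.restrict hU.fromSpec).presheaf.map V.leTop.op t := by
  have hDU : hU.fromSpec ''ᵁ V ≤ U := hV.le.trans (X.basicOpen_le g)
  have hDT : hU.fromSpec ''ᵁ V ≤ hU.fromSpec ''ᵁ ⊤ := hDU.trans hT.ge
  obtain ⟨n, t, hn⟩ := (h g).1 (rM M hV.ge ((M.restrictAppIso hU.fromSpec V).hom x))
  obtain ⟨t', ht'⟩ : ∃ t' : Γ(M.restrict hU.fromSpec, ⊤),
      (M.restrictAppIso hU.fromSpec ⊤).hom t' = rM M hT.le t := ⟨rM M hT.le t, rfl⟩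
  refine ⟨n, t', LocQc_inj M hU V hV ?_⟩
  rw [LocQc_map M hU V hDT, ht', rM_rM, rM_rM, hn, LocQc_smul M hU _ hDU, rM_smul, rO_rO, map_pow]

private lemma LocQc_zero (M : X.Modules) {U : X.Opens} (hU : IsAffineOpen U) (h : Loc M U)
    (g : Γ(X, U)) (V : (Spec Γ(X, U)).Opens) (hV : hU.fromSpec ''ᵁ V = X.basicOpen g)
    (hT : hU.fromSpec ''ᵁ ⊤ = U) (x : Γ(M.restrict hU.fromSpec, ⊤))
    (hx : (M.restrict hU.fromSpec).presheaf.map V.leTop.op x = 0) :
    ∃ n : ℕ, g ^ n • x = 0 := by
  have hDU : hU.fromSpec ''ᵁ V ≤ U := hV.le.trans (X.basicOpen_le g)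
  have hDT : hU.fromSpec ''ᵁ V ≤ hU.fromSpec ''ᵁ ⊤ := hDU.trans hT.ge
  have h1 := LocQc_map M hU V hDT x
  rw [hx, map_zero] at h1
  obtain ⟨n, hn⟩ := (h g).2 (rM M hT.ge ((M.restrictAppIso hU.fromSpec ⊤).hom x)) (by
    rw [rM_rM, ← rM_rM M hDT hV.ge, ← h1, map_zero])
  refine ⟨n, LocQc_inj M hU ⊤ hT ?_⟩
  rw [LocQc_smul M hU _ hT.le, rM_smul, rO_rO, rO_self, hn, map_zero, map_zero]

/-- `Loc M U` for an affine open set `U` means that the restriction of `M` to `Spec Γ(X,U)` is the sheaf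
associated with a module.

PROOF. With `j := hU.fromSpec` and `M' := M.restrict j`: by `isIso_fromTildeΓ_iff_isLocalizing` we have to
show that for `g : Γ(X,U)` the map `Γ(M',⊤) → Γ(M',D(g))` is `IsLocalizedModule (.powers g)`; use
`IsLocalizedModule.Away.mk_of_addCommGroup` as in `private lemma isLocalizing_iff_aux` of
Mathlib/AlgebraicGeometry/Modules/Tilde.lean with `Scheme.Modules.isUnit_algebraMap_end_of_le_basicOpen`; the
two conditions are the two halves of `Loc M U` at `g`, read through `M.restrictAppIso j _` and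
`IsAffineOpen.fromSpec_image_basicOpen`. -/
theorem isIso_fromTildeΓ_of_loc (M : X.Modules) {U : X.Opens} (hU : IsAffineOpen U) (h : Loc M U) :
    IsIso (Scheme.Modules.fromTildeΓ (M.restrict hU.fromSpec)) := by
  have hT : hU.fromSpec ''ᵁ ⊤ = U := by
    rw [← hU.fromSpec_preimage_self, Scheme.Hom.image_preimage_eq_opensRange_inf,
      hU.opensRange_fromSpec, inf_idem]
  rw [isIso_fromTildeΓ_iff_isLocalizing]
  intro g
  refine IsLocalizedModule.Away.mk_of_addCommGroup ?_ ?_ ?_
  · exact Scheme.Modules.isUnit_algebraMap_end_of_le_basicOpen g le_rfl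
  · intro x
    exact LocQc_surj M hU h g _ (hU.fromSpec_image_basicOpen g) hT x
  · intro x hx
    exact LocQc_zero M hU h g _ (hU.fromSpec_image_basicOpen g) hT x hx

end BS
end

section

/-!
# Morphisms of sheaves of modules from maps on sections
-/

set_option autoImplicit false

open CategoryTheory CategoryTheory.Limits AlgebraicGeometry TopologicalSpace

namespace BS

universe u

variable {X : Scheme.{u}}

/-- a morphism of sheaves of modules given by linear maps on sections compatible with restrictions -/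
noncomputable def mkHom {M N : X.Modules} (f : ∀ U : X.Opens, Γ(M, U) →+ Γ(N, U))
    (hs : ∀ (U : X.Opens) (r : Γ(X, U)) (x : Γ(M, U)), f U (r • x) = r • f U x)
    (hr : ∀ (U V : X.Opens) (h : V ≤ U) (x : Γ(M, U)), f V (rM M h x) = rM N h (f U x)) : M ⟶ N :=
  show SheafOfModules.Hom _ _ from
  ⟨{ app := fun U => ModuleCat.ofHom (R := X.ringCatSheaf.obj.obj U)
        (LinearMap.mk ⟨fun x => f U.unop x, fun x y => (f U.unop).map_add x y⟩
          (fun a x => hs U.unop a x))
     naturality := by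
      intro U V i
      ext x
      exact hr U.unop V.unop (leOfHom i.unop) x }⟩

lemma ap_mkHom {M N : X.Modules} (f : ∀ U : X.Opens, Γ(M, U) →+ Γ(N, U))
    (hs : ∀ (U : X.Opens) (r : Γ(X, U)) (x : Γ(M, U)), f U (r • x) = r • f U x)
    (hr : ∀ (U V : X.Opens) (h : V ≤ U) (x : Γ(M, U)), f V (rM M h x) = rM N h (f U x))
    (U : X.Opens) (x : Γ(M, U)) : ap (mkHom f hs hr) U x = f U x := rfl

/-- A morphism of sheaves of modules which is bijective on sections over the sets of a basis is an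
isomorphism. -/
lemma isIso_of_bij {M N : X.Modules} (φ : M ⟶ N) (h : ∀ U : X.Opens, Function.Bijective (ap φ U)) :
    IsIso φ := by
  rw [Scheme.Modules.Hom.isIso_iff_isIso_app]
  intro U
  rw [ConcreteCategory.isIso_iff_bijective]
  exact h U

end BS
end

section

/-!
# Quasi-coherent sheaves satisfy `Loc` on affine open sets
-/

set_option autoImplicit false

open CategoryTheory CategoryTheory.Limits AlgebraicGeometry TopologicalSpace

namespace BS

universe u

variable {X : Scheme.{u}}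

private lemma scal_hom {U : X.Opens} (hU : IsAffineOpen U) (V : (Spec Γ(X, U)).Opens)
    (h : hU.fromSpec ''ᵁ V ≤ U) :
    (Scheme.ΓSpecIso Γ(X, U)).inv ≫ (Spec Γ(X, U)).presheaf.map V.leTop.op ≫
      (hU.fromSpec.appIso V).inv = X.presheaf.map (homOfLE h).op := by
  have e : V ≤ hU.fromSpec ⁻¹ᵁ U := by
    rw [hU.fromSpec_preimage_self]
    exact le_top
  have h1 : (Scheme.ΓSpecIso Γ(X, U)).inv ≫ (Spec Γ(X, U)).presheaf.map V.leTop.op =
      hU.fromSpec.appLE U V e := by
    rw [Scheme.Hom.appLE, hU.fromSpec_app_self, Category.assoc, ← Functor.map_comp]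
    rfl
  rw [← Category.assoc, h1, Scheme.Hom.appLE_appIso_inv]

private lemma scal {U : X.Opens} (hU : IsAffineOpen U) (M : X.Modules)
    (V : (Spec Γ(X, U)).Opens) (h : hU.fromSpec ''ᵁ V ≤ U) (r : Γ(X, U))
    (x : Γ(M.restrict hU.fromSpec, V)) :
    (show Γ(M, hU.fromSpec ''ᵁ V) from (r • x)) =
      rO X h r • (show Γ(M, hU.fromSpec ''ᵁ V) from x) := by
  rw [Scheme.Modules.smul_Spec_def]
  change (hU.fromSpec.appIso V).inv (((Spec Γ(X, U)).presheaf.map V.leTop.op)
    ((Scheme.ΓSpecIso Γ(X, U)).inv r)) • (show Γ(M, hU.fromSpec ''ᵁ V) from x) = _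
  have h2 := congr($(scal_hom hU V h) r)
  unfold rO
  rw [← h2]
  rfl

/-- A quasi-coherent sheaf satisfies `Loc` on every affine open set `U`.

PROOF. Let `j := hU.fromSpec : Spec Γ(X,U) ⟶ X` (an open immersion with `j ''ᵁ ⊤ = U` and
`j ''ᵁ (PrimeSpectrum.basicOpen g) = X.basicOpen g`, `IsAffineOpen.fromSpec_image_basicOpen`) and
`M' := M.restrict j`. `M'` is quasi-coherent (instance `Scheme.Modules.isQuasicoherent_restrictFunctor`), so
`IsIso M'.fromTildeΓ` (instance `Scheme.Modules.isIso_fromTildeΓ_of_isQuasicoherent`), so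
`IsLocalizing (modulesSpecToSheaf.obj M')` (`isIso_fromTildeΓ_iff_isLocalizing`), i.e. for
`g : Γ(X,U)` the map `Γ(M',⊤) → Γ(M',D(g))` is `IsLocalizedModule (.powers g)`. Read this through
`M.restrictAppIso j _` (or use that the sections of `M'` over `V` are by definition those of `M` over
`j ''ᵁ V`, and that restriction maps for equal open sets are bijective): surjectivity gives the first half of
`Loc`, `IsLocalizedModule.eq_zero_iff` the second. The scalars: the `Γ(X,U)`-action on `Γ(M',V)` is the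
one of `Scheme.Modules.smul_Spec_def`; compare with `private lemma isLocalizing_iff_aux` and
`aux_basicOpen_of_aux_restrict` in Mathlib/AlgebraicGeometry/Modules/Tilde.lean, which contain the same
computations (`restrictAppIso_smul_Spec`, `map_smul_Spec`). -/
theorem loc_of_qcoh (M : X.Modules) (hM : isQCoh X M) {U : X.Opens} (hU : IsAffineOpen U) :
    Loc M U := by
  intro g
  let M' := M.restrict hU.fromSpec
  have : M.IsQuasicoherent := hM
  have : M'.IsQuasicoherent := Scheme.Modules.isQuasicoherent_restrictFunctor hU.fromSpec M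
  have hiso : IsIso M'.fromTildeΓ := inferInstance
  have hloc := (isIso_fromTildeΓ_iff_isLocalizing M').1 hiso g
  have e1 : hU.fromSpec ''ᵁ ⊤ = U := by
    rw [Scheme.Hom.image_top_eq_opensRange, hU.opensRange_fromSpec]
  have e2 : hU.fromSpec ''ᵁ (PrimeSpectrum.basicOpen g) = X.basicOpen g :=
    hU.fromSpec_image_basicOpen g
  have h2 : hU.fromSpec ''ᵁ (PrimeSpectrum.basicOpen g) ≤ U := e2.le.trans (X.basicOpen_le g)
  have h21 : hU.fromSpec ''ᵁ (PrimeSpectrum.basicOpen g) ≤ hU.fromSpec ''ᵁ ⊤ :=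
    e2.le.trans ((X.basicOpen_le g).trans e1.ge)
  constructor
  · intro s
    obtain ⟨⟨t', ⟨_, n, rfl⟩⟩, ht⟩ :=
      hloc.surj (show Γ(M', PrimeSpectrum.basicOpen g) from rM M e2.le s)
    have ht2 : (show Γ(M', PrimeSpectrum.basicOpen g) from
        ((g ^ n) • (show Γ(M', PrimeSpectrum.basicOpen g) from rM M e2.le s))) =
        (show Γ(M', PrimeSpectrum.basicOpen g) from
          rM M h21 (show Γ(M, hU.fromSpec ''ᵁ ⊤) from t')) := ht
    have ht3 := scal hU M (PrimeSpectrum.basicOpen g) h2 (g ^ n) (rM M e2.le s)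
    have ht4 : rO X h2 (g ^ n) • rM M e2.le s =
        rM M h21 (show Γ(M, hU.fromSpec ''ᵁ ⊤) from t') := ht3.symm.trans ht2
    refine ⟨n, rM M e1.ge (show Γ(M, hU.fromSpec ''ᵁ ⊤) from t'), ?_⟩
    have ht5 := congrArg (rM M e2.ge) ht4
    rw [rM_smul, rM_rM, rM_rM, rO_rO, rM_self, map_pow] at ht5
    rw [rM_rM]
    exact ht5.symm
  · intro t ht
    have h0 : ((modulesSpecToSheaf.obj M').obj.map (PrimeSpectrum.basicOpen g).leTop.op).hom
        (show Γ(M', ⊤) from rM M e1.le t) = 0 := by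
      change rM M h21 (rM M e1.le t) = 0
      rw [rM_rM, ← rM_rM M (X.basicOpen_le g) e2.le t, ht, map_zero]
    obtain ⟨⟨_, n, rfl⟩, hn⟩ := (hloc.eq_zero_iff (Submonoid.powers g)).1 h0
    refine ⟨n, ?_⟩
    have hn2 : (show Γ(M, hU.fromSpec ''ᵁ ⊤) from
      ((g ^ n) • (show Γ(M', ⊤) from rM M e1.le t))) = 0 := hn
    rw [scal hU M ⊤ e1.le (g ^ n) (rM M e1.le t)] at hn2
    have hn3 := congrArg (rM M e1.ge) hn2
    rw [map_zero] at hn3
    change rM M e1.ge (rO X e1.le (g ^ n) • rM M e1.le t) = 0 at hn3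
    rw [rM_smul, rM_rM, rO_rO, rM_self, rO_self] at hn3
    exact hn3

end BS
end

section

/-!
# Sections of kernels and products
-/

set_option autoImplicit false

open CategoryTheory CategoryTheory.Limits AlgebraicGeometry TopologicalSpace

namespace BS

universe u

variable {X : Scheme.{u}}

/-- The functor of sections over `U` (to abelian groups) preserves limits: it is
`Scheme.Modules.toPresheaf X ⋙ (evaluation _ _).obj (op U)`.

PROOF. `Scheme.Modules.toPresheaf X` preserves limits (instance in Mathlib/AlgebraicGeometry/Modules/Sheaf.lean),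
evaluation functors of functor categories too. -/
noncomputable instance secPreservesLimits (U : X.Opens) :
    PreservesLimits (Scheme.Modules.toPresheaf X ⋙ (evaluation _ Ab.{u}).obj (Opposite.op U)) :=
  have _h : PreservesLimitsOfSize.{u, u} ((evaluation (Opens X)ᵒᵖ Ab.{u}).obj (Opposite.op U)) :=
    ⟨fun {_} _ => evaluation_preservesLimitsOfShape _⟩
  comp_preservesLimits _ _

private instance KerSec_zero (U : X.Opens) :
    (Scheme.Modules.toPresheaf X ⋙
      (evaluation _ Ab.{u}).obj (Opposite.op U)).PreservesZeroMorphisms :=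
  ⟨fun _ _ => rfl⟩

/-- PROOF. Sections over `U` preserve kernels (`secPreservesLimits`): `kernel.ι f` is mono, functors preserving
limits preserve monomorphisms, and monomorphisms of `Ab` are injective. -/
theorem ker_inj {M N : X.Modules} (f : M ⟶ N) (U : X.Opens) :
    Function.Injective (ap (kernel.ι f) U) := by
  have h : Mono ((Scheme.Modules.toPresheaf X ⋙
      (evaluation _ Ab.{u}).obj (Opposite.op U)).map (kernel.ι f)) := inferInstance
  exact (AddCommGrpCat.mono_iff_injective _).1 h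

/-- PROOF. Sections over `U` preserve the kernel of `f`; in `Ab` an element of the kernel is in the image of
the kernel fork (e.g. the map `ℤ → Γ(M,U)`, `n ↦ n x`, factors; or `AddCommGrpCat.kernelIsLimit`, or the exactness
of the short complex `kernel f → M → N`, preserved by the left exact functor, and
`ShortComplex.ab_exact_iff`). -/
theorem ker_exact {M N : X.Modules} (f : M ⟶ N) (U : X.Opens) (x : Γ(M, U)) (hx : ap f U x = 0) :
    ∃ y, ap (kernel.ι f) U y = x := by
  let F := Scheme.Modules.toPresheaf X ⋙ (evaluation _ Ab.{u}).obj (Opposite.op U)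
  have h1 : ((ShortComplex.mk (kernel.ι f) f (kernel.condition f)).map F).Exact :=
    ShortComplex.exact_of_f_is_kernel _
      (KernelFork.mapIsLimit _ (kernelIsKernel f) F)
  rw [ShortComplex.ab_exact_iff] at h1
  exact h1 x hx

/-- PROOF. Sections over `U` preserve products, and the elements of a product in `Ab` are families. -/
theorem prod_inj {J : Type} [Finite J] (F : J → X.Modules) (U : X.Opens) (x y : Γ(∏ᶜ F, U))
    (h : ∀ j, ap (Pi.π F j) U x = ap (Pi.π F j) U y) : x = y := by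
  let G := Scheme.Modules.toPresheaf X ⋙ (evaluation _ Ab.{u}).obj (Opposite.op U)
  have h1 := isLimitOfPreserves G (productIsProduct F)
  refine Concrete.isLimit_ext _ h1 x y ?_
  rintro ⟨j⟩
  exact h j

/-- PROOF. Sections over `U` preserve products, and the elements of a product in `Ab` are families. -/
theorem prod_surj {J : Type} [Finite J] (F : J → X.Modules) (U : X.Opens) (x : ∀ j, Γ(F j, U)) :
    ∃ y : Γ(∏ᶜ F, U), ∀ j, ap (Pi.π F j) U y = x j := by
  let G := Scheme.Modules.toPresheaf X ⋙ (evaluation _ Ab.{u}).obj (Opposite.op U)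
  let c : Fan (fun j => G.obj (F j)) := Fan.mk (∏ᶜ fun j => G.obj (F j)) (Pi.π _)
  let e := isLimitFanMkObjOfIsLimit G F _ (productIsProduct F)
  let y0 : ToType (∏ᶜ fun j => G.obj (F j)) := (Concrete.productEquiv (fun j => G.obj (F j))).symm x
  refine ⟨(e.lift c) y0, fun j => ?_⟩
  have h2 : e.lift c ≫ G.map (Pi.π F j) = Pi.π (fun j => G.obj (F j)) j := e.fac c ⟨j⟩
  have h3 := Concrete.productEquiv_symm_apply_π (fun j => G.obj (F j)) x j
  rw [← h2] at h3
  exact h3

end BS
end

section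

/-!
# `Loc` for kernels and products (elementary)
-/

set_option autoImplicit false

open CategoryTheory CategoryTheory.Limits AlgebraicGeometry TopologicalSpace

namespace BS

universe u

variable {X : Scheme.{u}}

private lemma LocOps_ap_hom_inv {M N : X.Modules} (e : M ≅ N) (U : X.Opens) (x : Γ(N, U)) :
    ap e.hom U (ap e.inv U x) = x := by
  rw [← ap_comp, e.inv_hom_id, ap_id]

private lemma LocOps_ap_inv_hom {M N : X.Modules} (e : M ≅ N) (U : X.Opens) (x : Γ(M, U)) :
    ap e.inv U (ap e.hom U x) = x := by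
  rw [← ap_comp, e.hom_inv_id, ap_id]

/-- PROOF. Sections of isomorphic sheaves are isomorphic, compatibly with scalars and restrictions (`ap e.hom`,
`ap e.inv`, `ap_smul`, `ap_rM`). -/
theorem loc_iso {M N : X.Modules} (e : M ≅ N) {U : X.Opens} (h : Loc M U) : Loc N U := by
  intro g
  obtain ⟨h1, h2⟩ := h g
  refine ⟨fun s => ?_, fun t ht => ?_⟩
  · obtain ⟨n, t, ht⟩ := h1 (ap e.inv _ s)
    refine ⟨n, ap e.hom U t, ?_⟩
    rw [← ap_rM, ht, ap_smul, LocOps_ap_hom_inv]
  · obtain ⟨n, hn⟩ := h2 (ap e.inv U t) (by rw [← ap_rM, ht, map_zero])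
    refine ⟨n, ?_⟩
    have h3 := congrArg (ap e.hom U) hn
    rwa [ap_smul, LocOps_ap_hom_inv, map_zero] at h3

/-- PROOF. All sections are `0` (the identity of a zero object is `0`). -/
theorem loc_zero {M : X.Modules} (h : IsZero M) (U : X.Opens) : Loc M U := by
  have h0 : ∀ (V : X.Opens) (x : Γ(M, V)), x = 0 := by
    intro V x
    have h1 : 𝟙 M = 0 := h.eq_of_src _ _
    rw [← ap_id M V x, h1, ap_zero]
  intro g
  refine ⟨fun s => ⟨0, 0, ?_⟩, fun t _ => ⟨0, h0 U _⟩⟩
  rw [h0 _ (rM M _ 0), h0 _ (_ • s)]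

/-- PROOF. Let `g : Γ(X,U)`. (1) `s : Γ(kernel f, D(g))`: `ι(s) : Γ(M,D(g))`, so `g^n ι(s) = t|` with `t : Γ(M,U)`.
`f(t)` restricts to `g^n f(ι(s)) = 0` on `D(g)`, so `g^m f(t) = 0` (`Loc N U`), so `g^m t = ι(t')` (`ker_exact`) and
`t'` restricts to `g^(n+m) s` (`ker_inj` on `D(g)`). (2) `t : Γ(kernel f, U)` with `t|D(g) = 0`: `ι(t)` has this property, so
`g^n ι(t) = 0`, so `g^n t = 0` (`ker_inj`). -/
theorem loc_ker {M N : X.Modules} (f : M ⟶ N) {U : X.Opens} (hM : Loc M U) (hN : Loc N U) :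
    Loc (kernel f) U := by
  intro g
  obtain ⟨hM1, hM2⟩ := hM g
  obtain ⟨_, hN2⟩ := hN g
  refine ⟨fun s => ?_, fun t ht => ?_⟩
  · obtain ⟨n, t, ht⟩ := hM1 (ap (kernel.ι f) _ s)
    have h1 : rM N (X.basicOpen_le g) (ap f U t) = 0 := by
      rw [← ap_rM, ht, ap_smul, ← ap_comp, kernel.condition, ap_zero, smul_zero]
    obtain ⟨m, hm⟩ := hN2 _ h1
    obtain ⟨t', ht'⟩ := ker_exact f U (g ^ m • t) (by rw [ap_smul, hm])
    refine ⟨m + n, t', ?_⟩
    apply ker_inj f
    rw [ap_rM, ht', rM_smul, ht, ap_smul, smul_smul, map_pow, pow_add]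
  · obtain ⟨n, hn⟩ := hM2 (ap (kernel.ι f) U t) (by rw [← ap_rM, ht, map_zero])
    refine ⟨n, ?_⟩
    apply ker_inj f
    rw [ap_smul, hn, map_zero]

/-- PROOF. Sections of the product are families (`prod_inj`, `prod_surj`); take the maximum (or the sum) of the
finitely many exponents. -/
theorem loc_prod {J : Type} [Finite J] (F : J → X.Modules) {U : X.Opens} (h : ∀ j, Loc (F j) U) :
    Loc (∏ᶜ F) U := by
  classical
  have := Fintype.ofFinite J
  intro g
  refine ⟨fun s => ?_, fun t ht => ?_⟩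
  · choose n t ht using fun j => (h j g).1 (ap (Pi.π F j) _ s)
    obtain ⟨y, hy⟩ := prod_surj F U (fun j => g ^ ((∑ i, n i) - n j) • t j)
    refine ⟨∑ i, n i, y, ?_⟩
    apply prod_inj F
    intro j
    have hj : n j ≤ ∑ i, n i := Finset.single_le_sum (fun _ _ => Nat.zero_le _) (Finset.mem_univ j)
    rw [ap_rM, hy, rM_smul, ht, ap_smul, smul_smul, map_pow, ← pow_add, Nat.sub_add_cancel hj]
  · have h1 : ∀ j, ∃ n : ℕ, g ^ n • ap (Pi.π F j) U t = 0 := fun j =>
      (h j g).2 _ (by rw [← ap_rM, ht, map_zero])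
    choose n hn using h1
    refine ⟨∑ i, n i, ?_⟩
    apply prod_inj F
    intro j
    have hj : n j ≤ ∑ i, n i := Finset.single_le_sum (fun _ _ => Nat.zero_le _) (Finset.mem_univ j)
    rw [ap_smul, map_zero, ← Nat.sub_add_cancel hj, pow_add, ← smul_smul, hn, smul_zero]

end BS
end

section

/-!
# Finite generation of the sections is local
-/

set_option autoImplicit false

open CategoryTheory CategoryTheory.Limits AlgebraicGeometry TopologicalSpace

namespace BS

universe u

variable {X : Scheme.{u}}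

private lemma FinLoc_unit {U : X.Opens} (g : Γ(X, U)) :
    IsUnit (rO X (X.basicOpen_le g) g) :=
  X.toRingedSpace.isUnit_res_basicOpen g

private lemma FinLoc_span (M : X.Modules) {U V : X.Opens} (hV : V ≤ U) (S : Set Γ(M, U))
    {t : Γ(M, U)} (ht : t ∈ Submodule.span Γ(X, U) S) :
    rM M hV t ∈ Submodule.span Γ(X, V) (rM M hV '' S) := by
  induction ht using Submodule.span_induction with
  | mem x hx => exact Submodule.subset_span ⟨x, hx, rfl⟩
  | zero => rw [map_zero]; exact Submodule.zero_mem _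
  | add x y _ _ hx hy => rw [map_add]; exact Submodule.add_mem _ hx hy
  | smul a x _ hx => rw [rM_smul]; exact Submodule.smul_mem _ _ hx

/-- PROOF. If `Γ(M,U)` is generated by finitely many `t_i`, then `Γ(M,D(g))` is generated by their restrictions: every `s`
satisfies `g^n s = t|`, and `g|D(g)` is a unit. -/
theorem fin_basic (M : X.Modules) {U : X.Opens} (h : Loc M U) (hf : Module.Finite Γ(X, U) Γ(M, U))
    (g : Γ(X, U)) : Module.Finite Γ(X, X.basicOpen g) Γ(M, X.basicOpen g) := by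
  classical
  obtain ⟨S, hS⟩ := hf.fg_top
  refine ⟨⟨S.image (rM M (X.basicOpen_le g)), ?_⟩⟩
  rw [eq_top_iff]
  rintro s -
  obtain ⟨n, t, ht⟩ := (h g).1 s
  have hmem := FinLoc_span M (X.basicOpen_le g) (S : Set Γ(M, U)) (t := t)
    (by rw [hS]; exact Submodule.mem_top)
  obtain ⟨v, hv⟩ := (FinLoc_unit g).pow n
  have h1 : s = (↑v⁻¹ : Γ(X, X.basicOpen g)) • rM M (X.basicOpen_le g) t := by
    rw [ht, ← hv, smul_smul, Units.inv_mul, one_smul]
  rw [h1, Finset.coe_image]
  exact Submodule.smul_mem _ _ hmem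

/-- PROOF. `D(g_i)`, `i` in a finite set, cover `U` (the `g_i` generate the unit ideal) and `Γ(M, D(g_i))` is the localization of
`Γ(M,U)` at `g_i` and is finite: clear denominators of the generators; let `t_ij : Γ(M,U)` have restrictions generating
`Γ(M,D(g_i))`. For `s : Γ(M,U)`: for each `i` `g_i^n s` is in the span of the `t_ij` (after enlarging `n`, second half of
`Loc`); the powers `g_i^n` generate the unit ideal (`Ideal.span_pow_eq_top`). Or use
`Module.Finite.of_localizationSpan_finite'`. -/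
theorem fin_of_span (M : X.Modules) {U : X.Opens} (hU : IsAffineOpen U) (h : Loc M U)
    (s : Finset Γ(X, U)) (hs : Ideal.span (s : Set Γ(X, U)) = ⊤)
    (hf : ∀ g ∈ s, Module.Finite Γ(X, X.basicOpen g) Γ(M, X.basicOpen g)) :
    Module.Finite Γ(X, U) Γ(M, U) := by
  classical
  have key : ∀ g : Γ(X, U), g ∈ s → ∃ T : Finset Γ(M, U), ∀ x : Γ(M, U), ∃ n : ℕ,
      g ^ n • x ∈ Submodule.span Γ(X, U) (T : Set Γ(M, U)) := by
    intro g hg
    obtain ⟨S, hS⟩ := (hf g hg).fg_top
    choose n t ht using (h g).1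
    refine ⟨S.image t, ?_⟩
    have claim : ∀ z : Γ(M, X.basicOpen g),
        z ∈ Submodule.span Γ(X, X.basicOpen g) (S : Set Γ(M, X.basicOpen g)) →
        ∃ (m : ℕ) (w : Γ(M, U)), w ∈ Submodule.span Γ(X, U) ((S.image t : Finset Γ(M, U)) :
          Set Γ(M, U)) ∧
          rM M (X.basicOpen_le g) w = rO X (X.basicOpen_le g) g ^ m • z := by
      intro z hz
      induction hz using Submodule.span_induction with
      | mem y hy =>
        refine ⟨n y, t y, Submodule.subset_span ?_, ht y⟩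
        exact Finset.mem_coe.2 (Finset.mem_image_of_mem t hy)
      | zero => exact ⟨0, 0, Submodule.zero_mem _, by rw [map_zero, smul_zero]⟩
      | add z1 z2 _ _ h1 h2 =>
        obtain ⟨m1, w1, hw1, e1⟩ := h1
        obtain ⟨m2, w2, hw2, e2⟩ := h2
        refine ⟨m1 + m2, g ^ m2 • w1 + g ^ m1 • w2,
          Submodule.add_mem _ (Submodule.smul_mem _ _ hw1) (Submodule.smul_mem _ _ hw2), ?_⟩
        rw [map_add, rM_smul, rM_smul, e1, e2, map_pow, map_pow, smul_smul, smul_smul, smul_add,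
          pow_add, mul_comm (rO X (X.basicOpen_le g) g ^ m2)]
      | smul a z _ h1 =>
        obtain ⟨m, w, hw, e⟩ := h1
        have hloc := hU.isLocalization_basicOpen g
        obtain ⟨⟨b, ⟨_, ⟨k, rfl⟩⟩⟩, hb⟩ := IsLocalization.surj (Submonoid.powers g) a
        have hb' : a * rO X (X.basicOpen_le g) g ^ k = rO X (X.basicOpen_le g) b := by
          rw [← map_pow]
          exact hb
        refine ⟨k + m, b • w, Submodule.smul_mem _ _ hw, ?_⟩
        rw [rM_smul, e, ← hb', smul_smul, smul_smul, pow_add]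
        congr 1
        ring
    intro x
    obtain ⟨m, w, hw, e⟩ := claim (rM M (X.basicOpen_le g) x) (by rw [hS]; exact Submodule.mem_top)
    have h0 : rM M (X.basicOpen_le g) (w - g ^ m • x) = 0 := by
      rw [map_sub, rM_smul, e, map_pow, sub_self]
    obtain ⟨k, hk⟩ := (h g).2 _ h0
    refine ⟨k + m, ?_⟩
    have h1 : g ^ (k + m) • x = g ^ k • w := by
      rw [smul_sub, sub_eq_zero, smul_smul, ← pow_add] at hk
      exact hk.symm
    rw [h1]
    exact Submodule.smul_mem _ _ hw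
  choose! T hT using key
  refine ⟨⟨s.biUnion T, ?_⟩⟩
  rw [eq_top_iff]
  rintro x -
  refine Submodule.mem_of_span_eq_top_of_smul_pow_mem _ (s : Set Γ(X, U)) hs x ?_
  rintro ⟨g, hg⟩
  obtain ⟨n, hn⟩ := hT g hg x
  refine ⟨n, Submodule.span_mono ?_ hn⟩
  exact_mod_cast Finset.subset_biUnion_of_mem T hg

/-- PROOF. Let `U` be affine. For `x ∈ U` let `V` be as in `h`; `exists_basicOpen_le_affine_inter` gives `g : Γ(X,U)`,
`g' : Γ(X,V)` with `D(g) = D(g')` containing `x`. `Γ(M,D(g'))` is finite (`fin_basic`, `loc_of_qcoh`). By compactness of `U`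
(`IsAffineOpen.basicOpen_union_eq_self_iff` or `IsAffineOpen.self_le_iSup_basicOpen_iff` and
`Ideal.span_eq_top_iff_finite`) finitely many `g` generate the unit ideal; `fin_of_span`. -/
theorem fin_of_cover (M : X.Modules) (hM : isQCoh X M)
    (h : ∀ x : X, ∃ V : X.Opens, x ∈ V ∧ IsAffineOpen V ∧ Module.Finite Γ(X, V) Γ(M, V))
    {U : X.Opens} (hU : IsAffineOpen U) : Module.Finite Γ(X, U) Γ(M, U) := by
  classical
  have hx : ∀ x : U, ∃ g : Γ(X, U), x.1 ∈ X.basicOpen g ∧
      Module.Finite Γ(X, X.basicOpen g) Γ(M, X.basicOpen g) := by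
    rintro ⟨x, hxU⟩
    obtain ⟨V, hxV, hV, hfin⟩ := h x
    obtain ⟨g, g', e, hg⟩ := exists_basicOpen_le_affine_inter hU hV x ⟨hxU, hxV⟩
    refine ⟨g, hg, ?_⟩
    have h1 := fin_basic M (loc_of_qcoh M hM hV) hfin g'
    rw [e]
    exact h1
  choose g hg hgf using hx
  have hcov : U ≤ ⨆ f : Set.range g, X.basicOpen f.1 := by
    intro x hxU
    exact Opens.mem_iSup.2 ⟨⟨g ⟨x, hxU⟩, ⟨x, hxU⟩, rfl⟩, hg ⟨x, hxU⟩⟩
  have hspan := hU.self_le_iSup_basicOpen_iff.1 hcov
  obtain ⟨s, hs1, hs2⟩ := (Ideal.span_eq_top_iff_finite _).1 hspan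
  refine fin_of_span M hU (loc_of_qcoh M hM hU) s hs2 ?_
  intro f hf
  obtain ⟨x, rfl⟩ := hs1 hf
  exact hgf x

end BS
end

section

/-!
# A morphism of quasi-coherent sheaves is determined by its sections over an affine cover
-/

set_option autoImplicit false

open CategoryTheory CategoryTheory.Limits AlgebraicGeometry TopologicalSpace

namespace BS

universe u

variable {X : Scheme.{u}}

/-- A section of `M` over `V ≤ U` is
determined near each point of `V` by sections over `U`: for `x ∈ V` there is `g : Γ(X,U)` with `x ∈ D(g) ≤ V`, and then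
`g^n s|D(g) = t|D(g)` for some `t : Γ(M,U)`.

PROOF. `IsAffineOpen.exists_basicOpen_le` gives `g` with `x ∈ D(g)`, `D(g) ≤ V`; apply `h g`. -/
theorem exists_frac {M : X.Modules} {U : X.Opens} (hU : IsAffineOpen U) (h : Loc M U) {V : X.Opens}
    (hV : V ≤ U) (s : Γ(M, V)) (x : X) (hx : x ∈ V) :
    ∃ (g : Γ(X, U)) (_ : x ∈ X.basicOpen g) (hg : X.basicOpen g ≤ V) (n : ℕ) (t : Γ(M, U)),
      rM M (X.basicOpen_le g) t = rO X (X.basicOpen_le g) g ^ n • rM M hg s := by
  obtain ⟨g, hg, hxg⟩ := hU.exists_basicOpen_le (V := V) ⟨x, hx⟩ (hV hx)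
  obtain ⟨n, t, ht⟩ := (h g).1 (rM M hg s)
  exact ⟨g, hxg, hg, n, t, ht⟩

/-- PROOF. `rO X (X.basicOpen_le g) g` is a unit (`Scheme.isUnit_res_basicOpen` or
`RingedSpace.isUnit_res_basicOpen`), so its powers act injectively. -/
theorem pow_smul_inj {M : X.Modules} {U : X.Opens} (g : Γ(X, U)) (n : ℕ)
    {s t : Γ(M, X.basicOpen g)} (h : rO X (X.basicOpen_le g) g ^ n • s =
      rO X (X.basicOpen_le g) g ^ n • t) : s = t := by
  have hu : IsUnit (rO X (X.basicOpen_le g) g) := RingedSpace.isUnit_res_basicOpen _ g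
  exact (hu.pow n).smul_left_cancel.1 h

/-- PROOF. `ap_ext`, `sec_ext`: let `s : Γ(M,W)`, `x ∈ W`, `U` as in the hypothesis, `V := W ⊓ U`; `exists_frac` gives
`g, n, t` for `s|V`, and `g^n φ(s)|D(g) = φ(t)|D(g) = ψ(t)|D(g) = g^n ψ(s)|D(g)`; `pow_smul_inj`. -/
theorem hom_uniq {M N : X.Modules} {φ ψ : M ⟶ N}
    (h : ∀ x : X, ∃ U : X.Opens, x ∈ U ∧ IsAffineOpen U ∧ Loc M U ∧ ∀ s, ap φ U s = ap ψ U s) :
    φ = ψ := by
  refine ap_ext fun W s => ?_
  refine sec_ext N fun x hx => ?_
  obtain ⟨U, hxU, hU, hL, he⟩ := h x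
  obtain ⟨g, hxg, hg, n, t, ht⟩ := exists_frac hU hL (V := W ⊓ U) inf_le_right
    (rM M inf_le_left s) x ⟨hx, hxU⟩
  refine ⟨X.basicOpen g, hxg, hg.trans inf_le_left, ?_⟩
  rw [← ap_rM, ← ap_rM]
  apply pow_smul_inj g n
  rw [← ap_smul, ← ap_smul]
  have e1 : rO X (X.basicOpen_le g) g ^ n • rM M (hg.trans inf_le_left) s =
      rM M (X.basicOpen_le g) t := by
    rw [ht, rM_rM]
  rw [e1, ap_rM, ap_rM, he]

end BS
end

section

/-!
# Schemes with the charts of `W`
-/

set_option autoImplicit false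

open CategoryTheory CategoryTheory.Limits AlgebraicGeometry TopologicalSpace

namespace BS

open MPbd3808.BR

universe u

variable (k : Type u) [Field k] (X : Scheme.{u}) [X.Over (Spec (.of k))]

/-- The charts of `W`: affine open sets `U σ` (the set where the variables in `σ` do not vanish), for `σ`
full, such that `Γ(X, U σ)` is the ring of Laurent polynomials of degree `0`, regular on the chart,
modulo the multiples of `f`. -/
structure Charts where
  U : ∀ σ : Finset Vr, Full σ → X.Opens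
  affine : ∀ σ hσ, IsAffineOpen (U σ hσ)
  cover : ∀ x : X, ∃ σ hσ, x ∈ U σ hσ
  inf : ∀ σ τ (hσ : Full σ) (hτ : Full τ),
    U (σ ∪ τ) (hσ.mono Finset.subset_union_left) = U σ hσ ⊓ U τ hτ
  ev : ∀ σ (hσ : Full σ), L0 k σ →+* Γ(X, U σ hσ)
  ev_coef : ∀ σ hσ (c : k), ev σ hσ (algebraMap k (L0 k σ) c) = resTop (U σ hσ) (coefTop k X c)
  ev_res : ∀ σ τ (hσ : Full σ) (hτ : Full τ) (h : σ ⊆ τ) (hU : U τ hτ ≤ U σ hσ) (p : L0 k σ),
    rO X hU (ev σ hσ p) = ev τ hτ (incl k h p)
  ev_surj : ∀ σ hσ, Function.Surjective (ev σ hσ)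
  ev_ker : ∀ σ hσ (p : L0 k σ), ev σ hσ p = 0 ↔ ∃ q ∈ LD k σ (-dF), (p : Lau k) = ff k * q
  basic : ∀ σ (hσ : Full σ) (e : Ex) (hr : Reg σ e) (hd : degE e = 0),
    X.basicOpen (ev σ hσ (mon0 k e hr hd)) = U (supp σ e) (hσ.mono (subset_supp σ e))

variable {k X}

lemma Charts.anti (C : Charts k X) {σ τ : Finset Vr} (hσ : Full σ) (hτ : Full τ) (h : σ ⊆ τ) :
    C.U τ hτ ≤ C.U σ hσ := by
  have h1 := C.inf σ τ hσ hτ
  have h2 : σ ∪ τ = τ := Finset.union_eq_right.2 h
  simp only [h2] at h1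
  rw [h1]
  exact inf_le_left

end BS
end

section

/-!
# The functor from sheaves of modules on `W` to the model
-/

set_option autoImplicit false

open CategoryTheory CategoryTheory.Limits AlgebraicGeometry TopologicalSpace

namespace BS

open MPbd3808.BR

universe u

variable {k : Type u} [Field k] {X : Scheme.{u}} [X.Over (Spec (.of k))]

/-- the sections over `U` as a `k`-vector space -/
noncomputable def secMod (k : Type u) [Field k] {X : Scheme.{u}} [X.Over (Spec (.of k))]
    (F : X.Modules) (U : X.Opens) : ModuleCat.{u} k :=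
  letI : Module k Γ(F, U) := Module.compHom Γ(F, U) ((resTop U).comp (coefTop k X))
  ModuleCat.of k Γ(F, U)

/-- elements of `secMod` are sections -/
noncomputable def toS {F : X.Modules} {U : X.Opens} : secMod k F U ≃+ Γ(F, U) := AddEquiv.refl _

lemma toS_smul {F : X.Modules} {U : X.Opens} (c : k) (x : secMod k F U) :
    toS (c • x) = resTop U (coefTop k X c) • toS x := rfl

namespace Charts

variable (C : Charts k X)

/-- the function on the chart `σ` given by a Laurent monomial -/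
noncomputable def mon {σ : Finset Vr} (hσ : Full σ) (e : Ex) (hr : Reg σ e) (hd : degE e = 0) :
    Γ(X, C.U σ hσ) := C.ev σ hσ (mon0 k e hr hd)

lemma mon_zero {σ : Finset Vr} (hσ : Full σ) : C.mon hσ 0 Reg.zero degE_zero = 1 := by
  unfold mon
  rw [← map_one (C.ev σ hσ)]
  rfl

lemma mon_add {σ : Finset Vr} (hσ : Full σ) (e e' : Ex) (hr : Reg σ e) (hd : degE e = 0)
    (hr' : Reg σ e') (hd' : degE e' = 0) :
    C.mon hσ (e + e') (hr.add hr') (by rw [degE_add, hd, hd', add_zero]) =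
      C.mon hσ e hr hd * C.mon hσ e' hr' hd' := by
  unfold mon
  rw [← map_mul]
  congr 1
  apply Subtype.ext
  change mono k (e + e') 1 = mono k e 1 * mono k e' 1
  rw [AddMonoidAlgebra.single_mul_single, one_mul]

lemma mon_congr {σ : Finset Vr} (hσ : Full σ) {e e' : Ex} (h : e = e') (hr : Reg σ e)
    (hd : degE e = 0) : C.mon hσ e hr hd = C.mon hσ e' (h ▸ hr) (h ▸ hd) := by
  subst h; rfl

lemma rO_mon {σ τ : Finset Vr} (hσ : Full σ) (hτ : Full τ) (h : σ ⊆ τ) (e : Ex) (hr : Reg σ e)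
    (hd : degE e = 0) : rO X (C.anti hσ hτ h) (C.mon hσ e hr hd) = C.mon hτ e (hr.mono h) hd := by
  unfold mon
  rw [C.ev_res σ τ hσ hτ h]
  rfl

/-- the exponent of degree `0` attached to a morphism of the index category -/
def ce {A B : Ob} (m : A ⟶ B) : Ex := un A.σ A.a + Mor.e m - un B.σ B.a

lemma ce_reg {A B : Ob} (m : A ⟶ B) : Reg B.σ (ce m) := by
  have h1 := reg_un A.full (Mor.le m) A.a
  have h2 := reg_un B.full (Finset.Subset.refl B.σ) (-B.a)
  rw [un_neg] at h2
  unfold ce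
  rw [sub_eq_add_neg]
  exact (h1.add (Mor.reg m)).add h2

lemma ce_deg {A B : Ob} (m : A ⟶ B) : degE (ce m) = 0 := by
  unfold ce
  rw [sub_eq_add_neg, degE_add, degE_add, degE_neg, degE_un, degE_un, Mor.deg m]
  abel

lemma ce_id (A : Ob) : ce (𝟙 A) = 0 := by
  unfold ce
  rw [id_e]
  abel

lemma ce_comp {A B D : Ob} (m : A ⟶ B) (n : B ⟶ D) : ce (m ≫ n) = ce m + ce n := by
  unfold ce
  rw [comp_e]
  abel

/-- the action of a morphism of the index category on the sections -/
noncomputable def actMap (F : X.Modules) {A B : Ob} (m : A ⟶ B) :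
    secMod k F (C.U A.σ A.full) ⟶ secMod k F (C.U B.σ B.full) :=
  ModuleCat.ofHom (X := (secMod k F (C.U A.σ A.full) : Type u))
    (Y := (secMod k F (C.U B.σ B.full) : Type u))
    { toFun := fun x => toS.symm (C.mon B.full (ce m) (ce_reg m) (ce_deg m) •
        rM F (C.anti A.full B.full (Mor.le m)) (toS x))
      map_add' := fun x y => by
        rw [map_add, map_add, smul_add, map_add]
      map_smul' := fun c x => by
        change C.mon B.full (ce m) (ce_reg m) (ce_deg m) •
            rM F (C.anti A.full B.full (Mor.le m)) (resTop (C.U A.σ A.full) (coefTop k X c) • toS x) =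
          resTop (C.U B.σ B.full) (coefTop k X c) • (C.mon B.full (ce m) (ce_reg m) (ce_deg m) •
            rM F (C.anti A.full B.full (Mor.le m)) (toS x))
        rw [rM_smul, smul_smul, smul_smul, mul_comm]
        congr 2
        exact res_resTop _ _ }

lemma toS_actMap (F : X.Modules) {A B : Ob} (m : A ⟶ B) (x : secMod k F (C.U A.σ A.full)) :
    toS ((C.actMap F m).hom x) = C.mon B.full (ce m) (ce_reg m) (ce_deg m) •
        rM F (C.anti A.full B.full (Mor.le m)) (toS x) := rfl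

/-- The object of the model given by a sheaf of modules: at the place `(σ,a)` it is the space of
sections over `U σ` (identified with the sections of the twist by `a` through the unit `un σ a`). -/
noncomputable def phiObj (F : X.Modules) : FunCat k where
  obj A := secMod k F (C.U A.σ A.full)
  map m := C.actMap F m
  map_id A := by
    ext x
    apply toS.injective
    rw [toS_actMap, C.mon_congr A.full (ce_id A), C.mon_zero, one_smul, rM_self]
    rfl
  map_comp {A B D} m n := by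
    ext x
    apply toS.injective
    rw [toS_actMap, C.mon_congr D.full (ce_comp m n)]
    rw [C.mon_add D.full (ce m) (ce n) ((ce_reg m).mono (Mor.le n)) (ce_deg m) (ce_reg n) (ce_deg n)]
    change _ = toS ((C.actMap F n).hom ((C.actMap F m).hom x))
    rw [toS_actMap, toS_actMap, rM_smul, rM_rM, smul_smul, C.rO_mon B.full D.full (Mor.le n),
      mul_comm]

lemma phiObj_map_toS (F : X.Modules) {A B : Ob} (m : A ⟶ B) (x : (C.phiObj F).obj A) :
    toS (F := F) (U := C.U B.σ B.full) (((C.phiObj F).map m).hom x) =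
      C.mon B.full (ce m) (ce_reg m) (ce_deg m) •
        rM F (C.anti A.full B.full (Mor.le m)) (toS (F := F) (U := C.U A.σ A.full) x) := rfl

/-- The functor on morphisms. -/
noncomputable def phiMap {F G : X.Modules} (φ : F ⟶ G) : C.phiObj F ⟶ C.phiObj G where
  app A := ModuleCat.ofHom (X := (secMod k F (C.U A.σ A.full) : Type u))
    (Y := (secMod k G (C.U A.σ A.full) : Type u))
    { toFun := fun x => toS.symm (ap φ (C.U A.σ A.full) (toS x))
      map_add' := fun x y => by rw [map_add, map_add, map_add]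
      map_smul' := fun c x => ap_smul φ (C.U A.σ A.full) (resTop (C.U A.σ A.full) (coefTop k X c))
        (toS x) }
  naturality A B m := by
    ext x
    apply toS.injective
    change ap φ (C.U B.σ B.full) (C.mon B.full (ce m) (ce_reg m) (ce_deg m) •
        rM F (C.anti A.full B.full (Mor.le m)) (toS x)) =
      C.mon B.full (ce m) (ce_reg m) (ce_deg m) •
        rM G (C.anti A.full B.full (Mor.le m)) (ap φ (C.U A.σ A.full) (toS x))
    rw [ap_smul, ap_rM]

lemma toS_phiMap {F G : X.Modules} (φ : F ⟶ G) (A : Ob) (x : (C.phiObj F).obj A) :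
    toS (F := G) (U := C.U A.σ A.full) (((C.phiMap φ).app A).hom x) =
      ap φ (C.U A.σ A.full) (toS (F := F) (U := C.U A.σ A.full) x) := rfl

/-- The functor `Φ` from sheaves of modules to the model: `Φ(F)(σ,a) = Γ(F, U σ)`. -/
noncomputable def Phi : X.Modules ⥤ FunCat k where
  obj := C.phiObj
  map := C.phiMap
  map_id F := rfl
  map_comp φ ψ := rfl

instance : C.Phi.Additive where
  map_add := rfl

instance : C.Phi.Linear k where
  map_smul {F G} φ c := by
    ext A x
    apply toS.injective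
    exact smul_app c φ (C.U A.σ A.full) (toS x)

end Charts

end BS
end
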