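import Mathlib
import Pool.Agent.Lib.MP_bd3808_ag.BS.Lin
import Pool.Agent.Lib.MP_bd3808_ag.BS.Fano
import Pool.Agent.Lib.MP_bd3808_ag.Mg.G023

section

/-!
# Localizations of polynomial rings and extensions of the field
-/

set_option autoImplicit false

open TensorProduct

namespace BS

universe u

variable (k : Type u) [Field k]

/-- A localization of a polynomial ring remains a domain after an extension of the field.

PROOF. `K ⊗ MvPolynomial (Fin 5) k ≅ MvPolynomial (Fin 5) K` is a domain (`MvPolynomial.algebraTensorAlgEquiv`), and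
`K ⊗ B` is its localization at (the powers of) `1 ⊗ c` (`IsLocalization.tensor`, or `IsLocalization` and base change:
`IsLocalization.Away` for `Algebra.TensorProduct`, `IsLocalizedModule` for `LinearMap.lTensor`), where `1 ⊗ c ≠ 0` because `c ≠ 0` (`K` is
free, hence faithfully flat over `k`; or because `MvPolynomial.map` of an injective map is injective). A localization of a domain at nonzero elements is a
domain (`IsLocalization.isDomain_of_le_nonZeroDivisors`). -/
theorem isDomain_tensor (B : Type u) [CommRing B] [Algebra k B] (K : Type u) [Field K] [Algebra k K]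
    (φ : MvPolynomial (Fin 5) k →ₐ[k] B) (c : MvPolynomial (Fin 5) k) (hc : c ≠ 0)
    (h : @IsLocalization.Away _ _ c B _ φ.toRingHom.toAlgebra) : IsDomain (K ⊗[k] B) := by
  let : Algebra (MvPolynomial (Fin 5) k) B := φ.toRingHom.toAlgebra
  have : IsScalarTower k (MvPolynomial (Fin 5) k) B :=
    IsScalarTower.of_algebraMap_eq fun x => (φ.commutes x).symm
  have : IsLocalization (Submonoid.powers c) B := h
  let : Algebra (K ⊗[k] MvPolynomial (Fin 5) k) (K ⊗[k] B) :=
    (Algebra.TensorProduct.map (AlgHom.id K K) φ).toRingHom.toAlgebra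
  have : IsScalarTower K (K ⊗[k] MvPolynomial (Fin 5) k) (K ⊗[k] B) :=
    IsScalarTower.of_algebraMap_eq fun x =>
      ((Algebra.TensorProduct.map (AlgHom.id K K) φ).commutes x).symm
  have h1 := IsLocalization.tensorProduct_tensorProduct_right k K (Submonoid.powers c) B (by
    ext x
    · change (Algebra.TensorProduct.map (AlgHom.id K K) φ) (1 ⊗ₜ[k] MvPolynomial.C x) =
        (1 : K) ⊗ₜ[k] φ (MvPolynomial.C x)
      rw [Algebra.TensorProduct.map_tmul, map_one]
    · change (Algebra.TensorProduct.map (AlgHom.id K K) φ) (1 ⊗ₜ[k] MvPolynomial.X x) =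
        (1 : K) ⊗ₜ[k] φ (MvPolynomial.X x)
      rw [Algebra.TensorProduct.map_tmul, map_one])
  have hdom : IsDomain (K ⊗[k] MvPolynomial (Fin 5) k) :=
    (MvPolynomial.algebraTensorAlgEquiv (σ := Fin 5) k K).toRingEquiv.toMulEquiv.isDomain _
  refine IsLocalization.isDomain_of_le_nonZeroDivisors (R := K ⊗[k] MvPolynomial (Fin 5) k)
    (K ⊗[k] B)
    (M := (Submonoid.powers c).map
      (Algebra.TensorProduct.includeRight (R := k) (A := K) (B := MvPolynomial (Fin 5) k))) ?_
  rintro _ ⟨_, ⟨n, rfl⟩, rfl⟩
  refine mem_nonZeroDivisors_of_ne_zero ?_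
  intro h0
  have h2 := congrArg (MvPolynomial.algebraTensorAlgEquiv (σ := Fin 5) k K) h0
  change (MvPolynomial.algebraTensorAlgEquiv (σ := Fin 5) k K) ((1 : K) ⊗ₜ[k] (c ^ n)) = _ at h2
  rw [MvPolynomial.algebraTensorAlgEquiv_tmul, one_smul, map_zero] at h2
  have h3 : c ^ n = 0 :=
    MvPolynomial.map_injective (algebraMap k K) (algebraMap k K).injective
      (by rw [h2, map_zero])
  exact pow_ne_zero n hc h3

end BS
end

section

/-!
# Polynomial rings are standard smooth
-/

set_option autoImplicit false

namespace BS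

universe u

private noncomputable def Sm0_pres (R : Type u) [CommRing R] (n : ℕ) :
    Algebra.Presentation R (MvPolynomial (Fin n) R) (Fin n) PEmpty.{1} where
  toGenerators := Algebra.Generators.mvPolynomial R (Fin n)
  relation := PEmpty.elim
  span_range_relation_eq_ker := by
    rw [Algebra.Generators.ker_mvPolynomial, Set.range_eq_empty, Ideal.span_empty]

private noncomputable def Sm0_pre (R : Type u) [CommRing R] (n : ℕ) :
    Algebra.PreSubmersivePresentation R (MvPolynomial (Fin n) R) (Fin n) PEmpty.{1} where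
  toPresentation := Sm0_pres R n
  map := PEmpty.elim
  map_inj := fun a _ _ => a.elim

private lemma Sm0_jac (R : Type u) [CommRing R] (n : ℕ) : (Sm0_pre R n).jacobian = 1 := by
  rw [Algebra.PreSubmersivePresentation.jacobian_eq_jacobiMatrix_det, RingHom.map_det,
    Matrix.det_isEmpty]

private noncomputable def Sm0_sub (R : Type u) [CommRing R] (n : ℕ) :
    Algebra.SubmersivePresentation R (MvPolynomial (Fin n) R) (Fin n) PEmpty.{1} where
  toPreSubmersivePresentation := Sm0_pre R n
  jacobian_isUnit := by rw [Sm0_jac]; exact isUnit_one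

/-- PROOF. Use the presentation without relations. `Algebra.PreSubmersivePresentation.naive` (or `Algebra.SubmersivePresentation`) with `σ := Fin n`,
`ι := PEmpty` for the quotient by `Ideal.span (Set.range v) = ⊥`; its Jacobian is the determinant of the empty matrix, `1`, and the
dimension is `n - 0`; then transport by the isomorphism `MvPolynomial (Fin n) R ⧸ ⊥ ≃ₐ MvPolynomial (Fin n) R`
(`Algebra.IsStandardSmoothOfRelativeDimension.of_algEquiv`). Or build a `SubmersivePresentation` from `Algebra.Generators.mvPolynomial`. -/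
theorem stdSmooth_mvPolynomial (R : Type u) [CommRing R] (n : ℕ) :
    Algebra.IsStandardSmoothOfRelativeDimension n R (MvPolynomial (Fin n) R) := by
  refine (Sm0_sub R n).isStandardSmoothOfRelativeDimension ?_
  unfold Algebra.Presentation.dimension
  simp

end BS
end

section

/-!
# Smoothness by charts
-/

set_option autoImplicit false

open CategoryTheory CategoryTheory.Limits AlgebraicGeometry TopologicalSpace

namespace BS

universe u

variable (k : Type u) [Field k] (X : Scheme.{u}) [X.Over (Spec (.of k))]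

/-- an affine open set `V` of `X` isomorphic to the open set `c ≠ 0` of the affine space of dimension `5`, for
a polynomial `c ≠ 0` -/
def GoodOpen (V : X.Opens) : Prop :=
  IsAffineOpen V ∧ ∃ (φ : MvPolynomial (Fin 5) k →+* Γ(X, V)) (c : MvPolynomial (Fin 5) k), c ≠ 0 ∧
    (∀ a : k, φ (MvPolynomial.C a) = resTop V (coefTop k X a)) ∧
    @IsLocalization.Away _ _ c Γ(X, V) _ φ.toAlgebra

/-- PROOF. For `x ∈ V` good, take `U := ⊤` in `Spec k` (affine) and `V` in `exists_isStandardSmoothOfRelativeDimension`. The ring homomorphism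
`((X ↘ Spec k).appLE ⊤ V _).hom : Γ(Spec k, ⊤) → Γ(X, V)` is the composite of the isomorphism `Γ(Spec k, ⊤) ≅ k` (`Scheme.ΓSpecIso`) and
`resTop V ∘ coefTop = φ ∘ MvPolynomial.C` (unfold `coefTop`, `resTop`; `Scheme.Hom.appLE`). `MvPolynomial.C` is standard smooth of
relative dimension `5` (`stdSmooth_mvPolynomial`), `φ` of relative dimension `0`
(`RingHom.IsStandardSmoothOfRelativeDimension.algebraMap_isLocalizationAway`), and an isomorphism of relative dimension `0`
(`RingHom.IsStandardSmoothOfRelativeDimension.equiv`); compose (`RingHom.IsStandardSmoothOfRelativeDimension.comp`). -/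
theorem smooth_of_good (hc : ∀ x : X, ∃ V : X.Opens, x ∈ V ∧ GoodOpen k X V) :
    SmoothOfRelativeDimension 5 (X ↘ Spec (.of k)) := by
  refine ⟨fun x => ?_⟩
  obtain ⟨V, hx, hV, φ, c, -, hφ, hloc⟩ := hc x
  refine ⟨⊤, isAffineOpen_top _, V, hV, hx, le_top, ?_⟩
  let e : Γ(Spec (.of k), ⊤) ≃+* k := (Scheme.ΓSpecIso (.of k)).commRingCatIsoToRingEquiv
  have h1 : ((X ↘ Spec (.of k)).appLE ⊤ V le_top).hom =
      (φ.comp MvPolynomial.C).comp (e : Γ(Spec (.of k), ⊤) →+* k) := by
    refine RingHom.ext fun r => ?_
    change _ = φ (MvPolynomial.C (e r))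
    rw [hφ]
    change _ = resTop V ((X ↘ Spec (.of k)).appTop.hom ((Scheme.ΓSpecIso (.of k)).inv.hom
      ((Scheme.ΓSpecIso (.of k)).hom.hom r)))
    have h2 : (Scheme.ΓSpecIso (.of k)).inv.hom ((Scheme.ΓSpecIso (.of k)).hom.hom r) = r := by
      rw [← RingHom.comp_apply, ← CommRingCat.hom_comp, Iso.hom_inv_id]
      rfl
    rw [h2]
    rfl
  have h2 : RingHom.IsStandardSmoothOfRelativeDimension 0 φ := by
    let i1 : Algebra (MvPolynomial (Fin 5) k) Γ(X, V) := φ.toAlgebra
    have i2 : IsLocalization.Away c Γ(X, V) := hloc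
    exact RingHom.IsStandardSmoothOfRelativeDimension.algebraMap_isLocalizationAway c
  have h3 : RingHom.IsStandardSmoothOfRelativeDimension 5
      (MvPolynomial.C : k →+* MvPolynomial (Fin 5) k) :=
    (RingHom.isStandardSmoothOfRelativeDimension_algebraMap 5).2 (stdSmooth_mvPolynomial k 5)
  have h4 : RingHom.IsStandardSmoothOfRelativeDimension 0 (e : Γ(Spec (.of k), ⊤) →+* k) :=
    RingHom.IsStandardSmoothOfRelativeDimension.equiv e
  rw [h1]
  have h5 := (h2.comp h3).comp h4
  rwa [zero_add, add_zero] at h5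

end BS
end

section

/-!
# Geometric integrality of the good open sets
-/

set_option autoImplicit false

open CategoryTheory CategoryTheory.Limits AlgebraicGeometry TopologicalSpace TensorProduct

namespace BS

universe u

variable (k : Type u) [Field k] (X : Scheme.{u}) [X.Over (Spec (.of k))]

private theorem GI1_struct (V : X.Opens) :
    V.toSpecΓ ≫ Spec.map (CommRingCat.ofHom ((resTop V).comp (coefTop k X))) =
      V.ι ≫ (X ↘ Spec (.of k)) := by
  have h1 : CommRingCat.ofHom ((resTop V).comp (coefTop k X)) =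
      (Scheme.ΓSpecIso (.of k)).inv ≫ (X ↘ Spec (.of k)).appTop ≫
        X.presheaf.map (homOfLE (le_top (a := V))).op := by
    rfl
  rw [h1, Spec.map_comp, Spec.map_comp]
  rw [← Category.assoc, ← Category.assoc]
  have h2 := Scheme.Opens.toSpecΓ_SpecMap_presheaf_map_top V
  rw [h2, Category.assoc V.ι, ← Scheme.toSpecΓ_naturality, Category.assoc, Category.assoc,
    ← SpecMap_ΓSpecIso_hom, ← Spec.map_comp, Iso.inv_hom_id, Spec.map_id, Category.comp_id]

/-- PROOF. `geometrically_iff_of_commRing_of_isClosedUnderIsomorphisms` (the class of integral schemes is closed under isomorphisms) reduces it to the pullback of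
`V → Spec k` along `Spec K → Spec k` for `K` a field over `k`. `V ≅ Spec B`, `B := Γ(X,V)` with the `k`-algebra structure
`resTop V ∘ coefTop` (`IsAffineOpen.isoSpec`; the composite `Spec B ≅ V → X → Spec k` is `Spec.map` of it), so the pullback is isomorphic to
`Spec (B ⊗ K)` (`pullbackSpecIso`), which is integral by `isDomain_tensor` (swap the factors). -/
theorem geomIntegral_of_goodOpen (V : X.Opens) (h : GoodOpen k X V) :
    GeometricallyIntegral (V.ι ≫ (X ↘ Spec (.of k))) := by
  classical
  obtain ⟨hV, φ, c, hc, hφ, hloc⟩ := h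
  rw [geometricallyIntegral_iff]
  have hcl : ObjectProperty.IsClosedUnderIsomorphisms (C := Scheme.{u}) (IsIntegral ·) :=
    ⟨fun e h => by
      have : IsIntegral _ := h
      exact IsIntegral.of_isIso e.hom⟩
  refine (geometrically_iff_of_commRing_of_isClosedUnderIsomorphisms (P := fun X : Scheme.{u} => IsIntegral X)).2 ?_
  intro K _ _
  let algB : Algebra k Γ(X, V) := ((resTop V).comp (coefTop k X)).toAlgebra
  have hs : V.ι ≫ (X ↘ Spec (.of k)) =
      hV.isoSpec.hom ≫ Spec.map (CommRingCat.ofHom (algebraMap k Γ(X, V))) :=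
    (GI1_struct k X V).symm
  let φ' : MvPolynomial (Fin 5) k →ₐ[k] Γ(X, V) :=
    { φ with commutes' := fun a => hφ a }
  have hdom : IsDomain (K ⊗[k] Γ(X, V)) := isDomain_tensor k Γ(X, V) K φ' c hc hloc
  have hdom' : IsDomain (Γ(X, V) ⊗[k] K) :=
    (Algebra.TensorProduct.comm k Γ(X, V) K).toRingEquiv.toMulEquiv.isDomain _
  have hint : IsIntegral (Spec (.of (Γ(X, V) ⊗[k] K))) := inferInstance
  have e1 : pullback (V.ι ≫ (X ↘ Spec (.of k))) (Spec.map (CommRingCat.ofHom (algebraMap k K))) ≅
      pullback (Spec.map (CommRingCat.ofHom (algebraMap k Γ(X, V))))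
        (Spec.map (CommRingCat.ofHom (algebraMap k K))) :=
    asIso (pullback.map _ _ _ _ hV.isoSpec.hom (𝟙 _) (𝟙 _) (by rw [Category.comp_id, hs])
      (by rw [Category.comp_id, Category.id_comp]))
  exact IsIntegral.of_isIso (e1 ≪≫ pullbackSpecIso k Γ(X, V) K).inv

end BS
end

section

/-!
# Integrality by an open cover
-/

set_option autoImplicit false

open CategoryTheory CategoryTheory.Limits AlgebraicGeometry TopologicalSpace

namespace BS

universe u

/-- A scheme with an open cover by integral open subschemes which meet pairwise is integral.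

PROOF. `isIntegral_iff_irreducibleSpace_and_isReduced`. Reduced: a local property (`IsReduced.of_openCover` or the like, or the stalks are
reduced: `isReduced_of_isReduced_stalk`, the stalk at `x ∈ V i` is that of `V i`). Irreducible: let `U1, U2` be nonempty open sets, `x1 ∈ U1 ∩ V i`,
`x2 ∈ U2 ∩ V j`. `V i` is irreducible (as a subset of `X`: the image of the irreducible space `V i`), `U1 ∩ V i` and `V i ∩ V j` are nonempty
and open in it, so `U1 ∩ V i ∩ V j` is nonempty; it and `U2 ∩ V j` are nonempty open subsets of the irreducible `V j`,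
so they meet. (`IsIrreducible`, `IsPreirreducible` are about `(U1 ∩ S).Nonempty → (U2 ∩ S).Nonempty → (S ∩ (U1 ∩ U2)).Nonempty`.) -/
theorem isIntegral_of_cover {X : Scheme.{u}} {ι : Type*} [Nonempty ι] (V : ι → X.Opens)
    (hc : ∀ x : X, ∃ i, x ∈ V i) (hi : ∀ i, IsIntegral (V i)) (hij : ∀ i j, ∃ x : X, x ∈ V i ∧ x ∈ V j) :
    IsIntegral X := by
  classical
  rw [isIntegral_iff_irreducibleSpace_and_isReduced]
  have hirr : ∀ i, IsIrreducible ((V i : X.Opens) : Set X) := by
    intro i
    haveI := hi i
    have h1 : IrreducibleSpace (V i : Scheme.{u}) := inferInstance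
    have h2 : IsIrreducible (Set.range (V i).ι) := by
      rw [← Set.image_univ]
      exact (IrreducibleSpace.isIrreducible_univ _).image _ ((V i).ι.continuous.continuousOn)
    rwa [Scheme.Opens.range_ι] at h2
  refine ⟨?_, ?_⟩
  · have hpre : PreirreducibleSpace X := by
      refine ⟨?_⟩
      intro U1 U2 hU1 hU2 h1 h2
      obtain ⟨x1, -, hx1⟩ := h1
      obtain ⟨x2, -, hx2⟩ := h2
      obtain ⟨i, hi1⟩ := hc x1
      obtain ⟨j, hj2⟩ := hc x2
      obtain ⟨z, hzi, hzj⟩ := hij i j
      obtain ⟨w, hwi, hw1, hwj⟩ := (hirr i).2 U1 (V j) hU1 (V j).2 ⟨x1, hi1, hx1⟩ ⟨z, hzi, hzj⟩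
      obtain ⟨v, hvj, hv1, hv2⟩ := (hirr j).2 U1 U2 hU1 hU2 ⟨w, hwj, hw1⟩ ⟨x2, hj2, hx2⟩
      exact ⟨v, trivial, hv1, hv2⟩
    obtain ⟨i⟩ := (inferInstance : Nonempty ι)
    obtain ⟨x, -⟩ := (hirr i).1
    exact { toPreirreducibleSpace := hpre, toNonempty := ⟨x⟩ }
  · haveI : ∀ x : X, _root_.IsReduced (X.presheaf.stalk x) := by
      intro x
      obtain ⟨i, hx⟩ := hc x
      haveI := hi i
      haveI : IsReduced (V i : Scheme.{u}) := inferInstance
      haveI := isReduced_stalk_of_isReduced (V i : Scheme.{u}) ⟨x, hx⟩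
      exact isReduced_of_injective ((V i).stalkIso ⟨x, hx⟩).inv.hom
        ((V i).stalkIso ⟨x, hx⟩).symm.commRingCatIsoToRingEquiv.injective
    exact isReduced_of_isReduced_stalk X

end BS
end

section

/-!
# Geometric integrality by charts
-/

set_option autoImplicit false

open CategoryTheory CategoryTheory.Limits AlgebraicGeometry TopologicalSpace TensorProduct

namespace BS

universe u

variable (k : Type u) [Field k] (X : Scheme.{u}) [X.Over (Spec (.of k))]

/-- PROOF. By `geometrically_iff_of_commRing_of_isClosedUnderIsomorphisms`: let `K` be a field over `k`, `Y := pullback (X ↘ Spec k) (Spec.map ..)`,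
`p := pullback.fst : Y → X`. `p` is surjective (base change of the surjective `Spec K → Spec k`). The open sets `p ⁻¹ᵁ V` for `V` good cover `Y`;
`p ⁻¹ᵁ V` is isomorphic to the pullback of `V → X → Spec k` and `Spec K → Spec k` (`pullbackRestrictIsoRestrict` or `isPullback_morphismRestrict` and pasting of
pullback squares), so integral by `geomIntegral_of_goodOpen`; the preimages of `V`, `V'` (nonempty open sets of the irreducible space `X`,
which therefore meet) meet as `p` is surjective. A good open set is nonempty: `Γ(X,V)` is nontrivial (a localization of a domain at a nonzero element). Use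
`isIntegral_of_cover` with index type `{V // GoodOpen k X V}` (nonempty as `X` is). -/
theorem geomIntegral_of_good [IsIntegral X] (hc : ∀ x : X, ∃ V : X.Opens, x ∈ V ∧ GoodOpen k X V) :
    GeometricallyIntegral (X ↘ Spec (.of k)) := by
  refine ⟨?_⟩
  intro K _ y Z fst snd h
  have hsy : Surjective y := by
    refine ⟨fun x => ?_⟩
    obtain ⟨z⟩ : Nonempty (Spec (.of K)) := inferInstance
    exact ⟨z, Subsingleton.elim _ _⟩
  have hs : Surjective fst := MorphismProperty.of_isPullback (P := @Surjective) h.flip hsy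
  have hI : ∀ V : X.Opens, GoodOpen k X V → IsIntegral (fst ⁻¹ᵁ V : Z.Opens) := by
    intro V hV
    have h1 := (isPullback_morphismRestrict fst V).flip.paste_horiz h.flip
    exact (geomIntegral_of_goodOpen k X V hV).geometrically_isIntegral y _ _ h1.flip
  have hne : ∀ V : X.Opens, GoodOpen k X V → (V : Set X).Nonempty := by
    intro V hV
    have h1 := hI V hV
    obtain ⟨z⟩ : Nonempty (fst ⁻¹ᵁ V : Z.Opens) := inferInstance
    exact ⟨fst z.1, z.2⟩
  obtain ⟨x0⟩ : Nonempty X := inferInstance
  obtain ⟨V0, -, hV0⟩ := hc x0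
  have : Nonempty {V : X.Opens // GoodOpen k X V} := ⟨⟨V0, hV0⟩⟩
  refine isIntegral_of_cover (ι := {V : X.Opens // GoodOpen k X V}) (fun V => fst ⁻¹ᵁ V.1)
    ?_ (fun V => hI V.1 V.2) ?_
  · intro z
    obtain ⟨V, hz, hV⟩ := hc (fst z)
    exact ⟨⟨V, hV⟩, hz⟩
  · rintro ⟨V, hV⟩ ⟨V', hV'⟩
    obtain ⟨x, hx, hx'⟩ := nonempty_preirreducible_inter V.isOpen V'.isOpen (hne V hV) (hne V' hV')
    obtain ⟨z, hz⟩ := hs.surj x
    refine ⟨z, ?_, ?_⟩
    · change fst z ∈ V
      rw [hz]
      exact hx
    · change fst z ∈ V'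
      rw [hz]
      exact hx'

end BS
end

section

/-!
# A polynomial ring modulo a linear polynomial, localized at the leading coefficient
-/

set_option autoImplicit false

open Polynomial

namespace BS

/-- `B = P[X] / (c X + h)` localized at `c` is the localization of `P` at `c`.

PROOF. Write `ι := ψ ∘ θ ∘ C : P → B'`. (1) `ι c = ψ (θ (C c))` is a unit. (2) Every element of `B'` times a power of it is `ψ (θ p)`. CLAIM: for every `p` of degree
`≤ n` there is `r : P` with `θ (C c ^ n * p) = θ (C r)`: induction on `n` or on `p`: for `p = X^j`, `j ≤ n`: `θ (C c * X) = - θ (C h)`, so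
`θ (C c ^ n * X ^ j) = θ (C (c^(n-j) * (-h)^j))`; sums. So every element of `B'` times a power of `ι c` is in the image of `ι`. (3) If `ι r = ι r'` then
`θ (C (c^n * (r - r'))) = 0` for some `n` (`IsLocalization.exists_of_eq`), so `C (c^n (r - r')) = (C c * X + C h) * g`; if `g ≠ 0` the right side has degree
`≥ 1` (`P` is a domain, `c ≠ 0`: `Polynomial.degree_mul`), but the left side has degree `≤ 0`. So `g = 0`, `c^n (r - r') = 0`. -/
theorem loc_of_quot {P B B' : Type*} [CommRing P] [IsDomain P] [CommRing B] [CommRing B'] (c h : P)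
    (hc : c ≠ 0) (θ : P[X] →+* B) (hs : Function.Surjective θ)
    (hk : ∀ p, θ p = 0 ↔ ∃ g, p = (C c * X + C h) * g) (ψ : B →+* B')
    (hψ : @IsLocalization.Away _ _ (θ (C c)) B' _ ψ.toAlgebra) :
    @IsLocalization.Away _ _ c B' _ ((ψ.comp (θ.comp C)).toAlgebra) := by
  let i1 : Algebra B B' := ψ.toAlgebra
  let i2 : Algebra P B' := (ψ.comp (θ.comp C)).toAlgebra
  have := hψ
  have halgB : ∀ b : B, algebraMap B B' b = ψ b := fun b => rfl
  have halgP : ∀ r : P, algebraMap P B' r = ψ (θ (C r)) := fun r => rfl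
  have hun : IsUnit (ψ (θ (C c))) := IsLocalization.Away.algebraMap_isUnit (S := B') (θ (C c))
  have hX : θ (C c * X) = - θ (C h) := by
    have : θ (C c * X + C h) = 0 := (hk _).2 ⟨1, by simp⟩
    rw [map_add] at this
    exact eq_neg_of_add_eq_zero_left this
  have hXj : ∀ j : ℕ, θ (C c ^ j * X ^ j) = θ (C ((-h)^j)) := by
    intro j
    rw [← mul_pow, map_pow, hX, map_pow, map_pow, map_neg, map_neg]
  have claim : ∀ p : P[X], ∃ n : ℕ, ∃ r : P, θ (C c ^ n * p) = θ (C r) := by
    intro p
    induction p using Polynomial.induction_on' with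
    | add p q hp hq =>
      obtain ⟨n, r, hr⟩ := hp
      obtain ⟨m, s, hs⟩ := hq
      refine ⟨n + m, c^m*r + c^n*s, ?_⟩
      have e1 : (C c ^ (n+m) * (p + q) : P[X]) = C c ^ m * (C c ^ n * p) + C c ^ n * (C c ^ m * q) := by
        ring
      rw [e1, map_add, map_mul, hr, map_mul θ (C c ^ n), hs]
      simp only [map_add, map_mul, map_pow]
    | monomial j a =>
      refine ⟨j, a*(-h)^j, ?_⟩
      have e1 : (C c ^ j * (monomial j a) : P[X]) = C a * (C c ^ j * X ^ j) := by
        rw [← C_mul_X_pow_eq_monomial]; ring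
      rw [e1, map_mul, hXj, ← map_mul, ← C_mul]
  refine (isLocalization_iff (Submonoid.powers c) B').2 ⟨?_, ?_, ?_⟩
  · rintro ⟨y, n, rfl⟩
    rw [halgP]
    simp only [map_pow]
    exact hun.pow n
  · intro z
    obtain ⟨⟨b, s⟩, hz⟩ := IsLocalization.surj (M := Submonoid.powers (θ (C c))) z
    obtain ⟨_, n, rfl⟩ := s
    obtain ⟨p, rfl⟩ := hs b
    obtain ⟨m, r, hr⟩ := claim p
    refine ⟨⟨r, ⟨c ^ (n + m), n + m, rfl⟩⟩, ?_⟩
    simp only [halgP, halgB] at hz ⊢
    rw [← hr]
    rw [map_mul θ, map_mul ψ, ← hz]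
    simp only [map_pow]
    ring
  · intro r r' hrr
    rw [halgP, halgP] at hrr
    have h1 : algebraMap B B' (θ (C r)) = algebraMap B B' (θ (C r')) := hrr
    obtain ⟨⟨_, n, rfl⟩, hn⟩ := IsLocalization.exists_of_eq (M := Submonoid.powers (θ (C c))) h1
    refine ⟨⟨c ^ n, n, rfl⟩, ?_⟩
    have h2 : θ (C (c ^ n * (r - r'))) = 0 := by
      simp only at hn
      have : (C (c ^ n * (r - r')) : P[X]) = C c ^ n * C r - C c ^ n * C r' := by
        simp only [map_mul, map_pow, map_sub]; ring
      rw [this, map_sub, map_mul, map_mul, map_pow]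
      exact sub_eq_zero.2 hn
    obtain ⟨g, hg⟩ := (hk _).1 h2
    have hg0 : g = 0 := by
      by_contra hg0
      have hd : (C (c ^ n * (r - r')) : P[X]).degree = (C c * X + C h).degree + g.degree := by
        rw [hg, degree_mul]
      rw [degree_linear hc] at hd
      have h3 : (C (c ^ n * (r - r')) : P[X]).degree ≤ 0 := degree_C_le
      have h4 : (0 : WithBot ℕ) ≤ g.degree := zero_le_degree_iff.2 hg0
      rw [hd] at h3
      have h5 : (1 : WithBot ℕ) ≤ 1 + g.degree := by
        calc (1 : WithBot ℕ) = 1 + 0 := by simp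
          _ ≤ 1 + g.degree := by gcongr
      have h6 : (1 : WithBot ℕ) ≤ 0 := h5.trans h3
      exact absurd h6 (by decide)
    rw [hg0, mul_zero] at hg
    have h7 := C_eq_zero.1 hg
    simp only
    linear_combination h7

end BS
end

section

/-!
# Complementary minors
-/

set_option autoImplicit false

open Matrix

namespace BS

variable {R : Type*} [CommRing R]

/-- Let `M * E = 0`. The maximal minors of `M` and the complementary maximal minors of `E` are proportional up to signs.

PROOF. Let `A : Matrix (m ⊕ n) V R` have the rows `A (inl i) v = if v = e (inl i) then 1 else 0` and `A (inr j) = M j`, and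
`B : Matrix V (m ⊕ n) R` the columns `B v (inl i) = E v i` and `B v (inr j) = if v = e' (inr j) then 1 else 0`. Then
`A.submatrix id e = fromBlocks 1 0 (M restricted to e ∘ inl) (M.submatrix id (e ∘ inr))` has determinant `det (M.submatrix id (e ∘ inr))`
(`Matrix.det_fromBlocks_zero₁₂`), `B.submatrix e' id = fromBlocks (E.submatrix (e' ∘ inl) id) 0 (..) 1` has determinant
`det (E.submatrix (e' ∘ inl) id)`, and `A * B = fromBlocks (E.submatrix (e ∘ inl) id) (..) 0 (M.submatrix id (e' ∘ inr))` (lower left block `M * E = 0`) has determinant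
`det (E.submatrix (e ∘ inl) id) * det (M.submatrix id (e' ∘ inr))` (`Matrix.det_fromBlocks_zero₂₁`). Finally
`A * B = A.submatrix id e * B.submatrix e id` (`Matrix.submatrix_mul_equiv`), and `B.submatrix e id = (B.submatrix e' id).submatrix (e.trans e'.symm) id` has the
determinant of `B.submatrix e' id` times a sign (`Matrix.det_permute`). -/
theorem det_exchange {m n V : Type*} [Fintype m] [DecidableEq m] [Fintype n] [DecidableEq n]
    [Fintype V] [DecidableEq V] (e e' : m ⊕ n ≃ V) (M : Matrix n V R) (E : Matrix V m R)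
    (h : M * E = 0) : ∃ ε : ℤˣ,
      (M.submatrix id (fun j => e (.inr j))).det * (E.submatrix (fun i => e' (.inl i)) id).det =
      ((ε : ℤ) : R) * ((M.submatrix id (fun j => e' (.inr j))).det *
        (E.submatrix (fun i => e (.inl i)) id).det) := by
  classical
  let A : Matrix (m ⊕ n) V R := Matrix.of fun x v =>
    Sum.elim (fun i => if v = e (.inl i) then (1 : R) else 0) (fun j => M j v) x
  let B : Matrix V (m ⊕ n) R := Matrix.of fun v x =>
    Sum.elim (fun i => E v i) (fun j => if v = e' (.inr j) then (1 : R) else 0) x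
  have hA : A.submatrix id e = Matrix.fromBlocks (1 : Matrix m m R) 0
      (M.submatrix id (fun i => e (.inl i))) (M.submatrix id (fun j => e (.inr j))) := by
    ext x y
    rcases x with i | i <;> rcases y with j | j
    · simp [A, Matrix.one_apply, eq_comm]
    · simp [A]
    · simp [A]
    · simp [A]
  have hB : B.submatrix e' id = Matrix.fromBlocks (E.submatrix (fun i => e' (.inl i)) id) 0
      (E.submatrix (fun j => e' (.inr j)) id) (1 : Matrix n n R) := by
    ext x y
    rcases x with i | i <;> rcases y with j | j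
    · simp [B]
    · simp [B]
    · simp [B]
    · simp [B, Matrix.one_apply]
  have hAB : A * B = Matrix.fromBlocks (E.submatrix (fun i => e (.inl i)) id)
      (Matrix.of fun i j => (A * B) (.inl i) (.inr j)) 0
      (M.submatrix id (fun j => e' (.inr j))) := by
    ext x y
    rcases x with i | i <;> rcases y with j | j
    · simp [A, B, Matrix.mul_apply]
    · simp
    · have h1 := congrFun (congrFun h i) j
      rw [Matrix.mul_apply] at h1
      simpa [A, B, Matrix.mul_apply] using h1
    · simp [A, B, Matrix.mul_apply]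
  have h1 : (A.submatrix id e).det = (M.submatrix id (fun j => e (.inr j))).det := by
    rw [hA, Matrix.det_fromBlocks_zero₁₂, Matrix.det_one, one_mul]
  have h2 : (B.submatrix e' id).det = (E.submatrix (fun i => e' (.inl i)) id).det := by
    rw [hB, Matrix.det_fromBlocks_zero₁₂, Matrix.det_one, mul_one]
  have h3 : (A * B).det = (E.submatrix (fun i => e (.inl i)) id).det *
      (M.submatrix id (fun j => e' (.inr j))).det := by
    rw [hAB, Matrix.det_fromBlocks_zero₂₁]
  have h4 : A * B = A.submatrix id e * B.submatrix e id := by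
    rw [Matrix.submatrix_mul_equiv]
    rfl
  have h5 : B.submatrix e id = (B.submatrix e' id).submatrix (e.trans e'.symm) id := by
    ext x y
    simp [Matrix.submatrix_apply]
  have h6 : (B.submatrix e id).det =
      (((Equiv.Perm.sign (e.trans e'.symm) : ℤˣ) : ℤ) : R) *
        (E.submatrix (fun i => e' (.inl i)) id).det := by
    rw [h5, Matrix.det_permute, h2]
  refine ⟨Equiv.Perm.sign (e.trans e'.symm), ?_⟩
  have h7 : (M.submatrix id (fun j => e (.inr j))).det *
      ((((Equiv.Perm.sign (e.trans e'.symm) : ℤˣ) : ℤ) : R) *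
        (E.submatrix (fun i => e' (.inl i)) id).det) =
      (E.submatrix (fun i => e (.inl i)) id).det *
      (M.submatrix id (fun j => e' (.inr j))).det := by
    rw [← h3, h4, Matrix.det_mul, h1, h6]
  have h8 : (((Equiv.Perm.sign (e.trans e'.symm) : ℤˣ) : ℤ) : R) *
      (((Equiv.Perm.sign (e.trans e'.symm) : ℤˣ) : ℤ) : R) = 1 := by
    rw [← Int.cast_mul, ← Units.val_mul, Int.units_mul_self]
    simp
  rw [mul_comm (M.submatrix id (fun j => e' (.inr j))).det, ← h7]
  linear_combination (-(M.submatrix id (fun j => e (.inr j))).det *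
    (E.submatrix (fun i => e' (.inl i)) id).det) * h8

end BS
end

section

/-!
# Two lemmas on determinants
-/

set_option autoImplicit false

open Matrix

namespace BS

variable {R : Type*} [CommRing R]

/-- A column operation: the last entry `a (last)` of the first row is invertible.

PROOF. Let `N := Matrix.of (Fin.cons a M)` and `P` the matrix with `P i i = 1`, `P (last) (castSucc j) = - u * a (castSucc j)` and `0` elsewhere
(unipotent, `det P = 1`: lower triangular, `Matrix.det_of_lowerTriangular`). `N * P` has the first row `(0, ..., 0, a (last))` and the other rows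
`(M i (castSucc j) - u * a (castSucc j) * M i (last), M i (last))`. Expand along the first row: `Matrix.det_succ_row_zero`, only the last term is not zero
(`Fin.sum_univ_castSucc`, `Fin.succAbove_last`). Or: `Matrix.det_eq_of_forall_col_eq_smul_add_const` and relatives. -/
theorem det_schur {n : ℕ} (a : Fin (n + 1) → R) (M : Fin n → Fin (n + 1) → R) (u : R)
    (hu : u * a (Fin.last n) = 1) :
    (Matrix.of (Fin.cons (α := fun _ => Fin (n + 1) → R) a M)).det =
      (-1) ^ n * a (Fin.last n) * (Matrix.of fun i j : Fin n =>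
        M i j.castSucc - u * a j.castSucc * M i (Fin.last n)).det := by
  set N : Matrix (Fin (n + 1)) (Fin (n + 1)) R :=
    Matrix.of (Fin.cons (α := fun _ => Fin (n + 1) → R) a M) with hN
  have hN0 : ∀ j, N 0 j = a j := fun j => rfl
  have hNs : ∀ (i : Fin n) j, N i.succ j = M i j := fun i j => rfl
  let c : Fin (n + 1) → R := fun j => if j = Fin.last n then 0 else -(u * a j)
  have hcl : c (Fin.last n) = 0 := if_pos rfl
  have hcc : ∀ j : Fin n, c j.castSucc = -(u * a j.castSucc) := fun j =>
    if_neg (Fin.castSucc_lt_last j).ne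
  let A : Matrix (Fin (n + 1)) (Fin (n + 1)) R := Matrix.of fun i j => N i j + c j * N i (Fin.last n)
  have h1 : A.det = N.det := by
    rw [← Matrix.det_transpose A, ← Matrix.det_transpose N]
    exact Matrix.det_eq_of_forall_row_eq_smul_add_const c (Fin.last n) hcl (fun i j => rfl)
  have hA : ∀ i j, A i j = N i j + c j * N i (Fin.last n) := fun i j => rfl
  rw [← h1, Matrix.det_succ_row_zero, Fin.sum_univ_castSucc]
  rw [Finset.sum_eq_zero, zero_add]
  · have h2 : A 0 (Fin.last n) = a (Fin.last n) := by rw [hA, hcl, hN0]; ring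
    rw [h2, Fin.val_last]
    congr 2
    ext i j
    simp only [Matrix.submatrix_apply, Matrix.of_apply, Fin.succAbove_last]
    rw [hA, hcc, hNs, hNs]
    ring
  · intro j _
    have h2 : A 0 j.castSucc = 0 := by
      rw [hA, hcc, hN0, hN0]
      linear_combination (-a j.castSucc) * hu
    rw [h2]
    ring

/-- PROOF. Expand along the first row (`Matrix.det_succ_row_zero`): only the column `0` counts: for another column the minor has the zero column `0`.
The minor of the column `0` is the diagonal matrix of the `y i` (`Matrix.det_diagonal`). Or: the matrix is upper triangular. -/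
theorem det_val {n : ℕ} (a : Fin (n + 1) → R) (y : Fin n → R) :
    (Matrix.of (Fin.cons (α := fun _ => Fin (n + 1) → R) a
      (fun i j => if j = i.succ then y i else 0))).det = a 0 * ∏ i, y i := by
  rw [Matrix.det_of_isUpperTriangular, Fin.prod_univ_succ]
  · congr 1
    refine Finset.prod_congr rfl fun i _ => ?_
    change (if i.succ = i.succ then y i else 0) = y i
    rw [if_pos rfl]
  · intro i j hij
    simp only [id_eq] at hij
    revert hij
    refine Fin.cases ?_ (fun i => ?_) i
    · intro hij
      exact absurd hij (Fin.not_lt_zero j)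
    · intro hij
      change (if j = i.succ then y i else 0) = 0
      rw [if_neg hij.ne]

end BS
end

section

/-!
# Extension of derivations to the field of fractions
-/

set_option autoImplicit false

namespace BS

universe u

variable (k : Type u) [Field k]

/-- A derivation of a domain extends to the field of fractions.
PROOF. `D' (a / b) = (b D a - a D b) / b ^ 2`: well defined, additive, Leibniz. (For example with `IsLocalization.lift` to the dual numbers: the ring
homomorphism `R → TrivSqZeroExt F F` (or `F[ε]`), `r ↦ (r, D r)`, sends nonzero elements to units, so it extends to `F → TrivSqZeroExt F F`, and the second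
component is the derivation; or by Kähler differentials: `Ω[F/k] = F ⊗ Ω[R/k]`.) -/
theorem exists_ext_der {R : Type u} [CommRing R] [IsDomain R] [Algebra k R] (D : Derivation k R R) :
    ∃ D' : Derivation k (FractionRing R) (FractionRing R), ∀ r : R,
      D' (algebraMap R (FractionRing R) r) = algebraMap R (FractionRing R) (D r) := by
  have : Algebra.FormallyEtale R (FractionRing R) :=
    Algebra.FormallyEtale.of_isLocalization (nonZeroDivisors R)
  let e := KaehlerDifferential.tensorKaehlerEquivOfFormallyEtale k R (FractionRing R)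
  let g : KaehlerDifferential k R →ₗ[R] FractionRing R :=
    (Algebra.linearMap R (FractionRing R)) ∘ₗ D.liftKaehlerDifferential
  refine ⟨((g.liftBaseChange (FractionRing R)) ∘ₗ e.symm.toLinearMap).compDer
    (KaehlerDifferential.D k (FractionRing R)), fun r => ?_⟩
  have h1 : e.symm (KaehlerDifferential.D k (FractionRing R) (algebraMap R (FractionRing R) r)) =
      TensorProduct.tmul R (1 : FractionRing R) (KaehlerDifferential.D k R r) :=
    KaehlerDifferential.tensorKaehlerEquivOfFormallyEtale_symm_D_algebraMap k R (FractionRing R) r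
  change (g.liftBaseChange (FractionRing R)) (e.symm (KaehlerDifferential.D k (FractionRing R)
    (algebraMap R (FractionRing R) r))) = _
  rw [h1, LinearMap.liftBaseChange_tmul, one_smul]
  change algebraMap R (FractionRing R) (D.liftKaehlerDifferential (KaehlerDifferential.D k R r)) = _
  rw [Derivation.liftKaehlerDifferential_comp_D]

end BS
end

section

/-!
# Multiderivations of a field
-/

set_option autoImplicit false

namespace BS

/-- alternating `n`-derivations of a field `F` over `k` -/
structure MDer (k F : Type*) [Field k] [Field F] [Algebra k F] (n : ℕ) where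
  D : (Fin n → F) → F
  add : ∀ (a : Fin n → F) (i : Fin n) (x y : F),
    D (Function.update a i (x + y)) = D (Function.update a i x) + D (Function.update a i y)
  leibniz : ∀ (a : Fin n → F) (i : Fin n) (x y : F),
    D (Function.update a i (x * y)) =
      x * D (Function.update a i y) + y * D (Function.update a i x)
  const : ∀ (a : Fin n → F) (i : Fin n) (c : k), D (Function.update a i (algebraMap k F c)) = 0
  alt : ∀ (a : Fin n → F) (i j : Fin n), i ≠ j → a i = a j → D a = 0

variable {k F : Type*} [Field k] [Field F] [Algebra k F] {n : ℕ}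

/-- PROOF. `Matrix.of (fun i j => η j (Function.update a i x i)) = updateRow (..) i (fun j => η j x)`; `Matrix.det_updateRow_add`,
`Matrix.det_updateRow_smul`, `Derivation.leibniz`, `Derivation.map_algebraMap`, `Matrix.det_eq_zero_of_row_eq_zero`, `Matrix.det_zero_of_row_eq`. -/
theorem exists_mder (G : F) (η : Fin n → Derivation k F F) :
    ∃ D : MDer k F n, ∀ a, D.D a = G * (Matrix.of fun i j => η j (a i)).det := by
  have key : ∀ (a : Fin n → F) (i : Fin n) (x : F),
      (Matrix.of fun i' j => η j (Function.update a i x i')) =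
      (Matrix.of fun i' j => η j (a i')).updateRow i (fun j => η j x) := by
    intro a i x
    ext i' j
    by_cases h : i' = i
    · subst h; simp
    · simp [Matrix.updateRow_ne h, Function.update_of_ne h]
  refine ⟨⟨fun a => G * (Matrix.of fun i j => η j (a i)).det, ?_, ?_, ?_, ?_⟩, fun a => rfl⟩
  · intro a i x y
    rw [key, key, key, ← mul_add, ← Matrix.det_updateRow_add]
    congr 3
    funext j
    simp
  · intro a i x y
    rw [key, key, key]
    have e : (fun j => η j (x * y)) = (x • (fun j => η j y)) + (y • fun j => η j x) := by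
      funext j
      simp [Derivation.leibniz]
    rw [e, Matrix.det_updateRow_add, Matrix.det_updateRow_smul, Matrix.det_updateRow_smul]
    ring
  · intro a i c
    rw [key]
    rw [Matrix.det_eq_zero_of_row_eq_zero i, mul_zero]
    intro j
    simp
  · intro a i j hij h
    rw [Matrix.det_zero_of_row_eq hij, mul_zero]
    funext l
    simp [h]

/-- Let `D` preserve the subring `B`, `h ∈ B`, `h ≠ 0`. Then `D` preserves `B[1/h]`.

PROOF. Prove by induction on `s : Finset (Fin n)`: if `∀ i ∈ s, ∃ N, a i * h ^ N ∈ B` and `a i ∈ B` for `i ∉ s` then `∃ N, D a * h ^ N ∈ B`. `s = ∅`: hypothesis.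
Step `insert i s`: `a i = b / h ^ N` with `b ∈ B`. Let `d x := D (update a i x)`: additive, Leibniz, so `d b = d (a i * h ^ N) = a i * d (h ^ N) + h ^ N * d (a i)`,
`d (h ^ N) = N * h ^ (N-1) * d h` (induction on `N` from `leibniz`; `d 1 = 0` by `const` with `c = 1`); so
`d (a i) * h ^ (2 N) = h ^ N * d b - b * d (h ^ N)` and `d b`, `d h`, hence `d (h ^ N)`, are in `B[1/h]` by the induction hypothesis
(`update a i b`, `update a i h`). `d (a i) = D a` (`Function.update_eq_self`). The set `{x | ∃ N, x * h ^ N ∈ B}` is a subring containing `B`. -/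
theorem MDer.loc (D : MDer k F n) (B : Subring F) (h : F) (hB : h ∈ B) (h0 : h ≠ 0)
    (H : ∀ a : Fin n → F, (∀ i, a i ∈ B) → D.D a ∈ B) (a : Fin n → F)
    (ha : ∀ i, ∃ N : ℕ, a i * h ^ N ∈ B) : ∃ N : ℕ, D.D a * h ^ N ∈ B := by
  have hadd : ∀ x y : F, (∃ N : ℕ, x * h ^ N ∈ B) → (∃ N : ℕ, y * h ^ N ∈ B) →
      ∃ N : ℕ, (x + y) * h ^ N ∈ B := by
    rintro x y ⟨N, hN⟩ ⟨M, hM⟩
    refine ⟨N + M, ?_⟩
    have : (x + y) * h ^ (N + M) = (x * h ^ N) * h ^ M + (y * h ^ M) * h ^ N := by ring
    rw [this]
    exact B.add_mem (B.mul_mem hN (B.pow_mem hB _)) (B.mul_mem hM (B.pow_mem hB _))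
  have hmul : ∀ x y : F, (∃ N : ℕ, x * h ^ N ∈ B) → (∃ N : ℕ, y * h ^ N ∈ B) →
      ∃ N : ℕ, (x * y) * h ^ N ∈ B := by
    rintro x y ⟨N, hN⟩ ⟨M, hM⟩
    refine ⟨N + M, ?_⟩
    have : (x * y) * h ^ (N + M) = (x * h ^ N) * (y * h ^ M) := by ring
    rw [this]
    exact B.mul_mem hN hM
  have hof : ∀ x ∈ B, ∃ N : ℕ, x * h ^ N ∈ B := fun x hx => ⟨0, by simpa using hx⟩
  have hneg : ∀ x : F, (∃ N : ℕ, x * h ^ N ∈ B) → ∃ N : ℕ, (-x) * h ^ N ∈ B := by
    rintro x ⟨N, hN⟩
    exact ⟨N, by rw [neg_mul]; exact B.neg_mem hN⟩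
  -- the main induction
  have main : ∀ (s : Finset (Fin n)) (a : Fin n → F), (∀ i ∈ s, ∃ N : ℕ, a i * h ^ N ∈ B) →
      (∀ i, i ∉ s → a i ∈ B) → ∃ N : ℕ, D.D a * h ^ N ∈ B := by
    intro s
    induction s using Finset.induction_on with
    | empty =>
      intro a _ h2
      exact hof _ (H a (fun i => h2 i (Finset.notMem_empty i)))
    | insert i s his ih =>
      intro a h1 h2
      obtain ⟨N, hN⟩ := h1 i (Finset.mem_insert_self i s)
      have ihu : ∀ x ∈ B, ∃ N : ℕ, D.D (Function.update a i x) * h ^ N ∈ B := by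
        intro x hx
        refine ih _ ?_ ?_
        · intro j hj
          have hji : j ≠ i := fun e => his (e ▸ hj)
          rw [Function.update_of_ne hji]
          exact h1 j (Finset.mem_insert_of_mem hj)
        · intro j hj
          by_cases hji : j = i
          · subst hji; simpa using hx
          · rw [Function.update_of_ne hji]
            exact h2 j (by simp [hji, hj])
      have hpow : ∀ M : ℕ, D.D (Function.update a i (h ^ M)) =
          (M : F) * h ^ (M - 1) * D.D (Function.update a i h) := by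
        intro M
        induction M with
        | zero =>
          have := D.const a i 1
          rw [map_one] at this
          simp [this]
        | succ M ihM =>
          rw [pow_succ, D.leibniz, ihM]
          rcases M with _ | M
          · simp
          · simp only [Nat.add_sub_cancel]
            push_cast
            ring
      have e1 : D.D (Function.update a i (a i * h ^ N)) =
          a i * D.D (Function.update a i (h ^ N)) + h ^ N * D.D a := by
        rw [D.leibniz, Function.update_eq_self]
      have e2 : D.D a * h ^ (2 * N) = D.D (Function.update a i (a i * h ^ N)) * h ^ N +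
          -((a i * h ^ N) * D.D (Function.update a i (h ^ N))) := by
        rw [e1]; ring
      have e3 : ∃ M : ℕ, (D.D a * h ^ (2 * N)) * h ^ M ∈ B := by
        rw [e2]
        refine hadd _ _ (hmul _ _ (ihu _ hN) (hof _ (B.pow_mem hB _))) (hneg _ (hmul _ _ (hof _ hN) ?_))
        exact ihu _ (B.pow_mem hB _)
      obtain ⟨M, hM⟩ := e3
      exact ⟨2 * N + M, by rw [pow_add, ← mul_assoc]; exact hM⟩
  exact main Finset.univ a (fun i _ => ha i) (fun i hi => absurd (Finset.mem_univ i) hi)

end BS
end

section

/-!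
# Functions on an integral scheme as elements of a field; local multiderivations
-/

set_option autoImplicit false

open CategoryTheory CategoryTheory.Limits AlgebraicGeometry TopologicalSpace

namespace BS

universe u

/-- compatible injective ring homomorphisms of the rings of functions on the nonempty open sets of `X` to a field -/
structure EmbF (X : Scheme.{u}) (F : Type u) [Field F] where
  emb : ∀ V : X.Opens, (∃ x, x ∈ V) → Γ(X, V) →+* F
  inj : ∀ (V : X.Opens) (hV : ∃ x, x ∈ V), Function.Injective (emb V hV)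
  res : ∀ (V V' : X.Opens) (hV : ∃ x, x ∈ V) (hV' : ∃ x, x ∈ V') (h : V' ≤ V) (y : Γ(X, V)),
    emb V' hV' (rO X h y) = emb V hV y

variable {X : Scheme.{u}} {F : Type u} [Field F] {k : Type u} [Field k] [Algebra k F]

/-- `D` preserves the functions on the open set `U`. -/
def EmbF.Pres (E : EmbF X F) (D : MDer k F 5) (U : X.Opens) : Prop :=
  ∀ (hU : ∃ x, x ∈ U) (a : Fin 5 → Γ(X, U)), ∃ b : Γ(X, U),
    E.emb U hU b = D.D (fun i => E.emb U hU (a i))

/-- PROOF. Let `g ∈ Γ(X,U)` with `x ∈ basicOpen g ≤ V ⊓ U` (`IsAffineOpen.exists_basicOpen_le`). `W := basicOpen g`. `Γ(X, W) = Γ(X, U)[1/g]`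
(`hU.isLocalization_basicOpen g`), so every `a i` restricted to `W` times some power of `g` is the restriction of a function on `U`. Let `B := (E.emb U _).range`
(a subring of `F`), `h := E.emb U _ g ≠ 0` (`inj`; `g ≠ 0` because `x ∈ basicOpen g`). `MDer.loc` gives `D (..) * h ^ N = E.emb U _ b`; the function
`(b|W) * (g|W)⁻ᴺ` (`g|W` is a unit) is the wanted one (`res`). -/
theorem EmbF.local (E : EmbF X F) (D : MDer k F 5) {U : X.Opens} (hU : IsAffineOpen U)
    (h : E.Pres D U) {V : X.Opens} {x : X} (hxV : x ∈ V) (hxU : x ∈ U) (a : Fin 5 → Γ(X, V)) :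
    ∃ (W : X.Opens) (hxW : x ∈ W) (_ : W ≤ V) (_ : W ≤ U) (b : Γ(X, W)),
      E.emb W ⟨x, hxW⟩ b = D.D (fun i => E.emb V ⟨x, hxV⟩ (a i)) := by
  obtain ⟨g, hgV, hgx⟩ := hU.exists_basicOpen_le ⟨x, hxV⟩ hxU
  have hloc := hU.isLocalization_basicOpen g
  have halg : ∀ y : Γ(X, U), algebraMap Γ(X, U) Γ(X, X.basicOpen g) y =
      rO X (X.basicOpen_le g) y := fun y => rfl
  have hu : IsUnit (rO X (X.basicOpen_le g) g) := IsLocalization.Away.algebraMap_isUnit g
  have hUne : ∃ x, x ∈ U := ⟨x, hxU⟩
  have hWne : ∃ y, y ∈ X.basicOpen g := ⟨x, hgx⟩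
  have h0 : E.emb U hUne g ≠ 0 := by
    intro h0
    have h1 : E.emb _ hWne (rO X (X.basicOpen_le g) g) = 0 := by
      rw [E.res U _ hUne hWne, h0]
    exact (hu.map (E.emb _ hWne)).ne_zero h1
  have ha : ∀ i, ∃ N : ℕ, E.emb V ⟨x, hxV⟩ (a i) * (E.emb U hUne g) ^ N ∈
      (E.emb U hUne).range := by
    intro i
    obtain ⟨N, y, hy⟩ := IsLocalization.Away.surj g (rO X hgV (a i))
    refine ⟨N, y, ?_⟩
    have h2 := congrArg (E.emb _ hWne) hy
    rw [halg, halg, map_mul, map_pow, E.res U _ hUne hWne, E.res U _ hUne hWne,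
      E.res V _ ⟨x, hxV⟩ hWne] at h2
    exact h2.symm
  have hB : ∀ b : Fin 5 → F, (∀ i, b i ∈ (E.emb U hUne).range) →
      D.D b ∈ (E.emb U hUne).range := by
    intro b hb
    choose c hc using hb
    obtain ⟨y, hy⟩ := h hUne c
    refine ⟨y, ?_⟩
    rw [hy]
    congr 1
    funext i
    exact hc i
  obtain ⟨N, y, hy⟩ := D.loc (E.emb U hUne).range (E.emb U hUne g) ⟨g, rfl⟩ h0 hB
    (fun i => E.emb V ⟨x, hxV⟩ (a i)) ha
  obtain ⟨u, hu'⟩ := hu
  refine ⟨X.basicOpen g, hgx, hgV, X.basicOpen_le g,
    rO X (X.basicOpen_le g) y * ((u⁻¹ ^ N : Γ(X, X.basicOpen g)ˣ) : Γ(X, X.basicOpen g)), ?_⟩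
  have hg2 : E.emb _ hWne (u : Γ(X, X.basicOpen g)) = E.emb U hUne g := by
    rw [hu', E.res U _ hUne hWne]
  apply mul_right_cancel₀ (pow_ne_zero N h0)
  rw [← hy]
  have h3 : (rO X (X.basicOpen_le g) y *
      ((u⁻¹ ^ N : Γ(X, X.basicOpen g)ˣ) : Γ(X, X.basicOpen g))) *
      (u : Γ(X, X.basicOpen g)) ^ N = rO X (X.basicOpen_le g) y := by
    rw [mul_assoc, ← Units.val_pow_eq_pow_val, ← Units.val_mul, inv_pow, inv_mul_cancel,
      Units.val_one, mul_one]
  have h4 := congrArg (E.emb _ hWne) h3
  rw [map_mul, map_pow, hg2, E.res U _ hUne hWne] at h4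
  exact h4

end BS
end

section

/-!
# Functions on an integral scheme as elements of a field; local multiderivations
-/

set_option autoImplicit false

open CategoryTheory CategoryTheory.Limits AlgebraicGeometry TopologicalSpace

namespace BS

universe u

variable {X : Scheme.{u}} {F : Type u} [Field F] {k : Type u} [Field k] [Algebra k F]

/-- PROOF. For `x ∈ V` let `W x`, `b x` be as in `EmbF.local` for an affine `U ∋ x` which is preserved. On `W x ⊓ W x'` the restrictions of `b x` and `b x'` agree: if it is not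
empty by `inj` and `res`; if it is empty because `Γ(X, ⊥)` is a subsingleton. Glue (`fun_glue` with index type `V`; its `ι : Type u`), and compare in `F` on `W x` (`res`). -/
theorem EmbF.exists_value (E : EmbF X F) (D : MDer k F 5)
    (hD : ∀ x : X, ∃ U : X.Opens, x ∈ U ∧ IsAffineOpen U ∧ E.Pres D U) (V : X.Opens) :
    E.Pres D V := by
  intro hV a
  have h1 : ∀ x : V, ∃ (W : X.Opens) (hxW : x.1 ∈ W) (_ : W ≤ V) (b : Γ(X, W)),
      E.emb W ⟨x.1, hxW⟩ b = D.D (fun i => E.emb V hV (a i)) := by
    intro x
    obtain ⟨U, hxU, hU, hP⟩ := hD x.1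
    obtain ⟨W, hxW, hWV, -, b, hb⟩ := E.local D hU hP x.2 hxU a
    exact ⟨W, hxW, hWV, b, hb⟩
  choose W hxW hWV b hb using h1
  obtain ⟨y, hy⟩ := fun_glue W V hWV
    (fun p hp => Opens.mem_iSup.2 ⟨⟨p, hp⟩, hxW ⟨p, hp⟩⟩) b (by
      intro i j
      by_cases hne : ∃ x, x ∈ W i ⊓ W j
      · apply E.inj _ hne
        rw [E.res (W i) (W i ⊓ W j) ⟨i.1, hxW i⟩ hne inf_le_left,
          E.res (W j) (W i ⊓ W j) ⟨j.1, hxW j⟩ hne inf_le_right, hb, hb]
      · exact fun_ext fun p hp => (hne ⟨p, hp⟩).elim)
  obtain ⟨x0, hx0⟩ := hV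
  refine ⟨y, ?_⟩
  rw [← E.res V (W ⟨x0, hx0⟩) ⟨x0, hx0⟩ ⟨x0, hxW ⟨x0, hx0⟩⟩ (hWV _), hy, hb]

variable [X.Over (Spec (.of k))]

/-- PROOF. `s.D V a` is the unique function with `E.emb V _ (s.D V a) = D (fun i => E.emb V _ (a 0 i))` (`exists_value`) if `V` is not empty and `0` otherwise. The
axioms: for `V` empty `Γ(X, V)` is a subsingleton; otherwise apply the injective `E.emb V _`. `add`, `leibniz`, `const`: `fun i => E.emb (upd a 0 j x 0 i)` is
`Function.update (fun i => E.emb (a 0 i)) j (E.emb x)` (`upd`, `Fin 1`: `i = 0`), and `D.add`, `D.leibniz`, `D.const` with `hk`. `alt`: `D.alt`. `res`: `E.res` (for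
`V` empty trivial; if `V` is not empty then `U` is not). -/
theorem EmbF.exists_section (E : EmbF X F)
    (hk : ∀ (V : X.Opens) (hV : ∃ x, x ∈ V) (c : k),
      E.emb V hV (resTop V (coefTop k X c)) = algebraMap k F c)
    (D : MDer k F 5) (hD : ∀ V : X.Opens, E.Pres D V) :
    ∃ s : PluriAnticanonical k X 5 1, ∀ (V : X.Opens) (hV : ∃ x, x ∈ V)
      (a : Fin 1 → Fin 5 → Γ(X, V)), E.emb V hV (s.D V a) = D.D (fun i => E.emb V hV (a 0 i)) := by
  classical
  have h1 : ∀ (V : X.Opens) (a : Fin 1 → Fin 5 → Γ(X, V)), ∃ b : Γ(X, V),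
      ∀ hV : ∃ x, x ∈ V, E.emb V hV b = D.D (fun i => E.emb V hV (a 0 i)) := by
    intro V a
    by_cases hV : ∃ x, x ∈ V
    · obtain ⟨b, hb⟩ := hD V hV (a 0)
      exact ⟨b, fun _ => hb⟩
    · exact ⟨0, fun h => (hV h).elim⟩
  choose Dd key using h1
  have hext : ∀ (V : X.Opens) (x y : Γ(X, V)),
      (∀ hV : ∃ x, x ∈ V, E.emb V hV x = E.emb V hV y) → x = y := by
    intro V x y h
    by_cases hV : ∃ x, x ∈ V
    · exact E.inj V hV (h hV)
    · exact fun_ext fun p hp => (hV ⟨p, hp⟩).elim
  have hupd : ∀ (V : X.Opens) (hV : ∃ x, x ∈ V) (a : Fin 1 → Fin 5 → Γ(X, V)) (i : Fin 1)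
      (j : Fin 5) (x : Γ(X, V)), (fun l => E.emb V hV (upd a i j x 0 l)) =
        Function.update (fun l => E.emb V hV (a 0 l)) j (E.emb V hV x) := by
    intro V hV a i j x
    obtain rfl : i = 0 := Subsingleton.elim _ _
    funext l
    have h2 : upd a 0 j x 0 = Function.update (a 0) j x := by
      unfold upd
      rw [Function.update_self]
    rw [h2]
    by_cases hl : l = j
    · subst hl
      rw [Function.update_self, Function.update_self]
    · rw [Function.update_of_ne hl, Function.update_of_ne hl]
  refine ⟨{ D := Dd, add := ?_, leibniz := ?_, const := ?_, alt := ?_, res := ?_ },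
    fun V hV a => key V a hV⟩
  · intro V a i j x y
    refine hext V _ _ fun hV => ?_
    rw [map_add, key V _ hV, key V _ hV, key V _ hV, hupd, hupd, hupd, map_add, D.add]
  · intro V a i j x y
    refine hext V _ _ fun hV => ?_
    rw [map_add, map_mul, map_mul, key V _ hV, key V _ hV, key V _ hV, hupd, hupd, hupd, map_mul,
      D.leibniz]
  · intro V a i j c
    refine hext V _ _ fun hV => ?_
    rw [map_zero, key V _ hV, hupd, hk, D.const]
  · intro V a i j j' hj h
    refine hext V _ _ fun hV => ?_
    obtain rfl : i = 0 := Subsingleton.elim _ _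
    rw [map_zero, key V _ hV]
    exact D.alt _ j j' hj (congrArg (E.emb V hV) h)
  · intro U V h a
    refine hext V _ _ fun hV => ?_
    have hU : ∃ x, x ∈ U := ⟨hV.choose, h hV.choose_spec⟩
    change E.emb V hV (rO X h (Dd U a)) = E.emb V hV (Dd V (fun i j => rO X h (a i j)))
    rw [E.res U V hU hV h, key U _ hU, key V _ hV]
    congr 1
    funext l
    exact (E.res U V hU hV h (a 0 l)).symm

end BS
end
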