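import Pool.Agent.Lib.MP_bd3808_ag.Mg.G023
import Pool.Agent.Lib.MP_bd3808_ag.Mg.G010
import Pool.Agent.Lib.MP_bd3808_ag.Mg.G014
import Pool.Agent.Lib.MP_bd3808_ag.Mg.G026

section

/-!
# The image of a quasi-coherent sheaf in the model is quasi-coherent
-/

set_option autoImplicit false

open CategoryTheory CategoryTheory.Limits AlgebraicGeometry TopologicalSpace

namespace BS

open MPbd3808.BR

universe u

variable {k : Type u} [Field k] {X : Scheme.{u}} [X.Over (Spec (.of k))]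

/-- the exponent (of degree `0`) of the function on the chart `σ` whose non-vanishing locus is the chart `τ ⊇ σ` -/
def gam (σ τ : Finset Vr) : Ex := pw τ 1 - un σ (degE (pw τ 1))

lemma gam_reg {σ τ : Finset Vr} (hσ : Full σ) : Reg σ (gam σ τ) := by
  unfold gam
  rw [sub_eq_add_neg, ← un_neg]
  exact (reg_pw σ τ 1).add (reg_un hσ (Finset.Subset.refl σ) _)

lemma gam_deg (σ τ : Finset Vr) : degE (gam σ τ) = 0 := by
  unfold gam
  rw [sub_eq_add_neg, degE_add, degE_neg, degE_un, add_neg_cancel]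

private theorem QcPhi_supp {σ τ : Finset Vr} (hσ : Full σ) (h : σ ⊆ τ) :
    supp σ (gam σ τ) = τ := by
  ext v
  unfold supp
  simp only [Finset.mem_union, Finset.mem_filter, Finset.mem_univ, true_and]
  by_cases hv : v ∈ σ
  · simp [hv, h hv]
  · have h1 : gam σ τ v = if v ∈ τ then 1 else 0 := by
      unfold gam
      rw [Pi.sub_apply, un_of_notMem hσ _ hv, sub_zero]
      simp [pw]
    rw [h1]
    simp only [hv, false_or]
    split_ifs with h' <;> simp [h']

/-- the exponent of the `N`-th power of `gg` -/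
private def gN (σ τ : Finset Vr) (N : ℕ) : Ex := pw τ N - un σ (degE (pw τ N))

private theorem gN_reg {σ τ : Finset Vr} (hσ : Full σ) (N : ℕ) : Reg σ (gN σ τ N) := by
  unfold gN
  rw [sub_eq_add_neg, ← un_neg]
  exact (reg_pw σ τ N).add (reg_un hσ (Finset.Subset.refl σ) _)

private theorem gN_deg (σ τ : Finset Vr) (N : ℕ) : degE (gN σ τ N) = 0 := by
  unfold gN
  rw [sub_eq_add_neg, degE_add, degE_neg, degE_un, add_neg_cancel]

private theorem gN_zero (σ τ : Finset Vr) : gN σ τ 0 = 0 := by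
  unfold gN
  rw [pw_zero, degE_zero, un_zero, sub_zero]

private theorem gN_succ (σ τ : Finset Vr) (N : ℕ) : gN σ τ (N + 1) = gN σ τ N + gam σ τ := by
  unfold gN gam
  rw [pw_add, degE_add, un_add]
  abel

private theorem QcPhi_sum {Y Z : ModuleCat.{u} k} (c : Fin 6 → ℤ) (φ : Fin 6 → (Y ⟶ Z)) (x : Y) :
    (∑ i, c i • φ i).hom x = ∑ i, c i • (φ i).hom x := by
  simp [ModuleCat.hom_sum, LinearMap.sum_apply]

namespace Charts

variable (C : Charts k X)

/-- the function on the chart `σ` whose non-vanishing locus is the chart `τ ⊇ σ` -/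
noncomputable def gg {σ : Finset Vr} (hσ : Full σ) (τ : Finset Vr) : Γ(X, C.U σ hσ) :=
  C.mon hσ (gam σ τ) (gam_reg hσ) (gam_deg σ τ)

/-- PROOF. `C.basic`; `supp σ (gam σ τ) = τ`: for `v ∉ σ`, `gam σ τ v = pw τ 1 v` (`un_of_notMem`) is `1` if `v ∈ τ` and `0`
otherwise. -/
theorem basic_gg {σ τ : Finset Vr} (hσ : Full σ) (h : σ ⊆ τ) :
    X.basicOpen (C.gg hσ τ) = C.U τ (hσ.mono h) := by
  have h1 := C.basic σ hσ (gam σ τ) (gam_reg hσ) (gam_deg σ τ)
  have h2 : ∀ (ρ : Finset Vr) (hρ : Full ρ), ρ = τ → C.U ρ hρ = C.U τ (hσ.mono h) := by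
    intro ρ hρ hρτ
    subst hρτ
    rfl
  exact h1.trans (h2 _ _ (QcPhi_supp hσ h))

private theorem mon_gN {σ τ : Finset Vr} (hσ : Full σ) (N : ℕ) :
    C.mon hσ (gN σ τ N) (gN_reg hσ N) (gN_deg σ τ N) = C.gg hσ τ ^ N := by
  induction N with
  | zero => rw [C.mon_congr hσ (gN_zero σ τ), C.mon_zero, pow_zero]
  | succ N ih =>
    rw [C.mon_congr hσ (gN_succ σ τ N), C.mon_add hσ (gN σ τ N) (gam σ τ) (gN_reg hσ N)
      (gN_deg σ τ N) (gam_reg hσ) (gam_deg σ τ), ih, pow_succ]
    rfl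

/-- A Laurent monomial of degree `0` supported on `σ` is a unit on the chart `σ`.
PROOF. Its inverse is the monomial with the opposite exponent (`mon_add`, `mon_zero`). -/
theorem isUnit_mon {σ : Finset Vr} (hσ : Full σ) (e : Ex) (hr : Reg σ e) (hd : degE e = 0)
    (h : Reg σ (-e)) : IsUnit (C.mon hσ e hr hd) := by
  refine IsUnit.of_mul_eq_one (C.mon hσ (-e) h (by rw [degE_neg, hd, neg_zero])) ?_
  rw [← C.mon_add hσ e (-e) hr hd h (by rw [degE_neg, hd, neg_zero]),
    C.mon_congr hσ (add_neg_cancel e), C.mon_zero]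

/-- PROOF. At `x ∈ Γ(F, U σ)` (object `(σ,a)`): the value is `(∑ i, fC i * mon (un σ a + fE i - un σ (a + dF))) • x` and
`∑ i, fC i * mon (e0 + fE i) = ev (ff * mono e0 1) = 0` by `ev_ker`, `e0 := -un σ dF` (which has degree `-dF`). -/
theorem phi_isFZero (F : X.Modules) : isFZero k (C.phiObj F) := by
  intro σ hσ a
  set e0 : Ex := -un σ dF with he0
  have hr0 : ∀ i, Reg σ (fE i + e0) := by
    intro i
    rw [he0, ← un_neg]
    exact (reg_fE σ i).add (reg_un hσ (Finset.Subset.refl σ) _)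
  have hd0 : ∀ i, degE (fE i + e0) = 0 := by
    intro i
    rw [degE_add, degE_fE, he0, degE_neg, degE_un, add_neg_cancel]
  have hsum : ∑ i, (fC i : Γ(X, C.U σ hσ)) * C.mon hσ (fE i + e0) (hr0 i) (hd0 i) = 0 := by
    have h1 : ∑ i, (fC i : Γ(X, C.U σ hσ)) * C.mon hσ (fE i + e0) (hr0 i) (hd0 i) =
        C.ev σ hσ (∑ i, (fC i : L0 k σ) * mon0 k (fE i + e0) (hr0 i) (hd0 i)) := by
      rw [map_sum]
      refine Finset.sum_congr rfl fun i _ => ?_
      rw [map_mul, map_intCast]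
      rfl
    rw [h1, C.ev_ker]
    refine ⟨mono k e0 1, mono_mem k ?_ ?_ 1, ?_⟩
    · rw [he0, ← un_neg]
      exact reg_un hσ (Finset.Subset.refl σ) _
    · rw [he0, degE_neg, degE_un]
    · unfold ff
      rw [Finset.sum_mul]
      simp only [AddSubmonoidClass.coe_finsetSum]
      refine Finset.sum_congr rfl fun i _ => ?_
      rw [AddMonoidAlgebra.single_mul_single, mul_one]
      change ((fC i : ℤ) : Lau k) * mono k (fE i + e0) 1 = _
      rw [← zsmul_eq_mul, AddMonoidAlgebra.smul_single, zsmul_one]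
  ext x
  apply (toS (F := F) (U := C.U σ hσ)).injective
  have h2 : ∀ i, toS (F := F) (U := C.U σ hσ) (((C.phiObj F).map (mul hσ (b := a + dF) (fE i)
      (reg_fE σ i) (by rw [degE_fE]; abel) : Ob.mk σ hσ a ⟶ Ob.mk σ hσ (a + dF))).hom x) =
      C.mon hσ (fE i + e0) (hr0 i) (hd0 i) • toS (F := F) (U := C.U σ hσ) x := by
    intro i
    refine (C.phiObj_map_toS F _ x).trans ?_
    rw [rM_self]
    congr 1
    refine C.mon_congr hσ ?_ _ _
    unfold ce
    rw [mul_e, he0]
    change un σ a + fE i - un σ (a + dF) = _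
    rw [un_add]
    abel
  have h3 : toS (F := F) (U := C.U σ hσ) ((∑ i, fC i • (C.phiObj F).map (mul hσ (b := a + dF)
      (fE i) (reg_fE σ i) (by rw [degE_fE]; abel) : Ob.mk σ hσ a ⟶ Ob.mk σ hσ (a + dF))).hom x) =
      ∑ i, fC i • toS (F := F) (U := C.U σ hσ) (((C.phiObj F).map (mul hσ (b := a + dF) (fE i)
      (reg_fE σ i) (by rw [degE_fE]; abel) : Ob.mk σ hσ a ⟶ Ob.mk σ hσ (a + dF))).hom x) := by
    have h5 := congrArg (fun z => toS (k := k) (F := F) (U := C.U σ hσ) z)
      (QcPhi_sum (fun i => fC i) (fun i => (C.phiObj F).map (mul hσ (b := a + dF)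
      (fE i) (reg_fE σ i) (by rw [degE_fE]; abel) : Ob.mk σ hσ a ⟶ Ob.mk σ hσ (a + dF))) x)
    refine h5.trans ?_
    refine (map_sum (toS (k := k) (F := F) (U := C.U σ hσ)) _ _).trans ?_
    refine Finset.sum_congr rfl fun i _ => ?_
    exact map_zsmul (toS (k := k) (F := F) (U := C.U σ hσ)) _ _
  rw [h3]
  simp only [h2]
  have h4 : ∀ i, fC i • (C.mon hσ (fE i + e0) (hr0 i) (hd0 i) • toS (F := F) (U := C.U σ hσ) x) =
      ((fC i : Γ(X, C.U σ hσ)) * C.mon hσ (fE i + e0) (hr0 i) (hd0 i)) •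
        toS (F := F) (U := C.U σ hσ) x := by
    intro i
    rw [mul_smul, Int.cast_smul_eq_zsmul]
  simp only [h4]
  rw [← Finset.sum_smul, hsum, zero_smul]
  rfl

/-- PROOF. Let `x : Γ(F, U σ)`, `X.map (res ...) x = mon (un σ a - un τ a) • x|U τ = 0`. The monomial is a unit on `U τ`
(`isUnit_mon`), so `x|U τ = 0`, `U τ = D(gg hσ τ)` (`basic_gg`), so `gg ^ N • x = 0` (`Loc`), and
`X.map (mul (pw τ N)) x = mon (un σ a + pw τ N - un σ (a + degE (pw τ N))) • x = mon (N • gam σ τ) • x = gg ^ N • x`. -/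
theorem phi_locInj (F : X.Modules) (hF : ∀ σ hσ, Loc F (C.U σ hσ)) : LocInj k (C.phiObj F) := by
  intro σ τ hσ hτ hst a x hx
  have h1 : C.mon hτ (ce (res hσ hτ hst a)) (ce_reg (res hσ hτ hst a)) (ce_deg _) •
      rM F (C.anti hσ hτ hst) (toS (F := F) (U := C.U σ hσ) x) = 0 := by
    have h2 := C.phiObj_map_toS F (res hσ hτ hst a) x
    rw [hx] at h2
    exact h2.symm.trans (map_zero _)
  have hu : IsUnit (C.mon hτ (ce (res hσ hτ hst a)) (ce_reg (res hσ hτ hst a)) (ce_deg _)) := by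
    refine C.isUnit_mon hτ _ _ _ ?_
    unfold ce
    rw [res_e, add_zero, neg_sub, sub_eq_add_neg, ← un_neg]
    exact (reg_un hτ (Finset.Subset.refl τ) a).add (reg_un hσ hst (-a))
  have h3 : rM F (C.anti hσ hτ hst) (toS (F := F) (U := C.U σ hσ) x) = 0 :=
    (hu.smul_eq_zero).1 h1
  have hb := C.basic_gg hσ hst
  have h4 : rM F (X.basicOpen_le (C.gg hσ τ)) (toS (F := F) (U := C.U σ hσ) x) = 0 := by
    rw [← rM_rM F (C.anti hσ hτ hst) (le_of_eq hb), h3, map_zero]
  obtain ⟨n, hn⟩ := (hF σ hσ (C.gg hσ τ)).2 _ h4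
  refine ⟨n, ?_⟩
  apply (toS (F := F) (U := C.U σ hσ)).injective
  refine (C.phiObj_map_toS F _ x).trans
    (Eq.trans ?_ (map_zero (toS (k := k) (F := F) (U := C.U σ hσ))).symm)
  rw [rM_self, C.mon_congr hσ (e' := gN σ τ n), C.mon_gN hσ n, hn]
  unfold ce gN
  rw [mul_e]
  change un σ a + pw τ n - un σ (a + degE (pw τ n)) = _
  rw [un_add]
  abel

/-- PROOF. Let `y : Γ(F, U τ)` (object `(τ,a)`). Put `y' := mon (un τ a - un σ a) • y` (a unit times `y`). `Loc` at `gg hσ τ` gives `N` and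
`x : Γ(F, U σ)` with `x|U τ = gg^N|U τ • y'`. Then `X.map (res) x = mon (un σ b - un τ b) • x|U τ`, `b := a + degE (pw τ N)`, and this is
`mon (un τ a + pw τ N - un τ b) • y` (compare the exponents: `un σ b - un τ b + N gam σ τ + un τ a - un σ a = un τ a + pw τ N - un τ b` since
`un σ` is additive). -/
theorem phi_locSurj (F : X.Modules) (hF : ∀ σ hσ, Loc F (C.U σ hσ)) : LocSurj k (C.phiObj F) := by
  intro σ τ hσ hτ hst a y
  have hra : Reg τ (un τ a - un σ a) := by
    rw [sub_eq_add_neg, ← un_neg]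
    exact (reg_un hτ (Finset.Subset.refl τ) a).add (reg_un hσ hst (-a))
  have hda : degE (un τ a - un σ a) = 0 := by
    rw [sub_eq_add_neg, degE_add, degE_neg, degE_un, degE_un, add_neg_cancel]
  set y' : Γ(F, C.U τ hτ) := toS (F := F) (U := C.U τ hτ) y with hy'
  set y'' : Γ(F, C.U τ hτ) := C.mon hτ (un τ a - un σ a) hra hda • y' with hy''
  have hb := C.basic_gg hσ hst
  obtain ⟨n, t, ht⟩ := (hF σ hσ (C.gg hσ τ)).1 (rM F (le_of_eq hb) y'')
  have h1 : rM F (C.anti hσ hτ hst) t = rO X (C.anti hσ hτ hst) (C.gg hσ τ) ^ n • y'' := by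
    have h2 := congrArg (rM F (le_of_eq hb.symm)) ht
    rw [rM_rM, rM_smul, rM_rM, map_pow, rO_rO, rM_self] at h2
    exact h2
  have h3 : rO X (C.anti hσ hτ hst) (C.gg hσ τ) ^ n =
      C.mon hτ (gN σ τ n) ((gN_reg hσ n).mono hst) (gN_deg σ τ n) := by
    rw [← map_pow, ← C.mon_gN hσ n, C.rO_mon hσ hτ hst]
  rw [h3] at h1
  refine ⟨n, (toS (F := F) (U := C.U σ hσ)).symm t, ?_⟩
  apply (toS (F := F) (U := C.U τ hτ)).injective
  refine (C.phiObj_map_toS F _ _).trans (Eq.trans ?_ (C.phiObj_map_toS F _ y).symm)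
  rw [AddEquiv.apply_symm_apply, rM_self]
  change C.mon hτ _ _ _ • rM F (C.anti hσ hτ hst) t = C.mon hτ _ _ _ • y'
  rw [h1, hy'', smul_smul, smul_smul, ← C.mon_add, ← C.mon_add]
  congr 1
  refine C.mon_congr hτ ?_ _ _
  unfold ce gN
  rw [res_e, mul_e]
  change un σ (a + degE (pw τ n)) + 0 - un τ (a + degE (pw τ n)) + (pw τ n - un σ (degE (pw τ n))) +
    (un τ a - un σ a) = un τ a + pw τ n - un τ (a + degE (pw τ n))
  rw [un_add]
  abel

theorem phi_isQC (F : X.Modules) (hF : ∀ σ hσ, Loc F (C.U σ hσ)) : isQC k (C.phiObj F) :=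
  ⟨C.phi_isFZero F, C.phi_locInj F hF, C.phi_locSurj F hF⟩

end Charts

end BS
end

section

/-!
# Coherent sheaves and finitely generated objects of the model
-/

set_option autoImplicit false

open CategoryTheory CategoryTheory.Limits AlgebraicGeometry TopologicalSpace

namespace BS

open MPbd3808.BR

universe u

variable {k : Type u} [Field k] {X : Scheme.{u}} [X.Over (Spec (.of k))]

/-- the algebra `L0 σ` is spanned by the monomials -/
private lemma CohPhi_span {σ : Finset Vr} (p : L0 k σ) :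
    p ∈ Submodule.span k {q : L0 k σ | ∃ (e : Ex) (hr : Reg σ e) (hd : degE e = 0),
      q = mon0 k e hr hd} := by
  classical
  have hp : ∀ e ∈ (p : Lau k).coeff.support, Reg σ e ∧ degE e = 0 := p.2
  have h1 : p = ∑ e : {e // e ∈ (p : Lau k).coeff.support},
      ((p : Lau k).coeff e.1) • mon0 k e.1 (hp e.1 e.2).1 (hp e.1 e.2).2 := by
    apply Subtype.ext
    have h2 : ((∑ e : {e // e ∈ (p : Lau k).coeff.support},
        ((p : Lau k).coeff e.1) • mon0 k e.1 (hp e.1 e.2).1 (hp e.1 e.2).2 : L0 k σ) : Lau k) =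
        ∑ e : {e // e ∈ (p : Lau k).coeff.support},
          AddMonoidAlgebra.single e.1 ((p : Lau k).coeff e.1) := by
      rw [AddSubmonoidClass.coe_finsetSum]
      refine Finset.sum_congr rfl fun e _ => ?_
      change ((p : Lau k).coeff e.1) • (AddMonoidAlgebra.single e.1 (1 : k) : Lau k) = _
      rw [AddMonoidAlgebra.smul_single, smul_eq_mul, mul_one]
    rw [h2]
    conv_lhs => rw [← AddMonoidAlgebra.sum_coeff_single (p : Lau k)]
    rw [Finsupp.sum]
    exact (Finset.sum_coe_sort (p : Lau k).coeff.support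
      (fun e => (AddMonoidAlgebra.single e ((p : Lau k).coeff e) : Lau k))).symm
  rw [h1]
  refine Submodule.sum_mem _ fun e _ => Submodule.smul_mem _ _ (Submodule.subset_span ?_)
  exact ⟨e.1, (hp e.1 e.2).1, (hp e.1 e.2).2, rfl⟩

namespace Charts

variable (C : Charts k X)

/-- For `F` in `X.Modules` and a chart `σ`: if `Γ(F, U σ)` is a finite module then `Φ(F)` is finitely generated on `σ`.

PROOF. Generators `t_i : Γ(F, U σ)`, placed at the objects `(σ,0)`. Let `x : Γ(F, U σ)` at `(σ,a)`: `x = ∑ r_i t_i`, `r_i = ev p_i` (`ev_surj`), `p_i` a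
linear combination of monomials `e` of degree `0`, and `mon e • t_i = (C.phiObj F).map (mul (e + un σ a) : (σ,0) ⟶ (σ,a)) t_i`
(`phiObj_map_toS`, `ce = 0 + (e + un σ a) - un σ a = e`). `Submodule.sum_mem`, `Submodule.smul_mem`. -/
theorem phi_isFG (F : X.Modules) (h : ∀ σ hσ, Module.Finite Γ(X, C.U σ hσ) Γ(F, C.U σ hσ)) :
    isFG k (C.phiObj F) := by
  intro σ hσ
  obtain ⟨n, s, hs⟩ := @Module.Finite.exists_fin _ _ _ _ _ (h σ hσ)
  refine ⟨n, fun _ => 0, fun i => toS.symm (s i), ?_⟩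
  intro a x
  set T : Submodule k ((C.phiObj F).obj (Ob.mk σ hσ a)) := Submodule.span k
    {y | ∃ (i : Fin n) (m : Ob.mk σ hσ 0 ⟶ Ob.mk σ hσ a),
      y = ((C.phiObj F).map m).hom (toS.symm (s i) : (C.phiObj F).obj (Ob.mk σ hσ 0))} with hT
  -- products of generators with functions
  have key : ∀ (i : Fin n) (p : L0 k σ),
      (toS.symm (C.ev σ hσ p • s i) : (C.phiObj F).obj (Ob.mk σ hσ a)) ∈ T := by
    intro i p
    refine Submodule.span_induction (p := fun p _ =>
      (toS.symm (C.ev σ hσ p • s i) : (C.phiObj F).obj (Ob.mk σ hσ a)) ∈ T)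
      ?_ ?_ ?_ ?_ (CohPhi_span p)
    · rintro _ ⟨e, hr, hd, rfl⟩
      apply Submodule.subset_span
      refine ⟨i, mul hσ (e + un σ a) (hr.add (reg_un hσ (Finset.Subset.refl σ) a)) (by
        rw [degE_add, hd, degE_un, zero_add, sub_zero]), ?_⟩
      apply toS.injective
      rw [phiObj_map_toS]
      have hce : ce (mul hσ (e + un σ a) (hr.add (reg_un hσ (Finset.Subset.refl σ) a)) (by
        rw [degE_add, hd, degE_un, zero_add, sub_zero]) : Ob.mk σ hσ 0 ⟶ Ob.mk σ hσ a) = e := by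
        unfold ce
        rw [mul_e]
        change un σ 0 + (e + un σ a) - un σ a = e
        rw [un_zero]; abel
      rw [C.mon_congr hσ hce]
      have h3 := rM_self F (C.anti hσ hσ (Finset.Subset.refl σ)) (s i)
      change C.ev σ hσ (mon0 k e hr hd) • s i = C.mon hσ e hr hd •
        rM F (C.anti hσ hσ (Finset.Subset.refl σ)) (s i)
      rw [h3]
      rfl
    · rw [map_zero, zero_smul, map_zero]
      exact Submodule.zero_mem _
    · intro p q _ _ hp hq
      rw [map_add, add_smul, map_add]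
      exact Submodule.add_mem _ hp hq
    · intro c p _ hp
      have h4 : (toS.symm (C.ev σ hσ (c • p) • s i) : (C.phiObj F).obj (Ob.mk σ hσ a)) =
          c • (toS.symm (C.ev σ hσ p • s i) : (C.phiObj F).obj (Ob.mk σ hσ a)) := by
        apply toS.injective
        change C.ev σ hσ (c • p) • s i = resTop (C.U σ hσ) (coefTop k X c) • (C.ev σ hσ p • s i)
        rw [← C.ev_coef, smul_smul, ← map_mul, Algebra.smul_def]
      rw [h4]
      exact Submodule.smul_mem _ _ hp
  have key2 : ∀ y : Γ(F, C.U σ hσ), (toS.symm y : (C.phiObj F).obj (Ob.mk σ hσ a)) ∈ T := by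
    intro y
    have hy : y ∈ Submodule.span Γ(X, C.U σ hσ) (Set.range s) := hs ▸ Submodule.mem_top
    obtain ⟨c, rfl⟩ := (Submodule.mem_span_range_iff_exists_fun _).1 hy
    rw [map_sum]
    refine Submodule.sum_mem _ fun i _ => ?_
    obtain ⟨p, hp⟩ := C.ev_surj σ hσ (c i)
    rw [← hp]
    exact key i p
  exact key2 (toS x)

/-- PROOF. `d : Fin n → Deg`, `g i` at `(σ, d i)`: as sections `g i : Γ(F, U σ)` they generate `Γ(F, U σ)`: take `a = 0` in the definition; every
`(C.phiObj F).map m (g i)` is a multiple `mon (ce m) • g i` (`phiObj_map_toS`, `rM_self`) and `k` acts through `Γ(X, U σ)` (`toS_smul`). -/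
theorem finite_of_isFG (F : X.Modules) (h : isFG k (C.phiObj F)) (σ : Finset Vr) (hσ : Full σ) :
    Module.Finite Γ(X, C.U σ hσ) Γ(F, C.U σ hσ) := by
  obtain ⟨n, d, g, hg⟩ := h σ hσ
  let s : Fin n → Γ(F, C.U σ hσ) := fun i => toS (F := F) (U := C.U σ hσ) (g i)
  have key : ∀ x : (C.phiObj F).obj (Ob.mk σ hσ 0),
      toS (F := F) (U := C.U σ hσ) x ∈ Submodule.span Γ(X, C.U σ hσ) (Set.range s) := by
    intro x
    refine Submodule.span_induction (p := fun x _ =>
      toS (F := F) (U := C.U σ hσ) x ∈ Submodule.span Γ(X, C.U σ hσ) (Set.range s))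
      ?_ ?_ ?_ ?_ (hg 0 x)
    · rintro _ ⟨i, m, rfl⟩
      have h1 := C.phiObj_map_toS F m (g i)
      have h3 := rM_self F (C.anti hσ hσ (Mor.le m)) (s i)
      change toS (F := F) (U := C.U σ hσ) (((C.phiObj F).map m).hom (g i)) =
        C.mon hσ (ce m) (ce_reg m) (ce_deg m) • rM F (C.anti hσ hσ (Mor.le m)) (s i) at h1
      rw [h1, h3]
      exact Submodule.smul_mem _ _ (Submodule.subset_span ⟨i, rfl⟩)
    · exact Submodule.zero_mem _
    · intro x y _ _ hx hy
      exact Submodule.add_mem _ hx hy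
    · intro c x _ hx
      exact Submodule.smul_mem _ (resTop (C.U σ hσ) (coefTop k X c)) hx
  refine ⟨Submodule.fg_def.2 ⟨Set.range s, Set.finite_range s, eq_top_iff.2 fun y _ => ?_⟩⟩
  exact key (toS.symm y : (C.phiObj F).obj (Ob.mk σ hσ 0))

/-- PROOF. `fin_of_cover` with the charts (`C.cover`, `C.affine`) and `finite_of_isFG`. -/
theorem coh_of_isFG (F : X.Modules) (hF : isQCoh X F) (h : isFG k (C.phiObj F)) : isCoh X F := by
  refine ⟨hF, fun U hU => fin_of_cover F hF (fun x => ?_) hU⟩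
  obtain ⟨σ, hσ, hx⟩ := C.cover x
  exact ⟨C.U σ hσ, hx, C.affine σ hσ, C.finite_of_isFG F h σ hσ⟩

end Charts

end BS
end

section

/-!
# Glueing morphisms of quasi-coherent sheaves from an affine cover
-/

set_option autoImplicit false

open CategoryTheory CategoryTheory.Limits AlgebraicGeometry TopologicalSpace

namespace BS

universe u

variable {X : Scheme.{u}}

/-- The data: an affine cover `U i`, `i : ι`, closed under intersection (`U (m i j) = U i ⊓ U j`), and linear maps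
`η i` on the sections over `U i`, compatible with the restrictions from `U i` and `U j` to `U (m i j)`. -/
structure GlueData (M N : X.Modules) where
  ι : Type
  U : ι → X.Opens
  aff : ∀ i, IsAffineOpen (U i)
  cov : ∀ x : X, ∃ i, x ∈ U i
  m : ι → ι → ι
  hm : ∀ i j, U (m i j) = U i ⊓ U j
  locM : ∀ i, Loc M (U i)
  locN : ∀ i, Loc N (U i)
  η : ∀ i, Γ(M, U i) →+ Γ(N, U i)
  smul : ∀ i (r : Γ(X, U i)) (x : Γ(M, U i)), η i (r • x) = r • η i x
  resl : ∀ i j (h : U (m i j) ≤ U i) (x : Γ(M, U i)), η (m i j) (rM M h x) = rM N h (η i x)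
  resr : ∀ i j (h : U (m i j) ≤ U j) (x : Γ(M, U j)), η (m i j) (rM M h x) = rM N h (η j x)

/-- `t` is the image of `s` under the glued morphism: whenever `D(g) ≤ V`, `g : Γ(X,U i)`, and
`g^n s|D(g) = x|D(g)` with `x : Γ(M,U i)`, then `g^n t|D(g) = η i x|D(g)`. -/
def GlueData.Rel {M N : X.Modules} (G : GlueData M N) {V : X.Opens} (s : Γ(M, V)) (t : Γ(N, V)) :
    Prop :=
  ∀ (i : G.ι) (g : Γ(X, G.U i)) (hg : X.basicOpen g ≤ V) (n : ℕ) (x : Γ(M, G.U i)),
    rM M (X.basicOpen_le g) x = rO X (X.basicOpen_le g) g ^ n • rM M hg s →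
    rM N (X.basicOpen_le g) (G.η i x) = rO X (X.basicOpen_le g) g ^ n • rM N hg t

variable {M N : X.Modules} (G : GlueData M N)

private lemma HomGlue_unit {U W : X.Opens} (g : Γ(X, U)) (hWU : W ≤ U)
    (hWD : W ≤ X.basicOpen g) : IsUnit (rO X hWU g) := by
  have hu : IsUnit (rO X (X.basicOpen_le g) g) := RingedSpace.isUnit_res_basicOpen _ g
  have h1 := hu.map (rO X hWD)
  rwa [rO_rO] at h1

/-- Independence: if `x`, `y` are sections over `U i`, `U j` with `h^m x|W = g^n y|W` on `W := D(g) ⊓ D(h)`,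
`g : Γ(X,U i)`, `h : Γ(X,U j)`, then `h^m η(x)|W = g^n η(y)|W`. (All functions restricted to `W`.)

PROOF. Let `l := m i j`, `g' := g|U l`, `h' := h|U l`, so `D(g' h') = W` (`Scheme.basicOpen_mul`,
`Scheme.basicOpen_res`, `hm`). Let `z := h'^m x|U l - g'^n y|U l : Γ(M,U l)`. `z` restricts to `0` on `W`, so
`(g' h')^N z = 0` by `locM l`. Apply `η l` (`smul`, `resl`, `resr`): `(g' h')^N (h'^m η(x)| - g'^n η(y)|) = 0` on `U l`; restrict
to `W` and cancel the unit (`pow_smul_inj` for `g' h'`). -/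
theorem GlueData.indep (i j : G.ι) (g : Γ(X, G.U i)) (h : Γ(X, G.U j)) (n m : ℕ)
    (x : Γ(M, G.U i)) (y : Γ(M, G.U j)) {W : X.Opens} (hW : W = X.basicOpen g ⊓ X.basicOpen h)
    (hi : W ≤ G.U i) (hj : W ≤ G.U j)
    (e : rO X hj h ^ m • rM M hi x = rO X hi g ^ n • rM M hj y) :
    rO X hj h ^ m • rM N hi (G.η i x) = rO X hi g ^ n • rM N hj (G.η j y) := by
  subst hW
  have hl := G.hm i j
  have hli : G.U (G.m i j) ≤ G.U i := hl.le.trans inf_le_left
  have hlj : G.U (G.m i j) ≤ G.U j := hl.le.trans inf_le_right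
  obtain ⟨g', hg'⟩ : ∃ g', g' = rO X hli g := ⟨_, rfl⟩
  obtain ⟨h', hh'⟩ : ∃ h', h' = rO X hlj h := ⟨_, rfl⟩
  have hD : X.basicOpen (g' * h') = X.basicOpen g ⊓ X.basicOpen h := by
    have e1 : X.basicOpen g' = G.U (G.m i j) ⊓ X.basicOpen g := by
      rw [hg']
      exact X.basicOpen_res g (homOfLE hli).op
    have e2 : X.basicOpen h' = G.U (G.m i j) ⊓ X.basicOpen h := by
      rw [hh']
      exact X.basicOpen_res h (homOfLE hlj).op
    rw [Scheme.basicOpen_mul, e1, e2, hl]
    apply le_antisymm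
    · exact le_inf (inf_le_left.trans inf_le_right) (inf_le_right.trans inf_le_right)
    · refine le_inf (le_inf (le_inf hi hj) inf_le_left) (le_inf (le_inf hi hj) inf_le_right)
  have hle : X.basicOpen (g' * h') ≤ X.basicOpen g ⊓ X.basicOpen h := hD.le
  have eg : ∀ {W' : X.Opens} (a : W' ≤ G.U (G.m i j)) (b : W' ≤ G.U i),
      rO X a g' = rO X b g := fun a b => by rw [hg', rO_rO]
  have eh : ∀ {W' : X.Opens} (a : W' ≤ G.U (G.m i j)) (b : W' ≤ G.U j),
      rO X a h' = rO X b h := fun a b => by rw [hh', rO_rO]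
  obtain ⟨z, hz⟩ : ∃ z, z = h' ^ m • rM M hli x - g' ^ n • rM M hlj y := ⟨_, rfl⟩
  have hz0 : rM M (X.basicOpen_le (g' * h')) z = 0 := by
    have e1 := congrArg (rM M hle) e
    rw [rM_smul, rM_smul, map_pow, map_pow, rO_rO, rO_rO, rM_rM, rM_rM] at e1
    rw [hz, map_sub, rM_smul, rM_smul, map_pow, map_pow, rM_rM, rM_rM, eg _ (hle.trans hi),
      eh _ (hle.trans hj)]
    exact sub_eq_zero.2 e1
  obtain ⟨k, hk⟩ := (G.locM (G.m i j) (g' * h')).2 z hz0
  have e2 : (g' * h') ^ k • (h' ^ m • rM N hli (G.η i x) - g' ^ n • rM N hlj (G.η j y)) = 0 := by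
    have e3 := congrArg (G.η (G.m i j)) hk
    rw [G.smul, map_zero, hz, map_sub, G.smul, G.smul, G.resl i j hli, G.resr i j hlj] at e3
    exact e3
  have e4 := congrArg (rM N (X.basicOpen_le (g' * h'))) e2
  rw [rM_smul, map_pow, map_zero] at e4
  have e5 := pow_smul_inj (g' * h') k (e4.trans (smul_zero _).symm)
  rw [map_sub, sub_eq_zero, rM_smul, rM_smul, map_pow, map_pow, rM_rM, rM_rM] at e5
  have e6 := congrArg (rM N hD.ge) e5
  rw [rM_smul, rM_smul, map_pow, map_pow, rM_rM, rM_rM, rO_rO, rO_rO, eg _ hi,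
    eh _ hj] at e6
  exact e6

/-- PROOF. Let `t - t'`: at `x ∈ V` choose `i` with `x ∈ U i`; `exists_frac` for `s|(V ⊓ U i)` gives `g, n, x`; then
`g^n t| = η x| = g^n t'|` on `D(g)`; cancel (`pow_smul_inj`); `sec_ext`. -/
theorem GlueData.rel_unique {V : X.Opens} {s : Γ(M, V)} {t t' : Γ(N, V)} (h : G.Rel s t)
    (h' : G.Rel s t') : t = t' := by
  refine sec_ext N fun p hp => ?_
  obtain ⟨i, hpi⟩ := G.cov p
  obtain ⟨g, hpg, hg, n, x, hx⟩ := exists_frac (G.aff i) (G.locM i) (V := V ⊓ G.U i)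
    inf_le_right (rM M inf_le_left s) p ⟨hp, hpi⟩
  rw [rM_rM] at hx
  have h1 := h i g (hg.trans inf_le_left) n x hx
  have h2 := h' i g (hg.trans inf_le_left) n x hx
  exact ⟨X.basicOpen g, hpg, hg.trans inf_le_left, pow_smul_inj g n (h1.symm.trans h2)⟩

/-- PROOF. For every `x ∈ V` choose `i_x`, `g_x : Γ(X,U i_x)` with `x ∈ D(g_x) ≤ V`, `n_x`, `y_x : Γ(M, U i_x)` with
`y_x| = g_x^n_x s|` (`exists_frac` for `V ⊓ U i_x`). Put `t_x := (g_x^n_x)^{-1} η(y_x)| : Γ(N, D(g_x))` (`g_x` is a unit on `D(g_x)`). The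
`t_x` agree on `D(g_x) ⊓ D(g_x')`: by `indep` `g_x'^n' η(y_x) = g_x^n η(y_x')` there (as `g_x'^n' y_x = g_x'^n' g_x^n s = g_x^n y_x'`).
Glue them (`sec_glue`, index type `V` as a subtype of `X`) to `t`. `Rel s t`: for `i, g, n, y` as in the definition, check the equation
on the cover `D(g) ⊓ D(g_x)` of `D(g)` (`sec_ext`): again by `indep`. -/
theorem GlueData.rel_exists {V : X.Opens} (s : Γ(M, V)) : ∃ t : Γ(N, V), G.Rel s t := by
  have H : ∀ p : V, ∃ (i : G.ι) (g : Γ(X, G.U i)) (_ : p.1 ∈ X.basicOpen g)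
      (hg : X.basicOpen g ≤ V) (n : ℕ) (y : Γ(M, G.U i)),
      rM M (X.basicOpen_le g) y = rO X (X.basicOpen_le g) g ^ n • rM M hg s := by
    intro p
    obtain ⟨i, hpi⟩ := G.cov p.1
    obtain ⟨g, hpg, hg, n, x, hx⟩ := exists_frac (G.aff i) (G.locM i) (V := V ⊓ G.U i)
      inf_le_right (rM M inf_le_left s) p.1 ⟨p.2, hpi⟩
    rw [rM_rM] at hx
    exact ⟨i, g, hpg, hg.trans inf_le_left, n, x, hx⟩
  choose i g hp hg n y hy using H
  have Ht : ∀ p : V, ∃ t : Γ(N, X.basicOpen (g p)),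
      rO X (X.basicOpen_le (g p)) (g p) ^ n p • t =
        rM N (X.basicOpen_le (g p)) (G.η (i p) (y p)) := by
    intro p
    have hu : IsUnit (rO X (X.basicOpen_le (g p)) (g p) ^ n p) :=
      (HomGlue_unit (g p) (X.basicOpen_le (g p)) le_rfl).pow _
    obtain ⟨u, hu⟩ := hu
    refine ⟨(u⁻¹).1 • rM N (X.basicOpen_le (g p)) (G.η (i p) (y p)), ?_⟩
    rw [← hu, smul_smul, Units.mul_inv, one_smul]
  choose t ht using Ht
  have hcomp : ∀ p q : V, rM N (inf_le_left : X.basicOpen (g p) ⊓ X.basicOpen (g q) ≤ _) (t p) =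
      rM N (inf_le_right : X.basicOpen (g p) ⊓ X.basicOpen (g q) ≤ _) (t q) := by
    intro p q
    have hi : X.basicOpen (g p) ⊓ X.basicOpen (g q) ≤ G.U (i p) :=
      inf_le_left.trans (X.basicOpen_le _)
    have hj : X.basicOpen (g p) ⊓ X.basicOpen (g q) ≤ G.U (i q) :=
      inf_le_right.trans (X.basicOpen_le _)
    have hup := (HomGlue_unit (g p) hi inf_le_left).pow (n p)
    have huq := (HomGlue_unit (g q) hj inf_le_right).pow (n q)
    have hyp := congrArg (rM M (inf_le_left : X.basicOpen (g p) ⊓ X.basicOpen (g q) ≤ _)) (hy p)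
    have hyq := congrArg (rM M (inf_le_right : X.basicOpen (g p) ⊓ X.basicOpen (g q) ≤ _)) (hy q)
    rw [rM_smul, map_pow, rO_rO, rM_rM, rM_rM] at hyp hyq
    have htp := congrArg (rM N (inf_le_left : X.basicOpen (g p) ⊓ X.basicOpen (g q) ≤ _)) (ht p)
    have htq := congrArg (rM N (inf_le_right : X.basicOpen (g p) ⊓ X.basicOpen (g q) ≤ _)) (ht q)
    rw [rM_smul, map_pow, rO_rO, rM_rM] at htp htq
    have h1 := G.indep (i p) (i q) (g p) (g q) (n p) (n q) (y p) (y q) rfl hi hj (by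
      rw [hyp, hyq, smul_smul, smul_smul, mul_comm])
    rw [← htp, ← htq, smul_smul, smul_smul, mul_comm] at h1
    exact (hup.mul huq).smul_left_cancel.1 h1
  obtain ⟨T, hT⟩ := sec_glue N (fun p : V => X.basicOpen (g p)) V hg
    (fun x hx => Opens.mem_iSup.2 ⟨⟨x, hx⟩, hp ⟨x, hx⟩⟩) t hcomp
  refine ⟨T, ?_⟩
  intro j h hh k z hz
  refine sec_ext N fun x hx => ?_
  obtain ⟨p, hpx⟩ : ∃ p : V, p.1 = x := ⟨⟨x, hh hx⟩, rfl⟩
  refine ⟨X.basicOpen h ⊓ X.basicOpen (g p), ⟨hx, hpx ▸ hp p⟩, inf_le_left, ?_⟩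
  have hi : X.basicOpen h ⊓ X.basicOpen (g p) ≤ G.U j := inf_le_left.trans (X.basicOpen_le _)
  have hj : X.basicOpen h ⊓ X.basicOpen (g p) ≤ G.U (i p) := inf_le_right.trans (X.basicOpen_le _)
  have hup := (HomGlue_unit (g p) hj inf_le_right).pow (n p)
  have hyp := congrArg (rM M (inf_le_right : X.basicOpen h ⊓ X.basicOpen (g p) ≤ _)) (hy p)
  have hzp := congrArg (rM M (inf_le_left : X.basicOpen h ⊓ X.basicOpen (g p) ≤ _)) hz
  rw [rM_smul, map_pow, rO_rO, rM_rM, rM_rM] at hyp hzp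
  have htp := congrArg (rM N (inf_le_right : X.basicOpen h ⊓ X.basicOpen (g p) ≤ _)) (ht p)
  rw [rM_smul, map_pow, rO_rO, rM_rM, ← hT p, rM_rM] at htp
  have h1 := G.indep j (i p) h (g p) k (n p) z (y p) rfl hi hj (by
    rw [hyp, hzp, smul_smul, smul_smul, mul_comm])
  rw [← htp, smul_smul, mul_comm, ← smul_smul] at h1
  have h2 := hup.smul_left_cancel.1 h1
  rw [rM_rM, rM_smul, map_pow, rO_rO, rM_rM]
  exact h2

end BS
end

section

/-!
# Glueing morphisms of quasi-coherent sheaves from an affine cover: the result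
-/

set_option autoImplicit false

open CategoryTheory CategoryTheory.Limits AlgebraicGeometry TopologicalSpace

namespace BS

universe u

variable {X : Scheme.{u}} {M N : X.Modules} (G : GlueData M N)

/-- Sections over `U i` which agree on `D(g)` have images which agree on `D(g)`. -/
theorem HomGlue2_zero (i : G.ι) (g : Γ(X, G.U i)) (w : Γ(M, G.U i))
    (h : rM M (X.basicOpen_le g) w = 0) : rM N (X.basicOpen_le g) (G.η i w) = 0 := by
  obtain ⟨q, hq⟩ := (G.locM i g).2 w h
  have h1 : g ^ q • G.η i w = 0 := by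
    rw [← G.smul, hq, map_zero]
  have h2 : rO X (X.basicOpen_le g) g ^ q • rM N (X.basicOpen_le g) (G.η i w) =
      rO X (X.basicOpen_le g) g ^ q • (0 : Γ(N, X.basicOpen g)) := by
    rw [smul_zero, ← map_pow, ← rM_smul, h1, map_zero]
  exact pow_smul_inj g q h2

theorem HomGlue2_eq (i : G.ι) (g : Γ(X, G.U i)) (w w' : Γ(M, G.U i))
    (h : rM M (X.basicOpen_le g) w = rM M (X.basicOpen_le g) w') :
    rM N (X.basicOpen_le g) (G.η i w) = rM N (X.basicOpen_le g) (G.η i w') := by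
  have h1 := HomGlue2_zero G i g (w - w') (by rw [map_sub, h, sub_self])
  rw [map_sub, map_sub] at h1
  exact sub_eq_zero.1 h1

/-- PROOF. For all `i, g, n, x` for `s` and `y` for `s'` with exponent `n'`: given `i, g, n, z` with `z| = g^n (s + s')|`. By `Loc`
(`locM i`) there are `p` and `x, y : Γ(M,U i)` with `x| = g^p s|`, `y| = g^p s'|` (take the larger exponent), so `η x| = g^p t|`,
`η y| = g^p t'|`. `g^n (x + y)| = g^p z|` on `D(g)`, so `g^q (g^n (x + y) - g^p z) = 0` on `U i`, apply `η i` and cancel. -/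
theorem GlueData.rel_add {V : X.Opens} {s s' : Γ(M, V)} {t t' : Γ(N, V)} (h : G.Rel s t)
    (h' : G.Rel s' t') : G.Rel (s + s') (t + t') := by
  intro i g hg n z hz
  obtain ⟨p, x, hx⟩ := (G.locM i g).1 (rM M hg s)
  obtain ⟨p', y, hy⟩ := (G.locM i g).1 (rM M hg s')
  have hx' := h i g hg p x hx
  have hy' := h' i g hg p' y hy
  obtain ⟨γ, hγ⟩ : ∃ γ, γ = rO X (X.basicOpen_le g) g := ⟨_, rfl⟩
  have h1 : rM M (X.basicOpen_le g) (g ^ (n + p') • x + g ^ (n + p) • y) =
      rM M (X.basicOpen_le g) (g ^ (p + p') • z) := by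
    rw [map_add, rM_smul, rM_smul, rM_smul, map_pow, map_pow, map_pow, hx, hy, hz, ← hγ, map_add,
      smul_smul, smul_smul, smul_smul, ← pow_add, ← pow_add, ← pow_add, smul_add]
    congr 3
    · ring
    · ring
  have h2 := HomGlue2_eq G i g _ _ h1
  rw [map_add, G.smul, G.smul, G.smul, map_add, rM_smul, rM_smul, rM_smul, map_pow, map_pow,
    map_pow, hx', hy', ← hγ, smul_smul, smul_smul, ← pow_add, ← pow_add] at h2
  rw [← hγ]
  refine pow_smul_inj g (p + p') ?_
  rw [← hγ, ← h2, map_add, smul_smul, ← pow_add, smul_add]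
  congr 3
  · ring
  · ring

/-- `r • s` for `r : Γ(X,V)`. PROOF. Given `i, g, n, z` with `z| = g^n r s|` on `D(g)`. `r|D(g)` is a fraction: `g^p r| = a|` with
`a : Γ(X,U i)` (`IsAffineOpen.isLocalization_basicOpen`, `IsLocalization.Away.surj`), and `x| = g^q s|` with `x : Γ(M,U i)`,
so `η x| = g^q t|`. Then `g^n a x| = g^(p+q) z|` on `D(g)`, so `g^l (g^n a x - g^(p+q) z) = 0` on `U i` (`locM i`); apply `η i` and cancel:
`η z| = g^n r t|`. -/
theorem GlueData.rel_smul {V : X.Opens} {s : Γ(M, V)} {t : Γ(N, V)} (h : G.Rel s t) (r : Γ(X, V)) :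
    G.Rel (r • s) (r • t) := by
  intro i g hg n z hz
  obtain ⟨q, x, hx⟩ := (G.locM i g).1 (rM M hg s)
  have hx' := h i g hg q x hx
  obtain ⟨p, a, ha⟩ : ∃ (p : ℕ) (a : Γ(X, G.U i)),
      rO X hg r * rO X (X.basicOpen_le g) g ^ p = rO X (X.basicOpen_le g) a := by
    have hloc := (G.aff i).isLocalization_basicOpen g
    obtain ⟨p, a, ha⟩ := IsLocalization.Away.surj g (rO X hg r)
    exact ⟨p, a, ha⟩
  obtain ⟨γ, hγ⟩ : ∃ γ, γ = rO X (X.basicOpen_le g) g := ⟨_, rfl⟩
  obtain ⟨ρ, hρ⟩ : ∃ ρ, ρ = rO X hg r := ⟨_, rfl⟩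
  rw [← hγ, ← hρ] at ha
  have h1 : rM M (X.basicOpen_le g) (g ^ n • (a • x)) =
      rM M (X.basicOpen_le g) (g ^ (p + q) • z) := by
    rw [rM_smul, rM_smul, rM_smul, map_pow, map_pow, hx, hz, ← hγ, ← ha, rM_smul, ← hρ,
      smul_smul, smul_smul, smul_smul, smul_smul]
    congr 1
    ring
  have h2 := HomGlue2_eq G i g _ _ h1
  rw [G.smul, G.smul, G.smul, rM_smul, rM_smul, rM_smul, map_pow, map_pow, hx', ← hγ, ← ha,
    smul_smul, smul_smul] at h2
  rw [← hγ, rM_smul, ← hρ]
  refine pow_smul_inj g (p + q) ?_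
  rw [← hγ, ← h2, smul_smul, smul_smul]
  congr 1
  ring

/-- PROOF. Immediate from the definition (`D(g) ≤ W ≤ V`, `rM_rM`). -/
theorem GlueData.rel_res {V W : X.Opens} (hW : W ≤ V) {s : Γ(M, V)} {t : Γ(N, V)} (h : G.Rel s t) :
    G.Rel (rM M hW s) (rM N hW t) := by
  intro i g hg n x hx
  rw [rM_rM] at hx ⊢
  exact h i g (hg.trans hW) n x hx

/-- PROOF. Given `j, g, n, y` with `y| = g^n x|D(g)`, `D(g) ≤ U i`, `g : Γ(X,U j)`: `indep` with `h := 1 : Γ(X,U i)` (`D(1) = U i`). -/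
theorem GlueData.rel_eta (i : G.ι) (x : Γ(M, G.U i)) : G.Rel x (G.η i x) := by
  intro j g hg n y hy
  have hW : X.basicOpen g = X.basicOpen (1 : Γ(X, G.U i)) ⊓ X.basicOpen g := by
    rw [X.basicOpen_of_isUnit isUnit_one]
    exact (inf_eq_right.2 hg).symm
  have h1 := G.indep i j 1 g 0 n x y hW hg (X.basicOpen_le g) (by
    rw [pow_zero, one_smul]
    exact hy.symm)
  rw [pow_zero, one_smul] at h1
  exact h1.symm

/-- The glued morphism. PROOF. `mkHom` with the unique `t` such that `Rel s t` (`rel_exists`, `rel_unique`; additivity,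
linearity, compatibility with restrictions by uniqueness from `rel_add`, `rel_smul`, `rel_res`); `rel_eta`. -/
theorem hom_glue : ∃ φ : M ⟶ N, ∀ i x, ap φ (G.U i) x = G.η i x := by
  have hex : ∀ (U : X.Opens) (x : Γ(M, U)), ∃ t : Γ(N, U), G.Rel x t := fun U x => G.rel_exists x
  choose f hf using hex
  refine ⟨mkHom (fun U => AddMonoidHom.mk' (f U) fun x y =>
      G.rel_unique (hf U (x + y)) (G.rel_add (hf U x) (hf U y)))
    (fun U r x => G.rel_unique (hf U (r • x)) (G.rel_smul (hf U x) r))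
    (fun U V h x => G.rel_unique (hf V (rM M h x)) (G.rel_res h (hf U x))), fun i x => ?_⟩
  rw [ap_mkHom]
  exact G.rel_unique (hf (G.U i) x) (G.rel_eta i x)

end BS
end

section

/-!
# The functor `Φ` is fully faithful on quasi-coherent sheaves
-/

set_option autoImplicit false

open CategoryTheory CategoryTheory.Limits AlgebraicGeometry TopologicalSpace

namespace BS

open MPbd3808.BR

universe u

variable {k : Type u} [Field k] {X : Scheme.{u}} [X.Over (Spec (.of k))]

/-- an element of `L0 k σ` is the sum of its terms -/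
private lemma L0_sum {σ : Finset Vr} (p : L0 k σ) :
    p = ∑ e ∈ p.1.coeff.support.attach, algebraMap k (L0 k σ) (p.1.coeff e.1) *
      mon0 k e.1 ((mem_L0 k).1 p.2 e.1 e.2).1 ((mem_L0 k).1 p.2 e.1 e.2).2 := by
  apply Subtype.ext
  rw [AddSubmonoidClass.coe_finsetSum]
  have h : ∀ e : p.1.coeff.support, ((algebraMap k (L0 k σ) (p.1.coeff e.1) *
      mon0 k e.1 ((mem_L0 k).1 p.2 e.1 e.2).1 ((mem_L0 k).1 p.2 e.1 e.2).2 : L0 k σ) : Lau k) =
      mono k e.1 (p.1.coeff e.1) := by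
    intro e
    change (AddMonoidAlgebra.single (0 : Ex) (p.1.coeff e.1) * mono k e.1 1 : Lau k) = _
    rw [AddMonoidAlgebra.single_mul_single, zero_add, mul_one]
  rw [Finset.sum_congr rfl (fun e _ => h e),
    Finset.sum_attach p.1.coeff.support (fun e => mono k e (p.1.coeff e))]
  exact (AddMonoidAlgebra.sum_coeff_single p.1).symm

namespace Charts

variable (C : Charts k X)

/-- PROOF. `hom_uniq` with the charts (`C.cover`, `C.affine`); the hypothesis at the object `(σ,0)`. -/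
theorem phi_faithful {F G : X.Modules} (hF : ∀ σ hσ, Loc F (C.U σ hσ)) {φ ψ : F ⟶ G}
    (h : C.phiMap φ = C.phiMap ψ) : φ = ψ := by
  refine hom_uniq fun x => ?_
  obtain ⟨σ, hσ, hx⟩ := C.cover x
  refine ⟨C.U σ hσ, hx, C.affine σ hσ, hF σ hσ, fun s => ?_⟩
  have h1 := congrArg (fun η : C.phiObj F ⟶ C.phiObj G =>
    toS (F := G) (U := C.U σ hσ) ((η.app (Ob.mk σ hσ 0)).hom (toS.symm s))) h
  exact h1

/-- a natural transformation on the sections over a chart -/
private noncomputable def etaS {F G : X.Modules} (η : C.phiObj F ⟶ C.phiObj G) (σ : Finset Vr)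
    (hσ : Full σ) : Γ(F, C.U σ hσ) →+ Γ(G, C.U σ hσ) :=
  { toFun := fun x => toS (F := G) (U := C.U σ hσ) ((η.app (Ob.mk σ hσ 0)).hom (toS.symm x))
    map_zero' := by
      rw [map_zero]
      exact congrArg _ ((η.app (Ob.mk σ hσ 0)).hom.map_zero)
    map_add' := fun x y => by
      rw [map_add]
      exact congrArg _ ((η.app (Ob.mk σ hσ 0)).hom.map_add _ _) }

private lemma etaS_apply {F G : X.Modules} (η : C.phiObj F ⟶ C.phiObj G) (σ : Finset Vr)
    (hσ : Full σ) (x : Γ(F, C.U σ hσ)) : C.etaS η σ hσ x =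
      toS (F := G) (U := C.U σ hσ) ((η.app (Ob.mk σ hσ 0)).hom (toS.symm x)) := rfl

private lemma etaS_coef {F G : X.Modules} (η : C.phiObj F ⟶ C.phiObj G) (σ : Finset Vr)
    (hσ : Full σ) (c : k) (x : Γ(F, C.U σ hσ)) :
    C.etaS η σ hσ (C.ev σ hσ (algebraMap k (L0 k σ) c) • x) =
      C.ev σ hσ (algebraMap k (L0 k σ) c) • C.etaS η σ hσ x := by
  rw [C.ev_coef σ hσ c]
  have h := (η.app (Ob.mk σ hσ 0)).hom.map_smul c (toS.symm x)
  exact congrArg (toS (F := G) (U := C.U σ hσ)) h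

private lemma etaS_mon {F G : X.Modules} (η : C.phiObj F ⟶ C.phiObj G) (σ : Finset Vr)
    (hσ : Full σ) (e : Ex) (hr : Reg σ e) (hd : degE e = 0) (x : Γ(F, C.U σ hσ)) :
    C.etaS η σ hσ (C.mon hσ e hr hd • x) = C.mon hσ e hr hd • C.etaS η σ hσ x := by
  let m : Ob.mk σ hσ 0 ⟶ Ob.mk σ hσ 0 := mul hσ e hr (by rw [hd, sub_zero])
  have hce : ce m = e := by
    change un σ 0 + e - un σ 0 = e
    abel
  have hmap : ∀ (H : X.Modules) (y : Γ(H, C.U σ hσ)),
      ((C.phiObj H).map m).hom (toS.symm y) = toS.symm (C.mon hσ e hr hd • y) := by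
    intro H y
    apply (toS (k := k) (F := H) (U := C.U σ hσ)).injective
    rw [C.phiObj_map_toS H m, C.mon_congr hσ hce]
    change C.mon hσ e hr hd • rM H _ y = C.mon hσ e hr hd • y
    rw [rM_self]
  have h1 := congr($(η.naturality m).hom (toS.symm x))
  have h2 : (η.app (Ob.mk σ hσ 0)).hom (((C.phiObj F).map m).hom (toS.symm x)) =
    ((C.phiObj G).map m).hom ((η.app (Ob.mk σ hσ 0)).hom (toS.symm x)) := h1
  rw [hmap F x] at h2
  have h3 := hmap G (C.etaS η σ hσ x)
  have h4 := h2.trans h3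
  exact congrArg (toS (F := G) (U := C.U σ hσ)) h4

/-- A natural transformation `η : Φ F ⟶ Φ G` is linear over the functions on the charts.

PROOF. Every function on `U σ` is `C.ev σ hσ p` (`ev_surj`), `p` is a linear combination of monomials `mon0 e` of degree
`0` (write `p` as the sum over its support; induct with `Submodule.span` if convenient); for the constants use the
`k`-linearity of `η.app` and `ev_coef`, for a monomial `e` the naturality of `η` for the morphism `mul hσ e : (σ,0) ⟶ (σ,0)`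
(`phiObj_map_toS`, `ce = e` as `un σ 0 = 0`). -/
theorem eta_smul {F G : X.Modules} (η : C.phiObj F ⟶ C.phiObj G) (σ : Finset Vr) (hσ : Full σ)
    (r : Γ(X, C.U σ hσ)) (x : Γ(F, C.U σ hσ)) :
    toS (F := G) (U := C.U σ hσ) ((η.app (Ob.mk σ hσ 0)).hom (toS.symm (r • x))) =
      r • toS (F := G) (U := C.U σ hσ) ((η.app (Ob.mk σ hσ 0)).hom (toS.symm x)) := by
  rw [← C.etaS_apply, ← C.etaS_apply]
  obtain ⟨p, rfl⟩ := C.ev_surj σ hσ r
  rw [L0_sum p, map_sum, Finset.sum_smul, Finset.sum_smul, map_sum]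
  refine Finset.sum_congr rfl fun e _ => ?_
  rw [map_mul, mul_smul, mul_smul, C.etaS_coef η σ hσ]
  congr 1
  exact C.etaS_mon η σ hσ e.1 _ _ x

private lemma etaS_res {F G : X.Modules} (η : C.phiObj F ⟶ C.phiObj G) {σ τ : Finset Vr}
    (hσ : Full σ) (hτ : Full τ) (h : σ ⊆ τ) (hU : C.U τ hτ ≤ C.U σ hσ) (x : Γ(F, C.U σ hσ)) :
    C.etaS η τ hτ (rM F hU x) = rM G hU (C.etaS η σ hσ x) := by
  let m : Ob.mk σ hσ 0 ⟶ Ob.mk τ hτ 0 := res hσ hτ h 0
  have hce : ce m = 0 := by
    change un σ 0 + 0 - un τ 0 = 0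
    rw [un_zero, un_zero]
    abel
  have hmap : ∀ (H : X.Modules) (y : Γ(H, C.U σ hσ)),
      ((C.phiObj H).map m).hom (toS.symm y) = toS.symm (rM H hU y) := by
    intro H y
    apply (toS (k := k) (F := H) (U := C.U τ hτ)).injective
    rw [C.phiObj_map_toS H m, C.mon_congr hτ hce, C.mon_zero, one_smul]
    rfl
  have h1 := congr($(η.naturality m).hom (toS.symm x))
  have h2 : (η.app (Ob.mk τ hτ 0)).hom (((C.phiObj F).map m).hom (toS.symm x)) =
    ((C.phiObj G).map m).hom ((η.app (Ob.mk σ hσ 0)).hom (toS.symm x)) := h1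
  rw [hmap F x] at h2
  have h3 := hmap G (C.etaS η σ hσ x)
  have h4 := h2.trans h3
  exact congrArg (toS (F := G) (U := C.U τ hτ)) h4

/-- PROOF. `hom_glue` for the `GlueData` with `ι := {σ : Finset Vr // Full σ}`, `U := C.U`, `m := ∪`, `hm := C.inf`,
`η σ := toS ∘ (η.app (σ,0)).hom ∘ toS.symm`; linearity is `eta_smul`; compatibility with restrictions is naturality of `η` for
`res : (σ,0) ⟶ (σ ∪ τ,0)` (`ce (res ..) = 0`, `mon_zero`; for the second factor `τ ⊆ σ ∪ τ` in the same way). This gives `φ` with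
`C.phiMap φ = η` at the objects `(σ,0)`. At `(σ,a)`: naturality of both sides for `mul hσ (un σ a) : (σ,0) ⟶ (σ,a)`, for which
`ce = 0`, so that `(C.phiObj F).map _` is the identity of `Γ(F, U σ)`. -/
theorem phi_full {F G : X.Modules} (hF : ∀ σ hσ, Loc F (C.U σ hσ)) (hG : ∀ σ hσ, Loc G (C.U σ hσ))
    (η : C.phiObj F ⟶ C.phiObj G) : ∃ φ : F ⟶ G, C.phiMap φ = η := by
  let D : GlueData F G :=
    { ι := {σ : Finset Vr // Full σ}
      U := fun i => C.U i.1 i.2
      aff := fun i => C.affine i.1 i.2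
      cov := fun x => by
        obtain ⟨σ, hσ, hx⟩ := C.cover x
        exact ⟨⟨σ, hσ⟩, hx⟩
      m := fun i j => ⟨i.1 ∪ j.1, i.2.mono Finset.subset_union_left⟩
      hm := fun i j => C.inf i.1 j.1 i.2 j.2
      locM := fun i => hF i.1 i.2
      locN := fun i => hG i.1 i.2
      η := fun i => C.etaS η i.1 i.2
      smul := fun i r x => C.eta_smul η i.1 i.2 r x
      resl := fun i j h x => C.etaS_res η i.2 (i.2.mono Finset.subset_union_left)
        Finset.subset_union_left h x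
      resr := fun i j h x => C.etaS_res η j.2 (i.2.mono Finset.subset_union_left)
        Finset.subset_union_right h x }
  obtain ⟨φ, hφ⟩ := hom_glue D
  refine ⟨φ, ?_⟩
  ext A x
  obtain ⟨σ, hσ, a⟩ := A
  have hx : ap φ (C.U σ hσ) (toS x) = C.etaS η σ hσ (toS x) := hφ ⟨σ, hσ⟩ (toS x)
  apply (toS (k := k) (F := G) (U := C.U σ hσ)).injective
  refine hx.trans ?_
  let m : Ob.mk σ hσ 0 ⟶ Ob.mk σ hσ a :=
    mul hσ (un σ a) (reg_un hσ (Finset.Subset.refl σ) a) (by rw [degE_un, sub_zero])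
  have hce : ce m = 0 := by
    change un σ 0 + un σ a - un σ a = 0
    rw [un_zero]
    abel
  have hmap : ∀ (H : X.Modules) (y : Γ(H, C.U σ hσ)),
      ((C.phiObj H).map m).hom (toS.symm y) = toS.symm y := by
    intro H y
    apply (toS (k := k) (F := H) (U := C.U σ hσ)).injective
    rw [C.phiObj_map_toS H m, C.mon_congr hσ hce, C.mon_zero, one_smul]
    exact rM_self H _ y
  have h1 := congr($(η.naturality m).hom (toS.symm (toS (k := k) (F := F) (U := C.U σ hσ) x)))
  have h2 : (η.app (Ob.mk σ hσ a)).hom (((C.phiObj F).map m).hom (toS.symm (toS x))) =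
    ((C.phiObj G).map m).hom ((η.app (Ob.mk σ hσ 0)).hom (toS.symm (toS x))) := h1
  rw [hmap F (toS x)] at h2
  have h3 := hmap G (C.etaS η σ hσ (toS x))
  have h4 := h2.trans h3
  exact (congrArg (toS (F := G) (U := C.U σ hσ)) h4).symm

end Charts

end BS
end

section

/-!
# The modules over the rings of functions of the charts given by an object of the model
-/

set_option autoImplicit false

open CategoryTheory CategoryTheory.Limits AlgebraicGeometry TopologicalSpace

namespace BS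

open MPbd3808.BR

universe u

variable {k : Type u} [Field k] {X : Scheme.{u}} [X.Over (Spec (.of k))]

/-- exponents of degree `0`, regular on `σ` -/
def S0 (σ : Finset Vr) : AddSubmonoid Ex where
  carrier := {e | Reg σ e ∧ degE e = 0}
  zero_mem' := ⟨Reg.zero, degE_zero⟩
  add_mem' := fun ha hb => ⟨ha.1.add hb.1, by rw [degE_add, ha.2, hb.2, add_zero]⟩

private lemma LD_induction {σ : Finset Vr} {a : Deg} {P : Lau k → Prop} (h0 : P 0)
    (hadd : ∀ p q, P p → P q → P (p + q))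
    (hm : ∀ (e : Ex) (c : k), Reg σ e → degE e = a → P (mono k e c)) (p : Lau k)
    (hp : p ∈ LD k σ a) : P p := by
  rw [← AddMonoidAlgebra.sum_coeff_single p]
  unfold Finsupp.sum
  refine Finset.sum_induction _ P hadd h0 ?_
  intro e he
  exact hm e _ (hp e he).1 (hp e he).2

variable (k) in
/-- PROOF. The algebra map `AddMonoidAlgebra k (S0 σ) → Lau k` induced by the inclusion of `S0 σ` in `Ex`
(`AddMonoidAlgebra.mapDomainAlgHom`) is injective (`Finsupp.mapDomain_injective`), with image `L0 k σ`. -/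
theorem exists_S0equiv (σ : Finset Vr) :
    ∃ e : AddMonoidAlgebra k (S0 σ) ≃ₐ[k] L0 k σ, ∀ (x : S0 σ),
      e (AddMonoidAlgebra.single x 1) = mon0 k x.1 x.2.1 x.2.2 := by
  have hg1 : ∀ (x : S0 σ) (c : k), AddMonoidAlgebra.mapDomainAlgHom k k (S0 σ).subtype
      (AddMonoidAlgebra.single x c) = mono k x.1 c := by
    intro x c
    simp
  have hmem : ∀ p, AddMonoidAlgebra.mapDomainAlgHom k k (S0 σ).subtype p ∈ L0 k σ := by
    intro p
    induction p using AddMonoidAlgebra.induction_linear with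
    | zero => rw [map_zero]; exact (L0 k σ).zero_mem
    | add p q hp hq => rw [map_add]; exact (L0 k σ).add_mem hp hq
    | single x c => rw [hg1]; exact mono_mem k x.2.1 x.2.2 c
  have hinj : Function.Injective
      ((AddMonoidAlgebra.mapDomainAlgHom k k (S0 σ).subtype).codRestrict (L0 k σ) hmem) := by
    intro p q h
    have h' := congrArg Subtype.val h
    exact AddMonoidAlgebra.mapDomain_injective (R := k) (f := (S0 σ).subtype)
      (Subtype.val_injective) h'
  have hsurj : Function.Surjective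
      ((AddMonoidAlgebra.mapDomainAlgHom k k (S0 σ).subtype).codRestrict (L0 k σ) hmem) := by
    rintro ⟨p, hp⟩
    have key : ∃ y, AddMonoidAlgebra.mapDomainAlgHom k k (S0 σ).subtype y = p := by
      refine LD_induction (σ := σ) (a := 0) (P := fun p => ∃ y,
        AddMonoidAlgebra.mapDomainAlgHom k k (S0 σ).subtype y = p) ⟨0, map_zero _⟩ ?_ ?_ p hp
      · rintro p q ⟨x, rfl⟩ ⟨y, rfl⟩
        exact ⟨x + y, map_add _ _ _⟩
      · intro e c hr hd
        exact ⟨AddMonoidAlgebra.single (⟨e, hr, hd⟩ : S0 σ) c, hg1 _ _⟩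
    obtain ⟨y, hy⟩ := key
    exact ⟨y, Subtype.ext hy⟩
  exact ⟨AlgEquiv.ofBijective _ ⟨hinj, hsurj⟩, fun x => Subtype.ext (hg1 x 1)⟩

variable (N : FunCat k) {σ : Finset Vr} (hσ : Full σ)

/-- the action of a monomial of degree `0` on `N(σ,0)` -/
noncomputable def actM (e : Ex) (hr : Reg σ e) (hd : degE e = 0) :
    Module.End k (N.obj (Ob.mk σ hσ 0)) :=
  (N.map (mul hσ e hr (by rw [hd, sub_zero]) : Ob.mk σ hσ 0 ⟶ Ob.mk σ hσ 0)).hom

private lemma actM_zero : actM N hσ 0 Reg.zero degE_zero = 1 := by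
  unfold actM
  have h : (mul hσ 0 Reg.zero (by rw [degE_zero, sub_zero]) : Ob.mk σ hσ 0 ⟶ Ob.mk σ hσ 0) = 𝟙 _ :=
    hom_ext rfl
  rw [h, N.map_id]
  rfl

private lemma actM_add (e e' : Ex) (hr : Reg σ e) (hd : degE e = 0) (hr' : Reg σ e')
    (hd' : degE e' = 0) : actM N hσ (e + e') (hr.add hr') (by rw [degE_add, hd, hd', add_zero]) =
      actM N hσ e hr hd * actM N hσ e' hr' hd' := by
  unfold actM
  have h : (mul hσ (e + e') (hr.add hr') (by rw [degE_add, hd, hd', add_zero, sub_zero]) :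
      Ob.mk σ hσ 0 ⟶ Ob.mk σ hσ 0) = (mul hσ e' hr' (by rw [hd', sub_zero]) :
        Ob.mk σ hσ 0 ⟶ Ob.mk σ hσ 0) ≫ (mul hσ e hr (by rw [hd, sub_zero]) :
        Ob.mk σ hσ 0 ⟶ Ob.mk σ hσ 0) := hom_ext (add_comm _ _)
  rw [h, N.map_comp]
  rfl

/-- The action of `L0 k σ` on `N(σ,0)`.
PROOF. `AddMonoidAlgebra.lift` for the monoid homomorphism `e ↦ actM N hσ e` from `Multiplicative (S0 σ)`, composed with the
inverse of `exists_S0equiv`. -/
theorem exists_actL : ∃ a : L0 k σ →ₐ[k] Module.End k (N.obj (Ob.mk σ hσ 0)),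
    ∀ (e : Ex) (hr : Reg σ e) (hd : degE e = 0), a (mon0 k e hr hd) = actM N hσ e hr hd := by
  obtain ⟨E, hE⟩ := exists_S0equiv k σ
  let F : Multiplicative (S0 σ) →* Module.End k (N.obj (Ob.mk σ hσ 0)) :=
    { toFun := fun x => actM N hσ x.toAdd.1 x.toAdd.2.1 x.toAdd.2.2
      map_one' := actM_zero N hσ
      map_mul' := fun x y => actM_add N hσ x.toAdd.1 y.toAdd.1 x.toAdd.2.1 x.toAdd.2.2
        y.toAdd.2.1 y.toAdd.2.2 }
  refine ⟨(AddMonoidAlgebra.lift k (Module.End k (N.obj (Ob.mk σ hσ 0))) (S0 σ) F).comp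
    E.symm.toAlgHom, ?_⟩
  intro e hr hd
  have h1 : E.symm (mon0 k e hr hd) = AddMonoidAlgebra.single (⟨e, hr, hd⟩ : S0 σ) 1 := by
    rw [AlgEquiv.symm_apply_eq]
    exact (hE ⟨e, hr, hd⟩).symm
  change AddMonoidAlgebra.lift k (Module.End k (N.obj (Ob.mk σ hσ 0))) (S0 σ) F
    (E.symm (mon0 k e hr hd)) = _
  rw [h1, AddMonoidAlgebra.lift_single, one_smul]
  rfl

/-- the action of `L0 k σ` on `N(σ,0)` -/
noncomputable def actL : L0 k σ →ₐ[k] Module.End k (N.obj (Ob.mk σ hσ 0)) :=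
  (exists_actL N hσ).choose

lemma actL_mon (e : Ex) (hr : Reg σ e) (hd : degE e = 0) :
    actL N hσ (mon0 k e hr hd) = actM N hσ e hr hd := (exists_actL N hσ).choose_spec e hr hd

private lemma fz (hN : isFZero k N) (a b : Deg) (h : b = a + dF) :
    ∑ i, fC i • N.map (mul hσ (fE i) (reg_fE σ i) (by rw [degE_fE, h]; abel) :
      Ob.mk σ hσ a ⟶ Ob.mk σ hσ b) = 0 := by
  subst h
  exact hN σ hσ a

private lemma actL_ff_mono (hN : isFZero k N) (e : Ex) (c : k) (hr : Reg σ e) (hd : degE e = -dF) :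
    ∃ h : ff k * mono k e c ∈ L0 k σ, actL N hσ ⟨ff k * mono k e c, h⟩ = 0 := by
  have hmem : ff k * mono k e c ∈ L0 k σ := by
    have h1 := mul_mem_LD k (ff_mem k σ) (mono_mem k hr hd c)
    rw [add_neg_cancel] at h1
    exact h1
  refine ⟨hmem, ?_⟩
  have hd0 : ∀ i, degE (fE i + e) = 0 := fun i => by rw [degE_add, degE_fE, hd, add_neg_cancel]
  have heq : (⟨ff k * mono k e c, hmem⟩ : L0 k σ) =
      ∑ i, (((fC i : ℤ) : k) * c) • mon0 k (fE i + e) ((reg_fE σ i).add hr) (hd0 i) := by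
    apply Subtype.ext
    rw [AddSubmonoidClass.coe_finsetSum]
    change ff k * mono k e c = ∑ i, (((fC i : ℤ) : k) * c) • mono k (fE i + e) 1
    unfold ff
    rw [Finset.sum_mul]
    refine Finset.sum_congr rfl fun i _ => ?_
    rw [AddMonoidAlgebra.single_mul_single, AddMonoidAlgebra.smul_single, smul_eq_mul, mul_one]
  rw [heq, map_sum]
  have h2 : ∀ i, actL N hσ ((((fC i : ℤ) : k) * c) • mon0 k (fE i + e) ((reg_fE σ i).add hr) (hd0 i)) =
      c • (N.map (mul hσ e hr (by rw [hd, sub_zero]) : Ob.mk σ hσ 0 ⟶ Ob.mk σ hσ (-dF)) ≫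
        (fC i • N.map (mul hσ (fE i) (reg_fE σ i) (by rw [degE_fE]; abel) :
          Ob.mk σ hσ (-dF) ⟶ Ob.mk σ hσ 0))).hom := by
    intro i
    rw [map_smul, actL_mon]
    have h3 : actM N hσ (fE i + e) ((reg_fE σ i).add hr) (hd0 i) =
        (N.map (mul hσ e hr (by rw [hd, sub_zero]) : Ob.mk σ hσ 0 ⟶ Ob.mk σ hσ (-dF)) ≫
          N.map (mul hσ (fE i) (reg_fE σ i) (by rw [degE_fE]; abel) :
          Ob.mk σ hσ (-dF) ⟶ Ob.mk σ hσ 0)).hom := by
      rw [← N.map_comp]
      unfold actM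
      congr 2
      exact hom_ext (add_comm _ _)
    rw [h3, Preadditive.comp_zsmul, ModuleCat.hom_zsmul, mul_comm, mul_smul, Int.cast_smul_eq_zsmul]
  rw [Finset.sum_congr rfl fun i _ => h2 i, ← Finset.smul_sum, ← ModuleCat.hom_sum,
    ← Preadditive.comp_sum, fz N hσ hN (-dF) 0 (by rw [neg_add_cancel]), comp_zero,
    ModuleCat.hom_zero, smul_zero]

/-- PROOF. `p = ff * q` with `q ∈ LD k σ (-dF)`. By linearity (write `q` as the sum over its support) we may assume
`q = mono e c`, `degE e = -dF`: `p = ∑ i, fC i c mono (fE i + e)`, and `actL p = c • ∑ i, fC i • N.map (mul (fE i + e))`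
`= c • N.map (mul e : (σ,0) ⟶ (σ,-dF)) ≫ ∑ i, fC i • N.map (mul (fE i) : (σ,-dF) ⟶ (σ,0)) = 0` (`isFZero` at `a = -dF`; note that
`-dF + dF` is only propositionally `0`: use a general target degree `b` with `b = 0`). -/
theorem actL_ker (hN : isFZero k N) (p : L0 k σ)
    (hp : ∃ q ∈ LD k σ (-dF), (p : Lau k) = ff k * q) : actL N hσ p = 0 := by
  obtain ⟨q, hq, hpq⟩ := hp
  have key : ∃ h : ff k * q ∈ L0 k σ, actL N hσ ⟨ff k * q, h⟩ = 0 := by
    refine LD_induction (σ := σ) (a := -dF) (P := fun q => ∃ h : ff k * q ∈ L0 k σ,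
      actL N hσ ⟨ff k * q, h⟩ = 0) ?_ ?_ ?_ q hq
    · refine ⟨by rw [mul_zero]; exact (L0 k σ).zero_mem, ?_⟩
      have h : ∀ h : ff k * 0 ∈ L0 k σ, (⟨ff k * 0, h⟩ : L0 k σ) = 0 := fun h =>
        Subtype.ext (mul_zero _)
      rw [h, map_zero]
    · rintro x y ⟨hx, hx'⟩ ⟨hy, hy'⟩
      have hxy : ff k * (x + y) ∈ L0 k σ := by rw [mul_add]; exact (L0 k σ).add_mem hx hy
      refine ⟨hxy, ?_⟩
      have h : (⟨ff k * (x + y), hxy⟩ : L0 k σ) = ⟨ff k * x, hx⟩ + ⟨ff k * y, hy⟩ :=
        Subtype.ext (mul_add _ _ _)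
      rw [h, map_add, hx', hy', add_zero]
    · intro e c hr hd
      exact actL_ff_mono N hσ hN e c hr hd
  obtain ⟨h, h'⟩ := key
  have : p = ⟨ff k * q, h⟩ := Subtype.ext hpq
  rw [this, h']

variable (C : Charts k X)

/-- PROOF. `C.ev σ hσ` is surjective, and its kernel acts by zero (`ev_ker`, `actL_ker`): `RingHom.liftOfSurjective` /
`RingHom.liftOfRightInverse`. -/
theorem exists_actR (hN : isFZero k N) : ∃ a : Γ(X, C.U σ hσ) →+* Module.End k (N.obj (Ob.mk σ hσ 0)),
    ∀ p, a (C.ev σ hσ p) = actL N hσ p := by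
  have hker : RingHom.ker (C.ev σ hσ) ≤ RingHom.ker (actL N hσ).toRingHom := by
    intro p hp
    rw [RingHom.mem_ker] at hp ⊢
    exact actL_ker N hσ hN p ((C.ev_ker σ hσ p).1 hp)
  refine ⟨(C.ev σ hσ).liftOfSurjective (C.ev_surj σ hσ) ⟨(actL N hσ).toRingHom, hker⟩, ?_⟩
  intro p
  exact RingHom.liftOfRightInverse_comp_apply _ _ _ ⟨(actL N hσ).toRingHom, hker⟩ p

/-- the action of the functions on `U σ` on `N(σ,0)` -/
noncomputable def actR (hN : isFZero k N) :
    Γ(X, C.U σ hσ) →+* Module.End k (N.obj (Ob.mk σ hσ 0)) := (exists_actR N hσ C hN).choose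

lemma actR_ev (hN : isFZero k N) (p : L0 k σ) : actR N hσ C hN (C.ev σ hσ p) = actL N hσ p :=
  (exists_actR N hσ C hN).choose_spec p

lemma actR_mon (hN : isFZero k N) (e : Ex) (hr : Reg σ e) (hd : degE e = 0) :
    actR N hσ C hN (C.mon hσ e hr hd) = actM N hσ e hr hd := by
  unfold Charts.mon
  rw [actR_ev, actL_mon]

/-- `N(σ,0)` as a module over the ring of functions on the chart `σ` -/
noncomputable def modN (hN : isFZero k N) : ModuleCat.{u} Γ(X, C.U σ hσ) :=
  letI : Module Γ(X, C.U σ hσ) (N.obj (Ob.mk σ hσ 0)) :=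
    { smul := fun r x => actR N hσ C hN r x
      one_smul := fun x => by
        change actR N hσ C hN 1 x = x
        rw [map_one]; rfl
      mul_smul := fun r s x => by
        change actR N hσ C hN (r * s) x = actR N hσ C hN r (actR N hσ C hN s x)
        rw [map_mul]; rfl
      smul_zero := fun r => map_zero _
      smul_add := fun r x y => map_add _ x y
      add_smul := fun r s x => by
        change actR N hσ C hN (r + s) x = actR N hσ C hN r x + actR N hσ C hN s x
        rw [map_add]; rfl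
      zero_smul := fun x => by
        change actR N hσ C hN 0 x = 0
        rw [map_zero]; rfl }
  ModuleCat.of Γ(X, C.U σ hσ) (N.obj (Ob.mk σ hσ 0))

/-- elements of `modN` are elements of `N(σ,0)` -/
noncomputable def ofN (hN : isFZero k N) : N.obj (Ob.mk σ hσ 0) ≃+ modN N hσ C hN :=
  AddEquiv.refl _

lemma ofN_smul (hN : isFZero k N) (r : Γ(X, C.U σ hσ)) (x : N.obj (Ob.mk σ hσ 0)) :
    r • ofN N hσ C hN x = ofN N hσ C hN (actR N hσ C hN r x) := rfl

end BS
end

section

/-!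
# Division by `f`
-/

set_option autoImplicit false

namespace BS

open MPbd3808.BR

universe u

variable (k : Type u) [Field k]

/-- the part of a Laurent polynomial consisting of the monomials with a property -/
noncomputable def part (P : Ex → Prop) [DecidablePred P] (p : Lau k) : Lau k :=
  AddMonoidAlgebra.ofCoeff (p.coeff.filter P)

/-- PROOF. `Finsupp.filter_pos_add_filter_neg`. -/
theorem part_add_part_not (P : Ex → Prop) [DecidablePred P] (p : Lau k) :
    part k P p + part k (fun e => ¬ P e) p = p := by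
  apply AddMonoidAlgebra.coeff_injective
  rw [AddMonoidAlgebra.coeff_add]
  exact Finsupp.filter_add_filter_not p.coeff P

private theorem Gauss_fE_inj : Function.Injective fE := by decide

private theorem Gauss_part_mem (P : Ex → Prop) [DecidablePred P] (p : Lau k) (e : Ex) :
    e ∈ (part k P p).coeff.support ↔ e ∈ p.coeff.support ∧ P e := by
  change e ∈ (p.coeff.filter P).support ↔ _
  rw [Finsupp.support_filter, Finset.mem_filter]

private theorem Gauss_add {A : Ex → Prop} {p q : Lau k} (hp : ∀ e ∈ p.coeff.support, A e)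
    (hq : ∀ e ∈ q.coeff.support, A e) : ∀ e ∈ (p + q).coeff.support, A e := by
  classical
  intro e he
  rcases Finset.mem_union.1 (Finsupp.support_add he) with h | h
  · exact hp e h
  · exact hq e h

private theorem Gauss_neg {A : Ex → Prop} {p : Lau k} (hp : ∀ e ∈ p.coeff.support, A e) :
    ∀ e ∈ (-p).coeff.support, A e := by
  intro e he
  apply hp e
  rw [Finsupp.mem_support_iff] at he ⊢
  intro h
  apply he
  have h1 : (-p).coeff + p.coeff = 0 := by
    rw [← AddMonoidAlgebra.coeff_add, neg_add_cancel]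
    rfl
  have h2 := DFunLike.congr_fun h1 e
  rw [Finsupp.add_apply, h, add_zero] at h2
  exact h2

private theorem Gauss_sub {A : Ex → Prop} {p q : Lau k} (hp : ∀ e ∈ p.coeff.support, A e)
    (hq : ∀ e ∈ q.coeff.support, A e) : ∀ e ∈ (p - q).coeff.support, A e := by
  rw [sub_eq_add_neg]
  exact Gauss_add k hp (Gauss_neg k hq)

private theorem Gauss_mul {A B D : Ex → Prop} {p q : Lau k} (hp : ∀ e ∈ p.coeff.support, A e)
    (hq : ∀ e ∈ q.coeff.support, B e) (h : ∀ x y, A x → B y → D (x + y)) :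
    ∀ e ∈ (p * q).coeff.support, D e := by
  classical
  intro e he
  obtain ⟨x, hx, y, hy, rfl⟩ := Finset.mem_add.1 (AddMonoidAlgebra.support_coeff_mul_subset p q he)
  exact h x y (hp x hx) (hq y hy)

private theorem Gauss_zero {A B : Ex → Prop} {p : Lau k} (hp : ∀ e ∈ p.coeff.support, A e)
    (hq : ∀ e ∈ p.coeff.support, B e) (h : ∀ e, A e → ¬ B e) : p = 0 := by
  rw [← AddMonoidAlgebra.coeff_eq_zero, ← Finsupp.support_eq_empty]
  refine Finset.eq_empty_of_forall_notMem fun e he => ?_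
  exact h e (hp e he) (hq e he)

private theorem Gauss_ne {p : Lau k} {e : Ex} (h : e ∈ p.coeff.support) : p ≠ 0 := by
  rintro rfl
  simp at h

/-- The coefficients of `ff`: the six exponents `fE i` are pairwise different and have coefficient `fC i = ± 1`.
PROOF. `Finsupp.single_apply`, `decide`. -/
theorem coeff_ff (i : Fin 6) : (ff k).coeff (fE i) = ((fC i : ℤ) : k) := by
  classical
  unfold ff
  rw [AddMonoidAlgebra.coeff_sum, Finsupp.finsetSum_apply, Finset.sum_eq_single i]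
  · rw [AddMonoidAlgebra.coeff_single, Finsupp.single_eq_same]
  · intro j _ hj
    rw [AddMonoidAlgebra.coeff_single, Finsupp.single_apply, if_neg]
    intro h
    exact hj (Gauss_fE_inj h)
  · intro h
    exact absurd (Finset.mem_univ i) h

theorem ff_ne_zero : ff k ≠ 0 := by
  intro h
  have := coeff_ff k 0
  rw [h] at this
  simp [fC] at this

/-- Let all exponents of `ff * q` have degree `a + dF`. Then all exponents of `q` have degree `a`.

PROOF. Let `q' := part (degE · ≠ a) q`, `q'' := part (degE · = a) q`, `q = q' + q''`. The exponents of `ff * q''` have degree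
`a + dF` (`AddMonoidAlgebra.support_coeff_mul_subset`, `degE_fE`), so those of `ff * q' = ff * q - ff * q''` too; but they are
of the form `fE i + e` with `degE e ≠ a`, so `ff * q' = 0`, so `q' = 0` (`Lau k` is a domain, `ff_ne_zero`). -/
theorem deg_of_mul (a : Deg) (q : Lau k) (h : ∀ e ∈ (ff k * q).coeff.support, degE e = a + dF) :
    ∀ e ∈ q.coeff.support, degE e = a := by
  classical
  have h1 := part_add_part_not k (fun e => degE e ≠ a) q
  set q' := part k (fun e => degE e ≠ a) q with hq'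
  set q'' := part k (fun e => ¬ degE e ≠ a) q with hq''
  have e1 : ff k * q' = ff k * q - ff k * q'' := by
    rw [← h1]
    ring
  have hff : ∀ e ∈ (ff k).coeff.support, degE e = dF := fun e he => (ff_mem k ∅ e he).2
  have a1 : ∀ e ∈ (ff k * q'').coeff.support, degE e = a + dF := by
    refine Gauss_mul k hff (B := fun e => degE e = a) ?_ ?_
    · intro e he
      exact not_not.mp ((Gauss_part_mem k _ q e).1 he).2
    · intro x y hx hy
      rw [degE_add, hx, hy, add_comm]
  have a2 : ∀ e ∈ (ff k * q').coeff.support, degE e = a + dF := by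
    rw [e1]
    exact Gauss_sub k h a1
  have a3 : ∀ e ∈ (ff k * q').coeff.support, degE e ≠ a + dF := by
    refine Gauss_mul k hff (B := fun e => degE e ≠ a) ?_ ?_
    · intro e he
      exact ((Gauss_part_mem k _ q e).1 he).2
    · intro x y hx hy hxy
      apply hy
      rw [degE_add, hx, add_comm] at hxy
      exact add_right_cancel hxy
  have a4 : ff k * q' = 0 := Gauss_zero k a2 a3 fun e he hn => hn he
  have a5 : q' = 0 := (mul_eq_zero.1 a4).resolve_left (ff_ne_zero k)
  intro e he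
  by_contra hne
  exact Gauss_ne k ((Gauss_part_mem k (fun e => degE e ≠ a) q e).2 ⟨he, hne⟩) a5

/-- Let `v` be a variable and let all exponents `e` of `ff * q` satisfy `0 ≤ e v`. Then the same is true for `q`.

PROOF. Let `q ≠ 0`, `m` the minimum of `e v` over the exponents of `q`, and suppose `m < 0`. `q0 := part (· v = m) q ≠ 0`. `f0 := part (· v = 0) ff ≠ 0`:
for every `v` there is `i` with `fE i v = 0` (`decide`), use `coeff_ff`. The part with `e v = m` of `ff * q` is
`f0 * q0` (write `ff = f0 + f1`, `q = q0 + q1`, the exponents of `f1` are `> 0` at `v`, those of `q1` are `> m`), which is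
not zero; but all exponents of `ff * q` are `≥ 0 > m` at `v`: contradiction. -/
theorem reg_of_mul (v : Vr) (q : Lau k) (h : ∀ e ∈ (ff k * q).coeff.support, 0 ≤ e v) :
    ∀ e ∈ q.coeff.support, 0 ≤ e v := by
  classical
  intro e1 he1
  by_contra hneg
  push Not at hneg
  obtain ⟨e0, he0, hmin⟩ := Finset.exists_min_image q.coeff.support (fun e => e v) ⟨e1, he1⟩
  have hm : e0 v < 0 := lt_of_le_of_lt (hmin e1 he1) hneg
  obtain ⟨m, hmdef⟩ : ∃ m, m = e0 v := ⟨_, rfl⟩
  have hmin' : ∀ e ∈ q.coeff.support, m ≤ e v := fun e he => hmdef ▸ hmin e he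
  rw [← hmdef] at hm
  have hff : ∀ e ∈ (ff k).coeff.support, 0 ≤ e v := fun e he =>
    (ff_mem k ∅ e he).1 v (Finset.notMem_empty v)
  have h1 := part_add_part_not k (fun e => e v = m) q
  have h2 := part_add_part_not k (fun e => e v = 0) (ff k)
  have b1 : ∀ e ∈ (part k (fun e => e v = m) q).coeff.support, e v = m :=
    fun e he => ((Gauss_part_mem k _ q e).1 he).2
  have b2 : ∀ e ∈ (part k (fun e => ¬ e v = m) q).coeff.support, m < e v := fun e he => by
    obtain ⟨h3, h4⟩ := (Gauss_part_mem k _ q e).1 he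
    exact lt_of_le_of_ne (hmin' e h3) (fun h5 => h4 h5.symm)
  have b3 : ∀ e ∈ (part k (fun e => e v = 0) (ff k)).coeff.support, e v = 0 :=
    fun e he => ((Gauss_part_mem k _ _ e).1 he).2
  have b4 : ∀ e ∈ (part k (fun e => ¬ e v = 0) (ff k)).coeff.support, 0 < e v := fun e he => by
    obtain ⟨h3, h4⟩ := (Gauss_part_mem k _ _ e).1 he
    exact lt_of_le_of_ne (hff e h3) (fun h5 => h4 h5.symm)
  have d1 : part k (fun e => e v = m) q ≠ 0 :=
    Gauss_ne k ((Gauss_part_mem k (fun e => e v = m) q e0).2 ⟨he0, hmdef.symm⟩)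
  have d2 : ∃ i : Fin 6, fE i v = 0 := by
    clear * -
    revert v
    decide
  obtain ⟨i, hi⟩ := d2
  have d3 : fE i ∈ (ff k).coeff.support := by
    rw [Finsupp.mem_support_iff, coeff_ff]
    clear * -
    fin_cases i <;> simp [fC]
  have d4 : part k (fun e => e v = 0) (ff k) ≠ 0 :=
    Gauss_ne k ((Gauss_part_mem k (fun e => e v = 0) (ff k) (fE i)).2 ⟨d3, hi⟩)
  generalize part k (fun e => e v = m) q = q0 at h1 b1 d1
  generalize part k (fun e => ¬ e v = m) q = q1 at h1 b2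
  generalize part k (fun e => e v = 0) (ff k) = f0 at h2 b3 d4
  generalize part k (fun e => ¬ e v = 0) (ff k) = f1 at h2 b4
  have c1 : ∀ e ∈ (f0 * q1).coeff.support, m < e v :=
    Gauss_mul k b3 b2 fun x y hx hy => by rw [Pi.add_apply, hx, zero_add]; exact hy
  have c2 : ∀ e ∈ (f1 * q0).coeff.support, m < e v :=
    Gauss_mul k b4 b1 fun x y hx hy => by rw [Pi.add_apply, hy]; linarith
  have c3 : ∀ e ∈ (f1 * q1).coeff.support, m < e v :=
    Gauss_mul k b4 b2 fun x y hx hy => by rw [Pi.add_apply]; linarith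
  have c4 : ∀ e ∈ (f0 * q0).coeff.support, e v = m :=
    Gauss_mul k b3 b1 fun x y hx hy => by rw [Pi.add_apply, hx, hy, zero_add]
  have c5 : ∀ e ∈ (ff k * q).coeff.support, m < e v := fun e he => lt_of_lt_of_le hm (h e he)
  have c6 : f0 * q0 = ff k * q - (f0 * q1 + f1 * q0 + f1 * q1) := by
    rw [← h1, ← h2]
    ring
  have c7 : ∀ e ∈ (f0 * q0).coeff.support, m < e v := by
    rw [c6]
    exact Gauss_sub k c5 (Gauss_add k (Gauss_add k c1 c2) c3)
  have c8 : f0 * q0 = 0 := Gauss_zero k c4 c7 fun e he hn => by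
    rw [he] at hn
    exact lt_irrefl _ hn
  rcases mul_eq_zero.1 c8 with h3 | h3
  · exact d4 h3
  · exact d1 h3

/-- PROOF. `deg_of_mul`, `reg_of_mul` for all `v ∉ σ`. -/
theorem LD_of_mul (σ : Finset Vr) (a : Deg) (q : Lau k) (h : ff k * q ∈ LD k σ (a + dF)) :
    q ∈ LD k σ a := by
  intro e he
  refine ⟨fun v hv => ?_, ?_⟩
  · exact reg_of_mul k v q (fun e' he' => (h e' he').1 v hv) e he
  · exact deg_of_mul k a q (fun e' he' => (h e' he').2) e he

end BS
end

section

/-!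
# The ring `RL = Laurent polynomials modulo f` is a domain
-/

set_option autoImplicit false

namespace BS

open MPbd3808.BR

universe u

variable (k : Type u) [Field k]

/-- Laurent polynomials in the ten Cox variables modulo `f` -/
abbrev RL := Lau k ⧸ Ideal.span {ff k}

/-- the projection -/
noncomputable def pi : Lau k →ₐ[k] RL k := Ideal.Quotient.mkₐ k _

lemma pi_surjective : Function.Surjective (pi k) := Ideal.Quotient.mkₐ_surjective k _

lemma pi_eq_zero (p : Lau k) : pi k p = 0 ↔ ∃ q, p = ff k * q := by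
  unfold pi
  rw [Ideal.Quotient.mkₐ_eq_mk, Ideal.Quotient.eq_zero_iff_mem, Ideal.mem_span_singleton]
  rfl

/-- PROOF. `pi_eq_zero` and `LD_of_mul` with `a = -dF` (`ff * q ∈ LD σ 0`). -/
theorem pi_eq_zero_of_LD (σ : Finset Vr) (p : Lau k) (hp : p ∈ LD k σ 0) (h : pi k p = 0) :
    ∃ q ∈ LD k σ (-dF), p = ff k * q := by
  obtain ⟨q, hq⟩ := (pi_eq_zero k p).1 h
  refine ⟨q, LD_of_mul k σ (-dF) q ?_, hq⟩
  rw [← hq, neg_add_cancel]
  exact hp

/-- a Laurent monomial in `RL` -/
noncomputable def mo (e : Ex) : RL k := pi k (mono k e 1)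

lemma mo_zero : mo k 0 = 1 := map_one (pi k)

lemma mo_add (e e' : Ex) : mo k (e + e') = mo k e * mo k e' := by
  unfold mo
  rw [← map_mul]
  congr 1
  change _ = mono k e 1 * mono k e' 1
  rw [AddMonoidAlgebra.single_mul_single, one_mul]

lemma isUnit_mo (e : Ex) : IsUnit (mo k e) := by
  refine IsUnit.of_mul_eq_one (mo k (-e)) ?_
  rw [← mo_add, add_neg_cancel, mo_zero]

private def RLd_d9 : Ex := ![0,0,0,0,0,0,0,0,0,1]

private def RLd_u : Ex := ![1,0,0,1,1,0,0,0,0,0]

private def RLd_pr (e : Ex) : Ex := e - e 9 • RLd_d9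

private lemma RLd_pr_add (e e' : Ex) : RLd_pr (e + e') = RLd_pr e + RLd_pr e' := by
  unfold RLd_pr
  rw [Pi.add_apply, add_smul]
  abel

private lemma RLd_pr_of (e : Ex) (h : e 9 = 0) : RLd_pr e = e := by
  unfold RLd_pr
  rw [h, zero_smul, sub_zero]

private lemma RLd_pr9 (e : Ex) : RLd_pr e 9 = 0 := by
  have h : RLd_d9 9 = 1 := rfl
  unfold RLd_pr
  rw [Pi.sub_apply, Pi.smul_apply, h, smul_eq_mul, mul_one, sub_self]

private lemma RLd_split (e : Ex) : e = RLd_pr e + e 9 • RLd_d9 := by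
  unfold RLd_pr
  abel

private noncomputable def RLd_z : Lau k := mono k RLd_d9 1

private noncomputable def RLd_h : Lau k :=
  -∑ i : Fin 5, mono k (fE i.succ + -RLd_u) ((fC i.succ : ℤ) : k)

private lemma RLd_mul (e e' : Ex) (a b : k) :
    mono k e a * mono k e' b = mono k (e + e') (a * b) :=
  AddMonoidAlgebra.single_mul_single _ _ _ _

private lemma RLd_ff : ff k * mono k (-RLd_u) 1 = RLd_z k - RLd_h k := by
  unfold ff RLd_z RLd_h
  rw [Finset.sum_mul, Fin.sum_univ_succ, sub_neg_eq_add]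
  have h0 : fE 0 + -RLd_u = RLd_d9 := by decide
  have h1 : ((fC 0 : ℤ) : k) = 1 := by
    show ((1 : ℤ) : k) = 1
    exact Int.cast_one
  rw [RLd_mul, h0, h1, one_mul]
  congr 1
  refine Finset.sum_congr rfl fun i _ => ?_
  rw [RLd_mul, mul_one]

private lemma RLd_h_ne : RLd_h k ≠ 0 := by
  intro h
  have h1 := RLd_ff k
  rw [h, sub_zero] at h1
  have h2 : ff k = mono k (fE 0) 1 := by
    have h3 : ff k * mono k (-RLd_u) 1 * mono k RLd_u 1 = ff k := by
      rw [mul_assoc, RLd_mul, neg_add_cancel, one_mul]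
      exact mul_one _
    rw [← h3, h1]
    unfold RLd_z
    have h4 : RLd_d9 + RLd_u = fE 0 := by decide
    rw [RLd_mul, h4, one_mul]
  have h5 := coeff_ff k 1
  rw [h2] at h5
  have h6 : (mono k (fE 0) 1 : Lau k).coeff (fE 1) = 0 := by
    rw [AddMonoidAlgebra.coeff_single, Finsupp.single_apply, if_neg (by decide)]
  rw [h6] at h5
  have h7 : ((fC 1 : ℤ) : k) = -1 := by
    show ((-1 : ℤ) : k) = -1
    simp
  rw [h7] at h5
  exact one_ne_zero (neg_eq_zero.1 h5.symm)

private noncomputable def RLd_mon {F : Type u} [Field F] [Algebra k F] (ι : Lau k →ₐ[k] F) (H : F)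
    (hH : H ≠ 0) : Multiplicative Ex →* F where
  toFun e := ι (mono k (RLd_pr e.toAdd) 1) * H ^ (e.toAdd 9)
  map_one' := by
    show ι (mono k (RLd_pr 0) 1) * H ^ ((0 : Ex) 9) = 1
    rw [RLd_pr_of 0 rfl, Pi.zero_apply, zpow_zero, mul_one]
    exact map_one ι
  map_mul' := by
    intro e e'
    show ι (mono k (RLd_pr (e.toAdd + e'.toAdd)) 1) * H ^ ((e.toAdd + e'.toAdd) 9) =
      ι (mono k (RLd_pr e.toAdd) 1) * H ^ (e.toAdd 9) *
        (ι (mono k (RLd_pr e'.toAdd) 1) * H ^ (e'.toAdd 9))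
    have h1 : mono k (RLd_pr (e.toAdd + e'.toAdd)) (1 : k) =
        mono k (RLd_pr e.toAdd) 1 * mono k (RLd_pr e'.toAdd) 1 := by
      rw [RLd_mul, RLd_pr_add, one_mul]
    rw [h1, map_mul, Pi.add_apply, zpow_add₀ hH]
    ring

private theorem RLd_key {F : Type u} [Field F] [Algebra k F] (ι : Lau k →ₐ[k] F)
    (hι : Function.Injective ι) :
    ∃ Ψ : Lau k →ₐ[k] F, ∀ p, Ψ p = 0 ↔ p ∈ Ideal.span {ff k} := by
  have hH : ι (RLd_h k) ≠ 0 := by
    intro h
    exact RLd_h_ne k (hι (h.trans (map_zero ι).symm))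
  obtain ⟨Ψ, hΨ⟩ : ∃ Ψ : Lau k →ₐ[k] F, ∀ (e : Ex) (a : k), Ψ (mono k e a) =
      a • (ι (mono k (RLd_pr e) 1) * ι (RLd_h k) ^ (e 9)) :=
    ⟨AddMonoidAlgebra.lift k F Ex (RLd_mon k ι (ι (RLd_h k)) hH), fun e a =>
      AddMonoidAlgebra.lift_single _ _ _⟩
  have hfree : ∀ (e : Ex) (a : k), e 9 = 0 → Ψ (mono k e a) = ι (mono k e a) := by
    intro e a he
    rw [hΨ, RLd_pr_of e he, he, zpow_zero, mul_one, ← map_smul]
    congr 1
    show a • AddMonoidAlgebra.single e (1 : k) = AddMonoidAlgebra.single e a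
    rw [AddMonoidAlgebra.smul_single, smul_eq_mul, mul_one]
  have hh : Ψ (RLd_h k) = ι (RLd_h k) := by
    unfold RLd_h
    rw [map_neg, map_neg, map_sum, map_sum]
    congr 1
    refine Finset.sum_congr rfl fun i _ => hfree _ _ ?_
    revert i
    decide
  have hz : Ψ (RLd_z k) = ι (RLd_h k) := by
    unfold RLd_z
    rw [hΨ]
    have h1 : RLd_pr RLd_d9 = 0 := by decide
    have h2 : RLd_d9 9 = 1 := rfl
    rw [h1, h2, zpow_one, one_smul]
    have h3 : ι (mono k 0 1) = 1 := map_one ι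
    rw [h3, one_mul]
  have hff : Ψ (ff k) = 0 := by
    have h1 : Ψ (ff k) * Ψ (mono k (-RLd_u) 1) = 0 := by
      rw [← map_mul, RLd_ff, map_sub, hz, hh, sub_self]
    have h2 : Ψ (mono k (-RLd_u) 1) ≠ 0 := by
      intro h
      have h3 : Ψ (mono k (-RLd_u) 1) * Ψ (mono k RLd_u 1) = 1 := by
        rw [← map_mul, RLd_mul, neg_add_cancel, one_mul]
        exact map_one Ψ
      rw [h, zero_mul] at h3
      exact zero_ne_one h3
    exact (mul_eq_zero.1 h1).resolve_right h2
  have hzh : RLd_z k - RLd_h k ∈ Ideal.span {ff k} := by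
    rw [← RLd_ff]
    exact Ideal.mul_mem_right _ _ (Ideal.mem_span_singleton_self _)
  have hzpow : ∀ n : ℕ, RLd_z k ^ n = mono k (n • RLd_d9) 1 := by
    intro n
    unfold RLd_z
    rw [AddMonoidAlgebra.single_pow, one_pow]
  have claim : ∀ p : Lau k, ∃ N : ℕ, ∀ M : ℕ, N ≤ M →
      ∃ q : Lau k, Ψ q = ι q ∧ RLd_z k ^ M * p - q ∈ Ideal.span {ff k} := by
    intro p
    induction p using AddMonoidAlgebra.induction_linear with
    | zero =>
      refine ⟨0, fun M _ => ⟨0, by rw [map_zero, map_zero], ?_⟩⟩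
      rw [mul_zero, sub_zero]
      exact Ideal.zero_mem _
    | add x y hx hy =>
      obtain ⟨N1, h1⟩ := hx
      obtain ⟨N2, h2⟩ := hy
      refine ⟨max N1 N2, fun M hM => ?_⟩
      obtain ⟨q1, a1, b1⟩ := h1 M ((le_max_left _ _).trans hM)
      obtain ⟨q2, a2, b2⟩ := h2 M ((le_max_right _ _).trans hM)
      refine ⟨q1 + q2, by rw [map_add, map_add, a1, a2], ?_⟩
      have h3 : RLd_z k ^ M * (x + y) - (q1 + q2) =
          (RLd_z k ^ M * x - q1) + (RLd_z k ^ M * y - q2) := by ring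
      rw [h3]
      exact Ideal.add_mem _ b1 b2
    | single e a =>
      refine ⟨(e 9).natAbs, fun M hM => ?_⟩
      obtain ⟨j, hj⟩ : ∃ j : ℕ, (j : ℤ) = M + e 9 :=
        ⟨((M : ℤ) + e 9).toNat, Int.toNat_of_nonneg (by omega)⟩
      refine ⟨RLd_h k ^ j * mono k (RLd_pr e) a, ?_, ?_⟩
      · rw [map_mul, map_mul, map_pow, map_pow, hh, hfree _ _ (RLd_pr9 e)]
      · have h1 : RLd_z k ^ M * AddMonoidAlgebra.single e a =
            RLd_z k ^ j * mono k (RLd_pr e) a := by
          rw [hzpow, hzpow]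
          show mono k (M • RLd_d9) 1 * mono k e a = _
          rw [RLd_mul, RLd_mul]
          congr 1
          conv_lhs => rw [RLd_split e]
          rw [← natCast_zsmul RLd_d9 M, ← natCast_zsmul RLd_d9 j, hj, add_smul]
          abel
        rw [h1, ← sub_mul]
        refine Ideal.mul_mem_right _ _ ?_
        obtain ⟨w, hw⟩ := sub_dvd_pow_sub_pow (RLd_z k) (RLd_h k) j
        rw [hw]
        exact Ideal.mul_mem_right _ _ hzh
  refine ⟨Ψ, fun p => ⟨fun h0 => ?_, fun h0 => ?_⟩⟩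
  · obtain ⟨N, hN⟩ := claim p
    obtain ⟨q, hq1, hq2⟩ := hN N le_rfl
    have h1 : Ψ (RLd_z k ^ N * p - q) = 0 := by
      obtain ⟨w, hw⟩ := Ideal.mem_span_singleton.1 hq2
      rw [hw, map_mul, hff, zero_mul]
    rw [map_sub, map_mul, h0, mul_zero, zero_sub, neg_eq_zero, hq1] at h1
    have h2 : q = 0 := hι (h1.trans (map_zero ι).symm)
    rw [h2, sub_zero] at hq2
    have h3 : mono k (-(N • RLd_d9)) 1 * (RLd_z k ^ N * p) = p := by
      rw [hzpow, ← mul_assoc, RLd_mul, neg_add_cancel, one_mul]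
      exact one_mul _
    rw [← h3]
    exact Ideal.mul_mem_left _ _ hq2
  · obtain ⟨w, hw⟩ := Ideal.mem_span_singleton.1 h0
    rw [hw, map_mul, hff, zero_mul]

/-- `RL` is a domain: `ff` generates a prime ideal.

PROOF. Write `z = x_9` (the variable `z3`), `u := mono ![1,0,0,1,1,0,0,0,0,0] 1` (a unit), so `ff = u z - c` with
`c = - ∑ (the five other terms)`, which does not contain `z`; `h := u⁻¹ c`. Let `F := FractionRing (MvPolynomial (Fin 10) k)` (or
of `Lau k`) and `Ψ : Lau k →ₐ F` the algebra map with `x_v ↦ X_v` for `v ≠ 9` and `z ↦ h(X)` (a nonzero element, `AddMonoidAlgebra.lift`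
with the monoid map `e ↦ ∏ Ψ(x_v)^(e v)`, zpow). CLAIM: `ker Ψ = (ff)`. `Ψ(ff) = 0` is clear. Let `Ψ p = 0`. Multiply `p` by `z^N` so that
all exponents have `e 9 ≥ 0`. Modulo `ff` we have `z ≡ h`, so `p z^N ≡ q` with `q` free of `z` (`z^j x^e ≡ h^j x^e`; all exponents of `h^j` have
`e 9 = 0`). `Ψ q = 0`, and `Ψ` is injective on Laurent polynomials free of `z` (the monomials `∏_{v ≠ 9} X_v^{e v}` are linearly
independent in `F`), so `q = 0`, `p z^N ∈ (ff)`, `p ∈ (ff)` as `z` is a unit. So `RL` embeds in the field `F`.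
ANOTHER WAY: show directly that `Ideal.span {ff}` is prime: `RL ≅` localization of the Laurent polynomials without `z` at `h`. -/
instance : IsDomain (RL k) := by
  obtain ⟨Ψ, hΨ⟩ := RLd_key k (F := FractionRing (Lau k))
    (IsScalarTower.toAlgHom k (Lau k) (FractionRing (Lau k)))
    (IsFractionRing.injective (Lau k) (FractionRing (Lau k)))
  have h1 : Ideal.span {ff k} = RingHom.ker Ψ := by
    ext p
    rw [RingHom.mem_ker]
    exact (hΨ p).symm
  have h2 : (Ideal.span {ff k}).IsPrime := by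
    rw [h1]
    exact RingHom.ker_isPrime Ψ
  exact Ideal.Quotient.isDomain _

end BS
end

section

/-!
# Derivations of `RL` and of its field of fractions
-/

set_option autoImplicit false

namespace BS

open MPbd3808.BR

universe u

variable (k : Type u) [Field k]

/-- PROOF. `p ↦ pi (dl v p) - c pi (dl 9 p)`, `c := pi (dl v ff) mo (- fE 0)`, is a derivation `Lau → RL` (over `pi`) which kills the ideal `(ff)`: on `ff * q` it is
`pi ff * (..) + pi q * (pi (dl v ff) - c * pi (dl 9 ff)) = 0` since `pi ff = 0` and `dl 9 ff = mono (fE 0) 1` (`dl9_ff`), `mo (-fE 0) * mo (fE 0) = 1`. So it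
descends to `RL = Lau ⧸ (ff)` (`Submodule.liftQ`/`Ideal.Quotient.lift` on the underlying linear map, or `Derivation.liftOfSurjective`), Leibniz rule by surjectivity of `pi`. -/
theorem exists_eta (v : Vr) : ∃ D : Derivation k (RL k) (RL k), ∀ p : Lau k,
    D (pi k p) = pi k (dl k v p) - pi k (dl k v (ff k)) * mo k (-fE 0) * pi k (dl k 9 p) := by
  obtain ⟨c, hc⟩ : ∃ c, c = pi k (dl k v (ff k)) * mo k (-fE 0) := ⟨_, rfl⟩
  rw [← hc]
  let φ : Lau k →ₗ[k] RL k := (pi k).toLinearMap ∘ₗ (dl k v : Lau k →ₗ[k] Lau k) -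
    (LinearMap.mulLeft k c) ∘ₗ (pi k).toLinearMap ∘ₗ (dl k 9 : Lau k →ₗ[k] Lau k)
  have hφ : ∀ p, φ p = pi k (dl k v p) - c * pi k (dl k 9 p) := fun p => rfl
  have hLeib : ∀ p q, φ (p * q) = pi k p * φ q + pi k q * φ p := by
    intro p q
    rw [hφ, hφ, hφ, Derivation.leibniz, Derivation.leibniz, smul_eq_mul, smul_eq_mul, smul_eq_mul,
      smul_eq_mul, map_add, map_add, map_mul, map_mul, map_mul, map_mul]
    ring
  have hff : pi k (ff k) = 0 := (pi_eq_zero k _).2 ⟨1, (mul_one _).symm⟩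
  have hφff : φ (ff k) = 0 := by
    rw [hφ, dl9_ff, hc]
    have h1 : mo k (-fE 0) * mo k (fE 0) = 1 := by rw [← mo_add, neg_add_cancel, mo_zero]
    change pi k (dl k v (ff k)) - pi k (dl k v (ff k)) * mo k (-fE 0) * mo k (fE 0) = 0
    rw [mul_assoc, h1, mul_one, sub_self]
  have hker : ∀ p, pi k p = 0 → φ p = 0 := by
    intro p hp
    obtain ⟨q, rfl⟩ := (pi_eq_zero k p).1 hp
    rw [hLeib, hff, hφff, zero_mul, mul_zero, add_zero]
  obtain ⟨s, hs⟩ := (pi k).toLinearMap.exists_rightInverse_of_surjective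
    (LinearMap.range_eq_top.2 (pi_surjective k))
  have hs' : ∀ r, pi k (s r) = r := fun r => LinearMap.congr_fun hs r
  have hD : ∀ p, (φ ∘ₗ s) (pi k p) = φ p := by
    intro p
    change φ (s (pi k p)) = φ p
    rw [← sub_eq_zero, ← map_sub]
    apply hker
    rw [map_sub, hs', sub_self]
  refine ⟨Derivation.mk' (φ ∘ₗ s) ?_, ?_⟩
  · intro a b
    obtain ⟨p, rfl⟩ := pi_surjective k a
    obtain ⟨q, rfl⟩ := pi_surjective k b
    rw [← map_mul, hD, hD, hD, hLeib, smul_eq_mul, smul_eq_mul]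
  · intro p
    change (φ ∘ₗ s) (pi k p) = _
    rw [hD, hφ]

/-- the derivation `η_v = x_v ∂_v - (x_v ∂_v f / z3 ∂_{z3} f) z3 ∂_{z3}` of `RL` -/
noncomputable def eta (v : Vr) : Derivation k (RL k) (RL k) := (exists_eta k v).choose

lemma eta_pi (v : Vr) (p : Lau k) : eta k v (pi k p) =
    pi k (dl k v p) - pi k (dl k v (ff k)) * mo k (-fE 0) * pi k (dl k 9 p) :=
  (exists_eta k v).choose_spec p

/-- the field of fractions of `RL` -/
abbrev FL := FractionRing (RL k)

/-- the extension of `η_v` to the field of fractions -/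
noncomputable def etaF (v : Vr) : Derivation k (FL k) (FL k) := (exists_ext_der k (eta k v)).choose

lemma etaF_algebraMap (v : Vr) (r : RL k) :
    etaF k v (algebraMap (RL k) (FL k) r) = algebraMap (RL k) (FL k) (eta k v r) :=
  (exists_ext_der k (eta k v)).choose_spec r

end BS
end

section

/-!
# The anticanonical five-derivations of `RL`
-/

set_option autoImplicit false

open Matrix

namespace BS

open MPbd3808.BR

universe u

variable (k : Type u) [Field k]

/-- the standard enumeration: `s0 u0 mu z0` and `s1 u1 la z1 z2 z3` -/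
def e0 : Fin 4 ⊕ Fin 6 ≃ Vr where
  toFun := Sum.elim ![0,2,5,6] ![1,3,4,7,8,9]
  invFun := ![.inl 0, .inr 0, .inl 1, .inr 1, .inr 2, .inl 2, .inl 3, .inr 3, .inr 4, .inr 5]
  left_inv := by decide
  right_inv := by decide

lemma isEnum_e0 : IsEnum {0,2,5,6} e0 := by
  constructor <;> decide

/-- the five variables `s1 u1 la z1 z2` -/
def w5 : Fin 5 → Vr := ![1,3,4,7,8]

/-- the matrix of the logarithmic derivatives of `f` and of five Laurent polynomials, in `RL` -/
noncomputable def MM (p : Fin 5 → Lau k) : Matrix (Fin 6) Vr (RL k) :=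
  Matrix.of (Fin.cons (α := fun _ => Vr → RL k) (fun v => pi k (dl k v (ff k)))
    (fun i v => pi k (dl k v (p i))))

private theorem Jac_euler {τ : Finset Vr} {a : Deg} {q : Lau k} (hq : q ∈ LD k τ a) (j : Fin 4) :
    ∑ v, pi k (dl k v q) * ((dg v j : ℤ) : RL k) = ((a j : ℤ) : k) • pi k q := by
  have h := congrArg (pi k) (euler k hq j)
  rw [map_sum, map_smul] at h
  rw [← h]
  refine Finset.sum_congr rfl fun v _ => ?_
  rw [map_smul, Int.cast_smul_eq_zsmul, zsmul_eq_mul, mul_comm]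

/-- PROOF. `euler`: row `0`: `pi` of `∑ v, dg v j • dl v ff = dF j • ff`, and `pi ff = 0`; the other rows: degree `0`. -/
theorem MM_euler {τ : Finset Vr} (p : Fin 5 → Lau k) (hp : ∀ i, p i ∈ LD k τ 0) :
    MM k p * (Matrix.of fun (v : Vr) (j : Fin 4) => ((dg v j : ℤ) : RL k)) = 0 := by
  refine Matrix.ext fun i j => ?_
  rw [Matrix.mul_apply, Matrix.zero_apply]
  have h0 : pi k (ff k) = 0 := (pi_eq_zero k _).2 ⟨1, (mul_one _).symm⟩
  refine Fin.cases ?_ (fun i => ?_) i
  · have h1 := Jac_euler k (ff_mem k τ) j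
    rw [h0, smul_zero] at h1
    exact h1
  · have h1 := Jac_euler k (hp i) j
    rw [Pi.zero_apply, Int.cast_zero, zero_smul] at h1
    exact h1

/-- PROOF. `det_schur` with `n = 5`, `u := mo (- fE 0)`, the last column is `z3 = 9` (`dl9_ff`), and `eta_pi`. -/
theorem jac_eta (p : Fin 5 → Lau k) :
    ((MM k p).submatrix id (fun j => e0 (.inr j))).det =
      - mo k (fE 0) * (Matrix.of fun i j => eta k (w5 j) (pi k (p i))).det := by
  have h9 : pi k (dl k 9 (ff k)) = mo k (fE 0) := by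
    rw [dl9_ff]
    rfl
  have hu : mo k (-fE 0) * pi k (dl k (e0 (.inr (Fin.last 5))) (ff k)) = 1 := by
    have e9 : e0 (.inr (Fin.last 5)) = 9 := rfl
    rw [e9, h9, ← mo_add, neg_add_cancel, mo_zero]
  have h1 := det_schur (fun j : Fin 6 => pi k (dl k (e0 (.inr j)) (ff k)))
    (fun (i : Fin 5) (j : Fin 6) => pi k (dl k (e0 (.inr j)) (p i))) (mo k (-fE 0)) hu
  have h2 : (MM k p).submatrix id (fun j => e0 (.inr j)) =
      Matrix.of (Fin.cons (α := fun _ => Fin 6 → RL k)
        (fun j : Fin 6 => pi k (dl k (e0 (.inr j)) (ff k)))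
        (fun (i : Fin 5) (j : Fin 6) => pi k (dl k (e0 (.inr j)) (p i)))) := by
    refine Matrix.ext fun i j => ?_
    refine Fin.cases ?_ (fun i => ?_) i
    · rfl
    · rfl
  rw [h2, h1]
  have e9 : e0 (.inr (Fin.last 5)) = 9 := rfl
  have h3 : (Matrix.of fun i j : Fin 5 => pi k (dl k (e0 (.inr j.castSucc)) (p i)) -
      mo k (-fE 0) * pi k (dl k (e0 (.inr j.castSucc)) (ff k)) *
        pi k (dl k (e0 (.inr (Fin.last 5))) (p i))) =
      Matrix.of fun i j => eta k (w5 j) (pi k (p i)) := by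
    refine Matrix.ext fun i j => ?_
    rw [Matrix.of_apply, Matrix.of_apply, eta_pi, e9]
    have h4 : e0 (.inr j.castSucc) = w5 j := by
      fin_cases j <;> rfl
    rw [h4, mul_comm (mo k (-fE 0))]
  rw [h3, e9, h9]
  ring

/-- PROOF. `det_exchange e0 e (MM p) E` for `E v j = dg v j`, `MM_euler`, and both determinants of the complementary minors of `E` are `1` (`det_enum` for
`isEnum_e0` and `he`, mapped from `ℤ` to `RL`: `Int.castRingHom`, `RingHom.map_det`). -/
theorem jac_exchange {σ τ : Finset Vr} {e : Fin 4 ⊕ Fin 6 ≃ Vr} (he : IsEnum σ e)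
    (p : Fin 5 → Lau k) (hp : ∀ i, p i ∈ LD k τ 0) :
    ∃ ε : ℤˣ, ((MM k p).submatrix id (fun j => e0 (.inr j))).det =
      ((ε : ℤ) : RL k) * ((MM k p).submatrix id (fun j => e (.inr j))).det := by
  obtain ⟨ε, hε⟩ := det_exchange e0 e (MM k p) _ (MM_euler k p hp)
  refine ⟨ε, ?_⟩
  have hd : ∀ {σ' : Finset Vr} {e' : Fin 4 ⊕ Fin 6 ≃ Vr} (_ : IsEnum σ' e'),
      ((Matrix.of fun (v : Vr) (j : Fin 4) => ((dg v j : ℤ) : RL k)).submatrix
        (fun i => e' (.inl i)) id).det = 1 := by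
    intro σ' e' he'
    have h1 := RingHom.map_det (Int.castRingHom (RL k))
      (Matrix.of fun i j : Fin 4 => dg (e' (.inl i)) j)
    rw [det_enum he', map_one] at h1
    rw [h1]
    congr 1
  rw [hd he, hd isEnum_e0, mul_one, mul_one] at hε
  exact hε

/-- the anticanonical five-derivation defined by a Laurent monomial `x^h` of degree `(1;1,1,3)` -/
noncomputable def DD (h : Ex) (r : Fin 5 → RL k) : RL k :=
  mo k (h - 1 + fE 0) * (Matrix.of fun i j => eta k (w5 j) (r i)).det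

/-- PROOF. `jac_eta`, `jac_exchange`, `mo_add` (`h - 1 + fE 0 = (h - 1) + fE 0`). -/
theorem DD_eq {σ τ : Finset Vr} {e : Fin 4 ⊕ Fin 6 ≃ Vr} (he : IsEnum σ e) (h : Ex)
    (p : Fin 5 → Lau k) (hp : ∀ i, p i ∈ LD k τ 0) :
    ∃ ε : ℤˣ, DD k h (fun i => pi k (p i)) =
      ((ε : ℤ) : RL k) * mo k (h - 1) * ((MM k p).submatrix id (fun j => e (.inr j))).det := by
  obtain ⟨ε, hε⟩ := jac_exchange k he p hp
  refine ⟨-ε, ?_⟩
  rw [jac_eta] at hε
  unfold DD
  rw [mo_add]
  have h1 : ((((-ε : ℤˣ) : ℤ)) : RL k) = -(((ε : ℤ)) : RL k) := by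
    rw [Units.val_neg, Int.cast_neg]
  rw [h1]
  linear_combination (-mo k (h - 1)) * hε

end BS
end

section

/-!
# Values of the anticanonical five-derivations
-/

set_option autoImplicit false

open Matrix

namespace BS

open MPbd3808.BR

universe u

variable (k : Type u) [Field k]

/-- the partial derivative `∂f/∂x_q`, normalized to degree `0` on the chart `σ` -/
noncomputable def cc (σ : Finset Vr) (q : Vr) : Lau k :=
  mono k (-un σ (dF - dg q)) 1 * (mono k (-Pi.single q 1) 1 * dl k q (ff k))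

theorem cc_mem {σ : Finset Vr} (hσ : Full σ) (q : Vr) : cc k σ q ∈ LD k σ 0 := by
  have h1 := par_mem k (ff_mem k σ) q
  have h2 : mono k (-un σ (dF - dg q)) 1 ∈ LD k σ (-(dF - dg q)) :=
    mono_mem k (fun v hv => by simp [un_of_notMem hσ _ hv]) (by rw [degE_neg, degE_un]) 1
  have h3 := mul_mem_LD k h2 h1
  rwa [neg_add_cancel] at h3

/-- the coordinate functions on the chart `σ` -/
noncomputable def yy (σ : Finset Vr) (v : Vr) : Lau k := mono k (Pi.single v 1 - un σ (dg v)) 1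

theorem yy_mem {σ : Finset Vr} (hσ : Full σ) (v : Vr) : yy k σ v ∈ LD k σ 0 := by
  refine mono_mem k (fun w hw => ?_) ?_ 1
  · rw [Pi.sub_apply, un_of_notMem hσ _ hw, sub_zero]
    by_cases h : w = v
    · subst h; simp
    · simp [Pi.single_apply, h]
  · have h1 := degE_smul_single 1 v
    rw [one_smul, one_smul] at h1
    rw [sub_eq_add_neg, degE_add, degE_neg, degE_un, h1, add_neg_cancel]

/-- The value on the five coordinates `yy (v i)`, `v i = e (inr i.succ)` (all coordinates outside `σ` except `q = e (inr 0)`) is a unit monomial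
times `cc q`.

PROOF. `DD_eq` with `p i := yy σ (e (inr i.succ))` (`yy_mem`). By `dl_mono` `dl v (yy σ v') = (single v' 1 - un σ (dg v')) v • yy σ v'`, for `v ∉ σ` this is
`yy σ v'` if `v = v'` and `0` otherwise (`un_of_notMem`). So the `6 × 6` matrix is that of `det_val` with `a j = pi (dl (e (inr j)) ff)` and `y i = pi (yy ..)`:
the determinant is `pi (dl q ff) * ∏ i, pi (yy σ (v i))`. And `dl q ff = mono (single q 1 + un σ (dF - dg q)) 1 * cc σ q`. All monomials together: the exponent is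
`E := h - 1 + single q 1 + un σ (dF - dg q) + ∑ i, (single (v i) 1 - un σ (dg (v i)))`. Outside `σ` it is `h v - 1 + 1 = h v` (each `v ∉ σ` is exactly one of
the `e (inr j)`, `un` vanishes there). Its degree: `degE (yy exponents) = 0`; `degE h = (1,1,1,3)`, `degE 1 = ∑ v, dg v = (2,1,2,4)`, so
`degE E = (1,1,1,3) - (2,1,2,4) + dg q + (dF - dg q) = 0`. -/
theorem DD_val {σ : Finset Vr} (hσ : Full σ) {e : Fin 4 ⊕ Fin 6 ≃ Vr} (he : IsEnum σ e) (h : Ex)
    (hd : degE h = ![1,1,1,3]) :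
    ∃ (E : Ex) (ε : ℤˣ), degE E = 0 ∧ (∀ v, v ∉ σ → E v = h v) ∧
      DD k h (fun i => pi k (yy k σ (e (.inr i.succ)))) =
        ((ε : ℤ) : RL k) * mo k E * pi k (cc k σ (e (.inr 0))) := by
  obtain ⟨ε, hε⟩ := DD_eq k he h (fun i => yy k σ (e (.inr i.succ))) (fun i => yy_mem k hσ _)
  have hmat : (MM k (fun i => yy k σ (e (.inr i.succ)))).submatrix id (fun j => e (.inr j)) =
      Matrix.of (Fin.cons (α := fun _ => Fin 6 → RL k)
        (fun j => pi k (dl k (e (.inr j)) (ff k)))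
        (fun i j => if j = i.succ then pi k (yy k σ (e (.inr i.succ))) else 0)) := by
    ext i j
    refine Fin.cases ?_ (fun i => ?_) i
    · rfl
    · change pi k (dl k (e (.inr j)) (yy k σ (e (.inr i.succ)))) =
        if j = i.succ then pi k (yy k σ (e (.inr i.succ))) else 0
      unfold yy
      rw [dl_mono, Pi.sub_apply, un_of_notMem hσ _ (he.2 j), sub_zero, mul_one]
      by_cases hj : j = i.succ
      · rw [if_pos hj, hj, Pi.single_eq_same, Int.cast_one]
      · have hne : e (.inr j) ≠ e (.inr i.succ) := fun h => hj (Sum.inr_injective (e.injective h))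
        rw [if_neg hj, Pi.single_eq_of_ne hne, Int.cast_zero]
        have h0 : mono k (Pi.single (e (.inr i.succ)) 1 - un σ (dg (e (.inr i.succ)))) (0 : k) = 0 :=
          AddMonoidAlgebra.single_zero _
        rw [h0, map_zero]
  rw [hmat, det_val] at hε
  have hprod : ∏ i : Fin 5, pi k (yy k σ (e (.inr i.succ))) =
      mo k (∑ i : Fin 5, (Pi.single (e (.inr i.succ)) 1 - un σ (dg (e (.inr i.succ))))) := by
    have h1 : ∀ s : Finset (Fin 5), ∏ i ∈ s, pi k (yy k σ (e (.inr i.succ))) =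
        mo k (∑ i ∈ s, (Pi.single (e (.inr i.succ)) 1 - un σ (dg (e (.inr i.succ))))) := by
      intro s
      induction s using Finset.induction_on with
      | empty => rw [Finset.prod_empty, Finset.sum_empty, mo_zero]
      | insert a s ha ih => rw [Finset.prod_insert ha, Finset.sum_insert ha, mo_add, ih]; rfl
    exact h1 Finset.univ
  have hcc : dl k (e (.inr 0)) (ff k) =
      mono k (Pi.single (e (.inr 0)) 1 + un σ (dF - dg (e (.inr 0)))) 1 * cc k σ (e (.inr 0)) := by
    unfold cc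
    rw [← mul_assoc, ← mul_assoc, AddMonoidAlgebra.single_mul_single,
      AddMonoidAlgebra.single_mul_single]
    have h1 : (Pi.single (e (.inr 0)) 1 + un σ (dF - dg (e (.inr 0))) +
      -un σ (dF - dg (e (.inr 0))) + -Pi.single (e (.inr 0)) 1 : Ex) = 0 := by abel
    rw [h1, mul_one, mul_one]
    have h2 : (AddMonoidAlgebra.single (0 : Ex) (1 : k) : Lau k) = 1 := rfl
    rw [h2, one_mul]
  refine ⟨(h - 1) + (Pi.single (e (.inr 0)) 1 + un σ (dF - dg (e (.inr 0)))) +
    ∑ i : Fin 5, (Pi.single (e (.inr i.succ)) 1 - un σ (dg (e (.inr i.succ)))), ε, ?_, ?_, ?_⟩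
  · have hs : ∀ v : Vr, degE (Pi.single v 1) = dg v := fun v => by
      have := degE_smul_single 1 v
      rwa [one_smul, one_smul] at this
    have h1 : degE (h - 1) = -dF := by
      rw [sub_eq_add_neg, degE_add, degE_neg, hd]
      decide
    have h2 : ∀ s : Finset (Fin 5),
        degE (∑ i ∈ s, (Pi.single (e (.inr i.succ)) 1 - un σ (dg (e (.inr i.succ))))) = 0 := by
      intro s
      induction s using Finset.induction_on with
      | empty => rw [Finset.sum_empty, degE_zero]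
      | insert a s ha ih =>
        rw [Finset.sum_insert ha, degE_add, ih, sub_eq_add_neg, degE_add, degE_neg, degE_un, hs,
          add_neg_cancel, add_zero]
    rw [degE_add, degE_add, degE_add, h1, h2, hs, degE_un]
    abel
  · intro v hv
    have h1 : ∀ w : Vr, un σ (dg w) v = 0 := fun w => un_of_notMem hσ _ hv
    obtain ⟨j, hj⟩ : ∃ j, e (.inr j) = v := by
      rcases hw : e.symm v with i | j
      · exact absurd (by rw [← e.apply_symm_apply v, hw]; exact (he.1 i).1) hv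
      · exact ⟨j, by rw [← hw, e.apply_symm_apply]⟩
    have h3 : ∑ j' : Fin 6, (Pi.single (e (.inr j')) (1 : ℤ) : Ex) v = 1 := by
      rw [Finset.sum_eq_single j]
      · rw [hj, Pi.single_eq_same]
      · intro b _ hb
        refine Pi.single_eq_of_ne (fun h => hb ?_) _
        rw [← hj] at h
        exact (Sum.inr_injective (e.injective h)).symm
      · intro h; exact absurd (Finset.mem_univ _) h
    rw [Fin.sum_univ_succ] at h3
    simp only [Pi.add_apply, Pi.sub_apply, Finset.sum_apply, h1, un_of_notMem hσ _ hv, sub_zero,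
      add_zero, Pi.one_apply]
    linarith
  · rw [hε, hprod, hcc, map_mul, mo_add, mo_add]
    unfold mo
    ring

end BS
end
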