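import Pool.Agent.Lib.MP_bd3808_ag.Mg.G023
import Pool.Agent.Lib.MP_bd3808_ag.Mg.G025

section

/-!
# A sheaf which satisfies `Loc` on an affine cover is quasi-coherent
-/

set_option autoImplicit false

open CategoryTheory CategoryTheory.Limits AlgebraicGeometry TopologicalSpace

namespace BS

universe u

variable {X : Scheme.{u}}

open Scheme.Modules in
set_option backward.isDefEq.respectTransparency false in
/-- If the restriction of `M` to `Spec Γ(X,U)` comes from a module, then `M.over U` has a presentation.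

PROOF. `M' := M.restrict hU.fromSpec` is isomorphic (by `fromTildeΓ`) to `tilde N`, which has a presentation
(`presentationTilde` with the set of all elements, as in the instance after it), so `M'` has one
(`SheafOfModules.Presentation.ofIsIso`). `M.restrict U.ι ≅ M'.restrict (hU.isoSpec.hom)` because
`hU.isoSpec.hom ≫ hU.fromSpec = U.ι` (`restrictFunctorComp`, `restrictFunctorCongr`); so it has a presentation
(`presentationRestrict`). Finally `M.over U ≅ (overEquiv U).inverse.obj (M.restrict U.ι)` by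
`Scheme.Modules.overFunctorEquiv` (`overFunctor X.ringCatSheaf U ⋙ (overEquiv U).functor ≅ restrictFunctor U.ι`),
and `(overEquiv U).inverse` preserves colimits and sends `unit` to `unit` (apply `(overEquiv U).inverse` to
`(overEquiv U).functor.obj (unit _) ≅ unit _`, which comes from `overFunctorEquiv` at the structure sheaf and
`Scheme.Modules.restrictUnitIso`): `SheafOfModules.Presentation.map`. Compare with the proof of
`Scheme.Modules.exists_isOpenCover_presentation` (the converse) in Mathlib/AlgebraicGeometry/Modules/Tilde.lean. -/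
theorem presentation_over (M : X.Modules) {U : X.Opens} (hU : IsAffineOpen U)
    (h : IsIso (Scheme.Modules.fromTildeΓ (M.restrict hU.fromSpec))) :
    Nonempty ((SheafOfModules.over.{u} (R := X.ringCatSheaf) M U).Presentation) := by
  let M' := M.restrict hU.fromSpec
  let N := (modulesSpecToSheaf.obj M').presheaf.obj (.op ⊤)
  let p0 : (tilde N).Presentation := presentationTilde _ .univ (by simp) _ (Submodule.span_eq _)
  let p1 : M'.Presentation := SheafOfModules.Presentation.ofIsIso.{u, u, u} M'.fromTildeΓ p0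
  let p2 : (M'.restrict hU.isoSpec.hom).Presentation := presentationRestrict _ p1
  let iso : restrictFunctor hU.fromSpec ⋙ restrictFunctor hU.isoSpec.hom ≅ restrictFunctor U.ι :=
    (restrictFunctorComp _ _).symm ≪≫ restrictFunctorCongr (by simp)
  let p3 : (M.restrict U.ι).Presentation :=
    SheafOfModules.Presentation.ofIsIso.{u, u, u} (iso.app M).hom p2
  let F := (overEquiv U).inverse
  let e0 : (overEquiv U).functor.obj (SheafOfModules.unit (X.ringCatSheaf.over U)) ≅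
      SheafOfModules.unit (U : Scheme.{u}).ringCatSheaf :=
    (overFunctorEquiv U).app (SheafOfModules.unit X.ringCatSheaf) ≪≫ restrictUnitIso U.ι
  let η : SheafOfModules.unit (X.ringCatSheaf.over U) ≅
      F.obj (SheafOfModules.unit (U : Scheme.{u}).ringCatSheaf) :=
    (overEquiv U).unitIso.app _ ≪≫ F.mapIso e0
  let p4 : (F.obj (M.restrict U.ι)).Presentation := p3.map F η
  let e1 : SheafOfModules.over.{u} (R := X.ringCatSheaf) M U ≅ F.obj (M.restrict U.ι) :=
    (overEquiv U).unitIso.app _ ≪≫ F.mapIso ((overFunctorEquiv U).app M)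
  exact ⟨SheafOfModules.Presentation.ofIsIso.{u, u, u} e1.inv p4⟩

/-- A sheaf of modules which satisfies `Loc` on affine neighbourhoods of all points is quasi-coherent.

PROOF. `SheafOfModules.QuasicoherentData` with `I := X` (the points; choose `U x` for every `x`), `X x := U x`,
`coversTop` from `Opens.coversTop_iff`, presentations from `presentation_over` and
`isIso_fromTildeΓ_of_loc`; then `QuasicoherentData.isQuasicoherent`. -/
theorem qcoh_of_loc (M : X.Modules)
    (h : ∀ x : X, ∃ U : X.Opens, x ∈ U ∧ IsAffineOpen U ∧ Loc M U) : isQCoh X M := by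
  choose U hxU hU hL using h
  let q : SheafOfModules.QuasicoherentData.{u} (R := X.ringCatSheaf) M :=
    { I := X
      X := U
      coversTop := by
        rw [Opens.coversTop_iff, IsOpenCover, eq_top_iff]
        intro x _
        exact Opens.mem_iSup.2 ⟨x, hxU x⟩
      presentation := fun x =>
        (presentation_over M (hU x) (isIso_fromTildeΓ_of_loc M (hU x) (hL x))).some }
  exact q.isQuasicoherent

end BS
end

section

/-!
# Cokernels of morphisms of quasi-coherent sheaves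
-/

set_option autoImplicit false

open CategoryTheory CategoryTheory.Limits AlgebraicGeometry TopologicalSpace

namespace BS

universe u

/-- The affine case: `R` a ring, `M ⟶ N` a morphism of sheaves of modules on `Spec R` which come from modules.

PROOF. `M ≅ tilde A`, `N ≅ tilde B` (by `fromTildeΓ`), and `f` corresponds to `tilde.map φ` with `φ : A ⟶ B`
(`tilde.functor R` is full). `tilde.functor R` is a left adjoint (`tilde.adjunction`), so it preserves cokernels:
`cokernel f ≅ tilde (cokernel φ)`, compatible with the projections. Hence (`isIso_fromTildeΓ_iff`) the third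
statement. For the first two: on global sections the projection becomes `B → cokernel φ` (`tilde.toTildeΓNatIso`:
`Γ(tilde B) = B` naturally), which is surjective with kernel the image of `φ`. -/
theorem cok_affine {R : CommRingCat.{u}} {M N : (Spec R).Modules} (f : M ⟶ N)
    (hM : IsIso (Scheme.Modules.fromTildeΓ M)) (hN : IsIso (Scheme.Modules.fromTildeΓ N)) :
    Function.Surjective (ap (cokernel.π f) ⊤) ∧
      (∀ y : Γ(N, ⊤), ap (cokernel.π f) ⊤ y = 0 → ∃ x, ap f ⊤ x = y) ∧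
      IsIso (Scheme.Modules.fromTildeΓ (cokernel f)) := by
  let Γf : (Spec R).Modules ⥤ ModuleCat R := moduleSpecΓFunctor (R := R)
  let T : ModuleCat R ⥤ (Spec R).Modules := tilde.functor R
  let adj : T ⊣ Γf := tilde.adjunction
  let φ : Γf.obj M ⟶ Γf.obj N := Γf.map f
  let εM : T.obj (Γf.obj M) ⟶ M := adj.counit.app M
  let εN : T.obj (Γf.obj N) ⟶ N := adj.counit.app N
  have iM : IsIso εM := hM
  have iN : IsIso εN := hN
  have hnat : T.map φ ≫ εN = εM ≫ f := adj.counit.naturality f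
  have hadd : T.Additive := inferInstanceAs (tilde.functor R).Additive
  have hlad : T.IsLeftAdjoint := adj.isLeftAdjoint
  -- the cokernel
  let e : cokernel f ≅ T.obj (cokernel φ) :=
    (cokernel.mapIso (T.map φ) f (asIso εM) (asIso εN) hnat).symm ≪≫
      (PreservesCokernel.iso T φ).symm
  have he : cokernel.π f ≫ e.hom = inv εN ≫ T.map (cokernel.π φ) := by
    rw [← cancel_epi εN]
    simp [e]
  have hess : IsIso (Scheme.Modules.fromTildeΓ (cokernel f)) :=
    isIso_fromTildeΓ_iff.mpr ⟨cokernel φ, ⟨e.symm⟩⟩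
  have h1 : Γf.map (inv εN) = adj.unit.app (Γf.obj N) := by
    have := adj.right_triangle_components N
    rw [Functor.map_inv, ← cancel_mono (Γf.map εN), IsIso.inv_hom_id]
    exact this.symm
  have h2 : Γf.map (cokernel.π f) =
      cokernel.π φ ≫ adj.unit.app (cokernel φ) ≫ Γf.map e.inv := by
    have h3 : cokernel.π f = inv εN ≫ T.map (cokernel.π φ) ≫ e.inv := by
      rw [← Category.assoc, ← he, Category.assoc, e.hom_inv_id, Category.comp_id]
    rw [h3, Functor.map_comp, Functor.map_comp, h1, ← Category.assoc, ← Category.assoc]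
    congr 1
    exact (adj.unit.naturality (cokernel.π φ)).symm
  have hu : IsIso adj.unit := inferInstanceAs (IsIso (tilde.adjunction (R := R)).unit)
  have hi : IsIso (adj.unit.app (cokernel φ) ≫ Γf.map e.inv) := inferInstance
  have hbij := ConcreteCategory.bijective_of_isIso (adj.unit.app (cokernel φ) ≫ Γf.map e.inv)
  have h4 : ∀ y : Γ(N, ⊤), ap (cokernel.π f) ⊤ y =
      (adj.unit.app (cokernel φ) ≫ Γf.map e.inv).hom ((cokernel.π φ).hom y) := fun y =>
    congrArg (fun g => g.hom y) h2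
  have hex := ShortComplex.exact_cokernel φ
  rw [ShortComplex.moduleCat_exact_iff] at hex
  refine ⟨?_, ?_, hess⟩
  · intro z
    obtain ⟨w, hw⟩ := hbij.2 z
    obtain ⟨y, hy⟩ := (ModuleCat.epi_iff_surjective (cokernel.π φ)).1 inferInstance w
    refine ⟨y, ?_⟩
    rw [h4]
    erw [hy]
    exact hw
  · intro y hy
    rw [h4] at hy
    have hy2 : (cokernel.π φ).hom y = 0 := by
      apply hbij.1
      rw [map_zero]
      exact hy
    obtain ⟨x, hx⟩ := hex y hy2
    exact ⟨x, hx⟩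

end BS
end

section

/-!
# Cokernels of morphisms of quasi-coherent sheaves
-/

set_option autoImplicit false

open CategoryTheory CategoryTheory.Limits AlgebraicGeometry TopologicalSpace

namespace BS

universe u

variable {X : Scheme.{u}}

private lemma CokSec2_zero {Y : Scheme.{u}} (j : Y ⟶ X) [IsOpenImmersion j] :
    (Scheme.Modules.restrictFunctor j).PreservesZeroMorphisms :=
  ⟨fun _ _ => rfl⟩

private lemma CokSec2_tilde (M : X.Modules) (hM : isQCoh X M) {U : X.Opens} (hU : IsAffineOpen U) :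
    IsIso (Scheme.Modules.fromTildeΓ (M.restrict hU.fromSpec)) := by
  have h : SheafOfModules.IsQuasicoherent.{u} (R := X.ringCatSheaf) M := hM
  infer_instance

private lemma CokSec2_main {M N : X.Modules} (f : M ⟶ N) (hM : isQCoh X M) (hN : isQCoh X N)
    {U : X.Opens} (hU : IsAffineOpen U) :
    Function.Surjective (ap (cokernel.π f) (hU.fromSpec ''ᵁ ⊤)) ∧
      (∀ y : Γ(N, hU.fromSpec ''ᵁ ⊤), ap (cokernel.π f) (hU.fromSpec ''ᵁ ⊤) y = 0 →
        ∃ x, ap f (hU.fromSpec ''ᵁ ⊤) x = y) ∧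
      IsIso (Scheme.Modules.fromTildeΓ ((cokernel f).restrict hU.fromSpec)) := by
  have hz := CokSec2_zero hU.fromSpec
  let R := Scheme.Modules.restrictFunctor hU.fromSpec
  obtain ⟨h1, h2, h3⟩ := cok_affine (R.map f) (CokSec2_tilde M hM hU) (CokSec2_tilde N hN hU)
  let e := PreservesCokernel.iso R f
  have he : R.map (cokernel.π f) ≫ e.hom = cokernel.π (R.map f) := PreservesCokernel.π_iso_hom R f
  have he' : ∀ y : Γ(N.restrict hU.fromSpec, ⊤),
      ap e.hom ⊤ (ap (R.map (cokernel.π f)) ⊤ y) = ap (cokernel.π (R.map f)) ⊤ y := by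
    intro y
    rw [← he]
    rfl
  have hinv : ∀ y : Γ((cokernel f).restrict hU.fromSpec, ⊤), ap e.inv ⊤ (ap e.hom ⊤ y) = y := by
    intro y
    rw [← ap_comp, e.hom_inv_id, ap_id]
  refine ⟨?_, ?_, ?_⟩
  · intro y
    obtain ⟨x, hx⟩ := h1 (ap e.hom ⊤ (show Γ((cokernel f).restrict hU.fromSpec, ⊤) from y))
    refine ⟨x, ?_⟩
    have h4 := congrArg (ap e.inv ⊤) ((he' x).trans hx)
    rw [hinv, hinv] at h4
    exact h4
  · intro y hy
    have h4 : ap (cokernel.π (R.map f)) ⊤ (show Γ(N.restrict hU.fromSpec, ⊤) from y) = 0 := by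
      rw [← he']
      have h5 : ap (R.map (cokernel.π f)) ⊤ (show Γ(N.restrict hU.fromSpec, ⊤) from y) = 0 := hy
      rw [h5, map_zero]
    exact h2 _ h4
  · rw [isIso_fromTildeΓ_iff] at h3 ⊢
    exact (tilde.functor _).essImage.prop_of_iso e.symm h3

private lemma CokSec2_top {U : X.Opens} (hU : IsAffineOpen U) : hU.fromSpec ''ᵁ ⊤ = U := by
  rw [Scheme.Hom.image_top_eq_opensRange, hU.opensRange_fromSpec]

/-- PROOF (of the four statements below). Let `j := hU.fromSpec`. The functor `restrictFunctor j` is a left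
adjoint (`Scheme.Modules.restrictAdjunction`), so it preserves cokernels: `(cokernel f).restrict j ≅ cokernel f'`
with `f' := (restrictFunctor j).map f`, compatible with the projections from `N.restrict j`. `M.restrict j` and
`N.restrict j` are quasi-coherent (instance), so `fromTildeΓ` is an isomorphism for them, and `cok_affine`
applies to `f'`. Sections of `F.restrict j` over `⊤` are those of `F` over `j ''ᵁ ⊤ = U`
(`restrictAppIso`, `IsAffineOpen.fromSpec` has range `U`). -/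
theorem cok_surj {M N : X.Modules} (f : M ⟶ N) (hM : isQCoh X M) (hN : isQCoh X N) {U : X.Opens}
    (hU : IsAffineOpen U) : Function.Surjective (ap (cokernel.π f) U) := by
  have h := (CokSec2_main f hM hN hU).1
  rw [CokSec2_top hU] at h
  exact h

theorem cok_exact {M N : X.Modules} (f : M ⟶ N) (hM : isQCoh X M) (hN : isQCoh X N) {U : X.Opens}
    (hU : IsAffineOpen U) (y : Γ(N, U)) (hy : ap (cokernel.π f) U y = 0) : ∃ x, ap f U x = y := by
  have h := (CokSec2_main f hM hN hU).2.1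
  rw [CokSec2_top hU] at h
  exact h y hy

/-- PROOF. See above, third part of `cok_affine`. -/
theorem cok_isIso {M N : X.Modules} (f : M ⟶ N) (hM : isQCoh X M) (hN : isQCoh X N) {U : X.Opens}
    (hU : IsAffineOpen U) :
    IsIso (Scheme.Modules.fromTildeΓ ((cokernel f).restrict hU.fromSpec)) :=
  (CokSec2_main f hM hN hU).2.2

/-- PROOF. Either use `presentation_over` and the proof of `qcoh_of_loc` with the third part of `cok_affine`, or
prove `Loc (cokernel f) U` for affine `U` elementarily from `cok_surj`, `cok_exact` on `U` and on `D(g)` (which is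
affine) and `loc_of_qcoh` for `M` and `N`, and apply `qcoh_of_loc` (every point has an affine neighbourhood).
Elementary: let `s` be a section of the cokernel over `D(g)`; lift it to `y : Γ(N,D(g))`, `g^n y = y'|`, with
`y' : Γ(N,U)`; then `g^n s` is the restriction of the image of `y'`. If `t` is a section over `U`, image of
`y`, with `t|D(g) = 0`: then `y|D(g) = f(x)`, `g^n x = x'|`, so `g^n y - f(x')` restricts to `0` on `D(g)`, is killed by
`g^m`, so `g^(n+m) t = 0`. -/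
theorem qcoh_cok {M N : X.Modules} (f : M ⟶ N) (hM : isQCoh X M) (hN : isQCoh X N) :
    isQCoh X (cokernel f) := by
  refine qcoh_of_loc _ fun p => ?_
  obtain ⟨U, hU, hpU, -⟩ := exists_isAffineOpen_mem_and_subset (X := X) (x := p)
    (U := ⊤) (Opens.mem_top p)
  refine ⟨U, hpU, hU, fun g => ?_⟩
  have hD : IsAffineOpen (X.basicOpen g) := hU.basicOpen g
  have lM := loc_of_qcoh M hM hU g
  have lN := loc_of_qcoh N hN hU g
  refine ⟨fun s => ?_, fun t ht => ?_⟩
  · obtain ⟨y, rfl⟩ := cok_surj f hM hN hD s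
    obtain ⟨n, y', hy'⟩ := lN.1 y
    refine ⟨n, ap (cokernel.π f) U y', ?_⟩
    rw [← ap_rM, hy', ap_smul]
  · obtain ⟨y, rfl⟩ := cok_surj f hM hN hU t
    rw [← ap_rM] at ht
    obtain ⟨x, hx⟩ := cok_exact f hM hN hD _ ht
    obtain ⟨n, x', hx'⟩ := lM.1 x
    have h1 : rM N (X.basicOpen_le g) (g ^ n • y - ap f U x') = 0 := by
      rw [map_sub, rM_smul, ← ap_rM, hx', ap_smul, hx, map_pow, sub_self]
    obtain ⟨m, hm⟩ := lN.2 _ h1
    refine ⟨m + n, ?_⟩
    have h2 : g ^ (m + n) • y = ap f U (g ^ m • x') := by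
      rw [smul_sub, smul_smul, ← pow_add, sub_eq_zero] at hm
      rw [hm, ap_smul]
    rw [← ap_smul, h2, ← ap_comp, cokernel.condition, ap_zero]

end BS
end

section

/-!
# The push-forward of the sheaf of a module on an affine open set
-/

set_option autoImplicit false

open CategoryTheory CategoryTheory.Limits AlgebraicGeometry TopologicalSpace

namespace BS

universe u

variable {X : Scheme.{u}}

/-- the push-forward to `X` of the sheaf on the affine open set `U` given by a module -/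
noncomputable def push {U : X.Opens} (hU : IsAffineOpen U) (N : ModuleCat.{u} Γ(X, U)) : X.Modules :=
  (Scheme.Modules.pushforward hU.fromSpec).obj (tilde (R := Γ(X, U)) N)

private lemma Push_smul {Y : Scheme.{u}} (j : Y ⟶ X) (T : Y.Modules) (V : X.Opens) (r : Γ(X, V))
    (x : Γ((Scheme.Modules.pushforward j).obj T, V)) :
    r • x = (show Γ((Scheme.Modules.pushforward j).obj T, V) from
      ((j.app V).hom r • (show Γ(T, j ⁻¹ᵁ V) from x))) := rfl

private lemma Push_rM_bij (M : X.Modules) {V W : X.Opens} (e : W = V) (h : V ≤ W) :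
    Function.Bijective (rM M h) := by
  subst e
  have h1 : ∀ x, rM M h x = x := rM_self M h
  exact ⟨fun x y hxy => by rwa [h1, h1] at hxy, fun x => ⟨x, h1 x⟩⟩

private lemma Push_loc_at {M : X.Modules} {U : X.Opens} (hM : Loc M U) (g : Γ(X, U)) (W : X.Opens)
    (hW : W = X.basicOpen g) (hWU : W ≤ U) :
    (∀ s : Γ(M, W), ∃ (n : ℕ) (t : Γ(M, U)), rM M hWU t = rO X hWU g ^ n • s) ∧
    ∀ t : Γ(M, U), rM M hWU t = 0 → ∃ n : ℕ, g ^ n • t = 0 := by
  subst hW
  exact hM g

private lemma Push_loc_pf {Y : Scheme.{u}} (j : Y ⟶ X) (T : Y.Modules) (V : X.Opens)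
    (h : Loc T (j ⁻¹ᵁ V)) : Loc ((Scheme.Modules.pushforward j).obj T) V := by
  intro g
  obtain ⟨h1, h2⟩ := Push_loc_at h ((j.app V).hom g) (j ⁻¹ᵁ X.basicOpen g)
    (Scheme.preimage_basicOpen j g) (fun x hx => X.basicOpen_le g hx)
  refine ⟨fun s => ?_, fun t ht => ?_⟩
  · obtain ⟨n, t, ht⟩ := h1 s
    refine ⟨n, t, ?_⟩
    rw [Push_smul]
    refine ht.trans ?_
    rw [map_pow]
    have h3 : (j.app (X.basicOpen g)).hom (rO X (X.basicOpen_le g) g) =
        rO Y (fun x hx => X.basicOpen_le g hx : j ⁻¹ᵁ X.basicOpen g ≤ j ⁻¹ᵁ V)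
          ((j.app V).hom g) := by
      have h4 := j.naturality (homOfLE (X.basicOpen_le g)).op
      exact congr($(h4).hom g)
    rw [h3]
  · obtain ⟨n, hn⟩ := h2 t ht
    refine ⟨n, ?_⟩
    rw [Push_smul, map_pow]
    exact hn

/-- `Γ(push N, U) = N`. -/
theorem push_sec {U : X.Opens} (hU : IsAffineOpen U) (N : ModuleCat.{u} Γ(X, U)) :
    ∃ e : N ≃+ Γ(push hU N, U), ∀ (r : Γ(X, U)) (n : N), e (r • n) = r • e n := by
  have hb : ∀ W : (Spec Γ(X, U)).Opens, W = ⊤ →
      Function.Bijective (tilde.toOpen (R := Γ(X, U)) N W).hom := by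
    intro W hW
    subst hW
    exact ConcreteCategory.bijective_of_isIso (tilde.toOpen (R := Γ(X, U)) N ⊤)
  have hW := hU.fromSpec_preimage_self
  refine ⟨AddEquiv.ofBijective
    (tilde.toOpen (R := Γ(X, U)) N (hU.fromSpec ⁻¹ᵁ U)).hom.toAddMonoidHom (hb _ hW),
    fun r n => ?_⟩
  refine ((tilde.toOpen (R := Γ(X, U)) N (hU.fromSpec ⁻¹ᵁ U)).hom.map_smul r n).trans ?_
  refine Eq.trans ?_ (Push_smul hU.fromSpec (tilde (R := Γ(X, U)) N) U r _).symm
  have h1 : (hU.fromSpec.app U).hom r = ((Spec Γ(X, U)).presheaf.map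
      (hU.fromSpec ⁻¹ᵁ U).leTop.op) ((Scheme.ΓSpecIso Γ(X, U)).inv r) := by
    rw [hU.fromSpec_app_self]
    rfl
  rw [h1]
  rfl

/-- PROOF. `fromSpec ⁻¹ᵁ W = fromSpec ⁻¹ᵁ (W ⊓ U)` because the range of `fromSpec` is `U`; so the restriction map is the
map of the presheaf of `tilde N` for an equality of open sets. -/
theorem push_bij {U : X.Opens} (hU : IsAffineOpen U) (N : ModuleCat.{u} Γ(X, U)) (W : X.Opens) :
    Function.Bijective (rM (push hU N) (inf_le_left : W ⊓ U ≤ W)) := by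
  have h1 : hU.fromSpec ⁻¹ᵁ W = hU.fromSpec ⁻¹ᵁ (W ⊓ U) := by
    have h2 := hU.fromSpec_preimage_self
    rw [Scheme.Hom.preimage_inf, h2, inf_top_eq]
  exact Push_rM_bij (tilde (R := Γ(X, U)) N) h1 (fun x hx => hx.1)

/-- `Loc` for open subsets of `U`. -/
theorem push_loc_le {U : X.Opens} (hU : IsAffineOpen U) (N : ModuleCat.{u} Γ(X, U)) {V : X.Opens}
    (hV : IsAffineOpen V) (h : V ≤ U) : Loc (push hU N) V := by
  apply Push_loc_pf
  have h1 : IsAffineOpen (hU.fromSpec ⁻¹ᵁ V) :=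
    hV.preimage_of_isOpenImmersion hU.fromSpec (by rw [hU.opensRange_fromSpec]; exact h)
  refine loc_of_qcoh _ ?_ h1
  change (tilde (R := Γ(X, U)) N).IsQuasicoherent
  infer_instance

/-- PROOF. Let `g : Γ(X,V)`, `V' := V ⊓ U`, `g' := g|V'`, `D(g') = D(g) ⊓ U` (`Scheme.basicOpen_res`). The restrictions
`Γ(P,V) → Γ(P,V')` and `Γ(P,D(g)) → Γ(P,D(g) ⊓ U)` are bijective (`push_bij`) and compatible with the actions of `g`, `g'`; so
`Loc P V` at `g` follows from `Loc P V'` at `g'` (`push_loc_le`). -/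
theorem push_loc {U : X.Opens} (hU : IsAffineOpen U) (N : ModuleCat.{u} Γ(X, U)) {V : X.Opens}
    (h : IsAffineOpen (V ⊓ U)) : Loc (push hU N) V := by
  intro g
  have h0 := push_loc_le hU N h inf_le_right
  have hb := X.basicOpen_le g
  have hD : X.basicOpen g ⊓ U = X.basicOpen (rO X (inf_le_left : V ⊓ U ≤ V) g) := by
    have h1 : X.basicOpen (rO X (inf_le_left : V ⊓ U ≤ V) g) = (V ⊓ U) ⊓ X.basicOpen g :=
      Scheme.basicOpen_res X g _
    rw [h1]
    apply le_antisymm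
    · exact le_inf (le_inf (inf_le_left.trans hb) inf_le_right) inf_le_left
    · exact le_inf inf_le_right (inf_le_left.trans inf_le_right)
  have hDV : X.basicOpen g ⊓ U ≤ V ⊓ U := inf_le_inf_right U hb
  obtain ⟨h1, h2⟩ := Push_loc_at h0 (rO X (inf_le_left : V ⊓ U ≤ V) g) (X.basicOpen g ⊓ U) hD hDV
  refine ⟨fun s => ?_, fun t ht => ?_⟩
  · obtain ⟨n, t', ht'⟩ := h1 (rM (push hU N) inf_le_left s)
    obtain ⟨t, rfl⟩ := (push_bij hU N V).2 t'
    refine ⟨n, t, (push_bij hU N (X.basicOpen g)).1 ?_⟩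
    rw [rM_rM, rM_smul, map_pow, rO_rO]
    rw [rM_rM, rO_rO] at ht'
    exact ht'
  · obtain ⟨n, hn⟩ := h2 (rM (push hU N) inf_le_left t) (by
      have h3 := congrArg (rM (push hU N) (inf_le_left : X.basicOpen g ⊓ U ≤ X.basicOpen g)) ht
      rw [rM_rM, map_zero] at h3
      rw [rM_rM]
      exact h3)
    refine ⟨n, (push_bij hU N V).1 ?_⟩
    rw [rM_smul, map_pow, map_zero]
    exact hn

/-- PROOF. `qcoh_of_loc`, `push_loc`. -/
theorem push_qcoh {U : X.Opens} (hU : IsAffineOpen U) (N : ModuleCat.{u} Γ(X, U))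
    (h : ∀ x : X, ∃ V : X.Opens, x ∈ V ∧ IsAffineOpen V ∧ IsAffineOpen (V ⊓ U)) :
    isQCoh X (push hU N) := by
  refine qcoh_of_loc _ fun x => ?_
  obtain ⟨V, hx, hV, hVU⟩ := h x
  exact ⟨V, hx, hV, push_loc hU N hVU⟩

end BS
end

section

/-!
# The push-forward from a chart in the model
-/

set_option autoImplicit false

open CategoryTheory CategoryTheory.Limits AlgebraicGeometry TopologicalSpace

namespace BS

open MPbd3808.BR

universe u

variable {k : Type u} [Field k] {X : Scheme.{u}} [X.Over (Spec (.of k))]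

/-- `(τ,a) ↦ (τ ∪ σ, a)` -/
def shOb (σ : Finset Vr) (A : Ob) : Ob :=
  Ob.mk (A.σ ∪ σ) (A.full.mono Finset.subset_union_left) A.a

/-- the functor `(τ,a) ↦ (τ ∪ σ, a)` -/
def shF (σ : Finset Vr) : Ob ⥤ Ob where
  obj := shOb σ
  map {A B} m := mk (A.full.mono Finset.subset_union_left) (B.full.mono Finset.subset_union_left)
    (Finset.union_subset_union_left (Mor.le m)) (Mor.e m) ((Mor.reg m).mono Finset.subset_union_left)
    (Mor.deg m)
  map_id A := by ext; rfl
  map_comp m n := by ext; rfl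

private lemma Theta_loc (M : X.Modules) {U W : X.Opens} (h : Loc M U) (g : Γ(X, U))
    (e : X.basicOpen g = W) (hW : W ≤ U) :
    (∀ s : Γ(M, W), ∃ (n : ℕ) (t : Γ(M, U)), rM M hW t = rO X hW g ^ n • s) ∧
      ∀ t : Γ(M, U), rM M hW t = 0 → ∃ n : ℕ, g ^ n • t = 0 := by
  subst e
  exact h g

private lemma Theta_bij (M : X.Modules) {U V V' : X.Opens} (h : V ≤ U) (h' : V' ≤ U) (e : V = V')
    (hb : Function.Bijective (rM M h')) : Function.Bijective (rM M h) := by
  subst e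
  exact hb

private lemma Theta_nreg {σ τ : Finset Vr} (hσ : Full σ) (q : ℕ) : Reg σ (q • gam σ τ) := by
  induction q with
  | zero =>
    rw [zero_smul]
    exact Reg.zero
  | succ q ih =>
    rw [succ_nsmul]
    exact ih.add (gam_reg hσ)

private lemma Theta_ndeg (σ τ : Finset Vr) (q : ℕ) : degE (q • gam σ τ) = 0 := by
  induction q with
  | zero => rw [zero_smul, degE_zero]
  | succ q ih => rw [succ_nsmul, degE_add, ih, gam_deg, add_zero]

private lemma Theta_pow (C : Charts k X) {σ : Finset Vr} (hσ : Full σ) (τ : Finset Vr) (q : ℕ) :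
    C.gg hσ τ ^ q = C.mon hσ (q • gam σ τ) (Theta_nreg hσ q) (Theta_ndeg σ τ q) := by
  induction q with
  | zero =>
    rw [pow_zero, C.mon_congr hσ (zero_smul ℕ (gam σ τ)), C.mon_zero]
  | succ q ih =>
    rw [pow_succ, ih, C.mon_congr hσ (succ_nsmul (gam σ τ) q),
      C.mon_add hσ _ _ (Theta_nreg hσ q) (Theta_ndeg σ τ q) (gam_reg hσ) (gam_deg σ τ)]
    rfl

/-- the data: an object `N` of the model, a chart `σ` and the sheaf `P` on `X` pushed forward from `U σ` given by
the module `N(σ,0)` -/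
structure PD (C : Charts k X) where
  N : FunCat k
  hN : isQC k N
  σ : Finset Vr
  hσ : Full σ

variable {C : Charts k X} (T : PD C)

namespace PD

/-- the sheaf -/
noncomputable def P : X.Modules := push (C.affine T.σ T.hσ) (modN T.N T.hσ C T.hN.1)

/-- `N(σ,0) ≃ Γ(P, U σ)` (from `push_sec`) -/
noncomputable def ε : T.N.obj (Ob.mk T.σ T.hσ 0) ≃+ Γ(T.P, C.U T.σ T.hσ) :=
  (ofN T.N T.hσ C T.hN.1).trans (push_sec (C.affine T.σ T.hσ) (modN T.N T.hσ C T.hN.1)).choose

lemma ε_smul (r : Γ(X, C.U T.σ T.hσ)) (x : T.N.obj (Ob.mk T.σ T.hσ 0)) :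
    T.ε (actR T.N T.hσ C T.hN.1 r x) = r • T.ε x := by
  unfold ε
  rw [AddEquiv.trans_apply, AddEquiv.trans_apply, ← ofN_smul]
  exact (push_sec (C.affine T.σ T.hσ) (modN T.N T.hσ C T.hN.1)).choose_spec r _

/-- `Loc P V` for the charts `V`. PROOF. `push_loc`; `U τ ⊓ U σ = U (τ ∪ σ)` is affine. -/
theorem locP (τ : Finset Vr) (hτ : Full τ) : Loc T.P (C.U τ hτ) := by
  refine push_loc (C.affine T.σ T.hσ) (modN T.N T.hσ C T.hN.1) ?_
  rw [← C.inf τ T.σ hτ T.hσ]
  exact C.affine _ _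

/-- PROOF. `push_qcoh`, `C.cover`, `C.inf`, `C.affine`. -/
theorem qcohP : isQCoh X T.P := by
  refine push_qcoh (C.affine T.σ T.hσ) (modN T.N T.hσ C T.hN.1) fun x => ?_
  obtain ⟨τ, hτ, hx⟩ := C.cover x
  refine ⟨C.U τ hτ, hx, C.affine τ hτ, ?_⟩
  rw [← C.inf τ T.σ hτ T.hσ]
  exact C.affine _ _

/-- the chart `τ ∪ σ` -/
abbrev W (A : Ob) : X.Opens := C.U (A.σ ∪ T.σ) (A.full.mono Finset.subset_union_left)

lemma W_le (A : Ob) : T.W A ≤ C.U A.σ A.full := C.anti _ _ Finset.subset_union_left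
lemma W_le' (A : Ob) : T.W A ≤ C.U T.σ T.hσ := C.anti _ _ Finset.subset_union_right

/-- PROOF. `push_bij` with `C.inf`. -/
theorem bijP (A : Ob) : Function.Bijective (rM T.P (T.W_le A)) := by
  exact Theta_bij T.P (T.W_le A) inf_le_left (C.inf A.σ T.σ A.full T.hσ)
    (push_bij (C.affine T.σ T.hσ) (modN T.N T.hσ C T.hN.1) (C.U A.σ A.full))

/-- the morphism `(σ,0) ⟶ (τ ∪ σ, a)` of the index category with exponent `un τ a - n gam` (multiplication by the unit
`un τ a` and division by the `n`-th power of the function `gg` defining the chart `τ ∪ σ` in the chart `σ`) -/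
def om (A : Ob) (n : ℕ) : Ob.mk T.σ T.hσ 0 ⟶ shOb T.σ A :=
  MPbd3808.BR.mk T.hσ (A.full.mono Finset.subset_union_left) Finset.subset_union_right
    (un A.σ A.a - n • gam T.σ (A.σ ∪ T.σ))
    (by
      intro v hv
      have h0 : v ∉ A.σ := fun h => hv (Finset.mem_union_left _ h)
      have h1 : v ∉ T.σ := fun h => hv (Finset.mem_union_right _ h)
      have h2 : gam T.σ (A.σ ∪ T.σ) v = 0 := by
        unfold gam
        simp only [Pi.sub_apply, un_of_notMem T.hσ _ h1, pw, if_neg hv, sub_zero]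
      simp only [Pi.sub_apply, Pi.smul_apply, h2, un_of_notMem A.full _ h0, smul_zero, sub_zero, le_refl])
    (by
      rw [sub_eq_add_neg, degE_add, degE_neg, degE_un, sub_zero]
      have : degE (n • gam T.σ (A.σ ∪ T.σ)) = 0 := by
        induction n with
        | zero => rw [zero_smul, degE_zero]
        | succ n ih => rw [succ_nsmul, degE_add, ih, gam_deg, add_zero]
      rw [this, neg_zero, add_zero])

/-- `z = θ(x)`: there are `n` and `m : N(σ,0)` with `gg^n x = ε(m)` on `W` and `z = N(om n) m`. -/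
def Rel (A : Ob) (x : Γ(T.P, C.U A.σ A.full)) (z : T.N.obj (shOb T.σ A)) : Prop :=
  ∃ (n : ℕ) (m : T.N.obj (Ob.mk T.σ T.hσ 0)),
    rO X (T.W_le' A) (C.gg T.hσ (A.σ ∪ T.σ)) ^ n • rM T.P (T.W_le A) x = rM T.P (T.W_le' A) (T.ε m) ∧
      z = (T.N.map (T.om A n)).hom m

private lemma Theta_shift (A : Ob) (n q : ℕ) (m : T.N.obj (Ob.mk T.σ T.hσ 0)) :
    (T.N.map (T.om A n)).hom m = (T.N.map (T.om A (n + q))).hom
      (actR T.N T.hσ C T.hN.1 (C.gg T.hσ (A.σ ∪ T.σ) ^ q) m) := by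
  rw [Theta_pow, actR_mon]
  have h1 : (MPbd3808.BR.mul T.hσ (q • gam T.σ (A.σ ∪ T.σ)) (Theta_nreg T.hσ q)
      (by rw [Theta_ndeg, sub_zero]) : Ob.mk T.σ T.hσ 0 ⟶ Ob.mk T.σ T.hσ 0) ≫ T.om A (n + q) =
      T.om A n := by
    apply MPbd3808.BR.hom_ext
    change q • gam T.σ (A.σ ∪ T.σ) + (un A.σ A.a - (n + q) • gam T.σ (A.σ ∪ T.σ)) =
      un A.σ A.a - n • gam T.σ (A.σ ∪ T.σ)
    rw [add_smul]
    abel
  rw [← h1, Functor.map_comp]
  rfl

private lemma Theta_locW (A : Ob) :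
    (∀ s : Γ(T.P, T.W A), ∃ (n : ℕ) (t : Γ(T.P, C.U T.σ T.hσ)),
      rM T.P (T.W_le' A) t = rO X (T.W_le' A) (C.gg T.hσ (A.σ ∪ T.σ)) ^ n • s) ∧
      ∀ t : Γ(T.P, C.U T.σ T.hσ), rM T.P (T.W_le' A) t = 0 →
        ∃ n : ℕ, C.gg T.hσ (A.σ ∪ T.σ) ^ n • t = 0 :=
  Theta_loc T.P (T.locP T.σ T.hσ) (C.gg T.hσ (A.σ ∪ T.σ))
    (C.basic_gg T.hσ Finset.subset_union_right) (T.W_le' A)

/-- PROOF. `locP σ` at `gg` (`basic_gg`: `D(gg) = W`), first half, for `x|W`; `ε` is surjective. -/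
theorem rel_total (A : Ob) (x : Γ(T.P, C.U A.σ A.full)) : ∃ z, T.Rel A x z := by
  obtain ⟨n, t, ht⟩ := (T.Theta_locW A).1 (rM T.P (T.W_le A) x)
  refine ⟨(T.N.map (T.om A n)).hom (T.ε.symm t), n, T.ε.symm t, ?_, rfl⟩
  rw [AddEquiv.apply_symm_apply, ht]

/-- PROOF. Let `(n,m)`, `(n',m')` be two choices. `gg^n' m - gg^n m'` (action `actR`, `ε_smul`) goes to `0` on `W`, so it is killed by
`gg^p` (`locP σ`, second half; `ε` injective): `gg^(n'+p) m = gg^(n+p) m'` in `N(σ,0)`. Since `gg^q` acts on `N(σ,0)` as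
`N.map (mul (q • gam))` (`actR_mon`, powers) and `mul ((n'+p) • gam) ≫ om (n + n' + p) = om n`, we get
`N(om n) m = N(om n') m'`. -/
theorem rel_unique (A : Ob) {x : Γ(T.P, C.U A.σ A.full)} {z z' : T.N.obj (shOb T.σ A)}
    (h : T.Rel A x z) (h' : T.Rel A x z') : z = z' := by
  obtain ⟨n, m, h1, rfl⟩ := h
  obtain ⟨n', m', h1', rfl⟩ := h'
  have h2 : rM T.P (T.W_le' A) (C.gg T.hσ (A.σ ∪ T.σ) ^ n' • T.ε m -
      C.gg T.hσ (A.σ ∪ T.σ) ^ n • T.ε m') = 0 := by
    rw [map_sub, rM_smul, rM_smul, ← h1, ← h1', map_pow, map_pow, smul_smul, smul_smul, mul_comm,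
      sub_self]
  obtain ⟨p, hp⟩ := (T.Theta_locW A).2 _ h2
  rw [smul_sub, smul_smul, smul_smul, ← pow_add, ← pow_add, ← ε_smul, ← ε_smul, sub_eq_zero] at hp
  have h3 := T.ε.injective hp
  rw [T.Theta_shift A n (p + n') m, T.Theta_shift A n' (p + n) m', h3]
  have h4 : n + (p + n') = n' + (p + n) := by ring
  rw [h4]

/-- PROOF. Choose a common exponent (`(n,m)` may be replaced by `(n+q, gg^q m)`). -/
theorem rel_add (A : Ob) {x x' : Γ(T.P, C.U A.σ A.full)} {z z' : T.N.obj (shOb T.σ A)}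
    (h : T.Rel A x z) (h' : T.Rel A x' z') : T.Rel A (x + x') (z + z') := by
  obtain ⟨n, m, h1, rfl⟩ := h
  obtain ⟨n', m', h1', rfl⟩ := h'
  refine ⟨n + n', actR T.N T.hσ C T.hN.1 (C.gg T.hσ (A.σ ∪ T.σ) ^ n') m +
    actR T.N T.hσ C T.hN.1 (C.gg T.hσ (A.σ ∪ T.σ) ^ n) m', ?_, ?_⟩
  · rw [map_add, map_add, map_add, ε_smul, ε_smul, rM_smul, rM_smul, ← h1, ← h1', map_pow, map_pow,
      smul_smul, smul_smul, ← pow_add, ← pow_add, add_comm n' n, smul_add]
  · rw [map_add, ← T.Theta_shift A n n' m, add_comm n n', ← T.Theta_shift A n' n m']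

end PD

end BS
end

section

/-!
# The push-forward from a chart in the model: naturality and bijectivity of `θ`
-/

set_option autoImplicit false

open CategoryTheory CategoryTheory.Limits AlgebraicGeometry TopologicalSpace

namespace BS

open MPbd3808.BR

universe u

variable {k : Type u} [Field k] {X : Scheme.{u}} [X.Over (Spec (.of k))] {C : Charts k X} (T : PD C)

private lemma Theta2_reg_nsmul {σ : Finset Vr} {e : Ex} (hr : Reg σ e) (n : ℕ) : Reg σ (n • e) := by
  intro v hv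
  have h := hr v hv
  simp only [Pi.smul_apply]
  exact nsmul_nonneg h n

private lemma Theta2_deg_nsmul {e : Ex} (n : ℕ) : degE (n • e) = n • degE e := by
  induction n with
  | zero => rw [zero_smul, degE_zero, zero_smul]
  | succ n ih => rw [succ_nsmul, degE_add, ih, succ_nsmul]

private lemma Theta2_deg_nsmul0 {e : Ex} (hd : degE e = 0) (n : ℕ) : degE (n • e) = 0 := by
  rw [Theta2_deg_nsmul, hd, smul_zero]

private lemma Theta2_mon_pow (C : Charts k X) {σ : Finset Vr} (hσ : Full σ) (e : Ex) (hr : Reg σ e)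
    (hd : degE e = 0) (n : ℕ) : C.mon hσ e hr hd ^ n =
      C.mon hσ (n • e) (Theta2_reg_nsmul hr n) (Theta2_deg_nsmul0 hd n) := by
  induction n with
  | zero =>
    rw [pow_zero, C.mon_congr hσ (zero_smul ℕ e), C.mon_zero]
  | succ n ih =>
    rw [pow_succ, ih, C.mon_congr hσ (succ_nsmul e n),
      C.mon_add hσ _ _ (Theta2_reg_nsmul hr n) (Theta2_deg_nsmul0 hd n) hr hd]

private lemma Theta2_pw (ρ : Finset Vr) (p : ℕ) : pw ρ p = p • pw ρ 1 := by
  induction p with
  | zero => rw [pw_zero, zero_smul]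
  | succ n ih => rw [pw_add, ih, succ_nsmul]

private lemma Theta2_un (σ : Finset Vr) (a : Deg) (p : ℕ) : un σ (p • a) = p • un σ a := by
  induction p with
  | zero => rw [zero_smul, un_zero, zero_smul]
  | succ n ih => rw [succ_nsmul, un_add, ih, succ_nsmul]

private lemma Theta2_gam (σ ρ : Finset Vr) (p : ℕ) :
    p • gam σ ρ = pw ρ p - un σ (degE (pw ρ p)) := by
  unfold gam
  rw [Theta2_pw ρ p, Theta2_deg_nsmul, Theta2_un, smul_sub]

private lemma Theta2_gam_out {σ ρ : Finset Vr} (hσ : Full σ) (h : σ ⊆ ρ) {v : Vr} (hv : v ∉ ρ) :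
    gam σ ρ v = 0 := by
  unfold gam
  simp only [Pi.sub_apply, un_of_notMem hσ _ (fun h' => hv (h h')), pw, if_neg hv, sub_zero]

private lemma Theta2_gam_one {σ ρ : Finset Vr} (hσ : Full σ) {v : Vr} (hv : v ∉ σ) (h : v ∈ ρ) :
    gam σ ρ v = 1 := by
  unfold gam
  simp only [Pi.sub_apply, un_of_notMem hσ _ hv, pw, if_pos h, sub_zero, Nat.cast_one]

namespace PD

/-- the function `gg` restricted to `W` -/
private lemma Theta2_gg (A : Ob) (n : ℕ) :
    rO X (T.W_le' A) (C.gg T.hσ (A.σ ∪ T.σ)) ^ n =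
      C.mon (A.full.mono Finset.subset_union_left : Full (A.σ ∪ T.σ)) (n • gam T.σ (A.σ ∪ T.σ))
        (Theta2_reg_nsmul ((gam_reg T.hσ).mono Finset.subset_union_right) n)
        (Theta2_deg_nsmul0 (gam_deg _ _) n) := by
  have h : rO X (T.W_le' A) (C.gg T.hσ (A.σ ∪ T.σ)) =
      C.mon (A.full.mono Finset.subset_union_left : Full (A.σ ∪ T.σ)) (gam T.σ (A.σ ∪ T.σ))
        ((gam_reg T.hσ).mono Finset.subset_union_right) (gam_deg _ _) :=
    C.rO_mon T.hσ (A.full.mono Finset.subset_union_left) Finset.subset_union_right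
      (gam T.σ (A.σ ∪ T.σ)) (gam_reg T.hσ) (gam_deg _ _)
  rw [h, Theta2_mon_pow]

private lemma Theta2_gg_unit (A : Ob) (n : ℕ) :
    IsUnit (rO X (T.W_le' A) (C.gg T.hσ (A.σ ∪ T.σ)) ^ n) := by
  rw [Theta2_gg]
  apply C.isUnit_mon
  intro v hv
  have := Theta2_gam_out T.hσ (Finset.subset_union_right : T.σ ⊆ A.σ ∪ T.σ) hv
  simp only [Pi.neg_apply, Pi.smul_apply, this, smul_zero, neg_zero, le_refl]

private lemma Theta2_unit_cancel {R M : Type*} [CommRing R] [AddCommGroup M] [Module R M] {r : R}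
    (hr : IsUnit r) {x y : M} (h : r • x = r • y) : x = y := by
  obtain ⟨u, rfl⟩ := hr
  have := congrArg (fun z => (↑u⁻¹ : R) • z) h
  simpa [smul_smul] using this

/-- Naturality. `f : A ⟶ B`, `A = (τ,a)`, `B = (τ',b)`, exponent `e`, `τ ⊆ τ'`.

PROOF. Let `gg_A^n x|W_A = ε(m)|W_A`, `z = N(om_A n) m`. Let `x' := mon (ce f) • x|U τ'`, `ce f = un τ a + e - un τ' b` (degree `0`,
regular on `τ'`). For `q` large the exponent `e' := ce f + q gam_B - n gam_A` is regular on `σ`: let `v ∉ σ`; if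
`v ∈ τ'` then `gam_B v = 1` (`gam σ ρ v = 1` for `v ∈ ρ \ σ`, `0` for `v ∉ ρ`), fine for large `q`; if `v ∉ τ'` then `gam_A v = gam_B v = 0`
and `ce f v ≥ 0`. On `W_B ⊆ W_A`: `gg_B^q x' = mon(ce f) gg_B^q x` and, multiplying by the unit `gg_A^n` and using the relation,
`gg_B^q x' = (mon e' • ε(m))|W_B` (on `W_B` all three monomials `ce f`, `q gam_B`, `- n gam_A` are functions). So
`gg_B^q x'|W_B = ε(m')|W_B` with `m' := N.map (mul e') m` (`actR_mon`, `ε_smul`), and `N(om_B q) m' = N((shF σ).map f) z` because both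
morphisms `(σ,0) ⟶ (τ' ∪ σ, b)` have exponent `un τ a + e - n gam_A`. -/
theorem rel_nat {A B : Ob} (f : A ⟶ B) {x : Γ(T.P, C.U A.σ A.full)} {z : T.N.obj (shOb T.σ A)}
    (h : T.Rel A x z) :
    T.Rel B (C.mon B.full (Charts.ce f) (Charts.ce_reg f) (Charts.ce_deg f) •
      rM T.P (C.anti A.full B.full (Mor.le f)) x) ((T.N.map ((shF T.σ).map f)).hom z) := by
  obtain ⟨n, m, h1, rfl⟩ := h
  -- the choice of `q`
  obtain ⟨q, hq⟩ : ∃ q : ℕ, Reg T.σ (Charts.ce f + q • gam T.σ (B.σ ∪ T.σ) -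
      n • gam T.σ (A.σ ∪ T.σ)) := by
    refine ⟨∑ v, (n • gam T.σ (A.σ ∪ T.σ) v - Charts.ce f v).natAbs, ?_⟩
    intro v hv
    by_cases hB : v ∈ B.σ
    · have g1 := Theta2_gam_one T.hσ hv (Finset.mem_union_left T.σ hB)
      have hle : (n • gam T.σ (A.σ ∪ T.σ) v - Charts.ce f v).natAbs ≤
          ∑ v, (n • gam T.σ (A.σ ∪ T.σ) v - Charts.ce f v).natAbs :=
        Finset.single_le_sum (f := fun v => (n • gam T.σ (A.σ ∪ T.σ) v - Charts.ce f v).natAbs)
          (fun _ _ => Nat.zero_le _) (Finset.mem_univ v)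
      have hle' : ((n • gam T.σ (A.σ ∪ T.σ) v - Charts.ce f v).natAbs : ℤ) ≤
          ((∑ v, (n • gam T.σ (A.σ ∪ T.σ) v - Charts.ce f v).natAbs : ℕ) : ℤ) := by
        exact_mod_cast hle
      have hab : n • gam T.σ (A.σ ∪ T.σ) v - Charts.ce f v ≤
          ((n • gam T.σ (A.σ ∪ T.σ) v - Charts.ce f v).natAbs : ℤ) := Int.le_natAbs
      simp only [Pi.sub_apply, Pi.add_apply, Pi.smul_apply, g1]
      rw [nsmul_eq_mul, mul_one]
      linarith
    · have hA : v ∉ A.σ := fun h' => hB (Mor.le f h')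
      have g1 := Theta2_gam_out T.hσ (Finset.subset_union_right : T.σ ⊆ B.σ ∪ T.σ)
        (v := v) (by rw [Finset.mem_union]; tauto)
      have g2 := Theta2_gam_out T.hσ (Finset.subset_union_right : T.σ ⊆ A.σ ∪ T.σ)
        (v := v) (by rw [Finset.mem_union]; tauto)
      have g3 := Charts.ce_reg f v hB
      simp only [Pi.sub_apply, Pi.add_apply, Pi.smul_apply, g1, g2, smul_zero, add_zero, sub_zero]
      exact g3
  have hd : degE (Charts.ce f + q • gam T.σ (B.σ ∪ T.σ) - n • gam T.σ (A.σ ∪ T.σ)) = 0 := by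
    rw [sub_eq_add_neg, degE_add, degE_add, degE_neg, Charts.ce_deg,
      Theta2_deg_nsmul0 (gam_deg _ _), Theta2_deg_nsmul0 (gam_deg _ _)]
    simp
  have hWW : T.W B ≤ T.W A :=
    C.anti _ _ (Finset.union_subset_union_left (Mor.le f))
  refine ⟨q, (T.N.map (mul T.hσ (Charts.ce f + q • gam T.σ (B.σ ∪ T.σ) -
      n • gam T.σ (A.σ ∪ T.σ)) hq (by rw [hd, sub_zero]) :
      Ob.mk T.σ T.hσ 0 ⟶ Ob.mk T.σ T.hσ 0)).hom m, ?_, ?_⟩
  · have e1 : T.ε ((T.N.map (mul T.hσ (Charts.ce f + q • gam T.σ (B.σ ∪ T.σ) -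
      n • gam T.σ (A.σ ∪ T.σ)) hq (by rw [hd, sub_zero]) :
      Ob.mk T.σ T.hσ 0 ⟶ Ob.mk T.σ T.hσ 0)).hom m) =
        C.mon T.hσ (Charts.ce f + q • gam T.σ (B.σ ∪ T.σ) -
      n • gam T.σ (A.σ ∪ T.σ)) hq hd • T.ε m := by
      rw [← T.ε_smul, actR_mon]
      rfl
    have e2 : rM T.P (T.W_le' B) (T.ε m) =
        C.mon (B.full.mono Finset.subset_union_left : Full (B.σ ∪ T.σ)) (n • gam T.σ (A.σ ∪ T.σ))
        ((Theta2_reg_nsmul ((gam_reg T.hσ).mono Finset.subset_union_right) n :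
          Reg (A.σ ∪ T.σ) _).mono (Finset.union_subset_union_left (Mor.le f)))
        (Theta2_deg_nsmul0 (gam_deg _ _) n) •
        rM T.P (hWW.trans (T.W_le A)) x := by
      have e3 := congrArg (rM T.P hWW) h1
      rw [rM_smul, rM_rM, rM_rM, Theta2_gg] at e3
      rw [← e3]
      congr 1
      exact C.rO_mon (A.full.mono Finset.subset_union_left) (B.full.mono Finset.subset_union_left)
        (Finset.union_subset_union_left (Mor.le f)) _ _ _
    rw [e1, rM_smul, rM_smul, rM_rM, e2, Theta2_gg]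
    have e4 : rO X (T.W_le B) (C.mon B.full (Charts.ce f) (Charts.ce_reg f) (Charts.ce_deg f)) =
      C.mon (B.full.mono Finset.subset_union_left : Full (B.σ ∪ T.σ)) (Charts.ce f)
        ((Charts.ce_reg f).mono Finset.subset_union_left) (Charts.ce_deg f) :=
      C.rO_mon B.full (B.full.mono Finset.subset_union_left) Finset.subset_union_left _ _ _
    have e5 : rO X (T.W_le' B) (C.mon T.hσ (Charts.ce f + q • gam T.σ (B.σ ∪ T.σ) -
      n • gam T.σ (A.σ ∪ T.σ)) hq hd) =
      C.mon (B.full.mono Finset.subset_union_left : Full (B.σ ∪ T.σ))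
        (Charts.ce f + q • gam T.σ (B.σ ∪ T.σ) - n • gam T.σ (A.σ ∪ T.σ))
        (hq.mono Finset.subset_union_right) hd :=
      C.rO_mon T.hσ (B.full.mono Finset.subset_union_left) Finset.subset_union_right _ _ _
    rw [e4, e5, smul_smul, smul_smul, ← C.mon_add, ← C.mon_add]
    congr 1
    apply C.mon_congr
    abel
  · change (T.N.map (T.om A n) ≫ T.N.map ((shF T.σ).map f)).hom m =
      (T.N.map (mul T.hσ _ hq _) ≫ T.N.map (T.om B q)).hom m
    rw [← T.N.map_comp, ← T.N.map_comp]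
    congr 3
    apply Mor.ext
    change un A.σ A.a - n • gam T.σ (A.σ ∪ T.σ) + Mor.e f =
      (Charts.ce f + q • gam T.σ (B.σ ∪ T.σ) - n • gam T.σ (A.σ ∪ T.σ)) +
        (un B.σ B.a - q • gam T.σ (B.σ ∪ T.σ))
    unfold Charts.ce
    abel

/-- PROOF. `c • x ↦ c • z`: `gg^n (c x) = ε(c m)`; the scalar `c : k` acts on `Γ(P, U)` through `resTop U (coefTop k X c) = ev (algebraMap c)`
(`ev_coef`), and `actR (ev (algebraMap c)) = actL (algebraMap c) = c •`. -/
theorem rel_smul (A : Ob) (c : k) {x : Γ(T.P, C.U A.σ A.full)} {z : T.N.obj (shOb T.σ A)}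
    (h : T.Rel A x z) : T.Rel A (resTop (C.U A.σ A.full) (coefTop k X c) • x) (c • z) := by
  obtain ⟨n, m, h1, rfl⟩ := h
  refine ⟨n, c • m, ?_, ?_⟩
  · have e1 : T.ε (c • m) = resTop (C.U T.σ T.hσ) (coefTop k X c) • T.ε m := by
      rw [← C.ev_coef, ← T.ε_smul, actR_ev, AlgHom.commutes]
      rfl
    have e2 : rO X (T.W_le' A) (resTop (C.U T.σ T.hσ) (coefTop k X c)) =
      rO X (T.W_le A) (resTop (C.U A.σ A.full) (coefTop k X c)) :=
      (res_resTop _ _).trans (res_resTop _ _).symm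
    rw [e1, rM_smul, rM_smul, ← h1, smul_smul, smul_smul, e2, mul_comm]
  · rw [map_smul]

/-- PROOF. `0 = z = N(om n) m`. `om n` is `res : (σ,0) ⟶ (τ ∪ σ,0)` followed by an isomorphism of the index category (a monomial supported on
`τ ∪ σ`), so `N(res) m = 0`, so by `LocInj` (`T.hN.2.1`) `N.map (mul (pw (τ ∪ σ) p)) m = 0` for some `p`, and
`p • gam = pw (τ ∪ σ) p - un σ _`, so `gg^p` kills `m` (`actR_mon`). So `gg^(p+n) x|W = 0`, `gg` is a unit on `W = D(gg)`, `x|W = 0`, `x = 0`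
(`bijP`). -/
theorem rel_inj (A : Ob) {x : Γ(T.P, C.U A.σ A.full)} (h : T.Rel A x 0) : x = 0 := by
  obtain ⟨n, m, h1, h2⟩ := h
  have hρ : Full (A.σ ∪ T.σ) := A.full.mono Finset.subset_union_left
  -- `N(res) m = 0`
  have h3 : (T.N.map (res T.hσ hρ Finset.subset_union_right 0)).hom m = 0 := by
    have hreg : Reg (A.σ ∪ T.σ) (-(un A.σ A.a - n • gam T.σ (A.σ ∪ T.σ))) := by
      intro v hv
      have g1 := Theta2_gam_out T.hσ (Finset.subset_union_right : T.σ ⊆ A.σ ∪ T.σ) hv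
      have g2 : un A.σ A.a v = 0 := un_of_notMem A.full _ fun h => hv (Finset.mem_union_left _ h)
      simp only [Pi.neg_apply, Pi.sub_apply, Pi.smul_apply, g1, g2, smul_zero, sub_zero, neg_zero,
        le_refl]
    have hdeg : degE (-(un A.σ A.a - n • gam T.σ (A.σ ∪ T.σ))) = 0 - A.a := by
      rw [degE_neg, sub_eq_add_neg, degE_add, degE_neg, degE_un,
        Theta2_deg_nsmul0 (gam_deg _ _), neg_zero, add_zero, zero_sub]
    have e1 : res T.hσ hρ Finset.subset_union_right 0 =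
        T.om A n ≫ (mul hρ (-(un A.σ A.a - n • gam T.σ (A.σ ∪ T.σ))) hreg hdeg :
          Ob.mk (A.σ ∪ T.σ) hρ A.a ⟶ Ob.mk (A.σ ∪ T.σ) hρ 0) := by
      apply Mor.ext
      change (0 : Ex) = (un A.σ A.a - n • gam T.σ (A.σ ∪ T.σ)) +
        -(un A.σ A.a - n • gam T.σ (A.σ ∪ T.σ))
      rw [add_neg_cancel]
    rw [e1, T.N.map_comp]
    change (T.N.map _).hom ((T.N.map (T.om A n)).hom m) = 0
    rw [← h2]
    exact map_zero _
  obtain ⟨p, h4⟩ := T.hN.2.1 T.σ (A.σ ∪ T.σ) T.hσ hρ Finset.subset_union_right 0 m h3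
  -- `gg ^ p` kills `m`
  have h5 : C.gg T.hσ (A.σ ∪ T.σ) ^ p • T.ε m = 0 := by
    unfold Charts.gg
    rw [Theta2_mon_pow, ← T.ε_smul, actR_mon]
    have hd1 : degE (-un T.σ (degE (pw (A.σ ∪ T.σ) p))) = 0 - (0 + degE (pw (A.σ ∪ T.σ) p)) := by
      rw [degE_neg, degE_un]; abel
    have hr1 : Reg T.σ (-un T.σ (degE (pw (A.σ ∪ T.σ) p))) := by
      rw [← un_neg]
      exact reg_un T.hσ (Finset.Subset.refl _) _
    have e1 : actM T.N T.hσ (p • gam T.σ (A.σ ∪ T.σ))
        (Theta2_reg_nsmul (gam_reg T.hσ) p) (Theta2_deg_nsmul0 (gam_deg _ _) p) m =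
        (T.N.map (mul T.hσ (-un T.σ (degE (pw (A.σ ∪ T.σ) p))) hr1 hd1 :
          Ob.mk T.σ T.hσ (0 + degE (pw (A.σ ∪ T.σ) p)) ⟶ Ob.mk T.σ T.hσ 0)).hom
        ((T.N.map (mul T.hσ (b := 0 + degE (pw (A.σ ∪ T.σ) p)) (pw (A.σ ∪ T.σ) p)
          (reg_pw T.σ (A.σ ∪ T.σ) p) (by abel) : Ob.mk T.σ T.hσ 0 ⟶ _)).hom m) := by
      unfold actM
      change _ = (T.N.map _ ≫ T.N.map _).hom m
      rw [← T.N.map_comp]
      congr 3
      apply Mor.ext
      change p • gam T.σ (A.σ ∪ T.σ) = pw (A.σ ∪ T.σ) p + -un T.σ (degE (pw (A.σ ∪ T.σ) p))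
      rw [Theta2_gam, sub_eq_add_neg]
    rw [e1, h4, map_zero, map_zero]
  have h6 : rM T.P (T.W_le A) x = 0 := by
    have e2 := congrArg (rM T.P (T.W_le' A)) h5
    rw [rM_smul, ← h1, map_zero, map_pow] at e2
    apply Theta2_unit_cancel (T.Theta2_gg_unit A n)
    rw [smul_zero]
    apply Theta2_unit_cancel (T.Theta2_gg_unit A p)
    rw [smul_zero]
    exact e2
  apply (T.bijP A).1
  rw [h6, map_zero]

/-- PROOF. Let `z : N(τ ∪ σ, a)`, `ρ := τ ∪ σ`. `LocSurj` (`T.hN.2.2`) for `σ ⊆ ρ` at `z`: `p` and `x' : N(σ, b)`, `b = a + degE (pw ρ p)`, with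
`N(res) x' = N(mul (pw ρ p)) z`. Let `m := N.map (mul (-un σ b)) x' : N(σ,0)`. Then `N(om p ..)`: the exponent `un τ a - p gam` applied to `m` gives
`un τ a - p gam - un σ b + pw ρ p` applied to `z`, i.e. the monomial `un τ a - un σ a` (as `p gam = pw ρ p - un σ (degE (pw ρ p))`), a unit
of degree `0` on `ρ`; so replace `z` by its product with `un σ a - un τ a` first. Finally `x` exists by `bijP` and because
`gg` is a unit on `W`: `x|W := gg^-p ε(m)|W`. -/
theorem rel_surj (A : Ob) (z : T.N.obj (shOb T.σ A)) : ∃ x : Γ(T.P, C.U A.σ A.full), T.Rel A x z := by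
  have hρ : Full (A.σ ∪ T.σ) := A.full.mono Finset.subset_union_left
  suffices hs : ∃ (n : ℕ) (m : T.N.obj (Ob.mk T.σ T.hσ 0)), z = (T.N.map (T.om A n)).hom m by
    obtain ⟨n, m, hz⟩ := hs
    obtain ⟨u, hu⟩ := T.Theta2_gg_unit A n
    obtain ⟨x, hx⟩ := (T.bijP A).2 ((↑u⁻¹ : Γ(X, T.W A)) • rM T.P (T.W_le' A) (T.ε m))
    refine ⟨x, n, m, ?_, hz⟩
    rw [hx, ← hu, smul_smul, Units.mul_inv, one_smul]
  have hr0 : Reg (A.σ ∪ T.σ) (-un A.σ A.a) := by
    rw [← un_neg]
    exact reg_un A.full Finset.subset_union_left _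
  have hd0 : degE (-un A.σ A.a) = 0 - A.a := by
    rw [degE_neg, degE_un, zero_sub]
  obtain ⟨p, x', h1⟩ := T.hN.2.2 T.σ (A.σ ∪ T.σ) T.hσ hρ Finset.subset_union_right 0
    ((T.N.map (mul hρ (-un A.σ A.a) hr0 hd0 :
      Ob.mk (A.σ ∪ T.σ) hρ A.a ⟶ Ob.mk (A.σ ∪ T.σ) hρ 0)).hom z)
  have hd1 : degE (-un T.σ (degE (pw (A.σ ∪ T.σ) p))) = 0 - (0 + degE (pw (A.σ ∪ T.σ) p)) := by
    rw [degE_neg, degE_un]; abel
  have hr1 : Reg T.σ (-un T.σ (degE (pw (A.σ ∪ T.σ) p))) := by
    rw [← un_neg]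
    exact reg_un T.hσ (Finset.Subset.refl _) _
  refine ⟨p, (T.N.map (mul T.hσ (-un T.σ (degE (pw (A.σ ∪ T.σ) p))) hr1 hd1 :
          Ob.mk T.σ T.hσ (0 + degE (pw (A.σ ∪ T.σ) p)) ⟶ Ob.mk T.σ T.hσ 0)).hom x', ?_⟩
  have hr2 : Reg (A.σ ∪ T.σ) (un A.σ A.a - pw (A.σ ∪ T.σ) p) := by
    intro v hv
    have g2 : un A.σ A.a v = 0 := un_of_notMem A.full _ fun h => hv (Finset.mem_union_left _ h)
    simp only [Pi.sub_apply, g2, pw, if_neg hv, sub_zero, le_refl]
  have hd2 : degE (un A.σ A.a - pw (A.σ ∪ T.σ) p) = A.a - (0 + degE (pw (A.σ ∪ T.σ) p)) := by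
    rw [sub_eq_add_neg, degE_add, degE_neg, degE_un]; abel
  -- first the right side
  have e1 : (T.N.map (T.om A p)).hom
      ((T.N.map (mul T.hσ (-un T.σ (degE (pw (A.σ ∪ T.σ) p))) hr1 hd1 :
          Ob.mk T.σ T.hσ (0 + degE (pw (A.σ ∪ T.σ) p)) ⟶ Ob.mk T.σ T.hσ 0)).hom x') =
      (T.N.map (mul hρ (un A.σ A.a - pw (A.σ ∪ T.σ) p) hr2 hd2 :
        Ob.mk (A.σ ∪ T.σ) hρ (0 + degE (pw (A.σ ∪ T.σ) p)) ⟶ Ob.mk (A.σ ∪ T.σ) hρ A.a)).hom
      ((T.N.map (res T.hσ hρ Finset.subset_union_right (0 + degE (pw (A.σ ∪ T.σ) p)))).hom x') := by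
    change (T.N.map _ ≫ T.N.map _).hom x' = (T.N.map _ ≫ T.N.map _).hom x'
    rw [← T.N.map_comp, ← T.N.map_comp]
    congr 3
    apply Mor.ext
    change -un T.σ (degE (pw (A.σ ∪ T.σ) p)) + (un A.σ A.a - p • gam T.σ (A.σ ∪ T.σ)) =
      0 + (un A.σ A.a - pw (A.σ ∪ T.σ) p)
    rw [Theta2_gam]
    abel
  rw [e1, h1]
  have e2 : (T.N.map (𝟙 (Ob.mk (A.σ ∪ T.σ) hρ A.a))).hom z = z := by
    rw [T.N.map_id]; rfl
  conv_lhs => rw [← e2]
  change _ = (((T.N.map _ ≫ T.N.map _) ≫ T.N.map _).hom z)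
  rw [← T.N.map_comp, ← T.N.map_comp]
  congr 3
  apply Mor.ext
  change (0 : Ex) = (-un A.σ A.a + pw (A.σ ∪ T.σ) p) + (un A.σ A.a - pw (A.σ ∪ T.σ) p)
  abel

/-- the map `θ` -/
private noncomputable def Theta2_map (A : Ob) (x : (C.phiObj T.P).obj A) :
    (shF T.σ ⋙ T.N).obj A := (T.rel_total A (toS (F := T.P) (U := C.U A.σ A.full) x)).choose

private lemma Theta2_spec (A : Ob) (x : (C.phiObj T.P).obj A) :
    T.Rel A (toS (F := T.P) (U := C.U A.σ A.full) x) (T.Theta2_map A x) :=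
  (T.rel_total A (toS (F := T.P) (U := C.U A.σ A.full) x)).choose_spec

/-- the linear map `θ` -/
private noncomputable def Theta2_lin (A : Ob) :
    (C.phiObj T.P).obj A →ₗ[k] (shF T.σ ⋙ T.N).obj A where
  toFun := T.Theta2_map A
  map_add' x y := by
    refine T.rel_unique A (T.Theta2_spec A (x + y)) ?_
    exact T.rel_add A (T.Theta2_spec A x) (T.Theta2_spec A y)
  map_smul' c x := by
    refine T.rel_unique A (T.Theta2_spec A (c • x)) ?_
    exact T.rel_smul A c (T.Theta2_spec A x)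

private lemma Theta2_bij (A : Ob) : Function.Bijective (T.Theta2_lin A) := by
  constructor
  · rw [← LinearMap.ker_eq_bot, LinearMap.ker_eq_bot']
    intro x hx
    have h := T.Theta2_spec A x
    have hx' : T.Theta2_map A x = 0 := hx
    rw [hx'] at h
    exact T.rel_inj A h
  · intro z
    obtain ⟨x, hx⟩ := T.rel_surj A z
    exact ⟨toS.symm x, T.rel_unique A (T.Theta2_spec A (toS.symm x)) hx⟩

/-- THE RESULT: `Φ(P) ≅ (A ↦ N(A ∪ σ))`.
PROOF. The function `x ↦` the unique `z` with `Rel A x z` (`rel_total`, `rel_unique`) is additive (`rel_add`), `k`-linear (`rel_smul`), natural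
(`rel_nat`, `phiObj_map_toS`) and bijective (`rel_inj`, `rel_surj`): `NatIso.ofComponents` with `LinearEquiv.toModuleIso`. -/
theorem phiP_iso : Nonempty (C.phiObj T.P ≅ shF T.σ ⋙ T.N) := by
  refine ⟨NatIso.ofComponents (fun A => LinearEquiv.toModuleIso
    (LinearEquiv.ofBijective (T.Theta2_lin A) (T.Theta2_bij A))) ?_⟩
  intro A B f
  ext x
  change T.Theta2_map B (((C.phiObj T.P).map f).hom x) =
    (T.N.map ((shF T.σ).map f)).hom (T.Theta2_map A x)
  refine T.rel_unique B (T.Theta2_spec B _) ?_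
  rw [C.phiObj_map_toS]
  exact T.rel_nat f (T.Theta2_spec A x)

end PD

end BS
end
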