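import Pool.Agent.Lib.MP_bd3808_ag.Mg.G003
import Pool.Agent.Lib.MP_bd3808_ag.Mg.G007
import Pool.Agent.Lib.MP_bd3808_ag.Mg.G011
import Pool.Agent.Lib.MP_bd3808_ag.Mg.G001
import Pool.Agent.Lib.MP_bd3808_ag.Mg.G024
import Pool.Agent.Lib.MP_bd3808_ag.Mg.G025
import Pool.Agent.Lib.MP_bd3808_ag.BS.QClos

section

/-!
# TASK D9: projection to the orthogonal of an exceptional system

PROOF. Descending induction: for all `m ≤ N` there is `Y` with `Hom(E i, Y⟦n⟧) = 0` for all `i ≥ m` and `P Y → P X` for all triangulated iso-closed `P` containing all `E i`.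
`m = N`: `Y = X`. Step `m+1 → m`: apply `exists_proj1` to `E m` and `Y`: `T → Y → Y' → T⟦1⟧`, `Hom(E m, Y'⟦n⟧) = 0`. For `i > m`: `orthR` of the single object `E i` is
triangulated (D4), contains `E m` (`horth`), so `T`, and contains `Y`, so `Y'`. `P Y' → P Y`: `P T` and `P.ext_of_isTriangulatedClosed₂`.
-/

set_option autoImplicit false

noncomputable section

open CategoryTheory CategoryTheory.Limits CategoryTheory.Pretriangulated CategoryTheory.Abelian

namespace MPbd3808.BR

universe w v u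

variable (k : Type w) [Field k] {C : Type u} [Category.{v} C] [Preadditive C] [Linear k C]
  [HasZeroObject C] [HasShift C ℤ] [∀ n : ℤ, (shiftFunctor C n).Additive]
  [∀ n : ℤ, Functor.Linear k (shiftFunctor C n)] [Pretriangulated C]

theorem exists_proj {N : ℕ} (E : Fin N → C) (hE : ∀ i, BO.IsExceptional k (E i))
    (horth : ∀ i j, i < j → ∀ (n : ℤ) (f : E j ⟶ (E i)⟦n⟧), f = 0)
    (hfin : ∀ i X, BO.ExtFin k (E i) X) (X : C) :
    ∃ Y : C, (∀ i (n : ℤ) (f : E i ⟶ Y⟦n⟧), f = 0) ∧
      ∀ P : ObjectProperty C, P.IsTriangulated → P.IsClosedUnderIsomorphisms →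
        (∀ i, P (E i)) → P Y → P X := by
  have key : ∀ d : ℕ, d ≤ N → ∃ Y : C,
      (∀ i : Fin N, N - d ≤ i.val → ∀ (n : ℤ) (f : E i ⟶ Y⟦n⟧), f = 0) ∧
      ∀ P : ObjectProperty C, P.IsTriangulated → P.IsClosedUnderIsomorphisms →
        (∀ i, P (E i)) → P Y → P X := by
    intro d
    induction d with
    | zero =>
      intro _
      refine ⟨X, fun i hi => ?_, fun P _ _ _ h => h⟩
      have := i.2
      omega
    | succ d ih =>
      intro hd
      obtain ⟨Y, hY, hYP⟩ := ih (by omega)
      obtain ⟨i₀, hi₀⟩ : ∃ i₀ : Fin N, i₀.val = N - (d + 1) := ⟨⟨N - (d + 1), by omega⟩, rfl⟩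
      obtain ⟨T, Y', a, b, c, hT, hTP, hY'⟩ := exists_proj1 k (E i₀) Y (hE i₀) (hfin i₀ Y)
      refine ⟨Y', fun i hi => ?_, fun P hP hPi hPE hPY' => ?_⟩
      · by_cases h : i = i₀
        · subst h
          exact hY'
        · have hlt : i₀ < i := by
            rw [Fin.lt_def]
            have h2 : i.val ≠ i₀.val := fun h3 => h (Fin.ext h3)
            omega
          have h1 : orthR (fun _ : Unit => E i) T :=
            hTP _ inferInstance inferInstance fun _ n f => horth i₀ i hlt n f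
          have h2 : orthR (fun _ : Unit => E i) Y := fun _ n f =>
            hY i (by rw [Fin.lt_def] at hlt; omega) n f
          have h3 : orthR (fun _ : Unit => E i) Y' :=
            (orthR (fun _ : Unit => E i)).ext_of_isTriangulatedClosed₃ _ hT h1 h2
          exact fun n f => h3 () n f
      · refine hYP P hP hPi hPE ?_
        exact P.ext_of_isTriangulatedClosed₂ _ hT (hTP P hP hPi (hPE i₀)) hPY'
  obtain ⟨Y, hY, hYP⟩ := key N le_rfl
  exact ⟨Y, fun i n f => hY i (by omega) n f, hYP⟩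

end MPbd3808.BR
end
end

section

/-!
# TASK D11: the full exceptional system

`full`: `exists_proj` for `E i = dbSingle (Q i)` (`hfin = finQZ`) reduces to `P Y` for `Y` with `Hom(Q i, Y[n]) = 0`; `h.build` for `fun X => orthL (fun _ : Unit => Y) (dbSingle X)`
(`closed23_of_triangulated`) gives `Hom(O c, Y[n]) = 0`, so `Y` is zero (`isZero_of_orth`) and `P Y`. `isExceptional`: `h.end_eq` and full faithfulness, linearity of `dbSingle`;
`h.strong`. `orth`: `n = 0`: `h.hom_eq_zero` and `shiftFunctorZero`, `n ≠ 0`: `h.strong`.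
-/

set_option autoImplicit false

noncomputable section

open CategoryTheory CategoryTheory.Limits CategoryTheory.Pretriangulated CategoryTheory.Abelian

namespace MPbd3808.BR

universe w' w v' v u

variable {A : Type u} [Category.{v} A] [Abelian A] [HasExt.{w'} A] [HasDerivedCategory.{w} A]
  {k : Type v'} [Field k] [Linear k A] {N : ℕ} {Q : Fin N → A} {ι : Type} {O : ι → A}

/-- The shift of `D^b(A)` is linear. -/
private theorem D11_shiftLinear (k : Type v') [Field k] [Linear k A] (n : ℤ) :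
    Functor.Linear k (shiftFunctor (Db A) n) where
  map_smul {X Y} f r := by
    let I : Db A ⥤ DerivedCategory A := (DerivedCategory.TStructure.t (C := A)).bounded.ι
    let e := I.commShiftIso n
    have hs : ∀ g : X ⟶ Y, I.map (r • g) = r • I.map g := fun g => rfl
    have hs' : ∀ g : (shiftFunctor (Db A) n).obj X ⟶ (shiftFunctor (Db A) n).obj Y,
        I.map (r • g) = r • I.map g := fun g => rfl
    have hn : ∀ g : X ⟶ Y, I.map ((shiftFunctor (Db A) n).map g) =
        e.hom.app X ≫ (shiftFunctor (DerivedCategory A) n).map (I.map g) ≫ e.inv.app Y := by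
      intro g
      have h1 := e.hom.naturality g
      have h2 : I.map ((shiftFunctor (Db A) n).map g) ≫ e.hom.app Y =
          e.hom.app X ≫ (shiftFunctor (DerivedCategory A) n).map (I.map g) := h1
      rw [← Category.assoc, ← h2, Category.assoc, e.hom_inv_id_app]
      exact (Category.comp_id _).symm
    apply I.map_injective
    rw [hs', hn, hn, hs, Functor.map_smul, Linear.smul_comp, Linear.comp_smul]

theorem AbGen.isExceptional (h : AbGen k Q O) (i : Fin N) :
    BO.IsExceptional k ((dbSingle A).obj (Q i)) := by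
  constructor
  · intro f
    obtain ⟨c, hc, hu⟩ := h.end_eq i ((dbSingle A).preimage f)
    refine ⟨c, ?_, ?_⟩
    · have h1 : f = (dbSingle A).map (c • 𝟙 (Q i)) := by
        rw [← hc, Functor.map_preimage]
      show f = c • 𝟙 ((dbSingle A).obj (Q i))
      rw [h1, Functor.map_smul, CategoryTheory.Functor.map_id]
    · intro c' hc'
      apply hu
      apply (dbSingle A).map_injective
      have hc2 : f = c' • 𝟙 ((dbSingle A).obj (Q i)) := hc'
      rw [Functor.map_preimage, Functor.map_smul, CategoryTheory.Functor.map_id]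
      exact hc2
  · intro n hn f
    exact h.strong i i n hn f

theorem AbGen.orth (h : AbGen k Q O) (i j : Fin N) (hij : i < j) (n : ℤ)
    (f : (dbSingle A).obj (Q j) ⟶ ((dbSingle A).obj (Q i))⟦n⟧) : f = 0 := by
  by_cases hn : n = 0
  · subst hn
    let z : ((dbSingle A).obj (Q i))⟦(0 : ℤ)⟧ ≅ (dbSingle A).obj (Q i) :=
      (shiftFunctorZero (Db A) ℤ).app ((dbSingle A).obj (Q i))
    have h1 : f ≫ z.hom = 0 := by
      rw [← (dbSingle A).map_preimage (f ≫ z.hom),
        h.hom_eq_zero i j hij ((dbSingle A).preimage (f ≫ z.hom)), Functor.map_zero]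
    have h2 : f = (f ≫ z.hom) ≫ z.inv := by simp
    rw [h2, h1, zero_comp]
  · exact h.strong j i n hn f

theorem AbGen.full (h : AbGen k Q O) (P : ObjectProperty (Db A)) (hP : P.IsTriangulated)
    (hP' : P.IsClosedUnderIsomorphisms) (hQ : ∀ i, P ((dbSingle A).obj (Q i))) (X : Db A) : P X := by
  have := fun n : ℤ => D11_shiftLinear (A := A) k n
  obtain ⟨Y, hY, hX⟩ := exists_proj k (fun i => (dbSingle A).obj (Q i)) h.isExceptional h.orth
    h.finQZ X
  refine hX P hP hP' hQ ?_
  have hb := h.build (fun X => orthL (fun _ : Unit => Y) ((dbSingle A).obj X))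
    (closed23_of_triangulated _) (fun i _ n f => hY i n f)
  exact P.prop_of_isZero (isZero_of_orth O h.gen Y (fun c n f => hb c () n f))

/-- The full exceptional system. -/
def AbGen.sys (h : AbGen k Q O) : BO.ExcSystem k (Db A) N where
  obj i := (dbSingle A).obj (Q i)
  exc := h.isExceptional
  orth := h.orth
  full := h.full

end MPbd3808.BR
end
end

section

/-!
# MP_bd3808_ag, campaign BR: the involution `s0 ↔ s1, u0 ↔ u1, z0 ↔ z3, z1 ↔ z2`
-/

set_option autoImplicit false

noncomputable section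

open CategoryTheory CategoryTheory.Limits

namespace MPbd3808.BR.SX

universe u

/-- the involution on variables -/
def piV : Vr → Vr := ![1,0,3,2,4,5,9,8,7,6]

theorem piV_piV (v : Vr) : piV (piV v) = v := by revert v; decide

theorem fam_piV (v : Vr) : fam (piV v) = fam v := by revert v; decide

theorem dg_piV (v : Vr) : dg (piV v) = dg v := by revert v; decide

theorem wv_piV (v : Vr) : wv (piV v) = -wv v := by revert v; decide

/-- the involution as a permutation -/
def piP : Equiv.Perm Vr := ⟨piV, piV, piV_piV, piV_piV⟩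

/-- the involution on exponents -/
def piE : Ex →+ Ex where
  toFun e v := e (piV v)
  map_zero' := rfl
  map_add' _ _ := rfl

@[simp] theorem piE_apply (e : Ex) (v : Vr) : piE e v = e (piV v) := rfl

theorem piE_piE (e : Ex) : piE (piE e) = e := by
  funext v
  rw [piE_apply, piE_apply, piV_piV]

theorem degE_piE (e : Ex) : degE (piE e) = degE e := by
  unfold degE
  rw [← Equiv.sum_comp piP (fun v => piE e v • dg v)]
  refine Finset.sum_congr rfl fun v _ => ?_
  change piE e (piV v) • dg (piV v) = _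
  rw [piE_apply, piV_piV, dg_piV]

theorem wt_piE (e : Ex) : wt (piE e) = -wt e := by
  unfold wt
  rw [← Equiv.sum_comp piP (fun v => wv v * piE e v), ← Finset.sum_neg_distrib]
  refine Finset.sum_congr rfl fun v _ => ?_
  change wv (piV v) * piE e (piV v) = _
  rw [piE_apply, piV_piV, wv_piV, neg_mul]

/-- the involution on charts -/
def piS (σ : Finset Vr) : Finset Vr := Finset.univ.filter fun v => piV v ∈ σ

theorem mem_piS {σ : Finset Vr} {v : Vr} : v ∈ piS σ ↔ piV v ∈ σ := by simp [piS]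

theorem piS_piS (σ : Finset Vr) : piS (piS σ) = σ := by
  ext v
  rw [mem_piS, mem_piS, piV_piV]

theorem piS_mono {σ τ : Finset Vr} (h : σ ⊆ τ) : piS σ ⊆ piS τ := fun v hv =>
  mem_piS.2 (h (mem_piS.1 hv))

theorem full_piS {σ : Finset Vr} (h : Full σ) : Full (piS σ) := fun i => by
  obtain ⟨v, hv, hi⟩ := h i
  exact ⟨piV v, mem_piS.2 (by rwa [piV_piV]), by rw [fam_piV, hi]⟩

theorem reg_piE {σ : Finset Vr} {e : Ex} (h : Reg σ e) : Reg (piS σ) (piE e) := fun v hv =>
  h (piV v) fun h' => hv (mem_piS.2 h')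

/-- the involution on the index category -/
def piOb : Ob ⥤ Ob where
  obj Y := ⟨piS Y.σ, full_piS Y.full, Y.a⟩
  map {Y Z} m := Mor.mk (piE (Mor.e m)) (piS_mono (Mor.le m)) (reg_piE (Mor.reg m))
    (by rw [degE_piE]; exact Mor.deg m)
  map_id Y := by
    apply Mor.ext
    exact piE.map_zero
  map_comp f g := by
    apply Mor.ext
    exact piE.map_add _ _

theorem piOb_surj (Y : Ob) : ∃ Z : Ob, piOb.obj Z = Y := by
  refine ⟨⟨piS Y.σ, full_piS Y.full, Y.a⟩, ?_⟩
  obtain ⟨σ, hσ, a⟩ := Y
  change Ob.mk (piS (piS σ)) _ a = _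
  congr 1
  exact piS_piS σ

variable {k : Type u} [Field k]

/-- the involution on Laurent polynomials -/
def piA : A k →ₐ[k] A k :=
  AddMonoidAlgebra.lift k (A k) Ex
    { toFun := fun e => (mon (piE e.toAdd) : A k)
      map_one' := by
        rw [toAdd_one, map_zero]
        rfl
      map_mul' := fun e e' => by
        rw [toAdd_mul, map_add, mon, mon, mon, AddMonoidAlgebra.single_mul_single, one_mul] }

theorem piA_mon (e : Ex) : piA (mon e) = (mon (piE e) : A k) := by
  unfold piA
  rw [mon, AddMonoidAlgebra.lift_single, one_smul]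
  rfl

theorem piA_coeff (p : A k) (e : Ex) : (piA p).coeff e = p.coeff (piE e) := by
  induction p using AddMonoidAlgebra.induction_linear with
  | zero => simp
  | add p q hp hq => rw [map_add, AddMonoidAlgebra.coeff_add, Finsupp.add_apply, hp, hq,
      AddMonoidAlgebra.coeff_add, Finsupp.add_apply]
  | single e' a =>
    have h1 : (AddMonoidAlgebra.single e' a : A k) = a • mon e' := by
      rw [mon, AddMonoidAlgebra.smul_single, smul_eq_mul, mul_one]
    rw [h1, map_smul, piA_mon, AddMonoidAlgebra.coeff_smul, AddMonoidAlgebra.coeff_smul,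
      Finsupp.smul_apply, Finsupp.smul_apply, mon, mon, AddMonoidAlgebra.coeff_single,
      AddMonoidAlgebra.coeff_single, Finsupp.single_apply, Finsupp.single_apply]
    have h2 : piE e' = e ↔ e' = piE e := by
      constructor
      · rintro rfl
        rw [piE_piE]
      · rintro rfl
        rw [piE_piE]
    by_cases h : e' = piE e
    · rw [if_pos h, if_pos (h2.2 h)]
    · rw [if_neg h, if_neg (fun h' => h (h2.1 h'))]

theorem piA_piA (p : A k) : piA (piA p) = p := by
  apply AddMonoidAlgebra.coeff_injective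
  ext e
  rw [piA_coeff, piA_coeff, piE_piE]

theorem scl_piA (t s : kˣ) (h : t * s = 1) (p : A k) : scl t (piA p) = piA (scl s p) := by
  apply AddMonoidAlgebra.coeff_injective
  ext e
  rw [scl_coeff, piA_coeff, piA_coeff, scl_coeff, wt_piE, zpow_neg, ← inv_zpow]
  congr 3
  exact eq_inv_of_mul_eq_one_left h

theorem piA_mem_gr {σ : Finset Vr} {c : Deg} {p : A k} (hp : p ∈ gr k σ c) :
    piA p ∈ gr k (piS σ) c := by
  intro e he
  rw [piA_coeff] at he
  obtain ⟨h1, h2⟩ := hp _ he
  refine ⟨?_, by rw [degE_piE] at h2; exact h2⟩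
  have h3 := reg_piE h1
  rwa [piE_piE] at h3

theorem piA_mem_gr' {σ : Finset Vr} {c : Deg} {p : A k} (hp : p ∈ gr k (piS σ) c) :
    piA p ∈ gr k σ c := by
  have h1 := piA_mem_gr hp
  rwa [piS_piS] at h1

/-- The equations are stable under the involution. -/
def PiG (G : List (A k × Deg)) : Prop :=
  ∀ (σ : Finset Vr) (c : Deg) (p : A k), p ∈ idl G σ c → piA p ∈ idl G (piS σ) c

theorem PiG.symm {G : List (A k × Deg)} (hG : PiG G) {σ : Finset Vr} {c : Deg} {p : A k}
    (hp : p ∈ idl G (piS σ) c) : piA p ∈ idl G σ c := by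
  have h1 := hG _ _ _ hp
  rwa [piS_piS] at h1

/-- the involution `Qm G σ c → Qm G (π σ) c` -/
def piQ {G : List (A k × Deg)} (hG : PiG G) (σ : Finset Vr) (c : Deg) :
    Qm k G σ c →ₗ[k] Qm k G (piS σ) c :=
  Submodule.mapQ _ _ (piA.toLinearMap.restrict fun _ hp => piA_mem_gr hp) fun _ hp => hG _ _ _ hp

/-- the inverse of the involution `Qm G σ c → Qm G (π σ) c` -/
def piQ' {G : List (A k × Deg)} (hG : PiG G) (σ : Finset Vr) (c : Deg) :
    Qm k G (piS σ) c →ₗ[k] Qm k G σ c :=
  Submodule.mapQ _ _ (piA.toLinearMap.restrict fun _ hp => piA_mem_gr' hp) fun _ hp => hG.symm hp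

theorem piQ_mk {G : List (A k × Deg)} (hG : PiG G) (σ : Finset Vr) (c : Deg) (p : gr k σ c) :
    piQ hG σ c (Submodule.Quotient.mk p) = Submodule.Quotient.mk ⟨piA p, piA_mem_gr p.2⟩ := rfl

theorem piQ'_mk {G : List (A k × Deg)} (hG : PiG G) (σ : Finset Vr) (c : Deg)
    (p : gr k (piS σ) c) :
    piQ' hG σ c (Submodule.Quotient.mk p) = Submodule.Quotient.mk ⟨piA p, piA_mem_gr' p.2⟩ := rfl

theorem piQ'_piQ {G : List (A k × Deg)} (hG : PiG G) (σ : Finset Vr) (c : Deg)
    (x : Qm k G σ c) : piQ' hG σ c (piQ hG σ c x) = x := by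
  obtain ⟨p, rfl⟩ := Submodule.Quotient.mk_surjective _ x
  rw [piQ_mk, piQ'_mk]
  congr 1
  ext1
  exact piA_piA _

theorem piQ_piQ' {G : List (A k × Deg)} (hG : PiG G) (σ : Finset Vr) (c : Deg)
    (x : Qm k G (piS σ) c) : piQ hG σ c (piQ' hG σ c x) = x := by
  obtain ⟨p, rfl⟩ := Submodule.Quotient.mk_surjective _ x
  rw [piQ'_mk, piQ_mk]
  congr 1
  ext1
  exact piA_piA _

theorem piQ_mulQm {G : List (A k × Deg)} (hG : PiG G) {σ τ : Finset Vr} {c d : Deg}
    (hst : σ ⊆ τ) (e : Ex) (he : Reg τ e) (hd : degE e = d - c) (x : Qm k G σ c) :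
    piQ hG τ d (mulQm k G hst e he hd x) =
      mulQm k G (piS_mono hst) (piE e) (reg_piE he) (by rw [degE_piE, hd]) (piQ hG σ c x) := by
  obtain ⟨p, rfl⟩ := Submodule.Quotient.mk_surjective _ x
  rw [mulQm_mk, piQ_mk, piQ_mk, mulQm_mk]
  refine congrArg Submodule.Quotient.mk (Subtype.ext ?_)
  have h1 : piA (mulGr k hst e he hd p : A k) = mon (piE e) * piA (p : A k) := by
    rw [mulGr_coe, map_mul, piA_mon]
  exact h1

theorem piQ_sclQ (t s : kˣ) (h : t * s = 1) {G : List (A k × Deg)} (hG : PiG G) (hG' : HomG G)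
    (σ : Finset Vr) (c : Deg) (x : Qm k G σ c) :
    piQ hG σ c (sclQ s hG' σ c x) = sclQ t hG' (piS σ) c (piQ hG σ c x) := by
  obtain ⟨p, rfl⟩ := Submodule.Quotient.mk_surjective _ x
  rw [piQ_mk, sclQ_mk, sclQ_mk, piQ_mk]
  congr 1
  ext1
  exact (scl_piA t s h _).symm

theorem piQ'_sclQ (t s : kˣ) (h : t * s = 1) {G : List (A k × Deg)} (hG : PiG G) (hG' : HomG G)
    (σ : Finset Vr) (c : Deg) (x : Qm k G (piS σ) c) :
    piQ' hG σ c (sclQ s hG' (piS σ) c x) = sclQ t hG' σ c (piQ' hG σ c x) := by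
  obtain ⟨p, rfl⟩ := Submodule.Quotient.mk_surjective _ x
  rw [piQ'_mk, sclQ_mk, sclQ_mk, piQ'_mk]
  congr 1
  ext1
  exact (scl_piA t s h _).symm

/-- the involution as a linear equivalence -/
def piEq {G : List (A k × Deg)} (hG : PiG G) (σ : Finset Vr) (c : Deg) :
    Qm k G σ c ≃ₗ[k] Qm k G (piS σ) c :=
  { piQ hG σ c with
    invFun := piQ' hG σ c
    left_inv := piQ'_piQ hG σ c
    right_inv := piQ_piQ' hG σ c }

/-- the isomorphism of `QQ G b` with its image under the involution -/
def gam {G : List (A k × Deg)} (hG : PiG G) (b : Deg) : QQ G b ≅ piOb ⋙ QQ G b :=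
  NatIso.ofComponents
    (fun Y => (piEq hG Y.σ (Y.a + b)).toModuleIso)
    (fun {Y Z} m => by
      refine ModuleCat.hom_ext (LinearMap.ext fun x => ?_)
      exact piQ_mulQm hG (Mor.le m) (Mor.e m) (Mor.reg m) _ x)

/-- The involution on homomorphisms. -/
def piHom {G G' : List (A k × Deg)} (hG : PiG G) (hG' : PiG G') (b b' : Deg) :
    (QQ G b ⟶ QQ G' b') →ₗ[k] (QQ G b ⟶ QQ G' b') where
  toFun f := (gam hG b).hom ≫ Functor.whiskerLeft piOb f ≫ (gam hG' b').inv
  map_add' f g := by
    have h1 : Functor.whiskerLeft piOb (f + g) =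
      Functor.whiskerLeft piOb f + Functor.whiskerLeft piOb g := rfl
    rw [h1, Preadditive.add_comp, Preadditive.comp_add]
  map_smul' c f := by
    have h1 : Functor.whiskerLeft piOb (c • f) = c • Functor.whiskerLeft piOb f := rfl
    rw [h1, Linear.smul_comp, Linear.comp_smul]
    rfl

theorem piHom_injective {G G' : List (A k × Deg)} (hG : PiG G) (hG' : PiG G') (b b' : Deg) :
    Function.Injective (piHom hG hG' b b') := by
  intro f g h
  have h1 : Functor.whiskerLeft piOb f = Functor.whiskerLeft piOb g := by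
    have h2 := congrArg (fun x => (gam hG b).inv ≫ x ≫ (gam hG' b').hom) h
    simpa [piHom] using h2
  ext Y : 2
  obtain ⟨Z, rfl⟩ := piOb_surj Y
  exact congrArg (fun x => x.app Z) h1

/-- The action of `t` on homomorphisms. -/
def actQ (t : kˣ) {G G' : List (A k × Deg)} (hG : HomG G) (hG' : HomG G') (b b' : Deg)
    (f : QQ G b ⟶ QQ G' b') : QQ G b ⟶ QQ G' b' :=
  (psiQ t hG b).hom ≫ (tw t).map f ≫ (psiQ t hG' b').inv

theorem actQ_piHom_actQ (t : kˣ) {G G' : List (A k × Deg)} (hG : HomG G) (hG' : HomG G')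
    (hP : PiG G) (hP' : PiG G') (b b' : Deg) (f : QQ G b ⟶ QQ G' b') :
    actQ t hG hG' b b' (piHom hP hP' b b' (actQ t hG hG' b b' f)) = piHom hP hP' b b' f := by
  ext Y x
  obtain ⟨p, rfl⟩ := Submodule.Quotient.mk_surjective _ x
  change sclQ t⁻¹ hG' Y.σ (Y.a + b') (piQ' hP' Y.σ (Y.a + b') (sclQ t⁻¹ hG' (piS Y.σ) (Y.a + b')
    ((f.app (piOb.obj Y)).hom (sclQ t hG (piS Y.σ) (Y.a + b) (piQ hP Y.σ (Y.a + b)
      (sclQ t hG Y.σ (Y.a + b) (Submodule.Quotient.mk p))))))) =
    piQ' hP' Y.σ (Y.a + b') ((f.app (piOb.obj Y)).hom (piQ hP Y.σ (Y.a + b)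
      (Submodule.Quotient.mk p)))
  rw [piQ'_sclQ t t⁻¹ (by simp), sclQ_sclQ t t⁻¹ (by simp), piQ_sclQ t⁻¹ t (by simp),
    sclQ_sclQ t⁻¹ t (by simp)]

end MPbd3808.BR.SX
end
end

section

/-!
# MP_bd3808_ag, campaign BR: the square of the determinant of the action of `t` is 1
-/

set_option autoImplicit false

noncomputable section

open CategoryTheory CategoryTheory.Limits

namespace MPbd3808.BR.SX

universe u

variable {k : Type u} [Field k]

theorem piE_eD0 (i : Fin 3) : piE (eD0 i) = eD1 (![0,2,1] i) := by revert i; decide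

theorem piE_eD1 (i : Fin 3) : piE (eD1 i) = eD0 (![0,2,1] i) := by revert i; decide

theorem piE_fE (i : Fin 6) : piE (fE i) = fE (![3,5,4,0,2,1] i) := by revert i; decide

theorem piA_D0 : piA (D0 k) = D1 k := by
  simp only [D0, map_sub, piA_mon, piE_eD0, D1, Matrix.cons_val_zero, Matrix.cons_val_one,
    Matrix.cons_val]
  abel

theorem piA_D1 : piA (D1 k) = D0 k := by
  simp only [D0, map_sub, piA_mon, piE_eD1, D1, Matrix.cons_val_zero, Matrix.cons_val_one,
    Matrix.cons_val]
  abel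

theorem piA_fP : piA (fP k) = fP k := by
  simp only [fP, map_add, map_smul, piA_mon, piE_fE, Fin.sum_univ_six, fC, Matrix.cons_val_zero,
    Matrix.cons_val_one, Matrix.cons_val]
  abel

theorem piG_GW : PiG (GW k) := by
  intro σ c p hp
  obtain ⟨q, ⟨q', hq', rfl⟩, r, hr, rfl⟩ := Submodule.mem_sup.1 hp
  rw [show r = 0 from hr, add_zero]
  refine Submodule.mem_sup_left ⟨piA q', piA_mem_gr hq', ?_⟩
  rw [LinearMap.mulLeft_apply, LinearMap.mulLeft_apply, map_mul, piA_fP]

theorem piG_GE : PiG (GE k) := by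
  intro σ c p hp
  obtain ⟨q, ⟨q', hq', rfl⟩, r, hr, rfl⟩ := Submodule.mem_sup.1 hp
  obtain ⟨r1, ⟨r', hr', rfl⟩, r2, hr2, rfl⟩ := Submodule.mem_sup.1 hr
  rw [show r2 = 0 from hr2, add_zero]
  refine Submodule.mem_sup.2 ⟨D1 k * piA r', ⟨piA r', piA_mem_gr hr', rfl⟩, D0 k * piA q',
    Submodule.mem_sup_left ⟨piA q', piA_mem_gr hq', rfl⟩, ?_⟩
  rw [LinearMap.mulLeft_apply, LinearMap.mulLeft_apply, map_add, map_mul, map_mul, piA_D0, piA_D1,
    add_comm]

theorem piG_GQ (i : Fin 24) : PiG (GQ k i) := by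
  unfold GQ
  split_ifs
  · exact piG_GW
  · exact piG_GE

/-- If `α ψ α = ψ` with `ψ` injective then `det(α)^2 = 1`. -/
theorem two_kcls {V : Type*} [AddCommGroup V] [Module k V] [Module.Finite k V]
    (α : V ≃ₗ[k] V) (ψ : V →ₗ[k] V) (hψ : Function.Injective ψ) (h : ∀ x, α (ψ (α x)) = ψ x) :
    (2 : ℤ) • (BO.kcls α).2 = 0 := by
  let Ψ : V ≃ₗ[k] V := LinearEquiv.ofInjectiveEndo ψ hψ
  have h1 : (α.trans Ψ).trans α = Ψ := by
    apply LinearEquiv.ext
    intro x
    exact h x
  have h2 := congrArg LinearEquiv.det h1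
  have h3 : LinearEquiv.det ((α.trans Ψ).trans α) =
      LinearEquiv.det α * (LinearEquiv.det Ψ * LinearEquiv.det α) := by
    rw [← map_mul, ← map_mul]
    rfl
  rw [h3] at h2
  have h4 : LinearEquiv.det α * LinearEquiv.det α = 1 := by
    have h5 : LinearEquiv.det Ψ * (LinearEquiv.det α * LinearEquiv.det α) =
        LinearEquiv.det Ψ * 1 := by
      rw [mul_one]
      exact (mul_left_comm _ _ _).symm.trans h2
    exact mul_left_cancel h5
  change (2 : ℤ) • Additive.ofMul (LinearEquiv.det α) = 0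
  rw [← ofMul_zpow, zpow_ofNat, pow_two, h4]
  rfl

end MPbd3808.BR.SX
end
end

section

/-!
# Essential surjectivity
-/

set_option autoImplicit false

open CategoryTheory CategoryTheory.Limits AlgebraicGeometry TopologicalSpace

namespace BS

open MPbd3808.BR

universe u

variable {k : Type u} [Field k] {X : Scheme.{u}} [X.Over (Spec (.of k))] (C : Charts k X)

/-- the index set of the charts -/
abbrev FS := {σ : Finset Vr // Full σ}

/-- union of two indices -/
def FS.un (i j : FS) : FS := ⟨i.1 ∪ j.1, i.2.mono Finset.subset_union_left⟩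

/-- the data for the glueing of an object `N` of the model: sheaves `G i` with `Φ (G i) ≅ N(· ∪ i)` -/
structure ED where
  N : FunCat k
  hN : isQC k N
  G : FS → X.Modules
  qG : ∀ i, isQCoh X (G i)
  iso : ∀ i : FS, C.phiObj (G i) ≅ shF i.1 ⋙ N

/-- PROOF. `PD.P`, `PD.qcohP`, `PD.phiP_iso`. -/
theorem exists_ED (N : FunCat k) (hN : isQC k N) : ∃ E : ED C, E.N = N := by
  let T : FS → PD C := fun i => ⟨N, hN, i.1, i.2⟩
  exact ⟨{ N := N
           hN := hN
           G := fun i => (T i).P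
           qG := fun i => (T i).qcohP
           iso := fun i => (T i).phiP_iso.some }, rfl⟩

variable {C} (E : ED C)

namespace ED

/-- the restriction `N(· ∪ i) ⟶ N(· ∪ j)` for `i ⊆ j` -/
def rs (i j : FS) (h : i.1 ⊆ j.1) : shF i.1 ⋙ E.N ⟶ shF j.1 ⋙ E.N where
  app A := E.N.map (res (A.full.mono Finset.subset_union_left) (A.full.mono Finset.subset_union_left)
    (Finset.union_subset_union_right h) A.a)
  naturality A B f := by
    change E.N.map _ ≫ E.N.map _ = E.N.map _ ≫ E.N.map _
    rw [← E.N.map_comp, ← E.N.map_comp]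
    congr 1
    ext
    simp only [comp_e, res_e, zero_add, add_zero]
    rfl

/-- the restriction `G i ⟶ G j` for `i ⊆ j`: the morphism with `Φ` equal to `rs` (`phi_full`). -/
theorem exists_dl (i j : FS) (h : i.1 ⊆ j.1) :
    ∃ d : E.G i ⟶ E.G j, C.phiMap d = (E.iso i).hom ≫ E.rs i j h ≫ (E.iso j).inv := by
  exact C.phi_full (fun _ _ => loc_of_qcoh _ (E.qG i) (C.affine _ _))
    (fun _ _ => loc_of_qcoh _ (E.qG j) (C.affine _ _)) _

/-- the restriction `G i ⟶ G j` for `i ⊆ j` -/
noncomputable def dl (i j : FS) (h : i.1 ⊆ j.1) : E.G i ⟶ E.G j := (E.exists_dl i j h).choose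

lemma phi_dl (i j : FS) (h : i.1 ⊆ j.1) :
    C.phiMap (E.dl i j h) = (E.iso i).hom ≫ E.rs i j h ≫ (E.iso j).inv :=
  (E.exists_dl i j h).choose_spec

/-- the sheaf of compatible families -/
noncomputable def dd : (∏ᶜ E.G) ⟶ ∏ᶜ (fun p : FS × FS => E.G (p.1.un p.2)) :=
  Pi.lift fun p => Pi.π E.G p.1 ≫ E.dl p.1 (p.1.un p.2) Finset.subset_union_left -
    Pi.π E.G p.2 ≫ E.dl p.2 (p.1.un p.2) Finset.subset_union_right

/-- the sheaf of compatible families -/
noncomputable def K : X.Modules := kernel E.dd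

/-- its projection to `G i` -/
noncomputable def pr (i : FS) : E.K ⟶ E.G i := kernel.ι E.dd ≫ Pi.π E.G i

/-- PROOF. Closure of quasi-coherent sheaves under finite products and kernels (QClos.lean). -/
theorem qK : isQCoh X E.K := by
  refine qcoh_of_loc _ fun x => ?_
  obtain ⟨σ, hσ, hx⟩ := C.cover x
  refine ⟨C.U σ hσ, hx, C.affine σ hσ, loc_ker _ ?_ ?_⟩
  · exact loc_prod _ fun i => loc_of_qcoh _ (E.qG i) (C.affine σ hσ)
  · exact loc_prod _ fun p => loc_of_qcoh _ (E.qG (p.1.un p.2)) (C.affine σ hσ)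

/-- PROOF. `kernel.condition`, composed with `Pi.π _ (i,j)`. -/
theorem pr_dl (i j : FS) : E.pr i ≫ E.dl i (i.un j) Finset.subset_union_left =
    E.pr j ≫ E.dl j (i.un j) Finset.subset_union_right := by
  have h := congrArg (fun f => f ≫ Pi.π (fun p : FS × FS => E.G (p.1.un p.2)) (i, j))
    (kernel.condition E.dd)
  simp only [Category.assoc, zero_comp] at h
  unfold dd at h
  rw [Pi.lift_π, Preadditive.comp_sub, sub_eq_zero] at h
  unfold pr
  rw [Category.assoc, Category.assoc]
  exact h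

/-- PROOF. `ker_inj`, `prod_inj`. -/
theorem K_ext (U : X.Opens) {x y : Γ(E.K, U)} (h : ∀ i, ap (E.pr i) U x = ap (E.pr i) U y) : x = y := by
  exact ker_inj E.dd U (prod_inj E.G U _ _ fun i => h i)

/-- PROOF. `prod_surj`, `ker_exact`, `prod_inj` for the target. -/
theorem K_exists (U : X.Opens) (x : ∀ i, Γ(E.G i, U))
    (h : ∀ i j, ap (E.dl i (i.un j) Finset.subset_union_left) U (x i) =
      ap (E.dl j (i.un j) Finset.subset_union_right) U (x j)) : ∃ y : Γ(E.K, U), ∀ i, ap (E.pr i) U y = x i := by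
  obtain ⟨y0, hy0⟩ := prod_surj E.G U x
  have h0 : ap E.dd U y0 = 0 := by
    refine prod_inj (fun p : FS × FS => E.G (p.1.un p.2)) U _ _ fun p => ?_
    rw [map_zero, ← ap_comp]
    unfold dd
    rw [Pi.lift_π, ap_sub, ap_comp, ap_comp, hy0, hy0, h p.1 p.2, sub_self]
  obtain ⟨y, hy⟩ := ker_exact E.dd U y0 h0
  refine ⟨y, fun i => ?_⟩
  have h2 : ap (E.pr i) U y = ap (Pi.π E.G i) U (ap (kernel.ι E.dd) U y) := rfl
  rw [h2]
  exact (congrArg (ap (Pi.π E.G i) U) hy).trans (hy0 i)

/-- `Φ(K)(A) → N(A ∪ i)` -/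
noncomputable def q (i : FS) : C.phiObj E.K ⟶ shF i.1 ⋙ E.N := C.phiMap (E.pr i) ≫ (E.iso i).hom

/-- PROOF. `pr_dl`, `phi_dl`, functoriality of `phiMap`. -/
theorem q_rs (i j : FS) : E.q i ≫ E.rs i (i.un j) Finset.subset_union_left =
    E.q j ≫ E.rs j (i.un j) Finset.subset_union_right := by
  have h1 : ∀ (i j : FS) (h : i.1 ⊆ j.1), E.q i ≫ E.rs i j h =
      C.phiMap (E.pr i ≫ E.dl i j h) ≫ (E.iso j).hom := by
    intro i j h
    have h2 : C.phiMap (E.pr i ≫ E.dl i j h) = C.phiMap (E.pr i) ≫ C.phiMap (E.dl i j h) := rfl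
    rw [h2, phi_dl, q]
    simp only [Category.assoc, Iso.inv_hom_id, Category.comp_id]
  rw [h1, h1, pr_dl]

end ED

end BS
end

section

/-!
# Essential surjectivity: the result
-/

set_option autoImplicit false

open CategoryTheory CategoryTheory.Limits AlgebraicGeometry TopologicalSpace

namespace BS

open MPbd3808.BR

universe u

variable {k : Type u} [Field k] {X : Scheme.{u}} [X.Over (Spec (.of k))] {C : Charts k X} (E : ED C)

namespace ED

/-- the index of the chart of an object of the index category -/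
def ix (A : Ob) : FS := ⟨A.σ, A.full⟩

/-- the isomorphism `(τ,a) ≅ (τ ∪ τ, a)` -/
def dup (A : Ob) : A ≅ shOb A.σ A where
  hom := res A.full (A.full.mono Finset.subset_union_left) Finset.subset_union_left A.a
  inv := res (A.full.mono Finset.subset_union_left) A.full (Finset.union_self A.σ).le A.a
  hom_inv_id := by ext; simp
  inv_hom_id := by ext; simp

/-- `Φ(K)(A) → N(A)`: the component of index `A.σ` -/
noncomputable def th (A : Ob) : (C.phiObj E.K).obj A ⟶ E.N.obj A :=
  (E.q (ix A)).app A ≫ E.N.map (dup A).inv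

/-- `q_i` at `A`, with a clean type -/
noncomputable def Ess2_q (i : FS) (A : Ob) : (C.phiObj E.K).obj A ⟶ E.N.obj (shOb i.1 A) :=
  (E.q i).app A

/-- restriction `A ∪ i ⟶ A ∪ j` -/
def Ess2_r (A : Ob) (i j : FS) (h : i.1 ⊆ j.1) : shOb i.1 A ⟶ shOb j.1 A :=
  res (A.full.mono Finset.subset_union_left) (A.full.mono Finset.subset_union_left)
    (Finset.union_subset_union_right h) A.a

/-- restriction `A ⟶ A ∪ i` -/
def Ess2_u (A : Ob) (i : FS) : A ⟶ shOb i.1 A :=
  res A.full (A.full.mono Finset.subset_union_left)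
    (Finset.subset_union_left : A.σ ⊆ A.σ ∪ i.1) A.a

/-- `A ∪ (i ∪ A) ⟶ A ∪ i` -/
def Ess2_b (A : Ob) (i : FS) : shOb (i.un (ix A)).1 A ⟶ shOb i.1 A :=
  res (A.full.mono Finset.subset_union_left) (A.full.mono Finset.subset_union_left) (by
    intro v hv
    rcases Finset.mem_union.1 hv with h | h
    · exact Finset.mem_union_left _ h
    · rcases Finset.mem_union.1 h with h | h
      · exact Finset.mem_union_right _ h
      · exact Finset.mem_union_left _ h) A.a

lemma Ess2_q_rs (i : FS) (A : Ob) (j : FS) :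
    E.Ess2_q i A ≫ E.N.map (Ess2_r A i (i.un j) Finset.subset_union_left) =
    E.Ess2_q j A ≫ E.N.map (Ess2_r A j (i.un j) Finset.subset_union_right) :=
  congrArg (fun t => t.app A) (E.q_rs i j)

/-- `A ∪ A ⟶ A` -/
def Ess2_d (A : Ob) : shOb (ix A).1 A ⟶ A := (dup A).inv

lemma Ess2_th (A : Ob) : E.th A = E.Ess2_q (ix A) A ≫ E.N.map (Ess2_d A) := rfl

lemma Ess2_main (i : FS) (A : Ob) : E.Ess2_q i A = E.th A ≫ E.N.map (Ess2_u A i) := by
  have h1 := E.Ess2_q_rs i A (ix A)
  have h2 : Ess2_r A i (i.un (ix A)) Finset.subset_union_left ≫ Ess2_b A i = 𝟙 _ := by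
    apply hom_ext
    rw [comp_e, id_e]
    change (0 : Ex) + 0 = 0
    rw [add_zero]
  have h3 : Ess2_r A (ix A) (i.un (ix A)) Finset.subset_union_right ≫ Ess2_b A i =
      Ess2_d A ≫ Ess2_u A i := by
    apply hom_ext
    rw [comp_e, comp_e]
    rfl
  rw [Ess2_th, Category.assoc, ← E.N.map_comp, ← h3, E.N.map_comp, ← Category.assoc, ← h1,
    Category.assoc, ← E.N.map_comp, h2, E.N.map_id, Category.comp_id]

/-- For every `i` the component of index `i` of `x` is the restriction of `th x`: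
`q_i x = N(res : A ⟶ A ∪ i) (th x)`.

PROOF. Apply `rs i (i ∪ τ)` and `rs τ (i ∪ τ)`, `τ := A.σ`: `q_rs` at `A` says that `q_i x` and `q_τ x` have the same image in `N(A ∪ (i ∪ τ))`. The map
`rs i (i ∪ τ)` at `A` is `N(res)` for `A.σ ∪ i ⊆ A.σ ∪ (i ∪ A.σ)`, an equality of sets, so it is an isomorphism. Everything is `N.map` of morphisms
with exponent `0` of the index category (`Mor.ext`). -/
theorem q_th (i : FS) (A : Ob) :
    (E.q i).app A = E.th A ≫ E.N.map (res A.full (A.full.mono Finset.subset_union_left)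
      (Finset.subset_union_left : A.σ ⊆ A.σ ∪ i.1) A.a) :=
  E.Ess2_main i A

/-- PROOF. For `f : A ⟶ B`: by naturality of `q (ix B)` at `f`, `Φ(K)(f) ≫ th B = (q (ix B)).app A ≫ N((shF B.σ).map f) ≫ N((dup B).inv)`, and
`q_th` with `i := ix B` rewrites `(q (ix B)).app A`; the exponents of the morphisms of the index category agree. -/
theorem th_nat {A B : Ob} (f : A ⟶ B) : (C.phiObj E.K).map f ≫ E.th B = E.th A ≫ E.N.map f := by
  let f' : shOb (ix B).1 A ⟶ shOb (ix B).1 B := (shF B.σ).map f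
  have h1 : (C.phiObj E.K).map f ≫ E.Ess2_q (ix B) B = E.Ess2_q (ix B) A ≫ E.N.map f' :=
    (E.q (ix B)).naturality f
  have h2 : Ess2_u A (ix B) ≫ f' ≫ Ess2_d B = f := by
    apply hom_ext
    rw [comp_e, comp_e]
    change (0 : Ex) + (Mor.e f + 0) = Mor.e f
    rw [zero_add, add_zero]
  rw [Ess2_th (A := B), ← Category.assoc, h1, Ess2_main, Category.assoc, Category.assoc,
    ← E.N.map_comp, ← E.N.map_comp, h2]

lemma Ess2_pr (i : FS) (A : Ob) (x : (C.phiObj E.K).obj A) :
    (E.Ess2_q i A).hom x = ((E.iso i).hom.app A).hom (((C.phiMap (E.pr i)).app A).hom x) := rfl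

lemma Ess2_main_apply (i : FS) (A : Ob) (x : (C.phiObj E.K).obj A) :
    (E.Ess2_q i A).hom x = (E.N.map (Ess2_u A i)).hom ((E.th A).hom x) := by
  rw [Ess2_main]; rfl

/-- PROOF. Injective: `th x = th y` gives `q_i x = q_i y` for all `i` (`q_th`), so `pr_i x = pr_i y` (`E.iso i` is an isomorphism), so `x = y` (`K_ext`).
Surjective: for `n : N(A)` put `x_i := (E.iso i).inv.app A (N(res) n) : Γ(G i, U A.σ)`; the family is compatible (`phi_dl`; both sides are the image of
`n` in `N(A ∪ (i ∪ j))`), so `K_exists` gives `y`, and `th y = n` because `(E.q (ix A)).app A y = N((dup A).hom) n`. -/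
theorem th_bij (A : Ob) : Function.Bijective (E.th A).hom := by
  constructor
  · intro x y hxy
    apply toS.injective
    refine E.K_ext (C.U A.σ A.full) fun i => ?_
    have h1 : (E.Ess2_q i A).hom x = (E.Ess2_q i A).hom y := by
      rw [Ess2_main_apply, Ess2_main_apply, hxy]
    rw [Ess2_pr, Ess2_pr] at h1
    have hinj : Function.Injective ((E.iso i).hom.app A).hom := by
      have : Function.LeftInverse ((E.iso i).inv.app A).hom ((E.iso i).hom.app A).hom := by
        intro z
        have h := congrArg (fun t => (t.app A).hom z) (E.iso i).hom_inv_id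
        exact h
      exact this.injective
    exact hinj h1
  · intro n
    let x : ∀ i : FS, (C.phiObj (E.G i)).obj A := fun i =>
      ((E.iso i).inv.app A).hom ((E.N.map (Ess2_u A i)).hom n)
    have hx : ∀ (i j : FS) (h : i.1 ⊆ j.1), ap (E.dl i j h) (C.U A.σ A.full)
        (toS (F := E.G i) (U := C.U A.σ A.full) (x i)) =
          toS (F := E.G j) (U := C.U A.σ A.full) (x j) := by
      intro i j h
      rw [← C.toS_phiMap, E.phi_dl]
      apply congrArg
      have e1 : ((E.iso i).hom.app A).hom (x i) = (E.N.map (Ess2_u A i)).hom n :=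
        congrArg (fun t => (t.app A).hom ((E.N.map (Ess2_u A i)).hom n)) (E.iso i).inv_hom_id
      have e2 : (E.N.map (Ess2_r A i j h)).hom ((E.N.map (Ess2_u A i)).hom n) =
          (E.N.map (Ess2_u A j)).hom n := by
        have e3 : Ess2_u A i ≫ Ess2_r A i j h = Ess2_u A j := by
          apply hom_ext
          rw [comp_e]
          change (0 : Ex) + 0 = 0
          rw [add_zero]
        rw [← e3, E.N.map_comp]; rfl
      change ((E.iso j).inv.app A).hom ((E.N.map (Ess2_r A i j h)).hom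
        (((E.iso i).hom.app A).hom (x i))) = x j
      rw [e1]
      exact congrArg _ e2
    obtain ⟨y, hy⟩ := E.K_exists (C.U A.σ A.full)
      (fun i => toS (F := E.G i) (U := C.U A.σ A.full) (x i)) (fun i j => by
        rw [hx, hx])
    let y' : (C.phiObj E.K).obj A := toS.symm y
    refine ⟨y', ?_⟩
    have e4 : (E.Ess2_q (ix A) A).hom y' = (E.N.map (Ess2_u A (ix A))).hom n := by
      rw [Ess2_pr]
      have e5 : ((C.phiMap (E.pr (ix A))).app A).hom y' = x (ix A) := by
        apply toS.injective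
        rw [C.toS_phiMap]
        exact hy (ix A)
      rw [e5]
      exact congrArg (fun t => (t.app A).hom ((E.N.map (Ess2_u A (ix A))).hom n))
        (E.iso (ix A)).inv_hom_id
    have e6 : Ess2_u A (ix A) ≫ Ess2_d A = 𝟙 A := by
      apply hom_ext
      rw [comp_e, id_e]
      change (0 : Ex) + 0 = 0
      rw [add_zero]
    rw [Ess2_th, ModuleCat.hom_comp, LinearMap.comp_apply, e4, ← LinearMap.comp_apply,
      ← ModuleCat.hom_comp, ← E.N.map_comp, e6, E.N.map_id]
    rfl

end ED

/-- PROOF. `exists_ED`, `ED.K`, `ED.qK`, `NatIso.ofComponents` with `th` (`th_nat`, `th_bij`; `ConcreteCategory.isIso_iff_bijective`). -/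
theorem phi_essSurj (C : Charts k X) (N : FunCat k) (hN : isQC k N) :
    ∃ (F : X.Modules) (_ : isQCoh X F), Nonempty (C.phiObj F ≅ N) := by
  obtain ⟨E, rfl⟩ := exists_ED C N hN
  refine ⟨E.K, E.qK, ⟨?_⟩⟩
  haveI : ∀ A, IsIso (E.th A) := fun A =>
    (ConcreteCategory.isIso_iff_bijective (E.th A)).2 (E.th_bij A)
  exact NatIso.ofComponents (fun A => asIso (E.th A)) (fun f => E.th_nat f)

end BS
end
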