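import Mathlib
import Pool.Agent.Lib.MP_bd3808_ag.Mg.G010
import Pool.Agent.Lib.MP_bd3808_ag.Mg.G014
import Pool.Agent.Lib.MP_bd3808_ag.BO.Defs

section

/-!
# Vanishing of Ext: definitions
-/

open CategoryTheory CategoryTheory.Limits CategoryTheory.Abelian

namespace MPbd3808.BR

universe w v u

variable {C : Type u} [Category.{v} C] [Abelian C] [HasExt.{w} C]

/-- all higher Ext groups vanish -/
def ExtAc (X Y : C) : Prop := ∀ (n : ℕ), 1 ≤ n → ∀ e : Ext.{w} X Y n, e = 0

/-- all Ext groups vanish -/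
def ExtOrth (X Y : C) : Prop := ∀ (n : ℕ) (e : Ext.{w} X Y n), e = 0

/-- composition `Hom(E,X) → Hom(E,Y)` with `g` is surjective -/
def HomSurj (E : C) {X Y : C} (g : X ⟶ Y) : Prop := ∀ f : E ⟶ Y, ∃ f' : E ⟶ X, f' ≫ g = f

lemma ExtOrth.ac {X Y : C} (h : ExtOrth.{w} X Y) : ExtAc.{w} X Y := fun n _ => h n

lemma ExtOrth.hom_eq_zero {X Y : C} (h : ExtOrth.{w} X Y) (f : X ⟶ Y) : f = 0 :=
  (Ext.mk₀_eq_zero_iff f).1 (h 0 (Ext.mk₀ f))

end MPbd3808.BR
end

section

/-!
# TASK H5: long exact sequences, vanishing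
-/

open CategoryTheory CategoryTheory.Limits CategoryTheory.Abelian

namespace MPbd3808.BR

universe w v u

variable {C : Type u} [Category.{v} C] [Abelian C] [HasExt.{w} C]

/-- PROOF. `Ext.covariant_sequence_exact₁` (class `e` of degree `n = m + 1` in `Ext(E, S.X₁)` whose image in
`Ext(E, S.X₂)` is zero comes from `Ext^m(E, S.X₃)`): for `m ≥ 1` that group vanishes; for `m = 0` the
element is `mk₀ f`, `f = f' ≫ S.g`, and `(mk₀ (f' ≫ S.g)).comp extClass = 0`
(`ShortComplex.ShortExact.comp_extClass`). -/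
theorem extAc_left {S : ShortComplex C} (hS : S.ShortExact) {E : C} (h2 : ExtAc.{w} E S.X₂)
    (h3 : ExtAc.{w} E S.X₃) (hs : HomSurj E S.g) : ExtAc.{w} E S.X₁ := by
  intro n hn e
  obtain ⟨m, rfl⟩ : ∃ m, n = m + 1 := ⟨n - 1, by omega⟩
  obtain ⟨x, hx⟩ := Ext.covariant_sequence_exact₁ E hS e (h2 _ hn _) (rfl : m + 1 = m + 1)
  rcases Nat.eq_zero_or_pos m with rfl | hm
  · obtain ⟨f, rfl⟩ := (Ext.mk₀_bijective E S.X₃).2 x
    obtain ⟨f', rfl⟩ := hs f
    rw [← hx, ← Ext.mk₀_comp_mk₀, Ext.comp_assoc_of_second_deg_zero,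
      ShortComplex.ShortExact.comp_extClass, Ext.comp_zero]
  · rw [← hx, h3 m hm x, Ext.zero_comp]

/-- PROOF. `Ext.covariant_sequence_exact₃`. -/
theorem extAc_right {S : ShortComplex C} (hS : S.ShortExact) {E : C} (h1 : ExtAc.{w} E S.X₁)
    (h2 : ExtAc.{w} E S.X₂) : ExtAc.{w} E S.X₃ := by
  intro n hn e
  obtain ⟨x, hx⟩ := Ext.covariant_sequence_exact₃ E hS e (rfl : n + 1 = n + 1) (h1 _ (by omega) _)
  rw [← hx, h2 n hn x, Ext.zero_comp]

/-- PROOF. `Ext.covariant_sequence_exact₃` for `n = 0`: the product of `mk₀ f` with the extension class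
lies in `Ext^1(E, S.X₁) = 0`. -/
theorem homSurj_of_extAc {S : ShortComplex C} (hS : S.ShortExact) {E : C}
    (h1 : ExtAc.{w} E S.X₁) : HomSurj E S.g := by
  intro f
  obtain ⟨x, hx⟩ := Ext.covariant_sequence_exact₃ E hS (Ext.mk₀ f) (zero_add 1 : 0 + 1 = 1)
    (h1 _ le_rfl _)
  obtain ⟨f', rfl⟩ := (Ext.mk₀_bijective E S.X₂).2 x
  rw [Ext.mk₀_comp_mk₀] at hx
  exact ⟨f', (Ext.mk₀_bijective E S.X₃).1 hx⟩

/-- PROOF. `Ext.covariant_sequence_exact₂`. -/
theorem extAc_mid {S : ShortComplex C} (hS : S.ShortExact) {E : C} (h1 : ExtAc.{w} E S.X₁)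
    (h3 : ExtAc.{w} E S.X₃) : ExtAc.{w} E S.X₂ := by
  intro n hn e
  obtain ⟨x, hx⟩ := Ext.covariant_sequence_exact₂ E hS e (h3 _ hn _)
  rw [← hx, h1 n hn x, Ext.zero_comp]

/-- PROOF. `Ext.covariant_sequence_exact₃`. -/
theorem extOrth_right {S : ShortComplex C} (hS : S.ShortExact) {E : C} (h1 : ExtOrth.{w} E S.X₁)
    (h2 : ExtOrth.{w} E S.X₂) : ExtOrth.{w} E S.X₃ := by
  intro n e
  obtain ⟨x, hx⟩ := Ext.covariant_sequence_exact₃ E hS e (rfl : n + 1 = n + 1) (h1 _ _)
  rw [← hx, h2 n x, Ext.zero_comp]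

/-- PROOF. `Ext.covariant_sequence_exact₁` and, for `n = 0`, `S.f` is a monomorphism. -/
theorem extOrth_left {S : ShortComplex C} (hS : S.ShortExact) {E : C} (h2 : ExtOrth.{w} E S.X₂)
    (h3 : ExtOrth.{w} E S.X₃) : ExtOrth.{w} E S.X₁ := by
  intro n e
  rcases Nat.eq_zero_or_pos n with rfl | hn
  · obtain ⟨f, rfl⟩ := (Ext.mk₀_bijective E S.X₁).2 e
    have hf : f ≫ S.f = 0 := h2.hom_eq_zero _
    have := hS.mono_f
    have hf0 : f = 0 := by
      rw [← cancel_mono S.f, hf, zero_comp]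
    rw [hf0, Ext.mk₀_zero]
  · obtain ⟨m, rfl⟩ : ∃ m, n = m + 1 := ⟨n - 1, by omega⟩
    obtain ⟨x, hx⟩ := Ext.covariant_sequence_exact₁ E hS e (h2 _ _) (rfl : m + 1 = m + 1)
    rw [← hx, h3 m x, Ext.zero_comp]

/-- If `Ext^n(S.X₁, Y) = 0` for all `n` then `Ext^n(S.X₃,Y) → Ext^n(S.X₂,Y)` is bijective.

PROOF. Contravariant sequences; injective for `n = 0` because `S.g` is epi. -/
theorem precomp_bijective_of_extOrth {S : ShortComplex C} (hS : S.ShortExact) {Y : C}
    (h1 : ExtOrth.{w} S.X₁ Y) (n : ℕ) :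
    Function.Bijective fun e : Ext.{w} S.X₃ Y n => (Ext.mk₀ S.g).comp e (zero_add n) := by
  constructor
  · intro e e' he
    have he' : (Ext.mk₀ S.g).comp e (zero_add n) = (Ext.mk₀ S.g).comp e' (zero_add n) := he
    have h0 : (Ext.mk₀ S.g).comp (e - e') (zero_add n) = 0 := by
      rw [sub_eq_add_neg, Ext.comp_add, Ext.comp_neg, he', add_neg_cancel]
    have h1' : e - e' = 0 := by
      rcases Nat.eq_zero_or_pos n with rfl | hn
      · obtain ⟨f, hf⟩ := (Ext.mk₀_bijective S.X₃ Y).2 (e - e')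
        rw [← hf, Ext.mk₀_comp_mk₀, Ext.mk₀_eq_zero_iff] at h0
        have := hS.epi_g
        have hf0 : f = 0 := by
          rw [← cancel_epi S.g, h0, comp_zero]
        rw [← hf, hf0, Ext.mk₀_zero]
      · obtain ⟨m, rfl⟩ : ∃ m, n = 1 + m := ⟨n - 1, by omega⟩
        obtain ⟨x, hx⟩ := Ext.contravariant_sequence_exact₃ hS Y (e - e') h0
          (rfl : 1 + m = 1 + m)
        rw [← hx, h1 m x, Ext.comp_zero]
    exact sub_eq_zero.mp h1'
  · intro y
    exact Ext.contravariant_sequence_exact₂ hS Y y (h1 _ _)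

/-- Consequences for vanishing. PROOF: previous theorem. -/
theorem extAc_contra {S : ShortComplex C} (hS : S.ShortExact) {Y : C}
    (h1 : ExtOrth.{w} S.X₁ Y) (h2 : ExtAc.{w} S.X₂ Y) : ExtAc.{w} S.X₃ Y := by
  intro n hn e
  apply (precomp_bijective_of_extOrth hS h1 n).1
  change (Ext.mk₀ S.g).comp e (zero_add n) = (Ext.mk₀ S.g).comp 0 (zero_add n)
  have h3 : (Ext.mk₀ S.g).comp e (zero_add n) = 0 := h2 n hn _
  rw [h3, Ext.comp_zero]

/-- Vanishing for a biproduct. PROOF: `Ext.addEquivBiprod` or compose with the projections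
(`Ext.comp_mk₀_id`, `biprod.total`). -/
theorem extAc_biprod {E X Y : C} (h1 : ExtAc.{w} E X) (h2 : ExtAc.{w} E Y) :
    ExtAc.{w} E (X ⊞ Y) := by
  intro n hn e
  have h3 : e.comp (Ext.mk₀ (𝟙 (X ⊞ Y))) (add_zero n) = e := Ext.comp_mk₀_id e
  have h4 : e.comp (Ext.mk₀ (biprod.fst : X ⊞ Y ⟶ X)) (add_zero n) = 0 := h1 n hn _
  have h5 : e.comp (Ext.mk₀ (biprod.snd : X ⊞ Y ⟶ Y)) (add_zero n) = 0 := h2 n hn _
  rw [← h3, ← biprod.total, Ext.mk₀_add, Ext.comp_add, ← Ext.mk₀_comp_mk₀, ← Ext.mk₀_comp_mk₀,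
    ← Ext.comp_assoc_of_third_deg_zero, ← Ext.comp_assoc_of_third_deg_zero, h4, h5,
    Ext.zero_comp, Ext.zero_comp, add_zero]

/-- PROOF: compose with `mk₀` of the isomorphism. -/
theorem extAc_of_iso {E X Y : C} (e : X ≅ Y) (h1 : ExtAc.{w} E X) : ExtAc.{w} E Y := by
  intro n hn x
  have h3 : x.comp (Ext.mk₀ (𝟙 Y)) (add_zero n) = x := Ext.comp_mk₀_id x
  have h4 : x.comp (Ext.mk₀ e.inv) (add_zero n) = 0 := h1 n hn _
  rw [← h3, ← e.inv_hom_id, ← Ext.mk₀_comp_mk₀, ← Ext.comp_assoc_of_third_deg_zero, h4,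
    Ext.zero_comp]

/-- PROOF: compose with `mk₀` of the isomorphism. -/
theorem extAc_of_iso_left {E E' X : C} (e : E ≅ E') (h1 : ExtAc.{w} E X) : ExtAc.{w} E' X := by
  intro n hn x
  have h3 : (Ext.mk₀ (𝟙 E')).comp x (zero_add n) = x := Ext.mk₀_id_comp x
  have h4 : (Ext.mk₀ e.hom).comp x (zero_add n) = 0 := h1 n hn _
  rw [← h3, ← e.inv_hom_id, ← Ext.mk₀_comp_mk₀_assoc, h4, Ext.comp_zero]

/-- PROOF: compose with `mk₀` of the isomorphisms. -/
theorem extOrth_of_iso {E E' X X' : C} (e : E ≅ E') (e' : X ≅ X') (h1 : ExtOrth.{w} E X) :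
    ExtOrth.{w} E' X' := by
  intro n x
  have h3 : (Ext.mk₀ (𝟙 E')).comp x (zero_add n) = x := Ext.mk₀_id_comp x
  have h4 : x.comp (Ext.mk₀ (𝟙 X')) (add_zero n) = x := Ext.comp_mk₀_id x
  rw [← h3, ← e.inv_hom_id, ← Ext.mk₀_comp_mk₀_assoc]
  have h5 : (Ext.mk₀ e.hom).comp x (zero_add n) = 0 := by
    have h6 : ((Ext.mk₀ e.hom).comp x (zero_add n)).comp (Ext.mk₀ e'.inv) (add_zero n) = 0 :=
      h1 n _
    rw [← h4, ← e'.inv_hom_id, ← Ext.mk₀_comp_mk₀, ← Ext.comp_assoc_of_third_deg_zero,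
      ← Ext.comp_assoc_of_third_deg_zero, h6, Ext.zero_comp]
  rw [h5, Ext.comp_zero]

end MPbd3808.BR
end

section

/-!
# TASK S4b: homogeneous components

* `exists_hcomp`: the homogeneous component of degree `c` of a Laurent polynomial: keep only the monomials `e` with
  `degE e = c` (a linear map; for example built from `Finsupp.filter` through the coefficient equivalence of `AddMonoidAlgebra`, or as
  `AddMonoidAlgebra.lift`-free sum over the support). It fixes `gr k σ c`, and (`D1`, `D0` are homogeneous of degree `dD`, all their monomials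
  `eD1 i`, `eD0 i` have degree `dD`: `decide`) `h (D1 * q) = D1 * q'`, where `q'` is the component of degree `c - dD` of `q`. By linearity check
  it for `q = single e a`.
* `mem_idl_of_eq`: apply `h` to `p = D1 * q + D0 * r`; unfold `idl` (`Submodule.mem_sup`, `add_mem_sup`).
-/

set_option autoImplicit false

noncomputable section

open CategoryTheory CategoryTheory.Limits

namespace MPbd3808.BR.SX

universe u v w

variable (k : Type u) [Field k]

open Classical in
/-- keep the monomials of degree `c` -/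
private def S4b_h (c : Deg) : A k →ₗ[k] A k where
  toFun p := AddMonoidAlgebra.ofCoeff (p.coeff.filter fun e => degE e = c)
  map_add' p q := by
    rw [AddMonoidAlgebra.coeff_add, Finsupp.filter_add, AddMonoidAlgebra.ofCoeff_add]
  map_smul' r p := by
    rw [AddMonoidAlgebra.coeff_smul, Finsupp.filter_smul, AddMonoidAlgebra.ofCoeff_smul]
    rfl

private theorem S4b_h_pos (c : Deg) (p : A k) (e : Ex) (h : degE e = c) :
    (S4b_h k c p).coeff e = p.coeff e :=
  Finsupp.filter_apply_pos (fun e => degE e = c) _ h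

private theorem S4b_h_neg (c : Deg) (p : A k) (e : Ex) (h : ¬ degE e = c) :
    (S4b_h k c p).coeff e = 0 :=
  Finsupp.filter_apply_neg (fun e => degE e = c) _ h

private theorem S4b_h_mon (c d : Deg) (e : Ex) (he : degE e = d) (q : A k) :
    S4b_h k c (mon e * q) = mon e * S4b_h k (c - d) q := by
  apply AddMonoidAlgebra.ext
  refine Finsupp.ext fun e' => ?_
  rw [AddMonoidAlgebra.coeff_single_mul_apply, one_mul]
  by_cases h : degE e' = c
  · rw [S4b_h_pos k c _ _ h, AddMonoidAlgebra.coeff_single_mul_apply, one_mul, S4b_h_pos]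
    rw [degE_add, degE_neg, he, h]; abel
  · rw [S4b_h_neg k c _ _ h, S4b_h_neg]
    intro h'
    apply h
    rw [degE_add, degE_neg, he] at h'
    have h2 := congrArg (fun x => x + d) h'
    simp only [sub_add_cancel] at h2
    rw [← h2]; abel

private theorem S4b_h_D1 (c : Deg) (q : A k) :
    S4b_h k c (D1 k * q) = D1 k * S4b_h k (c - dD) q := by
  have h0 : degE (eD1 0) = dD := by decide
  have h1 : degE (eD1 1) = dD := by decide
  have h2 : degE (eD1 2) = dD := by decide
  unfold D1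
  rw [sub_mul, sub_mul, map_sub, map_sub, S4b_h_mon k c dD _ h0, S4b_h_mon k c dD _ h1,
    S4b_h_mon k c dD _ h2, sub_mul, sub_mul]

private theorem S4b_h_D0 (c : Deg) (q : A k) :
    S4b_h k c (D0 k * q) = D0 k * S4b_h k (c - dD) q := by
  have h0 : degE (eD0 0) = dD := by decide
  have h1 : degE (eD0 1) = dD := by decide
  have h2 : degE (eD0 2) = dD := by decide
  unfold D0
  rw [sub_mul, sub_mul, map_sub, map_sub, S4b_h_mon k c dD _ h0, S4b_h_mon k c dD _ h1,
    S4b_h_mon k c dD _ h2, sub_mul, sub_mul]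

private theorem S4b_h_mem (σ : Finset Vr) (c : Deg) (q : A k) (hq : ∀ e, q.coeff e ≠ 0 → Reg σ e) :
    S4b_h k c q ∈ gr k σ c := by
  intro e he
  by_cases h : degE e = c
  · rw [S4b_h_pos k c _ _ h] at he
    exact ⟨hq e he, h⟩
  · exact absurd (S4b_h_neg k c _ _ h) he

private theorem S4b_h_fix (σ : Finset Vr) (c : Deg) (p : A k) (hp : p ∈ gr k σ c) :
    S4b_h k c p = p := by
  apply AddMonoidAlgebra.ext
  refine Finsupp.ext fun e => ?_
  by_cases h : degE e = c
  · rw [S4b_h_pos k c _ _ h]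
  · rw [S4b_h_neg k c _ _ h]
    by_contra h'
    exact h (hp e (Ne.symm h')).2

/-- The homogeneous component of degree `c`. -/
theorem exists_hcomp (σ : Finset Vr) (c : Deg) : ∃ h : A k →ₗ[k] A k,
    (∀ p ∈ gr k σ c, h p = p) ∧
    (∀ (q : A k), (∀ e, q.coeff e ≠ 0 → Reg σ e) →
      (∃ q' ∈ gr k σ (c - dD), h (D1 k * q) = D1 k * q') ∧
      ∃ q' ∈ gr k σ (c - dD), h (D0 k * q) = D0 k * q') := by
  exact ⟨S4b_h k c, fun p hp => S4b_h_fix k σ c p hp, fun q hq =>
    ⟨⟨S4b_h k (c - dD) q, S4b_h_mem k σ _ q hq, S4b_h_D1 k c q⟩,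
      ⟨S4b_h k (c - dD) q, S4b_h_mem k σ _ q hq, S4b_h_D0 k c q⟩⟩⟩

theorem mem_idl_of_eq (σ : Finset Vr) (c : Deg) (p q r : A k) (hp : p ∈ gr k σ c)
    (h : p = D1 k * q + D0 k * r) (hq : ∀ e, q.coeff e ≠ 0 → Reg σ e)
    (hr : ∀ e, r.coeff e ≠ 0 → Reg σ e) : p ∈ idl (GE k) σ c := by
  have h1 := S4b_h_fix k σ c p hp
  rw [h, map_add, S4b_h_D1, S4b_h_D0, ← h] at h1
  rw [← h1]
  have h2 : D0 k * S4b_h k (c - dD) r = D0 k * S4b_h k (c - dD) r + 0 := (add_zero _).symm
  rw [h2]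
  exact Submodule.add_mem_sup ⟨S4b_h k (c - dD) q, S4b_h_mem k σ _ q hq, rfl⟩
    (Submodule.add_mem_sup ⟨S4b_h k (c - dD) r, S4b_h_mem k σ _ r hr, rfl⟩
      (Submodule.zero_mem _))

end MPbd3808.BR.SX
end
end

section

/-!
# TASK H1: Ext classes of positive degree are killed by an epimorphism
-/

open CategoryTheory CategoryTheory.Limits CategoryTheory.Abelian

namespace MPbd3808.BR

universe w v u

variable {C : Type u} [Category.{v} C] [Abelian C] [HasExt.{w} C]

omit [HasExt.{w} C] in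
private theorem H1_epi {X : C} {K' : CochainComplex C ℤ}
    (s : K' ⟶ (HomologicalComplex.single C (ComplexShape.up ℤ) 0).obj X) (hs : QuasiIso s) :
    Epi (s.f 0 ≫ (HomologicalComplex.singleObjXSelf (ComplexShape.up ℤ) 0 X).hom) := by
  have h1 : K'.iCycles 0 ≫ s.f 0 ≫
      (HomologicalComplex.singleObjXSelf (ComplexShape.up ℤ) 0 X).hom =
      K'.homologyπ 0 ≫ HomologicalComplex.homologyMap s 0 ≫
        (HomologicalComplex.singleObjHomologySelfIso (ComplexShape.up ℤ) 0 X).hom := by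
    rw [HomologicalComplex.homologyπ_naturality_assoc,
      HomologicalComplex.homologyπ_singleObjHomologySelfIso_hom,
      HomologicalComplex.singleObjCyclesSelfIso_hom, HomologicalComplex.cyclesMap_i_assoc]
  have h2 : IsIso (HomologicalComplex.homologyMap s 0) := inferInstance
  have h3 : Epi (K'.iCycles 0 ≫ s.f 0 ≫
      (HomologicalComplex.singleObjXSelf (ComplexShape.up ℤ) 0 X).hom) := by
    rw [h1]
    infer_instance
  exact epi_of_epi (K'.iCycles 0) _

private theorem H1_abs {D : Type*} [Category* D] [HasZeroMorphisms D] {A A' B B' K' : D}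
    (a : A ⟶ B) (e : B' ≅ B) (s : K' ⟶ A) (_ : IsIso s) (g : K' ⟶ B') (h : a ≫ e.inv = inv s ≫ g)
    (j : A' ⟶ K') (hj : j ≫ g = 0) : (j ≫ s) ≫ a = 0 := by
  have h1 : a = inv s ≫ g ≫ e.hom := by
    rw [← Category.assoc, ← h, Category.assoc, e.inv_hom_id, Category.comp_id]
  rw [h1, Category.assoc, IsIso.hom_inv_id_assoc, ← Category.assoc, hj, zero_comp]

/-- Every Ext class of positive degree is killed by an epimorphism onto the first variable.

PROOF. Put `letI := HasDerivedCategory.standard C` and let `φ = α.hom : (single X) ⟶ (single Y)⟦n⟧` in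
`DerivedCategory C` (`Abelian.Ext.hom`, `Ext.ext`). Identify the source with `Q.obj K`,
`K = (CochainComplex.singleFunctor C 0).obj X` (strictly `≤ 0`), and the target with `Q.obj L`, `L` the
shift of the single complex of `Y` (i.e. isomorphic to the single complex of `Y` in degree `-n`).
By `DerivedCategory.right_fac_of_isStrictlyLE` (file DerivedCategory/Fractions) there are a complex `K'`
strictly `≤ 0`, a quasi-isomorphism `s : K' ⟶ K` and `g : K' ⟶ L` with `φ = inv (Q s) ≫ Q g`.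
Put `P := K'.X 0` and `p : P ⟶ X` := `s.f 0` followed by the identification of `K.X 0` with `X`.
* There is a morphism of complexes `j : single P ⟶ K'`, the identity in degree `0`
  (`d : K'.X 0 ⟶ K'.X 1` is zero as `K'.X 1 = 0`), and `j ≫ s = single p`. So
  `single p ≫ φ = Q j ≫ Q s ≫ inv (Q s) ≫ Q g = Q (j ≫ g)`, and `j ≫ g = 0` because `single P` is
  concentrated in degree `0` and `L` in degree `-n ≠ 0`. Hence `(mk₀ p).comp α = 0` (`Ext.comp_hom`,
  `Ext.mk₀_hom`).
* `p` is epi: `s` is a quasi-isomorphism, so the composition `K'.X 0 → H^0 K' ≅ H^0 K = X` is `p`;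
  the first arrow is an epimorphism as `K'.X 1 = 0` (all of `K'.X 0` consists of cycles). -/
theorem exists_epi_kill {X Y : C} {n : ℕ} (hn : 1 ≤ n) (α : Ext.{w} X Y n) :
    ∃ (P : C) (p : P ⟶ X), Epi p ∧ (Ext.mk₀ p).comp α (zero_add n) = 0 := by
  let _ := HasDerivedCategory.standard C
  let φ : DerivedCategory.Q.obj ((HomologicalComplex.single C (ComplexShape.up ℤ) 0).obj X) ⟶
      DerivedCategory.Q.obj (((CochainComplex.singleFunctor C 0).obj Y)⟦(n : ℤ)⟧) :=
    α.hom ≫ (DerivedCategory.Q.commShiftIso (n : ℤ)).inv.app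
      ((CochainComplex.singleFunctor C 0).obj Y)
  obtain ⟨K', hK', s, hs, g, hg⟩ := DerivedCategory.right_fac_of_isStrictlyLE φ 0
  have hs' : QuasiIso s := (DerivedCategory.isIso_Q_map_iff_quasiIso _ s).mp hs
  let p : K'.X 0 ⟶ X := s.f 0 ≫ (HomologicalComplex.singleObjXSelf (ComplexShape.up ℤ) 0 X).hom
  have hp : Epi p := H1_epi s hs'
  refine ⟨K'.X 0, p, hp, ?_⟩
  let j : (HomologicalComplex.single C (ComplexShape.up ℤ) 0).obj (K'.X 0) ⟶ K' :=
    HomologicalComplex.mkHomFromSingle (𝟙 _) (fun k hk => by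
      apply (K'.isZero_of_isStrictlyLE 0 k ?_).eq_of_tgt
      have : (0 : ℤ) + 1 = k := hk
      omega)
  have hj : j ≫ s = (HomologicalComplex.single C (ComplexShape.up ℤ) 0).map p := by
    apply HomologicalComplex.from_single_hom_ext
    rw [HomologicalComplex.comp_f, HomologicalComplex.mkHomFromSingle_f,
      HomologicalComplex.single_map_f_self]
    simp [p]
  have hjg : j ≫ g = 0 := by
    apply HomologicalComplex.from_single_hom_ext
    have hz : IsZero ((((CochainComplex.singleFunctor C 0).obj Y)⟦(n : ℤ)⟧).X 0) := by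
      have hz2 : IsZero (((HomologicalComplex.single C (ComplexShape.up ℤ) 0).obj Y).X
          ((0 : ℤ) + n)) := by
        apply HomologicalComplex.isZero_single_obj_X
        omega
      exact hz2
    exact hz.eq_of_tgt _ _
  ext
  rw [Ext.comp_hom, Ext.mk₀_hom, ShiftedHom.mk₀_comp, Ext.zero_hom]
  have h2 : (DerivedCategory.singleFunctor C 0).map p =
      DerivedCategory.Q.map j ≫ DerivedCategory.Q.map s := by
    rw [← Functor.map_comp, hj]
    rfl
  rw [h2]
  exact H1_abs α.hom ((DerivedCategory.Q.commShiftIso (n : ℤ)).app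
      ((CochainComplex.singleFunctor C 0).obj Y)) (DerivedCategory.Q.map s) hs
      (DerivedCategory.Q.map g) hg (DerivedCategory.Q.map j)
      (by rw [← Functor.map_comp, hjg, Functor.map_zero])

end MPbd3808.BR
end

section

/-!
# TASK H2: natural transformations and Ext
-/

open CategoryTheory CategoryTheory.Limits CategoryTheory.Abelian

namespace MPbd3808.BR

universe w w' v v' u u'

variable {C : Type u} [Category.{v} C] [Abelian C] [HasExt.{w} C]
variable {D : Type u'} [Category.{v'} D] [Abelian D] [HasExt.{w'} D]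

/-- A class of degree `n + 1` is the product of the class of a short exact sequence and a class of
degree `n`.

PROOF. `exists_epi_kill` gives an epi `p : P ⟶ X` with `(mk₀ p).comp α = 0`. Let `S` be
`kernel p ⟶ P ⟶ X` (short exact) and use `Ext.contravariant_sequence_exact₃`. -/
theorem exists_extClass_comp {X Y : C} {n : ℕ} (α : Ext.{w} X Y (n + 1)) :
    ∃ (K P : C) (i : K ⟶ P) (p : P ⟶ X) (w : i ≫ p = 0) (hS : (ShortComplex.mk i p w).ShortExact)
      (β : Ext.{w} K Y n), α = hS.extClass.comp β (add_comm 1 n) := by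
  obtain ⟨P, p, hp, h⟩ := exists_epi_kill (by omega) α
  have hS : (ShortComplex.mk (kernel.ι p) p (kernel.condition p)).ShortExact :=
    { exact := ShortComplex.exact_kernel p }
  obtain ⟨β, hβ⟩ := Ext.contravariant_sequence_exact₃ hS Y α h (add_comm 1 n)
  exact ⟨kernel p, P, kernel.ι p, p, kernel.condition p, hS, β, hβ.symm⟩

private theorem H2_abs {K X K' X' Y Y' : C} {n : ℕ} (e' : Ext.{w} X' K' 1) (e : Ext.{w} X K 1)
    (a : X ⟶ X') (b : K ⟶ K') (c : Y ⟶ Y') (β : Ext.{w} K Y n) (β' : Ext.{w} K' Y' n)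
    (h1 : e.comp (Ext.mk₀ b) (add_zero 1) = (Ext.mk₀ a).comp e' (zero_add 1))
    (h2 : (Ext.mk₀ b).comp β' (zero_add n) = β.comp (Ext.mk₀ c) (add_zero n)) :
    (Ext.mk₀ a).comp (e'.comp β' (add_comm 1 n)) (zero_add (n + 1)) =
      (e.comp β (add_comm 1 n)).comp (Ext.mk₀ c) (add_zero (n + 1)) := by
  rw [← Ext.comp_assoc (Ext.mk₀ a) e' β' (zero_add 1) (add_comm 1 n) (by omega), ← h1,
    Ext.comp_assoc_of_second_deg_zero, h2, Ext.comp_assoc_of_third_deg_zero]

/-- Naturality of Ext classes with respect to natural transformations of exact functors.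

PROOF. Induction on `n` (generalizing `X`). `n = 0`: `α = mk₀ f` (`Ext.mk₀_bijective`,
`Ext.mapExactFunctor_mk₀`, `Ext.mk₀_comp_mk₀`) and `θ` is natural. `n + 1`: write
`α = hS.extClass.comp β` (previous theorem); then `α.mapExactFunctor G` is
`(hS.map_of_exact G).extClass.comp (β.mapExactFunctor G)` (`Ext.mapExactFunctor_comp`,
`Ext.mapExactFunctor_extClass`), and by `ShortComplex.ShortExact.extClass_naturality`
applied to the morphism `S.mapNatTrans θ : S.map F ⟶ S.map G`,
`(mk₀ (θ.app X)).comp (G extClass) = (F extClass).comp (mk₀ (θ.app K))`. Now use the induction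
hypothesis for `β` and associativity (`Ext.comp_assoc` etc.). -/
theorem ext_natTrans (F G : C ⥤ D) [F.Additive] [PreservesFiniteLimits F]
    [PreservesFiniteColimits F] [G.Additive] [PreservesFiniteLimits G] [PreservesFiniteColimits G]
    (θ : F ⟶ G) {X Y : C} {n : ℕ} (α : Ext.{w} X Y n) :
    (Ext.mk₀ (θ.app X)).comp (α.mapExactFunctor G : Ext.{w'} _ _ n) (zero_add n) =
      (α.mapExactFunctor F : Ext.{w'} _ _ n).comp (Ext.mk₀ (θ.app Y)) (add_zero n) := by
  induction n generalizing X with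
  | zero =>
    obtain ⟨f, rfl⟩ := (Ext.mk₀_bijective X Y).2 α
    rw [Ext.mapExactFunctor_mk₀, Ext.mapExactFunctor_mk₀, Ext.mk₀_comp_mk₀, Ext.mk₀_comp_mk₀,
      θ.naturality]
  | succ n ih =>
    obtain ⟨K, P, i, p, w, hS, β, rfl⟩ := exists_extClass_comp α
    have hG : (Ext.mapExactFunctor G hS.extClass : Ext.{w'} (G.obj X) (G.obj K) 1) =
      (hS.map_of_exact G).extClass := Ext.mapExactFunctor_extClass G hS
    have hF : (Ext.mapExactFunctor F hS.extClass : Ext.{w'} (F.obj X) (F.obj K) 1) =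
      (hS.map_of_exact F).extClass := Ext.mapExactFunctor_extClass F hS
    have h1 : (Ext.mapExactFunctor F hS.extClass : Ext.{w'} (F.obj X) (F.obj K) 1).comp
        (Ext.mk₀ (θ.app K)) (add_zero 1) = (Ext.mk₀ (θ.app X)).comp
        (Ext.mapExactFunctor G hS.extClass : Ext.{w'} (G.obj X) (G.obj K) 1) (zero_add 1) := by
      rw [hG, hF]
      exact ShortComplex.ShortExact.extClass_naturality (hS.map_of_exact F)
        (hS.map_of_exact G) ((ShortComplex.mk i p w).mapNatTrans θ)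
    have h2 := ih β
    rw [Ext.mapExactFunctor_comp, Ext.mapExactFunctor_comp]
    exact H2_abs _ _ _ _ _ _ _ h1 h2

/-- The identity functor acts on Ext as the identity.

PROOF. The same induction: `n = 0` by `Ext.mapExactFunctor_mk₀`; `n + 1` by
`Ext.mapExactFunctor_comp`, `Ext.mapExactFunctor_extClass`. -/
theorem ext_map_id {X Y : C} {n : ℕ} (α : Ext.{w} X Y n) :
    (α.mapExactFunctor (𝟭 C) : Ext.{w} X Y n) = α := by
  induction n generalizing X with
  | zero =>
    obtain ⟨f, rfl⟩ := (Ext.mk₀_bijective X Y).2 α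
    exact Ext.mapExactFunctor_mk₀ (𝟭 C) f
  | succ n ih =>
    obtain ⟨K, P, i, p, w, hS, β, rfl⟩ := exists_extClass_comp α
    have h1 : (Ext.mapExactFunctor (𝟭 C) hS.extClass : Ext.{w} X K 1) = hS.extClass :=
      Ext.mapExactFunctor_extClass (𝟭 C) hS
    have h2 := ih β
    have h3 : (Ext.mapExactFunctor (𝟭 C) (hS.extClass.comp β (add_comm 1 n)) :
        Ext.{w} X Y (n + 1)) = (Ext.mapExactFunctor (𝟭 C) hS.extClass : Ext.{w} X K 1).comp
        (Ext.mapExactFunctor (𝟭 C) β : Ext.{w} K Y n) (add_comm 1 n) :=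
      Ext.mapExactFunctor_comp (𝟭 C) _ _ _
    rw [h3, h1, h2]

/-- `θ : 𝟭 ⟶ T`, `T` exact.

PROOF. `ext_natTrans` for `F = 𝟭 C` and `ext_map_id`. -/
theorem ext_unit (T : C ⥤ C) [T.Additive] [PreservesFiniteLimits T] [PreservesFiniteColimits T]
    (θ : 𝟭 C ⟶ T) {X Y : C} {n : ℕ} (α : Ext.{w} X Y n) :
    (Ext.mk₀ (θ.app X)).comp (α.mapExactFunctor T : Ext.{w} _ _ n) (zero_add n) =
      α.comp (Ext.mk₀ (θ.app Y)) (add_zero n) := by
  have h1 := ext_natTrans (𝟭 C) T θ α
  have h2 : (Ext.mapExactFunctor (𝟭 C) α : Ext.{w} X Y n) = α := ext_map_id α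
  have h3 : (Ext.mk₀ (θ.app X)).comp (α.mapExactFunctor T : Ext.{w} _ _ n) (zero_add n) =
      (Ext.mapExactFunctor (𝟭 C) α : Ext.{w} X Y n).comp (Ext.mk₀ (θ.app Y)) (add_zero n) := h1
  rw [h3, h2]

end MPbd3808.BR
end

section

/-!
# TASK H3: a fully faithful exact functor with liftable epimorphisms induces bijections on Ext
-/

open CategoryTheory CategoryTheory.Limits CategoryTheory.Abelian

namespace MPbd3808.BR

universe w w' v v' u u'

variable {C : Type u} [Category.{v} C] [Abelian C] [HasExt.{w} C]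
variable {D : Type u'} [Category.{v'} D] [Abelian D] [HasExt.{w'} D]

/-- Comparison of Ext in an abelian subcategory.

PROOF. Induction on `n`, generalizing `X`; write `F_* = F.mapExtAddHom X Y n`.
`n = 0`: `Ext.mapExactFunctor₀` and `F` is fully faithful (see Mathlib's
`Functor.mapExt_bijective_of_preservesProjectiveObjects`, whose proof can serve as a model).
`n + 1`.
Surjective: let `α ∈ Ext^(n+1)(F X, F Y)`. By `exists_epi_kill` there is an epi `p : P ⟶ F X` killing
`α`, and by `hF` some `q : F P' ⟶ P` with `q ≫ p` epi; `q ≫ p = F r` with `r : P' ⟶ X`, and `r` is epi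
(`F` is faithful, so it reflects epimorphisms) and `(mk₀ (F r)).comp α = 0`.
With `S : kernel r ⟶ P' ⟶ X` we get `α = (hS.map_of_exact F).extClass.comp β`
(`Ext.contravariant_sequence_exact₃`), `β = F_* β'` by induction and
`α = F_* (hS.extClass.comp β')` (`Ext.mapExactFunctor_comp`, `Ext.mapExactFunctor_extClass`).
Injective: let `F_* α = 0`, `α ∈ Ext^(n+1)(X,Y)`. By `exists_epi_kill` in `C` there is an epi `r : P' ⟶ X`
with `(mk₀ r).comp α = 0`, so `α = hS.extClass.comp β`, `β ∈ Ext^n(K,Y)`, `K = kernel r`,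
`i : K ⟶ P'`. As `(F extClass).comp (F_* β) = 0`, `Ext.contravariant_sequence_exact₁` for `S.map F` gives
`γ ∈ Ext^n(F P', F Y)` with `(mk₀ (F i)).comp γ = F_* β`. By induction `γ = F_* γ'` and
`(mk₀ i).comp γ' = β` (injectivity for `n`), hence `α = hS.extClass.comp ((mk₀ i).comp γ') = 0`
(`ShortComplex.ShortExact.extClass_comp_assoc`). -/
theorem mapExt_bijective_of_lift (F : C ⥤ D) [F.Additive] [PreservesFiniteLimits F]
    [PreservesFiniteColimits F] [F.Full] [F.Faithful]
    (hF : ∀ (X : C) (P : D) (p : P ⟶ F.obj X), Epi p →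
      ∃ (P' : C) (q : F.obj P' ⟶ P), Epi (q ≫ p)) (X Y : C) (n : ℕ) :
    Function.Bijective (fun α : Ext.{w} X Y n => (α.mapExactFunctor F : Ext.{w'} _ _ n)) := by
  induction n generalizing X with
  | zero =>
    have h : Ext.mapExactFunctor F (X := X) (Y := Y) = Ext.homEquiv₀.symm ∘ F.map ∘ Ext.homEquiv₀ :=
      Ext.mapExactFunctor₀ F X Y
    have h2 : (fun α : Ext.{w} X Y 0 => (α.mapExactFunctor F : Ext.{w'} _ _ 0)) =
        Ext.homEquiv₀.symm ∘ F.map ∘ Ext.homEquiv₀ := h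
    rw [h2]
    exact Ext.homEquiv₀.symm.bijective.comp
      (Function.Bijective.comp ⟨F.map_injective, F.map_surjective⟩ Ext.homEquiv₀.bijective)
  | succ n hn =>
    constructor
    · -- injective
      have key : ∀ α : Ext.{w} X Y (n + 1), (α.mapExactFunctor F : Ext.{w'} _ _ (n + 1)) = 0 →
          α = 0 := by
        intro α hα
        obtain ⟨P', r, hr, hrα⟩ := exists_epi_kill (by omega : 1 ≤ n + 1) α
        let S := ShortComplex.mk _ _ (kernel.condition r)
        have hS : S.ShortExact := { exact := ShortComplex.exact_kernel r }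
        obtain ⟨β, hβ⟩ := Ext.contravariant_sequence_exact₃ hS Y α hrα (add_comm 1 n)
        have h1 : (hS.map_of_exact F).extClass.comp
            (β.mapExactFunctor F : Ext.{w'} _ _ n) (add_comm 1 n) = 0 := by
          have e1 : (hS.extClass.comp β (add_comm 1 n)).mapExactFunctor F =
              Ext.comp (hS.extClass.mapExactFunctor F) (β.mapExactFunctor F : Ext.{w'} _ _ n)
                (add_comm 1 n) := Ext.mapExactFunctor_comp F _ _ _
          rw [hβ, hα, Ext.mapExactFunctor_extClass] at e1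
          exact e1.symm
        obtain ⟨γ, hγ⟩ := Ext.contravariant_sequence_exact₁ (hS.map_of_exact F) (F.obj Y)
          (β.mapExactFunctor F : Ext.{w'} _ _ n) (add_comm 1 n) h1
        obtain ⟨γ', hγ'⟩ := (hn S.X₂).2 γ
        have h2 : (Ext.mk₀ S.f).comp γ' (zero_add n) = β := by
          apply (hn S.X₁).1
          show ((Ext.mk₀ S.f).comp γ' (zero_add n)).mapExactFunctor F = β.mapExactFunctor F
          rw [Ext.mapExactFunctor_comp, Ext.mapExactFunctor_mk₀, ← hγ, ← hγ']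
          rfl
        rw [← hβ, ← h2]
        exact hS.extClass_comp_assoc γ'
      exact (injective_iff_map_eq_zero (F.mapExtAddHom X Y (n + 1))).mpr key
    · -- surjective
      intro α
      obtain ⟨P, p, hp, hpα⟩ := exists_epi_kill (by omega : 1 ≤ n + 1) α
      obtain ⟨P', q, hq⟩ := hF X P p hp
      obtain ⟨r, hr⟩ := F.map_surjective (q ≫ p)
      have hrepi : Epi (F.map r) := by rw [hr]; exact hq
      have hr' : Epi r := F.epi_of_epi_map hrepi
      let S := ShortComplex.mk _ _ (kernel.condition r)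
      have hS : S.ShortExact := { exact := ShortComplex.exact_kernel r }
      have h1 : (Ext.mk₀ (S.map F).g).comp α (zero_add (n + 1)) = 0 := by
        show (Ext.mk₀ (F.map r)).comp α (zero_add (n + 1)) = 0
        rw [hr, ← Ext.mk₀_comp_mk₀_assoc, hpα, Ext.comp_zero]
      obtain ⟨β, hβ⟩ := Ext.contravariant_sequence_exact₃ (hS.map_of_exact F) (F.obj Y) α h1
        (add_comm 1 n)
      obtain ⟨β', hβ'⟩ := (hn S.X₁).2 β
      refine ⟨hS.extClass.comp β' (add_comm 1 n), ?_⟩
      have e1 : (hS.extClass.comp β' (add_comm 1 n)).mapExactFunctor F =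
          Ext.comp (hS.extClass.mapExactFunctor F) (β'.mapExactFunctor F : Ext.{w'} _ _ n)
            (add_comm 1 n) := Ext.mapExactFunctor_comp F _ _ _
      have e2 : (β'.mapExactFunctor F : Ext.{w'} _ _ n) = β := hβ'
      rw [Ext.mapExactFunctor_extClass, e2] at e1
      exact e1.trans hβ

/-- Equivalences (exact, fully faithful, essentially surjective) induce bijections on Ext.

PROOF. The previous theorem: for an epi `p : P ⟶ F X` choose `P'` and an isomorphism
`q : F P' ≅ P` (`F.EssSurj`). -/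
theorem mapExt_bijective_of_essSurj (F : C ⥤ D) [F.Additive] [PreservesFiniteLimits F]
    [PreservesFiniteColimits F] [F.Full] [F.Faithful] [F.EssSurj] (X Y : C) (n : ℕ) :
    Function.Bijective (fun α : Ext.{w} X Y n => (α.mapExactFunctor F : Ext.{w'} _ _ n)) := by
  apply mapExt_bijective_of_lift
  intro X P p hp
  refine ⟨F.objPreimage P, (F.objObjPreimageIso P).hom, ?_⟩
  exact epi_comp _ _

end MPbd3808.BR
end

section

/-!
# TASK H6: orthogonality by a natural transformation `𝟭 ⟶ T`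
-/

open CategoryTheory CategoryTheory.Limits CategoryTheory.Abelian

namespace MPbd3808.BR

universe w v u

variable {C : Type u} [Category.{v} C] [Abelian C] [HasExt.{w} C]

/-- `T` an exact auto-equivalence, `ε : 𝟭 ⟶ T` with `T ε = ε T`; `0 → X → T X → E → 0` and
`0 → Y → T Y → E' → 0` exact (first maps `ε`). If `Ext^n(T X, E') = 0` for all `n` then
`Ext^n(E,Y) = 0` for all `n`.

PROOF. (1) `β ↦ β.comp (mk₀ (ε.app Y))`, `Ext^n(T X, Y) → Ext^n(T X, T Y)`, is bijective for all `n`: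
covariant sequence of `hS'` (`Ext.covariant_sequence_exact₁`, `₂`, injective for `n = 0` since
`ε.app Y` is a monomorphism).
(2) `T_* : Ext^n(X, Y) → Ext^n(T X, T Y)`, `γ ↦ γ.mapExactFunctor T`, is bijective
(`mapExt_bijective_of_essSurj`).
(3) For `β ∈ Ext^n(T X, Y)`: `T_* ((mk₀ (ε.app X)).comp β) = (mk₀ (T.map (ε.app X))).comp (T_* β)
= (mk₀ (ε.app (T X))).comp (T_* β) = β.comp (mk₀ (ε.app Y))` (`ext_unit`).
So `β ↦ (mk₀ (ε.app X)).comp β`, `Ext^n(T X, Y) → Ext^n(X,Y)` is bijective for all `n`. By the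
contravariant sequences of `hS` (`Ext.contravariant_sequence_exact₃`, `₂`) all `Ext^n(E,Y)` vanish
(for `n = 0`: `g` is epi). -/
theorem extOrth_of_eps (T : C ⥤ C) [T.Additive] [PreservesFiniteLimits T]
    [PreservesFiniteColimits T] [T.Full] [T.Faithful] [T.EssSurj] (ε : 𝟭 C ⟶ T)
    (hε : ∀ X, T.map (ε.app X) = ε.app (T.obj X)) {X Y E E' : C} (g : T.obj X ⟶ E)
    (wg : ε.app X ≫ g = 0) (hS : (ShortComplex.mk (ε.app X) g wg).ShortExact)
    (g' : T.obj Y ⟶ E') (wg' : ε.app Y ≫ g' = 0)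
    (hS' : (ShortComplex.mk (ε.app Y) g' wg').ShortExact)
    (h : ExtOrth.{w} (T.obj X) E') : ExtOrth.{w} E Y := by
  have hmono : Mono (ε.app Y) := hS'.mono_f
  have hepi : Epi g := hS.epi_g
  -- (1)
  have inj1 : ∀ (n : ℕ) (β : Ext.{w} (T.obj X) Y n),
      β.comp (Ext.mk₀ (ε.app Y)) (add_zero n) = 0 → β = 0 := by
    intro n β hβ
    rcases n with _ | m
    · have hi := Ext.postcomp_mk₀_injective_of_mono.{w} (T.obj X) (ε.app Y)
      apply hi
      rw [map_zero]
      exact hβ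
    · obtain ⟨x₃, hx₃⟩ := Ext.covariant_sequence_exact₁ (T.obj X) hS' β hβ (n₀ := m) rfl
      rw [← hx₃, h m x₃, Ext.zero_comp]
  have surj1 : ∀ (n : ℕ) (x : Ext.{w} (T.obj X) (T.obj Y) n),
      ∃ β : Ext.{w} (T.obj X) Y n, β.comp (Ext.mk₀ (ε.app Y)) (add_zero n) = x := by
    intro n x
    exact Ext.covariant_sequence_exact₂ (T.obj X) hS' x (h n _)
  -- (3)
  have key : ∀ (n : ℕ) (β : Ext.{w} (T.obj X) Y n),
      (((Ext.mk₀ (ε.app X)).comp β (zero_add n) : Ext.{w} X Y n).mapExactFunctor T :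
        Ext.{w} (T.obj X) (T.obj Y) n) =
        β.comp (Ext.mk₀ (ε.app Y)) (add_zero n) := by
    intro n β
    have h1 := Ext.mapExactFunctor_comp T (Ext.mk₀ (ε.app X)) β (zero_add n)
    have h2 := ext_unit T ε β
    rw [Ext.mapExactFunctor_mk₀, hε X] at h1
    exact h1.trans h2
  have inj2 : ∀ (n : ℕ) (β : Ext.{w} (T.obj X) Y n),
      (Ext.mk₀ (ε.app X)).comp β (zero_add n) = 0 → β = 0 := by
    intro n β hβ
    apply inj1
    rw [← key, hβ, Ext.mapExactFunctor_zero]
  have surj2 : ∀ (n : ℕ) (γ : Ext.{w} X Y n),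
      ∃ β : Ext.{w} (T.obj X) Y n, (Ext.mk₀ (ε.app X)).comp β (zero_add n) = γ := by
    intro n γ
    obtain ⟨β, hβ⟩ := surj1 n (γ.mapExactFunctor T)
    refine ⟨β, ?_⟩
    apply (mapExt_bijective_of_essSurj T X Y n).1
    exact (key n β).trans hβ
  -- (4)
  intro n e
  have h0 : (Ext.mk₀ g).comp e (zero_add n) = 0 := by
    apply inj2
    rw [Ext.mk₀_comp_mk₀_assoc, wg, Ext.mk₀_zero, Ext.zero_comp]
  rcases n with _ | m
  · have hi := Ext.precomp_mk₀_injective_of_epi.{w} Y g
    apply hi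
    rw [map_zero]
    exact h0
  · obtain ⟨x₁, hx₁⟩ := Ext.contravariant_sequence_exact₃ hS Y e h0 (n₀ := m) (add_comm 1 m)
    obtain ⟨β, hβ⟩ := surj2 m x₁
    rw [← hx₁, ← hβ]
    exact hS.extClass_comp_assoc β

end MPbd3808.BR
end

section

/-!
# TASK H10: finite sums
-/

open CategoryTheory CategoryTheory.Limits CategoryTheory.Abelian

namespace MPbd3808.BR

universe w v u

section

variable {C : Type u} [Category.{v} C] [Abelian C] [HasExt.{w} C]

/-- PROOF. `α = α.comp (mk₀ (𝟙 Z)) = α.comp (mk₀ (p ≫ i)) + α.comp (mk₀ (q ≫ j))`, `Ext.comp_assoc_of_third_deg_zero` etc. -/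
theorem extAc_of_decomp {E X Y Z : C} (p : Z ⟶ X) (q : Z ⟶ Y) (i : X ⟶ Z) (j : Y ⟶ Z)
    (h : p ≫ i + q ≫ j = 𝟙 Z) (h1 : ExtAc.{w} E X) (h2 : ExtAc.{w} E Y) : ExtAc.{w} E Z := by
  intro n hn α
  have e1 : α = α.comp (Ext.mk₀ (𝟙 Z)) (add_zero n) := (Ext.comp_mk₀_id α).symm
  rw [e1, ← h, Ext.mk₀_add, Ext.comp_add, ← Ext.mk₀_comp_mk₀, ← Ext.mk₀_comp_mk₀,
    ← Ext.comp_assoc_of_third_deg_zero, ← Ext.comp_assoc_of_third_deg_zero,
    h1 n hn (α.comp (Ext.mk₀ p) (add_zero n)), h2 n hn (α.comp (Ext.mk₀ q) (add_zero n)),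
    Ext.zero_comp, Ext.zero_comp, add_zero]

/-- PROOF. `α = α.comp (mk₀ (𝟙 _))`, `biproduct.total`, `Ext.mk₀_sum`, `Ext.comp_sum`. -/
theorem extAc_biproduct [HasFiniteBiproducts C] {E : C} {J : Type} [Fintype J] (f : J → C) (h : ∀ j, ExtAc.{w} E (f j)) :
    ExtAc.{w} E (⨁ f) := by
  classical
  intro n hn α
  have e1 : α = α.comp (Ext.mk₀ (𝟙 (⨁ f))) (add_zero n) := (Ext.comp_mk₀_id α).symm
  rw [e1, ← biproduct.total, Ext.mk₀_sum, Ext.comp_sum]
  refine Finset.sum_eq_zero fun j _ => ?_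
  rw [← Ext.mk₀_comp_mk₀, ← Ext.comp_assoc_of_third_deg_zero,
    h j n hn (α.comp (Ext.mk₀ (biproduct.π f j)) (add_zero n)), Ext.zero_comp]

end

section

variable {k : Type u} [Field k]

/-- the direct sum of two functors, explicitly -/
def prodF (X Y : FunCat k) : FunCat k where
  obj U := ModuleCat.of k (X.obj U × Y.obj U)
  map m := ModuleCat.ofHom ((X.map m).hom.prodMap (Y.map m).hom)
  map_id U := by ext x <;> simp
  map_comp f g := by ext x <;> simp

/-- first projection -/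
def fstF (X Y : FunCat k) : prodF X Y ⟶ X where
  app U := ModuleCat.ofHom (LinearMap.fst k (X.obj U) (Y.obj U))

/-- second projection -/
def sndF (X Y : FunCat k) : prodF X Y ⟶ Y where
  app U := ModuleCat.ofHom (LinearMap.snd k (X.obj U) (Y.obj U))

/-- first inclusion -/
def inlF (X Y : FunCat k) : X ⟶ prodF X Y where
  app U := ModuleCat.ofHom (LinearMap.inl k (X.obj U) (Y.obj U))
  naturality _ _ f := ModuleCat.hom_ext (LinearMap.ext fun x => by
    change ((X.map f).hom x, (0 : Y.obj _)) = ((X.map f).hom x, (Y.map f).hom 0)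
    rw [map_zero])

/-- second inclusion -/
def inrF (X Y : FunCat k) : Y ⟶ prodF X Y where
  app U := ModuleCat.ofHom (LinearMap.inr k (X.obj U) (Y.obj U))
  naturality _ _ f := ModuleCat.hom_ext (LinearMap.ext fun x => by
    change ((0 : X.obj _), (Y.map f).hom x) = ((X.map f).hom 0, (Y.map f).hom x)
    rw [map_zero])

/-- the morphism into `prodF X Y` with components `f`, `g` -/
def liftF {X Y Z : FunCat k} (f : Z ⟶ X) (g : Z ⟶ Y) : Z ⟶ prodF X Y :=
  f ≫ inlF X Y + g ≫ inrF X Y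

/-- the morphism out of `prodF X Y` with components `f`, `g` -/
def descF {X Y Z : FunCat k} (f : X ⟶ Z) (g : Y ⟶ Z) : prodF X Y ⟶ Z :=
  fstF X Y ≫ f + sndF X Y ≫ g

theorem liftF_app {X Y Z : FunCat k} (f : Z ⟶ X) (g : Z ⟶ Y) (U : Ob) (z : Z.obj U) :
    ((liftF f g).app U).hom z = ((f.app U).hom z, (g.app U).hom z) := by
  change ((f.app U).hom z, (0 : Y.obj U)) + ((0 : X.obj U), (g.app U).hom z) = _
  simp

theorem descF_app {X Y Z : FunCat k} (f : X ⟶ Z) (g : Y ⟶ Z) (U : Ob) (x : X.obj U) (y : Y.obj U) :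
    ((descF f g).app U).hom (x, y) = (f.app U).hom x + (g.app U).hom y := by
  rfl

theorem prodF_total (X Y : FunCat k) : fstF X Y ≫ inlF X Y + sndF X Y ≫ inrF X Y = 𝟙 _ := by
  ext U x : 4
  change ((x.1 : X.obj U), (0 : Y.obj U)) + ((0 : X.obj U), (x.2 : Y.obj U)) = x
  simp

/-- PROOF. `PwClosed.prod` for the two projections. -/
theorem prop_prodF {P : ObjectProperty (FunCat k)} (hP : PwClosed P) {X Y : FunCat k} (hX : P X)
    (hY : P Y) : P (prodF X Y) := by
  exact hP.prod (fstF X Y) (sndF X Y) (fun A => ⟨fun a b h => h, fun b => ⟨b, rfl⟩⟩) hX hY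

/-- `0 → X → X ⊕ Y → Y → 0`. -/
theorem pwSES_prodF (X Y : FunCat k) : PwSES (inlF X Y) (sndF X Y) := by
  intro U
  refine ⟨fun a b h => congrArg Prod.fst h, fun y => ⟨fun h => ⟨y.1, Prod.ext rfl ?_⟩, ?_⟩,
    fun b => ⟨(0, b), rfl⟩⟩
  · exact (show y.2 = 0 from h).symm
  · rintro ⟨x, rfl⟩
    rfl

end

end MPbd3808.BR
end

section

/-!
# TASK H7: transfer of vanishing along an exact functor
-/

open CategoryTheory CategoryTheory.Limits CategoryTheory.Abelian

namespace MPbd3808.BR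

universe w w' v v' u u'

variable {C : Type u} [Category.{v} C] [Abelian C] [HasExt.{w} C]
variable {D : Type u'} [Category.{v'} D] [Abelian D] [HasExt.{w'} D]

private theorem H7_comp (F : C ⥤ D) [F.Additive] [PreservesFiniteLimits F]
    [PreservesFiniteColimits F] {E : C} {E' : D} (π : E' ⟶ F.obj E) {X Y : C} {a b c : ℕ}
    (α : Ext.{w} E X a) (β : Ext.{w} X Y b) (h : a + b = c) :
    (Ext.mk₀ π).comp ((α.comp β h).mapExactFunctor F : Ext.{w'} _ _ c) (zero_add c) =
      ((Ext.mk₀ π).comp (α.mapExactFunctor F : Ext.{w'} _ _ a) (zero_add a)).comp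
        (β.mapExactFunctor F) h := by
  rw [Ext.mapExactFunctor_comp]
  exact (Ext.comp_assoc _ _ _ (zero_add a) h (by omega)).symm

private theorem H7_zero (F : C ⥤ D) [F.Additive] [PreservesFiniteLimits F]
    [PreservesFiniteColimits F] {E : C} {E' : D} (π : E' ⟶ F.obj E) (X : C) (n : ℕ) :
    (Ext.mk₀ π).comp ((0 : Ext.{w} E X n).mapExactFunctor F : Ext.{w'} _ _ n) (zero_add n) = 0 := by
  rw [Ext.mapExactFunctor_zero, Ext.comp_zero]

private theorem H7_inj (F : C ⥤ D) [F.Additive] [PreservesFiniteLimits F]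
    [PreservesFiniteColimits F] {E : C} {E' : D} (π : E' ⟶ F.obj E) (X : C) (n : ℕ)
    (h : ∀ e : Ext.{w} E X n,
      (Ext.mk₀ π).comp (e.mapExactFunctor F : Ext.{w'} _ _ n) (zero_add n) = 0 → e = 0) :
    Function.Injective fun e : Ext.{w} E X n =>
      (Ext.mk₀ π).comp (e.mapExactFunctor F : Ext.{w'} _ _ n) (zero_add n) := by
  intro e e' he
  have he' : (Ext.mk₀ π).comp (e.mapExactFunctor F : Ext.{w'} _ _ n) (zero_add n) =
    (Ext.mk₀ π).comp (e'.mapExactFunctor F : Ext.{w'} _ _ n) (zero_add n) := he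
  have h1 : (e - e').mapExactFunctor F =
      (e.mapExactFunctor F - e'.mapExactFunctor F : Ext.{w'} (F.obj E) (F.obj X) n) := by
    have := (F.mapExtAddHom (E) X n : Ext.{w} E X n →+ Ext.{w'} (F.obj E) (F.obj X) n).map_sub e e'
    rw [Functor.mapExtAddHom_apply, Functor.mapExtAddHom_apply, Functor.mapExtAddHom_apply] at this
    exact this
  have h2 := h (e - e') (by
    rw [h1, sub_eq_add_neg, Ext.comp_add, Ext.comp_neg, he', add_neg_cancel])
  exact sub_eq_zero.mp h2

/-- `F : C ⥤ D` exact, `π : E' ⟶ F E` such that `Hom(E,X) → Hom(E', F X)` is bijective for all `X`,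
every `X` embeds into some `Y` which is acyclic for both. Then `Ext^n(E,X) → Ext^n(E',F X)` is
bijective.

PROOF. Induction on `n`, generalizing `X`. Write `Φ(e) = (mk₀ π).comp (F_* e)`; it is additive, and
`Φ(e.comp β) = Φ(e).comp (F_* β)`. `n = 0`: `Ext.mk₀_bijective`, `Ext.mapExactFunctor_mk₀`,
`Ext.mk₀_comp_mk₀`, `h0`. Let `S : X ⟶ Y ⟶ Z`, `Z = cokernel i`, short exact.
`n + 1`, surjective: `e' ∈ Ext^(n+1)(E', F X)`; its image in `Ext^(n+1)(E', F Y) = 0` vanishes, so
`e' = z'.comp (hS.map_of_exact F).extClass` with `z' ∈ Ext^n(E', F Z)`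
(`Ext.covariant_sequence_exact₁`), `z' = Φ(z)`, `e' = Φ(z.comp hS.extClass)`
(`Ext.mapExactFunctor_extClass`). Injective: `Φ(e) = 0`; `e = z.comp hS.extClass` (as
`Ext^(n+1)(E,Y) = 0`), `Φ(z).comp (F extClass) = 0`, so by `Ext.covariant_sequence_exact₃` `Φ(z)` comes from
some `y' ∈ Ext^n(E', F Y)`, `y' = Φ(y)` (induction hypothesis for `Y`: surjective), and
`Φ(y.comp (mk₀ g)) = Φ(z)`, so `z = y.comp (mk₀ g)` (injective for `Z`) and `e = 0`. -/
theorem ext_transfer (F : C ⥤ D) [F.Additive] [PreservesFiniteLimits F]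
    [PreservesFiniteColimits F] (E : C) (E' : D) (π : E' ⟶ F.obj E)
    (h0 : ∀ X : C, Function.Bijective fun f : E ⟶ X => π ≫ F.map f)
    (hemb : ∀ X : C, ∃ (Y : C) (i : X ⟶ Y), Mono i ∧ ExtAc.{w} E Y ∧ ExtAc.{w'} E' (F.obj Y))
    (X : C) (n : ℕ) :
    Function.Bijective fun e : Ext.{w} E X n =>
      (Ext.mk₀ π).comp (e.mapExactFunctor F : Ext.{w'} _ _ n) (zero_add n) := by
  induction n generalizing X with
  | zero =>
    have hmk : ∀ f : E ⟶ X, (Ext.mk₀ π).comp
        ((Ext.mk₀ f).mapExactFunctor F : Ext.{w'} _ _ 0) (zero_add 0) = Ext.mk₀ (π ≫ F.map f) := by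
      intro f
      rw [Ext.mapExactFunctor_mk₀, Ext.mk₀_comp_mk₀]
    constructor
    · intro e e' he
      obtain ⟨f, rfl⟩ := (Ext.mk₀_bijective E X).2 e
      obtain ⟨f', rfl⟩ := (Ext.mk₀_bijective E X).2 e'
      have he' : Ext.mk₀ (π ≫ F.map f) = Ext.mk₀ (π ≫ F.map f') := by
        rw [← hmk, ← hmk]
        exact he
      have h1 := (Ext.mk₀_bijective E' (F.obj X)).1 he'
      rw [(h0 X).1 h1]
    · intro y
      obtain ⟨g, rfl⟩ := (Ext.mk₀_bijective E' (F.obj X)).2 y
      obtain ⟨f, hf⟩ := (h0 X).2 g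
      have hf' : π ≫ F.map f = g := hf
      exact ⟨Ext.mk₀ f, (hmk f).trans (by rw [hf'])⟩
  | succ n ih =>
    obtain ⟨Y, i, hi, hY, hY'⟩ := hemb X
    let S : ShortComplex C := ShortComplex.mk i (cokernel.π i) (cokernel.condition i)
    have hS : S.ShortExact :=
      { exact := ShortComplex.exact_cokernel i
        mono_f := hi
        epi_g := (inferInstance : Epi (cokernel.π i)) }
    have hSF := hS.map_of_exact F
    have hcl : (hS.extClass.mapExactFunctor F : Ext.{w'} _ _ 1) = hSF.extClass :=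
      Ext.mapExactFunctor_extClass F hS
    constructor
    · refine H7_inj F π X (n + 1) fun e he => ?_
      obtain ⟨z, hz⟩ := Ext.covariant_sequence_exact₁ E hS (e : Ext.{w} E S.X₁ (n + 1))
        (hY _ (by omega) _) (rfl : n + 1 = n + 1)
      have h1 : ((Ext.mk₀ π).comp (z.mapExactFunctor F : Ext.{w'} _ _ n) (zero_add n)).comp
          hSF.extClass (rfl : n + 1 = n + 1) = 0 := by
        have h2 := H7_comp F π z hS.extClass (rfl : n + 1 = n + 1)
        rw [hz, hcl] at h2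
        exact h2.symm.trans he
      obtain ⟨y', hy'⟩ := Ext.covariant_sequence_exact₃ E' hSF
        ((Ext.mk₀ π).comp (z.mapExactFunctor F : Ext.{w'} _ _ n) (zero_add n))
        (rfl : n + 1 = n + 1) h1
      obtain ⟨y, hy⟩ := (ih Y).2 y'
      have hy2 : (Ext.mk₀ π).comp (y.mapExactFunctor F : Ext.{w'} _ _ n) (zero_add n) = y' := hy
      have h2 : z = y.comp (Ext.mk₀ S.g) (add_zero n) := by
        apply (ih S.X₃).1
        change (Ext.mk₀ π).comp (z.mapExactFunctor F : Ext.{w'} _ _ n) (zero_add n) =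
          (Ext.mk₀ π).comp ((y.comp (Ext.mk₀ S.g) (add_zero n)).mapExactFunctor F :
            Ext.{w'} _ _ n) (zero_add n)
        rw [H7_comp F π y (Ext.mk₀ S.g) (add_zero n), hy2, Ext.mapExactFunctor_mk₀]
        exact hy'.symm
      rw [← hz, h2, Ext.comp_assoc_of_second_deg_zero, ShortComplex.ShortExact.comp_extClass,
        Ext.comp_zero]
    · intro e'
      obtain ⟨z', hz'⟩ := Ext.covariant_sequence_exact₁ E' hSF
        (e' : Ext.{w'} E' (S.map F).X₁ (n + 1)) (hY' _ (by omega) _) (rfl : n + 1 = n + 1)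
      obtain ⟨z, hz⟩ := (ih S.X₃).2 z'
      have hz2 : (Ext.mk₀ π).comp (z.mapExactFunctor F : Ext.{w'} _ _ n) (zero_add n) = z' := hz
      refine ⟨z.comp hS.extClass (rfl : n + 1 = n + 1), ?_⟩
      change (Ext.mk₀ π).comp ((z.comp hS.extClass (rfl : n + 1 = n + 1)).mapExactFunctor F :
        Ext.{w'} _ _ (n + 1)) (zero_add (n + 1)) = e'
      rw [H7_comp F π z hS.extClass (rfl : n + 1 = n + 1), hz2, hcl]
      exact hz'

/-- PROOF. The previous theorem (its hypotheses are repeated here); the map is additive, so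
it sends `0` to `0`. -/
theorem extAc_transfer (F : C ⥤ D) [F.Additive] [PreservesFiniteLimits F]
    [PreservesFiniteColimits F] (E : C) (E' : D) (π : E' ⟶ F.obj E)
    (h0 : ∀ X : C, Function.Bijective fun f : E ⟶ X => π ≫ F.map f)
    (hemb : ∀ X : C, ∃ (Y : C) (i : X ⟶ Y), Mono i ∧ ExtAc.{w} E Y ∧ ExtAc.{w'} E' (F.obj Y))
    (X : C) (h : ExtAc.{w'} E' (F.obj X)) : ExtAc.{w} E X := by
  intro n hn e
  apply (ext_transfer F E E' π h0 hemb X n).1
  exact (h n hn _).trans (H7_zero F π X n).symm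

/-- PROOF. The same with all `n ≥ 0`. -/
theorem extOrth_transfer (F : C ⥤ D) [F.Additive] [PreservesFiniteLimits F]
    [PreservesFiniteColimits F] (E : C) (E' : D) (π : E' ⟶ F.obj E)
    (h0 : ∀ X : C, Function.Bijective fun f : E ⟶ X => π ≫ F.map f)
    (hemb : ∀ X : C, ∃ (Y : C) (i : X ⟶ Y), Mono i ∧ ExtAc.{w} E Y ∧ ExtAc.{w'} E' (F.obj Y))
    (X : C) (h : ExtOrth.{w'} E' (F.obj X)) : ExtOrth.{w} E X := by
  intro n e
  apply (ext_transfer F E E' π h0 hemb X n).1
  exact (h n _).trans (H7_zero F π X n).symm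

end MPbd3808.BR
end

section

/-!
# TASK H4: acyclicity of local objects
-/

open CategoryTheory CategoryTheory.Limits CategoryTheory.Abelian

namespace MPbd3808.BR

universe w v u

variable {C : Type u} [Category.{v} C] [Abelian C] [HasExt.{w} C]

/-- PROOF. Let `α ∈ Ext^n(E,Y)`, `n ≥ 1`. By `exists_epi_kill` there is an epi `q : P ⟶ E` with
`(mk₀ q).comp α = 0`; let `s : E ⟶ L P` with `s ≫ L q = η_E` (`hE`). Then
`α.comp (mk₀ η_Y) = (mk₀ η_E).comp (L α) = (mk₀ s).comp ((mk₀ (L q)).comp (L α))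
= (mk₀ s).comp (L ((mk₀ q).comp α)) = 0` by `ext_unit`, `Ext.mapExactFunctor_comp`,
`Ext.mapExactFunctor_mk₀`, `Ext.mapExactFunctor_zero`. As `η_Y` is an isomorphism, `α = 0`
(compose with `mk₀ (inv η_Y)`). -/
theorem extAc_of_local (L : C ⥤ C) [L.Additive] [PreservesFiniteLimits L]
    [PreservesFiniteColimits L] (η : 𝟭 C ⟶ L) (E : C)
    (hE : ∀ (P : C) (q : P ⟶ E), Epi q → ∃ s : E ⟶ L.obj P, s ≫ L.map q = η.app E)
    (Y : C) [IsIso (η.app Y)] : ExtAc.{w} E Y := by
  intro n hn α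
  obtain ⟨P, q, hq, h0⟩ := exists_epi_kill hn α
  obtain ⟨s, hs⟩ := hE P q hq
  have h2 : (Ext.mk₀ (L.map q)).comp (α.mapExactFunctor L : Ext.{w} _ _ n) (zero_add n) = 0 := by
    rw [← Ext.mapExactFunctor_mk₀.{w, w}, ← Ext.mapExactFunctor_comp, h0,
      Ext.mapExactFunctor_zero]
  have h1 : α.comp (Ext.mk₀ (η.app Y)) (add_zero n) = 0 := by
    rw [← ext_unit L η α, ← hs, ← Ext.mk₀_comp_mk₀_assoc, h2, Ext.comp_zero]
  have h3 : α = (α.comp (Ext.mk₀ (η.app Y)) (add_zero n)).comp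
      (Ext.mk₀ (inv (η.app Y))) (add_zero n) := by
    rw [Ext.comp_assoc_of_third_deg_zero, Ext.mk₀_comp_mk₀, IsIso.hom_inv_id]
    exact (Ext.comp_mk₀_id α).symm
  rw [h3, h1, Ext.zero_comp]

end MPbd3808.BR
end

section

/-!
# TASK TrA: transport of full exceptional systems and mutations along a triangulated equivalence

`exc`: `F` is fully faithful and `k`-linear, `F.commShiftIso n`. `full`: for `P` on `C'` the property `P.inverseImage F` on `C` is triangulated
(instances exist or are short) and closed under isomorphisms, so it contains everything; every object of `C'` is isomorphic to an `F.obj X`.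
`IsMutation.map`: `F` maps the triangle to a triangle (`F.map_distinguished`), the biproduct of the `E⟦deg i⟧` to the biproduct of the
`(F.obj E)⟦deg i⟧` (`F.mapBiproduct`, `F.commShiftIso`); the basis `ev i` goes to `(F.commShiftIso _).inv.app E ≫ F.map (ev i)` (up to the direction of the
isomorphism), a basis by full faithfulness; isomorphic triangles are distinguished.
-/

set_option autoImplicit false

noncomputable section

open CategoryTheory CategoryTheory.Limits CategoryTheory.Pretriangulated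

namespace BO

universe w v u v' u'

variable (k : Type w) [Field k] {C : Type u} [Category.{v} C] [Preadditive C] [Linear k C]
  [HasZeroObject C] [HasShift C ℤ] [∀ n : ℤ, (shiftFunctor C n).Additive]
  [∀ n : ℤ, Functor.Linear k (shiftFunctor C n)] [Pretriangulated C]
  {C' : Type u'} [Category.{v'} C'] [Preadditive C'] [Linear k C']
  [HasZeroObject C'] [HasShift C' ℤ] [∀ n : ℤ, (shiftFunctor C' n).Additive]
  [∀ n : ℤ, Functor.Linear k (shiftFunctor C' n)] [Pretriangulated C']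
  (F : C ⥤ C') [F.CommShift ℤ] [F.Additive] [Functor.Linear k F] [F.IsTriangulated]
  [F.IsEquivalence]

theorem IsExceptional.map {E : C} (h : IsExceptional k E) : IsExceptional k (F.obj E) := by
  constructor
  · intro f
    obtain ⟨g, rfl⟩ := F.map_surjective f
    obtain ⟨c, hc, hu⟩ := h.end_eq g
    refine ⟨c, ?_, ?_⟩
    · rw [hc, F.map_smul, F.map_id]
    · intro c' hc'
      refine hu c' (F.map_injective ?_)
      rw [F.map_smul, F.map_id]
      exact hc'
  · intro n hn f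
    obtain ⟨g, hg⟩ := F.map_surjective (f ≫ (F.commShiftIso n).inv.app E)
    have h0 := h.ext_eq_zero n hn g
    rw [h0, F.map_zero] at hg
    rw [← cancel_mono ((F.commShiftIso n).inv.app E), ← hg, zero_comp]

theorem orth_map {E G : C} (h : ∀ (n : ℤ) (f : E ⟶ G⟦n⟧), f = 0) (n : ℤ)
    (f : F.obj E ⟶ (F.obj G)⟦n⟧) : f = 0 := by
  obtain ⟨g, hg⟩ := F.map_surjective (f ≫ (F.commShiftIso n).inv.app G)
  have h0 := h n g
  rw [h0, F.map_zero] at hg
  rw [← cancel_mono ((F.commShiftIso n).inv.app G), ← hg, zero_comp]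

theorem full_map {N : ℕ} (s : ExcSystem k C N) (P : ObjectProperty C') (hP : P.IsTriangulated)
    (hP' : P.IsClosedUnderIsomorphisms) (h : ∀ i, P (F.obj (s.obj i))) (X : C') : P X := by
  have h1 : ∀ Y : C, (P.inverseImage F) Y :=
    s.full (P.inverseImage F) inferInstance inferInstance h
  exact P.prop_of_iso (F.objObjPreimageIso X) (h1 (F.objPreimage X))

/-- The image of a full exceptional system under an equivalence. -/
def ExcSystem.map {N : ℕ} (s : ExcSystem k C N) : ExcSystem k C' N where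
  obj i := F.obj (s.obj i)
  exc i := (s.exc i).map k F
  orth i j h n f := orth_map F (s.orth i j h) n f
  full := full_map k F s

/-- The image of a basis of the Homs. -/
private def TrA_basis {E G : C} (B : HomBasis k E G) : HomBasis k (F.obj E) (F.obj G) where
  ι := B.ι
  deg := B.deg
  ev i := (F.commShiftIso (B.deg i)).inv.app E ≫ F.map (B.ev i)
  basis n := by
    have h1 : (fun c : {i // B.deg i = n} → k =>
        ∑ i, c i • ((eqToHom (show (F.obj E)⟦n⟧ = (F.obj E)⟦B.deg i.1⟧ by rw [i.2])) ≫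
          ((F.commShiftIso (B.deg i.1)).inv.app E ≫
          F.map (B.ev i.1) : (F.obj E)⟦B.deg i.1⟧ ⟶ F.obj G) : (F.obj E)⟦n⟧ ⟶ F.obj G)) =
        (fun g : E⟦n⟧ ⟶ G => (F.commShiftIso n).inv.app E ≫ F.map g) ∘
        (fun c : {i // B.deg i = n} → k =>
          ∑ i, c i • (eqToHom (by rw [i.2]) ≫ B.ev i.1 : E⟦n⟧ ⟶ G)) := by
      funext c
      simp only [Function.comp]
      rw [F.map_sum, Preadditive.comp_sum]
      refine Finset.sum_congr rfl fun i _ => ?_
      obtain ⟨i, hi⟩ := i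
      subst hi
      simp [F.map_smul]
    refine (congrArg Function.Bijective h1).mpr ?_
    refine Function.Bijective.comp ?_ (B.basis n)
    constructor
    · intro g g' hgg
      exact F.map_injective ((cancel_epi _).1 hgg)
    · intro f
      obtain ⟨g, hg⟩ := F.map_surjective ((F.commShiftIso n).hom.app E ≫ f)
      refine ⟨g, ?_⟩
      show (F.commShiftIso n).inv.app E ≫ F.map g = f
      rw [hg, Iso.inv_hom_id_app_assoc]

theorem IsMutation.map {E G H : C} (h : IsMutation k E G H) :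
    IsMutation k (F.obj E) (F.obj G) (F.obj H) := by
  obtain ⟨B, a, c, hT⟩ := h
  let e2 : F.obj (⨁ fun i => E⟦B.deg i⟧) ≅ ⨁ fun i => (F.obj E)⟦B.deg i⟧ :=
    F.mapBiproduct (fun i => E⟦B.deg i⟧) ≪≫
      biproduct.mapIso (fun i => (F.commShiftIso (B.deg i)).app E)
  have he2 : e2.hom ≫ biproduct.desc
      (fun i => (F.commShiftIso (B.deg i)).inv.app E ≫ F.map (B.ev i)) =
      F.map (biproduct.desc B.ev) := by
    have h1 : (biproduct.mapIso (fun i => (F.commShiftIso (B.deg i)).app E)).hom ≫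
        biproduct.desc (fun i => (F.commShiftIso (B.deg i)).inv.app E ≫ F.map (B.ev i)) =
        biproduct.desc (fun i => F.map (B.ev i)) := by
      refine biproduct.hom_ext' _ _ fun i => ?_
      simp
    show ((F.mapBiproduct _).hom ≫ (biproduct.mapIso _).hom) ≫ _ = _
    exact (Category.assoc _ _ _).trans ((congrArg (fun z =>
      (F.mapBiproduct (fun i => E⟦B.deg i⟧)).hom ≫ z) h1).trans
      (biproduct.mapBiproduct_hom_desc F _ _))
  refine ⟨TrA_basis k F B, F.map a ≫ e2.hom, F.map c ≫ (F.commShiftIso (1 : ℤ)).hom.app _, ?_⟩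
  refine isomorphic_distinguished _ (F.map_distinguished _ hT) _ ?_
  refine Triangle.isoMk _ _ (Iso.refl _) e2.symm (Iso.refl _) ?_ ?_ ?_
  · show (F.map a ≫ e2.hom) ≫ e2.inv = 𝟙 _ ≫ F.map a
    rw [Category.assoc, Iso.hom_inv_id, Category.comp_id, Category.id_comp]
  · show biproduct.desc (fun i => (F.commShiftIso (B.deg i)).inv.app E ≫ F.map (B.ev i)) ≫ 𝟙 _ =
      e2.inv ≫ F.map (biproduct.desc B.ev)
    rw [← he2, Iso.inv_hom_id_assoc, Category.comp_id]
    rfl
  · show (F.map c ≫ (F.commShiftIso (1 : ℤ)).hom.app H) ≫ (𝟙 _)⟦(1 : ℤ)⟧' =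
      𝟙 _ ≫ F.map c ≫ (F.commShiftIso (1 : ℤ)).hom.app H
    have h0 := CategoryTheory.Functor.map_id (shiftFunctor C' (1 : ℤ)) (F.obj H)
    exact (congrArg (fun z => (F.map c ≫ (F.commShiftIso (1 : ℤ)).hom.app H) ≫ z) h0).trans
      ((Category.comp_id _).trans (Category.id_comp _).symm)

/-- The basis for isomorphic objects. -/
private def TrA_basis_iso {E G E' G' : C} (B : HomBasis k E G) (e : E ≅ E') (e' : G ≅ G') :
    HomBasis k E' G' where
  ι := B.ι
  deg := B.deg
  ev i := e.inv⟦B.deg i⟧' ≫ B.ev i ≫ e'.hom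
  basis n := by
    have h1 : (fun c : {i // B.deg i = n} → k =>
        ∑ i, c i • (eqToHom (by rw [i.2]) ≫ e.inv⟦B.deg i.1⟧' ≫ B.ev i.1 ≫ e'.hom :
          E'⟦n⟧ ⟶ G')) =
        (fun g : E⟦n⟧ ⟶ G => e.inv⟦n⟧' ≫ g ≫ e'.hom) ∘
        (fun c : {i // B.deg i = n} → k =>
          ∑ i, c i • (eqToHom (by rw [i.2]) ≫ B.ev i.1 : E⟦n⟧ ⟶ G)) := by
      funext c
      simp only [Function.comp]
      rw [Preadditive.sum_comp, Preadditive.comp_sum]
      refine Finset.sum_congr rfl fun i _ => ?_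
      obtain ⟨i, hi⟩ := i
      subst hi
      simp
    rw [h1]
    refine Function.Bijective.comp ?_ (B.basis n)
    constructor
    · intro g g' hgg
      exact (cancel_mono e'.hom).1 ((cancel_epi (e.inv⟦n⟧')).1 hgg)
    · intro f
      refine ⟨e.hom⟦n⟧' ≫ f ≫ e'.inv, ?_⟩
      show e.inv⟦n⟧' ≫ (e.hom⟦n⟧' ≫ f ≫ e'.inv) ≫ e'.hom = f
      rw [Category.assoc, Category.assoc, Iso.inv_hom_id, Category.comp_id, ← Category.assoc,
        ← Functor.map_comp, Iso.inv_hom_id, CategoryTheory.Functor.map_id, Category.id_comp]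

/-- Mutations and isomorphisms: the members may be replaced by isomorphic objects. -/
theorem IsMutation.of_iso {E G H E' G' H' : C} (h : IsMutation k E G H) (e : E ≅ E')
    (e' : G ≅ G') (e'' : H ≅ H') : IsMutation k E' G' H' := by
  obtain ⟨B, a, c, hT⟩ := h
  let e2 : (⨁ fun i => E⟦B.deg i⟧) ≅ ⨁ fun i => E'⟦B.deg i⟧ :=
    biproduct.mapIso (fun i => (shiftFunctor C (B.deg i)).mapIso e)
  have he2 : e2.hom ≫ biproduct.desc (fun i => e.inv⟦B.deg i⟧' ≫ B.ev i ≫ e'.hom) =
      biproduct.desc B.ev ≫ e'.hom := by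
    refine biproduct.hom_ext' _ _ fun i => ?_
    simp [e2, ← Functor.map_comp_assoc]
  refine ⟨TrA_basis_iso k B e e', e''.inv ≫ a ≫ e2.hom, e'.inv ≫ c ≫ e''.hom⟦(1 : ℤ)⟧', ?_⟩
  refine isomorphic_distinguished _ hT _ ?_
  refine Triangle.isoMk _ _ e''.symm e2.symm e'.symm ?_ ?_ ?_
  · show (e''.inv ≫ a ≫ e2.hom) ≫ e2.inv = e''.inv ≫ a
    rw [Category.assoc, Category.assoc, Iso.hom_inv_id, Category.comp_id]
  · show biproduct.desc (fun i => e.inv⟦B.deg i⟧' ≫ B.ev i ≫ e'.hom) ≫ e'.inv =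
      e2.inv ≫ biproduct.desc B.ev
    rw [Iso.comp_inv_eq, Category.assoc, Iso.eq_inv_comp, he2]
  · show (e'.inv ≫ c ≫ e''.hom⟦(1 : ℤ)⟧') ≫ e''.inv⟦(1 : ℤ)⟧' = e'.inv ≫ c
    rw [Category.assoc, Category.assoc, ← Functor.map_comp, Iso.hom_inv_id,
      CategoryTheory.Functor.map_id, Category.comp_id]

theorem Step.map {N : ℕ} {s t : ExcSystem k C N} (h : Step k s t) :
    Step k (s.map k F) (t.map k F) := by
  cases h with
  | shift n h =>
    refine Step.shift n fun i => ?_
    obtain ⟨e⟩ := h i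
    exact ⟨F.mapIso e ≪≫ (F.commShiftIso (n i)).app (s.obj i)⟩
  | mutate i j hij h1 h2 h3 =>
    refine Step.mutate i j hij (h1.map k F) ?_ ?_
    · obtain ⟨e⟩ := h2
      exact ⟨F.mapIso e⟩
    · intro l hl hl'
      obtain ⟨e⟩ := h3 l hl hl'
      exact ⟨F.mapIso e⟩

end BO
end
end
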