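import Pool.Agent.Lib.MP_bd3808_ag.Mg.G014
import Pool.Agent.Lib.MP_bd3808_ag.Mg.G010
import Pool.Agent.Lib.MP_bd3808_ag.Mg.G011
import Pool.Agent.Lib.MP_bd3808_ag.Mg.G016

section

/-!
# TASK F1: localization functors preserve quasi-coherence
-/

open CategoryTheory CategoryTheory.Limits

namespace MPbd3808.BR

universe u
variable (k : Type u) [Field k]

/-- PROOF. Multiplication by the monomials of `f` on `L_J X (σ,a) = X(σ ∪ J, a)` is the multiplication on `X`
(the morphisms of `Ob` are equal by `hom_ext`; `Full (σ ∪ J)`). -/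
theorem isFZero_loc (J : Finset Vr) (X : FunCat k) (hX : isFZero k X) :
    isFZero k ((locF k J).obj X) := by
  intro σ hσ a
  exact hX (σ ∪ J) (hσ.mono Finset.subset_union_left) a

private lemma F1_reg {ρ τ J : Finset Vr} (hJ : J ⊆ ρ) (N : ℕ) :
    Reg ρ (pw τ N - pw (τ ∪ J) N) := by
  intro v hv
  have hvJ : v ∉ J := fun h => hv (hJ h)
  simp only [pw, Pi.sub_apply, Finset.mem_union, hvJ, or_false, sub_self, le_refl]

private lemma F1_deg (a : Deg) (e e' : Ex) : degE (e - e') = (a + degE e) - (a + degE e') := by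
  rw [sub_eq_add_neg, degE_add, degE_neg]; abel

private lemma F1_map (X : FunCat k) {A B C : Ob} (f : A ⟶ B) (g : B ⟶ C) (x : X.obj A) :
    (X.map (f ≫ g)).hom x = (X.map g).hom ((X.map f).hom x) := by
  rw [X.map_comp, ModuleCat.hom_comp, LinearMap.comp_apply]

/-- PROOF. LocInj: `x ∈ X(σ ∪ J, a)` with restriction `0` in `X(τ ∪ J, a)`: `x_{τ ∪ J}^N x = 0` for some `N`
(LocInj of `X` for `σ ∪ J ⊆ τ ∪ J`). The monomial `pw τ N` is `pw (τ ∪ J) N` minus `pw (J \ τ) N`, and
`-pw (J \ τ) N` is regular on `σ ∪ J`; so `x_τ^N x` is the image of `x_{τ ∪ J}^N x = 0` under the morphism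
`-pw (J \ τ) N`. LocSurj: `y ∈ X(τ ∪ J, a)`, `x'|(τ ∪ J) = x_{τ ∪ J}^N y` with `x' ∈ X(σ ∪ J, ..)`; multiply by
`-pw (J \ τ) N` again. (Functoriality of `X`, `hom_ext`.) -/
theorem isLoc_loc (J : Finset Vr) (X : FunCat k) (hX : isLoc k X) :
    isLoc k ((locF k J).obj X) := by
  constructor
  · intro σ τ hσ hτ hst a x hx
    have hσJ : Full (σ ∪ J) := hσ.mono Finset.subset_union_left
    have hτJ : Full (τ ∪ J) := hτ.mono Finset.subset_union_left
    obtain ⟨N, hN⟩ := hX.1 (σ ∪ J) (τ ∪ J) hσJ hτJ (Finset.union_subset_union_left hst) a x hx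
    refine ⟨N, ?_⟩
    have hm : (mul hσJ (b := a + degE (pw τ N)) (pw τ N) (reg_pw (σ ∪ J) τ N) (by abel) :
        Ob.mk (σ ∪ J) hσJ a ⟶ _) =
        (mul hσJ (b := a + degE (pw (τ ∪ J) N)) (pw (τ ∪ J) N) (reg_pw (σ ∪ J) (τ ∪ J) N)
          (by abel) : Ob.mk (σ ∪ J) hσJ a ⟶ _) ≫
        (mul hσJ (pw τ N - pw (τ ∪ J) N) (F1_reg Finset.subset_union_right N)
          (F1_deg a _ _)) := by
      apply hom_ext
      rw [comp_e]
      change pw τ N = pw (τ ∪ J) N + (pw τ N - pw (τ ∪ J) N)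
      abel
    change (X.map (mul hσJ (b := a + degE (pw τ N)) (pw τ N) (reg_pw (σ ∪ J) τ N) (by abel) :
        Ob.mk (σ ∪ J) hσJ a ⟶ _)).hom x = 0
    exact (congrArg (fun g => (X.map g).hom x) hm).trans
      ((F1_map k X _ _ x).trans ((congrArg _ hN).trans (map_zero _)))
  · intro σ τ hσ hτ hst a y
    have hσJ : Full (σ ∪ J) := hσ.mono Finset.subset_union_left
    have hτJ : Full (τ ∪ J) := hτ.mono Finset.subset_union_left
    obtain ⟨N, x', hx'⟩ := hX.2 (σ ∪ J) (τ ∪ J) hσJ hτJ (Finset.union_subset_union_left hst) a y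
    have hm1 : (mul hσJ (pw τ N - pw (τ ∪ J) N) (F1_reg Finset.subset_union_right N)
          (F1_deg a _ _) : Ob.mk (σ ∪ J) hσJ (a + degE (pw (τ ∪ J) N)) ⟶
            Ob.mk (σ ∪ J) hσJ (a + degE (pw τ N))) ≫
        (res hσJ hτJ (Finset.union_subset_union_left hst) (a + degE (pw τ N))) =
        res hσJ hτJ (Finset.union_subset_union_left hst) (a + degE (pw (τ ∪ J) N)) ≫
        (mul hτJ (pw τ N - pw (τ ∪ J) N) (F1_reg Finset.subset_union_right N)
          (F1_deg a _ _)) := by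
      apply hom_ext
      rw [comp_e, comp_e]
      change (pw τ N - pw (τ ∪ J) N) + 0 = 0 + (pw τ N - pw (τ ∪ J) N)
      abel
    have hm2 : (mul hτJ (b := a + degE (pw τ N)) (pw τ N) (reg_pw (τ ∪ J) τ N) (by abel) :
        Ob.mk (τ ∪ J) hτJ a ⟶ _) =
        (mul hτJ (b := a + degE (pw (τ ∪ J) N)) (pw (τ ∪ J) N) (reg_pw (τ ∪ J) (τ ∪ J) N)
          (by abel) : Ob.mk (τ ∪ J) hτJ a ⟶ _) ≫
        (mul hτJ (pw τ N - pw (τ ∪ J) N) (F1_reg Finset.subset_union_right N)
          (F1_deg a _ _)) := by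
      apply hom_ext
      rw [comp_e]
      change pw τ N = pw (τ ∪ J) N + (pw τ N - pw (τ ∪ J) N)
      abel
    refine ⟨N, (X.map (mul hσJ (pw τ N - pw (τ ∪ J) N) (F1_reg Finset.subset_union_right N)
          (F1_deg a _ _) : Ob.mk (σ ∪ J) hσJ (a + degE (pw (τ ∪ J) N)) ⟶
            Ob.mk (σ ∪ J) hσJ (a + degE (pw τ N)))).hom x', ?_⟩
    change (X.map (res hσJ hτJ (Finset.union_subset_union_left hst) (a + degE (pw τ N)))).hom
        ((X.map (mul hσJ (pw τ N - pw (τ ∪ J) N) (F1_reg Finset.subset_union_right N)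
          (F1_deg a _ _) : Ob.mk (σ ∪ J) hσJ (a + degE (pw (τ ∪ J) N)) ⟶
            Ob.mk (σ ∪ J) hσJ (a + degE (pw τ N)))).hom x') =
      (X.map (mul hτJ (b := a + degE (pw τ N)) (pw τ N) (reg_pw (τ ∪ J) τ N) (by abel) :
        Ob.mk (τ ∪ J) hτJ a ⟶ _)).hom y
    refine (F1_map k X _ _ x').symm.trans ?_
    refine (congrArg (fun g => (X.map g).hom x') hm1).trans ?_
    refine (F1_map k X _ _ x').trans ?_
    refine (congrArg (fun z => (X.map (mul hτJ (pw τ N - pw (τ ∪ J) N)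
      (F1_reg Finset.subset_union_right N) (F1_deg a _ _) :
        Ob.mk (τ ∪ J) hτJ (a + degE (pw (τ ∪ J) N)) ⟶
            Ob.mk (τ ∪ J) hτJ (a + degE (pw τ N)))).hom z) hx').trans ?_
    refine (F1_map k X _ _ y).symm.trans ?_
    exact (congrArg (fun g => (X.map g).hom y) hm2).symm

/-- PROOF. Both. -/
theorem isQC_loc (J : Finset Vr) (X : FunCat k) (hX : isQC k X) :
    isQC k ((locF k J).obj X) :=
  ⟨isFZero_loc k J X hX.1, isLoc_loc k J X hX.2⟩

end MPbd3808.BR
end

section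

/-!
# TASK F2: twist functors
-/

open CategoryTheory CategoryTheory.Limits

namespace MPbd3808.BR

universe u
variable (k : Type u) [Field k]

private lemma F2_map (X : FunCat k) {A B C : Ob} (f : A ⟶ B) (g : B ⟶ C) (x : X.obj A) :
    (X.map (f ≫ g)).hom x = (X.map g).hom ((X.map f).hom x) := by
  rw [X.map_comp, ModuleCat.hom_comp, LinearMap.comp_apply]

/-- change of the degree by an equality -/
def F2_e {σ : Finset Vr} (hσ : Full σ) {a b : Deg} (h : a = b) : Ob.mk σ hσ a ⟶ Ob.mk σ hσ b :=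
  mul hσ 0 Reg.zero (by rw [degE_zero, h, sub_self])

private lemma F2_e_e {σ : Finset Vr} (hσ : Full σ) {a b : Deg} (h : a = b) :
    F2_e hσ h ≫ F2_e hσ h.symm = 𝟙 _ := by
  apply hom_ext
  rw [comp_e, id_e]
  change (0 : Ex) + 0 = 0
  rw [add_zero]

private lemma F2_nat {σ τ : Finset Vr} (hσ : Full σ) (hτ : Full τ) {a b a' b' : Deg}
    (h : a = a') (h' : b = b') (f : Ob.mk σ hσ a ⟶ Ob.mk τ hτ b)
    (f' : Ob.mk σ hσ a' ⟶ Ob.mk τ hτ b') (he : Mor.e f = Mor.e f') :
    f ≫ F2_e hτ h' = F2_e hσ h ≫ f' := by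
  apply hom_ext
  rw [comp_e, comp_e]
  change Mor.e f + 0 = 0 + Mor.e f'
  rw [he, add_zero, zero_add]

/-- PROOF. `hom_ext`: the two morphisms `(σ, a + c) ⟶ (σ, a + c + dF)` and `(σ, a + c) ⟶ (σ, a + dF + c)` differ by the
isomorphism with exponent `0`. -/
theorem isFZero_tw (c : Deg) (X : FunCat k) (hX : isFZero k X) :
    isFZero k ((twF k c).obj X) := by
  intro σ hσ a
  have h1 := hX σ hσ (a + c)
  have hd : a + c + dF = a + dF + c := by abel
  have hm : ∀ i : Fin 6, (mul hσ (a := a + c) (b := a + dF + c) (fE i) (reg_fE σ i)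
      (by rw [degE_fE]; abel)) =
      (mul hσ (b := a + c + dF) (fE i) (reg_fE σ i) (by rw [degE_fE]; abel) :
      Ob.mk σ hσ (a + c) ⟶ Ob.mk σ hσ (a + c + dF)) ≫ F2_e hσ hd := by
    intro i
    apply hom_ext
    rw [comp_e]
    change fE i = fE i + 0
    rw [add_zero]
  change ∑ i, fC i • X.map (mul hσ (a := a + c) (b := a + dF + c) (fE i) (reg_fE σ i)
      (by rw [degE_fE]; abel)) = 0
  have h2 : ∀ i : Fin 6, X.map (mul hσ (a := a + c) (b := a + dF + c) (fE i) (reg_fE σ i)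
      (by rw [degE_fE]; abel)) =
      X.map (mul hσ (b := a + c + dF) (fE i) (reg_fE σ i) (by rw [degE_fE]; abel) :
      Ob.mk σ hσ (a + c) ⟶ Ob.mk σ hσ (a + c + dF)) ≫ X.map (F2_e hσ hd) := by
    intro i
    rw [hm i, X.map_comp]
  simp only [h2]
  simp only [← Preadditive.zsmul_comp]
  rw [← Preadditive.sum_comp, h1, Limits.zero_comp]

/-- PROOF. As for `isFZero_tw`; LocInj and LocSurj of `X` in the degree `a + c`; transport along the morphism with
exponent `0` from degree `a + c + degE ..` to `a + degE .. + c`. -/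
theorem isLoc_tw (c : Deg) (X : FunCat k) (hX : isLoc k X) :
    isLoc k ((twF k c).obj X) := by
  constructor
  · intro σ τ hσ hτ hst a x hx
    have hx' : (X.map (res hσ hτ hst (a + c))).hom x = 0 := hx
    obtain ⟨N, hN⟩ := hX.1 σ τ hσ hτ hst (a + c) x hx'
    refine ⟨N, ?_⟩
    have hd : a + c + degE (pw τ N) = a + degE (pw τ N) + c := by abel
    have hm : (mul hσ (a := a + c) (b := a + degE (pw τ N) + c) (pw τ N) (reg_pw σ τ N)
        (by abel)) =
        (mul hσ (b := a + c + degE (pw τ N)) (pw τ N) (reg_pw σ τ N) (by abel) :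
          Ob.mk σ hσ (a + c) ⟶ _) ≫ F2_e hσ hd := by
      apply hom_ext
      rw [comp_e]
      change pw τ N = pw τ N + 0
      rw [add_zero]
    change (X.map (mul hσ (a := a + c) (b := a + degE (pw τ N) + c) (pw τ N) (reg_pw σ τ N)
        (by abel))).hom x = 0
    exact (congrArg (fun g => (X.map g).hom x) hm).trans
      ((F2_map k X _ _ x).trans ((congrArg _ hN).trans (map_zero _)))
  · intro σ τ hσ hτ hst a y
    obtain ⟨N, x', hx'⟩ := hX.2 σ τ hσ hτ hst (a + c) y
    have hd : a + c + degE (pw τ N) = a + degE (pw τ N) + c := by abel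
    have hm1 : F2_e hσ hd ≫ res hσ hτ hst (a + degE (pw τ N) + c) =
        res hσ hτ hst (a + c + degE (pw τ N)) ≫ F2_e hτ hd := by
      apply hom_ext
      rw [comp_e, comp_e]
      change (0 : Ex) + 0 = 0 + 0
      rfl
    have hm2 : (mul hτ (a := a + c) (b := a + degE (pw τ N) + c) (pw τ N) (reg_pw τ τ N)
        (by abel)) =
        (mul hτ (b := a + c + degE (pw τ N)) (pw τ N) (reg_pw τ τ N) (by abel) :
          Ob.mk τ hτ (a + c) ⟶ _) ≫ F2_e hτ hd := by
      apply hom_ext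
      rw [comp_e]
      change pw τ N = pw τ N + 0
      rw [add_zero]
    refine ⟨N, (X.map (F2_e hσ hd)).hom x', ?_⟩
    change (X.map (res hσ hτ hst (a + degE (pw τ N) + c))).hom ((X.map (F2_e hσ hd)).hom x') =
      (X.map (mul hτ (a := a + c) (b := a + degE (pw τ N) + c) (pw τ N) (reg_pw τ τ N)
        (by abel))).hom y
    refine (F2_map k X _ _ x').symm.trans ?_
    refine (congrArg (fun g => (X.map g).hom x') hm1).trans ?_
    refine (F2_map k X _ _ x').trans ?_
    refine (congrArg (fun z => (X.map (F2_e hτ hd)).hom z) hx').trans ?_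
    refine (F2_map k X _ _ y).symm.trans ?_
    exact (congrArg (fun g => (X.map g).hom y) hm2).symm

/-- PROOF. Both. -/
theorem isQC_tw (c : Deg) (X : FunCat k) (hX : isQC k X) :
    isQC k ((twF k c).obj X) :=
  ⟨isFZero_tw k c X hX.1, isLoc_tw k c X hX.2⟩

/-- the same monomial between objects with shifted degrees -/
def F2_sh {U V : Ob} (m : U ⟶ V) {a b : Deg} (h : b - a = V.a - U.a) :
    Ob.mk U.σ U.full a ⟶ Ob.mk V.σ V.full b :=
  Mor.mk (Mor.e (X := U) (Y := V) m) (Mor.le (X := U) (Y := V) m)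
    (Mor.reg (X := U) (Y := V) m) (by
      change degE (Mor.e (X := U) (Y := V) m) = b - a
      rw [h]
      exact Mor.deg (X := U) (Y := V) m)

/-- PROOF. Generators in the degrees `d i - c` (transported by the morphism with exponent `0`
`d i ⟶ d i - c + c`). -/
theorem isCoh_tw (c : Deg) (X : FunCat k) (hX : isCoh k X) :
    isCoh k ((twF k c).obj X) := by
  refine ⟨isQC_tw k c X hX.1, ?_⟩
  intro σ hσ
  obtain ⟨n, d, g, hg⟩ := hX.2 σ hσ
  have hd : ∀ i, d i = d i - c + c := fun i => by abel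
  refine ⟨n, fun i => d i - c, fun i => (X.map (F2_e hσ (hd i))).hom (g i), ?_⟩
  intro a x
  have h1 := hg (a + c) x
  refine Submodule.span_mono ?_ h1
  rintro y ⟨i, m, rfl⟩
  refine ⟨i, F2_sh m (a := d i - c) (b := a) (by
    change a - (d i - c) = a + c - d i
    abel), ?_⟩
  have hm : m = F2_e hσ (hd i) ≫ (F2_sh m (a := d i - c + c) (b := a + c) (by
      change a + c - (d i - c + c) = a + c - d i
      abel)) := by
    apply hom_ext
    rw [comp_e]
    change Mor.e m = 0 + Mor.e m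
    rw [zero_add]
  refine (congrArg (fun t => (X.map t).hom (g i)) hm).trans ?_
  exact F2_map k X _ _ (g i)

/-- the twist functor on quasi-coherent sheaves on `W` -/
abbrev twW (c : Deg) : QCohW k ⥤ QCohW k := restr (isQC k) (isQC k) (twF k c) (isQC_tw k c)

/-- the object `(σ, a - c + c)` -/
abbrev F2_o (c : Deg) (U : Ob) : Ob := Ob.mk U.σ U.full (U.a - c + c)

/-- the isomorphism `(σ, a) ⟶ (σ, a - c + c)` -/
def F2_p (c : Deg) (U : Ob) : U ⟶ F2_o c U :=
  Mor.mk 0 (Finset.Subset.refl _) Reg.zero (by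
    change degE 0 = U.a - c + c - U.a
    rw [degE_zero]; abel)

/-- the isomorphism `(σ, a - c + c) ⟶ (σ, a)` -/
def F2_q (c : Deg) (U : Ob) : F2_o c U ⟶ U :=
  Mor.mk 0 (Finset.Subset.refl _) Reg.zero (by
    change degE 0 = U.a - (U.a - c + c)
    rw [degE_zero]; abel)

/-- the map induced by a morphism -/
def F2_m (c : Deg) {U V : Ob} (m : U ⟶ V) : F2_o c U ⟶ F2_o c V :=
  F2_sh m (by abel)

lemma F2_pq (c : Deg) (U : Ob) : F2_p c U ≫ F2_q c U = 𝟙 U := by
  apply hom_ext
  rw [comp_e, id_e]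
  change (0 : Ex) + 0 = 0
  rw [add_zero]

lemma F2_qp (c : Deg) (U : Ob) : F2_q c U ≫ F2_p c U = 𝟙 _ := by
  apply hom_ext
  rw [comp_e, id_e]
  change (0 : Ex) + 0 = 0
  rw [add_zero]

lemma F2_pm (c : Deg) {U V : Ob} (m : U ⟶ V) : m ≫ F2_p c V = F2_p c U ≫ F2_m c m := by
  apply hom_ext
  rw [comp_e, comp_e]
  change Mor.e m + 0 = 0 + Mor.e m
  rw [add_zero, zero_add]

lemma F2_mq (c : Deg) {U V : Ob} (m : U ⟶ V) : F2_m c m ≫ F2_q c V = F2_q c U ≫ m := by
  apply hom_ext
  rw [comp_e, comp_e]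
  change Mor.e m + 0 = 0 + Mor.e m
  rw [add_zero, zero_add]

/-- the map at `(σ, a - c + c)` -/
def F2_app (c : Deg) {X Y : FunCat k} (g : (twF k c).obj X ⟶ (twF k c).obj Y) (U : Ob) :
    X.obj (F2_o c U) ⟶ Y.obj (F2_o c U) :=
  g.app (Ob.mk U.σ U.full (U.a - c))

lemma F2_app_nat (c : Deg) {X Y : FunCat k} (g : (twF k c).obj X ⟶ (twF k c).obj Y) {U V : Ob}
    (m : U ⟶ V) : X.map (F2_m c m) ≫ F2_app k c g V = F2_app k c g U ≫ Y.map (F2_m c m) :=
  g.naturality (F2_sh m (a := U.a - c) (b := V.a - c) (by abel))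

/-- the preimage of a map of twists -/
def F2_pre (c : Deg) {X Y : FunCat k} (g : (twF k c).obj X ⟶ (twF k c).obj Y) : X ⟶ Y where
  app U := X.map (F2_p c U) ≫ F2_app k c g U ≫ Y.map (F2_q c U)
  naturality U V m := by
    rw [← Category.assoc, ← X.map_comp, F2_pm, X.map_comp, Category.assoc,
      ← Category.assoc (X.map (F2_m c m)), F2_app_nat, Category.assoc, ← Y.map_comp, F2_mq,
      Y.map_comp]
    simp only [Category.assoc]

/-- the isomorphism `(σ, (a + c) - c + c) ≅ (σ, a + c)`, applied to `g` -/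
lemma F2_pre_app (c : Deg) {X Y : FunCat k} (g : (twF k c).obj X ⟶ (twF k c).obj Y) (U : Ob) :
    (F2_pre k c g).app ((twOb c).obj U) = g.app U := by
  have hd : U.a = U.a + c - c := by abel
  have h1 : X.map (F2_p c ((twOb c).obj U)) ≫ F2_app k c g ((twOb c).obj U) =
      g.app U ≫ Y.map (F2_p c ((twOb c).obj U)) :=
    g.naturality (Mor.mk 0 (Finset.Subset.refl _) Reg.zero (by
      change degE 0 = U.a + c - c - U.a
      rw [degE_zero]; abel) : U ⟶ Ob.mk U.σ U.full (U.a + c - c))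
  change X.map (F2_p c ((twOb c).obj U)) ≫ F2_app k c g ((twOb c).obj U) ≫
    Y.map (F2_q c ((twOb c).obj U)) = g.app U
  rw [← Category.assoc, h1, Category.assoc]
  have h2 : Y.map (F2_p c ((twOb c).obj U)) ≫ Y.map (F2_q c ((twOb c).obj U)) = 𝟙 _ := by
    rw [← Y.map_comp, F2_pq, Y.map_id]
  exact (congrArg (fun t => g.app U ≫ t) h2).trans (Category.comp_id _)

/-- PROOF. `T_c` and `T_{-c}` are inverse up to the isomorphism `X(σ, a + c - c) ≅ X(σ,a)` given by the morphism
with exponent `0`: `T_c X ⟶ T_c Y`, `g`, comes from `f.app (σ,a) = X(0) ≫ g.app (σ, a - c) ≫ Y(0)`. -/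
instance twW_full (c : Deg) : (twW k c).Full where
  map_surjective {X Y} g := by
    refine ⟨(isQC k).homMk (F2_pre k c g.hom), ?_⟩
    apply (isQC k).hom_ext
    ext U : 2
    exact F2_pre_app k c g.hom U

/-- PROOF. `f.app (σ, a)` is determined by `f.app (σ, (a - c) + c)` (isomorphism with exponent `0`, naturality). -/
instance twW_faithful (c : Deg) : (twW k c).Faithful where
  map_injective {X Y} f g h := by
    apply (isQC k).hom_ext
    ext U : 2
    have h1 : f.hom.app (F2_o c U) = g.hom.app (F2_o c U) :=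
      congrArg (fun t => t.hom.app (Ob.mk U.σ U.full (U.a - c))) h
    have h2 : ∀ φ : X.obj ⟶ Y.obj, φ.app U =
        X.obj.map (F2_p c U) ≫ φ.app (F2_o c U) ≫ Y.obj.map (F2_q c U) := by
      intro φ
      rw [← φ.naturality, ← Category.assoc, ← X.obj.map_comp, F2_pq, X.obj.map_id,
        Category.id_comp]
    rw [h2, h2, h1]

/-- the isomorphism `(σ, a + c - c) ≅ (σ, a)` -/
def F2_oi (c : Deg) (U : Ob) : (twOb (-c)).obj ((twOb c).obj U) ≅ U where
  hom := Mor.mk 0 (Finset.Subset.refl _) Reg.zero (by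
    change degE 0 = U.a - (U.a + c + -c)
    rw [degE_zero]; abel)
  inv := Mor.mk 0 (Finset.Subset.refl _) Reg.zero (by
    change degE 0 = U.a + c + -c - U.a
    rw [degE_zero]; abel)
  hom_inv_id := by
    apply hom_ext
    rw [comp_e, id_e]
    change (0 : Ex) + 0 = 0
    rw [add_zero]
  inv_hom_id := by
    apply hom_ext
    rw [comp_e, id_e]
    change (0 : Ex) + 0 = 0
    rw [add_zero]

/-- `T_c (T_{-c} Y) ≅ Y` -/
def F2_iso (c : Deg) (Y : FunCat k) : (twF k c).obj ((twF k (-c)).obj Y) ≅ Y :=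
  NatIso.ofComponents (fun U => Y.mapIso (F2_oi c U)) (by
    intro U V m
    change Y.map ((twOb (-c)).map ((twOb c).map m)) ≫ Y.map (F2_oi c V).hom =
      Y.map (F2_oi c U).hom ≫ Y.map m
    rw [← Y.map_comp, ← Y.map_comp]
    apply congrArg
    apply hom_ext
    rw [comp_e, comp_e]
    change Mor.e m + 0 = 0 + Mor.e m
    rw [add_zero, zero_add])

/-- PROOF. `Y ≅ T_c (T_{-c} Y)`. -/
instance twW_essSurj (c : Deg) : (twW k c).EssSurj where
  mem_essImage Y :=
    ⟨(twW k (-c)).obj Y, ⟨(isQC k).ι.preimageIso (F2_iso k c Y.obj)⟩⟩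

end MPbd3808.BR
end

section

/-!
# Toric sheaves spanned by monomials: definitions
-/

open CategoryTheory CategoryTheory.Limits

namespace MPbd3808.BR

universe u
variable (k : Type u) [Field k]

open Classical in
/-- `x^e ↦ x^(e+m)` if `e + m ∈ E'`, else `0` -/
noncomputable def cutMap (E E' : Set Ex) (m : Ex) : (E →₀ k) →ₗ[k] (E' →₀ k) :=
  Finsupp.linearCombination k fun e : E =>
    if h : (e : Ex) + m ∈ E' then (Finsupp.single ⟨e + m, h⟩ (1 : k) : E' →₀ k) else 0

theorem cutMap_of_mem {E E' : Set Ex} {m : Ex} (e : E) (h : (e : Ex) + m ∈ E') :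
    cutMap k E E' m (Finsupp.single e 1) = Finsupp.single ⟨e + m, h⟩ 1 := by
  unfold cutMap
  rw [Finsupp.linearCombination_single, one_smul, dif_pos h]

theorem cutMap_of_not_mem {E E' : Set Ex} {m : Ex} (e : E) (h : (e : Ex) + m ∉ E') :
    cutMap k E E' m (Finsupp.single e 1) = 0 := by
  unfold cutMap
  rw [Finsupp.linearCombination_single, one_smul, dif_neg h]

theorem cutMap_comp {E E' E'' : Set Ex} {m m' : Ex}
    (h : ∀ e ∈ E, e + m + m' ∈ E'' → e + m ∈ E') (x : E →₀ k) :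
    cutMap k E' E'' m' (cutMap k E E' m x) = cutMap k E E'' (m + m') x := by
  suffices H : (cutMap k E' E'' m') ∘ₗ (cutMap k E E' m) = cutMap k E E'' (m + m') from
    LinearMap.congr_fun H x
  refine Finsupp.lhom_ext' fun e => LinearMap.ext_ring ?_
  simp only [LinearMap.comp_apply, Finsupp.lsingle_apply]
  by_cases h1 : (e : Ex) + m ∈ E'
  · rw [cutMap_of_mem k e h1]
    by_cases h2 : (e : Ex) + m + m' ∈ E''
    · rw [cutMap_of_mem k ⟨e + m, h1⟩ h2, cutMap_of_mem k e (by rwa [← add_assoc])]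
      simp only [← add_assoc]
    · rw [cutMap_of_not_mem k ⟨e + m, h1⟩ h2, cutMap_of_not_mem k e (by rwa [← add_assoc])]
  · rw [cutMap_of_not_mem k e h1, map_zero, cutMap_of_not_mem k e]
    intro h2
    exact h1 (h e e.2 (by rwa [add_assoc]))

theorem cutMap_self (E : Set Ex) (x : E →₀ k) : cutMap k E E 0 x = x := by
  suffices H : cutMap k E E 0 = LinearMap.id from LinearMap.congr_fun H x
  refine Finsupp.lhom_ext' fun e => LinearMap.ext_ring ?_
  simp only [LinearMap.comp_apply, Finsupp.lsingle_apply, LinearMap.id_coe, id_eq]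
  rw [cutMap_of_mem k e (by simpa using e.2)]
  simp only [add_zero]

/-- The exponents of the sections over the chart `τ` in degree `c` of the toric sheaf `P_N`: negative in the
variables of `N`, non-negative in the variables outside `N` and `τ`; no sections if `τ` meets `N`. -/
def EE (N τ : Finset Vr) (c : Deg) : Set Ex :=
  {e | degE e = c ∧ Disjoint N τ ∧ (∀ v ∈ N, e v < 0) ∧ ∀ v, v ∉ τ → v ∉ N → 0 ≤ e v}

theorem EE_conv {N σ τ ρ : Finset Vr} {a b c : Deg} {e m m' : Ex} (he : e ∈ EE N σ a)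
    (hστ : σ ⊆ τ) (hτρ : τ ⊆ ρ) (hm : Reg τ m) (hm' : Reg ρ m') (hd : degE m = b - a)
    (h : e + m + m' ∈ EE N ρ c) : e + m ∈ EE N τ b := by
  obtain ⟨h1, h2, h3, h4⟩ := he
  obtain ⟨-, g2, g3, g4⟩ := h
  refine ⟨by rw [degE_add, h1, hd]; abel, ?_, fun v hv => ?_, fun v hv hv' => ?_⟩
  · exact Finset.disjoint_of_subset_right hτρ g2
  · have : v ∉ ρ := Finset.disjoint_left.1 g2 hv
    have g3' := g3 v hv
    have := hm' v this
    simp only [Pi.add_apply] at g3' ⊢
    omega
  · have a1 := h4 v (fun h => hv (hστ h)) hv'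
    have a2 := hm v hv
    simp only [Pi.add_apply]
    omega

/-- The toric sheaf `L_J P_N (b)`: `(σ,a) ↦` span of the monomials with exponents in `EE N (σ ∪ J) (a + b)`. -/
noncomputable def PN (N J : Finset Vr) (b : Deg) : FunCat k where
  obj U := ModuleCat.of k (EE N (U.σ ∪ J) (U.a + b) →₀ k)
  map {U V} m := ModuleCat.ofHom (cutMap k _ _ (Mor.e m))
  map_id U := by
    refine ModuleCat.hom_ext (LinearMap.ext fun x => ?_)
    exact cutMap_self k _ x
  map_comp {U V W} f g := by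
    refine ModuleCat.hom_ext (LinearMap.ext fun x => ?_)
    refine (cutMap_comp k ?_ x).symm
    intro e he h
    exact EE_conv he (Finset.union_subset_union_left (Mor.le f))
      (Finset.union_subset_union_left (Mor.le g)) ((Mor.reg f).mono Finset.subset_union_left)
      ((Mor.reg g).mono Finset.subset_union_left) (by rw [Mor.deg f]; abel) h

/-- the restriction `P_{N,J} ⟶ P_{N,J'}`, `J ⊆ J'` -/
noncomputable def PNres (N : Finset Vr) {J J' : Finset Vr} (h : J ⊆ J') (b : Deg) :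
    PN k N J b ⟶ PN k N J' b where
  app U := ModuleCat.ofHom (cutMap k _ _ 0)
  naturality U V m := by
    refine ModuleCat.hom_ext (LinearMap.ext fun x => ?_)
    change cutMap k _ _ 0 (cutMap k _ _ (Mor.e m) x) = cutMap k _ _ (Mor.e m) (cutMap k _ _ 0 x)
    rw [cutMap_comp, cutMap_comp, add_zero, zero_add]
    · intro e he h'
      exact EE_conv he (Finset.union_subset_union_right h)
        (Finset.union_subset_union_left (Mor.le m)) Reg.zero
        ((Mor.reg m).mono Finset.subset_union_left) (by rw [degE_zero]; abel) h'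
    · intro e he h'
      exact EE_conv he (Finset.union_subset_union_left (Mor.le m))
        (Finset.union_subset_union_right h) ((Mor.reg m).mono Finset.subset_union_left)
        Reg.zero (by rw [Mor.deg m]; abel) h'

/-- the projection `P_{N, J ∪ v} ⟶ P_{N ∪ v, J}` -/
noncomputable def PNproj (N J : Finset Vr) (v : Vr) (hN : v ∉ N) (hJ : v ∉ J) (b : Deg) :
    PN k N (insert v J) b ⟶ PN k (insert v N) J b where
  app U := ModuleCat.ofHom (cutMap k _ _ 0)
  naturality U V m := by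
    refine ModuleCat.hom_ext (LinearMap.ext fun x => ?_)
    change cutMap k _ _ 0 (cutMap k _ _ (Mor.e m) x) = cutMap k _ _ (Mor.e m) (cutMap k _ _ 0 x)
    rw [cutMap_comp, cutMap_comp, add_zero, zero_add]
    · rintro e ⟨h1, h2, h3, h4⟩ ⟨g1, g2, g3, g4⟩
      have hv : v ∉ V.σ ∪ J := Finset.disjoint_left.1 g2 (Finset.mem_insert_self v N)
      have hU : U.σ ∪ J ⊆ V.σ ∪ J := Finset.union_subset_union_left (Mor.le m)
      refine ⟨by simpa using h1, ?_, ?_, ?_⟩
      · exact Finset.disjoint_of_subset_right hU g2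
      · intro w hw
        have hw' : w ∉ V.σ ∪ J := Finset.disjoint_left.1 g2 hw
        have a1 := g3 w hw
        have a2 := Mor.reg m w (fun h => hw' (Finset.mem_union_left _ h))
        simp only [Pi.add_apply, Pi.zero_apply] at a1 ⊢
        omega
      · intro w hw hw'
        have := h4 w (fun h => by
          rcases Finset.mem_union.1 h with h | h
          · exact hw (Finset.mem_union_left _ h)
          · rcases Finset.mem_insert.1 h with rfl | h
            · exact hw' (Finset.mem_insert_self _ _)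
            · exact hw (Finset.mem_union_right _ h)) (fun h => hw' (Finset.mem_insert_of_mem h))
        simpa using this
    · rintro e ⟨h1, h2, h3, h4⟩ ⟨g1, g2, g3, g4⟩
      have hd : degE (e + Mor.e m) = V.a + b := by simpa using g1
      have hdis : Disjoint N (V.σ ∪ insert v J) := by
        rw [Finset.disjoint_union_right, Finset.disjoint_insert_right]
        rw [Finset.disjoint_union_right] at g2
        exact ⟨Finset.disjoint_of_subset_left (Finset.subset_insert _ _) g2.1, hN,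
          Finset.disjoint_of_subset_left (Finset.subset_insert _ _) g2.2⟩
      refine ⟨hd, hdis, ?_, ?_⟩
      · intro w hw
        simpa using g3 w (Finset.mem_insert_of_mem hw)
      · intro w hw hw'
        have a1 := h4 w (fun h => by
          rcases Finset.mem_union.1 h with h | h
          · exact hw (Finset.mem_union_left _ (Mor.le m h))
          · exact hw (Finset.mem_union_right _ h)) hw'
        have a2 := Mor.reg m w (fun h => hw (Finset.mem_union_left _ h))
        simp only [Pi.add_apply]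
        omega

end MPbd3808.BR
end

section

/-!
# TASK P1: the toric sheaves `PN` are quasi-coherent
-/

open CategoryTheory CategoryTheory.Limits

namespace MPbd3808.BR

universe u
variable (k : Type u) [Field k]

variable {k} in
/-- Two linear maps which agree on the monomials of `y` agree at `y`. -/
theorem P1_congr {α : Type*} {Z : Type*} [AddCommGroup Z] [Module k Z] (f g : (α →₀ k) →ₗ[k] Z)
    (y : α →₀ k) (h : ∀ e ∈ y.support, f (Finsupp.single e 1) = g (Finsupp.single e 1)) :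
    f y = g y := by
  have h1 : ∀ (φ : (α →₀ k) →ₗ[k] Z), φ y = y.sum fun e c => c • φ (Finsupp.single e 1) := by
    intro φ
    conv_lhs => rw [← Finsupp.sum_single y]
    rw [map_finsuppSum]
    refine Finsupp.sum_congr fun e _ => ?_
    rw [← map_smul, Finsupp.smul_single, smul_eq_mul, mul_one]
  rw [h1 f, h1 g]
  refine Finsupp.sum_congr fun e he => ?_
  rw [h e he]

variable {k} in
/-- A bound for the exponents of finitely many monomials. -/
theorem P1_bound {E : Set Ex} (y : E →₀ k) :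
    ∃ M : ℕ, ∀ e ∈ y.support, ∀ w, -((e : Ex) w) ≤ (M : ℤ) := by
  refine ⟨∑ e ∈ y.support, ∑ w, ((e : Ex) w).natAbs, fun e he w => ?_⟩
  have h1 : ((e : Ex) w).natAbs ≤ ∑ w, ((e : Ex) w).natAbs :=
    Finset.single_le_sum (f := fun w => ((e : Ex) w).natAbs) (fun _ _ => Nat.zero_le _)
      (Finset.mem_univ w)
  have h2 : ∑ w, ((e : Ex) w).natAbs ≤ ∑ e ∈ y.support, ∑ w, ((e : Ex) w).natAbs :=
    Finset.single_le_sum (f := fun e : E => ∑ w, ((e : Ex) w).natAbs) (fun _ _ => Nat.zero_le _) he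
  have h3 : (((e : Ex) w).natAbs : ℤ) ≤
      ((∑ e ∈ y.support, ∑ w, ((e : Ex) w).natAbs : ℕ) : ℤ) := by
    exact_mod_cast h1.trans h2
  have h4 : -((e : Ex) w) ≤ (((e : Ex) w).natAbs : ℤ) := by omega
  exact h4.trans h3

/-- The restriction is injective if the chart does not meet `N`. -/
theorem P1_inj {E E' : Set Ex} (h : E ⊆ E') (x : E →₀ k) (hx : cutMap k E E' 0 x = 0) : x = 0 := by
  have h1 : (cutMap k E' E 0) ∘ₗ (cutMap k E E' 0) = LinearMap.id := by
    refine Finsupp.lhom_ext' fun e => LinearMap.ext_ring ?_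
    simp only [LinearMap.comp_apply, Finsupp.lsingle_apply, LinearMap.id_coe, id_eq]
    have h2 : (e : Ex) + 0 ∈ E' := by
      rw [add_zero]
      exact h e.2
    rw [cutMap_of_mem k e h2, cutMap_of_mem k ⟨e + 0, h2⟩ (by simp)]
    simp only [add_zero]
  have h3 := LinearMap.congr_fun h1 x
  rw [LinearMap.comp_apply, hx, map_zero] at h3
  exact h3.symm

/-- PROOF. Write `EE N (σ ∪ J) c`.
LocInj: let `x ∈ (EE N (σ ∪ J) c →₀ k)` restrict to `0` on `τ ⊇ σ`. If `N` is disjoint from `τ ∪ J` then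
`EE N (σ ∪ J) c ⊆ EE N (τ ∪ J) c` and the restriction is injective, so `x = 0` (take the exponent `0`). Otherwise let
`v ∈ N ∩ (τ ∪ J)`. If `v ∈ σ ∪ J` the set `EE N (σ ∪ J) c` is empty and `x = 0`. If not, `v ∈ τ`; for `M` with
`M ≥ -e v` for all `e` in the support of `x`, `(e + pw τ M) v ≥ 0`, so `e + pw τ M ∉ EE N (σ ∪ J) _` and `x_τ^M x = 0`.
LocSurj: `y ∈ (EE N (τ ∪ J) c →₀ k)`. If `N` is not disjoint from `τ ∪ J` then `y = 0`. Otherwise for `M` large
(`M ≥ -e w` for all `e` in the support of `y` and all `w`), `e + pw τ M ∈ EE N (σ ∪ J) (c + degE (pw τ M))`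
(exponents in `N` do not change because `N ∩ τ = ∅`), and `x = ∑ y_e (e + pw τ M)` restricts to `x_τ^M y`. -/
theorem isLoc_PN (N J : Finset Vr) (b : Deg) : isLoc k (PN k N J b) := by
  constructor
  · intro σ τ hσ hτ hst a x hx
    change EE N (σ ∪ J) (a + b) →₀ k at x
    change cutMap k (EE N (σ ∪ J) (a + b)) (EE N (τ ∪ J) (a + b)) 0 x = 0 at hx
    by_cases hd : Disjoint N (τ ∪ J)
    · refine ⟨0, ?_⟩
      have h1 : x = 0 := by
        refine P1_inj k ?_ x hx
        rintro e ⟨h1, h2, h3, h4⟩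
        refine ⟨h1, hd, h3, fun v hv hv' => h4 v (fun h => hv ?_) hv'⟩
        exact Finset.union_subset_union_left hst h
      rw [h1]
      exact map_zero _
    · by_cases hd' : Disjoint N (σ ∪ J)
      · obtain ⟨v, hv, hv'⟩ := Finset.not_disjoint_iff.1 hd
        have hvσ : v ∉ σ ∪ J := Finset.disjoint_left.1 hd' hv
        have hvτ : v ∈ τ := by
          rcases Finset.mem_union.1 hv' with h | h
          · exact h
          · exact absurd (Finset.mem_union_right _ h) hvσ
        obtain ⟨M, hM⟩ := P1_bound x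
        refine ⟨M, ?_⟩
        change cutMap k (EE N (σ ∪ J) (a + b)) (EE N (σ ∪ J) (a + degE (pw τ M) + b)) (pw τ M) x = 0
        refine (P1_congr (cutMap k _ _ (pw τ M)) 0 x fun e he => ?_).trans
          (LinearMap.zero_apply x)
        rw [LinearMap.zero_apply, cutMap_of_not_mem k e]
        rintro ⟨-, -, g3, -⟩
        have g4 := g3 v hv
        have g5 := hM e he v
        rw [Pi.add_apply, show pw τ M v = M from if_pos hvτ] at g4
        omega
      · refine ⟨0, ?_⟩
        have h1 : x = 0 := by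
          ext e
          exact absurd e.2.2.1 hd'
        rw [h1]
        exact map_zero _
  · intro σ τ hσ hτ hst a y
    change EE N (τ ∪ J) (a + b) →₀ k at y
    by_cases hd : Disjoint N (τ ∪ J)
    · obtain ⟨M, hM⟩ := P1_bound y
      refine ⟨M, cutMap k (EE N (τ ∪ J) (a + b)) (EE N (σ ∪ J) (a + degE (pw τ M) + b))
        (pw τ M) y, ?_⟩
      change cutMap k (EE N (σ ∪ J) (a + degE (pw τ M) + b)) (EE N (τ ∪ J) (a + degE (pw τ M) + b))
        0 (cutMap k (EE N (τ ∪ J) (a + b)) (EE N (σ ∪ J) (a + degE (pw τ M) + b)) (pw τ M) y) =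
        cutMap k (EE N (τ ∪ J) (a + b)) (EE N (τ ∪ J) (a + degE (pw τ M) + b)) (pw τ M) y
      rw [← LinearMap.comp_apply]
      refine P1_congr _ _ y fun e he => ?_
      have hN : ∀ v ∈ N, v ∉ τ := fun v hv h =>
        Finset.disjoint_left.1 hd hv (Finset.mem_union_left _ h)
      obtain ⟨h1, h2, h3, h4⟩ := e.2
      have m1 : (e : Ex) + pw τ M ∈ EE N (σ ∪ J) (a + degE (pw τ M) + b) := by
        refine ⟨by rw [degE_add, h1]; abel, ?_, fun v hv => ?_, fun v hv hv' => ?_⟩
        · exact Finset.disjoint_of_subset_right (Finset.union_subset_union_left hst) hd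
        · rw [Pi.add_apply, show pw τ M v = 0 from if_neg (hN v hv), add_zero]
          exact h3 v hv
        · rw [Pi.add_apply]
          by_cases hvτ : v ∈ τ
          · rw [show pw τ M v = M from if_pos hvτ]
            have := hM e he v
            omega
          · rw [show pw τ M v = 0 from if_neg hvτ, add_zero]
            refine h4 v (fun h => ?_) hv'
            rcases Finset.mem_union.1 h with h | h
            · exact hvτ h
            · exact hv (Finset.mem_union_right _ h)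
      have m2 : (e : Ex) + pw τ M ∈ EE N (τ ∪ J) (a + degE (pw τ M) + b) := by
        obtain ⟨g1, g2, g3, g4⟩ := m1
        exact ⟨g1, hd, g3, fun v hv hv' => g4 v (fun h => hv
          (Finset.union_subset_union_left hst h)) hv'⟩
      rw [LinearMap.comp_apply, cutMap_of_mem k e m1, cutMap_of_mem k e m2,
        cutMap_of_mem k ⟨_, m1⟩ (by rw [add_zero]; exact m2)]
      simp only [add_zero]
    · refine ⟨0, 0, ?_⟩
      have h1 : y = 0 := by
        ext e
        exact absurd e.2.2.1 hd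
      rw [h1]
      exact (map_zero _).trans (map_zero _).symm

end MPbd3808.BR
end

section

/-!
# Objects of the abelian categories, Ext
-/

open CategoryTheory CategoryTheory.Limits

namespace MPbd3808.BR

universe u
variable (k : Type u) [Field k]

instance : HasExt.{u+1} (QCohT k) := HasExt.standard _
instance : HasExt.{u+1} (QCohW k) := HasExt.standard _
instance : HasExt.{u+1} (CohW k) := HasExt.standard _

instance : HasFiniteBiproducts (QCohT k) := Abelian.hasFiniteBiproducts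
instance : HasFiniteBiproducts (QCohW k) := Abelian.hasFiniteBiproducts
instance : HasFiniteBiproducts (CohW k) := Abelian.hasFiniteBiproducts

/-- the toric structure sheaf -/
noncomputable abbrev PT (b : Deg) : QCohT k := ⟨PPf k b, isLoc_QQ [] b⟩

/-- `QQ G b` as a toric sheaf -/
noncomputable abbrev QT (G : List (A k × Deg)) (b : Deg) : QCohT k := ⟨QQ G b, isLoc_QQ G b⟩

/-- `PN` as a toric sheaf -/
noncomputable abbrev PNT (N J : Finset Vr) (b : Deg) : QCohT k := ⟨PN k N J b, isLoc_PN k N J b⟩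

/-- `O_W(b)` as a quasi-coherent sheaf on `W` -/
noncomputable abbrev OM (b : Deg) : QCohW k := ⟨OWf k b, (isCoh_OW b).1⟩

/-- `O_E(b)` as a quasi-coherent sheaf on `W` -/
noncomputable abbrev OEM (b : Deg) : QCohW k := ⟨OEf k b, (isCoh_OE b).1⟩

/-- `O_W(b)` as a coherent sheaf on `W` -/
noncomputable abbrev OC (b : Deg) : CohW k := ⟨OWf k b, isCoh_OW b⟩

/-- `O_E(b)` as a coherent sheaf on `W` -/
noncomputable abbrev OEC (b : Deg) : CohW k := ⟨OEf k b, isCoh_OE b⟩

theorem isCoh_QWf (i : Fin 24) : isCoh k (QWf k i) := by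
  unfold QWf GQ
  split_ifs
  · exact isCoh_OW _
  · exact isCoh_OE _

/-- the 24 objects -/
noncomputable abbrev QW (i : Fin 24) : CohW k := ⟨QWf k i, isCoh_QWf k i⟩

/-- the inclusion `Coh(W) ⥤ QCoh(W)` -/
abbrev inCM : CohW k ⥤ QCohW k := ObjectProperty.ιOfLE (isCoh_le_isQC k)

/-- the inclusion `QCoh(W) ⥤ QCoh(T)` -/
abbrev inMT : QCohW k ⥤ QCohT k := ObjectProperty.ιOfLE (isQC_le_isLoc k)

/-- localization on `QCoh(T)` -/
abbrev locT (J : Finset Vr) : QCohT k ⥤ QCohT k := restr (isLoc k) (isLoc k) (locF k J) (isLoc_loc k J)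

/-- localization on `QCoh(W)` -/
abbrev locW (J : Finset Vr) : QCohW k ⥤ QCohW k := restr (isQC k) (isQC k) (locF k J) (isQC_loc k J)

/-- `𝟭 ⟶ L_J` -/
def unitT (J : Finset Vr) : 𝟭 (QCohT k) ⟶ locT k J where
  app X := (isLoc k).homMk ((unitF k J).app X.obj)
  naturality _ _ f := (isLoc k).ι.map_injective ((unitF k J).naturality f.hom)

/-- `𝟭 ⟶ L_J` -/
def unitW (J : Finset Vr) : 𝟭 (QCohW k) ⟶ locW k J where
  app X := (isQC k).homMk ((unitF k J).app X.obj)
  naturality _ _ f := (isQC k).ι.map_injective ((unitF k J).naturality f.hom)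

end MPbd3808.BR
end

section

/-!
# TASK S2: algebraic independence

`aind`: the elements `x0, …, x5, y6 = a x6 + b x7, y7 = c x6 + d x7` (with `a,b,c,d` polynomials in `x0, …, x5` and
`ad - bc ≠ 0`) of the polynomial ring `R8 k` in eight variables are algebraically independent.

PROOF 1: `Algebra.IsAlgebraic.isTranscendenceBasis_of_lift_le_trdeg_of_finite` (Mathlib): the transcendence degree of
`R8 k` is 8 (`MvPolynomial.trdeg_of_isDomain`), and `R8 k` is algebraic over the subalgebra `S` generated by the eight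
elements: `x0, …, x5, r6 a, …, r6 d, Δ = r6 (a d - b c) ∈ S`, `Δ x6 = d y6 - b y7 ∈ S`, `Δ x7 = -c y6 + a y7 ∈ S`, `Δ ≠ 0`; so all
`x_i` are algebraic over `S` (root of `Δ X - s`).

PROOF 2: let `K0 = Frac (MvPolynomial (Fin 6) k)`. The map `MvPolynomial (Fin 8) k → MvPolynomial (Fin 2) K0` is injective (compose
`rename`, `sumAlgEquiv`, `map`), and over the field `K0` the linear substitution given by an invertible matrix is bijective
(inverse: the substitution given by the inverse matrix).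

`vc_ind`, `vc_ind'`: use `aind` with
  c = 0: `rz2 = la u0 u1 om2`, `rz3 = la u0^2 om1 + u0 mu om2`, determinant `- la^2 u0^3 u1`;
  c = 1: `rw1 = u0 u1 om1`, `rz3`, determinant `u0^2 u1 mu`;
  c = 2: `rz1 = la u0 u1 om1`, `rz0 = u1 mu om1 + la u1^2 om2`, determinant `la^2 u0 u1^3`;
  c = 3: `rw2 = u0 u1 om2`, `rz0`, determinant `- u0 u1^2 mu`;
  c = 4: identity; and `mu rw1`, `mu rw2` similarly.
`bet_injective`: `mev_injective` and `AlgebraicIndependent.map'` along `algebraMap (R8 k) (KK k)`.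
`Phi_mvl`, `bet_mvl`: `mev_mvl`.
-/

set_option autoImplicit false

noncomputable section

open CategoryTheory CategoryTheory.Limits

namespace MPbd3808.BR.SX

universe u v w

variable (k : Type u) [Field k]

/-- The inclusion of `k[s0,s1,u0,u1,la,mu]` into `R8 k`. -/
def r6 : MvPolynomial (Fin 6) k →ₐ[k] R8 k :=
  MvPolynomial.rename (fun i : Fin 6 => (⟨i.1, by omega⟩ : Fin 8))

theorem aind (a b c d : MvPolynomial (Fin 6) k) (h : a * d - b * c ≠ 0) :
    AlgebraicIndependent k (![xx k 0, xx k 1, xx k 2, xx k 3, xx k 4, xx k 5,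
      r6 k a * xx k 6 + r6 k b * xx k 7, r6 k c * xx k 6 + r6 k d * xx k 7] : Fin 8 → R8 k) := by
  classical
  set x : Fin 8 → R8 k := ![xx k 0, xx k 1, xx k 2, xx k 3, xx k 4, xx k 5,
      r6 k a * xx k 6 + r6 k b * xx k 7, r6 k c * xx k 6 + r6 k d * xx k 7] with hx
  have mem : ∀ i, x i ∈ Algebra.adjoin k (Set.range x) :=
    fun i => Algebra.subset_adjoin ⟨i, rfl⟩
  have r6mem : ∀ p : MvPolynomial (Fin 6) k, r6 k p ∈ Algebra.adjoin k (Set.range x) := by
    intro p
    induction p using MvPolynomial.induction_on with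
    | C t =>
      have h1 : r6 k (MvPolynomial.C t) = algebraMap k (R8 k) t := by
        rw [r6, MvPolynomial.rename_C]
        rfl
      rw [h1]
      exact Subalgebra.algebraMap_mem _ _
    | add p q hp hq =>
      rw [map_add]
      exact add_mem hp hq
    | mul_X p i hp =>
      rw [map_mul]
      refine mul_mem hp ?_
      rw [r6, MvPolynomial.rename_X]
      fin_cases i
      exacts [mem 0, mem 1, mem 2, mem 3, mem 4, mem 5]
  have algS : ∀ y : R8 k, y ∈ Algebra.adjoin k (Set.range x) →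
      IsAlgebraic (Algebra.adjoin k (Set.range x)) y := fun y hy =>
    isAlgebraic_algebraMap (⟨y, hy⟩ : Algebra.adjoin k (Set.range x))
  have hinj : Function.Injective (r6 k) := by
    refine MvPolynomial.rename_injective _ ?_
    intro i j hij
    simpa [Fin.ext_iff] using hij
  have hD : r6 k (a * d - b * c) ≠ 0 := by
    intro h0
    exact h (hinj (by rw [h0, map_zero]))
  have hD1 : r6 k (a * d - b * c) ∈ nonZeroDivisors (R8 k) := mem_nonZeroDivisors_of_ne_zero hD
  have h6 : IsAlgebraic (Algebra.adjoin k (Set.range x)) (xx k 6) := by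
    refine IsAlgebraic.of_mul hD1 (algS _ (r6mem _)) (algS _ ?_)
    have e : r6 k (a * d - b * c) * xx k 6 = r6 k d * x 6 - r6 k b * x 7 := by
      have e6 : x 6 = r6 k a * xx k 6 + r6 k b * xx k 7 := rfl
      have e7 : x 7 = r6 k c * xx k 6 + r6 k d * xx k 7 := rfl
      rw [e6, e7, map_sub, map_mul, map_mul]
      ring
    rw [e]
    exact sub_mem (mul_mem (r6mem _) (mem 6)) (mul_mem (r6mem _) (mem 7))
  have h7 : IsAlgebraic (Algebra.adjoin k (Set.range x)) (xx k 7) := by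
    refine IsAlgebraic.of_mul hD1 (algS _ (r6mem _)) (algS _ ?_)
    have e : r6 k (a * d - b * c) * xx k 7 = r6 k a * x 7 - r6 k c * x 6 := by
      have e6 : x 6 = r6 k a * xx k 6 + r6 k b * xx k 7 := rfl
      have e7 : x 7 = r6 k c * xx k 6 + r6 k d * xx k 7 := rfl
      rw [e6, e7, map_sub, map_mul, map_mul]
      ring
    rw [e]
    exact sub_mem (mul_mem (r6mem _) (mem 7)) (mul_mem (r6mem _) (mem 6))
  have hX : ∀ i, IsAlgebraic (Algebra.adjoin k (Set.range x)) (xx k i) := by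
    intro i
    fin_cases i
    exacts [algS _ (mem 0), algS _ (mem 1), algS _ (mem 2), algS _ (mem 3), algS _ (mem 4),
      algS _ (mem 5), h6, h7]
  have alg : Algebra.IsAlgebraic (Algebra.adjoin k (Set.range x)) (R8 k) := by
    constructor
    intro p
    induction p using MvPolynomial.induction_on with
    | C t => exact algS _ (Subalgebra.algebraMap_mem _ t)
    | add p q hp hq => exact hp.add hq
    | mul_X p i hp => exact hp.mul (hX i)
  exact (Algebra.IsAlgebraic.isTranscendenceBasis_of_lift_le_trdeg_of_finite k x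
    (by rw [MvPolynomial.trdeg_of_isDomain]; simp)).1

theorem vc_ind (c : Fin 5) : AlgebraicIndependent k (vc k c) := by
  have key : ∀ (a b c d : MvPolynomial (Fin 6) k) (y z : R8 k),
      MvPolynomial.eval (fun _ => (1 : k)) (a * d - b * c) ≠ 0 →
      y = r6 k a * xx k 6 + r6 k b * xx k 7 → z = r6 k c * xx k 6 + r6 k d * xx k 7 →
      AlgebraicIndependent k (![xx k 0, xx k 1, xx k 2, xx k 3, xx k 4, xx k 5, y, z] :
        Fin 8 → R8 k) := by
    intro a b c d y z h hy hz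
    rw [hy, hz]
    refine aind k a b c d ?_
    intro h0
    rw [h0, map_zero] at h
    exact h rfl
  fin_cases c
  · refine key 0 (MvPolynomial.X 4 * MvPolynomial.X 2 * MvPolynomial.X 3)
      (MvPolynomial.X 4 * MvPolynomial.X 2 ^ 2) (MvPolynomial.X 2 * MvPolynomial.X 5)
      (rz2 k) (rz3 k) (by simp) ?_ ?_
    · simp only [r6, map_zero, map_mul, MvPolynomial.rename_X]
      change xx k 4 * (xx k 2 * xx k 3 * xx k 7) = 0 * xx k 6 + xx k 4 * xx k 2 * xx k 3 * xx k 7
      ring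
    · simp only [r6, map_pow, map_mul, MvPolynomial.rename_X]
      change xx k 2 * (xx k 5 * xx k 7 + xx k 4 * xx k 2 * xx k 6) =
        xx k 4 * xx k 2 ^ 2 * xx k 6 + xx k 2 * xx k 5 * xx k 7
      ring
  · refine key (MvPolynomial.X 2 * MvPolynomial.X 3) 0
      (MvPolynomial.X 4 * MvPolynomial.X 2 ^ 2) (MvPolynomial.X 2 * MvPolynomial.X 5)
      (rw1 k) (rz3 k) (by simp) ?_ ?_
    · simp only [r6, map_zero, map_mul, MvPolynomial.rename_X]
      change xx k 2 * xx k 3 * xx k 6 = xx k 2 * xx k 3 * xx k 6 + 0 * xx k 7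
      ring
    · simp only [r6, map_pow, map_mul, MvPolynomial.rename_X]
      change xx k 2 * (xx k 5 * xx k 7 + xx k 4 * xx k 2 * xx k 6) =
        xx k 4 * xx k 2 ^ 2 * xx k 6 + xx k 2 * xx k 5 * xx k 7
      ring
  · refine key (MvPolynomial.X 4 * (MvPolynomial.X 2 * MvPolynomial.X 3)) 0
      (MvPolynomial.X 3 * MvPolynomial.X 5) (MvPolynomial.X 3 ^ 2 * MvPolynomial.X 4)
      (rz1 k) (rz0 k) (by simp) ?_ ?_
    · simp only [r6, map_zero, map_mul, MvPolynomial.rename_X]
      change xx k 4 * (xx k 2 * xx k 3 * xx k 6) =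
        xx k 4 * (xx k 2 * xx k 3) * xx k 6 + 0 * xx k 7
      ring
    · simp only [r6, map_pow, map_mul, MvPolynomial.rename_X]
      change xx k 3 * (xx k 5 * xx k 6 + xx k 4 * xx k 3 * xx k 7) =
        xx k 3 * xx k 5 * xx k 6 + xx k 3 ^ 2 * xx k 4 * xx k 7
      ring
  · refine key 0 (MvPolynomial.X 2 * MvPolynomial.X 3)
      (MvPolynomial.X 3 * MvPolynomial.X 5) (MvPolynomial.X 3 ^ 2 * MvPolynomial.X 4)
      (rw2 k) (rz0 k) (by simp) ?_ ?_
    · simp only [r6, map_zero, map_mul, MvPolynomial.rename_X]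
      change xx k 2 * xx k 3 * xx k 7 = 0 * xx k 6 + xx k 2 * xx k 3 * xx k 7
      ring
    · simp only [r6, map_pow, map_mul, MvPolynomial.rename_X]
      change xx k 3 * (xx k 5 * xx k 6 + xx k 4 * xx k 3 * xx k 7) =
        xx k 3 * xx k 5 * xx k 6 + xx k 3 ^ 2 * xx k 4 * xx k 7
      ring
  · refine key 1 0 0 1 (xx k 6) (xx k 7) (by simp) ?_ ?_
    · rw [map_zero, map_one]
      ring
    · rw [map_zero, map_one]
      ring

theorem vc_ind1 : AlgebraicIndependent k (![xx k 0, xx k 1, xx k 2, xx k 3, xx k 4, xx k 5,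
      xx k 5 * rw1 k, rz3 k] : Fin 8 → R8 k) := by
  have h0 := aind k (MvPolynomial.X 5 * (MvPolynomial.X 2 * MvPolynomial.X 3)) 0
      (MvPolynomial.X 4 * MvPolynomial.X 2 ^ 2) (MvPolynomial.X 2 * MvPolynomial.X 5) (by
        intro h
        have h1 := congrArg (MvPolynomial.eval (fun _ => (1 : k))) h
        simp at h1)
  have e1 : xx k 5 * rw1 k = r6 k (MvPolynomial.X 5 * (MvPolynomial.X 2 * MvPolynomial.X 3)) *
      xx k 6 + r6 k 0 * xx k 7 := by
    simp only [r6, map_zero, map_mul, MvPolynomial.rename_X]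
    change xx k 5 * (xx k 2 * xx k 3 * xx k 6) =
      xx k 5 * (xx k 2 * xx k 3) * xx k 6 + 0 * xx k 7
    ring
  have e2 : rz3 k = r6 k (MvPolynomial.X 4 * MvPolynomial.X 2 ^ 2) * xx k 6 +
      r6 k (MvPolynomial.X 2 * MvPolynomial.X 5) * xx k 7 := by
    simp only [r6, map_pow, map_mul, MvPolynomial.rename_X]
    change xx k 2 * (xx k 5 * xx k 7 + xx k 4 * xx k 2 * xx k 6) =
      xx k 4 * xx k 2 ^ 2 * xx k 6 + xx k 2 * xx k 5 * xx k 7
    ring
  rw [e1, e2]
  exact h0

theorem vc_ind3 : AlgebraicIndependent k (![xx k 0, xx k 1, xx k 2, xx k 3, xx k 4, xx k 5,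
      xx k 5 * rw2 k, rz0 k] : Fin 8 → R8 k) := by
  have h0 := aind k 0 (MvPolynomial.X 5 * (MvPolynomial.X 2 * MvPolynomial.X 3))
      (MvPolynomial.X 3 * MvPolynomial.X 5) (MvPolynomial.X 3 ^ 2 * MvPolynomial.X 4) (by
        intro h
        have h1 := congrArg (MvPolynomial.eval (fun _ => (1 : k))) h
        simp at h1)
  have e1 : xx k 5 * rw2 k = r6 k 0 * xx k 6 +
      r6 k (MvPolynomial.X 5 * (MvPolynomial.X 2 * MvPolynomial.X 3)) * xx k 7 := by
    simp only [r6, map_zero, map_mul, MvPolynomial.rename_X]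
    change xx k 5 * (xx k 2 * xx k 3 * xx k 7) =
      0 * xx k 6 + xx k 5 * (xx k 2 * xx k 3) * xx k 7
    ring
  have e2 : rz0 k = r6 k (MvPolynomial.X 3 * MvPolynomial.X 5) * xx k 6 +
      r6 k (MvPolynomial.X 3 ^ 2 * MvPolynomial.X 4) * xx k 7 := by
    simp only [r6, map_pow, map_mul, MvPolynomial.rename_X]
    change xx k 3 * (xx k 5 * xx k 6 + xx k 4 * xx k 3 * xx k 7) =
      xx k 3 * xx k 5 * xx k 6 + xx k 3 ^ 2 * xx k 4 * xx k 7
    ring
  rw [e1, e2]
  exact h0

theorem bet_injective (c : Fin 5) : Function.Injective (bet k c) := by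
  refine mev_injective _ ?_
  exact (vc_ind k c).map' (f := IsScalarTower.toAlgHom k (R8 k) (KK k))
    (IsFractionRing.injective (R8 k) (KK k))

/-- The images of the Cox variables, on polynomials. -/
def rs : MvPolynomial Vr k →ₐ[k] R8 k := MvPolynomial.aeval (vvK k)

theorem Phi_mvl (P : MvPolynomial Vr k) :
    Phi k (mvl P) = algebraMap (R8 k) (KK k) (rs k P) := by
  rw [Phi, mev_mvl, rs]
  exact MvPolynomial.aeval_algebraMap_apply (KK k) (vvK k) P

theorem bet_mvl (c : Fin 5) (P : MvPolynomial (Fin 8) k) :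
    bet k c (mvl P) = algebraMap (R8 k) (KK k) (MvPolynomial.aeval (vc k c) P) := by
  rw [bet, mev_mvl]
  exact MvPolynomial.aeval_algebraMap_apply (KK k) (vc k c) P

theorem iP_injective : Function.Injective (iP k) := by
  have h1 : Function.Injective (IsScalarTower.toAlgHom k (R8 k) (KK k)) :=
    IsFractionRing.injective (R8 k) (KK k)
  have h2 : Function.Injective (MvPolynomial.rename (R := k)
      (fun i : Fin 6 => (⟨i.1 + 2, by omega⟩ : Fin 8))) := by
    refine MvPolynomial.rename_injective _ ?_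
    intro i j hij
    simpa [Fin.ext_iff] using hij
  exact h1.comp h2

end MPbd3808.BR.SX
end
end

section

/-!
# The equations of `E` in the polynomial ring
-/

set_option autoImplicit false

noncomputable section

open CategoryTheory CategoryTheory.Limits

namespace MPbd3808.BR.SX

universe u v w

variable (k : Type u) [Field k]

/-- The variables of the polynomial ring in the Cox variables. -/
abbrev px (v : Vr) : MvPolynomial Vr k := MvPolynomial.X v

/-- `D_0 = la u1 z3 - la u0 z1 - mu z2` -/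
def pD0 : MvPolynomial Vr k :=
  px k 4 * px k 3 * px k 9 - px k 4 * px k 2 * px k 7 - px k 5 * px k 8

/-- `D_1 = la u0 z0 - mu z1 - la u1 z2` -/
def pD1 : MvPolynomial Vr k :=
  px k 4 * px k 2 * px k 6 - px k 5 * px k 7 - px k 4 * px k 3 * px k 8

theorem rs_px (v : Vr) : rs k (px k v) = vvK k v := MvPolynomial.aeval_X _ _

theorem rs_pD0 : rs k (pD0 k) = 0 := by
  simp only [pD0, map_sub, map_mul, rs_px]
  simp [vvK, rz3, rz1, rz2, rw1, rw2]
  ring

theorem rs_pD1 : rs k (pD1 k) = 0 := by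
  simp only [pD1, map_sub, map_mul, rs_px]
  simp [vvK, rz0, rz1, rz2, rw1, rw2]
  ring

theorem mvl_px_mul3 (a b c : Vr) : mvl (px k a * px k b * px k c) =
    (mon (Pi.single a 1 + Pi.single b 1 + Pi.single c 1) : A k) := by
  simp only [map_mul, px, mvl_X, mon, AddMonoidAlgebra.single_mul_single, one_mul]

theorem mvl_px_mul2 (a b : Vr) : mvl (px k a * px k b) =
    (mon (Pi.single a 1 + Pi.single b 1) : A k) := by
  simp only [map_mul, px, mvl_X, mon, AddMonoidAlgebra.single_mul_single, one_mul]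

theorem mvl_pD0 : mvl (pD0 k) = D0 k := by
  have h0 : (Pi.single 4 1 + Pi.single 3 1 + Pi.single 9 1 : Ex) = eD0 0 := by decide
  have h1 : (Pi.single 4 1 + Pi.single 2 1 + Pi.single 7 1 : Ex) = eD0 1 := by decide
  have h2 : (Pi.single 5 1 + Pi.single 8 1 : Ex) = eD0 2 := by decide
  simp only [pD0, map_sub, mvl_px_mul3, mvl_px_mul2, D0, h0, h1, h2]

theorem mvl_pD1 : mvl (pD1 k) = D1 k := by
  have h0 : (Pi.single 4 1 + Pi.single 2 1 + Pi.single 6 1 : Ex) = eD1 0 := by decide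
  have h1 : (Pi.single 5 1 + Pi.single 7 1 : Ex) = eD1 1 := by decide
  have h2 : (Pi.single 4 1 + Pi.single 3 1 + Pi.single 8 1 : Ex) = eD1 2 := by decide
  simp only [pD1, map_sub, mvl_px_mul3, mvl_px_mul2, D1, h0, h1, h2]

end MPbd3808.BR.SX
end
end

section

/-!
# The kernel of `rs` on the four base charts
-/

set_option autoImplicit false

noncomputable section

open CategoryTheory CategoryTheory.Limits

namespace MPbd3808.BR.SX

universe u v w

variable (k : Type u) [Field k]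

/-- The ideal of `E` in the polynomial ring. -/
abbrev IE : Ideal (MvPolynomial Vr k) := Ideal.span {pD0 k, pD1 k}

theorem pD0_mem : pD0 k ∈ IE k := Ideal.subset_span (by simp)

theorem pD1_mem : pD1 k ∈ IE k := Ideal.subset_span (by simp)

theorem rs_IE {P : MvPolynomial Vr k} (h : P ∈ IE k) : rs k P = 0 := by
  have : IE k ≤ RingHom.ker (rs k) := by
    rw [Ideal.span_le]
    rintro x hx
    rcases hx with rfl | hx
    · exact rs_pD0 k
    · rw [Set.mem_singleton_iff.1 hx]
      exact rs_pD1 k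
  exact this h

theorem kerP_gen (m : MvPolynomial Vr k) (α : MvPolynomial (Fin 8) k →ₐ[k] MvPolynomial Vr k)
    (hm : ∃ Q, α Q = m)
    (hv : ∀ v, ∃ (M : ℕ) (Q : MvPolynomial (Fin 8) k), m ^ M * px k v - α Q ∈ IE k)
    (hi : Function.Injective ((rs k).comp α)) (P : MvPolynomial Vr k) (h : rs k P = 0) :
    ∃ M : ℕ, m ^ M * P ∈ IE k := by
  obtain ⟨m', hm'⟩ := hm
  have key : ∀ P : MvPolynomial Vr k, ∃ (M : ℕ) (Q : MvPolynomial (Fin 8) k),
      m ^ M * P - α Q ∈ IE k := by
    intro P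
    induction P using MvPolynomial.induction_on with
    | C a =>
      refine ⟨0, MvPolynomial.C a, ?_⟩
      have : α (MvPolynomial.C a) = MvPolynomial.C a := α.commutes a
      rw [this, pow_zero, one_mul, sub_self]
      exact Ideal.zero_mem _
    | add P1 P2 h1 h2 =>
      obtain ⟨M1, Q1, h1⟩ := h1
      obtain ⟨M2, Q2, h2⟩ := h2
      refine ⟨M1 + M2, m' ^ M2 * Q1 + m' ^ M1 * Q2, ?_⟩
      have : m ^ (M1 + M2) * (P1 + P2) - α (m' ^ M2 * Q1 + m' ^ M1 * Q2) =
          m ^ M2 * (m ^ M1 * P1 - α Q1) + m ^ M1 * (m ^ M2 * P2 - α Q2) := by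
        simp only [map_add, map_mul, map_pow, hm']
        ring
      rw [this]
      exact Ideal.add_mem _ (Ideal.mul_mem_left _ _ h1) (Ideal.mul_mem_left _ _ h2)
    | mul_X P1 v h1 =>
      obtain ⟨M1, Q1, h1⟩ := h1
      obtain ⟨M2, Q2, h2⟩ := hv v
      refine ⟨M1 + M2, Q1 * Q2, ?_⟩
      have : m ^ (M1 + M2) * (P1 * MvPolynomial.X v) - α (Q1 * Q2) =
          (m ^ M2 * px k v) * (m ^ M1 * P1 - α Q1) + α Q1 * (m ^ M2 * px k v - α Q2) := by
        simp only [map_mul, px]
        ring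
      rw [this]
      exact Ideal.add_mem _ (Ideal.mul_mem_left _ _ h1) (Ideal.mul_mem_left _ _ h2)
  obtain ⟨M, Q, hQ⟩ := key P
  have h1 := rs_IE k hQ
  rw [map_sub, map_mul, h, mul_zero, zero_sub, neg_eq_zero] at h1
  have h2 : Q = 0 := hi (by rw [map_zero]; exact h1)
  refine ⟨M, ?_⟩
  rw [h2, map_zero, sub_zero] at hQ
  exact hQ

/-- Membership in the ideal from an explicit combination. -/
theorem mem_IE {P : MvPolynomial Vr k} (a b : MvPolynomial Vr k)
    (h : P = a * pD0 k + b * pD1 k) : P ∈ IE k := by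
  rw [h]
  exact Ideal.add_mem _ (Ideal.mul_mem_left _ _ (pD0_mem k)) (Ideal.mul_mem_left _ _ (pD1_mem k))

/-- free coordinates -/
def al (y z : MvPolynomial Vr k) : MvPolynomial (Fin 8) k →ₐ[k] MvPolynomial Vr k :=
  MvPolynomial.aeval ![px k 0, px k 1, px k 2, px k 3, px k 4, px k 5, y, z]

theorem al_X (y z : MvPolynomial Vr k) (i : Fin 8) : al k y z (MvPolynomial.X i) =
    (![px k 0, px k 1, px k 2, px k 3, px k 4, px k 5, y, z] : Fin 8 → MvPolynomial Vr k) i :=
  MvPolynomial.aeval_X _ _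

theorem rs_al (y z : MvPolynomial Vr k) : (rs k).comp (al k y z) =
    MvPolynomial.aeval ![xx k 0, xx k 1, xx k 2, xx k 3, xx k 4, xx k 5, rs k y, rs k z] := by
  apply MvPolynomial.algHom_ext
  intro i
  rw [AlgHom.comp_apply, al_X, MvPolynomial.aeval_X]
  fin_cases i <;> simp [rs_px, vvK]

theorem hv_triv (m y z : MvPolynomial Vr k) (i : Fin 8) (v : Vr)
    (h : (![px k 0, px k 1, px k 2, px k 3, px k 4, px k 5, y, z] : Fin 8 → MvPolynomial Vr k) i =
      px k v) :
    ∃ (M : ℕ) (Q : MvPolynomial (Fin 8) k), m ^ M * px k v - al k y z Q ∈ IE k := by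
  refine ⟨0, MvPolynomial.X i, ?_⟩
  rw [al_X, h, pow_zero, one_mul, sub_self]
  exact Ideal.zero_mem _

theorem kerP0 (P : MvPolynomial Vr k) (h : rs k P = 0) :
    ∃ M : ℕ, (px k 2 * px k 4) ^ M * P ∈ IE k := by
  refine kerP_gen k _ (al k (px k 8) (px k 9)) ⟨MvPolynomial.X 2 * MvPolynomial.X 4, ?_⟩ ?_ ?_ P h
  · rw [map_mul, al_X, al_X]
    rfl
  · intro v
    fin_cases v
    · exact hv_triv k _ _ _ 0 0 rfl
    · exact hv_triv k _ _ _ 1 1 rfl
    · exact hv_triv k _ _ _ 2 2 rfl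
    · exact hv_triv k _ _ _ 3 3 rfl
    · exact hv_triv k _ _ _ 4 4 rfl
    · exact hv_triv k _ _ _ 5 5 rfl
    · refine ⟨2, MvPolynomial.X 5 * (MvPolynomial.X 4 * MvPolynomial.X 3 * MvPolynomial.X 7 -
        MvPolynomial.X 5 * MvPolynomial.X 6) + MvPolynomial.X 4 * MvPolynomial.X 3 *
          MvPolynomial.X 4 * MvPolynomial.X 2 * MvPolynomial.X 6, ?_⟩
      refine mem_IE k (-px k 5) (px k 4 * px k 2) ?_
      simp only [map_mul, map_sub, map_add, al_X, pD0, pD1]
      simp
      ring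
    · refine ⟨1, MvPolynomial.X 4 * MvPolynomial.X 3 * MvPolynomial.X 7 -
        MvPolynomial.X 5 * MvPolynomial.X 6, ?_⟩
      refine mem_IE k (-1) 0 ?_
      simp only [map_mul, map_sub, map_add, al_X, pD0, pD1]
      simp
      ring
    · exact hv_triv k _ _ _ 6 8 rfl
    · exact hv_triv k _ _ _ 7 9 rfl
  · rw [rs_al]
    have h1 := vc_ind k 0
    have h2 : (![xx k 0, xx k 1, xx k 2, xx k 3, xx k 4, xx k 5, rs k (px k 8), rs k (px k 9)] :
      Fin 8 → R8 k) = vc k 0 := by
      rw [rs_px, rs_px]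
      rfl
    rw [h2]
    exact h1

theorem kerP1 (P : MvPolynomial Vr k) (h : rs k P = 0) :
    ∃ M : ℕ, (px k 2 * px k 5) ^ M * P ∈ IE k := by
  refine kerP_gen k _ (al k (px k 2 * px k 6 - px k 3 * px k 8) (px k 9))
    ⟨MvPolynomial.X 2 * MvPolynomial.X 5, ?_⟩ ?_ ?_ P h
  · rw [map_mul, al_X, al_X]
    rfl
  · intro v
    fin_cases v
    · exact hv_triv k _ _ _ 0 0 rfl
    · exact hv_triv k _ _ _ 1 1 rfl
    · exact hv_triv k _ _ _ 2 2 rfl
    · exact hv_triv k _ _ _ 3 3 rfl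
    · exact hv_triv k _ _ _ 4 4 rfl
    · exact hv_triv k _ _ _ 5 5 rfl
    · refine ⟨3, MvPolynomial.X 2 ^ 2 * MvPolynomial.X 5 ^ 3 * MvPolynomial.X 6 +
        MvPolynomial.X 5 * MvPolynomial.X 3 * (MvPolynomial.X 2 ^ 2 * (MvPolynomial.X 5 *
          MvPolynomial.X 4 * MvPolynomial.X 3 * MvPolynomial.X 7 - MvPolynomial.X 4 ^ 2 *
            MvPolynomial.X 2 * MvPolynomial.X 6)), ?_⟩
      refine mem_IE k (-(px k 5 ^ 2 * px k 3 * px k 2 ^ 2))
        (px k 5 * px k 3 * px k 2 ^ 3 * px k 4) ?_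
      simp only [map_mul, map_sub, map_add, map_pow, al_X, pD0, pD1]
      simp
      ring
    · refine ⟨1, MvPolynomial.X 2 * MvPolynomial.X 4 * MvPolynomial.X 6, ?_⟩
      refine mem_IE k 0 (-px k 2) ?_
      simp only [map_mul, map_sub, map_add, map_pow, al_X, pD0, pD1]
      simp
      ring
    · refine ⟨2, MvPolynomial.X 2 ^ 2 * (MvPolynomial.X 5 *
          MvPolynomial.X 4 * MvPolynomial.X 3 * MvPolynomial.X 7 - MvPolynomial.X 4 ^ 2 *
            MvPolynomial.X 2 * MvPolynomial.X 6), ?_⟩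
      refine mem_IE k (-(px k 5 * px k 2 ^ 2)) (px k 2 ^ 3 * px k 4) ?_
      simp only [map_mul, map_sub, map_add, map_pow, al_X, pD0, pD1]
      simp
      ring
    · exact hv_triv k _ _ _ 7 9 rfl
  · rw [rs_al]
    have h1 := vc_ind1 k
    have h2 : (![xx k 0, xx k 1, xx k 2, xx k 3, xx k 4, xx k 5,
      rs k (px k 2 * px k 6 - px k 3 * px k 8), rs k (px k 9)] : Fin 8 → R8 k) =
      ![xx k 0, xx k 1, xx k 2, xx k 3, xx k 4, xx k 5, xx k 5 * rw1 k, rz3 k] := by
      have h3 : rs k (px k 2 * px k 6 - px k 3 * px k 8) = xx k 5 * rw1 k := by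
        simp only [map_sub, map_mul, rs_px]
        simp [vvK, rz0, rz2, rw1, rw2]
        ring
      rw [h3, rs_px]
      rfl
    rw [h2]
    exact h1

theorem kerP2 (P : MvPolynomial Vr k) (h : rs k P = 0) :
    ∃ M : ℕ, (px k 3 * px k 4) ^ M * P ∈ IE k := by
  refine kerP_gen k _ (al k (px k 7) (px k 6)) ⟨MvPolynomial.X 3 * MvPolynomial.X 4, ?_⟩ ?_ ?_ P h
  · rw [map_mul, al_X, al_X]
    rfl
  · intro v
    fin_cases v
    · exact hv_triv k _ _ _ 0 0 rfl
    · exact hv_triv k _ _ _ 1 1 rfl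
    · exact hv_triv k _ _ _ 2 2 rfl
    · exact hv_triv k _ _ _ 3 3 rfl
    · exact hv_triv k _ _ _ 4 4 rfl
    · exact hv_triv k _ _ _ 5 5 rfl
    · exact hv_triv k _ _ _ 7 6 rfl
    · exact hv_triv k _ _ _ 6 7 rfl
    · refine ⟨1, MvPolynomial.X 4 * MvPolynomial.X 2 * MvPolynomial.X 7 -
        MvPolynomial.X 5 * MvPolynomial.X 6, ?_⟩
      refine mem_IE k 0 (-1) ?_
      simp only [map_mul, map_sub, map_add, al_X, pD0, pD1]
      simp
      ring
    · refine ⟨2, MvPolynomial.X 5 * (MvPolynomial.X 4 * MvPolynomial.X 2 * MvPolynomial.X 7 -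
        MvPolynomial.X 5 * MvPolynomial.X 6) + MvPolynomial.X 4 * MvPolynomial.X 3 *
          MvPolynomial.X 4 * MvPolynomial.X 2 * MvPolynomial.X 6, ?_⟩
      refine mem_IE k (px k 4 * px k 3) (-px k 5) ?_
      simp only [map_mul, map_sub, map_add, al_X, pD0, pD1]
      simp
      ring
  · rw [rs_al]
    have h1 := vc_ind k 2
    have h2 : (![xx k 0, xx k 1, xx k 2, xx k 3, xx k 4, xx k 5, rs k (px k 7), rs k (px k 6)] :
      Fin 8 → R8 k) = vc k 2 := by
      rw [rs_px, rs_px]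
      rfl
    rw [h2]
    exact h1

theorem kerP3 (P : MvPolynomial Vr k) (h : rs k P = 0) :
    ∃ M : ℕ, (px k 3 * px k 5) ^ M * P ∈ IE k := by
  refine kerP_gen k _ (al k (px k 3 * px k 9 - px k 2 * px k 7) (px k 6))
    ⟨MvPolynomial.X 3 * MvPolynomial.X 5, ?_⟩ ?_ ?_ P h
  · rw [map_mul, al_X, al_X]
    rfl
  · intro v
    fin_cases v
    · exact hv_triv k _ _ _ 0 0 rfl
    · exact hv_triv k _ _ _ 1 1 rfl
    · exact hv_triv k _ _ _ 2 2 rfl
    · exact hv_triv k _ _ _ 3 3 rfl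
    · exact hv_triv k _ _ _ 4 4 rfl
    · exact hv_triv k _ _ _ 5 5 rfl
    · exact hv_triv k _ _ _ 7 6 rfl
    · refine ⟨2, MvPolynomial.X 3 ^ 2 * (MvPolynomial.X 5 *
          MvPolynomial.X 4 * MvPolynomial.X 2 * MvPolynomial.X 7 - MvPolynomial.X 4 ^ 2 *
            MvPolynomial.X 3 * MvPolynomial.X 6), ?_⟩
      refine mem_IE k (px k 3 ^ 3 * px k 4) (-(px k 5 * px k 3 ^ 2)) ?_
      simp only [map_mul, map_sub, map_add, map_pow, al_X, pD0, pD1]
      simp
      ring
    · refine ⟨1, MvPolynomial.X 3 * MvPolynomial.X 4 * MvPolynomial.X 6, ?_⟩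
      refine mem_IE k (-px k 3) 0 ?_
      simp only [map_mul, map_sub, map_add, map_pow, al_X, pD0, pD1]
      simp
      ring
    · refine ⟨3, MvPolynomial.X 3 ^ 2 * MvPolynomial.X 5 ^ 3 * MvPolynomial.X 6 +
        MvPolynomial.X 5 * MvPolynomial.X 2 * (MvPolynomial.X 3 ^ 2 * (MvPolynomial.X 5 *
          MvPolynomial.X 4 * MvPolynomial.X 2 * MvPolynomial.X 7 - MvPolynomial.X 4 ^ 2 *
            MvPolynomial.X 3 * MvPolynomial.X 6)), ?_⟩
      refine mem_IE k (px k 5 * px k 2 * px k 3 ^ 3 * px k 4)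
        (-(px k 5 ^ 2 * px k 2 * px k 3 ^ 2)) ?_
      simp only [map_mul, map_sub, map_add, map_pow, al_X, pD0, pD1]
      simp
      ring
  · rw [rs_al]
    have h1 := vc_ind3 k
    have h2 : (![xx k 0, xx k 1, xx k 2, xx k 3, xx k 4, xx k 5,
      rs k (px k 3 * px k 9 - px k 2 * px k 7), rs k (px k 6)] : Fin 8 → R8 k) =
      ![xx k 0, xx k 1, xx k 2, xx k 3, xx k 4, xx k 5, xx k 5 * rw2 k, rz0 k] := by
      have h3 : rs k (px k 3 * px k 9 - px k 2 * px k 7) = xx k 5 * rw2 k := by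
        simp only [map_sub, map_mul, rs_px]
        simp [vvK, rz3, rz1, rw1, rw2]
        ring
      rw [h3, rs_px]
      rfl
    rw [h2]
    exact h1

end MPbd3808.BR.SX
end
end

section

/-!
# TASK S4: `Phi` is zero on the ideals of `E` and `W`

* `exists_base`: unfold `Full` at `i = 1` and `i = 2`, `fam v = 1 ↔ v ∈ {2,3}`, `fam v = 2 ↔ v ∈ {4,5}` (`decide`).
* `Phi_D0`, `Phi_D1`: `mvl_pD0`, `Phi_mvl`, `rs_pD0`.  `Phi_fP`: `fP = s0 D0 + s1 D1` (`fP_eq`: unfold `fP`, `Fin.sum_univ_six`, `fC`).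
* `Phi_idl`: unfold `idl` twice (`Submodule.mem_sup`).
-/

set_option autoImplicit false

noncomputable section

open CategoryTheory CategoryTheory.Limits

namespace MPbd3808.BR.SX

universe u v w

variable (k : Type u) [Field k]

theorem exists_base {σ : Finset Vr} (h : Full σ) :
    ((2 : Vr) ∈ σ ∨ (3 : Vr) ∈ σ) ∧ ((4 : Vr) ∈ σ ∨ (5 : Vr) ∈ σ) := by
  refine ⟨?_, ?_⟩
  · obtain ⟨v, hv, hf⟩ := h 1
    have key : ∀ v : Vr, fam v = 1 → v = 2 ∨ v = 3 := by decide
    have := key v hf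
    rcases this with rfl | rfl
    · exact Or.inl hv
    · exact Or.inr hv
  · obtain ⟨v, hv, hf⟩ := h 2
    have key : ∀ v : Vr, fam v = 2 → v = 4 ∨ v = 5 := by decide
    have := key v hf
    rcases this with rfl | rfl
    · exact Or.inl hv
    · exact Or.inr hv

theorem Phi_D0 : Phi k (D0 k) = 0 := by
  rw [← mvl_pD0, Phi_mvl, rs_pD0, map_zero]

theorem Phi_D1 : Phi k (D1 k) = 0 := by
  rw [← mvl_pD1, Phi_mvl, rs_pD1, map_zero]

theorem fP_eq : fP k = mon (Pi.single 0 1) * D0 k + mon (Pi.single 1 1) * D1 k := by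
  have h0 : (Pi.single 0 1 + eD0 0 : Ex) = fE 0 := by decide
  have h1 : (Pi.single 0 1 + eD0 1 : Ex) = fE 1 := by decide
  have h2 : (Pi.single 0 1 + eD0 2 : Ex) = fE 2 := by decide
  have h3 : (Pi.single 1 1 + eD1 0 : Ex) = fE 3 := by decide
  have h4 : (Pi.single 1 1 + eD1 1 : Ex) = fE 4 := by decide
  have h5 : (Pi.single 1 1 + eD1 2 : Ex) = fE 5 := by decide
  have c0 : fC 0 = 1 := rfl
  have c1 : fC 1 = -1 := rfl
  have c2 : fC 2 = -1 := rfl
  have c3 : fC 3 = 1 := rfl
  have c4 : fC 4 = -1 := rfl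
  have c5 : fC 5 = -1 := rfl
  unfold fP D0 D1
  rw [Fin.sum_univ_six, c0, c1, c2, c3, c4, c5]
  simp only [mul_sub, mon, AddMonoidAlgebra.single_mul_single, one_mul, h0, h1, h2, h3, h4, h5]
  push_cast
  simp only [one_smul, neg_smul]
  abel

theorem Phi_fP : Phi k (fP k) = 0 := by
  rw [fP_eq, map_add, map_mul, map_mul, Phi_D0, Phi_D1, mul_zero, mul_zero, add_zero]

theorem Phi_idl (σ : Finset Vr) (c : Deg) (p : A k) (hp : p ∈ idl (GE k) σ c) : Phi k p = 0 := by
  obtain ⟨q, hq, r, hr, rfl⟩ := Submodule.mem_sup.1 hp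
  obtain ⟨q', _, rfl⟩ := hq
  obtain ⟨s, hs, t, ht, rfl⟩ := Submodule.mem_sup.1 hr
  obtain ⟨s', _, rfl⟩ := hs
  have ht0 : t = 0 := ht
  rw [ht0, add_zero, map_add]
  show Phi k (D1 k * q') + Phi k (D0 k * s') = 0
  rw [map_mul, map_mul, Phi_D0, Phi_D1, zero_mul, zero_mul, add_zero]

theorem Phi_idlW (σ : Finset Vr) (c : Deg) (p : A k) (hp : p ∈ idl (GW k) σ c) :
    Phi k p = 0 := by
  obtain ⟨q, hq, r, hr, rfl⟩ := Submodule.mem_sup.1 hp
  obtain ⟨q', _, rfl⟩ := hq
  have hr0 : r = 0 := hr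
  rw [hr0, add_zero]
  show Phi k (fP k * q') = 0
  rw [map_mul, Phi_fP, zero_mul]

end MPbd3808.BR.SX
end
end

section

/-!
# TASK S6: change of coordinates for homogeneous Laurent polynomials

`grG_mul`: `coeff_mul_ne`. `single_mem_grG`: `AddMonoidAlgebra.coeff_single`, `Finsupp.single_apply`.
`grG_pow`: induction. `grG_prod`: `Finset.induction_on`.

`map_grG_le`: an element of `grG k d T D` is a linear combination of monomials `single e 1` with `e i ≥ 0` for `i ∉ T` and
`∑ e i • d i = D` (write it as the sum over its support); for such an `e` let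
`q = ∏ i, if 0 ≤ e i then Z i ^ (e i).toNat else Zi i ^ (-(e i)).toNat`; then `q ∈ grG k d' T' D` and
`mev v' q = ∏ i, v i ^ (e i) = mev v (single e 1)`.
-/

set_option autoImplicit false

noncomputable section

open CategoryTheory CategoryTheory.Limits

namespace MPbd3808.BR.SX

universe u v w

variable (k : Type u) [Field k]

section

variable {ι : Type v} [Fintype ι]

/-- Laurent polynomials of degree `D` (the variable `i` has degree `d i`), in which only the
variables in `T` may have negative exponents. -/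
def grG (d : ι → Deg) (T : Finset ι) (D : Deg) : Submodule k (AddMonoidAlgebra k (ι → ℤ)) where
  carrier := {p | ∀ e, p.coeff e ≠ 0 → (∀ i, i ∉ T → 0 ≤ e i) ∧ ∑ i, e i • d i = D}
  add_mem' {p q} hp hq e he := by
    by_cases h : p.coeff e = 0
    · refine hq e fun h' => he ?_
      simp [h, h']
    · exact hp e h
  zero_mem' e he := absurd (by simp) he
  smul_mem' c p hp e he := hp e fun h => he (by simp [h])

variable {k}

theorem mem_grG {d : ι → Deg} {T : Finset ι} {D : Deg} {p : AddMonoidAlgebra k (ι → ℤ)} :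
    p ∈ grG k d T D ↔ ∀ e, p.coeff e ≠ 0 → (∀ i, i ∉ T → 0 ≤ e i) ∧ ∑ i, e i • d i = D := Iff.rfl

theorem grG_mul {d : ι → Deg} {T : Finset ι} {D D' : Deg} {p q : AddMonoidAlgebra k (ι → ℤ)}
    (hp : p ∈ grG k d T D) (hq : q ∈ grG k d T D') : p * q ∈ grG k d T (D + D') := by
  intro e he
  obtain ⟨e1, e2, h1, h2, rfl⟩ := coeff_mul_ne k p q e he
  refine ⟨fun i hi => add_nonneg ((hp e1 h1).1 i hi) ((hq e2 h2).1 i hi), ?_⟩
  rw [← (hp e1 h1).2, ← (hq e2 h2).2, ← Finset.sum_add_distrib]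
  exact Finset.sum_congr rfl fun i _ => add_smul _ _ _

theorem single_mem_grG {d : ι → Deg} {T : Finset ι} {D : Deg} (e : ι → ℤ) (a : k)
    (h1 : ∀ i, i ∉ T → 0 ≤ e i) (h2 : ∑ i, e i • d i = D) :
    AddMonoidAlgebra.single e a ∈ grG k d T D := by
  classical
  intro e' he
  rw [AddMonoidAlgebra.coeff_single, Finsupp.single_apply] at he
  have h0 : e = e' := by
    by_contra h
    rw [if_neg h] at he
    exact he rfl
  subst h0
  exact ⟨h1, h2⟩

theorem one_mem_grG {d : ι → Deg} {T : Finset ι} :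
    (1 : AddMonoidAlgebra k (ι → ℤ)) ∈ grG k d T 0 := by
  rw [AddMonoidAlgebra.one_def]
  exact single_mem_grG 0 1 (fun i _ => le_rfl) (by simp)

theorem grG_pow {d : ι → Deg} {T : Finset ι} {D : Deg} {p : AddMonoidAlgebra k (ι → ℤ)}
    (hp : p ∈ grG k d T D) (n : ℕ) : p ^ n ∈ grG k d T ((n : ℤ) • D) := by
  induction n with
  | zero =>
    rw [pow_zero, Nat.cast_zero, zero_smul]
    exact one_mem_grG
  | succ n ih =>
    rw [pow_succ, Nat.cast_succ, add_smul, one_smul]
    exact grG_mul ih hp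

theorem grG_prod {κ : Type*} (s : Finset κ) {d : ι → Deg} {T : Finset ι} {D : κ → Deg}
    {p : κ → AddMonoidAlgebra k (ι → ℤ)} (hp : ∀ j ∈ s, p j ∈ grG k d T (D j)) :
    ∏ j ∈ s, p j ∈ grG k d T (∑ j ∈ s, D j) := by
  classical
  induction s using Finset.induction_on with
  | empty =>
    rw [Finset.prod_empty, Finset.sum_empty]
    exact one_mem_grG
  | insert a s ha ih =>
    rw [Finset.prod_insert ha, Finset.sum_insert ha]
    exact grG_mul (hp a (Finset.mem_insert_self a s))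
      (ih fun j hj => hp j (Finset.mem_insert_of_mem hj))

theorem grG_mono {d : ι → Deg} {T T' : Finset ι} (h : T ⊆ T') (D : Deg) :
    grG k d T D ≤ grG k d T' D :=
  fun _ hp e he => ⟨fun i hi => (hp e he).1 i fun h' => hi (h h'), (hp e he).2⟩

variable {ι' : Type w} [Fintype ι'] {K : Type*} [CommRing K] [Algebra k K]

theorem map_grG_le (v : ι → Kˣ) (d : ι → Deg) (T : Finset ι) (v' : ι' → Kˣ) (d' : ι' → Deg)
    (T' : Finset ι') (Z Zi : ι → AddMonoidAlgebra k (ι' → ℤ))
    (hZ : ∀ i, Z i ∈ grG k d' T' (d i)) (hZ' : ∀ i, mev v' (Z i) = (v i : K))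
    (hZi : ∀ i ∈ T, Zi i ∈ grG k d' T' (-d i))
    (hZi' : ∀ i ∈ T, mev v' (Zi i) = ((v i)⁻¹ : Kˣ)) (D : Deg) :
    (grG k d T D).map (mev v : _ →ₐ[k] K).toLinearMap ≤
      (grG k d' T' D).map (mev v' : _ →ₐ[k] K).toLinearMap := by
  rintro _ ⟨p, hp, rfl⟩
  have hp' : ∀ e, p.coeff e ≠ 0 → (∀ i, i ∉ T → 0 ≤ e i) ∧ ∑ i, e i • d i = D := hp
  have hsum : p = ∑ e ∈ p.coeff.support, p.coeff e • AddMonoidAlgebra.single e (1 : k) := by
    simp only [AddMonoidAlgebra.smul_single, smul_eq_mul, mul_one]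
    exact (AddMonoidAlgebra.sum_coeff_single p).symm
  rw [hsum, map_sum]
  refine Submodule.sum_mem _ fun e he => ?_
  rw [map_smul]
  refine Submodule.smul_mem _ _ ?_
  obtain ⟨h1, h2⟩ := hp' e (Finsupp.mem_support_iff.1 he)
  refine ⟨∏ i, if 0 ≤ e i then Z i ^ (e i).toNat else Zi i ^ (-(e i)).toNat, ?_, ?_⟩
  · rw [← h2]
    refine grG_prod Finset.univ fun i _ => ?_
    split_ifs with h
    · have h3 := grG_pow (hZ i) (e i).toNat
      rwa [Int.toNat_of_nonneg h] at h3
    · have hi : i ∈ T := by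
        by_contra hi
        exact h (h1 i hi)
      have h3 := grG_pow (hZi i hi) (-(e i)).toNat
      rwa [Int.toNat_of_nonneg (by omega), neg_smul_neg] at h3
  · change mev v' _ = mev v _
    rw [mev_single, one_smul, map_prod, Units.coe_prod]
    refine Finset.prod_congr rfl fun i _ => ?_
    split_ifs with h
    · rw [map_pow, hZ' i]
      have h3 : (v i ^ (e i) : Kˣ) = v i ^ (e i).toNat := by
        conv_lhs => rw [← Int.toNat_of_nonneg h]
        exact zpow_natCast _ _
      rw [h3, Units.val_pow_eq_pow_val]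
    · have hi : i ∈ T := by
        by_contra hi
        exact h (h1 i hi)
      rw [map_pow, hZi' i hi]
      have h3 : (v i ^ (e i) : Kˣ) = (v i)⁻¹ ^ (-(e i)).toNat := by
        have h4 : e i = -(((-(e i)).toNat : ℕ) : ℤ) := by
          rw [Int.toNat_of_nonneg (by omega)]; ring
        conv_lhs => rw [h4]
        rw [zpow_neg, zpow_natCast, inv_pow]
      rw [h3, Units.val_pow_eq_pow_val]

end

/-- Laurent polynomials of degree `D` in the coordinates `vc c`, in which only the coordinates in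
`T` may have negative exponents. -/
abbrev gr8 (c : Fin 5) (T : Finset (Fin 8)) (D : Deg) : Submodule k (A8 k) := grG k (dc c) T D

/-- The image of `gr8` in the function field. -/
def VV8 (c : Fin 5) (T : Finset (Fin 8)) (D : Deg) : Submodule k (KK k) :=
  (gr8 k c T D).map (bet k c).toLinearMap

theorem gr_eq_grG (σ : Finset Vr) (D : Deg) : gr k σ D = grG k dg σ D := rfl

variable {k} in
theorem mem_VV8 {c : Fin 5} {T : Finset (Fin 8)} {D : Deg} {y : KK k} :
    y ∈ VV8 k c T D ↔ ∃ q ∈ gr8 k c T D, bet k c q = y := Iff.rfl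

/-- `map_grG_le` for a chart of `E` and the coordinates `vc c`. -/
theorem VV_le_VV8 (σ : Finset Vr) (c : Fin 5) (T : Finset (Fin 8)) (Z Zi : Vr → A8 k)
    (hZ : ∀ v, Z v ∈ gr8 k c T (dg v))
    (hZ' : ∀ v, bet k c (Z v) = algebraMap (R8 k) (KK k) (vvK k v))
    (hZi : ∀ v ∈ σ, Zi v ∈ gr8 k c T (-dg v))
    (hZi' : ∀ v ∈ σ, Z v * Zi v = 1) (D : Deg) : VV k σ D ≤ VV8 k c T D := by
  refine map_grG_le (fun v => toU (vvK k v) (vvK_ne k v)) dg σ _ (dc c) T Z Zi hZ hZ' hZi ?_ D
  intro v hv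
  have h1 := congrArg (bet k c) (hZi' v hv)
  rw [map_mul, hZ', map_one] at h1
  exact eq_inv_of_mul_eq_one_right (by exact_mod_cast h1) |>.trans (by simp)

/-- `map_grG_le` for the coordinates `vc c` and the coordinates `vc c'`. -/
theorem VV8_le_VV8 (c c' : Fin 5) (T T' : Finset (Fin 8)) (Z Zi : Fin 8 → A8 k)
    (hZ : ∀ i, Z i ∈ gr8 k c' T' (dc c i))
    (hZ' : ∀ i, bet k c' (Z i) = algebraMap (R8 k) (KK k) (vc k c i))
    (hZi : ∀ i ∈ T, Zi i ∈ gr8 k c' T' (-dc c i))
    (hZi' : ∀ i ∈ T, Z i * Zi i = 1) (D : Deg) : VV8 k c T D ≤ VV8 k c' T' D := by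
  refine map_grG_le (fun i => toU (vc k c i) (vc_ne k c i)) (dc c) T _ (dc c') T' Z Zi hZ hZ' hZi
    ?_ D
  intro v hv
  have h1 := congrArg (bet k c') (hZi' v hv)
  rw [map_mul, hZ', map_one] at h1
  exact eq_inv_of_mul_eq_one_right (by exact_mod_cast h1) |>.trans (by simp)

end MPbd3808.BR.SX
end
end

section

/-!
# TASK S6e: the coordinates `om1, om2`

Use `VV8_le_VV8` with `c' = 4`, `Z i = single (Pi.single i 1) 1` for `i ≤ 5` (its inverse is `single (Pi.single i (-1)) 1`), and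
`Z 6, Z 7` the polynomials `rz2 = u0 u1 la om2`, `rz3 = u0 mu om2 + la u0^2 om1`, `rw1 = u0 u1 om1`, `rz1 = u0 u1 la om1`,
`rz0 = u1 mu om1 + la u1^2 om2`, `rw2 = u0 u1 om2` (`vc k c 6`, `vc k c 7`) written as sums of `single`s. The degrees: `dom = (0,-1,-1,1)`,
`decide`. Alternatively all `Z i` are `mvl (vc k c i)` and `bet_mvl` gives `hZ'` (with `MvPolynomial.aeval (vc k 4) = id`).
-/

set_option autoImplicit false

noncomputable section

open CategoryTheory CategoryTheory.Limits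

namespace MPbd3808.BR.SX

universe u v w

variable (k : Type u) [Field k]

theorem S6e_id : (MvPolynomial.aeval (vc k 4) : R8 k →ₐ[k] R8 k) = AlgHom.id k (R8 k) := by
  refine MvPolynomial.algHom_ext fun i => ?_
  rw [MvPolynomial.aeval_X]
  fin_cases i <;> rfl

theorem S6e_bet (P : R8 k) : bet k 4 (mvl P) = algebraMap (R8 k) (KK k) P := by
  rw [bet_mvl, S6e_id, AlgHom.id_apply]

theorem S6e_sum (d : Fin 8 → Deg) (i : Fin 8) (a : ℤ) :
    ∑ j, (Pi.single i a : Fin 8 → ℤ) j • d j = a • d i := by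
  rw [Finset.sum_eq_single i]
  · rw [Pi.single_eq_same]
  · intro j _ hj
    rw [Pi.single_eq_of_ne hj, zero_smul]
  · intro h
    exact absurd (Finset.mem_univ i) h

theorem S6e_x (T : Finset (Fin 8)) (i : Fin 8) : mvl (xx k i) ∈ gr8 k 4 T (dc 4 i) := by
  rw [mvl_X]
  refine single_mem_grG _ _ (fun j _ => ?_) ?_
  · by_cases h : j = i
    · rw [h, Pi.single_eq_same]; exact zero_le_one
    · rw [Pi.single_eq_of_ne h]
  · rw [S6e_sum, one_smul]

theorem S6e_y (T : Finset (Fin 8)) (i : Fin 8) (hi : i ∈ T) :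
    (AddMonoidAlgebra.single (Pi.single i (-1 : ℤ)) 1 : A8 k) ∈ gr8 k 4 T (-dc 4 i) := by
  refine single_mem_grG _ _ (fun j hj => ?_) ?_
  · have h : j ≠ i := fun h => hj (h ▸ hi)
    rw [Pi.single_eq_of_ne h]
  · rw [S6e_sum, neg_smul, one_smul]

theorem S6e_xy (i : Fin 8) : (mvl (xx k i) : A8 k) *
    AddMonoidAlgebra.single (Pi.single i (-1 : ℤ)) 1 = 1 := by
  rw [mvl_X, AddMonoidAlgebra.single_mul_single, one_mul, ← Pi.single_add, add_neg_cancel,
    Pi.single_zero, AddMonoidAlgebra.one_def]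

theorem S6e_rw1 (T : Finset (Fin 8)) : mvl (rw1 k) ∈ gr8 k 4 T dw := by
  have h := grG_mul (grG_mul (S6e_x k T 2) (S6e_x k T 3)) (S6e_x k T 6)
  rw [← map_mul, ← map_mul, show dc 4 2 + dc 4 3 + dc 4 6 = dw by decide] at h
  exact h

theorem S6e_rw2 (T : Finset (Fin 8)) : mvl (rw2 k) ∈ gr8 k 4 T dw := by
  have h := grG_mul (grG_mul (S6e_x k T 2) (S6e_x k T 3)) (S6e_x k T 7)
  rw [← map_mul, ← map_mul, show dc 4 2 + dc 4 3 + dc 4 7 = dw by decide] at h
  exact h

theorem S6e_rz1 (T : Finset (Fin 8)) : mvl (rz1 k) ∈ gr8 k 4 T dz := by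
  have h := grG_mul (S6e_x k T 4) (S6e_rw1 k T)
  rw [← map_mul, show dc 4 4 + dw = dz by decide] at h
  exact h

theorem S6e_rz2 (T : Finset (Fin 8)) : mvl (rz2 k) ∈ gr8 k 4 T dz := by
  have h := grG_mul (S6e_x k T 4) (S6e_rw2 k T)
  rw [← map_mul, show dc 4 4 + dw = dz by decide] at h
  exact h

theorem S6e_rz0 (T : Finset (Fin 8)) : mvl (rz0 k) ∈ gr8 k 4 T dz := by
  have h1 := grG_mul (S6e_x k T 5) (S6e_x k T 6)
  have h2 := grG_mul (grG_mul (S6e_x k T 4) (S6e_x k T 3)) (S6e_x k T 7)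
  rw [← map_mul, show dc 4 5 + dc 4 6 = ![0,-1,0,1] by decide] at h1
  rw [← map_mul, ← map_mul, show dc 4 4 + dc 4 3 + dc 4 7 = ![0,-1,0,1] by decide] at h2
  have h := grG_mul (S6e_x k T 3) (Submodule.add_mem _ h1 h2)
  rw [← map_add, ← map_mul, show dc 4 3 + ![0,-1,0,1] = dz by decide] at h
  exact h

theorem S6e_rz3 (T : Finset (Fin 8)) : mvl (rz3 k) ∈ gr8 k 4 T dz := by
  have h1 := grG_mul (S6e_x k T 5) (S6e_x k T 7)
  have h2 := grG_mul (grG_mul (S6e_x k T 4) (S6e_x k T 2)) (S6e_x k T 6)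
  rw [← map_mul, show dc 4 5 + dc 4 7 = ![0,-1,0,1] by decide] at h1
  rw [← map_mul, ← map_mul, show dc 4 4 + dc 4 2 + dc 4 6 = ![0,-1,0,1] by decide] at h2
  have h := grG_mul (S6e_x k T 2) (Submodule.add_mem _ h1 h2)
  rw [← map_add, ← map_mul, show dc 4 2 + ![0,-1,0,1] = dz by decide] at h
  exact h

theorem S6e_vx (c : Fin 5) (i : Fin 8) (hi : i.1 < 6) : vc k c i = xx k i := by
  match c, i, hi with
  | 0, 0, _ => rfl
  | 0, 1, _ => rfl
  | 0, 2, _ => rfl
  | 0, 3, _ => rfl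
  | 0, 4, _ => rfl
  | 0, 5, _ => rfl
  | 1, 0, _ => rfl
  | 1, 1, _ => rfl
  | 1, 2, _ => rfl
  | 1, 3, _ => rfl
  | 1, 4, _ => rfl
  | 1, 5, _ => rfl
  | 2, 0, _ => rfl
  | 2, 1, _ => rfl
  | 2, 2, _ => rfl
  | 2, 3, _ => rfl
  | 2, 4, _ => rfl
  | 2, 5, _ => rfl
  | 3, 0, _ => rfl
  | 3, 1, _ => rfl
  | 3, 2, _ => rfl
  | 3, 3, _ => rfl
  | 3, 4, _ => rfl
  | 3, 5, _ => rfl
  | 4, 0, _ => rfl
  | 4, 1, _ => rfl
  | 4, 2, _ => rfl
  | 4, 3, _ => rfl
  | 4, 4, _ => rfl
  | 4, 5, _ => rfl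

theorem S6e_dx (c : Fin 5) (i : Fin 8) (hi : i.1 < 6) : dc c i = dc 4 i := by
  revert c i
  decide


theorem S6e_vc6 (T : Finset (Fin 8)) (c : Fin 5) : mvl (vc k c 6) ∈ gr8 k 4 T (dc c 6) := by
  match c with
  | 0 =>
    rw [show vc k 0 6 = rz2 k from rfl, show dc 0 6 = dz by decide]
    exact S6e_rz2 k T
  | 1 =>
    rw [show vc k 1 6 = rw1 k from rfl, show dc 1 6 = dw by decide]
    exact S6e_rw1 k T
  | 2 =>
    rw [show vc k 2 6 = rz1 k from rfl, show dc 2 6 = dz by decide]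
    exact S6e_rz1 k T
  | 3 =>
    rw [show vc k 3 6 = rw2 k from rfl, show dc 3 6 = dw by decide]
    exact S6e_rw2 k T
  | 4 =>
    rw [show vc k 4 6 = xx k 6 from rfl]
    exact S6e_x k T 6

theorem S6e_vc7 (T : Finset (Fin 8)) (c : Fin 5) : mvl (vc k c 7) ∈ gr8 k 4 T (dc c 7) := by
  match c with
  | 0 =>
    rw [show vc k 0 7 = rz3 k from rfl, show dc 0 7 = dz by decide]
    exact S6e_rz3 k T
  | 1 =>
    rw [show vc k 1 7 = rz3 k from rfl, show dc 1 7 = dz by decide]
    exact S6e_rz3 k T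
  | 2 =>
    rw [show vc k 2 7 = rz0 k from rfl, show dc 2 7 = dz by decide]
    exact S6e_rz0 k T
  | 3 =>
    rw [show vc k 3 7 = rz0 k from rfl, show dc 3 7 = dz by decide]
    exact S6e_rz0 k T
  | 4 =>
    rw [show vc k 4 7 = xx k 7 from rfl]
    exact S6e_x k T 7

theorem S6e_vc (T : Finset (Fin 8)) (c : Fin 5) (i : Fin 8) :
    mvl (vc k c i) ∈ gr8 k 4 T (dc c i) := by
  by_cases hi : i.1 < 6
  · rw [S6e_vx k c i hi, S6e_dx c i hi]
    exact S6e_x k T i
  · have h : i = 6 ∨ i = 7 := by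
      revert i
      decide
    rcases h with rfl | rfl
    · exact S6e_vc6 k T c
    · exact S6e_vc7 k T c

theorem S6e_main (c : Fin 5) (T : Finset (Fin 8))
    (hT : ∀ i ∈ T, i.1 < 6) (D : Deg) :
    VV8 k c T D ≤ VV8 k 4 T D := by
  refine VV8_le_VV8 k c 4 T T (fun i => mvl (vc k c i))
    (fun i => AddMonoidAlgebra.single (Pi.single i (-1 : ℤ)) 1) (S6e_vc k T c)
    (fun i => S6e_bet k _) ?_ ?_ D
  · intro i hi
    rw [S6e_dx c i (hT i hi)]
    exact S6e_y k T i hi
  · intro i hi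
    show mvl (vc k c i) * _ = _
    rw [S6e_vx k c i (hT i hi)]
    exact S6e_xy k i

/-- coordinates of the chart `(u0,la)` in terms of `om1, om2` -/
theorem om0 (D : Deg) : VV8 k 0 {2,4} D ≤ VV8 k 4 {2,4} D := by
  exact S6e_main k 0 {2,4} (by decide) D

/-- coordinates of the chart `(u0,mu)` in terms of `om1, om2` -/
theorem om1 (D : Deg) : VV8 k 1 {2,5} D ≤ VV8 k 4 {2,5} D := by
  exact S6e_main k 1 {2,5} (by decide) D

/-- coordinates of the chart `(u1,la)` in terms of `om1, om2` -/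
theorem om2 (D : Deg) : VV8 k 2 {3,4} D ≤ VV8 k 4 {3,4} D := by
  exact S6e_main k 2 {3,4} (by decide) D

/-- coordinates of the chart `(u1,mu)` in terms of `om1, om2` -/
theorem om3 (D : Deg) : VV8 k 3 {3,5} D ≤ VV8 k 4 {3,5} D := by
  exact S6e_main k 3 {3,5} (by decide) D

/-- The Laurent polynomials `z0, z3, w1, w2` in the coordinates `u0,u1,la,mu,om1,om2` and their images. -/
theorem VV_gens : (algebraMap (R8 k) (KK k) (rz0 k) ∈ VV8 k 4 ∅ dz) ∧
    (algebraMap (R8 k) (KK k) (rz3 k) ∈ VV8 k 4 ∅ dz) ∧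
    (algebraMap (R8 k) (KK k) (rw1 k) ∈ VV8 k 4 ∅ dw) ∧
    (algebraMap (R8 k) (KK k) (rw2 k) ∈ VV8 k 4 ∅ dw) := by
  exact ⟨⟨mvl (rz0 k), S6e_rz0 k ∅, S6e_bet k _⟩, ⟨mvl (rz3 k), S6e_rz3 k ∅, S6e_bet k _⟩,
    ⟨mvl (rw1 k), S6e_rw1 k ∅, S6e_bet k _⟩, ⟨mvl (rw2 k), S6e_rw2 k ∅, S6e_bet k _⟩⟩

end MPbd3808.BR.SX
end
end

section

/-!
# TASK S4c: the kernel of `Phi` on a full chart

* `ker_Phi`: let `p ∈ gr k σ c`, `Phi k p = 0`. By `exists_shift` and regularity of `p` on `σ`, for `N` large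
  `mon (pw σ N) * p = mvl P` (`exists_mvl`: the exponents outside `σ` are `≥ 0` anyway, those in `σ` are increased by `N`), so `rs k P = 0`
  (`Phi_mvl`, injectivity of `algebraMap`). Let `m = px i * px j` with `i ∈ {2,3} ∩ σ`, `j ∈ {4,5} ∩ σ` (`exists_base`): by `kerP0, …, kerP3`
  `m^M * P = a * pD0 + b * pD1` (`Ideal.mem_span_pair`). Apply `mvl` (`mvl_pD0`, `mvl_pD1`): `mvl (m^M)` is a monomial with exponents
  supported in `σ` (`mvl_px_mul2`, `AddMonoidAlgebra.single_pow`); multiply by the inverse monomials: `p = D1 * q + D0 * r` with `q, r` regular on `σ`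
  (`mvl_coeff_nonneg` and the inverse monomial is supported in `σ`); use `mem_idl_of_eq`.
-/

set_option autoImplicit false

noncomputable section

open CategoryTheory CategoryTheory.Limits

namespace MPbd3808.BR.SX

universe u v w

variable (k : Type u) [Field k]

/-- The kernel of `Phi` on the elements regular on a full chart is the ideal of `E`. -/
theorem ker_Phi {σ : Finset Vr} (hσ : Full σ) (c : Deg) (p : A k) (hp : p ∈ gr k σ c)
    (h : Phi k p = 0) : p ∈ idl (GE k) σ c := by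
  classical
  -- step 1: a polynomial
  obtain ⟨N, hN⟩ := exists_shift p
  have hreg : ∀ e, p.coeff e ≠ 0 → ∀ v, 0 ≤ (pw σ N + e) v := by
    intro e he v
    by_cases hv : v ∈ σ
    · have h1 := hN (fun _ => (N : ℤ)) (fun _ => le_rfl) e he v
      have h2 : pw σ N v = N := by simp [pw, hv]
      simpa [h2] using h1
    · have h1 := (hp e he).1 v hv
      have h2 : pw σ N v = 0 := by simp [pw, hv]
      simpa [h2] using h1
  obtain ⟨P, hP⟩ := exists_mvl (mon (pw σ N) * p : A k) (by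
    intro e he v
    rw [AddMonoidAlgebra.coeff_single_mul_apply, one_mul] at he
    have h1 := hreg _ he v
    have h2 : pw σ N + (-pw σ N + e) = e := by abel
    rwa [h2] at h1)
  have h1 : rs k P = 0 := by
    have h2 : Phi k (mvl P) = 0 := by rw [hP, map_mul, h, mul_zero]
    rw [Phi_mvl] at h2
    exact (FaithfulSMul.algebraMap_eq_zero_iff (R8 k) (KK k)).1 h2
  -- step 2: the kernel on a base chart
  have h3 : ∃ i ∈ σ, ∃ j ∈ σ, ∃ M : ℕ, (px k i * px k j) ^ M * P ∈ IE k := by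
    obtain ⟨h4, h5⟩ := exists_base hσ
    rcases h4 with h4 | h4 <;> rcases h5 with h5 | h5
    · exact ⟨2, h4, 4, h5, kerP0 k P h1⟩
    · exact ⟨2, h4, 5, h5, kerP1 k P h1⟩
    · exact ⟨3, h4, 4, h5, kerP2 k P h1⟩
    · exact ⟨3, h4, 5, h5, kerP3 k P h1⟩
  obtain ⟨i, hi, j, hj, M, hM⟩ := h3
  obtain ⟨a, b, hab⟩ := Ideal.mem_span_pair.1 hM
  set E : Ex := M • (Pi.single i 1 + Pi.single j 1 : Ex) + pw σ N with hE
  have hE0 : ∀ v, v ∉ σ → E v = 0 := by
    intro v hv
    have hvi : v ≠ i := fun h => hv (h ▸ hi)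
    have hvj : v ≠ j := fun h => hv (h ▸ hj)
    simp [hE, pw, hv, hvi, hvj]
  have h6 : mvl a * D0 k + mvl b * D1 k = mon E * p := by
    have h7 := congrArg (fun x => (mvl x : A k)) hab
    simp only [map_add, map_mul (mvl : MvPolynomial Vr k →ₐ[k] A k) a,
      map_mul (mvl : MvPolynomial Vr k →ₐ[k] A k) b, mvl_pD0, mvl_pD1] at h7
    rw [h7, map_mul, map_pow, mvl_px_mul2, hP, mon, AddMonoidAlgebra.single_pow, one_pow,
      ← mul_assoc, mon, AddMonoidAlgebra.single_mul_single, one_mul]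
  have h8 : (mon (-E) * mon E : A k) = 1 := by
    rw [mon, mon, AddMonoidAlgebra.single_mul_single, one_mul, neg_add_cancel,
      AddMonoidAlgebra.one_def]
  have hr : ∀ (x : MvPolynomial Vr k) (e : Ex), (mon (-E) * mvl x : A k).coeff e ≠ 0 →
      Reg σ e := by
    intro x e he v hv
    rw [AddMonoidAlgebra.coeff_single_mul_apply, one_mul, neg_neg] at he
    have h9 := mvl_coeff_nonneg x _ he v
    have h10 : (E + e) v = e v := by
      rw [Pi.add_apply, hE0 v hv, zero_add]
    rwa [h10] at h9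
  refine mem_idl_of_eq k σ c p (mon (-E) * mvl b) (mon (-E) * mvl a) hp ?_ (hr b) (hr a)
  calc p = (mon (-E) * mon E) * p := by rw [h8, one_mul]
    _ = mon (-E) * (mvl a * D0 k + mvl b * D1 k) := by rw [h6, mul_assoc]
    _ = D1 k * (mon (-E) * mvl b) + D0 k * (mon (-E) * mvl a) := by ring

end MPbd3808.BR.SX
end
end

section

/-!
# TASK P3: local sheaves are acyclic
-/

open CategoryTheory CategoryTheory.Limits

namespace MPbd3808.BR

universe u
variable (k : Type u) [Field k]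

/-- The action of a homogeneous polynomial on `L_J X` is its action on `X`. -/
theorem mP_loc_aux (J : Finset Vr) (X : FunCat k) (σ : Finset Vr) (hσ : Full σ) (a c : Deg)
    (p : A k) (hp : p ∈ gr k ∅ c) (x : X.obj (Ob.mk (σ ∪ J) (hσ.mono Finset.subset_union_left) a)) :
    mP ((locF k J).obj X) (Ob.mk σ hσ a) (Ob.mk σ hσ (a + c)) p x =
      mP X (Ob.mk (σ ∪ J) (hσ.mono Finset.subset_union_left) a)
        (Ob.mk (σ ∪ J) (hσ.mono Finset.subset_union_left) (a + c)) p x := by
  have key : (p.coeff.sum fun e c' => c' • mE ((locF k J).obj X) (Ob.mk σ hσ a) (Ob.mk σ hσ (a + c)) e) =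
      (p.coeff.sum fun e c' => c' • mE X (Ob.mk (σ ∪ J) (hσ.mono Finset.subset_union_left) a)
        (Ob.mk (σ ∪ J) (hσ.mono Finset.subset_union_left) (a + c)) e :
        X.obj (Ob.mk (σ ∪ J) (hσ.mono Finset.subset_union_left) a) →ₗ[k]
        X.obj (Ob.mk (σ ∪ J) (hσ.mono Finset.subset_union_left) (a + c))) := by
    refine Finsupp.sum_congr fun e he => ?_
    have he' : p.coeff e ≠ 0 := Finsupp.mem_support_iff.1 he
    obtain ⟨h1, h2⟩ := hp e he'
    have hm := mE_eq ((locF k J).obj X) (U := Ob.mk σ hσ a) (V := Ob.mk σ hσ (a + c))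
      (Mor.mk e (Finset.Subset.refl _) (h1.mono (Finset.empty_subset _)) (h2.trans (add_sub_cancel_left a c).symm))
    have hm' := mE_eq X (U := Ob.mk (σ ∪ J) (hσ.mono Finset.subset_union_left) a)
      (V := Ob.mk (σ ∪ J) (hσ.mono Finset.subset_union_left) (a + c))
      (Mor.mk e (Finset.Subset.refl _) (h1.mono (Finset.empty_subset _)) (h2.trans (add_sub_cancel_left a c).symm))
    exact congrArg (p.coeff e • ·) (hm.trans hm'.symm)
  exact LinearMap.congr_fun key x

/-- Let `J` be full. For every epimorphism `q : X ⟶ QQ G b` of functors (pointwise surjective) the unit of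
`QQ G b` lifts to `L_J X`, provided the elements `g ∈ G` act as zero on `X`.

PROOF. Choose `y ∈ X(J,-b)` with `q(y) = oneQ`. Put `x_σ := res y ∈ X(σ ∪ J, -b) = (L_J X)(σ,-b)` (restriction
`J ⊆ σ ∪ J`): compatible, killed by `G`. `homQQ_exists` gives `s : QQ G b ⟶ L_J X`, and `s ≫ L_J q` sends `1` to
`q(res y) = res (oneQ J) = oneQ (σ ∪ J)`, which is the image of `oneQ σ` under the unit (naturality; `homQQ_compat` for
`𝟙`); `homQQ_ext`. The degrees are the same `-b` on both sides. -/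
theorem exists_lift_unit (G : List (A k × Deg)) (hG : ∀ g ∈ G, g.1 ∈ gr k ∅ g.2) (b : Deg)
    {J : Finset Vr} (hJ : Full J) (X : FunCat k)
    (h0 : ∀ g ∈ G, ∀ (U : Ob) (x : X.obj U), mP X U (Ob.mk U.σ U.full (U.a + g.2)) g.1 x = 0)
    (q : X ⟶ QQ G b) (hq : ∀ U, Function.Surjective (q.app U).hom) :
    ∃ s : QQ G b ⟶ (locF k J).obj X, s ≫ (locF k J).map q = (unitF k J).app (QQ G b) := by

  obtain ⟨y, hy⟩ := hq (Ob.mk J hJ (-b)) (oneQ G b J hJ)
  let x : ∀ (σ : Finset Vr) (hσ : Full σ), ((locF k J).obj X).obj (Ob.mk σ hσ (-b)) := fun σ hσ =>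
    (X.map (res hJ (hσ.mono Finset.subset_union_left) Finset.subset_union_right (-b) :
      Ob.mk J hJ (-b) ⟶ Ob.mk (σ ∪ J) (hσ.mono Finset.subset_union_left) (-b))).hom y
  obtain ⟨s, hs⟩ := homQQ_exists G hG b ((locF k J).obj X) x (fun σ τ hσ hτ hst => by
      change (X.map ((locOb J).map (res hσ hτ hst (-b)))).hom ((X.map _).hom y) = (X.map _).hom y
      rw [← LinearMap.comp_apply, ← ModuleCat.hom_comp, ← X.map_comp]
      exact congrArg (fun m => (X.map m).hom y) (hom_ext (add_zero _)))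
    (fun g hg σ hσ => (mP_loc_aux k J X σ hσ (-b) g.2 g.1 (hG g hg) (x σ hσ)).trans
      (h0 g hg (Ob.mk (σ ∪ J) (hσ.mono Finset.subset_union_left) (-b)) (x σ hσ)))
  refine ⟨s, homQQ_ext G b fun σ hσ => ?_⟩
  have h1 : ((s ≫ (locF k J).map q).app (Ob.mk σ hσ (-b))).hom (oneQ G b σ hσ) =
      (q.app (Ob.mk (σ ∪ J) (hσ.mono Finset.subset_union_left) (-b))).hom (x σ hσ) := by
    rw [← hs σ hσ]
    rfl
  have h2 : (((unitF k J).app (QQ G b)).app (Ob.mk σ hσ (-b))).hom (oneQ G b σ hσ) =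
      oneQ G b (σ ∪ J) (hσ.mono Finset.subset_union_left) := by
    refine Eq.trans ?_ (homQQ_compat G b (𝟙 (QQ G b)) hσ (hσ.mono Finset.subset_union_left)
      (Finset.subset_union_left (s₂ := J)))
    rfl
  have h3 : (q.app (Ob.mk (σ ∪ J) (hσ.mono Finset.subset_union_left) (-b))).hom (x σ hσ) =
      ((QQ G b).map (res hJ (hσ.mono Finset.subset_union_left) Finset.subset_union_right (-b) :
      Ob.mk J hJ (-b) ⟶ Ob.mk (σ ∪ J) (hσ.mono Finset.subset_union_left) (-b))).hom
        ((q.app (Ob.mk J hJ (-b))).hom y) := by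
    have := q.naturality (res hJ (hσ.mono Finset.subset_union_left) Finset.subset_union_right (-b) :
      Ob.mk J hJ (-b) ⟶ Ob.mk (σ ∪ J) (hσ.mono Finset.subset_union_left) (-b))
    exact LinearMap.congr_fun (congrArg ModuleCat.Hom.hom this) y
  rw [h1, h2, h3, hy]
  exact homQQ_compat G b (𝟙 (QQ G b)) hJ (hσ.mono Finset.subset_union_left) Finset.subset_union_right

/-- PROOF. `extAc_of_local` with `L = locT k J`, `η = unitT k J`, `exists_lift_unit` for `G = []`
(epi = pointwise surjective: `epi_iff_pw`; `isIso_iff_pw`). -/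
theorem extAc_PT_of_local {J : Finset Vr} (hJ : Full J) (b : Deg) (X : QCohT k)
    (hX : ∀ U, Function.Bijective (((unitF k J).app X.obj).app U).hom) :
    ExtAc.{u+1} (PT k b) X := by

  have : IsIso ((unitT k J).app X) := (isIso_iff_pw (isLoc k) _).2 hX
  refine extAc_of_local (locT k J) (unitT k J) (PT k b) (fun P q hq => ?_) X
  obtain ⟨s, hs⟩ := exists_lift_unit k [] (by simp) b hJ P.obj (by simp) q.hom
    ((epi_iff_pw (isLoc k) q).1 hq)
  exact ⟨(isLoc k).homMk s, (isLoc k).ι.map_injective hs⟩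

/-- PROOF. The same in `QCohW k`, `G = [(fP k, dF)]` (`mP_fP` with `q = 1`). -/
theorem extAc_OM_of_local {J : Finset Vr} (hJ : Full J) (b : Deg) (X : QCohW k)
    (hX : ∀ U, Function.Bijective (((unitF k J).app X.obj).app U).hom) :
    ExtAc.{u+1} (OM k b) X := by

  have : IsIso ((unitW k J).app X) := (isIso_iff_pw (isQC k) _).2 hX
  refine extAc_of_local (locW k J) (unitW k J) (OM k b) (fun P q hq => ?_) X
  obtain ⟨s, hs⟩ := exists_lift_unit k [(fP k, dF)] (by simpa using fP_mem) b hJ P.obj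
    (fun g hg U x => by
      obtain rfl : g = (fP k, dF) := by simpa using hg
      have := mP_fP P.obj P.property.1 (U := U) (V := Ob.mk U.σ U.full (U.a + dF))
        (Finset.Subset.refl _) (q := 1) (by
          have h := one_mem_gr (k := k) U.σ
          rwa [show (0 : Deg) = (Ob.mk U.σ U.full (U.a + dF)).a - U.a - dF by
            change (0 : Deg) = U.a + dF - U.a - dF
            abel] at h) x
      rwa [mul_one] at this) q.hom
    ((epi_iff_pw (isQC k) q).1 hq)
  exact ⟨(isQC k).homMk s, (isQC k).ι.map_injective hs⟩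

/-- `L_J X` is `J`-local. PROOF. `X(σ ∪ J, a) → X(σ ∪ J ∪ J, a)` is `X.map` of an isomorphism of `Ob` (inverse: exponent
`0`, `σ ∪ J ∪ J ⊆ σ ∪ J`). -/
theorem unitF_loc_bijective (J : Finset Vr) (X : FunCat k) (U : Ob) :
    Function.Bijective (((unitF k J).app ((locF k J).obj X)).app U).hom := by

  have hle : U.σ ∪ J ∪ J ⊆ U.σ ∪ J := by
    rw [Finset.union_assoc, Finset.union_self]
  let V : Ob := Ob.mk (U.σ ∪ J) (U.full.mono Finset.subset_union_left) U.a
  let W : Ob := Ob.mk (U.σ ∪ J ∪ J) (V.full.mono Finset.subset_union_left) U.a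
  let f : V ⟶ W := res V.full W.full Finset.subset_union_left U.a
  let g : W ⟶ V := res W.full V.full hle U.a
  have hfg : f ≫ g = 𝟙 V := hom_ext (add_zero _)
  have hgf : g ≫ f = 𝟙 W := hom_ext (add_zero _)
  let I : V ≅ W := ⟨f, g, hfg, hgf⟩
  have hI : Function.Bijective (X.map f).hom :=
    ((X.mapIso I).toLinearEquiv).bijective
  exact hI

/-- PROOF. `EE N (σ ∪ J) = EE N (σ ∪ J ∪ J)`: again `PN(..).map` of an isomorphism of `Ob`; here the map
`(σ,a) → (σ ∪ J, a)` is `cutMap` with exponent `0` from `EE N (σ ∪ J) c` to `EE N (σ ∪ J ∪ J) c`, the same set. -/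
theorem unitF_PN_bijective (N J : Finset Vr) (b : Deg) (U : Ob) :
    Function.Bijective (((unitF k J).app (PN k N J b)).app U).hom := by

  have hE : EE N (U.σ ∪ J) (U.a + b) = EE N (U.σ ∪ J ∪ J) (U.a + b) := by
    rw [Finset.union_assoc, Finset.union_self]
  have key : ∀ E E' : Set Ex, E = E' → Function.Bijective (cutMap k E E' 0) := by
    rintro E _ rfl
    refine ⟨fun x y h => ?_, fun x => ⟨x, cutMap_self k E x⟩⟩
    rwa [cutMap_self, cutMap_self] at h
  exact key _ _ hE

end MPbd3808.BR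
end
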