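import Pool.Agent.Lib.MP_bd3808_ag.Mg.G014
import Pool.Agent.Lib.MP_bd3808_ag.Mg.G010
import Pool.Agent.Lib.MP_bd3808_ag.Mg.G015
import Pool.Agent.Lib.MP_bd3808_ag.Mg.G016

section

/-!
# TASK B9: regular sequences, homogeneous version
-/

open CategoryTheory CategoryTheory.Limits

namespace MPbd3808.BR

universe u
variable {k : Type u} [Field k]

private theorem B9_mono {σ τ : Finset Vr} (h : σ ⊆ τ) {p : A k} (hp : p ∈ AR k σ) : p ∈ AR k τ :=
  fun e he => (hp e he).mono h

private theorem B9_gr_AR {σ : Finset Vr} {c : Deg} {p : A k} (hp : p ∈ gr k σ c) : p ∈ AR k σ :=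
  ((mem_gr_iff σ c p).1 hp).1

private theorem B9_mon_ne (e : Ex) : (mon e : A k) ≠ 0 := by
  intro h
  have := (AddMonoidAlgebra.single_eq_zero (R := k) (m := e) (r := 1)).1 h
  exact one_ne_zero this

private theorem B9_cancel {x a b : A k} (hx : x ≠ 0) (h : x * a = x * b) : a = b := by
  have h1 : x * (a - b) = 0 := by rw [mul_sub, h, sub_self]
  rcases mul_eq_zero.1 h1 with h2 | h2
  · exact absurd h2 hx
  · exact sub_eq_zero.1 h2

private theorem B9_at0_coeff (v : Vr) (p : A k) (e : Ex) :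
    (at0 v p).coeff e = if e v = 0 then p.coeff e else 0 := by
  classical
  unfold at0
  rw [AddMonoidAlgebra.coeff_ofCoeff, Finsupp.filter_apply]

private theorem B9_ext {p q : A k} (h : ∀ e, p.coeff e = q.coeff e) : p = q :=
  AddMonoidAlgebra.coeff_injective (Finsupp.ext h)

private theorem B9_at0_gr {σ : Finset Vr} {c : Deg} {p : A k} (v : Vr) (hp : p ∈ gr k σ c) :
    at0 v p ∈ gr k σ c := by
  intro e he
  rw [B9_at0_coeff] at he
  split_ifs at he
  · exact hp e he
  · exact absurd rfl he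

private theorem B9_at0_sub (v : Vr) (p q : A k) : at0 v (p - q) = at0 v p - at0 v q := by
  refine B9_ext fun e => ?_
  rw [AddMonoidAlgebra.coeff_sub, Finsupp.sub_apply, B9_at0_coeff, B9_at0_coeff, B9_at0_coeff,
    AddMonoidAlgebra.coeff_sub, Finsupp.sub_apply]
  split_ifs
  · rfl
  · rw [sub_zero]

private theorem B9_at0_add (v : Vr) (p q : A k) : at0 v (p + q) = at0 v p + at0 v q := by
  refine B9_ext fun e => ?_
  rw [AddMonoidAlgebra.coeff_add, Finsupp.add_apply, B9_at0_coeff, B9_at0_coeff, B9_at0_coeff,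
    AddMonoidAlgebra.coeff_add, Finsupp.add_apply]
  split_ifs
  · rfl
  · rw [add_zero]

private theorem B9_at0_zero (v : Vr) : at0 v (0 : A k) = 0 := by
  refine B9_ext fun e => ?_
  rw [B9_at0_coeff]
  simp

private theorem B9_at0_idem (v : Vr) (p : A k) : at0 v (at0 v p) = at0 v p := by
  refine B9_ext fun e => ?_
  rw [B9_at0_coeff, B9_at0_coeff]
  split_ifs <;> rfl

private theorem B9_at0_mon (v : Vr) {e : Ex} (he : e v = 0) : at0 v (mon e : A k) = mon e := by
  refine B9_ext fun g => ?_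
  rw [B9_at0_coeff]
  split_ifs with h
  · rfl
  · rw [AddMonoidAlgebra.coeff_single, Finsupp.single_apply, if_neg]
    rintro rfl
    exact h he

private theorem B9_single_AR (σ : Finset Vr) (v : Vr) :
    (mon (Pi.single v 1) : A k) ∈ AR k σ := by
  intro e he w _
  by_cases h : (Pi.single v 1 : Ex) = e
  · rw [← h]
    by_cases hv : w = v
    · rw [hv, Pi.single_eq_same]
      norm_num
    · rw [Pi.single_eq_of_ne hv]
  · exfalso
    apply he
    rw [AddMonoidAlgebra.coeff_single, Finsupp.single_apply, if_neg h]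

private theorem B9_at0_var {σ : Finset Vr} {v : Vr} (hv : v ∉ σ) {p : A k} (hp : p ∈ AR k σ) :
    at0 v (mon (Pi.single v 1) * p) = 0 :=
  (at0_eq_zero_iff hv ((AR k σ).mul_mem (B9_single_AR σ v) hp)).2 ⟨p, hp, rfl⟩

private theorem B9_mem_cons (g : A k × Deg) (G : List (A k × Deg)) (σ : Finset Vr) (c : Deg)
    (q : A k) : q ∈ idl (g :: G) σ c ↔
      ∃ r ∈ gr k σ (c - g.2), ∃ q' ∈ idl G σ c, q = g.1 * r + q' := by
  constructor
  · intro h
    obtain ⟨y, ⟨r, hr, rfl⟩, q', hq', rfl⟩ := Submodule.mem_sup.1 h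
    exact ⟨r, hr, q', hq', rfl⟩
  · rintro ⟨r, hr, q', hq', rfl⟩
    exact Submodule.add_mem_sup ⟨r, hr, rfl⟩ hq'

private theorem B9_mem_nil (σ : Finset Vr) (c : Deg) (q : A k) :
    q ∈ idl ([] : List (A k × Deg)) σ c ↔ q = 0 := Iff.rfl

private theorem B9_mem_one (g : A k × Deg) (σ : Finset Vr) (c : Deg)
    (q : A k) : q ∈ idl [g] σ c ↔ ∃ r ∈ gr k σ (c - g.2), q = g.1 * r := by
  rw [B9_mem_cons]
  constructor
  · rintro ⟨r, hr, q', hq', rfl⟩
    rw [B9_mem_nil] at hq'
    exact ⟨r, hr, by rw [hq', add_zero]⟩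
  · rintro ⟨r, hr, rfl⟩
    exact ⟨r, hr, 0, (B9_mem_nil σ c 0).2 rfl, by rw [add_zero]⟩

private theorem B9_gr_sub {σ : Finset Vr} {c : Deg} {p q : A k} (hp : p ∈ gr k σ c)
    (hq : q ∈ gr k σ c) : p - q ∈ gr k σ c := Submodule.sub_mem _ hp hq

/-- PROOF. Let `q'` be the part of `q` of degree `c` (filter of the coefficients by `degE e = c`). The part of degree
`d + c` of `p * q` is `p * q'` (`p` is homogeneous of degree `d`), so `p * q = p * q'` and `q = q'` (domain). -/
theorem mem_gr_of_mul_mem {σ : Finset Vr} {c d : Deg} {p q : A k} (hp : p ∈ gr k ∅ d) (h0 : p ≠ 0)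
    (hq : q ∈ AR k σ) (h : p * q ∈ gr k σ (c + d)) : q ∈ gr k σ c := by
  classical
  obtain ⟨r, hr⟩ : ∃ r : A k, r =
    AddMonoidAlgebra.ofCoeff (q.coeff.filter fun e => degE e ≠ c) := ⟨_, rfl⟩
  have hrc : ∀ e, r.coeff e = if degE e ≠ c then q.coeff e else 0 := by
    intro e
    rw [hr, AddMonoidAlgebra.coeff_ofCoeff, Finsupp.filter_apply]
  have hpr : p * r = 0 := by
    refine B9_ext fun g => ?_
    rw [AddMonoidAlgebra.coeff_mul_apply_left]
    by_cases hg : degE g = c + d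
    · rw [Finsupp.sum]
      rw [Finset.sum_eq_zero]
      · rfl
      · intro e he
        have h1 := (hp e (Finsupp.mem_support_iff.1 he)).2
        have h2 : degE (-e + g) = c := by
          rw [degE_add, degE_neg, h1, hg]
          abel
        rw [hrc, if_neg (not_not.2 h2), mul_zero]
    · have h3 : (p * q).coeff g = 0 := by
        by_contra h4
        exact hg (h g h4).2
      rw [AddMonoidAlgebra.coeff_mul_apply_left] at h3
      rw [show (0 : A k).coeff g = 0 from rfl, ← h3, Finsupp.sum, Finsupp.sum]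
      refine Finset.sum_congr rfl fun e he => ?_
      have h1 := (hp e (Finsupp.mem_support_iff.1 he)).2
      have h2 : degE (-e + g) ≠ c := by
        intro h5
        apply hg
        rw [degE_add, degE_neg, h1] at h5
        rw [← h5]
        abel
      rw [hrc, if_pos h2]
  have hr0 : r = 0 := by
    rcases mul_eq_zero.1 hpr with h1 | h1
    · exact absurd h1 h0
    · exact h1
  refine (mem_gr_iff σ c q).2 ⟨hq, fun e he => ?_⟩
  by_contra hc
  have h1 := hrc e
  rw [if_pos hc, hr0] at h1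
  exact he h1.symm

/-- A nonzero homogeneous polynomial is regular. PROOF. `idl [] = ⊥`, domain. -/
theorem regMod_nil (σ : Finset Vr) {g : A k} (d : Deg) (h0 : g ≠ 0) : RegMod [] σ g d := by
  intro c q hq h
  rw [B9_mem_nil] at h ⊢
  rcases mul_eq_zero.1 h with h1 | h1
  · exact absurd h1 h0
  · exact h1

/-- `D1` is regular modulo `D0`.

PROOF. `q ∈ gr σ c`, `D1 * q = D0 * c'` with `c' ∈ gr`; `q = D0 * c''` (`D0_dvd_of_dvd_D1_mul`), and `c''` is
homogeneous (`mem_gr_of_mul_mem`). -/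
theorem regMod_D1 (σ : Finset Vr) : RegMod [(D0 k, dD)] σ (D1 k) dD := by
  intro c q hq h
  rw [B9_mem_one] at h ⊢
  obtain ⟨r, hr, h1⟩ := h
  obtain ⟨c'', hc'', h2⟩ := D0_dvd_of_dvd_D1_mul (B9_gr_AR hq) (B9_gr_AR hr) h1
  refine ⟨c'', ?_, h2⟩
  refine mem_gr_of_mul_mem D0_mem D0_ne_zero hc'' ?_
  rw [← h2]
  change q ∈ gr k σ (c - dD + dD)
  rw [sub_add_cancel]
  exact hq

/-- A variable `v` is regular modulo one polynomial `g` with `g|_{x_v = 0} ≠ 0`.

PROOF. `x_v q = g c'`; `var_dvd` gives `c' = x_v c''`, so `q = g c''` (domain) and `c''` is homogeneous. -/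
theorem regMod_var (σ : Finset Vr) (v : Vr) {g : A k} {d : Deg} (hg : g ∈ gr k ∅ d)
    (h0 : at0 v g ≠ 0) : RegMod [(g, d)] σ (mon (Pi.single v 1)) (dg v) := by
  intro c q hq h
  rw [B9_mem_one] at h ⊢
  obtain ⟨r, hr, h1⟩ := h
  have h1' : mon (Pi.single v 1) * q = g * r := h1
  have hg0 : g ≠ 0 := by
    rintro rfl
    exact h0 (B9_at0_zero v)
  obtain ⟨c'', hc'', h2⟩ := var_dvd v (B9_mono (Finset.empty_subset σ) (B9_gr_AR hg)) h0
    (B9_gr_AR hq) (B9_gr_AR hr) h1'
  have h3 : q = g * c'' := by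
    apply B9_cancel (B9_mon_ne (Pi.single v 1))
    rw [h1', h2]
    ring
  refine ⟨c'', ?_, h3⟩
  refine mem_gr_of_mul_mem hg hg0 hc'' ?_
  rw [← h3]
  change q ∈ gr k σ (c - d + d)
  rw [sub_add_cancel]
  exact hq

/-- `degE [v] = dg v`. -/
theorem degE_single (v : Vr) : degE (Pi.single v 1) = dg v := by
  unfold degE
  rw [Finset.sum_eq_single v]
  · rw [Pi.single_eq_same, one_smul]
  · intro w _ hw
    rw [Pi.single_eq_of_ne hw, zero_smul]
  · intro h
    exact absurd (Finset.mem_univ v) h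

theorem mon_single_mem (v : Vr) : (mon (Pi.single v 1) : A k) ∈ gr k ∅ (dg v) := by
  refine (mem_gr_iff ∅ (dg v) _).2 ⟨B9_single_AR ∅ v, fun e he => ?_⟩
  by_cases h : (Pi.single v 1 : Ex) = e
  · rw [← h, degE_single]
  · exfalso
    apply he
    rw [AddMonoidAlgebra.coeff_single, Finsupp.single_apply, if_neg h]

private theorem B9_unit {σ : Finset Vr} {v : Vr} (hv : v ∈ σ) {c : Deg} {q : A k}
    (hq : q ∈ gr k σ c) : ∃ r ∈ gr k σ (c - dg v), q = mon (Pi.single v 1) * r := by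
  obtain ⟨r, hr, h⟩ := AR_div hv (B9_gr_AR hq)
  refine ⟨r, ?_, h⟩
  refine mem_gr_of_mul_mem (mon_single_mem v) (B9_mon_ne _) hr ?_
  rw [← h, sub_add_cancel]
  exact hq

private theorem B9_var_gr {σ : Finset Vr} {v : Vr} {c : Deg} {r : A k} (hr : r ∈ AR k σ)
    (h : mon (Pi.single v 1) * r ∈ gr k σ c) : r ∈ gr k σ (c - dg v) := by
  refine mem_gr_of_mul_mem (mon_single_mem v) (B9_mon_ne _) hr ?_
  rw [sub_add_cancel]
  exact h

private theorem B9_fP_coeff : (fP k).coeff (fE 0) = 1 := by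
  unfold fP
  rw [AddMonoidAlgebra.coeff_sum, Finsupp.finsetSum_apply, Finset.sum_eq_single 0]
  · rw [AddMonoidAlgebra.coeff_smul_apply, AddMonoidAlgebra.coeff_single, Finsupp.single_apply,
      if_pos rfl]
    simp [fC]
  · intro i _ hi
    rw [AddMonoidAlgebra.coeff_smul_apply, AddMonoidAlgebra.coeff_single, Finsupp.single_apply,
      if_neg ((by decide : ∀ i : Fin 6, i ≠ 0 → fE i ≠ fE 0) i hi), smul_zero]
  · intro h
    exact absurd (Finset.mem_univ _) h

private theorem B9_ne_of_coeff {p : A k} {e : Ex} (h : p.coeff e = 1) : p ≠ 0 := by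
  rintro rfl
  exact zero_ne_one (α := k) h

private theorem B9_at0_AR {σ : Finset Vr} {p : A k} (v : Vr) (hp : p ∈ AR k σ) :
    at0 v p ∈ AR k σ := by
  intro e he
  rw [B9_at0_coeff] at he
  split_ifs at he
  · exact hp e he
  · exact absurd rfl he

private theorem B9_fP_AR (σ : Finset Vr) : fP k ∈ AR k σ :=
  B9_mono (Finset.empty_subset σ) (B9_gr_AR fP_mem)

/-- `z1` is regular modulo `(f, z0)`; list `[(z0, h), (f, dF)]`.

PROOF. `z1 q = z0 a + f b`. If `z0 ∈ σ` (index 6): everything is in the ideal (`z0` is a unit,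
`q = z0 * (mon (-[6]) * q)`). Otherwise apply `at0 6` (multiplicative on `AR σ`): `z1 q̄ = f̄ b̄`, `f̄ = at0 6 f`; as
`at0 7 f̄ ≠ 0`, `var_dvd` for `v = 7` (with `g = f̄`) gives `b̄ = z1 b'`, `q̄ = f̄ b'` (we may take `b'` free of `z0`:
replace it by `at0 6 b'`). Then `q - f b' ` has `at0 6 = q̄ - f̄ b' = 0`, so `q = f b' + z0 a'` (`at0_eq_zero_iff`). Take
homogeneous parts (or use `mem_gr_of_mul_mem` after choosing `b'` homogeneous: `f̄` is homogeneous, `q̄` is). -/
theorem regMod_z1 (σ : Finset Vr) :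
    RegMod [(mon (Pi.single 6 1), dg 6), (fP k, dF)] σ (mon (Pi.single 7 1)) (dg 7) := by
  intro c q hq h
  rw [B9_mem_cons] at h ⊢
  by_cases h6 : (6 : Vr) ∈ σ
  · obtain ⟨r, hr, h1⟩ := B9_unit h6 hq
    exact ⟨r, hr, 0, Submodule.zero_mem _, by rw [add_zero]; exact h1⟩
  obtain ⟨a, ha, b', hb', h1⟩ := h
  rw [B9_mem_one] at hb'
  obtain ⟨b, hb, rfl⟩ := hb'
  have ha' : a ∈ AR k σ := B9_gr_AR ha
  have hb' : b ∈ AR k σ := B9_gr_AR hb
  have hq' : q ∈ AR k σ := B9_gr_AR hq
  have h2 : (mon (Pi.single 7 1) : A k) * at0 6 q = at0 6 (fP k) * at0 6 b := by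
    have h3 := congrArg (at0 6) h1
    rw [at0_mul h6 (B9_single_AR σ 7) hq', B9_at0_add, at0_mul h6 (B9_fP_AR σ) hb'] at h3
    change at0 6 (mon (Pi.single 7 1)) * at0 6 q = at0 6 (mon (Pi.single 6 1) * a) + _ at h3
    rw [B9_at0_var h6 ha', zero_add, B9_at0_mon 6 (by decide)] at h3
    exact h3
  have hf0 : at0 7 (at0 6 (fP k)) ≠ 0 := by
    apply B9_ne_of_coeff (e := fE 0)
    rw [B9_at0_coeff, if_pos (by decide), B9_at0_coeff, if_pos (by decide), B9_fP_coeff]
  have hf1 : at0 6 (fP k) ≠ 0 := by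
    apply B9_ne_of_coeff (e := fE 0)
    rw [B9_at0_coeff, if_pos (by decide), B9_fP_coeff]
  obtain ⟨b1, hb1, h4⟩ := var_dvd 7 (B9_at0_AR 6 (B9_fP_AR σ)) hf0 (B9_at0_AR 6 hq')
    (B9_at0_AR 6 hb') h2
  have h5 : at0 6 q = at0 6 (fP k) * b1 := by
    apply B9_cancel (B9_mon_ne (Pi.single 7 1))
    rw [h2, h4]
    ring
  have hb1g : b1 ∈ gr k σ (c - dF) := by
    refine mem_gr_of_mul_mem (B9_at0_gr 6 fP_mem) hf1 hb1 ?_
    rw [← h5, sub_add_cancel]
    exact B9_at0_gr 6 hq
  have h6' : at0 6 q = at0 6 (fP k) * at0 6 b1 := by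
    have := congrArg (at0 6) h5
    rw [B9_at0_idem, at0_mul h6 (B9_at0_AR 6 (B9_fP_AR σ)) hb1, B9_at0_idem] at this
    exact this
  have hfb : fP k * at0 6 b1 ∈ gr k σ c := by
    have := mul_mem_gr (gr_mono (Finset.empty_subset σ) dF fP_mem) (B9_at0_gr 6 hb1g)
    rwa [add_sub_cancel] at this
  have h7 : at0 6 (q - fP k * at0 6 b1) = 0 := by
    rw [B9_at0_sub, at0_mul h6 (B9_fP_AR σ) (B9_at0_AR 6 hb1), B9_at0_idem, h6', sub_self]
  have h8 := B9_gr_sub hq hfb
  obtain ⟨a1, ha1, h9⟩ := (at0_eq_zero_iff h6 (B9_gr_AR h8)).1 h7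
  rw [h9] at h8
  refine ⟨a1, B9_var_gr ha1 h8, fP k * at0 6 b1, ?_, ?_⟩
  · rw [B9_mem_one]
    exact ⟨at0 6 b1, B9_at0_gr 6 hb1g, rfl⟩
  · change q = mon (Pi.single 6 1) * a1 + _
    rw [← h9, sub_add_cancel]

/-- `z2` is regular modulo `(f, z0, z1)`. PROOF. The same with `at0 6 ∘ at0 7`; `f̄ = at0 6 (at0 7 f)` and
`at0 8 f̄ ≠ 0` (the monomial `s0 la u1 z3`). -/
theorem regMod_z2 (σ : Finset Vr) :
    RegMod [(mon (Pi.single 7 1), dg 7), (mon (Pi.single 6 1), dg 6), (fP k, dF)] σ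
      (mon (Pi.single 8 1)) (dg 8) := by
  intro c q hq h
  by_cases h7 : (7 : Vr) ∈ σ
  · rw [B9_mem_cons]
    obtain ⟨r, hr, h1⟩ := B9_unit h7 hq
    exact ⟨r, hr, 0, Submodule.zero_mem _, by rw [add_zero]; exact h1⟩
  by_cases h6 : (6 : Vr) ∈ σ
  · rw [B9_mem_cons]
    obtain ⟨r, hr, h1⟩ := B9_unit h6 hq
    refine ⟨0, Submodule.zero_mem _, q, ?_, by rw [mul_zero, zero_add]⟩
    rw [B9_mem_cons]
    exact ⟨r, hr, 0, Submodule.zero_mem _, by rw [add_zero]; exact h1⟩
  rw [B9_mem_cons] at h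
  obtain ⟨a, ha, b', hb', h1⟩ := h
  rw [B9_mem_cons] at hb'
  obtain ⟨b, hb, e', he', rfl⟩ := hb'
  rw [B9_mem_one] at he'
  obtain ⟨e, he, rfl⟩ := he'
  have haA : a ∈ AR k σ := B9_gr_AR ha
  have hbA : b ∈ AR k σ := B9_gr_AR hb
  have heA : e ∈ AR k σ := B9_gr_AR he
  have hqA : q ∈ AR k σ := B9_gr_AR hq
  have hfA : fP k ∈ AR k σ := B9_fP_AR σ
  -- the double restriction
  have hE : ∀ {x y : A k}, x ∈ AR k σ → y ∈ AR k σ →
      at0 6 (at0 7 (x * y)) = at0 6 (at0 7 x) * at0 6 (at0 7 y) := by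
    intro x y hx hy
    rw [at0_mul h7 hx hy, at0_mul h6 (B9_at0_AR 7 hx) (B9_at0_AR 7 hy)]
  have hEE : ∀ {x : A k}, at0 6 (at0 7 (at0 6 (at0 7 x))) = at0 6 (at0 7 x) := by
    intro x
    refine B9_ext fun g => ?_
    simp only [B9_at0_coeff]
    split_ifs <;> rfl
  have h2 : (mon (Pi.single 8 1) : A k) * at0 6 (at0 7 q) =
      at0 6 (at0 7 (fP k)) * at0 6 (at0 7 e) := by
    have h3 := congrArg (fun x => at0 6 (at0 7 x)) h1
    change at0 6 (at0 7 (mon (Pi.single 8 1) * q)) = at0 6 (at0 7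
      (mon (Pi.single 7 1) * a + (mon (Pi.single 6 1) * b + fP k * e))) at h3
    rw [hE (B9_single_AR σ 8) hqA, B9_at0_add, B9_at0_add, B9_at0_add, B9_at0_add, hE hfA heA,
      B9_at0_var h7 haA, B9_at0_zero, zero_add, hE (B9_single_AR σ 6) hbA,
      B9_at0_mon 7 (e := Pi.single 8 1) (by decide), B9_at0_mon 6 (e := Pi.single 8 1) (by decide),
      B9_at0_mon 7 (e := Pi.single 6 1) (by decide)] at h3
    have h4 : at0 6 (mon (Pi.single 6 1) : A k) = 0 := by
      have := B9_at0_var (k := k) h6 (AR k σ).one_mem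
      rwa [mul_one] at this
    rw [h4, zero_mul, zero_add] at h3
    exact h3
  have hf0 : at0 8 (at0 6 (at0 7 (fP k))) ≠ 0 := by
    apply B9_ne_of_coeff (e := fE 0)
    rw [B9_at0_coeff, if_pos (by decide), B9_at0_coeff, if_pos (by decide), B9_at0_coeff,
      if_pos (by decide), B9_fP_coeff]
  have hf1 : at0 6 (at0 7 (fP k)) ≠ 0 := by
    apply B9_ne_of_coeff (e := fE 0)
    rw [B9_at0_coeff, if_pos (by decide), B9_at0_coeff, if_pos (by decide), B9_fP_coeff]
  obtain ⟨e1, he1, h4⟩ := var_dvd 8 (B9_at0_AR 6 (B9_at0_AR 7 hfA)) hf0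
    (B9_at0_AR 6 (B9_at0_AR 7 hqA)) (B9_at0_AR 6 (B9_at0_AR 7 heA)) h2
  have h5 : at0 6 (at0 7 q) = at0 6 (at0 7 (fP k)) * e1 := by
    apply B9_cancel (B9_mon_ne (Pi.single 8 1))
    rw [h2, h4]
    ring
  have he1g : e1 ∈ gr k σ (c - dF) := by
    refine mem_gr_of_mul_mem (B9_at0_gr 6 (B9_at0_gr 7 fP_mem)) hf1 he1 ?_
    rw [← h5, sub_add_cancel]
    exact B9_at0_gr 6 (B9_at0_gr 7 hq)
  obtain ⟨e2, he2⟩ : ∃ e2 : A k, e2 = at0 6 (at0 7 e1) := ⟨_, rfl⟩
  have he2g : e2 ∈ gr k σ (c - dF) := by rw [he2]; exact B9_at0_gr 6 (B9_at0_gr 7 he1g)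
  have h6' : at0 6 (at0 7 q) = at0 6 (at0 7 (fP k)) * at0 6 (at0 7 e2) := by
    have := congrArg (fun x => at0 6 (at0 7 x)) h5
    change at0 6 (at0 7 (at0 6 (at0 7 q))) = at0 6 (at0 7 (at0 6 (at0 7 (fP k)) * e1)) at this
    rw [hEE, hE (B9_at0_AR 6 (B9_at0_AR 7 hfA)) he1, hEE, ← he2] at this
    rw [this, he2, hEE]
  have hfe : fP k * e2 ∈ gr k σ c := by
    have := mul_mem_gr (gr_mono (Finset.empty_subset σ) dF fP_mem) he2g
    rwa [add_sub_cancel] at this
  have h8 := B9_gr_sub hq hfe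
  have h9 : at0 6 (at0 7 (q - fP k * e2)) = 0 := by
    rw [B9_at0_sub, B9_at0_sub, hE hfA (B9_gr_AR he2g), h6', sub_self]
  obtain ⟨a1, ha1, h10⟩ := (at0_eq_zero_iff h6 (B9_at0_AR 7 (B9_gr_AR h8))).1 h9
  have ha1g : a1 ∈ gr k σ (c - dg 6) := by
    apply B9_var_gr ha1
    rw [← h10]
    exact B9_at0_gr 7 h8
  have ha2g : at0 7 a1 ∈ gr k σ (c - dg 6) := B9_at0_gr 7 ha1g
  have hza : mon (Pi.single 6 1) * at0 7 a1 ∈ gr k σ c := by
    have := mul_mem_gr (gr_mono (Finset.empty_subset σ) (dg 6) (mon_single_mem (k := k) 6)) ha2g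
    rwa [add_sub_cancel] at this
  have h11 : at0 7 (q - fP k * e2 - mon (Pi.single 6 1) * at0 7 a1) = 0 := by
    rw [B9_at0_sub, at0_mul h7 (B9_single_AR σ 6) (B9_gr_AR ha2g), B9_at0_idem,
      ← at0_mul h7 (B9_single_AR σ 6) ha1, ← h10, B9_at0_idem, sub_self]
  have h12 := B9_gr_sub h8 hza
  obtain ⟨a3, ha3, h13⟩ := (at0_eq_zero_iff h7 (B9_gr_AR h12)).1 h11
  rw [h13] at h12
  rw [B9_mem_cons]
  refine ⟨a3, B9_var_gr ha3 h12, mon (Pi.single 6 1) * at0 7 a1 + fP k * e2, ?_, ?_⟩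
  · rw [B9_mem_cons]
    refine ⟨at0 7 a1, ha2g, fP k * e2, ?_, rfl⟩
    rw [B9_mem_one]
    exact ⟨e2, he2g, rfl⟩
  · change q = mon (Pi.single 7 1) * a3 + _
    rw [← h13]
    ring

end MPbd3808.BR
end

section

/-!
# TASK E0: the equation of the exceptional divisor, `ε = D0/s1 = -D1/s0`
-/

open CategoryTheory CategoryTheory.Limits

namespace MPbd3808.BR

universe u
variable {k : Type u} [Field k]

/-- the degree of `ε` -/
def dε : Deg := ![-1,0,1,1]

open Classical in
/-- multiplication by `ε` -/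
noncomputable def epsL (X : FunCat k) (U : Ob) : X.obj U →ₗ[k] X.obj ((twOb dε).obj U) :=
  if (1 : Vr) ∈ U.σ then mP X U ((twOb dε).obj U) (D0 k * mon (-Pi.single 1 1))
  else -(mP X U ((twOb dε).obj U) (D1 k * mon (-Pi.single 0 1)))

private theorem E0_mon {σ : Finset Vr} {c : Deg} {e : Ex} (h : Reg σ e) (hd : degE e = c) :
    (mon e : A k) ∈ gr k σ c := by
  intro e' he'
  by_cases h1 : e = e'
  · rw [← h1]; exact ⟨h, hd⟩
  · exact absurd (by rw [AddMonoidAlgebra.coeff_single, Finsupp.single_apply, if_neg h1]) he'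

private theorem E0_inv (e : Ex) : (mon e : A k) * mon (-e) = 1 := by
  rw [AddMonoidAlgebra.single_mul_single, one_mul, add_neg_cancel, AddMonoidAlgebra.one_def]

private theorem E0_reg {σ : Finset Vr} {v : Vr} (hv : v ∈ σ) : Reg σ (-Pi.single v 1 : Ex) := by
  intro w hw
  have : w ≠ v := fun h => hw (h ▸ hv)
  simp [this]

private theorem E0_deg0 : degE (-Pi.single 0 1 : Ex) = -![1,0,0,0] := by decide

private theorem E0_deg1 : degE (-Pi.single 1 1 : Ex) = -![1,0,0,0] := by decide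

private theorem E0_mem0 {σ : Finset Vr} (h : (1 : Vr) ∈ σ) :
    D0 k * mon (-Pi.single 1 1) ∈ gr k σ dε := by
  have h1 := mul_mem_gr (gr_mono (Finset.empty_subset σ) dD (D0_mem (k := k)))
    (E0_mon (k := k) (E0_reg h) E0_deg1)
  have h2 : dD + -![1,0,0,0] = dε := by decide
  rwa [h2] at h1

private theorem E0_mem1 {σ : Finset Vr} (h : (0 : Vr) ∈ σ) :
    D1 k * mon (-Pi.single 0 1) ∈ gr k σ dε := by
  have h1 := mul_mem_gr (gr_mono (Finset.empty_subset σ) dD (D1_mem (k := k)))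
    (E0_mon (k := k) (E0_reg h) E0_deg0)
  have h2 : dD + -![1,0,0,0] = dε := by decide
  rwa [h2] at h1

/-- PROOF. If `1 ∉ U.σ` this is the definition. If `1 ∈ U.σ`: `D0 s1^-1 + D1 s0^-1 = f s0^-1 s1^-1` (`fP_eq`) acts as zero
(`mP_fP`; the degrees: `f s0^-1 s1^-1` has degree `dF - 2 ![1,0,0,0] = dε`). -/
theorem epsL_of_mem0 {X : FunCat k} (hX : isFZero k X) {U : Ob} (h : (0 : Vr) ∈ U.σ) :
    epsL X U = -(mP X U ((twOb dε).obj U) (D1 k * mon (-Pi.single 0 1))) := by
  by_cases h1 : (1 : Vr) ∈ U.σ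
  · unfold epsL
    rw [if_pos h1, eq_neg_iff_add_eq_zero, ← mP_add]
    have e : D0 k * mon (-Pi.single 1 1) + D1 k * mon (-Pi.single 0 1) =
        fP k * (mon (-Pi.single 0 1) * mon (-Pi.single 1 1)) := by
      rw [fP_eq]
      linear_combination (-(D0 k * mon (-Pi.single 1 1))) * E0_inv (k := k) (Pi.single 0 1) -
        (D1 k * mon (-Pi.single 0 1)) * E0_inv (k := k) (Pi.single 1 1)
    rw [e]
    refine LinearMap.ext fun x => ?_
    change mP X U ((twOb dε).obj U) (fP k * (mon (-Pi.single 0 1) * mon (-Pi.single 1 1))) x = 0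
    refine mP_fP X hX (U := U) (V := (twOb dε).obj U) (Finset.Subset.refl U.σ) ?_ x
    have h2 := mul_mem_gr (E0_mon (k := k) (E0_reg h) E0_deg0)
      (E0_mon (k := k) (E0_reg h1) E0_deg1)
    have h3 : ((twOb dε).obj U).a - U.a - dF = -![1,0,0,0] + -![1,0,0,0] := by
      change U.a + dε - U.a - dF = _
      rw [add_sub_cancel_left]
      decide
    rw [h3]
    exact h2
  · unfold epsL
    rw [if_neg h1]

private theorem E0_nat {X : FunCat k} {U V : Ob} (m : U ⟶ V) (x : X.obj U) {p : A k}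
    (hp : p ∈ gr k U.σ dε) :
    mP X V ((twOb dε).obj V) p ((X.map m).hom x) =
      (X.map ((twOb dε).map m)).hom (mP X U ((twOb dε).obj U) p x) := by
  have hpV : p ∈ gr k V.σ dε := gr_mono (Mor.le m) dε hp
  have d1 : ((twOb dε).obj V).a - V.a = dε := by
    change V.a + dε - V.a = dε
    abel
  have d2 : ((twOb dε).obj U).a - U.a = dε := by
    change U.a + dε - U.a = dε
    abel
  have hm : (mon (Mor.e m) : A k) ∈ gr k V.σ (V.a - U.a) := E0_mon (Mor.reg m) (Mor.deg m)
  have hm2 : (mon (Mor.e m) : A k) ∈ gr k ((twOb dε).obj V).σ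
      (((twOb dε).obj V).a - ((twOb dε).obj U).a) := by
    refine E0_mon (Mor.reg m) ?_
    change degE (Mor.e m) = V.a + dε - (U.a + dε)
    rw [Mor.deg m]; abel
  rw [← mP_mon X m, ← mP_mon X ((twOb dε).map m),
    ← mP_mul X (U := U) (V := V) (W := (twOb dε).obj V) (Mor.le m) (Finset.Subset.refl _) hm
      (by rw [d1]; exact hpV) x]
  have h2 := mP_mul X (U := U) (V := (twOb dε).obj U) (W := (twOb dε).obj V)
    (Finset.Subset.refl U.σ) (show U.σ ⊆ V.σ from Mor.le m) (p := p)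
    (by rw [d2]; exact hp) hm2 x
  refine Eq.trans ?_ h2
  rw [mul_comm]

/-- Compatibility with the morphisms of `Ob`.

PROOF. `m : U ⟶ V`, `U.σ ⊆ V.σ`. `U.σ` contains `s0` or `s1` (`Full`). If `1 ∈ U.σ`, then `1 ∈ V.σ` and both sides are
the action of `mon m * D0 * s1^-1` (`mP_mul`, `mP_mon`). If `1 ∉ U.σ` then `0 ∈ U.σ ⊆ V.σ` and both sides are given by
`-D1 s0^-1` (`epsL_of_mem0`). -/
theorem epsL_nat_Ob {X : FunCat k} (hX : isFZero k X) {U V : Ob} (m : U ⟶ V) (x : X.obj U) :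
    epsL X V ((X.map m).hom x) = (X.map ((twOb dε).map m)).hom (epsL X U x) := by
  by_cases h1 : (1 : Vr) ∈ U.σ
  · have h2 : (1 : Vr) ∈ V.σ := Mor.le m h1
    unfold epsL
    rw [if_pos h1, if_pos h2]
    exact E0_nat m x (E0_mem0 h1)
  · have h0 : (0 : Vr) ∈ U.σ := by
      obtain ⟨v, hv, hf⟩ := U.full 0
      have h3 : ∀ v : Vr, fam v = 0 → v = 0 ∨ v = 1 := by decide
      rcases h3 v hf with rfl | rfl
      · exact hv
      · exact absurd hv h1
    have h2 : (0 : Vr) ∈ V.σ := Mor.le m h0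
    rw [epsL_of_mem0 hX h0, epsL_of_mem0 hX h2, LinearMap.neg_apply, LinearMap.neg_apply, map_neg,
      E0_nat m x (E0_mem1 h0)]

/-- PROOF. `mP_nat`. -/
theorem epsL_nat {X Y : FunCat k} (i : X ⟶ Y) (U : Ob) (x : X.obj U) :
    (i.app ((twOb dε).obj U)).hom (epsL X U x) = epsL Y U ((i.app U).hom x) := by
  unfold epsL
  split_ifs
  · exact mP_nat i _ _ _ x
  · rw [LinearMap.neg_apply, LinearMap.neg_apply, map_neg, mP_nat i _ _ _ x]

private theorem E0_mE (X : FunCat k) (c : Deg) (U V : Ob) (e : Ex) :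
    mE ((twF k c).obj X) U V e = mE X ((twOb c).obj U) ((twOb c).obj V) e := by
  unfold mE
  by_cases h : U.σ ⊆ V.σ ∧ Reg V.σ e ∧ degE e = V.a - U.a
  · have h' : ((twOb c).obj U).σ ⊆ ((twOb c).obj V).σ ∧ Reg ((twOb c).obj V).σ e ∧
        degE e = ((twOb c).obj V).a - ((twOb c).obj U).a := by
      refine ⟨h.1, h.2.1, ?_⟩
      change degE e = V.a + c - (U.a + c)
      rw [h.2.2]; abel
    rw [dif_pos h, dif_pos h']
    rfl
  · have h' : ¬ (((twOb c).obj U).σ ⊆ ((twOb c).obj V).σ ∧ Reg ((twOb c).obj V).σ e ∧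
        degE e = ((twOb c).obj V).a - ((twOb c).obj U).a) := by
      rintro ⟨a1, a2, a3⟩
      refine h ⟨a1, a2, ?_⟩
      change degE e = V.a + c - (U.a + c) at a3
      rw [a3]; abel
    rw [dif_neg h, dif_neg h']

private theorem E0_mP (X : FunCat k) (c : Deg) (U V : Ob) (p : A k) :
    mP ((twF k c).obj X) U V p = mP X ((twOb c).obj U) ((twOb c).obj V) p := by
  unfold mP
  refine Finset.sum_congr rfl fun e _ => ?_
  change _ • _ = _ • _
  rw [E0_mE]

/-- PROOF. `mP (twF k c).obj X` is `mP X` for the twisted objects (`mE`: the conditions agree: the chart is the same and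
`V.a - U.a = (V.a + c) - (U.a + c)`). -/
theorem epsL_tw (X : FunCat k) (U : Ob) :
    epsL ((twF k dε).obj X) U = epsL X ((twOb dε).obj U) := by
  unfold epsL
  by_cases h : (1 : Vr) ∈ U.σ
  · rw [if_pos h, if_pos (show (1 : Vr) ∈ ((twOb dε).obj U).σ from h)]
    exact E0_mP X dε U ((twOb dε).obj U) _
  · rw [if_neg h, if_neg (show (1 : Vr) ∉ ((twOb dε).obj U).σ from h)]
    exact congrArg Neg.neg (E0_mP X dε U ((twOb dε).obj U) _)

end MPbd3808.BR
end

section

/-!
# TASK E1: the short exact sequence `0 → O_W(b) → O_W(b + dε) → O_E(b + dε) → 0`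
-/

open CategoryTheory CategoryTheory.Limits

namespace MPbd3808.BR

universe u
variable {k : Type u} [Field k]

/-- `ε : X ⟶ T X` for a sheaf on `W` -/
noncomputable def epsF (X : FunCat k) (hX : isFZero k X) : X ⟶ (twF k dε).obj X where
  app U := ModuleCat.ofHom (epsL X U)
  naturality _ _ m := ModuleCat.hom_ext (LinearMap.ext fun x => epsL_nat_Ob hX m x)

/-- `ε : 𝟭 ⟶ T` on quasi-coherent sheaves on `W` -/
noncomputable def epsW (k : Type u) [Field k] : 𝟭 (QCohW k) ⟶ twW k dε where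
  app X := (isQC k).homMk (epsF X.obj X.property.1)
  naturality _ _ f := (isQC k).ι.map_injective (NatTrans.ext (funext fun U =>
    ModuleCat.hom_ext (LinearMap.ext fun x => (epsL_nat f.hom U x).symm)))

theorem epsW_tw (X : QCohW k) : (twW k dε).map ((epsW k).app X) = (epsW k).app ((twW k dε).obj X) :=
  (isQC k).ι.map_injective (NatTrans.ext (funext fun U =>
    ModuleCat.hom_ext (epsL_tw X.obj U).symm))

/-- `T_c (QQ G b) = QQ G (b + c)`: the identity on representatives.

CONSTRUCTION. `gr σ (a + c + b) = gr σ (a + (b + c))`: the isomorphism is `mulQm` for the exponent `0`. -/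
theorem exists_twIso (G : List (A k × Deg)) (b c : Deg) :
    ∃ i : (twF k c).obj (QQ G b) ≅ QQ G (b + c), ∀ (U : Ob) (q : gr k U.σ (U.a + c + b))
      (hq : q.1 ∈ gr k U.σ (U.a + (b + c))),
      (i.hom.app U).hom (Submodule.Quotient.mk q : Qm k G U.σ (U.a + c + b)) =
        (Submodule.Quotient.mk ⟨q.1, hq⟩ : Qm k G U.σ (U.a + (b + c))) := by
  have h1 : ∀ a : Deg, degE (0 : Ex) = (a + (b + c)) - (a + c + b) := by
    intro a
    rw [degE_zero]
    abel
  have h2 : ∀ a : Deg, degE (0 : Ex) = (a + c + b) - (a + (b + c)) := by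
    intro a
    rw [degE_zero]
    abel
  have hone : ∀ x : A k, mon (0 : Ex) * x = x := by
    intro x
    rw [mon, ← AddMonoidAlgebra.one_def, one_mul]
  refine ⟨{
    hom := { app := fun U => ModuleCat.ofHom (mulQm k G (Finset.Subset.refl U.σ) 0 Reg.zero (h1 U.a))
             naturality := ?_ }
    inv := { app := fun U => ModuleCat.ofHom (mulQm k G (Finset.Subset.refl U.σ) 0 Reg.zero (h2 U.a))
             naturality := ?_ }
    hom_inv_id := ?_
    inv_hom_id := ?_ }, ?_⟩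
  · intro U V m
    refine ModuleCat.hom_ext (LinearMap.ext fun x => ?_)
    obtain ⟨q, rfl⟩ := Submodule.Quotient.mk_surjective _ x
    change Submodule.Quotient.mk _ = Submodule.Quotient.mk _
    congr 1
    ext1
    change mon (0 : Ex) * (mon (Mor.e m) * q.1) = mon (Mor.e m) * (mon (0 : Ex) * q.1)
    rw [hone, hone]
  · intro U V m
    refine ModuleCat.hom_ext (LinearMap.ext fun x => ?_)
    obtain ⟨q, rfl⟩ := Submodule.Quotient.mk_surjective _ x
    change Submodule.Quotient.mk _ = Submodule.Quotient.mk _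
    congr 1
    ext1
    change mon (0 : Ex) * (mon (Mor.e m) * q.1) = mon (Mor.e m) * (mon (0 : Ex) * q.1)
    rw [hone, hone]
  · refine NatTrans.ext (funext fun U => ModuleCat.hom_ext (LinearMap.ext fun x => ?_))
    obtain ⟨q, rfl⟩ := Submodule.Quotient.mk_surjective _ x
    change Submodule.Quotient.mk _ = Submodule.Quotient.mk _
    congr 1
    ext1
    change mon (0 : Ex) * (mon (0 : Ex) * q.1) = q.1
    rw [hone, hone]
  · refine NatTrans.ext (funext fun U => ModuleCat.hom_ext (LinearMap.ext fun x => ?_))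
    obtain ⟨q, rfl⟩ := Submodule.Quotient.mk_surjective _ x
    change Submodule.Quotient.mk _ = Submodule.Quotient.mk _
    congr 1
    ext1
    change mon (0 : Ex) * (mon (0 : Ex) * q.1) = q.1
    rw [hone, hone]
  · intro U q hq
    change Submodule.Quotient.mk _ = Submodule.Quotient.mk _
    congr 1
    ext1
    exact hone q.1

/-- the isomorphism -/
noncomputable def twIso (G : List (A k × Deg)) (b c : Deg) : (twF k c).obj (QQ G b) ≅ QQ G (b + c) :=
  (exists_twIso G b c).choose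

theorem twIso_mk (G : List (A k × Deg)) (b c : Deg) (U : Ob) (q : gr k U.σ (U.a + c + b))
    (hq : q.1 ∈ gr k U.σ (U.a + (b + c))) :
    ((twIso G b c).hom.app U).hom (Submodule.Quotient.mk q : Qm k G U.σ (U.a + c + b)) =
      (Submodule.Quotient.mk ⟨q.1, hq⟩ : Qm k G U.σ (U.a + (b + c))) :=
  (exists_twIso G b c).choose_spec U q hq

private theorem E1_mem1 {g : A k} {d : Deg} {σ : Finset Vr} {c : Deg} {x : A k} :
    x ∈ idl [(g, d)] σ c ↔ ∃ q ∈ gr k σ (c - d), x = g * q := by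
  constructor
  · intro h
    obtain ⟨y, hy, z, hz, rfl⟩ := Submodule.mem_sup.1 h
    obtain ⟨q, hq, rfl⟩ := hy
    refine ⟨q, hq, ?_⟩
    rw [show z = 0 from hz, add_zero]
    rfl
  · rintro ⟨q, hq, rfl⟩
    exact Submodule.mem_sup_left ⟨q, hq, rfl⟩

private theorem E1_mem2 {g g' : A k} {d d' : Deg} {σ : Finset Vr} {c : Deg} {x : A k} :
    x ∈ idl [(g, d), (g', d')] σ c ↔
      ∃ q ∈ gr k σ (c - d), ∃ q' ∈ gr k σ (c - d'), x = g * q + g' * q' := by
  constructor
  · intro h
    obtain ⟨y, hy, z, hz, rfl⟩ := Submodule.mem_sup.1 h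
    obtain ⟨q, hq, rfl⟩ := hy
    obtain ⟨q', hq', rfl⟩ := E1_mem1.1 hz
    exact ⟨q, hq, q', hq', rfl⟩
  · rintro ⟨q, hq, q', hq', rfl⟩
    exact Submodule.add_mem_sup ⟨q, hq, rfl⟩ (E1_mem1.2 ⟨q', hq', rfl⟩)

private theorem E1_reg (σ : Finset Vr) (v : Vr) : Reg σ (Pi.single v 1) := by
  intro w _
  by_cases h : w = v
  · subst h
    rw [Pi.single_eq_same]
    exact zero_le_one
  · rw [Pi.single_eq_of_ne h]

private theorem E1_reg' {σ : Finset Vr} {v : Vr} (hv : v ∈ σ) : Reg σ (-Pi.single v 1) := by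
  intro w hw
  have h : w ≠ v := fun h => hw (h ▸ hv)
  rw [Pi.neg_apply, Pi.single_eq_of_ne h, neg_zero]

private theorem E1_d0 : dg 0 = dF - dD := by decide

private theorem E1_d1 : dg 1 = dF - dD := by decide

private theorem E1_dε : dε = dF - dg 0 - dg 0 := by decide

private theorem E1_dε' : dε = dD - dg 0 := by decide

private theorem E1_dε1 : dε = dD - dg 1 := by decide

private theorem E1_mon (v : Vr) : (mon (-Pi.single v 1) : A k) * mon (Pi.single v 1) = 1 := by
  rw [mon, mon, AddMonoidAlgebra.single_mul_single, neg_add_cancel, one_mul,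
    AddMonoidAlgebra.one_def]

private theorem E1_monAR {σ : Finset Vr} {e : Ex} (he : Reg σ e) : (mon e : A k) ∈ AR k σ := by
  intro e' h
  by_cases h1 : e' = e
  · rw [h1]
    exact he
  · exact absurd (by simp [mon, Ne.symm h1]) h

private theorem E1_AR {σ : Finset Vr} {c : Deg} {p : A k} (h : p ∈ gr k σ c) : p ∈ AR k σ :=
  ((mem_gr_iff σ c p).1 h).1

/-- The algebra behind injectivity. -/
private theorem E1_inj {σ : Finset Vr} {s s' t P Q q c' : A k} {c : Deg} (hs : s' * s = 1)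
    (hf : fP k = t * P + s * Q) (hP : P ≠ 0) (hsA : s ∈ AR k σ) (hs'A : s' ∈ AR k σ)
    (htA : t ∈ AR k σ)
    (hdiv : ∀ x ∈ AR k σ, ∀ y ∈ AR k σ, Q * x = P * y → ∃ z ∈ AR k σ, x = P * z)
    (hq : q ∈ gr k σ c) (hc' : c' ∈ AR k σ) (h : P * (s' * q) = fP k * c') :
    q ∈ idl [(fP k, dF)] σ c := by
  have h1 : P * q = fP k * (s * c') := by
    calc P * q = s' * s * (P * q) := by rw [hs, one_mul]
      _ = s * (P * (s' * q)) := by ring
      _ = fP k * (s * c') := by rw [h]; ring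
  have h2 : Q * (s * (s * c')) = P * (q - t * (s * c')) := by
    rw [mul_sub, h1, hf]
    ring
  obtain ⟨z, hz, hz2⟩ := hdiv (s * (s * c')) (mul_mem hsA (mul_mem hsA hc'))
    (q - t * (s * c')) (sub_mem (E1_AR hq) (mul_mem htA (mul_mem hsA hc'))) h2
  have h3 : q - t * (s * c') = Q * z := by
    have h4 : P * (q - t * (s * c')) = P * (Q * z) := by
      rw [← h2, hz2]
      ring
    exact mul_left_cancel₀ hP h4
  have h5 : s * c' = s' * (P * z) := by
    calc s * c' = s' * s * (s * c') := by rw [hs, one_mul]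
      _ = s' * (s * (s * c')) := by ring
      _ = s' * (P * z) := by rw [hz2]
  have h6 : q = fP k * (s' * z) := by
    have h7 : q = Q * z + t * (s' * (P * z)) := by
      rw [← h5, ← h3]
      ring
    calc q = Q * z + t * (s' * (P * z)) := h7
      _ = s' * s * (Q * z) + t * (s' * (P * z)) := by rw [hs, one_mul]
      _ = fP k * (s' * z) := by rw [hf]; ring
  refine E1_mem1.2 ⟨s' * z, ?_, h6⟩
  refine mem_gr_of_mul_mem (c := c - dF) (d := dF) fP_mem fP_ne_zero (mul_mem hs'A hz) ?_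
  rw [← h6, sub_add_cancel]
  exact hq

/-- The sequence at one object, from the algebra. -/
private theorem E1_pw (b : Deg) (U : Ob) (projE : OWf k (b + dε) ⟶ OEf k (b + dε))
    (tw : (twF k dε).obj (OWf k b) ≅ OWf k (b + dε))
    (hpr : ∀ (q : gr k U.σ (U.a + (b + dε))), (projE.app U).hom
      (Submodule.Quotient.mk q : Qm k [(fP k, dF)] U.σ (U.a + (b + dε))) =
      (Submodule.Quotient.mk q : Qm k [(D1 k, dD), (D0 k, dD)] U.σ (U.a + (b + dε))))
    (htw : ∀ (q : gr k U.σ (U.a + dε + b)) (hq : q.1 ∈ gr k U.σ (U.a + (b + dε))),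
      (tw.hom.app U).hom (Submodule.Quotient.mk q : Qm k [(fP k, dF)] U.σ (U.a + dε + b)) =
        (Submodule.Quotient.mk ⟨q.1, hq⟩ : Qm k [(fP k, dF)] U.σ (U.a + (b + dε))))
    (p : A k) (hp : p ∈ gr k U.σ dε)
    (he : ∀ x, epsL (OWf k b) U x = mP (OWf k b) U ((twOb dε).obj U) p x)
    (h1 : ∀ (c : Deg), ∀ q ∈ gr k U.σ c, p * q ∈ idl [(fP k, dF)] U.σ (c + dε) →
      q ∈ idl [(fP k, dF)] U.σ c)
    (h2 : ∀ (c : Deg), ∀ q ∈ gr k U.σ c, p * q ∈ idl [(D1 k, dD), (D0 k, dD)] U.σ (c + dε))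
    (h3 : ∀ (c : Deg), ∀ q ∈ idl [(D1 k, dD), (D0 k, dD)] U.σ (c + dε),
      ∃ q' ∈ gr k U.σ c, q - p * q' ∈ idl [(fP k, dF)] U.σ (c + dε)) :
    Function.Injective ((epsF (OWf k b) (isCoh_OW b).1.1).app U).hom ∧
      Function.Exact ((epsF (OWf k b) (isCoh_OW b).1.1).app U).hom
        ((tw.hom ≫ projE).app U).hom ∧
      Function.Surjective ((tw.hom ≫ projE).app U).hom := by
  have ha : U.a + b + dε = U.a + dε + b := by abel
  have ha' : U.a + b + dε = U.a + (b + dε) := by abel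
  have ha'' : U.a + dε + b = U.a + (b + dε) := by abel
  have hpq : ∀ q : gr k U.σ (U.a + b), p * q.1 ∈ gr k U.σ (U.a + dε + b) := by
    intro q
    have h := mul_mem_gr hp q.2
    rwa [add_comm dε, ha] at h
  have heps : ∀ q : gr k U.σ (U.a + b), ((epsF (OWf k b) (isCoh_OW b).1.1).app U).hom
      (Submodule.Quotient.mk q : Qm k [(fP k, dF)] U.σ (U.a + b)) =
      (Submodule.Quotient.mk ⟨p * q.1, hpq q⟩ : Qm k [(fP k, dF)] U.σ (U.a + dε + b)) := by
    intro q
    refine (he _).trans ?_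
    refine mP_QQ_mk (V := (twOb dε).obj U) [(fP k, dF)] b (Finset.Subset.refl U.σ) ?_ q (hpq q)
    change p ∈ gr k U.σ (U.a + dε - U.a)
    rwa [add_sub_cancel_left]
  have hcomp : ∀ q : gr k U.σ (U.a + dε + b), ∀ (hq : q.1 ∈ gr k U.σ (U.a + (b + dε))),
      ((tw.hom ≫ projE).app U).hom
        (Submodule.Quotient.mk q : Qm k [(fP k, dF)] U.σ (U.a + dε + b)) =
      (Submodule.Quotient.mk ⟨q.1, hq⟩ : Qm k [(D1 k, dD), (D0 k, dD)] U.σ (U.a + (b + dε))) := by
    intro q hq
    change (projE.app U).hom ((tw.hom.app U).hom _) = _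
    rw [htw q hq, hpr]
  refine ⟨?_, ?_, ?_⟩
  · rw [injective_iff_map_eq_zero]
    intro x hx
    obtain ⟨q, rfl⟩ := Submodule.Quotient.mk_surjective _ x
    have hx' := (heps q).symm.trans hx
    have hx'' : p * q.1 ∈ idl [(fP k, dF)] U.σ (U.a + dε + b) :=
      (Submodule.Quotient.mk_eq_zero ((idl [(fP k, dF)] U.σ (U.a + dε + b)).comap
        (gr k U.σ (U.a + dε + b)).subtype)).1 hx'
    rw [← ha] at hx''
    exact (Submodule.Quotient.mk_eq_zero ((idl [(fP k, dF)] U.σ (U.a + b)).comap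
      (gr k U.σ (U.a + b)).subtype)).2 (h1 _ q.1 q.2 hx'')
  · intro y
    obtain ⟨q, rfl⟩ := Submodule.Quotient.mk_surjective _ y
    have hq : q.1 ∈ gr k U.σ (U.a + (b + dε)) := by
      have := q.2
      change q.1 ∈ gr k U.σ (U.a + dε + b) at this
      rwa [ha''] at this
    constructor
    · intro hy
      have hy' := (hcomp q hq).symm.trans hy
      have hy'' : q.1 ∈ idl [(D1 k, dD), (D0 k, dD)] U.σ (U.a + (b + dε)) :=
        (Submodule.Quotient.mk_eq_zero ((idl [(D1 k, dD), (D0 k, dD)] U.σ (U.a + (b + dε))).comap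
          (gr k U.σ (U.a + (b + dε))).subtype)).1 hy'
      rw [← ha'] at hy''
      obtain ⟨q', hq', hd⟩ := h3 _ q.1 hy''
      refine ⟨(Submodule.Quotient.mk ⟨q', hq'⟩ : Qm k [(fP k, dF)] U.σ (U.a + b)), ?_⟩
      refine (heps ⟨q', hq'⟩).trans ?_
      symm
      rw [ha] at hd
      exact (Submodule.Quotient.eq _).2 hd
    · rintro ⟨x, hx⟩
      obtain ⟨q', rfl⟩ := Submodule.Quotient.mk_surjective _ x
      rw [← hx]
      have hq'' : p * q'.1 ∈ gr k U.σ (U.a + (b + dε)) := by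
        rw [← ha'']
        exact hpq q'
      refine (congrArg _ (heps q')).trans ((hcomp ⟨p * q'.1, hpq q'⟩ hq'').trans ?_)
      have h4 : p * q'.1 ∈ idl [(D1 k, dD), (D0 k, dD)] U.σ (U.a + (b + dε)) := by
        rw [← ha']
        exact h2 _ q'.1 q'.2
      exact (Submodule.Quotient.mk_eq_zero ((idl [(D1 k, dD), (D0 k, dD)] U.σ
        (U.a + (b + dε))).comap (gr k U.σ (U.a + (b + dε))).subtype)).2 h4
  · intro y
    obtain ⟨q, rfl⟩ := Submodule.Quotient.mk_surjective _ y
    have hq : q.1 ∈ gr k U.σ (U.a + dε + b) := by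
      rw [ha'']
      exact q.2
    exact ⟨(Submodule.Quotient.mk ⟨q.1, hq⟩ : Qm k [(fP k, dF)] U.σ (U.a + dε + b)),
      hcomp ⟨q.1, hq⟩ q.2⟩

/-- `f ∈ (D0, D1)`. PROOF. `fP_eq`. -/
theorem idl_fP_le (σ : Finset Vr) (c : Deg) :
    idl [(fP k, dF)] σ c ≤ idl [(D1 k, dD), (D0 k, dD)] σ c := by
  intro x hx
  obtain ⟨q, hq, rfl⟩ := E1_mem1.1 hx
  refine E1_mem2.2 ⟨mon (Pi.single 1 1) * q, ?_, mon (Pi.single 0 1) * q, ?_, ?_⟩
  · refine mon_mul_mem_gr k (Finset.Subset.refl σ) hq _ (E1_reg σ 1) ?_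
    rw [degE_single, E1_d1]
    abel
  · refine mon_mul_mem_gr k (Finset.Subset.refl σ) hq _ (E1_reg σ 0) ?_
    rw [degE_single, E1_d0]
    abel
  · rw [fP_eq]
    ring

/-- the projection `O_W(b) ⟶ O_E(b)` -/
noncomputable def projE (k : Type u) [Field k] (b : Deg) : OWf k b ⟶ OEf k b :=
  projQ [(fP k, dF)] [(D1 k, dD), (D0 k, dD)] idl_fP_le b

/-- The short exact sequence of `ε`.

PROOF. On `U = (σ,a)`, representatives `q ∈ gr σ (a + b)`. Case `s1 ∈ σ` (variable 1): `ε [q] = [D0 s1^-1 q]`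
(`mP_QQ_mk`). Injective: `D0 s1^-1 q = f c`, so `D0 q = f c'` with `c' = s1 c`, `D0 (q - s0 c') = s1 D1 c'` (`fP_eq`), so by
`D0_dvd_of_dvd_D1_mul` (`D1 (s1 c') = D0 (q - s0 c')`) `s1 c' = D0 c''`, hence (domain) `q - s0 c' = D1 c''` and
`q = s0 c' + D1 c'' = s1^-1 (s0 D0 + s1 D1) c'' = f (s1^-1 c'')`; homogeneity by `mem_gr_of_mul_mem`.
Exact: the composition is zero (`D0 s1^-1 q ∈ (D0)`). If `q = D1 x + D0 y` (`q ∈ idl [(D1),(D0)]`), then
`D1 = s1^-1 (f - s0 D0)`, `q = f (s1^-1 x) + D0 s1^-1 (s1 y - s0 x)` is `ε` of `[s1 y - s0 x]` modulo `f`.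
Surjective: clear. Case `s1 ∉ σ`: `s0 ∈ σ`, `ε [q] = -[D1 s0^-1 q]`: symmetric, with `D1_dvd_of_dvd_D0_mul`. -/
theorem pwSES_eps (b : Deg) : PwSES (epsF (OWf k b) (isCoh_OW b).1.1)
    ((twIso [(fP k, dF)] b dε).hom ≫ projE k (b + dε)) := by
  intro U
  have hpr : ∀ (q : gr k U.σ (U.a + (b + dε))), ((projE k (b + dε)).app U).hom
      (Submodule.Quotient.mk q : Qm k [(fP k, dF)] U.σ (U.a + (b + dε))) =
      (Submodule.Quotient.mk q : Qm k [(D1 k, dD), (D0 k, dD)] U.σ (U.a + (b + dε))) := by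
    intro q
    change Submodule.Quotient.mk _ = Submodule.Quotient.mk _
    congr 1
    ext1
    exact one_mul q.1
  have hP0 : D0 k ∈ gr k U.σ dD := gr_mono (Finset.empty_subset _) _ D0_mem
  have hP1 : D1 k ∈ gr k U.σ dD := gr_mono (Finset.empty_subset _) _ D1_mem
  by_cases h1 : (1 : Vr) ∈ U.σ
  · have hs : (mon (-Pi.single 1 1) : A k) * mon (Pi.single 1 1) = 1 := E1_mon 1
    have hp : D0 k * mon (-Pi.single 1 1) ∈ gr k U.σ dε := by
      rw [mul_comm]
      refine mon_mul_mem_gr k (Finset.Subset.refl _) hP0 _ (E1_reg' h1) ?_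
      rw [degE_neg, degE_single, E1_dε1]
      abel
    refine E1_pw b U (projE k (b + dε)) (twIso [(fP k, dF)] b dε) hpr
      (twIso_mk [(fP k, dF)] b dε U) (D0 k * mon (-Pi.single 1 1)) hp ?_ ?_ ?_ ?_
    · intro x
      rw [epsL, if_pos h1]
    · intro c q hq h
      obtain ⟨c', hc', h⟩ := E1_mem1.1 h
      refine E1_inj (t := mon (Pi.single 0 1)) (Q := D1 k) (c' := c') hs fP_eq D0_ne_zero
        (E1_monAR (E1_reg _ 1)) (E1_monAR (E1_reg' h1)) (E1_monAR (E1_reg _ 0))
        (fun x hx y hy hxy => D0_dvd_of_dvd_D1_mul hx hy hxy) hq (E1_AR hc') ?_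
      rw [← h]
      ring
    · intro c q hq
      refine E1_mem2.2 ⟨0, Submodule.zero_mem _, mon (-Pi.single 1 1) * q, ?_, ?_⟩
      · refine mon_mul_mem_gr k (Finset.Subset.refl _) hq _ (E1_reg' h1) ?_
        rw [degE_neg, degE_single, E1_dε1]
        abel
      · ring
    · intro c q hq
      obtain ⟨x, hx, y, hy, rfl⟩ := E1_mem2.1 hq
      refine ⟨mon (Pi.single 1 1) * y - mon (Pi.single 0 1) * x, ?_,
        E1_mem1.2 ⟨mon (-Pi.single 1 1) * x, ?_, ?_⟩⟩
      · refine sub_mem (mon_mul_mem_gr k (Finset.Subset.refl _) hy _ (E1_reg _ 1) ?_)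
          (mon_mul_mem_gr k (Finset.Subset.refl _) hx _ (E1_reg _ 0) ?_)
        · rw [degE_single, E1_dε1]
          abel
        · rw [degE_single, E1_dε']
          abel
      · refine mon_mul_mem_gr k (Finset.Subset.refl _) hx _ (E1_reg' h1) ?_
        rw [degE_neg, degE_single, E1_d1]
        abel
      · have h5 : D0 k * mon (-Pi.single 1 1) * (mon (Pi.single 1 1) * y - mon (Pi.single 0 1) * x) =
            (mon (-Pi.single 1 1) * mon (Pi.single 1 1)) * (D0 k * y) -
              mon (-Pi.single 1 1) * (mon (Pi.single 0 1) * (D0 k * x)) := by ring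
        have h6 : D1 k * x = (mon (-Pi.single 1 1) * mon (Pi.single 1 1)) * (D1 k * x) := by
          rw [hs, one_mul]
        rw [h5, hs, one_mul, h6, fP_eq]
        ring
  · have h0 : (0 : Vr) ∈ U.σ := by
      obtain ⟨v, hv, hv2⟩ := U.full 0
      have h : ∀ v : Vr, fam v = 0 → v = 0 ∨ v = 1 := by decide
      rcases h v hv2 with rfl | rfl
      · exact hv
      · exact absurd hv h1
    have hs : (mon (-Pi.single 0 1) : A k) * mon (Pi.single 0 1) = 1 := E1_mon 0
    have hp : -(D1 k * mon (-Pi.single 0 1)) ∈ gr k U.σ dε := by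
      rw [mul_comm]
      refine neg_mem (mon_mul_mem_gr k (Finset.Subset.refl _) hP1 _ (E1_reg' h0) ?_)
      rw [degE_neg, degE_single, E1_dε']
      abel
    refine E1_pw b U (projE k (b + dε)) (twIso [(fP k, dF)] b dε) hpr
      (twIso_mk [(fP k, dF)] b dε U) (-(D1 k * mon (-Pi.single 0 1))) hp ?_ ?_ ?_ ?_
    · intro x
      rw [epsL, if_neg h1, LinearMap.neg_apply]
      have h7 := mP_sub (OWf k b) U ((twOb dε).obj U) 0 (D1 k * mon (-Pi.single 0 1))
      rw [zero_sub, mP_zero, zero_sub] at h7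
      rw [h7, LinearMap.neg_apply]
    · intro c q hq h
      obtain ⟨c', hc', h⟩ := E1_mem1.1 h
      refine E1_inj (t := mon (Pi.single 1 1)) (Q := D0 k) (c' := -c') hs
        (fP_eq.trans (add_comm _ _)) D1_ne_zero
        (E1_monAR (E1_reg _ 0)) (E1_monAR (E1_reg' h0)) (E1_monAR (E1_reg _ 1))
        (fun x hx y hy hxy => D1_dvd_of_dvd_D0_mul hx hy hxy) hq (neg_mem (E1_AR hc')) ?_
      rw [mul_neg, ← h]
      ring
    · intro c q hq
      refine E1_mem2.2 ⟨-(mon (-Pi.single 0 1) * q), ?_, 0, Submodule.zero_mem _, ?_⟩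
      · refine neg_mem (mon_mul_mem_gr k (Finset.Subset.refl _) hq _ (E1_reg' h0) ?_)
        rw [degE_neg, degE_single, E1_dε']
        abel
      · ring
    · intro c q hq
      obtain ⟨x, hx, y, hy, rfl⟩ := E1_mem2.1 hq
      refine ⟨mon (Pi.single 1 1) * y - mon (Pi.single 0 1) * x, ?_,
        E1_mem1.2 ⟨mon (-Pi.single 0 1) * y, ?_, ?_⟩⟩
      · refine sub_mem (mon_mul_mem_gr k (Finset.Subset.refl _) hy _ (E1_reg _ 1) ?_)
          (mon_mul_mem_gr k (Finset.Subset.refl _) hx _ (E1_reg _ 0) ?_)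
        · rw [degE_single, E1_dε1]
          abel
        · rw [degE_single, E1_dε']
          abel
      · refine mon_mul_mem_gr k (Finset.Subset.refl _) hy _ (E1_reg' h0) ?_
        rw [degE_neg, degE_single, E1_d0]
        abel
      · have h5 : -(D1 k * mon (-Pi.single 0 1)) *
            (mon (Pi.single 1 1) * y - mon (Pi.single 0 1) * x) =
            (mon (-Pi.single 0 1) * mon (Pi.single 0 1)) * (D1 k * x) -
              mon (-Pi.single 0 1) * (mon (Pi.single 1 1) * (D1 k * y)) := by ring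
        have h6 : D0 k * y = (mon (-Pi.single 0 1) * mon (Pi.single 0 1)) * (D0 k * y) := by
          rw [hs, one_mul]
        rw [h5, hs, one_mul, h6, fP_eq]
        ring

end MPbd3808.BR
end

section

/-!
# TASK M1: cohomology on `W` = cohomology on the toric variety
-/

open CategoryTheory CategoryTheory.Limits

namespace MPbd3808.BR

universe u
variable (k : Type u) [Field k]

noncomputable instance (J : Finset Vr) : Decidable (Full J) := Classical.dec _

noncomputable instance : Fintype {J : Finset Vr // Full J} := Fintype.ofFinite _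

/-- the projection `P(b) → O_W(b)` -/
noncomputable def πW (b : Deg) : PT k b ⟶ (inMT k).obj (OM k b) :=
  (isLoc k).homMk (projC (fP k, dF) [] b)

instance M1_additive : (inMT k).Additive where
  map_add := rfl

instance M1_preservesFiniteLimits : PreservesFiniteLimits (inMT k) :=
  inferInstanceAs (PreservesFiniteLimits
    (restr (isQC k) (isLoc k) (𝟭 (FunCat k)) (fun X h => isQC_le_isLoc k X h)))

instance M1_preservesFiniteColimits : PreservesFiniteColimits (inMT k) :=
  inferInstanceAs (PreservesFiniteColimits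
    (restr (isQC k) (isLoc k) (𝟭 (FunCat k)) (fun X h => isQC_le_isLoc k X h)))

/-- `projC` sends `1` to `1` -/
theorem M1_projC_one (g : A k × Deg) (G : List (A k × Deg)) (b : Deg) (σ : Finset Vr) (hσ : Full σ) :
    ((projC g G b).app (Ob.mk σ hσ (-b))).hom (oneQ G b σ hσ) = oneQ (g :: G) b σ hσ := by
  unfold projC projQ oneQ
  rw [mapQQ_mk (hq := by rw [one_mul]; exact one_mem_gr' σ b)]
  congr 1
  ext1
  exact one_mul _

/-- `Hom_W(O_W(b),X) = Hom_T(P(b),X)`.

PROOF. Injective: both determined by the image of the section `1` (`homQQ_ext`; `projC` sends `1` to `1`). Surjective: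
`homQQ_exists` for `G = [(fP k, dF)]` with the sections of the given morphism; they are killed by `f`
(`mP_fP` with `q = 1`, `X` is a sheaf on `W`), compatible by `homQQ_compat`. -/
theorem hom_OM_bijective (b : Deg) (X : QCohW k) :
    Function.Bijective fun f : OM k b ⟶ X => πW k b ≫ (inMT k).map f := by
  constructor
  · intro f g hfg
    apply (isQC k).ι.map_injective
    refine homQQ_ext [(fP k, dF)] b fun σ hσ => ?_
    have h1 := congrArg (fun φ : PT k b ⟶ (inMT k).obj X =>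
      (φ.hom.app (Ob.mk σ hσ (-b))).hom (oneQ [] b σ hσ)) hfg
    change (f.hom.app _).hom (((projC (fP k, dF) [] b).app (Ob.mk σ hσ (-b))).hom (oneQ [] b σ hσ)) =
      (g.hom.app _).hom (((projC (fP k, dF) [] b).app (Ob.mk σ hσ (-b))).hom (oneQ [] b σ hσ)) at h1
    rw [M1_projC_one] at h1
    exact h1
  · intro f'
    have hG : ∀ g ∈ [(fP k, dF)], g.1 ∈ gr k ∅ g.2 := by
      intro g hg
      rw [List.mem_singleton.1 hg]
      exact fP_mem
    obtain ⟨f, hf⟩ := homQQ_exists [(fP k, dF)] hG b X.obj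
      (fun σ hσ => (f'.hom.app (Ob.mk σ hσ (-b))).hom (oneQ [] b σ hσ))
      (fun σ τ hσ hτ hst => homQQ_compat [] b f'.hom hσ hτ hst) (by
        intro g hg σ hσ
        rw [List.mem_singleton.1 hg]
        have := mP_fP X.obj X.property.1 (U := Ob.mk σ hσ (-b)) (V := Ob.mk σ hσ (-b + dF))
          (Finset.Subset.refl _) (q := 1) (by
            have h := one_mem_gr (k := k) σ
            have e : (Ob.mk σ hσ (-b + dF)).a - (Ob.mk σ hσ (-b)).a - dF = 0 := by
              change (-b + dF) - (-b) - dF = 0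
              abel
            rw [e]
            exact h) ((f'.hom.app (Ob.mk σ hσ (-b))).hom (oneQ [] b σ hσ))
        rw [mul_one] at this
        exact this)
    refine ⟨(isQC k).homMk f, ?_⟩
    apply (isLoc k).ι.map_injective
    refine homQQ_ext [] b fun σ hσ => ?_
    change (f.app _).hom (((projC (fP k, dF) [] b).app (Ob.mk σ hσ (-b))).hom (oneQ [] b σ hσ)) = _
    rw [M1_projC_one, hf]
    rfl

/-- Every `X` embeds into a sheaf which is acyclic on `W` and on `T`.

PROOF. `Y = ⨁_{J full} L_J X` (finite biproduct in `QCohW k` over `{J // Full J}`), with the morphism given by the units. At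
`U = (σ,a)` the component `J = σ` is `X(σ,a) → X(σ ∪ σ, a)`, an isomorphism, so the morphism is a monomorphism
(`mono_iff_pw`; compose with the projection `biproduct.π _ ⟨σ,_⟩`). Acyclic: `extAc_biproduct`, `extAc_OM_of_local`,
`unitF_loc_bijective`; on `T`: `inMT` is additive, `inMT (⨁ ..) ≅ ⨁ (inMT ..)` (`Functor.mapBiproduct`),
`extAc_PT_of_local`. -/
theorem exists_embedding (b : Deg) (X : QCohW k) : ∃ (Y : QCohW k) (i : X ⟶ Y), Mono i ∧
    ExtAc.{u+1} (OM k b) Y ∧ ExtAc.{u+1} (PT k b) ((inMT k).obj Y) := by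
  let Y : {J : Finset Vr // Full J} → QCohW k := fun J => (locW k J.1).obj X
  refine ⟨⨁ Y, biproduct.lift fun J => (unitW k J.1).app X, ?_, ?_, ?_⟩
  · rw [mono_iff_pw (isQC k)]
    intro U x y hxy
    have e1 : (biproduct.lift (f := Y) fun J => (unitW k J.1).app X) ≫
        biproduct.π Y ⟨U.σ, U.full⟩ = (unitW k U.σ).app X := biproduct.lift_π _ _
    have h1 : (((unitW k U.σ).app X).hom.app U).hom x =
        (((unitW k U.σ).app X).hom.app U).hom y := by
      rw [← e1]
      change ((biproduct.π Y ⟨U.σ, U.full⟩).hom.app U).hom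
        ((((biproduct.lift fun J => (unitW k J.1).app X) : X ⟶ ⨁ Y).hom.app U).hom x) =
        ((biproduct.π Y ⟨U.σ, U.full⟩).hom.app U).hom
        ((((biproduct.lift fun J => (unitW k J.1).app X) : X ⟶ ⨁ Y).hom.app U).hom y)
      rw [hxy]
    change (X.obj.map ((unitOb U.σ).app U)).hom x = (X.obj.map ((unitOb U.σ).app U)).hom y at h1
    let r : (locOb U.σ).obj U ⟶ U := Mor.mk 0 (Finset.union_subset (Finset.Subset.refl _)
      (Finset.Subset.refl _)) Reg.zero (by simp [degE_zero, locOb])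
    have e2 : (unitOb U.σ).app U ≫ r = 𝟙 U := hom_ext (by
      change (0 : Ex) + 0 = 0
      rw [add_zero])
    have h2 := congrArg (X.obj.map r).hom h1
    have h3 : ∀ z : X.obj.obj U, (X.obj.map r).hom ((X.obj.map ((unitOb U.σ).app U)).hom z) = z := by
      intro z
      have : X.obj.map ((unitOb U.σ).app U) ≫ X.obj.map r = 𝟙 _ := by
        rw [← X.obj.map_comp, e2]
        exact X.obj.map_id U
      exact congrArg (fun φ => φ.hom z) this
    rw [h3, h3] at h2
    exact h2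
  · exact extAc_biproduct Y fun J => extAc_OM_of_local k J.2 b _ (unitF_loc_bijective k J.1 X.obj)
  · refine extAc_of_iso ((inMT k).mapBiproduct Y).symm ?_
    exact extAc_biproduct _ fun J => extAc_PT_of_local k J.2 b _ (unitF_loc_bijective k J.1 X.obj)

/-- PROOF. `extAc_transfer`. -/
theorem extAc_OM (b : Deg) (X : QCohW k) (h : ExtAc.{u+1} (PT k b) ((inMT k).obj X)) :
    ExtAc.{u+1} (OM k b) X :=
  extAc_transfer (inMT k) (OM k b) (PT k b) (πW k b) (hom_OM_bijective k b) (exists_embedding k b) X h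

/-- PROOF. `extOrth_transfer`. -/
theorem extOrth_OM (b : Deg) (X : QCohW k) (h : ExtOrth.{u+1} (PT k b) ((inMT k).obj X)) :
    ExtOrth.{u+1} (OM k b) X :=
  extOrth_transfer (inMT k) (OM k b) (PT k b) (πW k b) (hom_OM_bijective k b) (exists_embedding k b) X h

end MPbd3808.BR
end

section

/-!
# TASK P2: the short exact sequences of toric sheaves
-/

open CategoryTheory CategoryTheory.Limits

namespace MPbd3808.BR

universe u
variable (k : Type u) [Field k]

/-- PROOF. General: `E1, E3 ⊆ E2` disjoint with union `E2`: `0 → (E1 →₀ k) → (E2 →₀ k) → (E3 →₀ k) → 0` is exact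
(the maps are `cutMap k _ _ 0`). -/
theorem cutMap_exact {E1 E2 E3 : Set Ex} (h1 : E1 ⊆ E2) (h3 : E3 ⊆ E2) (hd : ∀ e ∈ E1, e ∉ E3)
    (hu : ∀ e ∈ E2, e ∈ E1 ∨ e ∈ E3) :
    Function.Injective (cutMap k E1 E2 0) ∧
      Function.Exact (cutMap k E1 E2 0) (cutMap k E2 E3 0) ∧
      Function.Surjective (cutMap k E2 E3 0) := by
  classical
  have key : ∀ (E E' : Set Ex) (x : E →₀ k) (e' : E'),
      cutMap k E E' 0 x e' = if h : (e' : Ex) ∈ E then x ⟨e', h⟩ else 0 := by
    intro E E' x e'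
    induction x using Finsupp.induction_linear with
    | zero => simp
    | add x y hx hy =>
      rw [map_add, Finsupp.add_apply, hx, hy]
      by_cases h : (e' : Ex) ∈ E
      · rw [dif_pos h, dif_pos h, dif_pos h, Finsupp.add_apply]
      · rw [dif_neg h, dif_neg h, dif_neg h, add_zero]
    | single e c =>
      have hc : (Finsupp.single e c : E →₀ k) = c • Finsupp.single e 1 := by
        rw [Finsupp.smul_single, smul_eq_mul, mul_one]
      rw [hc, map_smul]
      by_cases h1 : (e : Ex) + 0 ∈ E'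
      · rw [cutMap_of_mem k e h1]
        by_cases h2 : (e' : Ex) = e
        · have h3 : (e' : Ex) ∈ E := by rw [h2]; exact e.2
          have h4 : (⟨(e : Ex) + 0, h1⟩ : E') = e' := Subtype.ext (by simp [h2])
          have h5 : (⟨(e' : Ex), h3⟩ : E) = e := Subtype.ext h2
          rw [dif_pos h3, h4, h5]
          simp
        · have h4 : (⟨(e : Ex) + 0, h1⟩ : E') ≠ e' := by
            intro h
            apply h2
            have := congrArg Subtype.val h
            simpa using this.symm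
          rw [Finsupp.smul_apply, Finsupp.single_eq_of_ne' h4, smul_zero]
          by_cases h3 : (e' : Ex) ∈ E
          · have h5 : (e : E) ≠ ⟨(e' : Ex), h3⟩ := by
              intro h
              exact h2 (by rw [h])
            rw [dif_pos h3, Finsupp.smul_apply, Finsupp.single_eq_of_ne' h5, smul_zero]
          · rw [dif_neg h3]
      · rw [cutMap_of_not_mem k e h1]
        have h2 : (e' : Ex) ≠ e := by
          intro h
          apply h1
          rw [← h, add_zero]
          exact e'.2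
        rw [smul_zero, Finsupp.zero_apply]
        by_cases h3 : (e' : Ex) ∈ E
        · have h5 : (e : E) ≠ ⟨(e' : Ex), h3⟩ := by
            intro h
            exact h2 (by rw [h])
          rw [dif_pos h3, Finsupp.smul_apply, Finsupp.single_eq_of_ne' h5, smul_zero]
        · rw [dif_neg h3]
  refine ⟨?_, ?_, ?_⟩
  · intro x y hxy
    refine Finsupp.ext fun e => ?_
    have h := DFunLike.congr_fun hxy (⟨e, h1 e.2⟩ : E2)
    rw [key, key, dif_pos e.2, dif_pos e.2] at h
    exact h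
  · intro y
    constructor
    · intro hy
      refine ⟨cutMap k E2 E1 0 y, Finsupp.ext fun e => ?_⟩
      rw [key]
      by_cases h : (e : Ex) ∈ E1
      · rw [dif_pos h, key, dif_pos (h1 h)]
      · rw [dif_neg h]
        have h3' : (e : Ex) ∈ E3 := (hu e e.2).resolve_left h
        have h4 := DFunLike.congr_fun hy (⟨e, h3'⟩ : E3)
        rw [key, dif_pos e.2] at h4
        exact h4.symm
    · rintro ⟨x, rfl⟩
      refine Finsupp.ext fun e => ?_
      rw [key, dif_pos (h3 e.2), key, Finsupp.zero_apply, dif_neg]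
      exact fun h => hd e h e.2
  · intro z
    refine ⟨cutMap k E3 E2 0 z, Finsupp.ext fun e => ?_⟩
    rw [key, dif_pos (h3 e.2), key, dif_pos e.2]

/-- `0 → P_{N,J} → P_{N, J ∪ v} → P_{N ∪ v, J} → 0` is exact.

PROOF. At `U = (σ,a)`, `D = a + b`: `E1 = EE N (σ ∪ J) D`, `E2 = EE N (σ ∪ insert v J) D`,
`E3 = EE (insert v N) (σ ∪ J) D`. If `v ∈ σ`: `σ ∪ insert v J = σ ∪ J`, `E1 = E2`, and `E3` is empty. If `v ∉ σ`:
`v ∉ σ ∪ J`; if `N` is not disjoint from `σ ∪ J` all three are empty, otherwise `E1 = {e ∈ E2 | 0 ≤ e v}`,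
`E3 = {e ∈ E2 | e v < 0}`. Use `cutMap_exact`. -/
theorem pwSES_PN (N J : Finset Vr) (v : Vr) (hN : v ∉ N) (hJ : v ∉ J) (b : Deg) :
    PwSES (PNres k N (Finset.subset_insert v J) b) (PNproj k N J v hN hJ b) := by
  intro U
  have hmem : ∀ w : Vr, w ∉ U.σ ∪ J → w ≠ v → w ∉ U.σ ∪ insert v J := by
    intro w hw hwv h
    rcases Finset.mem_union.1 h with h | h
    · exact hw (Finset.mem_union_left _ h)
    · rcases Finset.mem_insert.1 h with h | h
      · exact hwv h
      · exact hw (Finset.mem_union_right _ h)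
  have hsub : U.σ ∪ J ⊆ U.σ ∪ insert v J :=
    Finset.union_subset_union_right (Finset.subset_insert v J)
  have hdis : Disjoint N (U.σ ∪ J) → Disjoint N (U.σ ∪ insert v J) := by
    intro h
    rw [Finset.disjoint_left] at h ⊢
    intro w hw
    exact hmem w (h hw) (fun h' => hN (h' ▸ hw))
  refine cutMap_exact k ?_ ?_ ?_ ?_
  · rintro e ⟨g1, g2, g3, g4⟩
    exact ⟨g1, hdis g2, g3, fun w hw hw' => g4 w (fun h => hw (hsub h)) hw'⟩
  · rintro e ⟨g1, g2, g3, g4⟩
    refine ⟨g1, hdis (Finset.disjoint_of_subset_left (Finset.subset_insert _ _) g2),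
      fun w hw => g3 w (Finset.mem_insert_of_mem hw), fun w hw hw' => ?_⟩
    refine g4 w (fun h => hw (hsub h)) (fun h => ?_)
    rcases Finset.mem_insert.1 h with h | h
    · exact hw (Finset.mem_union_right _ (h ▸ Finset.mem_insert_self v J))
    · exact hw' h
  · rintro e ⟨g1, g2, g3, g4⟩ ⟨f1, f2, f3, f4⟩
    have a1 := f3 v (Finset.mem_insert_self v N)
    have a2 := g4 v (Finset.disjoint_left.1 f2 (Finset.mem_insert_self v N)) hN
    omega
  · rintro e ⟨g1, g2, g3, g4⟩
    have hd1 : Disjoint N (U.σ ∪ J) := Finset.disjoint_of_subset_right hsub g2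
    by_cases hc : v ∈ U.σ ∨ 0 ≤ e v
    · left
      refine ⟨g1, hd1, g3, fun w hw hw' => ?_⟩
      by_cases hwv : w = v
      · subst hwv
        rcases hc with hc | hc
        · exact absurd (Finset.mem_union_left _ hc) hw
        · exact hc
      · exact g4 w (hmem w hw hwv) hw'
    · right
      have hc1 : v ∉ U.σ := fun h => hc (Or.inl h)
      have hc2 : e v < 0 := not_le.1 fun h => hc (Or.inr h)
      have hvm : v ∉ U.σ ∪ J := fun h => by
        rcases Finset.mem_union.1 h with h | h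
        · exact hc1 h
        · exact hJ h
      refine ⟨g1, Finset.disjoint_insert_left.2 ⟨hvm, hd1⟩, fun w hw => ?_, fun w hw hw' => ?_⟩
      · rcases Finset.mem_insert.1 hw with h | h
        · rw [h]; exact hc2
        · exact g3 w h
      · have hwv : w ≠ v := fun h => hw' (h ▸ Finset.mem_insert_self w N)
        exact g4 w (hmem w hw hwv) (fun h => hw' (Finset.mem_insert_of_mem h))

end MPbd3808.BR
end

section

/-!
# TASK P4: morphisms into the toric sheaves
-/

open CategoryTheory CategoryTheory.Limits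

namespace MPbd3808.BR

universe u
variable (k : Type u) [Field k]

/-- Morphisms `P(b) ⟶ P_{N,J}(c)` are the combinations of the monomials in `EE N J (c - b)`. -/
structure HomC (N J : Finset Vr) (b c : Deg) : Prop where
  ex : ∀ f : PPf k b ⟶ PN k N J c, ∃ p : EE N J (c - b) →₀ k, ∀ (σ : Finset Vr) (hσ : Full σ),
    (f.app (Ob.mk σ hσ (-b))).hom (oneQ [] b σ hσ) =
      (cutMap k (EE N J (c - b)) (EE N (σ ∪ J) (-b + c)) 0 p :)
  uniq : ∀ p : EE N J (c - b) →₀ k, (∀ (σ : Finset Vr), Full σ →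
    (cutMap k (EE N J (c - b)) (EE N (σ ∪ J) (-b + c)) 0 p) = 0) → p = 0

private theorem P4_comp {E E' E'' : Set Ex} (h : ∀ e ∈ E, e ∈ E'' → e ∈ E') (x : E →₀ k) :
    cutMap k E' E'' 0 (cutMap k E E' 0 x) = cutMap k E E'' 0 x := by
  have h1 := cutMap_comp k (E := E) (E' := E') (E'' := E'') (m := 0) (m' := 0) (by
    intro e he h2
    rw [add_zero, add_zero] at h2
    rw [add_zero]
    exact h e he h2) x
  rwa [add_zero] at h1

private theorem P4_deg {b c : Deg} {e : Ex} (h : degE e = c - b) : degE e = -b + c := by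
  rw [h]; abel

private theorem P4_deg' {b c : Deg} {e : Ex} (h : degE e = -b + c) : degE e = c - b := by
  rw [h]; abel

/-- `EE N J D` and `EE N (τ ∪ J) D'` are contained in `EE N (σ ∪ J) D'` -/
private theorem P4_m1 {N J σ τ : Finset Vr} {D D' : Deg} (hst : σ ⊆ τ) {e : Ex}
    (h1 : e ∈ EE N J D) (h2 : e ∈ EE N (τ ∪ J) D') : e ∈ EE N (σ ∪ J) D' := by
  obtain ⟨a1, a2, a3, a4⟩ := h1
  obtain ⟨b1, b2, b3, b4⟩ := h2
  refine ⟨b1, Finset.disjoint_of_subset_right (Finset.union_subset_union_left hst) b2, b3, ?_⟩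
  intro w hw hw'
  exact a4 w (fun h => hw (Finset.mem_union_right _ h)) hw'

private theorem P4_m2 {N J : Finset Vr} {v : Vr} (hN : v ∉ N) {D : Deg} {e : Ex}
    (h1 : e ∈ EE (insert v N) J D) : e ∈ EE N (insert v J) D := by
  obtain ⟨a1, a2, a3, a4⟩ := h1
  refine ⟨a1, ?_, fun w hw => a3 w (Finset.mem_insert_of_mem hw), ?_⟩
  · rw [Finset.disjoint_insert_right]
    exact ⟨hN, Finset.disjoint_of_subset_left (Finset.subset_insert _ _) a2⟩
  · intro w hw hw'
    refine a4 w (fun h => hw (Finset.mem_insert_of_mem h)) fun h => ?_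
    rcases Finset.mem_insert.1 h with rfl | h
    · exact hw (Finset.mem_insert_self _ _)
    · exact hw' h

private theorem P4_m3 {N J σ : Finset Vr} {v : Vr} (hN : v ∉ N) {D : Deg} {e : Ex}
    (h1 : e ∈ EE (insert v N) (σ ∪ J) D) : e ∈ EE N (σ ∪ insert v J) D := by
  have h2 := P4_m2 hN h1
  rwa [Finset.union_insert]

private theorem P4_m4 {N J : Finset Vr} {v : Vr} (hN : v ∉ N) {D : Deg} {e : Ex}
    (h1 : e ∈ EE N J D) : e ∈ EE N (insert v J) D := by
  obtain ⟨a1, a2, a3, a4⟩ := h1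
  refine ⟨a1, ?_, a3, ?_⟩
  · rw [Finset.disjoint_insert_right]
    exact ⟨hN, a2⟩
  · intro w hw hw'
    exact a4 w (fun h => hw (Finset.mem_insert_of_mem h)) hw'

private theorem P4_m5 {N J σ : Finset Vr} {v : Vr} {D D' : Deg} {e : Ex}
    (h1 : e ∈ EE N (insert v J) D) (h2 : e ∈ EE (insert v N) (σ ∪ J) D') :
    e ∈ EE (insert v N) J D := by
  obtain ⟨a1, a2, a3, a4⟩ := h1
  obtain ⟨b1, b2, b3, b4⟩ := h2
  refine ⟨a1, Finset.disjoint_of_subset_right Finset.subset_union_right b2, b3, ?_⟩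
  intro w hw hw'
  refine a4 w (fun h => ?_) (fun h => hw' (Finset.mem_insert_of_mem h))
  rcases Finset.mem_insert.1 h with rfl | h
  · exact hw' (Finset.mem_insert_self _ _)
  · exact hw h

private theorem P4_exact {N J : Finset Vr} {v : Vr} (hN : v ∉ N) (hJ : v ∉ J) (D : Deg) :
    Function.Injective (cutMap k (EE N J D) (EE N (insert v J) D) 0) ∧
      Function.Exact (cutMap k (EE N J D) (EE N (insert v J) D) 0)
        (cutMap k (EE N (insert v J) D) (EE (insert v N) J D) 0) ∧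
      Function.Surjective (cutMap k (EE N (insert v J) D) (EE (insert v N) J D) 0) := by
  refine cutMap_exact k (fun e he => P4_m4 hN he) (fun e he => P4_m2 hN he) ?_ ?_
  · rintro e ⟨a1, a2, a3, a4⟩ ⟨b1, b2, b3, b4⟩
    have h1 := a4 v hJ hN
    have h2 := b3 v (Finset.mem_insert_self _ _)
    omega
  · rintro e ⟨a1, a2, a3, a4⟩
    rw [Finset.disjoint_insert_right] at a2
    by_cases h : 0 ≤ e v
    · left
      refine ⟨a1, a2.2, a3, fun w hw hw' => ?_⟩
      by_cases hwv : w = v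
      · rw [hwv]; exact h
      · refine a4 w (fun h' => ?_) hw'
        rcases Finset.mem_insert.1 h' with h' | h'
        · exact hwv h'
        · exact hw h'
    · right
      refine ⟨a1, ?_, fun w hw => ?_, fun w hw hw' => ?_⟩
      · rw [Finset.disjoint_insert_left]
        exact ⟨hJ, a2.2⟩
      · rcases Finset.mem_insert.1 hw with rfl | hw
        · exact not_le.1 h
        · exact a3 w hw
      · refine a4 w (fun h' => ?_) (fun h' => hw' (Finset.mem_insert_of_mem h'))
        rcases Finset.mem_insert.1 h' with rfl | h'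
        · exact hw' (Finset.mem_insert_self _ _)
        · exact hw h'

/-- Every combination of monomials gives a morphism.

PROOF. `homQQ_exists` for `G = []` with `x σ := cutMap k _ _ 0 p`; compatible by `cutMap_comp`
(`e ∈ EE N J (c-b)` and `e ∈ EE N (τ ∪ J) _` imply `e ∈ EE N (σ ∪ J) _` for `σ ⊆ τ`). -/
theorem exists_hom_PN (N J : Finset Vr) (b c : Deg) (p : EE N J (c - b) →₀ k) :
    ∃ f : PPf k b ⟶ PN k N J c, ∀ (σ : Finset Vr) (hσ : Full σ),
      (f.app (Ob.mk σ hσ (-b))).hom (oneQ [] b σ hσ) =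
        (cutMap k (EE N J (c - b)) (EE N (σ ∪ J) (-b + c)) 0 p :) := by
  refine homQQ_exists [] (fun g hg => absurd hg (List.not_mem_nil)) b (PN k N J c)
    (fun σ hσ => cutMap k (EE N J (c - b)) (EE N (σ ∪ J) (-b + c)) 0 p) ?_
    (fun g hg => absurd hg (List.not_mem_nil))
  intro σ τ hσ hτ hst
  exact P4_comp k (E := EE N J (c - b)) (E' := EE N (σ ∪ J) (-b + c))
    (E'' := EE N (τ ∪ J) (-b + c)) (fun e he h => P4_m1 hst he h) p

/-- PROOF. `f : P(b) ⟶ P_{N∪v,J}(c)` comes from `p ∈ (EE (insert v N) J (c-b) →₀ k)`; since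
`EE (insert v N) J ⊆ EE N (insert v J)` (`v ∉ N`), `p` defines `f' : P(b) ⟶ P_{N,J∪v}(c)` (`exists_hom_PN`), and
`f' ≫ PNproj = f` by `homQQ_ext` and `cutMap_comp` (from `EE N (insert v J)` through `EE N (σ ∪ insert v J)` to
`EE (insert v N) (σ ∪ J)`). -/
theorem homSurj_PNproj (N J : Finset Vr) (v : Vr) (hN : v ∉ N) (hJ : v ∉ J) (b c : Deg)
    (h : HomC k (insert v N) J b c) (f : PPf k b ⟶ PN k (insert v N) J c) :
    ∃ f' : PPf k b ⟶ PN k N (insert v J) c, f' ≫ PNproj k N J v hN hJ c = f := by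
  obtain ⟨p, hp⟩ := h.ex f
  obtain ⟨f', hf'⟩ := exists_hom_PN k N (insert v J) b c
    (cutMap k (EE (insert v N) J (c - b)) (EE N (insert v J) (c - b)) 0 p)
  refine ⟨f', homQQ_ext [] b fun σ hσ => ?_⟩
  rw [hp σ hσ]
  change cutMap k (EE N (σ ∪ insert v J) (-b + c)) (EE (insert v N) (σ ∪ J) (-b + c)) 0
    ((f'.app (Ob.mk σ hσ (-b))).hom (oneQ [] b σ hσ)) = _
  rw [hf' σ hσ]
  rw [P4_comp k (E := EE (insert v N) J (c - b)) (E' := EE N (insert v J) (c - b))
    (E'' := EE N (σ ∪ insert v J) (-b + c)) (fun e he _ => P4_m2 hN he) p]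
  exact P4_comp k (E := EE (insert v N) J (c - b)) (E' := EE N (σ ∪ insert v J) (-b + c))
    (E'' := EE (insert v N) (σ ∪ J) (-b + c)) (fun e _ h => P4_m3 hN h) p

/-- PROOF. ex: for `f : P(b) ⟶ P_{N,J}(c)` the composition with `PNres` to `P_{N,J∪v}(c)` comes from
`p2 ∈ (EE N (insert v J) D →₀ k)`, `D = c - b`. Its composition with `PNproj` is zero (`pwSES_PN`), so the part `p3` of `p2` on
`EE (insert v N) J D` (that is `{e | e v < 0}`) has zero images in all `EE (insert v N) (σ ∪ J)` and vanishes by `uniq`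
for `(insert v N, J)`. Hence `p2` is the image of some `p ∈ (EE N J D →₀ k)` (`{e | 0 ≤ e v}`). The sections of `f` and
of `p` over `σ` have the same image under the injective map `P_{N,J} → P_{N,J∪v}` (`pwSES_PN`; `cutMap_comp`).
uniq: if all images of `p` vanish then those in `P_{N,J∪v}` do, so the image of `p` in `EE N (insert v J) D →₀ k` is `0`,
and this map is injective (inclusion `EE N J D ⊆ EE N (insert v J) D`). -/
theorem homC_step (N J : Finset Vr) (v : Vr) (hN : v ∉ N) (hJ : v ∉ J) (b c : Deg)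
    (h1 : HomC k N (insert v J) b c) (h2 : HomC k (insert v N) J b c) : HomC k N J b c := by
  have hex := P4_exact k hN hJ (c - b)
  constructor
  · intro f
    obtain ⟨p2, hp2⟩ := h1.ex (f ≫ PNres k N (Finset.subset_insert v J) c)
    have h0 : (f ≫ PNres k N (Finset.subset_insert v J) c) ≫ PNproj k N J v hN hJ c = 0 := by
      rw [Category.assoc, (pwSES_PN k N J v hN hJ c).comp_eq_zero, comp_zero]
    have hp3 : cutMap k (EE N (insert v J) (c - b)) (EE (insert v N) J (c - b)) 0 p2 = 0 := by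
      refine h2.uniq _ fun σ hσ => ?_
      rw [P4_comp k (E := EE N (insert v J) (c - b)) (E' := EE (insert v N) J (c - b))
        (E'' := EE (insert v N) (σ ∪ J) (-b + c)) (fun e he h => P4_m5 he h) p2,
        ← P4_comp k (E := EE N (insert v J) (c - b)) (E' := EE N (σ ∪ insert v J) (-b + c))
        (E'' := EE (insert v N) (σ ∪ J) (-b + c)) (fun e _ h => P4_m3 hN h) p2]
      have h3 := congrArg (fun g => (g.app (Ob.mk σ hσ (-b))).hom (oneQ [] b σ hσ)) h0
      have h4 : cutMap k (EE N (σ ∪ insert v J) (-b + c)) (EE (insert v N) (σ ∪ J) (-b + c)) 0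
        (((f ≫ PNres k N (Finset.subset_insert v J) c).app (Ob.mk σ hσ (-b))).hom
          (oneQ [] b σ hσ)) = 0 := h3
      rw [hp2 σ hσ] at h4
      exact h4
    obtain ⟨p, hp⟩ := (hex.2.1 p2).1 hp3
    refine ⟨p, fun σ hσ => ?_⟩
    refine (pwSES_PN k N J v hN hJ c (Ob.mk σ hσ (-b))).1 ?_
    have h3 := hp2 σ hσ
    change cutMap k (EE N (σ ∪ J) (-b + c)) (EE N (σ ∪ insert v J) (-b + c)) 0
      ((f.app (Ob.mk σ hσ (-b))).hom (oneQ [] b σ hσ)) =
        cutMap k (EE N (insert v J) (c - b)) (EE N (σ ∪ insert v J) (-b + c)) 0 p2 at h3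
    change cutMap k (EE N (σ ∪ J) (-b + c)) (EE N (σ ∪ insert v J) (-b + c)) 0
      ((f.app (Ob.mk σ hσ (-b))).hom (oneQ [] b σ hσ)) =
        cutMap k (EE N (σ ∪ J) (-b + c)) (EE N (σ ∪ insert v J) (-b + c)) 0
          (cutMap k (EE N J (c - b)) (EE N (σ ∪ J) (-b + c)) 0 p)
    rw [h3, ← hp, P4_comp k (E := EE N J (c - b)) (E' := EE N (insert v J) (c - b))
      (E'' := EE N (σ ∪ insert v J) (-b + c)) (fun e he _ => P4_m4 hN he) p,
      P4_comp k (E := EE N J (c - b)) (E' := EE N (σ ∪ J) (-b + c))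
      (E'' := EE N (σ ∪ insert v J) (-b + c)) (fun e he h => ?_) p]
    obtain ⟨a1, a2, a3, a4⟩ := he
    obtain ⟨b1, b2, b3, b4⟩ := h
    refine ⟨b1, Finset.disjoint_of_subset_right
      (Finset.union_subset_union_right (Finset.subset_insert _ _)) b2, b3, ?_⟩
    intro w hw hw'
    exact a4 w (fun h => hw (Finset.mem_union_right _ h)) hw'
  · intro p hp
    have h3 : cutMap k (EE N J (c - b)) (EE N (insert v J) (c - b)) 0 p = 0 := by
      refine h1.uniq _ fun σ hσ => ?_
      rw [P4_comp k (E := EE N J (c - b)) (E' := EE N (insert v J) (c - b))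
        (E'' := EE N (σ ∪ insert v J) (-b + c)) (fun e he _ => P4_m4 hN he) p,
        ← P4_comp k (E := EE N J (c - b)) (E' := EE N (σ ∪ J) (-b + c))
        (E'' := EE N (σ ∪ insert v J) (-b + c)) (fun e he h => ?_) p, hp σ hσ, map_zero]
      obtain ⟨a1, a2, a3, a4⟩ := he
      obtain ⟨b1, b2, b3, b4⟩ := h
      refine ⟨b1, Finset.disjoint_of_subset_right
        (Finset.union_subset_union_right (Finset.subset_insert _ _)) b2, b3, ?_⟩
      intro w hw hw'
      exact a4 w (fun h => hw (Finset.mem_union_right _ h)) hw'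
    exact hex.1 (h3.trans (map_zero _).symm)

/-- PROOF. `J` full. ex: let `x σ` be the image of `oneQ`. `p := cutMap k _ _ 0 (x J)` from `EE N (J ∪ J) (-b + c)` to
`EE N J (c - b)` (the same set). For all `σ`: the restrictions of `x σ` and of `x J` to `σ ∪ J` agree with `x (σ ∪ J)`
(`homQQ_compat`), and the restriction from `σ` to `σ ∪ J` is the bijection `EE N (σ ∪ J) = EE N (σ ∪ J ∪ J)`.
uniq: `σ = J`: the map `EE N J (c - b) → EE N (J ∪ J) (-b + c)` is a bijection of equal sets. -/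
theorem homC_base (N : Finset Vr) {J : Finset Vr} (hJ : Full J) (b c : Deg) : HomC k N J b c := by
  have e1 : ∀ {σ : Finset Vr}, σ ∪ J ∪ J = σ ∪ J := fun {σ} => by
    rw [Finset.union_assoc, Finset.union_self]
  constructor
  · intro f
    refine ⟨cutMap k (EE N (J ∪ J) (-b + c)) (EE N J (c - b)) 0
      ((f.app (Ob.mk J hJ (-b))).hom (oneQ [] b J hJ)), fun σ hσ => ?_⟩
    have hU : Full (σ ∪ J) := hσ.mono Finset.subset_union_left
    have h1 := homQQ_compat [] b f hσ hU Finset.subset_union_left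
    have h2 := homQQ_compat [] b f hJ hU Finset.subset_union_right
    change cutMap k (EE N (σ ∪ J) (-b + c)) (EE N (σ ∪ J ∪ J) (-b + c)) 0
      ((f.app (Ob.mk σ hσ (-b))).hom (oneQ [] b σ hσ)) = _ at h1
    change cutMap k (EE N (J ∪ J) (-b + c)) (EE N (σ ∪ J ∪ J) (-b + c)) 0
      ((f.app (Ob.mk J hJ (-b))).hom (oneQ [] b J hJ)) = _ at h2
    have h3 := congrArg (cutMap k (EE N (σ ∪ J ∪ J) (-b + c)) (EE N (σ ∪ J) (-b + c)) 0)
      (h1.trans h2.symm)
    rw [P4_comp k (E := EE N (σ ∪ J) (-b + c)) (E' := EE N (σ ∪ J ∪ J) (-b + c))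
      (E'' := EE N (σ ∪ J) (-b + c)) (fun e he _ => by rw [e1]; exact he), cutMap_self,
      P4_comp k (E := EE N (J ∪ J) (-b + c)) (E' := EE N (σ ∪ J ∪ J) (-b + c))
      (E'' := EE N (σ ∪ J) (-b + c)) (fun e _ h => by rw [e1]; exact h)] at h3
    rw [P4_comp k (E := EE N (J ∪ J) (-b + c)) (E' := EE N J (c - b))
      (E'' := EE N (σ ∪ J) (-b + c)) (fun e he _ => ?_)]
    · exact h3
    · rw [Finset.union_self] at he
      exact ⟨P4_deg' he.1, he.2⟩
  · intro p hp
    have h1 := congrArg (cutMap k (EE N (J ∪ J) (-b + c)) (EE N J (c - b)) 0) (hp J hJ)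
    rw [P4_comp k (E := EE N J (c - b)) (E' := EE N (J ∪ J) (-b + c))
      (E'' := EE N J (c - b)) (fun e he _ => ?_), cutMap_self, map_zero] at h1
    · exact h1
    · rw [Finset.union_self]
      exact ⟨P4_deg he.1, he.2⟩

/-- PROOF. All full `σ` meet the family `i`, which is contained in `N`; so `EE N (σ ∪ J) _ = ∅`, all sections of
`P_{N,J}` vanish, and `EE N J (c-b) = ∅` by hypothesis. -/
theorem homC_leaf (N J : Finset Vr) (i : Fin 4) (hi : ∀ v, fam v = i → v ∈ N) (b c : Deg)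
    (hE : EE N J (c - b) = ∅) : HomC k N J b c := by
  constructor
  · intro f
    refine ⟨0, fun σ hσ => ?_⟩
    have h1 : IsEmpty (EE N (σ ∪ J) (-b + c)) := by
      rw [Set.isEmpty_coe_sort]
      refine Set.eq_empty_of_forall_notMem ?_
      rintro e ⟨a1, a2, a3, a4⟩
      obtain ⟨v, hv, hv'⟩ := hσ i
      exact Finset.disjoint_left.1 a2 (hi v hv') (Finset.mem_union_left _ hv)
    have h2 : Subsingleton (EE N (σ ∪ J) (-b + c) →₀ k) := inferInstance
    exact h2.elim _ _
  · intro p _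
    have h1 : IsEmpty (EE N J (c - b)) := by
      rw [Set.isEmpty_coe_sort]
      exact hE
    exact Subsingleton.elim _ _

end MPbd3808.BR
end

section

/-!
# TASK P5: cohomology of the toric sheaves: the inductive step
-/

open CategoryTheory CategoryTheory.Limits

namespace MPbd3808.BR

universe u
variable (k : Type u) [Field k]

/-- the statement proved by induction -/
def CC (b c : Deg) (N J : Finset Vr) : Prop :=
  ExtAc.{u+1} (PT k b) (PNT k N J c) ∧ HomC k N J b c

/-- PROOF. `extAc_PT_of_local` and `unitF_PN_bijective`; `homC_base`. -/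
theorem CC_base (b c : Deg) (N J : Finset Vr) (hJ : Full J) : CC k b c N J :=
  ⟨extAc_PT_of_local k hJ b (PNT k N J c) (fun U => unitF_PN_bijective k N J c U),
    homC_base k N hJ b c⟩

/-- PROOF. `shortExact_iff_pw` for the sequence `pwSES_PN` in `QCohT k`, `extAc_left` with `homSurj_PNproj`; `homC_step`. -/
theorem CC_step (b c : Deg) (N J : Finset Vr) (v : Vr) (hN : v ∉ N) (hJ : v ∉ J)
    (h1 : CC k b c N (insert v J)) (h2 : CC k b c (insert v N) J) : CC k b c N J := by
  refine ⟨?_, homC_step k N J v hN hJ b c h1.2 h2.2⟩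
  have hse := pwSES_PN k N J v hN hJ c
  let f : PNT k N J c ⟶ PNT k N (insert v J) c :=
    (isLoc k).homMk (PNres k N (Finset.subset_insert v J) c)
  let g : PNT k N (insert v J) c ⟶ PNT k (insert v N) J c :=
    (isLoc k).homMk (PNproj k N J v hN hJ c)
  have hfg : f ≫ g = 0 := (isLoc k).ι.map_injective hse.comp_eq_zero
  have hS : (ShortComplex.mk f g hfg).ShortExact := (shortExact_iff_pw (isLoc k) _).2 hse
  refine extAc_left hS h1.1 h2.1 ?_
  intro φ
  obtain ⟨f', hf'⟩ := homSurj_PNproj k N J v hN hJ b c h2.2 φ.hom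
  exact ⟨(isLoc k).homMk f', (isLoc k).ι.map_injective hf'⟩

/-- PROOF. All sections of `P_{N,J}` vanish (every full `σ` meets the family `i` contained in `N`), so `PNT k N J c` is
zero (`isZero_iff_pw`) and all Ext groups vanish (`Ext` into a zero object: `α = α.comp (mk₀ (𝟙 _)) = 0`); `homC_leaf`. -/
theorem CC_leaf (b c : Deg) (N J : Finset Vr) (i : Fin 4) (hi : ∀ v, fam v = i → v ∈ N)
    (hE : EE N J (c - b) = ∅) : CC k b c N J := by
  refine ⟨?_, homC_leaf k N J i hi b c hE⟩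
  have hz : IsZero (PNT k N J c) := by
    refine (isZero_iff_pw (isLoc k) _).2 fun U => ?_
    have he : IsEmpty (EE N (U.σ ∪ J) (U.a + c)) := by
      refine ⟨?_⟩
      rintro ⟨e, -, h2, -, -⟩
      obtain ⟨v, hv, hvi⟩ := U.full i
      exact Finset.disjoint_left.1 h2 (hi v hvi) (Finset.mem_union_left _ hv)
    change Subsingleton (EE N (U.σ ∪ J) (U.a + c) →₀ k)
    infer_instance
  intro n _ e
  rw [← Abelian.Ext.comp_mk₀_id e, hz.eq_of_src (𝟙 (PNT k N J c)) 0, Abelian.Ext.mk₀_zero,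
    Abelian.Ext.comp_zero]

end MPbd3808.BR
end

section

/-!
# TASK P6: cohomology of the toric variety: combinatorics
-/

open CategoryTheory CategoryTheory.Limits

namespace MPbd3808.BR

/-- the condition on the degree `D = (s; f, H, h)` -/
def Good (D : Deg) : Prop :=
  -1 ≤ D 0 ∧ (D 0 < 0 ∨ -3 ≤ D 3) ∧ (D 0 < 0 ∨ D 3 < 0 ∨ -1 ≤ D 2) ∧
    (D 0 < 0 ∨ D 3 < 0 ∨ D 2 < 0 ∨ -1 ≤ D 1)

/-- The coordinates of the degree of a monomial. PROOF. Expand the sum over `Fin 10`. -/
theorem degE_coord (e : Ex) : degE e 0 = e 0 + e 1 ∧ degE e 1 = e 2 + e 3 - e 4 ∧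
    degE e 2 = e 4 + e 5 ∧ degE e 3 = e 6 + e 7 + e 8 + e 9 := by
  unfold degE
  simp only [Finset.sum_apply, Pi.smul_apply, smul_eq_mul]
  refine ⟨?_, ?_, ?_, ?_⟩ <;> simp [Fin.sum_univ_succ, dg] <;> first | rfl | (ring_nf; try rfl)

/-- For a good degree `D` there is no monomial `x^e` of degree `D` such that all variables of one family have negative
exponent and all variables of the earlier families (order `s, z, x, u`, that is `0, 3, 2, 1`) have non-negative exponent.

PROOF. `degE_coord` and `omega`: family `s`: `e 0 + e 1 = D 0 ≥ -1`. Family `z` (`3`): `e 0, e 1 ≥ 0` so `D 0 ≥ 0` and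
`D 3 ≥ -3`. Family `x` (`2`): `D 0, D 3 ≥ 0`, `D 2 ≥ -1`. Family `u` (`1`): `D 0, D 3, D 2 ≥ 0`, so `D 1 ≥ -1` and
`e 2 + e 3 = D 1 + e 4 ≥ -1`. -/
theorem good_cond {D : Deg} (hD : Good D) (e : Ex) (he : degE e = D) :
    ¬ (∀ v, fam v = 0 → e v < 0) ∧
    ((∀ v, fam v = 0 → 0 ≤ e v) → ¬ (∀ v, fam v = 3 → e v < 0)) ∧
    ((∀ v, fam v = 0 ∨ fam v = 3 → 0 ≤ e v) → ¬ (∀ v, fam v = 2 → e v < 0)) ∧
    ((∀ v, fam v = 0 ∨ fam v = 3 ∨ fam v = 2 → 0 ≤ e v) → ¬ (∀ v, fam v = 1 → e v < 0)) := by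
  obtain ⟨c0, c1, c2, c3⟩ := degE_coord e
  rw [he] at c0 c1 c2 c3
  obtain ⟨g0, g1, g2, g3⟩ := hD
  refine ⟨?_, ?_, ?_, ?_⟩
  · intro h
    have h0 := h 0 (by decide)
    have h1 := h 1 (by decide)
    omega
  · intro hn h
    have n0 := hn 0 (by decide)
    have n1 := hn 1 (by decide)
    have h6 := h 6 (by decide)
    have h7 := h 7 (by decide)
    have h8 := h 8 (by decide)
    have h9 := h 9 (by decide)
    omega
  · intro hn h
    have n0 := hn 0 (by decide)
    have n1 := hn 1 (by decide)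
    have n6 := hn 6 (by decide)
    have n7 := hn 7 (by decide)
    have n8 := hn 8 (by decide)
    have n9 := hn 9 (by decide)
    have h4 := h 4 (by decide)
    have h5 := h 5 (by decide)
    omega
  · intro hn h
    have n0 := hn 0 (by decide)
    have n1 := hn 1 (by decide)
    have n6 := hn 6 (by decide)
    have n7 := hn 7 (by decide)
    have n8 := hn 8 (by decide)
    have n9 := hn 9 (by decide)
    have n4 := hn 4 (by decide)
    have n5 := hn 5 (by decide)
    have h2 := h 2 (by decide)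
    have h3 := h 3 (by decide)
    omega

/-- One stage: resolving the family `i`.

PROOF. We show `C N' J` for all `N' ⊇ N` with `N' \ N` in the family `i`, by downward induction on the number of
elements of the family `i` not in `N'`. If the family is contained in `N'`: `leaf` and `h2` (here `N'` is `N` together
with the whole family). Otherwise choose `v ∉ N'` in the family; `v ∉ J`; apply `step` with `h1` and the induction
hypothesis for `insert v N'`. -/
theorem stage {C : Finset Vr → Finset Vr → Prop} {D : Deg}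
    (step : ∀ N J v, v ∉ N → v ∉ J → C N (insert v J) → C (insert v N) J → C N J)
    (leaf : ∀ N J (i : Fin 4), (∀ v, fam v = i → v ∈ N) → EE N J D = ∅ → C N J)
    (i : Fin 4) (N J : Finset Vr) (hN : ∀ v ∈ N, fam v ≠ i) (hJ : ∀ v ∈ J, fam v ≠ i)
    (h1 : ∀ (N' : Finset Vr) (v : Vr), N ⊆ N' → (∀ w ∈ N', w ∈ N ∨ fam w = i) → fam v = i → v ∉ N' →
      C N' (insert v J))
    (h2 : EE (N ∪ Finset.univ.filter (fun v => fam v = i)) J D = ∅) : C N J := by
  have key : ∀ (n : ℕ) (N' : Finset Vr), N ⊆ N' → (∀ w ∈ N', w ∈ N ∨ fam w = i) →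
      (Finset.univ.filter (fun v => fam v = i ∧ v ∉ N')).card = n → C N' J := by
    intro n
    induction n with
    | zero =>
      intro N' hNN hfam hcard
      rw [Finset.card_eq_zero] at hcard
      have hall : ∀ v, fam v = i → v ∈ N' := by
        intro v hv
        by_contra hv'
        have : v ∈ Finset.univ.filter (fun v => fam v = i ∧ v ∉ N') := by simp [hv, hv']
        rw [hcard] at this
        exact absurd this (Finset.notMem_empty v)
      refine leaf N' J i hall ?_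
      rw [show N' = N ∪ Finset.univ.filter (fun v => fam v = i) from ?_]
      · exact h2
      · ext w
        simp only [Finset.mem_union, Finset.mem_filter, Finset.mem_univ, true_and]
        constructor
        · exact hfam w
        · rintro (hw | hw)
          · exact hNN hw
          · exact hall w hw
    | succ n ih =>
      intro N' hNN hfam hcard
      have hne : (Finset.univ.filter (fun v => fam v = i ∧ v ∉ N')).Nonempty := by
        rw [← Finset.card_pos, hcard]
        exact Nat.succ_pos n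
      obtain ⟨v, hv⟩ := hne
      simp only [Finset.mem_filter, Finset.mem_univ, true_and] at hv
      obtain ⟨hvi, hvN⟩ := hv
      have hvJ : v ∉ J := fun h => hJ v h hvi
      refine step N' J v hvN hvJ (h1 N' v hNN hfam hvi hvN) (ih (insert v N') ?_ ?_ ?_)
      · exact hNN.trans (Finset.subset_insert _ _)
      · intro w hw
        rcases Finset.mem_insert.1 hw with rfl | hw
        · exact Or.inr hvi
        · exact hfam w hw
      · have herase : Finset.univ.filter (fun w => fam w = i ∧ w ∉ insert v N') =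
            (Finset.univ.filter (fun w => fam w = i ∧ w ∉ N')).erase v := by
          ext w
          simp only [Finset.mem_filter, Finset.mem_univ, true_and, Finset.mem_insert, not_or,
            Finset.mem_erase]
          tauto
        rw [herase, Finset.card_erase_of_mem (by simp [hvi, hvN]), hcard]
        rfl
  exact key _ N (Finset.Subset.refl _) (fun w hw => Or.inl hw) rfl

/-- PROOF. `stage` four times. Outermost family `u` (`i = 1`), `N = J = ∅`: `h2` is `good_cond` (last part: an element of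
`EE (family u) ∅ D` is negative on `u` and non-negative elsewhere). For `C N1 {v1}` (`N1` in the family `u`,
`v1 ∈ u`, `v1 ∉ N1`) use `stage` for the family `x` (`i = 2`): `h2`: an element of `EE (N1 ∪ x) {v1} D` is negative on `x` and
non-negative on the variables outside `x`, `N1`, `v1`, in particular on `s` and `z`. Then
`C (N1 ∪ N2) {v2, v1}` by `stage` for `z` (`i = 3`), and then for `s` (`i = 0`), where all four families are met by `J`
and `base` applies. -/
theorem toric_induction {C : Finset Vr → Finset Vr → Prop} {D : Deg} (hD : Good D)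
    (base : ∀ N J, Full J → C N J)
    (step : ∀ N J v, v ∉ N → v ∉ J → C N (insert v J) → C (insert v N) J → C N J)
    (leaf : ∀ N J (i : Fin 4), (∀ v, fam v = i → v ∈ N) → EE N J D = ∅ → C N J) : C ∅ ∅ := by
  have hEE : ∀ (N J : Finset Vr) (i : Fin 4), (∀ e : Ex, degE e = D → (∀ v, fam v = i → e v < 0) →
      (∀ v, v ∉ J → v ∉ N → fam v ≠ i → 0 ≤ e v) → False) →
      EE (N ∪ Finset.univ.filter (fun v => fam v = i)) J D = ∅ := by
    intro N J i h
    rw [Set.eq_empty_iff_forall_notMem]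
    rintro e ⟨h1, -, h3, h4⟩
    refine h e h1 (fun v hv => h3 v ?_) (fun v hvJ hvN hvi => h4 v hvJ ?_)
    · simp [hv]
    · simp [hvN, hvi]
  refine stage step leaf 1 ∅ ∅ (by simp) (by simp) ?_ (hEE ∅ ∅ 1 ?_)
  swap
  · intro e he hneg hnon
    refine (good_cond hD e he).2.2.2 (fun v hv => hnon v (by simp) (by simp) ?_) hneg
    rcases hv with hv | hv | hv <;> rw [hv] <;> decide
  intro N1 v1 _ hN1 hv1 _
  have hN1' : ∀ w ∈ N1, fam w = 1 := fun w hw => (hN1 w hw).resolve_left (by simp)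
  refine stage step leaf 2 N1 (insert v1 ∅) (fun v hv => by rw [hN1' v hv]; decide) ?_ ?_
    (hEE _ _ 2 ?_)
  · intro v hv
    simp only [Finset.mem_insert, Finset.notMem_empty, or_false] at hv
    rw [hv, hv1]
    decide
  swap
  · intro e he hneg hnon
    refine (good_cond hD e he).2.2.1 (fun v hv => hnon v ?_ ?_ ?_) hneg
    · simp only [Finset.mem_insert, Finset.notMem_empty, or_false]
      rintro rfl
      rw [hv1] at hv
      revert hv
      decide
    · intro hv'
      rw [hN1' v hv'] at hv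
      revert hv
      decide
    · rcases hv with hv | hv <;> rw [hv] <;> decide
  intro N2 v2 _ hN2 hv2 _
  have hN2' : ∀ w ∈ N2, fam w = 1 ∨ fam w = 2 := fun w hw => (hN2 w hw).imp (hN1' w) id
  refine stage step leaf 3 N2 (insert v2 (insert v1 ∅)) ?_ ?_ ?_ (hEE _ _ 3 ?_)
  · intro v hv
    rcases hN2' v hv with h | h <;> rw [h] <;> decide
  · intro v hv
    simp only [Finset.mem_insert, Finset.notMem_empty, or_false] at hv
    rcases hv with rfl | rfl
    · rw [hv2]; decide
    · rw [hv1]; decide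
  swap
  · intro e he hneg hnon
    refine (good_cond hD e he).2.1 (fun v hv => hnon v ?_ ?_ ?_) hneg
    · simp only [Finset.mem_insert, Finset.notMem_empty, or_false]
      rintro (rfl | rfl)
      · rw [hv2] at hv
        revert hv
        decide
      · rw [hv1] at hv
        revert hv
        decide
    · intro hv'
      rcases hN2' v hv' with h | h <;> rw [h] at hv <;> revert hv <;> decide
    · rw [hv]; decide
  intro N3 v3 _ hN3 hv3 _
  have hN3' : ∀ w ∈ N3, fam w = 1 ∨ fam w = 2 ∨ fam w = 3 := fun w hw => by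
    rcases hN3 w hw with h | h
    · rcases hN2' w h with h' | h'
      · exact Or.inl h'
      · exact Or.inr (Or.inl h')
    · exact Or.inr (Or.inr h)
  refine stage step leaf 0 N3 (insert v3 (insert v2 (insert v1 ∅))) ?_ ?_ ?_ (hEE _ _ 0 ?_)
  · intro v hv
    rcases hN3' v hv with h | h | h <;> rw [h] <;> decide
  · intro v hv
    simp only [Finset.mem_insert, Finset.notMem_empty, or_false] at hv
    rcases hv with rfl | rfl | rfl
    · rw [hv3]; decide
    · rw [hv2]; decide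
    · rw [hv1]; decide
  swap
  · intro e he hneg _
    exact (good_cond hD e he).1 hneg
  intro N4 v4 _ _ hv4 _
  refine base _ _ ?_
  intro i
  have hi : i = 0 ∨ i = 1 ∨ i = 2 ∨ i = 3 := by
    revert i
    decide
  rcases hi with rfl | rfl | rfl | rfl
  · exact ⟨v4, by simp, hv4⟩
  · exact ⟨v1, by simp, hv1⟩
  · exact ⟨v2, by simp, hv2⟩
  · exact ⟨v3, by simp, hv3⟩

end MPbd3808.BR
end

section

/-!
# TASK P7: cohomology of the toric variety
-/

open CategoryTheory CategoryTheory.Limits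

namespace MPbd3808.BR

universe u
variable (k : Type u) [Field k]

theorem P7_cutMap_apply {E E' : Set Ex} {m : Ex} (x : E →₀ k) (e' : E') (h : (e' : Ex) - m ∈ E) :
    cutMap k E E' m x e' = x ⟨e' - m, h⟩ := by
  suffices H : Finsupp.lapply e' ∘ₗ cutMap k E E' m = Finsupp.lapply (⟨e' - m, h⟩ : E) from
    LinearMap.congr_fun H x
  refine Finsupp.lhom_ext' fun e => LinearMap.ext_ring ?_
  simp only [LinearMap.comp_apply, Finsupp.lsingle_apply, Finsupp.lapply_apply]
  by_cases h1 : (e : Ex) + m ∈ E'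
  · rw [cutMap_of_mem k e h1]
    by_cases h2 : (e : Ex) + m = e'
    · have e1 : (⟨(e : Ex) + m, h1⟩ : E') = e' := Subtype.ext h2
      have e2 : e = (⟨(e' : Ex) - m, h⟩ : E) := Subtype.ext (eq_sub_of_add_eq h2)
      rw [e1, ← e2, Finsupp.single_eq_same, Finsupp.single_eq_same]
    · have e1 : (⟨(e : Ex) + m, h1⟩ : E') ≠ e' := fun h3 => h2 (congrArg Subtype.val h3)
      have e2 : e ≠ (⟨(e' : Ex) - m, h⟩ : E) := fun h3 => h2 (by rw [h3]; simp)
      rw [Finsupp.single_eq_of_ne' e1, Finsupp.single_eq_of_ne' e2]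
  · rw [cutMap_of_not_mem k e h1]
    have e2 : e ≠ (⟨(e' : Ex) - m, h⟩ : E) := fun h3 => h1 (by rw [h3]; simp)
    rw [Finsupp.single_eq_of_ne' e2]
    rfl

theorem P7_cutMap_apply_zero {E E' : Set Ex} {m : Ex} (x : E →₀ k) (e' : E')
    (h : (e' : Ex) - m ∉ E) : cutMap k E E' m x e' = 0 := by
  suffices H : Finsupp.lapply e' ∘ₗ cutMap k E E' m = 0 from LinearMap.congr_fun H x
  refine Finsupp.lhom_ext' fun e => LinearMap.ext_ring ?_
  simp only [LinearMap.comp_apply, Finsupp.lsingle_apply, Finsupp.lapply_apply,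
    LinearMap.zero_apply]
  by_cases h1 : (e : Ex) + m ∈ E'
  · rw [cutMap_of_mem k e h1]
    have e1 : (⟨(e : Ex) + m, h1⟩ : E') ≠ e' := fun h3 => h (by rw [← h3]; simp)
    rw [Finsupp.single_eq_of_ne' e1]
  · rw [cutMap_of_not_mem k e h1]
    rfl

theorem P7_mem_EE {σ : Finset Vr} {D : Deg} {e : Ex} :
    e ∈ EE ∅ (σ ∪ ∅) D ↔ Reg σ e ∧ degE e = D := by
  constructor
  · rintro ⟨h1, -, -, h4⟩
    exact ⟨fun v hv => h4 v (by simpa using hv) (by simp), h1⟩
  · rintro ⟨h1, h2⟩
    exact ⟨h2, by simp, by simp, fun v hv _ => h1 v (by simpa using hv)⟩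

theorem P7_mem_EE' {D : Deg} {e : Ex} :
    e ∈ EE ∅ ∅ D ↔ (∀ v, 0 ≤ e v) ∧ degE e = D := by
  constructor
  · rintro ⟨h1, -, -, h4⟩
    exact ⟨fun v => h4 v (by simp) (by simp), h1⟩
  · rintro ⟨h1, h2⟩
    exact ⟨h2, by simp, by simp, fun v _ _ => h1 v⟩

/-- the coefficients -/
noncomputable def P7_coef (σ : Finset Vr) (D : Deg) : gr k σ D →ₗ[k] (EE ∅ (σ ∪ ∅) D →₀ k) where
  toFun q := Finsupp.subtypeDomain (fun e => e ∈ EE ∅ (σ ∪ ∅) D) q.1.coeff
  map_add' p q := by
    ext e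
    rfl
  map_smul' c q := by
    ext e
    rfl

theorem P7_coef_apply (σ : Finset Vr) (D : Deg) (q : gr k σ D) (e : EE ∅ (σ ∪ ∅) D) :
    P7_coef k σ D q e = q.1.coeff e.1 := rfl

theorem P7_coef_inj (σ : Finset Vr) (D : Deg) : Function.Injective (P7_coef k σ D) := by
  intro p q h
  apply Subtype.ext
  apply AddMonoidAlgebra.coeff_injective
  ext e
  by_cases he : e ∈ EE ∅ (σ ∪ ∅) D
  · have h1 := DFunLike.congr_fun h (⟨e, he⟩ : EE ∅ (σ ∪ ∅) D)
    rwa [P7_coef_apply, P7_coef_apply] at h1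
  · have hp : p.1.coeff e = 0 := by
      by_contra h1
      exact he (P7_mem_EE.2 (p.2 e h1))
    have hq : q.1.coeff e = 0 := by
      by_contra h1
      exact he (P7_mem_EE.2 (q.2 e h1))
    rw [hp, hq]

open Classical in
theorem P7_coef_surj (σ : Finset Vr) (D : Deg) : Function.Surjective (P7_coef k σ D) := by
  intro x
  refine ⟨⟨AddMonoidAlgebra.ofCoeff (Finsupp.extendDomain x), ?_⟩, ?_⟩
  · intro e he
    rw [AddMonoidAlgebra.coeff_ofCoeff] at he
    by_cases h1 : e ∈ EE ∅ (σ ∪ ∅) D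
    · exact P7_mem_EE.1 h1
    · exact absurd (by rw [Finsupp.extendDomain_apply, dif_neg h1]) he
  · ext e
    rw [P7_coef_apply]
    change Finsupp.extendDomain x e.1 = x e
    rw [Finsupp.extendDomain_apply, dif_pos e.2]

/-- the coefficients, as a linear equivalence of the quotient -/
noncomputable def P7_equiv (σ : Finset Vr) (D : Deg) :
    Qm k [] σ D ≃ₗ[k] (EE ∅ (σ ∪ ∅) D →₀ k) :=
  LinearEquiv.ofBijective
    (Submodule.liftQ _ (P7_coef k σ D) (by
      intro q hq
      have h1 : q.1 = 0 := hq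
      have h2 : q = 0 := Subtype.ext h1
      rw [LinearMap.mem_ker, h2, map_zero]))
    ⟨by
      rw [← LinearMap.ker_eq_bot, LinearMap.ker_eq_bot']
      intro y hy
      obtain ⟨q, rfl⟩ := Submodule.Quotient.mk_surjective _ y
      have h1 : P7_coef k σ D q = P7_coef k σ D 0 := by
        rw [map_zero]; exact hy
      rw [P7_coef_inj k σ D h1]
      rfl, by
      intro x
      obtain ⟨q, hq⟩ := P7_coef_surj k σ D x
      exact ⟨Submodule.Quotient.mk q, hq⟩⟩

theorem P7_equiv_mk (σ : Finset Vr) (D : Deg) (q : gr k σ D) :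
    P7_equiv k σ D (Submodule.Quotient.mk q) = P7_coef k σ D q := rfl

/-- the isomorphism -/
noncomputable def P7_iso (c : Deg) : PPf k c ≅ PN k ∅ ∅ c :=
  NatIso.ofComponents (fun U => (P7_equiv k U.σ (U.a + c)).toModuleIso) (by
    intro U V m
    refine ModuleCat.hom_ext (LinearMap.ext fun x => ?_)
    obtain ⟨q, rfl⟩ := Submodule.Quotient.mk_surjective _ x
    change P7_coef k V.σ (V.a + c) (mulGr k (Mor.le m) (Mor.e m) (Mor.reg m)
        (by rw [Mor.deg m]; abel) q) = cutMap k _ _ (Mor.e m) (P7_coef k U.σ (U.a + c) q)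
    ext e
    rw [P7_coef_apply, mulGr_coe, AddMonoidAlgebra.coeff_single_mul_apply, one_mul]
    by_cases he : (e : Ex) - Mor.e m ∈ EE ∅ (U.σ ∪ ∅) (U.a + c)
    · rw [P7_cutMap_apply k _ e he, P7_coef_apply]
      change q.1.coeff (-Mor.e m + e.1) = q.1.coeff (e.1 - Mor.e m)
      rw [neg_add_eq_sub]
    · rw [P7_cutMap_apply_zero k _ e he]
      by_contra h1
      apply he
      rw [P7_mem_EE]
      have := q.2 _ h1
      rwa [neg_add_eq_sub] at this)

/-- `P(c) = P_{∅,∅}(c)`.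

PROOF/CONSTRUCTION. At `U = (σ,a)`: `gr σ D / ⊥ → (EE ∅ (σ ∪ ∅) D →₀ k)`, `D = a + c`, `mk p ↦` the coefficients of `p`
(`Finsupp.subtypeDomain`; `e ∈ EE ∅ (σ ∪ ∅) D` iff `Reg σ e` and `degE e = D`), bijective and natural
(monomials: `cutMap` with exponent `m`). Every `p ∈ gr` is the sum of its monomials. The last clause: the section `1`
goes to the exponent `0`. -/
theorem exists_iso_PN (c : Deg) : ∃ i : PPf k c ≅ PN k ∅ ∅ c,
    ∀ (U : Ob) (q : gr k U.σ (U.a + c)) (e : EE ∅ (U.σ ∪ ∅) (U.a + c)),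
      (show EE ∅ (U.σ ∪ ∅) (U.a + c) →₀ k from
        (i.hom.app U).hom (Submodule.Quotient.mk q : Qm k [] U.σ (U.a + c))) e = q.1.coeff e.1 := by
  exact ⟨P7_iso k c, fun _ _ _ => rfl⟩

/-- PROOF. `toric_induction` for `C = CC k b c` (P5), `exists_iso_PN`, `extAc_of_iso`. -/
theorem extAc_PT (b c : Deg) (h : Good (c - b)) : ExtAc.{u+1} (PT k b) (PT k c) := by
  have h1 : CC k b c ∅ ∅ := toric_induction (C := CC k b c) h
    (fun N J hJ => CC_base k b c N J hJ)
    (fun N J v hN hJ h1 h2 => CC_step k b c N J v hN hJ h1 h2)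
    (fun N J i hi hE => CC_leaf k b c N J i hi hE)
  obtain ⟨i, -⟩ := exists_iso_PN k c
  have i' : PNT k ∅ ∅ c ≅ PT k c := (isLoc k).isoMk i.symm
  exact extAc_of_iso i' h1.1

/-- Morphisms `P(b) ⟶ P(c)` are multiplications by polynomials of degree `c - b`.

PROOF. `HomC k ∅ ∅ b c` (from `toric_induction`): the section `f(1)_σ` is `∑ p_e x^e`, `e ∈ EE ∅ ∅ (c-b)`, that is `e ≥ 0`
and of degree `c - b`. So `q = ∑ p_e mon e ∈ gr ∅ (c - b)` and `f = mulBy [] q` by `homQQ_ext`. -/
theorem homPT (b c : Deg) (h : Good (c - b)) (f : PPf k b ⟶ PPf k c) :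
    ∃ (q : A k) (hq : q ∈ gr k ∅ (c - b)), f = mulBy [] q (c - b) hq b c (by abel) := by
  classical
  have h1 : CC k b c ∅ ∅ := toric_induction (C := CC k b c) h
    (fun N J hJ => CC_base k b c N J hJ)
    (fun N J v hN hJ h1 h2 => CC_step k b c N J v hN hJ h1 h2)
    (fun N J i hi hE => CC_leaf k b c N J i hi hE)
  obtain ⟨i, hi⟩ := exists_iso_PN k c
  obtain ⟨p, hp⟩ := h1.2.ex (f ≫ i.hom)
  have hq : (AddMonoidAlgebra.ofCoeff (Finsupp.extendDomain p) : A k) ∈ gr k ∅ (c - b) := by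
    intro e he
    rw [AddMonoidAlgebra.coeff_ofCoeff] at he
    by_cases h1 : e ∈ EE ∅ ∅ (c - b)
    · have h2 := P7_mem_EE'.1 h1
      exact ⟨fun v _ => h2.1 v, h2.2⟩
    · exact absurd (by rw [Finsupp.extendDomain_apply, dif_neg h1]) he
  refine ⟨_, hq, ?_⟩
  apply homQQ_ext
  intro σ hσ
  obtain ⟨r, hr⟩ := Submodule.Quotient.mk_surjective _
    ((f.app (Ob.mk σ hσ (-b))).hom (oneQ [] b σ hσ) : Qm k [] σ (-b + c))
  have hone : (AddMonoidAlgebra.ofCoeff (Finsupp.extendDomain p) : A k) * 1 ∈ gr k σ (-b + c) := by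
    rw [mul_one, neg_add_eq_sub]
    exact gr_mono (Finset.empty_subset σ) _ hq
  have hR : ((mulBy [] (AddMonoidAlgebra.ofCoeff (Finsupp.extendDomain p) : A k) (c - b) hq b c
      (by abel)).app (Ob.mk σ hσ (-b))).hom (oneQ [] b σ hσ) =
      (Submodule.Quotient.mk ⟨(AddMonoidAlgebra.ofCoeff (Finsupp.extendDomain p) : A k) * 1, hone⟩ :
        Qm k [] σ (-b + c)) := rfl
  rw [hR, ← hr]
  congr 1
  apply Subtype.ext
  apply AddMonoidAlgebra.coeff_injective
  ext e
  change r.1.coeff e = ((AddMonoidAlgebra.ofCoeff (Finsupp.extendDomain p) : A k) * 1).coeff e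
  rw [mul_one, AddMonoidAlgebra.coeff_ofCoeff, Finsupp.extendDomain_apply]
  by_cases he : e ∈ EE ∅ (σ ∪ ∅) (-b + c)
  · have h2 := hi (Ob.mk σ hσ (-b)) r ⟨e, he⟩
    have h3 := hp σ hσ
    have h4 : (i.hom.app (Ob.mk σ hσ (-b))).hom (Submodule.Quotient.mk r : Qm k [] σ (-b + c)) =
        ((f ≫ i.hom).app (Ob.mk σ hσ (-b))).hom (oneQ [] b σ hσ) := by
      change _ = (i.hom.app (Ob.mk σ hσ (-b))).hom
        ((f.app (Ob.mk σ hσ (-b))).hom (oneQ [] b σ hσ))
      rw [← hr]
    have h6 : (show EE ∅ (σ ∪ ∅) (-b + c) →₀ k from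
        (i.hom.app (Ob.mk σ hσ (-b))).hom (Submodule.Quotient.mk r : Qm k [] σ (-b + c))) =
        cutMap k (EE ∅ ∅ (c - b)) (EE ∅ (σ ∪ ∅) (-b + c)) 0 p := h4.trans h3
    have h5 : r.1.coeff e = (cutMap k (EE ∅ ∅ (c - b)) (EE ∅ (σ ∪ ∅) (-b + c)) 0 p) ⟨e, he⟩ := by
      rw [← h2]
      exact DFunLike.congr_fun h6 ⟨e, he⟩
    rw [h5]
    by_cases he' : e ∈ EE ∅ ∅ (c - b)
    · have he'' : ((⟨e, he⟩ : EE ∅ (σ ∪ ∅) (-b + c)) : Ex) - 0 ∈ EE ∅ ∅ (c - b) := by simpa using he'
      rw [P7_cutMap_apply k p ⟨e, he⟩ he'', dif_pos he']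
      congr 1
      apply Subtype.ext
      simp
    · have he'' : ((⟨e, he⟩ : EE ∅ (σ ∪ ∅) (-b + c)) : Ex) - 0 ∉ EE ∅ ∅ (c - b) := by simpa using he'
      rw [P7_cutMap_apply_zero k p ⟨e, he⟩ he'', dif_neg he']
  · have hr0 : r.1.coeff e = 0 := by
      by_contra h2
      exact he (P7_mem_EE.2 (r.2 e h2))
    rw [hr0]
    have he' : e ∉ EE ∅ ∅ (c - b) := by
      intro h2
      have h3 := P7_mem_EE'.1 h2
      exact he (P7_mem_EE.2 ⟨fun v _ => h3.1 v, by rw [h3.2]; abel⟩)
    rw [dif_neg he']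

/-- PROOF. Previous two: the group `gr ∅ (c - b)` is zero. -/
theorem extOrth_PT (b c : Deg) (h : Good (c - b)) (h0 : ∀ e : Ex, degE e = c - b → ¬ ∀ v, 0 ≤ e v) :
    ExtOrth.{u+1} (PT k b) (PT k c) := by
  intro n e
  rcases Nat.eq_zero_or_pos n with rfl | hn
  · obtain ⟨f, rfl⟩ := (Abelian.Ext.mk₀_bijective _ _).2 e
    obtain ⟨q, hq, hf⟩ := homPT k b c h f.hom
    have hq0 : q = 0 := by
      apply AddMonoidAlgebra.coeff_injective
      ext e
      by_contra h1
      have h2 := hq e (fun h3 => h1 (by rw [h3]; rfl))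
      exact h0 e h2.2 (fun v => h2.1 v (by simp))
    have hf0 : f = 0 := by
      apply (isLoc k).ι.map_injective
      change f.hom = 0
      rw [hf]
      subst hq0
      ext U x
      obtain ⟨r, rfl⟩ := Submodule.Quotient.mk_surjective _ x
      change (Submodule.Quotient.mk _ : Qm k [] U.σ (U.a + c)) = 0
      rw [Submodule.Quotient.mk_eq_zero]
      change (0 : A k) * r.1 ∈ idl ([] : List (A k × Deg)) U.σ (U.a + c)
      rw [zero_mul]
      exact Submodule.zero_mem _
    rw [hf0, Abelian.Ext.mk₀_zero]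
  · exact extAc_PT k b c h n hn e

end MPbd3808.BR
end

section

/-!
# TASK M2: Ext from `O_W(b)` to `O_W(c)` and `O_E(c)`, direct cases
-/

open CategoryTheory CategoryTheory.Limits

namespace MPbd3808.BR

universe u
variable (k : Type u) [Field k]

/-- Every morphism `P(b) ⟶ QQ G c` is given by a polynomial of degree `c - b`. -/
def PolyHom (G : List (A k × Deg)) (b c : Deg) : Prop :=
  ∀ f : PPf k b ⟶ QQ G c, ∃ (q : A k) (hq : q ∈ gr k ∅ (c - b)),
    f = mulBy [] q (c - b) hq b c (by abel) ≫ projQ [] G (fun _ _ => bot_le) c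

/-- the short complex of a regular element -/
private noncomputable def M2_sc (G : List (A k × Deg)) (g : A k) (d : Deg) (hg : g ∈ gr k ∅ d)
    (hreg : ∀ σ, Full σ → RegMod G σ g d) (c : Deg) : ShortComplex (QCohT k) :=
  ShortComplex.mk (X₁ := QT k G (c - d)) (X₂ := QT k G c) (X₃ := QT k ((g, d) :: G) c)
    ((isLoc k).homMk (mulBy G g d hg (c - d) c (by abel)))
    ((isLoc k).homMk (projC (g, d) G c))
    ((isLoc k).ι.map_injective (pwSES_QQ G g d hg hreg (c - d) c (by abel)).comp_eq_zero)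

private theorem M2_se (G : List (A k × Deg)) (g : A k) (d : Deg) (hg : g ∈ gr k ∅ d)
    (hreg : ∀ σ, Full σ → RegMod G σ g d) (c : Deg) : (M2_sc k G g d hg hreg c).ShortExact :=
  (shortExact_iff_pw (isLoc k) (M2_sc k G g d hg hreg c)).2
    (pwSES_QQ G g d hg hreg (c - d) c (by abel))

private theorem M2_proj (G : List (A k × Deg)) (g : A k × Deg) (c : Deg) :
    projQ [] G (fun _ _ => bot_le) c ≫ projC g G c = projQ [] (g :: G) (fun _ _ => bot_le) c := by
  ext U x
  obtain ⟨q, rfl⟩ := Submodule.Quotient.mk_surjective _ x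
  change Submodule.Quotient.mk _ = Submodule.Quotient.mk _
  congr 1
  ext1
  change (1 : A k) * ((1 : A k) * q.1) = 1 * q.1
  rw [one_mul]

private theorem M2_proj_nil (c : Deg) :
    projQ (k := k) [] [] (fun _ _ => bot_le) c = 𝟙 (QQ [] c) := by
  ext U x
  obtain ⟨q, rfl⟩ := Submodule.Quotient.mk_surjective _ x
  change Submodule.Quotient.mk _ = Submodule.Quotient.mk _
  congr 1
  ext1
  change (1 : A k) * q.1 = q.1
  rw [one_mul]

/-- The exact sequence of a regular element: vanishing.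

PROOF. In `QCohT k` (`shortExact_iff_pw`, `pwSES_QQ`): `0 → QT G (c-d) → QT G c → QT (g :: G) c → 0`;
`extAc_right`. -/
theorem extAc_PT_cons (G : List (A k × Deg)) (g : A k) (d : Deg) (hg : g ∈ gr k ∅ d)
    (hreg : ∀ σ, Full σ → RegMod G σ g d) (b c : Deg)
    (h1 : ExtAc.{u+1} (PT k b) (QT k G (c - d))) (h2 : ExtAc.{u+1} (PT k b) (QT k G c)) :
    ExtAc.{u+1} (PT k b) (QT k ((g, d) :: G) c) := by
  exact extAc_right (M2_se k G g d hg hreg c) h1 h2

/-- PROOF. `extOrth_right`. -/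
theorem extOrth_PT_cons (G : List (A k × Deg)) (g : A k) (d : Deg) (hg : g ∈ gr k ∅ d)
    (hreg : ∀ σ, Full σ → RegMod G σ g d) (b c : Deg)
    (h1 : ExtOrth.{u+1} (PT k b) (QT k G (c - d))) (h2 : ExtOrth.{u+1} (PT k b) (QT k G c)) :
    ExtOrth.{u+1} (PT k b) (QT k ((g, d) :: G) c) := by
  exact extOrth_right (M2_se k G g d hg hreg c) h1 h2

/-- PROOF. `homSurj_of_extAc`: a morphism `P(b) ⟶ QQ (g :: G) c` lifts to `QQ G c`, which is polynomial by `h2`;
`projQ [] G ≫ projC = projQ [] (g :: G)` (check on representatives). -/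
theorem polyHom_cons (G : List (A k × Deg)) (g : A k) (d : Deg) (hg : g ∈ gr k ∅ d)
    (hreg : ∀ σ, Full σ → RegMod G σ g d) (b c : Deg)
    (h1 : ExtAc.{u+1} (PT k b) (QT k G (c - d))) (h2 : PolyHom k G b c) :
    PolyHom k ((g, d) :: G) b c := by
  intro f
  obtain ⟨f', hf'⟩ := homSurj_of_extAc (M2_se k G g d hg hreg c) h1 ((isLoc k).homMk f)
  obtain ⟨q, hq, hf⟩ := h2 f'.hom
  refine ⟨q, hq, ?_⟩
  have h3 : f = f'.hom ≫ projC (g, d) G c := (congrArg (fun h => h.hom) hf').symm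
  rw [h3, hf]
  exact (Category.assoc _ _ _).trans (congrArg
    (fun h => mulBy [] q (c - b) hq b c (by abel) ≫ h) (M2_proj k G (g, d) c))

/-- PROOF. `homPT`; `projQ [] []` is the identity. -/
theorem polyHom_nil (b c : Deg) (h : Good (c - b)) : PolyHom k [] b c := by
  intro f
  obtain ⟨q, hq, hf⟩ := homPT k b c h f
  refine ⟨q, hq, ?_⟩
  rw [M2_proj_nil, Category.comp_id]
  exact hf

/-- `O_W`, the good case. PROOF. `extAc_PT_cons`, `extAc_PT`, `regMod_nil`, `fP_ne_zero`, `extAc_OM`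
(`(inMT k).obj (OM k c)` is `QT k [(fP k, dF)] c` up to the proof component, definitionally). -/
theorem extAc_OM_OM (b c : Deg) (h1 : Good (c - b)) (h2 : Good (c - dF - b)) :
    ExtAc.{u+1} (OM k b) (OM k c) := by
  exact extAc_OM k b (OM k c) (extAc_PT_cons k [] (fP k) dF fP_mem
    (fun σ _ => regMod_nil σ dF fP_ne_zero) b c (extAc_PT k b (c - dF) h2) (extAc_PT k b c h1))

theorem polyHom_OW (b c : Deg) (h1 : Good (c - b)) (h2 : Good (c - dF - b)) :
    PolyHom k [(fP k, dF)] b c := by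
  exact polyHom_cons k [] (fP k) dF fP_mem (fun σ _ => regMod_nil σ dF fP_ne_zero) b c
    (extAc_PT k b (c - dF) h2) (polyHom_nil k b c h1)

/-- PROOF. Also `extOrth_PT`: there are no monomials of the degrees `c - b`, `c - dF - b`. -/
theorem extOrth_OM_OM (b c : Deg) (h1 : Good (c - b)) (h2 : Good (c - dF - b))
    (h3 : ∀ e : Ex, degE e = c - b → ¬ ∀ v, 0 ≤ e v)
    (h4 : ∀ e : Ex, degE e = c - dF - b → ¬ ∀ v, 0 ≤ e v) : ExtOrth.{u+1} (OM k b) (OM k c) := by
  exact extOrth_OM k b (OM k c) (extOrth_PT_cons k [] (fP k) dF fP_mem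
    (fun σ _ => regMod_nil σ dF fP_ne_zero) b c (extOrth_PT k b (c - dF) h2 h4)
    (extOrth_PT k b c h1 h3))

/-- `O_E`: `0 → P(c-2d) → P(c-d)^2 → P(c) → O_E(c) → 0` as two regular elements (`regMod_nil`, `D0_ne_zero`,
`regMod_D1`). PROOF. `extAc_PT_cons` twice. -/
theorem extAc_OM_OEM (b c : Deg) (h1 : Good (c - b)) (h2 : Good (c - dD - b))
    (h3 : Good (c - dD - dD - b)) : ExtAc.{u+1} (OM k b) (OEM k c) := by
  have e1 : ExtAc.{u+1} (PT k b) (QT k [(D0 k, dD)] c) :=
    extAc_PT_cons k [] (D0 k) dD D0_mem (fun σ _ => regMod_nil σ dD D0_ne_zero) b c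
      (extAc_PT k b (c - dD) h2) (extAc_PT k b c h1)
  have e2 : ExtAc.{u+1} (PT k b) (QT k [(D0 k, dD)] (c - dD)) :=
    extAc_PT_cons k [] (D0 k) dD D0_mem (fun σ _ => regMod_nil σ dD D0_ne_zero) b (c - dD)
      (extAc_PT k b (c - dD - dD) h3) (extAc_PT k b (c - dD) h2)
  exact extAc_OM k b (OEM k c) (extAc_PT_cons k [(D0 k, dD)] (D1 k) dD D1_mem
    (fun σ _ => regMod_D1 σ) b c e2 e1)

theorem polyHom_OE (b c : Deg) (h1 : Good (c - b)) (h2 : Good (c - dD - b))
    (h3 : Good (c - dD - dD - b)) : PolyHom k [(D1 k, dD), (D0 k, dD)] b c := by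
  have e2 : ExtAc.{u+1} (PT k b) (QT k [(D0 k, dD)] (c - dD)) :=
    extAc_PT_cons k [] (D0 k) dD D0_mem (fun σ _ => regMod_nil σ dD D0_ne_zero) b (c - dD)
      (extAc_PT k b (c - dD - dD) h3) (extAc_PT k b (c - dD) h2)
  exact polyHom_cons k [(D0 k, dD)] (D1 k) dD D1_mem (fun σ _ => regMod_D1 σ) b c e2
    (polyHom_cons k [] (D0 k) dD D0_mem (fun σ _ => regMod_nil σ dD D0_ne_zero) b c
      (extAc_PT k b (c - dD) h2) (polyHom_nil k b c h1))

theorem extOrth_OM_OEM (b c : Deg) (h1 : Good (c - b)) (h2 : Good (c - dD - b))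
    (h3 : Good (c - dD - dD - b)) (g1 : ∀ e : Ex, degE e = c - b → ¬ ∀ v, 0 ≤ e v)
    (g2 : ∀ e : Ex, degE e = c - dD - b → ¬ ∀ v, 0 ≤ e v)
    (g3 : ∀ e : Ex, degE e = c - dD - dD - b → ¬ ∀ v, 0 ≤ e v) :
    ExtOrth.{u+1} (OM k b) (OEM k c) := by
  have e1 : ExtOrth.{u+1} (PT k b) (QT k [(D0 k, dD)] c) :=
    extOrth_PT_cons k [] (D0 k) dD D0_mem (fun σ _ => regMod_nil σ dD D0_ne_zero) b c
      (extOrth_PT k b (c - dD) h2 g2) (extOrth_PT k b c h1 g1)
  have e2 : ExtOrth.{u+1} (PT k b) (QT k [(D0 k, dD)] (c - dD)) :=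
    extOrth_PT_cons k [] (D0 k) dD D0_mem (fun σ _ => regMod_nil σ dD D0_ne_zero) b (c - dD)
      (extOrth_PT k b (c - dD - dD) h3 g3) (extOrth_PT k b (c - dD) h2 g2)
  exact extOrth_OM k b (OEM k c) (extOrth_PT_cons k [(D0 k, dD)] (D1 k) dD D1_mem
    (fun σ _ => regMod_D1 σ) b c e2 e1)

end MPbd3808.BR
end

section

/-!
# TASK M3: the Koszul sequences of the families with two variables
-/

open CategoryTheory CategoryTheory.Limits

namespace MPbd3808.BR

universe u
variable {k : Type u} [Field k]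

/-- multiplication by the variable `v` -/
noncomputable def mulV (G : List (A k × Deg)) (v : Vr) (b b' : Deg) (hb : b' = b + dg v) :
    QQ G b ⟶ QQ G b' :=
  mulBy G (mon (Pi.single v 1)) (dg v) (mon_single_mem v) b b' hb

private theorem M3_alg {k : Type u} [Field k] {A B C D : Type u} [AddCommGroup A] [AddCommGroup B]
    [AddCommGroup C] [AddCommGroup D] (fv : A → B) (fw : A → C) (gw : B → D) (gv : C → D)
    (hc : ∀ x, gw (fv x) = gv (fw x))
    (h : (Function.Bijective fv ∧ Function.Bijective gv) ∨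
      (Function.Bijective fw ∧ Function.Bijective gw))
    (F : A → B × C) (hF : ∀ x, F x = (fv x, fw x)) (H : B × C → D)
    (hH : ∀ y z, H (y, z) = gw y + -(gv z)) (gw0 : gw 0 = 0) (gv0 : gv 0 = 0)
    (gvn : ∀ z, gv (-z) = -(gv z)) :
    Function.Injective F ∧ Function.Exact F H ∧ Function.Surjective H := by
  refine ⟨?_, ?_, ?_⟩
  · intro x y hxy
    rw [hF, hF] at hxy
    rcases h with h | h
    · exact h.1.1 (congrArg Prod.fst hxy)
    · exact h.1.1 (congrArg Prod.snd hxy)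
  · rintro ⟨y, z⟩
    rw [hH]
    constructor
    · intro h0
      have h0' : gw y = gv z := by
        rw [← sub_eq_add_neg] at h0
        exact sub_eq_zero.1 h0
      rcases h with h | h
      · obtain ⟨x, hx⟩ := h.1.2 y
        refine ⟨x, ?_⟩
        rw [hF, hx]
        have : fw x = z := h.2.1 (by rw [← hc, hx, h0'])
        rw [this]
      · obtain ⟨x, hx⟩ := h.1.2 z
        refine ⟨x, ?_⟩
        rw [hF, hx]
        have : fv x = y := h.2.1 (by rw [hc, hx, h0'])
        rw [this]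
    · rintro ⟨x, hx⟩
      rw [hF] at hx
      obtain ⟨rfl, rfl⟩ := Prod.mk.inj hx
      rw [hc, add_neg_cancel]
  · intro t
    rcases h with h | h
    · obtain ⟨z, hz⟩ := h.2.2 t
      refine ⟨(0, -z), ?_⟩
      rw [hH, gw0, gvn, hz, neg_neg, zero_add]
    · obtain ⟨y, hy⟩ := h.2.2 t
      refine ⟨(y, 0), ?_⟩
      rw [hH, gv0, hy, neg_zero, add_zero]

private theorem M3_bij (G : List (A k × Deg)) (v : Vr) (b b' : Deg) (hb : b' = b + dg v) (U : Ob)
    (hv : v ∈ U.σ) : Function.Bijective ((mulV G v b b' hb).app U).hom := by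
  have hr : Reg U.σ (-(Pi.single v 1) : Ex) := by
    intro w hw
    have : w ≠ v := fun h => hw (h ▸ hv)
    simp [this]
  have hd : degE (-(Pi.single v 1) : Ex) = (U.a + b) - (U.a + b') := by
    rw [degE_neg, degE_single, hb]; abel
  have h1 : (mon (-(Pi.single v 1) : Ex) : A k) * mon (Pi.single v 1) = 1 := by
    simp only [mon]
    rw [AddMonoidAlgebra.single_mul_single, neg_add_cancel, mul_one, ← AddMonoidAlgebra.one_def]
  have h2 : (mon (Pi.single v 1) : A k) * mon (-(Pi.single v 1) : Ex) = 1 := by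
    rw [mul_comm, h1]
  refine Function.bijective_iff_has_inverse.2
    ⟨mulQm k G (Finset.Subset.refl U.σ) (-(Pi.single v 1)) hr hd, ?_, ?_⟩
  · intro x
    obtain ⟨q, rfl⟩ := Submodule.Quotient.mk_surjective _ x
    change (Submodule.Quotient.mk _ : Qm k G U.σ (U.a + b)) = _
    refine congrArg _ (Subtype.ext ?_)
    change mon (-(Pi.single v 1) : Ex) * (mon (Pi.single v 1) * q.1) = q.1
    rw [← mul_assoc, h1, one_mul]
  · intro x
    obtain ⟨q, rfl⟩ := Submodule.Quotient.mk_surjective _ x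
    change (Submodule.Quotient.mk _ : Qm k G U.σ (U.a + b')) = _
    refine congrArg _ (Subtype.ext ?_)
    change mon (Pi.single v 1) * (mon (-(Pi.single v 1) : Ex) * q.1) = q.1
    rw [← mul_assoc, h2, one_mul]

private theorem M3_comm (G : List (A k × Deg)) (v w : Vr) (b b1 b2 b3 : Deg) (h1 : b1 = b + dg v)
    (h2 : b2 = b + dg w) (h3 : b3 = b1 + dg w) (h4 : b3 = b2 + dg v) (U : Ob) (x) :
    ((mulV G w b1 b3 h3).app U).hom (((mulV G v b b1 h1).app U).hom x) =
      ((mulV G v b2 b3 h4).app U).hom (((mulV G w b b2 h2).app U).hom x) := by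
  obtain ⟨q, rfl⟩ := Submodule.Quotient.mk_surjective _ x
  change (Submodule.Quotient.mk _ : Qm k G U.σ (U.a + b3)) = Submodule.Quotient.mk _
  refine congrArg _ (Subtype.ext ?_)
  change mon (Pi.single w 1) * (mon (Pi.single v 1) * q.1) =
    mon (Pi.single v 1) * (mon (Pi.single w 1) * q.1)
  ring

/-- `0 → QQ G b → QQ G (b + dg v) ⊕ QQ G (b + dg w) → QQ G (b + dg v + dg w) → 0`,
`x ↦ (x_v x, x_w x)`, `(y, z) ↦ x_w y - x_v z`, is exact if `{v,w}` is a whole family.

PROOF. At `U = (σ,a)`: `v ∈ σ` or `w ∈ σ` (`Full σ`). Say `v ∈ σ` (the other case is symmetric): multiplication by `x_v` is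
bijective on sections over `σ` (`mon (-[v])` is regular on `σ` and preserves `gr` and `idl`: `mon_mul_mem_gr`, `mon_mul_mem_idl`). So
`x ↦ (x_v x, x_w x)` is injective; if `x_w y = x_v z` then with `x = x_v^(-1) y`: `x_v x = y`, `x_w x = x_v^(-1) x_w y = z`;
surjective: `t = x_w 0 - x_v (- x_v^(-1) t)`. The composition is zero since multiplications commute
(`mapQQ_mk`, on representatives). -/
theorem pwSES_koszul2 (G : List (A k × Deg)) (v w : Vr) (hvw : v ≠ w)
    (hfam : ∀ x, fam x = fam v → x = v ∨ x = w) (b b1 b2 b3 : Deg) (h1 : b1 = b + dg v)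
    (h2 : b2 = b + dg w) (h3 : b3 = b + dg v + dg w) :
    PwSES (liftF (mulV G v b b1 h1) (mulV G w b b2 h2))
      (descF (mulV G w b1 b3 (by rw [h3, h1])) (-(mulV G v b2 b3 (by rw [h3, h2]; abel)))) := by
  intro U
  have hU : v ∈ U.σ ∨ w ∈ U.σ := by
    obtain ⟨x, hx, hf⟩ := U.full (fam v)
    rcases hfam x hf with h | h
    · exact Or.inl (h ▸ hx)
    · exact Or.inr (h ▸ hx)
  have h31 : b3 = b1 + dg w := by rw [h3, h1]
  have h32 : b3 = b2 + dg v := by rw [h3, h2]; abel
  refine M3_alg (k := k) ((mulV G v b b1 h1).app U).hom ((mulV G w b b2 h2).app U).hom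
    ((mulV G w b1 b3 h31).app U).hom ((mulV G v b2 b3 h32).app U).hom
    (M3_comm G v w b b1 b2 b3 h1 h2 h31 h32 U) ?_ _ (fun x => liftF_app _ _ U x) _
    (fun y z => ?_) (map_zero _) (map_zero _) (fun z => map_neg _ z)
  · rcases hU with h | h
    · exact Or.inl ⟨M3_bij G v b b1 h1 U h, M3_bij G v b2 b3 h32 U h⟩
    · exact Or.inr ⟨M3_bij G w b b2 h2 U h, M3_bij G w b1 b3 h31 U h⟩
  · rw [descF_app]
    rfl

end MPbd3808.BR
end

section

/-!
# TASK R0: properties with two out of three; powers and kernels of functors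
-/

open CategoryTheory CategoryTheory.Limits

namespace MPbd3808.BR

universe u
variable {k : Type u} [Field k]

/-- two out of three for short exact sequences of coherent sheaves -/
structure Cl23 (P : ObjectProperty (CohW k)) : Prop where
  zero : ∀ X : CohW k, IsZero X → P X
  iso : ∀ X Y : CohW k, (X ≅ Y) → P X → P Y
  mid : ∀ S : ShortComplex (CohW k), S.ShortExact → P S.X₁ → P S.X₃ → P S.X₂
  right : ∀ S : ShortComplex (CohW k), S.ShortExact → P S.X₁ → P S.X₂ → P S.X₃
  left : ∀ S : ShortComplex (CohW k), S.ShortExact → P S.X₂ → P S.X₃ → P S.X₁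

/-- the functor `X` is coherent and satisfies `P` -/
def PX (P : ObjectProperty (CohW k)) (X : FunCat k) : Prop := ∃ h : isCoh k X, P ⟨X, h⟩

/-- the short complex of coherent sheaves of a pointwise short exact sequence -/
private def sesC {X Y Z : FunCat k} {f : X ⟶ Y} {g : Y ⟶ Z} (h : PwSES f g) (hX : isCoh k X)
    (hY : isCoh k Y) (hZ : isCoh k Z) : ShortComplex (CohW k) :=
  ShortComplex.mk (X₁ := ⟨X, hX⟩) (X₂ := ⟨Y, hY⟩) (X₃ := ⟨Z, hZ⟩) ((isCoh k).homMk f)
    ((isCoh k).homMk g) ((isCoh k).ι.map_injective h.comp_eq_zero)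

private theorem sesC_exact {X Y Z : FunCat k} {f : X ⟶ Y} {g : Y ⟶ Z} (h : PwSES f g)
    (hX : isCoh k X) (hY : isCoh k Y) (hZ : isCoh k Z) : (sesC h hX hY hZ).ShortExact :=
  (shortExact_iff_pw (isCoh k) (sesC h hX hY hZ)).2 h

variable {P : ObjectProperty (CohW k)} (hP : Cl23 P)

include hP

/-- PROOF. `shortExact_iff_pw` for the full subcategory `isCoh k`. -/
theorem Cl23.pw_mid {X Y Z : FunCat k} {f : X ⟶ Y} {g : Y ⟶ Z} (h : PwSES f g) (hY : isCoh k Y)
    (h1 : PX P X) (h3 : PX P Z) : PX P Y := by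
  obtain ⟨hX, pX⟩ := h1
  obtain ⟨hZ, pZ⟩ := h3
  exact ⟨hY, hP.mid _ (sesC_exact h hX hY hZ) pX pZ⟩

theorem Cl23.pw_right {X Y Z : FunCat k} {f : X ⟶ Y} {g : Y ⟶ Z} (h : PwSES f g) (hZ : isCoh k Z)
    (h1 : PX P X) (h2 : PX P Y) : PX P Z := by
  obtain ⟨hX, pX⟩ := h1
  obtain ⟨hY, pY⟩ := h2
  exact ⟨hZ, hP.right _ (sesC_exact h hX hY hZ) pX pY⟩

theorem Cl23.pw_left {X Y Z : FunCat k} {f : X ⟶ Y} {g : Y ⟶ Z} (h : PwSES f g) (hX : isCoh k X)
    (h2 : PX P Y) (h3 : PX P Z) : PX P X := by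
  obtain ⟨hY, pY⟩ := h2
  obtain ⟨hZ, pZ⟩ := h3
  exact ⟨hX, hP.left _ (sesC_exact h hX hY hZ) pY pZ⟩

theorem Cl23.pw_iso {X Y : FunCat k} (f : X ≅ Y) (h : PX P X) : PX P Y := by
  obtain ⟨hX, pX⟩ := h
  have hY : isCoh k Y := (isCoh k).prop_of_iso f hX
  exact ⟨hY, hP.iso ⟨X, hX⟩ ⟨Y, hY⟩ ((isCoh k).isoMk f) pX⟩

/-- PROOF. `pwSES_prodF`, `prop_prodF`, `pwClosed_isCoh`. -/
theorem Cl23.prodF {X Y : FunCat k} (h1 : PX P X) (h2 : PX P Y) : PX P (prodF X Y) :=
  hP.pw_mid (pwSES_prodF X Y) (prop_prodF (pwClosed_isCoh k) h1.1 h2.1) h1 h2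

omit hP

/-- `X^n` -/
def powF (n : ℕ) (X : FunCat k) : FunCat k where
  obj U := ModuleCat.of k (Fin n → X.obj U)
  map m := ModuleCat.ofHom (LinearMap.pi fun i => (X.map m).hom ∘ₗ LinearMap.proj i)
  map_id U := by ext x i; simp
  map_comp f g := by ext x i; simp

/-- the morphism `X^n ⟶ Y^m` given by a matrix of morphisms -/
def matF {n m : ℕ} {X Y : FunCat k} (M : Fin m → Fin n → (X ⟶ Y)) : powF n X ⟶ powF m Y where
  app U := ModuleCat.ofHom (LinearMap.pi fun i => ∑ j, ((M i j).app U).hom ∘ₗ LinearMap.proj j)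
  naturality U V f := ModuleCat.hom_ext (LinearMap.ext fun x => funext fun i => by
    change (∑ j, ((M i j).app V).hom ∘ₗ LinearMap.proj j) (fun j => (X.map f).hom (x j)) =
      (Y.map f).hom ((∑ j, ((M i j).app U).hom ∘ₗ LinearMap.proj j) x)
    rw [LinearMap.sum_apply, LinearMap.sum_apply, map_sum]
    exact Finset.sum_congr rfl fun j _ => LinearMap.congr_fun (congrArg ModuleCat.Hom.hom ((M i j).naturality f)) (x j))

/-- the morphism `X^n ⟶ Y` given by a row of morphisms -/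
def rowF {n : ℕ} {X Y : FunCat k} (M : Fin n → (X ⟶ Y)) : powF n X ⟶ Y where
  app U := ModuleCat.ofHom (∑ j, ((M j).app U).hom ∘ₗ LinearMap.proj j)
  naturality U V f := ModuleCat.hom_ext (LinearMap.ext fun x => by
    change (∑ j, ((M j).app V).hom ∘ₗ LinearMap.proj j) (fun j => (X.map f).hom (x j)) =
      (Y.map f).hom ((∑ j, ((M j).app U).hom ∘ₗ LinearMap.proj j) x)
    rw [LinearMap.sum_apply, LinearMap.sum_apply, map_sum]
    exact Finset.sum_congr rfl fun j _ => LinearMap.congr_fun (congrArg ModuleCat.Hom.hom ((M j).naturality f)) (x j))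

theorem matF_app {n m : ℕ} {X Y : FunCat k} (M : Fin m → Fin n → (X ⟶ Y)) (U : Ob)
    (x : Fin n → X.obj U) (i : Fin m) :
    (show Fin m → Y.obj U from ((matF M).app U).hom x) i = ∑ j, ((M i j).app U).hom (x j) := by
  change (∑ j, ((M i j).app U).hom ∘ₗ LinearMap.proj j) x = _
  rw [LinearMap.sum_apply]
  rfl

theorem rowF_app {n : ℕ} {X Y : FunCat k} (M : Fin n → (X ⟶ Y)) (U : Ob) (x : Fin n → X.obj U) :
    ((rowF M).app U).hom x = ∑ j, ((M j).app U).hom (x j) := by
  change (∑ j, ((M j).app U).hom ∘ₗ LinearMap.proj j) x = _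
  rw [LinearMap.sum_apply]
  rfl

/-- the first coordinate -/
private def headF (n : ℕ) (X : FunCat k) : powF (n + 1) X ⟶ X where
  app U := ModuleCat.ofHom (LinearMap.proj (R := k) (φ := fun _ : Fin (n + 1) => X.obj U) 0)

/-- the other coordinates -/
private def tailF (n : ℕ) (X : FunCat k) : powF (n + 1) X ⟶ powF n X where
  app U := ModuleCat.ofHom (LinearMap.funLeft k (X.obj U) (Fin.succ : Fin n → Fin (n + 1)))

/-- the inclusion of the first coordinate -/
private def singF (n : ℕ) (X : FunCat k) : X ⟶ powF (n + 1) X where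
  app U := ModuleCat.ofHom (LinearMap.single k (fun _ : Fin (n + 1) => X.obj U) 0)
  naturality U V m := by
    refine ModuleCat.hom_ext (LinearMap.ext fun x => funext fun i => ?_)
    change (Pi.single (M := fun _ : Fin (n + 1) => X.obj V) 0 ((X.map m).hom x)) i =
      (X.map m).hom ((Pi.single (M := fun _ : Fin (n + 1) => X.obj U) 0 x) i)
    by_cases h : i = 0
    · subst h
      rw [Pi.single_eq_same, Pi.single_eq_same]
    · rw [Pi.single_eq_of_ne h, Pi.single_eq_of_ne h, map_zero]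

private theorem pwSES_sing (n : ℕ) (X : FunCat k) : PwSES (singF n X) (tailF n X) := by
  intro U
  refine ⟨fun x y h => ?_, fun z => ⟨fun h => ⟨z 0, ?_⟩, ?_⟩, fun y => ⟨Fin.cons 0 y, ?_⟩⟩
  · have h0 := congrFun h 0
    change Pi.single (M := fun _ : Fin (n + 1) => X.obj U) 0 x 0 =
      Pi.single (M := fun _ : Fin (n + 1) => X.obj U) 0 y 0 at h0
    rwa [Pi.single_eq_same, Pi.single_eq_same] at h0
  · funext i
    change Pi.single (M := fun _ : Fin (n + 1) => X.obj U) 0 (z 0) i = z i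
    by_cases hi : i = 0
    · subst hi
      rw [Pi.single_eq_same]
    · rw [Pi.single_eq_of_ne hi]
      obtain ⟨j, rfl⟩ := Fin.exists_succ_eq.2 hi
      exact (congrFun h j).symm
  · rintro ⟨x, rfl⟩
    funext j
    change Pi.single (M := fun _ : Fin (n + 1) => X.obj U) 0 x j.succ = 0
    rw [Pi.single_eq_of_ne (Fin.succ_ne_zero j)]
  · funext j
    rfl

/-- PROOF. Induction on `n`: `powF 0 X` is pointwise zero, `powF (n+1) X` is the product of `X` and `powF n X`
(`PwClosed.prod`, projections `x ↦ x 0` and `x ↦ Fin.tail x`). -/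
theorem prop_powF {Q : ObjectProperty (FunCat k)} (hQ : PwClosed Q) (n : ℕ) {X : FunCat k} (hX : Q X) :
    Q (powF n X) := by
  induction n with
  | zero =>
    refine hQ.zero _ fun A => ?_
    change Subsingleton (Fin 0 → X.obj A)
    infer_instance
  | succ n ih =>
    refine hQ.prod (headF n X) (tailF n X) (fun A => ⟨fun z z' h => ?_, fun y => ?_⟩) hX ih
    · have h1 : (z : Fin (n + 1) → X.obj A) 0 = (z' : Fin (n + 1) → X.obj A) 0 :=
        congrArg Prod.fst h
      have h2 : ∀ j : Fin n, (z : Fin (n + 1) → X.obj A) j.succ =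
          (z' : Fin (n + 1) → X.obj A) j.succ := fun j => congrFun (congrArg Prod.snd h) j
      funext i
      refine Fin.cases ?_ (fun j => ?_) i
      · exact h1
      · exact h2 j
    · exact ⟨(Fin.cons y.1 y.2 : Fin (n + 1) → X.obj A), rfl⟩

/-- PROOF. Induction on `n`: `0 → X → powF (n+1) X → powF n X → 0` (`pw_mid`), `powF 0 X` is zero. -/
theorem Cl23.powF (hP : Cl23 P) (n : ℕ) {X : FunCat k} (h : PX P X) : PX P (powF n X) := by
  induction n with
  | zero =>
    have hc : isCoh k (MPbd3808.BR.powF 0 X) := prop_powF (pwClosed_isCoh k) 0 h.1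
    refine ⟨hc, hP.zero _ ((isZero_iff_pw (isCoh k) _).2 fun U => ?_)⟩
    change Subsingleton (Fin 0 → X.obj U)
    infer_instance
  | succ n ih =>
    exact hP.pw_mid (pwSES_sing n X) (prop_powF (pwClosed_isCoh k) (n + 1) h.1) h ih

/-- the kernel of a morphism of functors -/
def kerF {X Y : FunCat k} (f : X ⟶ Y) : FunCat k where
  obj U := ModuleCat.of k (LinearMap.ker (f.app U).hom)
  map {U V} m := ModuleCat.ofHom ((X.map m).hom.restrict fun x hx => by
    have h := LinearMap.congr_fun (congrArg ModuleCat.Hom.hom (f.naturality m)) x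
    change (f.app V).hom ((X.map m).hom x) = (Y.map m).hom ((f.app U).hom x) at h
    rw [LinearMap.mem_ker] at hx ⊢
    rw [h, hx, map_zero])
  map_id U := by
    refine ModuleCat.hom_ext (LinearMap.ext fun x => Subtype.ext ?_)
    change (X.map (𝟙 U)).hom x.1 = x.1
    rw [X.map_id]; rfl
  map_comp {U V W} m m' := by
    refine ModuleCat.hom_ext (LinearMap.ext fun x => Subtype.ext ?_)
    change (X.map (m ≫ m')).hom x.1 = (X.map m').hom ((X.map m).hom x.1)
    rw [X.map_comp]; rfl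

/-- the inclusion of the kernel -/
def kerι {X Y : FunCat k} (f : X ⟶ Y) : kerF f ⟶ X where
  app U := ModuleCat.ofHom (LinearMap.ker (f.app U).hom).subtype

theorem pwSES_ker {X Y : FunCat k} (f : X ⟶ Y) (hf : ∀ U, Function.Surjective (f.app U).hom) :
    PwSES (kerι f) f := by
  intro U
  refine ⟨Subtype.val_injective, fun y => ⟨fun h => ⟨⟨y, h⟩, rfl⟩, ?_⟩, hf U⟩
  rintro ⟨x, rfl⟩
  exact x.2

/-- PROOF. `PwClosed.ker`. -/
theorem prop_kerF {Q : ObjectProperty (FunCat k)} (hQ : PwClosed Q) {X Y : FunCat k} (f : X ⟶ Y)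
    (hX : Q X) (hY : Q Y) : Q (kerF f) := by
  refine hQ.ker (kerι f) f (fun U => Subtype.val_injective) (fun U y => ⟨fun h => ⟨⟨y, h⟩, rfl⟩, ?_⟩)
    hX hY
  rintro ⟨x, rfl⟩
  exact x.2

/-- Lift through a pointwise injective morphism. PROOF. Define `g.app U x` as the unique preimage; linear and
natural by injectivity. -/
theorem exists_liftF {X Y Z : FunCat k} (f : X ⟶ Z) (i : Y ⟶ Z)
    (hi : ∀ U, Function.Injective (i.app U).hom)
    (h : ∀ U x, ∃ y, (i.app U).hom y = (f.app U).hom x) : ∃ g : X ⟶ Y, g ≫ i = f := by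
  choose G hG using h
  let L : ∀ U, X.obj U →ₗ[k] Y.obj U := fun U =>
    { toFun := G U
      map_add' := fun x y => hi U (by rw [map_add, hG, hG, hG, map_add])
      map_smul' := fun c x => hi U (by rw [map_smul, hG, hG, map_smul]; rfl) }
  have hL : ∀ U x, (i.app U).hom (L U x) = (f.app U).hom x := hG
  refine ⟨{ app := fun U => ModuleCat.ofHom (L U), naturality := fun U V m => ?_ }, ?_⟩
  · refine ModuleCat.hom_ext (LinearMap.ext fun x => hi V ?_)
    change (i.app V).hom (L V ((X.map m).hom x)) = (i.app V).hom ((Y.map m).hom (L U x))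
    rw [hL]
    have h1 := LinearMap.congr_fun (congrArg ModuleCat.Hom.hom (f.naturality m)) x
    have h2 := LinearMap.congr_fun (congrArg ModuleCat.Hom.hom (i.naturality m)) (L U x)
    change (f.app V).hom ((X.map m).hom x) = (Z.map m).hom ((f.app U).hom x) at h1
    change (i.app V).hom ((Y.map m).hom (L U x)) = (Z.map m).hom ((i.app U).hom (L U x)) at h2
    rw [h1, h2, hL]
  · refine NatTrans.ext (funext fun U => ModuleCat.hom_ext (LinearMap.ext fun x => ?_))
    exact hL U x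

end MPbd3808.BR
end
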