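import Pool.Agent.Lib.MP_bd3808_ag.Mg.G010
import Pool.Agent.Lib.MP_bd3808_ag.Mg.G011
import Pool.Agent.Lib.MP_bd3808_ag.Mg.G015
import Pool.Agent.Lib.MP_bd3808_ag.Mg.G016
import Pool.Agent.Lib.MP_bd3808_ag.Mg.G020

section

/-!
# TASK W1: multiples of `f` without `s0, s1` are zero

PROOF. Let `F = FractionRing (MvPolynomial (Fin 8) k)` with variables `Y0..Y7 = u0,u1,la,mu,z0,z1,z2,z3`, `d0 = la u1 z3 - la u0 z1 - mu z2`,
`d1 = la u0 z0 - mu z1 - la u1 z2` in `F`, both nonzero. Let `χ = mev v : A k → F` with `v = ![d1, -d0, Y0, …, Y7]` (units). Then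
`χ (fP) = 0` (`fP = s0 D0 + s1 D1 ↦ d1 d0 - d0 d1`), so `χ p = 0`. On the elements without `s0, s1`, `χ` is injective:
for such `p` let `p' : AddMonoidAlgebra k (Fin 8 → ℤ)` be the same Laurent polynomial in 8 variables (`AddMonoidAlgebra.mapDomain` along
the restriction `e ↦ e ∘ (· + 2)`, injective on the support), then `χ p = mev (Y) p'`, and `mev Y` is injective by `mev_injective`
(`MvPolynomial.algebraicIndependent_X` and `AlgebraicIndependent.map'`). Or: multiply `p` by a monomial in `x2, …, x9` to get a polynomial.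
-/

set_option autoImplicit false

noncomputable section

open CategoryTheory CategoryTheory.Limits

namespace MPbd3808.BR.SX

universe u v w

variable (k : Type u) [Field k]

/-- Laurent polynomials without `s0, s1`. -/
def SFree (p : A k) : Prop := ∀ e, p.coeff e ≠ 0 → e 0 = 0 ∧ e 1 = 0

/-- `D0` in the eight variables -/
private def W1d0 : R8 k := xx k 2 * xx k 1 * xx k 7 - xx k 2 * xx k 0 * xx k 5 - xx k 3 * xx k 6

/-- `D1` in the eight variables -/
private def W1d1 : R8 k := xx k 2 * xx k 0 * xx k 4 - xx k 3 * xx k 5 - xx k 2 * xx k 1 * xx k 6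

private theorem W1d0_ne : - W1d0 k ≠ 0 := by
  intro h
  have h1 := congrArg (MvPolynomial.eval ![0,1,1,0,0,0,0,1]) h
  simp [W1d0, xx] at h1

private theorem W1d1_ne : W1d1 k ≠ 0 := by
  intro h
  have h1 := congrArg (MvPolynomial.eval ![1,0,1,0,1,0,0,0]) h
  simp [W1d1, xx] at h1

private def W1x (i : Fin 8) : (KK k)ˣ := toU (xx k i) (xx_ne i)

private def W1v : Vr → (KK k)ˣ :=
  ![toU (W1d1 k) (W1d1_ne k), toU (- W1d0 k) (W1d0_ne k), W1x k 0, W1x k 1, W1x k 2, W1x k 3,
    W1x k 4, W1x k 5, W1x k 6, W1x k 7]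

private theorem W1_fP : mev (W1v k) (fP k) = 0 := by
  have e0 : mev (W1v k) (mon (fE 0) : A k) = algebraMap (R8 k) (KK k)
      (W1d1 k * (xx k 1 * (xx k 2 * xx k 7))) := by
    rw [mon, mev_single, one_smul]
    simp [W1v, fE, Fin.prod_univ_succ, W1x]
  have e1 : mev (W1v k) (mon (fE 1) : A k) = algebraMap (R8 k) (KK k)
      (W1d1 k * (xx k 0 * (xx k 2 * xx k 5))) := by
    rw [mon, mev_single, one_smul]
    simp [W1v, fE, Fin.prod_univ_succ, W1x]
  have e2 : mev (W1v k) (mon (fE 2) : A k) = algebraMap (R8 k) (KK k)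
      (W1d1 k * (xx k 3 * xx k 6)) := by
    rw [mon, mev_single, one_smul]
    simp [W1v, fE, Fin.prod_univ_succ, W1x]
  have e3 : mev (W1v k) (mon (fE 3) : A k) = algebraMap (R8 k) (KK k)
      (- W1d0 k * (xx k 0 * (xx k 2 * xx k 4))) := by
    rw [mon, mev_single, one_smul]
    simp [W1v, fE, Fin.prod_univ_succ, W1x]
  have e4 : mev (W1v k) (mon (fE 4) : A k) = algebraMap (R8 k) (KK k)
      (- W1d0 k * (xx k 3 * xx k 5)) := by
    rw [mon, mev_single, one_smul]
    simp [W1v, fE, Fin.prod_univ_succ, W1x]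
  have e5 : mev (W1v k) (mon (fE 5) : A k) = algebraMap (R8 k) (KK k)
      (- W1d0 k * (xx k 1 * (xx k 2 * xx k 6))) := by
    rw [mon, mev_single, one_smul]
    simp [W1v, fE, Fin.prod_univ_succ, W1x]
  rw [fP, Fin.sum_univ_six, map_add, map_add, map_add, map_add, map_add, map_smul, map_smul,
    map_smul, map_smul, map_smul, map_smul, e0, e1, e2, e3, e4, e5]
  have c0 : ((fC 0 : ℤ) : k) = 1 := by simp [fC]
  have c1 : ((fC 1 : ℤ) : k) = -1 := by simp [fC]
  have c2 : ((fC 2 : ℤ) : k) = -1 := by simp [fC]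
  have c3 : ((fC 3 : ℤ) : k) = 1 := by simp [fC]
  have c4 : ((fC 4 : ℤ) : k) = -1 := by simp [fC]
  have c5 : ((fC 5 : ℤ) : k) = -1 := by simp [fC]
  rw [c0, c1, c2, c3, c4, c5]
  simp only [neg_smul, one_smul]
  rw [← map_neg, ← map_neg, ← map_neg, ← map_neg, ← map_add, ← map_add, ← map_add, ← map_add,
    ← map_add]
  rw [show W1d1 k * (xx k 1 * (xx k 2 * xx k 7)) + -(W1d1 k * (xx k 0 * (xx k 2 * xx k 5))) +
    -(W1d1 k * (xx k 3 * xx k 6)) + - W1d0 k * (xx k 0 * (xx k 2 * xx k 4)) +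
    -(- W1d0 k * (xx k 3 * xx k 5)) + -(- W1d0 k * (xx k 1 * (xx k 2 * xx k 6))) = 0 by
      unfold W1d0 W1d1; ring]
  exact map_zero _

private def W1r (e : Ex) : Fin 8 → ℤ := fun i => e ⟨i.1 + 2, by omega⟩

private def W1i (e : Fin 8 → ℤ) : Ex := ![0, 0, e 0, e 1, e 2, e 3, e 4, e 5, e 6, e 7]

private theorem W1i_r (e : Ex) (h0 : e 0 = 0) (h1 : e 1 = 0) : W1i (W1r e) = e := by
  funext v
  fin_cases v
  · exact h0.symm
  · exact h1.symm
  all_goals rfl

private theorem W1_prod (e : Ex) (h0 : e 0 = 0) (h1 : e 1 = 0) :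
    ∏ v, W1v k v ^ e v = ∏ i, W1x k i ^ W1r e i := by
  rw [Fin.prod_univ_succ, Fin.prod_univ_succ]
  have h1' : e (Fin.succ 0) = 0 := h1
  rw [h0, h1', zpow_zero, zpow_zero, one_mul, one_mul]
  refine Finset.prod_congr rfl fun i _ => ?_
  fin_cases i <;> rfl

private theorem W1_indep : AlgebraicIndependent k (fun i : Fin 8 => ((W1x k i : (KK k)ˣ) : KK k)) := by
  have h := (MvPolynomial.algebraicIndependent_X (Fin 8) k).map'
    (f := IsScalarTower.toAlgHom k (R8 k) (KK k)) (IsFractionRing.injective (R8 k) (KK k))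
  exact h

theorem sfree_fP (p y : A k) (hp : SFree k p) (h : p = fP k * y) : p = 0 := by
  have h1 : mev (W1v k) p = 0 := by rw [h, map_mul, W1_fP, zero_mul]
  set p' : A8 k := ∑ e ∈ p.coeff.support, AddMonoidAlgebra.single (W1r e) (p.coeff e) with hp'
  have hs : p = ∑ e ∈ p.coeff.support, AddMonoidAlgebra.single e (p.coeff e) :=
    (AddMonoidAlgebra.sum_coeff_single p).symm
  have h2 : mev (W1x k) p' = mev (W1v k) p := by
    conv_rhs => rw [hs]
    rw [hp', map_sum, map_sum]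
    refine Finset.sum_congr rfl fun e he => ?_
    have he' := hp e (Finsupp.mem_support_iff.1 he)
    rw [mev_single, mev_single, W1_prod k e he'.1 he'.2]
  have h3 : p' = 0 := by
    apply mev_injective (W1x k) (W1_indep k)
    rw [h2, h1, map_zero]
  have h4 : p = AddMonoidAlgebra.mapDomainLinearMap k k W1i p' := by
    conv_lhs => rw [hs]
    rw [hp', map_sum]
    refine Finset.sum_congr rfl fun e he => ?_
    have he' := hp e (Finsupp.mem_support_iff.1 he)
    rw [AddMonoidAlgebra.mapDomainLinearMap_single, W1i_r e he'.1 he'.2]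
  rw [h4, h3, map_zero]

end MPbd3808.BR.SX
end
end

section

/-!
# TASK W2: two sections of `O_W(c)` on charts with `s0` and with `s1` which agree

PROOF. `idl (GW k) σ c = (gr k σ (c - dF)).map (mulLeft fP) ⊔ ⊥`, so `p0 - p1 = fP * y`, `y` homogeneous of degree `c - dF` and regular on
`insert 0 (insert 1 ρ)`; every exponent `e` of `y` has `e 0 + e 1 = (c - dF) 0 = -1`. Let `y = y₁ + y₂`, `y₁` the part with `e 0 < 0`
(so `e 1 ≥ 0`), `y₂` the part with `e 0 ≥ 0` (for example with `Finsupp.filter`). Then `y₁ ∈ gr (insert 0 ρ)`, `y₂ ∈ gr (insert 1 ρ)`. Put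
`p = p0 - fP * y₁ = p1 + fP * y₂`: it is in `gr (insert 0 ρ) c` and in `gr (insert 1 ρ) c`, so its exponents satisfy `e 0, e 1 ≥ 0` (as `0, 1 ∉ ρ`),
`e 0 + e 1 = c 0 = 0`.
-/

set_option autoImplicit false

noncomputable section

open CategoryTheory CategoryTheory.Limits

namespace MPbd3808.BR.SX

universe u v w

variable (k : Type u) [Field k]

theorem deg_zero_coord (e : Ex) : degE e 0 = e 0 + e 1 := by
  simp [degE, Fin.sum_univ_succ, dg]

theorem mem_idlW {σ : Finset Vr} {c : Deg} {p : A k} :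
    p ∈ idl (GW k) σ c ↔ ∃ y ∈ gr k σ (c - dF), p = fP k * y := by
  unfold GW
  simp only [idl, sup_bot_eq]
  constructor
  · rintro ⟨y, hy, rfl⟩
    exact ⟨y, hy, rfl⟩
  · rintro ⟨y, hy, rfl⟩
    exact ⟨y, hy, rfl⟩

private theorem W2_fP_mem (σ : Finset Vr) : fP k ∈ gr k σ dF := by
  unfold fP
  exact Submodule.sum_mem _ fun i _ =>
    Submodule.smul_mem _ _ (mon_mem_gr k (reg_fE σ i) (degE_fE i))

private theorem W2_fP_mul {σ : Finset Vr} {c : Deg} {y : A k} (hy : y ∈ gr k σ (c - dF)) :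
    fP k * y ∈ gr k σ c := by
  have h := gr_mul k (W2_fP_mem k σ) hy
  have h2 : dF + (c - dF) = c := by abel
  rwa [h2] at h

theorem split_s (ρ : Finset Vr) (h0 : (0 : Vr) ∉ ρ) (h1 : (1 : Vr) ∉ ρ) (c : Deg) (hc : c 0 = 0)
    (p0 p1 : A k) (hp0 : p0 ∈ gr k (insert 0 ρ) c) (hp1 : p1 ∈ gr k (insert 1 ρ) c)
    (h : p0 - p1 ∈ idl (GW k) (insert 0 (insert 1 ρ)) c) :
    ∃ p ∈ gr k ρ c, SFree k p ∧ p0 - p ∈ idl (GW k) (insert 0 ρ) c ∧
      p1 - p ∈ idl (GW k) (insert 1 ρ) c := by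
  classical
  obtain ⟨y, hy, hpy⟩ := (mem_idlW k).1 h
  set y₁ : A k := AddMonoidAlgebra.ofCoeff (y.coeff.filter (fun e => e 0 < 0)) with hy₁
  set y₂ : A k := AddMonoidAlgebra.ofCoeff (y.coeff.filter (fun e => ¬ e 0 < 0)) with hy₂
  have hsum : y₁ + y₂ = y := by
    apply AddMonoidAlgebra.coeff_injective
    rw [AddMonoidAlgebra.coeff_add]
    exact Finsupp.filter_add_filter_not _ _
  have hc1 : ∀ e, y.coeff e ≠ 0 → e 0 + e 1 = -1 := by
    intro e he
    have h1 := congrFun (hy e he).2 0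
    rw [deg_zero_coord, Pi.sub_apply, hc] at h1
    rw [h1]
    rfl
  have h10 : (1 : Vr) ≠ 0 := by decide
  have m1 : y₁ ∈ gr k (insert 0 ρ) (c - dF) := by
    intro e he
    have he' : (y.coeff.filter (fun e => e 0 < 0)) e ≠ 0 := he
    by_cases hlt : e 0 < 0
    · rw [Finsupp.filter_apply_pos (fun e : Ex => e 0 < 0) _ hlt] at he'
      refine ⟨fun v hv => ?_, (hy e he').2⟩
      rw [Finset.mem_insert, not_or] at hv
      by_cases hv1 : v = 1
      · subst hv1
        have := hc1 e he'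
        omega
      · refine (hy e he').1 v ?_
        rw [Finset.mem_insert, Finset.mem_insert]
        rintro (h' | h' | h')
        · exact hv.1 h'
        · exact hv1 h'
        · exact hv.2 h'
    · exact absurd (Finsupp.filter_apply_neg (fun e : Ex => e 0 < 0) _ hlt) he'
  have m2 : y₂ ∈ gr k (insert 1 ρ) (c - dF) := by
    intro e he
    have he' : (y.coeff.filter (fun e => ¬ e 0 < 0)) e ≠ 0 := he
    by_cases hlt : ¬ e 0 < 0
    · rw [Finsupp.filter_apply_pos (fun e : Ex => ¬ e 0 < 0) _ hlt] at he'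
      refine ⟨fun v hv => ?_, (hy e he').2⟩
      rw [Finset.mem_insert, not_or] at hv
      by_cases hv1 : v = 0
      · subst hv1
        omega
      · refine (hy e he').1 v ?_
        rw [Finset.mem_insert, Finset.mem_insert]
        rintro (h' | h' | h')
        · exact hv1 h'
        · exact hv.1 h'
        · exact hv.2 h'
    · exact absurd (Finsupp.filter_apply_neg (fun e : Ex => ¬ e 0 < 0) _ hlt) he'
  have hp : p0 - fP k * y₁ = p1 + fP k * y₂ := by
    have h1 : p0 - p1 = fP k * y₁ + fP k * y₂ := by rw [hpy, ← hsum, mul_add]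
    rw [sub_eq_iff_eq_add] at h1
    rw [h1]
    ring
  have g0 : p0 - fP k * y₁ ∈ gr k (insert 0 ρ) c :=
    Submodule.sub_mem _ hp0 (W2_fP_mul k m1)
  have g1 : p0 - fP k * y₁ ∈ gr k (insert 1 ρ) c := by
    rw [hp]
    exact Submodule.add_mem _ hp1 (W2_fP_mul k m2)
  have n0 : ∀ e, (p0 - fP k * y₁).coeff e ≠ 0 → 0 ≤ e 1 := fun e he =>
    (g0 e he).1 1 (by rw [Finset.mem_insert]; rintro (h' | h'); exacts [h10 h', h1 h'])
  have n1 : ∀ e, (p0 - fP k * y₁).coeff e ≠ 0 → 0 ≤ e 0 := fun e he =>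
    (g1 e he).1 0 (by rw [Finset.mem_insert]; rintro (h' | h'); exacts [h10 h'.symm, h0 h'])
  refine ⟨p0 - fP k * y₁, ?_, ?_, ?_, ?_⟩
  · intro e he
    refine ⟨fun v hv => ?_, (g0 e he).2⟩
    by_cases hv0 : v = 0
    · subst hv0
      exact n1 e he
    · exact (g0 e he).1 v (by rw [Finset.mem_insert]; rintro (h' | h'); exacts [hv0 h', hv h'])
  · intro e he
    have h1' := congrFun (g0 e he).2 0
    rw [deg_zero_coord, hc] at h1'
    have := n0 e he
    have := n1 e he
    omega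
  · refine (mem_idlW k).2 ⟨y₁, m1, ?_⟩
    ring
  · refine (mem_idlW k).2 ⟨-y₂, Submodule.neg_mem _ m2, ?_⟩
    rw [hp]
    ring

end MPbd3808.BR.SX
end
end

section

/-!
# TASK W3: compatible families of sections of `O_W(c)`, `c` of `s`-degree 0

`idl_mul`: induction on `G` as in `mon_mul_mem_idl` (B0.lean), with `gr_mul` (S0.lean).

`exists_p`: let `x σ ∈ Qm (GW k) σ c` (`σ` full) be compatible. For each `ρ = {u, l, z}` with `u ∈ {2,3}`, `l ∈ {4,5}`, `z ∈ {6,7,8,9}` choose
representatives of `x (insert 0 ρ)`, `x (insert 1 ρ)`; by compatibility on `insert 0 (insert 1 ρ)` and `split_s` there is an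
`s`-free `p ρ ∈ gr k ρ c` whose class is `x` on both. For two such `ρ, ρ'` the difference `p ρ - p ρ'` is in `idl (GW k) Finset.univ c` (compare on
`Finset.univ`, `full_univ`), so it is `fP * y`, hence 0 by `sfree_fP`. So all `p ρ` are equal to one `p`, and `p ∈ ⋂ gr k ρ c = gr k ∅ c` (exponents of
`s0,s1` are 0; for `v ≥ 2` choose `ρ ∌ v`). Every full `σ` contains some `insert i ρ`, `i ∈ {0,1}`, so `x σ` is the class of `p`.
-/

set_option autoImplicit false

noncomputable section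

open CategoryTheory CategoryTheory.Limits

namespace MPbd3808.BR.SX

universe u v w

variable (k : Type u) [Field k]

theorem idl_mul (G : List (A k × Deg)) (σ : Finset Vr) (c d : Deg) (p q : A k)
    (hp : p ∈ idl G σ c) (hq : q ∈ gr k σ d) : p * q ∈ idl G σ (c + d) := by
  induction G generalizing p with
  | nil =>
    rw [show p = 0 from hp, zero_mul]
    exact Submodule.zero_mem _
  | cons g G ih =>
    obtain ⟨a, ha, r, hr, rfl⟩ := Submodule.mem_sup.1 hp
    obtain ⟨a', ha', rfl⟩ := ha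
    rw [add_mul]
    refine Submodule.add_mem_sup ⟨a' * q, ?_, ?_⟩ (ih _ hr)
    · have h1 := gr_mul k ha' hq
      rwa [show c - g.2 + d = c + d - g.2 by abel] at h1
    · simp only [LinearMap.mulLeft_apply, mul_assoc]

private theorem W3_mono {σ τ : Finset Vr} {c : Deg} (hst : σ ⊆ τ) {p : A k}
    (hp : p ∈ gr k σ c) : p ∈ gr k τ c := fun e he => ⟨((hp e he).1).mono hst, (hp e he).2⟩

private theorem W3_mul (G : List (A k × Deg)) {σ τ : Finset Vr} {c : Deg} (hst : σ ⊆ τ)
    (hd : degE 0 = c - c) {p : A k} (hp : p ∈ gr k σ c) :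
    mulQm k G hst 0 Reg.zero hd (Submodule.Quotient.mk ⟨p, hp⟩) =
      Submodule.Quotient.mk ⟨p, W3_mono k hst hp⟩ := by
  rw [mulQm_mk]
  congr 1
  apply Subtype.ext
  rw [mulGr_coe]
  simp only [mon]
  rw [← AddMonoidAlgebra.one_def, one_mul]

private theorem W3_eq (G : List (A k × Deg)) {σ : Finset Vr} {c : Deg} {p q : A k}
    (hp : p ∈ gr k σ c) (hq : q ∈ gr k σ c) :
    ((Submodule.Quotient.mk ⟨p, hp⟩ : Qm k G σ c) = Submodule.Quotient.mk ⟨q, hq⟩) ↔
      p - q ∈ idl G σ c := by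
  rw [Submodule.Quotient.eq]
  rfl

private theorem W3_sub {p q : A k} (hp : SFree k p) (hq : SFree k q) : SFree k (p - q) := by
  intro e he
  by_cases h : p.coeff e = 0
  · refine hq e fun h' => he ?_
    simp [h, h']
  · exact hp e h

private theorem W3_good {u l z : Vr} (hu : fam u = 1) (hl : fam l = 2) (hz : fam z = 3) :
    (0 : Vr) ∉ ({u, l, z} : Finset Vr) ∧ (1 : Vr) ∉ ({u, l, z} : Finset Vr) ∧
      ∀ i : Vr, fam i = 0 → Full (insert i ({u, l, z} : Finset Vr)) := by
  refine ⟨?_, ?_, ?_⟩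
  · intro h
    simp only [Finset.mem_insert, Finset.mem_singleton] at h
    rcases h with rfl | rfl | rfl
    · exact absurd hu (by decide)
    · exact absurd hl (by decide)
    · exact absurd hz (by decide)
  · intro h
    simp only [Finset.mem_insert, Finset.mem_singleton] at h
    rcases h with rfl | rfl | rfl
    · exact absurd hu (by decide)
    · exact absurd hl (by decide)
    · exact absurd hz (by decide)
  · intro i hi j
    fin_cases j
    · exact ⟨i, by simp, hi⟩
    · exact ⟨u, by simp, hu⟩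
    · exact ⟨l, by simp, hl⟩
    · exact ⟨z, by simp, hz⟩

theorem exists_p (c : Deg) (hc : c 0 = 0) (x : ∀ (σ : Finset Vr), Full σ → Qm k (GW k) σ c)
    (hx : ∀ (σ τ : Finset Vr) (hσ : Full σ) (hτ : Full τ) (hst : σ ⊆ τ),
      mulQm k (GW k) hst 0 Reg.zero (by rw [degE_zero]; abel) (x σ hσ) = x τ hτ) :
    ∃ p, ∃ hp : p ∈ gr k ∅ c, ∀ (σ : Finset Vr) (hσ : Full σ),
      x σ hσ = Submodule.Quotient.mk
        ⟨p, fun e he => ⟨((hp e he).1).mono (Finset.empty_subset σ), (hp e he).2⟩⟩ := by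
  classical
  -- restriction of representatives
  have hres : ∀ (σ τ : Finset Vr) (hσ : Full σ) (hτ : Full τ) (hst : σ ⊆ τ) (p : A k)
      (hp : p ∈ gr k σ c), x σ hσ = Submodule.Quotient.mk ⟨p, hp⟩ →
      x τ hτ = Submodule.Quotient.mk ⟨p, W3_mono k hst hp⟩ := by
    intro σ τ hσ hτ hst p hp h
    rw [← hx σ τ hσ hτ hst, h, W3_mul]
  -- the local sections without `s0`, `s1`
  have hloc : ∀ ρ : Finset Vr, (0 : Vr) ∉ ρ → (1 : Vr) ∉ ρ → ∀ (h0 : Full (insert 0 ρ))
      (h1 : Full (insert 1 ρ)), ∃ p, ∃ hp : p ∈ gr k ρ c, SFree k p ∧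
        x (insert 0 ρ) h0 = Submodule.Quotient.mk ⟨p, W3_mono k (Finset.subset_insert _ _) hp⟩ ∧
        x (insert 1 ρ) h1 =
          Submodule.Quotient.mk ⟨p, W3_mono k (Finset.subset_insert _ _) hp⟩ := by
    intro ρ n0 n1 h0 h1
    obtain ⟨⟨p0, hp0⟩, e0⟩ := Submodule.Quotient.mk_surjective _ (x (insert 0 ρ) h0)
    obtain ⟨⟨p1, hp1⟩, e1⟩ := Submodule.Quotient.mk_surjective _ (x (insert 1 ρ) h1)
    have hs0 : insert (0 : Vr) ρ ⊆ insert 0 (insert 1 ρ) :=
      Finset.insert_subset_insert _ (Finset.subset_insert _ _)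
    have hs1 : insert (1 : Vr) ρ ⊆ insert 0 (insert 1 ρ) := Finset.subset_insert _ _
    have hF : Full (insert (0 : Vr) (insert 1 ρ)) := h1.mono hs1
    have a0 := hres _ _ h0 hF hs0 p0 hp0 e0.symm
    have a1 := hres _ _ h1 hF hs1 p1 hp1 e1.symm
    have h : p0 - p1 ∈ idl (GW k) (insert 0 (insert 1 ρ)) c :=
      (W3_eq k (GW k) _ _).1 (a0.symm.trans a1)
    obtain ⟨p, hp, hsf, q0, q1⟩ := split_s k ρ n0 n1 c hc p0 p1 hp0 hp1 h
    exact ⟨p, hp, hsf, e0.symm.trans ((W3_eq k (GW k) _ _).2 q0),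
      e1.symm.trans ((W3_eq k (GW k) _ _).2 q1)⟩
  -- uniqueness
  have huniq : ∀ (p q : A k) (hp : p ∈ gr k Finset.univ c) (hq : q ∈ gr k Finset.univ c),
      SFree k p → SFree k q → x Finset.univ full_univ = Submodule.Quotient.mk ⟨p, hp⟩ →
      x Finset.univ full_univ = Submodule.Quotient.mk ⟨q, hq⟩ → p = q := by
    intro p q hp hq sp sq e1 e2
    have h : p - q ∈ idl (GW k) Finset.univ c := (W3_eq k (GW k) _ _).1 (e1.symm.trans e2)
    obtain ⟨y, -, hy⟩ := (mem_idlW k).1 h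
    exact sub_eq_zero.1 (sfree_fP k (p - q) y (W3_sub k sp sq) hy)
  have h246 : fam 2 = 1 ∧ fam 4 = 2 ∧ fam 6 = 3 := by decide
  obtain ⟨g0, g1, gF⟩ := W3_good (u := 2) (l := 4) (z := 6) h246.1 h246.2.1 h246.2.2
  obtain ⟨p, hp, hsf, ex0, ex1⟩ := hloc _ g0 g1 (gF 0 (by decide)) (gF 1 (by decide))
  have exu := hres _ _ _ full_univ (Finset.subset_univ _) p _ ex0
  -- the section on the other small charts
  have hall : ∀ u l z : Vr, fam u = 1 → fam l = 2 → fam z = 3 →
      p ∈ gr k ({u, l, z} : Finset Vr) c ∧ ∀ (i : Vr) (hi : fam i = 0)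
        (hF : Full (insert i ({u, l, z} : Finset Vr)))
        (hp' : p ∈ gr k (insert i ({u, l, z} : Finset Vr)) c),
        x (insert i ({u, l, z} : Finset Vr)) hF = Submodule.Quotient.mk ⟨p, hp'⟩ := by
    intro u l z hu hl hz
    obtain ⟨n0, n1, nF⟩ := W3_good hu hl hz
    obtain ⟨q, hq, sq, eq0, eq1⟩ := hloc _ n0 n1 (nF 0 (by decide)) (nF 1 (by decide))
    have equ := hres _ _ _ full_univ (Finset.subset_univ _) q _ eq0
    have hpq : p = q := huniq _ _ _ _ hsf sq exu equ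
    subst hpq
    refine ⟨hq, ?_⟩
    intro i hi hF hp'
    have hi' : i = 0 ∨ i = 1 := by
      have hdec : ∀ j : Vr, fam j = 0 → j = 0 ∨ j = 1 := by decide
      exact hdec i hi
    rcases hi' with rfl | rfl
    · exact eq0
    · exact eq1
  have hp0 : p ∈ gr k ∅ c := by
    intro e he
    refine ⟨fun v _ => ?_, (hp e he).2⟩
    have hex : v = 0 ∨ v = 1 ∨ ∃ u l z : Vr, (fam u = 1 ∧ fam l = 2 ∧ fam z = 3) ∧
        v ∉ ({u, l, z} : Finset Vr) := by
      fin_cases v
      · exact Or.inl rfl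
      · exact Or.inr (Or.inl rfl)
      · exact Or.inr (Or.inr ⟨3, 4, 6, by decide, by decide⟩)
      · exact Or.inr (Or.inr ⟨2, 4, 6, by decide, by decide⟩)
      · exact Or.inr (Or.inr ⟨2, 5, 6, by decide, by decide⟩)
      · exact Or.inr (Or.inr ⟨2, 4, 6, by decide, by decide⟩)
      · exact Or.inr (Or.inr ⟨2, 4, 7, by decide, by decide⟩)
      · exact Or.inr (Or.inr ⟨2, 4, 6, by decide, by decide⟩)
      · exact Or.inr (Or.inr ⟨2, 4, 6, by decide, by decide⟩)
      · exact Or.inr (Or.inr ⟨2, 4, 6, by decide, by decide⟩)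
    rcases hex with rfl | rfl | ⟨u, l, z, ⟨hu, hl, hz⟩, hv⟩
    · exact (hsf e he).1.ge
    · exact (hsf e he).2.ge
    · exact ((hall u l z hu hl hz).1 e he).1 v hv
  refine ⟨p, hp0, ?_⟩
  intro σ hσ
  obtain ⟨i, hiσ, hi⟩ := hσ 0
  obtain ⟨u, huσ, hu⟩ := hσ 1
  obtain ⟨l, hlσ, hl⟩ := hσ 2
  obtain ⟨z, hzσ, hz⟩ := hσ 3
  have hsub : insert i ({u, l, z} : Finset Vr) ⊆ σ := by
    intro v hv
    simp only [Finset.mem_insert, Finset.mem_singleton] at hv
    rcases hv with rfl | rfl | rfl | rfl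
    · exact hiσ
    · exact huσ
    · exact hlσ
    · exact hzσ
  have hF := (W3_good hu hl hz).2.2 i hi
  have h1 := (hall u l z hu hl hz).2 i hi hF
    (W3_mono k (Finset.subset_insert _ _) (hall u l z hu hl hz).1)
  exact hres _ _ hF hσ hsub p _ h1

end MPbd3808.BR.SX
end
end

section

/-!
# TASK N3: coherent sheaves are quotients of sums of line bundles; Ext in `CohW` and `QCohW`
-/

open CategoryTheory CategoryTheory.Limits CategoryTheory.Abelian

namespace MPbd3808.BR

universe u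
variable (k : Type u) [Field k]

/-- PROOF. `exists_generators`, `biproduct.desc`; an epimorphism of `QCohW k` is pointwise surjective (`epi_iff_pw`): the range of
`(biproduct.desc q ≫ p).app U` contains the ranges of all `(q i ≫ p).app U` (compose with `biproduct.ι`). -/
theorem exists_epi_OM (X Y : QCohW k) (hY : isFG k Y.obj) (p : X ⟶ Y) [Epi p] :
    ∃ (n : ℕ) (c : Fin n → Deg) (q : (⨁ fun i => OM k (c i)) ⟶ X), Epi (q ≫ p) := by
  have hp := (epi_iff_pw (isQC k) p).1 inferInstance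
  obtain ⟨n, c, q, hq⟩ := exists_generators X.property hY p.hom hp
  let q' : ∀ i, OM k (c i) ⟶ X := fun i => (isQC k).homMk (q i)
  refine ⟨n, c, biproduct.desc q', ?_⟩
  rw [epi_iff_pw]
  intro U
  rw [← LinearMap.range_eq_top, eq_top_iff, ← hq U]
  refine iSup_le fun i => ?_
  have h : q' i ≫ p = biproduct.ι (fun i => OM k (c i)) i ≫ (biproduct.desc q' ≫ p) := by
    rw [biproduct.ι_desc_assoc]
  rintro _ ⟨x, rfl⟩
  refine ⟨((biproduct.ι (fun i => OM k (c i)) i).hom.app U).hom x, ?_⟩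
  have h2 := congrArg (fun f => (f.hom.app U).hom x) h
  exact h2.symm

/-- PROOF. The same in `CohW k`, `p = 𝟙`. -/
theorem exists_epi_OC (X : CohW k) :
    ∃ (n : ℕ) (c : Fin n → Deg) (p : (⨁ fun i => OC k (c i)) ⟶ X), Epi p := by
  obtain ⟨n, c, q, hq⟩ := exists_generators X.property.1 X.property.2 (𝟙 X.obj)
    (fun _ x => ⟨x, rfl⟩)
  let q' : ∀ i, OC k (c i) ⟶ X := fun i => (isCoh k).homMk (q i)
  refine ⟨n, c, biproduct.desc q', ?_⟩
  rw [epi_iff_pw]
  intro U
  rw [← LinearMap.range_eq_top, eq_top_iff, ← hq U]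
  refine iSup_le fun i => ?_
  have h : q' i = biproduct.ι (fun i => OC k (c i)) i ≫ biproduct.desc q' := by
    rw [biproduct.ι_desc]
  rintro _ ⟨x, rfl⟩
  refine ⟨((biproduct.ι (fun i => OC k (c i)) i).hom.app U).hom x, ?_⟩
  have h2 := congrArg (fun f => (f.hom.app U).hom x) h
  exact h2.symm

instance inCM_additive : (inCM k).Additive where

/-- PROOF. `inCM k ⋙ (isQC k).ι = (isCoh k).ι` preserves finite limits and `(isQC k).ι` reflects them (as in H8). -/
instance inCM_preservesFiniteLimits : PreservesFiniteLimits (inCM k) := by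
  have h1 : PreservesFiniteLimits (inCM k ⋙ (isQC k).ι) :=
    inferInstanceAs (PreservesFiniteLimits (isCoh k).ι)
  exact preservesFiniteLimits_of_reflects_of_preserves (inCM k) (isQC k).ι

instance inCM_preservesFiniteColimits : PreservesFiniteColimits (inCM k) := by
  have h1 : PreservesFiniteColimits (inCM k ⋙ (isQC k).ι) :=
    inferInstanceAs (PreservesFiniteColimits (isCoh k).ι)
  exact preservesFiniteColimits_of_reflects_of_preserves (inCM k) (isQC k).ι

/-- PROOF. `mapExt_bijective_of_lift`: for an epi `p : P ⟶ inCM X` take `P' = ⨁ O_W(c_i)` in `CohW k` and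
`q` = `inCM (⨁ OC) ≅ ⨁ OM ⟶ P` (`exists_epi_OM`; `Functor.mapBiproduct`, or avoid the isomorphism: construct
`q : inCM (⨁ OC (c i)) ⟶ P` directly from the projections `biproduct.π`: `∑ i, inCM (biproduct.π _ i) ≫ q_i`). -/
theorem ext_inCM_bijective (X Y : CohW k) (n : ℕ) :
    Function.Bijective (fun α : Ext.{u+1} X Y n =>
      (α.mapExactFunctor (inCM k) : Ext.{u+1} _ _ n)) := by
  refine mapExt_bijective_of_lift (inCM k) (fun X P p hp => ?_) X Y n
  obtain ⟨m, c, q, hq⟩ := exists_epi_OM k P ((inCM k).obj X) X.property.2 p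
  let e : (inCM k).obj (⨁ fun i => OC k (c i)) ≅ ⨁ fun i => OM k (c i) :=
    (inCM k).mapBiproduct (fun i => OC k (c i))
  refine ⟨⨁ fun i => OC k (c i), e.hom ≫ q, ?_⟩
  rw [Category.assoc]
  exact epi_comp _ _

/-- PROOF. Previous theorem; `mapExactFunctor` sends `0` to `0`. -/
theorem extAc_coh {X Y : CohW k} (h : ExtAc.{u+1} ((inCM k).obj X) ((inCM k).obj Y)) :
    ExtAc.{u+1} X Y := by
  intro n hn e
  apply (ext_inCM_bijective k X Y n).1
  dsimp only
  rw [Ext.mapExactFunctor_zero]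
  exact h n hn _

theorem extOrth_coh {X Y : CohW k} (h : ExtOrth.{u+1} ((inCM k).obj X) ((inCM k).obj Y)) :
    ExtOrth.{u+1} X Y := by
  intro n e
  apply (ext_inCM_bijective k X Y n).1
  dsimp only
  rw [Ext.mapExactFunctor_zero]
  exact h n _

end MPbd3808.BR
end

section

/-!
# TASK N4: bounded cohomological dimension
-/

open CategoryTheory CategoryTheory.Limits CategoryTheory.Abelian

namespace MPbd3808.BR

universe u
variable (k : Type u) [Field k]

/-- `X` is `J`-local -/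
def IsLocal (J : Finset Vr) (X : FunCat k) : Prop :=
  ∀ U : Ob, Function.Bijective (((unitF k J).app X).app U).hom

/-- `L_v X = 0` -/
def Kills (v : Vr) (X : FunCat k) : Prop := ∀ U : Ob, Subsingleton (((locF k {v}).obj X).obj U)

/-- `Ext^n(P(b), X) = 0` for `n > B` -/
def BD (b : Deg) (B : ℕ) (X : QCohT k) : Prop :=
  ∀ n : ℕ, B < n → ∀ e : Ext.{u+1} (PT k b) X n, e = 0

section

variable {C : Type*} [Category C] [Abelian C] {X Y : C} (f : X ⟶ Y)

/-- `kernel → X → coimage` -/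
noncomputable def N4_C1 : ShortComplex C :=
  ShortComplex.mk (kernel.ι f) (cokernel.π (kernel.ι f)) (cokernel.condition _)

theorem N4_S1 : (N4_C1 f).ShortExact where
  exact := ShortComplex.exact_cokernel (kernel.ι f)
  mono_f := inferInstanceAs (Mono (kernel.ι f))
  epi_g := inferInstanceAs (Epi (cokernel.π (kernel.ι f)))

theorem N4_fac : cokernel.π (kernel.ι f) ≫ Abelian.factorThruCoimage f = f :=
  Abelian.coimage.fac f

/-- `coimage → Y → cokernel` -/
noncomputable def N4_C2 : ShortComplex C :=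
  ShortComplex.mk (Abelian.factorThruCoimage f) (cokernel.π f) (by
    rw [← cancel_epi (cokernel.π (kernel.ι f)), ← Category.assoc, N4_fac, cokernel.condition,
      comp_zero])

theorem N4_S2 : (N4_C2 f).ShortExact where
  exact := by
    let φ : ShortComplex.mk f (cokernel.π f) (cokernel.condition f) ⟶ N4_C2 f :=
      { τ₁ := cokernel.π (kernel.ι f)
        τ₂ := 𝟙 _
        τ₃ := 𝟙 _
        comm₁₂ := by
          change cokernel.π (kernel.ι f) ≫ Abelian.factorThruCoimage f = f ≫ 𝟙 _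
          rw [N4_fac, Category.comp_id]
        comm₂₃ := by
          change 𝟙 _ ≫ cokernel.π f = cokernel.π f ≫ 𝟙 _
          rw [Category.comp_id, Category.id_comp] }
    have h1 : Epi φ.τ₁ := inferInstanceAs (Epi (cokernel.π (kernel.ι f)))
    have h2 : IsIso φ.τ₂ := inferInstanceAs (IsIso (𝟙 _))
    have h3 : Mono φ.τ₃ := inferInstanceAs (Mono (𝟙 _))
    exact (ShortComplex.exact_iff_of_epi_of_isIso_of_mono φ).1 (ShortComplex.exact_cokernel f)
  mono_f := inferInstanceAs (Mono (Abelian.factorThruCoimage f))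
  epi_g := inferInstanceAs (Epi (cokernel.π f))

end

/-- PROOF. Let `η : X ⟶ L_v X` be the unit, `K` its kernel, `I` its image, `C` its cokernel in `QCohT k`. The
sequences `0 → K → X → I → 0`, `0 → I → L_v X → C → 0` give the bound `B + 1` for `X`
(`Ext.covariant_sequence_exact₁`, `₂`). -/
theorem BD_of_kernel (b : Deg) (B : ℕ) (X : QCohT k) (v : Vr) (hK : BD k b B (kernel ((unitT k {v}).app X)))
    (hL : BD k b B ((locT k {v}).obj X)) (hC : BD k b B (cokernel ((unitT k {v}).app X))) :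
    BD k b (B + 1) X := by
  intro n hn e
  have h1 := N4_S1 ((unitT k {v}).app X)
  have h2 := N4_S2 ((unitT k {v}).app X)
  have h3 : e.comp (Ext.mk₀ (N4_C1 ((unitT k {v}).app X)).g) (add_zero n) = 0 := by
    obtain ⟨e', he'⟩ : ∃ e' : Ext.{u+1} (PT k b) (N4_C1 ((unitT k {v}).app X)).X₃ n,
        e' = e.comp (Ext.mk₀ (N4_C1 ((unitT k {v}).app X)).g) (add_zero n) := ⟨_, rfl⟩
    rw [← he']
    have h4 : e'.comp (Ext.mk₀ (N4_C2 ((unitT k {v}).app X)).f) (add_zero n) = 0 :=
      hL n (by omega) _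
    obtain ⟨m, rfl⟩ : ∃ m, n = m + 1 := ⟨n - 1, by omega⟩
    obtain ⟨z, hz⟩ := Ext.covariant_sequence_exact₁ (X := PT k b) h2 e' h4 rfl
    have hz0 : z = 0 := hC m (by omega) z
    rw [← hz, hz0]
    exact Ext.zero_comp _ _ _ _ _
  obtain ⟨y, hy⟩ := Ext.covariant_sequence_exact₂ (X := PT k b) h1 e h3
  have hy0 : y = 0 := hK n (by omega) y
  rw [← hy, hy0]
  exact Ext.zero_comp _ _ _ _ _

/-- a morphism with exponent `0` and `V.σ ⊆ U.σ` is invertible -/
theorem N4_bij (X : FunCat k) {U V : Ob} (m : U ⟶ V) (h : V.σ ⊆ U.σ) (he : Mor.e m = 0) :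
    Function.Bijective (X.map m).hom := by
  have hd : degE 0 = U.a - V.a := by
    have h1 := Mor.deg (X := U) (Y := V) m
    rw [he] at h1
    have h2 : degE (0 : Ex) = -(V.a - U.a) := by
      rw [← h1, ← degE_neg, neg_zero]
    rw [h2]; abel
  let m' : V ⟶ U := Mor.mk 0 h Reg.zero hd
  have h1 : m ≫ m' = 𝟙 U := hom_ext (by
    change Mor.e m + 0 = 0
    rw [he, add_zero])
  have h2 : m' ≫ m = 𝟙 V := hom_ext (by
    change 0 + Mor.e m = 0
    rw [he, add_zero])
  have h3 : X.map m ≫ X.map m' = 𝟙 _ := by rw [← X.map_comp, h1, X.map_id]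
  have h4 : X.map m' ≫ X.map m = 𝟙 _ := by rw [← X.map_comp, h2, X.map_id]
  constructor
  · intro x y hxy
    have h5 : (X.map m').hom ((X.map m).hom x) = (X.map m').hom ((X.map m).hom y) := by rw [hxy]
    have h6 : ∀ z, (X.map m').hom ((X.map m).hom z) = z := fun z =>
      congrArg (fun f => f.hom z) h3
    rwa [h6, h6] at h5
  · intro y
    exact ⟨(X.map m').hom y, congrArg (fun f => f.hom y) h4⟩

theorem N4_bij' (X : FunCat k) {U V V' : Ob} (m : U ⟶ V) (m' : U ⟶ V') (he : Mor.e m = 0)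
    (he' : Mor.e m' = 0) (h : V.σ ⊆ V'.σ) (h' : V'.σ ⊆ V.σ)
    (hb : Function.Bijective (X.map m').hom) : Function.Bijective (X.map m).hom := by
  have hd : degE 0 = V.a - V'.a := by
    have h1 := Mor.deg (X := U) (Y := V) m
    have h2 := Mor.deg (X := U) (Y := V') m'
    rw [he] at h1
    rw [he'] at h2
    have h3 : degE (0 : Ex) = (V.a - U.a) - (V'.a - U.a) := by
      rw [← h1, ← h2, sub_self, degE_zero]
    rw [h3]; abel
  let t : V' ⟶ V := Mor.mk 0 h' Reg.zero hd
  have h1 : m = m' ≫ t := hom_ext (by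
    change Mor.e m = Mor.e m' + 0
    rw [he, he', add_zero])
  have h2 : Function.Bijective (X.map t).hom := N4_bij k X t h rfl
  rw [h1, X.map_comp]
  exact h2.comp hb

/-- pointwise exactness of `0 → K → X → L → C → 0` -/
structure N4_Ex {K X L C : FunCat k} (i : K ⟶ X) (f : X ⟶ L) (q : L ⟶ C) : Prop where
  inj : ∀ U, Function.Injective (i.app U).hom
  ex1 : ∀ U x, (f.app U).hom x = 0 ↔ ∃ y, (i.app U).hom y = x
  ex2 : ∀ U x, (q.app U).hom x = 0 ↔ ∃ y, (f.app U).hom y = x
  surj : ∀ U, Function.Surjective (q.app U).hom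

theorem N4_ex (X Y : QCohT k) (f : X ⟶ Y) :
    N4_Ex k (kernel.ι f).hom f.hom (cokernel.π f).hom := by
  have h1 := (shortExact_iff_pw (isLoc k) _).1 (N4_S1 f)
  have h2 := (shortExact_iff_pw (isLoc k) _).1 (N4_S2 f)
  have hf : ∀ U x, (f.hom.app U).hom x = ((N4_C2 f).f.hom.app U).hom (((N4_C1 f).g.hom.app U).hom x) := by
    intro U x
    have h3 : f.hom = (N4_C1 f).g.hom ≫ (N4_C2 f).f.hom :=
      congrArg (fun g => g.hom) (N4_fac f).symm
    conv_lhs => rw [h3]
    rfl
  refine ⟨fun U => (h1 U).1, fun U x => ?_, fun U x => ?_, fun U => (h2 U).2.2⟩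
  · rw [hf]
    constructor
    · intro h
      have h4 : ((N4_C1 f).g.hom.app U).hom x = 0 := (h2 U).1 (h.trans (map_zero ((N4_C2 f).f.hom.app U).hom).symm)
      exact ((h1 U).2.1 x).1 h4
    · intro h
      have h4 : ((N4_C1 f).g.hom.app U).hom x = 0 := ((h1 U).2.1 x).2 h
      exact (congrArg ((N4_C2 f).f.hom.app U).hom h4).trans (map_zero ((N4_C2 f).f.hom.app U).hom)
  · constructor
    · intro h
      obtain ⟨y, hy⟩ := ((h2 U).2.1 x).1 h
      obtain ⟨z, hz⟩ := (h1 U).2.2 y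
      exact ⟨z, by rw [hf, hz, hy]⟩
    · rintro ⟨y, hy⟩
      rw [hf] at hy
      exact ((h2 U).2.1 x).2 ⟨_, hy⟩

theorem N4_nat {X Y : FunCat k} (f : X ⟶ Y) {U V : Ob} (m : U ⟶ V) (x : X.obj U) :
    (f.app V).hom ((X.map m).hom x) = (Y.map m).hom ((f.app U).hom x) :=
  congrArg (fun g => g.hom x) (f.naturality m)

section

variable {K X L C : FunCat k} {i : K ⟶ X} {f : X ⟶ L} {q : L ⟶ C}

theorem N4_five1 (h : N4_Ex k i f q) {U V : Ob} (m : U ⟶ V) (hX : Function.Bijective (X.map m).hom)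
    (hL : Function.Bijective (L.map m).hom) : Function.Bijective (K.map m).hom := by
  constructor
  · intro x y hxy
    apply h.inj U
    apply hX.1
    rw [← N4_nat, ← N4_nat, hxy]
  · intro y
    obtain ⟨x, hx⟩ := hX.2 ((i.app V).hom y)
    have h1 : (f.app U).hom x = 0 := by
      apply hL.1
      rw [← N4_nat, hx, map_zero]
      exact (h.ex1 V _).2 ⟨y, rfl⟩
    obtain ⟨z, hz⟩ := (h.ex1 U x).1 h1
    refine ⟨z, h.inj V ?_⟩
    rw [N4_nat, hz, hx]

theorem N4_five2 (h : N4_Ex k i f q) {U V : Ob} (m : U ⟶ V) (hX : Function.Bijective (X.map m).hom)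
    (hL : Function.Bijective (L.map m).hom) : Function.Bijective (C.map m).hom := by
  constructor
  · refine (injective_iff_map_eq_zero (C.map m).hom).2 fun c hc => ?_
    obtain ⟨l, rfl⟩ := h.surj U c
    rw [← N4_nat] at hc
    obtain ⟨x', hx'⟩ := (h.ex2 V _).1 hc
    obtain ⟨x, rfl⟩ := hX.2 x'
    rw [N4_nat] at hx'
    exact (h.ex2 U l).2 ⟨x, hL.1 hx'⟩
  · intro c
    obtain ⟨l, rfl⟩ := h.surj V c
    obtain ⟨l', rfl⟩ := hL.2 l
    exact ⟨(q.app U).hom l', (N4_nat k q m l').symm⟩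

theorem N4_zero1 (h : N4_Ex k i f q) (U : Ob) (hf : Function.Injective (f.app U).hom) :
    Subsingleton (K.obj U) := by
  refine ⟨fun x y => h.inj U (hf ?_)⟩
  rw [(h.ex1 U _).2 ⟨x, rfl⟩, (h.ex1 U _).2 ⟨y, rfl⟩]

theorem N4_zero2 (h : N4_Ex k i f q) (U : Ob) (hf : Function.Surjective (f.app U).hom) :
    Subsingleton (C.obj U) := by
  have h1 : ∀ c : C.obj U, c = 0 := by
    intro c
    obtain ⟨l, rfl⟩ := h.surj U c
    exact (h.ex2 U l).2 (hf l)
  exact ⟨fun x y => by rw [h1 x, h1 y]⟩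

theorem N4_zero3 (h : N4_Ex k i f q) (U : Ob) (hX : Subsingleton (X.obj U)) :
    Subsingleton (K.obj U) :=
  (h.inj U).subsingleton

theorem N4_zero4 (h : N4_Ex k i f q) (U : Ob) (hL : Subsingleton (L.obj U)) :
    Subsingleton (C.obj U) :=
  (h.surj U).subsingleton

end

theorem N4_subs (X : FunCat k) {U V : Ob} (m : U ⟶ V) (h : V.σ ⊆ U.σ) (he : Mor.e m = 0)
    (hU : Subsingleton (X.obj U)) : Subsingleton (X.obj V) :=
  (N4_bij k X m h he).2.subsingleton

theorem N4_subs' (X : FunCat k) {U V : Ob} (m : U ⟶ V) (h : V.σ ⊆ U.σ) (he : Mor.e m = 0)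
    (hV : Subsingleton (X.obj V)) : Subsingleton (X.obj U) :=
  (N4_bij k X m h he).1.subsingleton

/-- PROOF. Pointwise (kernels and cokernels in `QCohT k` are pointwise: H8, H9): `K(σ,a) = ker (X(σ) → X(σ∪v))`.
`Kills v K`: `K(σ∪v) = ker (X(σ∪v) → X(σ∪v∪v)) = 0`; the same for `C`. `IsLocal J` and `Kills w` pass from `X` to the kernel, the
cokernel (five lemma for `X(σ) ≅ X(σ∪J)`, `X(σ∪v) ≅ X(σ∪v∪J)`: `IsLocal J X` at the chart `σ ∪ v`; naturality of the unit in `X` and
in `U`) and to `L_v X`. -/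
theorem kernel_props (X : QCohT k) (v : Vr) (J : Finset Vr) (hJ : IsLocal k J X.obj) :
    IsLocal k J (kernel ((unitT k {v}).app X)).obj ∧ IsLocal k J (cokernel ((unitT k {v}).app X)).obj ∧
      Kills k v (kernel ((unitT k {v}).app X)).obj ∧ Kills k v (cokernel ((unitT k {v}).app X)).obj ∧
      (∀ w, Kills k w X.obj → Kills k w (kernel ((unitT k {v}).app X)).obj ∧
        Kills k w (cokernel ((unitT k {v}).app X)).obj ∧ Kills k w ((locT k {v}).obj X).obj) ∧
      IsLocal k (insert v J) ((locT k {v}).obj X).obj := by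
  have h := N4_ex k X ((locT k {v}).obj X) ((unitT k {v}).app X)
  have hL : IsLocal k J ((locT k {v}).obj X).obj := by
    intro U
    refine N4_bij' k X.obj ((locOb {v}).map ((unitOb J).app U)) ((unitOb J).app ((locOb {v}).obj U))
      rfl rfl ?_ ?_ (hJ ((locOb {v}).obj U))
    · change (U.σ ∪ J) ∪ {v} ⊆ (U.σ ∪ {v}) ∪ J
      intro w; simp only [Finset.mem_union]; tauto
    · change (U.σ ∪ {v}) ∪ J ⊆ (U.σ ∪ J) ∪ {v}
      intro w; simp only [Finset.mem_union]; tauto
  have hvv : ∀ U : Ob, Function.Bijective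
      ((((unitT k {v}).app X).hom.app ((locOb {v}).obj U))).hom := by
    intro U
    refine N4_bij k X.obj ((unitOb {v}).app ((locOb {v}).obj U)) ?_ rfl
    change (U.σ ∪ {v}) ∪ {v} ⊆ U.σ ∪ {v}
    intro w; simp only [Finset.mem_union]; tauto
  refine ⟨fun U => N4_five1 k h ((unitOb J).app U) (hJ U) (hL U),
    fun U => N4_five2 k h ((unitOb J).app U) (hJ U) (hL U),
    fun U => N4_zero1 k h ((locOb {v}).obj U) (hvv U).1,
    fun U => N4_zero2 k h ((locOb {v}).obj U) (hvv U).2, fun w hw => ?_, fun U => ?_⟩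
  · have hLw : Kills k w ((locT k {v}).obj X).obj := by
      intro U
      let m : (locOb {w}).obj ((locOb {v}).obj U) ⟶ (locOb {v}).obj ((locOb {w}).obj U) :=
        Mor.mk 0 (by
          change (U.σ ∪ {v}) ∪ {w} ⊆ (U.σ ∪ {w}) ∪ {v}
          intro w; simp only [Finset.mem_union]; tauto) Reg.zero (by
          rw [degE_zero]; exact (sub_self _).symm)
      refine N4_subs k X.obj m ?_ rfl (hw ((locOb {v}).obj U))
      change (U.σ ∪ {w}) ∪ {v} ⊆ (U.σ ∪ {v}) ∪ {w}
      intro w; simp only [Finset.mem_union]; tauto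
    exact ⟨fun U => N4_zero3 k h ((locOb {w}).obj U) (hw U),
      fun U => N4_zero4 k h ((locOb {w}).obj U) (hLw U), hLw⟩
  · refine N4_bij' k X.obj ((locOb {v}).map ((unitOb (insert v J)).app U))
      ((unitOb J).app ((locOb {v}).obj U)) rfl rfl ?_ ?_ (hJ ((locOb {v}).obj U))
    · change (U.σ ∪ insert v J) ∪ {v} ⊆ (U.σ ∪ {v}) ∪ J
      intro w; simp only [Finset.mem_union, Finset.mem_insert, Finset.mem_singleton]; tauto
    · change (U.σ ∪ {v}) ∪ J ⊆ (U.σ ∪ insert v J) ∪ {v}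
      intro w; simp only [Finset.mem_union, Finset.mem_insert, Finset.mem_singleton]; tauto

/-- Bounded cohomological dimension on the toric variety.

PROOF. `toric_induction` (P6) for `D = 0` (`Good 0`) and
`C N J := ∃ B, ∀ X : QCohT k, IsLocal k J X.obj → (∀ v ∈ N, Kills k v X.obj) → BD k b B X`.
base: `extAc_PT_of_local`, `B = 0`. step: `BD_of_kernel`, `kernel_props` (take the maximum of the two bounds, `BD` is monotone in
`B`). leaf: the family `i` is contained in `N`; every full `σ` contains some `v` of the family, and `X(σ,a) ≅ X(σ ∪ {v}, a)`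
(`v ∈ σ`: morphism with exponent `0` in both directions) is zero, so `X` is a zero object (`isZero_iff_pw`) and all `Ext` vanish, `B = 0`.
The result `C ∅ ∅` is applied to any `X` (`IsLocal k ∅ X` holds: `σ ∪ ∅ = σ`). -/
theorem exists_bound_T (b : Deg) : ∃ B : ℕ, ∀ X : QCohT k, BD k b B X := by
  have hmono : ∀ (B B' : ℕ) (X : QCohT k), B ≤ B' → BD k b B X → BD k b B' X :=
    fun B B' X h h' n hn => h' n (by omega)
  have h : ∃ B : ℕ, ∀ X : QCohT k, IsLocal k ∅ X.obj →
      (∀ v ∈ (∅ : Finset Vr), Kills k v X.obj) → BD k b B X := by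
    refine toric_induction (D := 0) (C := fun N J => ∃ B : ℕ, ∀ X : QCohT k, IsLocal k J X.obj →
      (∀ v ∈ N, Kills k v X.obj) → BD k b B X) ?_ ?_ ?_ ?_
    · simp [Good]
    · intro N J hJ
      exact ⟨0, fun X hX _ n hn e => extAc_PT_of_local k hJ b X hX n (by omega) e⟩
    · rintro N J v hN hJ ⟨B1, h1⟩ ⟨B2, h2⟩
      refine ⟨max B1 B2 + 1, fun X hX hK => ?_⟩
      obtain ⟨g1, g2, g3, g4, g5, g6⟩ := kernel_props k X v J hX
      refine BD_of_kernel k b _ X v ?_ ?_ ?_
      · exact hmono _ _ _ (le_max_right _ _) (h2 _ g1 (by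
          intro w hw
          rcases Finset.mem_insert.1 hw with rfl | hw
          · exact g3
          · exact (g5 w (hK w hw)).1))
      · exact hmono _ _ _ (le_max_left _ _) (h1 _ g6 (fun w hw => (g5 w (hK w hw)).2.2))
      · exact hmono _ _ _ (le_max_right _ _) (h2 _ g2 (by
          intro w hw
          rcases Finset.mem_insert.1 hw with rfl | hw
          · exact g4
          · exact (g5 w (hK w hw)).2.1))
    · intro N J i hi _
      refine ⟨0, fun X _ hK n _ e => ?_⟩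
      have hz : IsZero X := (isZero_iff_pw (isLoc k) X).2 fun U => by
        obtain ⟨v, hv, hvi⟩ := U.full i
        exact N4_subs' k X.obj ((unitOb {v}).app U) (by
          change U.σ ∪ {v} ⊆ U.σ
          intro w hw
          rcases Finset.mem_union.1 hw with hw | hw
          · exact hw
          · rw [Finset.mem_singleton.1 hw]; exact hv) rfl (hK v (hi v hvi) U)
      have h0 : 𝟙 X = 0 := (IsZero.iff_id_eq_zero X).1 hz
      rw [← Ext.comp_mk₀_id e, h0, Ext.mk₀_zero, Ext.comp_zero]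
  obtain ⟨B, hB⟩ := h
  refine ⟨B, fun X => hB X (fun U => ?_) (by simp)⟩
  exact N4_bij k X.obj ((unitOb ∅).app U) (by change U.σ ∪ ∅ ⊆ U.σ; simp) rfl

/-- PROOF. `ext_transfer` (H7) with `hom_OM_bijective`, `exists_embedding` (M1): `Ext^n(O_W(b),X) ≅ Ext^n(P(b), X)`, and
`ext_inCM_bijective` for coherent sheaves. -/
theorem exists_bound_coh (b : Deg) : ∃ B : ℕ, ∀ n : ℕ, B < n → ∀ (X : CohW k)
    (e : Ext.{u+1} (OC k b) X n), e = 0 := by
  have i1 : (inMT k).Additive := { map_add := rfl }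
  have i2 : PreservesFiniteLimits (inMT k) := inferInstanceAs
    (PreservesFiniteLimits (restr (isQC k) (isLoc k) (𝟭 (FunCat k)) (isQC_le_isLoc k)))
  have i3 : PreservesFiniteColimits (inMT k) := inferInstanceAs
    (PreservesFiniteColimits (restr (isQC k) (isLoc k) (𝟭 (FunCat k)) (isQC_le_isLoc k)))
  obtain ⟨B, hB⟩ := exists_bound_T k b
  refine ⟨B, fun n hn X e => ?_⟩
  have h1 : ∀ e' : Ext.{u+1} (OM k b) ((inCM k).obj X) n, e' = 0 := by
    intro e'
    apply (ext_transfer (inMT k) (OM k b) (PT k b) (πW k b) (hom_OM_bijective k b)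
      (exists_embedding k b) ((inCM k).obj X) n).1
    exact (hB _ n hn _).trans (hB _ n hn _).symm
  apply (ext_inCM_bijective k (OC k b) X n).1
  exact (h1 _).trans (h1 _).symm

end MPbd3808.BR
end
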