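import Pool.Agent.Lib.MP_bd3808_ag.Mg.G017
import Pool.Agent.Lib.MP_bd3808_ag.Mg.G015
import Pool.Agent.Lib.MP_bd3808_ag.Mg.G019
import Pool.Agent.Lib.MP_bd3808_ag.Mg.G020
import Pool.Agent.Lib.MP_bd3808_ag.Mg.G016

section

/-!
# TASK S9c: sections in degrees `(f,0,1)`

* `rx_0`: every exponent has `e 0 = e 1 = 0`, `e 6 + e 7 = 1`, `e 4 + e 5 = 1`. Let `α1, α2` be the parts of `α` (coefficient of
  `om1`) with `e 4 = 1`, `e 5 = 1`, and `β1, β2` those of `β`. By `DIV0` (`u1 ∣ mu α - la u0 β`; look at the parts of type `mu^2`, `la^2`, `la mu`):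
  `u1 ∣ α2`, `u1 ∣ β1`, `u1 ∣ mu α1 - la u0 β2`; by `DIV1` (`u0 ∣ mu β - la u1 α`): `u0 ∣ β2`, `u0 ∣ α1`, `u0 ∣ mu β1 - la u1 α2`. Put
  `a' = α2/(mu u1)`, `b' = β2/(mu u0)` (polynomials in `u0,u1`); then `q - a' z0 - b' z3 = (α1 - la u0^2 b') om1 + (β1 - la u1^2 a') om2`
  where `α1 - la u0^2 b'` is `la u0 u1` times a polynomial in `u0,u1`, and `β1 - la u1^2 a'` too. So `q = a' z0 + b' z3 + c la w1 + d la w2`.
-/

set_option autoImplicit false

noncomputable section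

open CategoryTheory CategoryTheory.Limits

namespace MPbd3808.BR.SX

universe u v w

variable (k : Type u) [Field k]

private lemma S9c_lin (p : A8 k) (L : A8 k →ₗ[k] KK k) (V : Submodule k (KK k))
    (h : ∀ e, p.coeff e ≠ 0 → L (AddMonoidAlgebra.single e 1) ∈ V) : L p ∈ V := by
  have h0 : (∑ e ∈ p.coeff.support, p.coeff e • (AddMonoidAlgebra.single e (1:k) : A8 k)) = p := by
    simp only [AddMonoidAlgebra.smul_single, smul_eq_mul, mul_one]
    exact AddMonoidAlgebra.sum_coeff_single p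
  have h1 := congrArg L h0
  rw [← h1, map_sum]
  refine Submodule.sum_mem _ fun e he => ?_
  rw [map_smul]
  exact V.smul_mem _ (h e (Finsupp.mem_support_iff.1 he))

private lemma S9c_bet (e : Fin 8 → ℤ) (he : ∀ i, 0 ≤ e i) :
    bet k 4 (AddMonoidAlgebra.single e 1) =
      algebraMap (R8 k) (KK k) (∏ i, xx k i ^ (e i).toNat) := by
  unfold bet
  rw [mev_single, one_smul, Units.coe_prod, map_prod]
  refine Finset.prod_congr rfl fun i _ => ?_
  have h1 : vc k 4 i = xx k i := by fin_cases i <;> rfl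
  obtain ⟨n, hn⟩ := Int.eq_ofNat_of_zero_le (he i)
  rw [hn, zpow_natCast, Units.val_pow_eq_pow_val, toU_val, map_pow, Int.toNat_natCast, h1]

/-- the exponents of a section of degree `(f,0,1)` -/
private def S9cE (f : ℤ) (e : Fin 8 → ℤ) : Prop :=
  (∀ i, 0 ≤ e i) ∧ e 0 = 0 ∧ e 1 = 0 ∧ e 4 + e 5 = 1 ∧ e 6 + e 7 = 1 ∧ e 2 + e 3 = f + e 4 + 1

private lemma S9c_facts {f : ℤ} {q : A8 k} (hq : q ∈ gr8 k 4 ∅ (deg0 (f, 0, 1))) (e : Fin 8 → ℤ)
    (he : q.coeff e ≠ 0) : S9cE f e := by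
  obtain ⟨h1, h2⟩ := hq e he
  have h3 : ∀ i, 0 ≤ e i := fun i => h1 i (by simp)
  have a0 := congrFun h2 0
  have a1 := congrFun h2 1
  have a2 := congrFun h2 2
  have a3 := congrFun h2 3
  simp [Fin.sum_univ_eight, dc, dom, deg0] at a0 a1 a2 a3
  have b0 := h3 0
  have b1 := h3 1
  refine ⟨h3, ?_, ?_, ?_, ?_, ?_⟩ <;> omega

/-- type `la om1 u0 u1 ..` -/
private lemma S9c_A {f : ℤ} (e : Fin 8 → ℤ) (he : S9cE f e) (h4 : e 4 = 1) (h6 : e 6 = 1)
    (h2 : e 2 ≠ 0) (h3 : e 3 ≠ 0) : bet k 4 (AddMonoidAlgebra.single e 1) ∈ RXK k (f, 0, 1) := by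
  obtain ⟨hn, e0, e1, e45, e67, e23⟩ := he
  have n2 := hn 2
  have n3 := hn 3
  obtain ⟨i, hi⟩ := Int.eq_ofNat_of_zero_le (show 0 ≤ e 2 - 1 by omega)
  obtain ⟨j, hj⟩ := Int.eq_ofNat_of_zero_le (show 0 ≤ e 3 - 1 by omega)
  have t2 : (e 2).toNat = i + 1 := by omega
  have t3 : (e 3).toNat = j + 1 := by omega
  have t5 : (e 5).toNat = 0 := by omega
  have t7 : (e 7).toNat = 0 := by omega
  have h := mem_RXK k i j 1 0 0 0 1 0 (f, 0, 1) (by
    simp only [BO.gdeg]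
    ext <;> simp <;> omega)
  rw [S9c_bet k e hn]
  convert h using 2
  rw [Fin.prod_univ_eight, e0, e1, h4, h6, t2, t3, t5, t7]
  simp only [rw1, Int.toNat_zero, Int.toNat_one]
  ring

/-- type `la om2 u0 u1 ..` -/
private lemma S9c_B {f : ℤ} (e : Fin 8 → ℤ) (he : S9cE f e) (h4 : e 4 = 1) (h7 : e 7 = 1)
    (h2 : e 2 ≠ 0) (h3 : e 3 ≠ 0) : bet k 4 (AddMonoidAlgebra.single e 1) ∈ RXK k (f, 0, 1) := by
  obtain ⟨hn, e0, e1, e45, e67, e23⟩ := he
  have n2 := hn 2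
  have n3 := hn 3
  obtain ⟨i, hi⟩ := Int.eq_ofNat_of_zero_le (show 0 ≤ e 2 - 1 by omega)
  obtain ⟨j, hj⟩ := Int.eq_ofNat_of_zero_le (show 0 ≤ e 3 - 1 by omega)
  have t2 : (e 2).toNat = i + 1 := by omega
  have t3 : (e 3).toNat = j + 1 := by omega
  have t5 : (e 5).toNat = 0 := by omega
  have t6 : (e 6).toNat = 0 := by omega
  have h := mem_RXK k i j 1 0 0 0 0 1 (f, 0, 1) (by
    simp only [BO.gdeg]
    ext <;> simp <;> omega)
  rw [S9c_bet k e hn]
  convert h using 2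
  rw [Fin.prod_univ_eight, e0, e1, h4, h7, t2, t3, t5, t6]
  simp only [rw2, Int.toNat_zero, Int.toNat_one]
  ring

/-- `mu om1 -> la u1 om2` -/
private abbrev S9cs : Fin 8 → ℤ := ![0,0,0,1,1,-1,-1,1]
/-- `mu om2 -> la u0 om1` -/
private abbrev S9ct : Fin 8 → ℤ := ![0,0,1,0,1,-1,1,-1]

private lemma S9c_Z0 {f : ℤ} (e : Fin 8 → ℤ) (he : S9cE f e) (h5 : e 5 = 1) (h6 : e 6 = 1)
    (h3 : e 3 ≠ 0) : bet k 4 (AddMonoidAlgebra.single e 1 * (1 + AddMonoidAlgebra.single S9cs 1)) ∈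
      RXK k (f, 0, 1) := by
  obtain ⟨hn, e0, e1, e45, e67, e23⟩ := he
  have n2 := hn 2
  have n3 := hn 3
  have hn' : ∀ i, 0 ≤ (e + S9cs) i := by
    intro i
    have := hn i
    fin_cases i <;> simp at this ⊢ <;> omega
  obtain ⟨i, hi⟩ := Int.eq_ofNat_of_zero_le (show 0 ≤ e 2 by omega)
  obtain ⟨j, hj⟩ := Int.eq_ofNat_of_zero_le (show 0 ≤ e 3 - 1 by omega)
  have h := mem_RXK k i j 0 0 1 0 0 0 (f, 0, 1) (by
    simp only [BO.gdeg]
    ext <;> simp <;> omega)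
  rw [mul_add, mul_one, AddMonoidAlgebra.single_mul_single, one_mul, map_add, S9c_bet k e hn,
    S9c_bet k (e + S9cs) hn', ← map_add]
  convert h using 2
  have t2 : (e 2).toNat = i := by omega
  have t3 : (e 3).toNat = j + 1 := by omega
  have t4 : (e 4).toNat = 0 := by omega
  have t7 : (e 7).toNat = 0 := by omega
  have u0 : ((e + S9cs) 0).toNat = 0 := by simp [e0]
  have u1 : ((e + S9cs) 1).toNat = 0 := by simp [e1]
  have u2 : ((e + S9cs) 2).toNat = i := by simp [hi]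
  have u3 : ((e + S9cs) 3).toNat = j + 2 := by simp; omega
  have u4 : ((e + S9cs) 4).toNat = 1 := by simp; omega
  have u5 : ((e + S9cs) 5).toNat = 0 := by simp; omega
  have u6 : ((e + S9cs) 6).toNat = 0 := by simp; omega
  have u7 : ((e + S9cs) 7).toNat = 1 := by simp; omega
  rw [Fin.prod_univ_eight, Fin.prod_univ_eight, e0, e1, h5, h6, t2, t3, t4, t7, u0, u1, u2, u3, u4,
    u5, u6, u7]
  simp only [rz0, Int.toNat_zero, Int.toNat_one]
  ring

private lemma S9c_Z3 {f : ℤ} (e : Fin 8 → ℤ) (he : S9cE f e) (h5 : e 5 = 1) (h7 : e 7 = 1)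
    (h2 : e 2 ≠ 0) : bet k 4 (AddMonoidAlgebra.single e 1 * (1 + AddMonoidAlgebra.single S9ct 1)) ∈
      RXK k (f, 0, 1) := by
  obtain ⟨hn, e0, e1, e45, e67, e23⟩ := he
  have n2 := hn 2
  have n3 := hn 3
  have hn' : ∀ i, 0 ≤ (e + S9ct) i := by
    intro i
    have := hn i
    fin_cases i <;> simp at this ⊢ <;> omega
  obtain ⟨i, hi⟩ := Int.eq_ofNat_of_zero_le (show 0 ≤ e 2 - 1 by omega)
  obtain ⟨j, hj⟩ := Int.eq_ofNat_of_zero_le (show 0 ≤ e 3 by omega)
  have h := mem_RXK k i j 0 0 0 1 0 0 (f, 0, 1) (by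
    simp only [BO.gdeg]
    ext <;> simp <;> omega)
  rw [mul_add, mul_one, AddMonoidAlgebra.single_mul_single, one_mul, map_add, S9c_bet k e hn,
    S9c_bet k (e + S9ct) hn', ← map_add]
  convert h using 2
  have t2 : (e 2).toNat = i + 1 := by omega
  have t3 : (e 3).toNat = j := by omega
  have t4 : (e 4).toNat = 0 := by omega
  have t6 : (e 6).toNat = 0 := by omega
  have u0 : ((e + S9ct) 0).toNat = 0 := by simp [e0]
  have u1 : ((e + S9ct) 1).toNat = 0 := by simp [e1]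
  have u2 : ((e + S9ct) 2).toNat = i + 2 := by simp; omega
  have u3 : ((e + S9ct) 3).toNat = j := by simp [hj]
  have u4 : ((e + S9ct) 4).toNat = 1 := by simp; omega
  have u5 : ((e + S9ct) 5).toNat = 0 := by simp; omega
  have u6 : ((e + S9ct) 6).toNat = 1 := by simp; omega
  have u7 : ((e + S9ct) 7).toNat = 0 := by simp; omega
  rw [Fin.prod_univ_eight, Fin.prod_univ_eight, e0, e1, h5, h7, t2, t3, t4, t6, u0, u1, u2, u3, u4,
    u5, u6, u7]
  simp only [rz3, Int.toNat_zero, Int.toNat_one]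
  ring

theorem rx_0 (f : ℤ) (q : A8 k) (hq : q ∈ gr8 k 4 ∅ (deg0 (f, 0, 1))) (h0 : DIV0 k q)
    (h1 : DIV1 k q) : bet k 4 q ∈ RXK k (f, 0, 1) := by
  classical
  have hz : ∀ e : Fin 8 → ℤ, (∃ i, e i < 0) → q.coeff e = 0 := by
    rintro e ⟨i, hi⟩
    by_contra h
    have := (S9c_facts k hq e h).1 i
    omega
  -- consequences of the divisibility conditions
  have c1 : ∀ e : Fin 8 → ℤ, q.coeff e ≠ 0 → e 5 = 1 → e 6 = 1 → e 3 ≠ 0 := by
    intro e he h5 h6 h3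
    obtain ⟨hn, e0, e1, e45, e67, e23⟩ := S9c_facts k hq e he
    have h := h0 (e + dl 5 - dl 6) (by simp [h3]) (by simp [h6]) (by simp; omega)
    rw [show e + dl 5 - dl 6 - dl 5 + dl 6 = e by abel] at h
    exact he (h.trans (hz _ ⟨4, by simp; omega⟩))
  have c2 : ∀ e : Fin 8 → ℤ, q.coeff e ≠ 0 → e 4 = 1 → e 7 = 1 → e 3 ≠ 0 := by
    intro e he h4 h7 h3
    obtain ⟨hn, e0, e1, e45, e67, e23⟩ := S9c_facts k hq e he
    have h := h0 (e + dl 4 + dl 2 - dl 7) (by simp [h3]) (by simp; omega) (by simp [h7])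
    rw [show e + dl 4 + dl 2 - dl 7 - dl 4 - dl 2 + dl 7 = e by abel] at h
    exact he (h.symm.trans (hz _ ⟨5, by simp; omega⟩))
  have c3 : ∀ e : Fin 8 → ℤ, e 3 = 0 → e 6 = 1 → e 7 = 0 →
      q.coeff e = q.coeff (e + dl 5 - dl 6 - dl 4 - dl 2 + dl 7) := by
    intro e h3 h6 h7
    have h := h0 (e + dl 5 - dl 6) (by simp [h3]) (by simp [h6]) (by simp [h7])
    rwa [show e + dl 5 - dl 6 - dl 5 + dl 6 = e by abel] at h
  have d1 : ∀ e : Fin 8 → ℤ, q.coeff e ≠ 0 → e 5 = 1 → e 7 = 1 → e 2 ≠ 0 := by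
    intro e he h5 h7 h3
    obtain ⟨hn, e0, e1, e45, e67, e23⟩ := S9c_facts k hq e he
    have h := h1 (e + dl 5 - dl 7) (by simp [h3]) (by simp; omega) (by simp [h7])
    rw [show e + dl 5 - dl 7 - dl 5 + dl 7 = e by abel] at h
    exact he (h.trans (hz _ ⟨4, by simp; omega⟩))
  have d2 : ∀ e : Fin 8 → ℤ, q.coeff e ≠ 0 → e 4 = 1 → e 6 = 1 → e 2 ≠ 0 := by
    intro e he h4 h6 h3
    obtain ⟨hn, e0, e1, e45, e67, e23⟩ := S9c_facts k hq e he
    have h := h1 (e + dl 4 + dl 3 - dl 6) (by simp [h3]) (by simp [h6]) (by simp; omega)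
    rw [show e + dl 4 + dl 3 - dl 6 - dl 4 - dl 3 + dl 6 = e by abel] at h
    exact he (h.symm.trans (hz _ ⟨5, by simp; omega⟩))
  have d3 : ∀ e : Fin 8 → ℤ, e 2 = 0 → e 6 = 0 → e 7 = 1 →
      q.coeff e = q.coeff (e + dl 5 - dl 7 - dl 4 - dl 3 + dl 6) := by
    intro e h3 h6 h7
    have h := h1 (e + dl 5 - dl 7) (by simp [h3]) (by simp [h6]) (by simp [h7])
    rwa [show e + dl 5 - dl 7 - dl 5 + dl 7 = e by abel] at h
  have s1 : ∀ e : Fin 8 → ℤ, e + dl 5 - dl 7 - dl 4 - dl 3 + dl 6 = e - S9cs := by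
    intro e
    funext i
    fin_cases i <;> simp <;> ring
  have s2 : ∀ e : Fin 8 → ℤ, e + dl 5 - dl 6 - dl 4 - dl 2 + dl 7 = e - S9ct := by
    intro e
    funext i
    fin_cases i <;> simp <;> ring
  -- the parts of type `mu om1` and `mu om2`
  obtain ⟨P6, hP6⟩ : ∃ P : A8 k, ∀ e, P.coeff e = if e 5 = 1 ∧ e 6 = 1 then q.coeff e else 0 :=
    ⟨AddMonoidAlgebra.ofCoeff (q.coeff.filter fun e => e 5 = 1 ∧ e 6 = 1), fun e => by
      rw [AddMonoidAlgebra.coeff_ofCoeff, Finsupp.filter_apply]⟩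
  obtain ⟨P7, hP7⟩ : ∃ P : A8 k, ∀ e, P.coeff e = if e 5 = 1 ∧ e 7 = 1 then q.coeff e else 0 :=
    ⟨AddMonoidAlgebra.ofCoeff (q.coeff.filter fun e => e 5 = 1 ∧ e 7 = 1), fun e => by
      rw [AddMonoidAlgebra.coeff_ofCoeff, Finsupp.filter_apply]⟩
  obtain ⟨r, hr⟩ : ∃ r : A8 k, r = q - P6 * (1 + AddMonoidAlgebra.single S9cs 1) -
    P7 * (1 + AddMonoidAlgebra.single S9ct 1) := ⟨_, rfl⟩
  have hrc : ∀ e, r.coeff e = q.coeff e - (P6.coeff e + P6.coeff (e - S9cs)) -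
      (P7.coeff e + P7.coeff (e - S9ct)) := by
    intro e
    rw [hr, mul_add, mul_one, mul_add, mul_one, AddMonoidAlgebra.coeff_sub,
      AddMonoidAlgebra.coeff_sub, AddMonoidAlgebra.coeff_add, AddMonoidAlgebra.coeff_add,
      Finsupp.sub_apply, Finsupp.sub_apply, Finsupp.add_apply, Finsupp.add_apply,
      AddMonoidAlgebra.coeff_mul_single_apply, AddMonoidAlgebra.coeff_mul_single_apply, mul_one,
      mul_one, sub_eq_add_neg, sub_eq_add_neg]
    simp only [sub_eq_add_neg]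
  have hq2 : q = r + P6 * (1 + AddMonoidAlgebra.single S9cs 1) +
      P7 * (1 + AddMonoidAlgebra.single S9ct 1) := by
    rw [hr]; ring
  -- the three pieces
  have m6 : bet k 4 (P6 * (1 + AddMonoidAlgebra.single S9cs 1)) ∈ RXK k (f, 0, 1) := by
    refine S9c_lin k P6 ((bet k 4).toLinearMap ∘ₗ
      LinearMap.mulRight k (1 + AddMonoidAlgebra.single S9cs 1)) _ fun e he => ?_
    rw [hP6] at he
    have hc : e 5 = 1 ∧ e 6 = 1 := by
      by_contra h
      rw [if_neg h] at he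
      exact he rfl
    rw [if_pos hc] at he
    exact S9c_Z0 k e (S9c_facts k hq e he) hc.1 hc.2 (c1 e he hc.1 hc.2)
  have m7 : bet k 4 (P7 * (1 + AddMonoidAlgebra.single S9ct 1)) ∈ RXK k (f, 0, 1) := by
    refine S9c_lin k P7 ((bet k 4).toLinearMap ∘ₗ
      LinearMap.mulRight k (1 + AddMonoidAlgebra.single S9ct 1)) _ fun e he => ?_
    rw [hP7] at he
    have hc : e 5 = 1 ∧ e 7 = 1 := by
      by_contra h
      rw [if_neg h] at he
      exact he rfl
    rw [if_pos hc] at he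
    exact S9c_Z3 k e (S9c_facts k hq e he) hc.1 hc.2 (d1 e he hc.1 hc.2)
  have mr : bet k 4 r ∈ RXK k (f, 0, 1) := by
    refine S9c_lin k r (bet k 4).toLinearMap _ fun e he => ?_
    have hs5 : (e - S9cs) 5 = e 5 + 1 := by simp
    have hs6 : (e - S9cs) 6 = e 6 + 1 := by simp
    have ht5 : (e - S9ct) 5 = e 5 + 1 := by simp
    have ht7 : (e - S9ct) 7 = e 7 + 1 := by simp
    have hs : ∀ i, (e - S9cs) i = e i - S9cs i := fun i => rfl
    have ht : ∀ i, (e - S9ct) i = e i - S9ct i := fun i => rfl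
    -- `e` is an exponent of the right degree
    have hE : S9cE f e := by
      by_cases g1 : q.coeff e ≠ 0
      · exact S9c_facts k hq e g1
      · rw [not_not] at g1
        by_cases g2 : q.coeff (e - S9cs) ≠ 0 ∧ (e - S9cs) 5 = 1 ∧ (e - S9cs) 6 = 1
        · obtain ⟨g2, g3, g4⟩ := g2
          have g5 := c1 _ g2 g3 g4
          obtain ⟨hn, e0, e1, e45, e67, e23⟩ := S9c_facts k hq _ g2
          have n0 := hn 0
          have n1 := hn 1
          have n2 := hn 2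
          have n3 := hn 3
          have n4 := hn 4
          have n7 := hn 7
          simp at e0 e1 e45 e67 e23 g3 g4 n0 n1 n2 n3 n4 n7
          refine ⟨?_, ?_, ?_, ?_, ?_, ?_⟩
          · intro i
            fin_cases i <;> simp <;> omega
          all_goals omega
        · by_cases g3 : q.coeff (e - S9ct) ≠ 0 ∧ (e - S9ct) 5 = 1 ∧ (e - S9ct) 7 = 1
          · obtain ⟨g2, g3, g4⟩ := g3
            obtain ⟨hn, e0, e1, e45, e67, e23⟩ := S9c_facts k hq _ g2
            have n0 := hn 0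
            have n1 := hn 1
            have n2 := hn 2
            have n3 := hn 3
            have n4 := hn 4
            have n6 := hn 6
            simp at e0 e1 e45 e67 e23 g3 g4 n0 n1 n2 n3 n4 n6
            refine ⟨?_, ?_, ?_, ?_, ?_, ?_⟩
            · intro i
              fin_cases i <;> simp <;> omega
            all_goals omega
          · exfalso
            apply he
            rw [hrc, hP6, hP6, hP7, hP7, g1]
            have k1 : (if (e - S9cs) 5 = 1 ∧ (e - S9cs) 6 = 1 then q.coeff (e - S9cs) else 0) = 0 := by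
              split_ifs with hh
              · by_contra h
                exact g2 ⟨h, hh.1, hh.2⟩
              · rfl
            have k2 : (if (e - S9ct) 5 = 1 ∧ (e - S9ct) 7 = 1 then q.coeff (e - S9ct) else 0) = 0 := by
              split_ifs with hh
              · by_contra h
                exact g3 ⟨h, hh.1, hh.2⟩
              · rfl
            rw [k1, k2]
            simp
    obtain ⟨hn, e0, e1, e45, e67, e23⟩ := hE
    have n4 := hn 4
    have n5 := hn 5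
    have n6 := hn 6
    have n7 := hn 7
    obtain ⟨Ac, hAc⟩ : ∃ z, q.coeff (e - S9cs) = z := ⟨_, rfl⟩
    obtain ⟨Bc, hBc⟩ : ∃ z, q.coeff (e - S9ct) = z := ⟨_, rfl⟩
    rw [hrc, hP6, hP6, hP7, hP7, hs5, hs6, ht5, ht7, hAc, hBc] at he
    rcases (show e 4 = 0 ∨ e 4 = 1 by omega) with h4 | h4
    · exfalso
      have h5 : e 5 = 1 := by omega
      apply he
      rcases (show e 6 = 0 ∨ e 6 = 1 by omega) with h6 | h6
      · have h7 : e 7 = 1 := by omega
        simp [h5, h6, h7]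
      · have h7 : e 7 = 0 := by omega
        simp [h5, h6, h7]
    · have h5 : e 5 = 0 := by omega
      rcases (show e 6 = 0 ∨ e 6 = 1 by omega) with h6 | h6
      · have h7 : e 7 = 1 := by omega
        simp [h5, h6, h7] at he
        refine S9c_B k e ⟨hn, e0, e1, e45, e67, e23⟩ h4 h7 ?_ ?_
        · intro h
          apply he
          rw [← hAc, d3 e h h6 h7, s1, sub_self]
        · intro h
          apply he
          have w1 : q.coeff e = 0 := by
            by_contra hh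
            exact c2 e hh h4 h7 h
          have w2 : q.coeff (e - S9cs) = 0 := hz _ ⟨3, by simp [h]⟩
          rw [w1, ← hAc, w2, sub_self]
      · have h7 : e 7 = 0 := by omega
        simp [h5, h6, h7] at he
        refine S9c_A k e ⟨hn, e0, e1, e45, e67, e23⟩ h4 h6 ?_ ?_
        · intro h
          apply he
          have w1 : q.coeff e = 0 := by
            by_contra hh
            exact d2 e hh h4 h6 h
          have w2 : q.coeff (e - S9ct) = 0 := hz _ ⟨2, by simp [h]⟩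
          rw [w1, ← hBc, w2, sub_self]
        · intro h
          apply he
          rw [← hBc, c3 e h h6 h7, s2, sub_self]
  rw [hq2, map_add, map_add]
  exact Submodule.add_mem _ (Submodule.add_mem _ mr m6) m7

end MPbd3808.BR.SX
end
end

section

/-!
# Global sections of `O_E` in the degrees which occur
-/

set_option autoImplicit false

noncomputable section

open CategoryTheory CategoryTheory.Limits

namespace MPbd3808.BR.SX

universe u v w

variable (k : Type u) [Field k]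

/-- `Γ(O_E(f,H,h)) = R'(f,H,h)` for `h ≤ 0` and for `h = 1`, `H = -1, 0`. -/
theorem SE_eq (D : BO.Dg) (hD : D.2.2 < 0 ∨ D.2.2 = 0 ∨ (D.2.2 = 1 ∧ (D.2.1 = -1 ∨ D.2.1 = 0))) :
    SE k (deg0 D) = RXK k D := by
  refine le_antisymm ?_ (RXK_le_SE k D)
  intro y hy
  obtain ⟨q, hq, rfl⟩ := sec4 k _ hy
  obtain ⟨f, H, h⟩ := D
  rcases hD with hD | hD | ⟨hD, hD'⟩
  · rw [rx_neg k (deg0 (f, H, h)) hD q hq]
    change (bet k 4) 0 ∈ _
    rw [map_zero]
    exact Submodule.zero_mem _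
  · simp only at hD
    subst hD
    exact rx_h0 k f H q hq
  · have h0 := div0 k (deg0 (f, H, h)) hD q (sec0 k _ hy)
    have h1 := div1 k (deg0 (f, H, h)) hD q (sec2 k _ hy)
    simp only at hD hD'
    subst hD
    rcases hD' with rfl | rfl
    · exact rx_m1 k f q hq h0 h1
    · exact rx_0 k f q hq h0 h1

/-- `R'_D ≃ Γ(O_E(D))`. -/
def rxE (D : BO.Dg) (hD : D.2.2 < 0 ∨ D.2.2 = 0 ∨ (D.2.2 = 1 ∧ (D.2.1 = -1 ∨ D.2.1 = 0))) :
    BO.RX k D ≃ₗ[k] SE k (deg0 D) :=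
  (Submodule.equivMapOfInjective (iP k).toLinearMap (iP_injective k) (BO.RX k D)).trans
    (LinearEquiv.ofEq _ _ (SE_eq k D hD).symm)

theorem rxE_coe (D : BO.Dg) (hD) (x : BO.RX k D) : (rxE k D hD x : KK k) = iP k x := rfl

end MPbd3808.BR.SX
end
end

section

/-!
# Homomorphisms into `O_E(b')` as elements of the function field
-/

set_option autoImplicit false

noncomputable section

open CategoryTheory CategoryTheory.Limits

namespace MPbd3808.BR.SX

universe u v w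

variable (k : Type u) [Field k]

/-- The evaluation of sections of `O_E(c)` on `σ` in the function field. -/
def evE (σ : Finset Vr) (c : Deg) : Qm k (GE k) σ c →ₗ[k] KK k :=
  Submodule.liftQ _ ((Phi k).toLinearMap ∘ₗ (gr k σ c).subtype) (by
    intro p hp
    exact Phi_idl k σ c p hp)

theorem evE_mk (σ : Finset Vr) (c : Deg) (p : gr k σ c) :
    evE k σ c (Submodule.Quotient.mk p) = Phi k p := rfl

theorem evE_injective {σ : Finset Vr} (hσ : Full σ) (c : Deg) :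
    Function.Injective (evE k σ c) := by
  rw [injective_iff_map_eq_zero]
  intro x hx
  obtain ⟨p, rfl⟩ := Submodule.Quotient.mk_surjective _ x
  rw [evE_mk] at hx
  exact (Submodule.Quotient.mk_eq_zero _).2 (ker_Phi k hσ c p p.2 hx)

theorem evE_range (σ : Finset Vr) (c : Deg) : LinearMap.range (evE k σ c) = VV k σ c := by
  apply le_antisymm
  · rintro _ ⟨x, rfl⟩
    obtain ⟨p, rfl⟩ := Submodule.Quotient.mk_surjective _ x
    exact ⟨p, p.2, rfl⟩
  · rintro _ ⟨p, hp, rfl⟩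
    exact ⟨Submodule.Quotient.mk ⟨p, hp⟩, rfl⟩

theorem evE_mulQm {σ τ : Finset Vr} {c d : Deg} (hst : σ ⊆ τ) (e : Ex) (he : Reg τ e)
    (hd : degE e = d - c) (x : Qm k (GE k) σ c) :
    evE k τ d (mulQm k (GE k) hst e he hd x) = Phi k (mon e) * evE k σ c x := by
  obtain ⟨p, rfl⟩ := Submodule.Quotient.mk_surjective _ x
  rw [mulQm_mk, evE_mk, evE_mk, mulGr_coe, map_mul]

/-- The unit section of `QQ G b` in degree `-b`. -/
def oneQ (G : List (A k × Deg)) (b : Deg) (σ : Finset Vr) (hσ : Full σ) :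
    (QQ G b).obj (Ob.mk σ hσ (-b)) :=
  Submodule.Quotient.mk ⟨1, by
    intro e he
    rw [AddMonoidAlgebra.one_def, AddMonoidAlgebra.coeff_single, Finsupp.single_apply] at he
    have h0 : e = 0 := by
      by_contra h
      rw [if_neg (fun h' => h h'.symm)] at he
      exact he rfl
    subst h0
    refine ⟨Reg.zero, ?_⟩
    change degE 0 = -b + b
    rw [degE_zero]
    abel⟩

variable {k}
variable {G : List (A k × Deg)} {b b' b'' : Deg}

/-- The value of a homomorphism into `O_E(b')`, in the function field. -/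
def appE (f : QQ G b ⟶ QQ (GE k) b') (Y : Ob) : (QQ G b).obj Y →ₗ[k] KK k :=
  (evE k Y.σ (Y.a + b')) ∘ₗ (f.app Y).hom

/-- The element of the function field given by a homomorphism. -/
def toK (f : QQ G b ⟶ QQ (GE k) b') : KK k :=
  appE f (Ob.mk Finset.univ full_univ (-b)) (oneQ k G b Finset.univ full_univ)

theorem appE_map (f : QQ G b ⟶ QQ (GE k) b') {Y Z : Ob} (m : Y ⟶ Z) (x : (QQ G b).obj Y) :
    appE f Z (((QQ G b).map m).hom x) = Phi k (mon (Mor.e m)) * appE f Y x := by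
  have h1 := congrArg (fun g => g.hom x) (f.naturality m)
  have h2 := congrArg (evE k Z.σ (Z.a + b')) h1
  refine Eq.trans h2 ?_
  exact evE_mulQm k (Mor.le m) (Mor.e m) (Mor.reg m) _ ((f.app Y).hom x)

theorem Phi_mon_zero : Phi k (mon (0 : Ex)) = 1 := by
  rw [mon, ← AddMonoidAlgebra.one_def, map_one]

theorem appE_one (f : QQ G b ⟶ QQ (GE k) b') (σ : Finset Vr) (hσ : Full σ) :
    appE f (Ob.mk σ hσ (-b)) (oneQ k G b σ hσ) = toK f := by
  have h1 := appE_map f (res hσ full_univ (Finset.subset_univ σ) (-b)) (oneQ k G b σ hσ)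
  rw [res_e, Phi_mon_zero, one_mul] at h1
  rw [← h1, toK]
  congr 1
  change mulQm k G _ _ _ _ _ = _
  unfold oneQ
  erw [mulQm_mk]
  congr 1
  ext1
  rw [mulGr_coe]
  simp only [res_e, mon]
  rw [← AddMonoidAlgebra.one_def, one_mul]

theorem appE_mk (f : QQ G b ⟶ QQ (GE k) b') (Y : Ob) (p : gr k Y.σ (Y.a + b)) :
    appE f Y (Submodule.Quotient.mk p) = Phi k p * toK f := by
  have key : (appE f Y) ∘ₗ (Submodule.mkQ _ : gr k Y.σ (Y.a + b) →ₗ[k] _) =
      (LinearMap.mulRight k (toK f)) ∘ₗ (Phi k).toLinearMap ∘ₗ (gr k Y.σ (Y.a + b)).subtype := by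
    apply gr_hom_ext
    intro e h1 h2
    have h3 := appE_map f (mk Y.full Y.full (Finset.Subset.refl _) e h1
      (by rw [h2]; abel) : Ob.mk Y.σ Y.full (-b) ⟶ Ob.mk Y.σ Y.full Y.a) (oneQ k G b Y.σ Y.full)
    rw [appE_one, mk_e] at h3
    refine Eq.trans ?_ h3
    change appE f Y _ = appE f Y _
    congr 1
    change _ = mulQm k G _ _ _ _ _
    unfold oneQ
    erw [mulQm_mk]
    change Submodule.Quotient.mk _ = _
    congr 1
    ext1
    rw [mulGr_coe]
    change _ = mon e * 1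
    rw [mul_one]
  exact congrArg (fun L => L p) key

theorem toK_injective : Function.Injective (toK : (QQ G b ⟶ QQ (GE k) b') → KK k) := by
  intro f g h
  ext Y x
  obtain ⟨p, rfl⟩ := Submodule.Quotient.mk_surjective _ x
  apply evE_injective k Y.full (Y.a + b')
  have h1 := appE_mk f Y p
  have h2 := appE_mk g Y p
  rw [h] at h1
  exact h1.trans h2.symm

theorem toK_mem (f : QQ G b ⟶ QQ (GE k) b') : toK f ∈ SE k (b' - b) := by
  rw [mem_SE]
  intro σ hσ
  rw [← appE_one f σ hσ, show b' - b = -b + b' by abel, ← evE_range]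
  exact ⟨_, rfl⟩

/-- The unique section of `O_E(c)` on a full chart with a given value. -/
def secE {σ : Finset Vr} (hσ : Full σ) (c : Deg) : VV k σ c ≃ₗ[k] Qm k (GE k) σ c :=
  (LinearEquiv.ofEq _ _ (evE_range k σ c).symm).trans
    (LinearEquiv.ofInjective (evE k σ c) (evE_injective k hσ c)).symm

theorem evE_secE {σ : Finset Vr} (hσ : Full σ) (c : Deg) (y : VV k σ c) :
    evE k σ c (secE hσ c y) = y := by
  have h1 := LinearEquiv.apply_symm_apply
    (LinearEquiv.ofInjective (evE k σ c) (evE_injective k hσ c))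
    (LinearEquiv.ofEq _ _ (evE_range k σ c).symm y)
  have h2 := congrArg Subtype.val h1
  exact h2

theorem Phi_mul_mem {y : KK k} (hy : y ∈ SE k (b' - b)) (Y : Ob) (p : gr k Y.σ (Y.a + b)) :
    Phi k p * y ∈ VV k Y.σ (Y.a + b') := by
  have h1 := VV_mul k (c := Y.a + b) (d := b' - b) (σ := Y.σ) (x := Phi k p) (y := y)
    ⟨p, p.2, rfl⟩ (mem_SE.1 hy Y.σ Y.full)
  rwa [show Y.a + b + (b' - b) = Y.a + b' by abel] at h1

/-- The component at `Y` of the homomorphism given by `y`. -/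
def ofKApp (hG : ∀ σ c p, p ∈ idl G σ c → Phi k p = 0) {y : KK k} (hy : y ∈ SE k (b' - b))
    (Y : Ob) : Qm k G Y.σ (Y.a + b) →ₗ[k] Qm k (GE k) Y.σ (Y.a + b') :=
  Submodule.liftQ _ ((secE Y.full (Y.a + b')).toLinearMap ∘ₗ
    (((LinearMap.mulRight k y) ∘ₗ (Phi k).toLinearMap ∘ₗ (gr k Y.σ (Y.a + b)).subtype).codRestrict
      (VV k Y.σ (Y.a + b')) (fun p => Phi_mul_mem hy Y p))) (by
    intro p hp
    rw [LinearMap.mem_ker, LinearMap.comp_apply]
    have h1 : (((LinearMap.mulRight k y) ∘ₗ (Phi k).toLinearMap ∘ₗ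
        (gr k Y.σ (Y.a + b)).subtype).codRestrict
      (VV k Y.σ (Y.a + b')) (fun p => Phi_mul_mem hy Y p)) p = 0 := by
      apply Subtype.ext
      have h2 : Phi k (p : A k) = 0 := hG _ _ _ hp
      change Phi k (p : A k) * y = 0
      rw [h2, zero_mul]
    rw [h1, map_zero])

theorem evE_ofKApp (hG : ∀ σ c p, p ∈ idl G σ c → Phi k p = 0) {y : KK k}
    (hy : y ∈ SE k (b' - b)) (Y : Ob) (p : gr k Y.σ (Y.a + b)) :
    evE k Y.σ (Y.a + b') (ofKApp hG hy Y (Submodule.Quotient.mk p)) = Phi k p * y :=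
  evE_secE Y.full (Y.a + b') ⟨Phi k p * y, Phi_mul_mem hy Y p⟩

/-- The homomorphism given by `y`. -/
def ofK (hG : ∀ σ c p, p ∈ idl G σ c → Phi k p = 0) {y : KK k} (hy : y ∈ SE k (b' - b)) :
    QQ G b ⟶ QQ (GE k) b' where
  app Y := ModuleCat.ofHom (ofKApp hG hy Y)
  naturality Y Z m := by
    refine ModuleCat.hom_ext (LinearMap.ext fun x => ?_)
    obtain ⟨p, rfl⟩ := Submodule.Quotient.mk_surjective _ x
    apply evE_injective k Z.full (Z.a + b')
    change evE k Z.σ (Z.a + b') (ofKApp hG hy Z (mulQm k G (Mor.le m) (Mor.e m) (Mor.reg m) _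
        (Submodule.Quotient.mk p))) =
      evE k Z.σ (Z.a + b') (mulQm k (GE k) (Mor.le m) (Mor.e m) (Mor.reg m) _
        (ofKApp hG hy Y (Submodule.Quotient.mk p)))
    rw [mulQm_mk, evE_ofKApp, evE_mulQm, evE_ofKApp, mulGr_coe, map_mul, mul_assoc]

theorem toK_ofK (hG : ∀ σ c p, p ∈ idl G σ c → Phi k p = 0) {y : KK k}
    (hy : y ∈ SE k (b' - b)) : toK (ofK hG hy) = y := by
  refine (evE_ofKApp hG hy (Ob.mk Finset.univ full_univ (-b)) _).trans ?_
  rw [map_one, one_mul]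

theorem toK_add (f g : QQ G b ⟶ QQ (GE k) b') : toK (f + g) = toK f + toK g := by
  unfold toK appE
  rw [LinearMap.comp_apply, LinearMap.comp_apply, LinearMap.comp_apply, ← map_add]
  rfl

theorem toK_smul (c : k) (f : QQ G b ⟶ QQ (GE k) b') : toK (c • f) = c • toK f := by
  unfold toK appE
  rw [LinearMap.comp_apply, LinearMap.comp_apply, ← map_smul]
  rfl

/-- `Hom(QQ G b, O_E(b')) = Γ(O_E(b' - b))`. -/
def homE (hG : ∀ σ c p, p ∈ idl G σ c → Phi k p = 0) (b b' : Deg) :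
    (QQ G b ⟶ QQ (GE k) b') ≃ₗ[k] SE k (b' - b) where
  toFun f := ⟨toK f, toK_mem f⟩
  invFun y := ofK hG y.2
  map_add' f g := Subtype.ext (toK_add f g)
  map_smul' c f := Subtype.ext (toK_smul c f)
  left_inv f := toK_injective (toK_ofK hG _)
  right_inv y := Subtype.ext (toK_ofK hG y.2)

theorem homE_coe (hG : ∀ σ c p, p ∈ idl G σ c → Phi k p = 0) (f : QQ G b ⟶ QQ (GE k) b') :
    (homE hG b b' f : KK k) = toK f := rfl

theorem toK_comp (f : QQ G b ⟶ QQ (GE k) b') (g : QQ (GE k) b' ⟶ QQ (GE k) b'') :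
    toK (f ≫ g) = toK f * toK g := by
  obtain ⟨p, hp⟩ := Submodule.Quotient.mk_surjective _
    ((f.app (Ob.mk Finset.univ full_univ (-b))).hom (oneQ k G b Finset.univ full_univ))
  have h1 : toK f = Phi k p :=
    (congrArg (evE k Finset.univ (-b + b')) hp).symm
  have h2 : toK (f ≫ g) = appE g (Ob.mk Finset.univ full_univ (-b)) (Submodule.Quotient.mk p) :=
    (congrArg (appE g (Ob.mk Finset.univ full_univ (-b))) hp).symm
  rw [h2, appE_mk, h1]

theorem toK_id : toK (𝟙 (QQ (GE k) b)) = 1 := by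
  change evE k _ _ (Submodule.Quotient.mk _) = 1
  rw [evE_mk]
  exact map_one _

end MPbd3808.BR.SX
end
end

section

/-!
# Homomorphisms `O_W(b) → O_W(b')` when the `s`-degree of `b' - b` is 0
-/

set_option autoImplicit false

noncomputable section

open CategoryTheory CategoryTheory.Limits

namespace MPbd3808.BR.SX

universe u v w

variable (k : Type u) [Field k]

theorem one_mem_gr (σ : Finset Vr) (b : Deg) : (1 : A k) ∈ gr k σ (-b + b) :=
  mon_mem_gr k (e := 0) Reg.zero (by rw [degE_zero]; abel)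

variable {k} in
theorem W4_gr (b b' : Deg) (p : gr k ∅ (b' - b)) (σ : Finset Vr) (a : Deg) {q : A k}
    (hq : q ∈ gr k σ (a + b)) : q * (p : A k) ∈ gr k σ (a + b') := by
  have h1 : (p : A k) ∈ gr k σ (b' - b) := fun e he =>
    ⟨((p.2 e he).1).mono (Finset.empty_subset σ), (p.2 e he).2⟩
  have h2 := gr_mul k hq h1
  rwa [show a + b + (b' - b) = a + b' by abel] at h2

variable {k} in
theorem W4_idl (b b' : Deg) (p : gr k ∅ (b' - b)) (σ : Finset Vr) (a : Deg) {q : A k}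
    (hq : q ∈ idl (GW k) σ (a + b)) : q * (p : A k) ∈ idl (GW k) σ (a + b') := by
  have h1 : (p : A k) ∈ gr k σ (b' - b) := fun e he =>
    ⟨((p.2 e he).1).mono (Finset.empty_subset σ), (p.2 e he).2⟩
  have h2 := idl_mul k (GW k) σ _ _ q p hq h1
  rwa [show a + b + (b' - b) = a + b' by abel] at h2

variable {k} in
/-- multiplication by `p` on a chart -/
def W4_app (b b' : Deg) (p : gr k ∅ (b' - b)) (Y : Ob) :
    Qm k (GW k) Y.σ (Y.a + b) →ₗ[k] Qm k (GW k) Y.σ (Y.a + b') :=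
  Submodule.mapQ _ _ ((LinearMap.mulRight k (p : A k)).restrict fun _ hq => W4_gr b b' p Y.σ Y.a hq)
    fun _ hq => W4_idl b b' p Y.σ Y.a hq

variable {k} in
theorem W4_app_mk (b b' : Deg) (p : gr k ∅ (b' - b)) (Y : Ob) (q : gr k Y.σ (Y.a + b)) :
    W4_app b b' p Y (Submodule.Quotient.mk q) =
      Submodule.Quotient.mk ⟨(q : A k) * p, W4_gr b b' p Y.σ Y.a q.2⟩ := rfl

variable {k} in
/-- multiplication by `p` -/
def W4_mul (b b' : Deg) (p : gr k ∅ (b' - b)) : QQ (GW k) b ⟶ QQ (GW k) b' where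
  app Y := ModuleCat.ofHom (W4_app b b' p Y)
  naturality Y Z m := by
    refine ModuleCat.hom_ext (LinearMap.ext fun x => ?_)
    obtain ⟨q, rfl⟩ := Submodule.Quotient.mk_surjective _ x
    change W4_app b b' p Z (mulQm k (GW k) (Mor.le m) (Mor.e m) (Mor.reg m) _
        (Submodule.Quotient.mk q)) =
      mulQm k (GW k) (Mor.le m) (Mor.e m) (Mor.reg m) _ (W4_app b b' p Y (Submodule.Quotient.mk q))
    rw [mulQm_mk, W4_app_mk, W4_app_mk, mulQm_mk]
    refine congrArg Submodule.Quotient.mk (Subtype.ext ?_)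
    have h1 : (mulGr k (c := Y.a + b) (d := Z.a + b) (Mor.le m) (Mor.e m) (Mor.reg m)
        (by rw [Mor.deg m]; abel) q : A k) * (p : A k) = mon (Mor.e m) * ((q : A k) * (p : A k)) := by
      rw [mulGr_coe, mul_assoc]
    exact h1

/-- `p ↦ multiplication by p` -/
def W4_lin (b b' : Deg) : gr k ∅ (b' - b) →ₗ[k] (QQ (GW k) b ⟶ QQ (GW k) b') where
  toFun p := W4_mul b b' p
  map_add' p p' := by
    ext Y x
    obtain ⟨q, rfl⟩ := Submodule.Quotient.mk_surjective _ x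
    change W4_app b b' (p + p') Y (Submodule.Quotient.mk q) =
      W4_app b b' p Y (Submodule.Quotient.mk q) + W4_app b b' p' Y (Submodule.Quotient.mk q)
    rw [W4_app_mk, W4_app_mk, W4_app_mk, ← Submodule.Quotient.mk_add]
    refine congrArg Submodule.Quotient.mk (Subtype.ext ?_)
    exact mul_add (q : A k) (p : A k) (p' : A k)
  map_smul' c p := by
    ext Y x
    obtain ⟨q, rfl⟩ := Submodule.Quotient.mk_surjective _ x
    change W4_app b b' (c • p) Y (Submodule.Quotient.mk q) =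
      c • W4_app b b' p Y (Submodule.Quotient.mk q)
    rw [W4_app_mk, W4_app_mk, ← Submodule.Quotient.mk_smul]
    refine congrArg Submodule.Quotient.mk (Subtype.ext ?_)
    exact mul_smul_comm c (q : A k) (p : A k)

theorem W4_inj (b b' : Deg) (hb : (b' - b) 0 = 0) : Function.Injective (W4_lin k b b') := by
  rw [injective_iff_map_eq_zero]
  intro p hp
  have h1 : W4_app b b' p (Ob.mk Finset.univ full_univ (-b))
      (oneQ k (GW k) b Finset.univ full_univ) = 0 :=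
    congrArg (fun f => (f.app (Ob.mk Finset.univ full_univ (-b))).hom
      (oneQ k (GW k) b Finset.univ full_univ)) hp
  have h1' : (⟨(1 : A k) * (p : A k), W4_gr b b' p Finset.univ (-b)
      (one_mem_gr k Finset.univ b)⟩ : gr k Finset.univ (-b + b')) ∈
      (idl (GW k) Finset.univ (-b + b')).comap (gr k Finset.univ (-b + b')).subtype :=
    (Submodule.Quotient.mk_eq_zero _).1 h1
  have h2 : (1 : A k) * (p : A k) ∈ idl (GW k) Finset.univ (-b + b') := h1'
  rw [one_mul] at h2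
  obtain ⟨y, _, hy⟩ := (mem_idlW k).1 h2
  apply Subtype.ext
  refine sfree_fP k p y (fun e he => ?_) hy
  obtain ⟨h3, h4⟩ := p.2 e he
  have h5 := h3 0 (Finset.notMem_empty _)
  have h6 := h3 1 (Finset.notMem_empty _)
  have h7 := deg_zero_coord e
  rw [h4, hb] at h7
  constructor <;> omega

theorem W4_surj (b b' : Deg) (hb : (b' - b) 0 = 0) : Function.Surjective (W4_lin k b b') := by
  intro f
  obtain ⟨p, hp, hx⟩ := exists_p k (-b + b') (by rw [show -b + b' = b' - b by abel]; exact hb)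
    (fun σ hσ => (f.app (Ob.mk σ hσ (-b))).hom (oneQ k (GW k) b σ hσ)) (by
      intro σ τ hσ hτ hst
      have h1 := congrArg (fun g => g.hom (oneQ k (GW k) b σ hσ)) (f.naturality (res hσ hτ hst (-b)))
      have h2 : ((QQ (GW k) b).map (res hσ hτ hst (-b))).hom (oneQ k (GW k) b σ hσ) =
          oneQ k (GW k) b τ hτ := by
        change mulQm k (GW k) _ _ _ _ _ = _
        unfold oneQ
        erw [mulQm_mk]
        congr 1
        ext1
        rw [mulGr_coe]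
        simp only [res_e, mon]
        rw [← AddMonoidAlgebra.one_def, one_mul]
      have h3 : (f.app (Ob.mk τ hτ (-b))).hom (((QQ (GW k) b).map (res hσ hτ hst (-b))).hom
          (oneQ k (GW k) b σ hσ)) = (f.app (Ob.mk τ hτ (-b))).hom (oneQ k (GW k) b τ hτ) :=
        congrArg _ h2
      exact (h1.symm.trans h3))
  have hp' : p ∈ gr k ∅ (b' - b) := by
    rwa [show b' - b = -b + b' by abel]
  refine ⟨⟨p, hp'⟩, ?_⟩
  ext Y x
  obtain ⟨q, rfl⟩ := Submodule.Quotient.mk_surjective _ x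
  have key : (W4_app b b' ⟨p, hp'⟩ Y) ∘ₗ (Submodule.mkQ _ : gr k Y.σ (Y.a + b) →ₗ[k] _) =
      (f.app Y).hom ∘ₗ (Submodule.mkQ _ : gr k Y.σ (Y.a + b) →ₗ[k] _) := by
    apply gr_hom_ext
    intro e h1 h2
    let m : Ob.mk Y.σ Y.full (-b) ⟶ Ob.mk Y.σ Y.full Y.a :=
      mk Y.full Y.full (Finset.Subset.refl _) e h1 (by rw [h2]; abel)
    have h3 : ((QQ (GW k) b).map m).hom (oneQ k (GW k) b Y.σ Y.full) =
        Submodule.Quotient.mk ⟨mon e, mon_mem_gr k h1 h2⟩ := by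
      change mulQm k (GW k) _ _ _ _ _ = _
      unfold oneQ
      erw [mulQm_mk]
      congr 1
      ext1
      rw [mulGr_coe]
      change mon e * 1 = _
      rw [mul_one]
    have h4 := congrArg (fun g => g.hom (oneQ k (GW k) b Y.σ Y.full)) (f.naturality m)
    have h5 : (f.app (Ob.mk Y.σ Y.full Y.a)).hom (((QQ (GW k) b).map m).hom
        (oneQ k (GW k) b Y.σ Y.full)) = ((QQ (GW k) b').map m).hom
          ((f.app (Ob.mk Y.σ Y.full (-b))).hom (oneQ k (GW k) b Y.σ Y.full)) := h4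
    rw [h3, hx Y.σ Y.full] at h5
    refine Eq.trans ?_ h5.symm
    change W4_app b b' ⟨p, hp'⟩ Y (Submodule.Quotient.mk _) =
      mulQm k (GW k) _ _ _ _ (Submodule.Quotient.mk _)
    rw [W4_app_mk]
    erw [mulQm_mk]
    refine congrArg Submodule.Quotient.mk (Subtype.ext ?_)
    rfl
  exact congrArg (fun L => L q) key

theorem finrank_homW (b b' : Deg) (hb : (b' - b) 0 = 0) :
    Module.finrank k (QQ (GW k) b ⟶ QQ (GW k) b') = Module.finrank k (gr k ∅ (b' - b)) :=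
  (LinearEquiv.ofBijective (W4_lin k b b') ⟨W4_inj k b b' hb, W4_surj k b b' hb⟩).finrank_eq.symm

end MPbd3808.BR.SX
end
end

section

/-!
# TASK M4: Ext from `O_W(b)` to `O_E(c)`: the remaining cases
-/

open CategoryTheory CategoryTheory.Limits

namespace MPbd3808.BR

universe u
variable (k : Type u) [Field k]

section M4aux

variable {k}

private theorem M4_ofCoeff_add_filter (q : A k) (P : Ex → Prop) [DecidablePred P] :
    (AddMonoidAlgebra.ofCoeff (q.coeff.filter P) : A k) +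
      AddMonoidAlgebra.ofCoeff (q.coeff.filter fun e => ¬ P e) = q := by
  apply AddMonoidAlgebra.ext
  refine Finsupp.ext fun e => ?_
  rw [AddMonoidAlgebra.coeff_add]
  simp only [Finsupp.add_apply]
  by_cases h : P e
  · rw [Finsupp.filter_apply_pos P _ h, Finsupp.filter_apply_neg (fun e => ¬ P e) _ (by simpa using h),
      add_zero]
  · rw [Finsupp.filter_apply_neg P _ h, Finsupp.filter_apply_pos (fun e => ¬ P e) _ h, zero_add]

private theorem M4_mon_mul_neg (e : Ex) (p : A k) : mon e * (mon (-e) * p) = p := by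
  rw [← mul_assoc]
  simp only [mon]
  rw [AddMonoidAlgebra.single_mul_single, add_neg_cancel, one_mul, ← AddMonoidAlgebra.one_def,
    one_mul]

/-- splitting a polynomial of positive degree in `la, mu` -/
private theorem M4_split {D : Deg} (hD : 1 ≤ D 2) {q : A k} (hq : q ∈ gr k ∅ D) :
    ∃ q1 ∈ gr k ∅ (D - dg 4), ∃ q2 ∈ gr k ∅ (D - dg 5),
      q = mon (Pi.single 4 1) * q1 + mon (Pi.single 5 1) * q2 := by
  classical
  refine ⟨mon (-(Pi.single 4 1)) *
    AddMonoidAlgebra.ofCoeff (q.coeff.filter fun e : Ex => 1 ≤ e 4), ?_,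
    mon (-(Pi.single 5 1)) *
    AddMonoidAlgebra.ofCoeff (q.coeff.filter fun e : Ex => ¬ 1 ≤ e 4), ?_, ?_⟩
  · intro e he
    rw [AddMonoidAlgebra.coeff_single_mul_apply, one_mul, neg_neg] at he
    rw [AddMonoidAlgebra.coeff_ofCoeff] at he
    have h1 : 1 ≤ ((Pi.single 4 1 : Ex) + e) 4 := by
      by_contra h
      exact he (Finsupp.filter_apply_neg (fun e : Ex => 1 ≤ e 4) _ h)
    rw [Finsupp.filter_apply_pos (fun e : Ex => 1 ≤ e 4) _ h1] at he
    obtain ⟨h2, h3⟩ := hq _ he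
    constructor
    · intro v hv
      have := h2 v hv
      by_cases hv4 : v = 4
      · subst hv4
        simp only [Pi.add_apply, Pi.single_eq_same] at h1
        omega
      · simp only [Pi.add_apply, Pi.single_apply, if_neg hv4, zero_add] at this
        exact this
    · rw [degE_add, degE_single] at h3
      rw [← h3]; abel
  · intro e he
    rw [AddMonoidAlgebra.coeff_single_mul_apply, one_mul, neg_neg] at he
    rw [AddMonoidAlgebra.coeff_ofCoeff] at he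
    have h1 : ¬ 1 ≤ ((Pi.single 5 1 : Ex) + e) 4 := by
      by_contra h
      exact he (Finsupp.filter_apply_neg (fun e : Ex => ¬ 1 ≤ e 4) _ (by simpa using h))
    rw [Finsupp.filter_apply_pos (fun e : Ex => ¬ 1 ≤ e 4) _ h1] at he
    obtain ⟨h2, h3⟩ := hq _ he
    constructor
    · intro v hv
      have := h2 v hv
      by_cases hv5 : v = 5
      · subst hv5
        have h4 := (degE_coord ((Pi.single 5 1 : Ex) + e)).2.2.1
        rw [h3] at h4
        have e4 : ((Pi.single 5 1 : Ex) + e) 4 = e 4 := by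
          simp [Pi.add_apply]
        have e5 : ((Pi.single 5 1 : Ex) + e) 5 = 1 + e 5 := by
          simp [Pi.add_apply]
        rw [e4] at h1
        rw [e4, e5] at h4
        omega
      · simp only [Pi.add_apply, Pi.single_apply, if_neg hv5, zero_add] at this
        exact this
    · rw [degE_add, degE_single] at h3
      rw [← h3]; abel
  · rw [M4_mon_mul_neg, M4_mon_mul_neg, M4_ofCoeff_add_filter]

private theorem M4_idl_le (σ : Finset Vr) (c : Deg) :
    idl [(fP k, dF)] σ c ≤ idl [(D1 k, dD), (D0 k, dD)] σ c := by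
  intro q hq
  obtain ⟨q', hq', r, hr, rfl⟩ := Submodule.mem_sup.1 hq
  obtain ⟨p, hp, rfl⟩ := hq'
  have hr0 : r = 0 := hr
  subst hr0
  rw [add_zero]
  have e1 : (LinearMap.mulLeft k (fP k)) p =
      D1 k * (mon (Pi.single 1 1) * p) + (D0 k * (mon (Pi.single 0 1) * p) + 0) := by
    rw [LinearMap.mulLeft_apply, fP_eq]; ring
  have hd0 : degE (Pi.single 0 1) = c - dD - (c - dF) := by
    rw [degE_single]
    funext i
    simp only [Pi.sub_apply]
    have : dg 0 i = dF i - dD i := by revert i; decide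
    rw [this]; ring
  have hd1 : degE (Pi.single 1 1) = c - dD - (c - dF) := by
    rw [degE_single]
    funext i
    simp only [Pi.sub_apply]
    have : dg 1 i = dF i - dD i := by revert i; decide
    rw [this]; ring
  have hreg : ∀ v : Vr, Reg σ (Pi.single v 1 : Ex) := by
    intro v w _
    by_cases h : w = v
    · subst h; simp
    · simp [h]
  change (LinearMap.mulLeft k (fP k)) p ∈ _
  rw [e1]
  refine Submodule.add_mem_sup ⟨mon (Pi.single 1 1) * p, ?_, rfl⟩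
    (Submodule.add_mem_sup ⟨mon (Pi.single 0 1) * p, ?_, rfl⟩ (Submodule.zero_mem _))
  · exact mon_mul_mem_gr k (Finset.Subset.refl _) hp _ (hreg 1) hd1
  · exact mon_mul_mem_gr k (Finset.Subset.refl _) hp _ (hreg 0) hd0

private theorem M4_hG {p : A k} {d : Deg} (hp : p ∈ gr k ∅ d) (σ : Finset Vr) (c : Deg) :
    ∀ q ∈ idl [(fP k, dF)] σ c, p * q ∈ idl [(D1 k, dD), (D0 k, dD)] σ (c + d) := by
  intro q hq
  rw [add_comm c d]
  exact mul_mem_idl _ (gr_mono (Finset.empty_subset σ) d hp) (M4_idl_le σ c hq)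

end M4aux

/-- Koszul sequence of `la, mu` (variables 4 and 5, degrees `![0,-1,1,0]`, `![0,0,1,0]`).

PROOF. `pwSES_koszul2` for `G = [(D1 k, dD), (D0 k, dD)]`, `v = 4`, `w = 5` gives a short exact sequence in `QCohW k`
(`shortExact_iff_pw`, `prop_prodF`): `0 → O_E(c) → O_E(c+la) ⊕ O_E(c+mu) → O_E(c+la+mu) → 0`. `extAc_left` with
`extAc_of_decomp` (`prodF_total`) for the middle term. `HomSurj`: a morphism `O_W(b) → O_E(c+la+mu)` composed with
`P(b) → O_W(b)` is given by a polynomial `q ∈ gr ∅ (c + la + mu - b)` (hypothesis `hp`); all monomials of `q` have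
`e 4 + e 5 = degree_H ≥ 1` (`hH`, `degE_coord`), so `q = la q1 + mu q2` with `q1, q2` homogeneous polynomials, and the pair
`(q2, -q1)` (signs as in `descF`: `mu y - la z`) defines the lift: a morphism `O_W(b) → O_E(..)` given by a polynomial:
`mapQQ [(fP k, dF)] [(D1 k, dD), (D0 k, dD)] q2 ..` (`f ∈ (D0,D1)`: `fP_eq`, `mul_mem_idl`). Compare on the section `1`
(`homQQ_ext`). -/
theorem extAc_OM_OEM_koszul (b c : Deg)
    (h1 : ExtAc.{u+1} (OM k b) (OEM k (c + dg 4))) (h2 : ExtAc.{u+1} (OM k b) (OEM k (c + dg 5)))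
    (h3 : ExtAc.{u+1} (OM k b) (OEM k (c + dg 4 + dg 5)))
    (hp : PolyHom k [(D1 k, dD), (D0 k, dD)] b (c + dg 4 + dg 5))
    (hH : 1 ≤ (c + dg 4 + dg 5 - b) 2) : ExtAc.{u+1} (OM k b) (OEM k c) := by
  set G : List (A k × Deg) := [(D1 k, dD), (D0 k, dD)] with hG
  have hfam : ∀ x : Vr, fam x = fam 4 → x = 4 ∨ x = 5 := by decide
  have hpw := pwSES_koszul2 (k := k) G 4 5 (by decide) hfam c (c + dg 4) (c + dg 5)
    (c + dg 4 + dg 5) rfl rfl rfl
  let Y : QCohW k := ⟨prodF (OEf k (c + dg 4)) (OEf k (c + dg 5)),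
    prop_prodF (pwClosed_isQC k) (isCoh_OE (c + dg 4)).1 (isCoh_OE (c + dg 5)).1⟩
  let fS : OEM k c ⟶ Y := (isQC k).homMk (liftF (mulV G 4 c (c + dg 4) rfl)
    (mulV G 5 c (c + dg 5) rfl))
  let gS : Y ⟶ OEM k (c + dg 4 + dg 5) := (isQC k).homMk
    (descF (mulV G 5 (c + dg 4) (c + dg 4 + dg 5) rfl)
      (-(mulV G 4 (c + dg 5) (c + dg 4 + dg 5) (by abel))))
  have w : fS ≫ gS = 0 := (isQC k).ι.map_injective hpw.comp_eq_zero
  let S : ShortComplex (QCohW k) := ShortComplex.mk fS gS w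
  have hS : S.ShortExact := (shortExact_iff_pw (isQC k) S).2 hpw
  refine extAc_left hS ?_ h3 ?_
  · refine extAc_of_decomp (C := QCohW k) (X := OEM k (c + dg 4)) (Y := OEM k (c + dg 5)) (Z := Y)
      ((isQC k).homMk (fstF _ _)) ((isQC k).homMk (sndF _ _)) ((isQC k).homMk (inlF _ _))
      ((isQC k).homMk (inrF _ _)) ?_ h1 h2
    exact (isQC k).ι.map_injective (prodF_total _ _)
  · intro f
    obtain ⟨q, hq, hqf⟩ := hp (projC (fP k, dF) [] b ≫ f.hom)
    obtain ⟨q1, hq1, q2, hq2, hqq⟩ := M4_split hH hq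
    have hq1' : -q1 ∈ gr k ∅ (c + dg 4 + dg 5 - b - dg 4) := Submodule.neg_mem _ hq1
    let F2 : OWf k b ⟶ OEf k (c + dg 4) := mapQQ [(fP k, dF)] G q2
      (c + dg 4 + dg 5 - b - dg 5) hq2 (fun σ c => M4_hG hq2 σ c) b (c + dg 4) (by abel)
    let F1 : OWf k b ⟶ OEf k (c + dg 5) := mapQQ [(fP k, dF)] G (-q1)
      (c + dg 4 + dg 5 - b - dg 4) hq1' (fun σ c => M4_hG hq1' σ c) b (c + dg 5) (by abel)
    refine ⟨(isQC k).homMk (liftF F2 F1), ?_⟩
    apply (isQC k).ι.map_injective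
    change liftF F2 F1 ≫ descF (mulV G 5 (c + dg 4) (c + dg 4 + dg 5) rfl)
      (-(mulV G 4 (c + dg 5) (c + dg 4 + dg 5) (by abel))) = f.hom
    refine homQQ_ext _ b fun σ hσ => ?_
    have e1 : ((projC (fP k, dF) [] b).app (Ob.mk σ hσ (-b))).hom (oneQ [] b σ hσ) =
        oneQ [(fP k, dF)] b σ hσ := by
      change Submodule.Quotient.mk _ = Submodule.Quotient.mk _
      congr 1
      ext1
      change (1 : A k) * 1 = 1
      rw [one_mul]
    have e2 : (f.hom.app (Ob.mk σ hσ (-b))).hom (oneQ [(fP k, dF)] b σ hσ) =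
        ((projC (fP k, dF) [] b ≫ f.hom).app (Ob.mk σ hσ (-b))).hom (oneQ [] b σ hσ) := by
      rw [← e1]; rfl
    rw [e2, hqf]
    rw [NatTrans.comp_app, ModuleCat.hom_comp, LinearMap.comp_apply, liftF_app, descF_app]
    change (Submodule.Quotient.mk _ : Qm k G σ (-b + (c + dg 4 + dg 5))) +
      -(Submodule.Quotient.mk _ : Qm k G σ (-b + (c + dg 4 + dg 5))) =
      (Submodule.Quotient.mk _ : Qm k G σ (-b + (c + dg 4 + dg 5)))
    rw [← Submodule.Quotient.mk_neg, ← Submodule.Quotient.mk_add]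
    congr 1
    ext1
    change mon (Pi.single 5 1) * (q2 * 1) + -(mon (Pi.single 4 1) * ((-q1) * 1)) = 1 * (q * 1)
    rw [hqq]
    ring

section M4aux2

private theorem M4_dD (b c : Deg) (i : Fin 4) : (c - dD - b) i = (c - b) i - dD i := by
  simp only [Pi.sub_apply]; ring

private theorem M4_dDD (b c : Deg) (i : Fin 4) :
    (c - dD - dD - b) i = (c - b) i - dD i - dD i := by
  simp only [Pi.sub_apply]; ring

private theorem M4_dFb (b c : Deg) (i : Fin 4) : (c - dF - b) i = (c - b) i - dF i := by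
  simp only [Pi.sub_apply]; ring

private theorem M4_dD0_ : dD 0 = 0 := by decide
private theorem M4_dD1_ : dD 1 = 0 := by decide
private theorem M4_dD2_ : dD 2 = 1 := by decide
private theorem M4_dD3_ : dD 3 = 1 := by decide
private theorem M4_dF0_ : dF 0 = 1 := by decide
private theorem M4_dF1_ : dF 1 = 0 := by decide
private theorem M4_dF2_ : dF 2 = 1 := by decide
private theorem M4_dF3_ : dF 3 = 1 := by decide

private theorem M4_good (D : Deg) (h : -1 ≤ D 0 ∧ (D 0 < 0 ∨ -3 ≤ D 3) ∧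
    (D 0 < 0 ∨ D 3 < 0 ∨ -1 ≤ D 2) ∧ (D 0 < 0 ∨ D 3 < 0 ∨ D 2 < 0 ∨ -1 ≤ D 1)) : Good D := h

private theorem M4_good_dD (b c : Deg)
    (h : -1 ≤ (c - b) 0 ∧ ((c - b) 0 < 0 ∨ -2 ≤ (c - b) 3) ∧
    ((c - b) 0 < 0 ∨ (c - b) 3 < 1 ∨ 0 ≤ (c - b) 2) ∧
    ((c - b) 0 < 0 ∨ (c - b) 3 < 1 ∨ (c - b) 2 < 1 ∨ -1 ≤ (c - b) 1)) : Good (c - dD - b) := by
  apply M4_good
  rw [M4_dD, M4_dD, M4_dD, M4_dD, M4_dD0_, M4_dD1_, M4_dD2_, M4_dD3_]
  omega

private theorem M4_good_dDD (b c : Deg)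
    (h : -1 ≤ (c - b) 0 ∧ ((c - b) 0 < 0 ∨ -1 ≤ (c - b) 3) ∧
    ((c - b) 0 < 0 ∨ (c - b) 3 < 2 ∨ 1 ≤ (c - b) 2) ∧
    ((c - b) 0 < 0 ∨ (c - b) 3 < 2 ∨ (c - b) 2 < 2 ∨ -1 ≤ (c - b) 1)) :
    Good (c - dD - dD - b) := by
  apply M4_good
  rw [M4_dDD, M4_dDD, M4_dDD, M4_dDD, M4_dD0_, M4_dD1_, M4_dD2_, M4_dD3_]
  omega

private theorem M4_good_dF (b c : Deg) (h : (c - b) 0 = 0) : Good (c - dF - b) := by
  apply M4_good
  rw [M4_dFb, M4_dFb, M4_dFb, M4_dFb, M4_dF0_, M4_dF1_, M4_dF2_, M4_dF3_]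
  omega

/-- no monomials of the degree `D` -/
private theorem M4_no (D : Deg)
    (h : D 0 < 0 ∨ D 3 < 0 ∨ D 2 < 0 ∨ (D 2 = 0 ∧ D 1 < 0)) :
    ∀ e : Ex, degE e = D → ¬ ∀ v, 0 ≤ e v := by
  intro e he hv
  obtain ⟨a0, a1, a2, a3⟩ := degE_coord e
  rw [he] at a0 a1 a2 a3
  have h0 := hv 0
  have h1 := hv 1
  have h2 := hv 2
  have h3 := hv 3
  have h4 := hv 4
  have h5 := hv 5
  have h6 := hv 6
  have h7 := hv 7
  have h8 := hv 8
  have h9 := hv 9
  omega

private theorem M4_no_dD (b c : Deg)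
    (h : (c - b) 0 < 0 ∨ (c - b) 3 < 1 ∨ (c - b) 2 < 1 ∨ ((c - b) 2 = 1 ∧ (c - b) 1 < 0)) :
    ∀ e : Ex, degE e = c - dD - b → ¬ ∀ v, 0 ≤ e v := by
  apply M4_no
  rw [M4_dD, M4_dD, M4_dD, M4_dD, M4_dD0_, M4_dD1_, M4_dD2_, M4_dD3_]
  omega

private theorem M4_no_dDD (b c : Deg)
    (h : (c - b) 0 < 0 ∨ (c - b) 3 < 2 ∨ (c - b) 2 < 2 ∨ ((c - b) 2 = 2 ∧ (c - b) 1 < 0)) :
    ∀ e : Ex, degE e = c - dD - dD - b → ¬ ∀ v, 0 ≤ e v := by
  apply M4_no
  rw [M4_dDD, M4_dDD, M4_dDD, M4_dDD, M4_dD0_, M4_dD1_, M4_dD2_, M4_dD3_]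
  omega

private theorem M4_la0 (b c : Deg) (i : Fin 4) : (c + dg 4 - b) i = (c - b) i + dg 4 i := by
  simp only [Pi.sub_apply, Pi.add_apply]; ring

private theorem M4_mu0 (b c : Deg) (i : Fin 4) : (c + dg 5 - b) i = (c - b) i + dg 5 i := by
  simp only [Pi.sub_apply, Pi.add_apply]; ring

private theorem M4_lamu0 (b c : Deg) (i : Fin 4) :
    (c + dg 4 + dg 5 - b) i = (c - b) i + dg 4 i + dg 5 i := by
  simp only [Pi.sub_apply, Pi.add_apply]; ring

private theorem M4_dg40_ : dg 4 0 = 0 := by decide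
private theorem M4_dg41_ : dg 4 1 = -1 := by decide
private theorem M4_dg42_ : dg 4 2 = 1 := by decide
private theorem M4_dg43_ : dg 4 3 = 0 := by decide
private theorem M4_dg50_ : dg 5 0 = 0 := by decide
private theorem M4_dg51_ : dg 5 1 = 0 := by decide
private theorem M4_dg52_ : dg 5 2 = 1 := by decide
private theorem M4_dg53_ : dg 5 3 = 0 := by decide

/-- the cases where the Koszul complex of `D0, D1` gives the vanishing -/
private theorem M4_direct (b c : Deg) (h0 : (c - b) 0 = 0) (h3 : -1 ≤ (c - b) 3)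
    (h2 : -1 ≤ (c - b) 2) (h1 : -1 ≤ (c - b) 1) (h12 : (c - b) 3 ≤ 0 ∨ 0 ≤ (c - b) 2)
    (h23 : (c - b) 3 ≤ 1 ∨ 1 ≤ (c - b) 2) :
    Good (c - b) ∧ Good (c - dD - b) ∧ Good (c - dD - dD - b) :=
  ⟨M4_good _ (by omega), M4_good_dD b c (by omega), M4_good_dDD b c (by omega)⟩

end M4aux2

/-- The range of degrees `D = c - b` which we need.

PROOF. Coordinates `D = (0; f, H, h)`. `Good` is decided by linear arithmetic on coordinates
(`(c - dD - b) i = (c - b) i - dD i`, `dD = ![0,0,1,1]`).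
* `h = -1`: `Good D`, `Good (D - dD)` (`h = -2`), `Good (D - 2 dD)` (`h = -3`): `extAc_OM_OEM`.
* `h = 0`: `D - dD`, `D - 2 dD` have `h = -1, -2 < 0`.
* `h = 1, H ≥ 0`: `D - dD` has `h = 0`, `H ≥ -1`, `D - 2 dD` has `h = -1`. `h ≥ 2, H ≥ 1`: `D - 2 dD` has `H ≥ -1`.
* `h = 1, H = -1` and `h ≥ 2, H = 0` (here `f ≥ 0`): `extAc_OM_OEM_koszul`; the degrees `D + la = (0; f-1, H+1, h)`,
  `D + mu = (0; f, H+1, h)`, `D + la + mu = (0; f-1, H+2, h)` are in the cases already treated directly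
  (`f - 1 ≥ -1`), and `polyHom_OE` applies to the last one. -/
theorem extAc_OM_OEM_range (b c : Deg) (h0 : (c - b) 0 = 0) (h3 : -1 ≤ (c - b) 3)
    (h2 : -1 ≤ (c - b) 2) (h1 : -1 ≤ (c - b) 1) (h12 : 1 ≤ (c - b) 3 → 0 ≤ (c - b) 1)
    (h23 : 2 ≤ (c - b) 3 → 0 ≤ (c - b) 2) : ExtAc.{u+1} (OM k b) (OEM k c) := by
  by_cases hd : ((c - b) 3 ≤ 0 ∨ 0 ≤ (c - b) 2) ∧ ((c - b) 3 ≤ 1 ∨ 1 ≤ (c - b) 2)
  · obtain ⟨g1, g2, g3⟩ := M4_direct b c h0 h3 h2 h1 hd.1 hd.2
    exact extAc_OM_OEM k b c g1 g2 g3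
  · have hh1 : 0 ≤ (c - b) 1 := by
      apply h12
      by_contra h
      apply hd
      omega
    obtain ⟨a1, a2, a3⟩ := M4_direct b (c + dg 4)
      (by rw [M4_la0, M4_dg40_]; omega) (by rw [M4_la0, M4_dg43_]; omega) (by rw [M4_la0, M4_dg42_]; omega)
      (by rw [M4_la0, M4_dg41_]; omega) (by rw [M4_la0, M4_la0, M4_dg43_, M4_dg42_]; omega)
      (by rw [M4_la0, M4_la0, M4_dg43_, M4_dg42_]; omega)
    obtain ⟨b1, b2, b3⟩ := M4_direct b (c + dg 5)
      (by rw [M4_mu0, M4_dg50_]; omega) (by rw [M4_mu0, M4_dg53_]; omega) (by rw [M4_mu0, M4_dg52_]; omega)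
      (by rw [M4_mu0, M4_dg51_]; omega) (by rw [M4_mu0, M4_mu0, M4_dg53_, M4_dg52_]; omega)
      (by rw [M4_mu0, M4_mu0, M4_dg53_, M4_dg52_]; omega)
    obtain ⟨c1, c2, c3⟩ := M4_direct b (c + dg 4 + dg 5)
      (by rw [M4_lamu0, M4_dg40_, M4_dg50_]; omega) (by rw [M4_lamu0, M4_dg43_, M4_dg53_]; omega)
      (by rw [M4_lamu0, M4_dg42_, M4_dg52_]; omega)
      (by rw [M4_lamu0, M4_dg41_, M4_dg51_]; omega)
      (by rw [M4_lamu0, M4_lamu0, M4_dg43_, M4_dg42_, M4_dg53_, M4_dg52_]; omega)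
      (by rw [M4_lamu0, M4_lamu0, M4_dg43_, M4_dg42_, M4_dg53_, M4_dg52_]; omega)
    exact extAc_OM_OEM_koszul k b c (extAc_OM_OEM k b _ a1 a2 a3) (extAc_OM_OEM k b _ b1 b2 b3)
      (extAc_OM_OEM k b _ c1 c2 c3) (polyHom_OE k b _ c1 c2 c3)
      (by rw [M4_lamu0, M4_dg42_, M4_dg52_]; omega)

/-- All Ext groups vanish if `(c - b)_s = -1`. PROOF. `extOrth_OM_OEM`; `Good` holds since `D 0 = -1 < 0`
(`dD 0 = 0`), and there are no monomials with `e 0 + e 1 = -1`, `e ≥ 0`. -/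
theorem extOrth_OM_OEM_neg (b c : Deg) (h0 : (c - b) 0 = -1) : ExtOrth.{u+1} (OM k b) (OEM k c) := by
  exact extOrth_OM_OEM k b c (M4_good _ (by omega)) (M4_good_dD b c (by omega))
    (M4_good_dDD b c (by omega)) (M4_no _ (by omega)) (M4_no_dD b c (by omega))
    (M4_no_dDD b c (by omega))

/-- All Ext groups vanish if `(c - b)_s = 0`, `(c - b)_h = -1`. PROOF. `extOrth_OM_OEM`; `e 6 + .. + e 9 < 0`. -/
theorem extOrth_OM_OEM_h (b c : Deg) (h0 : (c - b) 0 = 0) (h3 : (c - b) 3 = -1) :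
    ExtOrth.{u+1} (OM k b) (OEM k c) := by
  exact extOrth_OM_OEM k b c (M4_good _ (by omega)) (M4_good_dD b c (by omega))
    (M4_good_dDD b c (by omega)) (M4_no _ (by omega)) (M4_no_dD b c (by omega))
    (M4_no_dDD b c (by omega))

/-- The range of degrees for `O_W`. PROOF. `extAc_OM_OM`; `c - dF - b` has first coordinate `-1`. -/
theorem extAc_OM_OM_range (b c : Deg) (h0 : (c - b) 0 = 0) (h3 : -3 ≤ (c - b) 3)
    (h2 : 0 ≤ (c - b) 3 → -1 ≤ (c - b) 2) (h1 : 0 ≤ (c - b) 3 → 0 ≤ (c - b) 2 → -1 ≤ (c - b) 1) :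
    ExtAc.{u+1} (OM k b) (OM k c) := by
  exact extAc_OM_OM k b c (M4_good _ (by omega)) (M4_good_dF b c h0)

/-- PROOF. `extOrth_OM_OM`; a monomial `e ≥ 0` of degree `D` has `D 3 ≥ 0`, `D 2 ≥ 0` and, if `D 2 = 0`, `D 1 ≥ 0`
(`degE_coord`: `e 4 = e 5 = 0`, `D 1 = e 2 + e 3`). -/
theorem extOrth_OM_OM_range (b c : Deg) (h0 : (c - b) 0 = 0) (h3 : -3 ≤ (c - b) 3)
    (h2 : 0 ≤ (c - b) 3 → -1 ≤ (c - b) 2) (h1 : 0 ≤ (c - b) 3 → 0 ≤ (c - b) 2 → -1 ≤ (c - b) 1)
    (h : (c - b) 3 < 0 ∨ (c - b) 2 < 0 ∨ ((c - b) 2 = 0 ∧ (c - b) 1 < 0)) :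
    ExtOrth.{u+1} (OM k b) (OM k c) := by
  refine extOrth_OM_OM k b c (M4_good _ (by omega)) (M4_good_dF b c h0) (M4_no _ (by omega))
    (M4_no _ ?_)
  rw [M4_dFb, M4_dFb, M4_dFb, M4_dFb, M4_dF0_, M4_dF1_, M4_dF2_, M4_dF3_]
  omega

/-- PROOF. `(c-b)_h = 0`: `extOrth_OM_OEM`: the degrees `D - dD`, `D - 2 dD` have negative last coordinate; as above. -/
theorem extOrth_OM_OEM_zero (b c : Deg) (h0 : (c - b) 0 = 0) (h3 : (c - b) 3 = 0)
    (h2 : -1 ≤ (c - b) 2) (h1 : 0 ≤ (c - b) 2 → -1 ≤ (c - b) 1)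
    (h : (c - b) 2 < 0 ∨ ((c - b) 2 = 0 ∧ (c - b) 1 < 0)) : ExtOrth.{u+1} (OM k b) (OEM k c) := by
  exact extOrth_OM_OEM k b c (M4_good _ (by omega)) (M4_good_dD b c (by omega))
    (M4_good_dDD b c (by omega)) (M4_no _ (by omega)) (M4_no_dD b c (by omega))
    (M4_no_dDD b c (by omega))

end MPbd3808.BR
end

section

/-!
# TASK E2: Ext from `O_E`
-/

open CategoryTheory CategoryTheory.Limits

namespace MPbd3808.BR

universe u
variable (k : Type u) [Field k]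

private theorem ses_aux (b' b : Deg) (h : b' + dε = b) :
    ∃ (g : (twW k dε).obj (OM k b') ⟶ OEM k b) (w : (epsW k).app (OM k b') ≫ g = 0),
    (ShortComplex.mk ((epsW k).app (OM k b')) g w).ShortExact ∧
      Nonempty ((twW k dε).obj (OM k b') ≅ OM k b) := by
  subst h
  let g : (twW k dε).obj (OM k b') ⟶ OEM k (b' + dε) :=
    (isQC k).homMk ((twIso [(fP k, dF)] b' dε).hom ≫ projE k (b' + dε))
  have hpw : PwSES ((epsW k).app (OM k b')).hom g.hom := pwSES_eps b'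
  have w : (epsW k).app (OM k b') ≫ g = 0 := (isQC k).ι.map_injective hpw.comp_eq_zero
  refine ⟨g, w, (shortExact_iff_pw (isQC k) _).2 hpw, ⟨(isQC k).isoMk (twIso [(fP k, dF)] b' dε)⟩⟩

/-- The short exact sequence `0 → O_W(b - dε) → T O_W(b - dε) → O_E(b) → 0` in `QCohW k`, `T O_W(b - dε) ≅ O_W(b)`.

PROOF. `pwSES_eps (b - dε)`, `shortExact_iff_pw`, `b - dε + dε = b` (generalize `b - dε` by `b'` with `b = b' + dε`). -/
theorem exists_ses_eps (b : Deg) : ∃ (g : (twW k dε).obj (OM k (b - dε)) ⟶ OEM k b)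
    (w : (epsW k).app (OM k (b - dε)) ≫ g = 0),
    (ShortComplex.mk ((epsW k).app (OM k (b - dε))) g w).ShortExact ∧
      Nonempty ((twW k dε).obj (OM k (b - dε)) ≅ OM k b) :=
  ses_aux k (b - dε) b (sub_add_cancel b dε)

private lemma dε_zero : dε 0 = -1 := rfl

/-- `Ext(O_E(b), O_W(c)) = 0` if `(c - b)_s = 0`.

PROOF. `extOrth_of_eps` with `T = twW k dε`, `ε = epsW k`, `X = O_W(b - dε)`, `E = O_E(b)`, `Y = O_W(c)`,
`E' = O_E(c + dε)` (`exists_ses_eps b`, and `exists_ses_eps (c + dε)` where `c + dε - dε = c`); `h`: `T X ≅ O_W(b)` and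
`(c + dε - b)_s = -1` (`extOrth_OM_OEM_neg`, `extOrth_of_iso`). -/
theorem extOrth_OEM_OM (b c : Deg) (h0 : (c - b) 0 = 0) : ExtOrth.{u+1} (OEM k b) (OM k c) := by
  obtain ⟨g, w, hS, ⟨e⟩⟩ := exists_ses_eps k b
  obtain ⟨g', w', hS', -⟩ := ses_aux k c (c + dε) rfl
  refine extOrth_of_eps (twW k dε) (epsW k) epsW_tw g w hS g' w' hS' ?_
  refine extOrth_of_iso e.symm (Iso.refl _) (extOrth_OM_OEM_neg k b (c + dε) ?_)
  rw [add_sub_right_comm, Pi.add_apply, h0, dε_zero, zero_add]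

/-- `Ext(O_E(b), O_E(c)) = Ext(O_W(b), O_E(c))` if `(c - b)_s = 0`: acyclicity.

PROOF. `extAc_contra` for `exists_ses_eps b`; `Ext(O_W(b - dε), O_E(c)) = 0` because `(c - (b - dε))_s = -1`. -/
theorem extAc_OEM_OEM (b c : Deg) (h0 : (c - b) 0 = 0) (h : ExtAc.{u+1} (OM k b) (OEM k c)) :
    ExtAc.{u+1} (OEM k b) (OEM k c) := by
  obtain ⟨g, w, hS, ⟨e⟩⟩ := exists_ses_eps k b
  refine extAc_contra hS (extOrth_OM_OEM_neg k (b - dε) c ?_) (extAc_of_iso_left e.symm h)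
  rw [sub_sub_eq_add_sub, add_sub_right_comm, Pi.add_apply, h0, dε_zero, zero_add]

/-- PROOF. The same with `precomp_bijective_of_extOrth`. -/
theorem extOrth_OEM_OEM (b c : Deg) (h0 : (c - b) 0 = 0) (h : ExtOrth.{u+1} (OM k b) (OEM k c)) :
    ExtOrth.{u+1} (OEM k b) (OEM k c) := by
  obtain ⟨g, w, hS, ⟨e⟩⟩ := exists_ses_eps k b
  have h1 : ExtOrth.{u+1} (OM k (b - dε)) (OEM k c) := by
    refine extOrth_OM_OEM_neg k (b - dε) c ?_
    rw [sub_sub_eq_add_sub, add_sub_right_comm, Pi.add_apply, h0, dε_zero, zero_add]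
  have h2 : ExtOrth.{u+1} ((twW k dε).obj (OM k (b - dε))) (OEM k c) :=
    extOrth_of_iso e.symm (Iso.refl _) h
  intro n x
  refine (precomp_bijective_of_extOrth hS h1 n).1 ?_
  exact (h2 n _).trans (h2 n _).symm

end MPbd3808.BR
end

section

/-!
# TASK K1: all higher Ext groups between the 24 sheaves vanish; half orthogonality
-/

open CategoryTheory CategoryTheory.Limits CategoryTheory.Abelian

namespace MPbd3808.BR

universe u
variable (k : Type u) [Field k]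

/-- Numerical facts on `bQ`. PROOF. `decide` (or `fin_cases`), on `Fin 24`. -/
theorem bQ_O (i : Fin 24) (hi : i.1 < 16) : bQ i 0 = 0 ∧ 0 ≤ bQ i 1 ∧ bQ i 1 ≤ 1 ∧ 0 ≤ bQ i 2 ∧
    bQ i 2 ≤ 1 ∧ 0 ≤ bQ i 3 ∧ bQ i 3 ≤ 3 := by
  revert i
  decide +kernel

theorem bQ_E (i : Fin 24) (hi : 16 ≤ i.1) : bQ i 0 = 0 ∧ 1 ≤ bQ i 1 ∧ bQ i 1 ≤ 3 ∧ 1 ≤ bQ i 2 ∧
    bQ i 2 ≤ 2 ∧ 2 ≤ bQ i 3 ∧ bQ i 3 ≤ 3 := by
  revert i
  decide +kernel

/-- Order of the first 16. PROOF. `decide`. -/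
theorem bQ_O_lt (i j : Fin 24) (hj : j.1 < 16) (hij : i < j) :
    (bQ i - bQ j) 3 < 0 ∨ (bQ i - bQ j) 2 < 0 ∨ ((bQ i - bQ j) 2 = 0 ∧ (bQ i - bQ j) 1 < 0) := by
  revert i j
  decide +kernel

/-- Order of the last 8. PROOF. `decide`. -/
theorem bQ_E_lt (i j : Fin 24) (hi : 16 ≤ i.1) (hij : i < j) :
    (bQ i - bQ j) 3 = -1 ∨ ((bQ i - bQ j) 3 = 0 ∧ -1 ≤ (bQ i - bQ j) 2 ∧
      (0 ≤ (bQ i - bQ j) 2 → -1 ≤ (bQ i - bQ j) 1) ∧
      ((bQ i - bQ j) 2 < 0 ∨ ((bQ i - bQ j) 2 = 0 ∧ (bQ i - bQ j) 1 < 0))) := by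
  revert i j
  decide +kernel

/-- Differences among the last 8: the conditions of `extAc_OM_OEM_range`, or the last coordinate is `-1`. PROOF. `decide`. -/
theorem bQ_E_range (i j : Fin 24) (hi : 16 ≤ i.1) (hj : 16 ≤ j.1) :
    (bQ j - bQ i) 3 = -1 ∨ (0 ≤ (bQ j - bQ i) 3 ∧ (bQ j - bQ i) 3 ≤ 1 ∧ -1 ≤ (bQ j - bQ i) 2 ∧
      -1 ≤ (bQ j - bQ i) 1 ∧ (1 ≤ (bQ j - bQ i) 3 → 0 ≤ (bQ j - bQ i) 1)) := by
  revert i j
  decide +kernel

private theorem K1_QW_O (i : Fin 24) (hi : i.1 < 16) : (inCM k).obj (QW k i) = OM k (bQ i) := by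
  have h : ∀ (G : List (A k × Deg)) (e : GQ k i = G) (h1 : isQC k (QQ (GQ k i) (bQ i)))
      (h2 : isQC k (QQ G (bQ i))), (⟨QQ (GQ k i) (bQ i), h1⟩ : QCohW k) = ⟨QQ G (bQ i), h2⟩ := by
    intro G e h1 h2
    subst e
    rfl
  exact h _ (if_pos hi) _ _

private theorem K1_QW_E (i : Fin 24) (hi : 16 ≤ i.1) : (inCM k).obj (QW k i) = OEM k (bQ i) := by
  have h : ∀ (G : List (A k × Deg)) (e : GQ k i = G) (h1 : isQC k (QQ (GQ k i) (bQ i)))
      (h2 : isQC k (QQ G (bQ i))), (⟨QQ (GQ k i) (bQ i), h1⟩ : QCohW k) = ⟨QQ G (bQ i), h2⟩ := by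
    intro G e h1 h2
    subst e
    rfl
  exact h _ (if_neg (by omega)) _ _

/-- All 24 objects: no higher Ext.

PROOF. Reduce to `QCohW k` by `extAc_coh`. Cases: `i, j < 16`: `extAc_OM_OM_range`. `i < 16 ≤ j`: `extAc_OM_OEM_range`
(`bQ_O`, `bQ_E`: `D 1, D 2 ≥ 0`, `D 3 ≥ -1`). `j < 16 ≤ i`: `extOrth_OEM_OM`. `i, j ≥ 16`: `extAc_OEM_OEM` and
`extAc_OM_OEM_range` or `extOrth_OM_OEM_h` (`bQ_E_range`). (`GQ k i` unfolds by `if_pos`, `if_neg`: generalize, or first prove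
`QW k i = OC k (bQ i)` resp. `OEC k (bQ i)`.) -/
theorem extAc_QW (i j : Fin 24) : ExtAc.{u+1} (QW k i) (QW k j) := by
  apply extAc_coh
  by_cases hi : i.1 < 16
  · obtain ⟨a0, a1, a2, a3, a4, a5, a6⟩ := bQ_O i hi
    by_cases hj : j.1 < 16
    · obtain ⟨b0, b1, b2, b3, b4, b5, b6⟩ := bQ_O j hj
      rw [K1_QW_O k i hi, K1_QW_O k j hj]
      refine extAc_OM_OM_range k (bQ i) (bQ j) ?_ ?_ ?_ ?_ <;> simp only [Pi.sub_apply] <;> omega
    · obtain ⟨b0, b1, b2, b3, b4, b5, b6⟩ := bQ_E j (by omega)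
      rw [K1_QW_O k i hi, K1_QW_E k j (by omega)]
      refine extAc_OM_OEM_range k (bQ i) (bQ j) ?_ ?_ ?_ ?_ ?_ ?_ <;> simp only [Pi.sub_apply] <;> omega
  · obtain ⟨a0, a1, a2, a3, a4, a5, a6⟩ := bQ_E i (by omega)
    by_cases hj : j.1 < 16
    · obtain ⟨b0, b1, b2, b3, b4, b5, b6⟩ := bQ_O j hj
      rw [K1_QW_E k i (by omega), K1_QW_O k j hj]
      refine (extOrth_OEM_OM k (bQ i) (bQ j) ?_).ac
      simp only [Pi.sub_apply]
      omega
    · obtain ⟨b0, b1, b2, b3, b4, b5, b6⟩ := bQ_E j (by omega)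
      rw [K1_QW_E k i (by omega), K1_QW_E k j (by omega)]
      have h0 : (bQ j - bQ i) 0 = 0 := by
        simp only [Pi.sub_apply]
        omega
      refine extAc_OEM_OEM k (bQ i) (bQ j) h0 ?_
      rcases bQ_E_range i j (by omega) (by omega) with h | ⟨h1, h2, h3, h4, h5⟩
      · exact (extOrth_OM_OEM_h k (bQ i) (bQ j) h0 h).ac
      · exact extAc_OM_OEM_range k (bQ i) (bQ j) h0 (by omega) h3 h4 h5 (by omega)

/-- PROOF. `extOrth_OM_OM_range` (`bQ_O_lt`), `extOrth_OEM_OM` (`j ≥ 16`, `i < 16`), `extOrth_OEM_OEM` with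
`extOrth_OM_OEM_h` or `extOrth_OM_OEM_zero` (`bQ_E_lt`); `extOrth_coh`. -/
theorem extOrth_QW (i j : Fin 24) (hij : i < j) : ExtOrth.{u+1} (QW k j) (QW k i) := by
  apply extOrth_coh
  by_cases hi : i.1 < 16
  · obtain ⟨a0, a1, a2, a3, a4, a5, a6⟩ := bQ_O i hi
    by_cases hj : j.1 < 16
    · obtain ⟨b0, b1, b2, b3, b4, b5, b6⟩ := bQ_O j hj
      rw [K1_QW_O k i hi, K1_QW_O k j hj]
      refine extOrth_OM_OM_range k (bQ j) (bQ i) ?_ ?_ ?_ ?_ (bQ_O_lt i j hj hij) <;>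
        simp only [Pi.sub_apply] <;> omega
    · obtain ⟨b0, b1, b2, b3, b4, b5, b6⟩ := bQ_E j (by omega)
      rw [K1_QW_O k i hi, K1_QW_E k j (by omega)]
      refine extOrth_OEM_OM k (bQ j) (bQ i) ?_
      simp only [Pi.sub_apply]
      omega
  · obtain ⟨a0, a1, a2, a3, a4, a5, a6⟩ := bQ_E i (by omega)
    have hij' : i.1 < j.1 := hij
    obtain ⟨b0, b1, b2, b3, b4, b5, b6⟩ := bQ_E j (by omega)
    rw [K1_QW_E k i (by omega), K1_QW_E k j (by omega)]
    have h0 : (bQ i - bQ j) 0 = 0 := by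
      simp only [Pi.sub_apply]
      omega
    refine extOrth_OEM_OEM k (bQ j) (bQ i) h0 ?_
    rcases bQ_E_lt i j (by omega) hij with h | ⟨h1, h2, h3, h4⟩
    · exact extOrth_OM_OEM_h k (bQ j) (bQ i) h0 h
    · exact extOrth_OM_OEM_zero k (bQ j) (bQ i) h0 h1 h2 h3 h4

end MPbd3808.BR
end
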