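import Pool.Agent.Lib.MP_bd3808_ag.Mg.G007
import Pool.Agent.Lib.MP_bd3808_ag.Mg.G004
import Pool.Agent.Lib.MP_bd3808_ag.Mg.G015
import Pool.Agent.Lib.MP_bd3808_ag.Mg.G018
import Pool.Agent.Lib.MP_bd3808_ag.Mg.G001
import Pool.Agent.Lib.MP_bd3808_ag.Mg.G014
import Pool.Agent.Lib.MP_bd3808_ag.Mg.G012

section

/-!
# MP_bd3808_ag, campaign BR, block D: the hypotheses of the abstract theorem, inside the abelian category

`F` is the automorphism of `A` given by an element of infinite order of the torus.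
-/

set_option autoImplicit false

noncomputable section

open CategoryTheory CategoryTheory.Limits CategoryTheory.Pretriangulated CategoryTheory.Abelian

namespace MPbd3808.BR

universe w' v' v u

variable {A : Type u} [Category.{v} A] [Abelian A] [HasExt.{w'} A] (k : Type v') [Field k]
  [Linear k A] (F : A ⥤ A) [F.Additive] [F.Linear k] [F.IsEquivalence]

/-- The hypotheses of the abstract theorem inside the abelian category `A`. -/
structure AbSetup (Q : Fin 24 → A) {ι : Type} (O : ι → A) where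
  gen : AbGen k Q O
  J : ∀ i j : Fin 6, BO.RX k (BO.bdeg j - BO.bdeg i) ≃ₗ[k] (Q (BO.ix i) ⟶ Q (BO.ix j))
  one : ∀ i (x : BO.RX k (BO.bdeg i - BO.bdeg i)), (x : BO.PP k) = 1 → J i i x = 𝟙 _
  mul : ∀ i j l (x : BO.RX k (BO.bdeg j - BO.bdeg i)) (y : BO.RX k (BO.bdeg l - BO.bdeg j))
    (z : BO.RX k (BO.bdeg l - BO.bdeg i)), (z : BO.PP k) = x * y → J i l z = J i j x ≫ J j l y
  ψ : ∀ i, Q i ≅ F.obj (Q i)
  t : kˣ
  ht : ∀ n : ℤ, t ^ n = 1 → n = 0
  equiv : ∀ (i j : Fin 6) (x y : BO.RX k (BO.bdeg j - BO.bdeg i)), (y : BO.PP k) = BO.sig k t x →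
    J i j y ≫ (ψ (BO.ix j)).hom = (ψ (BO.ix i)).hom ≫ F.map (J i j x)
  sq : ∀ i j, (2 : ℤ) • (BO.kcls (actA F k (ψ i) (ψ j))).2 = 0
  num12_13 : Module.finrank k (Q 12 ⟶ Q 13) = 2
  num12 : ∀ j : Fin 6, (Module.finrank k (Q 12 ⟶ Q (BO.ix j)) : ℤ) = ![0, 0, 7, 9, 12, 15] j
  num13 : ∀ j : Fin 6, (Module.finrank k (Q 13 ⟶ Q (BO.ix j)) : ℤ) = ![0, 0, 5, 7, 9, 12] j

end MPbd3808.BR
end
end

section

/-!
# MP_bd3808_ag, campaign BR: the hypotheses `AbSetup` of the abstract theorem for the 24 sheaves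
-/

set_option autoImplicit false

noncomputable section

open CategoryTheory CategoryTheory.Limits

namespace MPbd3808.BR.SX

universe u

/-! ## Numerical facts -/

theorem ix_deg : ∀ i j : Fin 6,
    bQ (BO.ix j) - bQ (BO.ix i) = deg0 (BO.bdeg j - BO.bdeg i) := by decide

theorem ix_range : ∀ i j : Fin 6, (BO.bdeg j - BO.bdeg i).2.2 < 0 ∨
    (BO.bdeg j - BO.bdeg i).2.2 = 0 ∨ ((BO.bdeg j - BO.bdeg i).2.2 = 1 ∧
      ((BO.bdeg j - BO.bdeg i).2.1 = -1 ∨ (BO.bdeg j - BO.bdeg i).2.1 = 0)) := by decide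

variable (k : Type u) [Field k]

theorem GQ_ix (j : Fin 6) : GE k = GQ k (BO.ix j) := by
  unfold GQ
  rw [if_neg (by change ¬ (18 + j.1 < 16); omega)]
  rfl

theorem GQ_12 : GQ k 12 = GW k := by
  unfold GQ
  rw [if_pos (by decide)]
  rfl

theorem GQ_13 : GQ k 13 = GW k := by
  unfold GQ
  rw [if_pos (by decide)]
  rfl

variable {k}

theorem GQ_Phi (i : Fin 24) (σ : Finset Vr) (c : Deg) (p : A k) (hp : p ∈ idl (GQ k i) σ c) :
    Phi k p = 0 := by
  unfold GQ at hp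
  split_ifs at hp
  · exact Phi_idlW k σ c p hp
  · exact Phi_idl k σ c p hp

/-! ## Homomorphisms into `O_E` -/

/-- The element of the function field given by a homomorphism. -/
def toKG {G G' : List (A k × Deg)} {b b' : Deg} (h : GE k = G') (f : QQ G b ⟶ QQ G' b') : KK k := by
  subst h
  exact toK f

/-- `Hom(QQ G b, O_E(b')) = Γ(O_E(b' - b))`. -/
def homEG {G G' : List (A k × Deg)} (h : GE k = G')
    (hG : ∀ σ c p, p ∈ idl G σ c → Phi k p = 0) (b b' : Deg) :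
    (QQ G b ⟶ QQ G' b') ≃ₗ[k] SE k (b' - b) := by
  subst h
  exact homE hG b b'

theorem homEG_coe {G G' : List (A k × Deg)} {b b' : Deg} (h : GE k = G')
    (hG : ∀ σ c p, p ∈ idl G σ c → Phi k p = 0) (f : QQ G b ⟶ QQ G' b') :
    (homEG h hG b b' f : KK k) = toKG h f := by
  subst h
  rfl

theorem toKG_injective {G G' : List (A k × Deg)} {b b' : Deg} (h : GE k = G')
    (f g : QQ G b ⟶ QQ G' b') (hf : toKG h f = toKG h g) : f = g := by
  subst h
  exact toK_injective hf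

theorem toKG_comp {G G' G'' : List (A k × Deg)} {b b' b'' : Deg} (h : GE k = G') (h' : GE k = G'')
    (f : QQ G b ⟶ QQ G' b') (g : QQ G' b' ⟶ QQ G'' b'') :
    toKG h' (f ≫ g) = toKG h f * toKG h' g := by
  subst h h'
  exact toK_comp f g

theorem toKG_id {G : List (A k × Deg)} {b : Deg} (h : GE k = G) : toKG h (𝟙 (QQ G b)) = 1 := by
  subst h
  exact toK_id

theorem evE_sclQ (t : kˣ) (σ : Finset Vr) (c : Deg) (x : Qm k (GE k) σ c) :
    evE k σ c (sclQ t homG_GE σ c x) = SK t (evE k σ c x) := by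
  obtain ⟨p, rfl⟩ := Submodule.Quotient.mk_surjective _ x
  rw [sclQ_mk, evE_mk, evE_mk, SK_Phi]
  rfl

/-- The equivariance: `g ≫ ψ = ψ ≫ f` if `SK s` maps the element of `g` to the element of `f`. -/
theorem toK_equiv (s : kˣ) {b b' : Deg} (f g : QQ (GE k) b ⟶ QQ (GE k) b')
    (h : SK s (toK g) = toK f) :
    g ≫ (psiQ s homG_GE b').hom = (psiQ s homG_GE b).hom ≫ (tw s).map f := by
  ext Y x
  obtain ⟨p, rfl⟩ := Submodule.Quotient.mk_surjective _ x
  apply evE_injective k Y.full (Y.a + b')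
  have h1 : evE k Y.σ (Y.a + b') (sclQ s homG_GE Y.σ (Y.a + b')
      ((g.app Y).hom (Submodule.Quotient.mk p))) = Phi k (scl s (p : A k)) * toK f := by
    rw [evE_sclQ]
    have h2 := appE_mk g Y p
    have h3 : evE k Y.σ (Y.a + b') ((g.app Y).hom (Submodule.Quotient.mk p)) =
        Phi k p * toK g := h2
    rw [h3, map_mul, SK_Phi, h]
  have h4 : evE k Y.σ (Y.a + b') ((f.app Y).hom (Submodule.Quotient.mk (sclGr s Y.σ (Y.a + b) p))) =
      Phi k (scl s (p : A k)) * toK f := appE_mk f Y (sclGr s Y.σ (Y.a + b) p)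
  exact h1.trans h4.symm

theorem toKG_equiv (s : kˣ) {G G' : List (A k × Deg)} {b b' : Deg} (h : GE k = G) (h' : GE k = G')
    (hG : HomG G) (hG' : HomG G') (f g : QQ G b ⟶ QQ G' b')
    (hfg : SK s (toKG h' g) = toKG h' f) :
    g ≫ (psiQ s hG' b').hom = (psiQ s hG b).hom ≫ (tw s).map f := by
  subst h h'
  exact toK_equiv s f g hfg

/-! ## The full subcategory of coherent sheaves -/

/-- Homs in the full subcategory of coherent sheaves. -/
def homQ (X Y : CohW k) : (X ⟶ Y) ≃ₗ[k] (X.obj ⟶ Y.obj) where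
  toFun f := f.hom
  invFun g := (isCoh k).homMk g
  map_add' _ _ := rfl
  map_smul' _ _ := rfl
  left_inv _ := rfl
  right_inv _ := rfl

/-- The isomorphisms `R'_D ≃ Hom(Q_i, Q_j)`. -/
def JJ (i j : Fin 6) : BO.RX k (BO.bdeg j - BO.bdeg i) ≃ₗ[k] (QW k (BO.ix i) ⟶ QW k (BO.ix j)) :=
  (rxE k _ (ix_range i j)).trans
    ((LinearEquiv.ofEq _ _ (by rw [ix_deg i j])).trans
      ((homEG (GQ_ix k j) (GQ_Phi (BO.ix i)) (bQ (BO.ix i)) (bQ (BO.ix j))).symm.trans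
        (homQ (QW k (BO.ix i)) (QW k (BO.ix j))).symm))

theorem JJ_toKG (i j : Fin 6) (x : BO.RX k (BO.bdeg j - BO.bdeg i)) :
    toKG (GQ_ix k j) (JJ i j x).hom = iP k x := by
  have h1 : (JJ i j x).hom = (homEG (GQ_ix k j) (GQ_Phi (BO.ix i)) (bQ (BO.ix i))
      (bQ (BO.ix j))).symm (LinearEquiv.ofEq _ _ (by rw [ix_deg i j])
        (rxE k _ (ix_range i j) x)) := rfl
  rw [h1, ← homEG_coe (GQ_ix k j) (GQ_Phi (BO.ix i)), LinearEquiv.apply_symm_apply]
  rfl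

theorem JJ_one (i : Fin 6) (x : BO.RX k (BO.bdeg i - BO.bdeg i)) (hx : (x : BO.PP k) = 1) :
    JJ i i x = 𝟙 (QW k (BO.ix i)) := by
  apply (isCoh k).ι.map_injective
  apply toKG_injective (GQ_ix k i)
  refine (JJ_toKG i i x).trans ?_
  rw [hx, map_one]
  exact (toKG_id (GQ_ix k i)).symm

theorem JJ_mul (i j l : Fin 6) (x : BO.RX k (BO.bdeg j - BO.bdeg i))
    (y : BO.RX k (BO.bdeg l - BO.bdeg j)) (z : BO.RX k (BO.bdeg l - BO.bdeg i))
    (h : (z : BO.PP k) = x * y) : JJ i l z = JJ i j x ≫ JJ j l y := by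
  apply (isCoh k).ι.map_injective
  apply toKG_injective (GQ_ix k l)
  refine (JJ_toKG i l z).trans ?_
  refine Eq.trans ?_ (toKG_comp (GQ_ix k j) (GQ_ix k l) (JJ i j x).hom (JJ j l y).hom).symm
  rw [JJ_toKG, JJ_toKG, h, map_mul]

/-- The structures of the 24 sheaves. -/
def psiW (s : kˣ) (i : Fin 24) : QW k i ≅ (twC s).obj (QW k i) :=
  (isCoh k).fullyFaithfulι.preimageIso (psiQ s (homG_GQ i) (bQ i))

theorem JJ_equiv (t : kˣ) (i j : Fin 6) (x y : BO.RX k (BO.bdeg j - BO.bdeg i))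
    (h : (y : BO.PP k) = BO.sig k t x) :
    JJ i j y ≫ (psiW t⁻¹ (BO.ix j)).hom =
      (psiW t⁻¹ (BO.ix i)).hom ≫ (twC t⁻¹).map (JJ i j x) := by
  apply (isCoh k).ι.map_injective
  refine toKG_equiv t⁻¹ (GQ_ix k i) (GQ_ix k j) (homG_GQ _) (homG_GQ _) (JJ i j x).hom
    (JJ i j y).hom ?_
  rw [JJ_toKG, JJ_toKG, h, ← SK_iP, SK_SK t t⁻¹ (by simp)]

theorem sq_act (s : kˣ) (i j : Fin 24) [Module.Finite k (QW k i ⟶ QW k j)] :
    (2 : ℤ) • (BO.kcls (actA (twC s) k (psiW s i) (psiW s j))).2 = 0 := by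
  refine two_kcls _ ((homQ (QW k i) (QW k j)).symm.toLinearMap ∘ₗ
    (piHom (piG_GQ i) (piG_GQ j) (bQ i) (bQ j)) ∘ₗ (homQ (QW k i) (QW k j)).toLinearMap) ?_ ?_
  · intro x y hxy
    have h1 : piHom (piG_GQ i) (piG_GQ j) (bQ i) (bQ j) x.hom =
        piHom (piG_GQ i) (piG_GQ j) (bQ i) (bQ j) y.hom := congrArg (fun f => f.hom) hxy
    apply (isCoh k).ι.map_injective
    exact piHom_injective _ _ _ _ h1
  · intro x
    apply (isCoh k).ι.map_injective
    exact actQ_piHom_actQ s (homG_GQ i) (homG_GQ j) (piG_GQ i) (piG_GQ j) (bQ i) (bQ j) x.hom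

/-! ## Dimensions -/

theorem finrank_12_13 : Module.finrank k (QW k 12 ⟶ QW k 13) = 2 := by
  rw [(homQ (QW k 12) (QW k 13)).finrank_eq]
  change Module.finrank k (QQ (GQ k 12) (bQ 12) ⟶ QQ (GQ k 13) (bQ 13)) = 2
  rw [GQ_12, GQ_13, finrank_homW k _ _ (by decide),
    show bQ 13 - bQ 12 = ![0,1,0,0] by decide, finrank_gr]

theorem finrank_E (i : Fin 24) (j : Fin 6) (D : BO.Dg) (hD : D.2.2 < 0 ∨ D.2.2 = 0 ∨
    (D.2.2 = 1 ∧ (D.2.1 = -1 ∨ D.2.1 = 0))) (h : bQ (BO.ix j) - bQ i = deg0 D) :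
    Module.finrank k (QW k i ⟶ QW k (BO.ix j)) = Module.finrank k (BO.RX k D) := by
  rw [(homQ (QW k i) (QW k (BO.ix j))).finrank_eq]
  change Module.finrank k (QQ (GQ k i) (bQ i) ⟶ QQ (GQ k (BO.ix j)) (bQ (BO.ix j))) = _
  rw [(homEG (GQ_ix k j) (GQ_Phi i) (bQ i) (bQ (BO.ix j))).finrank_eq, h,
    ← (rxE k D hD).finrank_eq]

theorem finrank_12 (j : Fin 6) : (Module.finrank k (QW k 12 ⟶ QW k (BO.ix j)) : ℤ) =
    ![0, 0, 7, 9, 12, 15] j := by
  fin_cases j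
  · change ((Module.finrank k (QW k 12 ⟶ QW k (BO.ix 0)) : ℕ) : ℤ) = 0
    rw [finrank_E 12 0 (1,2,-1) (by decide) (by decide), RX_neg k _ (by decide)]
    simp
  · change ((Module.finrank k (QW k 12 ⟶ QW k (BO.ix 1)) : ℕ) : ℤ) = 0
    rw [finrank_E 12 1 (2,2,-1) (by decide) (by decide), RX_neg k _ (by decide)]
    simp
  · change ((Module.finrank k (QW k 12 ⟶ QW k (BO.ix 2)) : ℕ) : ℤ) = 7
    rw [finrank_E 12 2 (((2 : ℕ) : ℤ), ((1 : ℕ) : ℤ), 0) (by decide) (by decide), finrank_RX]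
    simp [Finset.sum_range_succ]
  · change ((Module.finrank k (QW k 12 ⟶ QW k (BO.ix 3)) : ℕ) : ℤ) = 9
    rw [finrank_E 12 3 (((3 : ℕ) : ℤ), ((1 : ℕ) : ℤ), 0) (by decide) (by decide), finrank_RX]
    simp [Finset.sum_range_succ]
  · change ((Module.finrank k (QW k 12 ⟶ QW k (BO.ix 4)) : ℕ) : ℤ) = 12
    rw [finrank_E 12 4 (((2 : ℕ) : ℤ), ((2 : ℕ) : ℤ), 0) (by decide) (by decide), finrank_RX]
    simp [Finset.sum_range_succ]
  · change ((Module.finrank k (QW k 12 ⟶ QW k (BO.ix 5)) : ℕ) : ℤ) = 15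
    rw [finrank_E 12 5 (((3 : ℕ) : ℤ), ((2 : ℕ) : ℤ), 0) (by decide) (by decide), finrank_RX]
    simp [Finset.sum_range_succ]

theorem finrank_13 (j : Fin 6) : (Module.finrank k (QW k 13 ⟶ QW k (BO.ix j)) : ℤ) =
    ![0, 0, 5, 7, 9, 12] j := by
  fin_cases j
  · change ((Module.finrank k (QW k 13 ⟶ QW k (BO.ix 0)) : ℕ) : ℤ) = 0
    rw [finrank_E 13 0 (0,2,-1) (by decide) (by decide), RX_neg k _ (by decide)]
    simp
  · change ((Module.finrank k (QW k 13 ⟶ QW k (BO.ix 1)) : ℕ) : ℤ) = 0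
    rw [finrank_E 13 1 (1,2,-1) (by decide) (by decide), RX_neg k _ (by decide)]
    simp
  · change ((Module.finrank k (QW k 13 ⟶ QW k (BO.ix 2)) : ℕ) : ℤ) = 5
    rw [finrank_E 13 2 (((1 : ℕ) : ℤ), ((1 : ℕ) : ℤ), 0) (by decide) (by decide), finrank_RX]
    simp [Finset.sum_range_succ]
  · change ((Module.finrank k (QW k 13 ⟶ QW k (BO.ix 3)) : ℕ) : ℤ) = 7
    rw [finrank_E 13 3 (((2 : ℕ) : ℤ), ((1 : ℕ) : ℤ), 0) (by decide) (by decide), finrank_RX]
    simp [Finset.sum_range_succ]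
  · change ((Module.finrank k (QW k 13 ⟶ QW k (BO.ix 4)) : ℕ) : ℤ) = 9
    rw [finrank_E 13 4 (((1 : ℕ) : ℤ), ((2 : ℕ) : ℤ), 0) (by decide) (by decide), finrank_RX]
    simp [Finset.sum_range_succ]
  · change ((Module.finrank k (QW k 13 ⟶ QW k (BO.ix 5)) : ℕ) : ℤ) = 12
    rw [finrank_E 13 5 (((2 : ℕ) : ℤ), ((2 : ℕ) : ℤ), 0) (by decide) (by decide), finrank_RX]
    simp [Finset.sum_range_succ]

/-- The hypotheses of the abstract theorem for the 24 sheaves, from the generation and vanishing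
statement `AbGen` and an element `t` of infinite order. -/
def abSetup {ι : Type} (O : ι → CohW k) (gen : AbGen k (QW k) O) (t : kˣ)
    (ht : ∀ n : ℤ, t ^ n = 1 → n = 0) : AbSetup k (twC t⁻¹) (QW k) O where
  gen := gen
  J := JJ
  one := JJ_one
  mul := JJ_mul
  ψ := psiW t⁻¹
  t := t
  ht := ht
  equiv := JJ_equiv t
  sq i j := by
    have := gen.fin i j
    exact sq_act t⁻¹ i j
  num12_13 := finrank_12_13
  num12 := finrank_12
  num13 := finrank_13

end MPbd3808.BR.SX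
end
end
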