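import Pool.Agent.Lib.MP_bd3808_ag.Mg.G021
import Pool.Agent.Lib.MP_bd3808_ag.Mg.G020
import Pool.Agent.Lib.MP_bd3808_ag.Mg.G018
import Pool.Agent.Lib.MP_bd3808_ag.Mg.G019
import Pool.Agent.Lib.MP_bd3808_ag.Mg.G007

section

/-!
# TASK R5: the exact sequences on the exceptional divisor, 3
-/

open CategoryTheory CategoryTheory.Limits

namespace MPbd3808.BR

universe u
variable (k : Type u) [Field k]

/-- `y ↦ y . z`, `O_E(b)^4 ⟶ O_E(b + h)` -/
noncomputable def zrow (b : Deg) : powF 4 (OEf k b) ⟶ OEf k (b + eh) :=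
  rowF fun j => mulBy (GE k) (zz k j) eh (zz_mem k j) b (b + eh) rfl

/-- `r^T : O_E(b - H)^2 ⟶ O_E(b)^4` -/
noncomputable def rcol (b : Deg) : powF 2 (OEf k (b - eH)) ⟶ powF 4 (OEf k b) :=
  matF fun j a => mulBy (GE k) (rr k a j) eH (rr_mem k a j) (b - eH) b (by abel)

/-- the cross product `O_E(b)^4 ⟶ O_E(b + 2H)^4` -/
noncomputable def nmat (b : Deg) : powF 4 (OEf k b) ⟶ powF 4 (OEf k (b + eH + eH)) :=
  matF fun i l => mulBy (GE k) (nc k i l) (eH + eH) (nc_mem k i l) b (b + eH + eH) (by abel)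

/-- `w ↦ w z`, `O_E(b + 2H - h) ⟶ O_E(b + 2H)^4` -/
noncomputable def zcol (b : Deg) : OEf k (b + eH + eH - eh) ⟶ powF 4 (OEf k (b + eH + eH)) where
  app U := ModuleCat.ofHom (LinearMap.pi fun i =>
    ((mulBy (GE k) (zz k i) eh (zz_mem k i) (b + eH + eH - eh) (b + eH + eH) (by abel)).app U).hom)
  naturality U V m := ModuleCat.hom_ext (LinearMap.ext fun x => funext fun i =>
    LinearMap.congr_fun (congrArg ModuleCat.Hom.hom
      ((mulBy (GE k) (zz k i) eh (zz_mem k i) (b + eH + eH - eh) (b + eH + eH) (by abel)).naturality m)) x)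

/-! auxiliary: classes of polynomials in the sections of `O_E(b)` -/

/-- the section given by a polynomial -/
private noncomputable def R5_cl (b : Deg) (U : Ob) (q : A k) (hq : q ∈ gr k U.σ (U.a + b)) :
    (OEf k b).obj U :=
  (Submodule.Quotient.mk ⟨q, hq⟩ : Qm k (GE k) U.σ (U.a + b))

private theorem R5_cl_surj (b : Deg) (U : Ob) (x : (OEf k b).obj U) :
    ∃ (q : A k) (hq : q ∈ gr k U.σ (U.a + b)), x = R5_cl k b U q hq := by
  obtain ⟨q, hq⟩ := Submodule.Quotient.mk_surjective _ (x : Qm k (GE k) U.σ (U.a + b))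
  exact ⟨q.1, q.2, hq.symm⟩

private theorem R5_cl_eq (b : Deg) (U : Ob) {q q' : A k} (hq : q ∈ gr k U.σ (U.a + b))
    (hq' : q' ∈ gr k U.σ (U.a + b)) :
    R5_cl k b U q hq = R5_cl k b U q' hq' ↔ q - q' ∈ idl (GE k) U.σ (U.a + b) := by
  unfold R5_cl
  exact (Submodule.Quotient.eq _).trans Iff.rfl

private theorem R5_cl_eq_zero (b : Deg) (U : Ob) {q : A k} (hq : q ∈ gr k U.σ (U.a + b)) :
    R5_cl k b U q hq = 0 ↔ q ∈ idl (GE k) U.σ (U.a + b) := by
  unfold R5_cl
  exact (Submodule.Quotient.mk_eq_zero _).trans Iff.rfl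

private theorem R5_cl_sum (b : Deg) (U : Ob) (n : ℕ) (q : Fin n → A k)
    (hq : ∀ j, q j ∈ gr k U.σ (U.a + b)) :
    ∑ j, R5_cl k b U (q j) (hq j) = R5_cl k b U (∑ j, q j) (Submodule.sum_mem _ fun j _ => hq j) := by
  have h := map_sum (Submodule.mkQ ((idl (GE k) U.σ (U.a + b)).comap (gr k U.σ (U.a + b)).subtype))
    (fun j : Fin n => (⟨q j, hq j⟩ : gr k U.σ (U.a + b))) Finset.univ
  refine Eq.trans ?_ (h.symm.trans ?_)
  · rfl
  · unfold R5_cl
    rw [Submodule.mkQ_apply]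
    congr 1
    ext1
    simp

private theorem R5_mem {U : Ob} {p q : A k} {d b b' : Deg} (hp : p ∈ gr k ∅ d)
    (hq : q ∈ gr k U.σ (U.a + b)) (hb : b' = b + d) : p * q ∈ gr k U.σ (U.a + b') := by
  have h := mul_mem_gr (gr_mono (Finset.empty_subset U.σ) d hp) hq
  rwa [show d + (U.a + b) = U.a + b' by rw [hb]; abel] at h

private theorem R5_mulBy (U : Ob) {p q : A k} {d b b' : Deg} (hp : p ∈ gr k ∅ d)
    (hq : q ∈ gr k U.σ (U.a + b)) (hb : b' = b + d) :
    ((mulBy (GE k) p d hp b b' hb).app U).hom (R5_cl k b U q hq) =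
      R5_cl k b' U (p * q) (R5_mem k hp hq hb) := rfl

private theorem R5_zrow (b : Deg) (U : Ob) (q : Fin 4 → A k) (hq : ∀ j, q j ∈ gr k U.σ (U.a + b)) :
    ((zrow k b).app U).hom (fun j => R5_cl k b U (q j) (hq j)) =
      R5_cl k (b + eh) U (∑ j, zz k j * q j)
        (Submodule.sum_mem _ fun j _ => R5_mem k (zz_mem k j) (hq j) rfl) := by
  unfold zrow
  rw [rowF_app, ← R5_cl_sum k (b + eh) U 4 (fun j => zz k j * q j)
    (fun j => R5_mem k (zz_mem k j) (hq j) rfl)]
  rfl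

private theorem R5_rcol (b : Deg) (U : Ob) (q : Fin 2 → A k) (hq : ∀ j, q j ∈ gr k U.σ (U.a + (b - eH)))
    (j : Fin 4) :
    (show Fin 4 → (OEf k b).obj U from ((rcol k b).app U).hom (fun a => R5_cl k (b - eH) U (q a) (hq a))) j =
      R5_cl k b U (∑ a, rr k a j * q a)
        (Submodule.sum_mem _ fun a _ => R5_mem k (rr_mem k a j) (hq a) (by abel)) := by
  unfold rcol
  rw [matF_app, ← R5_cl_sum k b U 2 (fun a => rr k a j * q a)
    (fun a => R5_mem k (rr_mem k a j) (hq a) (by abel))]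
  rfl

private theorem R5_nmat (b : Deg) (U : Ob) (q : Fin 4 → A k) (hq : ∀ j, q j ∈ gr k U.σ (U.a + b))
    (i : Fin 4) :
    (show Fin 4 → (OEf k (b + eH + eH)).obj U from
      ((nmat k b).app U).hom (fun l => R5_cl k b U (q l) (hq l))) i =
      R5_cl k (b + eH + eH) U (∑ l, nc k i l * q l)
        (Submodule.sum_mem _ fun l _ => R5_mem k (nc_mem k i l) (hq l) (by abel)) := by
  unfold nmat
  rw [matF_app, ← R5_cl_sum k (b + eH + eH) U 4 (fun l => nc k i l * q l)
    (fun l => R5_mem k (nc_mem k i l) (hq l) (by abel))]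
  rfl

private theorem R5_zcol (b : Deg) (U : Ob) {q : A k} (hq : q ∈ gr k U.σ (U.a + (b + eH + eH - eh)))
    (i : Fin 4) :
    (show Fin 4 → (OEf k (b + eH + eH)).obj U from
      ((zcol k b).app U).hom (R5_cl k (b + eH + eH - eh) U q hq)) i =
      R5_cl k (b + eH + eH) U (zz k i * q) (R5_mem k (zz_mem k i) hq (by abel)) := rfl

private theorem R5_pow_surj (n : ℕ) (b : Deg) (U : Ob) (x : Fin n → (OEf k b).obj U) :
    ∃ (q : Fin n → A k) (hq : ∀ j, q j ∈ gr k U.σ (U.a + b)), x = fun j => R5_cl k b U (q j) (hq j) := by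
  choose q hq h using fun j => R5_cl_surj k b U (x j)
  exact ⟨q, hq, funext h⟩

private theorem R5_idl {σ : Finset Vr} {c c' : Deg} {q : A k} (h : q ∈ idl (GE k) σ c) (e : c = c') :
    q ∈ idl (GE k) σ c' := e ▸ h

private theorem R5_gr {σ : Finset Vr} {c c' : Deg} {q : A k} (h : q ∈ gr k σ c) (e : c = c') :
    q ∈ gr k σ c' := e ▸ h

private theorem R5_nc_rr (i : Fin 4) (x : Fin 2 → A k) :
    ∑ l, nc k i l * (∑ a, rr k a l * x a) = 0 := by
  have h : ∀ (r : Fin 2 → Fin 4 → A k),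
      let p := fun i j : Fin 4 => r 0 i * r 1 j - r 0 j * r 1 i
      let N : Fin 4 → Fin 4 → A k := ![![0, p 2 3, -p 1 3, p 1 2], ![-p 2 3, 0, p 0 3, -p 0 2],
        ![p 1 3, -p 0 3, 0, p 0 1], ![-p 1 2, p 0 2, -p 0 1, 0]]
      ∑ l, N i l * (∑ a, r a l * x a) = 0 := by
    intro r p N
    simp only [N, p, Fin.sum_univ_four, Fin.sum_univ_two]
    fin_cases i <;> simp <;> ring
  exact h (rr k)

/-- PROOF. `exists_z_unit`. -/
theorem zrow_surjective (b : Deg) (U : Ob) : Function.Surjective ((zrow k b).app U).hom := by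
  intro y
  obtain ⟨q, hq, rfl⟩ := R5_cl_surj k (b + eh) U y
  obtain ⟨j0, y0, hy0, h1⟩ := exists_z_unit k U.full
  have hm : y0 * q ∈ gr k U.σ (U.a + b) := by
    have h := mul_mem_gr hy0 hq
    rwa [show -eh + (U.a + (b + eh)) = U.a + b by abel] at h
  have hq' : ∀ j, (if j = j0 then y0 * q else 0) ∈ gr k U.σ (U.a + b) := by
    intro j
    split_ifs
    · exact hm
    · exact Submodule.zero_mem _
  refine ⟨(fun j => R5_cl k b U (if j = j0 then y0 * q else 0) (hq' j)), ?_⟩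
  rw [R5_zrow k b U _ hq', R5_cl_eq]
  have e : ∑ j, zz k j * (if j = j0 then y0 * q else 0) = q := by
    rw [Finset.sum_eq_single j0]
    · rw [if_pos rfl, ← mul_assoc, mul_comm (zz k j0) y0, h1, one_mul]
    · intro j _ hj
      rw [if_neg hj, mul_zero]
    · intro h
      exact absurd (Finset.mem_univ j0) h
  rw [e, sub_self]
  exact Submodule.zero_mem _

/-- PROOF. `z_inj`, representatives. -/
theorem zcol_injective (b : Deg) (U : Ob) : Function.Injective ((zcol k b).app U).hom := by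
  rw [injective_iff_map_eq_zero]
  intro w hw
  obtain ⟨q, hq, rfl⟩ := R5_cl_surj k (b + eH + eH - eh) U w
  rw [R5_cl_eq_zero]
  refine z_inj k U.full hq fun i => ?_
  have h := congrFun hw i
  have h2 := (R5_zcol k b U hq i).symm.trans h
  refine R5_idl k ((R5_cl_eq_zero k _ U _).1 h2) (by abel)

/-- `0 → O_E(b - H)^2 → N → O_E(b + 2H - h) → 0`, `N` the kernel of `O_E(b)^4 → O_E(b + h)`.

PROOF. `ρ` is the lift of `rcol k b` through `kerι (zrow k b)` (`exists_liftF`; `r0 . z = D1`, `r1 . z = D0` are zero on `E`).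
`θ` is the lift of `kerι (zrow k b) ≫ nmat k b` through `zcol k b` (`exists_liftF`, `zcol_injective`, `cross_mul`).
At `U = (σ,a)`, choose representatives in `gr σ (a + b)`: `ρ` is injective by `rT_inj`; `ρ ≫ θ = 0` as the cross product of
`x0 r0 + x1 r1` is zero (identity); exactness at `N`: `θ(y) = 0` gives `n(y) = 0` in `O_E`, so `y = x0 r0 + x1 r1` by
`cross_zero`; `θ` is surjective by `cross_surj`. -/
theorem exists_pwSES_E (b : Deg) :
    ∃ (ρ : powF 2 (OEf k (b - eH)) ⟶ kerF (zrow k b))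
      (θ : kerF (zrow k b) ⟶ OEf k (b + eH + eH - eh)), PwSES ρ θ := by
  -- `rcol` lands in the kernel
  have hr : ∀ U (x : (powF 2 (OEf k (b - eH))).obj U),
      ((zrow k b).app U).hom (((rcol k b).app U).hom x) = 0 := by
    intro U x
    obtain ⟨q, hq, rfl⟩ := R5_pow_surj k 2 (b - eH) U x
    have e : ((rcol k b).app U).hom (fun a => R5_cl k (b - eH) U (q a) (hq a)) =
        (fun j => R5_cl k b U (∑ a, rr k a j * q a)
          (Submodule.sum_mem _ fun a _ => R5_mem k (rr_mem k a j) (hq a) (by abel)) :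
          Fin 4 → (OEf k b).obj U) := funext fun j => R5_rcol k b U q hq j
    rw [e, R5_zrow, R5_cl_eq_zero]
    have e2 : ∑ j, zz k j * ∑ a, rr k a j * q a = D1 k * q 0 + D0 k * q 1 := by
      rw [← rr0_zz, ← rr1_zz]
      simp only [Fin.sum_univ_four, Fin.sum_univ_two]
      ring
    rw [e2]
    refine Submodule.add_mem _ (R5_idl k (D1_mul_mem k (hq 0)) ?_) (R5_idl k (D0_mul_mem k (hq 1)) ?_)
    all_goals
      rw [show dD = eH + eh by decide]
      abel
  obtain ⟨ρ, hρ⟩ := exists_liftF (rcol k b) (kerι (zrow k b)) (fun U => Subtype.val_injective)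
    (fun U x => ⟨⟨((rcol k b).app U).hom x, hr U x⟩, rfl⟩)
  have hρ' : ∀ U (x : (powF 2 (OEf k (b - eH))).obj U),
      ((kerι (zrow k b)).app U).hom ((ρ.app U).hom x) = ((rcol k b).app U).hom x := by
    intro U x
    rw [← hρ]
    rfl
  -- `θ`
  have ht : ∀ U (x : (kerF (zrow k b)).obj U), ∃ w, ((zcol k b).app U).hom w =
      ((kerι (zrow k b) ≫ nmat k b).app U).hom x := by
    intro U x
    obtain ⟨q, hq, hx⟩ := R5_pow_surj k 4 b U (((kerι (zrow k b)).app U).hom x)
    have h0 : ((zrow k b).app U).hom (((kerι (zrow k b)).app U).hom x) = 0 := x.2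
    rw [hx, R5_zrow, R5_cl_eq_zero] at h0
    obtain ⟨w, hw, hw2⟩ := cross_mul k U.full hq (R5_idl k (q := ∑ l, q l * zz k l) (by
      rw [Finset.sum_congr rfl fun l _ => mul_comm (q l) (zz k l)]
      exact h0) (by abel))
    have hw' : w ∈ gr k U.σ (U.a + (b + eH + eH - eh)) := R5_gr k hw (by abel)
    refine ⟨R5_cl k (b + eH + eH - eh) U w hw', ?_⟩
    change _ = ((nmat k b).app U).hom (((kerι (zrow k b)).app U).hom x)
    rw [hx]
    funext i
    refine (R5_zcol k b U hw' i).trans (Eq.trans ?_ (R5_nmat k b U q hq i).symm)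
    rw [R5_cl_eq, ← neg_sub]
    exact Submodule.neg_mem _ (R5_idl k (hw2 i) (by abel))
  obtain ⟨θ, hθ⟩ := exists_liftF (kerι (zrow k b) ≫ nmat k b) (zcol k b) (zcol_injective k b) ht
  have hθ' : ∀ U (x : (kerF (zrow k b)).obj U),
      ((zcol k b).app U).hom ((θ.app U).hom x) =
        ((nmat k b).app U).hom (((kerι (zrow k b)).app U).hom x) := by
    intro U x
    have h := congrArg (fun g : kerF (zrow k b) ⟶ powF 4 (OEf k (b + eH + eH)) => (g.app U).hom x) hθ
    exact h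
  refine ⟨ρ, θ, fun U => ⟨?_, ?_, ?_⟩⟩
  · rw [injective_iff_map_eq_zero]
    intro x hx
    have h0 := hρ' U x
    rw [hx, map_zero] at h0
    obtain ⟨q, hq, rfl⟩ := R5_pow_surj k 2 (b - eH) U x
    have h1 : ∀ j, rr k 0 j * q 0 + rr k 1 j * q 1 ∈ idl (GE k) U.σ (U.a + (b - eH) + eH) := by
      intro j
      have h2 := (R5_rcol k b U q hq j).symm.trans (congrFun h0.symm j)
      have h3 := (R5_cl_eq_zero k _ U _).1 h2
      rw [Fin.sum_univ_two] at h3
      exact R5_idl k h3 (by abel)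
    have h2 := rT_inj k U.full (hq 0) (hq 1) h1
    funext a
    fin_cases a
    · exact (R5_cl_eq_zero k _ U _).2 h2.1
    · exact (R5_cl_eq_zero k _ U _).2 h2.2
  · intro y
    constructor
    · intro hy
      obtain ⟨q, hq, hx⟩ := R5_pow_surj k 4 b U (((kerι (zrow k b)).app U).hom y)
      have h0 := hθ' U y
      rw [hy, map_zero, hx] at h0
      have h1 : ∀ i, (∑ l, nc k i l * q l) ∈ idl (GE k) U.σ (U.a + b + eH + eH) := by
        intro i
        have h2 := (R5_nmat k b U q hq i).symm.trans (congrFun h0.symm i)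
        exact R5_idl k ((R5_cl_eq_zero k _ U _).1 h2) (by abel)
      obtain ⟨x0, hx0, x1, hx1, hx2⟩ := cross_zero k U.full hq h1
      have hxx : ∀ a, (![x0, x1] : Fin 2 → A k) a ∈ gr k U.σ (U.a + (b - eH)) := by
        intro a
        fin_cases a
        · exact R5_gr k hx0 (by abel)
        · exact R5_gr k hx1 (by abel)
      refine ⟨(fun a => R5_cl k (b - eH) U ((![x0, x1] : Fin 2 → A k) a) (hxx a) :
        Fin 2 → (OEf k (b - eH)).obj U), ?_⟩
      apply Subtype.val_injective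
      refine (hρ' U _).trans ?_
      refine Eq.trans ?_ hx.symm
      funext j
      refine (R5_rcol k b U _ hxx j).trans ?_
      rw [R5_cl_eq, ← neg_sub]
      refine Submodule.neg_mem _ ?_
      rw [Fin.sum_univ_two]
      exact hx2 j
    · rintro ⟨x, rfl⟩
      apply zcol_injective k b U
      rw [hθ', hρ', map_zero]
      obtain ⟨q, hq, rfl⟩ := R5_pow_surj k 2 (b - eH) U x
      have e : ((rcol k b).app U).hom (fun a => R5_cl k (b - eH) U (q a) (hq a)) =
          (fun j => R5_cl k b U (∑ a, rr k a j * q a)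
            (Submodule.sum_mem _ fun a _ => R5_mem k (rr_mem k a j) (hq a) (by abel)) :
            Fin 4 → (OEf k b).obj U) := funext fun j => R5_rcol k b U q hq j
      rw [e]
      funext i
      refine (R5_nmat k b U _ _ i).trans ((R5_cl_eq_zero k _ U _).2 ?_)
      rw [R5_nc_rr]
      exact Submodule.zero_mem _
  · intro w
    obtain ⟨q, hq, rfl⟩ := R5_cl_surj k (b + eH + eH - eh) U w
    obtain ⟨y, hy, hy0, hy1⟩ := cross_surj k (c := U.a + b) U.full (R5_gr k hq (by abel))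
    have hk : ((zrow k b).app U).hom (fun j => R5_cl k b U (y j) (hy j)) = 0 := by
      rw [R5_zrow, R5_cl_eq_zero, Finset.sum_congr rfl fun l _ => mul_comm (zz k l) (y l), hy0]
      exact Submodule.zero_mem _
    refine ⟨⟨(fun j => R5_cl k b U (y j) (hy j)), hk⟩, ?_⟩
    apply zcol_injective k b U
    rw [hθ']
    funext i
    refine (R5_nmat k b U y hy i).trans (Eq.trans ?_ (R5_zcol k b U hq i).symm)
    rw [R5_cl_eq]
    exact R5_idl k (hy1 i) (by abel)

end MPbd3808.BR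
end

section

/-!
# TASK R6: generation: all line bundles
-/

open CategoryTheory CategoryTheory.Limits

namespace MPbd3808.BR

universe u
variable {k : Type u} [Field k]
variable {P : ObjectProperty (CohW k)} (hP : Cl23 P)

include hP

private theorem R6_up (c : Deg) (h1 : PX P (OEf k (c - eH))) (h0 : PX P (OEf k (c + eH + eH - eh)))
    (hc : PX P (OEf k c)) : PX P (OEf k (c + eh)) := by
  obtain ⟨ρ, θ, hρ⟩ := exists_pwSES_E k c
  have hker : isCoh k (kerF (zrow k c)) :=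
    prop_kerF (pwClosed_isCoh k) (zrow k c) (prop_powF (pwClosed_isCoh k) 4 (isCoh_OE c)) (isCoh_OE _)
  have hN : PX P (kerF (zrow k c)) := hP.pw_mid hρ hker (hP.powF 2 h1) h0
  exact hP.pw_right (pwSES_ker (zrow k c) (zrow_surjective k c)) (isCoh_OE _) hN (hP.powF 4 hc)

private theorem R6_down (c : Deg) (h1 : PX P (OEf k (c - eH))) (hc : PX P (OEf k c))
    (hn : PX P (OEf k (c + eh))) : PX P (OEf k (c + eH + eH - eh)) := by
  obtain ⟨ρ, θ, hρ⟩ := exists_pwSES_E k c
  have hker : isCoh k (kerF (zrow k c)) :=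
    prop_kerF (pwClosed_isCoh k) (zrow k c) (prop_powF (pwClosed_isCoh k) 4 (isCoh_OE c)) (isCoh_OE _)
  have hN : PX P (kerF (zrow k c)) :=
    hP.pw_left (pwSES_ker (zrow k c) (zrow_surjective k c)) hker (hP.powF 4 hc) hn
  exact hP.pw_right hρ (isCoh_OE _) (hP.powF 2 h1) hN

omit hP in
private theorem R6_cast {G : List (A k × Deg)} {b c : Deg} (h : PX P (QQ G b)) (hbc : b = c) :
    PX P (QQ G c) := hbc ▸ h

private theorem R6_levels (b : Deg) (h0 : ∀ i j : ℤ, PX P (OEf k (b + i • eH + j • eF)))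
    (h1 : ∀ i j : ℤ, PX P (OEf k (b + eh + i • eH + j • eF))) (m : ℤ) :
    (∀ i j : ℤ, PX P (OEf k (b + m • eh + i • eH + j • eF))) ∧
      (∀ i j : ℤ, PX P (OEf k (b + (m + 1) • eh + i • eH + j • eF))) := by
  induction m using Int.induction_on with
  | zero =>
    refine ⟨fun i j => R6_cast (h0 i j) ?_, fun i j => R6_cast (h1 i j) ?_⟩
    · rw [zero_smul, add_zero]
    · rw [zero_add, one_smul]
  | succ n ih =>
    refine ⟨ih.2, fun i j => ?_⟩
    refine R6_cast (R6_up hP (b + ((n : ℤ) + 1) • eh + i • eH + j • eF)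
      (R6_cast (ih.2 (i - 1) j) ?_) (R6_cast (ih.1 (i + 2) j) ?_) (ih.2 i j)) ?_
    · module
    · module
    · module
  | pred n ih =>
    refine ⟨fun i j => ?_, fun i j => R6_cast (ih.1 i j) (by rw [sub_add_cancel])⟩
    refine R6_cast (R6_down hP (b + (-(n : ℤ)) • eh + (i - 2) • eH + j • eF)
      (R6_cast (ih.1 (i - 3) j) ?_) (ih.1 (i - 2) j) (R6_cast (ih.2 (i - 2) j) ?_)) ?_
    · module
    · module
    · module


/-- The direction `h` on `E`: from the levels `h0, h0 + 1` (all `f, H`) to all levels.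

PROOF. Claim for all `m : ℤ`: `P(O_E(b + m' eh + i eH + j eF))` for all `i, j` and `m' = m, m + 1`. Let `c = b + m' eh + i eH + j eF`.
Up (`m → m + 1`, `c` on level `m + 1`): `N = kerF (zrow k c)` satisfies `P` by `exists_pwSES_E` (`pw_mid`: `O_E(c - eH)^2` on level
`m + 1`, `O_E(c + 2 eH - eh)` on level `m`; `Cl23.powF`, `prop_kerF`), so `O_E(c + eh)` satisfies `P` (`pwSES_ker (zrow k c)`, `pw_right`).
Down (`m → m - 1`, `c` on level `m`): `N` satisfies `P` by `pwSES_ker` (`pw_left`), hence `O_E(c + 2 eH - eh)`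
by `exists_pwSES_E` (`pw_right`). -/
theorem e_all (b : Deg) (h0 : ∀ i j : ℤ, PX P (OEf k (b + i • eH + j • eF)))
    (h1 : ∀ i j : ℤ, PX P (OEf k (b + eh + i • eH + j • eF))) (m i j : ℤ) :
    PX P (OEf k (b + m • eh + i • eH + j • eF)) := by
  exact (R6_levels hP b h0 h1 m).1 i j

/-- `O_W(b), O_W(b + dε) ∈ P` imply `O_E(b + dε) ∈ P`. PROOF. `pwSES_eps b`, `twIso`, `pw_right`, `pw_iso`. -/
theorem eps_right (b : Deg) (h0 : PX P (OWf k b)) (h1 : PX P (OWf k (b + dε))) :
    PX P (OEf k (b + dε)) := by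
  exact hP.pw_right (pwSES_eps b) (isCoh_OE _) h0 (hP.pw_iso (twIso [(fP k, dF)] b dε).symm h1)

/-- PROOF. `pw_left`. -/
theorem eps_left (b : Deg) (h1 : PX P (OWf k (b + dε))) (h2 : PX P (OEf k (b + dε))) :
    PX P (OWf k b) := by
  exact hP.pw_left (pwSES_eps b) (isCoh_OW _) (hP.pw_iso (twIso [(fP k, dF)] b dε).symm h1) h2

omit hP in
private theorem R6_W (h : ∀ i : Fin 24, P (QW k i)) (i : Fin 24) (hi : i.1 < 16) :
    PX P (OWf k (bQ i)) := by
  have h1 : PX P (QWf k i) := ⟨_, h i⟩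
  unfold QWf GQ at h1
  rwa [if_pos hi] at h1

omit hP in
private theorem R6_E (h : ∀ i : Fin 24, P (QW k i)) (i : Fin 24) (hi : ¬ i.1 < 16) :
    PX P (OEf k (bQ i)) := by
  have h1 : PX P (QWf k i) := ⟨_, h i⟩
  unfold QWf GQ at h1
  rwa [if_neg hi] at h1

/-- all twists in the directions of `F_1` from two pairs -/
private theorem R6_F1 (G : List (A k × Deg)) (hG : ∀ b, isCoh k (QQ G b)) (f0 f1 H j : ℤ)
    (h00 : PX P (QQ G ![0, f0, H, j])) (h01 : PX P (QQ G ![0, f0 + 1, H, j]))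
    (h10 : PX P (QQ G ![0, f1, H + 1, j])) (h11 : PX P (QQ G ![0, f1 + 1, H + 1, j]))
    (f H' : ℤ) : PX P (QQ G ![0, f, H', j]) := by
  have hd2 : dg 2 = eF := by decide
  have hd3 : dg 3 = eF := by decide
  have a0 : ∀ n : ℤ, PX P (QQ G (![0, 0, H, j] + n • eF)) := fun n =>
    R6_cast (pair_all hP G hG 2 3 (by decide) (by decide) ![0, f0, H, j] eF hd2 hd3 h00
      (R6_cast h01 (by ext i; fin_cases i <;> simp [eF])) (n - f0))
      (by ext i; fin_cases i <;> simp [eF])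
  have a1 : ∀ n : ℤ, PX P (QQ G (![0, 0, H, j] + eH + n • eF)) := fun n =>
    R6_cast (pair_all hP G hG 2 3 (by decide) (by decide) ![0, f1, H + 1, j] eF hd2 hd3 h10
      (R6_cast h11 (by ext i; fin_cases i <;> simp [eF])) (n - f1))
      (by ext i; fin_cases i <;> simp [eF, eH])
  exact R6_cast (x_all hP G hG ![0, 0, H, j] a0 a1 (H' - H) f)
    (by ext i; fin_cases i <;> simp [eF, eH])

private theorem R6_W0 (h : ∀ i : Fin 24, P (QW k i)) (f H j : ℤ) :
    PX P (OWf k ![0, f, H, j]) := by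
  have key : ∀ i : Fin 4, PX P (OWf k (![0, f, H, 0] + (i.1 : ℤ) • eh)) := by
    intro i
    have h0 : PX P (OWf k ![0, f, H, (i.1 : ℤ)]) := by
      fin_cases i
      · exact R6_F1 hP _ isCoh_OW 0 0 0 0 (R6_W h 0 (by decide)) (R6_W h 1 (by decide))
          (R6_W h 2 (by decide)) (R6_W h 3 (by decide)) f H
      · exact R6_F1 hP _ isCoh_OW 0 0 0 1 (R6_W h 4 (by decide)) (R6_W h 5 (by decide))
          (R6_W h 6 (by decide)) (R6_W h 7 (by decide)) f H
      · exact R6_F1 hP _ isCoh_OW 0 0 0 2 (R6_W h 8 (by decide)) (R6_W h 9 (by decide))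
          (R6_W h 10 (by decide)) (R6_W h 11 (by decide)) f H
      · exact R6_F1 hP _ isCoh_OW 0 0 0 3 (R6_W h 12 (by decide)) (R6_W h 13 (by decide))
          (R6_W h 14 (by decide)) (R6_W h 15 (by decide)) f H
    exact R6_cast h0 (by ext x; fin_cases x <;> simp [eh])
  exact R6_cast (z_all hP ![0, f, H, 0] key j) (by ext x; fin_cases x <;> simp [eh])

private theorem R6_E0 (h : ∀ i : Fin 24, P (QW k i)) (f H j : ℤ) :
    PX P (OEf k ![0, f, H, j]) := by
  have h2 : ∀ i i' : ℤ, PX P (OEf k (![0, 0, 0, 2] + i • eH + i' • eF)) := fun i i' =>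
    R6_cast (R6_F1 hP _ isCoh_OE 1 1 1 2 (R6_E h 16 (by decide)) (R6_E h 17 (by decide))
      (R6_E h 18 (by decide)) (R6_E h 19 (by decide)) i' i)
      (by ext x; fin_cases x <;> simp [eH, eF])
  have h3 : ∀ i i' : ℤ, PX P (OEf k (![0, 0, 0, 2] + eh + i • eH + i' • eF)) := fun i i' =>
    R6_cast (R6_F1 hP _ isCoh_OE 2 2 1 3 (R6_E h 20 (by decide)) (R6_E h 21 (by decide))
      (R6_E h 22 (by decide)) (R6_E h 23 (by decide)) i' i)
      (by ext x; fin_cases x <;> simp [eH, eF, eh])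
  exact R6_cast (e_all hP ![0, 0, 0, 2] h2 h3 (j - 2) H f)
    (by ext x; fin_cases x <;> simp [eH, eF, eh])

/-- All line bundles are built from the 24 objects.

PROOF. Write `(s; f, H, h)`. `PX P (QWf k i)` for all `i`.
(1) `O_W(0; f, H, h)` for all `f, H, h`: for `j = 0,..,3`, `H = 0, 1` the objects `O_W(0;0,H,j)`, `O_W(0;1,H,j)` are among the first 16
(`bQ`): `pair_all` (`v = 2, w = 3`, `d = eF`) gives all `f`; `x_all` gives all `H`; `z_all` gives all `h`
(`b = i eH + j eF`).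
(2) `O_E(0; f, H, h)` for all `f, H, h`: the last eight are the pairs `(1,1,2),(2,1,2)`; `(1,2,2),(2,2,2)`; `(2,1,3),(3,1,3)`; `(2,2,3),(3,2,3)`:
`pair_all`, then `x_all` (`H = 1, 2`) for `h = 2` and `h = 3`, then `e_all`.
(3) `O_W(1; f, H, h)`: `eps_left` with `b = (1; f, H, h)`, `b + dε = (0; f, H+1, h+1)`.
(4) `pair_all` (`v = 0, w = 1`, `d = es`) gives all `O_W(s; f, H, h)`. -/
theorem build_OC (h : ∀ i : Fin 24, P (QW k i)) (b : Deg) : P (OC k b) := by
  have h0 : ∀ f H j : ℤ, PX P (OWf k ![0, f, H, j]) := R6_W0 hP h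
  have h1 : ∀ f H j : ℤ, PX P (OWf k ![1, f, H, j]) := fun f H j =>
    eps_left hP ![1, f, H, j]
      (R6_cast (h0 f (H + 1) (j + 1)) (by ext x; fin_cases x <;> simp [dε]))
      (R6_cast (R6_E0 hP h f (H + 1) (j + 1)) (by ext x; fin_cases x <;> simp [dε]))
  have h2 : PX P (OWf k b) :=
    R6_cast (pair_all hP _ isCoh_OW 0 1 (by decide) (by decide) ![0, b 1, b 2, b 3] es
      (by decide) (by decide) (h0 _ _ _)
      (R6_cast (h1 (b 1) (b 2) (b 3)) (by ext x; fin_cases x <;> simp [es])) (b 0))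
      (by ext x; fin_cases x <;> simp [es])
  obtain ⟨_, h3⟩ := h2
  exact h3

/-- The 24 objects are built from line bundles.

PROOF. `i < 16`: `QWf k i` is `OWf k (bQ i)`. `i ≥ 16`: `eps_right (bQ i - dε)`. -/
theorem build_QW (h : ∀ b : Deg, P (OC k b)) (i : Fin 24) : P (QW k i) := by
  have hW : ∀ b : Deg, PX P (OWf k b) := fun b => ⟨_, h b⟩
  have h1 : PX P (QWf k i) := by
    unfold QWf GQ
    split_ifs with hi
    · exact hW _
    · have h2 := eps_right hP (bQ i - dε) (hW _) (hW _)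
      rwa [sub_add_cancel] at h2
  obtain ⟨_, h3⟩ := h1
  exact h3

end MPbd3808.BR
end

section

/-!
# TASK K3: the hypotheses `AbGen` for the 24 sheaves
-/

open CategoryTheory CategoryTheory.Limits CategoryTheory.Abelian

namespace MPbd3808.BR

universe u
variable (k : Type u) [Field k]

private theorem K3_GQ_O {i : Fin 24} (hi : i.1 < 16) : GQ k i = [(fP k, dF)] := by
  unfold GQ; rw [if_pos hi]

private theorem K3_GQ_E {i : Fin 24} (hi : 16 ≤ i.1) : GQ k i = [(D1 k, dD), (D0 k, dD)] := by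
  unfold GQ; rw [if_neg (by omega)]

private theorem K3_QWf_O {i : Fin 24} (hi : i.1 < 16) : QWf k i = OWf k (bQ i) := by
  unfold QWf; rw [K3_GQ_O k hi]

private theorem K3_QWf_E {i : Fin 24} (hi : 16 ≤ i.1) : QWf k i = OEf k (bQ i) := by
  unfold QWf; rw [K3_GQ_E k hi]

private theorem K3_mk_congr {X Y : FunCat k} (h : X = Y) (hX : isCoh k X) (hY : isCoh k Y) :
    (⟨X, hX⟩ : CohW k) = ⟨Y, hY⟩ := by
  subst h; rfl

private theorem K3_QW_E {i : Fin 24} (hi : 16 ≤ i.1) : QW k i = OEC k (bQ i) :=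
  K3_mk_congr k (K3_QWf_E k hi) _ _

/-- the linear map `f ↦ f.hom` -/
private def K3_hom (X Y : CohW k) : (X ⟶ Y) →ₗ[k] (X.obj ⟶ Y.obj) where
  toFun f := f.hom
  map_add' _ _ := rfl
  map_smul' _ _ := rfl

private theorem K3_hom_inj (X Y : CohW k) : Function.Injective (K3_hom k X Y) := by
  intro f g h
  exact (isCoh k).ι.map_injective h

private theorem K3_finite (X Y : CohW k) (h : Module.Finite k (X.obj ⟶ Y.obj)) :
    Module.Finite k (X ⟶ Y) :=
  Module.Finite.of_injective (K3_hom k X Y) (K3_hom_inj k X Y)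

private theorem K3_finite_zero (X Y : CohW k) (h : ∀ f : X ⟶ Y, f = 0) :
    Module.Finite k (X ⟶ Y) := by
  have : Subsingleton (X ⟶ Y) := ⟨fun f g => by rw [h f, h g]⟩
  infer_instance

/-- PROOF. Homs in the full subcategory `CohW k` are Homs in `FunCat k` (`f ↦ f.hom`, linear equivalence). Cases as in K1:
`i, j < 16`: `finite_of_PP`, `finite_PP_OW`; `j ≥ 16`: `finite_of_PP`, `finite_PP_OE` or (last coordinate `-1`) every
morphism is zero (`extOrth_QW`-type vanishing, or `extOrth_OM_OEM_h`, `extOrth_OEM_OEM` with `ExtOrth.hom_eq_zero`); `j < 16 ≤ i`: zero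
(`extOrth_QW`). -/
theorem finite_hom_QW (i j : Fin 24) : Module.Finite k (QW k i ⟶ QW k j) := by
  rcases Nat.lt_or_ge i.1 16 with hi | hi
  · rcases Nat.lt_or_ge j.1 16 with hj | hj
    · obtain ⟨a0, a1, a2, a3, a4, a5, a6⟩ := bQ_O i hi
      obtain ⟨b0, b1, b2, b3, b4, b5, b6⟩ := bQ_O j hj
      refine K3_finite k _ _ ?_
      refine finite_of_PP k _ (bQ i) _ ?_
      change Module.Finite k (PPf k (bQ i) ⟶ QWf k j)
      rw [K3_QWf_O k hj]
      refine finite_PP_OW k (bQ i) (bQ j) ?_ ?_ ?_ ?_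
      · rw [Pi.sub_apply, a0, b0]; rfl
      · rw [Pi.sub_apply]; omega
      · intro _; rw [Pi.sub_apply]; omega
      · intro _ _; rw [Pi.sub_apply]; omega
    · obtain ⟨a0, a1, a2, a3, a4, a5, a6⟩ := bQ_O i hi
      obtain ⟨b0, b1, b2, b3, b4, b5, b6⟩ := bQ_E j hj
      refine K3_finite k _ _ ?_
      refine finite_of_PP k _ (bQ i) _ ?_
      change Module.Finite k (PPf k (bQ i) ⟶ QWf k j)
      rw [K3_QWf_E k hj]
      refine finite_PP_OE k (bQ i) (bQ j) ?_ ?_ ?_ ?_ ?_ ?_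
      · rw [Pi.sub_apply, a0, b0]; rfl
      · rw [Pi.sub_apply]; omega
      · rw [Pi.sub_apply]; omega
      · rw [Pi.sub_apply]; omega
      · intro _; rw [Pi.sub_apply]; omega
      · intro _; rw [Pi.sub_apply]; omega
  · rcases Nat.lt_or_ge j.1 16 with hj | hj
    · refine K3_finite_zero k _ _ ?_
      exact (extOrth_QW k j i (by rw [Fin.lt_def]; omega)).hom_eq_zero
    · obtain ⟨a0, a1, a2, a3, a4, a5, a6⟩ := bQ_E i hi
      obtain ⟨b0, b1, b2, b3, b4, b5, b6⟩ := bQ_E j hj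
      have h0 : (bQ j - bQ i) 0 = 0 := by rw [Pi.sub_apply, a0, b0]; rfl
      rcases bQ_E_range i j hi hj with h | ⟨h3, h3', h2, h1, h12⟩
      · refine K3_finite_zero k _ _ ?_
        have h5 : ExtOrth.{u+1} (OEC k (bQ i)) (OEC k (bQ j)) :=
          extOrth_coh k (extOrth_OEM_OEM k (bQ i) (bQ j) h0 (extOrth_OM_OEM_h k (bQ i) (bQ j) h0 h))
        rw [← K3_QW_E k hi, ← K3_QW_E k hj] at h5
        exact h5.hom_eq_zero
      · refine K3_finite k _ _ ?_
        refine finite_of_PP k _ (bQ i) _ ?_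
        change Module.Finite k (PPf k (bQ i) ⟶ QWf k j)
        rw [K3_QWf_E k hj]
        refine finite_PP_OE k (bQ i) (bQ j) h0 ?_ ?_ ?_ ?_ ?_
        · omega
        · exact h2
        · exact h1
        · exact h12
        · intro h; omega

private theorem K3_end (X : CohW k) (h : ∀ f : X.obj ⟶ X.obj, ∃! c : k, f = c • 𝟙 X.obj)
    (f : X ⟶ X) : ∃! c : k, f = c • 𝟙 X := by
  obtain ⟨c, hc, hu⟩ := h f.hom
  refine ⟨c, K3_hom_inj k X X hc, ?_⟩
  intro c' hc'
  refine hu c' ?_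
  exact congrArg (K3_hom k X X) hc'

/-- PROOF. `end_OW`, `end_OE`. -/
theorem end_QW (i : Fin 24) (f : QW k i ⟶ QW k i) : ∃! c : k, f = c • 𝟙 (QW k i) := by
  refine K3_end k (QW k i) ?_ f
  change ∀ f : QWf k i ⟶ QWf k i, ∃! c : k, f = c • 𝟙 (QWf k i)
  rcases Nat.lt_or_ge i.1 16 with hi | hi
  · rw [K3_QWf_O k hi]; exact end_OW k (bQ i)
  · rw [K3_QWf_E k hi]; exact end_OE k (bQ i)

/-- PROOF. `ext_eq_zero`: `extAc_QW`; `hom_eq_zero`: `extOrth_QW` (`ExtOrth.hom_eq_zero`); `end_eq`: `end_QW`; `fin`: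
`finite_hom_QW`; `gen`: `exists_epi_OC`; `build`: `build_OC` (a `Closed23` is a `Cl23`); `build'`: `build_QW`; `bound`:
`exists_bound_coh`. -/
theorem abGen : AbGen k (QW k) (OC k) where
  ext_eq_zero i j n hn e := extAc_QW k i j n hn e
  hom_eq_zero i j hij f := (extOrth_QW k i j hij).hom_eq_zero f
  end_eq i f := end_QW k i f
  fin i j := finite_hom_QW k i j
  gen X := exists_epi_OC k X
  build P hP h c := build_OC (P := P) ⟨hP.zero, hP.iso, hP.mid, hP.right, hP.left⟩ h c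
  build' P hP h i := build_QW (P := P) ⟨hP.zero, hP.iso, hP.mid, hP.right, hP.left⟩ h i
  bound c := exists_bound_coh k c

end MPbd3808.BR
end
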