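import Pool.Agent.Lib.MP_bd3808_ag.Mg.G008
import Pool.Agent.Lib.MP_bd3808_ag.Mg.G013
import Pool.Agent.Lib.MP_bd3808_ag.Mg.G012
import Pool.Agent.Lib.MP_bd3808_ag.Mg.G022

section

/-!
# TASK Fam4
-/

set_option autoImplicit false

noncomputable section

open CategoryTheory CategoryTheory.Limits CategoryTheory.Pretriangulated

namespace BO

universe w v u

private lemma Fam4_aux {G : Type*} [AddCommGroup G] (τ x y z D1 D2 D3 : G) (m d a1 a2 a3 : ℤ)

    (e1 : (2 : ℤ) • D1 = 0) (e2 : (2 : ℤ) • D2 = (2 : ℤ) • D3 - (8 * m : ℤ) • τ)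
    (h1 : (2 : ℤ) • (D1 + (2 : ℤ) • x - (2 : ℤ) • y) = (2 * (d * a1) : ℤ) • τ)
    (h2 : (2 : ℤ) • (D2 + (-2 * m : ℤ) • x - (-2 * m : ℤ) • z) = (2 * (d * a2) : ℤ) • τ)
    (h3 : (2 : ℤ) • (D3 + (-2 * m : ℤ) • y - (-2 * m : ℤ) • z) = (2 * (d * a3) : ℤ) • τ) :
    (8 * m + m * (2 * (d * a1)) + 2 * (d * a2) - 2 * (d * a3) : ℤ) • τ = 0 := by
  have e3 : (8 * m : ℤ) • τ = (2 : ℤ) • D3 - (2 : ℤ) • D2 := by
    rw [e2]; abel
  have e4 : (m * (2 * (d * a1)) : ℤ) • τ =
      (m : ℤ) • ((2 : ℤ) • (D1 + (2 : ℤ) • x - (2 : ℤ) • y)) := by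
    rw [h1, smul_smul]
  have e5 : (m : ℤ) • ((2 : ℤ) • (D1 + (2 : ℤ) • x - (2 : ℤ) • y)) =
      (4 * m : ℤ) • x - (4 * m : ℤ) • y := by
    rw [smul_sub, smul_add, e1]
    module
  rw [sub_smul, add_smul, add_smul, e3, e4, e5, ← h2, ← h3]
  module

variable {k : Type w} [Field k] {C : Type u} [Category.{v} C] [Preadditive C] [Linear k C]
  [HasZeroObject C] [HasShift C ℤ] [∀ n : ℤ, (shiftFunctor C n).Additive]
  [∀ n : ℤ, Functor.Linear k (shiftFunctor C n)] [Pretriangulated C]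
  {σ : C ⥤ C} [σ.CommShift ℤ] [σ.Additive] [σ.Linear k] [σ.Full] [σ.Faithful]
  (A : Setup k (C := C) σ) (K : Conv A.D.d0 A.D.d1 A.D.d2)

/-- (ii) PROOF. Let `φ` be the structure of `Setup.exists_structure` and `ψ` the given one; `ψ i` is `φ i` scaled by `c i`
(`scale_of_exceptional`). `τ = ofMul t`, additive notation. `D'(12,13) = D(12,13) + 2(c₁₂-c₁₃)` and `2 D'(12,13) ∈ 2dℤτ`, so
`4(c₁₂-c₁₃) = 2 d n τ`. `D'(12,18) = D(12,18) - 2m(c₁₂-c₁₈)`, `D'(13,18) = D(13,18) - 2m(c₁₃-c₁₈)`; twice the difference: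
`2D'(12,18) - 2D'(13,18) = -8mτ - 4m(c₁₂-c₁₃) = -8mτ - 2dnmτ`, and it is in `2dℤτ`. As `t` has infinite order `2d ∣ 8m`, so
`d ∣ 4m`. -/
theorem Setup.dvd_of_PG [σ.IsTriangulated] [IsTriangulated C] (m : ℕ) (d : ℕ)
    (h : PG k σ (GG A.t d) (A.fam K (2 * m))) : (d : ℤ) ∣ 4 * m := by
  obtain ⟨φ, -, n1, n2, n3, e1, e2⟩ := A.exists_structure K m
  obtain ⟨ψ, hψ⟩ := h
  have hc : ∀ i, ∃ c : kˣ, (⟨A.obj K (2 * m) i, ψ i⟩ : EqObj σ) =
      EqObj.scale (⟨A.obj K (2 * m) i, φ i⟩ : EqObj σ) c := fun i =>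
    scale_of_exceptional k (⟨A.obj K (2 * m) i, φ i⟩ : EqObj σ) (⟨A.obj K (2 * m) i, ψ i⟩ : EqObj σ)
      (A.obj_exc K (2 * m) i) rfl
  choose c hc using hc
  have key : ∀ i j, (chi k σ (⟨A.obj K (2 * m) i, ψ i⟩ : EqObj σ) ⟨A.obj K (2 * m) j, ψ j⟩).2 =
      (chi k σ (⟨A.obj K (2 * m) i, φ i⟩ : EqObj σ) ⟨A.obj K (2 * m) j, φ j⟩).2 +
      (chi k σ (⟨A.obj K (2 * m) i, φ i⟩ : EqObj σ) ⟨A.obj K (2 * m) j, φ j⟩).1 •
        Additive.ofMul (c i) -
      (chi k σ (⟨A.obj K (2 * m) i, φ i⟩ : EqObj σ) ⟨A.obj K (2 * m) j, φ j⟩).1 •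
        Additive.ofMul (c j) := by
    intro i j
    rw [hc i, hc j, chi_scale_right k _ _ (c j) (A.extFin _ _),
      chi_scale_left k _ _ (c i) (A.extFin _ _)]
    simp
  have hG : ∀ i j, ∃ n : ℤ,
      (2 : ℤ) • (chi k σ (⟨A.obj K (2 * m) i, ψ i⟩ : EqObj σ) ⟨A.obj K (2 * m) j, ψ j⟩).2 =
        (2 * (d * n) : ℤ) • Additive.ofMul A.t := by
    intro i j
    obtain ⟨n, hn⟩ := hψ i j
    refine ⟨n, ?_⟩
    apply Additive.toMul.injective
    rw [toMul_zsmul, toMul_zsmul]
    rw [toMul_ofMul]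
    rw [← hn]
    exact zpow_ofNat _ 2
  obtain ⟨a1, h1⟩ := hG 12 13
  obtain ⟨a2, h2⟩ := hG 12 18
  obtain ⟨a3, h3⟩ := hG 13 18
  rw [key, n1] at h1
  rw [key, n2] at h2
  rw [key, n3] at h3
  generalize (chi k σ (⟨A.obj K (2 * m) 12, φ 12⟩ : EqObj σ) ⟨A.obj K (2 * m) 13, φ 13⟩).2 = D1
    at *
  generalize (chi k σ (⟨A.obj K (2 * m) 12, φ 12⟩ : EqObj σ) ⟨A.obj K (2 * m) 18, φ 18⟩).2 = D2
    at *
  generalize (chi k σ (⟨A.obj K (2 * m) 13, φ 13⟩ : EqObj σ) ⟨A.obj K (2 * m) 18, φ 18⟩).2 = D3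
    at *
  generalize Additive.ofMul (c 12) = x at *
  generalize Additive.ofMul (c 13) = y at *
  generalize Additive.ofMul (c 18) = z at *
  have h4 : (8 * m + m * (2 * (d * a1)) + 2 * (d * a2) - 2 * (d * a3) : ℤ) •
      Additive.ofMul A.t = 0 :=
    Fam4_aux (Additive.ofMul A.t) x y z D1 D2 D3 m d a1 a2 a3 e1 e2 h1 h2 h3
  have h5 : A.t ^ (8 * m + m * (2 * (d * a1)) + 2 * (d * a2) - 2 * (d * a3) : ℤ) = 1 := by
    have := congrArg Additive.toMul h4
    rwa [toMul_zsmul, toMul_ofMul] at this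
  have h6 := A.ht _ h5
  exact ⟨-(m * a1 + a2 - a3), by linarith⟩

end BO
end
end

section

/-!
# The abstract theorem: infinitely many braid orbits
-/

set_option autoImplicit false

noncomputable section

open CategoryTheory CategoryTheory.Limits CategoryTheory.Pretriangulated

namespace BO

universe w v u

variable {k : Type w} [Field k] {C : Type u} [Category.{v} C] [Preadditive C] [Linear k C]
  [HasZeroObject C] [HasShift C ℤ] [∀ n : ℤ, (shiftFunctor C n).Additive]
  [∀ n : ℤ, Functor.Linear k (shiftFunctor C n)] [Pretriangulated C]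
  {σ : C ⥤ C} [σ.CommShift ℤ] [σ.Additive] [σ.Linear k] [σ.Full] [σ.Faithful]

theorem Setup.infinite_orbits [σ.IsTriangulated] [IsTriangulated C] (A : Setup k (C := C) σ) :
    Infinite (Orbits k C 24) := by
  obtain ⟨K⟩ := A.D.exists_conv
  refine Infinite.of_injective
    (fun j : ℕ => (Quot.mk _ (A.fam K (2 * 8 ^ j)) : Orbits k C 24)) ?_
  have key : ∀ i j : ℕ, (Quot.mk _ (A.fam K (2 * 8 ^ i)) : Orbits k C 24) =
      Quot.mk _ (A.fam K (2 * 8 ^ j)) → i ≤ j := by
    intro i j h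
    have h1 := PG_of_orbit (σ := σ) k A.extFin (GG A.t ((8 ^ i : ℕ) : ℤ)) _ _ h (A.PG_fam K (8 ^ i))
    have h2 := A.dvd_of_PG K (8 ^ j) (8 ^ i) h1
    by_contra hlt
    have h3 : (8 ^ i : ℕ) ∣ 4 * 8 ^ j := by exact_mod_cast h2
    have h4 : (8 : ℕ) ^ (j + 1) ∣ 4 * 8 ^ j := (pow_dvd_pow 8 (by omega)).trans h3
    have h5 := Nat.le_of_dvd (by positivity) h4
    have h6 : (0 : ℕ) < 8 ^ j := by positivity
    rw [pow_succ] at h5
    omega
  intro i j h
  exact le_antisymm (key i j h) (key j i h.symm)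

end BO
end
end

section

/-!
# TASK DS1: the hypotheses of the abstract theorem for `D^b(A)`

`AbSetup.six`: `J i j` = composite of the given `J i j` with the linear equivalence `(X ⟶ Y) ≃ₗ[k] (dbSingle X ⟶ dbSingle Y)` (full faithfulness, `map_smul`); `one`, `mul`: functoriality;
`strong`: `AbGen.strong`. `AbSetup.setup`: `s = gen.sys`, `φ i = dbPhi F (ψ i)`, `equiv`: `dbPhi_comm` and `Six.m_eq` (`BO.sig k t p ∈ RX k D` for `p ∈ RX k D`: see `BO/Sig*.lean`,
`BO/QS1.lean`); `sq`, numbers: `chi_single` (G2) and `kcls` has first component `finrank`.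
-/

set_option autoImplicit false

noncomputable section

open CategoryTheory CategoryTheory.Limits CategoryTheory.Pretriangulated CategoryTheory.Abelian

namespace MPbd3808.BR

universe w' w v' v u

variable {A : Type u} [Category.{v} A] [Abelian A] [HasExt.{w'} A] [HasDerivedCategory.{w} A]
  {k : Type v'} [Field k] [Linear k A] {F : A ⥤ A} [F.Additive] [F.Linear k] [F.IsEquivalence]
  {Q : Fin 24 → A} {ι : Type} {O : ι → A}

/-- The six objects. -/
def AbSetup.six (h : AbSetup k F Q O) :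
    BO.Six k (fun j : Fin 6 => (dbSingle A).obj (Q (BO.ix j))) where
  J i j := (h.J i j).trans
    { toFun := fun f => (dbSingle A).map f
      invFun := fun f => (dbSingle A).preimage f
      map_add' := by
        intro f g
        exact (dbSingle A).map_add
      map_smul' := by
        intro c f
        exact (dbSingle A).map_smul c f
      left_inv := by
        intro f
        exact (dbSingle A).preimage_map f
      right_inv := by
        intro f
        exact (dbSingle A).map_preimage f }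
  one := by
    intro i x hx
    change (dbSingle A).map (h.J i i x) = 𝟙 _
    rw [h.one i x hx, (dbSingle A).map_id]
  mul := by
    intro i j l x y z hz
    change (dbSingle A).map (h.J i l z) = (dbSingle A).map (h.J i j x) ≫ (dbSingle A).map (h.J j l y)
    rw [h.mul i j l x y z hz, (dbSingle A).map_comp]
  strong := by
    intro i j n hn f
    exact h.gen.strong (BO.ix i) (BO.ix j) n hn f

open DerivedCategory DerivedCategory.TStructure in
private theorem DS1_lin {A : Type u} [Category.{v} A] [Abelian A] [HasDerivedCategory.{w} A]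
    (k : Type v') [Field k] [Linear k A] (n : ℤ) : Functor.Linear k (shiftFunctor (Db A) n) where
  map_smul {X Y} f r := by
    have h1 : ∀ g : X ⟶ Y, (t (C := A)).bounded.ι.map ((shiftFunctor (Db A) n).map g) =
        ((t (C := A)).bounded.ι.commShiftIso n).hom.app X ≫
          (shiftFunctor (DerivedCategory A) n).map ((t (C := A)).bounded.ι.map g) ≫
            ((t (C := A)).bounded.ι.commShiftIso n).inv.app Y := by
      intro g
      have h2 := ((t (C := A)).bounded.ι.commShiftIso n).hom.naturality g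
      simp only [Functor.comp_map] at h2
      rw [← Category.assoc, ← h2, Category.assoc, Iso.hom_inv_id_app]
      exact (Category.comp_id _).symm
    apply (t (C := A)).bounded.ι.map_injective
    have h3 : (t (C := A)).bounded.ι.map (r • f) = r • (t (C := A)).bounded.ι.map f := rfl
    have h4 : (t (C := A)).bounded.ι.map (r • (shiftFunctor (Db A) n).map f) =
      r • (t (C := A)).bounded.ι.map ((shiftFunctor (Db A) n).map f) := rfl
    rw [h4, h1, h1, h3, Functor.map_smul, Linear.smul_comp, Linear.comp_smul]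

private theorem DS1_m (h : AbSetup k F Q O) (i j : Fin 6) (p : BO.PP k)
    (hp : p ∈ BO.RX k (BO.bdeg j - BO.bdeg i)) :
    h.six.m i j p = (dbSingle A).map (h.J i j ⟨p, hp⟩) := by
  have := DS1_lin (A := A) k
  exact BO.Six.m_eq h.six i j p hp

private theorem DS1_chi (h : AbSetup k F Q O) (i j : Fin 24) :
    BO.chi k (dbMap F) ⟨(dbSingle A).obj (Q i), dbPhi F (h.ψ i)⟩
      ⟨(dbSingle A).obj (Q j), dbPhi F (h.ψ j)⟩ = BO.kcls (actA F k (h.ψ i) (h.ψ j)) :=
  chi_single F k (h.ψ i) (h.ψ j) fun n hn f => h.gen.strong i j n hn f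

/-- The hypotheses of the abstract theorem. -/
def AbSetup.setup (h : AbSetup k F Q O) : BO.Setup k (C := Db A) (dbMap F) where
  s := h.gen.sys
  fin i j := h.gen.finQQ i j
  D := h.six
  φ i := dbPhi F (h.ψ i)
  t := h.t
  ht := h.ht
  equiv := by
    intro i j p hp
    have hp' : BO.sig k h.t p ∈ BO.RX k (BO.bdeg j - BO.bdeg i) := BO.sig_mem k h.t _ p hp
    have h1 := dbPhi_comm F (h.ψ (BO.ix i)) (h.ψ (BO.ix j)) _ _
      (h.equiv i j ⟨p, hp⟩ ⟨BO.sig k h.t p, hp'⟩ rfl)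
    refine Eq.trans ?_ (h1.trans ?_)
    · exact congrArg (fun z => z ≫ (dbPhi F (h.ψ (BO.ix j))).hom) (DS1_m h i j _ hp')
    · exact congrArg (fun z => (dbPhi F (h.ψ (BO.ix i))).hom ≫ (dbMap F).map z)
        (DS1_m h i j p hp).symm
  sq := by
    intro i j
    have h1 := DS1_chi h i j
    refine (congrArg (fun z : BO.KG k => (2 : ℤ) • z.2) h1).trans ?_
    exact h.sq i j
  num12_13 := by
    refine (congrArg (fun z : BO.KG k => z.1) (DS1_chi h 12 13)).trans ?_
    change ((Module.finrank k (Q 12 ⟶ Q 13) : ℕ) : ℤ) = 2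
    rw [h.num12_13]
    rfl
  num12 := by
    intro j
    refine (congrArg (fun z : BO.KG k => z.1) (DS1_chi h 12 (BO.ix j))).trans ?_
    exact h.num12 j
  num13 := by
    intro j
    refine (congrArg (fun z : BO.KG k => z.1) (DS1_chi h 13 (BO.ix j))).trans ?_
    exact h.num13 j

theorem AbSetup.infinite_orbits (h : AbSetup k F Q O) : Infinite (BO.Orbits k (Db A) 24) := by
  have := DS1_lin (A := A) k
  exact BO.Setup.infinite_orbits (C := Db A) (σ := dbMap F) h.setup

end MPbd3808.BR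
end
end

section

/-!
# MP_bd3808_ag, campaign BR: infinitely many orbits on `D^b(Coh W)`
-/

set_option autoImplicit false

noncomputable section

open CategoryTheory CategoryTheory.Limits

namespace MPbd3808.BR

universe w u

/-- The full exceptional systems of `D^b(Coh W)` form infinitely many braid group orbits, if `k`
has an element of infinite order. -/
theorem infinite_orbits_CohW (k : Type u) [Field k] [HasDerivedCategory.{w} (CohW k)] (t : kˣ)
    (ht : ∀ n : ℤ, t ^ n = 1 → n = 0) : Infinite (BO.Orbits k (Db (CohW k)) 24) :=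
  (SX.abSetup (OC k) (abGen k) t ht).infinite_orbits

end MPbd3808.BR
end
end
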