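import Pool.Agent.Lib.MP_bd3808_ag.Mg.G002
import Pool.Agent.Lib.MP_bd3808_ag.Mg.G001
import Pool.Agent.Lib.MP_bd3808_ag.Mg.G006
import Pool.Agent.Lib.MP_bd3808_ag.Mg.G007
import Pool.Agent.Lib.MP_bd3808_ag.Mg.G011

section

/-!
# TASK LiftT
-/

set_option autoImplicit false

noncomputable section

open CategoryTheory CategoryTheory.Limits CategoryTheory.Pretriangulated

namespace BO

universe w v u

variable (k : Type w) [Field k] {C : Type u} [Category.{v} C] [Preadditive C] [Linear k C]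
  [HasZeroObject C] [HasShift C ℤ] [∀ n : ℤ, (shiftFunctor C n).Additive]
  [∀ n : ℤ, Functor.Linear k (shiftFunctor C n)] [Pretriangulated C]
  {σ : C ⥤ C} [σ.CommShift ℤ] [σ.Additive] [σ.Linear k] [σ.Full] [σ.Faithful]

/-- Third vertex: `σ` maps the triangle to a triangle (`σ.mapTriangle`, `Functor.map_distinguished`);
`complete_distinguished_triangle_morphism` for `X.φ`, `Y.φ`, and `isIso₃_of_isIso₁₂`. -/
theorem exists_structure₃ [σ.IsTriangulated] (X Y : EqObj σ) (Z : C) (f : X.X ⟶ Y.X)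
    (g : Y.X ⟶ Z) (h : Z ⟶ X.X⟦(1 : ℤ)⟧) (hT : Triangle.mk f g h ∈ distTriang C)
    (comm : f ≫ Y.φ.hom = X.φ.hom ≫ σ.map f) :
    ∃ φ : Z ≅ σ.obj Z, EqTri σ X Y ⟨Z, φ⟩ f g h := by
  have hT' := σ.map_distinguished _ hT
  obtain ⟨c, hc1, hc2⟩ := complete_distinguished_triangle_morphism _ _ hT hT' X.φ.hom Y.φ.hom comm
  let Φ : Triangle.mk f g h ⟶ σ.mapTriangle.obj (Triangle.mk f g h) :=
    { hom₁ := X.φ.hom
      hom₂ := Y.φ.hom
      hom₃ := c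
      comm₁ := comm
      comm₂ := hc1
      comm₃ := hc2 }
  have hi : IsIso c := isIso₃_of_isIso₁₂ Φ hT hT' (inferInstanceAs (IsIso X.φ.hom))
    (inferInstanceAs (IsIso Y.φ.hom))
  exact ⟨@asIso C _ Z (σ.obj Z) c hi, hT, comm, hc1, hc2⟩

/-- First vertex: `complete_distinguished_triangle_morphism₁`, `isIso₁_of_isIso₂₃`. -/
theorem exists_structure₁ [σ.IsTriangulated] (X : C) (Y Z : EqObj σ) (f : X ⟶ Y.X)
    (g : Y.X ⟶ Z.X) (h : Z.X ⟶ X⟦(1 : ℤ)⟧) (hT : Triangle.mk f g h ∈ distTriang C)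
    (comm : g ≫ Z.φ.hom = Y.φ.hom ≫ σ.map g) :
    ∃ φ : X ≅ σ.obj X, EqTri σ ⟨X, φ⟩ Y Z f g h := by
  have hT' := σ.map_distinguished _ hT
  obtain ⟨c, hc1, hc2⟩ := complete_distinguished_triangle_morphism₁ _ _ hT hT' Y.φ.hom Z.φ.hom comm
  let Φ : Triangle.mk f g h ⟶ σ.mapTriangle.obj (Triangle.mk f g h) :=
    { hom₁ := c
      hom₂ := Y.φ.hom
      hom₃ := Z.φ.hom
      comm₁ := hc1
      comm₂ := comm
      comm₃ := hc2 }
  have hi : IsIso c := isIso₁_of_isIso₂₃ Φ hT hT' (inferInstanceAs (IsIso Y.φ.hom))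
    (inferInstanceAs (IsIso Z.φ.hom))
  exact ⟨@asIso C _ X (σ.obj X) c hi, hT, hc1, comm, hc2⟩

end BO
end
end

section

end

section

/-!
# TASK MutB
-/

set_option autoImplicit false

noncomputable section

open CategoryTheory CategoryTheory.Limits CategoryTheory.Pretriangulated

namespace BO

universe w v u

variable (k : Type w) [Field k] {C : Type u} [Category.{v} C] [Preadditive C] [Linear k C]
  [HasZeroObject C] [HasShift C ℤ] [∀ n : ℤ, (shiftFunctor C n).Additive]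
  [∀ n : ℤ, Functor.Linear k (shiftFunctor C n)] [Pretriangulated C]

private theorem MutB_zero {E : C} (hE : IsExceptional k E) {n m : ℤ} (h : m ≠ n)
    (f : E⟦n⟧ ⟶ E⟦m⟧) : f = 0 := by
  let e : E⟦m⟧ ≅ (E⟦m - n⟧)⟦n⟧ := (shiftFunctorAdd' C (m - n) n m (by omega)).app E
  obtain ⟨g, hg⟩ := (shiftFunctor C n).map_surjective (f ≫ e.hom)
  have hg0 : g = 0 := hE.ext_eq_zero (m - n) (sub_ne_zero.mpr h) g
  rw [hg0, Functor.map_zero] at hg
  have : f = (f ≫ e.hom) ≫ e.inv := by simp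
  rw [this, ← hg, zero_comp]

private theorem MutB_smul {E : C} (hE : IsExceptional k E) {n : ℤ}
    (f : E⟦n⟧ ⟶ E⟦n⟧) : ∃ c : k, f = c • 𝟙 (E⟦n⟧) := by
  obtain ⟨g, hg⟩ := (shiftFunctor C n).map_surjective f
  obtain ⟨c, hc, -⟩ := hE.end_eq g
  refine ⟨c, ?_⟩
  rw [← hg, hc, CategoryTheory.Functor.map_smul, CategoryTheory.Functor.map_id]

private theorem MutB_smul' {E : C} (hE : IsExceptional k E) {n m : ℤ} (h : m = n)
    (f : E⟦n⟧ ⟶ E⟦m⟧) : ∃ c : k, f = c • eqToHom (by rw [h]) := by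
  subst h
  simpa using MutB_smul k hE f

private theorem MutB_ne {E : C} (hE : IsExceptional k E) {n m : ℤ} (h : m = n) {c : k}
    (hc : c • (eqToHom (by rw [h]) : E⟦n⟧ ⟶ E⟦m⟧) = 0) : c = 0 := by
  subst h
  simp only [eqToHom_refl] at hc
  rw [← CategoryTheory.Functor.map_id, ← CategoryTheory.Functor.map_smul] at hc
  have h0 : c • 𝟙 E = 0 := (shiftFunctor C m).map_injective (by rw [hc, Functor.map_zero])
  obtain ⟨c', -, hu⟩ := hE.end_eq (0 : E ⟶ E)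
  have h1 := hu c h0.symm
  have h2 := hu 0 (by simp)
  rw [h1, h2]

/-- The evaluation map of a basis is universal.

PROOF. `Hom(E[n], ⨁ E[deg i]) = Π i, Hom(E[n],E[deg i])`; the factor is `0` for `deg i ≠ n` (exceptional, shift is fully
faithful) and `k` (multiples of `eqToHom`) for `deg i = n`; under this identification the map is the one in `B.basis n`. -/
theorem HomBasis.bijective {E F : C} (hE : IsExceptional k E) (B : HomBasis k E F) (n : ℤ) :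
    Function.Bijective fun x : E⟦n⟧ ⟶ (⨁ fun i => E⟦B.deg i⟧) => x ≫ biproduct.desc B.ev := by
  classical
  have hπ : ∀ (z : E⟦n⟧ ⟶ (⨁ fun i => E⟦B.deg i⟧)),
      z ≫ biproduct.desc B.ev = ∑ i, (z ≫ biproduct.π _ i) ≫ B.ev i := by
    intro z
    have h1 : biproduct.desc B.ev = ∑ i, biproduct.π (fun i => E⟦B.deg i⟧) i ≫ B.ev i :=
      biproduct.desc_eq
    rw [h1, Preadditive.comp_sum]
    simp only [Category.assoc]
  have hsub : ∀ g : B.ι → (E⟦n⟧ ⟶ F), (∀ i, B.deg i ≠ n → g i = 0) →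
      ∑ i, g i = ∑ i : {i // B.deg i = n}, g i.1 := by
    intro g hg
    rw [← Finset.sum_filter_of_ne (p := fun i => B.deg i = n)
      (fun i _ hi => by by_contra h; exact hi (hg i h))]
    exact Finset.sum_subtype _ (by simp) g
  constructor
  · intro x y hxy
    have hz : (x - y) ≫ biproduct.desc B.ev = 0 := by
      rw [Preadditive.sub_comp]; exact sub_eq_zero.mpr hxy
    set z := x - y with hzdef
    rw [hπ] at hz
    rw [hsub _ (fun i hi => by rw [MutB_zero k hE hi (z ≫ biproduct.π _ i), zero_comp])] at hz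
    choose c hc using fun i : {i // B.deg i = n} => MutB_smul' k hE i.2 (z ≫ biproduct.π _ i.1)
    have hc0 : c = 0 := by
      apply (B.basis n).1
      simp only [Pi.zero_apply, zero_smul, Finset.sum_const_zero]
      rw [← hz]
      refine Finset.sum_congr rfl fun i _ => ?_
      rw [hc i, Linear.smul_comp]
    have hz0 : z = 0 := by
      apply biproduct.hom_ext
      intro i
      rw [zero_comp]
      by_cases hi : B.deg i = n
      · have := hc ⟨i, hi⟩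
        rw [this, hc0]; simp
      · exact MutB_zero k hE hi _
    exact sub_eq_zero.mp hz0
  · intro y
    obtain ⟨c, hc⟩ := (B.basis n).2 y
    refine ⟨∑ i : {i // B.deg i = n}, c i • (eqToHom (by rw [i.2]) ≫
      biproduct.ι (fun i => E⟦B.deg i⟧) i.1), ?_⟩
    simp only
    rw [← hc, Preadditive.sum_comp]
    refine Finset.sum_congr rfl fun i _ => ?_
    rw [Linear.smul_comp, Category.assoc, biproduct.ι_desc]

/-- If `Hom(F,E[n]) = 0` for all `n` then the first map of the mutation triangle is universal.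

PROOF. `Hom(F,E[n]) → Hom(V,E[n]) → Hom(G,E[n]) → Hom(F,E[n+1])` is exact (`Triangle.yoneda_exact₂` for the triangle and
its rotation). -/
theorem cocover_of_triangle {E F G V : C} (a : G ⟶ V) (v : V ⟶ F) (c : F ⟶ G⟦(1 : ℤ)⟧)
    (hT : Triangle.mk a v c ∈ distTriang C) (hF : ∀ (n : ℤ) (x : F ⟶ E⟦n⟧), x = 0) (n : ℤ) :
    Function.Bijective fun x : V ⟶ E⟦n⟧ => a ≫ x := by
  constructor
  · intro x y hxy
    have h0 : a ≫ (x - y) = 0 := by
      rw [Preadditive.comp_sub]; exact sub_eq_zero.mpr hxy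
    obtain ⟨z, hz⟩ := Triangle.yoneda_exact₂ _ hT (x - y) h0
    obtain ⟨z', hz'⟩ : ∃ z' : F ⟶ E⟦n⟧, x - y = v ≫ z' := ⟨z, hz⟩
    rw [hF n z', comp_zero] at hz'
    exact sub_eq_zero.mp hz'
  · intro y
    have hw : ∀ w : F⟦(-1 : ℤ)⟧ ⟶ E⟦n⟧, w = 0 := by
      intro w
      apply (shiftFunctor C (1 : ℤ)).map_injective
      rw [Functor.map_zero]
      let e1 : (F⟦(-1 : ℤ)⟧)⟦(1 : ℤ)⟧ ≅ F :=
        (shiftFunctorCompIsoId C (-1 : ℤ) 1 (by norm_num)).app F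
      let e2 : E⟦n + 1⟧ ≅ (E⟦n⟧)⟦(1 : ℤ)⟧ := (shiftFunctorAdd' C n 1 (n + 1) rfl).app E
      have h1 := hF (n + 1) (e1.inv ≫ w⟦(1 : ℤ)⟧' ≫ e2.inv)
      have h2 : w⟦(1 : ℤ)⟧' = e1.hom ≫ (e1.inv ≫ w⟦(1 : ℤ)⟧' ≫ e2.inv) ≫ e2.hom := by simp
      rw [h2, h1, zero_comp, comp_zero]
    obtain ⟨x, hx⟩ := Triangle.yoneda_exact₂ _ (inv_rot_of_distTriang _ hT) y (hw _)
    exact ⟨x, hx.symm⟩

end BO
end
end

section

set_option autoImplicit false

noncomputable section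

open CategoryTheory CategoryTheory.Limits CategoryTheory.Pretriangulated

namespace BO

universe w v u

variable (k : Type w) [Field k] {C : Type u} [Category.{v} C] [Preadditive C] [Linear k C]
  [HasZeroObject C] [HasShift C ℤ] [∀ n : ℤ, (shiftFunctor C n).Additive]
  [∀ n : ℤ, Functor.Linear k (shiftFunctor C n)] [Pretriangulated C]
  {σ : C ⥤ C} [σ.CommShift ℤ] [σ.Additive] [σ.Linear k] [σ.Full] [σ.Faithful]

variable (σ) in
/-- The property `P_Γ`: the structures can be chosen with determinants in `Γ`. -/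
def PG {N : ℕ} (Γ : Subgroup kˣ) (s : ExcSystem k C N) : Prop :=
  ∃ φ : ∀ i, s.obj i ≅ σ.obj (s.obj i),
    ∀ i j, (chi k σ ⟨s.obj i, φ i⟩ ⟨s.obj j, φ j⟩).2.toMul ∈ Γ

end BO
end
end

section

/-!
# TASK PGi
-/

set_option autoImplicit false

noncomputable section

open CategoryTheory CategoryTheory.Limits CategoryTheory.Pretriangulated

namespace BO

universe w v u

variable (k : Type w) [Field k] {C : Type u} [Category.{v} C] [Preadditive C] [Linear k C]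
  [HasZeroObject C] [HasShift C ℤ] [∀ n : ℤ, (shiftFunctor C n).Additive]
  [∀ n : ℤ, Functor.Linear k (shiftFunctor C n)] [Pretriangulated C]
  {σ : C ⥤ C} [σ.CommShift ℤ] [σ.Additive] [σ.Linear k] [σ.Full] [σ.Faithful]

section PGi_aux

variable {k}

theorem PGi_toMul_zsmul (Γ : Subgroup kˣ) {a : Additive kˣ} (h : a.toMul ∈ Γ) (n : ℤ) :
    (n • a).toMul ∈ Γ := by
  rw [toMul_zsmul]
  exact Γ.zpow_mem h n

theorem PGi_add (Γ : Subgroup kˣ) {x y : KG k} (hx : x.2.toMul ∈ Γ) (hy : y.2.toMul ∈ Γ) :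
    (x + y).2.toMul ∈ Γ := by
  rw [Prod.snd_add, toMul_add]
  exact Γ.mul_mem hx hy

theorem PGi_neg (Γ : Subgroup kˣ) {x : KG k} (hx : x.2.toMul ∈ Γ) :
    (-x).2.toMul ∈ Γ := by
  rw [Prod.snd_neg, toMul_neg]
  exact Γ.inv_mem hx

theorem PGi_sub (Γ : Subgroup kˣ) {x y : KG k} (hx : x.2.toMul ∈ Γ) (hy : y.2.toMul ∈ Γ) :
    (x - y).2.toMul ∈ Γ := by
  rw [sub_eq_add_neg]
  exact PGi_add Γ hx (PGi_neg Γ hy)

theorem PGi_kbar (Γ : Subgroup kˣ) {x : KG k} (hx : x.2.toMul ∈ Γ) :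
    (kbar x).2.toMul ∈ Γ := by
  change (-x.2).toMul ∈ Γ
  rw [toMul_neg]
  exact Γ.inv_mem hx

theorem PGi_kmul (Γ : Subgroup kˣ) {x y : KG k} (hx : x.2.toMul ∈ Γ) (hy : y.2.toMul ∈ Γ) :
    (kmul x y).2.toMul ∈ Γ := by
  change (x.1 • y.2 + y.1 • x.2).toMul ∈ Γ
  rw [toMul_add]
  exact Γ.mul_mem (PGi_toMul_zsmul Γ hy _) (PGi_toMul_zsmul Γ hx _)

/-- Transport of a structure along an isomorphism. -/
def PGi_tr (X : EqObj σ) {Y : C} (e : X.X ≅ Y) : EqObj σ :=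
  ⟨Y, e.symm ≪≫ X.φ ≪≫ σ.mapIso e⟩

end PGi_aux

theorem PGi_chi_left (X : EqObj σ) {Y : C} (e : X.X ≅ Y) (W : EqObj σ) :
    chi k σ (PGi_tr X e) W = chi k σ X W :=
  (chi_iso_left k (X := X) (X' := PGi_tr X e) e (by simp [PGi_tr]) W).symm

theorem PGi_chi_right (X : EqObj σ) {Y : C} (e : X.X ≅ Y) (W : EqObj σ) :
    chi k σ W (PGi_tr X e) = chi k σ W X :=
  (chi_iso_right k (X := X) (X' := PGi_tr X e) e (by simp [PGi_tr]) W).symm

/-- Criterion for `PG`. -/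
theorem PGi_crit {N : ℕ} (Γ : Subgroup kˣ) (s : ExcSystem k C N) (R : Fin N → EqObj σ)
    (h : ∀ l, Nonempty ((R l).X ≅ s.obj l))
    (hR : ∀ l m, (chi k σ (R l) (R m)).2.toMul ∈ Γ) : PG k σ Γ s := by
  let e : ∀ l, (R l).X ≅ s.obj l := fun l => (h l).some
  refine ⟨fun l => (PGi_tr (R l) (e l)).φ, fun l m => ?_⟩
  change (chi k σ (PGi_tr (R l) (e l)) (PGi_tr (R m) (e m))).2.toMul ∈ Γ
  rw [PGi_chi_left, PGi_chi_right]
  exact hR l m

/-- PROOF. Notation as in `PG_mutate` (file PGm). `Hom(F,E[n]) = 0` for all `n` (`s.orth`), so `a : G ⟶ V` is universal for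
`Hom(-,E[n])` (`cocover_of_triangle`): the structure of `G` extends to `V` (`exists_structure_of_cocover`) and to `F`
(`exists_structure₃`). `chi V E = chi G E` (`chi_congr_left`) and `chi V E = kmul (kbar (chi E V)) (chi E E) = kbar (chi E V)`, so
`chi E V = kbar (chi G E)` has its determinant in `Γ`. Then `chi F Z = chi V Z - chi G Z` etc. as before, `chi F F = (1,0)`. -/
theorem PG_mutate_symm [σ.IsTriangulated] (hfin : ∀ A B : C, ExtFin k A B) {N : ℕ}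
    (Γ : Subgroup kˣ)
    (s t : ExcSystem k C N) (i j : Fin N) (hij : (j : ℕ) = i + 1)
    (h1 : IsMutation k (s.obj i) (s.obj j) (t.obj i)) (h2 : Nonempty (t.obj j ≅ s.obj i))
    (h3 : ∀ l, l ≠ i → l ≠ j → Nonempty (t.obj l ≅ s.obj l)) (h : PG k σ Γ t) : PG k σ Γ s := by
  classical
  obtain ⟨φt, hφt⟩ := h
  obtain ⟨B, a, c, hT⟩ := h1
  obtain ⟨e2⟩ := h2
  have hlt : i < j := by
    rw [Fin.lt_def]
    omega
  let T : Fin N → EqObj σ := fun l => ⟨t.obj l, φt l⟩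
  let E : EqObj σ := PGi_tr (T j) e2
  have hTT : ∀ l m, (chi k σ (T l) (T m)).2.toMul ∈ Γ := hφt
  have hEl : ∀ W, chi k σ E W = chi k σ (T j) W := fun W => PGi_chi_left k (T j) e2 W
  have hEr : ∀ W, chi k σ W E = chi k σ W (T j) := fun W => PGi_chi_right k (T j) e2 W
  have hco := cocover_of_triangle (E := s.obj i) a (biproduct.desc B.ev) c hT
    (fun n x => s.orth i j hlt n x)
  have hV : IsSumOfShifts E.X (⨁ fun l => (s.obj i)⟦B.deg l⟧) :=
    ⟨B.ι, inferInstance, B.deg, ⟨Iso.refl _⟩⟩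
  obtain ⟨φV, hφV⟩ := exists_structure_of_cocover E (T i) _ hV a hco
  let V : EqObj σ := ⟨⨁ fun l => (s.obj i)⟦B.deg l⟧, φV⟩
  obtain ⟨φF, hF⟩ := exists_structure₃ (T i) V (s.obj j) a (biproduct.desc B.ev) c hT hφV
  let Fo : EqObj σ := ⟨s.obj j, φF⟩
  have hVE : (chi k σ V E).2.toMul ∈ Γ := by
    have h4 : chi k σ V E = chi k σ (T i) E := chi_congr_left k E a hφV hco
    rw [h4, hEr]
    exact hTT i j
  have hEV : (chi k σ E V).2.toMul ∈ Γ := by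
    have h5 := chi_kron_left k E V E (s.exc i) hV hfin
    rw [chi_self k E (s.exc i)] at h5
    have h6 : (chi k σ V E).2 = -(chi k σ E V).2 := by
      rw [h5]
      change (kbar (chi k σ E V)).1 • (0 : Additive kˣ) + (1 : ℤ) • (-(chi k σ E V).2) = _
      rw [smul_zero, zero_add, one_smul]
    have h7 : (chi k σ E V).2 = -(chi k σ V E).2 := by
      rw [h6, neg_neg]
    rw [h7, toMul_neg]
    exact Γ.inv_mem hVE
  have hVW : ∀ W : EqObj σ, (chi k σ E W).2.toMul ∈ Γ → (chi k σ V W).2.toMul ∈ Γ := by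
    intro W hW
    rw [chi_kron_left k E V W (s.exc i) hV hfin]
    exact PGi_kmul Γ (PGi_kbar Γ hEV) hW
  have hWV : ∀ W : EqObj σ, (chi k σ W E).2.toMul ∈ Γ → (chi k σ W V).2.toMul ∈ Γ := by
    intro W hW
    rw [chi_kron_right k E V W (s.exc i) hV hfin]
    exact PGi_kmul Γ hW hEV
  have hFT : ∀ l, (chi k σ Fo (T l)).2.toMul ∈ Γ := by
    intro l
    have h8 := chi_add_left k hF (T l) hfin
    have h9 : chi k σ Fo (T l) = chi k σ V (T l) - chi k σ (T i) (T l) := by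
      rw [h8]
      abel
    rw [h9]
    refine PGi_sub Γ (hVW _ ?_) (hTT i l)
    rw [hEl]
    exact hTT j l
  have hTF : ∀ l, (chi k σ (T l) Fo).2.toMul ∈ Γ := by
    intro l
    have h8 := chi_add_right k hF (T l) hfin
    have h9 : chi k σ (T l) Fo = chi k σ (T l) V - chi k σ (T l) (T i) := by
      rw [h8]
      abel
    rw [h9]
    refine PGi_sub Γ (hWV _ ?_) (hTT l i)
    rw [hEr]
    exact hTT l j
  have hFF : (chi k σ Fo Fo).2.toMul ∈ Γ := by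
    rw [chi_self k Fo (s.exc j)]
    exact Γ.one_mem
  let R : Fin N → EqObj σ := fun l => if l = i then T j else if l = j then Fo else T l
  have hRi : R i = T j := if_pos rfl
  have hRj : R j = Fo := by
    change (if j = i then T j else if j = j then Fo else T j) = Fo
    rw [if_neg (ne_of_gt hlt), if_pos rfl]
  have hRl : ∀ l, l ≠ i → l ≠ j → R l = T l := by
    intro l hli hlj
    change (if l = i then T j else if l = j then Fo else T l) = T l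
    rw [if_neg hli, if_neg hlj]
  have hRor : ∀ l, R l = Fo ∨ ∃ l', R l = T l' := by
    intro l
    by_cases hli : l = i
    · exact Or.inr ⟨j, by rw [hli, hRi]⟩
    · by_cases hlj : l = j
      · exact Or.inl (by rw [hlj, hRj])
      · exact Or.inr ⟨l, hRl l hli hlj⟩
  refine PGi_crit k Γ s R ?_ ?_
  · intro l
    by_cases hli : l = i
    · rw [hli, hRi]
      exact ⟨e2⟩
    · by_cases hlj : l = j
      · rw [hlj, hRj]
        exact ⟨Iso.refl _⟩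
      · rw [hRl l hli hlj]
        exact h3 l hli hlj
  · intro l m
    rcases hRor l with h10 | ⟨l', h10⟩ <;> rcases hRor m with h11 | ⟨m', h11⟩ <;>
      rw [h10, h11]
    · exact hFF
    · exact hFT m'
    · exact hTF l'
    · exact hTT l' m'


end BO
end
end

section

/-!
# TASK PGm
-/

set_option autoImplicit false

noncomputable section

open CategoryTheory CategoryTheory.Limits CategoryTheory.Pretriangulated

namespace BO

universe w v u

variable (k : Type w) [Field k] {C : Type u} [Category.{v} C] [Preadditive C] [Linear k C]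
  [HasZeroObject C] [HasShift C ℤ] [∀ n : ℤ, (shiftFunctor C n).Additive]
  [∀ n : ℤ, Functor.Linear k (shiftFunctor C n)] [Pretriangulated C]
  {σ : C ⥤ C} [σ.CommShift ℤ] [σ.Additive] [σ.Linear k] [σ.Full] [σ.Faithful]

omit [Linear k C] [HasZeroObject C] [∀ n : ℤ, Functor.Linear k (shiftFunctor C n)]
  [Pretriangulated C] in
private theorem PGm_bij {E V F : C} (v : V ⟶ F)
    (hb : ∀ n : ℤ, Function.Bijective fun x : E⟦n⟧ ⟶ V => x ≫ v) (n : ℤ) :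
    Function.Bijective fun x : E ⟶ V⟦n⟧ => x ≫ v⟦n⟧' := by
  have hnat : ∀ x : E ⟶ V⟦n⟧, (x ≫ v⟦n⟧')⟦-n⟧' ≫ (shiftShiftNeg F n).hom =
      (x⟦-n⟧' ≫ (shiftShiftNeg V n).hom) ≫ v := by
    intro x
    rw [Functor.map_comp, Category.assoc, Category.assoc]
    congr 1
    exact (shiftFunctorCompIsoId C n (-n) (add_neg_cancel n)).hom.naturality v
  constructor
  · intro x y hxy
    have h1 : (x ≫ v⟦n⟧')⟦-n⟧' ≫ (shiftShiftNeg F n).hom =
        (y ≫ v⟦n⟧')⟦-n⟧' ≫ (shiftShiftNeg F n).hom := by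
      have h2 : x ≫ v⟦n⟧' = y ≫ v⟦n⟧' := hxy
      rw [h2]
    rw [hnat, hnat] at h1
    have h2 := (hb (-n)).1 h1
    have h3 := (cancel_mono _).mp h2
    exact (shiftFunctor C (-n)).map_injective h3
  · intro y
    obtain ⟨z, hz⟩ := (hb (-n)).2 (y⟦-n⟧' ≫ (shiftShiftNeg F n).hom)
    obtain ⟨x, hx⟩ := (shiftFunctor C (-n)).map_surjective (z ≫ (shiftShiftNeg V n).inv)
    refine ⟨x, ?_⟩
    apply (shiftFunctor C (-n)).map_injective
    rw [← cancel_mono (shiftShiftNeg F n).hom]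
    have h1 : (x ≫ v⟦n⟧')⟦-n⟧' ≫ (shiftShiftNeg F n).hom =
        y⟦-n⟧' ≫ (shiftShiftNeg F n).hom := by
      rw [hnat, hx, Category.assoc, Category.assoc, Iso.inv_hom_id_assoc]
      exact hz
    exact h1

omit k in
private theorem PGm_sub {k : Type w} [Field k] (Γ : Subgroup kˣ) {x y : KG k}
    (hx : x.2.toMul ∈ Γ) (hy : y.2.toMul ∈ Γ) : (x - y).2.toMul ∈ Γ :=
  Γ.div_mem hx hy

omit k in
private theorem PGm_kbar {k : Type w} [Field k] (Γ : Subgroup kˣ) {x : KG k}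
    (hx : x.2.toMul ∈ Γ) : (kbar x).2.toMul ∈ Γ :=
  Γ.inv_mem hx

omit k in
private theorem PGm_kmul {k : Type w} [Field k] (Γ : Subgroup kˣ) {x y : KG k}
    (hx : x.2.toMul ∈ Γ) (hy : y.2.toMul ∈ Γ) : (kmul x y).2.toMul ∈ Γ :=
  Γ.mul_mem (Γ.zpow_mem hy x.1) (Γ.zpow_mem hx y.1)

/-- PROOF. Write `E, F, G` for `s.obj i, s.obj j, t.obj i`, `V = ⨁ E[deg]`, `v = biproduct.desc ev`. `v` is universal
(`HomBasis.bijective`), so `F.φ` lifts to `V` (`exists_structure_of_cover`) and then to `G` (`exists_structure₁`). `t.obj j ≅ E`,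
the other members are isomorphic to those of `s` (`chi_iso_left/right`). For every `Z`:
`chi V Z = chi G Z + chi F Z`, `chi Z V = chi Z G + chi Z F`, `chi V Z = kmul (kbar (chi E V)) (chi E Z)`,
`chi Z V = kmul (chi Z E) (chi E V)`, `chi E V = chi E F` (`chi_congr_right`). So all determinants between `G` and the other
members are in `Γ`; `chi G G = (1,0)` because `G` is exceptional (`t.exc i`, `chi_self`). `hfin` gives `ExtFin`. -/
theorem PG_mutate [σ.IsTriangulated] (hfin : ∀ A B : C, ExtFin k A B) {N : ℕ} (Γ : Subgroup kˣ)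
    (s t : ExcSystem k C N) (i j : Fin N) (hij : (j : ℕ) = i + 1)
    (h1 : IsMutation k (s.obj i) (s.obj j) (t.obj i)) (h2 : Nonempty (t.obj j ≅ s.obj i))
    (h3 : ∀ l, l ≠ i → l ≠ j → Nonempty (t.obj l ≅ s.obj l)) (h : PG k σ Γ s) : PG k σ Γ t := by
  obtain ⟨φ, hφ⟩ := h
  obtain ⟨B, a, c, hT⟩ := h1
  have hcov := B.bijective k (s.exc i)
  have hV : IsSumOfShifts (s.obj i) (⨁ fun l => (s.obj i)⟦B.deg l⟧) :=
    ⟨B.ι, inferInstance, B.deg, ⟨Iso.refl _⟩⟩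
  obtain ⟨ψ, hψ⟩ := exists_structure_of_cover (σ := σ) ⟨s.obj i, φ i⟩ ⟨s.obj j, φ j⟩
    (⨁ fun l => (s.obj i)⟦B.deg l⟧) hV (biproduct.desc B.ev) hcov
  obtain ⟨γ, T⟩ := exists_structure₁ (σ := σ) (t.obj i) ⟨_, ψ⟩ ⟨s.obj j, φ j⟩ a
    (biproduct.desc B.ev) c hT hψ
  have hEV : chi k σ ⟨s.obj i, φ i⟩ ⟨_, ψ⟩ = chi k σ ⟨s.obj i, φ i⟩ ⟨s.obj j, φ j⟩ :=
    chi_congr_right k (σ := σ) (X := ⟨_, ψ⟩) (Y := ⟨s.obj j, φ j⟩) ⟨s.obj i, φ i⟩
      (biproduct.desc B.ev) hψ (PGm_bij (biproduct.desc B.ev) hcov)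
  have hEVG : (chi k σ ⟨s.obj i, φ i⟩ ⟨_, ψ⟩).2.toMul ∈ Γ := by
    rw [hEV]
    exact hφ i j
  have hl : ∀ W : EqObj σ, (chi k σ ⟨s.obj i, φ i⟩ W).2.toMul ∈ Γ →
      (chi k σ ⟨s.obj j, φ j⟩ W).2.toMul ∈ Γ → (chi k σ ⟨t.obj i, γ⟩ W).2.toMul ∈ Γ := by
    intro W hE hF
    have e1 := chi_add_left k T W hfin
    have e2 := chi_kron_left k ⟨s.obj i, φ i⟩ ⟨_, ψ⟩ W (s.exc i) hV hfin
    rw [e2] at e1
    have e3 := eq_sub_of_add_eq e1.symm
    rw [e3]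
    exact PGm_sub Γ (PGm_kmul Γ (PGm_kbar Γ hEVG) hE) hF
  have hr : ∀ W : EqObj σ, (chi k σ W ⟨s.obj i, φ i⟩).2.toMul ∈ Γ →
      (chi k σ W ⟨s.obj j, φ j⟩).2.toMul ∈ Γ → (chi k σ W ⟨t.obj i, γ⟩).2.toMul ∈ Γ := by
    intro W hE hF
    have e1 := chi_add_right k T W hfin
    have e2 := chi_kron_right k ⟨s.obj i, φ i⟩ ⟨_, ψ⟩ W (s.exc i) hV hfin
    rw [e2] at e1
    have e3 := eq_sub_of_add_eq e1.symm
    rw [e3]
    exact PGm_sub Γ (PGm_kmul Γ hE hEVG) hF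
  have hself : (chi k σ ⟨t.obj i, γ⟩ ⟨t.obj i, γ⟩).2.toMul ∈ Γ := by
    rw [chi_self k ⟨t.obj i, γ⟩ (t.exc i)]
    exact one_mem Γ
  have hA : ∀ P Q : EqObj σ, (P = ⟨t.obj i, γ⟩ ∨ ∃ b, P = ⟨s.obj b, φ b⟩) →
      (Q = ⟨t.obj i, γ⟩ ∨ ∃ b, Q = ⟨s.obj b, φ b⟩) → (chi k σ P Q).2.toMul ∈ Γ := by
    rintro P Q (rfl | ⟨b, rfl⟩) (rfl | ⟨b', rfl⟩)
    · exact hself
    · exact hl _ (hφ i b') (hφ j b')
    · exact hr _ (hφ b i) (hφ b j)
    · exact hφ b b'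
  have hB : ∀ l, ∃ (ω : t.obj l ≅ σ.obj (t.obj l)) (P : EqObj σ),
      (P = ⟨t.obj i, γ⟩ ∨ ∃ b, P = ⟨s.obj b, φ b⟩) ∧
      (∀ W, chi k σ ⟨t.obj l, ω⟩ W = chi k σ P W) ∧
      (∀ W, chi k σ W ⟨t.obj l, ω⟩ = chi k σ W P) := by
    intro l
    by_cases hli : l = i
    · subst hli
      exact ⟨γ, _, Or.inl rfl, fun W => rfl, fun W => rfl⟩
    · obtain ⟨b, ⟨e⟩⟩ : ∃ b, Nonempty (t.obj l ≅ s.obj b) := by
        by_cases hlj : l = j
        · subst hlj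
          exact ⟨i, h2⟩
        · exact ⟨l, h3 l hli hlj⟩
      have he : e.hom ≫ (φ b).hom =
          (e ≪≫ φ b ≪≫ (σ.mapIso e).symm).hom ≫ σ.map e.hom := by
        simp [← Functor.map_comp]
      exact ⟨e ≪≫ φ b ≪≫ (σ.mapIso e).symm, ⟨s.obj b, φ b⟩, Or.inr ⟨b, rfl⟩,
        fun W => chi_iso_left k (X := ⟨t.obj l, _⟩) (X' := ⟨s.obj b, φ b⟩) e he W,
        fun W => chi_iso_right k (X := ⟨t.obj l, _⟩) (X' := ⟨s.obj b, φ b⟩) e he W⟩
  choose ω P hP hPl hPr using hB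
  refine ⟨ω, fun l m => ?_⟩
  rw [hPl, hPr]
  exact hA _ _ (hP l) (hP m)

end BO
end
end

section

/-!
# TASK PGs
-/

set_option autoImplicit false

noncomputable section

open CategoryTheory CategoryTheory.Limits CategoryTheory.Pretriangulated

namespace BO

universe w v u

variable (k : Type w) [Field k] {C : Type u} [Category.{v} C] [Preadditive C] [Linear k C]
  [HasZeroObject C] [HasShift C ℤ] [∀ n : ℤ, (shiftFunctor C n).Additive]
  [∀ n : ℤ, Functor.Linear k (shiftFunctor C n)] [Pretriangulated C]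
  {σ : C ⥤ C} [σ.CommShift ℤ] [σ.Additive] [σ.Linear k] [σ.Full] [σ.Faithful]

omit [σ.CommShift ℤ] [σ.Additive] [σ.Linear k] [σ.Full] [σ.Faithful] [Linear k C]
  [∀ n : ℤ, Functor.Linear k (shiftFunctor C n)] [HasZeroObject C] [Pretriangulated C] [HasShift C ℤ]
  [∀ n : ℤ, (shiftFunctor C n).Additive] in
private theorem PGs_smul (Γ : Subgroup kˣ) (u : ℤˣ) (x : KG k) (h : x.2.toMul ∈ Γ) :
    (u • x).2.toMul ∈ Γ := by
  rcases Int.units_eq_one_or u with rfl | rfl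
  · rwa [one_smul]
  · rw [Units.neg_smul, one_smul]
    exact Γ.inv_mem h

omit [σ.CommShift ℤ] [σ.Additive] [σ.Full] [σ.Faithful] [Preadditive C]
  [HasZeroObject C] [Pretriangulated C] [HasShift C ℤ] [∀ n : ℤ, (shiftFunctor C n).Additive] in
private theorem PGs_cancel {X Y Y' : C} (f : X ⟶ σ.obj Y) (e : Y' ≅ Y) :
    f = f ≫ σ.map e.inv ≫ σ.map e.hom := by
  rw [← σ.map_comp, Iso.inv_hom_id, σ.map_id, Category.comp_id]

private theorem PGs_aux {N : ℕ} (Γ : Subgroup kˣ) (s t : ExcSystem k C N) (n : Fin N → ℤ)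
    (e : ∀ i, t.obj i ≅ (s.obj i)⟦n i⟧) (h : PG k σ Γ s) : PG k σ Γ t := by
  obtain ⟨φ, hφ⟩ := h
  refine ⟨fun i => e i ≪≫ ((⟨s.obj i, φ i⟩ : EqObj σ).shift (n i)).φ ≪≫ (σ.mapIso (e i)).symm,
    fun i j => ?_⟩
  have he : ∀ l, (e l).hom ≫ ((⟨s.obj l, φ l⟩ : EqObj σ).shift (n l)).φ.hom =
      (e l ≪≫ ((⟨s.obj l, φ l⟩ : EqObj σ).shift (n l)).φ ≪≫ (σ.mapIso (e l)).symm).hom ≫
        σ.map (e l).hom := by
    intro l
    rw [Iso.trans_hom, Iso.trans_hom, Iso.symm_hom, Functor.mapIso_inv, Category.assoc,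
      Category.assoc]
    exact congrArg (fun f => (e l).hom ≫ f)
      (PGs_cancel ((⟨s.obj l, φ l⟩ : EqObj σ).shift (n l)).φ.hom (e l))
  rw [chi_iso_left k (X' := (⟨s.obj i, φ i⟩ : EqObj σ).shift (n i)) (e i) (he i),
    chi_iso_right k (X' := (⟨s.obj j, φ j⟩ : EqObj σ).shift (n j)) (e j) (he j),
    chi_shift_left, chi_shift_right]
  exact PGs_smul k Γ _ _ (PGs_smul k Γ _ _ (hφ i j))

/-- PROOF. Transport `(EqObj.shift)` along the isomorphisms: `chi_iso_left/right`, `chi_shift_left/right`; the determinant is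
replaced by itself or its inverse. Conversely `s.obj i ≅ (t.obj i)⟦-n i⟧`. -/
theorem PG_shift [σ.IsTriangulated] {N : ℕ} (Γ : Subgroup kˣ) (s t : ExcSystem k C N) (n : Fin N → ℤ)
    (h : ∀ i, Nonempty (t.obj i ≅ (s.obj i)⟦n i⟧)) : PG k σ Γ s ↔ PG k σ Γ t := by
  refine ⟨PGs_aux k Γ s t n fun i => (h i).some, PGs_aux k Γ t s (fun i => -n i) fun i => ?_⟩
  exact ((shiftFunctorCompIsoId C (n i) (-n i) (by omega)).app (s.obj i)).symm ≪≫
    (shiftFunctor C (-n i)).mapIso (h i).some.symm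

end BO
end
end

section

/-!
# TASK CvC
-/

set_option autoImplicit false

noncomputable section

open CategoryTheory CategoryTheory.Limits CategoryTheory.Pretriangulated

namespace BO

universe w v u

variable (k : Type w) [Field k] {C : Type u} [Category.{v} C] [Preadditive C] [Linear k C]
  [HasZeroObject C] [HasShift C ℤ] [∀ n : ℤ, (shiftFunctor C n).Additive]
  [∀ n : ℤ, Functor.Linear k (shiftFunctor C n)] [Pretriangulated C]
  {σ : C ⥤ C} [σ.CommShift ℤ] [σ.Additive] [σ.Linear k] [σ.Full] [σ.Faithful]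

omit [HasZeroObject C] [Pretriangulated C] in
private lemma CvC_lemA {X Y : C} {m : ℤ} (h : ∀ x : X ⟶ Y⟦-m⟧, x = 0) (g : X⟦m⟧ ⟶ Y) :
    g = 0 := by
  have h1 := h ((shiftFunctorCompIsoId C m (-m) (by ring)).inv.app X ≫ g⟦-m⟧')
  have h2 : g⟦-m⟧' = 0 := by
    rw [← cancel_epi ((shiftFunctorCompIsoId C m (-m) (by ring)).inv.app X), h1, comp_zero]
  apply (shiftFunctor C (-m)).map_injective
  rw [h2, Functor.map_zero]

omit [HasZeroObject C] [Pretriangulated C] in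
private lemma CvC_lemB {X Y : C} (h : ∀ x : X ⟶ Y⟦(-1 : ℤ)⟧, x = 0)
    (g : X⟦(2 : ℤ)⟧ ⟶ Y⟦(1 : ℤ)⟧) : g = 0 := by
  obtain ⟨g0, hg0⟩ := (shiftFunctor C (1 : ℤ)).map_surjective
    ((shiftFunctorAdd' C (1 : ℤ) 1 2 (by norm_num)).inv.app X ≫ g)
  have h1 : g0 = 0 := CvC_lemA h g0
  rw [h1, Functor.map_zero] at hg0
  rw [← cancel_epi ((shiftFunctorAdd' C (1 : ℤ) 1 2 (by norm_num)).inv.app X), ← hg0, comp_zero]

private lemma CvC_key {X0 X1 X2 X3 : C} {d0 : X0 ⟶ X1} {d1 : X1 ⟶ X2} {d2 : X2 ⟶ X3}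
    (K : Conv d0 d1 d2)
    (v02 : ∀ n : ℤ, n < 0 → ∀ x : X0 ⟶ X2⟦n⟧, x = 0)
    (v03 : ∀ n : ℤ, n < 0 → ∀ x : X0 ⟶ X3⟦n⟧, x = 0)
    (x : X0 ⟶ K.A⟦(-2 : ℤ)⟧) (hx : x ≫ (K.r ≫ K.j⟦(1 : ℤ)⟧')⟦(-2 : ℤ)⟧' = 0) : x = 0 := by
  set c := shiftFunctorCompIsoId C (-2 : ℤ) 2 (by norm_num) with hc
  have hnat : ∀ {B : C} (f : K.A ⟶ B), (x ≫ f⟦(-2 : ℤ)⟧')⟦(2 : ℤ)⟧' ≫ c.hom.app B =
      (x⟦(2 : ℤ)⟧' ≫ c.hom.app K.A) ≫ f := by
    intro B f
    rw [Functor.map_comp, Category.assoc, Category.assoc]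
    congr 1
    exact c.hom.naturality f
  have h1 : (x⟦(2 : ℤ)⟧' ≫ c.hom.app K.A) ≫ (K.r ≫ K.j⟦(1 : ℤ)⟧') = 0 := by
    rw [← hnat, hx, Functor.map_zero, zero_comp]
  have h2 : (x⟦(2 : ℤ)⟧' ≫ c.hom.app K.A) ≫ K.r = 0 := by
    obtain ⟨g, hg⟩ := Triangle.coyoneda_exact₁ _
      (rot_of_distTriang _ (rot_of_distTriang _ K.tri1))
      ((x⟦(2 : ℤ)⟧' ≫ c.hom.app K.A) ≫ K.r) (by
        change ((x⟦(2 : ℤ)⟧' ≫ c.hom.app K.A) ≫ K.r) ≫ K.j⟦(1 : ℤ)⟧' = 0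
        rw [Category.assoc]
        exact h1)
    have hg0 : g = 0 := CvC_lemB (v02 (-1) (by norm_num)) g
    exact hg.trans (by rw [hg0]; exact zero_comp)
  obtain ⟨g, hg⟩ := Triangle.coyoneda_exact₃ _ K.tri2 (x⟦(2 : ℤ)⟧' ≫ c.hom.app K.A) h2
  have hg0 : g = 0 := CvC_lemA (v03 (-2) (by norm_num)) g
  rw [hg0, zero_comp] at hg
  have h3 : x⟦(2 : ℤ)⟧' = 0 := (cancel_mono (c.hom.app K.A)).mp (hg.trans zero_comp.symm)
  apply (shiftFunctor C (2 : ℤ)).map_injective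
  rw [h3, Functor.map_zero]

/-- The map `t : A ⟶ X1[2]` is equivariant. -/
private lemma CvC_t {X1 N A : EqObj σ} (j : N.X ⟶ X1.X⟦(1 : ℤ)⟧) (r : A.X ⟶ N.X⟦(1 : ℤ)⟧)
    (hj : j ≫ X1.φ.hom⟦(1 : ℤ)⟧' = N.φ.hom ≫ σ.map j ≫ (σ.commShiftIso (1 : ℤ)).hom.app X1.X)
    (hr : r ≫ N.φ.hom⟦(1 : ℤ)⟧' = A.φ.hom ≫ σ.map r ≫ (σ.commShiftIso (1 : ℤ)).hom.app N.X) :
    (r ≫ j⟦(1 : ℤ)⟧' ≫ (shiftFunctorAdd' C (1 : ℤ) 1 2 (by norm_num)).inv.app X1.X) ≫
      X1.φ.hom⟦(2 : ℤ)⟧' =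
    A.φ.hom ≫ σ.map (r ≫ j⟦(1 : ℤ)⟧' ≫
      (shiftFunctorAdd' C (1 : ℤ) 1 2 (by norm_num)).inv.app X1.X) ≫
      (σ.commShiftIso (2 : ℤ)).hom.app X1.X := by
  have hn := (shiftFunctorAdd' C (1 : ℤ) 1 2 (by norm_num)).inv.naturality X1.φ.hom
  have hn' : (shiftFunctorAdd' C (1 : ℤ) 1 2 (by norm_num)).inv.app X1.X ≫ X1.φ.hom⟦(2 : ℤ)⟧' =
      (X1.φ.hom⟦(1 : ℤ)⟧')⟦(1 : ℤ)⟧' ≫
      (shiftFunctorAdd' C (1 : ℤ) 1 2 (by norm_num)).inv.app (σ.obj X1.X) := hn.symm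
  have h2 := NatTrans.congr_app (congr_arg Iso.hom
    (σ.commShiftIso_add' (show (1 : ℤ) + 1 = 2 by norm_num))) X1.X
  rw [Functor.CommShift.isoAdd'_hom_app] at h2
  have hj2 : j⟦(1 : ℤ)⟧' ≫ (X1.φ.hom⟦(1 : ℤ)⟧')⟦(1 : ℤ)⟧' =
      (N.φ.hom ≫ σ.map j ≫ (σ.commShiftIso (1 : ℤ)).hom.app X1.X)⟦(1 : ℤ)⟧' := by
    rw [← Functor.map_comp, hj]
  have hs : (σ.commShiftIso (1 : ℤ)).hom.app N.X ≫ (σ.map j)⟦(1 : ℤ)⟧' =
      σ.map (j⟦(1 : ℤ)⟧') ≫ (σ.commShiftIso (1 : ℤ)).hom.app (X1.X⟦(1 : ℤ)⟧) :=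
    ((σ.commShiftIso (1 : ℤ)).hom.naturality j).symm
  calc (r ≫ j⟦(1 : ℤ)⟧' ≫ (shiftFunctorAdd' C (1 : ℤ) 1 2 (by norm_num)).inv.app X1.X) ≫
      X1.φ.hom⟦(2 : ℤ)⟧'
      = r ≫ (j⟦(1 : ℤ)⟧' ≫ (X1.φ.hom⟦(1 : ℤ)⟧')⟦(1 : ℤ)⟧') ≫
        (shiftFunctorAdd' C (1 : ℤ) 1 2 (by norm_num)).inv.app (σ.obj X1.X) := by
        rw [Category.assoc, Category.assoc, hn', Category.assoc]
    _ = (r ≫ N.φ.hom⟦(1 : ℤ)⟧') ≫ (σ.map j)⟦(1 : ℤ)⟧' ≫
        ((σ.commShiftIso (1 : ℤ)).hom.app X1.X)⟦(1 : ℤ)⟧' ≫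
        (shiftFunctorAdd' C (1 : ℤ) 1 2 (by norm_num)).inv.app (σ.obj X1.X) := by
        rw [hj2, Functor.map_comp, Functor.map_comp]
        simp only [Category.assoc]
    _ = A.φ.hom ≫ σ.map r ≫ ((σ.commShiftIso (1 : ℤ)).hom.app N.X ≫ (σ.map j)⟦(1 : ℤ)⟧') ≫
        ((σ.commShiftIso (1 : ℤ)).hom.app X1.X)⟦(1 : ℤ)⟧' ≫
        (shiftFunctorAdd' C (1 : ℤ) 1 2 (by norm_num)).inv.app (σ.obj X1.X) := by
        rw [hr]
        simp only [Category.assoc]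
    _ = _ := by
        rw [hs, h2]
        simp only [Functor.map_comp, Category.assoc]
        congr 3
        rw [← Functor.map_comp_assoc, Iso.inv_hom_id_app]
        erw [CategoryTheory.Functor.map_id, Category.id_comp]

omit [Preadditive C] [HasZeroObject C] [∀ (n : ℤ), (shiftFunctor C n).Additive] [Pretriangulated C]
  [σ.Additive] [σ.Full] [σ.Faithful] in
/-- A morphism `A ⟶ X[2]` which is equivariant gives an equivariant morphism `A[-2] ⟶ X`. -/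
private lemma CvC_q {X A : EqObj σ} (t : A.X ⟶ X.X⟦(2 : ℤ)⟧)
    (ht : t ≫ X.φ.hom⟦(2 : ℤ)⟧' = A.φ.hom ≫ σ.map t ≫ (σ.commShiftIso (2 : ℤ)).hom.app X.X) :
    (t⟦(-2 : ℤ)⟧' ≫ (shiftFunctorCompIsoId C (2 : ℤ) (-2) (by norm_num)).hom.app X.X) ≫
      X.φ.hom =
    (A.shift (-2)).φ.hom ≫ σ.map (t⟦(-2 : ℤ)⟧' ≫
      (shiftFunctorCompIsoId C (2 : ℤ) (-2) (by norm_num)).hom.app X.X) := by
  have e1 : (A.shift (-2)).φ.hom = A.φ.hom⟦(-2 : ℤ)⟧' ≫
    (σ.commShiftIso (-2 : ℤ)).inv.app A.X := rfl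
  have e2 : (shiftFunctorCompIsoId C (2 : ℤ) (-2) (by norm_num)).hom.app X.X ≫ X.φ.hom =
      (X.φ.hom⟦(2 : ℤ)⟧')⟦(-2 : ℤ)⟧' ≫
      (shiftFunctorCompIsoId C (2 : ℤ) (-2) (by norm_num)).hom.app (σ.obj X.X) :=
    ((shiftFunctorCompIsoId C (2 : ℤ) (-2) (by norm_num)).hom.naturality X.φ.hom).symm
  have e3 : (σ.commShiftIso (-2 : ℤ)).inv.app A.X ≫ σ.map (t⟦(-2 : ℤ)⟧') =
      (σ.map t)⟦(-2 : ℤ)⟧' ≫ (σ.commShiftIso (-2 : ℤ)).inv.app (X.X⟦(2 : ℤ)⟧) :=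
    ((σ.commShiftIso (-2 : ℤ)).inv.naturality t).symm
  have e4 := σ.map_shiftFunctorCompIsoId_hom_app X.X (2 : ℤ) (-2) (by norm_num)
  calc (t⟦(-2 : ℤ)⟧' ≫ (shiftFunctorCompIsoId C (2 : ℤ) (-2) (by norm_num)).hom.app X.X) ≫
      X.φ.hom = (t ≫ X.φ.hom⟦(2 : ℤ)⟧')⟦(-2 : ℤ)⟧' ≫
      (shiftFunctorCompIsoId C (2 : ℤ) (-2) (by norm_num)).hom.app (σ.obj X.X) := by
        rw [Category.assoc, e2, Functor.map_comp, Category.assoc]
    _ = A.φ.hom⟦(-2 : ℤ)⟧' ≫ (σ.map t)⟦(-2 : ℤ)⟧' ≫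
        ((σ.commShiftIso (2 : ℤ)).hom.app X.X)⟦(-2 : ℤ)⟧' ≫
        (shiftFunctorCompIsoId C (2 : ℤ) (-2) (by norm_num)).hom.app (σ.obj X.X) := by
        rw [ht, Functor.map_comp, Functor.map_comp]
        simp only [Category.assoc]
    _ = A.φ.hom⟦(-2 : ℤ)⟧' ≫ ((σ.map t)⟦(-2 : ℤ)⟧' ≫
        (σ.commShiftIso (-2 : ℤ)).inv.app (X.X⟦(2 : ℤ)⟧)) ≫
        (σ.commShiftIso (-2 : ℤ)).hom.app (X.X⟦(2 : ℤ)⟧) ≫
        ((σ.commShiftIso (2 : ℤ)).hom.app X.X)⟦(-2 : ℤ)⟧' ≫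
        (shiftFunctorCompIsoId C (2 : ℤ) (-2) (by norm_num)).hom.app (σ.obj X.X) := by
        simp only [Category.assoc, Iso.inv_hom_id_app_assoc]
    _ = _ := by
        rw [e1, Functor.map_comp, e4, ← e3, Category.assoc]
        exact (Category.assoc _ _ _).symm

/-- Euler form of the convolution of an equivariant complex.

PROOF. `exists_structure₃` for `tri1`: structure on `N`, `i` and `j` equivariant. `n` is equivariant: `n ≫ X3.φ - N.φ ≫ σ n` vanishes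
after composition with `i` (`hn`, `c2`), so it factors through `j : N → X1[1]`; `Hom(X1[1], σ X3) ≅ Hom(X1,X3[-1]) = 0` (`v13`).
`exists_structure₃` for `tri2`: structure on `A`, `e`, `r` equivariant. `p` is equivariant (for `⟨A, _⟩.shift (-2)`): the difference
`δ : X0 → σ(A[-2])` composed with the maps to `N[-1]` and `X1` is zero (`hp`, `c0`, equivariance of `r`, `j`); so `δ` to `N[-1]` comes from
`Hom(X0,X2[-1]) = 0` (`v02`), it is zero, and `δ` comes from `Hom(X0,X3[-2]) = 0` (`v03`); so `δ = 0`. `exists_structure₁` for the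
triangle `tri3`: structure on `S`. Then `chi_add_right/left` three times and `chi_shift_right/left` (even shift `-2`). -/
theorem Conv.chi [σ.IsTriangulated] (hfin : ∀ A B : C, ExtFin k A B) (X0 X1 X2 X3 : EqObj σ)
    {d0 : X0.X ⟶ X1.X} {d1 : X1.X ⟶ X2.X} {d2 : X2.X ⟶ X3.X} (K : Conv d0 d1 d2)
    (c0 : d0 ≫ X1.φ.hom = X0.φ.hom ≫ σ.map d0) (c1 : d1 ≫ X2.φ.hom = X1.φ.hom ≫ σ.map d1)
    (c2 : d2 ≫ X3.φ.hom = X2.φ.hom ≫ σ.map d2)
    (v02 : ∀ n : ℤ, n < 0 → ∀ x : X0.X ⟶ X2.X⟦n⟧, x = 0)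
    (v03 : ∀ n : ℤ, n < 0 → ∀ x : X0.X ⟶ X3.X⟦n⟧, x = 0)
    (v13 : ∀ n : ℤ, n < 0 → ∀ x : X1.X ⟶ X3.X⟦n⟧, x = 0) :
    ∃ φ : K.S ≅ σ.obj K.S,
      (∀ Z : EqObj σ, BO.chi k σ Z ⟨K.S, φ⟩ =
        BO.chi k σ Z X0 - BO.chi k σ Z X1 + BO.chi k σ Z X2 - BO.chi k σ Z X3) ∧
      (∀ Z : EqObj σ, BO.chi k σ ⟨K.S, φ⟩ Z =
        BO.chi k σ X0 Z - BO.chi k σ X1 Z + BO.chi k σ X2 Z - BO.chi k σ X3 Z) := by
  obtain ⟨φN, T1⟩ := exists_structure₃ X1 X2 K.N d1 K.i K.j K.tri1 c1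
  have hnq : K.n ≫ X3.φ.hom = φN.hom ≫ σ.map K.n := by
    rw [← sub_eq_zero]
    have h1 : K.i ≫ (K.n ≫ X3.φ.hom - φN.hom ≫ σ.map K.n) = 0 := by
      have h2 : K.i ≫ φN.hom = X2.φ.hom ≫ σ.map K.i := T1.comm₂
      rw [Preadditive.comp_sub, ← Category.assoc, K.hn, ← Category.assoc, h2, Category.assoc,
        ← Functor.map_comp, K.hn, c2, sub_self]
    obtain ⟨g, hg⟩ := Triangle.yoneda_exact₃ _ K.tri1 _ h1
    have hg0 : g ≫ X3.φ.inv = 0 := CvC_lemA (m := 1) (v13 (-1) (by norm_num)) _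
    have hg1 : g = 0 := by
      rw [← cancel_mono X3.φ.inv, hg0, zero_comp]
    rw [hg, hg1]
    exact comp_zero
  obtain ⟨φA, T2⟩ := exists_structure₃ ⟨K.N, φN⟩ X3 K.A K.n K.e K.r K.tri2 hnq
  set AA : EqObj σ := ⟨K.A, φA⟩ with hAA
  have ht := CvC_t (X1 := X1) (N := ⟨K.N, φN⟩) (A := AA) K.j K.r T1.comm₃ T2.comm₃
  have hq := CvC_q _ ht
  obtain ⟨sh, hsh⟩ : ∃ sh : K.A⟦(-2 : ℤ)⟧ ≅ σ.obj (K.A⟦(-2 : ℤ)⟧), sh = (AA.shift (-2)).φ :=
    ⟨_, rfl⟩
  set q : K.A⟦(-2 : ℤ)⟧ ⟶ X1.X := (K.r ≫ K.j⟦(1 : ℤ)⟧' ≫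
    (shiftFunctorAdd' C (1 : ℤ) 1 2 (by norm_num)).inv.app X1.X)⟦(-2 : ℤ)⟧' ≫
      (shiftFunctorCompIsoId C (2 : ℤ) (-2) (by norm_num)).hom.app X1.X with hqdef
  have hpq : ∃ ε : ℤˣ, K.p ≫ q = ε • d0 := by
    have h1 : K.p ≫ q = K.p ≫ K.r⟦(-2 : ℤ)⟧' ≫ (K.j⟦(1 : ℤ)⟧')⟦(-2 : ℤ)⟧' ≫
      ((shiftFunctorAdd' C (1 : ℤ) 1 2 (by norm_num)).inv.app X1.X)⟦(-2 : ℤ)⟧' ≫
      (shiftFunctorCompIsoId C (2 : ℤ) (-2) (by norm_num)).hom.app X1.X := by
      rw [hqdef, Functor.map_comp, Functor.map_comp]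
      simp only [Category.assoc]
    rcases K.hp with h | h
    · exact ⟨1, by rw [h1, h, one_smul]⟩
    · exact ⟨-1, by rw [h1, h, Units.neg_smul, one_smul]⟩
  obtain ⟨ε, hε⟩ := hpq
  have hq' : q ≫ X1.φ.hom = sh.hom ≫ σ.map q := by
    rw [hsh]
    exact hq
  have hp : K.p ≫ sh.hom = X0.φ.hom ≫ σ.map K.p := by
    have h1 : K.p - X0.φ.hom ≫ σ.map K.p ≫ sh.inv = 0 := by
      apply CvC_key K v02 v03
      have h2 : (K.p - X0.φ.hom ≫ σ.map K.p ≫ sh.inv) ≫ q = 0 := by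
        have h3 : sh.inv ≫ q = σ.map q ≫ X1.φ.inv := by
          rw [Iso.inv_comp_eq, ← Category.assoc, Iso.eq_comp_inv]
          exact hq'
        have h4 : σ.map K.p ≫ σ.map q = ε • σ.map d0 := by
          rw [← Functor.map_comp, hε]
          simp [Units.smul_def]
        rw [Preadditive.sub_comp, Category.assoc, Category.assoc, h3, ← Category.assoc (σ.map K.p),
          h4, hε, sub_eq_zero]
        have h5 : X0.φ.hom ≫ (ε • σ.map d0) ≫ X1.φ.inv =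
            ε • ((X0.φ.hom ≫ σ.map d0) ≫ X1.φ.inv) := by
          simp [Units.smul_def]
        rw [h5, ← c0, Category.assoc, Iso.hom_inv_id, Category.comp_id]
      rw [hqdef] at h2
      have h6 : K.r ≫ K.j⟦(1 : ℤ)⟧' = (K.r ≫ K.j⟦(1 : ℤ)⟧' ≫
        (shiftFunctorAdd' C (1 : ℤ) 1 2 (by norm_num)).inv.app X1.X) ≫
        (shiftFunctorAdd' C (1 : ℤ) 1 2 (by norm_num)).hom.app X1.X := by
        simp only [Category.assoc, Iso.inv_hom_id_app]
        erw [Category.comp_id]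
      rw [h6, Functor.map_comp, ← Category.assoc]
      have h7 : (K.p - X0.φ.hom ≫ σ.map K.p ≫ sh.inv) ≫
          (K.r ≫ K.j⟦(1 : ℤ)⟧' ≫
          (shiftFunctorAdd' C (1 : ℤ) 1 2 (by norm_num)).inv.app X1.X)⟦(-2 : ℤ)⟧' = 0 := by
        rw [← cancel_mono ((shiftFunctorCompIsoId C (2 : ℤ) (-2) (by norm_num)).hom.app X1.X),
          zero_comp, Category.assoc]
        exact h2
      rw [h7, zero_comp]
    rw [sub_eq_zero] at h1
    rw [← Iso.eq_comp_inv, Category.assoc]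
    exact h1
  obtain ⟨φ, T3⟩ := exists_structure₁ K.S X0 (AA.shift (-2)) K.f K.p _ K.tri3.dist (by
    rw [← hsh]
    exact hp)
  refine ⟨φ, fun Z => ?_, fun Z => ?_⟩
  · have h1 := chi_add_right k T1 Z hfin
    have h2 := chi_add_right k T2 Z hfin
    have h3 := chi_add_right k T3 Z hfin
    have h4 := chi_shift_right k Z AA (-2)
    have h5 : (-2 : ℤ).negOnePow = 1 := by
      rw [Int.negOnePow_eq_one_iff]
      decide
    rw [h5, one_smul] at h4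
    rw [h4] at h3
    rw [h1, h2, h3]
    abel
  · have h1 := chi_add_left k T1 Z hfin
    have h2 := chi_add_left k T2 Z hfin
    have h3 := chi_add_left k T3 Z hfin
    have h4 := chi_shift_left k AA Z (-2)
    have h5 : (-2 : ℤ).negOnePow = 1 := by
      rw [Int.negOnePow_eq_one_iff]
      decide
    rw [h5, one_smul] at h4
    rw [h4] at h3
    rw [h1, h2, h3]
    abel

end BO
end
end

section

/-!
# TASK CvS
-/

set_option autoImplicit false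

noncomputable section

open CategoryTheory CategoryTheory.Limits CategoryTheory.Pretriangulated

namespace BO

universe w v u

variable (k : Type w) [Field k] {C : Type u} [Category.{v} C] [Preadditive C] [Linear k C]
  [HasZeroObject C] [HasShift C ℤ] [∀ n : ℤ, (shiftFunctor C n).Additive]
  [∀ n : ℤ, Functor.Linear k (shiftFunctor C n)] [Pretriangulated C]
  {σ : C ⥤ C} [σ.CommShift ℤ] [σ.Additive] [σ.Linear k] [σ.Full] [σ.Faithful]

omit [HasZeroObject C] [Linear k C] [HasShift C ℤ] [∀ n : ℤ, (shiftFunctor C n).Additive]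
  [∀ n : ℤ, Functor.Linear k (shiftFunctor C n)] [Pretriangulated C] [σ.CommShift ℤ]
  [σ.Linear k] [σ.Full] [σ.Faithful] in
theorem preservesBiprod (X Y : C) : PreservesBinaryBiproduct X Y σ := by
  have := preservesBinaryBiproducts_of_preservesBiproducts σ
  infer_instance

/-- The biproduct of two `σ`-objects. -/
def EqObj.sum (X Y : EqObj σ) : EqObj σ :=
  haveI : PreservesBinaryBiproduct X.X Y.X σ := preservesBiprod X.X Y.X
  ⟨X.X ⊞ Y.X, biprod.mapIso X.φ Y.φ ≪≫ (σ.mapBiprod X.X Y.X).symm⟩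

omit [Linear k C] [∀ n : ℤ, Functor.Linear k (shiftFunctor C n)] [σ.Linear k] [σ.Full]
  [σ.Faithful] in
private theorem CvS_tri (X Y : EqObj σ) :
    EqTri σ X (X.sum Y) Y (biprod.inl : X.X ⟶ X.X ⊞ Y.X) (biprod.snd : X.X ⊞ Y.X ⟶ Y.X) 0 := by
  have : PreservesBinaryBiproduct X.X Y.X σ := preservesBiprod X.X Y.X
  have hm : (σ.mapBiprod X.X Y.X).inv =
      biprod.desc (σ.map (biprod.inl : X.X ⟶ X.X ⊞ Y.X)) (σ.map (biprod.inr : Y.X ⟶ X.X ⊞ Y.X)) :=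
    Functor.mapBiprod_inv _ _ _
  have c1 : (biprod.inl : X.X ⟶ X.X ⊞ Y.X) ≫ (biprod.map X.φ.hom Y.φ.hom ≫
      (σ.mapBiprod X.X Y.X).inv) = X.φ.hom ≫ σ.map biprod.inl := by
    rw [hm, biprod.inl_map_assoc, biprod.inl_desc]
  have c2 : (biprod.snd : X.X ⊞ Y.X ⟶ Y.X) ≫ Y.φ.hom = (biprod.map X.φ.hom Y.φ.hom ≫
      (σ.mapBiprod X.X Y.X).inv) ≫ σ.map biprod.snd := by
    rw [hm]
    apply biprod.hom_ext'
    · rw [biprod.inl_snd_assoc, zero_comp, Category.assoc, biprod.inl_map_assoc,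
        biprod.inl_desc_assoc, ← Functor.map_comp, biprod.inl_snd, Functor.map_zero, comp_zero]
    · rw [biprod.inr_snd_assoc, Category.assoc, biprod.inr_map_assoc,
        biprod.inr_desc_assoc, ← Functor.map_comp, biprod.inr_snd, CategoryTheory.Functor.map_id,
        Category.comp_id]
  refine ⟨binaryBiproductTriangle_distinguished X.X Y.X, c1, c2, ?_⟩
  rw [zero_comp, Functor.map_zero, zero_comp, comp_zero]

/-- PROOF. `Hom(Z,(X ⊞ Y)[n]) ≃ Hom(Z,X[n]) × Hom(Z,Y[n])` equivariantly; `kcls_short` (or `chi_add_right` for the split triangle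
`X → X ⊞ Y → Y`, `binaryBiproductTriangle_distinguished`; third map `0`). -/
theorem chi_sum_right (Z X Y : EqObj σ) (hfin : ∀ A B : C, ExtFin k A B) :
    BO.chi k σ Z (X.sum Y) = BO.chi k σ Z X + BO.chi k σ Z Y := by
  exact chi_add_right k (CvS_tri X Y) Z hfin

theorem chi_sum_left (Z X Y : EqObj σ) (hfin : ∀ A B : C, ExtFin k A B) :
    BO.chi k σ (X.sum Y) Z = BO.chi k σ X Z + BO.chi k σ Y Z := by
  exact chi_add_left k (CvS_tri X Y) Z hfin

end BO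
end
end

section

end

section

/-!
# TASK ExA2
-/

set_option autoImplicit false

noncomputable section

namespace BO

universe w

variable (k : Type w) [Field k]

open MvPolynomial

/-- A substitution for comparing coefficients. -/
private def ExA2_phi : PP k →ₐ[k] Polynomial k :=
  MvPolynomial.aeval ![Polynomial.X, Polynomial.X ^ 5, 1, Polynomial.X ^ 25, 1, Polynomial.X ^ 50]

private theorem phi_u0 : ExA2_phi k (u0 k) = Polynomial.X := by
  simp [ExA2_phi, u0]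

private theorem phi_u1 : ExA2_phi k (u1 k) = Polynomial.X ^ 5 := by
  simp [ExA2_phi, u1]

private theorem phi_la : ExA2_phi k (la k) = 1 := by
  simp [ExA2_phi, la]

private theorem phi_mu : ExA2_phi k (mu k) = Polynomial.X ^ 25 := by
  simp [ExA2_phi, mu]

private theorem phi_om1 : ExA2_phi k (om1 k) = 1 := by
  simp [ExA2_phi, om1]

private theorem phi_om2 : ExA2_phi k (om2 k) = Polynomial.X ^ 50 := by
  simp [ExA2_phi, om2]

private theorem phi_C (c : k) : ExA2_phi k (C c) = Polynomial.C c := by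
  rw [ExA2_phi, MvPolynomial.aeval_C]
  rfl

private theorem phi_w1 : ExA2_phi k (w1 k) = Polynomial.X ^ 6 := by
  rw [w1, map_mul, map_mul, phi_u0, phi_u1, phi_om1]
  ring

private theorem phi_w2 : ExA2_phi k (w2 k) = Polynomial.X ^ 56 := by
  rw [w2, map_mul, map_mul, phi_u0, phi_u1, phi_om2]
  ring

private theorem phi_z0 : ExA2_phi k (z0 k) = Polynomial.X ^ 30 + Polynomial.X ^ 60 := by
  rw [z0, map_mul, map_add, map_mul, map_mul, map_mul, phi_mu, phi_u1, phi_om1, phi_la, phi_om2]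
  ring

private theorem phi_z3 : ExA2_phi k (z3 k) = Polynomial.X ^ 76 + Polynomial.X ^ 2 := by
  rw [z3, map_mul, map_add, map_mul, map_mul, map_mul, phi_mu, phi_u0, phi_om1, phi_la, phi_om2]
  ring

private theorem smul_mem' {D : Dg} {x : PP k} (hx : x ∈ RX k D) (c : k) : C c * x ∈ RX k D := by
  rw [MvPolynomial.C_mul']
  exact (RX k D).smul_mem c hx

private theorem C_mem {D : Dg} (hD : D = 0) (c : k) : (C c : PP k) ∈ RX k D := by
  subst hD
  have h := smul_mem' k (RX_one k) c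
  rwa [mul_one] at h

private theorem case0 (x1 x2 y : PP k) (hx1 : x1 ∈ RX k (2, -1, 1))
    (hx2 : x2 ∈ RX k (2, -1, 1)) (hy : y ∈ RX k (1, 0, 1))
    (e : x1 * mu k + x2 * (la k * u1 k) + y * u0 k = 0) :
    ∃ p ∈ RX k (bdeg 1 - bdeg 0), ∃ q1 ∈ RX k (bdeg 2 - bdeg 0), ∃ q2 ∈ RX k (bdeg 2 - bdeg 0),
      x1 = p * w1 k - q1 * u0 k ∧ x2 = p * w2 k - q2 * u0 k ∧
      y = q1 * mu k + q2 * (la k * u1 k) - p * z0 k := by
  obtain ⟨a, b, c, d, rfl⟩ := RX_2m11 k x1 hx1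
  obtain ⟨a', b', c', d', rfl⟩ := RX_2m11 k x2 hx2
  obtain ⟨A, B, E, D, rfl⟩ := RX_101 k y hy
  have h := congrArg (ExA2_phi k) e
  simp only [map_add, map_mul, map_zero, phi_u0, phi_u1, phi_la, phi_mu, phi_C, phi_w1, phi_w2,
    phi_z0, phi_z3] at h
  have h' : Polynomial.C (a + A 0) * Polynomial.X ^ 32 + Polynomial.C (b + A 1) * Polynomial.X ^ 36 +
      Polynomial.C (c + B 1) * Polynomial.X ^ 82 + Polynomial.C d * Polynomial.X ^ 86 +
      Polynomial.C (B 0) * Polynomial.X ^ 78 + Polynomial.C (a' + E 1) * Polynomial.X ^ 12 +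
      Polynomial.C b' * Polynomial.X ^ 16 + Polynomial.C (B 0) * Polynomial.X ^ 4 +
      Polynomial.C (B 1 + E 0) * Polynomial.X ^ 8 +
      Polynomial.C (c' + A 0 + D 1) * Polynomial.X ^ 62 +
      Polynomial.C (d' + A 1) * Polynomial.X ^ 66 + Polynomial.C (D 0) * Polynomial.X ^ 58 =
      (0 : Polynomial k) := by
    rw [← h]
    simp only [Polynomial.C_add]
    ring
  have hc : ∀ n : ℕ, _ := fun n => congrArg (fun P : Polynomial k => P.coeff n) h'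
  simp only [Polynomial.coeff_add, Polynomial.coeff_C_mul, Polynomial.coeff_X_pow,
    Polynomial.coeff_zero] at hc
  have e1 : a + A 0 = 0 := by simpa using hc 32
  have e2 : b + A 1 = 0 := by simpa using hc 36
  have e3 : c + B 1 = 0 := by simpa using hc 82
  have e4 : d = 0 := by simpa using hc 86
  have e5 : B 0 = 0 := by simpa using hc 78
  have e6 : a' + E 1 = 0 := by simpa using hc 12
  have e7 : b' = 0 := by simpa using hc 16
  have e8 : B 1 + E 0 = 0 := by simpa using hc 8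
  have e9 : c' + A 0 + D 1 = 0 := by simpa using hc 62
  have e10 : d' + A 1 = 0 := by simpa using hc 66
  have e11 : D 0 = 0 := by simpa using hc 58
  have f1 : A 0 = -a := by linear_combination e1
  have f2 : A 1 = -b := by linear_combination e2
  have f3 : B 1 = -c := by linear_combination e3
  have f4 : E 1 = -a' := by linear_combination e6
  have f5 : E 0 = c := by linear_combination e8 - e3
  have f6 : D 1 = a - c' := by linear_combination e9 - e1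
  have f7 : d' = b := by linear_combination e10 - e2
  have r3 := rel3 k
  refine ⟨C a * u0 k + C b * u1 k, ?_, C (-c) * w2 k, ?_, C (a - c') * w2 k - C a' * w1 k, ?_,
    ?_, ?_, ?_⟩
  · exact add_mem (smul_mem' k (mem_u0_01 k) a) (smul_mem' k (mem_u1_01 k) b)
  · exact smul_mem' k (mem_w2_02 k) (-c)
  · exact sub_mem (smul_mem' k (mem_w2_02 k) (a - c')) (smul_mem' k (mem_w1_02 k) a')
  · rw [e4, C_0, C_neg]
    ring
  · rw [e7, f7, C_0, C_sub]
    ring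
  · rw [f1, f2, f3, f4, f5, f6, e5, e11]
    simp only [C_0, C_sub, C_neg]
    linear_combination (-C c) * r3

private theorem case1 (x1 x2 y : PP k) (hx1 : x1 ∈ RX k (1, -1, 1))
    (hx2 : x2 ∈ RX k (1, -1, 1)) (hy : y ∈ RX k (0, 0, 1))
    (e : x1 * mu k + x2 * (la k * u1 k) + y * u0 k = 0) :
    ∃ p ∈ RX k (bdeg 1 - bdeg 1), ∃ q1 ∈ RX k (bdeg 2 - bdeg 1), ∃ q2 ∈ RX k (bdeg 2 - bdeg 1),
      x1 = p * w1 k - q1 * u0 k ∧ x2 = p * w2 k - q2 * u0 k ∧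
      y = q1 * mu k + q2 * (la k * u1 k) - p * z0 k := by
  obtain ⟨a, b, rfl⟩ := RX_1m11 k x1 hx1
  obtain ⟨c, d, rfl⟩ := RX_1m11 k x2 hx2
  obtain ⟨A, B, E, D, rfl⟩ := RX_001 k y hy
  have h := congrArg (ExA2_phi k) e
  simp only [map_add, map_mul, map_zero, phi_u0, phi_u1, phi_la, phi_mu, phi_C, phi_w1, phi_w2,
    phi_z0, phi_z3] at h
  have h' : Polynomial.C (a + A) * Polynomial.X ^ 31 + Polynomial.C b * Polynomial.X ^ 81 +
      Polynomial.C B * Polynomial.X ^ 77 + Polynomial.C c * Polynomial.X ^ 11 +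
      Polynomial.C B * Polynomial.X ^ 3 + Polynomial.C E * Polynomial.X ^ 7 +
      Polynomial.C (d + A) * Polynomial.X ^ 61 + Polynomial.C D * Polynomial.X ^ 57 =
      (0 : Polynomial k) := by
    rw [← h]
    simp only [Polynomial.C_add]
    ring
  have hc : ∀ n : ℕ, _ := fun n => congrArg (fun P : Polynomial k => P.coeff n) h'
  simp only [Polynomial.coeff_add, Polynomial.coeff_C_mul, Polynomial.coeff_X_pow,
    Polynomial.coeff_zero] at hc
  have e1 : a + A = 0 := by simpa using hc 31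
  have e2 : b = 0 := by simpa using hc 81
  have e3 : B = 0 := by simpa using hc 77
  have e4 : c = 0 := by simpa using hc 11
  have e5 : E = 0 := by simpa using hc 7
  have e6 : d + A = 0 := by simpa using hc 61
  have e7 : D = 0 := by simpa using hc 57
  have f1 : A = -a := by linear_combination e1
  have f2 : d = a := by linear_combination e6 - e1
  subst e2 e3 e4 e5 e7 f1 f2
  refine ⟨C d, C_mem k (sub_self _) d, 0, zero_mem _, 0, zero_mem _, ?_, ?_, ?_⟩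
  · simp only [C_0]
    ring
  · simp only [C_0]
    ring
  · simp only [C_0, C_neg]
    ring

private theorem case2 (x1 x2 y : PP k) (hx1 : x1 ∈ RX k (1, 0, 0))
    (hx2 : x2 ∈ RX k (1, 0, 0)) (hy : y ∈ RX k (0, 1, 0))
    (e : x1 * mu k + x2 * (la k * u1 k) + y * u0 k = 0) :
    ∃ p ∈ RX k (bdeg 1 - bdeg 2), ∃ q1 ∈ RX k (bdeg 2 - bdeg 2), ∃ q2 ∈ RX k (bdeg 2 - bdeg 2),
      x1 = p * w1 k - q1 * u0 k ∧ x2 = p * w2 k - q2 * u0 k ∧
      y = q1 * mu k + q2 * (la k * u1 k) - p * z0 k := by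
  obtain ⟨a, b, rfl⟩ := RX_100 k x1 hx1
  obtain ⟨c, d, rfl⟩ := RX_100 k x2 hx2
  obtain ⟨A, B, E, rfl⟩ := RX_010 k y hy
  have h := congrArg (ExA2_phi k) e
  simp only [map_add, map_mul, map_zero, phi_u0, phi_u1, phi_la, phi_mu, phi_C] at h
  have h' : Polynomial.C (a + A) * Polynomial.X ^ 26 + Polynomial.C b * Polynomial.X ^ 30 +
      Polynomial.C (c + E) * Polynomial.X ^ 6 + Polynomial.C d * Polynomial.X ^ 10 +
      Polynomial.C B * Polynomial.X ^ 2 = (0 : Polynomial k) := by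
    rw [← h]
    simp only [Polynomial.C_add]
    ring
  have hc : ∀ n : ℕ, _ := fun n => congrArg (fun P : Polynomial k => P.coeff n) h'
  simp only [Polynomial.coeff_add, Polynomial.coeff_C_mul, Polynomial.coeff_X_pow,
    Polynomial.coeff_zero] at hc
  have e1 : a + A = 0 := by simpa using hc 26
  have e2 : b = 0 := by simpa using hc 30
  have e3 : c + E = 0 := by simpa using hc 6
  have e4 : d = 0 := by simpa using hc 10
  have e5 : B = 0 := by simpa using hc 2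
  have f1 : A = -a := by linear_combination e1
  have f2 : E = -c := by linear_combination e3
  subst e2 e4 e5 f1 f2
  refine ⟨0, zero_mem _, C (-a), C_mem k (sub_self _) _, C (-c), C_mem k (sub_self _) _, ?_, ?_, ?_⟩
  · simp only [C_0, C_neg]
    ring
  · simp only [C_0, C_neg]
    ring
  · simp only [C_0, C_neg]
    ring

private theorem case3 (x1 x2 y : PP k) (hx1 : x1 ∈ RX k (0, 0, 0))
    (hx2 : x2 ∈ RX k (0, 0, 0)) (hy : y ∈ RX k (-1, 1, 0))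
    (e : x1 * mu k + x2 * (la k * u1 k) + y * u0 k = 0) :
    x1 = 0 ∧ x2 = 0 ∧ y = 0 := by
  obtain ⟨a, rfl⟩ := RX_000 k x1 hx1
  obtain ⟨b, rfl⟩ := RX_000 k x2 hx2
  obtain ⟨c, rfl⟩ := RX_m110 k y hy
  have h := congrArg (ExA2_phi k) e
  simp only [map_add, map_mul, map_zero, phi_u0, phi_u1, phi_la, phi_mu, phi_C] at h
  have h' : Polynomial.C a * Polynomial.X ^ 25 + Polynomial.C b * Polynomial.X ^ 5 +
      Polynomial.C c * Polynomial.X ^ 1 = (0 : Polynomial k) := by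
    rw [← h]
    ring
  have hc : ∀ n : ℕ, _ := fun n => congrArg (fun P : Polynomial k => P.coeff n) h'
  simp only [Polynomial.coeff_add, Polynomial.coeff_C_mul, Polynomial.coeff_X_pow,
    Polynomial.coeff_zero] at hc
  have e1 : a = 0 := by simpa using hc 25
  have e2 : b = 0 := by simpa using hc 5
  have e3 : c = 0 := by simpa using hc 1
  subst e1 e2 e3
  refine ⟨C_0, C_0, ?_⟩
  rw [C_0, zero_mul]

private theorem all_zero (i : Fin 6) {x1 x2 y : PP k} (h1 : x1 = 0) (h2 : x2 = 0) (h3 : y = 0) :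
    ∃ p ∈ RX k (bdeg 1 - bdeg i), ∃ q1 ∈ RX k (bdeg 2 - bdeg i), ∃ q2 ∈ RX k (bdeg 2 - bdeg i),
      x1 = p * w1 k - q1 * u0 k ∧ x2 = p * w2 k - q2 * u0 k ∧
      y = q1 * mu k + q2 * (la k * u1 k) - p * z0 k := by
  subst h1 h2 h3
  refine ⟨0, zero_mem _, 0, zero_mem _, 0, zero_mem _, ?_, ?_, ?_⟩ <;> ring

private theorem ExA2_fin : ∀ i : Fin 6, i = 0 ∨ i = 1 ∨ i = 2 ∨ i = 3 ∨ i = 4 ∨ i = 5 := by
  decide

private theorem u0_ne : u0 k ≠ 0 := MvPolynomial.X_ne_zero 0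

/-- Exactness at the third place. Write `S = mu x₁ + la u₁ x₂ + u₀ y = 0`.

PROOF. `i = 0`: `x₁ = l₁w₁ + l₂w₂`, `x₂ = m₁w₁ + m₂w₂` with linear forms in `u₀,u₁` (`RX_2m11`), `y` as in `RX_101`; divide by `u₀`
(`wⱼ = u₀u₁omⱼ`): `y = - u₁(mu (l₁om₁ + l₂om₂) + la u₁ (m₁om₁ + m₂om₂))`. Compare with the form of `y`
(`y = n₀z₀ + n₃z₃ + la n₁w₁ + la n₂w₂`, `z₀ = u₁(mu om₁ + la u₁om₂)`, `z₃ = u₀(mu om₂ + la u₀om₁)`), coefficients of `mu om₁`, `mu om₂`,
`la om₁`, `la om₂`: `n₀ = -l₁`; `u₀n₃ = -u₁l₂`, so `l₂ = -c u₀`, `n₃ = c u₁`; `u₀²n₃ + u₀u₁n₁ = -u₁²m₁`, so `u₁m₁ = -u₀(c u₀ + n₁)`,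
`m₁ = d u₀`, `n₁ = -c u₀ - d u₁`; `u₁²n₀ + u₀u₁n₂ = -u₁²m₂`, so `u₀n₂ = u₁(l₁ - m₂)`, `m₂ = l₁ - e u₀`, `n₂ = e u₁`.
Take `p = l₁`, `q₁ = c w₂`, `q₂ = - d w₁ + e w₂`: `x₁ = p w₁ - q₁u₀`, `x₂ = p w₂ - q₂u₀`, and the formula for `y` follows
(cancel `u₀`).
`i = 1`: the same with `x₁, x₂ ∈ ⟨w₁,w₂⟩` (`RX_1m11`), `y` as in `RX_001`; `q₁ = q₂ = 0` (degree `(0,-1,1)`); the comparison gives `l₂ = 0`,
`m₁ = 0`, `l₁ = m₂ =: p`, `y = - p z₀`.
`i = 2`: `x₁, x₂` linear forms in `u` (`RX_100`), `y` as in `RX_010`; `p = 0`; `mu x₁ + la u₁x₂ + u₀y = 0` with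
`y = a mu + (b u₀ + c u₁) la`: `x₁ = -a u₀`, `u₁x₂ = -u₀(b u₀ + c u₁)`, so `b = 0`, `x₂ = -c u₀`; `q₁ = a`, `q₂ = c`.
`i = 3`: `x₁, x₂` constants, `y = a la`: `mu x₁ + la u₁x₂ + a la u₀ = 0` gives all `0`. `i = 4`: `x₁ = x₂ = 0` (degree `(1,-1,0)`), `u₀y = 0`.
`i = 5`: all `0`. -/
theorem ex2_cov (i : Fin 6) (x1 x2 y : PP k) (hx1 : x1 ∈ RX k (bdeg 3 - bdeg i))
    (hx2 : x2 ∈ RX k (bdeg 3 - bdeg i)) (hy : y ∈ RX k (bdeg 4 - bdeg i))
    (e : x1 * mu k + x2 * (la k * u1 k) + y * u0 k = 0) :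
    ∃ p ∈ RX k (bdeg 1 - bdeg i), ∃ q1 ∈ RX k (bdeg 2 - bdeg i), ∃ q2 ∈ RX k (bdeg 2 - bdeg i),
      x1 = p * w1 k - q1 * u0 k ∧ x2 = p * w2 k - q2 * u0 k ∧
      y = q1 * mu k + q2 * (la k * u1 k) - p * z0 k := by
  have hi : i = 0 ∨ i = 1 ∨ i = 2 ∨ i = 3 ∨ i = 4 ∨ i = 5 := ExA2_fin i
  have ez : x1 = 0 → x2 = 0 → y = 0 := by
    intro h1 h2
    rw [h1, h2, zero_mul, zero_mul, zero_add, zero_add] at e
    exact (mul_eq_zero.1 e).resolve_right (u0_ne k)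
  rcases hi with rfl | rfl | rfl | rfl | rfl | rfl
  · rw [show (bdeg 3 - bdeg 0 : Dg) = (2, -1, 1) by decide] at hx1 hx2
    rw [show (bdeg 4 - bdeg 0 : Dg) = (1, 0, 1) by decide] at hy
    exact case0 k x1 x2 y hx1 hx2 hy e
  · rw [show (bdeg 3 - bdeg 1 : Dg) = (1, -1, 1) by decide] at hx1 hx2
    rw [show (bdeg 4 - bdeg 1 : Dg) = (0, 0, 1) by decide] at hy
    exact case1 k x1 x2 y hx1 hx2 hy e
  · rw [show (bdeg 3 - bdeg 2 : Dg) = (1, 0, 0) by decide] at hx1 hx2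
    rw [show (bdeg 4 - bdeg 2 : Dg) = (0, 1, 0) by decide] at hy
    exact case2 k x1 x2 y hx1 hx2 hy e
  · rw [show (bdeg 3 - bdeg 3 : Dg) = (0, 0, 0) by decide] at hx1 hx2
    rw [show (bdeg 4 - bdeg 3 : Dg) = (-1, 1, 0) by decide] at hy
    obtain ⟨h1, h2, h3⟩ := case3 k x1 x2 y hx1 hx2 hy e
    exact all_zero k 3 h1 h2 h3
  · rw [show (bdeg 3 - bdeg 4 : Dg) = (1, -1, 0) by decide] at hx1 hx2
    have h0 : (-1 : ℤ) + 0 < 0 := by norm_num
    have h1 : x1 = 0 := RX_eq_zero k (1, -1, 0) (Or.inr (Or.inl h0)) x1 hx1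
    have h2 : x2 = 0 := RX_eq_zero k (1, -1, 0) (Or.inr (Or.inl h0)) x2 hx2
    exact all_zero k 4 h1 h2 (ez h1 h2)
  · rw [show (bdeg 3 - bdeg 5 : Dg) = (0, -1, 0) by decide] at hx1 hx2
    have h0 : (-1 : ℤ) + 0 < 0 := by norm_num
    have h1 : x1 = 0 := RX_eq_zero k (0, -1, 0) (Or.inr (Or.inl h0)) x1 hx1
    have h2 : x2 = 0 := RX_eq_zero k (0, -1, 0) (Or.inr (Or.inl h0)) x2 hx2
    exact all_zero k 5 h1 h2 (ez h1 h2)

end BO
end
end

section

end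

section

/-!
# TASK D8: projection to the orthogonal of one exceptional object

PROOF. `B : HomBasis k E X` (`exists_homBasis`), `T = ⨁ fun i => E⟦B.deg i⟧`, `a = biproduct.desc B.ev`, `Y` = the cone (`distinguished_cocone_triangle`). `P T`: shifts
and finite biproducts (`P` triangulated is closed under extensions, induction on the number of terms; see the proofs in `BO/MutB.lean`, `BO/KBg.lean`, or
`ObjectProperty` closed under finite products). `Hom(E, Y⟦n⟧) = 0`: by `HomBasis.bijective` (`BO/MutB.lean`) composition with `a` is bijective on `Hom(E⟦m⟧, -)` for all `m`;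
with the long exact sequence of the triangle (`Triangle.coyoneda_exact₂`, `₃`, rotations) `Hom(E⟦m⟧, Y) = 0` for all `m`; `Hom(E,Y⟦n⟧) ≅ Hom(E⟦-n⟧,Y)`.
-/

set_option autoImplicit false

noncomputable section

open CategoryTheory CategoryTheory.Limits CategoryTheory.Pretriangulated CategoryTheory.Abelian

namespace MPbd3808.BR

universe w v u

variable (k : Type w) [Field k] {C : Type u} [Category.{v} C] [Preadditive C] [Linear k C]
  [HasZeroObject C] [HasShift C ℤ] [∀ n : ℤ, (shiftFunctor C n).Additive]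
  [∀ n : ℤ, Functor.Linear k (shiftFunctor C n)] [Pretriangulated C]

theorem exists_proj1 (E X : C) (hE : BO.IsExceptional k E) (h : BO.ExtFin k E X) :
    ∃ (T Y : C) (a : T ⟶ X) (b : X ⟶ Y) (c : Y ⟶ T⟦(1 : ℤ)⟧), Triangle.mk a b c ∈ distTriang C ∧
      (∀ P : ObjectProperty C, P.IsTriangulated → P.IsClosedUnderIsomorphisms → P E → P T) ∧
      ∀ (n : ℤ) (f : E ⟶ Y⟦n⟧), f = 0 := by
  obtain ⟨B⟩ := exists_homBasis k E X h
  obtain ⟨Y, b, c, hT⟩ := distinguished_cocone_triangle (biproduct.desc B.ev)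
  refine ⟨_, Y, biproduct.desc B.ev, b, c, hT, ?_, ?_⟩
  · intro P hP hP' hPE
    have hs : ∀ n : ℤ, P (E⟦n⟧) := fun n => P.le_shift n _ hPE
    exact P.prop_of_isLimit (biproduct.isLimit _) (fun j => hs _)
  · have h0 : ∀ (m : ℤ) (g : E⟦m⟧ ⟶ Y), g = 0 := by
      intro m g
      let e : E⟦m⟧ ≅ (E⟦m - 1⟧)⟦(1 : ℤ)⟧ :=
        (shiftFunctorAdd' C (m - 1) 1 m (by omega)).app E
      obtain ⟨y, hy⟩ := (shiftFunctor C (1 : ℤ)).map_surjective (e.inv ≫ g ≫ c)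
      have hca : c ≫ (shiftFunctor C (1 : ℤ)).map (biproduct.desc B.ev) = 0 :=
        comp_distTriang_mor_zero₃₁ _ hT
      have hy0 : y ≫ biproduct.desc B.ev = 0 := by
        apply (shiftFunctor C (1 : ℤ)).map_injective
        rw [Functor.map_comp, hy, Functor.map_zero]
        simp only [Category.assoc]
        rw [hca, comp_zero, comp_zero]
      have hy1 : y = 0 := by
        apply (B.bijective k hE (m - 1)).1
        show y ≫ biproduct.desc B.ev = 0 ≫ biproduct.desc B.ev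
        rw [hy0, zero_comp]
      have hgc : g ≫ c = 0 := by
        rw [hy1, Functor.map_zero] at hy
        have : g ≫ c = e.hom ≫ (e.inv ≫ g ≫ c) := by simp
        rw [this, ← hy, comp_zero]
      obtain ⟨g', hg'⟩ : ∃ g' : E⟦m⟧ ⟶ X, g = g' ≫ b := Triangle.coyoneda_exact₃ _ hT g hgc
      obtain ⟨x, hx⟩ := (B.bijective k hE m).2 g'
      have hab : biproduct.desc B.ev ≫ b = 0 := comp_distTriang_mor_zero₁₂ _ hT
      have hx' : x ≫ biproduct.desc B.ev = g' := hx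
      rw [hg', ← hx', Category.assoc, hab, comp_zero]
    intro n f
    apply (shiftFunctor C (-n)).map_injective
    rw [Functor.map_zero]
    let z : (Y⟦n⟧)⟦(-n)⟧ ≅ Y := (shiftFunctorCompIsoId C n (-n) (by omega)).app Y
    have h1 := h0 (-n) ((shiftFunctor C (-n)).map f ≫ z.hom)
    have h2 : (shiftFunctor C (-n)).map f =
        ((shiftFunctor C (-n)).map f ≫ z.hom) ≫ z.inv := by simp
    rw [h2, h1, zero_comp]

end MPbd3808.BR
end
end
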