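import Pool.Agent.Lib.MP_bd3808_ag.Mg.G004

section

/-!
# TASK SCh0
-/

set_option autoImplicit false

noncomputable section

open CategoryTheory CategoryTheory.Limits CategoryTheory.Pretriangulated

namespace BO

universe w v u

variable {k : Type w} [Field k] {C : Type u} [Category.{v} C] [Preadditive C] [Linear k C]
  [HasZeroObject C] [HasShift C ℤ] [∀ n : ℤ, (shiftFunctor C n).Additive]
  [∀ n : ℤ, Functor.Linear k (shiftFunctor C n)] [Pretriangulated C]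
  {σ : C ⥤ C} [σ.CommShift ℤ] [σ.Additive] [σ.Linear k] [σ.Full] [σ.Faithful]

/-- The `i`-th object with its structure. -/
def Setup.E (A : Setup k (C := C) σ) (i : Fin 24) : EqObj σ := ⟨A.s.obj i, A.φ i⟩

private theorem SCh0_lift (X Y Z : EqObj σ) (f : X.X ⟶ Y.X) (g : X.X ⟶ Z.X)
    (hf : f ≫ Y.φ.hom = X.φ.hom ≫ σ.map f) (hg : g ≫ Z.φ.hom = X.φ.hom ≫ σ.map g) :
    (biprod.lift f g : X.X ⟶ (Y.sum Z).X) ≫ (Y.sum Z).φ.hom
      = X.φ.hom ≫ σ.map (biprod.lift f g : X.X ⟶ (Y.sum Z).X) := by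
  haveI : PreservesBinaryBiproduct Y.X Z.X σ := preservesBiprod Y.X Z.X
  change biprod.lift f g ≫ (biprod.map Y.φ.hom Z.φ.hom ≫ (σ.mapBiprod Y.X Z.X).inv)
    = X.φ.hom ≫ σ.map (biprod.lift f g)
  rw [← Category.assoc, Iso.comp_inv_eq, Category.assoc, biprod.map_lift_mapBiprod]
  apply biprod.hom_ext <;> simp [hf, hg]

private theorem SCh0_desc (X Y Z : EqObj σ) (f : Y.X ⟶ X.X) (g : Z.X ⟶ X.X)
    (hf : f ≫ X.φ.hom = Y.φ.hom ≫ σ.map f) (hg : g ≫ X.φ.hom = Z.φ.hom ≫ σ.map g) :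
    (biprod.desc f g : (Y.sum Z).X ⟶ X.X) ≫ X.φ.hom
      = (Y.sum Z).φ.hom ≫ σ.map (biprod.desc f g : (Y.sum Z).X ⟶ X.X) := by
  haveI : PreservesBinaryBiproduct Y.X Z.X σ := preservesBiprod Y.X Z.X
  change biprod.desc f g ≫ X.φ.hom
    = (biprod.map Y.φ.hom Z.φ.hom ≫ (σ.mapBiprod Y.X Z.X).inv) ≫ σ.map (biprod.desc f g)
  rw [Category.assoc, biprod.mapBiprod_inv_map_desc]
  apply biprod.hom_ext' <;> simp [hf, hg]

private theorem SCh0_m (A : Setup k (C := C) σ) (i j : Fin 6) (p : PP k) (w a b : ℤ)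
    (hb : b = a + w) (hp : p ∈ RX k (bdeg j - bdeg i))
    (hs : sig k A.t p = ((A.t ^ w : kˣ) : k) • p) :
    A.D.m i j p ≫ ((A.E (ix j)).scale (A.t ^ b)).φ.hom =
      ((A.E (ix i)).scale (A.t ^ a)).φ.hom ≫ σ.map (A.D.m i j p) := by
  have h := A.equiv i j p hp
  rw [hs, A.D.m_smul i j _ p hp, Linear.smul_comp] at h
  change A.D.m i j p ≫ (((A.t ^ b : kˣ) : k) • (A.φ (ix j)).hom) =
    (((A.t ^ a : kˣ) : k) • (A.φ (ix i)).hom) ≫ σ.map (A.D.m i j p)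
  rw [Linear.comp_smul, Linear.smul_comp, ← h, smul_smul, hb, zpow_add, Units.val_mul]

private theorem SCh0_m0 (A : Setup k (C := C) σ) (i j : Fin 6) (p : PP k) (w : ℤ)
    (hp : p ∈ RX k (bdeg j - bdeg i))
    (hs : sig k A.t p = ((A.t ^ w : kˣ) : k) • p) :
    A.D.m i j p ≫ ((A.E (ix j)).scale (A.t ^ w)).φ.hom =
      (A.E (ix i)).φ.hom ≫ σ.map (A.D.m i j p) := by
  have h := A.equiv i j p hp
  rw [hs, A.D.m_smul i j _ p hp, Linear.smul_comp] at h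
  change A.D.m i j p ≫ (((A.t ^ w : kˣ) : k) • (A.φ (ix j)).hom) =
    (A.φ (ix i)).hom ≫ σ.map (A.D.m i j p)
  rw [Linear.comp_smul, ← h]

private theorem SCh0_neg (X Y : EqObj σ) (f : X.X ⟶ Y.X)
    (hf : f ≫ Y.φ.hom = X.φ.hom ≫ σ.map f) :
    (-f) ≫ Y.φ.hom = X.φ.hom ≫ σ.map (-f) := by
  rw [Functor.map_neg, Preadditive.neg_comp, Preadditive.comp_neg, hf]

private theorem SCh0_zero (X Y : EqObj σ) :
    (0 : X.X ⟶ Y.X) ≫ Y.φ.hom = X.φ.hom ≫ σ.map (0 : X.X ⟶ Y.X) := by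
  simp

/-- vanishing of Homs between biproducts -/
private theorem SCh0_van_l {X Y Z : C} (h1 : ∀ x : X ⟶ Z, x = 0) (h2 : ∀ x : Y ⟶ Z, x = 0)
    (x : X ⊞ Y ⟶ Z) : x = 0 := by
  apply biprod.hom_ext'
  · rw [h1 (biprod.inl ≫ x), comp_zero]
  · rw [h2 (biprod.inr ≫ x), comp_zero]

private theorem SCh0_van_r {X Y Z : C} (n : ℤ) (h1 : ∀ x : Z ⟶ X⟦n⟧, x = 0)
    (h2 : ∀ x : Z ⟶ Y⟦n⟧, x = 0) (x : Z ⟶ (X ⊞ Y)⟦n⟧) : x = 0 := by
  have e : (𝟙 (X ⊞ Y)) = biprod.fst ≫ biprod.inl + biprod.snd ≫ biprod.inr := by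
    rw [biprod.total]
  have e2 : x = x ≫ (shiftFunctor C n).map (𝟙 (X ⊞ Y)) := by simp
  rw [e2, e, Functor.map_add, Functor.map_comp, Functor.map_comp, Preadditive.comp_add,
    ← Category.assoc, ← Category.assoc, h1 (x ≫ _), h2 (x ≫ _), zero_comp, zero_comp, add_zero]

variable (A : Setup k (C := C) σ) (K : Conv A.D.d0 A.D.d1 A.D.d2)

/-- The equivariant Euler form with `S`.

PROOF. `Conv.chi` with `X0 = A.E 18`, `X1 = ((A.E 19).scale t⁻²).sum (((A.E 20).scale t).sum ((A.E 20).scale t⁻¹))`,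
`X2 = (((A.E 21).scale t⁻¹).sum ((A.E 21).scale t⁻³)).sum ((A.E 22).scale t)`, `X3 = (A.E 23).scale t⁻¹`; `c0, c1, c2`: componentwise by
`A.equiv` and `sig_u0, …`: `D.m i j p` with `sig p = t^w • p` is equivariant from `X.scale (t^a)` to `Y.scale (t^(a+w))`
(weights `u₀ : -2`, `u₁ : 2`, `w₁ : 1`, `w₂ : -1`, `z₀ : 3`, `mu : 0`, `la u₁ : 2`); vanishing: `A.D.strong`. Then `chi_sum_right/left`. -/
theorem Setup.chi_S [σ.IsTriangulated] : ∃ φ : K.S ≅ σ.obj K.S,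
    (∀ Z : EqObj σ, chi k σ Z ⟨K.S, φ⟩ = chi k σ Z (A.E 18)
      - (chi k σ Z ((A.E 19).scale (A.t ^ (-2 : ℤ))) + (chi k σ Z ((A.E 20).scale (A.t ^ (1 : ℤ)))
        + chi k σ Z ((A.E 20).scale (A.t ^ (-1 : ℤ)))))
      + ((chi k σ Z ((A.E 21).scale (A.t ^ (-1 : ℤ))) + chi k σ Z ((A.E 21).scale (A.t ^ (-3 : ℤ))))
        + chi k σ Z ((A.E 22).scale (A.t ^ (1 : ℤ))))
      - chi k σ Z ((A.E 23).scale (A.t ^ (-1 : ℤ)))) ∧
    (∀ Z : EqObj σ, chi k σ ⟨K.S, φ⟩ Z = chi k σ (A.E 18) Z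
      - (chi k σ ((A.E 19).scale (A.t ^ (-2 : ℤ))) Z + (chi k σ ((A.E 20).scale (A.t ^ (1 : ℤ))) Z
        + chi k σ ((A.E 20).scale (A.t ^ (-1 : ℤ))) Z))
      + ((chi k σ ((A.E 21).scale (A.t ^ (-1 : ℤ))) Z + chi k σ ((A.E 21).scale (A.t ^ (-3 : ℤ))) Z)
        + chi k σ ((A.E 22).scale (A.t ^ (1 : ℤ))) Z)
      - chi k σ ((A.E 23).scale (A.t ^ (-1 : ℤ))) Z) := by
  have hfin : ∀ X Y : C, ExtFin k X Y := extFin_of_full k A.s A.fin
  let X0 : EqObj σ := A.E (ix 0)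
  let Y1 : EqObj σ := (A.E (ix 1)).scale (A.t ^ (-2 : ℤ))
  let Y2 : EqObj σ := (A.E (ix 2)).scale (A.t ^ (1 : ℤ))
  let Y3 : EqObj σ := (A.E (ix 2)).scale (A.t ^ (-1 : ℤ))
  let Y4 : EqObj σ := (A.E (ix 3)).scale (A.t ^ (-1 : ℤ))
  let Y5 : EqObj σ := (A.E (ix 3)).scale (A.t ^ (-3 : ℤ))
  let Y6 : EqObj σ := (A.E (ix 4)).scale (A.t ^ (1 : ℤ))
  let X3 : EqObj σ := (A.E (ix 5)).scale (A.t ^ (-1 : ℤ))
  let X1 : EqObj σ := Y1.sum (Y2.sum Y3)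
  let X2 : EqObj σ := (Y4.sum Y5).sum Y6
  have c0 : A.D.d0 ≫ X1.φ.hom = X0.φ.hom ≫ σ.map A.D.d0 := by
    refine SCh0_lift X0 Y1 (Y2.sum Y3) _ _ ?_ ?_
    · exact SCh0_m0 A 0 1 _ (-2) (mem_u0_01 k) (sig_u0 k A.t)
    · refine SCh0_lift X0 Y2 Y3 _ _ ?_ ?_
      · exact SCh0_m0 A 0 2 _ 1 (mem_w1_02 k) (sig_w1 k A.t)
      · exact SCh0_m0 A 0 2 _ (-1) (mem_w2_02 k) (sig_w2 k A.t)
  have c1 : A.D.d1 ≫ X2.φ.hom = X1.φ.hom ≫ σ.map A.D.d1 := by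
    refine SCh0_desc X2 Y1 (Y2.sum Y3) _ _ ?_ ?_
    · refine SCh0_lift Y1 (Y4.sum Y5) Y6 _ _ ?_ ?_
      · refine SCh0_lift Y1 Y4 Y5 _ _ ?_ ?_
        · exact SCh0_m A 1 3 _ 1 (-2) (-1) (by norm_num) (mem_w1_13 k) (sig_w1 k A.t)
        · exact SCh0_m A 1 3 _ (-1) (-2) (-3) (by norm_num) (mem_w2_13 k) (sig_w2 k A.t)
      · refine SCh0_neg Y1 Y6 _ ?_
        exact SCh0_m A 1 4 _ 3 (-2) 1 (by norm_num) (mem_z0_14 k) (sig_z0 k A.t)
    · refine SCh0_desc X2 Y2 Y3 _ _ ?_ ?_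
      · refine SCh0_lift Y2 (Y4.sum Y5) Y6 _ _ ?_ ?_
        · refine SCh0_lift Y2 Y4 Y5 _ _ ?_ ?_
          · refine SCh0_neg Y2 Y4 _ ?_
            exact SCh0_m A 2 3 _ (-2) 1 (-1) (by norm_num) (mem_u0_23 k) (sig_u0 k A.t)
          · exact SCh0_zero Y2 Y5
        · exact SCh0_m A 2 4 _ 0 1 1 (by norm_num) (mem_mu_24 k) (by
            rw [sig_mu]; simp)
      · refine SCh0_lift Y3 (Y4.sum Y5) Y6 _ _ ?_ ?_
        · refine SCh0_lift Y3 Y4 Y5 _ _ ?_ ?_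
          · exact SCh0_zero Y3 Y4
          · refine SCh0_neg Y3 Y5 _ ?_
            exact SCh0_m A 2 3 _ (-2) (-1) (-3) (by norm_num) (mem_u0_23 k) (sig_u0 k A.t)
        · exact SCh0_m A 2 4 _ 2 (-1) 1 (by norm_num) (mem_lau1_24 k) (sig_la_u1 k A.t)
  have c2 : A.D.d2 ≫ X3.φ.hom = X2.φ.hom ≫ σ.map A.D.d2 := by
    refine SCh0_desc X3 (Y4.sum Y5) Y6 _ _ ?_ ?_
    · refine SCh0_desc X3 Y4 Y5 _ _ ?_ ?_
      · exact SCh0_m A 3 5 _ 0 (-1) (-1) (by norm_num) (mem_mu_35 k) (by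
            rw [sig_mu]; simp)
      · exact SCh0_m A 3 5 _ 2 (-3) (-1) (by norm_num) (mem_lau1_35 k) (sig_la_u1 k A.t)
    · exact SCh0_m A 4 5 _ (-2) 1 (-1) (by norm_num) (mem_u0_45 k) (sig_u0 k A.t)
  have v02 : ∀ n : ℤ, n < 0 → ∀ x : X0.X ⟶ X2.X⟦n⟧, x = 0 := by
    intro n hn
    refine SCh0_van_r n (SCh0_van_r n ?_ ?_) ?_
    · exact A.D.strong 0 3 n hn.ne
    · exact A.D.strong 0 3 n hn.ne
    · exact A.D.strong 0 4 n hn.ne
  have v03 : ∀ n : ℤ, n < 0 → ∀ x : X0.X ⟶ X3.X⟦n⟧, x = 0 := by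
    intro n hn
    exact A.D.strong 0 5 n hn.ne
  have v13 : ∀ n : ℤ, n < 0 → ∀ x : X1.X ⟶ X3.X⟦n⟧, x = 0 := by
    intro n hn
    refine SCh0_van_l ?_ (SCh0_van_l ?_ ?_)
    · exact A.D.strong 1 5 n hn.ne
    · exact A.D.strong 2 5 n hn.ne
    · exact A.D.strong 2 5 n hn.ne
  obtain ⟨φ, h1, h2⟩ := Conv.chi k hfin X0 X1 X2 X3 K c0 c1 c2 v02 v03 v13
  refine ⟨φ, fun Z => ?_, fun Z => ?_⟩
  · rw [h1 Z]
    rw [chi_sum_right k Z Y1 (Y2.sum Y3) hfin, chi_sum_right k Z Y2 Y3 hfin,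
      chi_sum_right k Z (Y4.sum Y5) Y6 hfin, chi_sum_right k Z Y4 Y5 hfin]
    rfl
  · rw [h2 Z]
    rw [chi_sum_left k Z Y1 (Y2.sum Y3) hfin, chi_sum_left k Z Y2 Y3 hfin,
      chi_sum_left k Z (Y4.sum Y5) Y6 hfin, chi_sum_left k Z Y4 Y5 hfin]
    rfl

end BO
end
end

section

/-!
# TASK SCh1
-/

set_option autoImplicit false

noncomputable section

open CategoryTheory CategoryTheory.Limits CategoryTheory.Pretriangulated

namespace BO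

universe w v u

variable {k : Type w} [Field k] {C : Type u} [Category.{v} C] [Preadditive C] [Linear k C]
  [HasZeroObject C] [HasShift C ℤ] [∀ n : ℤ, (shiftFunctor C n).Additive]
  [∀ n : ℤ, Functor.Linear k (shiftFunctor C n)] [Pretriangulated C]
  {σ : C ⥤ C} [σ.CommShift ℤ] [σ.Additive] [σ.Linear k] [σ.Full] [σ.Faithful]
  (A : Setup k (C := C) σ) (K : Conv A.D.d0 A.D.d1 A.D.d2)

private def SCh1_P (t : kˣ) (x : KG k) : Prop :=
  ∃ m : ℤ, (2 : ℤ) • x.2 = (2 * m) • Additive.ofMul t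

private theorem SCh1_sz (m n : ℤ) (x : Additive kˣ) : m • x - n • x = (m - n) • x := by
  rw [sub_zsmul, sub_eq_add_neg]

private theorem SCh1_add (t : kˣ) (x y : KG k) (hx : SCh1_P t x) (hy : SCh1_P t y) :
    SCh1_P t (x + y) := by
  obtain ⟨a, ha⟩ := hx
  obtain ⟨b, hb⟩ := hy
  refine ⟨a + b, ?_⟩
  rw [Prod.snd_add, zsmul_add, ha, hb, ← add_zsmul]
  congr 1
  ring

private theorem SCh1_sub (t : kˣ) (x y : KG k) (hx : SCh1_P t x) (hy : SCh1_P t y) :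
    SCh1_P t (x - y) := by
  obtain ⟨a, ha⟩ := hx
  obtain ⟨b, hb⟩ := hy
  refine ⟨a - b, ?_⟩
  rw [Prod.snd_sub, zsmul_sub, ha, hb, SCh1_sz]
  congr 1
  ring

private theorem SCh1_zpow (t : kˣ) (a : ℤ) :
    (Additive.ofMul (t ^ a) : Additive kˣ) = a • Additive.ofMul t := ofMul_zpow a t

private theorem SCh1_sc (t : kˣ) (n a : ℤ) :
    SCh1_P t ((0, n • Additive.ofMul (t ^ a)) : KG k) := by
  refine ⟨n * a, ?_⟩
  change (2 : ℤ) • (n • Additive.ofMul (t ^ a)) = (2 * (n * a)) • Additive.ofMul t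
  rw [SCh1_zpow, smul_smul, smul_smul]
  congr 1
  ring

private theorem SCh1_GG (t : kˣ) (x : KG k) (hx : SCh1_P t x) : x.2.toMul ∈ GG t 1 := by
  obtain ⟨m, hm⟩ := hx
  refine ⟨m, ?_⟩
  have h := congrArg Additive.toMul hm
  rw [toMul_zsmul, toMul_zsmul, toMul_ofMul] at h
  rw [one_mul, ← h]
  rfl

private theorem SCh1_E (i j : Fin 24) : SCh1_P A.t (chi k σ (A.E i) (A.E j)) :=
  ⟨0, by rw [mul_zero, zero_smul]; exact A.sq i j⟩

private theorem SCh1_right [σ.IsTriangulated] (Z : EqObj σ) (j : Fin 24) (a : ℤ)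
    (h : SCh1_P A.t (chi k σ Z (A.E j))) :
    SCh1_P A.t (chi k σ Z ((A.E j).scale (A.t ^ a))) := by
  rw [chi_scale_right k Z (A.E j) (A.t ^ a) (extFin_of_full k A.s A.fin _ _)]
  exact SCh1_sub _ _ _ h (SCh1_sc _ _ _)

private theorem SCh1_left [σ.IsTriangulated] (Z : EqObj σ) (j : Fin 24) (a : ℤ)
    (h : SCh1_P A.t (chi k σ (A.E j) Z)) :
    SCh1_P A.t (chi k σ ((A.E j).scale (A.t ^ a)) Z) := by
  rw [chi_scale_left k (A.E j) Z (A.t ^ a) (extFin_of_full k A.s A.fin _ _)]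
  exact SCh1_add _ _ _ h (SCh1_sc _ _ _)

private theorem SCh1_num [σ.IsTriangulated] (Z : EqObj σ) (j : Fin 24) (a n : ℤ)
    (hn : (chi k σ Z (A.E j)).1 = n) (hq : (2 : ℤ) • (chi k σ Z (A.E j)).2 = 0) :
    (chi k σ Z ((A.E j).scale (A.t ^ a))).1 = n ∧
    (2 : ℤ) • (chi k σ Z ((A.E j).scale (A.t ^ a))).2 = (-(2 * n * a)) • Additive.ofMul A.t := by
  rw [chi_scale_right k Z (A.E j) (A.t ^ a) (extFin_of_full k A.s A.fin _ _), hn]
  refine ⟨?_, ?_⟩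
  · rw [Prod.fst_sub, hn, sub_zero]
  · rw [Prod.snd_sub, zsmul_sub, hq, zero_sub, SCh1_zpow, smul_smul, smul_smul, ← neg_smul,
      mul_assoc]

/-- Numbers: the determinants with `S` are `±` powers of `t`; `χ(Q₁₃,S) = (1, ±t⁷)`,
`χ(Q₁₂,S) = (1, ±t⁹)`.

PROOF. `Setup.chi_S` and `chi_scale_right/left`: `chi Z (X.scale c) = chi Z X - (0, n c)`, `n = (chi Z X).1`; `2 • (chi (E i) (E j)).2 = 0`
(`A.sq`). For `Z = E 13` (`n₁₈, …, n₂₃ = 0, 0, 5, 7, 9, 12`): `.1 = 0 - (0+5+5) + (7+7+9) - 12 = 1` and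
`2 • .2 = 2 • (0 + 5 - 5 + 7 + 21 - 9 - 12) • τ = 14 τ` with `τ = ofMul t`; for `Z = E 12` (`0, 0, 7, 9, 12, 15`): `.1 = 1`,
`2 • .2 = 2 (9 + 27 - 12 - 15) τ = 18 τ`. `chi S S`: take `Z = S` in the second formula. -/
theorem Setup.S_numbers [σ.IsTriangulated] : ∃ φ : K.S ≅ σ.obj K.S,
    (∀ i, (chi k σ (A.E i) ⟨K.S, φ⟩).2.toMul ∈ GG A.t 1) ∧
    (∀ i, (chi k σ ⟨K.S, φ⟩ (A.E i)).2.toMul ∈ GG A.t 1) ∧
    (chi k σ (⟨K.S, φ⟩ : EqObj σ) ⟨K.S, φ⟩).2.toMul ∈ GG A.t 1 ∧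
    (chi k σ (A.E 13) ⟨K.S, φ⟩).1 = 1 ∧ (chi k σ (A.E 12) ⟨K.S, φ⟩).1 = 1 ∧
    (2 : ℤ) • (chi k σ (A.E 13) ⟨K.S, φ⟩).2 = (14 : ℤ) • Additive.ofMul A.t ∧
    (2 : ℤ) • (chi k σ (A.E 12) ⟨K.S, φ⟩).2 = (18 : ℤ) • Additive.ofMul A.t := by
  obtain ⟨φ, hr, hl⟩ := A.chi_S K
  have hL : ∀ Z : EqObj σ, (∀ j, SCh1_P A.t (chi k σ (A.E j) Z)) →
      SCh1_P A.t (chi k σ ⟨K.S, φ⟩ Z) := by
    intro Z hZ
    rw [hl Z]
    exact SCh1_sub _ _ _ (SCh1_add _ _ _ (SCh1_sub _ _ _ (hZ _)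
      (SCh1_add _ _ _ (SCh1_left A Z _ _ (hZ _)) (SCh1_add _ _ _ (SCh1_left A Z _ _ (hZ _))
        (SCh1_left A Z _ _ (hZ _)))))
      (SCh1_add _ _ _ (SCh1_add _ _ _ (SCh1_left A Z _ _ (hZ _)) (SCh1_left A Z _ _ (hZ _)))
        (SCh1_left A Z _ _ (hZ _)))) (SCh1_left A Z _ _ (hZ _))
  have hR : ∀ Z : EqObj σ, (∀ j, SCh1_P A.t (chi k σ Z (A.E j))) →
      SCh1_P A.t (chi k σ Z ⟨K.S, φ⟩) := by
    intro Z hZ
    rw [hr Z]
    exact SCh1_sub _ _ _ (SCh1_add _ _ _ (SCh1_sub _ _ _ (hZ _)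
      (SCh1_add _ _ _ (SCh1_right A Z _ _ (hZ _)) (SCh1_add _ _ _ (SCh1_right A Z _ _ (hZ _))
        (SCh1_right A Z _ _ (hZ _)))))
      (SCh1_add _ _ _ (SCh1_add _ _ _ (SCh1_right A Z _ _ (hZ _)) (SCh1_right A Z _ _ (hZ _)))
        (SCh1_right A Z _ _ (hZ _)))) (SCh1_right A Z _ _ (hZ _))
  have hRE : ∀ i, SCh1_P A.t (chi k σ (A.E i) ⟨K.S, φ⟩) := fun i => hR _ fun j => SCh1_E A i j
  have key : ∀ (i : Fin 24) (n18 n19 n20 n21 n22 n23 : ℤ),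
      (chi k σ (A.E i) (A.E 18)).1 = n18 → (chi k σ (A.E i) (A.E 19)).1 = n19 →
      (chi k σ (A.E i) (A.E 20)).1 = n20 → (chi k σ (A.E i) (A.E 21)).1 = n21 →
      (chi k σ (A.E i) (A.E 22)).1 = n22 → (chi k σ (A.E i) (A.E 23)).1 = n23 →
      (chi k σ (A.E i) ⟨K.S, φ⟩).1 = n18 - (n19 + (n20 + n20)) + ((n21 + n21) + n22) - n23 ∧
      (2 : ℤ) • (chi k σ (A.E i) ⟨K.S, φ⟩).2 =
        (2 * (-2 * n19 + 4 * n21 - n22 - n23)) • Additive.ofMul A.t := by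
    intro i n18 n19 n20 n21 n22 n23 h18 h19 h20 h21 h22 h23
    obtain ⟨a1, b1⟩ := SCh1_num A (A.E i) 19 (-2) n19 h19 (A.sq i 19)
    obtain ⟨a2, b2⟩ := SCh1_num A (A.E i) 20 1 n20 h20 (A.sq i 20)
    obtain ⟨a3, b3⟩ := SCh1_num A (A.E i) 20 (-1) n20 h20 (A.sq i 20)
    obtain ⟨a4, b4⟩ := SCh1_num A (A.E i) 21 (-1) n21 h21 (A.sq i 21)
    obtain ⟨a5, b5⟩ := SCh1_num A (A.E i) 21 (-3) n21 h21 (A.sq i 21)
    obtain ⟨a6, b6⟩ := SCh1_num A (A.E i) 22 1 n22 h22 (A.sq i 22)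
    obtain ⟨a7, b7⟩ := SCh1_num A (A.E i) 23 (-1) n23 h23 (A.sq i 23)
    have b0 : (2 : ℤ) • (chi k σ (A.E i) (A.E 18)).2 = 0 := A.sq i 18
    rw [hr (A.E i)]
    refine ⟨?_, ?_⟩
    · simp only [Prod.fst_add, Prod.fst_sub, a1, a2, a3, a4, a5, a6, a7, h18]
    · simp only [Prod.snd_add, Prod.snd_sub, zsmul_add, zsmul_sub, b0, b1, b2, b3, b4, b5, b6, b7]
      rw [zero_sub]
      simp only [← add_zsmul, SCh1_sz, ← neg_zsmul]
      congr 1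
      ring
  refine ⟨φ, fun i => SCh1_GG _ _ (hRE i), fun i => SCh1_GG _ _ (hL _ fun j => SCh1_E A j i),
    SCh1_GG _ _ (hL _ hRE), ?_⟩
  obtain ⟨p1, p2⟩ := key 13 0 0 5 7 9 12 (A.num13 0) (A.num13 1) (A.num13 2) (A.num13 3)
    (A.num13 4) (A.num13 5)
  obtain ⟨q1, q2⟩ := key 12 0 0 7 9 12 15 (A.num12 0) (A.num12 1) (A.num12 2) (A.num12 3)
    (A.num12 4) (A.num12 5)
  refine ⟨?_, ?_, ?_, ?_⟩
  · rw [p1]; norm_num
  · rw [q1]; norm_num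
  · rw [p2]; norm_num
  · rw [q2]; norm_num

end BO
end
end

section

end

section

/-!
# TASK Fam0: the members of the family `E(m)` (all short)
-/

set_option autoImplicit false

noncomputable section

open CategoryTheory CategoryTheory.Limits CategoryTheory.Pretriangulated

namespace BO

universe w v u

variable {k : Type w} [Field k] {C : Type u} [Category.{v} C] [Preadditive C] [Linear k C]
  [HasZeroObject C] [HasShift C ℤ] [∀ n : ℤ, (shiftFunctor C n).Additive]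
  [∀ n : ℤ, Functor.Linear k (shiftFunctor C n)] [Pretriangulated C]
  {σ : C ⥤ C} [σ.CommShift ℤ] [σ.Additive] [σ.Linear k] [σ.Full] [σ.Faithful]
  (A : Setup k (C := C) σ) (K : Conv A.D.d0 A.D.d1 A.D.d2)

/-- The type one objects `a, aF, c, cF`. -/
def Setup.T (j : Fin 6) (h : j ≠ 2 ∧ j ≠ 3) : TObj k (A.D.sg K) :=
  ⟨A.s.obj (ix j), A.D.f K j, A.D.g K j, A.D.typeOne K j h.1 h.2⟩

/-- The `m`-th twist of `a, aF, c, cF`. -/
def Setup.Tm (m : ℕ) (j : Fin 6) (h : j ≠ 2 ∧ j ≠ 3) : TObj k (A.D.sg K) :=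
  (TObj.tw (A.D.spherical K))^[m] (A.T K j h)

/-- The members of `E(m)`. -/
def Setup.obj (m : ℕ) (i : Fin 24) : C :=
  if h : ∃ j : Fin 6, i = ix j ∧ j ≠ 2 ∧ j ≠ 3 then (A.Tm K m h.choose h.choose_spec.2).X
  else A.s.obj i

theorem ix_injective : Function.Injective ix := by
  intro i j h
  have := congrArg Fin.val h
  simp only [ix] at this
  exact Fin.ext (by omega)

theorem ix_cases (i : Fin 24) : i.val < 18 ∨ ∃ j, i = ix j := by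
  by_cases h : i.val < 18
  · exact Or.inl h
  · refine Or.inr ⟨⟨i.val - 18, by omega⟩, Fin.ext ?_⟩
    simp only [ix]
    omega

theorem ix_lt (i j : Fin 6) : ix i < ix j ↔ i < j := by
  rw [Fin.lt_def, Fin.lt_def]
  simp only [ix]
  omega

theorem Setup.obj_T (m : ℕ) (j : Fin 6) (h : j ≠ 2 ∧ j ≠ 3) : A.obj K m (ix j) = (A.Tm K m j h).X := by
  have hex : ∃ j' : Fin 6, ix j = ix j' ∧ j' ≠ 2 ∧ j' ≠ 3 := ⟨j, rfl, h⟩
  have key : ∀ (j' : Fin 6) (h' : j' ≠ 2 ∧ j' ≠ 3), j' = j → (A.Tm K m j' h').X = (A.Tm K m j h).X := by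
    rintro j' h' rfl
    rfl
  unfold Setup.obj
  rw [dif_pos hex]
  exact key _ _ (ix_injective hex.choose_spec.1).symm

theorem Setup.obj_of_not (m : ℕ) (i : Fin 24) (h : ∀ j : Fin 6, i = ix j → j = 2 ∨ j = 3) :
    A.obj K m i = A.s.obj i := by
  have hn : ¬ ∃ j : Fin 6, i = ix j ∧ j ≠ 2 ∧ j ≠ 3 := by
    rintro ⟨j, hj, h2, h3⟩
    rcases h j hj with h | h
    · exact h2 h
    · exact h3 h
  unfold Setup.obj
  rw [dif_neg hn]

end BO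
end
end

section

/-!
# TASK Fam1
-/

set_option autoImplicit false

noncomputable section

open CategoryTheory CategoryTheory.Limits CategoryTheory.Pretriangulated

namespace BO

universe w v u

variable {k : Type w} [Field k] {C : Type u} [Category.{v} C] [Preadditive C] [Linear k C]
  [HasZeroObject C] [HasShift C ℤ] [∀ n : ℤ, (shiftFunctor C n).Additive]
  [∀ n : ℤ, Functor.Linear k (shiftFunctor C n)] [Pretriangulated C]
  {σ : C ⥤ C} [σ.CommShift ℤ] [σ.Additive] [σ.Linear k] [σ.Full] [σ.Faithful]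
  (A : Setup k (C := C) σ) (K : Conv A.D.d0 A.D.d1 A.D.d2)

omit [Linear k C] [HasZeroObject C] [∀ n : ℤ, (shiftFunctor C n).Additive]
  [∀ n : ℤ, Functor.Linear k (shiftFunctor C n)] [Pretriangulated C] [σ.CommShift ℤ]
  [σ.Additive] [σ.Linear k] [σ.Full] [σ.Faithful] in
private theorem Fam1_bi {X Y W : C} [HasBinaryBiproducts C]
    (hX : ∀ x : X ⟶ W, x = 0) (hY : ∀ x : Y ⟶ W, x = 0) (x : X ⊞ Y ⟶ W) : x = 0 := by
  apply biprod.hom_ext'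
  · rw [hX (biprod.inl ≫ x), comp_zero]
  · rw [hY (biprod.inr ≫ x), comp_zero]

/-- The first 18 members are orthogonal to `S` on the right: `Conv.orth_left`, `A.s.orth`, sums. -/
theorem Setup.S_orth (i : Fin 24) (hi : i.val < 18) (n : ℤ) (x : K.S ⟶ (A.s.obj i)⟦n⟧) : x = 0 := by
  have hQ : ∀ (j : Fin 6) (n : ℤ) (x : A.s.obj (ix j) ⟶ (A.s.obj i)⟦n⟧), x = 0 := by
    intro j n x
    refine A.s.orth i (ix j) ?_ n x
    rw [Fin.lt_def]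
    show i.val < 18 + j.val
    omega
  refine Conv.orth_left K (A.s.obj i) ?_ ?_ ?_ ?_ n x
  · exact fun n x => hQ 0 n x
  · exact fun n x => Fam1_bi (hQ 1 n) (Fam1_bi (hQ 2 n) (hQ 2 n)) x
  · exact fun n x => Fam1_bi (Fam1_bi (hQ 3 n) (hQ 3 n)) (hQ 4 n) x
  · exact fun n x => hQ 5 n x

/-- `exc_iterate`, `A.s.exc`. -/
theorem Setup.obj_exc (m : ℕ) (i : Fin 24) : IsExceptional k (A.obj K m i) := by
  by_cases h : ∃ j : Fin 6, i = ix j ∧ j ≠ 2 ∧ j ≠ 3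
  · obtain ⟨j, rfl, hj⟩ := h
    rw [A.obj_T K m j hj]
    exact exc_iterate (A.D.spherical K) (A.T K j hj) (A.s.exc (ix j)) m
  · rw [A.obj_of_not K m i ?_]
    · exact A.s.exc i
    · intro j hj
      by_contra hcon
      rw [not_or] at hcon
      exact h ⟨j, hj, hcon⟩

private theorem Setup.Fam1_left (j : Fin 6) (hj : j ≠ 2 ∧ j ≠ 3) (Y : C)
    (hS : ∀ (n : ℤ) (x : K.S ⟶ Y⟦n⟧), x = 0)
    (h0 : ∀ (n : ℤ) (x : A.s.obj (ix j) ⟶ Y⟦n⟧), x = 0) (m : ℕ) :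
    ∀ (n : ℤ) (x : (A.Tm K m j hj).X ⟶ Y⟦n⟧), x = 0 := by
  induction m with
  | zero => exact h0
  | succ m ih =>
    obtain ⟨p, hp⟩ := (A.Tm K m j hj).tw_spec (A.D.spherical K)
    have e : A.Tm K (m + 1) j hj = (A.Tm K m j hj).tw (A.D.spherical K) := by
      unfold Setup.Tm
      rw [Function.iterate_succ_apply']
    rw [e]
    exact fun n x => orth_twist_left hp hS ih n x

private theorem Setup.Fam1_right (j : Fin 6) (hj : j ≠ 2 ∧ j ≠ 3) (Y : C)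
    (hS : ∀ (n : ℤ) (x : Y ⟶ K.S⟦n⟧), x = 0)
    (h0 : ∀ (n : ℤ) (x : Y ⟶ (A.s.obj (ix j))⟦n⟧), x = 0) (m : ℕ) :
    ∀ (n : ℤ) (x : Y ⟶ (A.Tm K m j hj).X⟦n⟧), x = 0 := by
  induction m with
  | zero => exact h0
  | succ m ih =>
    obtain ⟨p, hp⟩ := (A.Tm K m j hj).tw_spec (A.D.spherical K)
    have e : A.Tm K (m + 1) j hj = (A.Tm K m j hj).tw (A.D.spherical K) := by
      unfold Setup.Tm
      rw [Function.iterate_succ_apply']
    rw [e]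
    exact fun n x => orth_twist_right hp hS ih n x

/-- PROOF. Cases `i`, `j` twisted or not (`ix_cases`, `Setup.obj_T`, `Setup.obj_of_not`): both twisted: `orth_iterate`; none: `A.s.orth`;
`j` twisted, `i` not: induction on `m` with `orth_twist_left` and `Hom(S, Q i[n]) = 0` (`Setup.S_orth`, `Six.orth_left`); `i` twisted, `j`
not (then `j = 20` or `21`): `orth_twist_right` and `Six.orth_right`. -/
theorem Setup.obj_orth (m : ℕ) (i j : Fin 24) (h : i < j) (n : ℤ)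
    (x : A.obj K m j ⟶ (A.obj K m i)⟦n⟧) : x = 0 := by
  have hnot : ∀ i : Fin 24, (¬ ∃ j : Fin 6, i = ix j ∧ j ≠ 2 ∧ j ≠ 3) →
      ∀ j : Fin 6, i = ix j → j = 2 ∨ j = 3 := by
    intro i hi j hj
    by_contra hcon
    rw [not_or] at hcon
    exact hi ⟨j, hj, hcon⟩
  by_cases hj : ∃ l : Fin 6, j = ix l ∧ l ≠ 2 ∧ l ≠ 3
  · obtain ⟨lj, rfl, hlj⟩ := hj
    by_cases hi : ∃ l : Fin 6, i = ix l ∧ l ≠ 2 ∧ l ≠ 3
    · obtain ⟨li, rfl, hli⟩ := hi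
      revert x
      rw [A.obj_T K m lj hlj, A.obj_T K m li hli]
      intro x
      exact orth_iterate (A.D.spherical K) (A.T K lj hlj) (A.T K li hli)
        (fun n x => A.s.orth _ _ h n x) m n x
    · have hi' := hnot i hi
      revert x
      rw [A.obj_T K m lj hlj, A.obj_of_not K m i hi']
      intro x
      refine A.Fam1_left K lj hlj (A.s.obj i) ?_ (fun n x => A.s.orth _ _ h n x) m n x
      rcases ix_cases i with h1 | ⟨l, rfl⟩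
      · exact fun n x => A.S_orth K i h1 n x
      · exact fun n x => A.D.orth_left K l (hi' l rfl) n x
  · have hj' := hnot j hj
    by_cases hi : ∃ l : Fin 6, i = ix l ∧ l ≠ 2 ∧ l ≠ 3
    · obtain ⟨li, rfl, hli⟩ := hi
      revert x
      rw [A.obj_T K m li hli, A.obj_of_not K m j hj']
      intro x
      refine A.Fam1_right K li hli (A.s.obj j) ?_ (fun n x => A.s.orth _ _ h n x) m n x
      rcases ix_cases j with h1 | ⟨l, rfl⟩
      · exfalso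
        rw [Fin.lt_def] at h
        have h2 : (ix li).val = 18 + li.val := rfl
        omega
      · exact fun n x => A.D.orth_right K l (hj' l rfl) n x
    · revert x
      rw [A.obj_of_not K m j hj', A.obj_of_not K m i (hnot i hi)]
      intro x
      exact A.s.orth i j h n x

end BO
end
end

section

/-!
# TASK Fam2
-/

set_option autoImplicit false

noncomputable section

open CategoryTheory CategoryTheory.Limits CategoryTheory.Pretriangulated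

namespace BO

universe w v u

variable {k : Type w} [Field k] {C : Type u} [Category.{v} C] [Preadditive C] [Linear k C]
  [HasZeroObject C] [HasShift C ℤ] [∀ n : ℤ, (shiftFunctor C n).Additive]
  [∀ n : ℤ, Functor.Linear k (shiftFunctor C n)] [Pretriangulated C]
  {σ : C ⥤ C} [σ.CommShift ℤ] [σ.Additive] [σ.Linear k] [σ.Full] [σ.Faithful]
  (A : Setup k (C := C) σ) (K : Conv A.D.d0 A.D.d1 A.D.d2)

omit [Linear k C] [∀ n : ℤ, Functor.Linear k (shiftFunctor C n)] in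
private theorem Fam2_tri {X A A' N : C} (n : N ⟶ X) (e : X ⟶ A) (r : A ⟶ N⟦(1 : ℤ)⟧)
    (hT : Triangle.mk n e r ∈ distTriang C) (ε : A ≅ A') :
    Triangle.mk (e ≫ ε.hom) (ε.inv ≫ r) (-(n⟦(1 : ℤ)⟧')) ∈ distTriang C := by
  refine isomorphic_distinguished _ (rot_of_distTriang _ hT) _
    (Triangle.isoMk _ _ (Iso.refl X) ε.symm (Iso.refl (N⟦(1 : ℤ)⟧)) ?_ ?_ ?_)
  · show (e ≫ ε.hom) ≫ ε.inv = 𝟙 X ≫ e
    simp
  · show (ε.inv ≫ r) ≫ 𝟙 _ = ε.inv ≫ r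
    simp
  · show (-(n⟦(1 : ℤ)⟧')) ≫ (𝟙 X)⟦(1 : ℤ)⟧' = 𝟙 _ ≫ (-(n⟦(1 : ℤ)⟧'))
    simp

omit [Linear k C] [∀ n : ℤ, Functor.Linear k (shiftFunctor C n)] in
private theorem Fam2_neg {X Y Z : C} (f : X ⟶ Y) (g : Y ⟶ Z) (h : Z ⟶ X⟦(1 : ℤ)⟧)
    (hT : Triangle.mk f g h ∈ distTriang C) : Triangle.mk (-f) g (-h) ∈ distTriang C := by
  refine isomorphic_distinguished _ hT _
    (Triangle.isoMk _ _ (⟨-𝟙 X, -𝟙 X, by simp, by simp⟩ : X ≅ X) (Iso.refl Y) (Iso.refl Z)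
      ?_ ?_ ?_)
  · show (-f) ≫ 𝟙 Y = (-𝟙 X) ≫ f
    simp
  · show g ≫ 𝟙 Z = 𝟙 Y ≫ g
    simp
  · show (-h) ≫ (-𝟙 X)⟦(1 : ℤ)⟧' = 𝟙 Z ≫ h
    simp

/-- Fullness of `E(m)`.

PROOF. By `A.s.full` it suffices that `P (A.s.obj i)` for all `i`; this is given for `i` not twisted. For the four others use
`full_chain` with `T0, T1, T2, T3 = A.T K 0, 1, 4, 5` (`a, aF, c, cF`). `x2 = A.D.m 1 4 (z₀)` (`T1.f ≫ x2 = T2.f`: `kap' 1 * z₀ = kap' 4`,
commutativity), `D2` a cone of it. `e : cF ⟶ (T0.tw).X`: `K.tri3` is a twist triangle of `K.f = T0.f` (`Six.m_one`), `TObj.iso_tw` gives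
`ε : K.A ≅ (T0.tw).X` with `ε.hom ≫ g' = K.gA`; `e = K.e ≫ ε.hom`. `T3.f ≫ e = (T0.tw hS).f`: it is `c • (T0.tw hS).f` (`hom_eq`), and
composing with `g'` gives `sg = c • sg`. `D4 = K.N[1]` (triangle `K.tri2` rotated, `ε`). `P D2 → P D4`: `cone_block` for `D.d1`, with
`X = Q 1`, `Y = Q 2 ⊞ Q 2`, `Z = Q 3 ⊞ Q 3`, `W = Q 4`; the block is `-(D.m 1 4 z₀)` (its cone is isomorphic to `D2`); `P` of `Q 2`, `Q 3` is
given (`Setup.obj_of_not`). -/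
theorem Setup.obj_full [IsTriangulated C] (m : ℕ) (P : ObjectProperty C) (hP : P.IsTriangulated)
    (hP' : P.IsClosedUnderIsomorphisms) (h : ∀ i, P (A.obj K m i)) (X : C) : P X := by
  have hS := A.D.spherical K
  have n0 : (0 : Fin 6) ≠ 2 ∧ (0 : Fin 6) ≠ 3 := by decide
  have n1 : (1 : Fin 6) ≠ 2 ∧ (1 : Fin 6) ≠ 3 := by decide
  have n4 : (4 : Fin 6) ≠ 2 ∧ (4 : Fin 6) ≠ 3 := by decide
  have n5 : (5 : Fin 6) ≠ 2 ∧ (5 : Fin 6) ≠ 3 := by decide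
  -- the objects which are not twisted
  have hnot : ∀ i : Fin 24, (∀ j : Fin 6, i = ix j → j = 2 ∨ j = 3) → P (A.s.obj i) := by
    intro i hi
    rw [← Setup.obj_of_not A K m i hi]
    exact h i
  have hQ2 : P (A.s.obj (ix 2)) := hnot _ fun j hj => Or.inl (ix_injective hj).symm
  have hQ3 : P (A.s.obj (ix 3)) := hnot _ fun j hj => Or.inr (ix_injective hj).symm
  -- the map `x2`
  have hx2 : (A.T K 1 n1).f ≫ A.D.m 1 4 (z0 k) = (A.T K 4 n4).f := by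
    show (K.f ≫ A.D.m 0 1 (kap' k 1)) ≫ A.D.m 1 4 (z0 k) = K.f ≫ A.D.m 0 4 (kap' k 4)
    have h1 : A.D.m 0 1 (kap' k 1) ≫ A.D.m 1 4 (z0 k) = A.D.m 0 4 (kap' k 1 * z0 k) :=
      A.D.m_comp 0 1 4 _ _ (mem_u1_01 k) (mem_z0_14 k)
    rw [Category.assoc, h1]
    rfl
  obtain ⟨D2, b2, c2, hD2⟩ := distinguished_cocone_triangle (A.D.m 1 4 (z0 k))
  -- the twist of `a`
  have hT0f : A.D.f K 0 = K.f := by
    show K.f ≫ A.D.m 0 0 (kap' k 0) = K.f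
    have h1 : kap' k 0 = 1 := rfl
    rw [h1, A.D.m_one]
    exact Category.comp_id _
  have htw : IsTwist (A.T K 0 n0).f K.p K.gA := by
    show IsTwist (A.D.f K 0) K.p K.gA
    rw [hT0f]; exact K.tri3
  obtain ⟨ε, hε⟩ := TObj.iso_tw hS (A.T K 0 n0) htw
  have he : (A.T K 5 n5).f ≫ (K.e ≫ ε.hom) = ((A.T K 0 n0).tw hS).f := by
    obtain ⟨c, hc⟩ := ((A.T K 0 n0).tw hS).h.hom_eq ((A.T K 5 n5).f ≫ (K.e ≫ ε.hom))
    have h1 : ((A.T K 5 n5).f ≫ (K.e ≫ ε.hom)) ≫ ((A.T K 0 n0).tw hS).g = A.D.sg K := by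
      rw [Category.assoc, Category.assoc, hε]
      rfl
    have h2 : A.D.sg K = c • A.D.sg K := by
      conv_lhs => rw [← h1, hc, Linear.smul_comp, ((A.T K 0 n0).tw hS).h.fg]
    have h3 : c = 1 := by
      have h4 : (c - 1) • A.D.sg K = 0 := by rw [sub_smul, one_smul, ← h2, sub_self]
      rcases smul_eq_zero.mp h4 with h5 | h5
      · exact sub_eq_zero.mp h5
      · exact absurd h5 hS.ne_zero
    rw [hc, h3, one_smul]
  have hD4 : Triangle.mk (K.e ≫ ε.hom) (ε.inv ≫ K.r) (-(K.n⟦(1 : ℤ)⟧')) ∈ distTriang C := by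
    exact Fam2_tri K.n K.e K.r K.tri2 ε
  have hPD : P D2 → P (K.N⟦(1 : ℤ)⟧) := by
    intro hD
    have hY : P (A.s.obj (ix 2) ⊞ A.s.obj (ix 2)) :=
      P.ext_of_isTriangulatedClosed₂ _ (binaryBiproductTriangle_distinguished _ _) hQ2 hQ2
    have hZ : P (A.s.obj (ix 3) ⊞ A.s.obj (ix 3)) :=
      P.ext_of_isTriangulatedClosed₂ _ (binaryBiproductTriangle_distinguished _ _) hQ3 hQ3
    have hb : (biprod.inl : A.s.obj (ix 1) ⟶ A.s.obj (ix 1) ⊞ (A.s.obj (ix 2) ⊞ A.s.obj (ix 2))) ≫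
        A.D.d1 ≫ biprod.snd = -A.D.m 1 4 (z0 k) := by
      unfold Six.d1
      rw [biprod.inl_desc_assoc, biprod.lift_snd]
    have hneg : Triangle.mk ((biprod.inl : A.s.obj (ix 1) ⟶ A.s.obj (ix 1) ⊞
        (A.s.obj (ix 2) ⊞ A.s.obj (ix 2))) ≫ A.D.d1 ≫ biprod.snd) b2 (-c2) ∈ distTriang C := by
      rw [hb]
      exact Fam2_neg _ _ _ hD2
    have hN := cone_block P A.D.d1 K.i K.j K.tri1 hY hZ b2 (-c2) hneg hD
    exact P.le_shift 1 _ hN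
  have key := full_chain hS (A.T K 0 n0) (A.T K 1 n1) (A.T K 4 n4) (A.T K 5 n5)
    (A.D.m 1 4 (z0 k)) hx2 b2 c2 hD2 (K.e ≫ ε.hom) he (ε.inv ≫ K.r) (-(K.n⟦(1 : ℤ)⟧')) hD4 P hPD m
    (by have := h (ix 0); rw [Setup.obj_T A K m 0 n0] at this; exact this)
    (by have := h (ix 1); rw [Setup.obj_T A K m 1 n1] at this; exact this)
    (by have := h (ix 4); rw [Setup.obj_T A K m 4 n4] at this; exact this)
    (by have := h (ix 5); rw [Setup.obj_T A K m 5 n5] at this; exact this)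
  refine A.s.full P hP hP' (fun i => ?_) X
  rcases ix_cases i with hi | ⟨j, rfl⟩
  · apply hnot
    intro j hj
    rw [hj] at hi
    have : (ix j).val = 18 + j.1 := rfl
    omega
  · fin_cases j
    · exact key.1
    · exact key.2.1
    · exact hQ2
    · exact hQ3
    · exact key.2.2.1
    · exact key.2.2.2

end BO
end
end

section

/-!
# TASK Fam3
-/

set_option autoImplicit false

noncomputable section

open CategoryTheory CategoryTheory.Limits CategoryTheory.Pretriangulated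

namespace BO

universe w v u

variable {k : Type w} [Field k] {C : Type u} [Category.{v} C] [Preadditive C] [Linear k C]
  [HasZeroObject C] [HasShift C ℤ] [∀ n : ℤ, (shiftFunctor C n).Additive]
  [∀ n : ℤ, Functor.Linear k (shiftFunctor C n)] [Pretriangulated C]
  {σ : C ⥤ C} [σ.CommShift ℤ] [σ.Additive] [σ.Linear k] [σ.Full] [σ.Faithful]
  (A : Setup k (C := C) σ) (K : Conv A.D.d0 A.D.d1 A.D.d2)

include A in
theorem Setup.extFin (X Y : C) : ExtFin k X Y := extFin_of_full k A.s A.fin X Y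

open Classical in
private def bb (i : Fin 24) : ℤ := if ∃ j : Fin 6, i = ix j ∧ j ≠ 2 ∧ j ≠ 3 then 1 else 0

private theorem Fam3_one [σ.IsTriangulated] [IsTriangulated C] (m : ℕ) (φS : K.S ≅ σ.obj K.S)
    (i : Fin 24) :
    ∃ φ : A.obj K (2 * m) i ≅ σ.obj (A.obj K (2 * m) i),
      (∀ Z : EqObj σ, chi k σ Z ⟨_, φ⟩ = chi k σ Z (A.E i) - (bb i * (m : ℤ)) •
        (2 * (chi k σ Z ⟨K.S, φS⟩).1, (2 : ℤ) • (chi k σ Z ⟨K.S, φS⟩).2 +
          (chi k σ Z ⟨K.S, φS⟩).1 • ((2 : ℤ) • (chi k σ ⟨K.S, φS⟩ (A.E i)).2 -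
            (2 * (m : ℤ) - 1) • (chi k σ (⟨K.S, φS⟩ : EqObj σ) ⟨K.S, φS⟩).2))) ∧
      (∀ Z : EqObj σ, chi k σ ⟨_, φ⟩ Z = chi k σ (A.E i) Z - (bb i * (m : ℤ)) •
        (2 * (chi k σ ⟨K.S, φS⟩ Z).1, (2 : ℤ) • (chi k σ ⟨K.S, φS⟩ Z).2 -
          (chi k σ ⟨K.S, φS⟩ Z).1 • ((2 : ℤ) • (chi k σ ⟨K.S, φS⟩ (A.E i)).2 -
            (2 * (m : ℤ) - 1) • (chi k σ (⟨K.S, φS⟩ : EqObj σ) ⟨K.S, φS⟩).2))) := by
  by_cases h : ∃ j : Fin 6, i = ix j ∧ j ≠ 2 ∧ j ≠ 3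
  · have hb : bb i = 1 := by unfold bb; exact if_pos h
    rw [hb]
    obtain ⟨j, rfl, hj⟩ := h
    rw [A.obj_T K (2 * m) j hj]
    obtain ⟨φ, h1, h2⟩ := chi_iterate (S := (⟨K.S, φS⟩ : EqObj σ)) A.extFin (A.D.spherical K)
      (A.T K j hj) (A.φ (ix j)) m
    refine ⟨φ, fun Z => ?_, fun Z => ?_⟩
    · rw [one_mul]; exact h1 Z
    · rw [one_mul]; exact h2 Z
  · have hb : bb i = 0 := by unfold bb; exact if_neg h
    rw [hb, A.obj_of_not K (2 * m) i (fun j hj => by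
      by_contra hc
      push Not at hc
      exact h ⟨j, hj, hc.1, hc.2⟩)]
    refine ⟨A.φ i, fun Z => ?_, fun Z => ?_⟩
    · rw [zero_mul, zero_smul, sub_zero]; rfl
    · rw [zero_mul, zero_smul, sub_zero]; rfl

/-- membership in `GG` in additive notation -/
private theorem mem_GG (t : kˣ) (d : ℤ) (X : Additive kˣ) :
    X.toMul ∈ GG t d ↔ ∃ n : ℤ, (2 : ℤ) • X = (2 * (d * n)) • Additive.ofMul t := by
  constructor
  · rintro ⟨n, hn⟩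
    refine ⟨n, ?_⟩
    apply Additive.toMul.injective
    rw [toMul_zsmul, toMul_zsmul, toMul_ofMul, ← hn]
    exact zpow_ofNat _ 2
  · rintro ⟨n, hn⟩
    refine ⟨n, ?_⟩
    have h := congrArg Additive.toMul hn
    rw [toMul_zsmul, toMul_zsmul, toMul_ofMul] at h
    rw [← h]
    exact (zpow_ofNat _ 2).symm

private theorem GG_smul {t : kˣ} {X : Additive kˣ} (h : ∃ n : ℤ, (2 : ℤ) • X = (2 * (1 * n)) • Additive.ofMul t)
    (c : ℤ) : ∃ n : ℤ, (2 : ℤ) • (c • X) = (2 * (1 * n)) • Additive.ofMul t := by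
  obtain ⟨n, hn⟩ := h
  refine ⟨c * n, ?_⟩
  rw [smul_comm, hn, smul_smul]
  congr 1
  ring

private theorem GG_add {t : kˣ} {X Y : Additive kˣ} (h : ∃ n : ℤ, (2 : ℤ) • X = (2 * (1 * n)) • Additive.ofMul t)
    (h' : ∃ n : ℤ, (2 : ℤ) • Y = (2 * (1 * n)) • Additive.ofMul t) :
    ∃ n : ℤ, (2 : ℤ) • (X + Y) = (2 * (1 * n)) • Additive.ofMul t := by
  obtain ⟨n, hn⟩ := h
  obtain ⟨n', hn'⟩ := h'
  refine ⟨n + n', ?_⟩
  rw [zsmul_add, hn, hn', ← add_zsmul]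
  congr 1
  ring

private theorem GG_sub {t : kˣ} {X Y : Additive kˣ} (h : ∃ n : ℤ, (2 : ℤ) • X = (2 * (1 * n)) • Additive.ofMul t)
    (h' : ∃ n : ℤ, (2 : ℤ) • Y = (2 * (1 * n)) • Additive.ofMul t) :
    ∃ n : ℤ, (2 : ℤ) • (X - Y) = (2 * (1 * n)) • Additive.ofMul t := by
  obtain ⟨n, hn⟩ := h
  obtain ⟨n', hn'⟩ := h'
  refine ⟨n - n', ?_⟩
  rw [zsmul_sub, hn, hn', sub_eq_add_neg, ← neg_zsmul, ← add_zsmul]
  congr 1
  ring

/-- (i) `P_{±t^(mℤ)}(E(2m))`, with the Euler numbers needed in (ii).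

PROOF. `φS` from `Setup.S_numbers`; write `S` for `⟨K.S, φS⟩`. On the members which are not twisted take `A.φ`; on `Q j` twisted take
the structure of `chi_iterate` (for `A.T K j`, `A.φ`). Let `(a,x) = chi Z S`, `(1,e) = chi S X`, `(0,s) = chi S S`: determinants in
`GG t 1 = ±t^ℤ`. `chi Z X_{2m} = chi Z X - m • (2a, 2x + a(2e-(2m-1)s))`, so for `Z` not twisted the determinant is in `GG t m`
(`A.sq`: `chi Z X` has determinant `±1`). The mirror formula for `X` twisted and `Z` not. Both twisted: `Z = X_{2m}`, `Y_{2m}`: first formula with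
`chi X_{2m} S = chi X S - m • (0, 2s)` (mirror formula with `Z = S`), again in `GG t 1`, and `chi X_{2m} Y ∈ ±1 + m (±t^ℤ)` (mirror formula).
Numbers: `a = 1` for `Z = Q₁₂, Q₁₃`; `2 • D(12,18) = -2m (2 x₁₂ + …)`, `2 • D(13,18) = -2m (2 x₁₃ + …)` with the same `…` and
`2 x₁₂ - 2 x₁₃ = 4 τ`. The case distinction: `ix_cases`, `Setup.obj_T`, `Setup.obj_of_not` (use `Classical.choice` for each `i` of a structure with
the formulas, then prove the statements for pairs). -/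
theorem Setup.exists_structure [σ.IsTriangulated] [IsTriangulated C] (m : ℕ) :
    ∃ φ : ∀ i, A.obj K (2 * m) i ≅ σ.obj (A.obj K (2 * m) i),
      (∀ i j, (chi k σ ⟨_, φ i⟩ ⟨_, φ j⟩).2.toMul ∈ GG A.t m) ∧
      (chi k σ ⟨_, φ 12⟩ ⟨_, φ 13⟩).1 = 2 ∧
      (chi k σ ⟨_, φ 12⟩ ⟨_, φ 18⟩).1 = -2 * m ∧ (chi k σ ⟨_, φ 13⟩ ⟨_, φ 18⟩).1 = -2 * m ∧
      (2 : ℤ) • (chi k σ ⟨_, φ 12⟩ ⟨_, φ 13⟩).2 = 0 ∧
      (2 : ℤ) • (chi k σ ⟨_, φ 12⟩ ⟨_, φ 18⟩).2 =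
        (2 : ℤ) • (chi k σ ⟨_, φ 13⟩ ⟨_, φ 18⟩).2 - (8 * m : ℤ) • Additive.ofMul A.t := by
  obtain ⟨φS, hES, hSE, hSS, n13, n12, d13, d12⟩ := A.S_numbers K
  choose φ hr hl using Fam3_one A K m φS
  simp only [mem_GG] at hES hSE hSS
  set S : EqObj σ := ⟨K.S, φS⟩ with hSdef
  have hsq : ∀ i j, (2 : ℤ) • (chi k σ (A.E i) (A.E j)).2 = 0 := A.sq
  -- the value of chi at S on the left of a member
  have hxS : ∀ i, ∃ n : ℤ, (2 : ℤ) • (chi k σ ⟨_, φ i⟩ S).2 = (2 * (1 * n)) • Additive.ofMul A.t := by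
    intro i
    rw [hl i S]
    simp only [Prod.snd_sub, Prod.smul_snd]
    exact GG_sub (hES i) (GG_smul (GG_sub (GG_smul hSS 2)
      (GG_smul (GG_sub (GG_smul (hSE i) 2) (GG_smul hSS _)) _)) _)
  have hmain : ∀ i j, (2 : ℤ) • (chi k σ ⟨_, φ i⟩ ⟨_, φ j⟩).2 =
      -((bb i * (m : ℤ)) • (2 : ℤ) • ((2 : ℤ) • (chi k σ S (A.E j)).2 -
          (chi k σ S (A.E j)).1 • ((2 : ℤ) • (chi k σ S (A.E i)).2 -
            (2 * (m : ℤ) - 1) • (chi k σ S S).2))) -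
      (bb j * (m : ℤ)) • (2 : ℤ) • ((2 : ℤ) • (chi k σ ⟨_, φ i⟩ S).2 +
          (chi k σ ⟨_, φ i⟩ S).1 • ((2 : ℤ) • (chi k σ S (A.E j)).2 -
            (2 * (m : ℤ) - 1) • (chi k σ S S).2)) := by
    intro i j
    rw [hr j ⟨_, φ i⟩, hl i (A.E j)]
    simp only [Prod.snd_sub, Prod.smul_snd]
    rw [zsmul_sub, zsmul_sub, hsq, zero_sub, smul_comm (2 : ℤ) (bb i * (m : ℤ)),
      smul_comm (2 : ℤ) (bb j * (m : ℤ))]
  have b12 : bb 12 = 0 := by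
    unfold bb
    refine if_neg ?_
    rintro ⟨j, hj, -⟩
    have := congrArg Fin.val hj
    simp [ix] at this
    omega
  have b13 : bb 13 = 0 := by
    unfold bb
    refine if_neg ?_
    rintro ⟨j, hj, -⟩
    have := congrArg Fin.val hj
    simp [ix] at this
    omega
  have b18 : bb 18 = 1 := by
    unfold bb
    exact if_pos ⟨0, rfl, by decide, by decide⟩
  have e12 : ∀ Z : EqObj σ, chi k σ ⟨_, φ 12⟩ Z = chi k σ (A.E 12) Z := by
    intro Z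
    rw [hl 12 Z, b12, zero_mul, zero_smul, sub_zero]
  have e13 : ∀ Z : EqObj σ, chi k σ ⟨_, φ 13⟩ Z = chi k σ (A.E 13) Z := by
    intro Z
    rw [hl 13 Z, b13, zero_mul, zero_smul, sub_zero]
  have e13' : ∀ Z : EqObj σ, chi k σ Z ⟨_, φ 13⟩ = chi k σ Z (A.E 13) := by
    intro Z
    rw [hr 13 Z, b13, zero_mul, zero_smul, sub_zero]
  refine ⟨φ, fun i j => ?_, ?_, ?_, ?_, ?_, ?_⟩
  · rw [mem_GG, hmain i j]
    obtain ⟨n1, h1⟩ := GG_sub (GG_smul (hSE j) 2)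
      (GG_smul (GG_sub (GG_smul (hSE i) 2) (GG_smul hSS (2 * (m : ℤ) - 1))) (chi k σ S (A.E j)).1)
    obtain ⟨n2, h2⟩ := GG_add (GG_smul (hxS i) 2)
      (GG_smul (GG_sub (GG_smul (hSE j) 2) (GG_smul hSS (2 * (m : ℤ) - 1))) (chi k σ ⟨_, φ i⟩ S).1)
    rw [h1, h2, smul_smul, smul_smul]
    refine ⟨-(bb i * n1) - bb j * n2, ?_⟩
    rw [← neg_smul, ← sub_smul]
    congr 1
    ring
  · rw [e12, e13']
    exact A.num12_13
  · rw [hr 18 ⟨_, φ 12⟩, e12, e12, b18]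
    have h := A.num12 0
    change (chi k σ (A.E 12) (A.E 18)).1 = 0 at h
    simp only [Prod.fst_sub, Prod.smul_fst]
    rw [h, n12]
    simp
    ring
  · rw [hr 18 ⟨_, φ 13⟩, e13, e13, b18]
    have h := A.num13 0
    change (chi k σ (A.E 13) (A.E 18)).1 = 0 at h
    simp only [Prod.fst_sub, Prod.smul_fst]
    rw [h, n13]
    simp
    ring
  · rw [e12, e13']
    exact hsq 12 13
  · rw [hmain 12 18, hmain 13 18, b12, b13, b18, e12, e13, n12, n13, d12, d13]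
    simp only [zero_mul, zero_smul, one_mul, one_smul, neg_zero, zero_sub, smul_smul]
    generalize (chi k σ S (A.E 18)).2 = u
    generalize (chi k σ S S).2 = v
    module

end BO
end
end

section

set_option autoImplicit false

noncomputable section

open CategoryTheory CategoryTheory.Limits CategoryTheory.Pretriangulated

namespace BO

universe w v u

variable {k : Type w} [Field k] {C : Type u} [Category.{v} C] [Preadditive C] [Linear k C]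
  [HasZeroObject C] [HasShift C ℤ] [∀ n : ℤ, (shiftFunctor C n).Additive]
  [∀ n : ℤ, Functor.Linear k (shiftFunctor C n)] [Pretriangulated C]
  {σ : C ⥤ C} [σ.CommShift ℤ] [σ.Additive] [σ.Linear k] [σ.Full] [σ.Faithful]
  (A : Setup k (C := C) σ) (K : Conv A.D.d0 A.D.d1 A.D.d2)

/-- The full exceptional system `E(m)`. -/
def Setup.fam [IsTriangulated C] (m : ℕ) : ExcSystem k C 24 where
  obj := A.obj K m
  exc := A.obj_exc K m
  orth := A.obj_orth K m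
  full := A.obj_full K m

theorem Setup.PG_fam [σ.IsTriangulated] [IsTriangulated C] (m : ℕ) :
    PG k σ (GG A.t m) (A.fam K (2 * m)) := by
  obtain ⟨φ, h, -⟩ := A.exists_structure K m
  exact ⟨φ, h⟩

end BO
end
end
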