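import Pool.Agent.Lib.MP_bd3808_ag.Mg.G015

section

/-!
# TASK S8: the two divisibility conditions for sections of degree 1 in the `z`

A polynomial `q = α om1 + β om2` of degree 1 in `om1, om2` which is a section on the charts `(u0,la)` satisfies
`u1 ∣ mu α - la u0 β`, and one which is a section on the charts `(u1,la)` satisfies `u0 ∣ mu β - la u1 α`. In coefficients:

`div0`: `D 3 = 1`, so (`deg8`, `dc`) every exponent `e'` of `q0` (`bet k 0 q0 = bet k 4 q`, `q0 ∈ gr8 k 0 {2,4} D`) has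
`e' 6 + e' 7 = 1`, and `0 ≤ e' 3, e' 6, e' 7`, so it is `a + δ6` or `a + δ7` with `a 6 = a 7 = 0`, `0 ≤ a 3`. By `bet_injective k 4`
and linearity `q` is the corresponding linear combination of
  `X^a * (u0 u1 la om2)` (from `a + δ6`: `X6 = z2`) and `X^a * (u0 mu om2 + la u0^2 om1)` (from `a + δ7`: `X7 = z3`).
The condition for all `e` with `e 3 = 0` (and `e 6 = e 7 = 0`): `coeff (e - δ5 + δ6) = coeff (e - δ4 - δ2 + δ7)` is linear, and holds for both types:
for the second, both coefficients are 1 exactly for `e = a + 2δ2 + δ4 + δ5` (and 0 otherwise); for the first the left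
side is 0, and the right side is nonzero only for `e = a + 2δ4 + 2δ2 + δ3`, where `e 3 = a 3 + 1 ≠ 0`.
`div1`: the same with `q2 ∈ gr8 k 2 {3,4} D`: `X^a * (u0 u1 la om1)` (`X6 = z1`), `X^a * (u1 mu om1 + la u1^2 om2)` (`X7 = z0`).
-/

set_option autoImplicit false

noncomputable section

open CategoryTheory CategoryTheory.Limits

namespace MPbd3808.BR.SX

universe u v w

variable (k : Type u) [Field k]

/-- The `i`-th unit vector. -/
abbrev dl (i : Fin 8) : Fin 8 → ℤ := Pi.single i 1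

/-- `u1 ∣ mu α - la u0 β` for `q = α om1 + β om2`. -/
def DIV0 (q : A8 k) : Prop :=
  ∀ e : Fin 8 → ℤ, e 3 = 0 → e 6 = 0 → e 7 = 0 →
    q.coeff (e - dl 5 + dl 6) = q.coeff (e - dl 4 - dl 2 + dl 7)

/-- `u0 ∣ mu β - la u1 α` for `q = α om1 + β om2`. -/
def DIV1 (q : A8 k) : Prop :=
  ∀ e : Fin 8 → ℤ, e 2 = 0 → e 6 = 0 → e 7 = 0 →
    q.coeff (e - dl 5 + dl 7) = q.coeff (e - dl 4 - dl 3 + dl 6)

private theorem S8_lin (P : A8 k → Prop) (h0 : P 0) (hadd : ∀ p q, P p → P q → P (p + q))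
    (hsmul : ∀ (c : k) (p), P p → P (c • p)) (c : Fin 5) (q0 q : A8 k)
    (hq : bet k 4 q = bet k c q0) (N : (Fin 8 → ℤ) → A8 k)
    (hN : ∀ e, q0.coeff e ≠ 0 →
      bet k 4 (N e) = bet k c (AddMonoidAlgebra.single e 1) ∧ P (N e)) : P q := by
  have h1 : q0 = ∑ e ∈ q0.coeff.support, q0.coeff e • (AddMonoidAlgebra.single e 1 : A8 k) := by
    simp only [AddMonoidAlgebra.smul_single, smul_eq_mul, mul_one]
    exact (AddMonoidAlgebra.sum_coeff_single q0).symm
  have h2 : q = ∑ e ∈ q0.coeff.support, q0.coeff e • N e := by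
    apply bet_injective k 4
    rw [hq, h1, map_sum, map_sum]
    refine Finset.sum_congr ?_ fun e he => ?_
    · rw [← h1]
    · rw [map_smul, map_smul, ← h1, (hN e (Finsupp.mem_support_iff.1 ?_)).1]
      rwa [← h1] at he
  rw [h2]
  have h3 : ∀ s : Finset (Fin 8 → ℤ), (∀ e ∈ s, q0.coeff e ≠ 0) →
      P (∑ e ∈ s, q0.coeff e • N e) := by
    classical
    intro s
    induction s using Finset.induction_on with
    | empty => intro _; rwa [Finset.sum_empty]
    | insert a s ha ih =>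
      intro hs
      rw [Finset.sum_insert ha]
      exact hadd _ _ (hsmul _ _ (hN a (hs a (Finset.mem_insert_self a s))).2)
        (ih fun e he => hs e (Finset.mem_insert_of_mem he))
  exact h3 _ fun e he => Finsupp.mem_support_iff.1 he

private theorem S8_coeff (e e' : Fin 8 → ℤ) :
    (AddMonoidAlgebra.single e (1 : k) : A8 k).coeff e' = if e = e' then 1 else 0 := by
  rw [AddMonoidAlgebra.coeff_single, Finsupp.single_apply]

private theorem S8_add (p q : A8 k) (x : Fin 8 → ℤ) :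
    (p + q).coeff x = p.coeff x + q.coeff x := by
  rw [AddMonoidAlgebra.coeff_add]
  rfl

private theorem S8_deg (c : Fin 5) (hc : c = 0 ∨ c = 2) (T : Finset (Fin 8)) (D : Deg)
    (hD : D 3 = 1) (h6 : (6 : Fin 8) ∉ T) (h7 : (7 : Fin 8) ∉ T) (q0 : A8 k)
    (hq : q0 ∈ gr8 k c T D) (e : Fin 8 → ℤ) (he : q0.coeff e ≠ 0) :
    (e 6 = 1 ∧ e 7 = 0) ∨ (e 6 = 0 ∧ e 7 = 1) := by
  obtain ⟨h1, h2⟩ := hq e he
  have h3 := congrFun h2 3
  rw [hD] at h3
  have n6 := h1 6 h6
  have n7 := h1 7 h7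
  rcases hc with rfl | rfl
  all_goals
    simp only [Fin.sum_univ_eight, Pi.add_apply, Pi.smul_apply, smul_eq_mul, dc, dz] at h3
    simp at h3
    omega

private theorem S8_pi (f : Fin 8 → (KK k)ˣ) (e : Fin 8 → ℤ) :
    ((∏ i, f i ^ e i : (KK k)ˣ) : KK k) = ((f 0 ^ e 0 : (KK k)ˣ) : KK k) *
      ((f 1 ^ e 1 : (KK k)ˣ) : KK k) * ((f 2 ^ e 2 : (KK k)ˣ) : KK k) *
      ((f 3 ^ e 3 : (KK k)ˣ) : KK k) * ((f 4 ^ e 4 : (KK k)ˣ) : KK k) *
      ((f 5 ^ e 5 : (KK k)ˣ) : KK k) * ((f 6 ^ e 6 : (KK k)ˣ) : KK k) *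
      ((f 7 ^ e 7 : (KK k)ˣ) : KK k) := by
  rw [Fin.prod_univ_eight]
  simp only [Units.val_mul]

theorem div0 (D : Deg) (hD : D 3 = 1) (q : A8 k) (hy : bet k 4 q ∈ VV8 k 0 {2,4} D) :
    DIV0 k q := by
  obtain ⟨q0, hq0, hb⟩ := mem_VV8.1 hy
  refine S8_lin k (DIV0 k) ?_ ?_ ?_ 0 q0 q hb.symm
    (fun e => if e 6 = 1 then AddMonoidAlgebra.single (![e 0, e 1, e 2 + 1, e 3 + 1, e 4 + 1, e 5, 0, 1]) 1
      else AddMonoidAlgebra.single (![e 0, e 1, e 2 + 1, e 3, e 4, e 5 + 1, 0, 1]) 1 +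
        AddMonoidAlgebra.single (![e 0, e 1, e 2 + 2, e 3, e 4 + 1, e 5, 1, 0]) 1) ?_
  · intro e _ _ _
    rfl
  · intro p q hp hq e h3 h6 h7
    change (p.coeff + q.coeff) _ = (p.coeff + q.coeff) _
    rw [Finsupp.add_apply, Finsupp.add_apply, hp e h3 h6 h7, hq e h3 h6 h7]
  · intro c p hp e h3 h6 h7
    change (c • p.coeff) _ = (c • p.coeff) _
    rw [Finsupp.smul_apply, Finsupp.smul_apply, hp e h3 h6 h7]
  · intro e he
    have h67 := S8_deg k 0 (Or.inl rfl) {2,4} D hD (by decide) (by decide) q0 hq0 e he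
    have h3 := (hq0 e he).1 3 (by decide)
    rcases h67 with ⟨h6, h7⟩ | ⟨h6, h7⟩
    · rw [if_pos h6]
      constructor
      · rw [bet, bet, mev_single, mev_single, one_smul, one_smul, S8_pi, S8_pi]
        simp [vc, h6, h7, zpow_add, rz2, rw2, -Units.val_zpow_eq_zpow_val]
        ring
      · intro x x3 x6 x7
        rw [S8_coeff, S8_coeff, if_neg, if_neg]
        · intro h
          have := congrFun h 3
          simp [x3] at this
          omega
        · intro h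
          have := congrFun h 7
          simp [x7] at this
    · rw [if_neg (by rw [h6]; decide)]
      constructor
      · rw [map_add, bet, bet, mev_single, mev_single, mev_single, one_smul, one_smul, one_smul, S8_pi, S8_pi, S8_pi]
        simp [vc, h6, h7, zpow_add, rz3, -Units.val_zpow_eq_zpow_val]
        ring
      · intro x x3 x6 x7
        rw [S8_add, S8_add]
        set A : Fin 8 → ℤ := ![e 0, e 1, e 2 + 1, e 3, e 4, e 5 + 1, 0, 1] with hA
        set B : Fin 8 → ℤ := ![e 0, e 1, e 2 + 2, e 3, e 4 + 1, e 5, 1, 0] with hB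
        have hBA : B = A + dl 2 + dl 4 - dl 5 + dl 6 - dl 7 := by
          funext i
          simp only [Pi.add_apply, Pi.sub_apply, dl, Pi.single_apply]
          fin_cases i <;> simp [hA, hB] <;> ring
        have g1 : ¬ (A = x - dl 5 + dl 6) := by
          intro h
          have := congrFun h 6
          simp [hA, x6] at this
        have g2 : ¬ (B = x - dl 4 - dl 2 + dl 7) := by
          intro h
          have := congrFun h 7
          simp [hB, x7] at this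
        have g3 : (B = x - dl 5 + dl 6) ↔ (A = x - dl 4 - dl 2 + dl 7) := by
          rw [hBA]
          constructor
          · intro h
            have h' : A = (A + dl 2 + dl 4 - dl 5 + dl 6 - dl 7) - dl 2 - dl 4 + dl 5 - dl 6 + dl 7 := by
              abel
            rw [h', h]
            abel
          · intro h
            rw [h]
            abel
        rw [S8_coeff, S8_coeff, S8_coeff, S8_coeff, if_neg g1, if_neg g2, zero_add, add_zero]
        exact if_congr g3 rfl rfl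

theorem div1 (D : Deg) (hD : D 3 = 1) (q : A8 k) (hy : bet k 4 q ∈ VV8 k 2 {3,4} D) :
    DIV1 k q := by
  obtain ⟨q0, hq0, hb⟩ := mem_VV8.1 hy
  refine S8_lin k (DIV1 k) ?_ ?_ ?_ 2 q0 q hb.symm
    (fun e => if e 6 = 1 then AddMonoidAlgebra.single (![e 0, e 1, e 2 + 1, e 3 + 1, e 4 + 1, e 5, 1, 0]) 1
      else AddMonoidAlgebra.single (![e 0, e 1, e 2, e 3 + 1, e 4, e 5 + 1, 1, 0]) 1 +
        AddMonoidAlgebra.single (![e 0, e 1, e 2, e 3 + 2, e 4 + 1, e 5, 0, 1]) 1) ?_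
  · intro e _ _ _
    rfl
  · intro p q hp hq e h3 h6 h7
    change (p.coeff + q.coeff) _ = (p.coeff + q.coeff) _
    rw [Finsupp.add_apply, Finsupp.add_apply, hp e h3 h6 h7, hq e h3 h6 h7]
  · intro c p hp e h3 h6 h7
    change (c • p.coeff) _ = (c • p.coeff) _
    rw [Finsupp.smul_apply, Finsupp.smul_apply, hp e h3 h6 h7]
  · intro e he
    have h67 := S8_deg k 2 (Or.inr rfl) {3,4} D hD (by decide) (by decide) q0 hq0 e he
    have h3 := (hq0 e he).1 2 (by decide)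
    rcases h67 with ⟨h6, h7⟩ | ⟨h6, h7⟩
    · rw [if_pos h6]
      constructor
      · rw [bet, bet, mev_single, mev_single, one_smul, one_smul, S8_pi, S8_pi]
        simp [vc, h6, h7, zpow_add, rz1, rw1, -Units.val_zpow_eq_zpow_val]
        ring
      · intro x x3 x6 x7
        rw [S8_coeff, S8_coeff, if_neg, if_neg]
        · intro h
          have := congrFun h 2
          simp [x3] at this
          omega
        · intro h
          have := congrFun h 6
          simp [x6] at this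
    · rw [if_neg (by rw [h6]; decide)]
      constructor
      · rw [map_add, bet, bet, mev_single, mev_single, mev_single, one_smul, one_smul, one_smul, S8_pi, S8_pi, S8_pi]
        simp [vc, h6, h7, zpow_add, rz0, -Units.val_zpow_eq_zpow_val]
        ring
      · intro x x3 x6 x7
        rw [S8_add, S8_add]
        set A : Fin 8 → ℤ := ![e 0, e 1, e 2, e 3 + 1, e 4, e 5 + 1, 1, 0] with hA
        set B : Fin 8 → ℤ := ![e 0, e 1, e 2, e 3 + 2, e 4 + 1, e 5, 0, 1] with hB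
        have hBA : B = A + dl 3 + dl 4 - dl 5 + dl 7 - dl 6 := by
          funext i
          simp only [Pi.add_apply, Pi.sub_apply, dl, Pi.single_apply]
          fin_cases i <;> simp [hA, hB] <;> ring
        have g1 : ¬ (A = x - dl 5 + dl 7) := by
          intro h
          have := congrFun h 7
          simp [hA, x7] at this
        have g2 : ¬ (B = x - dl 4 - dl 3 + dl 6) := by
          intro h
          have := congrFun h 6
          simp [hB, x6] at this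
        have g3 : (B = x - dl 5 + dl 7) ↔ (A = x - dl 4 - dl 3 + dl 6) := by
          rw [hBA]
          constructor
          · intro h
            have h' : A = (A + dl 3 + dl 4 - dl 5 + dl 7 - dl 6) - dl 3 - dl 4 + dl 5 - dl 7 + dl 6 := by
              abel
            rw [h', h]
            abel
          · intro h
            rw [h]
            abel
        rw [S8_coeff, S8_coeff, S8_coeff, S8_coeff, if_neg g1, if_neg g2, zero_add, add_zero]
        exact if_congr g3 rfl rfl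

end MPbd3808.BR.SX
end
end

section

/-!
# TASK S9: polynomials in `om1, om2` and the ring `R'`

`BO.RX k (f,H,h)` is the span of the monomials of degree `(f,H,h)` in the eight generators `BO.gen`
(`u0,u1,la,mu,z0,z3,w1,w2`); `iP : BO.PP k → KK k`.

`iP_gens`: unfold. `mem_RXK`: if `x = c • ∏ gen i ^ n i` of degree `D` then in the span. `bet4_single`: `mev_single`.

* `rx_neg`: `D 3 = e 6 + e 7 ≥ 0` for every exponent `e` of `q`.
* `rx_h0`: every exponent has `e 6 = e 7 = 0` (as `D 3 = 0`), `e 0 = e 1 = 0` (as `D 0 = 0`), so `X^e = u0^a u1^b la^c mu^d`.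
-/

set_option autoImplicit false

noncomputable section

open CategoryTheory CategoryTheory.Limits

namespace MPbd3808.BR.SX

universe u v w

variable (k : Type u) [Field k]

/-- `R'_D` in the function field. -/
def RXK (D : BO.Dg) : Submodule k (KK k) := (BO.RX k D).map (iP k).toLinearMap

/-- The degree with `s`-degree 0. -/
def deg0 (D : BO.Dg) : Deg := ![0, D.1, D.2.1, D.2.2]

theorem iP_gens : iP k (BO.u0 k) = algebraMap _ _ (xx k 2) ∧ iP k (BO.u1 k) = algebraMap _ _ (xx k 3) ∧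
    iP k (BO.la k) = algebraMap _ _ (xx k 4) ∧ iP k (BO.mu k) = algebraMap _ _ (xx k 5) ∧
    iP k (BO.z0 k) = algebraMap _ _ (rz0 k) ∧ iP k (BO.z3 k) = algebraMap _ _ (rz3 k) ∧
    iP k (BO.w1 k) = algebraMap _ _ (rw1 k) ∧ iP k (BO.w2 k) = algebraMap _ _ (rw2 k) := by
  have h : ∀ i : Fin 6, iP k (MvPolynomial.X i) =
      algebraMap (R8 k) (KK k) (xx k (⟨i.1 + 2, by omega⟩ : Fin 8)) := by
    intro i
    simp [iP, xx]
  have h0 : iP k (BO.u0 k) = algebraMap _ _ (xx k 2) := h 0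
  have h1 : iP k (BO.u1 k) = algebraMap _ _ (xx k 3) := h 1
  have h2 : iP k (BO.la k) = algebraMap _ _ (xx k 4) := h 2
  have h3 : iP k (BO.mu k) = algebraMap _ _ (xx k 5) := h 3
  have h4 : iP k (BO.om1 k) = algebraMap _ _ (xx k 6) := h 4
  have h5 : iP k (BO.om2 k) = algebraMap _ _ (xx k 7) := h 5
  refine ⟨h0, h1, h2, h3, ?_, ?_, ?_, ?_⟩
  · simp only [BO.z0, rz0, map_mul, map_add, h0, h1, h2, h3, h4, h5]
  · simp only [BO.z3, rz3, map_mul, map_add, h0, h1, h2, h3, h4, h5]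
  · simp only [BO.w1, rw1, map_mul, map_add, h0, h1, h2, h3, h4, h5]
  · simp only [BO.w2, rw2, map_mul, map_add, h0, h1, h2, h3, h4, h5]

/-- Monomials in the generators belong to `RXK`. -/
theorem mem_RXK (a b c d e f g h : ℕ) (D : BO.Dg)
    (hD : a • BO.gdeg 0 + b • BO.gdeg 1 + c • BO.gdeg 2 + d • BO.gdeg 3 + e • BO.gdeg 4 +
      f • BO.gdeg 5 + g • BO.gdeg 6 + h • BO.gdeg 7 = D) :
    algebraMap (R8 k) (KK k) (xx k 2 ^ a * xx k 3 ^ b * xx k 4 ^ c * xx k 5 ^ d * rz0 k ^ e *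
      rz3 k ^ f * rw1 k ^ g * rw2 k ^ h) ∈ RXK k D := by
  obtain ⟨h0, h1, h2, h3, h4, h5, h6, h7⟩ := iP_gens k
  refine ⟨BO.u0 k ^ a * BO.u1 k ^ b * BO.la k ^ c * BO.mu k ^ d * BO.z0 k ^ e *
      BO.z3 k ^ f * BO.w1 k ^ g * BO.w2 k ^ h, Submodule.subset_span
      ⟨![a, b, c, d, e, f, g, h], ?_, ?_⟩, ?_⟩
  · rw [← hD, Fin.sum_univ_eight]
    rfl
  · rw [Fin.prod_univ_eight]
    rfl
  · change iP k _ = _
    simp only [map_mul, map_pow, h0, h1, h2, h3, h4, h5, h6, h7]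

theorem rx_neg (D : Deg) (hD : D 3 < 0) (q : A8 k) (hq : q ∈ gr8 k 4 ∅ D) : q = 0 := by
  have h : ∀ e, q.coeff e = 0 := by
    intro e
    by_contra he
    obtain ⟨h1, h2⟩ := hq e he
    have h3 := congrFun h2 3
    have n6 := h1 6 (Finset.notMem_empty _)
    have n7 := h1 7 (Finset.notMem_empty _)
    simp only [Fin.sum_univ_eight, Pi.add_apply, Pi.smul_apply, smul_eq_mul, dc, dom] at h3
    simp at h3
    omega
  ext e
  rw [h e]
  rfl

theorem rx_h0 (f H : ℤ) (q : A8 k) (hq : q ∈ gr8 k 4 ∅ (deg0 (f, H, 0))) :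
    bet k 4 q ∈ RXK k (f, H, 0) := by
  have hq' : q = ∑ e ∈ q.coeff.support, AddMonoidAlgebra.single e (q.coeff e) :=
    (AddMonoidAlgebra.sum_coeff_single q).symm
  rw [hq', map_sum]
  refine Submodule.sum_mem _ fun e he => ?_
  obtain ⟨h2, h3⟩ := hq e (Finsupp.mem_support_iff.1 he)
  have n : ∀ i, 0 ≤ e i := fun i => h2 i (Finset.notMem_empty i)
  have h30 := congrFun h3 0
  have h31 := congrFun h3 1
  have h32 := congrFun h3 2
  have h33 := congrFun h3 3
  simp only [Fin.sum_univ_eight, Pi.add_apply, Pi.smul_apply, smul_eq_mul,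
    dc, dom, deg0] at h30 h31 h32 h33
  simp at h30 h31 h32 h33
  have n0 := n 0
  have n1 := n 1
  have n6 := n 6
  have n7 := n 7
  have e0 : e 0 = 0 := by omega
  have e1 : e 1 = 0 := by omega
  have e6 : e 6 = 0 := by omega
  have e7 : e 7 = 0 := by omega
  obtain ⟨a, ha⟩ := Int.eq_ofNat_of_zero_le (n 2)
  obtain ⟨b, hb⟩ := Int.eq_ofNat_of_zero_le (n 3)
  obtain ⟨c, hc⟩ := Int.eq_ofNat_of_zero_le (n 4)
  obtain ⟨d, hd⟩ := Int.eq_ofNat_of_zero_le (n 5)
  rw [bet, mev_single]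
  refine Submodule.smul_mem _ _ ?_
  have h := mem_RXK k a b c d 0 0 0 0 (f, H, 0) (by
    simp [BO.gdeg]
    omega)
  refine Eq.subst (motive := fun y : KK k => y ∈ RXK k (f, H, 0)) (Eq.symm ?_) h
  rw [Fin.prod_univ_eight, e0, e1, ha, hb, hc, hd, e6, e7]
  simp only [zpow_zero, zpow_natCast, one_mul, mul_one, Units.val_mul, Units.val_pow_eq_pow_val,
    toU_val, pow_zero, map_mul, map_pow, vc]
  simp

end MPbd3808.BR.SX
end
end

section

/-!
# TASK S10: the elements of `R'_D` are global sections of `O_E(D)`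

`RX` is spanned by the monomials in the generators; `SE` is multiplicative (`VV_mul`), so it suffices that `u0,u1,la,mu` (`Phi (mon (δ_v))`),
`z0, z3` (`Phi (mon (δ_6))`, `Phi (mon (δ_9))`), and `w1, w2` are in `VV k σ` (degree of the generator) for every full `σ`: if `la = 4 ∈ σ`:
`w1 = z1/la = Phi (mon (δ_7 - δ_4))`, `w2 = z2/la = Phi (mon (δ_8 - δ_4))`; otherwise `mu = 5 ∈ σ` (`exists_base`):
`w1 = (u0 z0 - u1 z2)/mu`, `w2 = (u1 z3 - u0 z1)/mu`.
-/

set_option autoImplicit false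

noncomputable section

open CategoryTheory CategoryTheory.Limits

namespace MPbd3808.BR.SX

universe u v w

variable (k : Type u) [Field k]

theorem S10_Phi_X (v : Vr) : Phi k (mon (Pi.single v 1)) = algebraMap (R8 k) (KK k) (vvK k v) := by
  have h := Phi_mvl k (px k v)
  rw [rs_px, mvl_X] at h
  exact h

theorem S10_ne (v : Vr) : algebraMap (R8 k) (KK k) (vvK k v) ≠ 0 := by
  rw [Ne, FaithfulSMul.algebraMap_eq_zero_iff]
  exact vvK_ne k v

theorem S10_Phi_X2 (v w : Vr) : Phi k (mon (Pi.single v 1 + Pi.single w 1)) =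
    algebraMap (R8 k) (KK k) (vvK k v * vvK k w) := by
  have h := Phi_mvl k (px k v * px k w)
  rw [map_mul (rs k), rs_px, rs_px, mvl_px_mul2] at h
  exact h

theorem S10_mon_mul (e e' : Ex) : (mon e : A k) * mon e' = mon (e + e') := by
  simp only [mon, AddMonoidAlgebra.single_mul_single, one_mul]

theorem S10_var (σ : Finset Vr) (v : Vr) : algebraMap (R8 k) (KK k) (vvK k v) ∈
    VV k σ (degE (Pi.single v 1)) := by
  refine ⟨mon (Pi.single v 1), mon_mem_gr k (fun w _ => ?_) rfl, S10_Phi_X k v⟩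
  by_cases h : w = v
  · subst h
    rw [Pi.single_eq_same]
    norm_num
  · rw [Pi.single_eq_of_ne h]

theorem S10_w1 (σ : Finset Vr) (hσ : Full σ) :
    algebraMap (R8 k) (KK k) (rw1 k) ∈ VV k σ (deg0 (BO.gdeg 6)) := by
  by_cases h4 : (4 : Vr) ∈ σ
  · refine ⟨mon (Pi.single 7 1 - Pi.single 4 1), mon_mem_gr k (fun w hw => ?_) (by decide), ?_⟩
    · have h : w ≠ 4 := fun h => hw (h ▸ h4)
      rw [Pi.sub_apply, Pi.single_eq_of_ne h, sub_zero]
      by_cases h7 : w = 7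
      · rw [h7]
        decide
      · rw [Pi.single_eq_of_ne h7]
    · refine mul_right_cancel₀ (S10_ne k 4) ?_
      rw [← S10_Phi_X k 4]
      change Phi k (mon (Pi.single 7 1 - Pi.single 4 1)) * Phi k (mon (Pi.single 4 1)) = _
      rw [← map_mul, S10_mon_mul, sub_add_cancel, S10_Phi_X, S10_Phi_X, ← map_mul]
      congr 1
      simp only [vvK]
      change rz1 k = rw1 k * xx k 4
      unfold rz1
      ring
  · have h5 : (5 : Vr) ∈ σ := by
      rcases (exists_base hσ).2 with h | h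
      · exact absurd h h4
      · exact h
    refine ⟨mon (Pi.single 2 1 + Pi.single 6 1 - Pi.single 5 1) -
      mon (Pi.single 3 1 + Pi.single 8 1 - Pi.single 5 1), Submodule.sub_mem _
        (mon_mem_gr k (fun w hw => ?_) (by decide)) (mon_mem_gr k (fun w hw => ?_) (by decide)), ?_⟩
    · have h : w ≠ 5 := fun h => hw (h ▸ h5)
      exact (by decide : ∀ w : Vr, w ≠ 5 →
        0 ≤ (Pi.single 2 1 + Pi.single 6 1 - Pi.single 5 1 : Ex) w) w h
    · have h : w ≠ 5 := fun h => hw (h ▸ h5)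
      exact (by decide : ∀ w : Vr, w ≠ 5 →
        0 ≤ (Pi.single 3 1 + Pi.single 8 1 - Pi.single 5 1 : Ex) w) w h
    · refine mul_right_cancel₀ (S10_ne k 5) ?_
      rw [← S10_Phi_X k 5]
      change Phi k (mon (Pi.single 2 1 + Pi.single 6 1 - Pi.single 5 1) -
        mon (Pi.single 3 1 + Pi.single 8 1 - Pi.single 5 1)) * Phi k (mon (Pi.single 5 1)) = _
      rw [← map_mul, sub_mul, S10_mon_mul, S10_mon_mul, sub_add_cancel, sub_add_cancel, map_sub,
        S10_Phi_X2, S10_Phi_X2, S10_Phi_X, ← map_sub, ← map_mul]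
      congr 1
      simp only [vvK]
      change xx k 2 * rz0 k - xx k 3 * rz2 k = rw1 k * xx k 5
      unfold rz0 rz2 rw1 rw2
      ring

theorem S10_w2 (σ : Finset Vr) (hσ : Full σ) :
    algebraMap (R8 k) (KK k) (rw2 k) ∈ VV k σ (deg0 (BO.gdeg 7)) := by
  by_cases h4 : (4 : Vr) ∈ σ
  · refine ⟨mon (Pi.single 8 1 - Pi.single 4 1), mon_mem_gr k (fun w hw => ?_) (by decide), ?_⟩
    · have h : w ≠ 4 := fun h => hw (h ▸ h4)
      rw [Pi.sub_apply, Pi.single_eq_of_ne h, sub_zero]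
      by_cases h7 : w = 8
      · rw [h7]
        decide
      · rw [Pi.single_eq_of_ne h7]
    · refine mul_right_cancel₀ (S10_ne k 4) ?_
      rw [← S10_Phi_X k 4]
      change Phi k (mon (Pi.single 8 1 - Pi.single 4 1)) * Phi k (mon (Pi.single 4 1)) = _
      rw [← map_mul, S10_mon_mul, sub_add_cancel, S10_Phi_X, S10_Phi_X, ← map_mul]
      congr 1
      simp only [vvK]
      change rz2 k = rw2 k * xx k 4
      unfold rz2
      ring
  · have h5 : (5 : Vr) ∈ σ := by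
      rcases (exists_base hσ).2 with h | h
      · exact absurd h h4
      · exact h
    refine ⟨mon (Pi.single 3 1 + Pi.single 9 1 - Pi.single 5 1) -
      mon (Pi.single 2 1 + Pi.single 7 1 - Pi.single 5 1), Submodule.sub_mem _
        (mon_mem_gr k (fun w hw => ?_) (by decide)) (mon_mem_gr k (fun w hw => ?_) (by decide)), ?_⟩
    · have h : w ≠ 5 := fun h => hw (h ▸ h5)
      exact (by decide : ∀ w : Vr, w ≠ 5 →
        0 ≤ (Pi.single 3 1 + Pi.single 9 1 - Pi.single 5 1 : Ex) w) w h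
    · have h : w ≠ 5 := fun h => hw (h ▸ h5)
      exact (by decide : ∀ w : Vr, w ≠ 5 →
        0 ≤ (Pi.single 2 1 + Pi.single 7 1 - Pi.single 5 1 : Ex) w) w h
    · refine mul_right_cancel₀ (S10_ne k 5) ?_
      rw [← S10_Phi_X k 5]
      change Phi k (mon (Pi.single 3 1 + Pi.single 9 1 - Pi.single 5 1) -
        mon (Pi.single 2 1 + Pi.single 7 1 - Pi.single 5 1)) * Phi k (mon (Pi.single 5 1)) = _
      rw [← map_mul, sub_mul, S10_mon_mul, S10_mon_mul, sub_add_cancel, sub_add_cancel, map_sub,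
        S10_Phi_X2, S10_Phi_X2, S10_Phi_X, ← map_sub, ← map_mul]
      congr 1
      simp only [vvK]
      change xx k 3 * rz3 k - xx k 2 * rz1 k = rw2 k * xx k 5
      unfold rz3 rz1 rw1 rw2
      ring

theorem gens_mem_VV (σ : Finset Vr) (hσ : Full σ) (i : Fin 8) :
    iP k (BO.gen k i) ∈ VV k σ (deg0 (BO.gdeg i)) := by
  obtain ⟨h0, h1, h2, h3, h4, h5, h6, h7⟩ := iP_gens k
  have hd : ∀ v : Vr, ∀ D : BO.Dg, degE (Pi.single v 1) = deg0 D →
      algebraMap (R8 k) (KK k) (vvK k v) ∈ VV k σ (deg0 D) := by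
    intro v D h
    rw [← h]
    exact S10_var k σ v
  fin_cases i
  · change iP k (BO.u0 k) ∈ VV k σ (deg0 (1, 0, 0))
    rw [h0]
    exact hd 2 _ (by decide)
  · change iP k (BO.u1 k) ∈ VV k σ (deg0 (1, 0, 0))
    rw [h1]
    exact hd 3 _ (by decide)
  · change iP k (BO.la k) ∈ VV k σ (deg0 (-1, 1, 0))
    rw [h2]
    exact hd 4 _ (by decide)
  · change iP k (BO.mu k) ∈ VV k σ (deg0 (0, 1, 0))
    rw [h3]
    exact hd 5 _ (by decide)
  · change iP k (BO.z0 k) ∈ VV k σ (deg0 (0, 0, 1))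
    rw [h4]
    exact hd 6 _ (by decide)
  · change iP k (BO.z3 k) ∈ VV k σ (deg0 (0, 0, 1))
    rw [h5]
    exact hd 9 _ (by decide)
  · change iP k (BO.w1 k) ∈ VV k σ (deg0 (BO.gdeg 6))
    rw [h6]
    exact S10_w1 k σ hσ
  · change iP k (BO.w2 k) ∈ VV k σ (deg0 (BO.gdeg 7))
    rw [h7]
    exact S10_w2 k σ hσ

theorem S10_one (σ : Finset Vr) : (1 : KK k) ∈ VV k σ 0 := by
  refine ⟨mon 0, mon_mem_gr k Reg.zero degE_zero, ?_⟩
  exact map_one (Phi k)

theorem S10_pow (σ : Finset Vr) (x : KK k) (D : Deg) (hx : x ∈ VV k σ D) (n : ℕ) :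
    x ^ n ∈ VV k σ (n • D) := by
  induction n with
  | zero =>
    rw [pow_zero, zero_smul]
    exact S10_one k σ
  | succ n ih =>
    rw [pow_succ, succ_nsmul]
    exact VV_mul k ih hx

theorem S10_prod (σ : Finset Vr) (x : Fin 8 → KK k) (D : Fin 8 → Deg)
    (hx : ∀ i, x i ∈ VV k σ (D i)) (e : Fin 8 → ℕ) (s : Finset (Fin 8)) :
    ∏ i ∈ s, x i ^ e i ∈ VV k σ (∑ i ∈ s, e i • D i) := by
  classical
  induction s using Finset.induction_on with
  | empty =>
    rw [Finset.prod_empty, Finset.sum_empty]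
    exact S10_one k σ
  | insert a s ha ih =>
    rw [Finset.prod_insert ha, Finset.sum_insert ha]
    exact VV_mul k (S10_pow k σ _ _ (hx a) _) ih

/-- `deg0` as a homomorphism. -/
def S10_deg0 : BO.Dg →+ Deg where
  toFun := deg0
  map_zero' := by decide
  map_add' D D' := by
    funext i
    fin_cases i <;> simp [deg0]

theorem RXK_le_SE (D : BO.Dg) : RXK k D ≤ SE k (deg0 D) := by
  unfold RXK BO.RX
  rw [Submodule.map_span_le]
  rintro x ⟨e, he, rfl⟩
  rw [mem_SE]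
  intro σ hσ
  have h1 := S10_prod k σ (fun i => iP k (BO.gen k i)) (fun i => deg0 (BO.gdeg i))
    (gens_mem_VV k σ hσ) e Finset.univ
  have h2 : ∑ i, e i • deg0 (BO.gdeg i) = deg0 D := by
    have h3 : deg0 (∑ i, e i • BO.gdeg i) = ∑ i, e i • deg0 (BO.gdeg i) := by
      change S10_deg0 (∑ i, e i • BO.gdeg i) = ∑ i, e i • S10_deg0 (BO.gdeg i)
      rw [map_sum]
      exact Finset.sum_congr rfl fun i _ => map_nsmul _ _ _
    rw [← h3, he]
  rw [h2] at h1
  have h4 : iP k (∏ i, BO.gen k i ^ e i) = ∏ i, iP k (BO.gen k i) ^ e i := by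
    rw [map_prod]
    exact Finset.prod_congr rfl fun i _ => map_pow _ _ _
  change iP k (∏ i, BO.gen k i ^ e i) ∈ VV k σ (deg0 D)
  rw [h4]
  exact h1

end MPbd3808.BR.SX
end
end

section

/-!
# TASK S6a: sections of `O_E` over the charts with `u0, la` invertible

Notation: in `A8 k` let `m a b … = single (exponent) 1` be the Laurent monomials in the eight coordinates
`X0..X7 = s0,s1,u0,u1,la,mu,X6,X7` (`vc k c`). Use `VV_le_VV8` with explicit `Z, Zi : Vr → A8 k` (`![…]`): `Z v` is the expression of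
the Cox variable `v` in the coordinates, `Zi v` the inverse of `Z v` (for `v ∈ σ`; junk elsewhere). `Z v = X_v` for `v = 0..5`;
the others are given below. `hZ`: `single_mem_grG` and `Submodule.add_mem`, `sub_mem`, the degree
equations by `decide` (or `funext; fin_cases; simp [dg, dc, dw, dz]`). `hZ'`: `mev_single` (unfold `bet`), then a `field_simp; ring` computation in the
field `KK k` (all `algebraMap (xx i)` are nonzero) after unfolding `vvK, vc, rz0, …`. An alternative to direct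
computation: `bet k c` is multiplicative, so multiply the claim by the (unit) monomial in the denominator and compare polynomials.

Chart 0 (`u0, la` invertible, `X6 = z2 = rz2`, `X7 = z3 = rz3`): `Z 8 = X6`, `Z 9 = X7`,
`Z 7 = u0^-1 u1 X7 - la^-1 u0^-1 mu X6` (z1 = (la u1 z3 - mu z2)/(la u0)),
`Z 6 = la^-1 u0^-1 mu * Z 7 + u0^-1 u1 X6` (z0 = (mu z1 + la u1 z2)/(la u0)).
-/

set_option autoImplicit false

noncomputable section

open CategoryTheory CategoryTheory.Limits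

namespace MPbd3808.BR.SX

universe u v w

variable (k : Type u) [Field k]

theorem S6a_bet_single (c : Fin 5) (e : Fin 8 → ℤ) :
    bet k c (AddMonoidAlgebra.single e 1) =
      ∏ i, (algebraMap (R8 k) (KK k) (vc k c i)) ^ (e i) := by
  rw [bet, mev_single, one_smul, Units.coe_prod]
  refine Finset.prod_congr rfl fun i _ => ?_
  rw [Units.val_zpow_eq_zpow_val, toU_val]

/-- the exponents of the monomials `Z v`, `v ≠ 6, 7` -/
def S6a_E : Vr → Fin 8 → ℤ :=
  ![![1,0,0,0,0,0,0,0], ![0,1,0,0,0,0,0,0], ![0,0,1,0,0,0,0,0], ![0,0,0,1,0,0,0,0],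
    ![0,0,0,0,1,0,0,0], ![0,0,0,0,0,1,0,0], 0, 0, ![0,0,0,0,0,0,1,0], ![0,0,0,0,0,0,0,1]]

/-- `z1` -/
def S6a_Z7 : A8 k := AddMonoidAlgebra.single ![0,0,-1,1,0,0,0,1] 1 -
  AddMonoidAlgebra.single ![0,0,-1,0,-1,1,1,0] 1

/-- `z0` -/
def S6a_Z6 : A8 k := AddMonoidAlgebra.single ![0,0,-1,0,-1,1,0,0] 1 * S6a_Z7 k +
  AddMonoidAlgebra.single ![0,0,-1,1,0,0,1,0] 1

/-- the Cox variables -/
def S6a_Z (v : Vr) : A8 k :=
  if v = 6 then S6a_Z6 k else if v = 7 then S6a_Z7 k else AddMonoidAlgebra.single (S6a_E v) 1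

theorem S6a_nonneg {T : Finset (Fin 8)} (h2 : 2 ∈ T) (h4 : 4 ∈ T) {e : Fin 8 → ℤ}
    (he : ∀ i, i ≠ 2 → i ≠ 4 → 0 ≤ e i) : ∀ i, i ∉ T → 0 ≤ e i := fun i hi =>
  he i (fun h => hi (h ▸ h2)) (fun h => hi (h ▸ h4))

theorem S6a_Z7_mem {T : Finset (Fin 8)} (h2 : 2 ∈ T) (h4 : 4 ∈ T) :
    S6a_Z7 k ∈ gr8 k 0 T (dg 7) := by
  refine Submodule.sub_mem _ ?_ ?_
  · exact single_mem_grG _ _ (S6a_nonneg h2 h4 (by decide)) (by decide)
  · exact single_mem_grG _ _ (S6a_nonneg h2 h4 (by decide)) (by decide)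

theorem S6a_Z6_mem {T : Finset (Fin 8)} (h2 : 2 ∈ T) (h4 : 4 ∈ T) :
    S6a_Z6 k ∈ gr8 k 0 T (dg 6) := by
  refine Submodule.add_mem _ ?_ ?_
  · have h1 : (AddMonoidAlgebra.single ![0,0,-1,0,-1,1,0,0] 1 : A8 k) ∈ gr8 k 0 T 0 :=
      single_mem_grG _ _ (S6a_nonneg h2 h4 (by decide)) (by decide)
    have h3 := grG_mul h1 (S6a_Z7_mem k h2 h4)
    rwa [show (0 : Deg) + dg 7 = dg 6 by decide] at h3
  · exact single_mem_grG _ _ (S6a_nonneg h2 h4 (by decide)) (by decide)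

theorem S6a_ne (i : Fin 8) : (algebraMap (R8 k) (KK k) (xx k i)) ≠ 0 := by
  rw [Ne, FaithfulSMul.algebraMap_eq_zero_iff]
  exact xx_ne i

theorem S6a_bet_Z7 : bet k 0 (S6a_Z7 k) = algebraMap (R8 k) (KK k) (vvK k 7) := by
  have e2 := S6a_ne k 2
  have e4 := S6a_ne k 4
  rw [S6a_Z7, map_sub, S6a_bet_single, S6a_bet_single, Fin.prod_univ_eight, Fin.prod_univ_eight]
  change (algebraMap (R8 k) (KK k) (xx k 0)) ^ (0 : ℤ) * (algebraMap (R8 k) (KK k) (xx k 1)) ^ (0 : ℤ) *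
      (algebraMap (R8 k) (KK k) (xx k 2)) ^ (-1 : ℤ) * (algebraMap (R8 k) (KK k) (xx k 3)) ^ (1 : ℤ) *
      (algebraMap (R8 k) (KK k) (xx k 4)) ^ (0 : ℤ) * (algebraMap (R8 k) (KK k) (xx k 5)) ^ (0 : ℤ) *
      (algebraMap (R8 k) (KK k) (rz2 k)) ^ (0 : ℤ) * (algebraMap (R8 k) (KK k) (rz3 k)) ^ (1 : ℤ) -
      (algebraMap (R8 k) (KK k) (xx k 0)) ^ (0 : ℤ) * (algebraMap (R8 k) (KK k) (xx k 1)) ^ (0 : ℤ) *
      (algebraMap (R8 k) (KK k) (xx k 2)) ^ (-1 : ℤ) * (algebraMap (R8 k) (KK k) (xx k 3)) ^ (0 : ℤ) *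
      (algebraMap (R8 k) (KK k) (xx k 4)) ^ (-1 : ℤ) * (algebraMap (R8 k) (KK k) (xx k 5)) ^ (1 : ℤ) *
      (algebraMap (R8 k) (KK k) (rz2 k)) ^ (1 : ℤ) * (algebraMap (R8 k) (KK k) (rz3 k)) ^ (0 : ℤ) =
      algebraMap (R8 k) (KK k) (rz1 k)
  simp only [rz1, rz2, rz3, rw1, rw2, map_mul, map_add, zpow_zero, zpow_one, zpow_neg, one_mul,
    mul_one]
  field_simp
  ring

theorem S6a_bet_Z6 : bet k 0 (S6a_Z6 k) = algebraMap (R8 k) (KK k) (vvK k 6) := by
  have e2 := S6a_ne k 2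
  have e4 := S6a_ne k 4
  rw [S6a_Z6, map_add, map_mul, S6a_bet_Z7, S6a_bet_single, S6a_bet_single, Fin.prod_univ_eight,
    Fin.prod_univ_eight]
  change (algebraMap (R8 k) (KK k) (xx k 0)) ^ (0 : ℤ) * (algebraMap (R8 k) (KK k) (xx k 1)) ^ (0 : ℤ) *
      (algebraMap (R8 k) (KK k) (xx k 2)) ^ (-1 : ℤ) * (algebraMap (R8 k) (KK k) (xx k 3)) ^ (0 : ℤ) *
      (algebraMap (R8 k) (KK k) (xx k 4)) ^ (-1 : ℤ) * (algebraMap (R8 k) (KK k) (xx k 5)) ^ (1 : ℤ) *
      (algebraMap (R8 k) (KK k) (rz2 k)) ^ (0 : ℤ) * (algebraMap (R8 k) (KK k) (rz3 k)) ^ (0 : ℤ) *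
      algebraMap (R8 k) (KK k) (rz1 k) +
      (algebraMap (R8 k) (KK k) (xx k 0)) ^ (0 : ℤ) * (algebraMap (R8 k) (KK k) (xx k 1)) ^ (0 : ℤ) *
      (algebraMap (R8 k) (KK k) (xx k 2)) ^ (-1 : ℤ) * (algebraMap (R8 k) (KK k) (xx k 3)) ^ (1 : ℤ) *
      (algebraMap (R8 k) (KK k) (xx k 4)) ^ (0 : ℤ) * (algebraMap (R8 k) (KK k) (xx k 5)) ^ (0 : ℤ) *
      (algebraMap (R8 k) (KK k) (rz2 k)) ^ (1 : ℤ) * (algebraMap (R8 k) (KK k) (rz3 k)) ^ (0 : ℤ) =
      algebraMap (R8 k) (KK k) (rz0 k)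
  simp only [rz0, rz1, rz2, rw1, rw2, map_mul, map_add, zpow_zero, zpow_one, zpow_neg, one_mul,
    mul_one]
  field_simp

theorem S6a_bet_E (v : Vr) (h6 : v ≠ 6) (h7 : v ≠ 7) :
    bet k 0 (AddMonoidAlgebra.single (S6a_E v) 1) = algebraMap (R8 k) (KK k) (vvK k v) := by
  rw [S6a_bet_single, Fin.prod_univ_eight]
  fin_cases v
  all_goals first
    | exact absurd rfl h6
    | exact absurd rfl h7
    | simp [S6a_E, vc, vvK]

theorem S6a_Z_mem {T : Finset (Fin 8)} (h2 : 2 ∈ T) (h4 : 4 ∈ T) (v : Vr) :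
    S6a_Z k v ∈ gr8 k 0 T (dg v) := by
  unfold S6a_Z
  split_ifs with h6 h7
  · subst h6; exact S6a_Z6_mem k h2 h4
  · subst h7; exact S6a_Z7_mem k h2 h4
  · refine single_mem_grG _ _ (fun i hi => ?_) (by revert v; decide)
    clear h2 h4 hi
    revert v i
    decide

theorem S6a_bet_Z (v : Vr) : bet k 0 (S6a_Z k v) = algebraMap (R8 k) (KK k) (vvK k v) := by
  unfold S6a_Z
  split_ifs with h6 h7
  · subst h6; exact S6a_bet_Z6 k
  · subst h7; exact S6a_bet_Z7 k
  · exact S6a_bet_E k v h6 h7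

theorem S6a_main (σ : Finset Vr) (T : Finset (Fin 8)) (h2 : 2 ∈ T) (h4 : 4 ∈ T)
    (hσ : ∀ v ∈ σ, v ≠ 6 ∧ v ≠ 7 ∧ ∀ i, i ∉ T → S6a_E v i = 0) (D : Deg) :
    VV k σ D ≤ VV8 k 0 T D := by
  refine VV_le_VV8 k σ 0 T (S6a_Z k) (fun v => AddMonoidAlgebra.single (-S6a_E v) 1)
    (S6a_Z_mem k h2 h4) (S6a_bet_Z k) ?_ ?_ D
  · intro v hv
    obtain ⟨h6, h7, h8⟩ := hσ v hv
    refine single_mem_grG _ _ (fun i hi => ?_) ?_
    · rw [Pi.neg_apply, h8 i hi, neg_zero]
    · clear h8 hv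
      revert v
      decide
  · intro v hv
    obtain ⟨h6, h7, h8⟩ := hσ v hv
    rw [S6a_Z, if_neg h6, if_neg h7, AddMonoidAlgebra.single_mul_single, add_neg_cancel, mul_one,
      AddMonoidAlgebra.one_def]

/-- chart `(u0,la)`, `s0` and `z2` inverted -/
theorem nf0_08 (D : Deg) : VV k {0,2,4,8} D ≤ VV8 k 0 {0,2,4,6} D := by
  exact S6a_main k _ _ (by decide) (by decide) (by decide) D

/-- chart `(u0,la)`, `s0` and `z3` inverted -/
theorem nf0_09 (D : Deg) : VV k {0,2,4,9} D ≤ VV8 k 0 {0,2,4,7} D := by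
  exact S6a_main k _ _ (by decide) (by decide) (by decide) D

/-- chart `(u0,la)`, `s1` and `z2` inverted -/
theorem nf0_18 (D : Deg) : VV k {1,2,4,8} D ≤ VV8 k 0 {1,2,4,6} D := by
  exact S6a_main k _ _ (by decide) (by decide) (by decide) D

/-- chart `(u0,la)`, `s1` and `z3` inverted -/
theorem nf0_19 (D : Deg) : VV k {1,2,4,9} D ≤ VV8 k 0 {1,2,4,7} D := by
  exact S6a_main k _ _ (by decide) (by decide) (by decide) D

end MPbd3808.BR.SX
end
end

section

/-!
# TASK S6b: sections of `O_E` over the charts with `u0, mu` invertible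

Notation: in `A8 k` let `m a b … = single (exponent) 1` be the Laurent monomials in the eight coordinates
`X0..X7 = s0,s1,u0,u1,la,mu,X6,X7` (`vc k c`). Use `VV_le_VV8` with explicit `Z, Zi : Vr → A8 k` (`![…]`): `Z v` is the expression of
the Cox variable `v` in the coordinates, `Zi v` the inverse of `Z v` (for `v ∈ σ`; junk elsewhere). `Z v = X_v` for `v = 0..5`;
the others are given below. `hZ`: `single_mem_grG` and `Submodule.add_mem`, `sub_mem`, the degree
equations by `decide` (or `funext; fin_cases; simp [dg, dc, dw, dz]`). `hZ'`: `mev_single` (unfold `bet`), then a `field_simp; ring` computation in the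
field `KK k` (all `algebraMap (xx i)` are nonzero) after unfolding `vvK, vc, rz0, …`. An alternative to direct
computation: `bet k c` is multiplicative, so multiply the claim by the (unit) monomial in the denominator and compare polynomials.

Chart 1 (`u0, mu` invertible, `X6 = w1 = rw1`, `X7 = z3 = rz3`): `Z 9 = X7`, `Z 7 = la X6` (z1 = la w1),
`Z 8 = mu^-1 la u1 X7 - mu^-1 la^2 u0 X6` (z2 = (la u1 z3 - la u0 z1)/mu),
`Z 6 = u0^-1 mu X6 + u0^-1 u1 * Z 8` (z0 = (mu w1 + u1 z2)/u0).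
-/

set_option autoImplicit false

noncomputable section

open CategoryTheory CategoryTheory.Limits

namespace MPbd3808.BR.SX

universe u v w

variable (k : Type u) [Field k]

theorem S6b_bet_single (c : Fin 5) (e : Fin 8 → ℤ) :
    bet k c (AddMonoidAlgebra.single e 1) =
      ∏ i, (algebraMap (R8 k) (KK k) (vc k c i)) ^ (e i) := by
  rw [bet, mev_single, one_smul, Units.coe_prod]
  refine Finset.prod_congr rfl fun i _ => ?_
  rw [Units.val_zpow_eq_zpow_val, toU_val]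

/-- the exponents of the monomials `Z v`, `v ≠ 6, 8` -/
def S6b_E : Vr → Fin 8 → ℤ :=
  ![![1,0,0,0,0,0,0,0], ![0,1,0,0,0,0,0,0], ![0,0,1,0,0,0,0,0], ![0,0,0,1,0,0,0,0],
    ![0,0,0,0,1,0,0,0], ![0,0,0,0,0,1,0,0], 0, ![0,0,0,0,1,0,1,0], 0, ![0,0,0,0,0,0,0,1]]

/-- `z2` -/
def S6b_Z8 : A8 k := AddMonoidAlgebra.single ![0,0,0,1,1,-1,0,1] 1 -
  AddMonoidAlgebra.single ![0,0,1,0,2,-1,1,0] 1

/-- `z0` -/
def S6b_Z6 : A8 k := AddMonoidAlgebra.single ![0,0,-1,1,0,0,0,0] 1 * S6b_Z8 k +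
  AddMonoidAlgebra.single ![0,0,-1,0,0,1,1,0] 1

/-- the Cox variables -/
def S6b_Z (v : Vr) : A8 k :=
  if v = 6 then S6b_Z6 k else if v = 8 then S6b_Z8 k else AddMonoidAlgebra.single (S6b_E v) 1

theorem S6b_nonneg {T : Finset (Fin 8)} (h2 : 2 ∈ T) (h5 : 5 ∈ T) {e : Fin 8 → ℤ}
    (he : ∀ i, i ≠ 2 → i ≠ 5 → 0 ≤ e i) : ∀ i, i ∉ T → 0 ≤ e i := fun i hi =>
  he i (fun h => hi (h ▸ h2)) (fun h => hi (h ▸ h5))

theorem S6b_Z8_mem {T : Finset (Fin 8)} (h2 : 2 ∈ T) (h5 : 5 ∈ T) :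
    S6b_Z8 k ∈ gr8 k 1 T (dg 8) := by
  refine Submodule.sub_mem _ ?_ ?_
  · exact single_mem_grG _ _ (S6b_nonneg h2 h5 (by decide)) (by decide)
  · exact single_mem_grG _ _ (S6b_nonneg h2 h5 (by decide)) (by decide)

theorem S6b_Z6_mem {T : Finset (Fin 8)} (h2 : 2 ∈ T) (h5 : 5 ∈ T) :
    S6b_Z6 k ∈ gr8 k 1 T (dg 6) := by
  refine Submodule.add_mem _ ?_ ?_
  · have h1 : (AddMonoidAlgebra.single ![0,0,-1,1,0,0,0,0] 1 : A8 k) ∈ gr8 k 1 T 0 :=
      single_mem_grG _ _ (S6b_nonneg h2 h5 (by decide)) (by decide)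
    have h3 := grG_mul h1 (S6b_Z8_mem k h2 h5)
    rwa [show (0 : Deg) + dg 8 = dg 6 by decide] at h3
  · exact single_mem_grG _ _ (S6b_nonneg h2 h5 (by decide)) (by decide)

theorem S6b_ne (i : Fin 8) : (algebraMap (R8 k) (KK k) (xx k i)) ≠ 0 := by
  rw [Ne, FaithfulSMul.algebraMap_eq_zero_iff]
  exact xx_ne i

theorem S6b_bet_Z8 : bet k 1 (S6b_Z8 k) = algebraMap (R8 k) (KK k) (vvK k 8) := by
  have e2 := S6b_ne k 2
  have e4 := S6b_ne k 4
  have e5 := S6b_ne k 5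
  rw [S6b_Z8, map_sub, S6b_bet_single, S6b_bet_single, Fin.prod_univ_eight, Fin.prod_univ_eight]
  change (algebraMap (R8 k) (KK k) (xx k 0)) ^ (0 : ℤ) * (algebraMap (R8 k) (KK k) (xx k 1)) ^ (0 : ℤ) *
      (algebraMap (R8 k) (KK k) (xx k 2)) ^ (0 : ℤ) * (algebraMap (R8 k) (KK k) (xx k 3)) ^ (1 : ℤ) *
      (algebraMap (R8 k) (KK k) (xx k 4)) ^ (1 : ℤ) * (algebraMap (R8 k) (KK k) (xx k 5)) ^ (-1 : ℤ) *
      (algebraMap (R8 k) (KK k) (rw1 k)) ^ (0 : ℤ) * (algebraMap (R8 k) (KK k) (rz3 k)) ^ (1 : ℤ) -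
      (algebraMap (R8 k) (KK k) (xx k 0)) ^ (0 : ℤ) * (algebraMap (R8 k) (KK k) (xx k 1)) ^ (0 : ℤ) *
      (algebraMap (R8 k) (KK k) (xx k 2)) ^ (1 : ℤ) * (algebraMap (R8 k) (KK k) (xx k 3)) ^ (0 : ℤ) *
      (algebraMap (R8 k) (KK k) (xx k 4)) ^ (2 : ℤ) * (algebraMap (R8 k) (KK k) (xx k 5)) ^ (-1 : ℤ) *
      (algebraMap (R8 k) (KK k) (rw1 k)) ^ (1 : ℤ) * (algebraMap (R8 k) (KK k) (rz3 k)) ^ (0 : ℤ) =
      algebraMap (R8 k) (KK k) (rz2 k)
  simp only [rz2, rz3, rw1, rw2, map_mul, map_add, zpow_zero, zpow_one, zpow_neg, zpow_two, one_mul,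
    mul_one]
  field_simp
  ring

theorem S6b_bet_Z6 : bet k 1 (S6b_Z6 k) = algebraMap (R8 k) (KK k) (vvK k 6) := by
  have e2 := S6b_ne k 2
  have e4 := S6b_ne k 4
  have e5 := S6b_ne k 5
  rw [S6b_Z6, map_add, map_mul, S6b_bet_Z8, S6b_bet_single, S6b_bet_single, Fin.prod_univ_eight,
    Fin.prod_univ_eight]
  change (algebraMap (R8 k) (KK k) (xx k 0)) ^ (0 : ℤ) * (algebraMap (R8 k) (KK k) (xx k 1)) ^ (0 : ℤ) *
      (algebraMap (R8 k) (KK k) (xx k 2)) ^ (-1 : ℤ) * (algebraMap (R8 k) (KK k) (xx k 3)) ^ (1 : ℤ) *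
      (algebraMap (R8 k) (KK k) (xx k 4)) ^ (0 : ℤ) * (algebraMap (R8 k) (KK k) (xx k 5)) ^ (0 : ℤ) *
      (algebraMap (R8 k) (KK k) (rw1 k)) ^ (0 : ℤ) * (algebraMap (R8 k) (KK k) (rz3 k)) ^ (0 : ℤ) *
      algebraMap (R8 k) (KK k) (rz2 k) +
      (algebraMap (R8 k) (KK k) (xx k 0)) ^ (0 : ℤ) * (algebraMap (R8 k) (KK k) (xx k 1)) ^ (0 : ℤ) *
      (algebraMap (R8 k) (KK k) (xx k 2)) ^ (-1 : ℤ) * (algebraMap (R8 k) (KK k) (xx k 3)) ^ (0 : ℤ) *
      (algebraMap (R8 k) (KK k) (xx k 4)) ^ (0 : ℤ) * (algebraMap (R8 k) (KK k) (xx k 5)) ^ (1 : ℤ) *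
      (algebraMap (R8 k) (KK k) (rw1 k)) ^ (1 : ℤ) * (algebraMap (R8 k) (KK k) (rz3 k)) ^ (0 : ℤ) =
      algebraMap (R8 k) (KK k) (rz0 k)
  simp only [rz0, rz2, rw1, rw2, map_mul, map_add, zpow_zero, zpow_one, zpow_neg, one_mul,
    mul_one]
  field_simp
  ring

theorem S6b_bet_E (v : Vr) (h6 : v ≠ 6) (h8 : v ≠ 8) :
    bet k 1 (AddMonoidAlgebra.single (S6b_E v) 1) = algebraMap (R8 k) (KK k) (vvK k v) := by
  rw [S6b_bet_single, Fin.prod_univ_eight]
  fin_cases v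
  all_goals first
    | exact absurd rfl h6
    | exact absurd rfl h8
    | simp [S6b_E, vc, vvK, rz1]

theorem S6b_Z_mem {T : Finset (Fin 8)} (h2 : 2 ∈ T) (h5 : 5 ∈ T) (v : Vr) :
    S6b_Z k v ∈ gr8 k 1 T (dg v) := by
  unfold S6b_Z
  split_ifs with h6 h8
  · subst h6; exact S6b_Z6_mem k h2 h5
  · subst h8; exact S6b_Z8_mem k h2 h5
  · refine single_mem_grG _ _ (fun i hi => ?_) (by revert v; decide)
    clear h2 h5 hi
    revert v i
    decide

theorem S6b_bet_Z (v : Vr) : bet k 1 (S6b_Z k v) = algebraMap (R8 k) (KK k) (vvK k v) := by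
  unfold S6b_Z
  split_ifs with h6 h8
  · subst h6; exact S6b_bet_Z6 k
  · subst h8; exact S6b_bet_Z8 k
  · exact S6b_bet_E k v h6 h8

theorem S6b_main (σ : Finset Vr) (T : Finset (Fin 8)) (h2 : 2 ∈ T) (h5 : 5 ∈ T)
    (hσ : ∀ v ∈ σ, v ≠ 6 ∧ v ≠ 8 ∧ ∀ i, i ∉ T → S6b_E v i = 0) (D : Deg) :
    VV k σ D ≤ VV8 k 1 T D := by
  refine VV_le_VV8 k σ 1 T (S6b_Z k) (fun v => AddMonoidAlgebra.single (-S6b_E v) 1)
    (S6b_Z_mem k h2 h5) (S6b_bet_Z k) ?_ ?_ D
  · intro v hv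
    obtain ⟨h6, h8, h9⟩ := hσ v hv
    refine single_mem_grG _ _ (fun i hi => ?_) ?_
    · rw [Pi.neg_apply, h9 i hi, neg_zero]
    · clear h9 hv
      revert v
      decide
  · intro v hv
    obtain ⟨h6, h8, h9⟩ := hσ v hv
    rw [S6b_Z, if_neg h6, if_neg h8, AddMonoidAlgebra.single_mul_single, add_neg_cancel, mul_one,
      AddMonoidAlgebra.one_def]

/-- chart `(u0,mu)`, `s0` and `z3` inverted -/
theorem nf1_09 (D : Deg) : VV k {0,2,5,9} D ≤ VV8 k 1 {0,2,5,7} D := by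
  exact S6b_main k _ _ (by decide) (by decide) (by decide) D

/-- chart `(u0,mu)`, `s0` and `z1` inverted -/
theorem nf1_07 (D : Deg) : VV k {0,2,5,7} D ≤ VV8 k 1 {0,2,5,4,6} D := by
  exact S6b_main k _ _ (by decide) (by decide) (by decide) D

/-- chart `(u0,mu)`, `s1` and `z3` inverted -/
theorem nf1_19 (D : Deg) : VV k {1,2,5,9} D ≤ VV8 k 1 {1,2,5,7} D := by
  exact S6b_main k _ _ (by decide) (by decide) (by decide) D

/-- chart `(u0,mu)`, `s1` and `z1` inverted -/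
theorem nf1_17 (D : Deg) : VV k {1,2,5,7} D ≤ VV8 k 1 {1,2,5,4,6} D := by
  exact S6b_main k _ _ (by decide) (by decide) (by decide) D

end MPbd3808.BR.SX
end
end

section

/-!
# TASK S6c: sections of `O_E` over the charts with `u1, la` invertible

Notation: in `A8 k` let `m a b … = single (exponent) 1` be the Laurent monomials in the eight coordinates
`X0..X7 = s0,s1,u0,u1,la,mu,X6,X7` (`vc k c`). Use `VV_le_VV8` with explicit `Z, Zi : Vr → A8 k` (`![…]`): `Z v` is the expression of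
the Cox variable `v` in the coordinates, `Zi v` the inverse of `Z v` (for `v ∈ σ`; junk elsewhere). `Z v = X_v` for `v = 0..5`;
the others are given below. `hZ`: `single_mem_grG` and `Submodule.add_mem`, `sub_mem`, the degree
equations by `decide` (or `funext; fin_cases; simp [dg, dc, dw, dz]`). `hZ'`: `mev_single` (unfold `bet`), then a `field_simp; ring` computation in the
field `KK k` (all `algebraMap (xx i)` are nonzero) after unfolding `vvK, vc, rz0, …`. An alternative to direct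
computation: `bet k c` is multiplicative, so multiply the claim by the (unit) monomial in the denominator and compare polynomials.

Chart 2 (`u1, la` invertible, `X6 = z1 = rz1`, `X7 = z0 = rz0`): `Z 7 = X6`, `Z 6 = X7`,
`Z 8 = u1^-1 u0 X7 - la^-1 u1^-1 mu X6` (z2 = (la u0 z0 - mu z1)/(la u1)),
`Z 9 = la^-1 u1^-1 mu * Z 8 + u1^-1 u0 X6` (z3 = (la u0 z1 + mu z2)/(la u1)).
-/

set_option autoImplicit false

noncomputable section

open CategoryTheory CategoryTheory.Limits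

namespace MPbd3808.BR.SX

universe u v w

variable (k : Type u) [Field k]

/-- Laurent monomials in the eight coordinates. -/
private def S6c_m (e : Fin 8 → ℤ) : A8 k := AddMonoidAlgebra.single e 1

/-- The Cox variables in the coordinates. -/
private def S6c_Z : Vr → A8 k :=
  ![S6c_m k ![1,0,0,0,0,0,0,0], S6c_m k ![0,1,0,0,0,0,0,0], S6c_m k ![0,0,1,0,0,0,0,0],
    S6c_m k ![0,0,0,1,0,0,0,0], S6c_m k ![0,0,0,0,1,0,0,0], S6c_m k ![0,0,0,0,0,1,0,0],
    S6c_m k ![0,0,0,0,0,0,0,1], S6c_m k ![0,0,0,0,0,0,1,0],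
    S6c_m k ![0,0,1,-1,0,0,0,1] - S6c_m k ![0,0,0,-1,-1,1,1,0],
    S6c_m k ![0,0,1,-2,-1,1,0,1] - S6c_m k ![0,0,0,-2,-2,2,1,0] + S6c_m k ![0,0,1,-1,0,0,1,0]]

private def S6c_Zi : Vr → A8 k :=
  ![S6c_m k ![-1,0,0,0,0,0,0,0], S6c_m k ![0,-1,0,0,0,0,0,0], S6c_m k ![0,0,-1,0,0,0,0,0],
    S6c_m k ![0,0,0,-1,0,0,0,0], S6c_m k ![0,0,0,0,-1,0,0,0], S6c_m k ![0,0,0,0,0,-1,0,0],
    S6c_m k ![0,0,0,0,0,0,0,-1], S6c_m k ![0,0,0,0,0,0,-1,0], 0, 0]

private theorem S6c_mem {T : Finset (Fin 8)} {D : Deg} (e : Fin 8 → ℤ)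
    (h1 : ∀ i, i ∉ T → 0 ≤ e i) (h2 : ∑ i, e i • dc 2 i = D) : S6c_m k e ∈ gr8 k 2 T D :=
  single_mem_grG e 1 h1 h2

private theorem S6c_hZ0 (v : Vr) : S6c_Z k v ∈ gr8 k 2 {3,4} (dg v) := by
  fin_cases v
  · exact S6c_mem k _ (by decide) (by decide)
  · exact S6c_mem k _ (by decide) (by decide)
  · exact S6c_mem k _ (by decide) (by decide)
  · exact S6c_mem k _ (by decide) (by decide)
  · exact S6c_mem k _ (by decide) (by decide)
  · exact S6c_mem k _ (by decide) (by decide)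
  · exact S6c_mem k _ (by decide) (by decide)
  · exact S6c_mem k _ (by decide) (by decide)
  · exact Submodule.sub_mem _ (S6c_mem k _ (by decide) (by decide))
      (S6c_mem k _ (by decide) (by decide))
  · exact Submodule.add_mem _ (Submodule.sub_mem _ (S6c_mem k _ (by decide) (by decide))
      (S6c_mem k _ (by decide) (by decide))) (S6c_mem k _ (by decide) (by decide))

private theorem S6c_bet (e : Fin 8 → ℤ) : bet k 2 (S6c_m k e) =
    algebraMap (R8 k) (KK k) (xx k 0) ^ e 0 * algebraMap (R8 k) (KK k) (xx k 1) ^ e 1 *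
    algebraMap (R8 k) (KK k) (xx k 2) ^ e 2 * algebraMap (R8 k) (KK k) (xx k 3) ^ e 3 *
    algebraMap (R8 k) (KK k) (xx k 4) ^ e 4 * algebraMap (R8 k) (KK k) (xx k 5) ^ e 5 *
    algebraMap (R8 k) (KK k) (rz1 k) ^ e 6 * algebraMap (R8 k) (KK k) (rz0 k) ^ e 7 := by
  unfold bet S6c_m
  rw [mev_single, one_smul, Fin.prod_univ_eight]
  push_cast
  rfl

private theorem S6c_hZ' (v : Vr) : bet k 2 (S6c_Z k v) =
    algebraMap (R8 k) (KK k) (vvK k v) := by
  have n : ∀ i : Fin 8, algebraMap (R8 k) (KK k) (xx k i) ≠ 0 := fun i =>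
    (toU (xx k i) (xx_ne i)).ne_zero
  have n3 := n 3
  have n4 := n 4
  fin_cases v
  · show bet k 2 (S6c_m k _) = algebraMap (R8 k) (KK k) (xx k 0)
    rw [S6c_bet]; simp
  · show bet k 2 (S6c_m k _) = algebraMap (R8 k) (KK k) (xx k 1)
    rw [S6c_bet]; simp
  · show bet k 2 (S6c_m k _) = algebraMap (R8 k) (KK k) (xx k 2)
    rw [S6c_bet]; simp
  · show bet k 2 (S6c_m k _) = algebraMap (R8 k) (KK k) (xx k 3)
    rw [S6c_bet]; simp
  · show bet k 2 (S6c_m k _) = algebraMap (R8 k) (KK k) (xx k 4)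
    rw [S6c_bet]; simp
  · show bet k 2 (S6c_m k _) = algebraMap (R8 k) (KK k) (xx k 5)
    rw [S6c_bet]; simp
  · show bet k 2 (S6c_m k _) = algebraMap (R8 k) (KK k) (rz0 k)
    rw [S6c_bet]; simp
  · show bet k 2 (S6c_m k _) = algebraMap (R8 k) (KK k) (rz1 k)
    rw [S6c_bet]; simp
  · show bet k 2 (S6c_m k _ - S6c_m k _) = algebraMap (R8 k) (KK k) (rz2 k)
    rw [map_sub, S6c_bet, S6c_bet]
    simp only [Matrix.cons_val, rz0, rz1, rz2, rw1, rw2, map_mul, map_add, zpow_zero, zpow_one,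
      zpow_neg, one_mul, mul_one]
    field_simp
    ring
  · show bet k 2 (S6c_m k _ - S6c_m k _ + S6c_m k _) = algebraMap (R8 k) (KK k) (rz3 k)
    rw [map_add, map_sub, S6c_bet, S6c_bet, S6c_bet]
    simp only [Matrix.cons_val, rz0, rz1, rz3, rw1, map_mul, map_add, zpow_zero, zpow_one,
      zpow_neg, one_mul, mul_one]
    field_simp
    ring

private theorem S6c_one {e e' : Fin 8 → ℤ} (h : e + e' = 0) : S6c_m k e * S6c_m k e' = 1 := by
  unfold S6c_m
  rw [AddMonoidAlgebra.single_mul_single, h, mul_one, ← AddMonoidAlgebra.one_def]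

private theorem S6c_inv (v : Vr) (hv : v ≠ 8) (hv' : v ≠ 9) : S6c_Z k v * S6c_Zi k v = 1 := by
  fin_cases v
  · exact S6c_one k (by decide)
  · exact S6c_one k (by decide)
  · exact S6c_one k (by decide)
  · exact S6c_one k (by decide)
  · exact S6c_one k (by decide)
  · exact S6c_one k (by decide)
  · exact S6c_one k (by decide)
  · exact S6c_one k (by decide)
  · exact absurd rfl hv
  · exact absurd rfl hv'

private theorem S6c_main (σ : Finset Vr) (T : Finset (Fin 8)) (hT : {3,4} ⊆ T)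
    (h : ∀ v ∈ σ, v ≠ 8 ∧ v ≠ 9) (hZi : ∀ v ∈ σ, S6c_Zi k v ∈ gr8 k 2 T (-dg v)) (D : Deg) :
    VV k σ D ≤ VV8 k 2 T D :=
  VV_le_VV8 k σ 2 T (S6c_Z k) (S6c_Zi k) (fun v => grG_mono hT _ (S6c_hZ0 k v)) (S6c_hZ' k) hZi
    (fun v hv => S6c_inv k v (h v hv).1 (h v hv).2) D

/-- chart `(u1,la)`, `s0` and `z1` inverted -/
theorem nf2_07 (D : Deg) : VV k {0,3,4,7} D ≤ VV8 k 2 {0,3,4,6} D := by
  refine S6c_main k _ _ (by decide) (by decide) ?_ D
  intro v hv
  simp only [Finset.mem_insert, Finset.mem_singleton] at hv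
  rcases hv with rfl | rfl | rfl | rfl
  · exact S6c_mem k _ (by decide) (by decide)
  · exact S6c_mem k _ (by decide) (by decide)
  · exact S6c_mem k _ (by decide) (by decide)
  · exact S6c_mem k _ (by decide) (by decide)

/-- chart `(u1,la)`, `s0` and `z0` inverted -/
theorem nf2_06 (D : Deg) : VV k {0,3,4,6} D ≤ VV8 k 2 {0,3,4,7} D := by
  refine S6c_main k _ _ (by decide) (by decide) ?_ D
  intro v hv
  simp only [Finset.mem_insert, Finset.mem_singleton] at hv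
  rcases hv with rfl | rfl | rfl | rfl
  · exact S6c_mem k _ (by decide) (by decide)
  · exact S6c_mem k _ (by decide) (by decide)
  · exact S6c_mem k _ (by decide) (by decide)
  · exact S6c_mem k _ (by decide) (by decide)

/-- chart `(u1,la)`, `s1` and `z1` inverted -/
theorem nf2_17 (D : Deg) : VV k {1,3,4,7} D ≤ VV8 k 2 {1,3,4,6} D := by
  refine S6c_main k _ _ (by decide) (by decide) ?_ D
  intro v hv
  simp only [Finset.mem_insert, Finset.mem_singleton] at hv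
  rcases hv with rfl | rfl | rfl | rfl
  · exact S6c_mem k _ (by decide) (by decide)
  · exact S6c_mem k _ (by decide) (by decide)
  · exact S6c_mem k _ (by decide) (by decide)
  · exact S6c_mem k _ (by decide) (by decide)

/-- chart `(u1,la)`, `s1` and `z0` inverted -/
theorem nf2_16 (D : Deg) : VV k {1,3,4,6} D ≤ VV8 k 2 {1,3,4,7} D := by
  refine S6c_main k _ _ (by decide) (by decide) ?_ D
  intro v hv
  simp only [Finset.mem_insert, Finset.mem_singleton] at hv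
  rcases hv with rfl | rfl | rfl | rfl
  · exact S6c_mem k _ (by decide) (by decide)
  · exact S6c_mem k _ (by decide) (by decide)
  · exact S6c_mem k _ (by decide) (by decide)
  · exact S6c_mem k _ (by decide) (by decide)

end MPbd3808.BR.SX
end
end

section

/-!
# TASK S6d: sections of `O_E` over the charts with `u1, mu` invertible

Notation: in `A8 k` let `m a b … = single (exponent) 1` be the Laurent monomials in the eight coordinates
`X0..X7 = s0,s1,u0,u1,la,mu,X6,X7` (`vc k c`). Use `VV_le_VV8` with explicit `Z, Zi : Vr → A8 k` (`![…]`): `Z v` is the expression of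
the Cox variable `v` in the coordinates, `Zi v` the inverse of `Z v` (for `v ∈ σ`; junk elsewhere). `Z v = X_v` for `v = 0..5`;
the others are given below. `hZ`: `single_mem_grG` and `Submodule.add_mem`, `sub_mem`, the degree
equations by `decide` (or `funext; fin_cases; simp [dg, dc, dw, dz]`). `hZ'`: `mev_single` (unfold `bet`), then a `field_simp; ring` computation in the
field `KK k` (all `algebraMap (xx i)` are nonzero) after unfolding `vvK, vc, rz0, …`. An alternative to direct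
computation: `bet k c` is multiplicative, so multiply the claim by the (unit) monomial in the denominator and compare polynomials.

Chart 3 (`u1, mu` invertible, `X6 = w2 = rw2`, `X7 = z0 = rz0`): `Z 6 = X7`, `Z 8 = la X6` (z2 = la w2),
`Z 7 = mu^-1 la u0 X7 - mu^-1 la^2 u1 X6` (z1 = (la u0 z0 - la u1 z2)/mu),
`Z 9 = u1^-1 mu X6 + u1^-1 u0 * Z 7` (z3 = (mu w2 + u0 z1)/u1).
-/

set_option autoImplicit false

noncomputable section

open CategoryTheory CategoryTheory.Limits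

namespace MPbd3808.BR.SX

universe u v w

variable (k : Type u) [Field k]

/-- Laurent monomials in the eight coordinates. -/
private def S6d_m (e : Fin 8 → ℤ) : A8 k := AddMonoidAlgebra.single e 1

/-- The Cox variables in the coordinates. -/
private def S6d_Z : Vr → A8 k :=
  ![S6d_m k ![1,0,0,0,0,0,0,0], S6d_m k ![0,1,0,0,0,0,0,0], S6d_m k ![0,0,1,0,0,0,0,0],
    S6d_m k ![0,0,0,1,0,0,0,0], S6d_m k ![0,0,0,0,1,0,0,0], S6d_m k ![0,0,0,0,0,1,0,0],
    S6d_m k ![0,0,0,0,0,0,0,1],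
    S6d_m k ![0,0,1,0,1,-1,0,1] - S6d_m k ![0,0,0,1,2,-1,1,0],
    S6d_m k ![0,0,0,0,1,0,1,0],
    S6d_m k ![0,0,0,-1,0,1,1,0] + S6d_m k ![0,0,2,-1,1,-1,0,1] - S6d_m k ![0,0,1,0,2,-1,1,0]]

private def S6d_Zi : Vr → A8 k :=
  ![S6d_m k ![-1,0,0,0,0,0,0,0], S6d_m k ![0,-1,0,0,0,0,0,0], S6d_m k ![0,0,-1,0,0,0,0,0],
    S6d_m k ![0,0,0,-1,0,0,0,0], S6d_m k ![0,0,0,0,-1,0,0,0], S6d_m k ![0,0,0,0,0,-1,0,0],
    S6d_m k ![0,0,0,0,0,0,0,-1], 0, S6d_m k ![0,0,0,0,-1,0,-1,0], 0]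

private theorem S6d_mem {T : Finset (Fin 8)} {D : Deg} (e : Fin 8 → ℤ)
    (h1 : ∀ i, i ∉ T → 0 ≤ e i) (h2 : ∑ i, e i • dc 3 i = D) : S6d_m k e ∈ gr8 k 3 T D :=
  single_mem_grG e 1 h1 h2

private theorem S6d_hZ0 (v : Vr) : S6d_Z k v ∈ gr8 k 3 {3,5} (dg v) := by
  fin_cases v
  · exact S6d_mem k _ (by decide) (by decide)
  · exact S6d_mem k _ (by decide) (by decide)
  · exact S6d_mem k _ (by decide) (by decide)
  · exact S6d_mem k _ (by decide) (by decide)
  · exact S6d_mem k _ (by decide) (by decide)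
  · exact S6d_mem k _ (by decide) (by decide)
  · exact S6d_mem k _ (by decide) (by decide)
  · exact Submodule.sub_mem _ (S6d_mem k _ (by decide) (by decide))
      (S6d_mem k _ (by decide) (by decide))
  · exact S6d_mem k _ (by decide) (by decide)
  · exact Submodule.sub_mem _ (Submodule.add_mem _ (S6d_mem k _ (by decide) (by decide))
      (S6d_mem k _ (by decide) (by decide))) (S6d_mem k _ (by decide) (by decide))

private theorem S6d_bet (e : Fin 8 → ℤ) : bet k 3 (S6d_m k e) =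
    algebraMap (R8 k) (KK k) (xx k 0) ^ e 0 * algebraMap (R8 k) (KK k) (xx k 1) ^ e 1 *
    algebraMap (R8 k) (KK k) (xx k 2) ^ e 2 * algebraMap (R8 k) (KK k) (xx k 3) ^ e 3 *
    algebraMap (R8 k) (KK k) (xx k 4) ^ e 4 * algebraMap (R8 k) (KK k) (xx k 5) ^ e 5 *
    algebraMap (R8 k) (KK k) (rw2 k) ^ e 6 * algebraMap (R8 k) (KK k) (rz0 k) ^ e 7 := by
  unfold bet S6d_m
  rw [mev_single, one_smul, Fin.prod_univ_eight]
  push_cast
  rfl

private theorem S6d_hZ' (v : Vr) : bet k 3 (S6d_Z k v) =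
    algebraMap (R8 k) (KK k) (vvK k v) := by
  have n : ∀ i : Fin 8, algebraMap (R8 k) (KK k) (xx k i) ≠ 0 := fun i =>
    (toU (xx k i) (xx_ne i)).ne_zero
  have n3 := n 3
  have n5 := n 5
  have z2 : ∀ x : KK k, x ^ (2 : ℤ) = x ^ 2 := fun x => by norm_cast
  fin_cases v
  · show bet k 3 (S6d_m k _) = algebraMap (R8 k) (KK k) (xx k 0)
    rw [S6d_bet]; simp
  · show bet k 3 (S6d_m k _) = algebraMap (R8 k) (KK k) (xx k 1)
    rw [S6d_bet]; simp
  · show bet k 3 (S6d_m k _) = algebraMap (R8 k) (KK k) (xx k 2)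
    rw [S6d_bet]; simp
  · show bet k 3 (S6d_m k _) = algebraMap (R8 k) (KK k) (xx k 3)
    rw [S6d_bet]; simp
  · show bet k 3 (S6d_m k _) = algebraMap (R8 k) (KK k) (xx k 4)
    rw [S6d_bet]; simp
  · show bet k 3 (S6d_m k _) = algebraMap (R8 k) (KK k) (xx k 5)
    rw [S6d_bet]; simp
  · show bet k 3 (S6d_m k _) = algebraMap (R8 k) (KK k) (rz0 k)
    rw [S6d_bet]; simp
  · show bet k 3 (S6d_m k _ - S6d_m k _) = algebraMap (R8 k) (KK k) (rz1 k)
    rw [map_sub, S6d_bet, S6d_bet]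
    simp only [Matrix.cons_val, rz0, rz1, rw1, rw2, map_mul, map_add, zpow_zero, zpow_one,
      zpow_neg, one_mul, mul_one, z2]
    field_simp
    ring
  · show bet k 3 (S6d_m k _) = algebraMap (R8 k) (KK k) (rz2 k)
    rw [S6d_bet]
    simp only [Matrix.cons_val, rz2, rw2, map_mul, map_add, zpow_zero, zpow_one,
      zpow_neg, one_mul, mul_one]
  · show bet k 3 (S6d_m k _ + S6d_m k _ - S6d_m k _) = algebraMap (R8 k) (KK k) (rz3 k)
    rw [map_sub, map_add, S6d_bet, S6d_bet, S6d_bet]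
    simp only [Matrix.cons_val, rz0, rz3, rw2, map_mul, map_add, zpow_zero, zpow_one,
      zpow_neg, one_mul, mul_one, z2]
    field_simp
    ring

private theorem S6d_one {e e' : Fin 8 → ℤ} (h : e + e' = 0) : S6d_m k e * S6d_m k e' = 1 := by
  unfold S6d_m
  rw [AddMonoidAlgebra.single_mul_single, h, mul_one, ← AddMonoidAlgebra.one_def]

private theorem S6d_inv (v : Vr) (hv : v ≠ 7) (hv' : v ≠ 9) : S6d_Z k v * S6d_Zi k v = 1 := by
  fin_cases v
  · exact S6d_one k (by decide)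
  · exact S6d_one k (by decide)
  · exact S6d_one k (by decide)
  · exact S6d_one k (by decide)
  · exact S6d_one k (by decide)
  · exact S6d_one k (by decide)
  · exact S6d_one k (by decide)
  · exact absurd rfl hv
  · exact S6d_one k (by decide)
  · exact absurd rfl hv'

private theorem S6d_main (σ : Finset Vr) (T : Finset (Fin 8)) (hT : {3,5} ⊆ T)
    (h : ∀ v ∈ σ, v ≠ 7 ∧ v ≠ 9) (hZi : ∀ v ∈ σ, S6d_Zi k v ∈ gr8 k 3 T (-dg v)) (D : Deg) :
    VV k σ D ≤ VV8 k 3 T D :=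
  VV_le_VV8 k σ 3 T (S6d_Z k) (S6d_Zi k) (fun v => grG_mono hT _ (S6d_hZ0 k v)) (S6d_hZ' k) hZi
    (fun v hv => S6d_inv k v (h v hv).1 (h v hv).2) D

/-- chart `(u1,mu)`, `s0` and `z0` inverted -/
theorem nf3_06 (D : Deg) : VV k {0,3,5,6} D ≤ VV8 k 3 {0,3,5,7} D := by
  refine S6d_main k _ _ (by decide) (by decide) ?_ D
  intro v hv
  simp only [Finset.mem_insert, Finset.mem_singleton] at hv
  rcases hv with rfl | rfl | rfl | rfl
  · exact S6d_mem k _ (by decide) (by decide)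
  · exact S6d_mem k _ (by decide) (by decide)
  · exact S6d_mem k _ (by decide) (by decide)
  · exact S6d_mem k _ (by decide) (by decide)

/-- chart `(u1,mu)`, `s0` and `z2` inverted -/
theorem nf3_08 (D : Deg) : VV k {0,3,5,8} D ≤ VV8 k 3 {0,3,5,4,6} D := by
  refine S6d_main k _ _ (by decide) (by decide) ?_ D
  intro v hv
  simp only [Finset.mem_insert, Finset.mem_singleton] at hv
  rcases hv with rfl | rfl | rfl | rfl
  · exact S6d_mem k _ (by decide) (by decide)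
  · exact S6d_mem k _ (by decide) (by decide)
  · exact S6d_mem k _ (by decide) (by decide)
  · exact S6d_mem k _ (by decide) (by decide)

/-- chart `(u1,mu)`, `s1` and `z0` inverted -/
theorem nf3_16 (D : Deg) : VV k {1,3,5,6} D ≤ VV8 k 3 {1,3,5,7} D := by
  refine S6d_main k _ _ (by decide) (by decide) ?_ D
  intro v hv
  simp only [Finset.mem_insert, Finset.mem_singleton] at hv
  rcases hv with rfl | rfl | rfl | rfl
  · exact S6d_mem k _ (by decide) (by decide)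
  · exact S6d_mem k _ (by decide) (by decide)
  · exact S6d_mem k _ (by decide) (by decide)
  · exact S6d_mem k _ (by decide) (by decide)

/-- chart `(u1,mu)`, `s1` and `z2` inverted -/
theorem nf3_18 (D : Deg) : VV k {1,3,5,8} D ≤ VV8 k 3 {1,3,5,4,6} D := by
  refine S6d_main k _ _ (by decide) (by decide) ?_ D
  intro v hv
  simp only [Finset.mem_insert, Finset.mem_singleton] at hv
  rcases hv with rfl | rfl | rfl | rfl
  · exact S6d_mem k _ (by decide) (by decide)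
  · exact S6d_mem k _ (by decide) (by decide)
  · exact S6d_mem k _ (by decide) (by decide)
  · exact S6d_mem k _ (by decide) (by decide)

end MPbd3808.BR.SX
end
end

section

/-!
# Global sections of `O_E` are polynomials in `s0,s1,u0,u1,la,mu,om1,om2`
-/

set_option autoImplicit false

noncomputable section

open CategoryTheory CategoryTheory.Limits

namespace MPbd3808.BR.SX

universe u v w

variable (k : Type u) [Field k]

theorem VV8_inter {c : Fin 5} {T T' : Finset (Fin 8)} {D : Deg} {y : KK k}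
    (h : y ∈ VV8 k c T D) (h' : y ∈ VV8 k c T' D) : y ∈ VV8 k c (T ∩ T') D := by
  obtain ⟨q, hq, rfl⟩ := h
  obtain ⟨q', hq', h1⟩ := h'
  have h2 : q' = q := bet_injective k c h1
  subst h2
  refine ⟨q', fun e he => ⟨fun i hi => ?_, (hq e he).2⟩, rfl⟩
  by_cases h3 : i ∈ T
  · exact (hq' e he).1 i (fun h4 => hi (Finset.mem_inter.2 ⟨h3, h4⟩))
  · exact (hq e he).1 i h3

theorem SE_le (D : Deg) (σ : Finset Vr) (hσ : Full σ) : SE k D ≤ VV k σ D :=
  fun _ hy => mem_SE.1 hy σ hσ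

instance (σ : Finset Vr) : Decidable (Full σ) := by unfold Full; infer_instance

theorem sec0 (D : Deg) : SE k D ≤ VV8 k 0 {2,4} D := by
  intro y hy
  have h1 := VV8_inter k (nf0_08 k D (SE_le k D {0,2,4,8} (by decide) hy))
    (nf0_09 k D (SE_le k D {0,2,4,9} (by decide) hy))
  have h2 := VV8_inter k (nf0_18 k D (SE_le k D {1,2,4,8} (by decide) hy))
    (nf0_19 k D (SE_le k D {1,2,4,9} (by decide) hy))
  have h3 := VV8_inter k h1 h2
  rwa [show ({0,2,4,6} ∩ {0,2,4,7}) ∩ ({1,2,4,6} ∩ {1,2,4,7}) = ({2,4} : Finset (Fin 8)) by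
    decide] at h3

theorem sec1 (D : Deg) : SE k D ≤ VV8 k 1 {2,5} D := by
  intro y hy
  have h1 := VV8_inter k (nf1_09 k D (SE_le k D {0,2,5,9} (by decide) hy))
    (nf1_07 k D (SE_le k D {0,2,5,7} (by decide) hy))
  have h2 := VV8_inter k (nf1_19 k D (SE_le k D {1,2,5,9} (by decide) hy))
    (nf1_17 k D (SE_le k D {1,2,5,7} (by decide) hy))
  have h3 := VV8_inter k h1 h2
  rwa [show ({0,2,5,7} ∩ {0,2,5,4,6}) ∩ ({1,2,5,7} ∩ {1,2,5,4,6}) = ({2,5} : Finset (Fin 8)) by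
    decide] at h3

theorem sec2 (D : Deg) : SE k D ≤ VV8 k 2 {3,4} D := by
  intro y hy
  have h1 := VV8_inter k (nf2_07 k D (SE_le k D {0,3,4,7} (by decide) hy))
    (nf2_06 k D (SE_le k D {0,3,4,6} (by decide) hy))
  have h2 := VV8_inter k (nf2_17 k D (SE_le k D {1,3,4,7} (by decide) hy))
    (nf2_16 k D (SE_le k D {1,3,4,6} (by decide) hy))
  have h3 := VV8_inter k h1 h2
  rwa [show ({0,3,4,6} ∩ {0,3,4,7}) ∩ ({1,3,4,6} ∩ {1,3,4,7}) = ({3,4} : Finset (Fin 8)) by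
    decide] at h3

theorem sec3 (D : Deg) : SE k D ≤ VV8 k 3 {3,5} D := by
  intro y hy
  have h1 := VV8_inter k (nf3_06 k D (SE_le k D {0,3,5,6} (by decide) hy))
    (nf3_08 k D (SE_le k D {0,3,5,8} (by decide) hy))
  have h2 := VV8_inter k (nf3_16 k D (SE_le k D {1,3,5,6} (by decide) hy))
    (nf3_18 k D (SE_le k D {1,3,5,8} (by decide) hy))
  have h3 := VV8_inter k h1 h2
  rwa [show ({0,3,5,7} ∩ {0,3,5,4,6}) ∩ ({1,3,5,7} ∩ {1,3,5,4,6}) = ({3,5} : Finset (Fin 8)) by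
    decide] at h3

/-- Global sections of `O_E(D)` are polynomials in `s0,s1,u0,u1,la,mu,om1,om2`. -/
theorem sec4 (D : Deg) : SE k D ≤ VV8 k 4 ∅ D := by
  intro y hy
  have h1 := VV8_inter k (om0 k D (sec0 k D hy)) (om1 k D (sec1 k D hy))
  have h2 := VV8_inter k (om2 k D (sec2 k D hy)) (om3 k D (sec3 k D hy))
  have h3 := VV8_inter k h1 h2
  rwa [show ({2,4} ∩ {2,5}) ∩ ({3,4} ∩ {3,5}) = (∅ : Finset (Fin 8)) by
    decide] at h3

end MPbd3808.BR.SX
end
end

section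

/-!
# TASK S9b: sections in degrees `(f,-1,1)`

* `rx_m1`: every exponent has `e 0 = e 1 = 0`, `e 6 + e 7 = 1`, `e 4 + e 5 - 1 = -1`, so `e 4 = e 5 = 0`; write `e = a + δ6` or `a + δ7`.
  By `DIV0` at `a + δ5` (if `a 3 = 0`): `q.coeff (a + δ6) = q.coeff (a + δ5 - δ4 - δ2 + δ7) = 0` (negative exponent of `la`). By `DIV0` at
  `a + δ4 + δ2`: `0 = q.coeff (a + δ4 + δ2 - δ5 + δ6) = q.coeff (a + δ7)`. So all exponents have `e 3 ≥ 1`, and with `DIV1` also `e 2 ≥ 1`:
  `X^e = u0^(e2-1) u1^(e3-1) w1` or `… w2`.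
-/

set_option autoImplicit false

noncomputable section

open CategoryTheory CategoryTheory.Limits

namespace MPbd3808.BR.SX

universe u v w

variable (k : Type u) [Field k]

theorem rx_m1 (f : ℤ) (q : A8 k) (hq : q ∈ gr8 k 4 ∅ (deg0 (f, -1, 1))) (h0 : DIV0 k q)
    (h1 : DIV1 k q) : bet k 4 q ∈ RXK k (f, -1, 1) := by
  have hdeg : ∀ e, q.coeff e ≠ 0 → (∀ i, 0 ≤ e i) ∧ e 0 + e 1 = 0 ∧
      e 2 + e 3 - e 4 - e 6 - e 7 = f ∧ e 4 + e 5 - e 6 - e 7 = -1 ∧ e 6 + e 7 = 1 := by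
    intro e he
    obtain ⟨h2, h3⟩ := hq e he
    have h30 := congrFun h3 0
    have h31 := congrFun h3 1
    have h32 := congrFun h3 2
    have h33 := congrFun h3 3
    simp only [Fin.sum_univ_eight, Finset.sum_apply, Pi.smul_apply, smul_eq_mul,
      dc, dom, deg0] at h30 h31 h32 h33
    simp at h30 h31 h32 h33
    refine ⟨fun i => h2 i (Finset.notMem_empty i), ?_, ?_, ?_, ?_⟩ <;> omega
  have hz : ∀ (e : Fin 8 → ℤ) (i : Fin 8), e i < 0 → q.coeff e = 0 := by
    intro e i hi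
    by_contra h
    have := (hdeg e h).1 i
    omega
  have hpos : ∀ e, q.coeff e ≠ 0 → e 0 = 0 ∧ e 1 = 0 ∧ 1 ≤ e 2 ∧ 1 ≤ e 3 ∧ e 4 = 0 ∧ e 5 = 0 ∧
      e 2 + e 3 = f + 1 ∧ (e 6 = 1 ∧ e 7 = 0 ∨ e 6 = 0 ∧ e 7 = 1) := by
    intro e he
    obtain ⟨hn, g0, g1, g2, g3⟩ := hdeg e he
    have n0 := hn 0
    have n1 := hn 1
    have n2 := hn 2
    have n3 := hn 3
    have n4 := hn 4
    have n5 := hn 5
    have n6 := hn 6
    have n7 := hn 7
    have e4 : e 4 = 0 := by omega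
    have e5 : e 5 = 0 := by omega
    have e67 : e 6 = 1 ∧ e 7 = 0 ∨ e 6 = 0 ∧ e 7 = 1 := by omega
    have h3 : e 3 ≠ 0 := by
      intro h3
      apply he
      rcases e67 with ⟨h6, h7⟩ | ⟨h6, h7⟩
      · have h := h0 (e + dl 5 - dl 6) (by simp [dl, h3]) (by simp [dl, h6]) (by simp [dl, h7])
        rw [show e + dl 5 - dl 6 - dl 5 + dl 6 = e by abel] at h
        rw [h]
        refine hz _ 4 ?_
        simp [dl, e4]
      · have h := h0 (e + dl 4 + dl 2 - dl 7) (by simp [dl, h3]) (by simp [dl, h6]) (by simp [dl, h7])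
        rw [show e + dl 4 + dl 2 - dl 7 - dl 4 - dl 2 + dl 7 = e by abel] at h
        rw [← h]
        refine hz _ 5 ?_
        simp [dl, e5]
    have h2 : e 2 ≠ 0 := by
      intro h2
      apply he
      rcases e67 with ⟨h6, h7⟩ | ⟨h6, h7⟩
      · have h := h1 (e + dl 4 + dl 3 - dl 6) (by simp [dl, h2]) (by simp [dl, h6]) (by simp [dl, h7])
        rw [show e + dl 4 + dl 3 - dl 6 - dl 4 - dl 3 + dl 6 = e by abel] at h
        rw [← h]
        refine hz _ 5 ?_
        simp [dl, e5]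
      · have h := h1 (e + dl 5 - dl 7) (by simp [dl, h2]) (by simp [dl, h6]) (by simp [dl, h7])
        rw [show e + dl 5 - dl 7 - dl 5 + dl 7 = e by abel] at h
        rw [h]
        refine hz _ 4 ?_
        simp [dl, e4]
    refine ⟨?_, ?_, ?_, ?_, e4, e5, ?_, e67⟩ <;> omega
  have hq' : q = ∑ e ∈ q.coeff.support, AddMonoidAlgebra.single e (q.coeff e) :=
    (AddMonoidAlgebra.sum_coeff_single q).symm
  rw [hq', map_sum]
  refine Submodule.sum_mem _ fun e he => ?_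
  obtain ⟨e0, e1, e2, e3, e4, e5, e23, e67⟩ := hpos e (Finsupp.mem_support_iff.1 he)
  rw [bet, mev_single]
  refine Submodule.smul_mem _ _ ?_
  obtain ⟨n, hn⟩ := Int.eq_ofNat_of_zero_le (show 0 ≤ e 2 - 1 by omega)
  obtain ⟨m, hm⟩ := Int.eq_ofNat_of_zero_le (show 0 ≤ e 3 - 1 by omega)
  have e2' : e 2 = ((n + 1 : ℕ) : ℤ) := by push_cast; omega
  have e3' : e 3 = ((m + 1 : ℕ) : ℤ) := by push_cast; omega
  rcases e67 with ⟨e6, e7⟩ | ⟨e6, e7⟩
  · have h := mem_RXK k n m 0 0 0 0 1 0 (f, -1, 1) (by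
      simp [BO.gdeg]
      omega)
    refine Eq.subst (motive := fun y : KK k => y ∈ RXK k (f, -1, 1)) (Eq.symm ?_) h
    rw [Fin.prod_univ_eight, e0, e1, e2', e3', e4, e5, e6, e7]
    simp only [zpow_zero, zpow_one, zpow_natCast, one_mul, mul_one, Units.val_mul, Units.val_pow_eq_pow_val,
      toU_val, pow_zero, pow_one, map_mul, map_pow, rw1, vc]
    simp [pow_succ]
    ring
  · have h := mem_RXK k n m 0 0 0 0 0 1 (f, -1, 1) (by
      simp [BO.gdeg]
      omega)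
    refine Eq.subst (motive := fun y : KK k => y ∈ RXK k (f, -1, 1)) (Eq.symm ?_) h
    rw [Fin.prod_univ_eight, e0, e1, e2', e3', e4, e5, e6, e7]
    simp only [zpow_zero, zpow_one, zpow_natCast, one_mul, mul_one, Units.val_mul, Units.val_pow_eq_pow_val,
      toU_val, pow_zero, pow_one, map_mul, map_pow, rw2, vc]
    simp [pow_succ]
    ring

end MPbd3808.BR.SX
end
end
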