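import Pool.Agent.Lib.MP_bd3808_ag.Mg.G025
import Pool.Agent.Lib.MP_bd3808_ag.Mg.G023
import Pool.Agent.Lib.MP_bd3808_ag.Mg.G026

section

/-!
# The functions on the charts as elements of `RL`
-/

set_option autoImplicit false

open CategoryTheory CategoryTheory.Limits AlgebraicGeometry TopologicalSpace

namespace BS

open MPbd3808.BR

universe u

variable {k : Type u} [Field k] {X : Scheme.{u}} [X.Over (Spec (.of k))]

/-- PROOF. `ev_ker`: `p = ff * q`, so `pi p = 0` (`pi_eq_zero`). -/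
theorem Charts.pi_eq_zero_of_ev (C : Charts k X) (σ : Finset Vr) (hσ : Full σ) (p : L0 k σ)
    (h : C.ev σ hσ p = 0) : pi k p = 0 := by
  obtain ⟨q, _, hq⟩ := (C.ev_ker σ hσ p).1 h
  exact (pi_eq_zero k _).2 ⟨q, hq⟩

/-- the functions on a chart as elements of `RL` -/
noncomputable def Charts.se (C : Charts k X) (σ : Finset Vr) (hσ : Full σ) :
    Γ(X, C.U σ hσ) →+* RL k :=
  RingHom.liftOfSurjective (C.ev σ hσ) (C.ev_surj σ hσ)
    ⟨((pi k).toRingHom.comp (L0 k σ).val.toRingHom), fun p hp => by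
      rw [RingHom.mem_ker] at hp ⊢
      exact C.pi_eq_zero_of_ev σ hσ p hp⟩

theorem Charts.se_ev (C : Charts k X) (σ : Finset Vr) (hσ : Full σ) (p : L0 k σ) :
    C.se σ hσ (C.ev σ hσ p) = pi k p := by
  unfold Charts.se
  exact RingHom.liftOfSurjective_comp_apply (C.ev σ hσ) (C.ev_surj σ hσ)
    ⟨((pi k).toRingHom.comp (L0 k σ).val.toRingHom), _⟩ p

/-- PROOF. `ev_surj`, `se_ev`, `pi_eq_zero_of_LD`, `ev_ker`; `injective_iff_map_eq_zero`. -/
theorem Charts.se_inj (C : Charts k X) (σ : Finset Vr) (hσ : Full σ) :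
    Function.Injective (C.se σ hσ) := by
  rw [injective_iff_map_eq_zero]
  intro y hy
  obtain ⟨p, rfl⟩ := C.ev_surj σ hσ y
  rw [C.se_ev] at hy
  exact (C.ev_ker σ hσ p).2 (pi_eq_zero_of_LD k σ p p.2 hy)

theorem Charts.se_res (C : Charts k X) (σ τ : Finset Vr) (hσ : Full σ) (hτ : Full τ) (h : σ ⊆ τ)
    (hU : C.U τ hτ ≤ C.U σ hσ) (y : Γ(X, C.U σ hσ)) :
    C.se τ hτ (rO X hU y) = C.se σ hσ y := by
  obtain ⟨p, rfl⟩ := C.ev_surj σ hσ y
  rw [C.ev_res σ τ hσ hτ h hU p, C.se_ev, C.se_ev]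
  rfl

theorem Charts.se_coef (C : Charts k X) (σ : Finset Vr) (hσ : Full σ) (c : k) :
    C.se σ hσ (resTop (C.U σ hσ) (coefTop k X c)) = algebraMap k (RL k) c := by
  rw [← C.ev_coef, C.se_ev]
  exact AlgHom.commutes (pi k) c

/-- the image of the functions on a chart -/
theorem Charts.se_range (C : Charts k X) (σ : Finset Vr) (hσ : Full σ) (r : RL k) :
    (∃ y, C.se σ hσ y = r) ↔ ∃ p ∈ L0 k σ, pi k p = r := by
  constructor
  · rintro ⟨y, rfl⟩
    obtain ⟨p, rfl⟩ := C.ev_surj σ hσ y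
    exact ⟨p, p.2, (C.se_ev σ hσ p).symm⟩
  · rintro ⟨p, hp, rfl⟩
    exact ⟨C.ev σ hσ ⟨p, hp⟩, C.se_ev σ hσ ⟨p, hp⟩⟩

end BS
end

section

/-!
# A scheme with charts is integral
-/

set_option autoImplicit false

open CategoryTheory CategoryTheory.Limits AlgebraicGeometry TopologicalSpace

namespace BS

open MPbd3808.BR

universe u

variable {k : Type u} [Field k] {X : Scheme.{u}} [X.Over (Spec (.of k))]

theorem Charts.isDomain (C : Charts k X) (σ : Finset Vr) (hσ : Full σ) : IsDomain Γ(X, C.U σ hσ) :=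
  (C.se_inj σ hσ).isDomain _

/-- PROOF. The ring of functions is nontrivial (`isDomain`), while `Γ(X, ⊥)` is a subsingleton. -/
theorem Charts.nonempty_U (C : Charts k X) (σ : Finset Vr) (hσ : Full σ) : ∃ x : X, x ∈ C.U σ hσ := by
  by_contra h
  have h0 : C.U σ hσ = ⊥ := by
    ext x
    simp only [SetLike.mem_coe]
    constructor
    · intro hx
      exact absurd ⟨x, hx⟩ h
    · intro hx
      exact absurd hx (by simp)
  have h1 : Nontrivial Γ(X, C.U σ hσ) := (C.isDomain σ hσ).toNontrivial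
  rw [h0] at h1
  have h2 : Subsingleton Γ(X, ⊥) := CommRingCat.subsingleton_of_isTerminal X.sheaf.isTerminalOfEmpty
  exact not_subsingleton_iff_nontrivial.2 h1 h2

/-- PROOF. `isIntegral_of_cover` for the charts: they are affine with a domain as ring of functions (the scheme `C.U σ hσ` is isomorphic to
`Spec Γ(X, U)`: `IsAffineOpen.isoSpec`, `isIntegral_of_isAffine_of_isDomain` or the like), and `U σ ∩ U τ = U (σ ∪ τ)` (`C.inf`) is not empty
(`nonempty_U`). The index type is `{σ // Full σ}`; `Finset.univ` is full. -/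
theorem Charts.isIntegral (C : Charts k X) : IsIntegral X := by
  have hfull : Full (Finset.univ : Finset Vr) := by
    intro i
    fin_cases i
    · exact ⟨0, Finset.mem_univ _, rfl⟩
    · exact ⟨2, Finset.mem_univ _, rfl⟩
    · exact ⟨4, Finset.mem_univ _, rfl⟩
    · exact ⟨6, Finset.mem_univ _, rfl⟩
  have : Nonempty {σ : Finset Vr // Full σ} := ⟨⟨Finset.univ, hfull⟩⟩
  refine isIntegral_of_cover (ι := {σ : Finset Vr // Full σ}) (fun s => C.U s.1 s.2) ?_ ?_ ?_
  · intro x
    obtain ⟨σ, hσ, hx⟩ := C.cover x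
    exact ⟨⟨σ, hσ⟩, hx⟩
  · rintro ⟨σ, hσ⟩
    have := C.isDomain σ hσ
    obtain ⟨x, hx⟩ := C.nonempty_U σ hσ
    have : Nonempty (C.U σ hσ : Scheme) := ⟨⟨x, hx⟩⟩
    exact isIntegral_of_isOpenImmersion (C.affine σ hσ).isoSpec.hom
  · rintro ⟨σ, hσ⟩ ⟨τ, hτ⟩
    obtain ⟨x, hx⟩ := C.nonempty_U (σ ∪ τ) (hσ.mono Finset.subset_union_left)
    rw [C.inf σ τ hσ hτ] at hx
    exact ⟨x, hx.1, hx.2⟩

end BS
end

section

/-!
# The functions on a scheme with charts as elements of `FL`
-/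

set_option autoImplicit false

open CategoryTheory CategoryTheory.Limits AlgebraicGeometry TopologicalSpace

namespace BS

open MPbd3808.BR

universe u

variable {k : Type u} [Field k] {X : Scheme.{u}} [X.Over (Spec (.of k))]

private lemma EmbB_full : Full (Finset.univ : Finset Vr) := by
  have h : ∀ i : Fin 4, ∃ v : Vr, fam v = i := by decide
  intro i
  obtain ⟨v, hv⟩ := h i
  exact ⟨v, Finset.mem_univ _, hv⟩

/-- PROOF. `X` is integral (`Charts.isIntegral`). Let `U1 := C.U Finset.univ`, `K := X.functionField`, the field of fractions of `Γ(X, U1)`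
(`functionField_isFractionRing_of_isAffineOpen`). The injective ring homomorphism `algebraMap ∘ se : Γ(X, U1) → RL → FL` extends to `φ : K → FL`
(`IsFractionRing.lift`). `emb V := φ ∘ X.germToFunctionField V`: injective (`Scheme.germToFunctionField_injective`, `φ` is a homomorphism of fields), compatible
(`TopCat.Presheaf.germ_res`). For a chart `σ`: `U1 ≤ U σ` (`C.anti`), so `emb (U σ) y = emb U1 (y|U1) = algebraMap (se _ (y|U1)) = algebraMap (se σ y)` (`se_res`). -/
theorem Charts.exists_embF (C : Charts k X) : ∃ E : EmbF X (FL k),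
    ∀ σ (hσ : Full σ) (y : Γ(X, C.U σ hσ)),
      E.emb _ (C.nonempty_U σ hσ) y = algebraMap (RL k) (FL k) (C.se σ hσ y) := by
  have hint := C.isIntegral
  set U1 := C.U Finset.univ EmbB_full with hU1
  have hne : Nonempty U1 := by
    obtain ⟨x, hx⟩ := C.nonempty_U Finset.univ EmbB_full
    exact ⟨⟨x, hx⟩⟩
  have hfr := functionField_isFractionRing_of_isAffineOpen X U1 (C.affine _ _)
  have hg : ∀ V : X.Opens, (∃ x, x ∈ V) → genericPoint X ∈ V := by
    intro V hV
    exact ((genericPoint_spec X).mem_open_set_iff V.isOpen).mpr (by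
      obtain ⟨x, hx⟩ := hV
      exact ⟨x, trivial, hx⟩)
  let g : Γ(X, U1) →+* FL k := (algebraMap (RL k) (FL k)).comp (C.se Finset.univ EmbB_full)
  have hginj : Function.Injective g :=
    (IsFractionRing.injective (RL k) (FL k)).comp (C.se_inj _ _)
  let φ : X.functionField →+* FL k := IsFractionRing.lift (K := X.functionField) hginj
  have hφ : ∀ y : Γ(X, U1), φ (X.presheaf.germ U1 (genericPoint X) (hg U1 (C.nonempty_U _ _)) y) =
      algebraMap (RL k) (FL k) (C.se Finset.univ EmbB_full y) := fun y =>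
    IsFractionRing.lift_algebraMap hginj y
  have hres : ∀ (V V' : X.Opens) (hV : ∃ x, x ∈ V) (hV' : ∃ x, x ∈ V') (h : V' ≤ V) (y : Γ(X, V)),
      (X.presheaf.germ V' (genericPoint X) (hg V' hV')).hom (rO X h y) =
        (X.presheaf.germ V (genericPoint X) (hg V hV)).hom y := by
    intro V V' hV hV' h y
    exact TopCat.Presheaf.germ_res_apply X.presheaf (homOfLE h) (genericPoint X) (hg V' hV') y
  let E : EmbF X (FL k) :=
    { emb := fun V hV => φ.comp (X.presheaf.germ V (genericPoint X) (hg V hV)).hom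
      inj := fun V hV => (RingHom.injective φ).comp (germ_injective_of_isIntegral X _ (hg V hV))
      res := fun V V' hV hV' h y => congrArg φ (hres V V' hV hV' h y) }
  refine ⟨E, fun σ hσ y => ?_⟩
  have hU : U1 ≤ C.U σ hσ := C.anti hσ EmbB_full (Finset.subset_univ σ)
  rw [← E.res _ U1 (C.nonempty_U σ hσ) (C.nonempty_U _ _) hU y]
  rw [← C.se_res σ Finset.univ hσ EmbB_full (Finset.subset_univ σ) hU y]
  exact hφ _

/-- the embedding of the functions in `FL` -/
noncomputable def Charts.E (C : Charts k X) : EmbF X (FL k) := C.exists_embF.choose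

lemma Charts.E_se (C : Charts k X) (σ) (hσ : Full σ) (hU : ∃ x, x ∈ C.U σ hσ)
    (y : Γ(X, C.U σ hσ)) :
    C.E.emb _ hU y = algebraMap (RL k) (FL k) (C.se σ hσ y) := C.exists_embF.choose_spec σ hσ y

/-- PROOF. Let `x ∈ V`, `x ∈ U σ`. Both sides can be compared on `V ⊓ U σ`, and `emb (V ⊓ U σ) (resTop (coefTop c))` is `emb (U σ) (resTop ..)` (`E.res`; `rO` of `resTop` is
`resTop`: `res_resTop`), which is `algebraMap (se ..) = algebraMap (algebraMap c)` by `se_coef`; `IsScalarTower.algebraMap_apply k (RL k) (FL k)`. -/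
theorem Charts.E_coef (C : Charts k X) (V : X.Opens) (hV : ∃ x, x ∈ V) (c : k) :
    C.E.emb V hV (resTop V (coefTop k X c)) = algebraMap k (FL k) c := by
  have hint := C.isIntegral
  obtain ⟨x, hx⟩ := hV
  obtain ⟨σ, hσ, hxσ⟩ := C.cover x
  have h1 : ∃ y, y ∈ V ⊓ C.U σ hσ := ⟨x, hx, hxσ⟩
  have h2 := C.E.res V (V ⊓ C.U σ hσ) ⟨x, hx⟩ h1 inf_le_left (resTop V (coefTop k X c))
  have h3 := C.E.res (C.U σ hσ) (V ⊓ C.U σ hσ) ⟨x, hxσ⟩ h1 inf_le_right
    (resTop (C.U σ hσ) (coefTop k X c))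
  rw [← h2]
  have h4 : rO X (inf_le_left : V ⊓ C.U σ hσ ≤ V) (resTop V (coefTop k X c)) =
      rO X (inf_le_right : V ⊓ C.U σ hσ ≤ C.U σ hσ) (resTop (C.U σ hσ) (coefTop k X c)) := by
    unfold rO
    rw [res_resTop, res_resTop]
  rw [h4, h3, C.E_se, C.se_coef]
  exact (IsScalarTower.algebraMap_apply k (RL k) (FL k) c).symm

end BS
end

section

/-!
# The graded ring `A` with `W = Proj A`
-/

set_option autoImplicit false

open Polynomial

namespace BS

open MPbd3808.BR

universe u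

variable (k : Type u) [Field k]

/-- the anticanonical degree -/
def de : Deg := ![1,1,1,3]

/-- the classes in `RL` of the polynomials of degree `n (1;1,1,3)` -/
noncomputable def RD (n : ℕ) : Submodule k (RL k) := (LD k ∅ (n • de)).map (pi k).toLinearMap

lemma mem_RD {n : ℕ} {r : RL k} : r ∈ RD k n ↔ ∃ p ∈ LD k ∅ (n • de), pi k p = r := Iff.rfl

lemma mul_mem_RD {m n : ℕ} {r s : RL k} (hr : r ∈ RD k m) (hs : s ∈ RD k n) :
    r * s ∈ RD k (m + n) := by
  obtain ⟨p, hp, rfl⟩ := hr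
  obtain ⟨q, hq, rfl⟩ := hs
  exact ⟨p * q, by rw [add_smul]; exact mul_mem_LD k hp hq, map_mul (pi k) p q⟩

lemma algebraMap_mem_RD (c : k) : algebraMap k (RL k) c ∈ RD k 0 :=
  ⟨algebraMap k (Lau k) c, by rw [zero_smul]; exact mono_mem k Reg.zero degE_zero c,
    AlgHom.commutes (pi k) c⟩

/-- The anticanonical ring `A = ⊕ R_{n (1;1,1,3)}`, realized in the polynomial ring `RL[T]`: the polynomials
whose `n`-th coefficient is the class of a homogeneous polynomial of degree `n (1;1,1,3)` in the Cox variables. -/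
noncomputable def AA : Subalgebra k (RL k)[X] where
  carrier := {p | ∀ n, p.coeff n ∈ RD k n}
  mul_mem' := by
    intro p q hp hq n
    rw [Polynomial.coeff_mul]
    refine Submodule.sum_mem _ fun x hx => ?_
    rw [← Finset.HasAntidiagonal.mem_antidiagonal.1 hx]
    exact mul_mem_RD k (hp x.1) (hq x.2)
  add_mem' := by
    intro p q hp hq n
    rw [Polynomial.coeff_add]
    exact (RD k n).add_mem (hp n) (hq n)
  algebraMap_mem' := by
    intro c n
    rw [Polynomial.algebraMap_apply, Polynomial.coeff_C]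
    split_ifs with h
    · subst h; exact algebraMap_mem_RD k c
    · exact (RD k n).zero_mem

lemma mem_AA {p : (RL k)[X]} : p ∈ AA k ↔ ∀ n, p.coeff n ∈ RD k n := Iff.rfl

/-- the pieces of the grading -/
noncomputable def AG (n : ℕ) : Submodule k (AA k) where
  carrier := {p | ∀ m, m ≠ n → (p : (RL k)[X]).coeff m = 0}
  zero_mem' := by intro m _; rfl
  add_mem' := by
    intro p q hp hq m hm
    change ((p : (RL k)[X]) + q).coeff m = 0
    rw [Polynomial.coeff_add, hp m hm, hq m hm, add_zero]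
  smul_mem' := by
    intro c p hp m hm
    change (c • (p : (RL k)[X])).coeff m = 0
    rw [Polynomial.coeff_smul, hp m hm, smul_zero]

lemma mem_AG {n : ℕ} {p : AA k} : p ∈ AG k n ↔ ∀ m, m ≠ n → (p : (RL k)[X]).coeff m = 0 := Iff.rfl

/-- the homogeneous element `r T^n` -/
noncomputable def hm {n : ℕ} (r : RL k) (hr : r ∈ RD k n) : AA k :=
  ⟨monomial n r, fun m => by
    rw [Polynomial.coeff_monomial]
    split_ifs with h
    · subst h; exact hr
    · exact (RD k m).zero_mem⟩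

lemma hm_mem {n : ℕ} (r : RL k) (hr : r ∈ RD k n) : hm k r hr ∈ AG k n := by
  intro m hm'
  exact Polynomial.coeff_monomial_of_ne r hm'

/-- PROOF. `Polynomial.ext`: both sides have `n`-th coefficient `p.coeff n` and the others are zero. -/
theorem eq_hm {n : ℕ} {p : AA k} (hp : p ∈ AG k n) :
    p = hm k ((p : (RL k)[X]).coeff n) (p.2 n) := by
  apply Subtype.ext
  refine Polynomial.ext fun m => ?_
  change (p : (RL k)[X]).coeff m = (monomial n ((p : (RL k)[X]).coeff n)).coeff m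
  rw [Polynomial.coeff_monomial]
  split_ifs with h
  · rw [h]
  · exact hp m (Ne.symm h)

/-- The coefficients of a sum of homogeneous elements. -/
theorem Agr_coeff (x : DirectSum ℕ fun n => AG k n) (n : ℕ) :
    ((DirectSum.coeAddMonoidHom (AG k) x : AA k) : (RL k)[X]).coeff n =
      ((x n : AA k) : (RL k)[X]).coeff n := by
  induction x using DirectSum.induction_on with
  | zero =>
    rw [map_zero, DirectSum.zero_apply]
    rfl
  | of m p =>
    rw [DirectSum.coeAddMonoidHom_of]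
    by_cases h : m = n
    · subst h
      rw [DirectSum.of_eq_same]
    · have h1 : (DirectSum.of (fun n => AG k n) m p) n = 0 :=
        DirectSum.of_eq_of_ne (β := fun n => AG k n) m n p (Ne.symm h)
      rw [h1]
      exact p.2 n (Ne.symm h)
  | add x y hx hy =>
    rw [map_add, DirectSum.add_apply]
    change ((DirectSum.coeAddMonoidHom (AG k) x : (RL k)[X]) +
      (DirectSum.coeAddMonoidHom (AG k) y : (RL k)[X])).coeff n =
      (((x n : AA k) : (RL k)[X]) + ((y n : AA k) : (RL k)[X])).coeff n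
    rw [Polynomial.coeff_add, Polynomial.coeff_add, hx, hy]

theorem Agr_internal : DirectSum.IsInternal (AG k) := by
  constructor
  · intro x y hxy
    refine DFinsupp.ext fun n => ?_
    have h1 := Agr_coeff k x n
    have h2 := Agr_coeff k y n
    rw [hxy, h2] at h1
    apply Subtype.ext
    apply Subtype.ext
    refine Polynomial.ext fun m => ?_
    by_cases h : m = n
    · rw [h]
      exact h1.symm
    · exact ((x n).2 m h).trans ((y n).2 m h).symm
  · intro p
    refine ⟨∑ n ∈ (p : (RL k)[X]).support,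
      DirectSum.of (fun n => AG k n) n ⟨hm k ((p : (RL k)[X]).coeff n) (p.2 n), hm_mem k _ _⟩, ?_⟩
    rw [map_sum]
    simp only [DirectSum.coeAddMonoidHom_of]
    apply Subtype.ext
    rw [AddSubmonoidClass.coe_finsetSum]
    exact ((p : (RL k)[X]).as_sum_support).symm

theorem Agr_graded : SetLike.GradedMonoid (AG k) where
  one_mem := by
    intro m hm
    change (1 : (RL k)[X]).coeff m = 0
    rw [Polynomial.coeff_one, if_neg hm]
  mul_mem := by
    intro m n p q hp hq l hl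
    change ((p : (RL k)[X]) * (q : (RL k)[X])).coeff l = 0
    rw [Polynomial.coeff_mul]
    refine Finset.sum_eq_zero fun x hx => ?_
    have h := Finset.HasAntidiagonal.mem_antidiagonal.1 hx
    by_cases h1 : x.1 = m
    · have h2 : x.2 ≠ n := by
        intro h2
        apply hl
        rw [← h, h1, h2]
      rw [hq _ h2, mul_zero]
    · rw [hp _ h1, zero_mul]

/-- The grading.

PROOF. `one_mem`, `mul_mem` by coefficients (`Polynomial.coeff_mul`: only the term `(m,n)` of the antidiagonal survives). Decomposition: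
`decompose' p := ∑ n ∈ p.support, DirectSum.of _ n ⟨hm (p.coeff n) _, _⟩`; left inverse: `Polynomial.sum_monomial_eq` / `Polynomial.ext`;
right inverse: by `DirectSum.induction_on` or with `DirectSum.Decomposition.ofAddHom`/`ofLinearMap`; or use
`DirectSum.IsInternal` and `DirectSum.IsInternal.chooseDecomposition`. -/
noncomputable instance : GradedAlgebra (AG k) :=
  { toGradedMonoid := Agr_graded k
    toDecomposition := (Agr_internal k).chooseDecomposition }

/-- the monomial `x^e T^n` for `e ≥ 0` of degree `n (1;1,1,3)` -/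
noncomputable def tm (n : ℕ) (e : Ex) (hr : Reg ∅ e) (hd : degE e = n • de) : AA k :=
  hm k (mo k e) ⟨mono k e 1, mono_mem k hr hd 1, rfl⟩

lemma tm_mem (n : ℕ) (e : Ex) (hr : Reg ∅ e) (hd : degE e = n • de) : tm k n e hr hd ∈ AG k n :=
  hm_mem k _ _

/-- PROOF. `Polynomial.monomial_mul_monomial`, `mo_add`. -/
theorem tm_mul (m n : ℕ) (e e' : Ex) (hr : Reg ∅ e) (hd : degE e = m • de) (hr' : Reg ∅ e')
    (hd' : degE e' = n • de) :
    tm k m e hr hd * tm k n e' hr' hd' =
      tm k (m + n) (e + e') (hr.add hr') (by rw [degE_add, hd, hd', add_smul]) := by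
  apply Subtype.ext
  change monomial m (mo k e) * monomial n (mo k e') = monomial (m + n) (mo k (e + e'))
  rw [Polynomial.monomial_mul_monomial, mo_add]

end BS
end

section

/-!
# The anticanonical five-derivations preserve the rings of functions of the charts
-/

set_option autoImplicit false

open Matrix

namespace BS

open MPbd3808.BR

universe u

variable (k : Type u) [Field k]

/-- PROOF. Induction (`Finset.induction_on`), `mul_mem_LD`; the empty product: `mono_mem` for `1 = mono 0 1`. -/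
theorem prod_mem_LD {ι : Type*} (s : Finset ι) {σ : Finset Vr} (a : ι → Deg) (p : ι → Lau k)
    (h : ∀ i ∈ s, p i ∈ LD k σ (a i)) : ∏ i ∈ s, p i ∈ LD k σ (∑ i ∈ s, a i) := by
  classical
  induction s using Finset.induction_on with
  | empty =>
    rw [Finset.prod_empty, Finset.sum_empty]
    exact mono_mem k Reg.zero degE_zero 1
  | insert i s hi ih =>
    rw [Finset.prod_insert hi, Finset.sum_insert hi]
    exact mul_mem_LD k (h i (Finset.mem_insert_self i s))
      (ih fun j hj => h j (Finset.mem_insert_of_mem hj))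

/-- PROOF. `Matrix.det_apply`: a sum over permutations `g` of `± ∏ i, P (g i) i`, with `∏ i, P (g i) i ∈ LD σ (∑ i, (a (g i) + b i))` (`prod_mem_LD`), and
`∑ i, a (g i) = ∑ i, a i` (`Equiv.sum_comp`). -/
theorem det_mem_LD {n : ℕ} {σ : Finset Vr} (a b : Fin n → Deg) (P : Matrix (Fin n) (Fin n) (Lau k))
    (h : ∀ i j, P i j ∈ LD k σ (a i + b j)) : P.det ∈ LD k σ (∑ i, a i + ∑ j, b j) := by
  rw [Matrix.det_apply]
  refine Submodule.sum_mem _ fun g _ => ?_
  have h1 : ∏ i, P (g i) i ∈ LD k σ (∑ i, a i + ∑ j, b j) := by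
    have h2 := prod_mem_LD k Finset.univ (fun i => a (g i) + b i) (fun i => P (g i) i)
      (fun i _ => h (g i) i)
    rw [Finset.sum_add_distrib, Equiv.sum_comp g a] at h2
    exact h2
  rcases Int.units_eq_one_or (Equiv.Perm.sign g) with h3 | h3
  · rw [h3, one_smul]
    exact h1
  · rw [h3, Units.neg_smul, one_smul]
    exact Submodule.neg_mem _ h1

/-- PROOF. Let `σ ⊆ τ` be minimal full (`exists_mini`) and `e` an enumeration (`exists_enum`; some variable is not in `σ`). By `DD_eq` the value is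
`± mo (h - 1) * det (MM p restricted to the columns e (inr j))`. Let `P : Matrix (Fin 6) (Fin 6) (Lau k)` have the rows
`P 0 j = mono (- e_v) 1 * dl v ff`, `P i.succ j = mono (- e_v) 1 * dl v (p i)`, `v = e (inr j)`, `e_v = Pi.single v 1`; by `par_mem` `P 0 j ∈ LD τ (dF - dg v)`,
`P i.succ j ∈ LD τ (0 - dg v)`, so `P.det ∈ LD τ (dF - ∑ j, dg (e (inr j)))` (`det_mem_LD`). The column `j` of `MM p` is `mo (e_v)` times the
column `j` of `pi P`, so `det (..) = mo (∑ j, Pi.single (e (inr j)) 1) * pi P.det` (`Matrix.det_mul_row` or `det_mul_column`). So the value is `pi q` with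
`q := ± mono (h - 1 + ∑ j, Pi.single (e (inr j)) 1) 1 * P.det`. The exponent is `h - ∑ i, Pi.single (e (inl i)) 1`
(`∑ v, Pi.single v 1 = 1`, `Fintype.sum_equiv`, `Fintype.sum_sum_type`), which is regular on `τ` as `e (inl i) ∈ σ ⊆ τ`. The degree of `q` is `0`:
`degE h + dF = de + dF = ∑ v, dg v` (`decide`). -/
theorem DD_mem {τ : Finset Vr} (hτ : Full τ) (h : Ex) (hr : Reg τ h) (hd : degE h = de)
    (p : Fin 5 → Lau k) (hp : ∀ i, p i ∈ LD k τ 0) :
    ∃ q ∈ LD k τ 0, DD k h (fun i => pi k (p i)) = pi k q := by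
  obtain ⟨σ, hστ, hσ⟩ := exists_mini hτ
  have hq : ∃ q, q ∉ σ := by
    by_contra hcon
    push Not at hcon
    obtain ⟨v, -, hv⟩ := hσ 0
    have h0 := hv 0 ⟨hcon 0, by decide⟩
    have h1 := hv 1 ⟨hcon 1, by decide⟩
    rw [← h1] at h0
    exact absurd h0 (by decide)
  obtain ⟨q0, hq0⟩ := hq
  obtain ⟨e, he, -⟩ := exists_enum hσ hq0
  obtain ⟨ε, hε⟩ := DD_eq k he h p hp
  let r : Fin 6 → Lau k := Fin.cons (ff k) p
  let a : Fin 6 → Deg := Fin.cons dF (fun _ => 0)
  have hr' : ∀ i, r i ∈ LD k τ (a i) := by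
    intro i
    refine Fin.cases ?_ (fun i => ?_) i
    · exact ff_mem k τ
    · exact hp i
  let P : Matrix (Fin 6) (Fin 6) (Lau k) :=
    Matrix.of fun i j => mono k (-Pi.single (e (.inr j)) 1) 1 * dl k (e (.inr j)) (r i)
  have hP : P.det ∈ LD k τ (∑ i, a i + ∑ j, -dg (e (.inr j))) := by
    refine det_mem_LD k a (fun j => -dg (e (.inr j))) P fun i j => ?_
    have h1 := par_mem k (hr' i) (e (.inr j))
    rw [sub_eq_add_neg] at h1
    exact h1
  have hM : (MM k p).submatrix id (fun j => e (.inr j)) =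
      Matrix.of fun i j => mo k (Pi.single (e (.inr j)) 1) * ((pi k).mapMatrix P) i j := by
    ext i j
    have h1 : (MM k p) i (e (.inr j)) = pi k (dl k (e (.inr j)) (r i)) := by
      refine Fin.cases ?_ (fun i => ?_) i <;> rfl
    rw [Matrix.submatrix_apply, id, h1, Matrix.of_apply, AlgHom.mapMatrix_apply, Matrix.map_apply]
    change _ = mo k (Pi.single (e (.inr j)) 1) * pi k (mono k (-Pi.single (e (.inr j)) 1) 1 *
      dl k (e (.inr j)) (r i))
    rw [map_mul, ← mul_assoc]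
    have h2 : mo k (Pi.single (e (.inr j)) 1) * pi k (mono k (-Pi.single (e (.inr j)) 1) 1) = 1 := by
      change mo k (Pi.single (e (.inr j)) 1) * mo k (-Pi.single (e (.inr j)) 1) = 1
      rw [← mo_add, add_neg_cancel, mo_zero]
    rw [h2, one_mul]
  have hprod : ∀ s : Finset (Fin 6), ∏ j ∈ s, mo k (Pi.single (e (.inr j)) 1) =
      mo k (∑ j ∈ s, Pi.single (e (.inr j)) 1) := by
    intro s
    induction s using Finset.induction_on with
    | empty => rw [Finset.prod_empty, Finset.sum_empty, mo_zero]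
    | insert j s hj ih => rw [Finset.prod_insert hj, Finset.sum_insert hj, mo_add, ih]
  rw [hM, Matrix.det_mul_row, hprod, ← AlgHom.map_det] at hε
  -- the polynomial
  have hreg : Reg τ (h - 1 + ∑ j, Pi.single (e (.inr j)) (1 : ℤ)) := by
    intro v hv
    obtain ⟨x, rfl⟩ := e.surjective v
    rcases x with i | j
    · exact absurd (hστ (he.1 i).1) hv
    · have h1 : (∑ j', (Pi.single (e (.inr j')) (1 : ℤ) : Ex)) (e (.inr j)) = 1 := by
        rw [Finset.sum_apply, Finset.sum_eq_single j]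
        · rw [Pi.single_eq_same]
        · intro j' _ hj'
          rw [Pi.single_apply, if_neg]
          intro h2
          exact hj' (Sum.inr_injective (e.injective h2)).symm
        · intro h2
          exact absurd (Finset.mem_univ j) h2
      rw [Pi.add_apply, Pi.sub_apply, h1]
      have h2 := hr _ hv
      simp only [Pi.one_apply]
      linarith
  have hdeg : degE (h - 1 + ∑ j, Pi.single (e (.inr j)) (1 : ℤ)) +
      (∑ i, a i + ∑ j, -dg (e (.inr j))) = 0 := by
    have h1 : ∑ i, a i = dF := by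
      rw [Fin.sum_univ_succ]
      simp [a]
    have h2 : ∀ s : Finset (Fin 6), degE (∑ j ∈ s, Pi.single (e (.inr j)) (1 : ℤ)) =
        ∑ j ∈ s, dg (e (.inr j)) := by
      intro s
      induction s using Finset.induction_on with
      | empty => rw [Finset.sum_empty, Finset.sum_empty, degE_zero]
      | insert j s hj ih =>
        rw [Finset.sum_insert hj, Finset.sum_insert hj, degE_add, ih]
        have h3 := degE_smul_single 1 (e (.inr j))
        rw [one_smul, one_smul] at h3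
        rw [h3]
    have h3 : degE (1 : Ex) = de + dF := by
      unfold degE
      simp only [Pi.one_apply, one_smul]
      decide
    rw [degE_add, sub_eq_add_neg, degE_add, degE_neg, hd, h3, h2, h1, Finset.sum_neg_distrib]
    abel
  have hq1 : mono k (h - 1 + ∑ j, Pi.single (e (.inr j)) (1 : ℤ)) 1 * P.det ∈ LD k τ 0 := by
    have h1 := mul_mem_LD k (mono_mem k hreg rfl 1) hP
    rwa [hdeg] at h1
  refine ⟨((ε : ℤ) : Lau k) * (mono k (h - 1 + ∑ j, Pi.single (e (.inr j)) (1 : ℤ)) 1 * P.det), ?_, ?_⟩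
  · rcases Int.units_eq_one_or ε with h1 | h1
    · rw [h1, Units.val_one, Int.cast_one, one_mul]
      exact hq1
    · rw [h1, Units.val_neg, Units.val_one, Int.cast_neg, Int.cast_one, neg_mul, one_mul]
      exact Submodule.neg_mem _ hq1
  · have h5 : pi k (mono k (h - 1 + ∑ j, Pi.single (e (.inr j)) (1 : ℤ)) 1) =
        mo k (h - 1) * mo k (∑ j, Pi.single (e (.inr j)) (1 : ℤ)) := by
      rw [← mo_add]
      rfl
    rw [hε, map_mul, map_mul, map_intCast, h5]
    ring

end BS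
end

section

/-!
# The monomials defining the charts
-/

set_option autoImplicit false

namespace BS

open MPbd3808.BR

/-- the exponent of a monomial with support `σ` (for `σ` full) of degree `4 (1;1,1,3)` -/
def mex (σ : Finset Vr) : Ex :=
  let c (a b : Vr) (n : ℤ) : ℤ := if a ∈ σ then (if b ∈ σ then n / 2 else n) else 0
  let l : ℤ := c 4 5 4
  let z (v : Vr) : ℤ := if v ∈ σ then 12 / ((σ ∩ {6,7,8,9}).card : ℤ) else 0
  ![c 0 1 4, c 1 0 4, c 2 3 (4 + l), c 3 2 (4 + l), l, c 5 4 4, z 6, z 7, z 8, z 9]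

private lemma Mex_d0 (e : Ex) : degE e 0 = e 0 + e 1 := by
  simp [degE, Fin.sum_univ_succ, dg]
private lemma Mex_d1 (e : Ex) : degE e 1 = e 2 + e 3 - e 4 := by
  simp [degE, Fin.sum_univ_succ, dg]
  ring
private lemma Mex_d2 (e : Ex) : degE e 2 = e 4 + e 5 := by
  simp [degE, Fin.sum_univ_succ, dg]
private lemma Mex_d3 (e : Ex) : degE e 3 = e 6 + e 7 + e 8 + e 9 := by
  simp [degE, Fin.sum_univ_succ, dg]
  ring

private lemma Mex_ext {a b : Deg} (h0 : a 0 = b 0) (h1 : a 1 = b 1) (h2 : a 2 = b 2)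
    (h3 : a 3 = b 3) : a = b := by
  funext i
  fin_cases i
  · exact h0
  · exact h1
  · exact h2
  · exact h3

private lemma Mex_full {σ : Finset Vr} (hσ : Full σ) :
    (0 ∈ σ ∨ 1 ∈ σ) ∧ (2 ∈ σ ∨ 3 ∈ σ) ∧ (4 ∈ σ ∨ 5 ∈ σ) ∧
      (6 ∈ σ ∨ 7 ∈ σ ∨ 8 ∈ σ ∨ 9 ∈ σ) := by
  refine ⟨?_, ?_, ?_, ?_⟩
  · obtain ⟨v, hv, h⟩ := hσ 0
    fin_cases v <;> simp [fam] at h <;> simp_all
  · obtain ⟨v, hv, h⟩ := hσ 1
    fin_cases v <;> simp [fam] at h <;> simp_all
  · obtain ⟨v, hv, h⟩ := hσ 2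
    fin_cases v <;> simp [fam] at h <;> simp_all
  · obtain ⟨v, hv, h⟩ := hσ 3
    fin_cases v <;> simp [fam] at h <;> simp_all

private lemma Mex_card (σ : Finset Vr) : ((σ ∩ {6,7,8,9}).card : ℤ) =
    (if 6 ∈ σ then 1 else 0) + (if 7 ∈ σ then 1 else 0) + (if 8 ∈ σ then 1 else 0) +
      (if 9 ∈ σ then 1 else 0) := by
  have h : σ ∩ {6,7,8,9} = ({6,7,8,9} : Finset Vr).filter (fun v => v ∈ σ) := by
    ext v
    rw [Finset.mem_inter, Finset.mem_filter, and_comm]
  rw [h, Finset.card_filter]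
  push_cast
  rw [Finset.sum_insert (by decide), Finset.sum_insert (by decide), Finset.sum_insert (by decide),
    Finset.sum_singleton]
  ring

/-- PROOF. Case distinction over which of the ten variables belong to `σ` (`σ` meets the four families): it is a finite check. For
instance prove it for `σ` in `Finset.univ.powerset` by `decide` (1024 subsets; `Full` is decidable:
`∀ i : Fin 4, ∃ v ∈ σ, fam v = i`), or family by family: the `s`-coordinates sum to `4`, etc. -/
theorem mex_deg {σ : Finset Vr} (hσ : Full σ) : degE (mex σ) = 4 • de := by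
  obtain ⟨h0, h1, h2, h3⟩ := Mex_full hσ
  apply Mex_ext
  · rw [Mex_d0]
    change _ = (4 : ℕ) • (1 : ℤ)
    simp only [mex, Matrix.cons_val]
    by_cases a : (0 : Vr) ∈ σ <;> by_cases b : (1 : Vr) ∈ σ <;> simp_all
  · rw [Mex_d1]
    change _ = (4 : ℕ) • (1 : ℤ)
    simp only [mex, Matrix.cons_val]
    by_cases a : (2 : Vr) ∈ σ <;> by_cases b : (3 : Vr) ∈ σ <;>
      by_cases a' : (4 : Vr) ∈ σ <;> by_cases b' : (5 : Vr) ∈ σ <;> simp_all
  · rw [Mex_d2]
    change _ = (4 : ℕ) • (1 : ℤ)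
    simp only [mex, Matrix.cons_val]
    by_cases a' : (4 : Vr) ∈ σ <;> by_cases b' : (5 : Vr) ∈ σ <;> simp_all
  · rw [Mex_d3]
    change _ = (4 : ℕ) • (3 : ℤ)
    simp only [mex, Matrix.cons_val, Mex_card]
    by_cases a : (6 : Vr) ∈ σ <;> by_cases b : (7 : Vr) ∈ σ <;>
      by_cases a' : (8 : Vr) ∈ σ <;> by_cases b' : (9 : Vr) ∈ σ <;> simp_all

/-- PROOF. As for `mex_deg`: on `σ` all the values are `≥ 1` (`4/2`, `(4+l)/2` with `l ∈ {0,2,4}`, `12/c` with `1 ≤ c ≤ 4`). -/
theorem mex_pos {σ : Finset Vr} (v : Vr) : v ∈ σ ↔ 0 < mex σ v := by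
  fin_cases v
  · change (0 : Vr) ∈ σ ↔ 0 < mex σ 0
    simp only [mex, Matrix.cons_val]
    by_cases a : (0 : Vr) ∈ σ <;> by_cases b : (1 : Vr) ∈ σ <;> simp_all
  · change (1 : Vr) ∈ σ ↔ 0 < mex σ 1
    simp only [mex, Matrix.cons_val]
    by_cases a : (0 : Vr) ∈ σ <;> by_cases b : (1 : Vr) ∈ σ <;> simp_all
  · change (2 : Vr) ∈ σ ↔ 0 < mex σ 2
    simp only [mex, Matrix.cons_val]
    by_cases a : (2 : Vr) ∈ σ <;> by_cases b : (3 : Vr) ∈ σ <;>
      by_cases a' : (4 : Vr) ∈ σ <;> by_cases b' : (5 : Vr) ∈ σ <;> simp_all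
  · change (3 : Vr) ∈ σ ↔ 0 < mex σ 3
    simp only [mex, Matrix.cons_val]
    by_cases a : (2 : Vr) ∈ σ <;> by_cases b : (3 : Vr) ∈ σ <;>
      by_cases a' : (4 : Vr) ∈ σ <;> by_cases b' : (5 : Vr) ∈ σ <;> simp_all
  · change (4 : Vr) ∈ σ ↔ 0 < mex σ 4
    simp only [mex, Matrix.cons_val]
    by_cases a' : (4 : Vr) ∈ σ <;> by_cases b' : (5 : Vr) ∈ σ <;> simp_all
  · change (5 : Vr) ∈ σ ↔ 0 < mex σ 5
    simp only [mex, Matrix.cons_val]
    by_cases a' : (4 : Vr) ∈ σ <;> by_cases b' : (5 : Vr) ∈ σ <;> simp_all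
  · change (6 : Vr) ∈ σ ↔ 0 < mex σ 6
    simp only [mex, Matrix.cons_val, Mex_card]
    by_cases a : (6 : Vr) ∈ σ <;> by_cases b : (7 : Vr) ∈ σ <;>
      by_cases a' : (8 : Vr) ∈ σ <;> by_cases b' : (9 : Vr) ∈ σ <;> simp_all
  · change (7 : Vr) ∈ σ ↔ 0 < mex σ 7
    simp only [mex, Matrix.cons_val, Mex_card]
    by_cases a : (6 : Vr) ∈ σ <;> by_cases b : (7 : Vr) ∈ σ <;>
      by_cases a' : (8 : Vr) ∈ σ <;> by_cases b' : (9 : Vr) ∈ σ <;> simp_all
  · change (8 : Vr) ∈ σ ↔ 0 < mex σ 8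
    simp only [mex, Matrix.cons_val, Mex_card]
    by_cases a : (6 : Vr) ∈ σ <;> by_cases b : (7 : Vr) ∈ σ <;>
      by_cases a' : (8 : Vr) ∈ σ <;> by_cases b' : (9 : Vr) ∈ σ <;> simp_all
  · change (9 : Vr) ∈ σ ↔ 0 < mex σ 9
    simp only [mex, Matrix.cons_val, Mex_card]
    by_cases a : (6 : Vr) ∈ σ <;> by_cases b : (7 : Vr) ∈ σ <;>
      by_cases a' : (8 : Vr) ∈ σ <;> by_cases b' : (9 : Vr) ∈ σ <;> simp_all

lemma mex_reg (σ : Finset Vr) : Reg ∅ (mex σ) := by
  intro v _
  by_cases h : v ∈ σ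
  · exact ((mex_pos v).1 h).le
  · unfold mex
    fin_cases v <;> simp_all

private lemma Mex_co {n : ℕ} {e : Ex} (hd : degE e = n • de) :
    e 0 + e 1 = n ∧ e 2 + e 3 - e 4 = n ∧ e 4 + e 5 = n ∧ e 6 + e 7 + e 8 + e 9 = 3 * n := by
  refine ⟨?_, ?_, ?_, ?_⟩
  · rw [← Mex_d0, hd]; simp [de]
  · rw [← Mex_d1, hd]; simp [de]
  · rw [← Mex_d2, hd]; simp [de]
  · rw [← Mex_d3, hd]; simp [de]; ring

private lemma Mex_nn {e : Ex} (hr : Reg ∅ e) (v : Vr) : 0 ≤ e v := hr v (by simp)

/-- Every monomial of degree `n (1;1,1,3)` with `n ≥ 1` contains one variable of each family.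

PROOF. `e ≥ 0`. Coordinate `0` of `degE e`: `e 0 + e 1 = n`; coordinate `3`: `e 6 + e 7 + e 8 + e 9 = 3 n`; coordinate `2`:
`e 4 + e 5 = n`; coordinate `1`: `e 2 + e 3 - e 4 = n`. -/
theorem full_of_deg {n : ℕ} (hn : 0 < n) {e : Ex} (hr : Reg ∅ e) (hd : degE e = n • de) :
    Full (Finset.univ.filter fun v => 0 < e v) := by
  obtain ⟨h0, h1, h2, h3⟩ := Mex_co hd
  have hn' : (0 : ℤ) < n := by exact_mod_cast hn
  have p0 := Mex_nn hr 0
  have p1 := Mex_nn hr 1
  have p2 := Mex_nn hr 2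
  have p3 := Mex_nn hr 3
  have p4 := Mex_nn hr 4
  have p5 := Mex_nn hr 5
  intro i
  fin_cases i
  · by_cases h : 0 < e 0
    · exact ⟨0, by simpa using h, rfl⟩
    · exact ⟨1, by simp; omega, rfl⟩
  · by_cases h : 0 < e 2
    · exact ⟨2, by simpa using h, rfl⟩
    · exact ⟨3, by simp; omega, rfl⟩
  · by_cases h : 0 < e 4
    · exact ⟨4, by simpa using h, rfl⟩
    · exact ⟨5, by simp; omega, rfl⟩
  · by_cases h : 0 < e 6
    · exact ⟨6, by simpa using h, rfl⟩
    · by_cases h' : 0 < e 7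
      · exact ⟨7, by simpa using h', rfl⟩
      · by_cases h'' : 0 < e 8
        · exact ⟨8, by simpa using h'', rfl⟩
        · exact ⟨9, by simp; omega, rfl⟩

/-- Every monomial of degree `(n+1) (1;1,1,3)` is divisible by one of degree `(1;1,1,3)`.

PROOF. Take a variable `s_i` in it, three `z`'s (with multiplicity) and: if `mu` (5) is in it, `mu` and one `u`; otherwise `la` (4) and
two `u`'s (`e 2 + e 3 = n + 1 + e 4 ≥ 2`). (`omega` after writing the coordinates.) -/
theorem split_deg {n : ℕ} {e : Ex} (hr : Reg ∅ e) (hd : degE e = (n + 1) • de) :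
    ∃ e1 e2 : Ex, Reg ∅ e1 ∧ Reg ∅ e2 ∧ degE e1 = de ∧ degE e2 = n • de ∧ e = e1 + e2 := by
  obtain ⟨h0, h1, h2, h3⟩ := Mex_co hd
  push_cast at h0 h1 h2 h3
  have p0 := Mex_nn hr 0
  have p1 := Mex_nn hr 1
  have p2 := Mex_nn hr 2
  have p3 := Mex_nn hr 3
  have p4 := Mex_nn hr 4
  have p5 := Mex_nn hr 5
  have p6 := Mex_nn hr 6
  have p7 := Mex_nn hr 7
  have p8 := Mex_nn hr 8
  have p9 := Mex_nn hr 9
  obtain ⟨a0, a1, a2, a3, a4, a5, q0, q1, q2, q3, q4, q5, r0, r1, r2, r3, r4, r5, s0, s1, s2⟩ :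
    ∃ a0 a1 a2 a3 a4 a5 : ℤ, 0 ≤ a0 ∧ 0 ≤ a1 ∧ 0 ≤ a2 ∧ 0 ≤ a3 ∧ 0 ≤ a4 ∧ 0 ≤ a5 ∧
      a0 ≤ e 0 ∧ a1 ≤ e 1 ∧ a2 ≤ e 2 ∧ a3 ≤ e 3 ∧ a4 ≤ e 4 ∧ a5 ≤ e 5 ∧
      a0 + a1 = 1 ∧ a2 + a3 - a4 = 1 ∧ a4 + a5 = 1 := by
    have hs : ∃ a0 a1 : ℤ, 0 ≤ a0 ∧ 0 ≤ a1 ∧ a0 ≤ e 0 ∧ a1 ≤ e 1 ∧ a0 + a1 = 1 := by
      by_cases h : 0 < e 0
      · exact ⟨1, 0, by omega, by omega, by omega, by omega, by omega⟩
      · exact ⟨0, 1, by omega, by omega, by omega, by omega, by omega⟩
    obtain ⟨a0, a1, b1, b2, b3, b4, b5⟩ := hs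
    have ht : ∃ a2 a3 a4 a5 : ℤ, 0 ≤ a2 ∧ 0 ≤ a3 ∧ 0 ≤ a4 ∧ 0 ≤ a5 ∧
        a2 ≤ e 2 ∧ a3 ≤ e 3 ∧ a4 ≤ e 4 ∧ a5 ≤ e 5 ∧ a2 + a3 - a4 = 1 ∧ a4 + a5 = 1 := by
      by_cases h : 0 < e 5
      · by_cases h' : 0 < e 2
        · exact ⟨1, 0, 0, 1, by omega, by omega, by omega, by omega, by omega, by omega,
            by omega, by omega, by omega, by omega⟩
        · exact ⟨0, 1, 0, 1, by omega, by omega, by omega, by omega, by omega, by omega,
            by omega, by omega, by omega, by omega⟩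
      · by_cases h' : 2 ≤ e 2
        · exact ⟨2, 0, 1, 0, by omega, by omega, by omega, by omega, by omega, by omega,
            by omega, by omega, by omega, by omega⟩
        · by_cases h'' : 1 ≤ e 2
          · exact ⟨1, 1, 1, 0, by omega, by omega, by omega, by omega, by omega, by omega,
              by omega, by omega, by omega, by omega⟩
          · exact ⟨0, 2, 1, 0, by omega, by omega, by omega, by omega, by omega, by omega,
              by omega, by omega, by omega, by omega⟩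
    obtain ⟨a2, a3, a4, a5, c1, c2, c3, c4, c5, c6, c7, c8, c9, c10⟩ := ht
    exact ⟨a0, a1, a2, a3, a4, a5, b1, b2, c1, c2, c3, c4, b3, b4, c5, c6, c7, c8, b5, c9, c10⟩
  obtain ⟨a6, a7, a8, a9, q6, q7, q8, q9, r6, r7, r8, r9, s3⟩ :
    ∃ a6 a7 a8 a9 : ℤ, 0 ≤ a6 ∧ 0 ≤ a7 ∧ 0 ≤ a8 ∧ 0 ≤ a9 ∧
      a6 ≤ e 6 ∧ a7 ≤ e 7 ∧ a8 ≤ e 8 ∧ a9 ≤ e 9 ∧ a6 + a7 + a8 + a9 = 3 := by
    refine ⟨min (e 6) 3, min (e 7) (3 - min (e 6) 3),
      min (e 8) (3 - min (e 6) 3 - min (e 7) (3 - min (e 6) 3)),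
      3 - min (e 6) 3 - min (e 7) (3 - min (e 6) 3) -
        min (e 8) (3 - min (e 6) 3 - min (e 7) (3 - min (e 6) 3)), ?_, ?_, ?_, ?_, ?_, ?_, ?_, ?_,
        ?_⟩ <;> omega
  let e1 : Ex := ![a0, a1, a2, a3, a4, a5, a6, a7, a8, a9]
  have hd1 : degE e1 = de := by
    apply Mex_ext
    · rw [Mex_d0]; exact s0
    · rw [Mex_d1]; exact s1
    · rw [Mex_d2]; exact s2
    · rw [Mex_d3]; exact s3
  refine ⟨e1, e - e1, ?_, ?_, hd1, ?_, by abel⟩
  · intro v _
    fin_cases v
    · exact q0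
    · exact q1
    · exact q2
    · exact q3
    · exact q4
    · exact q5
    · exact q6
    · exact q7
    · exact q8
    · exact q9
  · intro v _
    rw [Pi.sub_apply]
    apply sub_nonneg.2
    fin_cases v
    · exact r0
    · exact r1
    · exact r2
    · exact r3
    · exact r4
    · exact r5
    · exact r6
    · exact r7
    · exact r8
    · exact r9
  · rw [sub_eq_add_neg, degE_add, degE_neg, hd, hd1, add_smul, one_smul]
    abel

/-- PROOF. All coordinates of such an exponent are in `[0,3]` (as in `full_of_deg` with `n = 1`): the set is contained in the finite set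
`Set.pi univ (Icc 0 3)`. -/
theorem finite_E1 : {e : Ex | Reg ∅ e ∧ degE e = de}.Finite := by
  refine (Set.finite_Icc (0 : Ex) (fun _ => 3)).subset ?_
  rintro e ⟨hr, hd⟩
  obtain ⟨h0, h1, h2, h3⟩ := Mex_co (n := 1) (by rw [one_smul]; exact hd)
  push_cast at h0 h1 h2 h3
  have p0 := Mex_nn hr 0
  have p1 := Mex_nn hr 1
  have p2 := Mex_nn hr 2
  have p3 := Mex_nn hr 3
  have p4 := Mex_nn hr 4
  have p5 := Mex_nn hr 5
  have p6 := Mex_nn hr 6
  have p7 := Mex_nn hr 7
  have p8 := Mex_nn hr 8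
  have p9 := Mex_nn hr 9
  refine ⟨fun v => Mex_nn hr v, fun v => ?_⟩
  fin_cases v
  · change e 0 ≤ 3; omega
  · change e 1 ≤ 3; omega
  · change e 2 ≤ 3; omega
  · change e 3 ≤ 3; omega
  · change e 4 ≤ 3; omega
  · change e 5 ≤ 3; omega
  · change e 6 ≤ 3; omega
  · change e 7 ≤ 3; omega
  · change e 8 ≤ 3; omega
  · change e 9 ≤ 3; omega

/-- PROOF. Coordinates: all sums vanish, so all are zero. -/
theorem eq_zero_of_deg {e : Ex} (hr : Reg ∅ e) (hd : degE e = 0) : e = 0 := by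
  obtain ⟨h0, h1, h2, h3⟩ := Mex_co (n := 0) (by rw [zero_smul]; exact hd)
  push_cast at h0 h1 h2 h3
  have p0 := Mex_nn hr 0
  have p1 := Mex_nn hr 1
  have p2 := Mex_nn hr 2
  have p3 := Mex_nn hr 3
  have p4 := Mex_nn hr 4
  have p5 := Mex_nn hr 5
  have p6 := Mex_nn hr 6
  have p7 := Mex_nn hr 7
  have p8 := Mex_nn hr 8
  have p9 := Mex_nn hr 9
  funext v
  fin_cases v
  · change e 0 = 0; omega
  · change e 1 = 0; omega
  · change e 2 = 0; omega
  · change e 3 = 0; omega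
  · change e 4 = 0; omega
  · change e 5 = 0; omega
  · change e 6 = 0; omega
  · change e 7 = 0; omega
  · change e 8 = 0; omega
  · change e 9 = 0; omega

end BS
end
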