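import Pool.Agent.Lib.MP_bd3808_ag.Mg.G025
import Pool.Agent.Lib.MP_bd3808_ag.Mg.G023
import Pool.Agent.Lib.MP_bd3808_ag.Mg.G026
import Pool.Agent.Lib.MP_bd3808_ag.Mg.G028
import Pool.Agent.Lib.MP_bd3808_ag.BS.Lin

section

/-!
# The partial derivatives of `f` by the variables `z` have no common zero
-/

set_option autoImplicit false

namespace BS

open MPbd3808.BR

universe u

variable (k : Type u) [Field k]

private lemma CC_mul (e e' : Ex) (a b : k) :
    mono k e a * mono k e' b = mono k (e + e') (a * b) :=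
  AddMonoidAlgebra.single_mul_single _ _ _ _

private lemma CC_deg_single (v : Vr) : degE (Pi.single v 1) = dg v := by
  have h1 := degE_smul_single 1 v
  rwa [one_smul, one_smul] at h1

private noncomputable def CC_nm (σ : Finset Vr) (E : Ex) : Lau k := mono k (E - un σ (degE E)) 1

private lemma CC_nm_add (σ : Finset Vr) (E E' : Ex) :
    CC_nm k σ E * CC_nm k σ E' = CC_nm k σ (E + E') := by
  unfold CC_nm
  rw [CC_mul, one_mul, degE_add, un_add]
  congr 1
  abel

private lemma CC_yy (σ : Finset Vr) (v : Vr) : yy k σ v = CC_nm k σ (Pi.single v 1) := by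
  unfold yy CC_nm
  rw [CC_deg_single]

private lemma CC_cc (σ : Finset Vr) (q : Vr) :
    cc k σ q = ∑ i, (((fE i q * fC i : ℤ) : k)) • CC_nm k σ (fE i - Pi.single q 1) := by
  unfold cc ff
  rw [map_sum, Finset.mul_sum, Finset.mul_sum]
  refine Finset.sum_congr rfl fun i _ => ?_
  have h1 : degE (fE i - Pi.single q 1) = dF - dg q := by
    rw [sub_eq_add_neg, degE_add, degE_neg, CC_deg_single, degE_fE, sub_eq_add_neg]
  have h2 : (((fE i q * fC i : ℤ) : k)) • CC_nm k σ (fE i - Pi.single q 1) =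
      mono k (fE i - Pi.single q 1 - un σ (dF - dg q)) (((fE i q * fC i : ℤ) : k)) := by
    unfold CC_nm
    rw [h1]
    show _ • AddMonoidAlgebra.single _ (1 : k) = AddMonoidAlgebra.single _ _
    rw [AddMonoidAlgebra.smul_single, smul_eq_mul, mul_one]
  rw [h2, dl_mono, CC_mul, CC_mul, one_mul, one_mul, Int.cast_mul]
  congr 1
  abel

private theorem CC_ring {R : Type u} [CommRing R] (J : Ideal R) (a b y2 y3 y4 y5 : R)
    (h6 : b * y2 * y4 ∈ J) (h7 : -(a * y2 * y4 + b * y5) ∈ J) (h8 : -(a * y5 + b * y3 * y4) ∈ J)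
    (h9 : a * y3 * y4 ∈ J) (hab : IsUnit a ∨ IsUnit b) (h23 : IsUnit y2 ∨ IsUnit y3)
    (h45 : IsUnit y4 ∨ IsUnit y5) : J = ⊤ := by
  have h7' : a * y2 * y4 + b * y5 ∈ J := by simpa using J.neg_mem h7
  have h8' : a * y5 + b * y3 * y4 ∈ J := by simpa using J.neg_mem h8
  have key : y2 * y4 ∈ J ∧ y5 ∈ J ∧ y3 * y4 ∈ J := by
    rcases hab with ha | hb
    · have e1 : a ^ 2 * y5 ∈ J := by
        have h := J.sub_mem (J.mul_mem_left a h8') (J.mul_mem_left b h9)
        have h' : a * (a * y5 + b * y3 * y4) - b * (a * y3 * y4) = a ^ 2 * y5 := by ring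
        rwa [h'] at h
      have e2 : a ^ 3 * (y2 * y4) ∈ J := by
        have h := J.sub_mem (J.mul_mem_left (a ^ 2) h7') (J.mul_mem_left b e1)
        have h' : a ^ 2 * (a * y2 * y4 + b * y5) - b * (a ^ 2 * y5) = a ^ 3 * (y2 * y4) := by ring
        rwa [h'] at h
      refine ⟨(Ideal.unit_mul_mem_iff_mem J (ha.pow 3)).1 e2,
        (Ideal.unit_mul_mem_iff_mem J (ha.pow 2)).1 e1, ?_⟩
      refine (Ideal.unit_mul_mem_iff_mem J ha).1 ?_
      rwa [← mul_assoc]
    · have e1 : b ^ 2 * y5 ∈ J := by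
        have h := J.sub_mem (J.mul_mem_left b h7') (J.mul_mem_left a h6)
        have h' : b * (a * y2 * y4 + b * y5) - a * (b * y2 * y4) = b ^ 2 * y5 := by ring
        rwa [h'] at h
      have e2 : b ^ 3 * (y3 * y4) ∈ J := by
        have h := J.sub_mem (J.mul_mem_left (b ^ 2) h8') (J.mul_mem_left a e1)
        have h' : b ^ 2 * (a * y5 + b * y3 * y4) - a * (b ^ 2 * y5) = b ^ 3 * (y3 * y4) := by ring
        rwa [h'] at h
      refine ⟨?_, (Ideal.unit_mul_mem_iff_mem J (hb.pow 2)).1 e1,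
        (Ideal.unit_mul_mem_iff_mem J (hb.pow 3)).1 e2⟩
      refine (Ideal.unit_mul_mem_iff_mem J hb).1 ?_
      rwa [← mul_assoc]
  obtain ⟨k0, k1, k2⟩ := key
  rcases h45 with h4 | h5
  · rcases h23 with h2 | h3
    · exact Ideal.eq_top_of_isUnit_mem J k0 (h2.mul h4)
    · exact Ideal.eq_top_of_isUnit_mem J k2 (h3.mul h4)
  · exact Ideal.eq_top_of_isUnit_mem J k1 h5

/-- PROOF. `yy σ v` and its inverse `mono (un σ (dg v) - single v 1) 1` are both in `L0 σ` (the exponents are supported on `σ`: `un_of_notMem`, `v ∈ σ`). -/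
theorem isUnit_yy {σ : Finset Vr} (hσ : Full σ) {v : Vr} (hv : v ∈ σ) :
    IsUnit (⟨yy k σ v, yy_mem k hσ v⟩ : L0 k σ) := by
  have hm : mono k (un σ (dg v) - Pi.single v 1) 1 ∈ LD k σ 0 := by
    refine mono_mem k (fun w hw => ?_) ?_ 1
    · have hwv : w ≠ v := fun h => hw (h ▸ hv)
      rw [Pi.sub_apply, un_of_notMem hσ _ hw, Pi.single_eq_of_ne hwv, sub_zero]
    · rw [sub_eq_add_neg, degE_add, degE_neg, degE_un, CC_deg_single, add_neg_cancel]
  refine IsUnit.of_mul_eq_one (⟨mono k (un σ (dg v) - Pi.single v 1) 1, hm⟩ : L0 k σ) ?_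
  apply Subtype.ext
  show yy k σ v * mono k (un σ (dg v) - Pi.single v 1) 1 = 1
  unfold yy
  rw [CC_mul, one_mul]
  have h0 : Pi.single v 1 - un σ (dg v) + (un σ (dg v) - Pi.single v 1) = (0 : Ex) := by abel
  rw [h0]
  rfl

/-- The partial derivatives `∂f/∂z0 = s1 u0 la`, `∂f/∂z1 = - (s0 u0 la + s1 mu)`, `∂f/∂z2 = - (s0 mu + s1 u1 la)`, `∂f/∂z3 = s0 u1 la`.

PROOF. `ff = ∑ i, mono (fE i) (fC i)` (`Fin.sum_univ_succ`), `dl_mono`, `AddMonoidAlgebra.single_mul_single`; `un σ` is additive (`un_add`), and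
`dg` of the variables adds up: e.g. `dF - dg 6 = dg 1 + dg 2 + dg 4` (`decide`). All exponents are of the form `E - un σ (degE E)`. -/
theorem cc_eq (σ : Finset Vr) :
    cc k σ 6 = yy k σ 1 * yy k σ 2 * yy k σ 4 ∧
    cc k σ 7 = -(yy k σ 0 * yy k σ 2 * yy k σ 4 + yy k σ 1 * yy k σ 5) ∧
    cc k σ 8 = -(yy k σ 0 * yy k σ 5 + yy k σ 1 * yy k σ 3 * yy k σ 4) ∧
    cc k σ 9 = yy k σ 0 * yy k σ 3 * yy k σ 4 := by
  have z0 : ∀ E : Ex, ((0 : ℤ) : k) • CC_nm k σ E = 0 := fun E => by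
    rw [Int.cast_zero, zero_smul]
  have z1 : ∀ E : Ex, ((1 : ℤ) : k) • CC_nm k σ E = CC_nm k σ E := fun E => by
    rw [Int.cast_one, one_smul]
  have z2 : ∀ E : Ex, ((-1 : ℤ) : k) • CC_nm k σ E = -CC_nm k σ E := fun E => by
    rw [Int.cast_neg, Int.cast_one, neg_smul, one_smul]
  refine ⟨?_, ?_, ?_, ?_⟩
  · rw [CC_cc, Fin.sum_univ_six]
    have a0 : fE 0 6 * fC 0 = 0 := by decide
    have a1 : fE 1 6 * fC 1 = 0 := by decide
    have a2 : fE 2 6 * fC 2 = 0 := by decide
    have a3 : fE 3 6 * fC 3 = 1 := by decide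
    have a4 : fE 4 6 * fC 4 = 0 := by decide
    have a5 : fE 5 6 * fC 5 = 0 := by decide
    have b3 : fE 3 - Pi.single 6 1 = Pi.single 1 1 + Pi.single 2 1 + Pi.single 4 1 := by decide
    rw [a0, a1, a2, a3, a4, a5, z0, z0, z0, z0, z0, z1, b3, CC_yy, CC_yy, CC_yy, CC_nm_add,
      CC_nm_add]
    abel
  · rw [CC_cc, Fin.sum_univ_six]
    have a0 : fE 0 7 * fC 0 = 0 := by decide
    have a1 : fE 1 7 * fC 1 = -1 := by decide
    have a2 : fE 2 7 * fC 2 = 0 := by decide
    have a3 : fE 3 7 * fC 3 = 0 := by decide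
    have a4 : fE 4 7 * fC 4 = -1 := by decide
    have a5 : fE 5 7 * fC 5 = 0 := by decide
    have b1 : fE 1 - Pi.single 7 1 = Pi.single 0 1 + Pi.single 2 1 + Pi.single 4 1 := by decide
    have b4 : fE 4 - Pi.single 7 1 = Pi.single 1 1 + Pi.single 5 1 := by decide
    rw [a0, a1, a2, a3, a4, a5, z0, z0, z0, z0, z2, z2, b1, b4, CC_yy, CC_yy, CC_yy, CC_yy, CC_yy,
      CC_nm_add, CC_nm_add, CC_nm_add]
    abel
  · rw [CC_cc, Fin.sum_univ_six]
    have a0 : fE 0 8 * fC 0 = 0 := by decide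
    have a1 : fE 1 8 * fC 1 = 0 := by decide
    have a2 : fE 2 8 * fC 2 = -1 := by decide
    have a3 : fE 3 8 * fC 3 = 0 := by decide
    have a4 : fE 4 8 * fC 4 = 0 := by decide
    have a5 : fE 5 8 * fC 5 = -1 := by decide
    have b2 : fE 2 - Pi.single 8 1 = Pi.single 0 1 + Pi.single 5 1 := by decide
    have b5 : fE 5 - Pi.single 8 1 = Pi.single 1 1 + Pi.single 3 1 + Pi.single 4 1 := by decide
    rw [a0, a1, a2, a3, a4, a5, z0, z0, z0, z0, z2, z2, b2, b5, CC_yy, CC_yy, CC_yy, CC_yy, CC_yy,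
      CC_nm_add, CC_nm_add, CC_nm_add]
    abel
  · rw [CC_cc, Fin.sum_univ_six]
    have a0 : fE 0 9 * fC 0 = 1 := by decide
    have a1 : fE 1 9 * fC 1 = 0 := by decide
    have a2 : fE 2 9 * fC 2 = 0 := by decide
    have a3 : fE 3 9 * fC 3 = 0 := by decide
    have a4 : fE 4 9 * fC 4 = 0 := by decide
    have a5 : fE 5 9 * fC 5 = 0 := by decide
    have b0 : fE 0 - Pi.single 9 1 = Pi.single 0 1 + Pi.single 3 1 + Pi.single 4 1 := by decide
    rw [a0, a1, a2, a3, a4, a5, z0, z0, z0, z0, z0, z1, b0, CC_yy, CC_yy, CC_yy, CC_nm_add,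
      CC_nm_add]
    abel

/-- PROOF. `cc_eq`; with `a = yy 0`, `b = yy 1`, `v0 = yy 2 * yy 4`, `v1 = yy 5`, `v2 = yy 3 * yy 4` (in `L0 σ`) the ideal `J` contains `b v0`, `a v0 + b v1`,
`a v1 + b v2`, `a v2`. So `a² v1 = a (a v1 + b v2) - b (a v2)`, `a³ v0 = a² (a v0 + b v1) - b (a² v1)`, and `a v2` are in `J`, and symmetrically `b² v1`, `b³ v2`, `b v0`.
`σ` contains `0` or `1`, so `a` or `b` is a unit (`isUnit_yy`), and `v0, v1, v2 ∈ J`. If `5 ∈ σ` then `v1` is a unit. Otherwise `4 ∈ σ`, `yy 4` is a unit, `yy 2, yy 3 ∈ J`, and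
one of them is a unit (`2 ∈ σ` or `3 ∈ σ`). -/
theorem cc_span {σ : Finset Vr} (hσ : Full σ) (J : Ideal (L0 k σ))
    (h : ∀ q : Vr, 6 ≤ q → (⟨cc k σ q, cc_mem k hσ q⟩ : L0 k σ) ∈ J) : J = ⊤ := by
  obtain ⟨c6, c7, c8, c9⟩ := cc_eq k σ
  obtain ⟨y, hy⟩ : ∃ y : Vr → L0 k σ, ∀ v, y v = ⟨yy k σ v, yy_mem k hσ v⟩ := ⟨_, fun v => rfl⟩
  have hyv : ∀ v, ((y v : L0 k σ) : Lau k) = yy k σ v := fun v => by rw [hy]
  have h6 : y 1 * y 2 * y 4 ∈ J := by
    have h1 := h 6 (by decide)
    have h2 : (⟨cc k σ 6, cc_mem k hσ 6⟩ : L0 k σ) = y 1 * y 2 * y 4 := by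
      apply Subtype.ext
      show cc k σ 6 = ((y 1 * y 2 * y 4 : L0 k σ) : Lau k)
      rw [c6]
      push_cast
      rw [hyv, hyv, hyv]
    rwa [h2] at h1
  have h7 : -(y 0 * y 2 * y 4 + y 1 * y 5) ∈ J := by
    have h1 := h 7 (by decide)
    have h2 : (⟨cc k σ 7, cc_mem k hσ 7⟩ : L0 k σ) = -(y 0 * y 2 * y 4 + y 1 * y 5) := by
      apply Subtype.ext
      show cc k σ 7 = ((-(y 0 * y 2 * y 4 + y 1 * y 5) : L0 k σ) : Lau k)
      rw [c7]
      push_cast
      rw [hyv, hyv, hyv, hyv, hyv]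
    rwa [h2] at h1
  have h8 : -(y 0 * y 5 + y 1 * y 3 * y 4) ∈ J := by
    have h1 := h 8 (by decide)
    have h2 : (⟨cc k σ 8, cc_mem k hσ 8⟩ : L0 k σ) = -(y 0 * y 5 + y 1 * y 3 * y 4) := by
      apply Subtype.ext
      show cc k σ 8 = ((-(y 0 * y 5 + y 1 * y 3 * y 4) : L0 k σ) : Lau k)
      rw [c8]
      push_cast
      rw [hyv, hyv, hyv, hyv, hyv]
    rwa [h2] at h1
  have h9 : y 0 * y 3 * y 4 ∈ J := by
    have h1 := h 9 (by decide)
    have h2 : (⟨cc k σ 9, cc_mem k hσ 9⟩ : L0 k σ) = y 0 * y 3 * y 4 := by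
      apply Subtype.ext
      show cc k σ 9 = ((y 0 * y 3 * y 4 : L0 k σ) : Lau k)
      rw [c9]
      push_cast
      rw [hyv, hyv, hyv]
    rwa [h2] at h1
  have hu : ∀ v ∈ σ, IsUnit (y v) := fun v hv => by
    rw [hy]
    exact isUnit_yy k hσ hv
  have hf0 : ∀ v : Vr, fam v = 0 → v = 0 ∨ v = 1 := by decide
  have hf1 : ∀ v : Vr, fam v = 1 → v = 2 ∨ v = 3 := by decide
  have hf2 : ∀ v : Vr, fam v = 2 → v = 4 ∨ v = 5 := by decide
  refine CC_ring J (y 0) (y 1) (y 2) (y 3) (y 4) (y 5) h6 h7 h8 h9 ?_ ?_ ?_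
  · obtain ⟨v, hv, hfv⟩ := hσ 0
    rcases hf0 v hfv with rfl | rfl
    · exact Or.inl (hu _ hv)
    · exact Or.inr (hu _ hv)
  · obtain ⟨v, hv, hfv⟩ := hσ 1
    rcases hf1 v hfv with rfl | rfl
    · exact Or.inl (hu _ hv)
    · exact Or.inr (hu _ hv)
  · obtain ⟨v, hv, hfv⟩ := hσ 2
    rcases hf2 v hfv with rfl | rfl
    · exact Or.inl (hu _ hv)
    · exact Or.inr (hu _ hv)

/-- PROOF. `cc σ q * yy σ q = mono (- un σ dF) 1 * dl q ff` (the exponents: `- un σ (dF - dg q) - single q 1 + single q 1 - un σ (dg q) = - un σ dF` by `un_add`) and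
`dl_z_ff`. -/
theorem cc_rel (σ : Finset Vr) :
    cc k σ 6 * yy k σ 6 + cc k σ 7 * yy k σ 7 + cc k σ 8 * yy k σ 8 + cc k σ 9 * yy k σ 9 =
      ff k * mono k (-un σ dF) 1 := by
  have h1 : ∀ q : Vr, cc k σ q * yy k σ q = dl k q (ff k) * mono k (-un σ dF) 1 := by
    intro q
    have h2 : mono k (-un σ (dF - dg q)) 1 * mono k (-Pi.single q 1) 1 * yy k σ q =
        mono k (-un σ dF) 1 := by
      unfold yy
      rw [CC_mul, CC_mul, one_mul, one_mul]
      congr 1
      have h3 : un σ dF = un σ (dF - dg q) + un σ (dg q) := by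
        rw [← un_add, sub_add_cancel]
      rw [h3]
      abel
    rw [← h2]
    unfold cc
    ring
  rw [h1, h1, h1, h1, ← add_mul, ← add_mul, ← add_mul, dl_z_ff]

end BS
end

section

/-!
# Every point of a chart has a good neighborhood
-/

set_option autoImplicit false

open CategoryTheory CategoryTheory.Limits AlgebraicGeometry TopologicalSpace

namespace BS

open MPbd3808.BR

universe u

variable {k : Type u} [Field k] {X : Scheme.{u}} [X.Over (Spec (.of k))]

/-- `cc σ q` as a function on the chart `U σ` -/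
noncomputable def Charts.cf (C : Charts k X) {σ : Finset Vr} (hσ : Full σ) (q : Vr) :
    Γ(X, C.U σ hσ) := C.ev σ hσ ⟨cc k σ q, cc_mem k hσ q⟩

/-- PROOF. The functions on `U σ` which vanish at `x` (i.e. with `x ∉ X.basicOpen y`) form a proper ideal `I` of `Γ(X, U σ)` (preimage of the maximal ideal of the
stalk; `Scheme.mem_basicOpen`, `IsLocalRing`). Suppose `cf q ∈ I` for all `q ≥ 6`, `q ∉ σ`. Exactly one `q0 ≥ 6` is in `σ` (`Mini σ`), `yy σ q0 = 1` as `un_dg`, and
`ev (ff * mono (- un σ dF)) = 0` (`ev_ker` with `q := mono (- un σ dF) 1`), so by `cc_rel` `cf q0 = - ∑_{q ≠ q0} cf q * ev (yy q) ∈ I`. So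
the ideal `I.comap (ev σ)` contains all `cc σ q`, and is `⊤` by `cc_span`: contradiction. -/
theorem Charts.exists_cf (C : Charts k X) {σ : Finset Vr} (hσ : Mini σ) (x : X)
    (hx : x ∈ C.U σ hσ.full) :
    ∃ q : Vr, 6 ≤ q ∧ q ∉ σ ∧ x ∈ X.basicOpen (C.cf hσ.full q) := by
  by_contra hcon
  push Not at hcon
  set I : Ideal Γ(X, C.U σ hσ.full) :=
    Ideal.comap (X.presheaf.germ (C.U σ hσ.full) x hx).hom
      (IsLocalRing.maximalIdeal (X.presheaf.stalk x)) with hI
  have hmem : ∀ y : Γ(X, C.U σ hσ.full), x ∉ X.basicOpen y → y ∈ I := by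
    intro y hy
    rw [X.mem_basicOpen y x hx] at hy
    rw [hI, Ideal.mem_comap, IsLocalRing.mem_maximalIdeal]
    exact hy
  set J : Ideal (L0 k σ) := Ideal.comap (C.ev σ hσ.full) I with hJ
  have hJtop : J = ⊤ := by
    apply cc_span k hσ.full J
    obtain ⟨q0, ⟨hq0, hf⟩, huniq⟩ := hσ 3
    have hother : ∀ q : Vr, 6 ≤ q → q ≠ q0 → C.cf hσ.full q ∈ I := by
      intro q hq hne
      apply hmem
      apply hcon q hq
      intro hqσ
      apply hne
      apply huniq q ⟨hqσ, ?_⟩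
      fin_cases q <;> first | rfl | (exact absurd hq (by decide))
    have hP : ((⟨cc k σ 6, cc_mem k hσ.full 6⟩ * ⟨yy k σ 6, yy_mem k hσ.full 6⟩ +
        ⟨cc k σ 7, cc_mem k hσ.full 7⟩ * ⟨yy k σ 7, yy_mem k hσ.full 7⟩ +
        ⟨cc k σ 8, cc_mem k hσ.full 8⟩ * ⟨yy k σ 8, yy_mem k hσ.full 8⟩ +
        ⟨cc k σ 9, cc_mem k hσ.full 9⟩ * ⟨yy k σ 9, yy_mem k hσ.full 9⟩ : L0 k σ) : Lau k) =
        ff k * mono k (-un σ dF) 1 := cc_rel k σ
    have h0 := (C.ev_ker σ hσ.full _).2 ⟨mono k (-un σ dF) 1,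
      mono_mem k (fun v hv => by simp [un_of_notMem hσ.full _ hv]) (by rw [degE_neg, degE_un]) 1, hP⟩
    simp only [map_add, map_mul] at h0
    have hy1 : C.ev σ hσ.full ⟨yy k σ q0, yy_mem k hσ.full q0⟩ = 1 := by
      have : (⟨yy k σ q0, yy_mem k hσ.full q0⟩ : L0 k σ) = 1 := by
        apply Subtype.ext
        change yy k σ q0 = 1
        rw [yy, un_dg hσ hq0, sub_self]
        rfl
      rw [this, map_one]
    have hq06 : 6 ≤ q0 := by
      fin_cases q0 <;> first | decide | (exact absurd hf (by decide))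
    have hq0I : C.cf hσ.full q0 ∈ I := by
      have key : ∀ a b c d a' b' c' d' : Γ(X, C.U σ hσ.full), a * a' + b * b' + c * c' + d * d' = 0 →
          (b ∈ I → c ∈ I → d ∈ I → a' = 1 → a ∈ I) ∧ (a ∈ I → c ∈ I → d ∈ I → b' = 1 → b ∈ I) ∧
          (a ∈ I → b ∈ I → d ∈ I → c' = 1 → c ∈ I) ∧ (a ∈ I → b ∈ I → c ∈ I → d' = 1 → d ∈ I) := by
        intro a b c d a' b' c' d' hsum
        refine ⟨?_, ?_, ?_, ?_⟩
        · rintro hb hc hd rfl
          have : a = -(b * b' + c * c' + d * d') := by linear_combination hsum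
          rw [this]
          exact I.neg_mem (I.add_mem (I.add_mem (I.mul_mem_right _ hb) (I.mul_mem_right _ hc)) (I.mul_mem_right _ hd))
        · rintro ha hc hd rfl
          have : b = -(a * a' + c * c' + d * d') := by linear_combination hsum
          rw [this]
          exact I.neg_mem (I.add_mem (I.add_mem (I.mul_mem_right _ ha) (I.mul_mem_right _ hc)) (I.mul_mem_right _ hd))
        · rintro ha hb hd rfl
          have : c = -(a * a' + b * b' + d * d') := by linear_combination hsum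
          rw [this]
          exact I.neg_mem (I.add_mem (I.add_mem (I.mul_mem_right _ ha) (I.mul_mem_right _ hb)) (I.mul_mem_right _ hd))
        · rintro ha hb hc rfl
          have : d = -(a * a' + b * b' + c * c') := by linear_combination hsum
          rw [this]
          exact I.neg_mem (I.add_mem (I.add_mem (I.mul_mem_right _ ha) (I.mul_mem_right _ hb)) (I.mul_mem_right _ hc))
      obtain ⟨k1, k2, k3, k4⟩ := key _ _ _ _ _ _ _ _ h0
      have hall : ∀ q : Vr, 6 ≤ q → q = 6 ∨ q = 7 ∨ q = 8 ∨ q = 9 := by decide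
      have hcases : q0 = 6 ∨ q0 = 7 ∨ q0 = 8 ∨ q0 = 9 := hall q0 hq06
      rcases hcases with rfl | rfl | rfl | rfl
      · exact k1 (hother 7 (by decide) (by decide)) (hother 8 (by decide) (by decide))
          (hother 9 (by decide) (by decide)) hy1
      · exact k2 (hother 6 (by decide) (by decide)) (hother 8 (by decide) (by decide))
          (hother 9 (by decide) (by decide)) hy1
      · exact k3 (hother 6 (by decide) (by decide)) (hother 7 (by decide) (by decide))
          (hother 9 (by decide) (by decide)) hy1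
      · exact k4 (hother 6 (by decide) (by decide)) (hother 7 (by decide) (by decide))
          (hother 8 (by decide) (by decide)) hy1
    intro q hq
    rw [hJ, Ideal.mem_comap]
    by_cases h : q = q0
    · subst h
      exact hq0I
    · exact hother q hq h
  have h1 : (1 : L0 k σ) ∈ J := by rw [hJtop]; trivial
  rw [hJ, Ideal.mem_comap, map_one, hI, Ideal.mem_comap, map_one, IsLocalRing.mem_maximalIdeal] at h1
  exact h1 isUnit_one

end BS
end

section

/-!
# The ring `L0 σ` for a minimal full set `σ` is a polynomial ring in six variables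
-/

set_option autoImplicit false

namespace BS

open MPbd3808.BR

universe u

variable (k : Type u) [Field k]

/-- the exponent of the monomial `∏ j, (yy σ (e (inr j)))^(m j)` -/
def expo (σ : Finset Vr) (e : Fin 4 ⊕ Fin 6 ≃ Vr) (m : Fin 6 → ℤ) : Ex :=
  ∑ j, m j • (Pi.single (e (.inr j)) 1 - un σ (dg (e (.inr j))))

/-- PROOF. `un_of_notMem`: only the term `j` contributes `Pi.single .. (e (inr j)) = 1`. -/
theorem expo_apply {σ : Finset Vr} (hσ : Full σ) {e : Fin 4 ⊕ Fin 6 ≃ Vr} (he : IsEnum σ e)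
    (m : Fin 6 → ℤ) (j : Fin 6) : expo σ e m (e (.inr j)) = m j := by
  unfold expo
  rw [Finset.sum_apply, Finset.sum_eq_single j]
  · rw [Pi.smul_apply, Pi.sub_apply, un_of_notMem hσ _ (he.2 j), Pi.single_eq_same]
    simp
  · intro i _ hij
    have hne : e (.inr j) ≠ e (.inr i) := fun h => hij (Sum.inr.inj (e.injective h)).symm
    rw [Pi.smul_apply, Pi.sub_apply, un_of_notMem hσ _ (he.2 j), Pi.single_eq_of_ne hne]
    simp
  · intro h
    exact absurd (Finset.mem_univ j) h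

private def PolyL_degHom : Ex →+ Deg := ⟨⟨degE, degE_zero⟩, degE_add⟩

private lemma PolyL_degE_expo (σ : Finset Vr) (e : Fin 4 ⊕ Fin 6 ≃ Vr) (m : Fin 6 → ℤ) :
    degE (expo σ e m) = 0 := by
  change PolyL_degHom (expo σ e m) = 0
  unfold expo
  rw [map_sum]
  refine Finset.sum_eq_zero fun j _ => ?_
  rw [map_zsmul, map_sub]
  have h1 : PolyL_degHom (Pi.single (e (.inr j)) 1) = dg (e (.inr j)) := by
    have := degE_smul_single 1 (e (.inr j))
    rw [one_smul, one_smul] at this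
    exact this
  have h2 : PolyL_degHom (un σ (dg (e (.inr j)))) = dg (e (.inr j)) := degE_un _ _
  rw [h1, h2, sub_self, smul_zero]

/-- PROOF. `F := E - expo (fun j => E (e (inr j)))` vanishes outside `σ` (`expo_apply`; every `v ∉ σ` is some `e (inr j)`: `e.surjective`, the `e (inl i)` are in
`σ`) and has degree `0` (each `Pi.single v 1 - un σ (dg v)` has degree `0`), so `F = un σ (degE F) = un σ 0 = 0` (`eq_un`, `un_zero`). -/
theorem eq_expo {σ : Finset Vr} (hσ : Mini σ) {e : Fin 4 ⊕ Fin 6 ≃ Vr} (he : IsEnum σ e)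
    (E : Ex) (hE : degE E = 0) : E = expo σ e (fun j => E (e (.inr j))) := by
  have h1 := eq_un hσ (E - expo σ e (fun j => E (e (.inr j)))) (by
    intro v hv
    obtain ⟨w, rfl⟩ := e.surjective v
    rcases w with i | j
    · exact absurd (he.1 i).1 hv
    · rw [Pi.sub_apply, expo_apply hσ.full he, sub_self])
  have h2 : degE (E - expo σ e (fun j => E (e (.inr j)))) = 0 := by
    rw [sub_eq_add_neg, degE_add, degE_neg, PolyL_degE_expo, hE, neg_zero, add_zero]
  rw [h2, un_zero] at h1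
  exact (sub_eq_zero.1 h1.symm)

private def PolyL_expoHom (σ : Finset Vr) (e : Fin 4 ⊕ Fin 6 ≃ Vr) : (Fin 6 →₀ ℕ) →+ Ex where
  toFun m := expo σ e (fun j => (m j : ℤ))
  map_zero' := by
    unfold expo
    simp
  map_add' m m' := by
    unfold expo
    rw [← Finset.sum_add_distrib]
    refine Finset.sum_congr rfl fun j _ => ?_
    rw [← add_smul]
    congr 1

private lemma PolyL_expoHom_injective {σ : Finset Vr} (hσ : Full σ) {e : Fin 4 ⊕ Fin 6 ≃ Vr}
    (he : IsEnum σ e) : Function.Injective (PolyL_expoHom σ e) := by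
  intro m m' h
  ext j
  have h1 := congrFun h (e (.inr j))
  change expo σ e (fun j => (m j : ℤ)) (e (.inr j)) = expo σ e (fun j => (m' j : ℤ)) (e (.inr j)) at h1
  rw [expo_apply hσ he, expo_apply hσ he] at h1
  exact_mod_cast h1

private noncomputable def PolyL_beta (σ : Finset Vr) (e : Fin 4 ⊕ Fin 6 ≃ Vr) :
    MvPolynomial (Fin 6) k →ₐ[k] Lau k :=
  AddMonoidAlgebra.mapDomainAlgHom k k (PolyL_expoHom σ e)

private lemma PolyL_beta_monomial (σ : Finset Vr) (e : Fin 4 ⊕ Fin 6 ≃ Vr) (m : Fin 6 →₀ ℕ)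
    (c : k) : PolyL_beta k σ e (MvPolynomial.monomial m c) =
      mono k (expo σ e (fun j => (m j : ℤ))) c := by
  change AddMonoidAlgebra.mapDomain (PolyL_expoHom σ e) (AddMonoidAlgebra.single m c) = _
  rw [AddMonoidAlgebra.mapDomain_single]
  rfl

private lemma PolyL_expo_mem {σ : Finset Vr} (hσ : Full σ) {e : Fin 4 ⊕ Fin 6 ≃ Vr}
    (he : IsEnum σ e) (m : Fin 6 →₀ ℕ) (c : k) :
    mono k (expo σ e (fun j => (m j : ℤ))) c ∈ L0 k σ := by
  refine mono_mem k (fun v hv => ?_) (PolyL_degE_expo _ _ _) c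
  obtain ⟨w, rfl⟩ := e.surjective v
  rcases w with i | j
  · exact absurd (he.1 i).1 hv
  · rw [expo_apply hσ he]
    exact Int.natCast_nonneg _

private lemma PolyL_beta_mem {σ : Finset Vr} (hσ : Full σ) {e : Fin 4 ⊕ Fin 6 ≃ Vr}
    (he : IsEnum σ e) (p : MvPolynomial (Fin 6) k) : PolyL_beta k σ e p ∈ L0 k σ := by
  induction p using MvPolynomial.induction_on' with
  | monomial m c =>
    rw [PolyL_beta_monomial]
    exact PolyL_expo_mem k hσ he m c
  | add p q hp hq =>
    rw [map_add]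
    exact (L0 k σ).add_mem hp hq

/-- PROOF. Let `α := MvPolynomial.aeval` with the given values; `α (monomial m c) = mono (expo (m ·)) c` (a product of powers of monomials). By `expo_apply` the
exponents `expo m` are pairwise different for different `m : Fin 6 →₀ ℕ`, so `α` is injective (the coefficient of `α p` at `expo m` is that of `p` at `m`);
surjective: every exponent `E` of an element of `L0 σ` is `expo m` with `m j = E (e (inr j)) ≥ 0` (`eq_expo`; `Reg σ E`), so every element is a sum of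
monomials in the image. `AlgEquiv.ofBijective`. -/
theorem exists_poly {σ : Finset Vr} (hσ : Mini σ) {e : Fin 4 ⊕ Fin 6 ≃ Vr} (he : IsEnum σ e) :
    ∃ α : MvPolynomial (Fin 6) k ≃ₐ[k] L0 k σ,
      (∀ j, α (MvPolynomial.X j) = ⟨yy k σ (e (.inr j)), yy_mem k hσ.full _⟩) ∧
      ∀ (m : Fin 6 →₀ ℕ) (c : k), ((α (MvPolynomial.monomial m c) : L0 k σ) : Lau k) =
        mono k (expo σ e (fun j => (m j : ℤ))) c := by
  let γ : MvPolynomial (Fin 6) k →ₐ[k] L0 k σ :=
    (PolyL_beta k σ e).codRestrict (L0 k σ) (PolyL_beta_mem k hσ.full he)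
  have hγ : ∀ p, ((γ p : L0 k σ) : Lau k) = PolyL_beta k σ e p := fun p => rfl
  have hinj : Function.Injective γ := by
    intro p q h
    have h1 : PolyL_beta k σ e p = PolyL_beta k σ e q := by rw [← hγ, ← hγ, h]
    exact AddMonoidAlgebra.mapDomain_injective (PolyL_expoHom_injective hσ.full he) h1
  have hsurj : Function.Surjective γ := by
    intro r
    have key : ∀ r : Lau k, r ∈ L0 k σ → r ∈ (PolyL_beta k σ e).range := by
      intro r hr
      rw [← AddMonoidAlgebra.sum_coeff_single r]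
      refine Subalgebra.sum_mem _ fun E hE => ?_
      have hE' := hr E hE
      refine ⟨MvPolynomial.monomial (Finsupp.equivFunOnFinite.symm fun j => (E (e (.inr j))).toNat)
        (r.coeff E), ?_⟩
      change PolyL_beta k σ e _ = _
      rw [PolyL_beta_monomial]
      have h2 : expo σ e (fun j => (((Finsupp.equivFunOnFinite.symm
          fun j => (E (e (.inr j))).toNat) j : ℕ) : ℤ)) = E := by
        conv_rhs => rw [eq_expo hσ he E hE'.2]
        congr 1
        funext j
        change (((E (e (.inr j))).toNat : ℕ) : ℤ) = _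
        exact Int.toNat_of_nonneg (hE'.1 _ (he.2 j))
      rw [h2]
    obtain ⟨p, hp⟩ := key r r.2
    exact ⟨p, Subtype.ext hp⟩
  refine ⟨AlgEquiv.ofBijective γ ⟨hinj, hsurj⟩, fun j => ?_, fun m c => ?_⟩
  · apply Subtype.ext
    change PolyL_beta k σ e (MvPolynomial.X j) = yy k σ (e (.inr j))
    rw [MvPolynomial.X, PolyL_beta_monomial]
    unfold yy
    congr 1
    unfold expo
    rw [Finset.sum_eq_single j]
    · simp
    · intro i _ hij
      simp [Ne.symm hij]
    · intro h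
      exact absurd (Finset.mem_univ j) h
  · change PolyL_beta k σ e (MvPolynomial.monomial m c) = _
    exact PolyL_beta_monomial k σ e m c

end BS
end

section

/-!
# The ring `L0 σ` for a minimal full set `σ` is a polynomial ring: the equation
-/

set_option autoImplicit false

namespace BS

open MPbd3808.BR

universe u

variable (k : Type u) [Field k]

/-- Laurent polynomials whose exponents vanish at `q` -/
private def vz (q : Vr) : Subring (Lau k) where
  carrier := {p | ∀ E ∈ p.coeff.support, E q = 0}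
  zero_mem' := by intro E hE; simp at hE
  one_mem' := by
    intro E hE
    rw [AddMonoidAlgebra.one_def] at hE
    have := Finset.mem_singleton.1 (Finsupp.support_single_subset hE)
    subst this
    rfl
  add_mem' := by
    intro p r hp hr E hE
    rcases Finset.mem_union.1 (Finsupp.support_add hE) with h | h
    · exact hp E h
    · exact hr E h
  mul_mem' := by
    classical
    intro p r hp hr E hE
    obtain ⟨x, hx, y, hy, rfl⟩ := Finset.mem_add.1 (AddMonoidAlgebra.support_coeff_mul_subset p r hE)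
    rw [Pi.add_apply, hp x hx, hr y hy, add_zero]
  neg_mem' := by
    intro p hp E hE
    refine hp E ?_
    rw [Finsupp.mem_support_iff] at hE ⊢
    intro h
    apply hE
    rw [AddMonoidAlgebra.coeff_neg, Finsupp.neg_apply, h, neg_zero]

private lemma mem_vz {q : Vr} {p : Lau k} : p ∈ vz k q ↔ ∀ E ∈ p.coeff.support, E q = 0 := Iff.rfl

private lemma yy_vz {σ : Finset Vr} (hσ : Full σ) {q v : Vr} (hq : q ∉ σ) (hv : q ≠ v) :
    yy k σ v ∈ vz k q := by
  intro E hE
  have := Finset.mem_singleton.1 (Finsupp.support_single_subset hE)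
  subst this
  rw [Pi.sub_apply, un_of_notMem hσ _ hq, Pi.single_eq_of_ne hv, sub_zero]

private lemma coeff_alpha {σ : Finset Vr} (hσ : Mini σ) {e : Fin 4 ⊕ Fin 6 ≃ Vr} (he : IsEnum σ e)
    (α : MvPolynomial (Fin 6) k ≃ₐ[k] L0 k σ)
    (hα : ∀ (m : Fin 6 →₀ ℕ) (c : k), ((α (MvPolynomial.monomial m c) : L0 k σ) : Lau k) =
        mono k (expo σ e (fun j => (m j : ℤ))) c)
    (p : MvPolynomial (Fin 6) k) : ∀ m : Fin 6 →₀ ℕ,
      ((α p : L0 k σ) : Lau k).coeff (expo σ e (fun j => (m j : ℤ))) = p.coeff m := by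
  classical
  induction p using MvPolynomial.induction_on' with
  | monomial u a =>
    intro m
    rw [hα, MvPolynomial.coeff_monomial, AddMonoidAlgebra.coeff_single, Finsupp.single_apply]
    by_cases h : u = m
    · subst h; simp
    · rw [if_neg h, if_neg]
      intro h'
      apply h
      ext j
      have h1 := expo_apply hσ.full he (fun j => (u j : ℤ)) j
      rw [h', expo_apply hσ.full he] at h1
      exact_mod_cast h1.symm
  | add p q hp hq =>
    intro m
    rw [map_add, MvPolynomial.coeff_add, ← hp m, ← hq m]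
    rfl

/-- PROOF. Linear in `p`: for a monomial `mono E c` with `E (e (inr 0)) = 0`: `E = expo (m ·)` with `m j = (E (e (inr j))).toNat`, `m 0 = 0` (`eq_expo`), so it is
`α (monomial m c)` and `monomial m c = rename Fin.succ (monomial m' c)` with `m' i = m i.succ` (`MvPolynomial.rename_monomial`, `Finsupp.mapDomain`). -/
theorem exists_rename {σ : Finset Vr} (hσ : Mini σ) {e : Fin 4 ⊕ Fin 6 ≃ Vr} (he : IsEnum σ e)
    (α : MvPolynomial (Fin 6) k ≃ₐ[k] L0 k σ)
    (hα : ∀ (m : Fin 6 →₀ ℕ) (c : k), ((α (MvPolynomial.monomial m c) : L0 k σ) : Lau k) =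
        mono k (expo σ e (fun j => (m j : ℤ))) c)
    (p : L0 k σ) (hp : ∀ E ∈ (p : Lau k).coeff.support, E (e (.inr 0)) = 0) :
    ∃ c : MvPolynomial (Fin 5) k, α (MvPolynomial.rename Fin.succ c) = p := by
  classical
  obtain ⟨r, rfl⟩ := α.surjective p
  have hv : (↑r.vars : Set (Fin 6)) ⊆ Set.range (Fin.succ : Fin 5 → Fin 6) := by
    intro i hi
    obtain ⟨m, hm, hmi⟩ := (MvPolynomial.mem_vars_iff_mem_support i).1 (Finset.mem_coe.1 hi)
    have h1 : r.coeff m ≠ 0 := MvPolynomial.mem_support_iff.1 hm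
    rw [← coeff_alpha k hσ he α hα r m] at h1
    have h2 := hp _ (Finsupp.mem_support_iff.2 h1)
    rw [expo_apply hσ.full he] at h2
    have h3 : i ≠ 0 := by
      rintro rfl
      exact (Finsupp.mem_support_iff.1 hmi) (by exact_mod_cast h2)
    obtain ⟨j, hj⟩ := Fin.exists_succ_eq.2 h3
    exact ⟨j, hj⟩
  obtain ⟨c, hc⟩ := MvPolynomial.exists_rename_eq_of_vars_subset_range r Fin.succ
    (Fin.succ_injective 5) hv
  exact ⟨c, by rw [hc]⟩

private lemma yy_ne (σ : Finset Vr) (v : Vr) : yy k σ v ≠ 0 := by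
  intro h
  have := congrArg (fun p : Lau k => p.coeff (Pi.single v 1 - un σ (dg v))) h
  simp [yy] at this

private lemma sum_ne {A B : Ex} (h : A ≠ B) : mono k A 1 + mono k B 1 ≠ 0 := by
  intro h'
  have := congrArg (fun p : Lau k => p.coeff A) h'
  simp [h.symm] at this

private lemma cc_ne (σ : Finset Vr) (q : Vr) (hq : 6 ≤ q) : cc k σ q ≠ 0 := by
  obtain ⟨h6, h7, h8, h9⟩ := cc_eq k σ
  have hc : q = 6 ∨ q = 7 ∨ q = 8 ∨ q = 9 := by
    revert q; decide
  rcases hc with rfl | rfl | rfl | rfl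
  · rw [h6]
    exact mul_ne_zero (mul_ne_zero (yy_ne k σ _) (yy_ne k σ _)) (yy_ne k σ _)
  · rw [h7]
    refine neg_ne_zero.2 ?_
    simp only [yy, mono, AddMonoidAlgebra.single_mul_single, mul_one]
    refine sum_ne k ?_
    intro h
    have hun : un σ (dg 0) + un σ (dg 2) + un σ (dg 4) = un σ (dg 1) + un σ (dg 5) := by
      rw [← un_add, ← un_add, ← un_add]
      congr 1
      decide
    have h0 := congrFun h 0
    have hu0 := congrFun hun 0
    simp only [Pi.add_apply, Pi.sub_apply] at h0 hu0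
    have e1 : (Pi.single (0 : Vr) (1 : ℤ) : Ex) 0 = 1 := by decide
    have e2 : (Pi.single (2 : Vr) (1 : ℤ) : Ex) 0 = 0 := by decide
    have e3 : (Pi.single (4 : Vr) (1 : ℤ) : Ex) 0 = 0 := by decide
    have e4 : (Pi.single (1 : Vr) (1 : ℤ) : Ex) 0 = 0 := by decide
    have e5 : (Pi.single (5 : Vr) (1 : ℤ) : Ex) 0 = 0 := by decide
    rw [e1, e2, e3, e4, e5] at h0
    omega
  · rw [h8]
    refine neg_ne_zero.2 ?_
    simp only [yy, mono, AddMonoidAlgebra.single_mul_single, mul_one]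
    refine sum_ne k ?_
    intro h
    have hun : un σ (dg 0) + un σ (dg 5) = un σ (dg 1) + un σ (dg 3) + un σ (dg 4) := by
      rw [← un_add, ← un_add, ← un_add]
      congr 1
      decide
    have h0 := congrFun h 0
    have hu0 := congrFun hun 0
    simp only [Pi.add_apply, Pi.sub_apply] at h0 hu0
    have e1 : (Pi.single (0 : Vr) (1 : ℤ) : Ex) 0 = 1 := by decide
    have e2 : (Pi.single (3 : Vr) (1 : ℤ) : Ex) 0 = 0 := by decide
    have e3 : (Pi.single (4 : Vr) (1 : ℤ) : Ex) 0 = 0 := by decide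
    have e4 : (Pi.single (1 : Vr) (1 : ℤ) : Ex) 0 = 0 := by decide
    have e5 : (Pi.single (5 : Vr) (1 : ℤ) : Ex) 0 = 0 := by decide
    rw [e1, e2, e3, e4, e5] at h0
    omega
  · rw [h9]
    exact mul_ne_zero (mul_ne_zero (yy_ne k σ _) (yy_ne k σ _)) (yy_ne k σ _)

private lemma cc_vz {σ : Finset Vr} (hσ : Full σ) {q : Vr} (hq : 6 ≤ q) (hqσ : q ∉ σ) (v : Vr)
    (hv : 6 ≤ v) : cc k σ v ∈ vz k q := by
  obtain ⟨h6, h7, h8, h9⟩ := cc_eq k σ
  have hy : ∀ w : Vr, w < 6 → yy k σ w ∈ vz k q := fun w hw =>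
    yy_vz k hσ hqσ (ne_of_gt (lt_of_lt_of_le hw hq))
  have hc : v = 6 ∨ v = 7 ∨ v = 8 ∨ v = 9 := by
    revert v; decide
  rcases hc with rfl | rfl | rfl | rfl
  · rw [h6]
    exact mul_mem (mul_mem (hy _ (by decide)) (hy _ (by decide))) (hy _ (by decide))
  · rw [h7]
    exact neg_mem (add_mem (mul_mem (mul_mem (hy _ (by decide)) (hy _ (by decide))) (hy _ (by decide)))
      (mul_mem (hy _ (by decide)) (hy _ (by decide))))
  · rw [h8]
    exact neg_mem (add_mem (mul_mem (hy _ (by decide)) (hy _ (by decide)))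
      (mul_mem (mul_mem (hy _ (by decide)) (hy _ (by decide))) (hy _ (by decide))))
  · rw [h9]
    exact mul_mem (mul_mem (hy _ (by decide)) (hy _ (by decide))) (hy _ (by decide))

private lemma rest_vz {σ : Finset Vr} (hσ : Full σ) {q : Vr} (hq : 6 ≤ q) (hqσ : q ∉ σ) :
    ff k * mono k (-un σ dF) 1 - cc k σ q * yy k σ q ∈ vz k q := by
  have hc : q = 6 ∨ q = 7 ∨ q = 8 ∨ q = 9 := by
    clear hqσ
    revert q; decide
  have key : ∀ v : Vr, 6 ≤ v → q ≠ v → cc k σ v * yy k σ v ∈ vz k q := fun v hv hqv =>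
    mul_mem (cc_vz k hσ hq hqσ v hv) (yy_vz k hσ hqσ hqv)
  rw [← cc_rel]
  rcases hc with rfl | rfl | rfl | rfl
  · have : cc k σ 6 * yy k σ 6 + cc k σ 7 * yy k σ 7 + cc k σ 8 * yy k σ 8 + cc k σ 9 * yy k σ 9 -
        cc k σ 6 * yy k σ 6 = cc k σ 7 * yy k σ 7 + cc k σ 8 * yy k σ 8 + cc k σ 9 * yy k σ 9 := by
      ring
    rw [this]
    exact add_mem (add_mem (key _ (by decide) (by decide)) (key _ (by decide) (by decide)))
      (key _ (by decide) (by decide))
  · have : cc k σ 6 * yy k σ 6 + cc k σ 7 * yy k σ 7 + cc k σ 8 * yy k σ 8 + cc k σ 9 * yy k σ 9 -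
        cc k σ 7 * yy k σ 7 = cc k σ 6 * yy k σ 6 + cc k σ 8 * yy k σ 8 + cc k σ 9 * yy k σ 9 := by
      ring
    rw [this]
    exact add_mem (add_mem (key _ (by decide) (by decide)) (key _ (by decide) (by decide)))
      (key _ (by decide) (by decide))
  · have : cc k σ 6 * yy k σ 6 + cc k σ 7 * yy k σ 7 + cc k σ 8 * yy k σ 8 + cc k σ 9 * yy k σ 9 -
        cc k σ 8 * yy k σ 8 = cc k σ 6 * yy k σ 6 + cc k σ 7 * yy k σ 7 + cc k σ 9 * yy k σ 9 := by
      ring
    rw [this]
    exact add_mem (add_mem (key _ (by decide) (by decide)) (key _ (by decide) (by decide)))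
      (key _ (by decide) (by decide))
  · have : cc k σ 6 * yy k σ 6 + cc k σ 7 * yy k σ 7 + cc k σ 8 * yy k σ 8 + cc k σ 9 * yy k σ 9 -
        cc k σ 9 * yy k σ 9 = cc k σ 6 * yy k σ 6 + cc k σ 7 * yy k σ 7 + cc k σ 8 * yy k σ 8 := by
      ring
    rw [this]
    exact add_mem (add_mem (key _ (by decide) (by decide)) (key _ (by decide) (by decide)))
      (key _ (by decide) (by decide))

private lemma rest_mem {σ : Finset Vr} (hσ : Full σ) (q : Vr) :
    ff k * mono k (-un σ dF) 1 - cc k σ q * yy k σ q ∈ L0 k σ := by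
  rw [← cc_rel]
  exact sub_mem (add_mem (add_mem (add_mem
    (mul_mem (cc_mem k hσ _ : cc k σ 6 ∈ L0 k σ) (yy_mem k hσ _ : yy k σ 6 ∈ L0 k σ))
    (mul_mem (cc_mem k hσ _ : cc k σ 7 ∈ L0 k σ) (yy_mem k hσ _ : yy k σ 7 ∈ L0 k σ)))
    (mul_mem (cc_mem k hσ _ : cc k σ 8 ∈ L0 k σ) (yy_mem k hσ _ : yy k σ 8 ∈ L0 k σ)))
    (mul_mem (cc_mem k hσ _ : cc k σ 9 ∈ L0 k σ) (yy_mem k hσ _ : yy k σ 9 ∈ L0 k σ)))
    (mul_mem (cc_mem k hσ _ : cc k σ q ∈ L0 k σ) (yy_mem k hσ _ : yy k σ q ∈ L0 k σ))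

/-- PROOF. `q := e (inr 0)` is one of `6, 7, 8, 9`. The exponents of `cc σ q` vanish at `q` (`cc_eq`: products of `yy`'s of the variables `0..5`, whose exponents are
`single v 1 - un σ (dg v)`, and `un σ` vanishes at `q ∉ σ`), so it is `α (rename succ c)` by `exists_rename`; `c ≠ 0` as `cc σ q ≠ 0` (for `q = 6, 9` a monomial; for
`q = 7, 8` minus a sum of two monomials with different exponents: they differ since `E ↦ E - un σ (degE E)` of
`s0 u0 la` and `s1 mu` (resp. `s0 mu`, `s1 u1 la`): both have the same degree, so the difference of the two is `(s0 u0 la) - (s1 mu) ≠ 0`). The rest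
`ff * mono (- un σ dF) 1 - cc σ q * yy σ q` is by `cc_rel` the sum of `cc σ q' * yy σ q'` for the other three `q'`, whose exponents vanish at `q` too; so it is
`α (rename succ h)`. -/
theorem exists_ch {σ : Finset Vr} (hσ : Mini σ) {e : Fin 4 ⊕ Fin 6 ≃ Vr} (he : IsEnum σ e)
    (hq : 6 ≤ e (.inr 0)) (α : MvPolynomial (Fin 6) k ≃ₐ[k] L0 k σ)
    (hα' : ∀ j, α (MvPolynomial.X j) = ⟨yy k σ (e (.inr j)), yy_mem k hσ.full _⟩)
    (hα : ∀ (m : Fin 6 →₀ ℕ) (c : k), ((α (MvPolynomial.monomial m c) : L0 k σ) : Lau k) =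
        mono k (expo σ e (fun j => (m j : ℤ))) c) :
    ∃ c h : MvPolynomial (Fin 5) k, c ≠ 0 ∧
      α (MvPolynomial.rename Fin.succ c) = ⟨cc k σ (e (.inr 0)), cc_mem k hσ.full _⟩ ∧
      ((α (MvPolynomial.rename Fin.succ c * MvPolynomial.X 0 + MvPolynomial.rename Fin.succ h) :
        L0 k σ) : Lau k) = ff k * mono k (-un σ dF) 1 := by
  have hqσ : e (.inr 0) ∉ σ := he.2 0
  obtain ⟨c, hc⟩ := exists_rename k hσ he α hα ⟨cc k σ (e (.inr 0)), cc_mem k hσ.full _⟩
    (cc_vz k hσ.full hq hqσ _ hq)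
  obtain ⟨h, hh⟩ := exists_rename k hσ he α hα
    ⟨ff k * mono k (-un σ dF) 1 - cc k σ (e (.inr 0)) * yy k σ (e (.inr 0)),
      rest_mem k hσ.full _⟩ (rest_vz k hσ.full hq hqσ)
  refine ⟨c, h, ?_, hc, ?_⟩
  · rintro rfl
    rw [map_zero, map_zero] at hc
    exact cc_ne k σ _ hq (congrArg (fun x : L0 k σ => (x : Lau k)) hc).symm
  · rw [map_add, map_mul, hc, hh, hα']
    change cc k σ (e (.inr 0)) * yy k σ (e (.inr 0)) +
      (ff k * mono k (-un σ dF) 1 - cc k σ (e (.inr 0)) * yy k σ (e (.inr 0))) = _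
    ring

end BS
end

section

/-!
# The good open sets of a scheme with charts
-/

set_option autoImplicit false

open CategoryTheory CategoryTheory.Limits AlgebraicGeometry TopologicalSpace

namespace BS

open MPbd3808.BR

universe u

variable {k : Type u} [Field k] {X : Scheme.{u}} [X.Over (Spec (.of k))]

/-- PROOF. Let `e` be an enumeration with `e (inr 0) = q` (`exists_enum`), `α` as in `exists_poly`, `c`, `h` as in `exists_ch`. Let
`θ : Polynomial (MvPolynomial (Fin 5) k) →+* Γ(X, U σ)` be `ev ∘ α ∘ (MvPolynomial.finSuccEquiv k 5).symm`. It is surjective (`ev_surj`).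
`finSuccEquiv` sends `X 0` to `Polynomial.X` and `rename Fin.succ p` to `Polynomial.C p` (`MvPolynomial.finSuccEquiv_rename_finSuccEquiv`,
`finSuccEquiv_comp_C_eq_C`, or by induction on `p`). So `θ (C c) = cf q`, and the kernel: `ev p = 0` iff `p = ff * r` with `r ∈ LD σ (-dF)` (`ev_ker`) iff
`p = (ff * mono (- un σ dF) 1) * r'` with `r' = r * mono (un σ dF) 1 ∈ L0 σ` (`degE_un`, `reg_un`), iff the preimage of `p` is a multiple of `C c * X + C h`.
`ψ` is the restriction `Γ(X, U σ) → Γ(X, basicOpen (cf q))`, a localization away from `cf q` (`IsAffineOpen.isLocalization_basicOpen`, `C.affine`; the algebra structure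
there is `(X.presheaf.map ..).hom.toAlgebra`). `loc_of_quot` (`MvPolynomial (Fin 5) k` is a domain) gives the last condition with
`φ := ψ ∘ θ ∘ C`. `basicOpen` is affine (`IsAffineOpen.basicOpen`). `φ (MvPolynomial.C a) = resTop V (coefTop a)`: `α` is `k`-linear, `ev_coef`, `res_resTop`. -/
theorem Charts.goodOpen (C : Charts k X) {σ : Finset Vr} (hσ : Mini σ) {q : Vr} (hq : 6 ≤ q)
    (hqσ : q ∉ σ) : GoodOpen k X (X.basicOpen (C.cf hσ.full q)) := by
  obtain ⟨e, he, heq⟩ := exists_enum hσ hqσ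
  obtain ⟨α, hα', hα⟩ := exists_poly k hσ he
  obtain ⟨c, h, hc, hcc, hch⟩ := exists_ch k hσ he (heq ▸ hq) α hα' hα
  subst heq
  have hC : ∀ p : MvPolynomial (Fin 5) k, (MvPolynomial.finSuccEquiv k 5).symm (Polynomial.C p) =
      MvPolynomial.rename Fin.succ p := by
    intro p
    rw [AlgEquiv.symm_apply_eq]
    have h1 : (Algebra.ofId (MvPolynomial (Fin 5) k) (Polynomial (MvPolynomial (Fin 5) k))).restrictScalars k =
        ((MvPolynomial.finSuccEquiv k 5).toAlgHom.comp (MvPolynomial.rename Fin.succ)) := by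
      apply MvPolynomial.algHom_ext
      intro i
      simp [Algebra.ofId_apply, MvPolynomial.finSuccEquiv_X_succ]
    exact DFunLike.congr_fun h1 p
  have hX : (MvPolynomial.finSuccEquiv k 5).symm Polynomial.X = MvPolynomial.X 0 := by
    rw [AlgEquiv.symm_apply_eq, MvPolynomial.finSuccEquiv_X_zero]
  let θ : Polynomial (MvPolynomial (Fin 5) k) →+* Γ(X, C.U σ hσ.full) :=
    ((C.ev σ hσ.full).comp (α : MvPolynomial (Fin 6) k →+* L0 k σ)).comp
      ((MvPolynomial.finSuccEquiv k 5).symm :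
        Polynomial (MvPolynomial (Fin 5) k) →+* MvPolynomial (Fin 6) k)
  have hθ : ∀ p, θ p = C.ev σ hσ.full (α ((MvPolynomial.finSuccEquiv k 5).symm p)) := fun p => rfl
  have hs : Function.Surjective θ := by
    intro y
    obtain ⟨p, hp⟩ := C.ev_surj σ hσ.full y
    refine ⟨MvPolynomial.finSuccEquiv k 5 (α.symm p), ?_⟩
    rw [hθ, AlgEquiv.symm_apply_apply, AlgEquiv.apply_symm_apply, hp]
  have hmm : mono k (-un σ dF) 1 * mono k (un σ dF) 1 = 1 := by
    rw [AddMonoidAlgebra.single_mul_single, neg_add_cancel, one_mul]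
    rfl
  have hG : (MvPolynomial.finSuccEquiv k 5).symm (Polynomial.C c * Polynomial.X + Polynomial.C h) =
      MvPolynomial.rename Fin.succ c * MvPolynomial.X 0 + MvPolynomial.rename Fin.succ h := by
    rw [map_add, map_mul, hC, hC, hX]
  have hk : ∀ p, θ p = 0 ↔ ∃ g, p = (Polynomial.C c * Polynomial.X + Polynomial.C h) * g := by
    intro p
    rw [hθ, C.ev_ker]
    constructor
    · rintro ⟨r, hr, hpr⟩
      have hr0 : mono k (un σ dF) 1 * r ∈ LD k σ 0 := by
        have h1 := mul_mem_LD k (mono_mem k (reg_un hσ.full (Finset.Subset.refl σ) dF)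
          (degE_un σ dF) (1 : k)) hr
        rwa [add_neg_cancel] at h1
      refine ⟨MvPolynomial.finSuccEquiv k 5 (α.symm ⟨_, hr0⟩), ?_⟩
      apply (MvPolynomial.finSuccEquiv k 5).symm.injective
      rw [map_mul, hG, AlgEquiv.symm_apply_apply]
      apply α.injective
      rw [map_mul, AlgEquiv.apply_symm_apply]
      apply Subtype.ext
      rw [hpr]
      change _ = ((α (MvPolynomial.rename Fin.succ c * MvPolynomial.X 0 +
        MvPolynomial.rename Fin.succ h) : L0 k σ) : Lau k) * (mono k (un σ dF) 1 * r)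
      rw [hch]
      calc ff k * r = ff k * (1 * r) := by rw [one_mul]
        _ = ff k * mono k (-un σ dF) 1 * (mono k (un σ dF) 1 * r) := by rw [← hmm]; ring
    · rintro ⟨g, hg⟩
      refine ⟨mono k (-un σ dF) 1 *
        ((α ((MvPolynomial.finSuccEquiv k 5).symm g) : L0 k σ) : Lau k), ?_, ?_⟩
      · have h1 := mul_mem_LD k (mono_mem k
          (show Reg σ (-un σ dF) by
            rw [← un_neg]; exact reg_un hσ.full (Finset.Subset.refl σ) (-dF))
          (show degE (-un σ dF) = -dF by rw [← un_neg, degE_un]) (1 : k))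
          (α ((MvPolynomial.finSuccEquiv k 5).symm g)).2
        rwa [add_zero] at h1
      · rw [hg, map_mul, hG, map_mul]
        change ((α (MvPolynomial.rename Fin.succ c * MvPolynomial.X 0 +
          MvPolynomial.rename Fin.succ h) : L0 k σ) : Lau k) * _ = _
        rw [hch, mul_assoc]
  have hθc : θ (Polynomial.C c) = C.cf hσ.full (e (.inr 0)) := by
    rw [hθ, hC, hcc]
    rfl
  let ψ : Γ(X, C.U σ hσ.full) →+* Γ(X, X.basicOpen (C.cf hσ.full (e (.inr 0)))) :=
    rO X (X.basicOpen_le _)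
  have hψ : @IsLocalization.Away _ _ (θ (Polynomial.C c))
      Γ(X, X.basicOpen (C.cf hσ.full (e (.inr 0)))) _ ψ.toAlgebra := by
    rw [hθc]
    exact (C.affine σ hσ.full).isLocalization_basicOpen (C.cf hσ.full (e (.inr 0)))
  refine ⟨(C.affine σ hσ.full).basicOpen _, ψ.comp (θ.comp Polynomial.C), c, hc, ?_,
    loc_of_quot c h hc θ hs hk ψ hψ⟩
  intro a
  change ψ (θ (Polynomial.C (MvPolynomial.C a))) = _
  rw [hθ, hC, MvPolynomial.rename_C]
  have h1 : α (MvPolynomial.C a) = algebraMap k (L0 k σ) a := α.commutes a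
  rw [h1, C.ev_coef]
  exact res_resTop _ _

theorem Charts.exists_goodOpen (C : Charts k X) (x : X) : ∃ V : X.Opens, x ∈ V ∧ GoodOpen k X V := by
  obtain ⟨τ, hτ, hx⟩ := C.cover x
  obtain ⟨σ, hστ, hσ⟩ := exists_mini hτ
  obtain ⟨q, hq, hqσ, hxq⟩ := C.exists_cf hσ x (C.anti hσ.full hτ hστ hx)
  exact ⟨_, hxq, C.goodOpen hσ hq hqσ⟩

end BS
end

section

/-!
# The anticanonical sections of a scheme with charts
-/

set_option autoImplicit false

open CategoryTheory CategoryTheory.Limits AlgebraicGeometry TopologicalSpace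

namespace BS

open MPbd3808.BR

universe u

variable {k : Type u} [Field k] {X : Scheme.{u}} [X.Over (Spec (.of k))]

variable (k) in
/-- the anticanonical five-derivation `DD h` on the field `FL` -/
noncomputable def DF (h : Ex) : MDer k (FL k) 5 :=
  (exists_mder (algebraMap (RL k) (FL k) (mo k (h - 1 + fE 0))) (fun j => etaF k (w5 j))).choose

private lemma EmbC_DF_apply (h : Ex) (a : Fin 5 → FL k) :
    (DF k h).D a = algebraMap (RL k) (FL k) (mo k (h - 1 + fE 0)) *
      (Matrix.of fun i j => etaF k (w5 j) (a i)).det :=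
  (exists_mder (algebraMap (RL k) (FL k) (mo k (h - 1 + fE 0)))
    (fun j => etaF k (w5 j))).choose_spec a

/-- PROOF. `exists_mder` (`choose_spec`), `etaF_algebraMap`, `RingHom.map_det`, `map_mul`. -/
theorem DF_algebraMap (h : Ex) (r : Fin 5 → RL k) :
    (DF k h).D (fun i => algebraMap (RL k) (FL k) (r i)) = algebraMap (RL k) (FL k) (DD k h r) := by
  rw [EmbC_DF_apply, DD, map_mul, RingHom.map_det]
  congr 2
  ext i j
  simp only [Matrix.of_apply, RingHom.mapMatrix_apply, Matrix.map_apply, etaF_algebraMap]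

/-- PROOF. As `exists_mder`: both are the same determinant times `mo (h - 1 + fE 0)`, resp. `mo (h' - 1 + fE 0)`; `mo_add`. -/
theorem DF_mul (h h' : Ex) (a : Fin 5 → FL k) :
    (DF k h).D a = algebraMap (RL k) (FL k) (mo k (h - h')) * (DF k h').D a := by
  have e : h - 1 + fE 0 = h - h' + (h' - 1 + fE 0) := by abel
  rw [EmbC_DF_apply, EmbC_DF_apply, ← mul_assoc, ← map_mul, ← mo_add, ← e]

/-- PROOF. Every function on `U τ` is `ev p`, `se (ev p) = pi p` (`ev_surj`, `se_ev`), so by `E_se`, `DF_algebraMap` and `DD_mem` the value is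
`algebraMap (pi q)` with `q ∈ L0 τ`, i.e. `E.emb (ev q)`. -/
theorem Charts.pres (C : Charts k X) (τ : Finset Vr) (hτ : Full τ) (h : Ex) (hr : Reg τ h)
    (hd : degE h = de) : C.E.Pres (DF k h) (C.U τ hτ) := by
  intro hU a
  choose p hp using fun i => C.ev_surj τ hτ (a i)
  obtain ⟨q, hq, hq'⟩ := DD_mem k hτ h hr hd (fun i => (p i : Lau k)) (fun i => (p i).2)
  refine ⟨C.ev τ hτ ⟨q, hq⟩, ?_⟩
  rw [C.E_se, C.se_ev]
  have h1 : (fun i => C.E.emb _ hU (a i)) =
      fun i => algebraMap (RL k) (FL k) (pi k (p i : Lau k)) := by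
    funext i
    rw [← hp i, C.E_se, C.se_ev]
  rw [h1, DF_algebraMap, hq']

end BS
end

section

/-!
# The anticanonical class of a scheme with charts is ample
-/

set_option autoImplicit false

open CategoryTheory CategoryTheory.Limits AlgebraicGeometry TopologicalSpace

namespace BS

open MPbd3808.BR

universe u

variable {k : Type u} [Field k] {X : Scheme.{u}} [X.Over (Spec (.of k))]

/-- The anticanonical section defined by the monomial `un σ (1;1,1,3)`. -/
theorem Charts.exists_section (C : Charts k X) (σ : Finset Vr) :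
    ∃ s : PluriAnticanonical k X 5 1, ∀ (V : X.Opens) (hV : ∃ x, x ∈ V)
      (a : Fin 1 → Fin 5 → Γ(X, V)),
      C.E.emb V hV (s.D V a) = (DF k (un σ de)).D (fun i => C.E.emb V hV (a 0 i)) := by
  refine C.E.exists_section C.E_coef (DF k (un σ de)) (C.E.exists_value _ fun x => ?_)
  obtain ⟨τ, hτ, hx⟩ := C.cover x
  exact ⟨C.U τ hτ, hx, C.affine τ hτ,
    C.pres τ hτ _ (fun v _ => un_de_nonneg σ v) (degE_un σ de)⟩

/-- PROOF. Let `x ∈ U σ`; `C.exists_cf`: there is `q ≥ 6`, `q ∉ σ` with `x ∈ basicOpen (cf q)`; `e` an enumeration with `e (inr 0) = q` (`exists_enum`). Let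
`a i := ev (yy σ (e (inr i.succ)))` (functions on `U σ`; `a` as a function of `Fin 1`). By `hs`, `E_se`, `se_ev`, `DF_algebraMap` and `DD_val`
(`h = un σ de`; `de = ![1,1,1,3]` by definition) `se (s.D (U σ) a) = ± mo E * pi (cc σ q)`, `E` of degree `0` and `E v = h v = 0` for `v ∉ σ` (`un_of_notMem`), so
`mono E 1` is a unit of `L0 σ` (inverse `mono (-E) 1`) and by `se_inj` `s.D (U σ) a = unit * cf q`. So `basicOpen (s.D ..) = basicOpen (cf q)` contains `x` (`Scheme.basicOpen_mul`,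
`RingedSpace.basicOpen_of_isUnit`). -/
theorem Charts.le_locus (C : Charts k X) {σ : Finset Vr} (hσ : Mini σ)
    (s : PluriAnticanonical k X 5 1)
    (hs : ∀ (V : X.Opens) (hV : ∃ x, x ∈ V) (a : Fin 1 → Fin 5 → Γ(X, V)),
      C.E.emb V hV (s.D V a) = (DF k (un σ de)).D (fun i => C.E.emb V hV (a 0 i))) :
    C.U σ hσ.full ≤ s.locus := by
  intro x hx
  obtain ⟨q, -, hq, hxq⟩ := C.exists_cf hσ x hx
  obtain ⟨e, he, heq⟩ := exists_enum hσ hq
  obtain ⟨E, ε, hE0, hE, hval⟩ := DD_val k hσ.full he (un σ de) (degE_un σ de)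
  have hreg : Reg σ E := fun v hv => by
    rw [hE v hv]; exact un_de_nonneg σ v
  have hreg' : Reg σ (-E) := fun v hv => by
    rw [Pi.neg_apply, hE v hv, un_of_notMem hσ.full _ hv]; simp
  have hE0' : degE (-E) = 0 := by rw [degE_neg, hE0, neg_zero]
  let a : Fin 1 → Fin 5 → Γ(X, C.U σ hσ.full) := fun _ i =>
    C.ev σ hσ.full ⟨yy k σ (e (.inr i.succ)), yy_mem k hσ.full _⟩
  have h1 := hs (C.U σ hσ.full) ⟨x, hx⟩ a
  have h2 : (fun i => C.E.emb (C.U σ hσ.full) ⟨x, hx⟩ (a 0 i)) =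
      fun i => algebraMap (RL k) (FL k) (pi k (yy k σ (e (.inr i.succ)))) := by
    funext i
    rw [C.E_se]
    congr 1
    exact C.se_ev σ hσ.full _
  rw [h2, DF_algebraMap, hval, heq, C.E_se] at h1
  have h3 := IsFractionRing.injective (RL k) (FL k) h1
  have h4 : C.se σ hσ.full (((ε : ℤ) : Γ(X, C.U σ hσ.full)) *
      C.ev σ hσ.full (mon0 k E hreg hE0) * C.cf hσ.full q) =
      ((ε : ℤ) : RL k) * mo k E * pi k (cc k σ q) := by
    rw [map_mul, map_mul, map_intCast, C.se_ev]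
    unfold Charts.cf
    rw [C.se_ev]
    rfl
  have h5 := C.se_inj σ hσ.full (h3.trans h4.symm)
  have hu : IsUnit (((ε : ℤ) : Γ(X, C.U σ hσ.full)) * C.ev σ hσ.full (mon0 k E hreg hE0)) := by
    refine IsUnit.mul ?_ ?_
    · exact (ε.isUnit).map (Int.castRingHom Γ(X, C.U σ hσ.full))
    · refine IsUnit.of_mul_eq_one (C.ev σ hσ.full (mon0 k (-E) hreg' hE0')) ?_
      rw [← map_mul, ← map_one (C.ev σ hσ.full)]
      congr 1
      apply Subtype.ext
      change mono k E 1 * mono k (-E) 1 = 1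
      rw [AddMonoidAlgebra.single_mul_single, one_mul, add_neg_cancel]
      rfl
  have h6 : x ∈ X.basicOpen (s.D (C.U σ hσ.full) a) := by
    rw [h5, Scheme.basicOpen_mul]
    refine ⟨?_, hxq⟩
    rw [Scheme.basicOpen_of_isUnit _ hu]
    exact hx
  unfold PluriAnticanonical.locus
  exact Opens.mem_iSup.2 ⟨C.U σ hσ.full, Opens.mem_iSup.2 ⟨a, h6⟩⟩

/-- PROOF. Let `x ∈ basicOpen (s.D V a)` (so `x ∈ V`: `Scheme.basicOpen_le`) and `x ∈ U τ`. Let `h := un σ de`, `h' := un τ de` (regular on `τ` and of degree `de`,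
`un_de_nonneg`). `C.pres τ hτ h'` and `EmbF.local` give an open `W ∋ x` in `V` and in `U τ` and `b ∈ Γ(X, W)` with `emb b = DF h' (emb (a 0 i))`. By
`DF_mul` `emb (s.D V a) = algebraMap (mo (h - h')) * emb b`, and `mo (h - h') = pi (mono (h - h') 1)` with `mono (h - h') 1 ∈ L0 τ` (`h v - h' v = h v ≥ 0` for `v ∉ τ`).
So on `W` `(s.D V a)|W = m|W * b` for `m := ev τ (mon0 (h - h'))`, and `x ∈ basicOpen m` (the germ of `s.D V a` at `x` is a unit, so that of `m` is), which is
`U (supp τ (h - h'))` by `C.basic`. `σ ⊆ supp τ (h - h')`: for `v ∈ σ \ τ`: `h v > 0` (`un_de_pos`), `h' v = 0`. So `x ∈ U σ` by `C.anti`. -/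
theorem Charts.locus_le (C : Charts k X) {σ : Finset Vr} (hσ : Mini σ)
    (s : PluriAnticanonical k X 5 1)
    (hs : ∀ (V : X.Opens) (hV : ∃ x, x ∈ V) (a : Fin 1 → Fin 5 → Γ(X, V)),
      C.E.emb V hV (s.D V a) = (DF k (un σ de)).D (fun i => C.E.emb V hV (a 0 i))) :
    s.locus ≤ C.U σ hσ.full := by
  intro x hx
  unfold PluriAnticanonical.locus at hx
  obtain ⟨V, hx⟩ := Opens.mem_iSup.1 hx
  obtain ⟨a, hx⟩ := Opens.mem_iSup.1 hx
  have hxV : x ∈ V := Scheme.basicOpen_le X _ hx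
  obtain ⟨τ, hτ, hxτ⟩ := C.cover x
  have hp := C.pres τ hτ (un τ de) (fun v _ => un_de_nonneg τ v) (degE_un τ de)
  obtain ⟨W, hxW, hWV, hWU, b, hb⟩ := C.E.local (DF k (un τ de)) (C.affine τ hτ) hp hxV hxτ (a 0)
  have h1 := hs V ⟨x, hxV⟩ a
  rw [DF_mul (un σ de) (un τ de), ← hb] at h1
  have hreg : Reg τ (un σ de - un τ de) := fun v hv => by
    rw [Pi.sub_apply, un_of_notMem hτ _ hv, sub_zero]; exact un_de_nonneg σ v
  have hdeg : degE (un σ de - un τ de) = 0 := by
    rw [sub_eq_add_neg, degE_add, degE_neg, degE_un, degE_un, add_neg_cancel]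
  have h2 : C.E.emb (C.U τ hτ) ⟨x, hxτ⟩ (C.ev τ hτ (mon0 k _ hreg hdeg)) =
      algebraMap (RL k) (FL k) (mo k (un σ de - un τ de)) := by
    rw [C.E_se, C.se_ev]
    rfl
  rw [← h2, ← C.E.res V W ⟨x, hxV⟩ ⟨x, hxW⟩ hWV, ← C.E.res (C.U τ hτ) W ⟨x, hxτ⟩ ⟨x, hxW⟩ hWU,
    ← map_mul] at h1
  have h3 := C.E.inj W ⟨x, hxW⟩ h1
  have h4 : x ∈ X.basicOpen (rO X hWV (s.D V a)) := by
    unfold rO
    rw [Scheme.basicOpen_res]
    exact ⟨hxW, hx⟩
  rw [h3, Scheme.basicOpen_mul] at h4
  have h5 : x ∈ X.basicOpen (C.ev τ hτ (mon0 k _ hreg hdeg)) := by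
    have h6 := h4.1
    unfold rO at h6
    rw [Scheme.basicOpen_res] at h6
    exact h6.2
  rw [C.basic τ hτ _ hreg hdeg] at h5
  refine C.anti hσ.full (hτ.mono (subset_supp τ _)) ?_ h5
  intro v hv
  unfold supp
  rw [Finset.mem_union]
  by_cases hvτ : v ∈ τ
  · exact Or.inl hvτ
  · refine Or.inr (Finset.mem_filter.2 ⟨Finset.mem_univ v, ?_⟩)
    rw [Pi.sub_apply, un_of_notMem hτ _ hvτ, sub_zero]
    exact (un_de_pos hσ v).1 hv

theorem Charts.ample (C : Charts k X) : AnticanonicalAmple k X 5 := by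
  intro x
  obtain ⟨τ, hτ, hx⟩ := C.cover x
  obtain ⟨σ, hστ, hσ⟩ := exists_mini hτ
  obtain ⟨s, hs⟩ := C.exists_section σ
  have h : s.locus = C.U σ hσ.full := le_antisymm (C.locus_le hσ s hs) (C.le_locus hσ s hs)
  refine ⟨1, le_rfl, s, ?_, ?_⟩
  · rw [h]
    exact C.anti hσ.full hτ hστ hx
  · rw [h]
    exact C.affine σ hσ.full

end BS
end

section

/-!
# The rings of functions of the standard open sets of `Proj A` inside `RL`
-/

set_option autoImplicit false

open Polynomial HomogeneousLocalization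

namespace BS

open MPbd3808.BR

universe u

variable (k : Type u) [Field k]

/-- evaluation at `T = 1` -/
noncomputable def ev1 : AA k →+* RL k := (Polynomial.evalRingHom 1).comp (AA k).val.toRingHom

lemma ev1_hm {n : ℕ} (r : RL k) (hr : r ∈ RD k n) : ev1 k (hm k r hr) = r := by
  change Polynomial.eval 1 (monomial n r) = r
  rw [Polynomial.eval_monomial, one_pow, mul_one]

lemma ev1_tm (n : ℕ) (e : Ex) (hr : Reg ∅ e) (hd : degE e = n • de) :
    ev1 k (tm k n e hr hd) = mo k e := ev1_hm k _ _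

lemma isUnit_ev1_tm (n : ℕ) (e : Ex) (hr : Reg ∅ e) (hd : degE e = n • de) :
    IsUnit (ev1 k (tm k n e hr hd)) := by
  rw [ev1_tm]
  exact isUnit_mo k e

/-- PROOF. `eq_hm`, `ev1_hm`. -/
theorem ev1_inj {n : ℕ} {p : AA k} (hp : p ∈ AG k n) (h : ev1 k p = 0) : p = 0 := by
  have h1 := congrArg (ev1 k) (eq_hm k hp)
  rw [ev1_hm, h] at h1
  refine Subtype.ext (Polynomial.ext fun m => ?_)
  by_cases hmn : m = n
  · subst hmn
    exact h1.symm
  · exact hp m hmn

/-- the map `A[1/m]_0 → RL` for an element `m` with invertible value at `T = 1` -/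
noncomputable def psi (m : AA k) (hm : IsUnit (ev1 k m)) : Away (AG k) m →+* RL k :=
  (IsLocalization.Away.lift (S := Localization.Away m) m hm).comp
    (algebraMap (Away (AG k) m) (Localization.Away m))

/-- PROOF. `HomogeneousLocalization.Away.val_mk`, `IsLocalization.lift_mk'` (or `Localization.mk_eq_mk'`). -/
theorem psi_mk (m : AA k) (hm : IsUnit (ev1 k m)) {d : ℕ} (hf : m ∈ AG k d) (j : ℕ) (x : AA k)
    (hx : x ∈ AG k (j • d)) : psi k m hm (Away.mk (AG k) hf j x hx) * ev1 k m ^ j = ev1 k x := by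
  have h1 := (IsLocalization.lift_mk'_spec (S := Localization.Away m)
    (M := Submonoid.powers m) (g := ev1 k)
    (hg := fun y => by
      obtain ⟨n, hn⟩ := y.2
      rw [← hn]
      change IsUnit (ev1 k (m ^ n))
      rw [map_pow]
      exact hm.pow n) x (psi k m hm (Away.mk (AG k) hf j x hx)) ⟨m ^ j, j, rfl⟩).1 (by
      rw [← Localization.mk_eq_mk']
      rfl)
  rw [h1, mul_comm]
  change _ = ev1 k (m ^ j) * _
  rw [map_pow]

/-- PROOF. `Away.mk_surjective`; if `psi (Away.mk j x) = 0` then `ev1 x = 0`, so `x = 0` (`ev1_inj`). -/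
theorem psi_inj (m : AA k) (hm : IsUnit (ev1 k m)) {d : ℕ} (hf : m ∈ AG k d) :
    Function.Injective (psi k m hm) := by
  rw [injective_iff_map_eq_zero]
  intro a ha
  obtain ⟨j, x, hx, rfl⟩ := Away.mk_surjective (AG k) hf a
  have h1 := psi_mk k m hm hf j x hx
  rw [ha, zero_mul] at h1
  have h2 : x = 0 := ev1_inj k hx h1.symm
  subst h2
  apply HomogeneousLocalization.val_injective
  rw [Away.val_mk, HomogeneousLocalization.val_zero]
  rw [Localization.mk_eq_mk', IsLocalization.mk'_zero]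

/-- PROOF. Both ring homomorphisms are the restriction of a map from `Localization.Away m`; use `Away.mk_surjective` and
`HomogeneousLocalization.awayMap_mk` (or `val_awayMap_mk`) with `psi_mk`: `x g^j/(m g)^j ↦ ev1(x) ev1(g)^j/(ev1(m) ev1(g))^j`. -/
theorem psi_awayMap (m g x : AA k) (hx : x = m * g) (hm : IsUnit (ev1 k m)) (hxu : IsUnit (ev1 k x))
    {d d' : ℕ} (hf : m ∈ AG k d) (hg : g ∈ AG k d') (a : Away (AG k) m) :
    psi k x hxu (awayMap (AG k) hg hx a) = psi k m hm a := by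
  obtain ⟨j, y, hy, rfl⟩ := Away.mk_surjective (AG k) hf a
  rw [awayMap_mk]
  have h1 := psi_mk k m hm hf j y hy
  have h2 := psi_mk k x hxu (hx ▸ SetLike.mul_mem_graded hf hg) j (y * g ^ j)
    (by rw [smul_add]; exact SetLike.mul_mem_graded hy (SetLike.pow_mem_graded j hg))
  refine (hxu.pow j).mul_right_cancel ?_
  rw [h2, map_mul, ← h1, hx, map_mul, map_pow, mul_pow, mul_assoc]

/-- PROOF. `⊆`: `Away.mk_surjective`: `x ∈ AG (j d)` has `ev1 x = pi p` with `p ∈ LD ∅ (j d de)` (`eq_hm`, `ev1_hm`), so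
`psi = pi p * mo (- j e) = pi (p * mono (-(j • e)) 1)`, and `p * mono (-(j e))` has degree `0` and is regular on `σ` (`e v = 0` for `v ∉ σ`).
`⊇`: let `p ∈ L0 σ`; for `j` large all exponents `e'` of `p` satisfy `e' + j e ≥ 0` (finite support; `e v > 0` on `σ`), so
`p * mono (j e) 1 ∈ LD ∅ (j d de)`; take `Away.mk j (hm (pi (p * mono (j e) 1)) _)` and `psi_mk`. -/
theorem psi_range (d : ℕ) (e : Ex) (hr : Reg ∅ e) (hd : degE e = d • de) (σ : Finset Vr)
    (hσ : ∀ v, v ∈ σ ↔ 0 < e v) (r : RL k) :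
    (∃ a, psi k (tm k d e hr hd) (isUnit_ev1_tm k d e hr hd) a = r) ↔ ∃ p ∈ L0 k σ, pi k p = r := by
  have hf := tm_mem k d e hr hd
  have hpow : ∀ j : ℕ, mo k e ^ j = mo k (j • e) := by
    intro j
    induction j with
    | zero => rw [pow_zero, zero_smul, mo_zero]
    | succ j ih => rw [pow_succ, ih, succ_nsmul, mo_add]
  have hev : ∀ v, 0 ≤ e v := fun v => hr v (Finset.notMem_empty v)
  constructor
  · rintro ⟨a, rfl⟩
    obtain ⟨j, x, hx, rfl⟩ := Away.mk_surjective (AG k) hf a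
    obtain ⟨p, hp, hpx⟩ : ∃ p ∈ LD k ∅ ((j • d) • de), pi k p = (x : (RL k)[X]).coeff (j • d) :=
      x.2 (j • d)
    have h1 : ev1 k x = pi k p := by
      have h2 := congrArg (ev1 k) (eq_hm k hx)
      rw [ev1_hm] at h2
      rw [h2, hpx]
    have h2 := psi_mk k (tm k d e hr hd) (isUnit_ev1_tm k d e hr hd) hf j x hx
    rw [h1, ev1_tm, hpow] at h2
    refine ⟨p * mono k (-(j • e)) 1, ?_, ?_⟩
    · have h3 : mono k (-(j • e)) 1 ∈ LD k σ (-((j • d) • de)) := by
        refine mono_mem k (fun v hv => ?_) ?_ 1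
        · have h4 : e v = 0 := le_antisymm (not_lt.1 fun h => hv ((hσ v).2 h)) (hev v)
          simp [h4]
        · rw [degE_neg]
          congr 1
          clear h1 h2 hpx hp hx p x
          have : ∀ i : ℕ, degE (i • e) = (i • d) • de := by
            intro i
            induction i with
            | zero => simp [degE_zero]
            | succ i ih => rw [succ_nsmul, degE_add, ih, hd, succ_nsmul, add_smul]
          exact this j
      have h5 := mul_mem_LD k (LD_mono k (Finset.empty_subset σ) _ hp) h3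
      rw [add_neg_cancel] at h5
      exact h5
    · rw [map_mul]
      change pi k p * mo k (-(j • e)) = _
      rw [← h2, mul_assoc, ← mo_add, add_neg_cancel, mo_zero, mul_one]
  · rintro ⟨p, hp, rfl⟩
    obtain ⟨j, hj⟩ : ∃ j : ℕ, ∀ e' ∈ p.coeff.support, ∀ v, 0 ≤ e' v + j * e v := by
      refine ⟨∑ e' ∈ p.coeff.support, ∑ v, (e' v).natAbs, fun e' he' v => ?_⟩
      by_cases hv : v ∈ σ
      · have h1 : 1 ≤ e v := (hσ v).1 hv
        have h2 : (e' v).natAbs ≤ ∑ e' ∈ p.coeff.support, ∑ v, (e' v).natAbs :=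
          (Finset.single_le_sum (f := fun v => (e' v).natAbs) (fun _ _ => Nat.zero_le _)
            (Finset.mem_univ v)).trans
            (Finset.single_le_sum (f := fun e' : Ex => ∑ v, (e' v).natAbs)
              (fun _ _ => Nat.zero_le _) he')
        have h3 : ((e' v).natAbs : ℤ) ≤
            ((∑ e' ∈ p.coeff.support, ∑ v, (e' v).natAbs : ℕ) : ℤ) := by exact_mod_cast h2
        have h4 : -(e' v) ≤ ((e' v).natAbs : ℤ) := by omega
        nlinarith [Int.natCast_nonneg (∑ e' ∈ p.coeff.support, ∑ v, (e' v).natAbs)]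
      · have h1 : 0 ≤ e' v := (hp e' he').1 v hv
        have h2 := hev v
        positivity
    have hq : p * mono k (j • e) 1 ∈ LD k ∅ ((j • d) • de) := by
      classical
      intro e'' he''
      obtain ⟨x, hx, y, hy, rfl⟩ :=
        Finset.mem_add.1 (AddMonoidAlgebra.support_coeff_mul_subset p (mono k (j • e) 1) he'')
      have hy' := Finset.mem_singleton.1 (Finsupp.support_single_subset hy)
      subst hy'
      refine ⟨fun v _ => ?_, ?_⟩
      · have := hj x hx v
        simpa using this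
      · rw [degE_add, (hp x hx).2, zero_add]
        have : ∀ i : ℕ, degE (i • e) = (i • d) • de := by
          intro i
          induction i with
          | zero => simp [degE_zero]
          | succ i ih => rw [succ_nsmul, degE_add, ih, hd, succ_nsmul, add_smul]
        exact this j
    refine ⟨Away.mk (AG k) hf j (hm k (pi k (p * mono k (j • e) 1)) ⟨_, hq, rfl⟩)
      (hm_mem k _ _), ?_⟩
    have h2 := psi_mk k (tm k d e hr hd) (isUnit_ev1_tm k d e hr hd) hf j
      (hm k (pi k (p * mono k (j • e) 1)) ⟨_, hq, rfl⟩) (hm_mem k _ _)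
    rw [ev1_hm, ev1_tm, hpow] at h2
    exact (isUnit_mo k (j • e)).mul_right_cancel (h2.trans (map_mul (pi k) p (mono k (j • e) 1)))

end BS
end

section

/-!
# The scheme `W`
-/

set_option autoImplicit false

open CategoryTheory CategoryTheory.Limits AlgebraicGeometry TopologicalSpace HomogeneousLocalization

namespace BS

open MPbd3808.BR

universe u

variable (k : Type u) [Field k]

/-- The Fano fivefold `W ⊆ P^1 × F_1 × P^3`, as `Proj` of its anticanonical ring. -/
noncomputable def W : Scheme.{u} := Proj (AG k)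

/-- the structure map -/
noncomputable def strW : W k ⟶ Spec (.of k) :=
  Proj.toSpecZero (AG k) ≫ Spec.map (CommRingCat.ofHom (algebraMap k (AG k 0)))

noncomputable instance : (W k).Over (Spec (.of k)) := ⟨strW k⟩

private lemma Wdef_congr {m n : ℕ} {e e' : Ex} (hmn : m = n) (he : e = e') (hr : Reg ∅ e)
    (hd : degE e = m • de) (hr' : Reg ∅ e') (hd' : degE e' = n • de) :
    tm k m e hr hd = tm k n e' hr' hd' := by
  subst hmn; subst he; rfl

private lemma Wdef_one (hr : Reg ∅ (0 : Ex)) (hd : degE (0 : Ex) = (0 : ℕ) • de) :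
    tm k 0 0 hr hd = 1 := by
  apply Subtype.ext
  change Polynomial.monomial 0 (mo k 0) = 1
  rw [mo_zero]
  rfl

private lemma Wdef_nreg {e : Ex} (hr : Reg ∅ e) (N : ℕ) : Reg ∅ (N • e) := by
  intro v hv
  rw [Pi.smul_apply]
  exact nsmul_nonneg (hr v hv) N

private lemma Wdef_ndeg {n : ℕ} {e : Ex} (hd : degE e = n • de) (N : ℕ) :
    degE (N • e) = (N * n) • de := by
  induction N with
  | zero => rw [zero_smul, degE_zero, zero_mul, zero_smul]
  | succ N ih => rw [succ_nsmul, degE_add, ih, hd, ← add_smul, Nat.succ_mul]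

private lemma Wdef_pow {n : ℕ} {e : Ex} (hr : Reg ∅ e) (hd : degE e = n • de) (N : ℕ) :
    tm k n e hr hd ^ N = tm k (N * n) (N • e) (Wdef_nreg hr N) (Wdef_ndeg hd N) := by
  induction N with
  | zero =>
    rw [pow_zero]
    exact (Wdef_one k Reg.zero (by rw [degE_zero, zero_smul])).symm.trans
      (Wdef_congr k (by rw [zero_mul]) (by rw [zero_smul]) _ _ _ _)
  | succ N ih =>
    rw [pow_succ, ih, tm_mul]
    exact Wdef_congr k (by rw [Nat.succ_mul]) (by rw [succ_nsmul]) _ _ _ _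

/-- PROOF. Let `M := N` large with `N e' ≥ e` (possible as `0 < e v → 0 < e' v`) and `N n' ≥ n`: `(tm n' e')^N = tm n e * tm (N n' - n) (N e' - e)`
(`tm_mul`, induction for the power), so `Proj.basicOpen_mono`, `Proj.basicOpen_pow` give it (`N > 0`). -/
theorem basicOpen_tm_le (n n' : ℕ) (e e' : Ex) (hr : Reg ∅ e) (hd : degE e = n • de)
    (hr' : Reg ∅ e') (hd' : degE e' = n' • de) (hn' : 0 < n') (h : ∀ v, 0 < e v → 0 < e' v) :
    Proj.basicOpen (AG k) (tm k n' e' hr' hd') ≤ Proj.basicOpen (AG k) (tm k n e hr hd) := by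
  obtain ⟨N, hN0, hNn, hNe⟩ : ∃ N : ℕ, 0 < N ∧ n ≤ N * n' ∧ ∀ v, e v ≤ (N : ℤ) * e' v := by
    refine ⟨n + (∑ v, (e v).toNat) + 1, by omega, ?_, ?_⟩
    · calc n ≤ n + (∑ v, (e v).toNat) + 1 := by omega
        _ = (n + (∑ v, (e v).toNat) + 1) * 1 := by rw [mul_one]
        _ ≤ _ := Nat.mul_le_mul_left _ hn'
    · intro v
      by_cases hv : 0 < e v
      · have h1 : (e v).toNat ≤ ∑ v, (e v).toNat :=
          Finset.single_le_sum (f := fun v => (e v).toNat) (fun _ _ => Nat.zero_le _)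
            (Finset.mem_univ v)
        have h2 : e v ≤ ((n + (∑ v, (e v).toNat) + 1 : ℕ) : ℤ) := by omega
        have h3 : 1 ≤ e' v := h v hv
        nlinarith
      · have h4 : 0 ≤ e' v := hr' v (by simp)
        have h5 : (0 : ℤ) ≤ ((n + (∑ v, (e v).toNat) + 1 : ℕ) : ℤ) * e' v :=
          mul_nonneg (Int.natCast_nonneg _) h4
        omega
  rw [← Proj.basicOpen_pow (AG k) (tm k n' e' hr' hd') N hN0]
  apply Proj.basicOpen_mono
  have hreg : Reg ∅ (N • e' - e) := by
    intro v _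
    rw [Pi.sub_apply, Pi.smul_apply, nsmul_eq_mul]
    exact sub_nonneg.2 (hNe v)
  have hdeg : degE (N • e' - e) = (N * n' - n) • de := by
    rw [sub_eq_add_neg, degE_add, degE_neg, Wdef_ndeg hd' N, hd, ← sub_eq_add_neg,
      sub_eq_iff_eq_add, ← add_smul, Nat.sub_add_cancel hNn]
  refine ⟨tm k (N * n' - n) (N • e' - e) hreg hdeg, ?_⟩
  rw [Wdef_pow, tm_mul]
  exact Wdef_congr k (by omega) (by abel) _ _ _ _

/-- The chart `U σ = D_+(x^(mex σ) T^4)`. -/
noncomputable def UW (σ : Finset Vr) (hσ : Full σ) : (W k).Opens :=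
  Proj.basicOpen (AG k) (tm k 4 (mex σ) (mex_reg σ) (mex_deg hσ))

theorem UW_affine (σ : Finset Vr) (hσ : Full σ) : IsAffineOpen (UW k σ hσ) :=
  Proj.isAffineOpen_basicOpen (AG k) _ (tm_mem k 4 (mex σ) (mex_reg σ) (mex_deg hσ)) (by norm_num)

/-- PROOF. `basicOpen_tm_le` in both directions. -/
theorem UW_eq (σ : Finset Vr) (hσ : Full σ) (n : ℕ) (hn : 0 < n) (e : Ex) (hr : Reg ∅ e)
    (hd : degE e = n • de) (h : ∀ v, v ∈ σ ↔ 0 < e v) :
    Proj.basicOpen (AG k) (tm k n e hr hd) = UW k σ hσ := by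
  apply le_antisymm
  · exact basicOpen_tm_le k _ _ _ _ _ _ _ _ hn fun v hv => (h v).1 ((mex_pos v).2 hv)
  · exact basicOpen_tm_le k _ _ _ _ _ _ _ _ (by norm_num) fun v hv => (mex_pos v).1 ((h v).2 hv)

/-- PROOF. `Proj.basicOpen_mul`, `tm_mul`, `UW_eq` (the exponent `mex σ + mex τ` has support `σ ∪ τ`). -/
theorem UW_inf (σ τ : Finset Vr) (hσ : Full σ) (hτ : Full τ) :
    UW k (σ ∪ τ) (hσ.mono Finset.subset_union_left) = UW k σ hσ ⊓ UW k τ hτ := by
  have h1 : UW k σ hσ ⊓ UW k τ hτ = Proj.basicOpen (AG k)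
      (tm k 4 (mex σ) (mex_reg σ) (mex_deg hσ) * tm k 4 (mex τ) (mex_reg τ) (mex_deg hτ)) := by
    rw [Proj.basicOpen_mul]
    rfl
  rw [h1, tm_mul]
  refine (UW_eq k (σ ∪ τ) (hσ.mono Finset.subset_union_left) _ (by norm_num) _ _ _ ?_).symm
  intro v
  have h2 : 0 ≤ mex σ v := mex_reg σ v (by simp)
  have h3 : 0 ≤ mex τ v := mex_reg τ v (by simp)
  rw [Finset.mem_union, mex_pos (σ := σ) v, mex_pos (σ := τ) v, Pi.add_apply]
  omega

private lemma Wdef_span {a : Deg} (p : LD k ∅ a) :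
    p ∈ Submodule.span k {q : LD k ∅ a | ∃ (e : Ex) (hr : Reg ∅ e) (hd : degE e = a),
      q = ⟨mono k e 1, mono_mem k hr hd 1⟩} := by
  classical
  have hp : ∀ e ∈ (p : Lau k).coeff.support, Reg ∅ e ∧ degE e = a := p.2
  have h1 : p = ∑ e : {e // e ∈ (p : Lau k).coeff.support},
      ((p : Lau k).coeff e.1) • (⟨mono k e.1 1,
        mono_mem k (hp e.1 e.2).1 (hp e.1 e.2).2 1⟩ : LD k ∅ a) := by
    apply Subtype.ext
    rw [AddSubmonoidClass.coe_finsetSum]
    have h2 : ∀ e : {e // e ∈ (p : Lau k).coeff.support}, ((((p : Lau k).coeff e.1) •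
        (⟨mono k e.1 1, mono_mem k (hp e.1 e.2).1 (hp e.1 e.2).2 1⟩ : LD k ∅ a) : LD k ∅ a) :
          Lau k) = AddMonoidAlgebra.single e.1 ((p : Lau k).coeff e.1) := by
      intro e
      change ((p : Lau k).coeff e.1) • (AddMonoidAlgebra.single e.1 (1 : k) : Lau k) = _
      rw [AddMonoidAlgebra.smul_single, smul_eq_mul, mul_one]
    rw [Finset.sum_congr rfl fun e _ => h2 e]
    conv_lhs => rw [← AddMonoidAlgebra.sum_coeff_single (p : Lau k)]
    rw [Finsupp.sum]
    exact (Finset.sum_coe_sort (p : Lau k).coeff.support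
      (fun e => (AddMonoidAlgebra.single e ((p : Lau k).coeff e) : Lau k))).symm
  rw [h1]
  refine Submodule.sum_mem _ fun e _ => Submodule.smul_mem _ _ (Submodule.subset_span ?_)
  exact ⟨e.1, (hp e.1 e.2).1, (hp e.1 e.2).2, rfl⟩

/-- the index set of the monomials of positive degree -/
private abbrev Wdef_I := {i : ℕ × Ex // 0 < i.1 ∧ Reg ∅ i.2 ∧ degE i.2 = i.1 • de}

private noncomputable def Wdef_f (i : Wdef_I) : AA k := tm k i.1.1 i.1.2 i.2.2.1 i.2.2.2

private lemma Wdef_mem {n : ℕ} (hn : 0 < n) (p : AA k) (hp : p ∈ AG k n) :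
    p ∈ Ideal.span (Set.range (Wdef_f k)) := by
  rw [eq_hm k hp]
  obtain ⟨q, hq, hqe⟩ := p.2 n
  have key : ∀ q : LD k ∅ (n • de), hm k (pi k q.1) ⟨q.1, q.2, rfl⟩ ∈
      Ideal.span (Set.range (Wdef_f k)) := by
    intro q
    refine Submodule.span_induction (p := fun q _ => hm k (pi k q.1) ⟨q.1, q.2, rfl⟩ ∈
      Ideal.span (Set.range (Wdef_f k))) ?_ ?_ ?_ ?_ (Wdef_span k q)
    · rintro _ ⟨e, hr, hd, rfl⟩
      exact Ideal.subset_span ⟨⟨(n, e), hn, hr, hd⟩, rfl⟩
    · have h0 : hm k (pi k ((0 : LD k ∅ (n • de)) : Lau k)) ⟨_, (0 : LD k ∅ (n • de)).2, rfl⟩ =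
          0 := by
        apply Subtype.ext
        change Polynomial.monomial n (pi k 0) = 0
        rw [map_zero, map_zero]
      rw [h0]
      exact Ideal.zero_mem _
    · intro a b _ _ ha hb
      have h0 : hm k (pi k ((a + b : LD k ∅ (n • de)) : Lau k)) ⟨_, (a + b).2, rfl⟩ =
          hm k (pi k a.1) ⟨a.1, a.2, rfl⟩ + hm k (pi k b.1) ⟨b.1, b.2, rfl⟩ := by
        apply Subtype.ext
        change Polynomial.monomial n (pi k (a.1 + b.1)) =
          Polynomial.monomial n (pi k a.1) + Polynomial.monomial n (pi k b.1)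
        rw [map_add, map_add]
      rw [h0]
      exact Ideal.add_mem _ ha hb
    · intro c a _ ha
      have h0 : hm k (pi k ((c • a : LD k ∅ (n • de)) : Lau k)) ⟨_, (c • a).2, rfl⟩ =
          algebraMap k (AA k) c * hm k (pi k a.1) ⟨a.1, a.2, rfl⟩ := by
        rw [← Algebra.smul_def]
        apply Subtype.ext
        change Polynomial.monomial n (pi k (c • a.1)) =
          c • Polynomial.monomial n (pi k a.1)
        rw [map_smul, Polynomial.smul_monomial]
      rw [h0]
      exact Ideal.mul_mem_left _ _ ha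
  have h := key ⟨q, hq⟩
  have h2 : hm k (pi k q) ⟨q, hq, rfl⟩ = hm k ((p : Polynomial (RL k)).coeff n) (p.2 n) := by
    apply Subtype.ext
    change Polynomial.monomial n (pi k q) = Polynomial.monomial n _
    exact congrArg _ hqe
  rw [← h2]
  exact h

/-- PROOF. Let `x` be a point of `Proj`. Some homogeneous `p` of positive degree `n` is not in the prime ideal `x.asHomogeneousIdeal`
(relevance: `x.not_irrelevant_le`, and the irrelevant ideal is generated by homogeneous elements of positive degree; see `Proj.affineOpenCover`,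
`(Proj.affineOpenCover (AG k)).covers`, which says that `x` is in `D_+(p)` for some such `p`). `p = hm (pi q)` (`eq_hm`), `q` a linear combination of
monomials, so `p` is the corresponding linear combination of `tm n e`'s, and some `tm n e` is not in the ideal. By `full_of_deg` the support `σ` of
`e` is full and `D_+(tm n e) = U σ` (`UW_eq`). -/
theorem UW_cover (x : W k) : ∃ σ hσ, x ∈ UW k σ hσ := by
  classical
  have hcov := Proj.iSup_basicOpen_eq_top (AG k) (Wdef_f k) (by
    intro z hz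
    rw [← DirectSum.sum_support_decompose (AG k) z]
    refine Ideal.sum_mem _ fun c hc => ?_
    by_cases hc0 : c = 0
    · subst hc0
      have h0 : ((DirectSum.decompose (AG k) z 0 : AG k 0) : AA k) = 0 := hz
      rw [h0]
      exact Ideal.zero_mem _
    · exact Wdef_mem k (Nat.pos_of_ne_zero hc0) _ (SetLike.coe_mem _))
  have hx : x ∈ (⊤ : (W k).Opens) := trivial
  have hx' : x ∈ (⨆ i, Proj.basicOpen (AG k) (Wdef_f k i)) := by
    rw [hcov]; exact hx
  obtain ⟨i, hi⟩ := Opens.mem_iSup.1 hx'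
  refine ⟨Finset.univ.filter fun v => 0 < i.1.2 v, full_of_deg i.2.1 i.2.2.1 i.2.2.2, ?_⟩
  rw [← UW_eq k _ (full_of_deg i.2.1 i.2.2.1 i.2.2.2) i.1.1 i.2.1 i.1.2 i.2.2.1 i.2.2.2
    (by intro v; simp)]
  exact hi

end BS
end
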