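import Pool.Agent.Lib.MP_bd3808_ag.Mg.G018
import Pool.Agent.Lib.MP_bd3808_ag.Mg.G020
import Pool.Agent.Lib.MP_bd3808_ag.Mg.G014
import Pool.Agent.Lib.MP_bd3808_ag.Mg.G027

section

/-!
# TASK K2: endomorphisms and finiteness
-/

open CategoryTheory CategoryTheory.Limits CategoryTheory.Abelian

namespace MPbd3808.BR

universe u
variable (k : Type u) [Field k]

variable {k} in
private theorem K2_coeff {σ : Finset Vr} {c : Deg} {q : A k} (hq : q ∈ gr k σ c) (e : Ex)
    (he : ∃ v, v ∉ σ ∧ 0 < e v) : (mon e * q).coeff 0 = 0 := by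
  by_contra h
  rw [AddMonoidAlgebra.coeff_single_mul_apply, one_mul, add_zero] at h
  obtain ⟨v, hv, hv'⟩ := he
  have := (hq _ h).1 v hv
  simp only [Pi.neg_apply] at this
  omega

private theorem K2_fE : ∀ i, ∃ v, v ∉ ({0, 2, 4, 9} : Finset Vr) ∧ 0 < fE i v := by decide

private theorem K2_eD0 : ∀ i, ∃ v, v ∉ ({0, 2, 4, 9} : Finset Vr) ∧ 0 < eD0 i v := by decide

private theorem K2_eD1 : ∀ i, ∃ v, v ∉ ({0, 2, 4, 9} : Finset Vr) ∧ 0 < eD1 i v := by decide

private theorem K2_dF0 : dF 0 = 1 := rfl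
private theorem K2_dD0 : dD 0 = 0 := rfl
private theorem K2_dD1 : dD 1 = 0 := rfl
private theorem K2_dD2 : dD 2 = 1 := rfl
private theorem K2_dD3 : dD 3 = 1 := rfl

private theorem K2_full : Full ({0, 2, 4, 9} : Finset Vr) := by unfold Full; decide

variable {k} in
private theorem K2_id_ne_zero {G : List (A k × Deg)} (b : Deg)
    (h : (1 : A k) ∉ idl G {0, 2, 4, 9} (-b + b)) : 𝟙 (QQ G b) ≠ 0 := by
  intro h0
  have h1 : ((𝟙 (QQ G b) : QQ G b ⟶ QQ G b).app (Ob.mk {0, 2, 4, 9} K2_full (-b))).hom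
      (oneQ G b _ K2_full) = 0 := by rw [h0]; rfl
  have h2 : oneQ G b {0, 2, 4, 9} K2_full = 0 := h1
  have h3 := (Submodule.Quotient.mk_eq_zero _).1 h2
  exact h h3

/-- The point `s1 = u1 = mu = z0 = z1 = z2 = 0` lies on `E`: on the chart `σ0 = {s0, u0, la, z3}` the constant `1` is not in the
ideal of any of our `G`.

PROOF. `σ0 = {0,2,4,9}`, full. If all `g ∈ G` are such that every monomial of `g.1` has a positive exponent at some `v ∉ σ0`, then the
same holds for all monomials of all elements of `idl G σ0 c` (exponents of elements of `gr σ0` are `≥ 0` outside `σ0`), but not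
for `1 = mon 0`. The six monomials of `f` and the six of `D0, D1` have this property. -/
theorem one_not_mem_idl_OW (c : Deg) :
    (1 : A k) ∉ idl [(fP k, dF)] {0, 2, 4, 9} c := by
  intro h
  obtain ⟨x, ⟨q, hq, rfl⟩, y, hy, hxy⟩ := Submodule.mem_sup.1 h
  have hy0 : y = 0 := hy
  subst hy0
  rw [add_zero, LinearMap.mulLeft_apply] at hxy
  have h1 := congrArg (fun p : A k => p.coeff 0) hxy
  simp only at h1
  rw [fP, Finset.sum_mul] at h1
  simp only [smul_mul_assoc] at h1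
  rw [AddMonoidAlgebra.coeff_sum, Finset.sum_apply'] at h1
  rw [Finset.sum_eq_zero] at h1
  · rw [AddMonoidAlgebra.one_def, AddMonoidAlgebra.coeff_single, Finsupp.single_eq_same] at h1
    exact zero_ne_one h1
  · intro i _
    rw [AddMonoidAlgebra.coeff_smul, Finsupp.smul_apply, K2_coeff hq _ (K2_fE i), smul_zero]

theorem one_not_mem_idl_OE (c : Deg) :
    (1 : A k) ∉ idl [(D1 k, dD), (D0 k, dD)] {0, 2, 4, 9} c := by
  intro h
  obtain ⟨x, ⟨q, hq, rfl⟩, y, hy, hxy⟩ := Submodule.mem_sup.1 h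
  obtain ⟨x', ⟨q', hq', rfl⟩, y', hy', hxy'⟩ := Submodule.mem_sup.1 hy
  have hy0 : y' = 0 := hy'
  subst hy0
  rw [add_zero, LinearMap.mulLeft_apply] at hxy'
  rw [LinearMap.mulLeft_apply, ← hxy'] at hxy
  have h1 := congrArg (fun p : A k => p.coeff 0) hxy
  simp only [D0, D1] at h1
  simp only [sub_mul, AddMonoidAlgebra.coeff_add, AddMonoidAlgebra.coeff_sub, Finsupp.add_apply, Finsupp.sub_apply] at h1
  rw [K2_coeff hq _ (K2_eD1 0), K2_coeff hq _ (K2_eD1 1), K2_coeff hq _ (K2_eD1 2),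
    K2_coeff hq' _ (K2_eD0 0), K2_coeff hq' _ (K2_eD0 1), K2_coeff hq' _ (K2_eD0 2)] at h1
  rw [AddMonoidAlgebra.one_def, AddMonoidAlgebra.coeff_single, Finsupp.single_eq_same] at h1
  simp at h1

/-- PROOF. `𝟙 ≠ 0` since the section `1` over `σ0` is not zero. -/
theorem id_OW_ne_zero (b : Deg) : 𝟙 (OWf k b) ≠ 0 := by
  exact K2_id_ne_zero b (one_not_mem_idl_OW k _)

theorem id_OE_ne_zero (b : Deg) : 𝟙 (OEf k b) ≠ 0 := by
  exact K2_id_ne_zero b (one_not_mem_idl_OE k _)

/-- A polynomial of degree `0` is constant. PROOF. `degE e = 0`, `e ≥ 0` imply `e = 0` (`degE_coord`). -/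
theorem gr_zero (q : A k) (hq : q ∈ gr k ∅ 0) : ∃ c : k, q = c • 1 := by
  refine ⟨q.coeff 0, ?_⟩
  refine AddMonoidAlgebra.ext ?_
  refine Finsupp.ext fun e => ?_
  rw [AddMonoidAlgebra.coeff_smul, Finsupp.smul_apply, AddMonoidAlgebra.one_def, AddMonoidAlgebra.coeff_single]
  by_cases he : e = 0
  · subst he
    rw [Finsupp.single_eq_same]; simp
  · rw [Finsupp.single_eq_of_ne he, smul_zero]
    by_contra h
    obtain ⟨h1, h2⟩ := hq e h
    apply he
    obtain ⟨g0, g1, g2, g3⟩ := degE_coord e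
    rw [h2] at g0 g1 g2 g3
    simp only [Pi.zero_apply] at g0 g1 g2 g3
    have k0 := h1 0 (by simp)
    have k1 := h1 1 (by simp)
    have k2 := h1 2 (by simp)
    have k3 := h1 3 (by simp)
    have k4 := h1 4 (by simp)
    have k5 := h1 5 (by simp)
    have k6 := h1 6 (by simp)
    have k7 := h1 7 (by simp)
    have k8 := h1 8 (by simp)
    have k9 := h1 9 (by simp)
    funext v
    fin_cases v
    · change e 0 = 0; omega
    · change e 1 = 0; omega
    · change e 2 = 0; omega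
    · change e 3 = 0; omega
    · change e 4 = 0; omega
    · change e 5 = 0; omega
    · change e 6 = 0; omega
    · change e 7 = 0; omega
    · change e 8 = 0; omega
    · change e 9 = 0; omega

variable {k} in
private theorem K2_proj_one (G : List (A k × Deg)) (b : Deg) (σ : Finset Vr) (hσ : Full σ) :
    ((projQ [] G (fun _ _ => bot_le) b).app (Ob.mk σ hσ (-b))).hom (oneQ [] b σ hσ) =
      oneQ G b σ hσ := by
  unfold oneQ projQ
  rw [mapQQ_mk _ _ _ _ _ _ _ _ _ _ _ (by simpa using one_mem_gr' σ b)]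
  congr 1
  ext1
  simp

variable {k} in
private theorem K2_end {G : List (A k × Deg)} (b : Deg) (h1 : 𝟙 (QQ G b) ≠ 0) (hp : PolyHom k G b b)
    (f : QQ G b ⟶ QQ G b) : ∃! c : k, f = c • 𝟙 (QQ G b) := by
  obtain ⟨q, hq, hf⟩ := hp (projQ [] G (fun _ _ => bot_le) b ≫ f)
  have hq' : q ∈ gr k ∅ 0 := by
    have h2 : b - b = (0 : Deg) := sub_self b
    rw [h2] at hq
    exact hq
  obtain ⟨c, hc⟩ := gr_zero k q hq'
  have hfc : f = c • 𝟙 (QQ G b) := by
    apply homQQ_ext
    intro σ hσ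
    have h3 := congrArg (fun g : PPf k b ⟶ QQ G b => (g.app (Ob.mk σ hσ (-b))).hom (oneQ [] b σ hσ)) hf
    have h4 : ((projQ [] G (fun _ _ => bot_le) b).app (Ob.mk σ hσ (-b))).hom (oneQ [] b σ hσ) =
        oneQ G b σ hσ := by
      unfold oneQ projQ
      rw [mapQQ_mk _ _ _ _ _ _ _ _ _ _ _ (by simpa using one_mem_gr' σ b)]
      congr 1
      ext1
      simp
    have h5 : ((mulBy [] q (b - b) hq b b (by abel)).app (Ob.mk σ hσ (-b))).hom (oneQ [] b σ hσ) =
        c • oneQ [] b σ hσ := by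
      unfold oneQ mulBy
      rw [mapQQ_mk _ _ _ _ _ _ _ _ _ _ _ (by
        rw [hc]; simpa using Submodule.smul_mem _ c (one_mem_gr' σ b))]
      change (Submodule.Quotient.mk _ : Qm k [] σ (-b + b)) = Submodule.Quotient.mk _
      congr 1
      ext1
      simp [hc]
    simp only [NatTrans.comp_app, ModuleCat.hom_comp, LinearMap.comp_apply] at h3
    rw [h4, h5, map_smul, h4] at h3
    rw [h3]
    rfl
  refine ⟨c, hfc, ?_⟩
  · intro c' hc'
    by_contra hne
    apply h1
    have hcc : c' • 𝟙 (QQ G b) = c • 𝟙 (QQ G b) := by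
      rw [← hc', hfc]
    have h6 : (c' - c) • 𝟙 (QQ G b) = 0 := by rw [sub_smul, hcc, sub_self]
    exact (smul_eq_zero.1 h6).resolve_left (sub_ne_zero.2 hne)

/-- PROOF. `projQ [] G ≫ f`, `P(b) ⟶ O_W(b)`, is polynomial (`polyHom_OW`, `Good 0`, `Good (-dF)`), of degree `0`, so it is
`c • projQ [] G`; `projQ` is an epimorphism (pointwise surjective). Unique: `id_OW_ne_zero`. -/
theorem end_OW (b : Deg) (f : OWf k b ⟶ OWf k b) : ∃! c : k, f = c • 𝟙 (OWf k b) := by
  refine K2_end b (id_OW_ne_zero k b) (polyHom_OW k b b ?_ ?_) f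
  · simp [Good]
  · refine ⟨?_, Or.inl ?_, Or.inl ?_, Or.inl ?_⟩ <;> simp only [Pi.sub_apply, K2_dF0] <;> omega

/-- PROOF. The same with `polyHom_OE` (`Good 0`, `Good (-dD)`, `Good (-2 dD)`: last coordinates `0, -1, -2`). -/
theorem end_OE (b : Deg) (f : OEf k b ⟶ OEf k b) : ∃! c : k, f = c • 𝟙 (OEf k b) := by
  refine K2_end b (id_OE_ne_zero k b) (polyHom_OE k b b ?_ ?_ ?_) f
  · simp [Good]
  · unfold Good
    simp only [Pi.sub_apply, K2_dD0, K2_dD1, K2_dD2, K2_dD3]
    omega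
  · unfold Good
    simp only [Pi.sub_apply, K2_dD0, K2_dD1, K2_dD2, K2_dD3]
    omega

/-- PROOF. There are finitely many `e ≥ 0` with `degE e = D`: `e 0, e 1 ≤ D 0`, `e 4, e 5 ≤ D 2`, `e 6, .., e 9 ≤ D 3`,
`e 2, e 3 ≤ D 1 + e 4 ≤ D 1 + D 2`; `gr ∅ D` is spanned by their monomials. -/
theorem finite_gr (D : Deg) : Module.Finite k (gr k ∅ D) := by
  have hfin : {e : Ex | (∀ v, 0 ≤ e v) ∧ degE e = D}.Finite := by
    refine (Set.finite_Icc (0 : Ex) (fun _ => |D 0| + |D 1| + |D 2| + |D 3|)).subset ?_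
    rintro e ⟨h0, h1⟩
    obtain ⟨g0, g1, g2, g3⟩ := degE_coord e
    rw [h1] at g0 g1 g2 g3
    refine ⟨h0, fun v => ?_⟩
    have a0 := le_abs_self (D 0)
    have a1 := le_abs_self (D 1)
    have a2 := le_abs_self (D 2)
    have a3 := le_abs_self (D 3)
    have b0 := abs_nonneg (D 0)
    have b1 := abs_nonneg (D 1)
    have b2 := abs_nonneg (D 2)
    have b3 := abs_nonneg (D 3)
    have k0 := h0 0
    have k1 := h0 1
    have k2 := h0 2
    have k3 := h0 3
    have k4 := h0 4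
    have k5 := h0 5
    have k6 := h0 6
    have k7 := h0 7
    have k8 := h0 8
    have k9 := h0 9
    fin_cases v
    · change e 0 ≤ _; linarith
    · change e 1 ≤ _; linarith
    · change e 2 ≤ _; linarith
    · change e 3 ≤ _; linarith
    · change e 4 ≤ _; linarith
    · change e 5 ≤ _; linarith
    · change e 6 ≤ _; linarith
    · change e 7 ≤ _; linarith
    · change e 8 ≤ _; linarith
    · change e 9 ≤ _; linarith
  have := hfin.to_subtype
  let φ : gr k ∅ D →ₗ[k] ({e : Ex | (∀ v, 0 ≤ e v) ∧ degE e = D} → k) :=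
    { toFun := fun q e => q.1.coeff e
      map_add' := fun p q => by funext e; simp
      map_smul' := fun c q => by funext e; simp }
  refine Module.Finite.of_injective φ ?_
  intro p q hpq
  apply Subtype.ext
  refine AddMonoidAlgebra.ext (Finsupp.ext fun e => ?_)
  by_cases he : (∀ v, 0 ≤ e v) ∧ degE e = D
  · exact congrFun hpq ⟨e, he⟩
  · have hz : ∀ r : gr k ∅ D, r.1.coeff e = 0 := by
      intro r
      by_contra h
      obtain ⟨h1, h2⟩ := r.2 e h
      exact he ⟨fun v => h1 v (by simp), h2⟩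
    rw [hz p, hz q]

/-- PROOF. `Hom(P(b), QQ G c)` is a quotient of `gr ∅ (c - b)` (`PolyHom`: the map `q ↦ mulBy [] q .. ≫ projQ` is linear
and surjective). -/
theorem finite_of_polyHom (G : List (A k × Deg)) (b c : Deg) (h : PolyHom k G b c) :
    Module.Finite k (PPf k b ⟶ QQ G c) := by
  have := finite_gr k (c - b)
  let φ : gr k ∅ (c - b) →ₗ[k] (PPf k b ⟶ QQ G c) :=
    { toFun := fun q => mulBy [] q.1 (c - b) q.2 b c (by abel) ≫ projQ [] G (fun _ _ => bot_le) c
      map_add' := fun p q => by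
        rw [← Preadditive.add_comp]
        congr 1
        refine NatTrans.ext (funext fun U => ModuleCat.hom_ext (LinearMap.ext fun x => ?_))
        obtain ⟨r, rfl⟩ := Submodule.Quotient.mk_surjective _ x
        change (Submodule.Quotient.mk _ : Qm k [] U.σ (U.a + c)) = Submodule.Quotient.mk _
        congr 1
        ext1
        change (p.1 + q.1) * r.1 = p.1 * r.1 + q.1 * r.1
        ring
      map_smul' := fun a q => by
        rw [RingHom.id_apply, ← Linear.smul_comp]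
        congr 1
        refine NatTrans.ext (funext fun U => ModuleCat.hom_ext (LinearMap.ext fun x => ?_))
        obtain ⟨r, rfl⟩ := Submodule.Quotient.mk_surjective _ x
        change (Submodule.Quotient.mk _ : Qm k [] U.σ (U.a + c)) = Submodule.Quotient.mk _
        congr 1
        ext1
        change (a • q.1) * r.1 = a • (q.1 * r.1)
        rw [smul_mul_assoc] }
  refine Module.Finite.of_surjective φ ?_
  intro f
  obtain ⟨q, hq, hf⟩ := h f
  exact ⟨⟨q, hq⟩, hf.symm⟩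

/-- PROOF. Composition with the epimorphism `P(b) ⟶ QQ G b` is an injective linear map. -/
theorem finite_of_PP (G : List (A k × Deg)) (b : Deg) (X : FunCat k)
    (h : Module.Finite k (PPf k b ⟶ X)) : Module.Finite k (QQ G b ⟶ X) := by
  refine Module.Finite.of_injective (Linear.leftComp k X (projQ [] G (fun _ _ => bot_le) b)) ?_
  intro f g hfg
  apply homQQ_ext
  intro σ hσ
  have h3 := congrArg (fun g : PPf k b ⟶ X => (g.app (Ob.mk σ hσ (-b))).hom (oneQ [] b σ hσ)) hfg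
  simp only [Linear.leftComp_apply, NatTrans.comp_app, ModuleCat.hom_comp, LinearMap.comp_apply] at h3
  rw [K2_proj_one] at h3
  exact h3

variable {k} in
private theorem K2_direct (b c : Deg) (h0 : (c - b) 0 = 0) (h3 : -1 ≤ (c - b) 3)
    (h2 : -1 ≤ (c - b) 2) (h1 : -1 ≤ (c - b) 1)
    (hd : ((c - b) 3 ≤ 0 ∨ 0 ≤ (c - b) 2) ∧ ((c - b) 3 ≤ 1 ∨ 1 ≤ (c - b) 2)) :
    Module.Finite k (PPf k b ⟶ OEf k c) := by
  refine finite_of_polyHom k _ b c (polyHom_OE k b c ?_ ?_ ?_)
  · unfold Good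
    omega
  · have h := K2_dD0
    unfold Good
    simp only [Pi.sub_apply, K2_dD0, K2_dD1, K2_dD2, K2_dD3] at *
    omega
  · have h := K2_dD0
    unfold Good
    simp only [Pi.sub_apply, K2_dD0, K2_dD1, K2_dD2, K2_dD3] at *
    omega

/-- The range of degrees of `extAc_OM_OEM_range`.

PROOF. In the direct cases `polyHom_OE` and `finite_of_polyHom`; in the Koszul cases (`h = 1, H = -1` or `h ≥ 2, H = 0`) the map
`f ↦ (f ≫ mulV la, f ≫ mulV mu)` into `Hom(P(b), O_E(c+la)) × Hom(P(b), O_E(c+mu))` is injective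
(`pwSES_koszul2`), and both are direct cases. -/
theorem finite_PP_OE (b c : Deg) (h0 : (c - b) 0 = 0) (h3 : -1 ≤ (c - b) 3)
    (h2 : -1 ≤ (c - b) 2) (h1 : -1 ≤ (c - b) 1) (h12 : 1 ≤ (c - b) 3 → 0 ≤ (c - b) 1)
    (h23 : 2 ≤ (c - b) 3 → 0 ≤ (c - b) 2) : Module.Finite k (PPf k b ⟶ OEf k c) := by
  by_cases hd : ((c - b) 3 ≤ 0 ∨ 0 ≤ (c - b) 2) ∧ ((c - b) 3 ≤ 1 ∨ 1 ≤ (c - b) 2)
  · exact K2_direct b c h0 h3 h2 h1 hd
  have e4 : (c + dg 4 - b) 0 = (c - b) 0 ∧ (c + dg 4 - b) 1 = (c - b) 1 - 1 ∧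
      (c + dg 4 - b) 2 = (c - b) 2 + 1 ∧ (c + dg 4 - b) 3 = (c - b) 3 := by
    simp only [Pi.sub_apply, Pi.add_apply]
    refine ⟨?_, ?_, ?_, ?_⟩
    · rw [show dg 4 0 = 0 from rfl]; ring
    · rw [show dg 4 1 = -1 from rfl]; ring
    · rw [show dg 4 2 = 1 from rfl]; ring
    · rw [show dg 4 3 = 0 from rfl]; ring
  have e5 : (c + dg 5 - b) 0 = (c - b) 0 ∧ (c + dg 5 - b) 1 = (c - b) 1 ∧
      (c + dg 5 - b) 2 = (c - b) 2 + 1 ∧ (c + dg 5 - b) 3 = (c - b) 3 := by
    simp only [Pi.sub_apply, Pi.add_apply]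
    refine ⟨?_, ?_, ?_, ?_⟩
    · rw [show dg 5 0 = 0 from rfl]; ring
    · rw [show dg 5 1 = 0 from rfl]; ring
    · rw [show dg 5 2 = 1 from rfl]; ring
    · rw [show dg 5 3 = 0 from rfl]; ring
  obtain ⟨a0, a1, a2, a3⟩ := e4
  obtain ⟨b0, b1, b2, b3⟩ := e5
  have f4 : Module.Finite k (PPf k b ⟶ OEf k (c + dg 4)) := by
    refine K2_direct b _ ?_ ?_ ?_ ?_ ?_ <;> omega
  have f5 : Module.Finite k (PPf k b ⟶ OEf k (c + dg 5)) := by
    refine K2_direct b _ ?_ ?_ ?_ ?_ ?_ <;> omega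
  let G : List (A k × Deg) := [(D1 k, dD), (D0 k, dD)]
  let φ : (PPf k b ⟶ OEf k c) →ₗ[k] (PPf k b ⟶ OEf k (c + dg 4)) × (PPf k b ⟶ OEf k (c + dg 5)) :=
    (Linear.rightComp k (PPf k b) (mulV G 4 c (c + dg 4) rfl)).prod
      (Linear.rightComp k (PPf k b) (mulV G 5 c (c + dg 5) rfl))
  refine Module.Finite.of_injective φ ?_
  intro f g hfg
  have g4 : f ≫ mulV G 4 c (c + dg 4) rfl = g ≫ mulV G 4 c (c + dg 4) rfl := congrArg Prod.fst hfg
  have g5 : f ≫ mulV G 5 c (c + dg 5) rfl = g ≫ mulV G 5 c (c + dg 5) rfl := congrArg Prod.snd hfg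
  have hex := pwSES_koszul2 G 4 5 (by decide) (by decide) c (c + dg 4) (c + dg 5)
    (c + dg 4 + dg 5) rfl rfl rfl
  refine NatTrans.ext (funext fun U => ModuleCat.hom_ext (LinearMap.ext fun x => ?_))
  apply (hex U).1
  rw [liftF_app, liftF_app]
  have i4 := congrArg (fun g : PPf k b ⟶ OEf k (c + dg 4) => (g.app U).hom x) g4
  have i5 := congrArg (fun g : PPf k b ⟶ OEf k (c + dg 5) => (g.app U).hom x) g5
  exact Prod.ext i4 i5

/-- PROOF. `polyHom_OW`, `finite_of_polyHom`. -/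
theorem finite_PP_OW (b c : Deg) (h0 : (c - b) 0 = 0) (h3 : -3 ≤ (c - b) 3)
    (h2 : 0 ≤ (c - b) 3 → -1 ≤ (c - b) 2) (h1 : 0 ≤ (c - b) 3 → 0 ≤ (c - b) 2 → -1 ≤ (c - b) 1) :
    Module.Finite k (PPf k b ⟶ OWf k c) := by
  refine finite_of_polyHom k _ b c (polyHom_OW k b c ?_ ?_)
  · unfold Good
    omega
  · simp only [Pi.sub_apply] at h0
    refine ⟨?_, Or.inl ?_, Or.inl ?_, Or.inl ?_⟩ <;> simp only [Pi.sub_apply, K2_dF0] <;> omega

end MPbd3808.BR
end

section

/-!
# TASK R1: generation in the directions of the families with two variables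
-/

open CategoryTheory CategoryTheory.Limits

namespace MPbd3808.BR

universe u
variable {k : Type u} [Field k]

/-- the class of the fibre of `F_1`, `H`, `h` -/
def eF : Deg := ![0,1,0,0]
def eH : Deg := ![0,0,1,0]
def eh : Deg := ![0,0,0,1]
def es : Deg := ![1,0,0,0]

variable {P : ObjectProperty (CohW k)} (hP : Cl23 P) (G : List (A k × Deg))
  (hG : ∀ b, isCoh k (QQ G b))

include hP hG

/-- PROOF. `pwSES_koszul2`, `Cl23.pw_right`, `Cl23.prodF`. -/
theorem koszul_up (v w : Vr) (hvw : v ≠ w) (hfam : ∀ x, fam x = fam v → x = v ∨ x = w) (b : Deg)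
    (h0 : PX P (QQ G b)) (h1 : PX P (QQ G (b + dg v))) (h2 : PX P (QQ G (b + dg w))) :
    PX P (QQ G (b + dg v + dg w)) := by
  exact hP.pw_right (pwSES_koszul2 G v w hvw hfam b (b + dg v) (b + dg w) (b + dg v + dg w)
    rfl rfl rfl) (hG _) h0 (hP.prodF h1 h2)

/-- PROOF. `Cl23.pw_left`. -/
theorem koszul_down (v w : Vr) (hvw : v ≠ w) (hfam : ∀ x, fam x = fam v → x = v ∨ x = w) (b : Deg)
    (h3 : PX P (QQ G (b + dg v + dg w))) (h1 : PX P (QQ G (b + dg v))) (h2 : PX P (QQ G (b + dg w))) :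
    PX P (QQ G b) := by
  exact hP.pw_left (pwSES_koszul2 G v w hvw hfam b (b + dg v) (b + dg w) (b + dg v + dg w)
    rfl rfl rfl) (hG _) (hP.prodF h1 h2) h3

/-- Two variables of the same degree `d` (families `s`: `v = 0, w = 1`; `u`: `v = 2, w = 3`).

PROOF. For all `n : ℤ` the pair `P(b + n d)`, `P(b + (n+1) d)`: induction in both directions (`Int.induction_on`) by
`koszul_up` and `koszul_down`. -/
theorem pair_all (v w : Vr) (hvw : v ≠ w) (hfam : ∀ x, fam x = fam v → x = v ∨ x = w) (b d : Deg)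
    (hv : dg v = d) (hw : dg w = d) (h0 : PX P (QQ G b)) (h1 : PX P (QQ G (b + d))) (n : ℤ) :
    PX P (QQ G (b + n • d)) := by
  have key : ∀ n : ℤ, PX P (QQ G (b + n • d)) ∧ PX P (QQ G (b + (n + 1) • d)) := by
    intro n
    induction n using Int.induction_on with
    | zero =>
      refine ⟨?_, ?_⟩
      · rw [zero_smul, add_zero]
        exact h0
      · rw [zero_add, one_smul]
        exact h1
    | succ m ih =>
      refine ⟨ih.2, ?_⟩
      have e1 : b + (m : ℤ) • d + d = b + ((m : ℤ) + 1) • d := by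
        rw [add_smul, one_smul, add_assoc]
      have e2 : b + (m : ℤ) • d + d + d = b + ((m : ℤ) + 1 + 1) • d := by
        rw [add_smul, add_smul, one_smul, add_assoc, add_assoc, add_assoc]
      have h := koszul_up hP G hG v w hvw hfam (b + (m : ℤ) • d) ih.1
        (by rw [hv, e1]; exact ih.2) (by rw [hw, e1]; exact ih.2)
      rw [hv, hw, e2] at h
      exact h
    | pred m ih =>
      have e1 : b + (-(m : ℤ) - 1) • d + d = b + (-(m : ℤ)) • d := by
        rw [sub_smul, one_smul, add_assoc, sub_add_cancel]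
      have e2 : b + (-(m : ℤ) - 1) • d + d + d = b + (-(m : ℤ) + 1) • d := by
        rw [e1, add_smul, one_smul, add_assoc]
      refine ⟨?_, ?_⟩
      · refine koszul_down hP G hG v w hvw hfam (b + (-(m : ℤ) - 1) • d) ?_ ?_ ?_
        · rw [hv, hw, e2]
          exact ih.2
        · rw [hv, e1]
          exact ih.1
        · rw [hw, e1]
          exact ih.1
      · rw [sub_add_cancel]
        exact ih.1
  exact (key n).1

/-- The family `la, mu` (`dg 4 = eH - eF`, `dg 5 = eH`).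

PROOF. For all `m : ℤ`: for all `n` both `P(b + m eH + n eF)` and `P(b + (m+1) eH + n eF)`. Up: `koszul_up` at
`b + m eH + (n+1) eF`: the middle degrees are `b + (m+1) eH + n eF` and `b + (m+1) eH + (n+1) eF`, the last one is
`b + (m+2) eH + n eF`. Down: `koszul_down`. -/
theorem x_all (b : Deg) (h0 : ∀ n : ℤ, PX P (QQ G (b + n • eF)))
    (h1 : ∀ n : ℤ, PX P (QQ G (b + eH + n • eF))) (m n : ℤ) :
    PX P (QQ G (b + m • eH + n • eF)) := by
  have h4 : dg 4 = eH - eF := by decide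
  have h5 : dg 5 = eH := by decide
  have hfam : ∀ x, fam x = fam 4 → x = 4 ∨ x = 5 := by decide
  have h45 : (4 : Vr) ≠ 5 := by decide
  have key : ∀ m : ℤ, (∀ n : ℤ, PX P (QQ G (b + m • eH + n • eF))) ∧
      ∀ n : ℤ, PX P (QQ G (b + (m + 1) • eH + n • eF)) := by
    intro m
    induction m using Int.induction_on with
    | zero =>
      refine ⟨fun n => ?_, fun n => ?_⟩
      · rw [zero_smul, add_zero]
        exact h0 n
      · rw [zero_add, one_smul]
        exact h1 n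
    | succ m ih =>
      refine ⟨ih.2, fun n => ?_⟩
      have e1 : b + (m : ℤ) • eH + (n + 1) • eF + (eH - eF) = b + ((m : ℤ) + 1) • eH + n • eF := by
        rw [add_smul, add_smul, one_smul, one_smul]
        abel
      have e2 : b + (m : ℤ) • eH + (n + 1) • eF + eH =
          b + ((m : ℤ) + 1) • eH + (n + 1) • eF := by
        rw [add_smul (m : ℤ), one_smul]
        abel
      have e3 : b + ((m : ℤ) + 1) • eH + n • eF + eH = b + ((m : ℤ) + 1 + 1) • eH + n • eF := by
        rw [add_smul ((m : ℤ) + 1) 1, one_smul]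
        abel
      have h := koszul_up hP G hG 4 5 h45 hfam (b + (m : ℤ) • eH + (n + 1) • eF) (ih.1 (n + 1))
        (by rw [h4, e1]; exact ih.2 n) (by rw [h5, e2]; exact ih.2 (n + 1))
      rw [h4, h5, e1, e3] at h
      exact h
    | pred m ih =>
      refine ⟨fun n => ?_, fun n => ?_⟩
      · have e1 : b + (-(m : ℤ) - 1) • eH + n • eF + (eH - eF) =
            b + (-(m : ℤ)) • eH + (n - 1) • eF := by
          rw [sub_smul, sub_smul, one_smul, one_smul]
          abel
        have e2 : b + (-(m : ℤ) - 1) • eH + n • eF + eH = b + (-(m : ℤ)) • eH + n • eF := by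
          rw [sub_smul, one_smul]
          abel
        have e3 : b + (-(m : ℤ)) • eH + (n - 1) • eF + eH =
            b + (-(m : ℤ) + 1) • eH + (n - 1) • eF := by
          rw [add_smul (-(m : ℤ)) 1, one_smul]
          abel
        refine koszul_down hP G hG 4 5 h45 hfam (b + (-(m : ℤ) - 1) • eH + n • eF) ?_ ?_ ?_
        · rw [h4, h5, e1, e3]
          exact ih.2 (n - 1)
        · rw [h4, e1]
          exact ih.1 (n - 1)
        · rw [h5, e2]
          exact ih.1 n
      · rw [sub_add_cancel]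
        exact ih.1 n
  exact (key m).1 n

end MPbd3808.BR
end

section

/-!
# TASK R2: generation in the direction of `P^3`, for `O_W`
-/

open CategoryTheory CategoryTheory.Limits

namespace MPbd3808.BR

universe u
variable {k : Type u} [Field k]

/-- `f, z0`; `f, z0, z1`; `f, z0, z1, z2` -/
noncomputable def G1 (k : Type u) [Field k] : List (A k × Deg) := [(mon (Pi.single 6 1), dg 6), (fP k, dF)]
noncomputable def G2 (k : Type u) [Field k] : List (A k × Deg) := (mon (Pi.single 7 1), dg 7) :: G1 k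
noncomputable def G3 (k : Type u) [Field k] : List (A k × Deg) := (mon (Pi.single 8 1), dg 8) :: G2 k

private theorem R2_mem (G : List (A k × Deg)) {g : A k} {d : Deg} (h : (g, d) ∈ G)
    (σ : Finset Vr) (c : Deg) (q : A k) (hq : q ∈ gr k σ c) : g * q ∈ idl G σ (c + d) := by
  induction G with
  | nil => exact absurd h (by simp)
  | cons g' G ih =>
    rcases List.mem_cons.1 h with h | h
    · subst h
      refine Submodule.mem_sup_left ⟨q, ?_, rfl⟩
      rw [add_sub_cancel_right]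
      exact hq
    · exact Submodule.mem_sup_right (ih h)

private theorem R2_coh (G : List (A k × Deg)) (h : (fP k, dF) ∈ G) (b : Deg) :
    isCoh k (QQ G b) :=
  ⟨⟨isFZero_QQ G (fun σ c q hq => R2_mem G h σ c q hq) b, (isLoc_QQ G b).1, (isLoc_QQ G b).2⟩,
    isFG_QQ G b⟩

/-- PROOF. `isLoc_QQ`, `isFG_QQ`, `isFZero_QQ` (`f` is in the list). -/
theorem isCoh_G1 (b : Deg) : isCoh k (QQ (G1 k) b) :=
  R2_coh _ (by simp [G1]) b
theorem isCoh_G2 (b : Deg) : isCoh k (QQ (G2 k) b) :=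
  R2_coh _ (by simp [G1, G2]) b
theorem isCoh_G3 (b : Deg) : isCoh k (QQ (G3 k) b) :=
  R2_coh _ (by simp [G1, G2, G3]) b

private theorem R2_top (G : List (A k × Deg)) (v : Vr) (h : (mon (Pi.single v 1), dg v) ∈ G)
    (σ : Finset Vr) (hv : v ∈ σ) (c : Deg) (q : A k) (hq : q ∈ gr k σ c) : q ∈ idl G σ c := by
  have h1 : (mon (-Pi.single v 1) : A k) * q ∈ gr k σ (c - dg v) :=
    mon_mul_mem_gr k (Finset.Subset.refl σ) hq _ (fun w hw => by
      have : w ≠ v := fun h' => hw (h' ▸ hv)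
      simp [this]) (by rw [degE_neg, degE_single]; abel)
  have h2 := R2_mem G h σ _ _ h1
  rw [sub_add_cancel, ← mul_assoc, AddMonoidAlgebra.single_mul_single, add_neg_cancel, one_mul,
    ← AddMonoidAlgebra.one_def, one_mul] at h2
  exact h2

/-- `z3` is invertible on `{f = z0 = z1 = z2 = 0}`.

PROOF. Multiplication by `z3` (`mulBy`, `mon_single_mem 9`) is pointwise bijective: on a chart containing one of
`z0, z1, z2` the sections vanish (a unit lies in the ideal), otherwise `z3 ∈ σ` is a unit. (`NatIso` from a pointwise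
bijective morphism: `NatTrans.isIso_iff_isIso_app`.) -/
theorem G3_iso (b : Deg) : Nonempty (QQ (G3 k) b ≅ QQ (G3 k) (b + eh)) := by
  have hb : b + eh = b + dg 9 := by
    congr 1
  let F : QQ (G3 k) b ⟶ QQ (G3 k) (b + eh) :=
    mulBy (G3 k) (mon (Pi.single 9 1)) (dg 9) (mon_single_mem 9) b (b + eh) hb
  have hF : ∀ (U : Ob) (q : gr k U.σ (U.a + b))
      (hq : (mon (Pi.single 9 1) : A k) * q.1 ∈ gr k U.σ (U.a + (b + eh))),
      (F.app U).hom (Submodule.Quotient.mk q : Qm k (G3 k) U.σ (U.a + b)) =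
      (Submodule.Quotient.mk ⟨mon (Pi.single 9 1) * q.1, hq⟩ :
        Qm k (G3 k) U.σ (U.a + (b + eh))) := fun U q hq => rfl
  have hmem : ∀ (U : Ob) (q : gr k U.σ (U.a + b)),
      (mon (Pi.single 9 1) : A k) * q.1 ∈ gr k U.σ (U.a + (b + eh)) := fun U q =>
    mon_mul_mem_gr k (Finset.Subset.refl U.σ) q.2 _ (fun w _ => by
      rcases eq_or_ne w 9 with h | h <;> simp [h])
      (by rw [degE_single, hb]; abel)
  have key : ∀ U : Ob, Function.Bijective (F.app U).hom := by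
    intro U
    by_cases hU : (6 : Vr) ∈ U.σ ∨ (7 : Vr) ∈ U.σ ∨ (8 : Vr) ∈ U.σ
    · have hall : ∀ (c : Deg) (q : A k), q ∈ gr k U.σ c → q ∈ idl (G3 k) U.σ c := by
        intro c q hq
        rcases hU with h | h | h
        · exact R2_top _ 6 (by simp [G1, G2, G3]) U.σ h c q hq
        · exact R2_top _ 7 (by simp [G1, G2, G3]) U.σ h c q hq
        · exact R2_top _ 8 (by simp [G1, G2, G3]) U.σ h c q hq
      have hs : ∀ c : Deg, Subsingleton (Qm k (G3 k) U.σ c) := by
        intro c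
        refine ⟨fun x y => ?_⟩
        obtain ⟨p, rfl⟩ := Submodule.Quotient.mk_surjective _ x
        obtain ⟨q, rfl⟩ := Submodule.Quotient.mk_surjective _ y
        rw [Submodule.Quotient.eq]
        exact hall c _ (p - q).2
      refine ⟨fun x y _ => (hs (U.a + b)).elim x y, fun y => ⟨0, (hs (U.a + (b + eh))).elim _ y⟩⟩
    · push Not at hU
      have h9 : (9 : Vr) ∈ U.σ := by
        obtain ⟨v, hv, hf⟩ := U.full 3
        have : v = 6 ∨ v = 7 ∨ v = 8 ∨ v = 9 := by
          revert hf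
          clear hv
          revert v
          decide
        rcases this with rfl | rfl | rfl | rfl
        · exact absurd hv hU.1
        · exact absurd hv hU.2.1
        · exact absurd hv hU.2.2
        · exact hv
      have hreg : Reg U.σ (-Pi.single 9 1) := by
        intro w hw
        have : w ≠ 9 := fun h' => hw (h' ▸ h9)
        simp [this]
      have hcancel : ∀ q : A k, (mon (-Pi.single 9 1) : A k) * (mon (Pi.single 9 1) * q) = q := by
        intro q
        rw [← mul_assoc, AddMonoidAlgebra.single_mul_single, neg_add_cancel, one_mul,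
          ← AddMonoidAlgebra.one_def, one_mul]
      have hcancel' : ∀ q : A k, (mon (Pi.single 9 1) : A k) * (mon (-Pi.single 9 1) * q) = q := by
        intro q
        rw [← mul_assoc, AddMonoidAlgebra.single_mul_single, add_neg_cancel, one_mul,
          ← AddMonoidAlgebra.one_def, one_mul]
      constructor
      · rw [injective_iff_map_eq_zero]
        intro x hx
        obtain ⟨q, rfl⟩ := Submodule.Quotient.mk_surjective _ x
        have h1 := (hF U q (hmem U q)).symm.trans hx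
        have h2 := (Submodule.Quotient.mk_eq_zero _).1 h1
        have h3 := mon_mul_mem_idl k (G3 k) (Finset.Subset.refl U.σ) (d := U.a + b)
          (show (mon (Pi.single 9 1) : A k) * q.1 ∈ idl (G3 k) U.σ (U.a + (b + eh)) from h2)
          (-Pi.single 9 1) hreg (by rw [degE_neg, degE_single, hb]; abel)
        rw [hcancel] at h3
        exact (Submodule.Quotient.mk_eq_zero _).2 h3
      · intro y
        obtain ⟨q, rfl⟩ := Submodule.Quotient.mk_surjective _ y
        have h1 : (mon (-Pi.single 9 1) : A k) * q.1 ∈ gr k U.σ (U.a + b) :=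
          mon_mul_mem_gr k (Finset.Subset.refl U.σ) q.2 _ hreg
            (by rw [degE_neg, degE_single]; rw [hb]; abel)
        refine ⟨Submodule.Quotient.mk ⟨_, h1⟩, (hF U ⟨_, h1⟩ (hmem U _)).trans ?_⟩
        congr 1
        ext1
        exact hcancel' _
  have hiso : ∀ U, IsIso (F.app U) := fun U => (ConcreteCategory.isIso_iff_bijective _).2 (key U)
  have : IsIso F := NatIso.isIso_of_isIso_app F
  exact ⟨asIso F⟩

variable {P : ObjectProperty (CohW k)} (hP : Cl23 P)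

include hP

/-- PROOF. The exact sequences (`pwSES_QQ`) `0 → QQ Gi (b) → QQ Gi (b + eh) → QQ G(i+1) (b + eh) → 0`, `G0 = [(fP k, dF)]`
(`regMod_var` with `at0_fP`, `regMod_z1`, `regMod_z2`). From `P(O(b + j eh))`, `j = 0,1,2,3`, get `P(QQ G1 (b + j eh))`,
`j = 1,2,3`, `P(QQ G2 (b + j eh))`, `j = 2,3`, `P(QQ G3 (b + 3 eh))`. Then `P(QQ G3 (b + n eh))` for all `n : ℤ` (`G3_iso`), then
`P(QQ G2 (b + n eh))` for all `n` (induction up and down from `n = 2`), then `G1`, then `O`. -/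
theorem z_all (b : Deg) (h : ∀ j : Fin 4, PX P (OWf k (b + (j.1 : ℤ) • eh))) (n : ℤ) :
    PX P (OWf k (b + n • eh)) := by
  have hr1 : ∀ σ, Full σ → RegMod [(fP k, dF)] σ (mon (Pi.single 6 1)) (dg 6) :=
    fun σ _ => regMod_var σ 6 fP_mem (at0_fP 6)
  have hr2 : ∀ σ, Full σ → RegMod (G1 k) σ (mon (Pi.single 7 1)) (dg 7) := fun σ _ => regMod_z1 σ
  have hr3 : ∀ σ, Full σ → RegMod (G2 k) σ (mon (Pi.single 8 1)) (dg 8) := fun σ _ => regMod_z2 σ
  have e6 : dg 6 = eh := rfl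
  have e7 : dg 7 = eh := rfl
  have e8 : dg 8 = eh := rfl
  have h0 : ∀ j : ℕ, j < 4 → PX P (OWf k (b + (j : ℤ) • eh)) := fun j hj => h ⟨j, hj⟩
  have hs : ∀ n : ℤ, b + (n + 1) • eh = b + n • eh + eh := fun n => by
    rw [add_smul, one_smul, add_assoc]
  have hsN : ∀ n : ℕ, b + ((n + 1 : ℕ) : ℤ) • eh = b + (n : ℤ) • eh + eh := fun n => by
    rw [Nat.cast_succ]; exact hs n
  -- upwards in the list
  have h1 : ∀ j : ℕ, j + 1 < 4 → PX P (QQ (G1 k) (b + ((j + 1 : ℕ) : ℤ) • eh)) := fun j hj =>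
    hP.pw_right (pwSES_QQ [(fP k, dF)] _ (dg 6) (mon_single_mem 6) hr1 _ _ (by rw [e6]; exact hsN j))
      (isCoh_G1 _) (h0 j (by omega)) (h0 (j + 1) hj)
  have h2 : ∀ j : ℕ, j + 2 < 4 → PX P (QQ (G2 k) (b + ((j + 1 + 1 : ℕ) : ℤ) • eh)) := fun j hj =>
    hP.pw_right (pwSES_QQ (G1 k) _ (dg 7) (mon_single_mem 7) hr2 _ _
      (by rw [e7]; exact hsN (j + 1))) (isCoh_G2 _) (h1 j (by omega)) (h1 (j + 1) (by omega))
  have h3 : PX P (QQ (G3 k) (b + ((3 : ℕ) : ℤ) • eh)) :=
    hP.pw_right (pwSES_QQ (G2 k) _ (dg 8) (mon_single_mem 8) hr3 _ _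
      (by rw [e8]; exact hsN 2)) (isCoh_G3 _) (h2 0 (by omega)) (h2 1 (by omega))
  -- all twists
  have a3 : ∀ n : ℤ, PX P (QQ (G3 k) (b + n • eh)) := by
    intro n
    induction n using Int.inductionOn' (b := ((3 : ℕ) : ℤ)) with
    | zero => exact h3
    | succ n _ ih =>
      obtain ⟨i⟩ := G3_iso (k := k) (b + n • eh)
      rw [hs]
      exact hP.pw_iso i ih
    | pred n _ ih =>
      obtain ⟨i⟩ := G3_iso (k := k) (b + (n - 1) • eh)
      rw [← hs, sub_add_cancel] at i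
      exact hP.pw_iso i.symm ih
  have a2 : ∀ n : ℤ, PX P (QQ (G2 k) (b + n • eh)) := by
    intro n
    induction n using Int.inductionOn' (b := ((2 : ℕ) : ℤ)) with
    | zero => exact h2 0 (by omega)
    | succ n _ ih =>
      exact hP.pw_mid (pwSES_QQ (G2 k) _ (dg 8) (mon_single_mem 8) hr3 _ _
        (by rw [e8]; exact hs n)) (isCoh_G2 _) ih (a3 (n + 1))
    | pred n _ ih =>
      exact hP.pw_left (pwSES_QQ (G2 k) _ (dg 8) (mon_single_mem 8) hr3 (b + (n - 1) • eh)
        (b + n • eh) (by rw [e8, ← hs, sub_add_cancel])) (isCoh_G2 _) ih (a3 n)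
  have a1 : ∀ n : ℤ, PX P (QQ (G1 k) (b + n • eh)) := by
    intro n
    induction n using Int.inductionOn' (b := ((1 : ℕ) : ℤ)) with
    | zero => exact h1 0 (by omega)
    | succ n _ ih =>
      exact hP.pw_mid (pwSES_QQ (G1 k) _ (dg 7) (mon_single_mem 7) hr2 _ _
        (by rw [e7]; exact hs n)) (isCoh_G1 _) ih (a2 (n + 1))
    | pred n _ ih =>
      exact hP.pw_left (pwSES_QQ (G1 k) _ (dg 7) (mon_single_mem 7) hr2 (b + (n - 1) • eh)
        (b + n • eh) (by rw [e7, ← hs, sub_add_cancel])) (isCoh_G1 _) ih (a2 n)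
  induction n using Int.inductionOn' (b := ((0 : ℕ) : ℤ)) with
  | zero => exact h0 0 (by omega)
  | succ n _ ih =>
    exact hP.pw_mid (pwSES_QQ [(fP k, dF)] _ (dg 6) (mon_single_mem 6) hr1 _ _
      (by rw [e6]; exact hs n)) (isCoh_OW _) ih (a1 (n + 1))
  | pred n _ ih =>
    exact hP.pw_left (pwSES_QQ [(fP k, dF)] _ (dg 6) (mon_single_mem 6) hr1 (b + (n - 1) • eh)
      (b + n • eh) (by rw [e6, ← hs, sub_add_cancel])) (isCoh_OW _) ih (a1 n)

end MPbd3808.BR
end

section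

/-!
# TASK R3: the exact sequences on the exceptional divisor, 1

On `E`: `r z = 0` for the matrix `r` with rows `r0 = (v0,-v1,-v2,0)`, `r1 = (0,-v0,-v1,v2)`, `v0 = la u0`, `v1 = mu`,
`v2 = la u1`, `D1 = r0 . z`, `D0 = r1 . z`. The minors `p_ij` of `r` generate the unit ideal on every chart.
-/

open CategoryTheory CategoryTheory.Limits

namespace MPbd3808.BR

universe u
variable (k : Type u) [Field k]

/-- `v0 = la u0`, `v1 = mu`, `v2 = la u1` -/
noncomputable def vE : Fin 3 → A k :=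
  ![mon (Pi.single 4 1 + Pi.single 2 1), mon (Pi.single 5 1), mon (Pi.single 4 1 + Pi.single 3 1)]

/-- the variables `z_j` -/
noncomputable def zz (j : Fin 4) : A k := ![mon (Pi.single 6 1), mon (Pi.single 7 1), mon (Pi.single 8 1), mon (Pi.single 9 1)] j

/-- the matrix `r` -/
noncomputable def rr : Fin 2 → Fin 4 → A k :=
  ![![vE k 0, -vE k 1, -vE k 2, 0], ![0, -vE k 0, -vE k 1, vE k 2]]

/-- the minors -/
noncomputable def pp (i j : Fin 4) : A k := rr k 0 i * rr k 1 j - rr k 0 j * rr k 1 i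

private theorem R3_mon {σ : Finset Vr} {c : Deg} {e : Ex} (h1 : Reg σ e) (h2 : degE e = c) :
    (mon e : A k) ∈ gr k σ c := by
  intro e' he
  have h0 : e = e' := by
    rw [mon, AddMonoidAlgebra.coeff_single, Finsupp.single_apply] at he
    by_contra h
    rw [if_neg h] at he
    exact he rfl
  subst h0
  exact ⟨h1, h2⟩

private theorem R3_mm (e e' : Ex) : (mon e : A k) * mon e' = mon (e + e') := by
  rw [mon, mon, AddMonoidAlgebra.single_mul_single, one_mul]

private theorem R3_one {e : Ex} (h : e = 0) : (mon e : A k) = 1 := by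
  subst h; rfl

private theorem R3_reg {e : Ex} (h : ∀ v, 0 ≤ e v) (σ : Finset Vr) : Reg σ e := fun v _ => h v

private theorem R3_degS (v : Vr) (n : ℤ) : degE (Pi.single v n) = n • dg v := by
  rw [degE, Finset.sum_eq_single v]
  · rw [Pi.single_eq_same]
  · intro w _ hw
    rw [Pi.single_eq_of_ne hw, zero_smul]
  · intro h
    exact absurd (Finset.mem_univ v) h

private theorem R3_vv (i : Fin 3) : vE k i ∈ gr k ∅ eH := by
  fin_cases i
  · exact R3_mon k (R3_reg (by decide) ∅) (by rw [degE_add, R3_degS, R3_degS]; decide)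
  · exact R3_mon k (R3_reg (by decide) ∅) (by rw [R3_degS]; decide)
  · exact R3_mon k (R3_reg (by decide) ∅) (by rw [degE_add, R3_degS, R3_degS]; decide)

theorem zz_mem (j : Fin 4) : zz k j ∈ gr k ∅ eh := by
  fin_cases j
  · exact R3_mon k (R3_reg (by decide) ∅) (by rw [R3_degS]; decide)
  · exact R3_mon k (R3_reg (by decide) ∅) (by rw [R3_degS]; decide)
  · exact R3_mon k (R3_reg (by decide) ∅) (by rw [R3_degS]; decide)
  · exact R3_mon k (R3_reg (by decide) ∅) (by rw [R3_degS]; decide)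

theorem rr_mem (a : Fin 2) (j : Fin 4) : rr k a j ∈ gr k ∅ eH := by
  fin_cases a <;> fin_cases j
  exacts [R3_vv k 0, neg_mem (R3_vv k 1), neg_mem (R3_vv k 2), zero_mem _,
    zero_mem _, neg_mem (R3_vv k 0), neg_mem (R3_vv k 1), R3_vv k 2]

theorem pp_mem (i j : Fin 4) : pp k i j ∈ gr k ∅ (eH + eH) := by
  exact sub_mem (mul_mem_gr (rr_mem k 0 i) (rr_mem k 1 j))
    (mul_mem_gr (rr_mem k 0 j) (rr_mem k 1 i))

theorem rr0_zz : ∑ j, rr k 0 j * zz k j = D1 k := by
  rw [Fin.sum_univ_four]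
  change mon (Pi.single 4 1 + Pi.single 2 1) * mon (Pi.single 6 1) +
    -mon (Pi.single 5 1) * mon (Pi.single 7 1) +
    -mon (Pi.single 4 1 + Pi.single 3 1) * mon (Pi.single 8 1) + 0 * mon (Pi.single 9 1) =
    mon (eD1 0) - mon (eD1 1) - mon (eD1 2)
  have e0 : (Pi.single 4 1 + Pi.single 2 1 + Pi.single 6 1 : Ex) = eD1 0 := by decide
  have e1 : (Pi.single 5 1 + Pi.single 7 1 : Ex) = eD1 1 := by decide
  have e2 : (Pi.single 4 1 + Pi.single 3 1 + Pi.single 8 1 : Ex) = eD1 2 := by decide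
  rw [neg_mul, neg_mul, R3_mm, R3_mm, R3_mm, e0, e1, e2]
  ring

theorem rr1_zz : ∑ j, rr k 1 j * zz k j = D0 k := by
  rw [Fin.sum_univ_four]
  change 0 * mon (Pi.single 6 1) + -mon (Pi.single 4 1 + Pi.single 2 1) * mon (Pi.single 7 1) +
    -mon (Pi.single 5 1) * mon (Pi.single 8 1) +
    mon (Pi.single 4 1 + Pi.single 3 1) * mon (Pi.single 9 1) =
    mon (eD0 0) - mon (eD0 1) - mon (eD0 2)
  have e0 : (Pi.single 4 1 + Pi.single 3 1 + Pi.single 9 1 : Ex) = eD0 0 := by decide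
  have e1 : (Pi.single 4 1 + Pi.single 2 1 + Pi.single 7 1 : Ex) = eD0 1 := by decide
  have e2 : (Pi.single 5 1 + Pi.single 8 1 : Ex) = eD0 2 := by decide
  rw [neg_mul, neg_mul, R3_mm, R3_mm, R3_mm, e0, e1, e2]
  ring

/-- On every chart `1 = c01 p01 + c12 p12 + c23 p23`.

PROOF. `p01 = -v0^2`, `p12 = v1^2 - v0 v2`, `p23 = -v2^2`. If `la, u0 ∈ σ` (indices 4, 2): `c01 = -v0^(-2)`. If
`la, u1 ∈ σ`: `c23 = -v2^(-2)`. Otherwise `mu ∈ σ` (a full chart contains `la` or `mu`, and `u0` or `u1`):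
`v1^4 = p12 (v1^2 + v0 v2) + p01 p23`, so `c12 = v1^(-4) (v1^2 + v0 v2)`, `c01 = v1^(-4) p23`. -/
theorem exists_unimodular {σ : Finset Vr} (hσ : Full σ) :
    ∃ c01 ∈ gr k σ (-(eH + eH)), ∃ c12 ∈ gr k σ (-(eH + eH)), ∃ c23 ∈ gr k σ (-(eH + eH)),
      (1 : A k) = c01 * pp k 0 1 + c12 * pp k 1 2 + c23 * pp k 2 3 := by
  have p01 : pp k 0 1 = -(vE k 0 * vE k 0) := by
    change vE k 0 * -vE k 0 - -vE k 1 * 0 = _
    ring
  have p12 : pp k 1 2 = vE k 1 * vE k 1 - vE k 0 * vE k 2 := by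
    change -vE k 1 * -vE k 1 - -vE k 2 * -vE k 0 = _
    ring
  have p23 : pp k 2 3 = -(vE k 2 * vE k 2) := by
    change -vE k 2 * vE k 2 - 0 * -vE k 1 = _
    ring
  have hm : ∀ i, vE k i ∈ gr k σ eH := fun i =>
    gr_mono (Finset.empty_subset σ) _ (R3_vv k i)
  obtain ⟨v, hv, hv1⟩ := hσ 2
  obtain ⟨w, hw, hw1⟩ := hσ 1
  by_cases h5 : (5 : Vr) ∈ σ
  · have hu : mon (Pi.single 5 (-4) : Ex) * (vE k 1 * vE k 1 * (vE k 1 * vE k 1)) = 1 := by
      change mon (Pi.single 5 (-4)) * (mon (Pi.single 5 1) * mon (Pi.single 5 1) *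
        (mon (Pi.single 5 1) * mon (Pi.single 5 1))) = 1
      rw [R3_mm, R3_mm, R3_mm]
      exact R3_one k (by decide)
    have hue : (mon (Pi.single 5 (-4) : Ex) : A k) ∈ gr k σ (-(eH + eH) - (eH + eH)) := by
      refine R3_mon k ?_ (by rw [R3_degS]; decide)
      intro x hx
      have hne : x ≠ 5 := fun h => hx (h ▸ h5)
      rw [Pi.single_eq_of_ne hne]
    have hd : -(eH + eH) - (eH + eH) + (eH + eH) = -(eH + eH) := by abel
    refine ⟨mon (Pi.single 5 (-4)) * pp k 2 3, ?_, mon (Pi.single 5 (-4)) *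
      (vE k 1 * vE k 1 + vE k 0 * vE k 2), ?_, 0, zero_mem _, ?_⟩
    · rw [← hd]
      exact mul_mem_gr hue (gr_mono (Finset.empty_subset σ) _ (pp_mem k 2 3))
    · rw [← hd]
      exact mul_mem_gr hue (add_mem (mul_mem_gr (hm 1) (hm 1)) (mul_mem_gr (hm 0) (hm 2)))
    · rw [← hu, p01, p12, p23]
      ring
  · have h4 : (4 : Vr) ∈ σ := by
      have : v = 4 ∨ v = 5 := by
        revert hv1; clear hv; revert v; decide
      rcases this with rfl | rfl
      · exact hv
      · exact absurd hv h5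
    have hw2 : w = 2 ∨ w = 3 := by
      revert hw1; clear hw; revert w; decide
    rcases hw2 with rfl | rfl
    · refine ⟨-mon (Pi.single 4 (-2) + Pi.single 2 (-2)), neg_mem (R3_mon k ?_
        (by rw [degE_add, R3_degS, R3_degS]; decide)), 0, zero_mem _, 0, zero_mem _, ?_⟩
      · intro x hx
        have hne : x ≠ 4 := fun h => hx (h ▸ h4)
        have hne2 : x ≠ 2 := fun h => hx (h ▸ hw)
        rw [Pi.add_apply, Pi.single_eq_of_ne hne, Pi.single_eq_of_ne hne2]
        rfl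
      · rw [p01, zero_mul, zero_mul, add_zero, add_zero, neg_mul_neg]
        change 1 = mon (Pi.single 4 (-2) + Pi.single 2 (-2)) *
          (mon (Pi.single 4 1 + Pi.single 2 1) * mon (Pi.single 4 1 + Pi.single 2 1))
        rw [R3_mm, R3_mm]
        exact (R3_one k (by decide)).symm
    · refine ⟨0, zero_mem _, 0, zero_mem _, -mon (Pi.single 4 (-2) + Pi.single 3 (-2)),
        neg_mem (R3_mon k ?_ (by rw [degE_add, R3_degS, R3_degS]; decide)), ?_⟩
      · intro x hx
        have hne : x ≠ 4 := fun h => hx (h ▸ h4)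
        have hne2 : x ≠ 3 := fun h => hx (h ▸ hw)
        rw [Pi.add_apply, Pi.single_eq_of_ne hne, Pi.single_eq_of_ne hne2]
        rfl
      · rw [p23, zero_mul, zero_mul, zero_add, zero_add, neg_mul_neg]
        change 1 = mon (Pi.single 4 (-2) + Pi.single 3 (-2)) *
          (mon (Pi.single 4 1 + Pi.single 3 1) * mon (Pi.single 4 1 + Pi.single 3 1))
        rw [R3_mm, R3_mm]
        exact (R3_one k (by decide)).symm

/-- One of the `z_j` is a unit. PROOF. `Full σ` for the family 3. -/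
theorem exists_z_unit {σ : Finset Vr} (hσ : Full σ) :
    ∃ (j : Fin 4), ∃ y ∈ gr k σ (-eh), y * zz k j = 1 := by
  have key : ∀ v : Vr, v ∈ σ → dg v = eh →
      (mon (Pi.single v (-1) : Ex) : A k) ∈ gr k σ (-eh) ∧
      (mon (Pi.single v (-1) : Ex) : A k) * mon (Pi.single v 1) = 1 := by
    intro v hv hd
    constructor
    · refine R3_mon k ?_ (by rw [R3_degS, hd, neg_one_smul])
      intro x hx
      have hne : x ≠ v := fun h => hx (h ▸ hv)
      rw [Pi.single_eq_of_ne hne]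
    · rw [R3_mm]
      refine R3_one k ?_
      rw [← Pi.single_add, neg_add_cancel, Pi.single_zero]
  obtain ⟨v, hv, hv1⟩ := hσ 3
  have h4 : v = 6 ∨ v = 7 ∨ v = 8 ∨ v = 9 := by
    revert hv1; clear hv; revert v; decide
  rcases h4 with rfl | rfl | rfl | rfl
  · exact ⟨0, _, (key 6 hv (by decide)).1, (key 6 hv (by decide)).2⟩
  · exact ⟨1, _, (key 7 hv (by decide)).1, (key 7 hv (by decide)).2⟩
  · exact ⟨2, _, (key 8 hv (by decide)).1, (key 8 hv (by decide)).2⟩
  · exact ⟨3, _, (key 9 hv (by decide)).1, (key 9 hv (by decide)).2⟩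

/-- the matrix of the cross product with `r0, r1`: `∑ l, nc i l * y l = (-1)^i det (r0, r1, y without column i)` -/
noncomputable def nc : Fin 4 → Fin 4 → A k :=
  ![![0, pp k 2 3, -pp k 1 3, pp k 1 2], ![-pp k 2 3, 0, pp k 0 3, -pp k 0 2],
    ![pp k 1 3, -pp k 0 3, 0, pp k 0 1], ![-pp k 1 2, pp k 0 2, -pp k 0 1, 0]]

theorem nc_mem (i j : Fin 4) : nc k i j ∈ gr k ∅ (eH + eH) := by
  fin_cases i <;> fin_cases j
  exacts [zero_mem _, pp_mem k 2 3, neg_mem (pp_mem k 1 3), pp_mem k 1 2,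
    neg_mem (pp_mem k 2 3), zero_mem _, pp_mem k 0 3, neg_mem (pp_mem k 0 2),
    pp_mem k 1 3, neg_mem (pp_mem k 0 3), zero_mem _, pp_mem k 0 1,
    neg_mem (pp_mem k 1 2), pp_mem k 0 2, neg_mem (pp_mem k 0 1), zero_mem _]

/-- `n_i z_j - n_j z_i = ± ((r1 ∧ y)_kl (r0 . z) - (r0 ∧ y)_kl (r1 . z) + p_kl (y . z))`, `{k,l}` the complement of
`{i,j}` (for example `(i,j) = (0,1)`, `(k,l) = (2,3)`, sign `+`); `ε = 0` for `i = j`.

PROOF. 16 cases (`fin_cases i; fin_cases j`), `simp [Fin.sum_univ_four]`, `ring`. The statement is over any commutative ring. -/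
theorem cross_identity {R : Type*} [CommRing R] (r0 r1 y z : Fin 4 → R) (i j : Fin 4) :
    ∃ (k l : Fin 4) (ε : R), (ε = 0 ∨ ε = 1 ∨ ε = -1) ∧
    (let p := fun i j : Fin 4 => r0 i * r1 j - r0 j * r1 i
     let N : Fin 4 → Fin 4 → R := ![![0, p 2 3, -p 1 3, p 1 2], ![-p 2 3, 0, p 0 3, -p 0 2],
        ![p 1 3, -p 0 3, 0, p 0 1], ![-p 1 2, p 0 2, -p 0 1, 0]]
     (∑ l, N i l * y l) * z j - (∑ l, N j l * y l) * z i =
      ε * ((r1 k * y l - r1 l * y k) * (∑ m, r0 m * z m) -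
        (r0 k * y l - r0 l * y k) * (∑ m, r1 m * z m) + p k l * (∑ m, y m * z m))) := by
  fin_cases i <;> fin_cases j
  · refine ⟨0, 0, 0, Or.inl rfl, ?_⟩
    simp only [Fin.sum_univ_four]
    simp
    try ring
  · refine ⟨2, 3, 1, Or.inr (Or.inl rfl), ?_⟩
    simp only [Fin.sum_univ_four]
    simp
    try ring
  · refine ⟨1, 3, -1, Or.inr (Or.inr rfl), ?_⟩
    simp only [Fin.sum_univ_four]
    simp
    try ring
  · refine ⟨1, 2, 1, Or.inr (Or.inl rfl), ?_⟩
    simp only [Fin.sum_univ_four]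
    simp
    try ring
  · refine ⟨2, 3, -1, Or.inr (Or.inr rfl), ?_⟩
    simp only [Fin.sum_univ_four]
    simp
    try ring
  · refine ⟨0, 0, 0, Or.inl rfl, ?_⟩
    simp only [Fin.sum_univ_four]
    simp
    try ring
  · refine ⟨0, 3, 1, Or.inr (Or.inl rfl), ?_⟩
    simp only [Fin.sum_univ_four]
    simp
    try ring
  · refine ⟨0, 2, -1, Or.inr (Or.inr rfl), ?_⟩
    simp only [Fin.sum_univ_four]
    simp
    try ring
  · refine ⟨1, 3, 1, Or.inr (Or.inl rfl), ?_⟩
    simp only [Fin.sum_univ_four]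
    simp
    try ring
  · refine ⟨0, 3, -1, Or.inr (Or.inr rfl), ?_⟩
    simp only [Fin.sum_univ_four]
    simp
    try ring
  · refine ⟨0, 0, 0, Or.inl rfl, ?_⟩
    simp only [Fin.sum_univ_four]
    simp
    try ring
  · refine ⟨0, 1, 1, Or.inr (Or.inl rfl), ?_⟩
    simp only [Fin.sum_univ_four]
    simp
    try ring
  · refine ⟨1, 2, -1, Or.inr (Or.inr rfl), ?_⟩
    simp only [Fin.sum_univ_four]
    simp
    try ring
  · refine ⟨0, 2, 1, Or.inr (Or.inl rfl), ?_⟩
    simp only [Fin.sum_univ_four]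
    simp
    try ring
  · refine ⟨0, 1, -1, Or.inr (Or.inr rfl), ?_⟩
    simp only [Fin.sum_univ_four]
    simp
    try ring
  · refine ⟨0, 0, 0, Or.inl rfl, ?_⟩
    simp only [Fin.sum_univ_four]
    simp
    try ring

end MPbd3808.BR
end

section

/-!
# TASK R4: the exact sequences on the exceptional divisor, 2: algebra

Everything modulo the ideal `(D1, D0)`, `D1 = r0 . z`, `D0 = r1 . z`, on a full chart `σ`.
-/

open CategoryTheory CategoryTheory.Limits

namespace MPbd3808.BR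

universe u
variable (k : Type u) [Field k]

/-- the ideal of `E` -/
noncomputable abbrev GE : List (A k × Deg) := [(D1 k, dD), (D0 k, dD)]

/-- `D1 * q`, `D0 * q` lie in the ideal. -/
theorem D1_mul_mem {σ : Finset Vr} {c : Deg} {q : A k} (hq : q ∈ gr k σ c) :
    D1 k * q ∈ idl (GE k) σ (c + dD) := by
  refine Submodule.mem_sup_left ⟨q, ?_, rfl⟩
  change q ∈ gr k σ (c + dD - dD)
  rwa [add_sub_cancel_right]

theorem D0_mul_mem {σ : Finset Vr} {c : Deg} {q : A k} (hq : q ∈ gr k σ c) :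
    D0 k * q ∈ idl (GE k) σ (c + dD) := by
  refine Submodule.mem_sup_right (Submodule.mem_sup_left ⟨q, ?_, rfl⟩)
  change q ∈ gr k σ (c + dD - dD)
  rwa [add_sub_cancel_right]

section R4aux

variable {k} {σ : Finset Vr}

private theorem R4_all4 {Q : Fin 4 → Prop} (h0 : Q 0) (h1 : Q 1) (h2 : Q 2) (h3 : Q 3) :
    ∀ m, Q m := by
  intro m
  fin_cases m
  exacts [h0, h1, h2, h3]

private theorem R4_dD : dD = eH + eh := by
  funext i; revert i; decide

private theorem R4_gg {a b d : Deg} {p q : A k} (hp : p ∈ gr k σ a) (hq : q ∈ gr k σ b)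
    (h : d = a + b) : p * q ∈ gr k σ d := by
  subst h; exact mul_mem_gr hp hq

private theorem R4_gI {a b d : Deg} {p q : A k} (hp : p ∈ gr k σ a) (hq : q ∈ idl (GE k) σ b)
    (h : d = a + b) : p * q ∈ idl (GE k) σ d := by
  subst h; exact mul_mem_idl _ hp hq

private theorem R4_D1 {c d : Deg} {q : A k} (hq : q ∈ gr k σ c) (h : d = c + eH + eh) :
    D1 k * q ∈ idl (GE k) σ d := by
  have := D1_mul_mem k hq
  rw [R4_dD, ← add_assoc] at this
  subst h; exact this

private theorem R4_D0 {c d : Deg} {q : A k} (hq : q ∈ gr k σ c) (h : d = c + eH + eh) :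
    D0 k * q ∈ idl (GE k) σ d := by
  have := D0_mul_mem k hq
  rw [R4_dD, ← add_assoc] at this
  subst h; exact this

private theorem R4_rr (a : Fin 2) (j : Fin 4) : rr k a j ∈ gr k σ eH :=
  gr_mono (Finset.empty_subset σ) _ (rr_mem k a j)

private theorem R4_zz (j : Fin 4) : zz k j ∈ gr k σ eh :=
  gr_mono (Finset.empty_subset σ) _ (zz_mem k j)

private theorem R4_pp (i j : Fin 4) : pp k i j ∈ gr k σ (eH + eH) :=
  gr_mono (Finset.empty_subset σ) _ (pp_mem k i j)

private theorem R4_nc (i j : Fin 4) : nc k i j ∈ gr k σ (eH + eH) :=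
  gr_mono (Finset.empty_subset σ) _ (nc_mem k i j)

private theorem R4_uni (hσ : Full σ) {c : Deg} {x : A k}
    (h : ∀ i j, pp k i j * x ∈ idl (GE k) σ (c + eH + eH)) : x ∈ idl (GE k) σ c := by
  obtain ⟨c01, h01, c12, h12, c23, h23, hu⟩ := exists_unimodular k hσ
  have e : x = c01 * (pp k 0 1 * x) + c12 * (pp k 1 2 * x) + c23 * (pp k 2 3 * x) := by
    linear_combination x * hu
  rw [e]
  refine Submodule.add_mem _ (Submodule.add_mem _ ?_ ?_) ?_
  · exact R4_gI h01 (h 0 1) (by abel)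
  · exact R4_gI h12 (h 1 2) (by abel)
  · exact R4_gI h23 (h 2 3) (by abel)

end R4aux

/-- `r^T` is injective.

PROOF. `p_ij x0 = r1_j (r0_i x0 + r1_i x1) - r1_i (r0_j x0 + r1_j x1)` lies in the ideal (`mul_mem_idl`), similarly
`p_ij x1`; use `exists_unimodular` (`x0 = ∑ c_ij p_ij x0`). -/
theorem rT_inj {σ : Finset Vr} (hσ : Full σ) {c : Deg} {x0 x1 : A k} (h0 : x0 ∈ gr k σ c)
    (h1 : x1 ∈ gr k σ c)
    (h : ∀ j, rr k 0 j * x0 + rr k 1 j * x1 ∈ idl (GE k) σ (c + eH)) :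
    x0 ∈ idl (GE k) σ c ∧ x1 ∈ idl (GE k) σ c := by
  constructor
  · refine R4_uni hσ fun i j => ?_
    have e : pp k i j * x0 = rr k 1 j * (rr k 0 i * x0 + rr k 1 i * x1) -
        rr k 1 i * (rr k 0 j * x0 + rr k 1 j * x1) := by
      unfold pp; ring
    rw [e]
    exact Submodule.sub_mem _ (R4_gI (R4_rr 1 j) (h i) (by abel))
      (R4_gI (R4_rr 1 i) (h j) (by abel))
  · refine R4_uni hσ fun i j => ?_
    have e : pp k i j * x1 = rr k 0 i * (rr k 0 j * x0 + rr k 1 j * x1) -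
        rr k 0 j * (rr k 0 i * x0 + rr k 1 i * x1) := by
      unfold pp; ring
    rw [e]
    exact Submodule.sub_mem _ (R4_gI (R4_rr 0 i) (h j) (by abel))
      (R4_gI (R4_rr 0 j) (h i) (by abel))

/-- If `y . z = 0` then the cross product `n` is a multiple of `z`.

PROOF. By `cross_identity` (with `r0 = rr k 0`, `r1 = rr k 1`, `z = zz k`; `r0 . z = D1`, `r1 . z = D0`, `rr0_zz`, `rr1_zz`)
`n_i z_j - n_j z_i` lies in the ideal, of degree `c + eH + eH + eh`. Let `z_j` be a unit on `σ`, `y' z_j = 1`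
(`exists_z_unit`), and `w = y' n_j`. Then `n_i - z_i w = y' (n_i z_j - n_j z_i)` lies in the ideal. -/
theorem cross_mul {σ : Finset Vr} (hσ : Full σ) {c : Deg} {y : Fin 4 → A k}
    (hy : ∀ l, y l ∈ gr k σ c) (hz : ∑ l, y l * zz k l ∈ idl (GE k) σ (c + eh)) :
    ∃ w ∈ gr k σ (c + eH + eH - eh), ∀ i,
      (∑ l, nc k i l * y l) - zz k i * w ∈ idl (GE k) σ (c + eH + eH) := by
  have hn : ∀ i, (∑ l, nc k i l * y l) ∈ gr k σ (c + eH + eH) := fun i =>
    Submodule.sum_mem _ fun l _ => R4_gg (R4_nc i l) (hy l) (by abel)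
  have key : ∀ i j, (∑ l, nc k i l * y l) * zz k j - (∑ l, nc k j l * y l) * zz k i ∈
      idl (GE k) σ (c + eH + eH + eh) := by
    intro i j
    obtain ⟨a, b, ε, hε, he⟩ := cross_identity (rr k 0) (rr k 1) y (zz k) i j
    rw [rr0_zz, rr1_zz] at he
    have he' : (∑ l, nc k i l * y l) * zz k j - (∑ l, nc k j l * y l) * zz k i =
      ε * ((rr k 1 a * y b - rr k 1 b * y a) * D1 k -
        (rr k 0 a * y b - rr k 0 b * y a) * D0 k + pp k a b * (∑ m, y m * zz k m)) := he
    have hin : (rr k 1 a * y b - rr k 1 b * y a) * D1 k -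
        (rr k 0 a * y b - rr k 0 b * y a) * D0 k + pp k a b * (∑ m, y m * zz k m) ∈
        idl (GE k) σ (c + eH + eH + eh) := by
      refine Submodule.add_mem _ (Submodule.sub_mem _ ?_ ?_) ?_
      · rw [mul_comm]
        exact R4_D1 (Submodule.sub_mem _ (R4_gg (R4_rr 1 a) (hy b) rfl)
          (R4_gg (R4_rr 1 b) (hy a) rfl)) (by abel)
      · rw [mul_comm]
        exact R4_D0 (Submodule.sub_mem _ (R4_gg (R4_rr 0 a) (hy b) rfl)
          (R4_gg (R4_rr 0 b) (hy a) rfl)) (by abel)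
      · exact R4_gI (R4_pp a b) hz (by abel)
    rw [he']
    rcases hε with h | h | h
    · rw [h, zero_mul]; exact Submodule.zero_mem _
    · rw [h, one_mul]; exact hin
    · rw [h, neg_one_mul]; exact Submodule.neg_mem _ hin
  obtain ⟨j, y', hy', hyz⟩ := exists_z_unit k hσ
  refine ⟨y' * (∑ l, nc k j l * y l), R4_gg hy' (hn j) (by abel), fun i => ?_⟩
  have e : (∑ l, nc k i l * y l) - zz k i * (y' * (∑ l, nc k j l * y l)) =
      y' * ((∑ l, nc k i l * y l) * zz k j - (∑ l, nc k j l * y l) * zz k i) := by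
    linear_combination (-(∑ l, nc k i l * y l)) * hyz
  rw [e]
  exact R4_gI hy' (key i j) (by abel)

/-- If the cross product vanishes then `y` is a combination of `r0, r1`.

PROOF. `p_ij y_m = r1_m (r0_i y_j - r0_j y_i) + r0_m (r1_j y_i - r1_i y_j) + (± n)`: precisely
`p_ij y_m - p_im y_j + p_jm y_i` is `0` if `m ∈ {i,j}` and `±` a component of the cross product otherwise, and
`p_im y_j - p_jm y_i = r1_m (r0_i y_j - r0_j y_i) + r0_m (r1_j y_i - r1_i y_j)` (`ring`). So modulo the ideal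
`p_ij y = (r1_j y_i - r1_i y_j) r0 + (r0_i y_j - r0_j y_i) r1`; multiply by `c_ij` and sum (`exists_unimodular`). -/
theorem cross_zero {σ : Finset Vr} (hσ : Full σ) {c : Deg} {y : Fin 4 → A k}
    (hy : ∀ l, y l ∈ gr k σ c) (hn : ∀ i, (∑ l, nc k i l * y l) ∈ idl (GE k) σ (c + eH + eH)) :
    ∃ x0 ∈ gr k σ (c - eH), ∃ x1 ∈ gr k σ (c - eH), ∀ j,
      y j - (rr k 0 j * x0 + rr k 1 j * x1) ∈ idl (GE k) σ c := by
  obtain ⟨c01, h01, c12, h12, c23, h23, hu⟩ := exists_unimodular k hσ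
  have n0 := hn 0
  have n1 := hn 1
  have n2 := hn 2
  have n3 := hn 3
  rw [Fin.sum_univ_four] at n0 n1 n2 n3
  have hT : ∀ m : Fin 4,
      (pp k 0 1 * y m - (rr k 0 m * (rr k 1 1 * y 0 - rr k 1 0 * y 1) +
        rr k 1 m * (rr k 0 0 * y 1 - rr k 0 1 * y 0)) ∈ idl (GE k) σ (c + eH + eH)) ∧
      (pp k 1 2 * y m - (rr k 0 m * (rr k 1 2 * y 1 - rr k 1 1 * y 2) +
        rr k 1 m * (rr k 0 1 * y 2 - rr k 0 2 * y 1)) ∈ idl (GE k) σ (c + eH + eH)) ∧
      (pp k 2 3 * y m - (rr k 0 m * (rr k 1 3 * y 2 - rr k 1 2 * y 3) +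
        rr k 1 m * (rr k 0 2 * y 3 - rr k 0 3 * y 2)) ∈ idl (GE k) σ (c + eH + eH)) := by
    have z0 : (0 : A k) ∈ idl (GE k) σ (c + eH + eH) := Submodule.zero_mem _
    have e0 : nc k 0 0 * y 0 + nc k 0 1 * y 1 + nc k 0 2 * y 2 + nc k 0 3 * y 3 =
      pp k 2 3 * y 1 - pp k 1 3 * y 2 + pp k 1 2 * y 3 := by simp [nc]; ring
    have e1 : nc k 1 0 * y 0 + nc k 1 1 * y 1 + nc k 1 2 * y 2 + nc k 1 3 * y 3 =
      -pp k 2 3 * y 0 + pp k 0 3 * y 2 - pp k 0 2 * y 3 := by simp [nc]; ring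
    have e2 : nc k 2 0 * y 0 + nc k 2 1 * y 1 + nc k 2 2 * y 2 + nc k 2 3 * y 3 =
      pp k 1 3 * y 0 - pp k 0 3 * y 1 + pp k 0 1 * y 3 := by simp [nc]; ring
    have e3 : nc k 3 0 * y 0 + nc k 3 1 * y 1 + nc k 3 2 * y 2 + nc k 3 3 * y 3 =
      -pp k 1 2 * y 0 + pp k 0 2 * y 1 - pp k 0 1 * y 2 := by simp [nc]; ring
    rw [e0] at n0
    rw [e1] at n1
    rw [e2] at n2
    rw [e3] at n3
    have m0 := Submodule.neg_mem _ n0
    have m1 := Submodule.neg_mem _ n1
    have m2 := Submodule.neg_mem _ n2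
    have m3 := Submodule.neg_mem _ n3
    refine R4_all4 ?_ ?_ ?_ ?_
    · refine ⟨?_, ?_, ?_⟩
      · convert z0 using 1; simp only [pp]; ring
      · convert m3 using 1; simp only [pp]; ring
      · convert m1 using 1; simp only [pp]; ring
    · refine ⟨?_, ?_, ?_⟩
      · convert z0 using 1; simp only [pp]; ring
      · convert z0 using 1; simp only [pp]; ring
      · convert n0 using 1; simp only [pp]; ring
    · refine ⟨?_, ?_, ?_⟩
      · convert m3 using 1; simp only [pp]; ring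
      · convert z0 using 1; simp only [pp]; ring
      · convert z0 using 1; simp only [pp]; ring
    · refine ⟨?_, ?_, ?_⟩
      · convert n2 using 1; simp only [pp]; ring
      · convert n0 using 1; simp only [pp]; ring
      · convert z0 using 1; simp only [pp]; ring
  refine ⟨c01 * (rr k 1 1 * y 0 - rr k 1 0 * y 1) + c12 * (rr k 1 2 * y 1 - rr k 1 1 * y 2) +
      c23 * (rr k 1 3 * y 2 - rr k 1 2 * y 3), ?_,
    c01 * (rr k 0 0 * y 1 - rr k 0 1 * y 0) + c12 * (rr k 0 1 * y 2 - rr k 0 2 * y 1) +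
      c23 * (rr k 0 2 * y 3 - rr k 0 3 * y 2), ?_, fun m => ?_⟩
  · refine Submodule.add_mem _ (Submodule.add_mem _ ?_ ?_) ?_
    · exact R4_gg h01 (Submodule.sub_mem _ (R4_gg (R4_rr 1 1) (hy 0) rfl)
        (R4_gg (R4_rr 1 0) (hy 1) rfl)) (by abel)
    · exact R4_gg h12 (Submodule.sub_mem _ (R4_gg (R4_rr 1 2) (hy 1) rfl)
        (R4_gg (R4_rr 1 1) (hy 2) rfl)) (by abel)
    · exact R4_gg h23 (Submodule.sub_mem _ (R4_gg (R4_rr 1 3) (hy 2) rfl)
        (R4_gg (R4_rr 1 2) (hy 3) rfl)) (by abel)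
  · refine Submodule.add_mem _ (Submodule.add_mem _ ?_ ?_) ?_
    · exact R4_gg h01 (Submodule.sub_mem _ (R4_gg (R4_rr 0 0) (hy 1) rfl)
        (R4_gg (R4_rr 0 1) (hy 0) rfl)) (by abel)
    · exact R4_gg h12 (Submodule.sub_mem _ (R4_gg (R4_rr 0 1) (hy 2) rfl)
        (R4_gg (R4_rr 0 2) (hy 1) rfl)) (by abel)
    · exact R4_gg h23 (Submodule.sub_mem _ (R4_gg (R4_rr 0 2) (hy 3) rfl)
        (R4_gg (R4_rr 0 3) (hy 2) rfl)) (by abel)
  · obtain ⟨t1, t2, t3⟩ := hT m
    have e : y m - (rr k 0 m * (c01 * (rr k 1 1 * y 0 - rr k 1 0 * y 1) +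
          c12 * (rr k 1 2 * y 1 - rr k 1 1 * y 2) + c23 * (rr k 1 3 * y 2 - rr k 1 2 * y 3)) +
        rr k 1 m * (c01 * (rr k 0 0 * y 1 - rr k 0 1 * y 0) +
          c12 * (rr k 0 1 * y 2 - rr k 0 2 * y 1) + c23 * (rr k 0 2 * y 3 - rr k 0 3 * y 2))) =
      c01 * (pp k 0 1 * y m - (rr k 0 m * (rr k 1 1 * y 0 - rr k 1 0 * y 1) +
        rr k 1 m * (rr k 0 0 * y 1 - rr k 0 1 * y 0))) +
      c12 * (pp k 1 2 * y m - (rr k 0 m * (rr k 1 2 * y 1 - rr k 1 1 * y 2) +
        rr k 1 m * (rr k 0 1 * y 2 - rr k 0 2 * y 1))) +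
      c23 * (pp k 2 3 * y m - (rr k 0 m * (rr k 1 3 * y 2 - rr k 1 2 * y 3) +
        rr k 1 m * (rr k 0 2 * y 3 - rr k 0 3 * y 2))) := by
      linear_combination (y m) * hu
    rw [e]
    refine Submodule.add_mem _ (Submodule.add_mem _ ?_ ?_) ?_
    · exact R4_gI h01 t1 (by abel)
    · exact R4_gI h12 t2 (by abel)
    · exact R4_gI h23 t3 (by abel)

/-- Every `w` is obtained.

PROOF. For `k < l` let `y^(kl)` have the entries `z_k` in place `l`, `-z_l` in place `k`, `0` else: `y^(kl) . z = 0`. The cross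
product of `y^(23)` is `p01 z` modulo the ideal, that of `y^(03)` is `p12 z`, that of `y^(01)` is `p23 z` (use
`∑_m p_im z_m = r0_i (r1 . z) - r1_i (r0 . z)`, in the ideal). So
`y = w (c01 y^(23) + c12 y^(03) + c23 y^(01))` (`exists_unimodular`). Degrees: `c + 2H - h - 2H + h = c`. -/
theorem cross_surj {σ : Finset Vr} (hσ : Full σ) {c : Deg} {w : A k}
    (hw : w ∈ gr k σ (c + eH + eH - eh)) :
    ∃ y : Fin 4 → A k, (∀ l, y l ∈ gr k σ c) ∧ (∑ l, y l * zz k l = 0) ∧ ∀ i,
      (∑ l, nc k i l * y l) - zz k i * w ∈ idl (GE k) σ (c + eH + eH) := by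
  obtain ⟨c01, h01, c12, h12, c23, h23, hu⟩ := exists_unimodular k hσ
  have hD1 := rr0_zz k
  have hD0 := rr1_zz k
  rw [Fin.sum_univ_four] at hD1 hD0
  have z0 : ∀ d, (0 : A k) ∈ gr k σ d := fun d => Submodule.zero_mem _
  refine ⟨![w * (c12 * (-zz k 3) + c23 * (-zz k 1)), w * (c23 * zz k 0), w * (c01 * (-zz k 3)),
    w * (c01 * zz k 2 + c12 * zz k 0)], ?_, ?_, ?_⟩
  · intro l
    fin_cases l
    · exact R4_gg hw (Submodule.add_mem _ (R4_gg h12 (Submodule.neg_mem _ (R4_zz 3)) rfl)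
        (R4_gg h23 (Submodule.neg_mem _ (R4_zz 1)) rfl)) (by abel)
    · exact R4_gg hw (R4_gg h23 (R4_zz 0) rfl) (by abel)
    · exact R4_gg hw (R4_gg h01 (Submodule.neg_mem _ (R4_zz 3)) rfl) (by abel)
    · exact R4_gg hw (Submodule.add_mem _ (R4_gg h01 (R4_zz 2) rfl) (R4_gg h12 (R4_zz 0) rfl))
        (by abel)
  · rw [Fin.sum_univ_four]
    simp only [Matrix.cons_val]
    ring
  · have hS : ∀ a : Fin 4, D0 k * rr k 0 a - D1 k * rr k 1 a ∈ idl (GE k) σ (eH + eH + eh) :=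
      fun a => Submodule.sub_mem _ (R4_D0 (R4_rr 0 a) (by abel)) (R4_D1 (R4_rr 1 a) (by abel))
    have main : ∀ E1 E2 E3 : A k, E1 ∈ idl (GE k) σ (eH + eH + eh) →
        E2 ∈ idl (GE k) σ (eH + eH + eh) → E3 ∈ idl (GE k) σ (eH + eH + eh) →
        w * (c01 * E1 + c12 * E2 + c23 * E3) ∈ idl (GE k) σ (c + eH + eH) := by
      intro E1 E2 E3 g1 g2 g3
      refine R4_gI hw (Submodule.add_mem _ (Submodule.add_mem _ (R4_gI h01 g1 rfl)
        (R4_gI h12 g2 rfl)) (R4_gI h23 g3 rfl)) ?_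
      abel
    have zI : (0 : A k) ∈ idl (GE k) σ (eH + eH + eh) := Submodule.zero_mem _
    simp only [Fin.sum_univ_four]
    refine R4_all4 ?_ ?_ ?_ ?_
    · convert main _ _ _ (hS 1) zI zI using 1
      simp only [nc, Matrix.cons_val, pp]
      rw [← hD0, ← hD1]
      simp only [pp] at hu
      linear_combination (-(zz k 0 * w)) * hu
    · convert main _ _ _ (Submodule.neg_mem _ (hS 0)) (hS 2) zI using 1
      simp only [nc, Matrix.cons_val, pp]
      rw [← hD0, ← hD1]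
      simp only [pp] at hu
      linear_combination (-(zz k 1 * w)) * hu
    · convert main _ _ _ zI (Submodule.neg_mem _ (hS 1)) (hS 3) using 1
      simp only [nc, Matrix.cons_val, pp]
      rw [← hD0, ← hD1]
      simp only [pp] at hu
      linear_combination (-(zz k 2 * w)) * hu
    · convert main _ _ _ zI zI (Submodule.neg_mem _ (hS 2)) using 1
      simp only [nc, Matrix.cons_val, pp]
      rw [← hD0, ← hD1]
      simp only [pp] at hu
      linear_combination (-(zz k 3 * w)) * hu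

/-- Multiplication with `z` is injective. PROOF. `exists_z_unit`. -/
theorem z_inj {σ : Finset Vr} (hσ : Full σ) {c : Deg} {w : A k} (hw : w ∈ gr k σ c)
    (h : ∀ i, zz k i * w ∈ idl (GE k) σ (c + eh)) : w ∈ idl (GE k) σ c := by
  obtain ⟨j, y', hy', hyz⟩ := exists_z_unit k hσ
  have e : w = y' * (zz k j * w) := by
    linear_combination (-w) * hyz
  rw [e]
  exact R4_gI hy' (h j) (by abel)

end MPbd3808.BR
end

section

/-!
# Functions on the charts of `W` as elements of `RL`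
-/

set_option autoImplicit false

open CategoryTheory CategoryTheory.Limits AlgebraicGeometry TopologicalSpace HomogeneousLocalization

namespace BS

open MPbd3808.BR

universe u

variable (k : Type u) [Field k]

/-- the standard open set of a homogeneous element -/
noncomputable def DP (m : AA k) : (W k).Opens := Proj.basicOpen (AG k) m

/-- the functions on `D_+(m)` as elements of `RL` -/
noncomputable def sc (m : AA k) {d : ℕ} (hd : m ∈ AG k d) (h0 : 0 < d) (hm : IsUnit (ev1 k m)) :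
    Γ(W k, DP k m) →+* RL k :=
  (psi k m hm).comp (Proj.basicOpenIsoAway (AG k) m hd h0).inv.hom

/-- PROOF. `Iso.inv_hom_id`; `(Proj.basicOpenIsoAway ..).hom = Proj.awayToSection ..` (`Proj.basicOpenIsoAway_hom`). -/
theorem sc_away (m : AA k) {d : ℕ} (hd : m ∈ AG k d) (h0 : 0 < d) (hm : IsUnit (ev1 k m))
    (a : Away (AG k) m) :
    sc k m hd h0 hm ((Proj.awayToSection (AG k) m).hom a) = psi k m hm a := by
  have h := congr($((Proj.basicOpenIsoAway (AG k) m hd h0).hom_inv_id).hom a)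
  rw [Proj.basicOpenIsoAway_hom] at h
  exact congrArg (psi k m hm) h

/-- PROOF. `psi_inj` and the isomorphism. -/
theorem sc_inj (m : AA k) {d : ℕ} (hd : m ∈ AG k d) (h0 : 0 < d) (hm : IsUnit (ev1 k m)) :
    Function.Injective (sc k m hd h0 hm) := by
  refine (psi_inj k m hm hd).comp ?_
  have h : Function.LeftInverse (Proj.basicOpenIsoAway (AG k) m hd h0).hom.hom
      (Proj.basicOpenIsoAway (AG k) m hd h0).inv.hom := fun y =>
    congr($((Proj.basicOpenIsoAway (AG k) m hd h0).inv_hom_id).hom y)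
  exact h.injective

/-- PROOF. Every function on `D_+(m)` is `awayToSection a`; `Proj.awayMap_awayToSection`, `sc_away`, `psi_awayMap`. -/
theorem sc_mul (m g x : AA k) (hx : x = m * g) {d d' : ℕ} (hd : m ∈ AG k d) (h0 : 0 < d)
    (hg : g ∈ AG k d') (hxd : x ∈ AG k (d + d')) (hm : IsUnit (ev1 k m)) (hxu : IsUnit (ev1 k x))
    (h : DP k x ≤ DP k m) (y : Γ(W k, DP k m)) :
    sc k x hxd (Nat.add_pos_left h0 d') hxu (rO (W k) h y) = sc k m hd h0 hm y := by
  obtain ⟨a, rfl⟩ : ∃ a : Away (AG k) m, (Proj.awayToSection (AG k) m).hom a = y := by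
    refine ⟨(Proj.basicOpenIsoAway (AG k) m hd h0).inv.hom y, ?_⟩
    have h := congr($((Proj.basicOpenIsoAway (AG k) m hd h0).inv_hom_id).hom y)
    rw [Proj.basicOpenIsoAway_hom] at h
    exact h
  have h1 : rO (W k) h ((Proj.awayToSection (AG k) m).hom a) =
      (Proj.awayToSection (AG k) x).hom (awayMap (AG k) hg hx a) :=
    (congr($(Proj.awayMap_awayToSection (AG k) hg hx).hom a)).symm
  rw [h1, sc_away, sc_away, psi_awayMap k m g x hx hm hxu hd hg]

private theorem unit_iff {σ : Type*} {A : Type u} [CommRing A] [SetLike σ A]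
    [AddSubgroupClass σ A] (𝒜 : ℕ → σ) [GradedRing 𝒜] (m : A) {d : ℕ} (hd : m ∈ 𝒜 d) (j : ℕ)
    (y : A) (hy : y ∈ 𝒜 (j • d)) (x : Proj 𝒜) (hx : x ∈ Proj.basicOpen 𝒜 m) :
    IsUnit ((Proj 𝒜).presheaf.germ (Proj.basicOpen 𝒜 m) x hx
      ((Proj.awayToSection 𝒜 m).hom (Away.mk 𝒜 hd j y hy))) ↔ x ∈ Proj.basicOpen 𝒜 y := by
  have h1 := congr($(ProjectiveSpectrum.Proj.awayToSection_germ 𝒜 m x hx).hom
    (Away.mk 𝒜 hd j y hy))
  have h2 : (Proj 𝒜).presheaf.germ (Proj.basicOpen 𝒜 m) x hx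
      ((Proj.awayToSection 𝒜 m).hom (Away.mk 𝒜 hd j y hy)) =
      (Proj.stalkIso' 𝒜 x).symm (HomogeneousLocalization.mapId 𝒜
        (Submonoid.powers_le.mpr hx) (Away.mk 𝒜 hd j y hy)) := h1
  rw [h2]
  refine (MulEquiv.isUnit_map (Proj.stalkIso' 𝒜 x).symm).trans ?_
  rw [← HomogeneousLocalization.isUnit_iff_isUnit_val, Away.mk, HomogeneousLocalization.map_mk,
    HomogeneousLocalization.val_mk, Localization.mk_eq_mk',
    IsLocalization.AtPrime.isUnit_mk'_iff]
  rfl

/-- PROOF. `s = awayToSection a`, `a = Away.mk j y`. Both sides are contained in `D_+(m)`, the range of `Proj.awayι (AG k) m hd h0`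
(`Proj.opensRange_awayι`), so it is enough to compare the preimages under `Proj.awayι`. The preimage of `basicOpen s` is
`PrimeSpectrum.basicOpen a` (`Scheme.preimage_basicOpen`, `awayι` and `basicOpenIsoAway`: the sections of `awayι`
on `D_+(m)`), the preimage of `D_+(y)` is `basicOpen (y^d/m^(j d))` (`Proj.awayι_preimage_basicOpen` with `y` of degree `j d`; if `j = 0` replace
`(j, y)` by `(1, m y)` first) and `y^d/m^(jd) = a^d`. -/
theorem basicOpen_sec (m : AA k) {d : ℕ} (hd : m ∈ AG k d) (h0 : 0 < d) (j : ℕ) (hj : 0 < j) (y : AA k)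
    (hy : y ∈ AG k (j • d)) :
    Scheme.basicOpen (X := W k) (U := DP k m)
        ((Proj.awayToSection (AG k) m).hom (Away.mk (AG k) hd j y hy)) = DP k m ⊓ DP k y := by
  ext x
  change x ∈ Scheme.basicOpen (X := W k) (U := DP k m)
        ((Proj.awayToSection (AG k) m).hom (Away.mk (AG k) hd j y hy)) ↔ x ∈ DP k m ∧ x ∈ DP k y
  rw [Scheme.mem_basicOpen'']
  constructor
  · rintro ⟨hx, hu⟩
    exact ⟨hx, (unit_iff (AG k) m hd j y hy x hx).1 hu⟩
  · rintro ⟨hx, hy'⟩
    exact ⟨hx, (unit_iff (AG k) m hd j y hy x hx).2 hy'⟩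

end BS
end
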